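import Pool.Agent.MTX.R2a

/-! # MTX, Part R : the actions on `R = ℂ[x_1, …, x_n, ħ]` (`ħ = X none`) and on `A = ℂ[x_1, …, x_n]` -/

namespace Pool.Agent.MTX

open MvPolynomial

namespace SLD

variable {n : ℕ} (D : SLD n)

/-- `R = ℂ[x_1, …, x_n, ħ]` -/
abbrev RR (n : ℕ) := MvPolynomial (Option (Fin n)) ℂ

/-- `A = ℂ[x_1, …, x_n]` -/
abbrev AA (n : ℕ) := MvPolynomial (Fin n) ℂ

/-- coefficients of the form of `(x, k)` -/
def fc (x : Fin n → ℤ) (k : ℤ) : Option (Fin n) → ℂ
  | none => k
  | some j => x j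

/-- the form of `x + k ħ` -/
noncomputable def fm (x : Fin n → ℤ) (k : ℤ) : RR n := lin (fc x k)

/-- the form of `x` -/
noncomputable def fm0 (x : Fin n → ℤ) : AA n := lin fun j => (x j : ℂ)

theorem fc_add (x y : Fin n → ℤ) (k l : ℤ) : fc (x + y) (k + l) = fc x k + fc y l := by
  funext j; cases j <;> simp [fc]

theorem fc_smul (m : ℤ) (x : Fin n → ℤ) (k : ℤ) : fc (m • x) (m * k) = (m : ℂ) • fc x k := by
  funext j; cases j <;> simp [fc]

theorem fc_ne_zero {x : Fin n → ℤ} (h : x ≠ 0) (k : ℤ) : fc x k ≠ 0 := by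
  intro h'
  apply h
  funext j
  have := congrFun h' (some j)
  simpa [fc] using this

theorem fm_add (x y : Fin n → ℤ) (k l : ℤ) : fm (x + y) (k + l) = fm x k + fm y l := by
  rw [fm, fc_add, lin_add]; rfl

theorem fm_smul (m : ℤ) (x : Fin n → ℤ) (k : ℤ) : fm (m • x) (m * k) = MvPolynomial.C (m : ℂ) * fm x k := by
  rw [fm, fc_smul, lin_smul]; rfl

theorem fm_zero : fm (0 : Fin n → ℤ) 0 = 0 := by
  have h := fm_smul 0 (0 : Fin n → ℤ) 0
  rw [zero_smul, zero_mul, Int.cast_zero, C_0, zero_mul] at h
  exact h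

theorem fm_h : fm (0 : Fin n → ℤ) 1 = X none := by
  rw [← lin_single]
  unfold fm
  congr 1
  funext j
  cases j <;> simp [fc]

theorem fm_al (i : Fin n) : fm (Pi.single i 1 : Fin n → ℤ) 0 = X (some i) := by
  rw [← lin_single]
  unfold fm
  congr 1
  funext j
  cases j with
  | none => simp [fc]
  | some j => simp [fc, Pi.single_apply]

theorem fm_neg (x : Fin n → ℤ) (k : ℤ) : fm (-x) (-k) = - fm x k := by
  have h := fm_smul (-1) x k
  rw [neg_one_smul, neg_one_mul] at h
  rw [h]; simp

theorem fm_sum {ι : Type*} (s : Finset ι) (x : ι → Fin n → ℤ) (k : ι → ℤ) :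
    fm (∑ i ∈ s, x i) (∑ i ∈ s, k i) = ∑ i ∈ s, fm (x i) (k i) := by
  classical
  induction s using Finset.induction_on with
  | empty => simp [fm_zero]
  | insert a s ha ih =>
    rw [Finset.sum_insert ha, Finset.sum_insert ha, Finset.sum_insert ha, fm_add, ih]

theorem fm0_add (x y : Fin n → ℤ) : fm0 (x + y) = fm0 x + fm0 y := by
  rw [fm0, fm0, fm0, ← lin_add]
  congr 1
  funext j; simp

theorem fm0_smul (m : ℤ) (x : Fin n → ℤ) : fm0 (m • x) = MvPolynomial.C (m : ℂ) * fm0 x := by
  rw [fm0, fm0, ← lin_smul]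
  congr 1
  funext j; simp

theorem fm0_zero : fm0 (0 : Fin n → ℤ) = 0 := by
  have h := fm0_smul 0 (0 : Fin n → ℤ)
  rw [zero_smul, Int.cast_zero, C_0, zero_mul] at h
  exact h

theorem fm0_neg (x : Fin n → ℤ) : fm0 (-x) = - fm0 x := by
  have h := fm0_smul (-1) x
  rw [neg_one_smul] at h
  rw [h]; simp

theorem fm0_sub (x y : Fin n → ℤ) : fm0 (x - y) = fm0 x - fm0 y := by
  rw [sub_eq_add_neg, fm0_add, fm0_neg, sub_eq_add_neg]

theorem fm0_al (i : Fin n) : fm0 (Pi.single i 1 : Fin n → ℤ) = X i := by
  rw [← lin_single]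
  unfold fm0
  congr 1
  funext j
  simp [Pi.single_apply]

theorem fm0_ne_zero {x : Fin n → ℤ} (h : x ≠ 0) : fm0 x ≠ 0 := by
  apply lin_ne_zero
  intro h'
  apply h
  funext j
  have := congrFun h' j
  simpa using this

theorem fm0_prime {x : Fin n → ℤ} (h : x ≠ 0) : Prime (fm0 x) := by
  apply lin_prime
  intro h'
  apply h
  funext j
  have := congrFun h' j
  simpa using this

theorem fm_prime {x : Fin n → ℤ} (h : x ≠ 0) (k : ℤ) : Prime (fm x k) :=
  lin_prime (fc_ne_zero h k)

/-! ### the action of the isometries on `A` -/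

/-- the action of an isometry on `A` -/
noncomputable def actO (u : D.OQ) : AA n →ₐ[ℂ] AA n := aeval fun i => fm0 (u.1 (Pi.single i 1))

theorem actO_fm0 (u : D.OQ) (x : Fin n → ℤ) : D.actO u (fm0 x) = fm0 (u.1 x) := by
  have h1 : x = ∑ i, x i • (Pi.single i 1 : Fin n → ℤ) := D.eq_sum_al x
  have h2 : fm0 x = ∑ i, MvPolynomial.C (x i : ℂ) * fm0 (Pi.single i 1 : Fin n → ℤ) := by
    rw [fm0, lin]
    exact Finset.sum_congr rfl fun i _ => by rw [fm0_al]
  have h3 : ∀ (s : Finset (Fin n)), fm0 (∑ i ∈ s, x i • u.1 (Pi.single i 1 : Fin n → ℤ)) =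
      ∑ i ∈ s, MvPolynomial.C (x i : ℂ) * fm0 (u.1 (Pi.single i 1 : Fin n → ℤ)) := by
    intro s
    classical
    induction s using Finset.induction_on with
    | empty => simp [fm0_zero]
    | insert a s ha ih => rw [Finset.sum_insert ha, Finset.sum_insert ha, fm0_add, fm0_smul, ih]
  rw [h2, map_sum]
  conv_rhs => rw [h1, map_sum]
  simp only [map_smul]
  rw [h3]
  refine Finset.sum_congr rfl fun i _ => ?_
  rw [map_mul, fm0_al]
  unfold actO
  rw [aeval_X, algHom_C, algebraMap_eq]

theorem actO_X (u : D.OQ) (i : Fin n) : D.actO u (X i) = fm0 (u.1 (Pi.single i 1)) := by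
  rw [← fm0_al, actO_fm0]

theorem actO_one : D.actO 1 = AlgHom.id ℂ _ := by
  apply algHom_ext
  intro i
  rw [actO_X, AlgHom.id_apply, ← fm0_al]; rfl

theorem actO_mul (u v : D.OQ) : D.actO (u * v) = (D.actO u).comp (D.actO v) := by
  apply algHom_ext
  intro i
  rw [actO_X, AlgHom.comp_apply, actO_X, actO_fm0]; rfl

noncomputable instance instOQA : MulSemiringAction D.OQ (AA n) where
  smul u p := D.actO u p
  one_smul p := by show D.actO 1 p = p; rw [actO_one]; rfl
  mul_smul u v p := by show D.actO (u * v) p = D.actO u (D.actO v p); rw [actO_mul]; rfl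
  smul_zero u := map_zero _
  smul_add u p q := map_add _ _ _
  smul_one u := map_one _
  smul_mul u p q := map_mul _ _ _

theorem OQ_smul_def (u : D.OQ) (p : AA n) : u • p = D.actO u p := rfl

/-- the action of the affine group on `A`: through the finite part -/
noncomputable instance instAffA : MulSemiringAction D.Aff (AA n) where
  smul w p := D.actO w.u p
  one_smul p := one_smul D.OQ p
  mul_smul w w' p := mul_smul w.u w'.u p
  smul_zero u := map_zero _
  smul_add u p q := map_add _ _ _
  smul_one u := map_one _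
  smul_mul u p q := map_mul _ _ _

theorem Aff_smul_A (w : D.Aff) (p : AA n) : w • p = w.u • p := rfl

theorem smul_fm0 (u : D.OQ) (x : Fin n → ℤ) : u • (fm0 x : AA n) = fm0 (u.1 x) := D.actO_fm0 u x

theorem smul_C (u : D.OQ) (z : ℂ) : u • (MvPolynomial.C z : AA n) = MvPolynomial.C z := algHom_C (D.actO u) z

/-! ### the action of the affine group on `R` -/

/-- the action of an affine isometry on `R` -/
noncomputable def actR (w : D.Aff) : RR n →ₐ[ℂ] RR n := aeval fun
  | none => X none
  | some i => fm (w.u.1 (Pi.single i 1)) (- D.B w.l (w.u.1 (Pi.single i 1)))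

theorem actR_none (w : D.Aff) : D.actR w (X none) = X none := by
  unfold actR; rw [aeval_X]

theorem actR_some (w : D.Aff) (i : Fin n) : D.actR w (X (some i)) =
    fm (w.u.1 (Pi.single i 1)) (- D.B w.l (w.u.1 (Pi.single i 1))) := by
  unfold actR; rw [aeval_X]

theorem actR_fm (w : D.Aff) (x : Fin n → ℤ) (k : ℤ) :
    D.actR w (fm x k) = fm (w.u.1 x) (k - D.B w.l (w.u.1 x)) := by
  have h1 : x = ∑ i, x i • (Pi.single i 1 : Fin n → ℤ) := D.eq_sum_al x
  have h2 : fm x k = ∑ i, MvPolynomial.C (x i : ℂ) * X (some i) + MvPolynomial.C (k : ℂ) * X none := by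
    rw [fm, lin, Fintype.sum_option, add_comm]; rfl
  have h3 : ∀ (s : Finset (Fin n)), fm (w.u.1 (∑ i ∈ s, x i • (Pi.single i 1 : Fin n → ℤ)))
      (- D.B w.l (w.u.1 (∑ i ∈ s, x i • (Pi.single i 1 : Fin n → ℤ)))) =
      ∑ i ∈ s, MvPolynomial.C (x i : ℂ) * fm (w.u.1 (Pi.single i 1 : Fin n → ℤ))
        (- D.B w.l (w.u.1 (Pi.single i 1 : Fin n → ℤ))) := by
    intro s
    classical
    induction s using Finset.induction_on with
    | empty => simp [B_zero_right, fm_zero]
    | insert a s ha ih =>
      rw [Finset.sum_insert ha, Finset.sum_insert ha, map_add, B_add_right, neg_add, fm_add, ih,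
        map_smul, B_smul_right, ← mul_neg, fm_smul]
  have h4 : fm (w.u.1 x) (k - D.B w.l (w.u.1 x)) =
      fm (w.u.1 x) (- D.B w.l (w.u.1 x)) + MvPolynomial.C (k : ℂ) * fm (0 : Fin n → ℤ) 1 := by
    rw [← fm_smul, ← fm_add]
    congr 1
    · simp
    · ring
  rw [h4, fm_h]
  conv_rhs => rw [h1, h3]
  rw [h2, map_add, map_sum]
  congr 1
  · refine Finset.sum_congr rfl fun i _ => ?_
    rw [map_mul, actR_some, algHom_C, algebraMap_eq]
  · rw [map_mul, actR_none, algHom_C, algebraMap_eq]

theorem actR_one : D.actR 1 = AlgHom.id ℂ _ := by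
  apply algHom_ext
  intro i
  cases i with
  | none => rw [actR_none]; rfl
  | some i =>
    rw [← fm_al, actR_fm, one_l, B_zero_left, sub_zero]
    rfl

theorem actR_mul (w w' : D.Aff) : D.actR (w * w') = (D.actR w).comp (D.actR w') := by
  apply algHom_ext
  intro i
  cases i with
  | none => rw [AlgHom.comp_apply, actR_none, actR_none, actR_none]
  | some i =>
    rw [← fm_al, AlgHom.comp_apply, actR_fm, actR_fm, actR_fm]
    have h1 : (w * w').u.1 (Pi.single i 1) = w.u.1 (w'.u.1 (Pi.single i 1)) := rfl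
    rw [h1, mul_l, B_add_left, w.u.2]
    congr 1
    ring

noncomputable instance instAffR : MulSemiringAction D.Aff (RR n) where
  smul w p := D.actR w p
  one_smul p := by show D.actR 1 p = p; rw [actR_one]; rfl
  mul_smul u v p := by show D.actR (u * v) p = D.actR u (D.actR v p); rw [actR_mul]; rfl
  smul_zero u := map_zero _
  smul_add u p q := map_add _ _ _
  smul_one u := map_one _
  smul_mul u p q := map_mul _ _ _

theorem Aff_smul_R (w : D.Aff) (p : RR n) : w • p = D.actR w p := rfl

theorem smul_fm (w : D.Aff) (x : Fin n → ℤ) (k : ℤ) :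
    w • (fm x k : RR n) = fm (w.u.1 x) (k - D.B w.l (w.u.1 x)) := D.actR_fm w x k

/-- the form of an affine root -/
noncomputable def af (b : D.ARt) : RR n := fm b.1.1 b.2

theorem af_smul (w : D.Aff) (b : D.ARt) : D.af (w • b) = w • D.af b := by
  rw [af, af, smul_fm]; rfl

/-! ### reduction modulo `ħ` -/

/-- `ħ ↦ 0` -/
noncomputable def rho : RR n →ₐ[ℂ] AA n := aeval fun
  | none => 0
  | some i => X i

theorem rho_none : rho (X none : RR n) = 0 := by unfold rho; rw [aeval_X]

theorem rho_some (i : Fin n) : rho (X (some i) : RR n) = X i := by unfold rho; rw [aeval_X]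

theorem rho_fm (x : Fin n → ℤ) (k : ℤ) : rho (fm x k) = fm0 x := by
  have h2 : fm x k = ∑ i, MvPolynomial.C (x i : ℂ) * X (some i) + MvPolynomial.C (k : ℂ) * X none := by
    rw [fm, lin, Fintype.sum_option, add_comm]; rfl
  rw [h2, map_add, map_sum, map_mul, rho_none, mul_zero, add_zero, fm0, lin]
  refine Finset.sum_congr rfl fun i _ => ?_
  rw [map_mul, rho_some, algHom_C, algebraMap_eq]

theorem rho_surj : Function.Surjective (rho (n := n)) := by
  intro p
  refine ⟨rename some p, ?_⟩
  have : rho.comp (rename (R := ℂ) (some : Fin n → Option (Fin n))) = AlgHom.id ℂ _ := by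
    apply algHom_ext
    intro i
    rw [AlgHom.comp_apply, rename_X, rho_some]; rfl
  exact DFunLike.congr_fun this p

theorem rho_ker (p : RR n) : rho p = 0 ↔ X none ∣ p := by
  constructor
  · intro h
    -- `p - rename some (rho p)` is divisible by `X none`
    have key : ∀ q : RR n, (X none : RR n) ∣ q - rename some (rho q) := by
      intro q
      induction q using MvPolynomial.induction_on with
      | C a => rw [algHom_C, algebraMap_eq, rename_C, sub_self]; exact dvd_zero _
      | add p q hp hq =>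
        have : p + q - rename some (rho (p + q)) =
            (p - rename some (rho p)) + (q - rename some (rho q)) := by
          rw [map_add, map_add]; ring
        rw [this]; exact dvd_add hp hq
      | mul_X p i hp =>
        have : p * X i - rename some (rho (p * X i)) =
            (p - rename some (rho p)) * X i +
            rename some (rho p) * (X i - rename some (rho (X i : RR n))) := by
          rw [map_mul, map_mul]; ring
        rw [this]
        refine dvd_add (Dvd.dvd.mul_right hp _) (Dvd.dvd.mul_left ?_ _)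
        cases i with
        | none => rw [rho_none, map_zero, sub_zero]
        | some i => rw [rho_some, rename_X, sub_self]; exact dvd_zero _
    have := key p
    rwa [h, map_zero, sub_zero] at this
  · rintro ⟨q, rfl⟩
    rw [map_mul, rho_none, zero_mul]

theorem rho_equiv (w : D.Aff) (p : RR n) : rho (w • p) = w • (rho p : AA n) := by
  have : rho.comp (D.actR w) = (D.actO w.u).comp rho := by
    apply algHom_ext
    intro i
    cases i with
    | none => rw [AlgHom.comp_apply, AlgHom.comp_apply, actR_none, rho_none, map_zero]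
    | some i => rw [AlgHom.comp_apply, AlgHom.comp_apply, actR_some, rho_fm, rho_some, actO_X]
  exact DFunLike.congr_fun this p

theorem prime_h : Prime (X none : RR n) := by
  rw [← fm_h]
  apply lin_prime
  intro h
  have := congrFun h none
  simp [fc] at this

theorem h_ndvd (b : D.ARt) : ¬ (X none : RR n) ∣ D.af b := by
  rw [← rho_ker, af, rho_fm]
  exact fm0_ne_zero (D.Rt_ne_zero b.1)

end SLD

end Pool.Agent.MTX
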