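import Pool.Agent.MTX.S9

/-! # MTX, Part S : self-duality of Bott–Samelson lattices (4.1) -/

namespace Pool.Agent.MTX

variable {R G S : Type} [CommRing R] [IsDomain R] [Algebra ℚ R] [Group G]
  [MulSemiringAction G R] (W : SW R G S)

omit [IsDomain R] [Algebra ℚ R] in
theorem ry_BS (l : List S) : RyLat (W.BS l) := ry_words W (ry_base 1) l

omit [IsDomain R] [Algebra ℚ R] in
theorem ring_BS (l : List S) : RingLat (W.BS l) := ring_words W (ry_base 1) (ring_base 1) l

omit [Algebra ℚ R] in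
theorem big_BS (l : List S) : Big (W.BS l) := big_words W (big_base 1) l

omit [Algebra ℚ R] in
private theorem s9b_dual_nil (φ : (W.BS []).M →ₗ[R] R) :
    ∃ a : (W.BS []).M, ∀ g, φ g = W.Tr [] (mulM (ring_BS W []) g a) := by
  refine ⟨⟨fun _ => φ ⟨fun _ => 1, mem_base _ _⟩, mem_base _ _⟩, fun g => ?_⟩
  have h1 : g = (g.1 ()) • (⟨fun _ => 1, mem_base _ _⟩ : (W.BS []).M) := by
    apply Subtype.ext
    funext p
    show g.1 p = g.1 () * 1
    rw [mul_one]
    rfl
  have h2 : φ g = g.1 () * φ ⟨fun _ => 1, mem_base _ _⟩ := by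
    have h3 := congrArg φ h1
    rw [map_smul] at h3
    exact h3
  exact h2

private theorem s9b_dual_cons (s : S) (l : List S)
    (ih : ∀ φ : (W.BS l).M →ₗ[R] R,
      ∃ a : (W.BS l).M, ∀ g, φ g = W.Tr l (mulM (ring_BS W l) g a))
    (φ : (Lat.star (W.f s) (W.g s) (W.BS l)).M →ₗ[R] R) :
    ∃ a : (Lat.star (W.f s) (W.g s) (W.BS l)).M, ∀ g, φ g =
      W.Tr l (trM (W.g s) (W.BS l) (W.f_ne s) (mulM (ring_BS W (s :: l)) g a)) := by
  obtain ⟨a0, h0⟩ := ih (φ ∘ₗ dup (W.f s) (W.g s) (W.BS l))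
  obtain ⟨a1, h1⟩ := ih (φ ∘ₗ dal (W.f s) (W.g s) (ry_BS W l))
  let c : R := algebraMap ℚ R (1 / 2)
  have hc : c * 2 = 1 := by
    have h2 : (2 : R) = algebraMap ℚ R 2 := (map_ofNat (algebraMap ℚ R) 2).symm
    rw [h2, ← map_mul]
    norm_num
  refine ⟨c • (dup (W.f s) (W.g s) (W.BS l) a1 + dal (W.f s) (W.g s) (ry_BS W l) a0), fun x => ?_⟩
  let x0 : (W.BS l).M := ⟨fun p => x.1 (p, false), x.2.1⟩
  let t : (W.BS l).M := trM (W.g s) (W.BS l) (W.f_ne s) x
  let g0 : (W.BS l).M := x0 - c • ryL (ry_BS W l) (W.f s) t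
  let g1 : (W.BS l).M := c • t
  have ht : ∀ p, x.1 (p, false) - x.1 (p, true) = ((W.BS l).lab p • W.f s) * t.1 p :=
    fun p => trM_spec (W.f_ne s) x p
  have hg0 : ∀ p, g0.1 p = x.1 (p, false) - c * (((W.BS l).lab p • W.f s) * t.1 p) :=
    fun p => rfl
  have hg1 : ∀ p, g1.1 p = c * t.1 p := fun p => rfl
  have hx : x = dup (W.f s) (W.g s) (W.BS l) g0 + dal (W.f s) (W.g s) (ry_BS W l) g1 := by
    apply Subtype.ext
    funext q
    obtain ⟨p, b⟩ := q
    cases b with
    | false =>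
      show x.1 (p, false) = (dup (W.f s) (W.g s) (W.BS l) g0).1 (p, false) +
        (dal (W.f s) (W.g s) (ry_BS W l) g1).1 (p, false)
      rw [dal_false, dup_apply, hg0, hg1]
      ring
    | true =>
      show x.1 (p, true) = (dup (W.f s) (W.g s) (W.BS l) g0).1 (p, true) +
        (dal (W.f s) (W.g s) (ry_BS W l) g1).1 (p, true)
      rw [dal_true, dup_apply, hg0, hg1]
      linear_combination (-1 : R) * ht p + ((W.BS l).lab p • W.f s) * t.1 p * hc
  have e1 : φ x = W.Tr l (mulM (ring_BS W l) g0 a0) + W.Tr l (mulM (ring_BS W l) g1 a1) := by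
    rw [← h0, ← h1]
    conv_lhs => rw [hx]
    rw [map_add]
    rfl
  rw [e1, ← map_add]
  congr 1
  symm
  apply Subtype.ext
  apply trM_unique
  intro p
  have ea0 : (c • (dup (W.f s) (W.g s) (W.BS l) a1 +
      dal (W.f s) (W.g s) (ry_BS W l) a0)).1 (p, false) =
      c * (a1.1 p + ((W.BS l).lab p • W.f s) * a0.1 p) := by
    show c * ((dup (W.f s) (W.g s) (W.BS l) a1).1 (p, false) +
      (dal (W.f s) (W.g s) (ry_BS W l) a0).1 (p, false)) = _
    rw [dal_false, dup_apply]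
  have ea1 : (c • (dup (W.f s) (W.g s) (W.BS l) a1 +
      dal (W.f s) (W.g s) (ry_BS W l) a0)).1 (p, true) =
      c * (a1.1 p - ((W.BS l).lab p • W.f s) * a0.1 p) := by
    show c * ((dup (W.f s) (W.g s) (W.BS l) a1).1 (p, true) +
      (dal (W.f s) (W.g s) (ry_BS W l) a0).1 (p, true)) = _
    rw [dal_true, dup_apply]
    ring
  show x.1 (p, false) * (c • (dup (W.f s) (W.g s) (W.BS l) a1 +
      dal (W.f s) (W.g s) (ry_BS W l) a0)).1 (p, false) -
    x.1 (p, true) * (c • (dup (W.f s) (W.g s) (W.BS l) a1 +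
      dal (W.f s) (W.g s) (ry_BS W l) a0)).1 (p, true) =
    ((W.BS l).lab p • W.f s) * (g0.1 p * a0.1 p + g1.1 p * a1.1 p)
  rw [ea0, ea1, hg0, hg1]
  have hx1 : x.1 (p, true) = x.1 (p, false) - ((W.BS l).lab p • W.f s) * t.1 p := by
    rw [← ht p]
    ring
  rw [hx1]
  linear_combination (x.1 (p, false) * ((W.BS l).lab p • W.f s) * a0.1 p) * hc

/-- (4.1).  Induction on `l`.  `l = []`: `a = φ 1`.  `l = s :: l'`: `φ0 g := φ (dup g)`, `φ1 g := φ (dal g)` are linear
forms on `BS l'`; by induction `φ0 g = Tr (g a0)`, `φ1 g = Tr (g a1)`.  Put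
`a := ((a1 + ryL f a0)/2, (a1 - ryL f a0)/2)`; then `tr a = a0`, `tr (dup g * a) = g a0`,
`tr (dal g * a) = g a1` (`trM_unique`: the difference of the components is `(lab p • f) g_p (a_{p,0} + a_{p,1})`).
Every element is `dup g0 + dal g1`, `g0 = (x(·,0)+x(·,1))/2`, `g1 = tr x / 2`. -/
theorem dual (l : List S) (φ : (W.BS l).M →ₗ[R] R) :
    ∃ a : (W.BS l).M, ∀ g, φ g = W.Tr l (mulM (ring_BS W l) g a) := by
  induction l with
  | nil =>
    exact s9b_dual_nil W φ
  | cons s l ih =>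
    exact s9b_dual_cons W s l ih φ

/-- If `Tr (g a) = 0` for all `g` supported off `X`, then `a` is supported on `X`: let `lab p ∉ X`, `c` as in
`big_BS`; `g := c • Pi.single p 1 ∈ (BS l).M` is supported off `X`, and by `Tr_eq` (with `K = FractionRing R`)
`0 = c a_p / eu p`, so `a_p = 0`. -/
theorem dual_sup (l : List S) (a : (W.BS l).M) (X : Set G)
    (h : ∀ g : (W.BS l).M, (W.BS l).sup g.1 Xᶜ → W.Tr l (mulM (ring_BS W l) g a) = 0) :
    (W.BS l).sup a.1 X := by
  classical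
  intro p hp
  obtain ⟨c, hc, hbig⟩ := big_BS W l
  set g : (W.BS l).M := ⟨c • (Pi.single p (1 : R) : (W.BS l).J → R), hbig _⟩ with hg
  have hgq : ∀ q, q ≠ p → g.1 q = 0 := by
    intro q hq
    show c * (Pi.single p (1 : R) : (W.BS l).J → R) q = 0
    rw [Pi.single_eq_of_ne hq, mul_zero]
  have hgp : g.1 p = c := by
    show c * (Pi.single p (1 : R) : (W.BS l).J → R) p = c
    rw [Pi.single_eq_same, mul_one]
  have hsup : (W.BS l).sup g.1 Xᶜ := by
    intro q hq
    by_cases hqp : q = p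
    · subst hqp
      exact absurd hp hq
    · exact hgq q hqp
  have h0 := h g hsup
  have hinj : Function.Injective (algebraMap R (FractionRing R)) := IsFractionRing.injective R _
  have h1 := Tr_eq W hinj l (mulM (ring_BS W l) g a)
  rw [h0, map_zero] at h1
  rw [Finset.sum_eq_single p] at h1
  · have h2 : (mulM (ring_BS W l) g a).1 p = c * a.1 p := by
      rw [mulM_apply, hgp]
    rw [h2] at h1
    have h3 : algebraMap R (FractionRing R) (W.eu l p) ≠ 0 := by
      intro h4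
      exact eu_ne W l p (hinj (by rw [h4, map_zero]))
    have h5 : algebraMap R (FractionRing R) (c * a.1 p) = 0 := by
      rcases div_eq_zero_iff.1 h1.symm with h6 | h6
      · exact h6
      · exact absurd h6 h3
    have h6 : c * a.1 p = 0 := hinj (by rw [h5, map_zero])
    exact (mul_eq_zero.1 h6).resolve_left hc
  · intro q _ hq
    rw [mulM_apply, hgq q hq, zero_mul, map_zero, zero_div]
  · intro hn
    exact absurd (Finset.mem_univ p) hn

end Pool.Agent.MTX
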