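import Pool.Agent.MTX.S7
import Pool.Agent.MTX.S9b

/-! # MTX, Part S : reduction modulo `ħ` (section 5 of MTX_PROOF.md), definitions -/

namespace Pool.Agent.MTX

variable {R A G Rt S : Type} [CommRing R] [CommRing A] [Group G]
  [MulSemiringAction G R] [MulSemiringAction G A] [MulAction G Rt]

/-- Reduction data: `A = R / (h)` with a `G`-action, `W'` the reduced data for words. -/
structure RedData (D : AS R G Rt S) (W' : SW A G S) where
  ρ : R →+* A
  h : R
  surj : Function.Surjective ρ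
  ker : ∀ x, ρ x = 0 ↔ h ∣ x
  prime : Prime h
  ndvd : ∀ b, ¬ h ∣ D.f b
  equiv : ∀ (w : G) (x : R), ρ (w • x) = w • ρ x
  f : ∀ s, W'.f s = ρ (D.sw.f s)
  g : ∀ s, W'.g s = D.sw.g s

/-- the identification of the index sets -/
def redJ (W : SW R G S) (W' : SW A G S) : (l : List S) → (W.BS l).J ≃ (W'.BS l).J
  | [] => Equiv.refl _
  | _ :: l => Equiv.prodCongr (redJ W W' l) (Equiv.refl Bool)

theorem redJ_top (W : SW R G S) (W' : SW A G S) (l : List S) :
    redJ W W' l (W.top l) = W'.top l := by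
  induction l with
  | nil => rfl
  | cons s l ih =>
    show (redJ W W' l (W.top l), true) = (W'.top l, true)
    rw [ih]

namespace RedData
variable {D : AS R G Rt S} {W' : SW A G S} (B : RedData D W')
include B

theorem lab (l : List S) (p : (D.sw.BS l).J) :
    (W'.BS l).lab (redJ D.sw W' l p) = (D.sw.BS l).lab p := by
  induction l with
  | nil => rfl
  | cons s l ih =>
    obtain ⟨q, b⟩ := p
    cases b
    · exact ih q
    · show (W'.BS l).lab (redJ D.sw W' l q) * W'.g s = (D.sw.BS l).lab q * D.sw.g s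
      rw [ih q, B.g]

/-- Induction: `m ∈ BS l` reduces to an element of `BS' l`: the first component and `n` reduce. -/
theorem mem (l : List S) (m : (D.sw.BS l).J → R) (hm : m ∈ (D.sw.BS l).M) :
    (fun q => B.ρ (m ((redJ D.sw W' l).symm q))) ∈ (W'.BS l).M := by
  induction l with
  | nil => exact mem_base 1 _
  | cons s l ih =>
    obtain ⟨h1, n, hn, h2⟩ := hm
    refine ⟨ih (fun p => m (p, false)) h1, fun q => B.ρ (n ((redJ D.sw W' l).symm q)), ih n hn,
      fun q => ?_⟩
    have h3 := h2 ((redJ D.sw W' l).symm q)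
    have h4 := B.lab l ((redJ D.sw W' l).symm q)
    rw [Equiv.apply_symm_apply] at h4
    show B.ρ (m ((redJ D.sw W' l).symm q, false)) - B.ρ (m ((redJ D.sw W' l).symm q, true)) =
      ((W'.BS l).lab q • W'.f s) * B.ρ (n ((redJ D.sw W' l).symm q))
    rw [← map_sub, h4, B.f, ← B.equiv, ← map_mul]
    exact congrArg B.ρ h3

/-- (5.1), surjectivity.  Induction: for `(m0', m1')` with `n'` in `BS' (s :: l)` lift `m0'` to `m0` and `n'` to `n`
and take `(m0, m0 - ry f n)` (`ry_BS`). -/
theorem onto (l : List S) (m' : (W'.BS l).J → A) (hm : m' ∈ (W'.BS l).M) :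
    ∃ m ∈ (D.sw.BS l).M, ∀ p, B.ρ (m p) = m' (redJ D.sw W' l p) := by
  induction l with
  | nil =>
    obtain ⟨r, hr⟩ := B.surj (m' ())
    exact ⟨fun _ => r, mem_base 1 _, fun _ => hr⟩
  | cons s l ih =>
    obtain ⟨h1, n', hn', h2⟩ := hm
    obtain ⟨m0, hm0, e0⟩ := ih (fun q => m' (q, false)) h1
    obtain ⟨n, hn, en⟩ := ih n' hn'
    refine ⟨fun p => if p.2 then m0 p.1 - ((D.sw.BS l).lab p.1 • D.sw.f s) * n p.1 else m0 p.1,
      ⟨?_, n, hn, fun p => ?_⟩, fun p => ?_⟩
    · exact hm0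
    · show m0 p - (m0 p - ((D.sw.BS l).lab p • D.sw.f s) * n p) =
        ((D.sw.BS l).lab p • D.sw.f s) * n p
      ring
    · obtain ⟨q, b⟩ := p
      cases b
      · exact e0 q
      · show B.ρ (m0 q - ((D.sw.BS l).lab q • D.sw.f s) * n q) = m' (redJ D.sw W' l q, true)
        have h3 : m' (redJ D.sw W' l q, false) - m' (redJ D.sw W' l q, true) =
            ((W'.BS l).lab (redJ D.sw W' l q) • W'.f s) * n' (redJ D.sw W' l q) :=
          h2 (redJ D.sw W' l q)
        have h5 : B.ρ (m0 q) = m' (redJ D.sw W' l q, false) := e0 q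
        rw [B.lab, B.f, ← B.equiv] at h3
        rw [map_sub, map_mul, h5, en q, ← h3]
        ring

/-- the reduction map on elements -/
def red (l : List S) (m : (D.sw.BS l).M) : (W'.BS l).M :=
  ⟨fun q => B.ρ (m.1 ((redJ D.sw W' l).symm q)), B.mem l m.1 m.2⟩

theorem red_apply (l : List S) (m : (D.sw.BS l).M) (p : (D.sw.BS l).J) :
    (B.red l m).1 (redJ D.sw W' l p) = B.ρ (m.1 p) := by
  show B.ρ _ = _
  rw [Equiv.symm_apply_apply]

/-- Trace and reduction.  Induction on `l`; first the statement for `trM` (`trM_unique`), with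
`tr (Lat.base 1) l`. -/
theorem Tr_red [IsDomain R] [IsDomain A] (l : List S) (m : (D.sw.BS l).M) :
    W'.Tr l (B.red l m) = B.ρ (D.sw.Tr l m) := by
  induction l with
  | nil => rfl
  | cons s l ih =>
    have h1 : trM (W'.g s) (W'.BS l) (W'.f_ne s) (B.red (s :: l) m) =
        B.red l (trM (D.sw.g s) (D.sw.BS l) (D.sw.f_ne s) m) := by
      apply Subtype.ext
      apply trM_unique
      intro q
      obtain ⟨p, rfl⟩ := (redJ D.sw W' l).surjective q
      have e1 : (B.red (s :: l) m).1 (redJ D.sw W' l p, false) = B.ρ (m.1 (p, false)) :=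
        B.red_apply (s :: l) m (p, false)
      have e2 : (B.red (s :: l) m).1 (redJ D.sw W' l p, true) = B.ρ (m.1 (p, true)) :=
        B.red_apply (s :: l) m (p, true)
      have e3 := trM_spec (L := D.sw.BS l) (g := D.sw.g s) (D.sw.f_ne s) m p
      have key : B.ρ (((D.sw.BS l).lab p • D.sw.f s) *
            (trM (D.sw.g s) (D.sw.BS l) (D.sw.f_ne s) m).1 p) =
          ((W'.BS l).lab (redJ D.sw W' l p) • W'.f s) *
            (B.red l (trM (D.sw.g s) (D.sw.BS l) (D.sw.f_ne s) m)).1 (redJ D.sw W' l p) := by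
        rw [map_mul, B.equiv, B.lab, B.f, B.red_apply]
      exact (congrArg₂ (· - ·) e1 e2).trans ((map_sub B.ρ _ _).symm.trans
        ((congrArg B.ρ e3).trans key))
    have h2 : W'.Tr (s :: l) (B.red (s :: l) m) =
        W'.Tr l (trM (W'.g s) (W'.BS l) (W'.f_ne s) (B.red (s :: l) m)) := rfl
    have h3 : D.sw.Tr (s :: l) m = D.sw.Tr l (trM (D.sw.g s) (D.sw.BS l) (D.sw.f_ne s) m) := rfl
    rw [h2, h1, h3]
    exact ih _

end RedData

end Pool.Agent.MTX
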