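import Pool.Agent.MTX.S0

/-! # MTX, Part S : the star is stable under the right action, is a ring, and is big -/

namespace Pool.Agent.MTX

section
variable {R G S : Type} [CommRing R] [Group G] [MulSemiringAction G R] (W : SW R G S)

/-- Let `m ∈ star`, with `n`; `d := (a - g a) / f` (`W.dvd`).  At `(p, 0)` the new element is
`(lab p • a) m (p,0)`, at `(p, 1)` it is `(lab p • g • a) m (p,1)`.  The first is in `L.M`; the difference is
`(lab p • g a) (m (p,0) - m (p,1)) + (lab p • (a - g a)) m (p,0)
 = (lab p • f) ((lab p • g a) n p + (lab p • d) m (p,0))`, so the new `n` is `ry (g a) n + ry d (m (·,0))`. -/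
theorem ry_star (s : S) {L : Lat R G} (h : RyLat L) :
    RyLat (Lat.star (W.f s) (W.g s) L) := by
  rintro a m ⟨h1, n, hn, h2⟩
  obtain ⟨d, hd⟩ := W.dvd s a
  refine ⟨h a _ h1, L.ry (W.g s • a) n + L.ry d (fun p => m (p, false)),
    L.M.add_mem (h _ _ hn) (h _ _ h1), fun p => ?_⟩
  have h3 : (L.lab p • W.f s) * (L.lab p • d) = L.lab p • a - L.lab p • (W.g s • a) := by
    rw [← smul_mul', ← hd, smul_sub]
  have h4 := h2 p
  show (L.lab p • a) * m (p, false) - ((L.lab p * W.g s) • a) * m (p, true) =
    (L.lab p • W.f s) * ((L.lab p • (W.g s • a)) * n p + (L.lab p • d) * m (p, false))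
  rw [mul_smul]
  linear_combination (L.lab p • (W.g s • a)) * h4 - m (p, false) * h3

/-- `1 = (1, 1)`, `n = 0`.  Product: `m0 m0' - m1 m1' = (lab • f) (m0 n' + n m1')`, where
`m1' = m0' - ry f n' ∈ L.M`. -/
theorem ring_star (s : S) {L : Lat R G} (h : RyLat L) (hr : RingLat L) :
    RingLat (Lat.star (W.f s) (W.g s) L) := by
  refine ⟨⟨hr.one, 0, L.M.zero_mem, fun p => ?_⟩, ?_⟩
  · show (1 : R) - 1 = (L.lab p • W.f s) * 0
    ring
  · rintro m ⟨h1, n, hn, h2⟩ m' ⟨h1', n', hn', h2'⟩
    have h3 : (fun p => m' (p, true)) ∈ L.M := by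
      have h4 : (fun p => m' (p, true)) = (fun p => m' (p, false)) - L.ry (W.f s) n' := by
        funext p
        have h5 := h2' p
        show m' (p, true) = m' (p, false) - (L.lab p • W.f s) * n' p
        linear_combination -h5
      rw [h4]
      exact L.M.sub_mem h1' (h _ _ hn')
    refine ⟨hr.mul _ h1 _ h1', (fun p => m (p, false)) * n' + n * (fun p => m' (p, true)),
      L.M.add_mem (hr.mul _ h1 _ hn') (hr.mul _ hn _ h3), fun p => ?_⟩
    have h4 := h2 p
    have h5 := h2' p
    show m (p, false) * m' (p, false) - m (p, true) * m' (p, true) =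
      (L.lab p • W.f s) * (m (p, false) * n' p + n p * m' (p, true))
    linear_combination m (p, false) * h5 + m' (p, true) * h4

omit [MulSemiringAction G R] [Group G] in
theorem mem_base (w : G) (m : (Lat.base w : Lat R G).J → R) : m ∈ (Lat.base w : Lat R G).M :=
  @Submodule.mem_top R (Unit → R) _ _ _ m

theorem ry_base (w : G) : RyLat (Lat.base w : Lat R G) := fun _ _ _ => mem_base w _

omit [MulSemiringAction G R] in
theorem ring_base (w : G) : RingLat (Lat.base w : Lat R G) :=
  ⟨mem_base w _, fun _ _ _ _ => mem_base w _⟩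

/-- induction on the list -/
theorem ry_words {L : Lat R G} (h : RyLat L) (l : List S) : RyLat (W.words L l) := by
  induction l with
  | nil => exact h
  | cons s l ih => exact ry_star W s ih

/-- induction on the list -/
theorem ring_words {L : Lat R G} (h : RyLat L) (hr : RingLat L) (l : List S) :
    RingLat (W.words L l) := by
  induction l with
  | nil => exact hr
  | cons s l ih => exact ring_star W s (ry_words W h l) ih

/-- A lattice is big if it contains a nonzero multiple of everything. -/
def Big (L : Lat R G) : Prop := ∃ c : R, c ≠ 0 ∧ ∀ m : L.J → R, c • m ∈ L.M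

variable [IsDomain R]

omit [MulSemiringAction G R] in
theorem big_base (w : G) : Big (Lat.base w : Lat R G) :=
  ⟨1, one_ne_zero, fun _ => mem_base w _⟩

/-- `c' = c ∏_p (lab p • f)`; the new `n` is `p ↦ c (∏_{q ≠ p} lab q • f) (m (p,0) - m (p,1))`, which is
`c •` something, and `c' m (p,0)` is `c •` something. (`smul_ne_zero'`, `Finset.prod_ne_zero_iff`.) -/
theorem big_star (s : S) {L : Lat R G} (h : Big L) : Big (Lat.star (W.f s) (W.g s) L) := by
  classical
  obtain ⟨c, hc, hm⟩ := h
  refine ⟨c * ∏ q, L.lab q • W.f s, mul_ne_zero hc (Finset.prod_ne_zero_iff.2 fun q _ =>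
    smul_ne_zero' _ (W.f_ne s)), fun m => ?_⟩
  refine Lat.mem_star.2 ⟨?_, c • (fun p => (∏ q ∈ Finset.univ.erase p, L.lab q • W.f s) *
    (m (p, false) - m (p, true))), hm _, fun p => ?_⟩
  · have h1 := hm (fun p => (∏ q, L.lab q • W.f s) * m (p, false))
    have e : (c • (fun p => (∏ q, L.lab q • W.f s) * m (p, false)) : L.J → R) =
        fun p => ((c * ∏ q, L.lab q • W.f s) • m) (p, false) := by
      funext p
      simp only [Pi.smul_apply, smul_eq_mul]
      ring
    rwa [e] at h1
  · have h2 : (L.lab p • W.f s) * ∏ q ∈ Finset.univ.erase p, L.lab q • W.f s =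
        ∏ q, L.lab q • W.f s :=
      Finset.mul_prod_erase Finset.univ (fun q => L.lab q • W.f s) (Finset.mem_univ p)
    simp only [Pi.smul_apply, smul_eq_mul]
    rw [← h2]
    ring

theorem big_words {L : Lat R G} (h : Big L) (l : List S) : Big (W.words L l) := by
  induction l with
  | nil => exact h
  | cons s l ih => exact big_star W s ih

end

section
variable {R G Rt S : Type} [CommRing R] [IsDomain R] [Group G] [MulSemiringAction G R]
  [MulAction G Rt] (D : AS R G Rt S)

/-- As `big_star`, with lists: the new list is `l ++ univ.toList.map (fun p => lab p • al s)`;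
`f (lab p • al s) = lab p • f (al s)` (`D.f_smul`). -/
theorem big_star' (s : S) {L : Lat R G}
    (h : ∃ l : List Rt, ∀ m : L.J → R, (l.map D.f).prod • m ∈ L.M) :
    ∃ l : List Rt, ∀ m : (Lat.star (D.sw.f s) (D.sw.g s) L).J → R,
      (l.map D.f).prod • m ∈ (Lat.star (D.sw.f s) (D.sw.g s) L).M := by
  classical
  obtain ⟨l, hm⟩ := h
  refine ⟨l ++ (Finset.univ : Finset L.J).toList.map (fun p => L.lab p • D.al s), fun m => ?_⟩
  have hprod : ((l ++ (Finset.univ : Finset L.J).toList.map (fun p => L.lab p • D.al s)).map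
      D.f).prod = (l.map D.f).prod * ∏ q, L.lab q • D.sw.f s := by
    rw [List.map_append, List.prod_append, List.map_map, Finset.prod_map_toList]
    congr 1
    refine Finset.prod_congr rfl fun q _ => ?_
    show D.f (L.lab q • D.al s) = L.lab q • D.f (D.al s)
    exact D.f_smul _ _
  rw [hprod]
  generalize (l.map D.f).prod = c at hm
  refine Lat.mem_star.2 ⟨?_, c • (fun p => (∏ q ∈ Finset.univ.erase p, L.lab q • D.sw.f s) *
    (m (p, false) - m (p, true))), hm _, fun p => ?_⟩
  · have h1 := hm (fun p => (∏ q, L.lab q • D.sw.f s) * m (p, false))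
    have e : (c • (fun p => (∏ q, L.lab q • D.sw.f s) * m (p, false)) : L.J → R) =
        fun p => ((c * ∏ q, L.lab q • D.sw.f s) • m) (p, false) := by
      funext p
      simp only [Pi.smul_apply, smul_eq_mul]
      ring
    rwa [e] at h1
  · have h2 : (L.lab p • D.sw.f s) * ∏ q ∈ Finset.univ.erase p, L.lab q • D.sw.f s =
        ∏ q, L.lab q • D.sw.f s :=
      Finset.mul_prod_erase Finset.univ (fun q => L.lab q • D.sw.f s) (Finset.mem_univ p)
    simp only [Pi.smul_apply, smul_eq_mul]
    rw [← h2]
    ring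

/-- a product of forms is nonzero (`D.prime`). -/
theorem Nice.toBig {L : Lat R G} (h : Nice D L) : Big L := by
  obtain ⟨l, hl⟩ := h.big
  refine ⟨(l.map D.f).prod, ?_, hl⟩
  rw [Ne, List.prod_eq_zero_iff]
  intro h0
  obtain ⟨b, _, hb⟩ := List.mem_map.1 h0
  exact (D.prime b).ne_zero hb

/-- (TF) for `base w`.  Cases on `w ∈ X`, `w ∈ X'`: if `w ∉ X` then `b = 0`, take `a' = 0`; if `w ∈ X'`
take `a' = 0`; otherwise `c b = π a` at the unique index and `π ∤ c`, so `π ∣ b` (`Prime`). -/
theorem nice_base (w : G) : Nice D (Lat.base w : Lat R G) := by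
  refine ⟨ry_base w, ⟨[], fun m => mem_base w _⟩, ?_⟩
  intro P _ X' X _ _ _ π c hπ hπc b _ a _ hbX _ hX'
  by_cases hw : w ∈ X
  · by_cases hw' : w ∈ X'
    · refine ⟨0, Submodule.zero_mem _, fun _ _ => rfl, fun p hp => ?_⟩
      exact absurd hw' hp
    · have h0 : c * b () - π * a () = 0 := hX' () hw'
      have h1 : π ∣ c * b () := ⟨a (), sub_eq_zero.1 h0⟩
      rcases hπ.dvd_or_dvd h1 with h2 | h2
      · exact absurd h2 hπc
      · obtain ⟨k, hk⟩ := h2
        refine ⟨fun _ => k, mem_base w _, fun p hp => absurd hw hp, fun p _ => ?_⟩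
        show b p - π * k = 0
        have hp : p = () := rfl
        rw [hp, hk, sub_self]
  · refine ⟨0, Submodule.zero_mem _, fun _ _ => rfl, fun p _ => ?_⟩
    have hb : b p = 0 := hbX p hw
    show b p - π * 0 = 0
    rw [hb, mul_zero, sub_zero]

end

end Pool.Agent.MTX
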