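import Pool.Agent.MTX.S1
import Pool.Agent.MTX.S4a

/-! # MTX, Part S : (3.2): reduced words -/

namespace Pool.Agent.MTX

section
variable {R G S : Type} [CommRing R] [Group G] [MulSemiringAction G R] (W : SW R G S)

/-- The product of a word (head = last letter). -/
def SW.pr : List S → G
  | [] => 1
  | s :: l => SW.pr l * W.g s

/-- The top index of a word: all letters are taken. -/
def SW.top : (l : List S) → (W.BS l).J
  | [] => ()
  | _ :: l => (SW.top l, true)

theorem lab_top (l : List S) : (W.BS l).lab (W.top l) = W.pr l := by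
  induction l with
  | nil => rfl
  | cons s l ih => exact congrArg (· * W.g s) ih

end

variable {R G Rt S : Type} [CommRing R] [Group G]
  [MulSemiringAction G R] [MulAction G Rt] (D : AS R G Rt S)

/-- reduced words -/
def AS.Red : List S → Prop
  | [] => True
  | s :: l => AS.Red l ∧ D.pos (D.sw.pr l • D.al s)

/-- (3.2).  Induction on the word, for all `X`.  `l = s :: l'`, `w = pr l'`, `b = w • al s` is positive,
`(w s)⁻¹ • b = sr s • al s = ng (al s)` is not positive; `X` closed and `w s ∈ X`, so
`s_b (w s) = w ∈ X` (`refl_smul_al'`), so `w ∈ core s X`, which is closed (`closed_core`).  By induction all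
labels `lab p` of `BS l'` are in `core s X`: `lab p ∈ X` and `lab p * s ∈ X`. -/
theorem lab_mem (l : List S) (hl : D.Red l) (X : Set G) (hX : D.Closed D.pos X)
    (h : D.sw.pr l ∈ X) (p : (D.sw.BS l).J) : (D.sw.BS l).lab p ∈ X := by
  induction l generalizing X with
  | nil => exact h
  | cons s l ih =>
    obtain ⟨hl1, hl2⟩ := hl
    have hv : D.sw.pr l * D.sr s ∈ X := h
    have hinv : (D.sr s)⁻¹ = D.sr s := inv_eq_of_mul_eq_one_right (D.sr_sq s)
    have hb : ¬ D.pos ((D.sw.pr l * D.sr s)⁻¹ • (D.sw.pr l • D.al s)) := by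
      have e1 : (D.sw.pr l * D.sr s)⁻¹ • (D.sw.pr l • D.al s) = D.ng (D.al s) := by
        rw [mul_inv_rev, mul_smul, inv_smul_smul, hinv]
        exact D.refl_self _
      rw [e1, D.pos_ng]
      exact fun h1 => h1 (D.pos_al s)
    have hw := hX _ hv _ hl2 hb
    rw [D.refl_smul_al'] at hw
    have hcore := ih hl1 (D.core s X) (D.closed_core hX s) ⟨hw, hv⟩ p.1
    obtain ⟨q, b⟩ := p
    cases b with
    | false => exact hcore.1
    | true => exact hcore.2

/-- (3.2), second part.  Take `r • 1` if `pr l ∈ X` (`lab_mem`, `ring_words`), and `0` otherwise. -/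
theorem good_top (l : List S) (hl : D.Red l) :
    Good D (D.sw.BS l) (Lat.base (D.sw.pr l)) (fun _ => D.sw.top l) := by
  refine ⟨fun _ => lab_top D.sw l, fun _ _ => mem_base _ _, ?_⟩
  intro X hX m'' _ hm
  by_cases hw : D.sw.pr l ∈ X
  · refine ⟨m'' () • (1 : (D.sw.BS l).J → R), (D.sw.BS l).M.smul_mem _
      (ring_words D.sw (ry_base 1) (ring_base 1) l).one, ?_, ?_⟩
    · intro p hp
      exact absurd (lab_mem D l hl X hX hw p) hp
    · funext q
      exact mul_one (m'' q)
  · refine ⟨0, (D.sw.BS l).M.zero_mem, fun _ _ => rfl, ?_⟩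
    funext q
    exact (hm q hw).symm

end Pool.Agent.MTX
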