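import Pool.Agent.MTX.R2c
import Pool.Agent.MTX.S7

/-! # MTX, Part R : (1.5), (1.6), reduced words (9.1) -/

namespace Pool.Agent.MTX

open MvPolynomial

/-! ### inversion roots of a reduced word (general) -/

section gen
variable {R G Rt S : Type} [CommRing R] [Group G]
  [MulSemiringAction G R] [MulAction G Rt] (D : AS R G Rt S)

/-- The inversion roots of a word. -/
def AS.rts : List S → List Rt
  | [] => []
  | s :: l => (D.sw.pr l • D.al s) :: AS.rts l

theorem AS.not_pos_sr_al (s : S) (w : G) : (w * D.sr s)⁻¹ • w • D.al s = D.ng (D.al s) := by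
  rw [mul_inv_rev, mul_smul, inv_smul_smul]
  have h : (D.sr s)⁻¹ = D.sr s := inv_eq_of_mul_eq_one_right (D.refl_sq _)
  rw [h]
  exact D.refl_self _

theorem AS.inv_mul_sr_smul (s : S) (w : G) (b : Rt) : (w * D.sr s)⁻¹ • b = D.sr s • w⁻¹ • b := by
  rw [mul_inv_rev, mul_smul]
  have h : (D.sr s)⁻¹ = D.sr s := inv_eq_of_mul_eq_one_right (D.refl_sq _)
  rw [h]

/-- The inversion roots of a reduced word: exactly the positive roots `b` with `w⁻¹ b < 0`. -/
theorem AS.mem_rts : ∀ (l : List S), D.Red l → ∀ b,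
    b ∈ D.rts l ↔ (D.pos b ∧ ¬ D.pos ((D.sw.pr l)⁻¹ • b))
  | [], _, b => by
    constructor
    · intro h; cases h
    · rintro ⟨h1, h2⟩
      exfalso; apply h2
      show D.pos ((1 : G)⁻¹ • b)
      rw [inv_one, one_smul]; exact h1
  | s :: l, ⟨hl, hs⟩, b => by
    have ih := AS.mem_rts l hl b
    have hpr : D.sw.pr (s :: l) = D.sw.pr l * D.sr s := rfl
    rw [AS.rts, List.mem_cons, ih, hpr]
    constructor
    · rintro (rfl | ⟨h1, h2⟩)
      · refine ⟨hs, ?_⟩
        rw [D.not_pos_sr_al, D.pos_ng, not_not]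
        exact D.pos_al s
      · refine ⟨h1, fun h3 => ?_⟩
        rw [D.inv_mul_sr_smul] at h3
        -- `ng ((pr l)⁻¹ b)` is positive and not `al s`
        have h4 : D.pos (D.ng ((D.sw.pr l)⁻¹ • b)) := (D.pos_ng _).2 h2
        have h5 : D.ng ((D.sw.pr l)⁻¹ • b) ≠ D.al s := by
          intro h6
          have h7 : D.ng b = D.sw.pr l • D.al s := by
            rw [← h6, D.smul_ng, smul_inv_smul]
          have h8 : D.pos (D.ng b) := by rw [h7]; exact hs
          exact (D.pos_ng _).1 h8 h1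
        have h6 := D.perm s _ h4 h5
        rw [D.smul_ng, D.pos_ng] at h6
        exact h6 h3
    · rintro ⟨h1, h2⟩
      rw [D.inv_mul_sr_smul] at h2
      by_cases h3 : D.pos ((D.sw.pr l)⁻¹ • b)
      · left
        by_contra h4
        refine h2 (D.perm s _ h3 fun h5 => h4 ?_)
        rw [← h5, smul_inv_smul]
      · exact Or.inr ⟨h1, h3⟩

theorem AS.nodup_rts : ∀ (l : List S), D.Red l → (D.rts l).Nodup
  | [], _ => List.nodup_nil
  | s :: l, ⟨hl, hs⟩ => by
    rw [AS.rts, List.nodup_cons]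
    refine ⟨fun h => ?_, AS.nodup_rts l hl⟩
    have := ((D.mem_rts l hl _).1 h).2
    rw [inv_smul_smul] at this
    exact this (D.pos_al s)

theorem AS.length_rts : ∀ (l : List S), (D.rts l).length = l.length
  | [] => rfl
  | _ :: l => by rw [AS.rts, List.length_cons, List.length_cons, AS.length_rts l]

end gen

namespace SLD

variable {n : ℕ} (D : SLD n)

/-! ### the interior point -/

/-- a positive integer -/
def dsq : ℤ := D.C.det ^ 2

theorem dsq_pos : 0 < D.dsq := by
  have := D.det_ne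
  unfold dsq
  positivity

/-- `B(x, rh) = dsq * ht x` -/
def rh : Fin n → ℤ := D.C.det • D.C.adjugate.mulVec (fun _ => 1)

theorem B_rh (x : Fin n → ℤ) : D.B x D.rh = D.dsq * ht x := by
  have h1 : D.C.adjugate.mulVec (fun _ => (1 : ℤ)) =
      ∑ i, D.C.adjugate.mulVec (Pi.single i 1) := by
    have : (fun _ => (1 : ℤ)) = ∑ i : Fin n, (Pi.single i 1 : Fin n → ℤ) := by
      funext j; simp [Finset.sum_apply, Pi.single_apply]
    rw [this, Matrix.mulVec_sum]
  rw [rh, B_smul_right, h1, B_comm, B_sum_left]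
  have h2 : ∀ i, D.B (D.C.adjugate.mulVec (Pi.single i 1)) x = D.C.det * x i := fun i => by
    rw [B_comm, B_adj]
  simp only [h2]
  rw [← Finset.mul_sum, dsq, ht]
  ring

/-- the Coxeter number -/
noncomputable def cox : ℤ := ht D.theta.1 + 1

theorem cox_pos : 0 < D.cox := by
  have := D.theta_ht_pos
  unfold cox; omega

/-- the value of `x + k ħ` at the interior point, times the Coxeter number -/
noncomputable def va (x : Fin n → ℤ) (k : ℤ) : ℤ := ht x + D.cox * k

theorem va_pos_iff (b : D.ARt) : D.apos b ↔ 0 < D.va b.1.1 b.2 := by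
  have h1 := D.theta_max b.1
  have h2 := D.theta_max (D.ng b.1)
  rw [ng_val, ht_neg] at h2
  have hc := D.cox_pos
  have hne : ht b.1.1 ≠ 0 := by
    rcases D.pos_or_neg b.1 with h | h
    · have := D.ht_pos h; omega
    · have := D.ht_pos h
      rw [ng_val, ht_neg] at this; omega
  show 0 < b.2 ∨ (b.2 = 0 ∧ D.Pos b.1) ↔ _
  rw [D.pos_iff_ht]
  unfold va
  rcases lt_trichotomy b.2 0 with h | h | h
  · constructor
    · rintro (h3 | h3) <;> omega
    · intro h3
      have : D.cox * b.2 ≤ D.cox * (-1) := mul_le_mul_of_nonneg_left (by omega) hc.le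
      unfold cox at this h3
      omega
  · rw [h]; simp
  · constructor
    · intro _
      have : D.cox * 1 ≤ D.cox * b.2 := mul_le_mul_of_nonneg_left (by omega) hc.le
      unfold cox at this ⊢
      omega
    · intro _; left; exact h

theorem va_ne_zero (b : D.ARt) : D.va b.1.1 b.2 ≠ 0 := by
  intro h
  have h1 : ¬ D.apos b := by rw [va_pos_iff, h]; omega
  have h2 : D.apos (D.ang b) := (D.apos_ang b).2 h1
  rw [va_pos_iff] at h2
  have h3 : D.va (D.ang b).1.1 (D.ang b).2 = - D.va b.1.1 b.2 := by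
    show ht (-b.1.1) + D.cox * (-b.2) = _
    rw [ht_neg]; unfold va; ring
  rw [h3, h] at h2
  omega

/-- the image of the interior point, scaled -/
noncomputable def zz (w : D.Aff) : Fin n → ℤ := (D.dsq * D.cox) • w.l + w.u.1 D.rh

/-- the distance function -/
noncomputable def dd (w : D.Aff) : ℤ := D.B (D.zz w - D.rh) (D.zz w - D.rh)

theorem dd_nonneg (w : D.Aff) : 0 ≤ D.dd w := D.B_nonneg _

/-- (1.5) -/
theorem dd_refl (b : D.ARt) (w : D.Aff) : D.dd (D.aref b * w) =
    D.dd w + 2 * D.dsq ^ 2 * D.va b.1.1 b.2 * D.va (w⁻¹ • b).1.1 (w⁻¹ • b).2 := by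
  have hz : D.zz (D.aref b * w) = D.zz w -
      (D.B b.1.1 (D.zz w) + D.dsq * D.cox * b.2) • b.1.1 := by
    unfold zz
    rw [mul_l, mul_u, aref_l, aref_u]
    have h1 : (D.rO b.1 * w.u).1 D.rh = D.rf b.1 (w.u.1 D.rh) := rfl
    have h2 : (D.rO b.1).1 w.l = D.rf b.1 w.l := rfl
    rw [h1, h2, rf, rf, B_add_right, B_smul_right]
    module
  have hβ : D.B b.1.1 (D.zz w) + D.dsq * D.cox * b.2 =
      D.dsq * D.va (w⁻¹ • b).1.1 (w⁻¹ • b).2 := by
    have h1 : (w⁻¹ • b).1.1 = (w.u⁻¹).1 b.1.1 := rfl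
    have h2 : (w⁻¹ • b).2 = b.2 + D.B b.1.1 w.l := by
      rw [smul_snd, inv_l, inv_u, B_neg_left, (w.u⁻¹).2, D.B_comm w.l]
      ring
    have h3 : D.B b.1.1 (w.u.1 D.rh) = D.dsq * ht ((w.u⁻¹).1 b.1.1) := by
      rw [← B_rh, B_inv]
    rw [h1, h2, va, zz, B_add_right, B_smul_right, h3]
    ring
  have hα : D.B b.1.1 D.rh + D.dsq * D.cox * b.2 = D.dsq * D.va b.1.1 b.2 := by
    rw [B_rh, va]; ring
  unfold dd
  rw [hz, hβ]
  have h4 : D.B b.1.1 (D.zz w) = D.dsq * D.va (w⁻¹ • b).1.1 (w⁻¹ • b).2 - D.dsq * D.cox * b.2 := by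
    rw [← hβ]; ring
  have h5 : D.B b.1.1 D.rh = D.dsq * D.va b.1.1 b.2 - D.dsq * D.cox * b.2 := by
    rw [← hα]; ring
  simp only [B_sub_left, B_sub_right, B_smul_left, B_smul_right, D.B_comm (D.zz w) b.1.1,
    D.B_comm D.rh b.1.1, h4, h5, b.1.2, D.B_comm D.rh (D.zz w)]
  ring

theorem dd_lt {b : D.ARt} {w : D.Aff} (h1 : D.apos b) (h2 : ¬ D.apos (w⁻¹ • b)) :
    D.dd (D.aref b * w) < D.dd w := by
  rw [dd_refl]
  rw [va_pos_iff] at h1 h2
  have h3 := D.va_ne_zero (w⁻¹ • b)
  have h4 : D.va (w⁻¹ • b).1.1 (w⁻¹ • b).2 < 0 := by omega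
  have h5 := D.dsq_pos
  have h6 : 0 < 2 * D.dsq ^ 2 * D.va b.1.1 b.2 := by positivity
  nlinarith

/-- right descents -/
theorem dd_lt_right {s : Option (Fin n)} {w : D.Aff} (h : ¬ D.apos (w • D.aal s)) :
    D.dd (w * D.aref (D.aal s)) < D.dd w := by
  have h1 : D.apos (D.ang (w • D.aal s)) := (D.apos_ang _).2 h
  have h2 : D.aref (D.ang (w • D.aal s)) * w = w * D.aref (D.aal s) := by
    rw [aref_ang, aref_smul]; group
  rw [← h2]
  refine D.dd_lt h1 ?_
  have h3 : w⁻¹ • D.ang (w • D.aal s) = D.ang (D.aal s) := by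
    have := D.aff.smul_ng w⁻¹ (w • D.aal s)
    rw [inv_smul_smul] at this
    exact this
  rw [h3, D.apos_ang, not_not]
  exact D.pos_aal s

/-- right descents and left: also `dd` grows along reduced words -/
theorem dd_gt_right {s : Option (Fin n)} {w : D.Aff} (h : D.apos (w • D.aal s)) :
    D.dd w < D.dd (w * D.aref (D.aal s)) := by
  have h1 : ¬ D.apos ((w * D.aref (D.aal s)) • D.aal s) := by
    rw [mul_smul, D.aref_self]
    have := D.aff.smul_ng w (D.aal s)
    rw [show w • D.ang (D.aal s) = D.ang (w • D.aal s) from this, D.apos_ang, not_not]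
    exact h
  have h2 := D.dd_lt_right h1
  rwa [mul_assoc, D.aref_sq, mul_one] at h2

/-! ### (1.6) -/

theorem va_add (x y : Fin n → ℤ) (k l : ℤ) : D.va (x + y) (k + l) = D.va x k + D.va y l := by
  unfold va; rw [ht_add]; ring

theorem va_smul (m : ℤ) (x : Fin n → ℤ) (k : ℤ) : D.va (m • x) (m * k) = m * D.va x k := by
  unfold va; rw [ht_smul]; ring

/-- value of `w (x + k ħ)` -/
noncomputable def vw (w : D.Aff) (x : Fin n → ℤ) (k : ℤ) : ℤ :=
  D.va (w.u.1 x) (k - D.B w.l (w.u.1 x))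

theorem vw_add (w : D.Aff) (x y : Fin n → ℤ) (k l : ℤ) :
    D.vw w (x + y) (k + l) = D.vw w x k + D.vw w y l := by
  unfold vw; rw [map_add, B_add_right, ← va_add]; congr 1; ring

theorem vw_smul (w : D.Aff) (m : ℤ) (x : Fin n → ℤ) (k : ℤ) :
    D.vw w (m • x) (m * k) = m * D.vw w x k := by
  unfold vw; rw [map_smul, B_smul_right, ← va_smul]; congr 1; ring

theorem vw_sum (w : D.Aff) (x : Fin n → ℤ) :
    D.vw w x 0 = ∑ i, x i * D.vw w (D.al i).1 0 := by
  have key : ∀ s : Finset (Fin n), D.vw w (∑ i ∈ s, x i • (D.al i).1) 0 =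
      ∑ i ∈ s, x i * D.vw w (D.al i).1 0 := by
    intro s
    classical
    induction s using Finset.induction_on with
    | empty => simp [vw, va, ht, B_zero_right]
    | insert a s ha ih =>
      rw [Finset.sum_insert ha, Finset.sum_insert ha, ← ih, ← vw_smul, ← vw_add]
      congr 1
      ring
  conv_lhs => rw [D.eq_sum_al x]
  exact key _

theorem vw_smul_root (w : D.Aff) (b : D.ARt) : D.vw w b.1.1 b.2 = D.va (w • b).1.1 (w • b).2 := rfl

/-- A group element mapping the simple roots to positive roots maps positive roots to positive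
roots. -/
theorem apos_smul {w : D.Aff} (h : ∀ s, D.apos (w • D.aal s)) {b : D.ARt} (hb : D.apos b) :
    D.apos (w • b) := by
  rw [va_pos_iff, ← vw_smul_root]
  have hs : ∀ i, 0 < D.vw w (D.al i).1 0 := fun i => by
    have := h (some i)
    rw [va_pos_iff] at this
    exact this
  have h0 : 0 < D.vw w (-D.theta.1) 1 := by
    have := h none
    rw [va_pos_iff] at this
    exact this
  have hh : 0 < D.vw w (0 : Fin n → ℤ) 1 := by
    have h1 : D.vw w (0 : Fin n → ℤ) 1 = D.vw w (-D.theta.1) 1 + D.vw w D.theta.1 0 := by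
      rw [← vw_add]; congr 1; abel
    rw [h1, vw_sum]
    refine add_pos_of_pos_of_nonneg h0 (Finset.sum_nonneg fun i _ => ?_)
    exact mul_nonneg (D.theta_coord i).le (hs i).le
  rcases hb with hb | ⟨hb, hb'⟩
  · have h2 : D.vw w b.1.1 b.2 = (b.2 - 1) * D.vw w (0 : Fin n → ℤ) 1 +
        (D.vw w (-D.theta.1) 1 + D.vw w (b.1.1 + D.theta.1) 0) := by
      rw [← vw_smul, ← vw_add, ← vw_add]
      congr 1
      · rw [smul_zero]; abel
      · ring
    rw [h2, D.vw_sum w]
    have h3 : 0 ≤ (b.2 - 1) * D.vw w (0 : Fin n → ℤ) 1 := mul_nonneg (by omega) hh.le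
    have h4 : 0 ≤ ∑ i, (b.1.1 + D.theta.1) i * D.vw w (D.al i).1 0 :=
      Finset.sum_nonneg fun i _ => mul_nonneg (by
        have := D.le_theta (D.ng b.1) i
        rw [ng_val] at this
        show 0 ≤ b.1.1 i + D.theta.1 i
        have h5 : -(b.1.1 i) ≤ D.theta.1 i := this
        omega) (hs i).le
    omega
  · rw [hb, vw_sum]
    obtain ⟨i, hi⟩ : ∃ i, 0 < b.1.1 i := by
      by_contra hno
      push Not at hno
      exact D.Rt_ne_zero b.1 (funext fun i => le_antisymm (hno i) (hb' i))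
    exact Finset.sum_pos' (fun i _ => mul_nonneg (hb' i) (hs i).le)
      ⟨i, Finset.mem_univ i, mul_pos hi (hs i)⟩

/-- (1.6) -/
theorem l_eq_zero {w : D.Aff} (h : ∀ s, D.apos (w • D.aal s)) : w.l = 0 := by
  by_contra hl
  obtain ⟨γ, hγ⟩ := D.exists_root_two hl
  have key : ∀ g : D.Rt, D.Pos g → D.B w.l (w.u.1 g.1) ≤ 0 ∧ -1 ≤ D.B w.l (w.u.1 g.1) := by
    intro g hg
    have h1 := D.apos_smul h (b := (g, 0)) (Or.inr ⟨rfl, hg⟩)
    have h2 := D.apos_smul h (b := (D.ng g, 1)) (Or.inl (by norm_num))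
    have h3 : (w • ((g, 0) : D.ARt)).2 = 0 - D.B w.l (w.u.1 g.1) := rfl
    have h4 : (w • ((D.ng g, 1) : D.ARt)).2 = 1 + D.B w.l (w.u.1 g.1) := by
      rw [smul_snd, ng_val, map_neg, B_neg_right]; ring
    have h5 : 0 ≤ (w • ((g, 0) : D.ARt)).2 := by rcases h1 with h1 | ⟨h1, _⟩ <;> omega
    have h6 : 0 ≤ (w • ((D.ng g, 1) : D.ARt)).2 := by rcases h2 with h2 | ⟨h2, _⟩ <;> omega
    rw [h3] at h5
    rw [h4] at h6
    constructor <;> omega
  have hg : (w.u • (w.u⁻¹ • γ)) = γ := smul_inv_smul _ _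
  rcases D.pos_or_neg (w.u⁻¹ • γ) with hp | hp
  · have h1 := key _ hp
    rw [← smul_val, hg] at h1
    omega
  · have h1 := key _ hp
    rw [ng_val, map_neg, B_neg_right, ← smul_val, hg] at h1
    omega

/-! ### isometries preserving the positive roots -/

theorem pos_smul {u : D.OQ} (h : ∀ i, D.Pos (u • D.al i)) {γ : D.Rt} (hγ : D.Pos γ) :
    D.Pos (u • γ) := by
  intro j
  rw [smul_val, D.eq_sum_al γ.1, map_sum, Finset.sum_apply]
  refine Finset.sum_nonneg fun i _ => ?_
  rw [map_smul]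
  exact mul_nonneg (hγ i) (h i j)

theorem pos_inv_smul {u : D.OQ} (h : ∀ i, D.Pos (u • D.al i)) {γ : D.Rt} (hγ : D.Pos γ) :
    D.Pos (u⁻¹ • γ) := by
  by_contra hno
  have h1 := D.pos_smul h ((D.pos_ng _).2 hno)
  rw [smul_ng, smul_inv_smul] at h1
  exact D.not_pos_ng hγ h1

/-- An isometry preserving the positive roots permutes the simple roots. -/
theorem exists_al {u : D.OQ} (h : ∀ i, D.Pos (u • D.al i)) (i : Fin n) :
    ∃ j, u • D.al i = D.al j := by
  by_contra hno
  push Not at hno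
  obtain ⟨j, hj, hp⟩ := D.exists_sub (h i) hno
  have h1 := D.ht_pos (D.pos_inv_smul h (D.pos_al j))
  have h2 := D.ht_pos (D.pos_inv_smul h hp)
  have h3 : (u⁻¹ • D.subR (u • D.al i) (D.al j) hj).1 = (D.al i).1 - (u⁻¹ • D.al j).1 := by
    rw [smul_val, smul_val]
    show (u⁻¹).1 (u.1 (D.al i).1 - (D.al j).1) = _
    rw [map_sub, OQ_inv_apply']
  rw [h3, ht_sub, ht_al] at h2
  omega

theorem ht_smul_of_pos {u : D.OQ} (h : ∀ i, D.Pos (u • D.al i)) (x : Fin n → ℤ) :
    ht (u.1 x) = ht x := by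
  have key : ∀ s : Finset (Fin n), ht (u.1 (∑ i ∈ s, x i • (D.al i).1)) =
      ht (∑ i ∈ s, x i • (D.al i).1) := by
    intro s
    classical
    induction s using Finset.induction_on with
    | empty => simp
    | insert a s ha ih =>
      obtain ⟨j, hj⟩ := D.exists_al h a
      have hj' : u.1 (D.al a).1 = (D.al j).1 := congrArg Subtype.val hj
      rw [Finset.sum_insert ha, map_add, ht_add, ht_add, ih, map_smul, ht_smul, ht_smul, hj',
        ht_al, ht_al]
  rw [D.eq_sum_al x]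
  exact key _

theorem theta_smul_of_pos {u : D.OQ} (h : ∀ i, D.Pos (u • D.al i)) : u • D.theta = D.theta := by
  apply D.eq_theta
  intro j
  rw [smul_val]
  have h1 : D.B (u.1 D.theta.1) (D.al j).1 = D.B D.theta.1 (u⁻¹ • D.al j).1 := by
    rw [smul_val, D.B_comm _ ((u⁻¹).1 _), B_inv, D.B_comm]
  rw [h1]
  exact D.B_theta_nonneg (D.pos_inv_smul h (D.pos_al j))

theorem rh_smul_of_pos {u : D.OQ} (h : ∀ i, D.Pos (u • D.al i)) : u.1 D.rh = D.rh := by
  have h1 : u.1 D.rh - D.rh = 0 := by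
    apply D.B_nondeg
    intro y
    rw [B_sub_left, D.B_comm _ y, D.B_comm _ y, ← B_inv, B_rh, B_rh]
    have h2 : ht ((u⁻¹).1 y) = ht y := by
      rw [← D.ht_smul_of_pos h ((u⁻¹).1 y), OQ_inv_apply]
    rw [h2, sub_self]
  exact sub_eq_zero.1 h1

theorem rh_inv_smul_of_pos {u : D.OQ} (h : ∀ i, D.Pos (u • D.al i)) : (u⁻¹).1 D.rh = D.rh := by
  conv_lhs => rw [← D.rh_smul_of_pos h]
  rw [OQ_inv_apply']

/-! ### words -/

theorem pr_cons (s : Option (Fin n)) (l : List (Option (Fin n))) :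
    D.aff.sw.pr (s :: l) = D.aff.sw.pr l * D.aref (D.aal s) := rfl

/-- Every element is `ω * pr i`, `i` reduced, `ω` preserving the positive roots. -/
theorem exists_red (w : D.Aff) : ∃ (ω : D.Aff) (i : List (Option (Fin n))),
    (∀ s, D.apos (ω • D.aal s)) ∧ w = ω * D.aff.sw.pr i ∧ D.aff.Red i := by
  have key : ∀ (m : ℕ) (w : D.Aff), D.dd w ≤ m → ∃ (ω : D.Aff) (i : List (Option (Fin n))),
      (∀ s, D.apos (ω • D.aal s)) ∧ w = ω * D.aff.sw.pr i ∧ D.aff.Red i := by
    intro m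
    induction m with
    | zero =>
      intro w hw
      by_cases h : ∀ s, D.apos (w • D.aal s)
      · exact ⟨w, [], h, (mul_one w).symm, trivial⟩
      · push Not at h
        obtain ⟨s, hs⟩ := h
        have h1 := D.dd_lt_right hs
        have h2 := D.dd_nonneg (w * D.aref (D.aal s))
        push_cast at hw
        omega
    | succ m ih =>
      intro w hw
      by_cases h : ∀ s, D.apos (w • D.aal s)
      · exact ⟨w, [], h, (mul_one w).symm, trivial⟩
      · push Not at h
        obtain ⟨s, hs⟩ := h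
        have h1 := D.dd_lt_right hs
        obtain ⟨ω, i, hω, hi, hr⟩ := ih (w * D.aref (D.aal s)) (by push_cast at hw; omega)
        refine ⟨ω, s :: i, hω, ?_, hr, ?_⟩
        · rw [pr_cons, ← mul_assoc, ← hi, mul_assoc, aref_sq, mul_one]
        · show D.apos (D.aff.sw.pr i • D.aal s)
          by_contra hno
          have h3 := D.apos_smul hω ((D.apos_ang _).2 hno)
          have h4 : ω • D.ang (D.aff.sw.pr i • D.aal s) =
              D.ang (ω • D.aff.sw.pr i • D.aal s) := D.aff.smul_ng _ _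
          have h5 : D.ang (ω • D.aff.sw.pr i • D.aal s) = w • D.aal s := by
            rw [← mul_smul, ← hi, mul_smul, D.aref_self]
            have h6 : w • D.ang (D.aal s) = D.ang (w • D.aal s) := D.aff.smul_ng _ _
            rw [h6]
            exact D.aff.ng_ng _
          rw [h4, h5] at h3
          exact hs h3
  exact key (D.dd w).toNat w (by have := D.dd_nonneg w; omega)

/-- (9.1): a reduced word for a minimal element of weight `lam`. -/
theorem exists_word (lam : Fin n → ℤ) : ∃ i : List (Option (Fin n)), D.aff.Red i ∧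
    (D.aff.sw.pr i).l = lam ∧ ∀ w : D.Aff, w.l = lam → D.dd (D.aff.sw.pr i) ≤ D.dd w := by
  classical
  -- a minimal element
  obtain ⟨w, hw, hmin⟩ : ∃ w : D.Aff, w.l = lam ∧ ∀ w' : D.Aff, w'.l = lam → D.dd w ≤ D.dd w' := by
    have hne : ∃ m : ℕ, ∃ w : D.Aff, w.l = lam ∧ D.dd w = m :=
      ⟨(D.dd ⟨lam, 1⟩).toNat, ⟨lam, 1⟩, rfl, by have := D.dd_nonneg ⟨lam, 1⟩; omega⟩
    obtain ⟨w, h1, h2⟩ := Nat.find_spec hne
    refine ⟨w, h1, fun w' hw' => ?_⟩
    have h3 := D.dd_nonneg w'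
    have h4 : Nat.find hne ≤ (D.dd w').toNat := Nat.find_min' hne ⟨w', hw', by omega⟩
    omega
  obtain ⟨ω, i, hω, hi, hr⟩ := D.exists_red w
  have hωl : ω.l = 0 := D.l_eq_zero hω
  have hωu : ∀ j, D.Pos (ω.u • D.al j) := by
    intro j
    have h1 := hω (some j)
    rcases h1 with h1 | ⟨_, h1⟩
    · exfalso
      rw [smul_snd, hωl, B_zero_left] at h1
      have h2 : (D.aal (some j)).2 = 0 := rfl
      rw [h2] at h1; omega
    · exact h1
  choose π hπ using D.exists_al hωu
  set π' : Option (Fin n) → Option (Fin n) := Option.map π with hπ'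
  have hal : ∀ s, ω • D.aal s = D.aal (π' s) := by
    intro s
    cases s with
    | none =>
      apply ARt_ext
      · show ω.u.1 (-D.theta.1) = - D.theta.1
        have h1 := congrArg Subtype.val (D.theta_smul_of_pos hωu)
        rw [smul_val] at h1
        rw [map_neg, h1]
      · rw [smul_snd, hωl, B_zero_left, sub_zero]; rfl
    | some j =>
      apply ARt_ext
      · exact congrArg Subtype.val (hπ j)
      · rw [smul_snd, hωl, B_zero_left, sub_zero]; rfl
  have hpr : ∀ l, D.aff.sw.pr (l.map π') = ω * D.aff.sw.pr l * ω⁻¹ := by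
    intro l
    induction l with
    | nil => show (1 : D.Aff) = ω * 1 * ω⁻¹; group
    | cons s l ih =>
      rw [List.map_cons, pr_cons, pr_cons, ih, ← hal, aref_smul]
      group
  have hred : ∀ l, D.aff.Red l → D.aff.Red (l.map π') := by
    intro l
    induction l with
    | nil => intro _; trivial
    | cons s l ih =>
      rintro ⟨h1, h2⟩
      refine ⟨ih h1, ?_⟩
      show D.apos (D.aff.sw.pr (l.map π') • D.aal (π' s))
      rw [hpr, ← hal, mul_smul, inv_smul_smul, mul_smul]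
      exact D.apos_smul hω h2
  refine ⟨i.map π', hred i hr, ?_, fun w' hw' => ?_⟩
  · rw [hpr, ← hi, mul_l, inv_l, hωl, map_zero, neg_zero, map_zero, add_zero, hw]
  · have h1 : D.dd (D.aff.sw.pr (i.map π')) = D.dd w := by
      rw [hpr, ← hi]
      have h2 : D.zz (w * ω⁻¹) = D.zz w := by
        unfold zz
        rw [mul_l, mul_u, inv_l, hωl, map_zero, neg_zero, map_zero, add_zero, inv_u]
        congr 1
        show w.u.1 ((ω.u⁻¹).1 D.rh) = w.u.1 D.rh
        rw [D.rh_inv_smul_of_pos hωu]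
      unfold dd
      rw [h2]
    rw [h1]
    exact hmin w' hw'

end SLD

end Pool.Agent.MTX
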