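import Pool.Agent.MTX.S4a

/-! # MTX, Part S : traces (definitions) -/

namespace Pool.Agent.MTX

section
variable {R G S : Type} [CommRing R] [Group G] [MulSemiringAction G R]

/-- the product of two elements of a ring lattice -/
def mulM {L : Lat R G} (h : RingLat L) (a b : L.M) : L.M := ⟨a.1 * b.1, h.mul _ a.2 _ b.2⟩

omit [Group G] [MulSemiringAction G R] in
theorem mulM_apply {L : Lat R G} (h : RingLat L) (a b : L.M) (p : L.J) :
    (mulM h a b).1 p = a.1 p * b.1 p := rfl

variable (W : SW R G S)

/-- the iterated `dup` -/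
def SW.dupW (L : Lat R G) : (l : List S) → L.M →ₗ[R] (W.words L l).M
  | [] => LinearMap.id
  | s :: l => (dup (W.f s) (W.g s) (W.words L l)) ∘ₗ (SW.dupW L l)

/-- the label of the foundation: `base` index of an index of `words L l` -/
def SW.bot (L : Lat R G) : (l : List S) → (W.words L l).J → L.J
  | [] => id
  | _ :: l => fun p => SW.bot L l p.1

theorem SW.dupW_apply (L : Lat R G) (l : List S) (m : L.M) (p : (W.words L l).J) :
    (W.dupW L l m).1 p = m.1 (W.bot L l p) := by
  induction l with
  | nil => rfl
  | cons s l ih => exact ih p.1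

/-- `lab p = lab (bot p) * (product of letters of l)`: any set stable under right multiplication by the letters
and containing `lab (bot p)` contains `lab p`; and conversely. -/
theorem lab_bot (L : Lat R G) (l : List S) (X : Set G) (hX : ∀ v ∈ X, ∀ s ∈ l, v * W.g s ∈ X)
    (p : (W.words L l).J) : (W.words L l).lab p ∈ X ↔ L.lab (W.bot L l p) ∈ X := by
  induction l with
  | nil => exact Iff.rfl
  | cons s l ih =>
    obtain ⟨q, b⟩ := p
    have hX' : ∀ v ∈ X, ∀ s' ∈ l, v * W.g s' ∈ X := fun v hv s' hs' =>
      hX v hv s' (List.mem_cons_of_mem _ hs')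
    rw [show W.bot L (s :: l) (q, b) = W.bot L l q from rfl, ← ih hX' q]
    cases b with
    | false => exact Iff.rfl
    | true =>
      show (W.words L l).lab q * W.g s ∈ X ↔ _
      constructor
      · intro h
        have h1 := hX _ h s List.mem_cons_self
        rwa [mul_assoc, W.g_sq, mul_one] at h1
      · intro h
        exact hX _ h s List.mem_cons_self

variable [IsDomain R]

/-- the iterated trace `words L l → L` -/
noncomputable def SW.tr (L : Lat R G) : (l : List S) → (W.words L l).M →ₗ[R] L.M
  | [] => LinearMap.id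
  | s :: l => (SW.tr L l) ∘ₗ (trM (W.g s) (W.words L l) (W.f_ne s))

/-- the total trace -/
noncomputable def SW.Tr (l : List S) : (W.BS l).M →ₗ[R] R :=
  (LinearMap.proj (R := R) (φ := fun _ : Unit => R) () ∘ₗ
    (Submodule.subtype (⊤ : Submodule R (Unit → R)))) ∘ₗ (W.tr (Lat.base 1) l)

theorem SW.Tr_def (l : List S) (m : (W.BS l).M) :
    W.Tr l m = (W.tr (Lat.base 1) l m).1 () := rfl

/-- Euler class (denominator) of an index -/
def SW.eu : (l : List S) → (W.BS l).J → R
  | [] => fun _ => 1
  | s :: l => fun p => (if p.2 then -1 else 1) * ((W.BS l).lab p.1 • W.f s) * SW.eu l p.1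

/-- induction -/
theorem eu_ne (l : List S) (p : (W.BS l).J) : W.eu l p ≠ 0 := by
  induction l with
  | nil => exact one_ne_zero
  | cons s l ih =>
    show (if p.2 then -1 else 1) * ((W.BS l).lab p.1 • W.f s) * W.eu l p.1 ≠ 0
    refine mul_ne_zero (mul_ne_zero ?_ (smul_ne_zero' _ (W.f_ne s))) (ih p.1)
    split_ifs
    · exact neg_ne_zero.mpr one_ne_zero
    · exact one_ne_zero

/-- `tr (dup g * a) = g * tr a` (`trM_unique`) -/
theorem trM_dup_mul (s : S) {L : Lat R G} (hr : RingLat L)
    (hr' : RingLat (Lat.star (W.f s) (W.g s) L)) (g : L.M) (a : (Lat.star (W.f s) (W.g s) L).M) :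
    trM (W.g s) L (W.f_ne s) (mulM hr' (dup (W.f s) (W.g s) L g) a) =
      mulM hr g (trM (W.g s) L (W.f_ne s) a) := by
  apply Subtype.ext
  apply trM_unique
  intro p
  have h1 := trM_spec (g := W.g s) (W.f_ne s) a p
  show g.1 p * a.1 (p, false) - g.1 p * a.1 (p, true) =
    (L.lab p • W.f s) * (g.1 p * (trM (W.g s) L (W.f_ne s) a).1 p)
  linear_combination g.1 p * h1

/-- iterated: induction on `l` -/
theorem tr_dup_mul {L : Lat R G} (h : RyLat L) (hr : RingLat L) (l : List S) (g : L.M)
    (a : (W.words L l).M) :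
    W.tr L l (mulM (ring_words W h hr l) (W.dupW L l g) a) = mulM hr g (W.tr L l a) := by
  induction l with
  | nil => rfl
  | cons s l ih =>
    show W.tr L l (trM (W.g s) (W.words L l) (W.f_ne s)
      (mulM (ring_words W h hr (s :: l)) (dup (W.f s) (W.g s) (W.words L l) (W.dupW L l g)) a)) =
      mulM hr g (W.tr L l (trM (W.g s) (W.words L l) (W.f_ne s) a))
    rw [← ih]
    exact congrArg (W.tr L l) (trM_dup_mul W s (ring_words W h hr l) _ _ a)

private theorem s9_field {K : Type} [Field K] (A B c e t E0 E1 : K) (hc : c ≠ 0)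
    (h : A - B = c * t) (h0 : E0 = c * e) (h1 : E1 = -(c * e)) : t / e = A / E0 + B / E1 := by
  rw [h0, h1, div_neg, ← sub_eq_add_neg, ← sub_div, h, mul_div_mul_left _ _ hc]

/-- Formula for the total trace.  Induction on `l`: `Tr (s :: l) m = Tr l (trM m)`, and in `K`
`(trM m) p = (m (p,0) - m (p,1)) / (lab p • f)`.  The sum over `(W.BS l).J × Bool` is the sum over
`(W.BS l).J` of two terms (`Fintype.sum_prod_type`, `Fintype.sum_bool`). -/
theorem Tr_eq {K : Type} [Field K] [Algebra R K] (hK : Function.Injective (algebraMap R K))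
    (l : List S) (m : (W.BS l).M) :
    algebraMap R K (W.Tr l m) = ∑ p, algebraMap R K (m.1 p) / algebraMap R K (W.eu l p) := by
  induction l with
  | nil =>
    have h1 : ∀ F : Unit → K, ∑ p : Unit, F p = F () := fun F => Fintype.sum_unique F
    show algebraMap R K (m.1 ()) = ∑ p : Unit, algebraMap R K (m.1 p) / algebraMap R K 1
    rw [h1, map_one, div_one]
  | cons s l ih =>
    have h1 : W.Tr (s :: l) m = W.Tr l (trM (W.g s) (W.BS l) (W.f_ne s) m) := rfl
    rw [h1, ih]
    have h2 : ∀ F : (W.BS l).J × Bool → K, ∑ p, F p = ∑ p, (F (p, false) + F (p, true)) := by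
      intro F
      rw [Fintype.sum_prod_type]
      apply Finset.sum_congr rfl
      intro p _
      rw [Fintype.sum_bool, add_comm]
    refine Eq.trans ?_ (h2 fun p => algebraMap R K (m.1 p) / algebraMap R K (W.eu (s :: l) p)).symm
    apply Finset.sum_congr rfl
    intro p _
    have h3 := congrArg (algebraMap R K) (trM_spec (g := W.g s) (W.f_ne s) m p)
    rw [map_sub, map_mul] at h3
    have e1 : algebraMap R K ((W.BS l).lab p • W.f s) ≠ 0 := by
      intro h
      exact smul_ne_zero' ((W.BS l).lab p) (W.f_ne s) (hK (by rw [h, map_zero]))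
    have e2 : algebraMap R K (W.eu (s :: l) (p, false)) =
        algebraMap R K ((W.BS l).lab p • W.f s) * algebraMap R K (W.eu l p) := by
      show algebraMap R K ((if (false : Bool) then -1 else 1) * ((W.BS l).lab p • W.f s) *
        W.eu l p) = _
      rw [map_mul, map_mul]
      simp
    have e3 : algebraMap R K (W.eu (s :: l) (p, true)) =
        -(algebraMap R K ((W.BS l).lab p • W.f s) * algebraMap R K (W.eu l p)) := by
      show algebraMap R K ((if (true : Bool) then -1 else 1) * ((W.BS l).lab p • W.f s) *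
        W.eu l p) = _
      rw [map_mul, map_mul]
      simp
    exact s9_field _ _ _ _ _ _ _ e1 h3 e2 e3

end

end Pool.Agent.MTX
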