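import Pool.Agent.MTX.S4b
import Pool.Agent.MTX.S9

/-! # MTX, Part S : (4.2), iterated traces are onto with supports -/

namespace Pool.Agent.MTX

variable {R G Rt S : Type} [CommRing R] [Group G]
  [MulSemiringAction G R] [MulAction G Rt] (D : AS R G Rt S)

/-- `X (s_k ∪ 1) ...`: `plusL (s :: k) X = plusL k (plus s X)`. -/
def AS.plusL : List S → Set G → Set G
  | [] => id
  | s :: k => fun X => AS.plusL k (D.plus s X)

/-- induction, `closed_plus` -/
theorem closed_plusL {P : Rt → Prop} (k : List S) {X : Set G} (hX : D.Closed P X) :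
    D.Closed P (D.plusL k X) := by
  induction k generalizing X with
  | nil => exact hX
  | cons s k ih => exact ih (D.closed_plus hX s)

/-- (4.2).  Induction on `k`, for all `X`: `k = s :: k'`: `plusL k' (plus s X)`; by induction `n` is the trace of
`n' ∈ words L k'` supported on `plus s X`; `star_onto` for the lattice `words L k'` (`nice_words`) gives
`m` supported on `X` with `n`-part `n'`; `trM_unique`. -/
theorem tr_onto [IsDomain R] [Algebra ℚ R] {P : Rt → Prop} (hP : D.Sys P) {L : Lat R G} (hL : Nice D L)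
    (k : List S) {X : Set G} (hX : D.Closed P X) (n : L.M) (hn : L.sup n.1 (D.plusL k X)) :
    ∃ m : (D.sw.words L k).M, (D.sw.words L k).sup m.1 X ∧ D.sw.tr L k m = n := by
  induction k generalizing X with
  | nil => exact ⟨n, hn, rfl⟩
  | cons s k ih =>
    obtain ⟨n', hn', htr⟩ := ih (D.closed_plus hX s) hn
    obtain ⟨m, hm, hms, hmp⟩ := star_onto D hP (nice_words D hL k) s hX n'.2 hn'
    refine ⟨⟨m, hm⟩, hms, ?_⟩
    have h1 : trM (D.sw.g s) (D.sw.words L k) (D.sw.f_ne s) ⟨m, hm⟩ = n' :=
      Subtype.ext (trM_unique (D.sw.f_ne s) ⟨m, hm⟩ n'.1 hmp)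
    show D.sw.tr L k (trM (D.sw.g s) (D.sw.words L k) (D.sw.f_ne s) ⟨m, hm⟩) = n
    rw [h1, htr]

end Pool.Agent.MTX
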