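import Pool.Agent.MTX.S8a

/-! # MTX, Part S : the adjunction (proof of (3.3) in MTX_PROOF.md) -/

namespace Pool.Agent.MTX

variable {R G S : Type} [CommRing R] [IsDomain R] [Algebra ℚ R] [Group G]
  [MulSemiringAction G R] (W : SW R G S) {L L' : Lat R G}

omit [IsDomain R] [Algebra ℚ R] in
/-- A linear map to the star given by its two components. -/
theorem s8b_pair (f : R) (g : G) (A B N : L.M →ₗ[R] L'.M)
    (h : ∀ m p, (A m).1 p - (B m).1 p = (L'.lab p • f) * (N m).1 p) :
    ∃ Ψ : L.M →ₗ[R] (Lat.star f g L').M,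
      (∀ m p, (Ψ m).1 (p, false) = (A m).1 p) ∧ ∀ m p, (Ψ m).1 (p, true) = (B m).1 p := by
  refine ⟨{
    toFun := fun m => ⟨fun q => if q.2 then (B m).1 q.1 else (A m).1 q.1,
      ⟨(A m).2, (N m).1, (N m).2, fun p => h m p⟩⟩
    map_add' := ?_
    map_smul' := ?_ }, ?_, ?_⟩
  · intro x y
    apply Subtype.ext
    funext q
    obtain ⟨p, b⟩ := q
    cases b with
    | false =>
      show (A (x + y)).1 p = (A x).1 p + (A y).1 p
      rw [map_add]
      rfl
    | true =>
      show (B (x + y)).1 p = (B x).1 p + (B y).1 p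
      rw [map_add]
      rfl
  · intro c x
    apply Subtype.ext
    funext q
    obtain ⟨p, b⟩ := q
    cases b with
    | false =>
      show (A (c • x)).1 p = c * (A x).1 p
      rw [map_smul]
      rfl
    | true =>
      show (B (c • x)).1 p = c * (B x).1 p
      rw [map_smul]
      rfl
  · intro m p
    rfl
  · intro m p
    rfl

omit [IsDomain R] in
theorem s8b_half (R : Type) [CommRing R] [Algebra ℚ R] : ∃ c : R, 2 * c = 1 := by
  refine ⟨algebraMap ℚ R (1 / 2), ?_⟩
  have h : (2 : R) = algebraMap ℚ R 2 := (map_ofNat (algebraMap ℚ R) 2).symm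
  rw [h, ← map_mul]
  norm_num

/-- First half of the adjunction.  `Φ : L * E_s → L'`; `φ m := Φ (dup m)`,
`Ψ m := ((φ (α m) + α φ m)/2, (φ (α m) - α φ m)/2)`, where `α m = ryL _ (W.f s) m` (in `L`) and
`α φ m = ryL _ (W.f s) (φ m)` (in `L'`); the difference of the two components is `α (φ m)`.
The support: let `m` be supported on `{v}`, `g = W.g s`, `f = W.f s`.  `ryL f m = (v • f) • m`, so
`φ (α m) = (v • f) • φ m`.  `dup m` is supported on `{v, v g}`, so `φ m` is by `FlHom.sup`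
(`big_star`).  The component at `(p, 0)` is `(1/2) (v • f + lab p • f) (φ m)_p`, which is `0` if `lab p = v g`
(`(v g) • f = - v • f`, `W.g_f`), and at `(p, 1)` it is `(1/2) (v • f - lab p • f) (φ m)_p`, which is `0` if
`lab p = v`. -/
theorem adj1 (s : S) (hB : Big L) (hL : RyLat L) (hL' : RyLat L')
    (Φ : (Lat.star (W.f s) (W.g s) L).M →ₗ[R] L'.M) (h : FlHom Φ) :
    ∃ Ψ : L.M →ₗ[R] (Lat.star (W.f s) (W.g s) L').M, FlHom Ψ ∧
      ∀ m, trM (W.g s) L' (W.f_ne s) (Ψ m) = Φ (dup (W.f s) (W.g s) L m) := by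
  obtain ⟨c, hc⟩ := s8b_half R
  obtain ⟨F0, hF0⟩ : ∃ F0 : L.M →ₗ[R] L'.M, ∀ m, F0 m = Φ (dup (W.f s) (W.g s) L m) :=
    ⟨Φ ∘ₗ dup (W.f s) (W.g s) L, fun _ => rfl⟩
  obtain ⟨F1, hF1⟩ : ∃ F1 : L.M →ₗ[R] L'.M, ∀ m, F1 m = F0 (ryL hL (W.f s) m) :=
    ⟨F0 ∘ₗ ryL hL (W.f s), fun _ => rfl⟩
  obtain ⟨F2, hF2⟩ : ∃ F2 : L.M →ₗ[R] L'.M, ∀ m p, (F2 m).1 p = (L'.lab p • W.f s) * (F0 m).1 p :=
    ⟨ryL hL' (W.f s) ∘ₗ F0, fun _ _ => rfl⟩
  obtain ⟨Ψ, hΨ1, hΨ2⟩ := s8b_pair (W.f s) (W.g s) (c • (F1 + F2)) (c • (F1 - F2)) F0 (by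
    intro m p
    show c * ((F1 m).1 p + (F2 m).1 p) - c * ((F1 m).1 p - (F2 m).1 p) = _
    rw [hF2]
    linear_combination ((L'.lab p • W.f s) * (F0 m).1 p) * hc)
  have hΨ1' : ∀ m p, (Ψ m).1 (p, false) =
      c * ((F1 m).1 p + (L'.lab p • W.f s) * (F0 m).1 p) := by
    intro m p
    rw [hΨ1, ← hF2]
    rfl
  have hΨ2' : ∀ m p, (Ψ m).1 (p, true) =
      c * ((F1 m).1 p - (L'.lab p • W.f s) * (F0 m).1 p) := by
    intro m p
    rw [hΨ2, ← hF2]
    rfl
  refine ⟨Ψ, ?_, ?_⟩
  · intro v m hm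
    -- the support of `dup m`
    have hdup : (Lat.star (W.f s) (W.g s) L).sup (dup (W.f s) (W.g s) L m).1
        {u | u = v ∨ u = v * W.g s} := by
      rintro ⟨p, b⟩ hp
      rw [dup_apply]
      apply hm
      intro hpv
      have hpv' : L.lab p = v := hpv
      apply hp
      cases b with
      | false => exact Or.inl hpv'
      | true =>
        right
        show L.lab p * W.g s = v * W.g s
        rw [hpv']
    have hF0s : L'.sup (F0 m).1 {u | u = v ∨ u = v * W.g s} := by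
      rw [hF0]
      exact FlHom.sup (big_star W s hB) h _ _ hdup
    have hry : ryL hL (W.f s) m = (v • W.f s) • m := by
      apply Subtype.ext
      funext p
      show (L.lab p • W.f s) * m.1 p = (v • W.f s) * m.1 p
      by_cases hp : L.lab p = v
      · rw [hp]
      · rw [hm p hp, mul_zero, mul_zero]
    have hF1v : ∀ p, (F1 m).1 p = (v • W.f s) * (F0 m).1 p := by
      intro p
      rw [hF1, hry, map_smul]
      rfl
    have hvg : (v * W.g s) • W.f s = - (v • W.f s) := by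
      rw [mul_smul, W.g_f, smul_neg]
    rintro ⟨p, b⟩ hp
    cases b with
    | false =>
      have hp' : L'.lab p ≠ v := hp
      rw [hΨ1', hF1v]
      by_cases hpg : L'.lab p = v * W.g s
      · rw [hpg, hvg]
        ring
      · have : (F0 m).1 p = 0 := hF0s p (by
          rintro (h1 | h1)
          · exact hp' h1
          · exact hpg h1)
        rw [this]
        ring
    | true =>
      have hp' : L'.lab p * W.g s ≠ v := hp
      rw [hΨ2', hF1v]
      by_cases hpv : L'.lab p = v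
      · rw [hpv]
        ring
      · have : (F0 m).1 p = 0 := hF0s p (by
          rintro (h1 | h1)
          · exact hpv h1
          · apply hp'
            rw [h1, mul_assoc, W.g_sq, mul_one])
        rw [this]
        ring
  · intro m
    rw [← hF0]
    apply Subtype.ext
    apply trM_unique
    intro p
    rw [hΨ1', hΨ2']
    linear_combination ((L'.lab p • W.f s) * (F0 m).1 p) * hc

/-- Every element `x` of the star is `dup g0 + dal g1` with `g0 = (x (·,0) + x (·,1))/2 = x(·,0) - ry f (tr x)/2`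
and `g1 = (tr x)/2`. -/
theorem star_decomp (s : S) (hL : RyLat L) (x : (Lat.star (W.f s) (W.g s) L).M) :
    ∃ g0 g1 : L.M, x = dup (W.f s) (W.g s) L g0 + dal (W.f s) (W.g s) hL g1 ∧
      (∀ p, 2 * g0.1 p = x.1 (p, false) + x.1 (p, true)) ∧
      (∀ p, 2 * ((L.lab p • W.f s) * g1.1 p) = x.1 (p, false) - x.1 (p, true)) := by
  obtain ⟨c, hc⟩ := s8b_half R
  obtain ⟨n, hn⟩ : ∃ n : L.M, ∀ p, x.1 (p, false) - x.1 (p, true) = (L.lab p • W.f s) * n.1 p :=
    ⟨trM (W.g s) L (W.f_ne s) x, trM_spec (W.f_ne s) x⟩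
  obtain ⟨g0, hg0⟩ : ∃ g0 : L.M, ∀ p, g0.1 p = x.1 (p, false) -
      (L.lab p • W.f s) * (c * n.1 p) :=
    ⟨⟨fun p => x.1 (p, false), x.2.1⟩ - ryL hL (W.f s) (c • n), fun _ => rfl⟩
  refine ⟨g0, c • n, ?_, ?_, ?_⟩
  · apply Subtype.ext
    funext q
    obtain ⟨p, b⟩ := q
    cases b with
    | false =>
      show x.1 (p, false) = g0.1 p + (dal (W.f s) (W.g s) hL (c • n)).1 (p, false)
      rw [dal_false, hg0]
      show _ = _ + (L.lab p • W.f s) * (c * n.1 p)
      ring
    | true =>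
      show x.1 (p, true) = g0.1 p + (dal (W.f s) (W.g s) hL (c • n)).1 (p, true)
      rw [dal_true, hg0]
      show _ = _ + -((L.lab p • W.f s) * (c * n.1 p))
      linear_combination ((L.lab p • W.f s) * n.1 p) * hc - hn p
  · intro p
    rw [hg0]
    linear_combination (-((L.lab p • W.f s) * n.1 p)) * hc + hn p
  · intro p
    show 2 * ((L.lab p • W.f s) * (c * n.1 p)) = _
    linear_combination ((L.lab p • W.f s) * n.1 p) * hc - hn p

/-- Second half.  `Ψ : L → L' * E_s`, `φ m := tr (Ψ m)`, `Φ x := φ g0 + ryL f (φ g1)` where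
`g0 = (1/2) (x(·,0) + x(·,1))`, `g1 = (1/2) tr x` (both linear in `x`).  For `x = dup m`: `g0 = m`, `g1 = 0`; for
`x = dal m`: `g0 = 0`, `g1 = m` (`trM_unique`).
The support: let `x` be supported on `{v}`.  Then `x (p,0) = 0` for `lab p ≠ v` and `x (p,1) = 0` for
`lab p ≠ v g` (`g g = 1`).  So `(v • f) g1 = g0`: multiply by `2 (lab p • f)`: at `lab p = v`:
`(v • f) (x (p,0) - x (p,1))= (v • f) (x (p,0) + x (p,1))` if `v ≠ v g` (then `x (p,1) = 0`), and if `v = v g` then
`v • f = - v • f`, impossible as `2 ≠ 0`; at `lab p = v g`: `lab p • f = - v • f`, same.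
`(v • f) • Φ x = (v • f) • φ g0 + ryL f (φ g0)`.  `g0` is supported on `{v, v g}`, so `Ψ g0` is (`FlHom.sup`, `Big L`),
so its trace `φ g0` is supported on `{v, v g}` (`trM_spec`: if `lab p ∉ {v, v g}` then `lab p g ∉ {v, v g}`).  At
`lab p = v g` the value of `(v • f) φ g0 + (lab p • f) φ g0` is `0`.  So `Φ x` is supported on `{v}` (cancel `v • f`). -/
theorem adj2 (s : S) (hB : Big L) (hL : RyLat L) (hL' : RyLat L')
    (Ψ : L.M →ₗ[R] (Lat.star (W.f s) (W.g s) L').M) (h : FlHom Ψ) :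
    ∃ Φ : (Lat.star (W.f s) (W.g s) L).M →ₗ[R] L'.M, FlHom Φ ∧
      (∀ m, Φ (dup (W.f s) (W.g s) L m) = trM (W.g s) L' (W.f_ne s) (Ψ m)) ∧
      ∀ m, Φ (dal (W.f s) (W.g s) hL m) =
        ryL hL' (W.f s) (trM (W.g s) L' (W.f_ne s) (Ψ m)) := by
  obtain ⟨half, hhalf⟩ : ∃ half : R, half + half = 1 := by
    refine ⟨algebraMap ℚ R (1 / 2), ?_⟩
    rw [← map_add]
    norm_num
  have h2ne : (2 : R) ≠ 0 := by
    intro h0
    have h1 : half + half = half * 2 := by ring
    rw [h0, mul_zero, hhalf] at h1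
    exact one_ne_zero h1
  have hf : W.f s ≠ 0 := W.f_ne s
  -- the linear maps
  set φ : L.M →ₗ[R] L'.M := (trM (W.g s) L' (W.f_ne s)) ∘ₗ Ψ with hφ
  set T : (Lat.star (W.f s) (W.g s) L).M →ₗ[R] L.M := trM (W.g s) L (W.f_ne s) with hT
  let pr0 : (Lat.star (W.f s) (W.g s) L).M →ₗ[R] L.M :=
    { toFun := fun x => ⟨fun p => x.1 (p, false), x.2.1⟩
      map_add' := fun _ _ => rfl
      map_smul' := fun _ _ => rfl }
  set G1 : (Lat.star (W.f s) (W.g s) L).M →ₗ[R] L.M := half • T with hG1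
  set G0 : (Lat.star (W.f s) (W.g s) L).M →ₗ[R] L.M :=
    pr0 - half • ((ryL hL (W.f s)) ∘ₗ T) with hG0
  have hG1a : ∀ x p, (G1 x).1 p = half * (T x).1 p := fun _ _ => rfl
  have hG0a : ∀ x p, (G0 x).1 p = x.1 (p, false) - half * ((L.lab p • W.f s) * (T x).1 p) :=
    fun _ _ => rfl
  have hTspec : ∀ (x : (Lat.star (W.f s) (W.g s) L).M) p,
      x.1 (p, false) - x.1 (p, true) = (L.lab p • W.f s) * (T x).1 p :=
    fun x p => trM_spec (W.f_ne s) x p
  have hg0 : ∀ x p, 2 * (G0 x).1 p = x.1 (p, false) + x.1 (p, true) := by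
    intro x p
    rw [hG0a]
    have h1 := hTspec x p
    linear_combination (-(L.lab p • W.f s) * (T x).1 p) * hhalf + h1
  have hg1 : ∀ x p, 2 * ((L.lab p • W.f s) * (G1 x).1 p) = x.1 (p, false) - x.1 (p, true) := by
    intro x p
    rw [hG1a, hTspec x p]
    linear_combination ((L.lab p • W.f s) * (T x).1 p) * hhalf
  have hgg : ∀ v : G, v * W.g s * W.g s = v := fun v => by
    rw [mul_assoc, W.g_sq, mul_one]
  have hvgf : ∀ v : G, (v * W.g s) • W.f s = - (v • W.f s) := fun v => by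
    rw [mul_smul, W.g_f, smul_neg]
  have hvne : ∀ v : G, v • W.f s ≠ 0 := fun v => smul_ne_zero' v hf
  have hneg : ∀ v : G, v ≠ v * W.g s := by
    intro v hv
    have h1 := hvgf v
    rw [← hv] at h1
    have h3 : (2 : R) * (v • W.f s) = 0 := by linear_combination h1
    rcases mul_eq_zero.1 h3 with h4 | h4
    · exact h2ne h4
    · exact hvne v h4
  refine ⟨φ ∘ₗ G0 + (ryL hL' (W.f s)) ∘ₗ (φ ∘ₗ G1), ?_, ?_, ?_⟩
  · intro v x hx
    have hx0 : ∀ p, L.lab p ≠ v → x.1 (p, false) = 0 := fun p hp => hx (p, false) hp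
    have hx1 : ∀ p, L.lab p * W.g s ≠ v → x.1 (p, true) = 0 := fun p hp => hx (p, true) hp
    -- (v • f) g1 = g0
    have hkey : (v • W.f s) • G1 x = G0 x := by
      apply Subtype.ext
      funext p
      show (v • W.f s) * (G1 x).1 p = (G0 x).1 p
      have hc : (2 : R) * (L.lab p • W.f s) ≠ 0 := mul_ne_zero h2ne (hvne _)
      apply mul_left_cancel₀ hc
      have e0 := hg0 x p
      have e1 := hg1 x p
      by_cases h1 : L.lab p = v
      · have h2 : x.1 (p, true) = 0 := hx1 p (by rw [h1]; exact (hneg v).symm)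
        rw [h2] at e0 e1
        rw [h1] at e1 ⊢
        linear_combination (v • W.f s) * e1 - (v • W.f s) * e0
      · have h2 : x.1 (p, false) = 0 := hx0 p h1
        by_cases h3 : L.lab p * W.g s = v
        · have h4 : L.lab p = v * W.g s := by rw [← h3, hgg]
          rw [h2] at e0 e1
          rw [h4, hvgf] at e1 ⊢
          linear_combination (v • W.f s) * e1 + (v • W.f s) * e0
        · have h4 : x.1 (p, true) = 0 := hx1 p h3
          rw [h2, h4] at e0 e1
          linear_combination (v • W.f s) * e1 - (L.lab p • W.f s) * e0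
    have hg0s : L.sup (G0 x).1 {v, v * W.g s} := by
      intro p hp
      have hp1 : L.lab p ≠ v := fun h0 => hp (Or.inl h0)
      have hp2 : L.lab p ≠ v * W.g s := fun h0 => hp (Or.inr h0)
      have e0 := hg0 x p
      have h2 : x.1 (p, false) = 0 := hx0 p hp1
      have h3 : x.1 (p, true) = 0 := hx1 p (fun h0 => hp2 (by rw [← h0, hgg]))
      rw [h2, h3, add_zero] at e0
      exact (mul_eq_zero.1 e0).resolve_left h2ne
    have hΨs := FlHom.sup hB h {v, v * W.g s} (G0 x) hg0s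
    have hφs : L'.sup (φ (G0 x)).1 {v, v * W.g s} := by
      intro p hp
      have hp1 : L'.lab p ≠ v := fun h0 => hp (Or.inl h0)
      have hp2 : L'.lab p ≠ v * W.g s := fun h0 => hp (Or.inr h0)
      have e1 : (Ψ (G0 x)).1 (p, false) = 0 := hΨs (p, false) hp
      have e2 : (Ψ (G0 x)).1 (p, true) = 0 := by
        apply hΨs (p, true)
        rw [Lat.star_lab_true]
        rintro (h0 | h0)
        · exact hp2 (by rw [← h0, hgg])
        · exact hp1 (mul_right_cancel h0)
      have e3 := trM_spec (W.f_ne s) (Ψ (G0 x)) p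
      rw [e1, e2, sub_zero] at e3
      exact (mul_eq_zero.1 e3.symm).resolve_left (hvne _)
    intro p hp
    have hp1 : L'.lab p ≠ v := fun h0 => hp h0
    -- (v • f) • Φ x
    have hmul : (v • W.f s) * ((φ (G0 x)).1 p + (L'.lab p • W.f s) * (φ (G1 x)).1 p) =
        (v • W.f s + L'.lab p • W.f s) * (φ (G0 x)).1 p := by
      have h5 : φ (G0 x) = (v • W.f s) • φ (G1 x) := by
        rw [← hkey, map_smul]
      have h6 : (φ (G0 x)).1 p = (v • W.f s) * (φ (G1 x)).1 p := by
        rw [h5]; rfl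
      rw [h6]; ring
    have hval : (φ (G0 x)).1 p + (L'.lab p • W.f s) * (φ (G1 x)).1 p = 0 := by
      apply mul_left_cancel₀ (hvne v)
      rw [hmul, mul_zero]
      by_cases h3 : L'.lab p = v * W.g s
      · rw [h3, hvgf, add_neg_cancel, zero_mul]
      · rw [hφs p (by rintro (h0 | h0); exact hp1 h0; exact h3 h0), mul_zero]
    exact hval
  · intro m
    have hT0 : T (dup (W.f s) (W.g s) L m) = 0 := by
      apply Subtype.ext
      refine trM_unique (W.f_ne s) _ 0 (fun p => ?_)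
      rw [dup_apply, dup_apply]
      simp
    have e1 : G1 (dup (W.f s) (W.g s) L m) = 0 := by
      show half • T _ = 0
      rw [hT0, smul_zero]
    have e0 : G0 (dup (W.f s) (W.g s) L m) = m := by
      apply Subtype.ext
      funext p
      rw [hG0a, hT0, dup_apply]
      simp
    show φ (G0 _) + ryL hL' (W.f s) (φ (G1 _)) = _
    rw [e1, e0, map_zero, map_zero, add_zero]
    rfl
  · intro m
    have hT0 : T (dal (W.f s) (W.g s) hL m) = (2 : R) • m := by
      apply Subtype.ext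
      refine trM_unique (W.f_ne s) _ ((2 : R) • m.1) (fun p => ?_)
      rw [dal_false, dal_true]
      show _ = _ * (2 * m.1 p)
      ring
    have hh2 : half * 2 = 1 := by rw [← hhalf]; ring
    have e1 : G1 (dal (W.f s) (W.g s) hL m) = m := by
      show half • T _ = m
      rw [hT0, smul_smul, hh2, one_smul]
    have e0 : G0 (dal (W.f s) (W.g s) hL m) = 0 := by
      apply Subtype.ext
      funext p
      rw [hG0a, hT0, dal_false]
      show (L.lab p • W.f s) * m.1 p - half * ((L.lab p • W.f s) * (2 * m.1 p)) = 0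
      linear_combination (-(L.lab p • W.f s) * m.1 p) * hh2
    show φ (G0 _) + ryL hL' (W.f s) (φ (G1 _)) = _
    rw [e1, e0, map_zero, zero_add]
    rfl

end Pool.Agent.MTX
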