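import Pool.Agent.MTX.S6
import Pool.Agent.MTX.S8b

/-! # MTX, Part S : the lifting theorem (3.3) -/

namespace Pool.Agent.MTX

variable {R G Rt S : Type} [CommRing R] [IsDomain R] [Algebra ℚ R] [Group G]
  [MulSemiringAction G R] [MulAction G Rt] (D : AS R G Rt S)

/-- `L0` has the lifting property against all good quotients. -/
def Lifts (L0 : Lat R G) : Prop :=
  ∀ (L L'' : Lat R G) (i : L''.J → L.J), Nice D L → Nice D L'' → Good D L L'' i →
    ∀ Φ'' : L0.M →ₗ[R] L''.M, FlHom Φ'' →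
      ∃ Φ : L0.M →ₗ[R] L.M, FlHom Φ ∧ ∀ m q, (Φ m).1 (i q) = (Φ'' m).1 q

/-- `Φ''` is `r ↦ r • m''`, `m'' = Φ'' 1` supported on `{1}`, which is closed (`closed_one`); lift `m''` to `m` by
`Good.onto` and put `Φ r = r () • m`. -/
theorem lifts_base : Lifts D (Lat.base 1 : Lat R G) := by
  intro L L'' i hL hL'' hg Φ'' hΦ
  let e1 : (Lat.base 1 : Lat R G).M := ⟨fun _ => 1, mem_base 1 _⟩
  have hsup : L''.sup (Φ'' e1).1 {1} := hΦ 1 e1 fun p hp => absurd rfl hp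
  obtain ⟨m, hm, hmX, hmi⟩ := hg.onto {1} D.closed_one _ (Φ'' e1).2 hsup
  let Φ : (Lat.base 1 : Lat R G).M →ₗ[R] L.M :=
    { toFun := fun r => (r.1 () : R) • (⟨m, hm⟩ : L.M)
      map_add' := fun x y => add_smul _ _ _
      map_smul' := fun c x => mul_smul _ _ _ }
  refine ⟨Φ, fun v r hr p hp => ?_, fun r q => ?_⟩
  · show r.1 () * m p = 0
    by_cases hv : v = 1
    · rw [hmX p (by rw [← hv]; exact hp), mul_zero]
    · rw [hr () (fun h => hv h.symm), zero_mul]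
  · have hr : r = (r.1 () : R) • e1 := by
      apply Subtype.ext
      funext u
      show r.1 u = r.1 () * 1
      rw [mul_one]
      rfl
    have h1 : (Φ'' r).1 q = r.1 () * (Φ'' e1).1 q := by
      conv_lhs => rw [hr, map_smul]
      rfl
    rw [h1, ← congrFun hmi q]
    rfl

/-- `Φ'' : L0 * E_s → L''`; `adj1` gives `Ψ'' : L0 → L'' * E_s` with `tr Ψ'' m = Φ'' (dup m)`; the lifting property
of `L0` against `good_star` gives `Ψ : L0 → L * E_s`; `adj2` gives `Φ`.  Since the differences of the components of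
`Ψ m` at `(i q, ·)` are those of `Ψ'' m` at `(q, ·)` and `lab (i q) = lab'' q`, `(tr Ψ m) (i q) = (tr Ψ'' m) q`.  So
`(Φ (dup m)) (i q) = (Φ'' (dup m)) q`, and `(Φ (dal m)) (i q) = (lab'' q • f) (Φ'' (dup m)) q = (Φ'' (dal m)) q` by
`FlHom.ry` (`dal m = ryL f (dup m)` in the star, since `(lab p g) • f = - lab p • f`).  `star_decomp`. -/
theorem lifts_star {L0 : Lat R G} (h0 : Nice D L0) (h : Lifts D L0) (s : S) :
    Lifts D (Lat.star (D.sw.f s) (D.sw.g s) L0) := by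
  intro L L'' i hL hL'' hg Φ'' hΦ
  obtain ⟨Ψ'', hΨ'', hΨt⟩ := adj1 D.sw s (h0.toBig D) h0.ry_mem hL''.ry_mem Φ'' hΦ
  obtain ⟨Ψ, hΨ, hΨi⟩ := h _ _ (imap i) (nice_star D hL s) (nice_star D hL'' s)
    (good_star D hL hL'' hg s) Ψ'' hΨ''
  obtain ⟨Φ, hΦ1, hΦ2, hΦ3⟩ := adj2 D.sw s (h0.toBig D) h0.ry_mem hL.ry_mem Ψ hΨ
  -- the traces agree
  have htr : ∀ m q, (trM (D.sw.g s) L (D.sw.f_ne s) (Ψ m)).1 (i q) =
      (Φ'' (dup (D.sw.f s) (D.sw.g s) L0 m)).1 q := by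
    intro m q
    have h1 := trM_spec (g := D.sw.g s) (D.sw.f_ne s) (Ψ m) (i q)
    have h2 := trM_spec (g := D.sw.g s) (D.sw.f_ne s) (Ψ'' m) q
    have h3 : (Ψ m).1 (i q, false) = (Ψ'' m).1 (q, false) := hΨi m (q, false)
    have h4 : (Ψ m).1 (i q, true) = (Ψ'' m).1 (q, true) := hΨi m (q, true)
    rw [h3, h4, h2, hg.lab q] at h1
    have h5 := mul_left_cancel₀ (smul_ne_zero' (L''.lab q) (D.sw.f_ne s)) h1
    rw [← h5, hΨt]
  refine ⟨Φ, hΦ1, fun x q => ?_⟩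
  obtain ⟨g0, g1, hx, -, -⟩ := star_decomp D.sw s h0.ry_mem x
  -- `dal m = ry f (dup m)`
  have hdal : dal (D.sw.f s) (D.sw.g s) h0.ry_mem g1 =
      ryL (ry_star D.sw s h0.ry_mem) (D.sw.f s) (dup (D.sw.f s) (D.sw.g s) L0 g1) := by
    apply Subtype.ext
    funext p
    obtain ⟨p, b⟩ := p
    rw [ryL_apply, dup_apply]
    cases b
    · rw [dal_false, Lat.star_lab_false]
    · rw [dal_true, Lat.star_lab_true, mul_smul, D.sw.g_f, smul_neg, neg_mul]
  rw [hx, map_add, map_add]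
  show (Φ (dup (D.sw.f s) (D.sw.g s) L0 g0)).1 (i q) +
      (Φ (dal (D.sw.f s) (D.sw.g s) h0.ry_mem g1)).1 (i q) =
    (Φ'' (dup (D.sw.f s) (D.sw.g s) L0 g0)).1 q +
      (Φ'' (dal (D.sw.f s) (D.sw.g s) h0.ry_mem g1)).1 q
  rw [hΦ2, htr, hΦ3, hdal, FlHom.ry ((nice_star D h0 s).toBig D) hΦ (ry_star D.sw s h0.ry_mem)
    hL''.ry_mem, ryL_apply, ryL_apply, htr, hg.lab q]

theorem lifts_words {L0 : Lat R G} (h0 : Nice D L0) (h : Lifts D L0) (l : List S) :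
    Lifts D (D.sw.words L0 l) := by
  induction l with
  | nil => exact h
  | cons s l ih => exact lifts_star D (nice_words D h0 l) ih s

theorem lifts_BS (l : List S) : Lifts D (D.sw.BS l) :=
  lifts_words D (nice_base D 1) (lifts_base D) l

end Pool.Agent.MTX
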