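import Pool.Agent.MTX.S7
import Pool.Agent.MTX.S8c
import Pool.Agent.MTX.S9b
import Pool.Agent.MTX.S10

/-! # MTX, Part S : theorem (4.3) -/

namespace Pool.Agent.MTX

section
variable {R G S : Type} [CommRing R] [Group G] [MulSemiringAction G R]

omit [Group G] [MulSemiringAction G R] in
/-- right multiplication by `b` as a linear map -/
def s11_mulR {L : Lat R G} (h : RingLat L) (b : L.M) : L.M →ₗ[R] L.M where
  toFun F := mulM h F b
  map_add' x y := by
    apply Subtype.ext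
    funext p
    show (x.1 p + y.1 p) * b.1 p = x.1 p * b.1 p + y.1 p * b.1 p
    ring
  map_smul' c x := by
    apply Subtype.ext
    funext p
    show (c * x.1 p) * b.1 p = c * (x.1 p * b.1 p)
    ring

omit [MulSemiringAction G R] in
/-- a scalar as an element of `base w`. -/
def s11_const (w : G) : R →ₗ[R] (Lat.base w : Lat R G).M where
  toFun r := ⟨fun _ => r, mem_base w _⟩
  map_add' _ _ := rfl
  map_smul' _ _ := rfl

/-- `F ↦ Tr (tr (F b))` as a map to `base w`. -/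
noncomputable def s11_psi [IsDomain R] (W : SW R G S) (L : Lat R G) (k : List S)
    (hr : RingLat (W.words L k)) (T : L.M →ₗ[R] R) (b : (W.words L k).M) (w : G) :
    (W.words L k).M →ₗ[R] (Lat.base w : Lat R G).M :=
  s11_const w ∘ₗ T ∘ₗ W.tr L k ∘ₗ s11_mulR hr b

end

variable {R G Rt S : Type} [CommRing R] [IsDomain R] [Algebra ℚ R] [Group G]
  [MulSemiringAction G R] [MulAction G Rt] (D : AS R G Rt S)

/-- (4.3), for `φ = Tr (· a)`.  Let `w = pr i`, `P = Pw w` (`sys_Pw`, `closed_single`), `k` a word.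
By `tr_onto` for `L = BS j`, `X = {w}` there is `b ∈ words (BS j) k` supported on `{w}` with `tr b = a`.
`ψ F := Tr j (tr (F b))`, a linear form on `(words (BS j) k).M`, seen as a map to `(base w).M`
(`r ↦ ⟨fun _ => r, mem_base ..⟩`).  `FlHom ψ`: for `v ≠ w` and `F` supported on `{v}`: `F b = 0`, so `ψ F = 0`; for
`v = w` there is no condition.  By `lifts_words (nice_BS) (lifts_BS)` for `L0 = words (BS j) k` and
`good_top` there is `Ψ : words (BS j) k → BS i`, `FlHom`, with `(Ψ F) (top i) = ψ F`.  `Φ g := Ψ (dupW g)`.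
`Tr j (tr (dupW g * b)) = Tr j (g * tr b) = Tr j (g a)` (`tr_dup_mul`).
Supports: if `g` is supported on `X`, then `dupW g` is supported on `X` (`dupW_apply`, `lab_bot`) and `FlHom.sup`. -/
theorem main_BS (i : List S) (hi : D.Red i) (j k : List S) (a : (D.sw.BS j).M)
    (ha : (D.sw.BS j).sup a.1 (D.plusL k {D.sw.pr i})) :
    ∃ Φ : (D.sw.BS j).M →ₗ[R] (D.sw.BS i).M,
      (∀ g, (Φ g).1 (D.sw.top i) = D.sw.Tr j (mulM (ring_BS D.sw j) g a)) ∧
      ∀ X : Set G, (∀ v ∈ X, ∀ s ∈ k, v * D.sr s ∈ X) → ∀ g, (D.sw.BS j).sup g.1 X →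
        (D.sw.BS i).sup (Φ g).1 X := by
  obtain ⟨b, hb, hba⟩ := tr_onto D (D.sys_Pw (D.sw.pr i)) (nice_BS D j) k
    (D.closed_single (D.sw.pr i)) a ha
  have hr : RingLat (D.sw.words (D.sw.BS j) k) :=
    ring_words D.sw (ry_BS D.sw j) (ring_BS D.sw j) k
  have hfl : FlHom (s11_psi D.sw (D.sw.BS j) k hr (D.sw.Tr j) b (D.sw.pr i)) := by
    intro v m hm p hp
    have hvw : D.sw.pr i ≠ v := hp
    have h0 : mulM hr m b = 0 := by
      apply Subtype.ext
      funext q
      show m.1 q * b.1 q = 0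
      by_cases hq : (D.sw.words (D.sw.BS j) k).lab q = v
      · rw [hb q (by
          rw [Set.mem_singleton_iff, hq]
          exact fun h => hvw h.symm), mul_zero]
      · rw [hm q (by
          rw [Set.mem_singleton_iff]
          exact hq), zero_mul]
    show D.sw.Tr j (D.sw.tr (D.sw.BS j) k (mulM hr m b)) = 0
    rw [h0, map_zero, map_zero]
  obtain ⟨Ψ, hΨ, hΨ2⟩ := lifts_words D (nice_BS D j) (lifts_BS D j) k (D.sw.BS i)
    (Lat.base (D.sw.pr i)) (fun _ => D.sw.top i) (nice_BS D i) (nice_base D (D.sw.pr i))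
    (good_top D i hi) (s11_psi D.sw (D.sw.BS j) k hr (D.sw.Tr j) b (D.sw.pr i)) hfl
  refine ⟨Ψ ∘ₗ D.sw.dupW (D.sw.BS j) k, ?_, ?_⟩
  · intro g
    have h1 := hΨ2 (D.sw.dupW (D.sw.BS j) k g) ()
    show (Ψ (D.sw.dupW (D.sw.BS j) k g)).1 (D.sw.top i) = _
    rw [h1]
    show D.sw.Tr j (D.sw.tr (D.sw.BS j) k (mulM hr (D.sw.dupW (D.sw.BS j) k g) b)) = _
    rw [tr_dup_mul D.sw (ry_BS D.sw j) (ring_BS D.sw j) k g b, hba]
  · intro X hX g hg
    refine FlHom.sup (big_words D.sw (big_BS D.sw j) k) hΨ X _ ?_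
    intro p hp
    rw [D.sw.dupW_apply]
    refine hg _ ?_
    intro hc
    exact hp ((lab_bot D.sw (D.sw.BS j) k X hX p).mpr hc)

end Pool.Agent.MTX
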