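import Pool.Agent.MTX.S12b
import Pool.Agent.MTX.S11

/-! # MTX, Part S : theorem (5.3) -/

namespace Pool.Agent.MTX

variable {R A G Rt S : Type} [CommRing R] [IsDomain R] [Algebra ℚ R]
  [CommRing A] [IsDomain A] [Algebra ℚ A] [Group G]
  [MulSemiringAction G R] [MulSemiringAction G A] [MulAction G Rt]

namespace RedData
variable {D : AS R G Rt S} {W' : SW A G S} (B : RedData D W')
include B

omit [IsDomain R] [Algebra ℚ R] [IsDomain A] [Algebra ℚ A] in
theorem s12c_surj (l : List S) (g0 : (W'.BS l).M) : ∃ g : (D.sw.BS l).M, B.red l g = g0 := by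
  obtain ⟨m, hm, h⟩ := B.onto l g0.1 g0.2
  refine ⟨⟨m, hm⟩, ?_⟩
  apply Subtype.ext
  funext q
  show B.ρ (m ((redJ D.sw W' l).symm q)) = g0.1 q
  rw [h, Equiv.apply_symm_apply]

omit [IsDomain R] [Algebra ℚ R] [IsDomain A] [Algebra ℚ A] in
theorem s12c_red_add (l : List S) (x y : (D.sw.BS l).M) :
    B.red l (x + y) = B.red l x + B.red l y := by
  apply Subtype.ext
  funext q
  exact map_add B.ρ _ _

omit [IsDomain R] [Algebra ℚ R] [IsDomain A] [Algebra ℚ A] in
theorem s12c_red_smul (l : List S) (r : R) (x : (D.sw.BS l).M) :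
    B.red l (r • x) = B.ρ r • B.red l x := by
  apply Subtype.ext
  funext q
  exact map_mul B.ρ _ _

omit [IsDomain R] [Algebra ℚ R] [IsDomain A] [Algebra ℚ A] in
theorem s12c_red_mul (l : List S) (x y : (D.sw.BS l).M) :
    B.red l (mulM (ring_BS D.sw l) x y) = mulM (ring_BS W' l) (B.red l x) (B.red l y) := by
  apply Subtype.ext
  funext q
  exact map_mul B.ρ _ _

omit [IsDomain A] [Algebra ℚ A] in
theorem s12c_key (j i : List S) (Φ : (D.sw.BS j).M →ₗ[R] (D.sw.BS i).M)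
    (g g' : (D.sw.BS j).M) (h : B.red j g = B.red j g') :
    B.red i (Φ g) = B.red i (Φ g') := by
  have h1 : ∀ p, B.ρ ((g - g').1 p) = 0 := by
    intro p
    have h2 : B.ρ (g.1 p) = B.ρ (g'.1 p) := by
      rw [← B.red_apply, ← B.red_apply, h]
    show B.ρ (g.1 p - g'.1 p) = 0
    rw [map_sub, h2, sub_self]
  obtain ⟨a1, ha1⟩ := B.ker_red j (g - g') h1
  have h3 : g = g' + B.h • a1 := by rw [← ha1]; abel
  have hh : B.ρ B.h = 0 := (B.ker _).mpr dvd_rfl
  rw [h3, map_add, map_smul, B.s12c_red_add, B.s12c_red_smul, hh, zero_smul, add_zero]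

/-- (5.3).  `dual` for `W'`: `φ0 = Tr (· a0)`; `dual_sup`: `a0` is supported on `Y = plusL k {w}`, which is closed for
`Pw w` (`closed_plusL`, `closed_single`, `sys_Pw`).  `lift_sup`: `a0 = red a`, `a` supported on `Y`.  `main_BS` gives
`Φ`.  For `g0 ∈ BS' j` choose a lift `g` (`B.onto`) and put `Φ0 g0 := red (Φ g)`; independent of the choice: two
lifts differ by `h • a` (`ker_red`), `Φ (h • a) = h • Φ a`, and `ρ h = 0`.  So `Φ0 (red g) = red (Φ g)` for all `g`, and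
`Φ0` is additive and `A`-linear (lift the scalar, `B.surj`).  Top: `(Φ0 (red g)) top = ρ ((Φ g) top) =
ρ (Tr (g a)) = Tr (red g * a0) = φ0 (red g)` (`Tr_red`, `redJ_top`).  Supports: lift `g0` to `g` supported on `X`
(`lift_sup`). -/
theorem main_red (i : List S) (hi : D.Red i) (j k : List S) (φ0 : (W'.BS j).M →ₗ[A] A)
    (h0 : ∀ g : (W'.BS j).M, (W'.BS j).sup g.1 (D.plusL k {D.sw.pr i})ᶜ → φ0 g = 0) :
    ∃ Φ0 : (W'.BS j).M →ₗ[A] (W'.BS i).M,
      (∀ g, (Φ0 g).1 (W'.top i) = φ0 g) ∧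
      ∀ (P : Rt → Prop) (X : Set G), D.Sys P → D.Closed P X →
        (∀ v ∈ X, ∀ s ∈ k, v * D.sr s ∈ X) → ∀ g, (W'.BS j).sup g.1 X →
        (W'.BS i).sup (Φ0 g).1 X := by
  obtain ⟨a0, ha0⟩ := dual W' j φ0
  have hs0 : (W'.BS j).sup a0.1 (D.plusL k {D.sw.pr i}) :=
    dual_sup W' j a0 _ (fun g hg => by rw [← ha0]; exact h0 g hg)
  have hcl : D.Closed (D.Pw (D.sw.pr i)) (D.plusL k {D.sw.pr i}) :=
    closed_plusL D k (D.closed_single (D.sw.pr i))
  obtain ⟨a, hsa, hra⟩ := B.lift_sup (D.sys_Pw (D.sw.pr i)) hcl j a0 hs0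
  obtain ⟨Φ, hΦt, hΦs⟩ := main_BS D i hi j k a hsa
  choose lift hlift using B.s12c_surj j
  have key : ∀ g g' : (D.sw.BS j).M, B.red j g = B.red j g' →
      B.red i (Φ g) = B.red i (Φ g') := B.s12c_key j i Φ
  refine ⟨{ toFun := fun g0 => B.red i (Φ (lift g0))
            map_add' := ?_
            map_smul' := ?_ }, ?_, ?_⟩
  · intro x y
    rw [← B.s12c_red_add, ← map_add]
    apply key
    rw [hlift, B.s12c_red_add, hlift, hlift]
  · intro c x
    obtain ⟨r, hr⟩ := B.surj c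
    rw [RingHom.id_apply, ← hr, ← B.s12c_red_smul, ← map_smul]
    apply key
    rw [hlift, B.s12c_red_smul, hlift]
  · intro g
    show (B.red i (Φ (lift g))).1 (W'.top i) = φ0 g
    rw [← redJ_top D.sw W' i, B.red_apply, hΦt, ← B.Tr_red, B.s12c_red_mul, hlift, hra, ha0]
  · intro P X hP hX hXk g hg
    obtain ⟨g1, hg1, hrg⟩ := B.lift_sup hP hX j g hg
    show (W'.BS i).sup (B.red i (Φ (lift g))).1 X
    have h1 : B.red i (Φ (lift g)) = B.red i (Φ g1) := by
      apply key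
      rw [hlift, hrg]
    rw [h1]
    have h2 := hΦs X hXk g1 hg1
    intro q hq
    have h3 : (D.sw.BS i).lab ((redJ D.sw W' i).symm q) = (W'.BS i).lab q := by
      rw [← B.lab, Equiv.apply_symm_apply]
    show B.ρ ((Φ g1).1 ((redJ D.sw W' i).symm q)) = 0
    rw [h2 _ (by rw [h3]; exact hq), map_zero]

end RedData

end Pool.Agent.MTX
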