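import Pool.Agent.MTX.R0c

/-! # MTX, Part L : definitions : the Lie algebra of a simply laced datum -/

namespace Pool.Agent.MTX

open Matrix

namespace SLD

variable {n : ℕ} (D : SLD n)

noncomputable instance : Fintype D.Rt := Fintype.ofFinite _

/-- half of the Cartan matrix: `Tm + Tmᵀ = C` -/
def Tm : Matrix (Fin n) (Fin n) ℤ := fun i j => if i = j then 1 else if i < j then D.C i j else 0

/-- the bilinear form of `Tm` -/
def bb (x y : Fin n → ℤ) : ℤ := bil D.Tm x y

/-- the cocycle `(-1)^{b(x,y)}` -/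
def eps (x y : Fin n → ℤ) : ℤ := ((D.bb x y).negOnePow : ℤˣ)

/-- index set of the basis -/
abbrev BI := Fin n ⊕ D.Rt

/-- the weight of a basis vector -/
def wI : D.BI → (Fin n → ℤ)
  | Sum.inl _ => 0
  | Sum.inr γ => γ.1

/-- the height of a basis vector -/
def hI (a : D.BI) : ℤ := ht (D.wI a)

/-- the structure constants -/
def st : D.BI → D.BI → D.BI → ℤ
  | Sum.inl k, Sum.inr γ, Sum.inr δ => if γ = δ then γ.1 k else 0
  | Sum.inr γ, Sum.inl k, Sum.inr δ => if γ = δ then - γ.1 k else 0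
  | Sum.inr γ, Sum.inr δ, Sum.inl k => if γ.1 + δ.1 = 0 then - D.B (D.al k).1 γ.1 else 0
  | Sum.inr γ, Sum.inr δ, Sum.inr μ => if γ.1 + δ.1 = μ.1 then D.eps γ.1 δ.1 else 0
  | _, _, _ => 0

section vec
variable {R : Type*} [CommRing R]

/-- the matrix of `[X, ·]` -/
noncomputable def ad (X : D.BI → R) : Matrix D.BI D.BI R := fun d c => ∑ a, X a * (D.st a c d : R)

/-- the bracket -/
noncomputable def br (X Y : D.BI → R) : D.BI → R := D.ad X *ᵥ Y

/-- the root vector `e_y` (`0` if `y` is not a root) -/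
def er (R : Type*) [CommRing R] (y : Fin n → ℤ) : D.BI → R :=
  Sum.elim (fun _ => 0) fun γ => if γ.1 = y then 1 else 0

end vec

end SLD

end Pool.Agent.MTX
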