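import Pool.Agent.MTX.R1
import Pool.Agent.MTX.L0a
import Pool.Agent.MTD.Basic

/-!
# MTX, Part L : the Lie algebra of a simply laced datum, over any ring

`D.BI = Fin n ⊕ D.Rt` : the index set of the basis `b_k` (`k : Fin n`), `e_γ` (`γ` a root).
Vectors are functions `D.BI → R`; the Cartan part of `X` is `fun k => X (Sum.inl k)`, with
`x k = α_k(x)`.
`D.st a c d` : the structure constants, `[b_a, b_c] = ∑_d st a c d • b_d`;
`D.ad X` : the matrix of `[X, ·]`; `D.br X Y = [X, Y]`;
`D.tt x` : the element `x` of the Cartan subalgebra; `D.er y` : the root vector `e_y`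
(`0` if `y` is not a root).
-/

namespace Pool.Agent.MTX

open Matrix
open Pool.Agent.MTD (ev ev_add ev_sub ev_neg ev_smul ev_zero ev_add_left ev_sub_left ev_neg_left
  ev_smul_left ev_zero_left ev_sum_left ev_sum ev_map ev_comm)

theorem bil_add_left {n : ℕ} (C : Matrix (Fin n) (Fin n) ℤ) (x x' y : Fin n → ℤ) :
    bil C (x + x') y = bil C x y + bil C x' y := by
  simp only [bil, Pi.add_apply, ← Finset.sum_add_distrib]
  exact Finset.sum_congr rfl fun i _ => Finset.sum_congr rfl fun j _ => by ring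

theorem bil_add_right {n : ℕ} (C : Matrix (Fin n) (Fin n) ℤ) (x y y' : Fin n → ℤ) :
    bil C x (y + y') = bil C x y + bil C x y' := by
  simp only [bil, Pi.add_apply, ← Finset.sum_add_distrib]
  exact Finset.sum_congr rfl fun i _ => Finset.sum_congr rfl fun j _ => by ring

theorem bil_neg_left {n : ℕ} (C : Matrix (Fin n) (Fin n) ℤ) (x y : Fin n → ℤ) :
    bil C (-x) y = - bil C x y := by
  simp only [bil, Pi.neg_apply, ← Finset.sum_neg_distrib]
  exact Finset.sum_congr rfl fun i _ => Finset.sum_congr rfl fun j _ => by ring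

theorem bil_neg_right {n : ℕ} (C : Matrix (Fin n) (Fin n) ℤ) (x y : Fin n → ℤ) :
    bil C x (-y) = - bil C x y := by
  simp only [bil, Pi.neg_apply, ← Finset.sum_neg_distrib]
  exact Finset.sum_congr rfl fun i _ => Finset.sum_congr rfl fun j _ => by ring

theorem bil_transpose {n : ℕ} (C : Matrix (Fin n) (Fin n) ℤ) (x y : Fin n → ℤ) :
    bil Cᵀ x y = bil C y x := by
  simp only [bil, Matrix.transpose_apply]
  rw [Finset.sum_comm]
  exact Finset.sum_congr rfl fun i _ => Finset.sum_congr rfl fun j _ => by ring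

theorem bil_add_mat {n : ℕ} (C C' : Matrix (Fin n) (Fin n) ℤ) (x y : Fin n → ℤ) :
    bil (C + C') x y = bil C x y + bil C' x y := by
  simp only [bil, Matrix.add_apply, ← Finset.sum_add_distrib]
  exact Finset.sum_congr rfl fun i _ => Finset.sum_congr rfl fun j _ => by ring

namespace SLD

variable {n : ℕ} (D : SLD n)

/-- positive roots -/
abbrev PRt := {γ : D.Rt // D.Pos γ}

noncomputable instance : Fintype D.PRt := Fintype.ofFinite _

section vec
variable {R : Type*} [CommRing R]

/-- the element `x` of the Cartan subalgebra -/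
def tt (x : Fin n → R) : D.BI → R := Sum.elim x fun _ => 0

/-- the Cartan part of a vector -/
def ct (X : D.BI → R) : Fin n → R := fun k => X (Sum.inl k)

/-- the coroot `h_y`, `α_k(h_y) = B(α_k, y)` -/
def hv (R : Type*) [CommRing R] (y : Fin n → ℤ) : Fin n → R := fun k => (D.B (D.al k).1 y : R)

end vec

/-! ### the cocycle -/

theorem Tm_add : D.Tm + D.Tmᵀ = D.C := by
  ext i j
  rw [Matrix.add_apply, Matrix.transpose_apply, Tm, Tm]
  rcases lt_trichotomy i j with h | h | h
  · rw [if_neg h.ne, if_pos h, if_neg h.ne', if_neg (not_lt.2 h.le), add_zero]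
  · subst h
    rw [if_pos rfl, D.diag]; norm_num
  · rw [if_neg h.ne', if_neg (not_lt.2 h.le), if_neg h.ne, if_pos h, zero_add, D.symm]

theorem bb_symm (x y : Fin n → ℤ) : D.bb x y + D.bb y x = D.B x y := by
  unfold bb B
  rw [← bil_transpose D.Tm x y, ← bil_add_mat, Tm_add]

theorem bb_self (x : Fin n → ℤ) : 2 * D.bb x x = D.B x x := by
  rw [← bb_symm]; ring

theorem eps_add_left (x x' y : Fin n → ℤ) : D.eps (x + x') y = D.eps x y * D.eps x' y := by
  unfold eps bb
  rw [bil_add_left, Int.negOnePow_add, Units.val_mul]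

theorem eps_add_right (x y y' : Fin n → ℤ) : D.eps x (y + y') = D.eps x y * D.eps x y' := by
  unfold eps bb
  rw [bil_add_right, Int.negOnePow_add, Units.val_mul]

theorem eps_neg_left (x y : Fin n → ℤ) : D.eps (-x) y = D.eps x y := by
  unfold eps bb
  rw [bil_neg_left, Int.negOnePow_neg]

theorem eps_neg_right (x y : Fin n → ℤ) : D.eps x (-y) = D.eps x y := by
  unfold eps bb
  rw [bil_neg_right, Int.negOnePow_neg]

theorem eps_mul_self (x y : Fin n → ℤ) : D.eps x y * D.eps x y = 1 := by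
  unfold eps
  rw [← Units.val_mul, ← Int.negOnePow_add, Int.negOnePow_even _ ⟨_, rfl⟩, Units.val_one]

theorem eps_ne (x y : Fin n → ℤ) : D.eps x y ≠ 0 := fun h => by
  have := D.eps_mul_self x y
  rw [h] at this
  norm_num at this

theorem eps_eq_or (x y : Fin n → ℤ) : D.eps x y = 1 ∨ D.eps x y = -1 := by
  have h := D.eps_mul_self x y
  exact mul_self_eq_one_iff.1 h

theorem eps_comm (x y : Fin n → ℤ) : D.eps x y * D.eps y x = ((D.B x y).negOnePow : ℤˣ) := by
  unfold eps
  rw [← Units.val_mul, ← Int.negOnePow_add, bb_symm]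

/-- `eps γ γ = -1` -/
theorem eps_self (γ : D.Rt) : D.eps γ.1 γ.1 = -1 := by
  have h := D.bb_self γ.1
  rw [γ.2] at h
  have h1 : D.bb γ.1 γ.1 = 1 := by omega
  unfold eps
  rw [h1]
  simp

/-- `eps y x = - eps x y` if `B x y` is odd -/
theorem eps_swap_odd {x y : Fin n → ℤ} (h : Odd (D.B x y)) : D.eps y x = - D.eps x y := by
  have h1 := D.eps_comm x y
  rw [Int.negOnePow_odd _ h] at h1
  have h2 := D.eps_mul_self x y
  push_cast at h1
  linear_combination D.eps x y * h1 - D.eps y x * h2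

/-- `eps y x = eps x y` if `B x y` is even -/
theorem eps_swap_even {x y : Fin n → ℤ} (h : Even (D.B x y)) : D.eps y x = D.eps x y := by
  have h1 := D.eps_comm x y
  rw [Int.negOnePow_even _ h] at h1
  have h2 := D.eps_mul_self x y
  push_cast at h1
  linear_combination D.eps x y * h1 - D.eps y x * h2

/-! ### the index set of the basis -/

/-! ### the structure constants -/

@[simp] theorem wI_inl (k : Fin n) : D.wI (Sum.inl k) = 0 := rfl
@[simp] theorem wI_inr (γ : D.Rt) : D.wI (Sum.inr γ) = γ.1 := rfl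
@[simp] theorem hI_inl (k : Fin n) : D.hI (Sum.inl k) = 0 := by simp [hI, ht]
@[simp] theorem hI_inr (γ : D.Rt) : D.hI (Sum.inr γ) = ht γ.1 := rfl

theorem st_ll (k l : Fin n) (d : D.BI) : D.st (Sum.inl k) (Sum.inl l) d = 0 := by
  rcases d with d | d <;> rfl

theorem st_lrl (k : Fin n) (γ : D.Rt) (l : Fin n) : D.st (Sum.inl k) (Sum.inr γ) (Sum.inl l) = 0 :=
  rfl

theorem st_rll (k : Fin n) (γ : D.Rt) (l : Fin n) : D.st (Sum.inr γ) (Sum.inl k) (Sum.inl l) = 0 :=
  rfl

theorem st_lrr (k : Fin n) (γ δ : D.Rt) :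
    D.st (Sum.inl k) (Sum.inr γ) (Sum.inr δ) = if γ = δ then γ.1 k else 0 := rfl

theorem st_rlr (k : Fin n) (γ δ : D.Rt) :
    D.st (Sum.inr γ) (Sum.inl k) (Sum.inr δ) = if γ = δ then - γ.1 k else 0 := rfl

theorem st_rrl (γ δ : D.Rt) (k : Fin n) : D.st (Sum.inr γ) (Sum.inr δ) (Sum.inl k) =
    if γ.1 + δ.1 = 0 then - D.B (D.al k).1 γ.1 else 0 := rfl

theorem st_rrr (γ δ μ : D.Rt) : D.st (Sum.inr γ) (Sum.inr δ) (Sum.inr μ) =
    if γ.1 + δ.1 = μ.1 then D.eps γ.1 δ.1 else 0 := rfl

/-- the structure constants are compatible with the weights -/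
theorem st_wt {a c d : D.BI} (h : D.st a c d ≠ 0) : D.wI d = D.wI a + D.wI c := by
  rcases a with k | γ <;> rcases c with l | δ <;> rcases d with m | μ
  · exact absurd rfl h
  · exact absurd rfl h
  · exact absurd rfl h
  · rw [st_lrr] at h
    split_ifs at h with h1
    · subst h1; simp
    · exact absurd rfl h
  · exact absurd rfl h
  · rw [st_rlr] at h
    split_ifs at h with h1
    · subst h1; simp
    · exact absurd rfl h
  · rw [st_rrl] at h
    split_ifs at h with h1
    · simp [h1]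
    · exact absurd rfl h
  · rw [st_rrr] at h
    split_ifs at h with h1
    · simp [h1]
    · exact absurd rfl h

theorem st_ht {a c d : D.BI} (h : D.st a c d ≠ 0) : D.hI d = D.hI a + D.hI c := by
  unfold hI
  rw [D.st_wt h, ht_add]

/-- `B(γ,δ) = -1` iff `γ + δ` is a root -/
theorem B_add_root (γ δ : D.Rt) : D.B (γ.1 + δ.1) (γ.1 + δ.1) = 2 ↔ D.B γ.1 δ.1 = -1 := by
  rw [B_add_left, B_add_right, B_add_right, γ.2, δ.2, D.B_comm δ.1 γ.1]
  omega

theorem eq_zero_of_B {x : Fin n → ℤ} (h : D.B x x = 0) : x = 0 := by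
  by_contra hx
  exact (D.pos x hx).ne' h

/-- `B(γ,δ) = -2` iff `γ + δ = 0` -/
theorem B_add_zero (γ δ : D.Rt) : γ.1 + δ.1 = 0 ↔ D.B γ.1 δ.1 = -2 := by
  constructor
  · intro h
    have : δ.1 = -γ.1 := by rw [eq_neg_iff_add_eq_zero, add_comm]; exact h
    rw [this, B_neg_right, γ.2]
  · intro h
    apply D.eq_zero_of_B
    rw [B_add_left, B_add_right, B_add_right, γ.2, δ.2, D.B_comm δ.1 γ.1, h]
    norm_num

theorem abs_B_le (γ δ : D.Rt) : |D.B γ.1 δ.1| ≤ 2 := by
  have h := D.B_sq_le γ.1 δ.1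
  rw [γ.2, δ.2] at h
  exact abs_le_of_sq_le_sq (by linarith) (by norm_num)

/-- antisymmetry -/
theorem st_anti (a c d : D.BI) : D.st a c d = - D.st c a d := by
  rcases a with k | γ <;> rcases c with l | δ <;> rcases d with m | μ
  · rfl
  · rfl
  · rfl
  · rw [st_lrr, st_rlr]; split_ifs <;> simp
  · rfl
  · rw [st_lrr, st_rlr]; split_ifs <;> simp
  · rw [st_rrl, st_rrl, add_comm δ.1 γ.1]
    split_ifs with h
    · have h1 : δ.1 = -γ.1 := by rw [eq_neg_iff_add_eq_zero, add_comm]; exact h
      rw [h1, B_neg_right, neg_neg]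
    · rfl
  · rw [st_rrr, st_rrr, add_comm δ.1 γ.1]
    split_ifs with h
    · have h1 : D.B γ.1 δ.1 = -1 := by
        rw [← B_add_root, h]; exact μ.2
      rw [D.eps_swap_odd (x := γ.1) (y := δ.1) (by rw [h1]; decide)]
      ring
    · rfl

section vec2
variable {R : Type*} [CommRing R]

theorem ad_apply (X : D.BI → R) (d c : D.BI) : D.ad X d c = ∑ a, X a * (D.st a c d : R) := rfl

theorem ad_add (X Y : D.BI → R) : D.ad (X + Y) = D.ad X + D.ad Y := by
  ext d c
  simp only [ad_apply, Matrix.add_apply, Pi.add_apply, add_mul, Finset.sum_add_distrib]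

theorem ad_smul (r : R) (X : D.BI → R) : D.ad (r • X) = r • D.ad X := by
  ext d c
  simp only [ad_apply, Matrix.smul_apply, Pi.smul_apply, smul_eq_mul, Finset.mul_sum, mul_assoc]

theorem ad_zero : D.ad (0 : D.BI → R) = 0 := by
  ext d c
  simp [ad_apply]

theorem ad_neg (X : D.BI → R) : D.ad (-X) = - D.ad X := by
  ext d c
  simp [ad_apply]

theorem ad_sub (X Y : D.BI → R) : D.ad (X - Y) = D.ad X - D.ad Y := by
  rw [sub_eq_add_neg, ad_add, ad_neg, ← sub_eq_add_neg]

theorem ad_sum {κ : Type*} (s : Finset κ) (f : κ → D.BI → R) :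
    D.ad (∑ i ∈ s, f i) = ∑ i ∈ s, D.ad (f i) := by
  classical
  induction s using Finset.induction_on with
  | empty => simp [ad_zero]
  | insert a s ha ih => rw [Finset.sum_insert ha, Finset.sum_insert ha, ad_add, ih]

theorem ad_single (a : D.BI) (r : R) (d c : D.BI) :
    D.ad (Pi.single a r) d c = r * (D.st a c d : R) := by
  rw [ad_apply, Finset.sum_eq_single a]
  · simp
  · intro b _ hb
    simp [hb]
  · intro h
    exact absurd (Finset.mem_univ a) h

theorem ad_map {S : Type*} [CommRing S] (φ : R →+* S) (X : D.BI → R) :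
    (D.ad X).map φ = D.ad fun a => φ (X a) := by
  ext d c
  simp [ad_apply]

theorem br_def (X Y : D.BI → R) : D.br X Y = D.ad X *ᵥ Y := rfl

theorem br_apply (X Y : D.BI → R) (d : D.BI) :
    D.br X Y d = ∑ a, ∑ c, X a * Y c * (D.st a c d : R) := by
  simp only [br_def, Matrix.mulVec, dotProduct, ad_apply, Finset.sum_mul]
  rw [Finset.sum_comm]
  exact Finset.sum_congr rfl fun i _ => Finset.sum_congr rfl fun j _ => by ring

theorem br_add_left (X X' Y : D.BI → R) : D.br (X + X') Y = D.br X Y + D.br X' Y := by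
  rw [br_def, ad_add, Matrix.add_mulVec]; rfl

theorem br_add_right (X Y Y' : D.BI → R) : D.br X (Y + Y') = D.br X Y + D.br X Y' := by
  rw [br_def, Matrix.mulVec_add]; rfl

theorem br_smul_left (r : R) (X Y : D.BI → R) : D.br (r • X) Y = r • D.br X Y := by
  rw [br_def, ad_smul, Matrix.smul_mulVec]; rfl

theorem br_smul_right (r : R) (X Y : D.BI → R) : D.br X (r • Y) = r • D.br X Y := by
  rw [br_def, Matrix.mulVec_smul]; rfl

theorem br_anti (X Y : D.BI → R) : D.br X Y = - D.br Y X := by
  funext d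
  rw [Pi.neg_apply, br_apply, br_apply, Finset.sum_comm, ← Finset.sum_neg_distrib]
  refine Finset.sum_congr rfl fun a _ => ?_
  rw [← Finset.sum_neg_distrib]
  refine Finset.sum_congr rfl fun c _ => ?_
  rw [D.st_anti c a d]
  push_cast
  ring

theorem br_neg_left (X Y : D.BI → R) : D.br (-X) Y = - D.br X Y := by
  rw [br_def, ad_neg, Matrix.neg_mulVec]; rfl

theorem br_neg_right (X Y : D.BI → R) : D.br X (-Y) = - D.br X Y := by
  rw [br_def, Matrix.mulVec_neg]; rfl

theorem br_sub_left (X X' Y : D.BI → R) : D.br (X - X') Y = D.br X Y - D.br X' Y := by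
  rw [sub_eq_add_neg, br_add_left, br_neg_left, ← sub_eq_add_neg]

theorem br_sub_right (X Y Y' : D.BI → R) : D.br X (Y - Y') = D.br X Y - D.br X Y' := by
  rw [sub_eq_add_neg, br_add_right, br_neg_right, ← sub_eq_add_neg]

theorem br_zero_left (Y : D.BI → R) : D.br 0 Y = 0 := by
  rw [br_def, ad_zero, Matrix.zero_mulVec]

theorem br_zero_right (X : D.BI → R) : D.br X 0 = 0 := by
  rw [br_def, Matrix.mulVec_zero]

theorem br_sum_left {κ : Type*} (s : Finset κ) (f : κ → D.BI → R) (Y : D.BI → R) :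
    D.br (∑ i ∈ s, f i) Y = ∑ i ∈ s, D.br (f i) Y := by
  rw [br_def, ad_sum, Matrix.sum_mulVec]; rfl

theorem br_sum_right {κ : Type*} (s : Finset κ) (X : D.BI → R) (f : κ → D.BI → R) :
    D.br X (∑ i ∈ s, f i) = ∑ i ∈ s, D.br X (f i) := by
  rw [br_def, Matrix.mulVec_sum]; rfl

theorem br_map {S : Type*} [CommRing S] (φ : R →+* S) (X Y : D.BI → R) (d : D.BI) :
    φ (D.br X Y d) = D.br (fun a => φ (X a)) (fun a => φ (Y a)) d := by
  rw [br_apply, br_apply]
  simp

/-! ### the Cartan subalgebra and the root vectors -/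

@[simp] theorem tt_inl (x : Fin n → R) (k : Fin n) : D.tt x (Sum.inl k) = x k := rfl
@[simp] theorem tt_inr (x : Fin n → R) (γ : D.Rt) : D.tt x (Sum.inr γ) = 0 := rfl
@[simp] theorem er_inl (y : Fin n → ℤ) (k : Fin n) : D.er R y (Sum.inl k) = 0 := rfl
@[simp] theorem er_inr (y : Fin n → ℤ) (γ : D.Rt) :
    D.er R y (Sum.inr γ) = if γ.1 = y then 1 else 0 := rfl
omit [CommRing R] in
@[simp] theorem ct_apply (X : D.BI → R) (k : Fin n) : D.ct X k = X (Sum.inl k) := rfl

theorem ct_tt (x : Fin n → R) : D.ct (D.tt x) = x := rfl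

theorem tt_add (x y : Fin n → R) : D.tt (x + y) = D.tt x + D.tt y := by
  funext a; rcases a with k | γ <;> simp

theorem tt_smul (r : R) (x : Fin n → R) : D.tt (r • x) = r • D.tt x := by
  funext a; rcases a with k | γ <;> simp

theorem tt_neg (x : Fin n → R) : D.tt (-x) = - D.tt x := by
  funext a; rcases a with k | γ <;> simp

theorem tt_zero : D.tt (0 : Fin n → R) = 0 := by
  funext a; rcases a with k | γ <;> simp

theorem tt_inj {x y : Fin n → R} (h : D.tt x = D.tt y) : x = y := by
  funext k; exact congrFun h (Sum.inl k)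

theorem er_root (γ : D.Rt) : D.er R γ.1 = Pi.single (Sum.inr γ) 1 := by
  funext a
  rcases a with k | δ
  · simp
  · simp only [er_inr, Pi.single_apply, Sum.inr.injEq, Subtype.ext_iff]

theorem tt_single (k : Fin n) (r : R) : D.tt (Pi.single k r) = Pi.single (Sum.inl k) r := by
  funext a
  rcases a with l | δ
  · simp only [tt_inl, Pi.single_apply, Sum.inl.injEq]
  · simp

theorem er_not_root {y : Fin n → ℤ} (h : D.B y y ≠ 2) : D.er R y = 0 := by
  funext a
  rcases a with k | γ
  · rfl
  · rw [er_inr, if_neg]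
    · rfl
    · rintro rfl; exact h γ.2

theorem er_zero : D.er R 0 = 0 := D.er_not_root (by rw [B_zero_left]; norm_num)

/-- decomposition of a vector -/
theorem vec_eq (X : D.BI → R) : X = D.tt (D.ct X) + ∑ γ : D.Rt, X (Sum.inr γ) • D.er R γ.1 := by
  funext a
  rw [Pi.add_apply, Finset.sum_apply]
  rcases a with k | δ
  · simp
  · rw [tt_inr, zero_add, Finset.sum_eq_single δ]
    · simp
    · intro γ _ hγ
      rw [Pi.smul_apply, er_inr, if_neg (fun h => hγ (Subtype.ext h.symm)), smul_zero]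
    · intro h
      exact absurd (Finset.mem_univ δ) h

/-- `[x, ·]` is diagonal -/
theorem ad_tt (x : Fin n → R) : D.ad (D.tt x) = Matrix.diagonal fun a => ev (D.wI a) x := by
  ext d c
  rw [ad_apply, Fintype.sum_sum_type]
  simp only [tt_inl, tt_inr, zero_mul, Finset.sum_const_zero, add_zero]
  rcases c with l | γ
  · simp only [st_ll, Int.cast_zero, mul_zero, Finset.sum_const_zero]
    rcases eq_or_ne d (Sum.inl l) with h | h
    · rw [h, Matrix.diagonal_apply_eq]; simp [ev_zero_left]
    · rw [Matrix.diagonal_apply_ne _ h]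
  · rcases d with m | δ
    · rw [Matrix.diagonal_apply_ne _ (by simp)]
      simp [st_lrl]
    · simp only [st_lrr]
      by_cases h : γ = δ
      · subst h
        rw [Matrix.diagonal_apply_eq]
        simp only [if_true, wI_inr, ev]
        exact Finset.sum_congr rfl fun k _ => mul_comm _ _
      · rw [Matrix.diagonal_apply_ne _ (by simpa using fun h' => h h'.symm)]
        simp [h]

theorem br_tt (x : Fin n → R) (Y : D.BI → R) (a : D.BI) :
    D.br (D.tt x) Y a = ev (D.wI a) x * Y a := by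
  rw [br_def, ad_tt, Matrix.mulVec_diagonal]

theorem br_tt_tt (x y : Fin n → R) : D.br (D.tt x) (D.tt y) = 0 := by
  funext a
  rw [br_tt]
  rcases a with k | γ
  · simp [ev_zero_left]
  · simp

theorem br_tt_er (x : Fin n → R) (y : Fin n → ℤ) :
    D.br (D.tt x) (D.er R y) = ev y x • D.er R y := by
  funext a
  rw [br_tt, Pi.smul_apply, smul_eq_mul]
  rcases a with k | γ
  · simp
  · rw [er_inr]
    split_ifs with h
    · rw [wI_inr, h]
    · simp

theorem br_er_tt (x : Fin n → R) (y : Fin n → ℤ) :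
    D.br (D.er R y) (D.tt x) = - (ev y x • D.er R y) := by
  rw [br_anti, br_tt_er]

/-- the bracket of two root vectors -/
theorem br_er_er (γ δ : D.Rt) : D.br (D.er R γ.1) (D.er R δ.1) =
    (D.eps γ.1 δ.1 : R) • D.er R (γ.1 + δ.1) -
      (if γ.1 + δ.1 = 0 then D.tt (D.hv R γ.1) else 0) := by
  funext d
  rw [er_root, er_root, br_def, Matrix.mulVec_single_one]
  show D.ad (Pi.single (Sum.inr γ) 1) d (Sum.inr δ) = _
  rw [ad_single, one_mul]
  rcases d with k | μ
  · rw [st_rrl]
    split_ifs with h <;> simp [hv]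
  · rw [st_rrr]
    split_ifs with h h' h'
    · exfalso
      have h2 := μ.2
      rw [← h, h', B_zero_left] at h2
      norm_num at h2
    · simp [h]
    · simp [h, Ne.symm h]
    · simp [Ne.symm h]

end vec2

end SLD

end Pool.Agent.MTX
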