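import Pool.Agent.MTX.S9b

/-! # MTX, Part S : concatenation of words ((8.5) in MTX_PROOF.md) -/

namespace Pool.Agent.MTX

variable {R G S : Type} [CommRing R] [Group G] [MulSemiringAction G R] (W : SW R G S)

theorem words_append (L : Lat R G) (k j : List S) :
    W.words L (k ++ j) = W.words (W.words L j) k := by
  induction k with
  | nil => rfl
  | cons s k ih => exact congrArg (Lat.star (W.f s) (W.g s)) ih

/-- the indices of `words L k` are pairs -/
def catE (L : Lat R G) : (k : List S) → L.J × (W.BS k).J ≃ (W.words L k).J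
  | [] => Equiv.prodPUnit _
  | _ :: k => (Equiv.prodAssoc L.J (W.BS k).J Bool).symm.trans
      (Equiv.prodCongr (catE L k) (Equiv.refl Bool))

/-- induction -/
theorem cat_lab (L : Lat R G) (k : List S) (p : L.J) (q : (W.BS k).J) :
    (W.words L k).lab (catE W L k (p, q)) = L.lab p * (W.BS k).lab q := by
  induction k with
  | nil =>
    show L.lab p = L.lab p * 1
    rw [mul_one]
  | cons s k ih =>
    obtain ⟨q, b⟩ := q
    have ih' := ih q
    cases b with
    | false =>
      show (W.words L k).lab (catE W L k (p, q)) = L.lab p * (W.BS k).lab q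
      exact ih'
    | true =>
      show (W.words L k).lab (catE W L k (p, q)) * W.g s = L.lab p * ((W.BS k).lab q * W.g s)
      rw [ih', mul_assoc]

/-- `(m ⊗ m') (p, q) = m p * (lab p • m' q)` -/
def ten (L : Lat R G) (k : List S) (m : L.J → R) (m' : (W.BS k).J → R) :
    (W.words L k).J → R :=
  fun x => m ((catE W L k).symm x).1 *
    (L.lab ((catE W L k).symm x).1 • m' ((catE W L k).symm x).2)

theorem ten_cat (L : Lat R G) (k : List S) (m : L.J → R) (m' : (W.BS k).J → R) (p : L.J)
    (q : (W.BS k).J) : ten W L k m m' (catE W L k (p, q)) = m p * (L.lab p • m' q) := by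
  show m ((catE W L k).symm (catE W L k (p, q))).1 * _ = _
  simp only [Equiv.symm_apply_apply]

/-- Induction on `k`: for `m' = (m'0, m'1)` with `n'`: `ten m m' (p, (q, b)) = ten m m'_b (p, q)`, and
`ten m m'0 - ten m m'1 = ten m (ry f n')`, which at `(p, q)` is
`m p (lab p • (lab q • f) n' q) = (lab (p,q) • f) * (ten m n') (p, q)` (`cat_lab`). -/
theorem ten_mem {L : Lat R G} (hL : RyLat L) (k : List S) {m : L.J → R} (hm : m ∈ L.M)
    {m' : (W.BS k).J → R} (hm' : m' ∈ (W.BS k).M) : ten W L k m m' ∈ (W.words L k).M := by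
  induction k with
  | nil =>
    have h : ten W L [] m m' = L.ry (m' ()) m := by
      funext p
      show m p * (L.lab p • m' ()) = (L.lab p • m' ()) * m p
      exact mul_comm _ _
    rw [h]
    exact hL _ _ hm
  | cons s k ih =>
    obtain ⟨h0, n', hn', hd⟩ := hm'
    refine ⟨ih h0, ten W L k m n', ih hn', fun x => ?_⟩
    obtain ⟨⟨p, q⟩, rfl⟩ := (catE W L k).surjective x
    have e0 : ten W L (s :: k) m m' (catE W L k (p, q), false) = m p * (L.lab p • m' (q, false)) :=
      ten_cat W L (s :: k) m m' p (q, false)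
    have e1 : ten W L (s :: k) m m' (catE W L k (p, q), true) = m p * (L.lab p • m' (q, true)) :=
      ten_cat W L (s :: k) m m' p (q, true)
    rw [e0, e1, ten_cat, cat_lab, ← mul_sub, ← smul_sub, hd q, smul_mul', mul_smul]
    show m p * ((L.lab p • (W.BS k).lab q • W.f s) * (L.lab p • n' q)) =
      (L.lab p • (W.BS k).lab q • W.f s) * (m p * (L.lab p • n' q))
    ring

/-- `ten` is multiplicative -/
theorem ten_mul (L : Lat R G) (k : List S) (m1 m2 : L.J → R) (m1' m2' : (W.BS k).J → R) :
    ten W L k (m1 * m2) (m1' * m2') = ten W L k m1 m1' * ten W L k m2 m2' := by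
  funext x
  show m1 ((catE W L k).symm x).1 * m2 ((catE W L k).symm x).1 *
    (L.lab ((catE W L k).symm x).1 • (m1' ((catE W L k).symm x).2 * m2' ((catE W L k).symm x).2)) =
    (m1 ((catE W L k).symm x).1 * (L.lab ((catE W L k).symm x).1 • m1' ((catE W L k).symm x).2)) *
    (m2 ((catE W L k).symm x).1 * (L.lab ((catE W L k).symm x).1 • m2' ((catE W L k).symm x).2))
  rw [smul_mul']
  ring

variable [IsDomain R]

/-- `tr (m ⊗ m') = ry (Tr m') m`.  Induction on `k`: `trM (ten m m') = ten m (trM m')` (`trM_unique`), the computation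
in `ten_mem`. -/
theorem tr_ten {L : Lat R G} (hL : RyLat L) (k : List S) (m : L.M) (m' : (W.BS k).M) (p : L.J) :
    (W.tr L k ⟨ten W L k m.1 m'.1, ten_mem W hL k m.2 m'.2⟩).1 p =
      m.1 p * (L.lab p • W.Tr k m') := by
  induction k with
  | nil => rfl
  | cons s k ih =>
    have h := ih (trM (W.g s) (W.BS k) (W.f_ne s) m')
    have hT : W.Tr (s :: k) m' = W.Tr k (trM (W.g s) (W.BS k) (W.f_ne s) m') := rfl
    rw [hT, ← h]
    have key : trM (W.g s) (W.words L k) (W.f_ne s)
        ⟨ten W L (s :: k) m.1 m'.1, ten_mem W hL (s :: k) m.2 m'.2⟩ =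
        ⟨ten W L k m.1 (trM (W.g s) (W.BS k) (W.f_ne s) m').1,
          ten_mem W hL k m.2 (trM (W.g s) (W.BS k) (W.f_ne s) m').2⟩ := by
      apply Subtype.ext
      apply trM_unique
      intro x
      obtain ⟨⟨p, q⟩, rfl⟩ := (catE W L k).surjective x
      have e0 : ten W L (s :: k) m.1 m'.1 (catE W L k (p, q), false) =
          m.1 p * (L.lab p • m'.1 (q, false)) := ten_cat W L (s :: k) m.1 m'.1 p (q, false)
      have e1 : ten W L (s :: k) m.1 m'.1 (catE W L k (p, q), true) =
          m.1 p * (L.lab p • m'.1 (q, true)) := ten_cat W L (s :: k) m.1 m'.1 p (q, true)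
      have hd : m'.1 (q, false) - m'.1 (q, true) = ((W.BS k).lab q • W.f s) *
          (trM (W.g s) (W.BS k) (W.f_ne s) m').1 q := trM_spec (g := W.g s) (W.f_ne s) m' q
      have e2 : ten W L k m.1 (trM (W.g s) (W.BS k) (W.f_ne s) m').1 (catE W L k (p, q)) =
          m.1 p * (L.lab p • (trM (W.g s) (W.BS k) (W.f_ne s) m').1 q) := ten_cat W L k _ _ p q
      show ten W L (s :: k) m.1 m'.1 (catE W L k (p, q), false) -
        ten W L (s :: k) m.1 m'.1 (catE W L k (p, q), true) =
        ((W.words L k).lab (catE W L k (p, q)) • W.f s) *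
        ten W L k m.1 (trM (W.g s) (W.BS k) (W.f_ne s) m').1 (catE W L k (p, q))
      rw [e0, e1, e2, cat_lab, ← mul_sub, ← smul_sub, hd, smul_mul', mul_smul]
      ring
    show (W.tr L k (trM (W.g s) (W.words L k) (W.f_ne s)
        ⟨ten W L (s :: k) m.1 m'.1, ten_mem W hL (s :: k) m.2 m'.2⟩)).1 p = _
    rw [key]

end Pool.Agent.MTX
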