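import Pool.Agent.MTX.R2d
import Pool.Agent.MTX.L0
import Pool.Agent.MTX.S12c
import Pool.Agent.MTX.S13

/-! # MTX, Part T : definitions for sections 8 and 9 of MTX_PROOF.md

`HZ d p` : `p` is homogeneous of the (integral) degree `d` (so `p = 0` if `d < 0`).
`TD D N`, `TAx` : the adjoint representation with the generic slice element `sx`, the conjugator
`px`, the principal nilpotent `e`, and so on, as matrices over `A = ℂ[x_1..x_n]`. -/

namespace Pool.Agent.MTX

open MvPolynomial SLD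

/-- homogeneous of degree `d : ℤ` -/
def HZ {n : ℕ} (d : ℤ) (p : AA n) : Prop :=
  ∀ m : Fin n →₀ ℕ, p.coeff m ≠ 0 → ((m.sum fun _ e => e : ℕ) : ℤ) = d

namespace SLD
variable {n : ℕ} (D : SLD n)

/-- the product of the positive roots -/
noncomputable def PI : AA n := ∏ γ : D.PRt, fm0 γ.1.1

/-- the product of the positive roots orthogonal to `μ` -/
noncomputable def PI0 (μ : Fin n → ℤ) : AA n := by
  classical
  exact ∏ γ : D.PRt, if D.B γ.1.1 μ = 0 then fm0 γ.1.1 else 1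

/-- the product of the positive roots `γ` with `B(γ, θ) = 1` -/
noncomputable def PI1 : AA n := by
  classical
  exact ∏ γ : D.PRt, if D.B γ.1.1 D.theta.1 = 1 then fm0 γ.1.1 else 1

end SLD

/-- The data of sections 7, 8. -/
structure TD {n : ℕ} (D : SLD n) (N : ℕ) where
  wt : Fin N → Fin n → ℤ
  tp : Fin N
  e : Matrix (Fin N) (Fin N) ℂ
  r : Matrix (Fin N) (Fin N) ℂ
  kp : Matrix (Fin N) (Fin N) ℂ
  sx : Matrix (Fin N) (Fin N) (AA n)
  px : Matrix (Fin N) (Fin N) (AA n)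

namespace TD
variable {n : ℕ} {D : SLD n} {N : ℕ} (T : TD D N)

/-- the generic element of the torus Lie algebra -/
noncomputable def Dx : Matrix (Fin N) (Fin N) (AA n) := Matrix.diagonal fun i => fm0 (T.wt i)

/-- the height of a basis vector -/
def hg (i : Fin N) : ℤ := SLD.ht (T.wt i)

/-- the form `κ` over `A` -/
noncomputable def K : Matrix (Fin N) (Fin N) (AA n) := T.kp.map C

/-- the pairing -/
noncomputable def ka (v w : Fin N → AA n) : AA n := v ⬝ᵥ (T.K.mulVec w)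

/-- the section `E = px e_θ` -/
noncomputable def E : Fin N → AA n := fun i => T.px i T.tp

/-- a homogeneous vector of degree `d` -/
def HV (d : ℤ) (v : Fin N → AA n) : Prop := ∀ i, HZ (d - T.hg i) (v i)

end TD

/-- The conditions on the data. -/
structure TAx {n : ℕ} {D : SLD n} {N : ℕ} (T : TD D N) : Prop where
  wt_cases : ∀ i, T.wt i = 0 ∨ D.B (T.wt i) (T.wt i) = 2
  wt_inj : ∀ i j, T.wt i = T.wt j → T.wt i ≠ 0 → i = j
  wt_surj : ∀ γ : D.Rt, ∃ i, T.wt i = γ.1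
  wt_tp : T.wt T.tp = D.theta.1
  kp_symm : T.kp.transpose = T.kp
  kp_unit : IsUnit T.kp.det
  kp_wt : ∀ i j, T.kp i j ≠ 0 → T.wt i + T.wt j = 0
  e_wt : ∀ i j, T.e i j ≠ 0 → T.hg i = T.hg j + 1
  e_inj : ∀ k : ℤ, k < 0 → ∀ v : Fin N → ℂ, (∀ i, v i ≠ 0 → T.hg i = k) →
    T.e.mulVec v = 0 → v = 0
  r_wt : ∀ i j, T.r i j ≠ 0 → T.hg i = T.hg j - 1
  e_r : ∀ v : Fin N → ℂ, (∀ i, v i ≠ 0 → 0 ≤ T.hg i) → T.e.mulVec (T.r.mulVec v) = v
  px_hz : ∀ i j, HZ (T.hg j - T.hg i) (T.px i j)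
  px_one : ∀ i j, T.hg i = T.hg j → T.px i j = if i = j then 1 else 0
  px_det : IsUnit T.px.det
  px_kp : T.px.transpose * T.K * T.px = T.K
  px_conj : T.px * (T.e.map C + T.Dx) = T.sx * T.px
  sx_hz : ∀ i j, HZ (T.hg j + 1 - T.hg i) (T.sx i j)
  sx_e : ∀ i j, T.hg i = T.hg j + 1 → T.sx i j = C (T.e i j)
  sx_kp : T.sx.transpose * T.K + T.K * T.sx = 0
  sx_inv : ∀ u ∈ D.W, ∀ i j, u • T.sx i j = T.sx i j
  qq : ∃ q : Matrix (Fin N) (Fin N) (FractionRing (AA n)), IsUnit q.det ∧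
    T.sx.map (algebraMap (AA n) (FractionRing (AA n))) * q =
      q * T.Dx.map (algebraMap (AA n) (FractionRing (AA n)))

end Pool.Agent.MTX
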