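import Pool.Agent.MTX.R5
import Pool.Agent.MTX.T0

/-! # MTX, Part R : (8.3) and the words in the form used in Part T -/

namespace Pool.Agent.MTX

open MvPolynomial

namespace SLD

variable {n : ℕ} {D : SLD n}

theorem PI_eq_PP : D.PI = D.PP := by
  unfold PI PP
  exact (Finset.prod_subtype D.posF (fun γ => D.mem_posF) fun γ : D.Rt => (fm0 γ.1 : AA n)).symm

/-- `s_i (∏ γ) = - ∏ γ`. -/
theorem sO_PP (i : Fin n) : D.sO i • D.PP = - D.PP := by
  classical
  have h1 : D.sO i • D.PP = ∏ γ ∈ D.posF, (fm0 (D.sO i • γ).1 : AA n) := by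
    unfold PP
    rw [Finset.smul_prod']
    exact Finset.prod_congr rfl fun γ _ => D.smul_fm0 _ _
  have hi : D.al i ∈ D.posF := D.mem_posF.2 (D.pos_al i)
  rw [h1, ← Finset.mul_prod_erase _ _ hi]
  have h2 : ∏ γ ∈ D.posF.erase (D.al i), (fm0 (D.sO i • γ).1 : AA n) =
      ∏ γ ∈ D.posF.erase (D.al i), (fm0 γ.1 : AA n) := by
    have hmem : ∀ γ ∈ D.posF.erase (D.al i), D.sO i • γ ∈ D.posF.erase (D.al i) := by
      intro γ hγ
      rw [Finset.mem_erase, mem_posF] at hγ ⊢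
      refine ⟨fun h => ?_, D.pos_perm hγ.2 hγ.1⟩
      have h3 : γ = D.ng (D.al i) := by
        rw [← D.sO_al, ← h, ← mul_smul, sO_sq, one_smul]
      rw [h3] at hγ
      exact D.not_pos_ng (D.pos_al i) hγ.2
    refine Finset.prod_bij (fun γ _ => D.sO i • γ) hmem ?_ ?_ ?_
    · intro γ _ δ _ h; exact MulAction.injective _ h
    · intro γ hγ
      exact ⟨D.sO i • γ, hmem γ hγ, by rw [← mul_smul, sO_sq, one_smul]⟩
    · intro γ _; rfl
  rw [h2, sO_al, ng_val, fm0_neg, neg_mul]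
  congr 1
  unfold PP
  exact Finset.mul_prod_erase _ (fun γ : D.Rt => (fm0 γ.1 : AA n)) hi

theorem exists_sign {u : D.OQ} (hu : u ∈ D.W) : ∃ ε : ℤ, (ε = 1 ∨ ε = -1) ∧
    u • D.PP = (ε : AA n) * D.PP := by
  induction hu using Subgroup.closure_induction with
  | mem x hx =>
    obtain ⟨i, rfl⟩ := hx
    refine ⟨-1, Or.inr rfl, ?_⟩
    have h := D.sO_PP i
    have h' : D.rO (D.al i) • D.PP = - D.PP := h
    show D.rO (D.al i) • D.PP = _
    rw [h']; simp
  | one => exact ⟨1, Or.inl rfl, by rw [one_smul]; simp⟩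
  | mul x y _ _ hx hy =>
    obtain ⟨a, ha, h1⟩ := hx
    obtain ⟨b, hb, h2⟩ := hy
    refine ⟨a * b, ?_, ?_⟩
    · rcases ha with rfl | rfl <;> rcases hb with rfl | rfl <;> norm_num
    · rw [mul_smul, h2, smul_mul', h1]
      have h3 : x • ((b : ℤ) : AA n) = ((b : ℤ) : AA n) := by
        rcases hb with rfl | rfl
        · rw [Int.cast_one, smul_one]
        · rw [Int.cast_neg, Int.cast_one, smul_neg, smul_one]
      rw [h3]; push_cast; ring
  | inv x _ hx =>
    obtain ⟨a, ha, h1⟩ := hx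
    refine ⟨a, ha, ?_⟩
    have h2 := congrArg (fun z => x⁻¹ • z) h1
    simp only [inv_smul_smul, smul_mul'] at h2
    have h3 : x⁻¹ • ((a : ℤ) : AA n) = ((a : ℤ) : AA n) := by
      rcases ha with rfl | rfl
      · rw [Int.cast_one, smul_one]
      · rw [Int.cast_neg, Int.cast_one, smul_neg, smul_one]
    rw [h3] at h2
    have h4 : ((a : ℤ) : AA n) * ((a : ℤ) : AA n) = 1 := by
      rcases ha with rfl | rfl <;> simp
    calc x⁻¹ • D.PP = (((a : ℤ) : AA n) * ((a : ℤ) : AA n)) * (x⁻¹ • D.PP) := by rw [h4, one_mul]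
      _ = ((a : ℤ) : AA n) * (((a : ℤ) : AA n) * (x⁻¹ • D.PP)) := by ring
      _ = ((a : ℤ) : AA n) * D.PP := by rw [← h2]

variable (D) in
/-- the sign of an element of the Weyl group -/
noncomputable def sgn (u : D.OQ) : ℤ := by
  classical
  exact if h : u ∈ D.W then (exists_sign h).choose else 1

theorem sgn_spec {u : D.OQ} (hu : u ∈ D.W) : (D.sgn u = 1 ∨ D.sgn u = -1) ∧
    u • D.PP = (D.sgn u : AA n) * D.PP := by
  unfold sgn
  rw [dif_pos hu]
  exact (exists_sign hu).choose_spec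

/-- The word of the longest element and its total trace. -/
theorem exists_sgk [Fintype D.W] : ∃ (sg : D.OQ → ℤ) (k : List (Option (Fin n))),
    (∀ x ∈ k, x ≠ none) ∧
    (∀ u ∈ D.W, u • D.PI = (sg u : AA n) * D.PI) ∧ (∀ u ∈ D.W, sg u * sg u = 1) ∧
    (∀ p, ((D.sw0.BS k).lab p).l = 0 ∧ ((D.sw0.BS k).lab p).u ∈ D.W) ∧
    ∀ (f : AA n) (hf : (D.sw0.BS k).ry f 1 ∈ (D.sw0.BS k).M),
      D.PI * D.sw0.Tr k ⟨(D.sw0.BS k).ry f 1, hf⟩ = ∑ u : D.W, (sg u.1 : AA n) * (u.1 • f) := by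
  classical
  obtain ⟨k, hk⟩ := D.exists_LW
  refine ⟨D.sgn, k.map some, ?_, ?_, ?_, ?_, ?_⟩
  · intro x hx
    rw [List.mem_map] at hx
    obtain ⟨i, _, rfl⟩ := hx
    exact Option.some_ne_none i
  · intro u hu
    rw [PI_eq_PP]; exact (sgn_spec hu).2
  · intro u hu
    rcases (sgn_spec hu).1 with h | h <;> rw [h] <;> norm_num
  · intro p
    exact ⟨lab_l_some k p, lab_u_mem _ p⟩
  · intro f hf
    apply aK_inj
    have hP := aK_ne_zero (PP_ne (D := D))
    rw [map_mul, hk.Tr_eq f _ (fun p => by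
      show ((D.sw0.BS (k.map some)).lab p • f) * 1 = _
      rw [mul_one]), map_sum, PI_eq_PP, Finset.mul_sum]
    rw [Finset.sum_subtype D.WF (fun u => mem_WF) fun u : D.OQ =>
      aK D.PP * (aK (u • f) / aK (u • D.PP))]
    refine Finset.sum_congr rfl fun u _ => ?_
    have h1 := sgn_spec u.2
    rw [h1.2, map_mul, map_mul]
    rcases h1.1 with h2 | h2 <;> rw [h2]
    · simp only [Int.cast_one, map_one, one_mul]
      field_simp
    · simp only [Int.cast_neg, Int.cast_one, map_neg, map_one, neg_mul, one_mul]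
      field_simp

theorem exists_kW' : ∃ kW : List (Option (Fin n)), (∀ x ∈ kW, x ≠ none) ∧
    ∀ w : D.Aff, ∀ u ∈ D.W, w * D.emb u ∈ D.aff.plusL kW {w} := by
  obtain ⟨k, hk⟩ := exists_kW D
  refine ⟨k.map some, ?_, fun w u hu => hk _ w (Set.mem_singleton w) u hu⟩
  intro x hx
  rw [List.mem_map] at hx
  obtain ⟨i, _, rfl⟩ := hx
  exact Option.some_ne_none i

/-- `∑_{γ > 0} B(γ, x) = 2 ht x` -/
theorem sum_B_posF (x : Fin n → ℤ) : ∑ γ ∈ D.posF, D.B γ.1 x = 2 * ht x := by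
  classical
  have h1 : ∀ i, ∑ γ ∈ D.posF, D.B γ.1 (D.al i).1 = 2 := by
    intro i
    have hi : D.al i ∈ D.posF := D.mem_posF.2 (D.pos_al i)
    rw [← Finset.add_sum_erase _ _ hi, (D.al i).2]
    have hmem : ∀ γ ∈ D.posF.erase (D.al i), D.sO i • γ ∈ D.posF.erase (D.al i) := by
      intro γ hγ
      rw [Finset.mem_erase, mem_posF] at hγ ⊢
      refine ⟨fun h => ?_, D.pos_perm hγ.2 hγ.1⟩
      have h3 : γ = D.ng (D.al i) := by
        rw [← D.sO_al, ← h, ← mul_smul, sO_sq, one_smul]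
      rw [h3] at hγ
      exact D.not_pos_ng (D.pos_al i) hγ.2
    have h2 : ∑ γ ∈ D.posF.erase (D.al i), D.B γ.1 (D.al i).1 =
        ∑ γ ∈ D.posF.erase (D.al i), - D.B γ.1 (D.al i).1 := by
      refine Finset.sum_bij (fun γ _ => D.sO i • γ) hmem ?_ ?_ ?_
      · intro γ _ δ _ h; exact MulAction.injective _ h
      · intro γ hγ
        exact ⟨D.sO i • γ, hmem γ hγ, by rw [← mul_smul, sO_sq, one_smul]⟩
      · intro γ _
        have h3 : D.B (D.sO i • γ).1 (D.al i).1 = D.B γ.1 (D.sO i • D.al i).1 := by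
          rw [smul_val, smul_val]
          rw [← (D.sO i).2 ((D.sO i).1 γ.1) (D.al i).1]
          have h4 : (D.sO i).1 ((D.sO i).1 γ.1) = γ.1 := D.rf_rf _ _
          rw [h4]
        rw [h3, sO_al, ng_val, B_neg_right, neg_neg]
    rw [Finset.sum_neg_distrib] at h2
    have h3 : ∑ γ ∈ D.posF.erase (D.al i), D.B γ.1 (D.al i).1 = 0 := by omega
    rw [h3, add_zero]
  have h2 : ∀ γ : D.Rt, D.B γ.1 x = ∑ i, x i * D.B γ.1 (D.al i).1 := fun γ => by
    rw [D.B_comm, D.B_coord]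
    exact Finset.sum_congr rfl fun i _ => by rw [D.B_comm]
  simp only [h2]
  rw [Finset.sum_comm]
  simp only [← Finset.mul_sum, h1]
  rw [ht, Finset.mul_sum]
  exact Finset.sum_congr rfl fun i _ => by ring

end SLD

end Pool.Agent.MTX
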