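import Pool.Agent.MTX.R3b

/-! # MTX, Part R : operators `∑ e_v v` on `A` (used for (8.3)) -/

namespace Pool.Agent.MTX

open MvPolynomial

namespace SLD

variable {n : ℕ} (D : SLD n)

/-- the fraction field of `A` -/
abbrev KK (n : ℕ) := FractionRing (AA n)

/-- inclusion of `A` -/
noncomputable def aK : AA n →+* KK n := algebraMap (AA n) (KK n)

theorem aK_inj {a b : AA n} (h : aK a = aK b) : a = b :=
  IsFractionRing.injective (AA n) (KK n) h

theorem aK_ne_zero {a : AA n} (h : a ≠ 0) : aK a ≠ 0 := fun h' =>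
  h (aK_inj (h'.trans (map_zero aK).symm))

/-- the action on the fraction field -/
noncomputable def uK (u : D.OQ) : KK n ≃+* KK n :=
  IsFractionRing.ringEquivOfRingEquiv (MulSemiringAction.toRingEquiv D.OQ (AA n) u)

theorem uK_aK (u : D.OQ) (a : AA n) : D.uK u (aK a) = aK (u • a) :=
  IsFractionRing.ringEquivOfRingEquiv_algebraMap _ a

theorem exists_frac (z : KK n) : ∃ a b : AA n, b ≠ 0 ∧ z * aK b = aK a := by
  obtain ⟨⟨a, b⟩, h⟩ := IsLocalization.surj (nonZeroDivisors (AA n)) z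
  exact ⟨a, b, nonZeroDivisors.coe_ne_zero b, h⟩

theorem uK_mul (u v : D.OQ) (z : KK n) : D.uK (u * v) z = D.uK u (D.uK v z) := by
  obtain ⟨a, b, hb, h⟩ := exists_frac z
  have h1 := congrArg (D.uK (u * v)) h
  have h2 := congrArg (fun z => D.uK u (D.uK v z)) h
  simp only [map_mul, uK_aK] at h1 h2
  rw [← mul_smul, ← mul_smul] at h2
  have h3 : (u * v) • b ≠ 0 := smul_ne_zero' (u * v) hb
  exact mul_right_cancel₀ (aK_ne_zero h3) (h1.trans h2.symm)

theorem uK_one (z : KK n) : D.uK 1 z = z := by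
  obtain ⟨a, b, hb, h⟩ := exists_frac z
  have h1 := congrArg (D.uK 1) h
  simp only [map_mul, uK_aK, one_smul] at h1
  exact mul_right_cancel₀ (aK_ne_zero hb) (h1.trans h.symm)

/-- integrality -/
def Int' (z : KK n) : Prop := ∃ a : AA n, z = aK a

theorem Int'.add {z w : KK n} (hz : Int' z) (hw : Int' w) : Int' (z + w) := by
  obtain ⟨a, rfl⟩ := hz; obtain ⟨b, rfl⟩ := hw
  exact ⟨a + b, (map_add _ _ _).symm⟩

theorem Int'.sub {z w : KK n} (hz : Int' z) (hw : Int' w) : Int' (z - w) := by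
  obtain ⟨a, rfl⟩ := hz; obtain ⟨b, rfl⟩ := hw
  exact ⟨a - b, (map_sub _ _ _).symm⟩

theorem Int'.mul {z w : KK n} (hz : Int' z) (hw : Int' w) : Int' (z * w) := by
  obtain ⟨a, rfl⟩ := hz; obtain ⟨b, rfl⟩ := hw
  exact ⟨a * b, (map_mul _ _ _).symm⟩

theorem Int'.of (a : AA n) : Int' (aK a) := ⟨a, rfl⟩

/-- a family of coefficients preserving `A` -/
def Pres [Fintype D.OQ] (e : D.OQ → KK n) : Prop :=
  ∀ f : AA n, Int' (∑ v, e v * aK (v • f))

/-! ### generic linear forms -/

theorem smul_lin (u : D.OQ) (c : Fin n → ℂ) :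
    u • (lin c : AA n) = lin (∑ j, c j • fun i => ((u.1 (Pi.single j 1) i : ℤ) : ℂ)) := by
  show D.actO u (lin c) = _
  rw [lin_sum]
  unfold actO
  rw [aeval_lin]
  refine Finset.sum_congr rfl fun j _ => ?_
  rw [lin_smul]; rfl

/-- `γ` divides `x - s_γ x` -/
theorem fm0_dvd (γ : D.Rt) (x : AA n) : fm0 γ.1 ∣ x - D.rO γ • x := by
  obtain ⟨y, hy⟩ := rho_surj x
  obtain ⟨q, hq⟩ := D.af_dvd (γ, 0) y
  refine ⟨rho q, ?_⟩
  have := congrArg rho hq
  rw [map_sub, rho_equiv, hy, map_mul, af, rho_fm] at this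
  exact this

theorem exists_generic (γ : D.Rt) : ∃ c : Fin n → ℂ,
    (∀ u v : D.OQ, v ≠ u → v ≠ D.rO γ * u → ¬ fm0 γ.1 ∣ u • (lin c : AA n) - v • lin c) ∧
    (∀ u : D.OQ, ∃ z : ℂ, z ≠ 0 ∧ u • (lin c : AA n) - (D.rO γ * u) • lin c =
      MvPolynomial.C z * fm0 γ.1) := by
  classical
  have := Fintype.ofFinite D.OQ
  -- the form of a complex combination
  set Λ : D.OQ → (Fin n → ℂ) →ₗ[ℂ] (Fin n → ℂ) := fun u =>
    { toFun := fun c => ∑ j, c j • fun i => ((u.1 (Pi.single j 1) i : ℤ) : ℂ)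
      map_add' := fun c d => by
        rw [← Finset.sum_add_distrib]
        exact Finset.sum_congr rfl fun j _ => by rw [Pi.add_apply, add_smul]
      map_smul' := fun c d => by
        rw [RingHom.id_apply, Finset.smul_sum]
        exact Finset.sum_congr rfl fun j _ => by rw [Pi.smul_apply, smul_eq_mul, mul_smul] }
    with hΛ
  have hact : ∀ (u : D.OQ) (c : Fin n → ℂ), u • (lin c : AA n) = lin (Λ u c) := fun u c =>
    D.smul_lin u c
  have hΛx : ∀ (u : D.OQ) (x : Fin n → ℤ), Λ u (fun j => (x j : ℂ)) =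
      fun j => ((u.1 x j : ℤ) : ℂ) := by
    intro u x
    apply lin_inj
    rw [← hact]
    exact D.smul_fm0 u x
  set g0 : Fin n → ℂ := fun j => (γ.1 j : ℂ) with hg0
  have hg0' : g0 ≠ 0 := by
    intro h
    apply D.Rt_ne_zero γ
    funext j
    have := congrFun h j
    rw [hg0] at this
    simpa using this
  -- the bad subspaces
  set pp : ({p : D.OQ × D.OQ // p.2 ≠ p.1 ∧ p.2 ≠ D.rO γ * p.1} ⊕ D.OQ) → Submodule ℂ (Fin n → ℂ) :=
    Sum.elim (fun p => (Submodule.span ℂ {g0}).comap (Λ p.1.2 - Λ p.1.1))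
      (fun u => LinearMap.ker (Λ u - Λ (D.rO γ * u))) with hpp
  have hproper : ∀ p, pp p ≠ ⊤ := by
    rintro (⟨⟨u, v⟩, h1, h2⟩ | u) htop
    · have h3 : ∀ c : Fin n → ℂ, ∃ z : ℂ, Λ v c - Λ u c = z • g0 := by
        intro c
        have h4 : c ∈ pp (Sum.inl ⟨⟨u, v⟩, h1, h2⟩) := by rw [htop]; exact Submodule.mem_top
        rw [hpp] at h4
        simp only [Sum.elim_inl, Submodule.mem_comap] at h4
        obtain ⟨z, hz⟩ := Submodule.mem_span_singleton.1 h4
        exact ⟨z, hz.symm⟩
      rcases D.eq_or_refl (γ, 0) (D.emb u) (D.emb v) (fun x => by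
        obtain ⟨z, hz⟩ := h3 (fun j => (x j : ℂ))
        rw [hΛx, hΛx] at hz
        refine ⟨z, ?_⟩
        funext j
        cases j with
        | none =>
          simp only [fc, Pi.sub_apply, Pi.smul_apply, smul_eq_mul, emb_l, B_zero_left]
          simp
        | some j =>
          have := congrFun hz j
          simpa [fc, emb_u, hg0] using this) with h | h
      · exact h1 (congrArg Aff.u h)
      · exact h2 (congrArg Aff.u h)
    · have h3 : ∀ c : Fin n → ℂ, Λ u c = Λ (D.rO γ * u) c := by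
        intro c
        have h4 : c ∈ pp (Sum.inr u) := by rw [htop]; exact Submodule.mem_top
        rw [hpp] at h4
        simp only [Sum.elim_inr, LinearMap.mem_ker, LinearMap.sub_apply] at h4
        exact sub_eq_zero.1 h4
      have h4 : u = D.rO γ * u := by
        apply Subtype.ext
        apply LinearEquiv.ext
        intro x
        funext j
        have h5 := congrFun (h3 (fun j => (x j : ℂ))) j
        rw [hΛx, hΛx] at h5
        simp only at h5
        exact_mod_cast h5
      have h5 : D.rO γ = 1 := by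
        have := congrArg (· * u⁻¹) h4
        simp only [mul_inv_cancel, mul_assoc, mul_one] at this
        exact this.symm
      have h6 := D.rO_self γ
      rw [h5, one_smul] at h6
      have h7 := congrArg Subtype.val h6
      rw [ng_val] at h7
      apply D.Rt_ne_zero γ
      funext j
      have h8 := congrFun h7 j
      simp only [Pi.neg_apply] at h8
      show γ.1 j = 0
      omega
  obtain ⟨c, hc⟩ := exists_not_mem_subspaces pp hproper
  refine ⟨c, fun u v h1 h2 hdvd => ?_, fun u => ?_⟩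
  · refine hc (Sum.inl ⟨⟨u, v⟩, h1, h2⟩) ?_
    rw [hpp]
    simp only [Sum.elim_inl, Submodule.mem_comap]
    rw [Submodule.mem_span_singleton]
    rw [hact, hact, ← lin_sub, fm0, lin_dvd_lin hg0'] at hdvd
    obtain ⟨z, hz⟩ := hdvd
    refine ⟨-z, ?_⟩
    rw [neg_smul, ← hz, neg_sub]; rfl
  · have h1 : fm0 γ.1 ∣ u • (lin c : AA n) - (D.rO γ * u) • lin c := by
      rw [mul_smul]; exact D.fm0_dvd γ _
    rw [hact, hact, ← lin_sub, fm0, lin_dvd_lin hg0'] at h1
    obtain ⟨z, hz⟩ := h1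
    refine ⟨z, ?_, ?_⟩
    · rintro rfl
      rw [zero_smul] at hz
      refine hc (Sum.inr u) ?_
      rw [hpp]
      simp only [Sum.elim_inr, LinearMap.mem_ker, LinearMap.sub_apply]
      exact hz
    · rw [hact, hact, ← lin_sub, hz, lin_smul]; rfl

/-! ### simple poles -/

variable {D}

theorem Pres.isolate [Fintype D.OQ] [DecidableEq D.OQ] {e : D.OQ → KK n} (he : D.Pres e)
    (ξ : AA n) (S : Finset D.OQ) : ∀ f : AA n,
    Int' (∑ u, e u * aK (∏ w ∈ S, (u • ξ - w • ξ)) * aK (u • f)) := by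
  induction S using Finset.induction_on with
  | empty =>
    intro f
    have := he f
    simpa using this
  | insert w S hw ih =>
    intro f
    have h1 := ih (ξ * f)
    have h2 := (Int'.of (w • ξ)).mul (ih f)
    have h3 := h1.sub h2
    convert h3 using 1
    rw [Finset.mul_sum, ← Finset.sum_sub_distrib]
    refine Finset.sum_congr rfl fun u _ => ?_
    rw [Finset.prod_insert hw, smul_mul']
    simp only [map_mul, map_sub]
    ring

theorem Pres.pole [Fintype D.OQ] {e : D.OQ → KK n} (he : D.Pres e) (γ : D.Rt) (v : D.OQ) :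
    ∃ h : AA n, ¬ fm0 γ.1 ∣ h ∧ Int' (aK h * aK (fm0 γ.1) * e v) := by
  classical
  obtain ⟨c, hc1, hc2⟩ := D.exists_generic γ
  obtain ⟨z, hz, hz2⟩ := hc2 v
  set ξ : AA n := lin c with hξ
  have h1 := he.isolate ξ (Finset.univ.erase v) 1
  have hprime : Prime (fm0 γ.1 : AA n) := fm0_prime (D.Rt_ne_zero γ)
  have h2 : ∑ u, e u * aK (∏ w ∈ Finset.univ.erase v, (u • ξ - w • ξ)) * aK (u • (1 : AA n)) =
      e v * aK (∏ w ∈ Finset.univ.erase v, (v • ξ - w • ξ)) := by
    rw [Finset.sum_eq_single v]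
    · rw [smul_one, map_one, mul_one]
    · intro u _ hu
      rw [Finset.prod_eq_zero (i := u) (Finset.mem_erase.2 ⟨hu, Finset.mem_univ u⟩) (sub_self _)]
      rw [map_zero, mul_zero, zero_mul]
    · intro h; exact (h (Finset.mem_univ v)).elim
  rw [h2] at h1
  have hne : D.rO γ * v ≠ v := by
    intro h
    rw [h, sub_self] at hz2
    have : MvPolynomial.C z * fm0 γ.1 = (0 : AA n) := hz2.symm
    rcases mul_eq_zero.1 this with h3 | h3
    · exact hz (MvPolynomial.C_injective _ _ (by rw [h3, C_0]))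
    · exact hprime.ne_zero h3
  have h3 : ∏ w ∈ Finset.univ.erase v, (v • ξ - w • ξ) =
      (MvPolynomial.C z * fm0 γ.1) *
        ∏ w ∈ (Finset.univ.erase v).erase (D.rO γ * v), (v • ξ - w • ξ) := by
    rw [← Finset.mul_prod_erase _ _ (Finset.mem_erase.2 ⟨hne, Finset.mem_univ _⟩), hz2]
  refine ⟨MvPolynomial.C z * ∏ w ∈ (Finset.univ.erase v).erase (D.rO γ * v), (v • ξ - w • ξ),
    ?_, ?_⟩
  · intro hdvd
    rcases hprime.dvd_or_dvd hdvd with h4 | h4
    · have hu : IsUnit (MvPolynomial.C z : AA n) := (isUnit_iff_ne_zero.2 hz).map MvPolynomial.C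
      exact hprime.not_isUnit (isUnit_of_dvd_unit h4 hu)
    · rw [hprime.dvd_finsetProd_iff] at h4
      obtain ⟨w, hw, hw2⟩ := h4
      rw [Finset.mem_erase, Finset.mem_erase] at hw
      exact hc1 v w hw.2.1 hw.1 hw2
  · rw [h3] at h1
    convert h1 using 1
    simp only [map_mul]
    ring

/-- products of root forms -/
def IsP (c : AA n) : Prop := c ∈ Submonoid.closure (Set.range fun γ : D.Rt => (fm0 γ.1 : AA n))

variable (D) in
theorem int_of_local {c : AA n} (hc : c ∈ Submonoid.closure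
    (Set.range fun γ : D.Rt => (fm0 γ.1 : AA n))) : ∀ z : KK n, Int' (aK c * z) →
    (∀ γ : D.Rt, ∃ h : AA n, ¬ fm0 γ.1 ∣ h ∧ Int' (aK h * z)) → Int' z := by
  induction hc using Submonoid.closure_induction with
  | mem x hx =>
    obtain ⟨γ, rfl⟩ := hx
    rintro z ⟨a, ha⟩ hloc
    obtain ⟨h, hh, b, hb⟩ := hloc γ
    have hprime : Prime (fm0 γ.1 : AA n) := fm0_prime (D.Rt_ne_zero γ)
    have h1 : h * a = fm0 γ.1 * b := by
      apply aK_inj
      simp only [map_mul] at ha hb ⊢
      rw [← ha, ← hb]; ring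
    obtain ⟨a', ha'⟩ := (hprime.dvd_or_dvd ⟨b, h1⟩).resolve_left hh
    refine ⟨a', ?_⟩
    apply mul_left_cancel₀ (aK_ne_zero hprime.ne_zero)
    simp only at ha ⊢
    rw [← map_mul, ← ha', ← ha]
  | one =>
    intro z hz _
    simpa using hz
  | mul x y _ _ hx hy =>
    intro z hz hloc
    refine hy z (hx (aK y * z) ?_ ?_) hloc
    · convert hz using 1
      simp only [map_mul]; ring
    · intro γ
      obtain ⟨h, hh, hh2⟩ := hloc γ
      refine ⟨h, hh, ?_⟩
      convert (Int'.of y).mul hh2 using 1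
      ring

/-! ### sums of inverses of products of `r` root forms -/

variable (D) in
/-- the sums of inverses of products of `r` root forms -/
noncomputable def ZZr (r : ℕ) : AddSubgroup (KK n) :=
  AddSubgroup.closure {z | ∃ l : List D.Rt, l.length = r ∧
    z * aK (l.map fun γ => (fm0 γ.1 : AA n)).prod = 1}

theorem ZZr_mem {r : ℕ} {z : KK n} (l : List D.Rt) (hl : l.length = r)
    (h : z * aK (l.map fun γ => (fm0 γ.1 : AA n)).prod = 1) : z ∈ D.ZZr r :=
  AddSubgroup.subset_closure ⟨l, hl, h⟩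

theorem ZZr_den {r : ℕ} {z : KK n} (hz : z ∈ D.ZZr r) : ∃ c ∈ Submonoid.closure
    (Set.range fun γ : D.Rt => (fm0 γ.1 : AA n)), Int' (aK c * z) := by
  induction hz using AddSubgroup.closure_induction with
  | mem x hx =>
    obtain ⟨l, _, h⟩ := hx
    refine ⟨(l.map fun γ => (fm0 γ.1 : AA n)).prod, ?_, 1, by rw [mul_comm, h, map_one]⟩
    refine Submonoid.list_prod_mem _ fun x hx => ?_
    rw [List.mem_map] at hx
    obtain ⟨γ, _, rfl⟩ := hx
    exact Submonoid.subset_closure ⟨γ, rfl⟩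
  | zero => exact ⟨1, Submonoid.one_mem _, 0, by rw [mul_zero, map_zero]⟩
  | add x y _ _ hx hy =>
    obtain ⟨c, hc, hcx⟩ := hx
    obtain ⟨d, hd, hdy⟩ := hy
    refine ⟨c * d, Submonoid.mul_mem _ hc hd, ?_⟩
    convert ((Int'.of d).mul hcx).add ((Int'.of c).mul hdy) using 1
    simp only [map_mul]; ring
  | neg x _ hx =>
    obtain ⟨c, hc, a, ha⟩ := hx
    exact ⟨c, hc, -a, by rw [mul_neg, ha, map_neg]⟩

theorem prod_totalDegree (l : List D.Rt) :
    (l.map fun γ => (fm0 γ.1 : AA n)).prod ≠ 0 ∧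
      (l.map fun γ => (fm0 γ.1 : AA n)).prod.totalDegree = l.length := by
  induction l with
  | nil => simp
  | cons γ l ih =>
    rw [List.map_cons, List.prod_cons]
    have h1 : (fm0 γ.1 : AA n) ≠ 0 := fm0_ne_zero (D.Rt_ne_zero γ)
    refine ⟨mul_ne_zero h1 ih.1, ?_⟩
    rw [totalDegree_mul_of_isDomain h1 ih.1, ih.2, List.length_cons]
    have h2 : (fm0 γ.1 : AA n).totalDegree = 1 := by
      apply lin_totalDegree
      intro h
      apply D.Rt_ne_zero γ
      funext j
      have := congrFun h j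
      simpa using this
    rw [h2, add_comm]

theorem ZZr_deg {r : ℕ} {z : KK n} (hz : z ∈ D.ZZr r) : ∃ a b : AA n, b ≠ 0 ∧
    z * aK b = aK a ∧ a.totalDegree + r ≤ b.totalDegree := by
  induction hz using AddSubgroup.closure_induction with
  | mem x hx =>
    obtain ⟨l, hl, h⟩ := hx
    refine ⟨1, _, (prod_totalDegree l).1, by rw [h, map_one], ?_⟩
    rw [(prod_totalDegree l).2, hl]
    simp
  | zero =>
    -- use a product of `r` copies of a root form
    have h1 := prod_totalDegree (List.replicate r (D.al ⟨0, D.npos⟩))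
    refine ⟨0, _, h1.1, by rw [zero_mul, map_zero], ?_⟩
    rw [h1.2, List.length_replicate, totalDegree_zero, zero_add]
  | add x y _ _ hx hy =>
    obtain ⟨a, b, hb, h1, h2⟩ := hx
    obtain ⟨a', b', hb', h1', h2'⟩ := hy
    refine ⟨a * b' + a' * b, b * b', mul_ne_zero hb hb', ?_, ?_⟩
    · simp only [map_mul, map_add] at h1 h1' ⊢
      rw [← h1, ← h1']; ring
    · rw [totalDegree_mul_of_isDomain hb hb']
      have h3 := totalDegree_add (a * b') (a' * b)
      have h4 := totalDegree_mul a b'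
      have h5 := totalDegree_mul a' b
      rcases le_total (a * b').totalDegree (a' * b).totalDegree with h6 | h6
      · rw [max_eq_right h6] at h3; omega
      · rw [max_eq_left h6] at h3; omega
  | neg x _ hx =>
    obtain ⟨a, b, hb, h1, h2⟩ := hx
    refine ⟨-a, b, hb, by rw [neg_mul, h1, map_neg], ?_⟩
    rwa [totalDegree_neg]

theorem ZZr_smul {r : ℕ} {z : KK n} (hz : z ∈ D.ZZr r) (u : D.OQ) : D.uK u z ∈ D.ZZr r := by
  induction hz using AddSubgroup.closure_induction with
  | mem x hx =>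
    obtain ⟨l, hl, h⟩ := hx
    refine ZZr_mem (l.map fun γ => u • γ) (by rw [List.length_map, hl]) ?_
    have h1 := congrArg (D.uK u) h
    rw [map_mul, uK_aK, map_one] at h1
    rw [← h1]
    congr 2
    clear h h1 hl
    induction l with
    | nil => simp
    | cons γ l ih =>
      simp only [List.map_cons, List.prod_cons] at ih ⊢
      rw [ih, smul_mul', smul_fm0]; rfl
  | zero => rw [map_zero]; exact zero_mem _
  | add x y _ _ hx hy => rw [map_add]; exact add_mem hx hy
  | neg x _ hx => rw [map_neg]; exact neg_mem hx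

theorem ZZr_div {r : ℕ} {z : KK n} (hz : z ∈ D.ZZr r) (γ : D.Rt) :
    z / aK (fm0 γ.1) ∈ D.ZZr (r + 1) := by
  have hne : aK (fm0 γ.1 : AA n) ≠ 0 := aK_ne_zero (fm0_ne_zero (D.Rt_ne_zero γ))
  induction hz using AddSubgroup.closure_induction with
  | mem x hx =>
    obtain ⟨l, hl, h⟩ := hx
    refine ZZr_mem (γ :: l) (by rw [List.length_cons, hl]) ?_
    rw [List.map_cons, List.prod_cons]
    simp only [map_mul] at h hne ⊢
    rw [← h]
    field_simp
  | zero => rw [zero_div]; exact zero_mem _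
  | add x y _ _ hx hy => rw [add_div]; exact add_mem hx hy
  | neg x _ hx =>
    have h1 := neg_mem hx
    convert h1 using 1
    ring

end SLD

end Pool.Agent.MTX
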