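import Pool.Agent.MTX.S3

/-! # MTX, Part S : Claim L (section 2 of MTX_PROOF.md, (2.5)), conclusion -/

namespace Pool.Agent.MTX

variable {R G Rt S : Type} [CommRing R] [IsDomain R] [Algebra ℚ R] [Group G]
  [MulSemiringAction G R] [MulAction G Rt] (D : AS R G Rt S) {L : Lat R G}

theorem s3b1_aux {P : Rt → Prop} (hP : D.Sys P) (hL : Nice D L) (s : S) {X : Set G}
    (hX : D.Closed P X) {n : L.J → R} (hn : n ∈ L.M) (hns : L.sup n (D.plus s X)) (l : List Rt) :
    ∀ m ∈ L.M, L.sup m X → (∀ p, L.lab p ∈ X → L.lab p * D.sr s ∉ X →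
      m p = (l.map D.f).prod * ((L.lab p • D.f (D.al s)) * n p)) →
    ∃ m' ∈ L.M, L.sup m' X ∧ ∀ p, L.lab p ∈ X → L.lab p * D.sr s ∉ X →
      m' p = (L.lab p • D.f (D.al s)) * n p := by
  induction l with
  | nil =>
    intro m hm hs h
    refine ⟨m, hm, hs, fun p h1 h2 => ?_⟩
    rw [h p h1 h2, List.map_nil, List.prod_nil, one_mul]
  | cons b l ih =>
    intro m hm hs h
    obtain ⟨c, hc, m2, hm2, hs2, h2⟩ := local_L D hP hL s hX hn hns b
    have hsup : L.sup (c • m - D.f b • ((l.map D.f).prod • m2)) (D.core s X) := by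
      intro p hp
      show c * m p - D.f b * ((l.map D.f).prod * m2 p) = 0
      by_cases h1 : L.lab p ∈ X
      · have h1' : L.lab p * D.sr s ∉ X := fun h' => hp ⟨h1, h'⟩
        rw [h p h1 h1', h2 p h1 h1', List.map_cons, List.prod_cons]
        ring
      · rw [hs p h1, hs2 p h1]
        ring
    obtain ⟨a', ha', hsa, hsb⟩ := hL.tf P hP (D.core s X) X (D.core_subset s X)
      (D.closed_core hX s) hX (D.f b) c (D.prime b) hc m hm ((l.map D.f).prod • m2)
      (L.M.smul_mem _ hm2) hs
      (fun p hp => by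
        show (l.map D.f).prod * m2 p = 0
        rw [hs2 p hp, mul_zero]) hsup
    refine ih a' ha' hsa (fun p h1 h1' => ?_)
    have h3 := hsb p (fun h' => h1' h'.2)
    have h4 : m p - D.f b * a' p = 0 := h3
    rw [h p h1 h1', List.map_cons, List.prod_cons] at h4
    have h5 : D.f b * a' p =
        D.f b * ((l.map D.f).prod * ((L.lab p • D.f (D.al s)) * n p)) := by
      linear_combination -h4
    exact mul_left_cancel₀ (D.prime b).ne_zero h5

/-- (2.5).  Let `z p = (lab p • α) * n p`.  By `hL.big` there is a list `l` with `(∏ f l) • m ∈ L.M` for all `m`;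
applied to `m = z` restricted to the labels `u ∈ X`, `u s ∉ X`: there is `m ∈ L.M`, supported on `X`, with
`m p = (∏ f l) z p` at the labels of `T = X \ core s X`.  Now induction on `l`: claim: for every list `l` and every
`m ∈ L.M` supported on `X` with `m p = (∏ f l) z p` on `T` there is `m' ∈ L.M` supported on `X` with `m' p = z p` on `T`.
`l = b :: l'`: `local_L` for `b` gives `c`, `f b ∤ c`, `m2`; put `m3 = (∏ f l') • m2`: `m3 = c (∏ f l') z` on `T`.
`c • m - f b • m3` is supported on `X` and vanishes on `T`, i.e. it is supported on `core s X`; `hL.tf` with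
`X' = core s X` (closed by `closed_core`), `π = f b` (prime) gives `a' ∈ L.M` supported on `X` with `m - f b • a'`
supported on `core s X`.  So on `T`: `f b (∏ f l') z = f b a'`, and `a' = (∏ f l') z` on `T` (cancel). -/
theorem claim_L {P : Rt → Prop} (hP : D.Sys P) (hL : Nice D L) (s : S) {X : Set G}
    (hX : D.Closed P X) {n : L.J → R} (hn : n ∈ L.M) (hns : L.sup n (D.plus s X)) :
    ∃ m ∈ L.M, L.sup m X ∧ ∀ p, L.lab p ∈ X → L.lab p * D.sr s ∉ X →
      m p = (L.lab p • D.f (D.al s)) * n p := by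
  classical
  obtain ⟨l, hl⟩ := hL.big
  refine s3b1_aux D hP hL s hX hn hns l
    ((l.map D.f).prod • (fun p => if L.lab p ∈ X ∧ L.lab p * D.sr s ∉ X then
      (L.lab p • D.f (D.al s)) * n p else 0)) (hl _) ?_ ?_
  · intro p hp
    show (l.map D.f).prod * (if L.lab p ∈ X ∧ L.lab p * D.sr s ∉ X then
      (L.lab p • D.f (D.al s)) * n p else 0) = 0
    rw [if_neg (fun h => hp h.1), mul_zero]
  · intro p h1 h2
    show (l.map D.f).prod * (if L.lab p ∈ X ∧ L.lab p * D.sr s ∉ X then
      (L.lab p • D.f (D.al s)) * n p else 0) = _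
    rw [if_pos ⟨h1, h2⟩]

/-- Surjectivity in the exact sequence (2.6).  Take `m` from `claim_L`; the element
`(p, 0) ↦ m p`, `(p, 1) ↦ m p - (lab p • α) n p` is in the star and supported on `X`: at `(p, 1)` with
`lab p * s ∉ X`: if `lab p ∈ X` the value is `0` by `claim_L`; if `lab p ∉ X` then `m p = 0`, and
`lab p ∉ plus s X`, so `n p = 0`. -/
theorem star_onto {P : Rt → Prop} (hP : D.Sys P) (hL : Nice D L) (s : S) {X : Set G}
    (hX : D.Closed P X) {n : L.J → R} (hn : n ∈ L.M) (hns : L.sup n (D.plus s X)) :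
    ∃ m ∈ (Lat.star (D.sw.f s) (D.sw.g s) L).M,
      (Lat.star (D.sw.f s) (D.sw.g s) L).sup m X ∧
      ∀ p, m (p, false) - m (p, true) = (L.lab p • D.sw.f s) * n p := by
  obtain ⟨m, hm, hms, hmT⟩ := claim_L D hP hL s hX hn hns
  refine ⟨fun q => if q.2 then m q.1 - (L.lab q.1 • D.sw.f s) * n q.1 else m q.1, ?_, ?_, ?_⟩
  · refine ⟨?_, n, hn, fun p => ?_⟩
    · simpa using hm
    · simp
  · rintro ⟨p, c⟩ hp
    cases c with
    | false =>
      have hp' : L.lab p ∉ X := by simpa [Lat.star] using hp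
      simpa using hms p hp'
    | true =>
      have hp' : L.lab p * D.sr s ∉ X := by
        have h9 : L.lab p * D.sw.g s ∉ X := by simpa [Lat.star] using hp
        exact h9
      by_cases hpX : L.lab p ∈ X
      · have h1 := hmT p hpX hp'
        have h2 : (L.lab p • D.sw.f s) = L.lab p • D.f (D.al s) := rfl
        simp [h1, h2]
      · have h1 := hms p hpX
        have h2 : n p = 0 := hns p (by
          rintro (h | h)
          · exact hpX h
          · exact hp' h)
        simp [h1, h2]
  · intro p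
    simp

/-- The part `n` of an element of the star supported on `X` is supported on `plus s X`:
if `lab p ∉ X` and `lab p * s ∉ X` then `m (p,0) = m (p,1) = 0`, so `(lab p • α) n p = 0`. -/
theorem star_n_sup (s : S) {X : Set G} {m : L.J × Bool → R} {n : L.J → R}
    (hm : (Lat.star (D.sw.f s) (D.sw.g s) L).sup m X)
    (h : ∀ p, m (p, false) - m (p, true) = (L.lab p • D.sw.f s) * n p) :
    L.sup n (D.plus s X) := by
  intro p hp
  have h0 : L.lab p ∉ X := fun h' => hp (Or.inl h')
  have h1 : L.lab p * D.sr s ∉ X := fun h' => hp (Or.inr h')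
  have e0 : m (p, false) = 0 := hm (p, false) (by simpa [Lat.star] using h0)
  have e1 : m (p, true) = 0 := hm (p, true) (by
    have : (Lat.star (D.sw.f s) (D.sw.g s) L).lab (p, true) = L.lab p * D.sr s := by
      simp [Lat.star]
      rfl
    rw [this]
    exact h1)
  have h2 := h p
  rw [e0, e1, sub_zero] at h2
  rcases mul_eq_zero.mp h2.symm with h3 | h3
  · exact absurd ((smul_eq_zero_iff_eq (L.lab p)).mp h3) (D.sw.f_ne s)
  · exact h3

/-- An element of the star, supported on `X`, with `n = 0` is `(m, m)` with `m ∈ L.M` supported on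
`core s X`. -/
theorem star_ker (s : S) {X : Set G} {m : L.J × Bool → R}
    (hm : m ∈ (Lat.star (D.sw.f s) (D.sw.g s) L).M)
    (hs : (Lat.star (D.sw.f s) (D.sw.g s) L).sup m X)
    (h : ∀ p, m (p, false) = m (p, true)) :
    (fun p => m (p, false)) ∈ L.M ∧ L.sup (fun p => m (p, false)) (D.core s X) := by
  refine ⟨hm.1, ?_⟩
  intro p hp
  by_cases hpX : L.lab p ∈ X
  · have h1 : L.lab p * D.sr s ∉ X := fun h' => hp ⟨hpX, h'⟩
    show m (p, false) = 0
    rw [h p]
    refine hs (p, true) ?_
    have : (Lat.star (D.sw.f s) (D.sw.g s) L).lab (p, true) = L.lab p * D.sr s := by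
      simp [Lat.star]
      rfl
    rw [this]
    exact h1
  · exact hs (p, false) (by simpa [Lat.star] using hpX)

end Pool.Agent.MTX
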