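import Pool.Agent.MTX.L13p

/-! # MTX, Part L : definitions : the data of type `E_6`, `E_7`, `E_8` (row L13) -/

namespace Pool.Agent.MTX

/-- the root datum of type `E_6` -/
def SLD.E6 : SLD 6 where
  C := CE6
  symm := by decide
  diag := by decide
  off := by decide
  pos := pos_E6
  conn := conn_E6
  npos := by norm_num

/-- the root datum of type `E_7` -/
def SLD.E7 : SLD 7 where
  C := CE7
  symm := by decide
  diag := by decide
  off := by decide
  pos := pos_E7
  conn := conn_E7
  npos := by norm_num

/-- the root datum of type `E_8` -/
def SLD.E8 : SLD 8 where
  C := CE8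
  symm := by decide
  diag := by decide
  off := by decide
  pos := pos_E8
  conn := conn_E8
  npos := by norm_num

end Pool.Agent.MTX
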