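import Pool.Agent.MTX.L15f

/-! # MTX, Part L : definitions : minuscule representations and their trace forms -/

namespace Pool.Agent.MTX

open Matrix

variable {n : ℕ}

namespace Minu

variable {D : SLD n} (M : Minu D)

instance : Finite M.Om := M.finite_Om

noncomputable instance : Fintype M.Om := Fintype.ofFinite _

/-- the matrix entries of the representation: `rs a b' b` = coefficient of `v_{b'}` in `b_a v_b` -/
noncomputable def rs : D.BI → Matrix M.Om M.Om ℂ
  | Sum.inl k => Matrix.diagonal fun b => (M.w k : ℂ) / M.d + b.1 k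
  | Sum.inr γ => fun b' b => if b.1 + γ.1 = b'.1 then (D.eps γ.1 b.1 : ℂ) else 0

/-- the trace form `tr (ρ(b_{i 0}) ... ρ(b_{i (k-1)}))` -/
noncomputable def tf (k : ℕ) (i : Fin k → D.BI) : ℂ :=
  ((List.ofFn fun j => M.rs (i j)).prod).trace

end Minu

/-- the weight of the 27-dimensional representation of `E_6`, `3 ω = w` -/
def SLD.ME6 : Minu SLD.E6 where
  m := 4
  d := 3
  w := ![6, 3, 5, 4, 4, 2]
  hd := by norm_num
  hw := by decide
  hB := by decide

end Pool.Agent.MTX
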