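import Pool.Agent.MTX.L3b
import Pool.Agent.MTX.L13
import Pool.Agent.MTX.L15b

/-! # MTX : definitions used in the statement : the exceptional groups and their slices

`SLD.E6, SLD.E7, SLD.E8` : the data of the Cartan matrices `CE6, CE7, CE8`.  The Lie algebra `𝔤` of `D`
has the basis `D.BI = Fin n ⊕ D.Rt` (`D.Rt` the roots) and the structure constants `D.st`. -/

namespace Pool.Agent.MTX

open Matrix

section
variable {n : ℕ} (D : SLD n)

/-- The automorphisms of determinant `1` of the Lie algebra of `D`, as matrices. -/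
def Aut1 : Set (Matrix (Fin D.N) (Fin D.N) ℂ) :=
  {g | (∀ X Y, D.ofN g *ᵥ D.br X Y = D.br (D.ofN g *ᵥ X) (D.ofN g *ᵥ Y)) ∧ g.det = 1}

/-- `f = - ∑ r_i e_{-α_i}` -/
noncomputable def ffv (r : Fin n → ℤ) : D.BI → ℂ := - ∑ i, (r i : ℂ) • D.er ℂ (-(D.al i).1)

/-- The Slodowy slice `e + 𝔤_f`, as the set of the matrices `ad (e + v)`, `[f, v] = 0`. -/
def Es (r : Fin n → ℤ) : Set (Matrix (Fin D.N) (Fin D.N) ℂ) :=
  {M | ∃ v : D.BI → ℂ, D.br (ffv D r) v = 0 ∧ M = D.toN (D.ad (D.ee ℂ + v))}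

end

/-- The form `F(X_1, ..., X_5) = tr (ρ(X_1) ⋯ ρ(X_5))`, `ρ` the representation of dimension `27` of
the Lie algebra of type `E_6`; `SLD.ME6.tf 5 i = F(b_{i 0}, ..., b_{i 4})` for basis vectors. -/
noncomputable def F27 (X : Fin 5 → SLD.E6.BI → ℂ) : ℂ :=
  ∑ i : Fin 5 → SLD.E6.BI, SLD.ME6.tf 5 i * ∏ j, X j (i j)

/-- The adjoint group of type `E_6`. -/
def E6g : Set (Matrix (Fin SLD.E6.N) (Fin SLD.E6.N) ℂ) :=
  {g | g ∈ Aut1 SLD.E6 ∧ ∀ X, F27 (fun j => SLD.E6.ofN g *ᵥ X j) = F27 X}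

/-- The automorphism of the diagram of `E_6`. -/
def s6 : Fin 6 → Fin 6 := ![0, 1, 3, 2, 5, 4]

theorem s6_B (x : Fin 6 → ℤ) :
    SLD.E6.B (fun i => x (s6 i)) (fun i => x (s6 i)) = SLD.E6.B x x := by
  simp only [SLD.B, bil, Fin.sum_univ_succ, SLD.E6, CE6, s6]
  simp
  ring

/-- The automorphism `σ` of the Lie algebra of type `E_6`, on the basis. -/
def sb6 : SLD.E6.BI → SLD.E6.BI
  | Sum.inl k => Sum.inl (s6 k)
  | Sum.inr γ => Sum.inr ⟨fun i => γ.1 (s6 i), (s6_B γ.1).trans γ.2⟩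

/-- The group of type `F_4`: the elements of `E_6` that commute with `σ`. -/
def F4g : Set (Matrix (Fin SLD.E6.N) (Fin SLD.E6.N) ℂ) :=
  {g | g ∈ E6g ∧ ∀ a c, SLD.E6.ofN g (sb6 a) (sb6 c) = SLD.E6.ofN g a c}

/-- Its Slodowy slice: the points `e + v` of the slice of `E_6` with `v` invariant under `σ`. -/
def F4s (r : Fin 6 → ℤ) : Set (Matrix (Fin SLD.E6.N) (Fin SLD.E6.N) ℂ) :=
  {M | ∃ v : SLD.E6.BI → ℂ, SLD.E6.br (ffv SLD.E6 r) v = 0 ∧ (∀ a, v (sb6 a) = v a) ∧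
    M = SLD.E6.toN (SLD.E6.ad (SLD.E6.ee ℂ + v))}

end Pool.Agent.MTX
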