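import Pool.Agent.MTX.F1
import Pool.Agent.MTX.L13

/-! # MTX, Part F : the folding of `E_6` (row F8) -/

namespace Pool.Agent.MTX

/-- the folding of the diagram of `E_6`: `0`, `1` fixed, `2 ↔ 3`, `4 ↔ 5` -/
def foldE6 : Fold SLD.E6 4 where
  s := ![0, 1, 3, 2, 5, 4]
  o := ![0, 1, 2, 2, 3, 3]
  r := ![0, 1, 2, 4]
  s_s := by decide
  Tm_s := by decide
  orth := by decide
  o_r := by decide
  o_s := by decide
  o_eq := by decide

end Pool.Agent.MTX
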