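import Pool.Agent.MTX.L10

/-! # MTX, Part L : the datum of a simply laced group (row L11)

`D.dat F S0 sv pm` : the Moore–Tachikawa datum of the adjoint group in its adjoint representation;
`S0` the slice, `sv` the generic point of the slice, `pm` the conjugator (to be supplied by the
theory of the Kostant slice: `Kost`). -/

namespace Pool.Agent.MTX

open Matrix

open Pool.Agent.MTD (Dat ev expN ev_add ev_sub ev_neg ev_smul ev_zero ev_add_left ev_sub_left
  ev_neg_left ev_smul_left ev_zero_left ev_sum_left ev_sum ev_map ev_comm)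

open Pool.Agent.MP_c45d35_ag (chi chi_add chi_mul chi_zero chi_one chi_inv chi_map transfer)

variable {n : ℕ}

namespace SLD

variable (D : SLD n)

section

variable {R : Type*}

theorem toN_apply (g : Matrix D.BI D.BI R) (i j : Fin D.N) :
    D.toN g i j = g (D.eN.symm i) (D.eN.symm j) := rfl

theorem ofN_apply (g : Matrix (Fin D.N) (Fin D.N) R) (a c : D.BI) :
    D.ofN g a c = g (D.eN a) (D.eN c) := rfl

@[simp] theorem ofN_toN (g : Matrix D.BI D.BI R) : D.ofN (D.toN g) = g := by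
  ext a c; simp [ofN_apply, toN_apply]

@[simp] theorem toN_ofN (g : Matrix (Fin D.N) (Fin D.N) R) : D.toN (D.ofN g) = g := by
  ext a c; simp [ofN_apply, toN_apply]

theorem toN_map {S : Type*} (f : R → S) (g : Matrix D.BI D.BI R) :
    (D.toN g).map f = D.toN (g.map f) := rfl

end

section

variable {R : Type*} [CommRing R]

theorem toN_mul (g h : Matrix D.BI D.BI R) : D.toN (g * h) = D.toN g * D.toN h := by
  unfold toN; rw [Matrix.submatrix_mul_equiv]

theorem ofN_mul (g h : Matrix (Fin D.N) (Fin D.N) R) : D.ofN (g * h) = D.ofN g * D.ofN h := by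
  unfold ofN; rw [Matrix.submatrix_mul_equiv]

theorem toN_one : D.toN (1 : Matrix D.BI D.BI R) = 1 := by
  unfold toN; rw [Matrix.submatrix_one_equiv]

theorem toN_add (g h : Matrix D.BI D.BI R) : D.toN (g + h) = D.toN g + D.toN h := rfl

theorem toN_smul (r : R) (g : Matrix D.BI D.BI R) : D.toN (r • g) = r • D.toN g := rfl

theorem toN_det (g : Matrix D.BI D.BI R) : (D.toN g).det = g.det :=
  Matrix.det_submatrix_equiv_self _ _

theorem ofN_det (g : Matrix (Fin D.N) (Fin D.N) R) : (D.ofN g).det = g.det :=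
  Matrix.det_submatrix_equiv_self _ _

theorem toN_pow (g : Matrix D.BI D.BI R) (k : ℕ) : D.toN (g ^ k) = D.toN g ^ k := by
  induction k with
  | zero => rw [pow_zero, pow_zero, toN_one]
  | succ k ih => rw [pow_succ, pow_succ, toN_mul, ih]

theorem ofN_inv (g : Matrix (Fin D.N) (Fin D.N) R) : D.ofN g⁻¹ = (D.ofN g)⁻¹ := by
  unfold ofN; rw [Matrix.inv_submatrix_equiv]

theorem toN_expB [Algebra ℂ R] (A : Matrix D.BI D.BI R) : D.toN (D.expB A) = expN (D.toN A) := by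
  unfold expB expN
  have h : ∀ s : Finset ℕ, D.toN (∑ k ∈ s, (algebraMap ℂ R (1 / (k.factorial : ℂ))) • A ^ k) =
      ∑ k ∈ s, (algebraMap ℂ R (1 / (k.factorial : ℂ))) • (D.toN A) ^ k := by
    intro s
    induction s using Finset.induction_on with
    | empty => simp [toN, Matrix.submatrix_zero]
    | insert a s ha ih =>
      rw [Finset.sum_insert ha, Finset.sum_insert ha, toN_add, ih, toN_smul, toN_pow]
  exact h _

theorem upT_iff (g : Matrix (Fin D.N) (Fin D.N) R) :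
    D.UpT (D.ofN g) ↔ ∀ i j, j < i → g i j = 0 := by
  constructor
  · intro h i j hij
    have := h (D.eN.symm i) (D.eN.symm j) (by simpa using hij)
    simpa [ofN_apply] using this
  · intro h a c hac
    exact h _ _ hac

end

/-- the positive roots -/
abbrev PR := {γ : D.Rt // D.Pos γ}

noncomputable instance : Fintype D.PRt := Fintype.ofFinite _

/-- The Moore–Tachikawa datum of the adjoint group. -/
noncomputable def dat (F : Frm D) (S0 : Set (D.BI → ℂ)) (sv : D.BI → MvPolynomial (Fin n) ℂ)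
    (pm : Matrix D.BI D.BI (MvPolynomial (Fin n) ℂ)) : Dat n D.N D.PRt where
  eqs := {p | ∃ q ∈ F.eqs,
    p = MvPolynomial.rename (fun ac : D.BI × D.BI => (D.eN ac.1, D.eN ac.2)) q}
  wt i := D.wI (D.eN.symm i)
  rt β := β.1.1
  cr β := fun k => D.B (D.al k).1 β.1.1
  dep β := (ht β.1.1).toNat
  E β := D.toN (D.ad (D.er ℂ β.1.1))
  ze β := if ht β.1.1 = 1 then 1 else 0
  S := {M | ∃ s ∈ S0, M = D.toN (D.ad s)}
  sx := D.toN (D.ad sv)
  px := D.toN pm

/-- what the theory of the Kostant slice has to supply -/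
structure Kost (F : Frm D) (S0 : Set (D.BI → ℂ)) (sv : D.BI → MvPolynomial (Fin n) ℂ)
    (pm : Matrix D.BI D.BI (MvPolynomial (Fin n) ℂ)) : Prop where
  pm_G : IsGp F pm
  pm_conj : pm *ᵥ (D.ee _ + D.tt MvPolynomial.X) = sv
  sv_mem : ∀ x : Fin n → ℂ, (fun a => MvPolynomial.eval x (sv a)) ∈ S0
  sv_surj : ∀ s ∈ S0, ∃ x : Fin n → ℂ, s = fun a => MvPolynomial.eval x (sv a)
  sv_refl : ∀ (γ : D.Rt) (x : Fin n → ℂ) (a : D.BI),
    MvPolynomial.eval (D.tact (D.rO γ) x) (sv a) = MvPolynomial.eval x (sv a)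
  nonss : ∀ (γ : D.Rt) (x : Fin n → ℂ), D.Pos γ → ev γ.1 x = 0 →
    (∀ δ : D.Rt, D.Pos δ → δ ≠ γ → ev δ.1 x ≠ 0) →
    ¬ ∃ g : Matrix D.BI D.BI ℂ, IsUnit g.det ∧
      g * D.ad (D.tt x) = D.ad (D.tt x + D.ee ℂ) * g

section fields

variable (F : Frm D) (S0 : Set (D.BI → ℂ)) (sv : D.BI → MvPolynomial (Fin n) ℂ)
  (pm : Matrix D.BI D.BI (MvPolynomial (Fin n) ℂ))

/-- `MvPolynomial.aeval_rename`, `Frm.isGp_iff` -/
theorem isG_iff {R : Type*} [CommRing R] [Algebra ℂ R] (g : Matrix (Fin D.N) (Fin D.N) R) :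
    (D.dat F S0 sv pm).IsG g ↔ IsGp F (D.ofN g) := by
  rw [F.isGp_iff]
  constructor
  · intro h p hp
    have h1 := h _ ⟨p, hp, rfl⟩
    rw [MvPolynomial.aeval_rename] at h1
    exact h1
  · rintro h p ⟨q, hq, rfl⟩
    rw [MvPolynomial.aeval_rename]
    exact h q hq

theorem isG_toN {R : Type*} [CommRing R] [Algebra ℂ R] (g : Matrix D.BI D.BI R) :
    (D.dat F S0 sv pm).IsG (D.toN g) ↔ IsGp F g := by
  rw [isG_iff, ofN_toN]

/-- `ad_tt` -/
theorem dat_Dx {R : Type*} [CommRing R] (x : Fin n → R) :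
    (D.dat F S0 sv pm).Dx x = D.toN (D.ad (D.tt x)) := by
  rw [ad_tt]
  unfold toN
  rw [Matrix.submatrix_diagonal_equiv]
  rfl

theorem dat_Tt {R : Type*} [CommRing R] (t : Fin n → Rˣ) :
    (D.dat F S0 sv pm).Tt t = D.toN (D.TB t) := by
  unfold toN TB
  rw [Matrix.submatrix_diagonal_equiv]
  rfl

/-- the vector `∑ Z_β e_β` -/
noncomputable def zv {R : Type*} [CommRing R] (Z : D.PRt → R) : D.BI → R :=
  ∑ β : D.PRt, Z β • D.er R β.1.1

theorem l11a_zv_inl {R : Type*} [CommRing R] (Z : D.PRt → R) (k : Fin n) :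
    D.zv Z (Sum.inl k) = 0 := by
  unfold zv
  rw [Finset.sum_apply]
  exact Finset.sum_eq_zero fun β _ => by rw [Pi.smul_apply, er_inl, smul_zero]

theorem l11a_zv_inr {R : Type*} [CommRing R] (Z : D.PRt → R) (γ : D.Rt) (h : D.Pos γ) :
    D.zv Z (Sum.inr γ) = Z ⟨γ, h⟩ := by
  unfold zv
  rw [Finset.sum_apply, Finset.sum_eq_single ⟨γ, h⟩]
  · rw [Pi.smul_apply, er_inr, if_pos rfl, smul_eq_mul, mul_one]
  · intro β _ hβ
    rw [Pi.smul_apply, er_inr, if_neg, smul_zero]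
    intro h1
    exact hβ (Subtype.ext (Subtype.ext h1.symm))
  · intro h1
    exact absurd (Finset.mem_univ _) h1

theorem l11a_zv_neg {R : Type*} [CommRing R] (Z : D.PRt → R) (γ : D.Rt) (h : ¬ D.Pos γ) :
    D.zv Z (Sum.inr γ) = 0 := by
  unfold zv
  rw [Finset.sum_apply]
  refine Finset.sum_eq_zero fun β _ => ?_
  rw [Pi.smul_apply, er_inr, if_neg, smul_zero]
  intro h1
  exact h ((Subtype.ext h1 : γ = β.1) ▸ β.2)

/-- `zv Z` has components of positive height only (`pos_iff_ht`) -/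
theorem zv_pos {R : Type*} [CommRing R] (Z : D.PRt → R) (a : D.BI) (h : D.zv Z a ≠ 0) :
    0 < D.hI a := by
  rcases a with k | γ
  · exact absurd (D.l11a_zv_inl Z k) h
  · by_cases hγ : D.Pos γ
    · rw [hI_inr]
      exact (D.pos_iff_ht γ).1 hγ
    · exact absurd (D.l11a_zv_neg Z γ hγ) h

/-- every vector with components of positive height only is some `zv Z` -/
theorem exists_zv {R : Type*} [CommRing R] (z : D.BI → R) (h : ∀ a, z a ≠ 0 → 0 < D.hI a) :
    ∃ Z, z = D.zv Z := by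
  refine ⟨fun β => z (Sum.inr β.1), ?_⟩
  funext a
  rcases a with k | γ
  · rw [l11a_zv_inl]
    by_contra hne
    have h1 := h _ hne
    rw [hI_inl] at h1
    exact lt_irrefl _ h1
  · by_cases hγ : D.Pos γ
    · rw [D.l11a_zv_inr _ γ hγ]
    · rw [D.l11a_zv_neg _ γ hγ]
      by_contra hne
      have h1 := h _ hne
      rw [hI_inr] at h1
      exact hγ ((D.pos_iff_ht γ).2 h1)

/-- `ad_sum`, `ad_smul`, `ad_map` (the vector `er ℂ y` is mapped to `er R y`) -/
theorem dat_Y {R : Type*} [CommRing R] [Algebra ℂ R] (Z : D.PRt → R) :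
    (D.dat F S0 sv pm).Y Z = D.toN (D.ad (D.zv Z)) := by
  have h1 : ∀ y : Fin n → ℤ, (D.ad (D.er ℂ y)).map (algebraMap ℂ R) = D.ad (D.er R y) := by
    intro y
    rw [ad_map]
    congr 1
    funext a
    rcases a with k | γ
    · rw [er_inl, er_inl, map_zero]
    · rw [er_inr, er_inr]
      split_ifs
      · exact map_one _
      · exact map_zero _
  have h2 : ∀ β : D.PRt, ((D.dat F S0 sv pm).E β).map (algebraMap ℂ R)
      = D.toN (D.ad (D.er R β.1.1)) := by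
    intro β
    rw [← h1]
    rfl
  have h3 : ∀ s : Finset D.PRt, ∑ β ∈ s, Z β • D.toN (D.ad (D.er R β.1.1))
      = D.toN (∑ β ∈ s, Z β • D.ad (D.er R β.1.1)) := by
    intro s
    classical
    induction s using Finset.induction_on with
    | empty => simp [toN, Matrix.submatrix_zero]
    | insert a s ha ih => rw [Finset.sum_insert ha, Finset.sum_insert ha, toN_add, ih, toN_smul]
  unfold Pool.Agent.MTD.Dat.Y zv
  rw [ad_sum]
  simp only [ad_smul, h2]
  exact h3 _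

/-- the positive roots of height `1` are the simple roots (all coordinates are `≥ 0`) -/
theorem zv_ze {R : Type*} [CommRing R] [Algebra ℂ R] :
    D.zv (fun β : D.PRt => algebraMap ℂ R ((D.dat F S0 sv pm).ze β)) = D.ee R := by
  funext a
  unfold ee
  rw [Finset.sum_apply]
  rcases a with k | γ
  · rw [l11a_zv_inl]
    exact (Finset.sum_eq_zero fun i _ => D.er_inl _ _).symm
  · by_cases hs : ∃ i, γ = D.al i
    · obtain ⟨i, rfl⟩ := hs
      rw [D.l11a_zv_inr _ _ (D.pos_al i), Finset.sum_eq_single i]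
      · rw [er_inr, if_pos rfl]
        have h1 : (D.dat F S0 sv pm).ze ⟨D.al i, D.pos_al i⟩ = 1 := if_pos (D.ht_al i)
        rw [h1, map_one]
      · intro j _ hj
        rw [er_inr, if_neg]
        intro h1
        rw [al_val, al_val] at h1
        have h2 := congrFun h1 i
        rw [Pi.single_eq_same, Pi.single_eq_of_ne (Ne.symm hj)] at h2
        exact one_ne_zero h2
      · intro h1
        exact absurd (Finset.mem_univ _) h1
    · have hs' : ∀ i, γ ≠ D.al i := fun i h => hs ⟨i, h⟩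
      have h1 : ∑ i, D.er R (D.al i).1 (Sum.inr γ) = 0 := by
        refine Finset.sum_eq_zero fun i _ => ?_
        rw [er_inr, if_neg]
        intro h1
        exact hs' i (Subtype.ext h1)
      rw [h1]
      by_cases hγ : D.Pos γ
      · rw [D.l11a_zv_inr _ _ hγ]
        have h2 : (D.dat F S0 sv pm).ze ⟨γ, hγ⟩ = 0 := by
          refine if_neg ?_
          show ht γ.1 ≠ 1
          intro h3
          obtain ⟨i, hi, h4⟩ := D.exists_sub hγ hs'
          have h5 := D.ht_pos h4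
          have h6 : ht (D.subR γ (D.al i) hi).1 = ht γ.1 - ht (D.al i).1 := ht_sub _ _
          rw [h6, h3, ht_al] at h5
          omega
        rw [h2, map_zero]
      · exact D.l11a_zv_neg _ _ hγ

/-- `up_diag` for `ofN g` -/
theorem dat_mult {R : Type} [CommRing R] [Algebra ℂ R] (g : Matrix (Fin D.N) (Fin D.N) R)
    (hg : (D.dat F S0 sv pm).IsG g) (h : ∀ i j, j < i → g i j = 0) (i j : Fin D.N)
    (hij : (D.dat F S0 sv pm).wt i = (D.dat F S0 sv pm).wt j) (hne : i ≠ j) : g i j = 0 := by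
  have hG := (D.isG_iff F S0 sv pm g).1 hg
  have hU := (D.upT_iff g).2 h
  have hh : D.hI (D.eN.symm i) = D.hI (D.eN.symm j) := congrArg ht hij
  have h1 := hG.up_diag hU (fun h' => hne (D.eN.symm.injective h')) hh
  rwa [ofN_apply, Equiv.apply_symm_apply, Equiv.apply_symm_apply] at h1

theorem dat_wt_std (k : Fin n) : ∃ i, (D.dat F S0 sv pm).wt i = Pi.single k 1 := by
  refine ⟨D.eN (Sum.inr (D.al k)), ?_⟩
  change D.wI (D.eN.symm (D.eN (Sum.inr (D.al k)))) = Pi.single k 1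
  rw [Equiv.symm_apply_apply]
  rfl

/-- `B` of both sides: `2 a² = 2 b²`, and `a = ±b ≠ 0` gives `β = ±γ`; positivity -/
theorem dat_rt_indep (β γ : D.PRt) (a b : ℤ) (h : β ≠ γ)
    (h2 : a • (D.dat F S0 sv pm).rt β = b • (D.dat F S0 sv pm).rt γ) : a = 0 ∧ b = 0 := by
  change a • β.1.1 = b • γ.1.1 at h2
  have h3 : D.B (a • β.1.1) (a • β.1.1) = D.B (b • γ.1.1) (b • γ.1.1) := by rw [h2]
  rw [B_smul_left, B_smul_right, B_smul_left, B_smul_right, β.1.2, γ.1.2] at h3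
  have h4 : a * a = b * b := by linarith
  by_cases ha : a = 0
  · subst ha
    have : b * b = 0 := by rw [← h4]; rfl
    exact ⟨rfl, mul_self_eq_zero.1 this⟩
  · exfalso
    rcases mul_self_eq_mul_self_iff.1 h4 with h5 | h5
    · apply h
      apply Subtype.ext
      apply D.Rt_ext
      funext i
      have h6 := congrFun h2 i
      rw [Pi.smul_apply, Pi.smul_apply, smul_eq_mul, smul_eq_mul, ← h5] at h6
      exact mul_left_cancel₀ ha h6
    · apply D.Rt_ne_zero β.1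
      funext i
      have h6 := congrFun h2 i
      rw [Pi.smul_apply, Pi.smul_apply, smul_eq_mul, smul_eq_mul] at h6
      have h7 : a * β.1.1 i = a * (- γ.1.1 i) := by rw [h6, h5]; ring
      have h8 := mul_left_cancel₀ ha h7
      have h9 := β.2 i
      have h10 := γ.2 i
      rw [Pi.zero_apply]
      omega

/-- all coordinates `≥ 0`, not all `0` -/
theorem dat_lexpos (β : D.PRt) : 0 < toLex ((D.dat F S0 sv pm).rt β) := by
  change toLex (0 : Fin n → ℤ) < toLex β.1.1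
  apply Pi.toLex_strictMono
  refine lt_of_le_of_ne (fun i => β.2 i) fun h => D.Rt_ne_zero β.1 h.symm

/-- `ev (cr β) μ = B(μ, β)` (`B_coord`) -/
theorem ev_cr (β : D.PRt) (μ : Fin n → ℤ) :
    ev ((D.dat F S0 sv pm).cr β) μ = D.B μ β.1.1 := by
  rw [D.B_coord μ β.1.1]
  unfold ev
  refine Finset.sum_congr rfl fun k _ => ?_
  rw [mul_comm]
  rfl

theorem dat_cr_rt (β : D.PRt) :
    ev ((D.dat F S0 sv pm).cr β) ((D.dat F S0 sv pm).rt β) = 2 := by
  rw [ev_cr]; exact β.1.2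

/-- simple roots are positive; `B_coord`, `B_nondeg` -/
theorem dat_cr_sep (μ : Fin n → ℤ) (h : ∀ β, ev ((D.dat F S0 sv pm).cr β) μ = 0) : μ = 0 := by
  apply D.B_nondeg
  intro y
  rw [D.B_comm, D.B_coord]
  refine Finset.sum_eq_zero fun i _ => ?_
  have h1 := h ⟨D.al i, D.pos_al i⟩
  rw [ev_cr] at h1
  rw [D.B_comm (D.al i).1 μ, h1, mul_zero]

theorem dat_sw (β : D.PRt) (μ : Fin n → ℤ) :
    (D.dat F S0 sv pm).sw β μ = D.rf β.1 μ := by
  unfold Dat.sw
  rw [ev_cr, D.B_comm]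
  rfl

theorem dat_sr {R : Type*} [CommRing R] (β : D.PRt) (x : Fin n → R) :
    (D.dat F S0 sv pm).sr β x = D.tact (D.rO β.1) x := by
  funext k
  have h1 : D.tact (D.rO β.1) x k = ev (D.rf β.1 (D.al k).1) x := by
    unfold tact
    rw [D.rO_inv]
    rfl
  rw [h1]
  unfold rf
  rw [ev_sub_left, ev_smul_left, ev_al]
  change x k - ev β.1.1 x * ((D.B (D.al k).1 β.1.1 : ℤ) : R) = _
  rw [D.B_comm β.1.1 (D.al k).1, mul_comm]

theorem dat_refl_rt (β γ : D.PRt) : ∃ γ', (D.dat F S0 sv pm).sw β ((D.dat F S0 sv pm).rt γ) =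
    (D.dat F S0 sv pm).rt γ' ∨ (D.dat F S0 sv pm).sw β ((D.dat F S0 sv pm).rt γ) =
      - (D.dat F S0 sv pm).rt γ' := by
  rcases D.pos_or_neg (D.rO β.1 • γ.1) with h | h
  · refine ⟨⟨_, h⟩, Or.inl ?_⟩
    rw [dat_sw]
    rfl
  · refine ⟨⟨_, h⟩, Or.inr ?_⟩
    rw [dat_sw]
    change _ = - (- (D.rO β.1 • γ.1).1)
    rw [neg_neg]
    rfl

/-- `ad_up`, `lt_of_hI`, `ad_apply`/`ad_single` with `er_root`, `st_wt` -/
theorem dat_E_supp (β : D.PRt) (i j : Fin D.N) (h : (D.dat F S0 sv pm).E β i j ≠ 0) :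
    i < j ∧ (D.dat F S0 sv pm).wt i - (D.dat F S0 sv pm).wt j = (D.dat F S0 sv pm).rt β := by
  have h1 : D.ad (D.er ℂ β.1.1) (D.eN.symm i) (D.eN.symm j) ≠ 0 := h
  rw [D.er_root, ad_single, one_mul] at h1
  have h2 : D.st (Sum.inr β.1) (D.eN.symm j) (D.eN.symm i) ≠ 0 := fun h' =>
    h1 (by rw [h', Int.cast_zero])
  have h3 := D.st_wt h2
  have h4 := D.st_ht h2
  rw [wI_inr] at h3
  rw [hI_inr] at h4
  have h5 := D.ht_pos β.2
  refine ⟨?_, ?_⟩
  · have h6 := D.lt_of_hI (a := D.eN.symm i) (c := D.eN.symm j) (by omega)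
    rwa [Equiv.apply_symm_apply, Equiv.apply_symm_apply] at h6
  · show D.wI (D.eN.symm i) - D.wI (D.eN.symm j) = β.1.1
    rw [h3, add_sub_cancel_right]

theorem dat_hgt : ∃ hg : Fin D.N → ℤ, (∀ i j, i ≤ j → hg j ≤ hg i) ∧
    ∀ β i j, (D.dat F S0 sv pm).E β i j ≠ 0 → hg i = hg j + (D.dat F S0 sv pm).dep β := by
  refine ⟨fun i => D.hI (D.eN.symm i), fun i j hij => D.hI_anti i j hij, ?_⟩
  intro β i j h
  have h1 : D.ad (D.er ℂ β.1.1) (D.eN.symm i) (D.eN.symm j) ≠ 0 := h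
  rw [D.er_root, ad_single, one_mul] at h1
  have h2 : D.st (Sum.inr β.1) (D.eN.symm j) (D.eN.symm i) ≠ 0 := fun h' =>
    h1 (by rw [h', Int.cast_zero])
  have h4 := D.st_ht h2
  rw [hI_inr] at h4
  have h5 := D.ht_pos β.2
  show D.hI (D.eN.symm i) = D.hI (D.eN.symm j) + (((ht β.1.1).toNat : ℕ) : ℤ)
  rw [Int.toNat_of_nonneg (by omega), h4, add_comm]

/-- `ad_inj` -/
theorem dat_E_ne (β : D.PRt) : (D.dat F S0 sv pm).E β ≠ 0 := by
  intro h
  have h1 : D.toN (D.ad (D.er ℂ β.1.1)) = 0 := h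
  have h2 : D.ad (D.er ℂ β.1.1) = 0 := by
    rw [← D.ofN_toN (D.ad (D.er ℂ β.1.1)), h1]
    rfl
  have h3 := D.ad_inj h2
  have h4 := congrFun h3 (Sum.inr β.1)
  rw [er_inr, if_pos rfl] at h4
  exact one_ne_zero h4

theorem dat_dep_pos (β : D.PRt) : 0 < (D.dat F S0 sv pm).dep β := by
  have h5 := D.ht_pos β.2
  show 0 < (ht β.1.1).toNat
  omega

/-- `isGp_exp_up`, `zv_pos`, `toN_expB`, `dat_Y` -/
theorem dat_exp {R : Type} [CommRing R] [Algebra ℂ R] (Z : D.PRt → R) :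
    (D.dat F S0 sv pm).IsG (expN ((D.dat F S0 sv pm).Y Z)) := by
  rw [dat_Y, ← toN_expB, isG_toN]
  exact D.isGp_exp_up F (D.zv_pos Z)

/-- `up_conj`, `exists_zv`, `IsGp.ad` -/
theorem dat_conj {R : Type} [CommRing R] [Algebra ℂ R] (g : Matrix (Fin D.N) (Fin D.N) R)
    (x : Fin n → R) (Z : D.PRt → R) (hg : (D.dat F S0 sv pm).IsG g)
    (h : ∀ i j, j < i → g i j = 0) : ∃ Z' : D.PRt → R,
      g * ((D.dat F S0 sv pm).Dx x + (D.dat F S0 sv pm).Y Z) =
        ((D.dat F S0 sv pm).Dx x + (D.dat F S0 sv pm).Y Z') * g := by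
  have h1 : IsGp F (D.ofN g) := (D.isG_iff F S0 sv pm g).1 hg
  have h2 : D.UpT (D.ofN g) := (D.upT_iff g).2 h
  obtain ⟨z', hz', hz''⟩ := h1.up_conj h2 x (D.zv_pos Z)
  obtain ⟨Z', rfl⟩ := D.exists_zv z' hz'
  refine ⟨Z', ?_⟩
  have h3 := h1.ad (D.tt x + D.zv Z)
  rw [hz'', ad_add, ad_add] at h3
  have h4 := congrArg D.toN h3
  rw [toN_mul, toN_mul, toN_ofN, toN_add, toN_add] at h4
  rw [dat_Dx, dat_Y, dat_Y]
  exact h4

/-- `up_chi` -/
theorem dat_levi {K : Type} [Field K] [Algebra ℂ K] (g : Matrix (Fin D.N) (Fin D.N) K)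
    (hg : (D.dat F S0 sv pm).IsG g) (h : ∀ i j, j < i → g i j = 0) :
    ∃ t : Fin n → Kˣ, ∀ i, g i i = ((chi ((D.dat F S0 sv pm).wt i) t : Kˣ) : K) := by
  have h1 : IsGp F (D.ofN g) := (D.isG_iff F S0 sv pm g).1 hg
  have h2 : D.UpT (D.ofN g) := (D.upT_iff g).2 h
  obtain ⟨t, ht⟩ := IsGp.up_chi h1 h2
  refine ⟨t, fun i => ?_⟩
  have h3 := ht (D.eN.symm i)
  rw [ofN_apply, Equiv.apply_symm_apply] at h3
  exact h3

/-- `eq_TB_of_comm`; regular: for negative roots use `ng` -/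
theorem dat_cent (g : Matrix (Fin D.N) (Fin D.N) ℂ) (x : Fin n → ℂ)
    (hg : (D.dat F S0 sv pm).IsG g) (hx : (D.dat F S0 sv pm).Reg x)
    (h : Commute g ((D.dat F S0 sv pm).Dx x)) : ∃ t : Fin n → ℂˣ,
      g = (D.dat F S0 sv pm).Tt t := by
  have h1 : IsGp F (D.ofN g) := (D.isG_iff F S0 sv pm g).1 hg
  have hx' : ∀ γ : D.Rt, ev γ.1 x ≠ 0 := by
    intro γ
    rcases D.pos_or_neg γ with h3 | h3
    · exact hx ⟨γ, h3⟩
    · have h4 : ev (D.ng γ).1 x ≠ 0 := hx ⟨D.ng γ, h3⟩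
      rw [ng_val, ev_neg_left] at h4
      exact fun h5 => h4 (by rw [h5, neg_zero])
  have h2 : D.ofN g * D.ad (D.tt x) = D.ad (D.tt x) * D.ofN g := by
    have h3 := congrArg D.ofN h.eq
    rw [dat_Dx, ofN_mul, ofN_mul, ofN_toN] at h3
    exact h3
  obtain ⟨t, ht⟩ := IsGp.eq_TB_of_comm h1 hx' h2
  refine ⟨t, ?_⟩
  rw [dat_Tt, ← ht, toN_ofN]

/-- `exists_nw` for `rO β` (`rO_mem`), `IsGp.ad`, `TB_mul`;
`chi (s_β α_k) t = t k * (chi β t)^(-B(al k, β))` -/
theorem dat_weyl (β : D.PRt) : ∃ w : Matrix (Fin D.N) (Fin D.N) ℂ, (D.dat F S0 sv pm).IsG w ∧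
    (∀ x : Fin n → ℂ, w * (D.dat F S0 sv pm).Dx x =
      (D.dat F S0 sv pm).Dx ((D.dat F S0 sv pm).sr β x) * w) ∧
    ∀ t : Fin n → ℂˣ, (D.dat F S0 sv pm).Tt t * w =
      w * (D.dat F S0 sv pm).Tt (fun k => t k *
        (chi ((D.dat F S0 sv pm).rt β) t) ^ (- (D.dat F S0 sv pm).cr β k)) := by
  obtain ⟨g, hg, hgt⟩ := D.exists_nw F (D.rO_mem β.1)
  refine ⟨D.toN g, (D.isG_toN F S0 sv pm g).2 hg, fun x => ?_, fun t => ?_⟩
  · rw [dat_Dx, dat_Dx, dat_sr, ← toN_mul, ← toN_mul, hg.ad, hgt]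
  · rw [dat_Tt, dat_Tt, ← toN_mul, ← toN_mul, IsGp.TB_mul hg hgt t]
    congr 3
    funext k
    show chi ((D.rO β.1).1 (D.al k).1) t = t k * (chi β.1.1 t) ^ (- D.B (D.al k).1 β.1.1)
    rw [rO_apply, rf_val, D.B_comm β.1.1, sub_eq_add_neg, chi_add, ← neg_smul]
    congr 1
    · simp only [chi, al_val, Pi.single_apply]
      rw [Finset.prod_eq_single k]
      · simp
      · intro l _ hl
        simp [hl]
      · intro h3
        exact absurd (Finset.mem_univ k) h3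
    · simp only [chi, Pi.smul_apply, smul_eq_mul]
      rw [← Finset.prod_zpow]
      refine Finset.prod_congr rfl fun l _ => ?_
      rw [← _root_.zpow_mul, mul_comm]

/-- `iwasawa` -/
theorem dat_iwa {K : Type} [Field K] [Algebra ℂ K] (V : ValuationSubring K)
    (hV : ∀ z : ℂ, algebraMap ℂ K z ∈ V) (g : Matrix (Fin D.N) (Fin D.N) K)
    (hg : (D.dat F S0 sv pm).IsG g) : ∃ k b : Matrix (Fin D.N) (Fin D.N) K,
      (D.dat F S0 sv pm).IsG k ∧ (∀ i j, k i j ∈ V) ∧ (D.dat F S0 sv pm).IsG b ∧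
      (∀ i j, j < i → b i j = 0) ∧ g = k * b := by
  have h1 : IsGp F (D.ofN g) := (D.isG_iff F S0 sv pm g).1 hg
  obtain ⟨k, b, hk, hkV, hb, hbU, he⟩ := IsGp.iwasawa V hV h1
  refine ⟨D.toN k, D.toN b, (D.isG_toN F S0 sv pm k).2 hk, fun i j => hkV _ _,
    (D.isG_toN F S0 sv pm b).2 hb, ?_, ?_⟩
  · apply (D.upT_iff _).1
    rw [ofN_toN]
    exact hbU
  · rw [← toN_mul, ← he, toN_ofN]

/-- `z = 1`; if `a ν = b β` then `B(ν,ν) a² = 2 b²`, `B(ν,ν)` is even (`B_even`), so `a ∣ b`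
(`a² ∣ b²`), `ν = (b/a) β`. -/
theorem dat_zc (β : D.PRt) : ∃ z : Fin n → ℂˣ, (∀ γ, chi ((D.dat F S0 sv pm).rt γ) z = 1) ∧
    ∀ ν : Fin n → ℤ, (∃ a b : ℤ, a ≠ 0 ∧ a • ν = b • (D.dat F S0 sv pm).rt β) → chi ν z = 1 →
      ∃ k : ℤ, ν = k • (D.dat F S0 sv pm).rt β := by
  refine ⟨1, fun γ => chi_one _, ?_⟩
  rintro ν ⟨a, b, ha, hab⟩ -
  change a • ν = b • β.1.1 at hab
  show ∃ k : ℤ, ν = k • β.1.1
  have h1 : a * (a * D.B ν ν) = b * (b * 2) := by
    have h2 := congrArg (fun v => D.B v v) hab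
    simp only [B_smul_left, B_smul_right] at h2
    rw [β.1.2] at h2
    exact h2
  obtain ⟨c, hc⟩ := D.B_even ν
  have h2 : a ^ 2 ∣ b ^ 2 := ⟨c, by rw [hc] at h1; linarith⟩
  obtain ⟨k, hk⟩ := (Int.pow_dvd_pow_iff (by norm_num)).1 h2
  refine ⟨k, ?_⟩
  funext l
  have h3 := congrFun hab l
  simp only [Pi.smul_apply, smul_eq_mul] at h3 ⊢
  rw [hk, mul_assoc] at h3
  exact mul_left_cancel₀ ha h3

end fields

end SLD

end Pool.Agent.MTX
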