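import Pool.Agent.MTX.Def1
import Pool.Agent.MTX.L11
import Pool.Agent.MTX.F8

/-! # MTX : the sets of matrices of `Def1.lean` are groups -/

namespace Pool.Agent.MTX

open Matrix

theorem sb6_eq (a : SLD.E6.BI) : sb6 a = foldE6.sB a := by
  rcases a with k | γ
  · rfl
  · rfl

section
variable {n : ℕ} {D : SLD n}

theorem ofN_one : D.ofN (1 : Matrix (Fin D.N) (Fin D.N) ℂ) = 1 := by
  rw [← D.toN_one, D.ofN_toN]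

theorem aut1_unit {g : Matrix (Fin D.N) (Fin D.N) ℂ} (hg : g ∈ Aut1 D) : IsUnit (D.ofN g).det := by
  rw [D.ofN_det, hg.2]; exact isUnit_one

theorem aut1_one : (1 : Matrix (Fin D.N) (Fin D.N) ℂ) ∈ Aut1 D := by
  refine ⟨fun X Y => ?_, Matrix.det_one⟩
  rw [ofN_one, Matrix.one_mulVec, Matrix.one_mulVec, Matrix.one_mulVec]

theorem aut1_mul {g h : Matrix (Fin D.N) (Fin D.N) ℂ} (hg : g ∈ Aut1 D) (hh : h ∈ Aut1 D) :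
    g * h ∈ Aut1 D := by
  refine ⟨fun X Y => ?_, by rw [Matrix.det_mul, hg.2, hh.2, one_mul]⟩
  rw [D.ofN_mul, ← Matrix.mulVec_mulVec, ← Matrix.mulVec_mulVec, ← Matrix.mulVec_mulVec, hh.1, hg.1]

theorem aut1_inv {g : Matrix (Fin D.N) (Fin D.N) ℂ} (hg : g ∈ Aut1 D) : g⁻¹ ∈ Aut1 D := by
  refine ⟨fun X Y => ?_, by rw [Matrix.det_nonsing_inv, hg.2, Ring.inverse_one]⟩
  have h := hg.1 ((D.ofN g)⁻¹ *ᵥ X) ((D.ofN g)⁻¹ *ᵥ Y)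
  rw [Matrix.mulVec_mulVec, Matrix.mulVec_mulVec, Matrix.mul_nonsing_inv _ (aut1_unit hg),
    Matrix.one_mulVec, Matrix.one_mulVec] at h
  rw [D.ofN_inv, ← h, Matrix.mulVec_mulVec, Matrix.nonsing_inv_mul _ (aut1_unit hg), Matrix.one_mulVec]

theorem aut1_isUnit {g : Matrix (Fin D.N) (Fin D.N) ℂ} (hg : g ∈ Aut1 D) : IsUnit g := by
  rw [Matrix.isUnit_iff_isUnit_det, hg.2]; exact isUnit_one

end

theorem E6g_one : (1 : Matrix (Fin SLD.E6.N) (Fin SLD.E6.N) ℂ) ∈ E6g := by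
  refine ⟨aut1_one, fun X => ?_⟩
  simp only [ofN_one, Matrix.one_mulVec]

theorem E6g_mul {g h : Matrix (Fin SLD.E6.N) (Fin SLD.E6.N) ℂ} (hg : g ∈ E6g) (hh : h ∈ E6g) :
    g * h ∈ E6g := by
  refine ⟨aut1_mul hg.1 hh.1, fun X => ?_⟩
  simp only [SLD.E6.ofN_mul, ← Matrix.mulVec_mulVec]
  exact (hg.2 fun j => SLD.E6.ofN h *ᵥ X j).trans (hh.2 X)

theorem E6g_inv {g : Matrix (Fin SLD.E6.N) (Fin SLD.E6.N) ℂ} (hg : g ∈ E6g) : g⁻¹ ∈ E6g := by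
  refine ⟨aut1_inv hg.1, fun X => ?_⟩
  have h := hg.2 fun j => (SLD.E6.ofN g)⁻¹ *ᵥ X j
  simp only [Matrix.mulVec_mulVec, Matrix.mul_nonsing_inv _ (aut1_unit hg.1), Matrix.one_mulVec] at h
  simp only [SLD.E6.ofN_inv]
  exact h.symm

theorem F4g_iff (g : Matrix (Fin SLD.E6.N) (Fin SLD.E6.N) ℂ) :
    g ∈ F4g ↔ g ∈ E6g ∧ foldE6.IM (SLD.E6.ofN g) := by
  unfold F4g Fold.IM
  simp only [sb6_eq]
  exact Iff.rfl

theorem F4g_one : (1 : Matrix (Fin SLD.E6.N) (Fin SLD.E6.N) ℂ) ∈ F4g := by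
  rw [F4g_iff, ofN_one]
  exact ⟨E6g_one, Fold.IM.one⟩

theorem F4g_mul {g h : Matrix (Fin SLD.E6.N) (Fin SLD.E6.N) ℂ} (hg : g ∈ F4g) (hh : h ∈ F4g) :
    g * h ∈ F4g := by
  rw [F4g_iff] at hg hh ⊢
  rw [SLD.E6.ofN_mul]
  exact ⟨E6g_mul hg.1 hh.1, hg.2.mul hh.2⟩

theorem F4g_inv {g : Matrix (Fin SLD.E6.N) (Fin SLD.E6.N) ℂ} (hg : g ∈ F4g) : g⁻¹ ∈ F4g := by
  rw [F4g_iff] at hg ⊢
  rw [SLD.E6.ofN_inv]
  exact ⟨E6g_inv hg.1, hg.2.inv⟩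

end Pool.Agent.MTX
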