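import Pool.Agent.MTD.P0
import Pool.Agent.MTX.Def1p

/-!
# MTX : definitions used in the statement : the types, products, central isogenies

The groups of types `A, B, C, D, G_2` and their slices are those of `MTD.Cl` (`MTD/P0.lean`).  The
groups of types `E_6, E_7, E_8, F_4` are the adjoint groups (`MTX/Def1.lean`).
-/

namespace Pool.Agent.MTX

open Matrix

/-- The types: `cl c` the groups `SL_{n+1}, SO_{2n+1}, Sp_{2n}, SO_{2n+4}, G_2`. -/
inductive Ty : Type
  | cl (c : MTD.Cl) : Ty
  | E6 : Ty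
  | E7 : Ty
  | E8 : Ty
  | F4 : Ty

namespace Ty

/-- The size of the matrices. -/
noncomputable def N : Ty → ℕ
  | cl c => c.N
  | E6 => SLD.E6.N
  | E7 => SLD.E7.N
  | E8 => SLD.E8.N
  | F4 => SLD.E6.N

/-- The matrices of the group. -/
def gset : (c : Ty) → Set (Matrix (Fin c.N) (Fin c.N) ℂ)
  | cl c => c.gset
  | E6 => E6g
  | E7 => Aut1 SLD.E7
  | E8 => Aut1 SLD.E8
  | F4 => F4g

/-- The slice `e + 𝔤_f`. -/
def slice : (c : Ty) → Set (Matrix (Fin c.N) (Fin c.N) ℂ)
  | cl c => c.slice
  | E6 => Es SLD.E6 ![42, 22, 30, 30, 16, 16]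
  | E7 => Es SLD.E7 ![96, 49, 66, 75, 34, 52, 27]
  | E8 => Es SLD.E8 ![270, 136, 182, 220, 92, 168, 114, 58]
  | F4 => F4s ![42, 22, 30, 30, 16, 16]

theorem one_mem (c : Ty) : (1 : Matrix (Fin c.N) (Fin c.N) ℂ) ∈ c.gset := by
  cases c with
  | cl c => exact c.one_mem
  | E6 => exact E6g_one
  | E7 => exact aut1_one
  | E8 => exact aut1_one
  | F4 => exact F4g_one

theorem mul_mem {c : Ty} {g h : Matrix (Fin c.N) (Fin c.N) ℂ} (hg : g ∈ c.gset) (hh : h ∈ c.gset) :
    g * h ∈ c.gset := by
  cases c with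
  | cl c => exact MTD.Cl.mul_mem hg hh
  | E6 => exact E6g_mul hg hh
  | E7 => exact aut1_mul hg hh
  | E8 => exact aut1_mul hg hh
  | F4 => exact F4g_mul hg hh

theorem inv_mem' {c : Ty} {g : Matrix (Fin c.N) (Fin c.N) ℂ} (hg : g ∈ c.gset) :
    g⁻¹ ∈ c.gset := by
  cases c with
  | cl c => exact MTD.Cl.p0_inv hg
  | E6 => exact E6g_inv hg
  | E7 => exact aut1_inv hg
  | E8 => exact aut1_inv hg
  | F4 => exact F4g_inv hg

/-- The group. -/
def grp (c : Ty) : Subgroup (Matrix (Fin c.N) (Fin c.N) ℂ)ˣ where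
  carrier := {g | g.1 ∈ c.gset}
  one_mem' := c.one_mem
  mul_mem' := fun hg hh => mul_mem hg hh
  inv_mem' := by
    intro g hg
    have h := inv_mem' hg
    rw [← Matrix.coe_units_inv] at h
    exact h

end Ty

/-- The group of type `c`, as a type. -/
def GrT (c : Ty) : Type := c.grp

noncomputable instance (c : Ty) : Group (GrT c) := Subgroup.toGroup c.grp

/-- The matrix of an element of the group. -/
def GrT.mat {c : Ty} (g : GrT c) : Matrix (Fin c.N) (Fin c.N) ℂ :=
  Units.val (Subtype.val (p := fun g => g ∈ c.grp) g)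

/-- The slice of type `c`, as a type. -/
def SlT (c : Ty) : Type := c.slice

/-- The matrix of a point of the slice. -/
def SlT.mat {c : Ty} (s : SlT c) : Matrix (Fin c.N) (Fin c.N) ℂ :=
  Subtype.val (p := fun s => s ∈ c.slice) s

/-- The product `M` of the groups of the types `c i`. -/
def MG {I : Type} (c : I → Ty) : Type := ∀ i, GrT (c i)

noncomputable instance {I : Type} (c : I → Ty) : Group (MG c) := Pi.group

/-- The product of the slices. -/
def MS {I : Type} (c : I → Ty) : Type := ∀ i, SlT (c i)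

/-- The regular functions on `M`: the algebra generated by the matrix entries of the components. -/
def OM {I : Type} (c : I → Ty) : Subalgebra ℂ (MG c → ℂ) :=
  Algebra.adjoin ℂ {f | ∃ (i : I) (j k : Fin (c i).N), f = fun m => (m i).mat j k}

/-- The regular functions on the product of the slices. -/
def OSl {I : Type} (c : I → Ty) : Subalgebra ℂ (MS c → ℂ) :=
  Algebra.adjoin ℂ {f | ∃ (i : I) (j k : Fin (c i).N), f = fun s => (s i).mat j k}

/-- The centraliser in `M` of a point `s` of the slice. -/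
def cent {I : Type} (c : I → Ty) (s : MS c) : Set (MG c) :=
  {m | ∀ i, Commute (m i).mat (s i).mat}

/-- The centraliser of `s` in `G`, for central isogenies `p : M → Q` and `π : G → Q`:
`g` fixes `s` iff `π g = p m` for an `m` that commutes with `s`. -/
def centG {I : Type} (c : I → Ty) {G Q : Type} [Group G] [Group Q] (p : MG c →* Q) (π : G →* Q)
    (s : MS c) : Set G := {g | ∃ m ∈ cent c s, p m = π g}

end Pool.Agent.MTX
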