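import Pool.Agent.MTX.L10

/-! # MTX, Part F : folding (row F1)

`Fold D m` : an involution `s` of the simple roots of `D` that preserves the orientation used in the
structure constants, without edges inside its orbits; `o : Fin n → Fin m` the orbit map.
`E.sQ` : the action on `ℤ^n`; `E.sR` : on the roots; `E.sB` : on the basis of the Lie algebra (an
automorphism of the Lie algebra: `st_sB`); `E.ro` : restriction of weights to the fixed torus. -/

namespace Pool.Agent.MTX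

open Matrix
open Pool.Agent.MTD (ev ev_add ev_sub ev_neg ev_smul ev_zero ev_add_left ev_sub_left ev_neg_left
  ev_smul_left ev_zero_left ev_sum_left ev_sum ev_map ev_comm)
open Pool.Agent.MP_c45d35_ag (chi chi_add chi_mul chi_zero chi_one chi_inv chi_map)

/-- a folding datum -/
structure Fold {n : ℕ} (D : SLD n) (m : ℕ) where
  s : Fin n → Fin n
  o : Fin n → Fin m
  r : Fin m → Fin n
  s_s : ∀ i, s (s i) = i
  Tm_s : ∀ i j, D.Tm (s i) (s j) = D.Tm i j
  orth : ∀ i, s i ≠ i → D.C i (s i) = 0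
  o_r : ∀ k, o (r k) = k
  o_s : ∀ i, o (s i) = o i
  o_eq : ∀ i j, o i = o j → i = j ∨ i = s j

namespace Fold

variable {n m : ℕ} {D : SLD n} (E : Fold D m)

/-- the involution as a permutation -/
def sE : Equiv.Perm (Fin n) := ⟨E.s, E.s, E.s_s, E.s_s⟩

theorem sE_apply (i : Fin n) : E.sE i = E.s i := rfl

/-- the action on `ℤ^n` -/
def sQ (x : Fin n → ℤ) : Fin n → ℤ := fun i => x (E.s i)

theorem sQ_apply (x : Fin n → ℤ) (i : Fin n) : E.sQ x i = x (E.s i) := rfl

theorem sQ_sQ (x : Fin n → ℤ) : E.sQ (E.sQ x) = x := by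
  funext i; simp [sQ, E.s_s]

theorem sQ_add (x y : Fin n → ℤ) : E.sQ (x + y) = E.sQ x + E.sQ y := rfl
theorem sQ_sub (x y : Fin n → ℤ) : E.sQ (x - y) = E.sQ x - E.sQ y := rfl
theorem sQ_neg (x : Fin n → ℤ) : E.sQ (-x) = - E.sQ x := rfl
theorem sQ_smul (k : ℤ) (x : Fin n → ℤ) : E.sQ (k • x) = k • E.sQ x := rfl
theorem sQ_zero : E.sQ 0 = 0 := rfl

theorem sQ_inj {x y : Fin n → ℤ} (h : E.sQ x = E.sQ y) : x = y := by
  rw [← E.sQ_sQ x, h, E.sQ_sQ]

theorem sQ_al (i : Fin n) : E.sQ (D.al i).1 = (D.al (E.s i)).1 := by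
  funext j
  simp only [sQ, SLD.al_val, Pi.single_apply]
  congr 1
  exact propext ⟨fun h => by rw [← h, E.s_s], fun h => by rw [h, E.s_s]⟩

theorem C_s (i j : Fin n) : D.C (E.s i) (E.s j) = D.C i j := by
  have h := congrFun (congrFun D.Tm_add (E.s i)) (E.s j)
  have h' := congrFun (congrFun D.Tm_add i) j
  rw [Matrix.add_apply, Matrix.transpose_apply] at h h'
  rw [← h, ← h', E.Tm_s, E.Tm_s]

theorem bil_sQ (M : Matrix (Fin n) (Fin n) ℤ) (hM : ∀ i j, M (E.s i) (E.s j) = M i j)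
    (x y : Fin n → ℤ) : bil M (E.sQ x) (E.sQ y) = bil M x y := by
  unfold bil
  rw [← Equiv.sum_comp E.sE]
  refine Finset.sum_congr rfl fun i _ => ?_
  rw [← Equiv.sum_comp E.sE]
  refine Finset.sum_congr rfl fun j _ => ?_
  simp only [sE_apply, sQ, E.s_s, hM]

theorem B_sQ (x y : Fin n → ℤ) : D.B (E.sQ x) (E.sQ y) = D.B x y := E.bil_sQ _ E.C_s x y

theorem B_sQ_left (x y : Fin n → ℤ) : D.B (E.sQ x) y = D.B x (E.sQ y) := by
  rw [← E.B_sQ (E.sQ x) y, E.sQ_sQ]

theorem bb_sQ (x y : Fin n → ℤ) : D.bb (E.sQ x) (E.sQ y) = D.bb x y := E.bil_sQ _ E.Tm_s x y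

theorem eps_sQ (x y : Fin n → ℤ) : D.eps (E.sQ x) (E.sQ y) = D.eps x y := by
  unfold SLD.eps; rw [bb_sQ]

theorem ht_sQ (x : Fin n → ℤ) : SLD.ht (E.sQ x) = SLD.ht x := by
  unfold SLD.ht
  rw [← Equiv.sum_comp E.sE]
  exact Finset.sum_congr rfl fun i _ => by simp [sE_apply, sQ, E.s_s]

/-- the action on the roots -/
def sR (γ : D.Rt) : D.Rt := ⟨E.sQ γ.1, by rw [E.B_sQ]; exact γ.2⟩

theorem sR_val (γ : D.Rt) : (E.sR γ).1 = E.sQ γ.1 := rfl

theorem sR_sR (γ : D.Rt) : E.sR (E.sR γ) = γ := Subtype.ext (E.sQ_sQ γ.1)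

theorem sR_ng (γ : D.Rt) : E.sR (D.ng γ) = D.ng (E.sR γ) := rfl

theorem sR_al (i : Fin n) : E.sR (D.al i) = D.al (E.s i) := Subtype.ext (E.sQ_al i)

theorem pos_sR (γ : D.Rt) : D.Pos (E.sR γ) ↔ D.Pos γ := by
  constructor
  · intro h i
    have := h (E.s i)
    rwa [sR_val, sQ_apply, E.s_s] at this
  · exact fun h i => h (E.s i)

/-- the action on the index set of the basis -/
def sB : D.BI → D.BI
  | Sum.inl k => Sum.inl (E.s k)
  | Sum.inr γ => Sum.inr (E.sR γ)

@[simp] theorem sB_inl (k : Fin n) : E.sB (Sum.inl k) = Sum.inl (E.s k) := rfl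
@[simp] theorem sB_inr (γ : D.Rt) : E.sB (Sum.inr γ) = Sum.inr (E.sR γ) := rfl

theorem sB_sB (a : D.BI) : E.sB (E.sB a) = a := by
  rcases a with k | γ
  · simp [E.s_s]
  · simp [E.sR_sR]

/-- as a permutation -/
def eB : Equiv.Perm D.BI := ⟨E.sB, E.sB, E.sB_sB, E.sB_sB⟩

theorem eB_apply (a : D.BI) : E.eB a = E.sB a := rfl

theorem sB_inj {a c : D.BI} (h : E.sB a = E.sB c) : a = c := by
  rw [← E.sB_sB a, h, E.sB_sB]

theorem wI_sB (a : D.BI) : D.wI (E.sB a) = E.sQ (D.wI a) := by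
  rcases a with k | γ
  · rfl
  · rfl

theorem hI_sB (a : D.BI) : D.hI (E.sB a) = D.hI a := by
  unfold SLD.hI
  rw [wI_sB, ht_sQ]

theorem sR_inj {γ δ : D.Rt} (h : E.sR γ = E.sR δ) : γ = δ := by
  rw [← E.sR_sR γ, h, E.sR_sR]

/-- the structure constants are invariant -/
theorem st_sB (a c d : D.BI) : D.st (E.sB a) (E.sB c) (E.sB d) = D.st a c d := by
  rcases a with k | γ <;> rcases c with l | δ <;> rcases d with m | μ
  · rfl
  · rfl
  · rfl
  · simp only [sB_inl, sB_inr, SLD.st_lrr]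
    have h : E.sR δ = E.sR μ ↔ δ = μ := ⟨E.sR_inj, fun h => by rw [h]⟩
    simp only [h, sR_val, sQ_apply, E.s_s]
  · rfl
  · simp only [sB_inl, sB_inr, SLD.st_rlr]
    have h : E.sR γ = E.sR μ ↔ γ = μ := ⟨E.sR_inj, fun h => by rw [h]⟩
    simp only [h, sR_val, sQ_apply, E.s_s]
  · simp only [sB_inl, sB_inr, SLD.st_rrl]
    have h : (E.sR γ).1 + (E.sR δ).1 = 0 ↔ γ.1 + δ.1 = 0 := by
      rw [sR_val, sR_val, ← sQ_add]
      exact ⟨fun h => E.sQ_inj (h.trans E.sQ_zero.symm), fun h => by rw [h, sQ_zero]⟩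
    simp only [h]
    rw [sR_val, ← E.sQ_al, E.B_sQ]
  · simp only [sB_inr, SLD.st_rrr]
    have h : (E.sR γ).1 + (E.sR δ).1 = (E.sR μ).1 ↔ γ.1 + δ.1 = μ.1 := by
      rw [sR_val, sR_val, sR_val, ← sQ_add]
      exact ⟨fun h => E.sQ_inj h, fun h => by rw [h]⟩
    simp only [h]
    rw [sR_val, sR_val, E.eps_sQ]

section inv
variable {R : Type*}

/-- invariant vectors -/
def IV (X : D.BI → R) : Prop := ∀ a, X (E.sB a) = X a

/-- invariant matrices -/
def IM (g : Matrix D.BI D.BI R) : Prop := ∀ a c, g (E.sB a) (E.sB c) = g a c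

variable {E}

theorem IM.sub_eq {g : Matrix D.BI D.BI R} (h : E.IM g) : g.submatrix E.eB E.eB = g := by
  ext a c; exact h a c

theorem IM.of_sub {g : Matrix D.BI D.BI R} (h : g.submatrix E.eB E.eB = g) : E.IM g :=
  fun a c => congrFun (congrFun h a) c

theorem IM.map {S : Type*} {g : Matrix D.BI D.BI R} (h : E.IM g) (f : R → S) : E.IM (g.map f) :=
  fun a c => congrArg f (h a c)

end inv

section invR
variable {R : Type*} [CommRing R] {E}

theorem IM.one : E.IM (1 : Matrix D.BI D.BI R) := by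
  apply IM.of_sub; rw [Matrix.submatrix_one_equiv]

theorem IM.mul {g h : Matrix D.BI D.BI R} (hg : E.IM g) (hh : E.IM h) : E.IM (g * h) := by
  apply IM.of_sub
  rw [← Matrix.submatrix_mul_equiv g h _ E.eB _, hg.sub_eq, hh.sub_eq]

theorem IM.inv {g : Matrix D.BI D.BI R} (hg : E.IM g) : E.IM g⁻¹ := by
  apply IM.of_sub
  rw [← Matrix.inv_submatrix_equiv, hg.sub_eq]

theorem IM.add {g h : Matrix D.BI D.BI R} (hg : E.IM g) (hh : E.IM h) : E.IM (g + h) :=
  fun a c => by rw [Matrix.add_apply, Matrix.add_apply, hg a c, hh a c]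

theorem IM.smul {g : Matrix D.BI D.BI R} (hg : E.IM g) (r : R) : E.IM (r • g) :=
  fun a c => by rw [Matrix.smul_apply, Matrix.smul_apply, hg a c]

theorem IM.zero : E.IM (0 : Matrix D.BI D.BI R) := fun _ _ => rfl

theorem IM.sum {κ : Type*} (s : Finset κ) (f : κ → Matrix D.BI D.BI R)
    (h : ∀ i ∈ s, E.IM (f i)) : E.IM (∑ i ∈ s, f i) := by
  intro a c
  rw [Matrix.sum_apply, Matrix.sum_apply]
  exact Finset.sum_congr rfl fun i hi => h i hi a c

theorem IM.pow {g : Matrix D.BI D.BI R} (hg : E.IM g) (k : ℕ) : E.IM (g ^ k) := by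
  induction k with
  | zero => rw [pow_zero]; exact IM.one
  | succ k ih => rw [pow_succ]; exact ih.mul hg

theorem IM.expB [Algebra ℂ R] {g : Matrix D.BI D.BI R} (hg : E.IM g) : E.IM (D.expB g) :=
  IM.sum _ _ fun k _ => (hg.pow k).smul _

theorem IM.mulVec {g : Matrix D.BI D.BI R} (hg : E.IM g) {X : D.BI → R} (hX : E.IV X) :
    E.IV (g *ᵥ X) := by
  intro a
  rw [Matrix.mulVec, Matrix.mulVec, dotProduct, dotProduct, ← Equiv.sum_comp E.eB]
  exact Finset.sum_congr rfl fun c _ => by rw [eB_apply, hg, hX]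

theorem IV.ad {X : D.BI → R} (hX : E.IV X) : E.IM (D.ad X) := by
  intro a c
  rw [D.ad_apply, D.ad_apply, ← Equiv.sum_comp E.eB]
  exact Finset.sum_congr rfl fun d _ => by rw [eB_apply, hX, E.st_sB]

theorem IM.ad_inv [Algebra ℂ R] {X : D.BI → R} (h : E.IM (D.ad X)) : E.IV X := by
  have h1 : D.ad (fun a => X (E.sB a)) = D.ad X := by
    ext a c
    have h2 := h a c
    rw [D.ad_apply, ← Equiv.sum_comp E.eB] at h2
    rw [← h2, D.ad_apply]
    exact Finset.sum_congr rfl fun d _ => by rw [eB_apply, E.st_sB]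
  have h3 := D.ad_inj' h1
  exact fun a => congrFun h3 a

theorem IV.add {X Y : D.BI → R} (hX : E.IV X) (hY : E.IV Y) : E.IV (X + Y) :=
  fun a => by rw [Pi.add_apply, Pi.add_apply, hX, hY]

theorem IV.smul {X : D.BI → R} (hX : E.IV X) (r : R) : E.IV (r • X) :=
  fun a => by rw [Pi.smul_apply, Pi.smul_apply, hX]

theorem IV.sum {κ : Type*} (s : Finset κ) (f : κ → D.BI → R)
    (h : ∀ i ∈ s, E.IV (f i)) : E.IV (∑ i ∈ s, f i) := by
  intro a
  rw [Finset.sum_apply, Finset.sum_apply]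
  exact Finset.sum_congr rfl fun i hi => h i hi a

/-- the invariant elements of the Cartan subalgebra -/
theorem IV.tt {x : Fin n → R} (hx : ∀ i, x (E.s i) = x i) : E.IV (D.tt x) := by
  intro a
  rcases a with k | γ
  · exact hx k
  · rfl

/-- the vector of an orbit of roots -/
theorem er_sB (y : Fin n → ℤ) (a : D.BI) : D.er R y (E.sB a) = D.er R (E.sQ y) a := by
  rcases a with k | γ
  · rfl
  · simp only [sB_inr, SLD.er_inr, sR_val]
    have : E.sQ γ.1 = y ↔ γ.1 = E.sQ y := ⟨fun h => by rw [← h, E.sQ_sQ], fun h => by rw [h, E.sQ_sQ]⟩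
    simp only [this]

theorem IV.er {y : Fin n → ℤ} (hy : E.sQ y = y) : E.IV (D.er R y) := by
  intro a
  rw [er_sB, hy]

theorem IV.er_add (y : Fin n → ℤ) : E.IV (D.er R y + D.er R (E.sQ y)) := by
  intro a
  rw [Pi.add_apply, Pi.add_apply, er_sB, er_sB, E.sQ_sQ, add_comm]

end invR

/-! ### restriction of weights -/

/-- the restriction of a weight to the fixed torus -/
def ro (x : Fin n → ℤ) : Fin m → ℤ := fun k => ∑ i, if E.o i = k then x i else 0

theorem ro_add (x y : Fin n → ℤ) : E.ro (x + y) = E.ro x + E.ro y := by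
  funext k
  simp only [ro, Pi.add_apply, ← Finset.sum_add_distrib]
  exact Finset.sum_congr rfl fun i _ => by split_ifs <;> simp

theorem ro_smul (z : ℤ) (x : Fin n → ℤ) : E.ro (z • x) = z • E.ro x := by
  funext k
  simp only [ro, Pi.smul_apply, smul_eq_mul, Finset.mul_sum]
  exact Finset.sum_congr rfl fun i _ => by split_ifs <;> simp

theorem ro_neg (x : Fin n → ℤ) : E.ro (-x) = - E.ro x := by
  have := E.ro_smul (-1) x
  simpa using this

theorem ro_sub (x y : Fin n → ℤ) : E.ro (x - y) = E.ro x - E.ro y := by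
  rw [sub_eq_add_neg, ro_add, ro_neg, ← sub_eq_add_neg]

theorem ro_zero : E.ro 0 = 0 := by
  funext k; simp [ro]

theorem ro_sum {κ : Type*} (s : Finset κ) (f : κ → Fin n → ℤ) :
    E.ro (∑ i ∈ s, f i) = ∑ i ∈ s, E.ro (f i) := by
  classical
  induction s using Finset.induction_on with
  | empty => simp [ro_zero]
  | insert a s ha ih => rw [Finset.sum_insert ha, Finset.sum_insert ha, ro_add, ih]

theorem ro_sQ (x : Fin n → ℤ) : E.ro (E.sQ x) = E.ro x := by
  funext k
  simp only [ro]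
  rw [← Equiv.sum_comp E.sE]
  exact Finset.sum_congr rfl fun i _ => by simp only [sE_apply, sQ, E.s_s, E.o_s]

theorem ro_single (i : Fin n) : E.ro (Pi.single i 1) = Pi.single (E.o i) 1 := by
  funext k
  simp only [ro, Pi.single_apply]
  rw [Finset.sum_eq_single i]
  · simp only [if_true]
    exact if_congr eq_comm rfl rfl
  · intro j _ hj
    rw [if_neg hj]
    simp
  · intro h; exact absurd (Finset.mem_univ i) h

theorem ht_ro (x : Fin n → ℤ) : SLD.ht (E.ro x) = SLD.ht x := by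
  unfold SLD.ht ro
  rw [Finset.sum_comm]
  exact Finset.sum_congr rfl fun i _ => by simp

/-- `(ro y)(x) = y(x ∘ o)` -/
theorem ev_ro {R : Type*} [CommRing R] (y : Fin n → ℤ) (x : Fin m → R) :
    ev (E.ro y) x = ev y (fun i => x (E.o i)) := by
  unfold ev ro
  simp only [Int.cast_sum, Finset.sum_mul]
  rw [Finset.sum_comm]
  refine Finset.sum_congr rfl fun i _ => ?_
  rw [Finset.sum_eq_single (E.o i)]
  · simp
  · intro k _ hk
    rw [if_neg (Ne.symm hk)]
    simp
  · intro h; exact absurd (Finset.mem_univ _) h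

theorem zpow_sum {M : Type*} [CommGroup M] {κ : Type*} (s : Finset κ) (f : κ → ℤ) (x : M) :
    x ^ (∑ i ∈ s, f i) = ∏ i ∈ s, x ^ f i := by
  classical
  induction s using Finset.induction_on with
  | empty => simp
  | insert a s ha ih => rw [Finset.sum_insert ha, Finset.prod_insert ha, _root_.zpow_add, ih]

theorem chi_ro {M : Type*} [CommGroup M] (y : Fin n → ℤ) (t : Fin m → M) :
    chi (E.ro y) t = chi y (fun i => t (E.o i)) := by
  unfold chi ro
  simp only [zpow_sum]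
  rw [Finset.prod_comm]
  refine Finset.prod_congr rfl fun i _ => ?_
  rw [Finset.prod_eq_single (E.o i)]
  · simp
  · intro k _ hk
    rw [if_neg (Ne.symm hk)]
    simp
  · intro h; exact absurd (Finset.mem_univ _) h

end Fold

end Pool.Agent.MTX
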