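import Pool.Agent.MTX.F1

/-! # MTX, Part F : the folded root system (row F2)

`E.PF` : the positive roots of the folded system = the restrictions of the positive roots of `D`;
`E.rep β` : a root of `D` with restriction `β`; `E.hat γ` : the vector `γ` (if `s γ = γ`) or
`γ + s γ`: the coroot of the restriction of `γ`; `E.crF β` : the coroot in coordinates. -/

namespace Pool.Agent.MTX

open Matrix
open Pool.Agent.MTD (ev ev_add ev_sub ev_neg ev_smul ev_zero ev_add_left ev_sub_left ev_neg_left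
  ev_smul_left ev_zero_left ev_sum_left ev_sum ev_map ev_comm)
open Pool.Agent.MP_c45d35_ag (chi chi_add chi_mul chi_zero chi_one chi_inv chi_map)

namespace Fold

variable {n m : ℕ} {D : SLD n} (E : Fold D m)

/-- `B(x, s y) = ∑ x_i y_j C (i, s j)`, the matrix `C (i, s j)` is symmetric (`C_s`, `D.symm`), and its
diagonal is even (`2` if `s i = i`, otherwise `0` by `orth`).  So `B(x, s x)` is
`∑_i x_i² C(i, s i) + 2 ∑_{i<j} x_i x_j C(i, s j)`.  (Compare the proof of `SLD.B_even`.) -/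
theorem B_sQ_even (x : Fin n → ℤ) : Even (D.B x (E.sQ x)) := by
  conv => rw [D.eq_sum_al x]
  refine Finset.sum_induction (fun i => x i • (D.al i).1) (fun y => Even (D.B y (E.sQ y))) ?_ ?_ ?_
  · intro a b ha hb
    have h1 : D.B (a + b) (E.sQ (a + b)) = D.B a (E.sQ a) + D.B b (E.sQ b) +
        2 * D.B a (E.sQ b) := by
      rw [sQ_add, D.B_add_left, D.B_add_right, D.B_add_right, D.B_comm b (E.sQ a), E.B_sQ_left]
      ring
    show Even (D.B (a + b) (E.sQ (a + b)))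
    rw [h1]
    exact (ha.add hb).add (even_two_mul _)
  · show Even (D.B 0 (E.sQ 0))
    rw [D.B_zero_left]
    exact Even.zero
  · intro i _
    show Even (D.B (x i • (D.al i).1) (E.sQ (x i • (D.al i).1)))
    rw [sQ_smul, D.B_smul_left, D.B_smul_right, E.sQ_al, D.B_al_al]
    by_cases h : E.s i = i
    · rw [h, D.diag]
      exact ⟨x i * x i, by ring⟩
    · rw [E.orth i h]
      simp

/-- `B(γ, s γ)` is even, in `{-2, .., 2}` (`B_le_two`, `B_ge_neg_two`), `2` iff `s γ = γ`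
(`eq_of_B_two`); `-2` would give `γ = - s γ` (`eq_of_B_neg_two`), impossible by `pos_sR`,
`pos_or_neg`, `not_pos_ng`. -/
theorem sR_cases (γ : D.Rt) : E.sR γ = γ ∨ D.B γ.1 (E.sQ γ.1) = 0 := by
  have hneg : ∀ δ : D.Rt, E.sR δ ≠ D.ng δ := by
    intro δ h
    rcases D.pos_or_neg δ with h1 | h1
    · have h2 := (E.pos_sR δ).2 h1
      rw [h] at h2
      exact D.not_pos_ng h1 h2
    · have h2 := (E.pos_sR (D.ng δ)).2 h1
      rw [E.sR_ng, h] at h2
      exact D.not_pos_ng h1 h2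
  obtain ⟨k, hk⟩ := E.B_sQ_even γ.1
  have h1 : D.B γ.1 (E.sQ γ.1) ≤ 2 := D.B_le_two γ (E.sR γ)
  have h2 : -2 ≤ D.B γ.1 (E.sQ γ.1) := D.B_ge_neg_two γ (E.sR γ)
  have h3 : D.B γ.1 (E.sQ γ.1) = 2 ∨ D.B γ.1 (E.sQ γ.1) = 0 ∨ D.B γ.1 (E.sQ γ.1) = -2 := by omega
  rcases h3 with h3 | h3 | h3
  · left
    exact (D.eq_of_B_two (γ := γ) (δ := E.sR γ) h3).symm
  · right; exact h3
  · exfalso
    have h4 := D.eq_of_B_neg_two (γ := γ) (δ := E.sR γ) h3
    apply hneg γ
    apply D.Rt_ext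
    have h5 : γ.1 = - E.sQ γ.1 := congrArg Subtype.val h4
    show E.sQ γ.1 = - γ.1
    exact (neg_eq_iff_eq_neg.2 h5).symm

open Classical in
/-- the coroot vector -/
noncomputable def hat (γ : D.Rt) : Fin n → ℤ := if E.sR γ = γ then γ.1 else γ.1 + E.sQ γ.1

theorem hat_fix {γ : D.Rt} (h : E.sR γ = γ) : E.hat γ = γ.1 := by
  unfold hat; rw [if_pos h]

theorem hat_ne {γ : D.Rt} (h : E.sR γ ≠ γ) : E.hat γ = γ.1 + E.sQ γ.1 := by
  unfold hat; rw [if_neg h]

theorem sQ_hat (γ : D.Rt) : E.sQ (E.hat γ) = E.hat γ := by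
  by_cases h : E.sR γ = γ
  · rw [E.hat_fix h]; exact congrArg Subtype.val h
  · rw [E.hat_ne h, sQ_add, sQ_sQ, add_comm]

theorem hat_sR (γ : D.Rt) : E.hat (E.sR γ) = E.hat γ := by
  by_cases h : E.sR γ = γ
  · rw [h]
  · have h' : E.sR (E.sR γ) ≠ E.sR γ := fun h1 => h (E.sR_inj h1)
    rw [E.hat_ne h, E.hat_ne h', sR_val, sQ_sQ, add_comm]

theorem B_hat_self (γ : D.Rt) : D.B (E.hat γ) γ.1 = 2 := by
  by_cases h : E.sR γ = γ
  · rw [E.hat_fix h, γ.2]
  · rw [E.hat_ne h, D.B_add_left, γ.2, E.B_sQ_left, (E.sR_cases γ).resolve_left h, add_zero]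

/-- `x_i + x_{s i} = (1 or 2) * (ro x)_{o i}`: the sum over the orbit `{i, s i}` (`o_eq`). -/
theorem add_sQ (x : Fin n → ℤ) (i : Fin n) :
    x i + E.sQ x i = (if E.s i = i then 2 else 1) * E.ro x (E.o i) := by
  unfold ro
  by_cases h : E.s i = i
  · rw [if_pos h, Finset.sum_eq_single i]
    · rw [if_pos rfl, sQ_apply, h]; ring
    · intro j _ hj
      rw [if_neg]
      intro h1
      rcases E.o_eq j i h1 with h2 | h2
      · exact hj h2
      · exact hj (h2.trans h)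
    · intro h1; exact absurd (Finset.mem_univ i) h1
  · rw [if_neg h, one_mul, Finset.sum_eq_add i (E.s i) (Ne.symm h)]
    · rw [if_pos rfl, if_pos (E.o_s i), sQ_apply]
    · intro j _ hj
      rw [if_neg]
      intro h1
      rcases E.o_eq j i h1 with h2 | h2
      · exact hj.1 h2
      · exact hj.2 h2
    · intro h1; exact absurd (Finset.mem_univ _) h1
    · intro h1; exact absurd (Finset.mem_univ _) h1

/-- from `add_sQ` -/
theorem sym_of_ro {x y : Fin n → ℤ} (h : E.ro x = E.ro y) : x + E.sQ x = y + E.sQ y := by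
  funext i
  have h1 := E.add_sQ x i
  have h2 := E.add_sQ y i
  rw [h, ← h2] at h1
  exact h1

/-- `(1 or 2) * ro x (o i) = 0`; every `k` is `o (r k)` -/
theorem ro_zero_of {x : Fin n → ℤ} (h : x + E.sQ x = 0) : E.ro x = 0 := by
  funext k
  have h1 := E.add_sQ x (E.r k)
  rw [show x (E.r k) + E.sQ x (E.r k) = 0 from congrFun h (E.r k), E.o_r] at h1
  rcases mul_eq_zero.1 h1.symm with h2 | h2
  · split_ifs at h2 <;> norm_num at h2
  · exact h2

/-- `|γ + s γ|²` is `8` or `4` -/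
theorem norm_sym (γ : D.Rt) : D.B (γ.1 + E.sQ γ.1) (γ.1 + E.sQ γ.1) =
    4 + 2 * D.B γ.1 (E.sQ γ.1) := by
  rw [D.B_add_left, D.B_add_right, D.B_add_right, γ.2, E.B_sQ, γ.2, D.B_comm (E.sQ γ.1) γ.1]
  ring

/-- Two positive roots with the same restriction are equal or exchanged by `s`.
`γ + sγ = δ + sδ` (`sym_of_ro`).  The norms agree, so `B(γ,sγ) = B(δ,sδ)`.
`B(γ, δ) + B(γ, sδ) = B(γ, γ + sγ) = 2 + B(γ,sγ)`.  If this is `4` then `B(γ,δ) = 2`, `γ = δ`.  If it is `2`: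
one of the two is `2` (done: `eq_of_B_two`), or both are `1` (`B_le_one`), and then `γ - δ` is a root
(`subR`) with `s(γ - δ) = -(γ - δ)`: impossible by `pos_sR`, `pos_or_neg`, `not_pos_ng`. -/
theorem ro_eq {γ δ : D.Rt} (h : E.ro γ.1 = E.ro δ.1) :
    δ = γ ∨ δ = E.sR γ := by
  have hs := E.sym_of_ro h
  have hneg : ∀ δ : D.Rt, E.sR δ ≠ D.ng δ := by
    intro δ h
    rcases D.pos_or_neg δ with h1 | h1
    · have h2 := (E.pos_sR δ).2 h1
      rw [h] at h2
      exact D.not_pos_ng h1 h2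
    · have h2 := (E.pos_sR (D.ng δ)).2 h1
      rw [E.sR_ng, h] at h2
      exact D.not_pos_ng h1 h2
  have n1 := E.norm_sym γ
  have n2 := E.norm_sym δ
  rw [hs, n2] at n1
  have hBB : D.B γ.1 (E.sQ γ.1) = D.B δ.1 (E.sQ δ.1) := by linarith
  have h1 : D.B γ.1 δ.1 + D.B γ.1 (E.sQ δ.1) = 2 + D.B γ.1 (E.sQ γ.1) := by
    rw [← D.B_add_right, ← hs, D.B_add_right, γ.2]
  have h2 : D.B γ.1 δ.1 ≤ 2 := D.B_le_two γ δ
  have h3 : D.B γ.1 (E.sQ δ.1) ≤ 2 := D.B_le_two γ (E.sR δ)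
  by_cases h4 : D.B γ.1 δ.1 = 2
  · left; exact (D.eq_of_B_two h4).symm
  by_cases h5 : D.B γ.1 (E.sQ δ.1) = 2
  · right
    have h6 : γ = E.sR δ := D.eq_of_B_two (γ := γ) (δ := E.sR δ) h5
    rw [h6, E.sR_sR]
  exfalso
  rcases E.sR_cases γ with hc | hc
  · have h6 : E.sQ γ.1 = γ.1 := congrArg Subtype.val hc
    rw [h6, γ.2] at h1
    omega
  · rw [hc] at h1
    have h7 : D.B γ.1 δ.1 = 1 := by omega
    apply hneg (D.subR γ δ h7)
    apply D.Rt_ext
    show E.sQ (γ.1 - δ.1) = - (γ.1 - δ.1)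
    rw [sQ_sub]
    have h8 : E.sQ γ.1 - E.sQ δ.1 + (γ.1 - δ.1) = 0 := by
      have : E.sQ γ.1 - E.sQ δ.1 + (γ.1 - δ.1) = (γ.1 + E.sQ γ.1) - (δ.1 + E.sQ δ.1) := by abel
      rw [this, hs, sub_self]
    exact eq_neg_of_add_eq_zero_left h8

/-- `a ro γ = b ro δ`, so `a (γ + sγ) = b (δ + sδ)` (`ro_smul`, `sym_of_ro` for the multiples), with norms
`a² n = b² n'`, `n, n' ∈ {4, 8}`.  If `n ≠ n'`: `2 a² = b²` or `a² = 2 b²`, so `a = b = 0` (`√2` is
irrational).  If `n = n'`: `a = ± b`; `a = b ≠ 0` gives `γ + sγ = δ + sδ`, hence `ro γ = ro δ`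
(`ro_zero_of` for the difference); `a = - b ≠ 0` is impossible (positive coordinates, nonzero norm). -/
theorem indep {γ δ : D.Rt} (hγ : D.Pos γ) (hδ : D.Pos δ) {a b : ℤ} (hne : E.ro γ.1 ≠ E.ro δ.1)
    (h : a • E.ro γ.1 = b • E.ro δ.1) : a = 0 ∧ b = 0 := by
  classical
  have h1 : a • (γ.1 + E.sQ γ.1) = b • (δ.1 + E.sQ δ.1) := by
    have h2 : E.ro (a • γ.1) = E.ro (b • δ.1) := by rw [ro_smul, ro_smul, h]
    have h3 := E.sym_of_ro h2
    rw [sQ_smul, sQ_smul, ← smul_add, ← smul_add] at h3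
    exact h3
  have hn : a * a * (4 + 2 * D.B γ.1 (E.sQ γ.1)) = b * b * (4 + 2 * D.B δ.1 (E.sQ δ.1)) := by
    rw [← E.norm_sym γ, ← E.norm_sym δ]
    have h2 := congrArg (fun v => D.B v v) h1
    simp only [D.B_smul_left, D.B_smul_right] at h2
    linarith
  have hcase : ∀ γ : D.Rt, D.B γ.1 (E.sQ γ.1) = 2 ∨ D.B γ.1 (E.sQ γ.1) = 0 := by
    intro γ
    rcases E.sR_cases γ with h | h
    · left
      have h1 : E.sQ γ.1 = γ.1 := congrArg Subtype.val h
      rw [h1, γ.2]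
    · right; exact h
  have irr : ∀ x y : ℤ, x * x = 2 * (y * y) → x = 0 ∧ y = 0 := by
    intro x y hxy
    by_contra hcon
    have hy : y ≠ 0 := by
      rintro rfl
      apply hcon
      refine ⟨?_, rfl⟩
      have : x * x = 0 := by rw [hxy]; ring
      exact mul_self_eq_zero.1 this
    have h2 : Irrational (Real.sqrt 2) := irrational_sqrt_two
    apply h2
    refine ⟨|(x : ℚ) / y|, ?_⟩
    have h3 : ((x : ℝ) / y) ^ 2 = 2 := by
      have hy' : (y : ℝ) ≠ 0 := by exact_mod_cast hy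
      have : (x : ℝ) * x = 2 * (y * y) := by exact_mod_cast hxy
      field_simp
      linarith
    rw [← h3, Real.sqrt_sq_eq_abs]
    push_cast
    rfl
  have same : a * a = b * b → a = 0 ∧ b = 0 := by
    intro h2
    have ha : a = b ∨ a = -b := mul_self_eq_mul_self_iff.1 h2
    by_cases hb : b = 0
    · subst hb
      simpa using ha
    exfalso
    rcases ha with rfl | rfl
    · -- equal
      have h3 : γ.1 + E.sQ γ.1 = δ.1 + E.sQ δ.1 := smul_right_injective _ hb h1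
      apply hne
      have h4 : (γ.1 - δ.1) + E.sQ (γ.1 - δ.1) = 0 := by
        rw [sQ_sub]
        have : γ.1 - δ.1 + (E.sQ γ.1 - E.sQ δ.1) = (γ.1 + E.sQ γ.1) - (δ.1 + E.sQ δ.1) := by abel
        rw [this, h3, sub_self]
      have h5 := E.ro_zero_of h4
      rw [ro_sub] at h5
      exact sub_eq_zero.1 h5
    · have h3 : -(γ.1 + E.sQ γ.1) = δ.1 + E.sQ δ.1 := by
        apply smul_right_injective _ hb
        show b • (-(γ.1 + E.sQ γ.1)) = b • (δ.1 + E.sQ δ.1)
        rw [← h1, smul_neg, neg_smul]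
      have h4 : γ.1 = 0 := by
        funext i
        have e1 := congrFun h3 i
        have p1 := hγ i
        have p2 := hγ (E.s i)
        have p3 := hδ i
        have p4 := hδ (E.s i)
        simp only [Pi.neg_apply, Pi.add_apply, sQ_apply] at e1
        show γ.1 i = 0
        linarith
      exact D.Rt_ne_zero γ h4
  rcases hcase γ with hg | hg <;> rcases hcase δ with hd | hd <;> rw [hg, hd] at hn
  · apply same; linarith
  · obtain ⟨h2, h3⟩ := irr b a (by linarith)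
    exact ⟨h3, h2⟩
  · obtain ⟨h2, h3⟩ := irr a b (by linarith)
    exact ⟨h2, h3⟩
  · apply same; linarith

/-- lifting a weight of the fixed torus: supported on the representatives `r k` -/
def li (μ : Fin m → ℤ) : Fin n → ℤ := fun i => if E.r (E.o i) = i then μ (E.o i) else 0

/-- in the sum over the fibre of `k` only `i = r k` contributes (`o_r`) -/
theorem ro_li (μ : Fin m → ℤ) : E.ro (E.li μ) = μ := by
  funext k
  unfold ro li
  rw [Finset.sum_eq_single (E.r k)]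
  · rw [if_pos (E.o_r k), E.o_r, if_pos rfl]
  · intro j _ hj
    split_ifs with h1 h2
    · exfalso; apply hj; rw [← h2, h1]
    · rfl
    · rfl
  · intro h1; exact absurd (Finset.mem_univ _) h1

/-- a fixed root has an odd coordinate at a fixed vertex -/
theorem f2c_odd (γ : D.Rt) (hs : E.sR γ = γ) (hev : ∀ i, E.s i = i → Even (γ.1 i)) : False := by
  classical
  let v : Fin n → ℤ := fun i => if E.s i = i then γ.1 i / 2 else 0
  let u : Fin n → ℤ := fun i => if E.s i ≠ i ∧ E.r (E.o i) = i then γ.1 i else 0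
  have hsx : ∀ i, γ.1 (E.s i) = γ.1 i := fun i => congrFun (congrArg Subtype.val hs) i
  have hdec : γ.1 = u + E.sQ u + (2 : ℤ) • v := by
    funext i
    simp only [Pi.add_apply, sQ_apply, Pi.smul_apply, smul_eq_mul, u, v, E.s_s, E.o_s]
    by_cases h : E.s i = i
    · rw [if_pos h, if_neg (fun h' => h'.1 h), if_neg (fun h' => h'.1 h.symm)]
      obtain ⟨k, hk⟩ := hev i h
      omega
    · rw [if_neg h]
      rcases E.o_eq (E.r (E.o i)) i (by rw [E.o_r]) with h1 | h1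
      · rw [if_pos ⟨h, h1⟩, if_neg (fun h' => h (h'.2.symm.trans h1))]
        ring
      · rw [if_neg (fun h' => h (h1.symm.trans h'.2)), if_pos ⟨fun h' => h h'.symm, h1⟩, hsx]
        ring
  have h2 : D.B γ.1 γ.1 = 2 := γ.2
  rw [hdec] at h2
  have key : D.B (u + E.sQ u + (2 : ℤ) • v) (u + E.sQ u + (2 : ℤ) • v) =
      2 * D.B u u + 2 * D.B u (E.sQ u) + 4 * D.B (u + E.sQ u) v + 4 * D.B v v := by
    simp only [D.B_add_left, D.B_add_right, D.B_smul_left, D.B_smul_right, E.B_sQ]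
    rw [D.B_comm (E.sQ u) u, D.B_comm v u, D.B_comm v (E.sQ u)]
    ring
  obtain ⟨a, ha⟩ := D.B_even u
  obtain ⟨b, hb⟩ := E.B_sQ_even u
  rw [key, ha, hb] at h2
  omega

/-- Restrictions of roots are primitive.
Let `g` be the gcd of the entries of `β = ro γ` (a generator of the ideal they generate), `β = g z`.  Then
`(γ + sγ)_i = (1 or 2) g z_{o i}` (`add_sQ`), so `γ + sγ = g y`, and `g² B(y,y) = 4 + 2 B(γ,sγ) ∈ {4, 8}`,
`B(y,y) ≥ 2` (`two_le_B`, `y ≠ 0`) .
If it is `4`: `g² ≤ 2`, `g = ±1`.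
If it is `8`: `sγ = γ`, `g² ≤ 4`.  Suppose `g = ±2`, i.e. all `β_k` are even; for a fixed `i` (`s i = i`)
`β_{o i} = γ_i`, so `γ_i` is even.  Put `v_i = γ_i / 2` for fixed `i`, `0` otherwise, `u_i = γ_i` for
non-fixed `i = r (o i)`, `0` otherwise: `γ = u + s u + 2 v`, so
`2 = B(γ,γ) = 2 B(u,u) + 2 B(u, su) + 4 B(u + su, v) + 4 B(v,v)` is divisible by `4` (`B_even`,
`B_sQ_even`): contradiction.  So `g = ±1` and Bézout gives `c`. -/
theorem prim (γ : D.Rt) : ∃ c : Fin m → ℤ, ev c (E.ro γ.1) = 1 := by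
  classical
  obtain ⟨g, hg⟩ := (IsPrincipalIdealRing.principal
    (Ideal.span (Set.range (E.ro γ.1)))).principal
  have hdvd : ∀ k, ∃ z, E.ro γ.1 k = g * z := by
    intro k
    have h1 : E.ro γ.1 k ∈ Ideal.span (Set.range (E.ro γ.1)) := Ideal.subset_span ⟨k, rfl⟩
    rw [hg] at h1
    exact Ideal.mem_span_singleton.1 h1
  choose z hz using hdvd
  obtain ⟨c, hc⟩ : ∃ c : Fin m → ℤ, ev c (E.ro γ.1) = g := by
    have h1 : g ∈ Ideal.span (Set.range (E.ro γ.1)) := by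
      rw [hg]
      exact Submodule.mem_span_singleton_self g
    obtain ⟨c, hc⟩ := (Submodule.mem_span_range_iff_exists_fun ℤ).1 h1
    refine ⟨c, ?_⟩
    rw [← hc]
    simp [ev]
  have hfin : g * g = 1 → ∃ c : Fin m → ℤ, ev c (E.ro γ.1) = 1 := by
    intro hgg
    refine ⟨g • c, ?_⟩
    rw [ev_smul_left, hc]
    simpa using hgg
  let y : Fin n → ℤ := fun i => (if E.s i = i then 2 else 1) * z (E.o i)
  have hy : γ.1 + E.sQ γ.1 = g • y := by
    funext i
    have h1 := E.add_sQ γ.1 i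
    rw [Pi.add_apply, h1, hz, Pi.smul_apply, smul_eq_mul]
    ring
  have hn := E.norm_sym γ
  rw [hy, D.B_smul_left, D.B_smul_right] at hn
  have hy0 : y ≠ 0 := by
    intro h0
    rw [h0, D.B_zero_left, mul_zero, mul_zero] at hn
    rcases E.sR_cases γ with h | h
    · have h1 : E.sQ γ.1 = γ.1 := congrArg Subtype.val h
      rw [h1, γ.2] at hn
      norm_num at hn
    · rw [h] at hn
      norm_num at hn
  have hB := D.two_le_B hy0
  have hg0 : g ≠ 0 := by
    rintro rfl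
    rw [zero_mul] at hn
    rcases E.sR_cases γ with h | h
    · have h1 : E.sQ γ.1 = γ.1 := congrArg Subtype.val h
      rw [h1, γ.2] at hn
      norm_num at hn
    · rw [h] at hn
      norm_num at hn
  have hgpos : 1 ≤ g * g := by
    have : 0 < g * g := mul_self_pos.2 hg0
    omega
  rcases E.sR_cases γ with h | h
  · have h1 : E.sQ γ.1 = γ.1 := congrArg Subtype.val h
    rw [h1, γ.2] at hn
    have hg4 : g * g ≤ 4 := by nlinarith
    have hgle : g ≤ 2 := by nlinarith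
    have hgge : -2 ≤ g := by nlinarith
    by_cases h4 : g * g = 1
    · exact hfin h4
    · exfalso
      have hg2 : g = 2 ∨ g = -2 := by
        have : g ≠ 1 := by rintro rfl; exact h4 rfl
        have : g ≠ -1 := by rintro rfl; exact h4 rfl
        omega
      refine E.f2c_odd γ h ?_
      intro i hi
      have h2 := E.add_sQ γ.1 i
      rw [if_pos hi, h1, hz] at h2
      rcases hg2 with rfl | rfl
      · exact ⟨z (E.o i), by linarith⟩
      · exact ⟨-z (E.o i), by linarith⟩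
  · rw [h] at hn
    have hg2 : g * g ≤ 2 := by nlinarith
    have hgle : g ≤ 1 := by nlinarith
    have hgge : -1 ≤ g := by nlinarith
    apply hfin
    have : g = 1 ∨ g = -1 := by omega
    rcases this with rfl | rfl <;> norm_num

/-! ### the positive roots of the folded system -/

/-- the positive roots of the folded system -/
abbrev PF := {y : Fin m → ℤ // ∃ γ : D.Rt, D.Pos γ ∧ E.ro γ.1 = y}

instance : Finite E.PF := by
  have : Function.Surjective (fun γ : {γ : D.Rt // D.Pos γ} =>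
      (⟨E.ro γ.1.1, γ.1, γ.2, rfl⟩ : E.PF)) := by
    rintro ⟨y, γ, h, rfl⟩
    exact ⟨⟨γ, h⟩, rfl⟩
  exact Finite.of_surjective _ this

noncomputable instance : Fintype E.PF := Fintype.ofFinite _

/-- restriction of a positive root -/
def rp (γ : D.Rt) (h : D.Pos γ) : E.PF := ⟨E.ro γ.1, γ, h, rfl⟩

/-- a representative -/
noncomputable def rep (β : E.PF) : D.Rt := β.2.choose

theorem rep_pos (β : E.PF) : D.Pos (E.rep β) := β.2.choose_spec.1

theorem ro_rep (β : E.PF) : E.ro (E.rep β).1 = β.1 := β.2.choose_spec.2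

/-- the roots over `β` -/
theorem fib (β : E.PF) (γ : D.Rt) (h : E.ro γ.1 = β.1) : γ = E.rep β ∨ γ = E.sR (E.rep β) :=
  E.ro_eq (by rw [E.ro_rep, h])

theorem hat_of {β : E.PF} {γ : D.Rt} (h : E.ro γ.1 = β.1) : E.hat γ = E.hat (E.rep β) := by
  rcases E.fib β γ h with h1 | h1
  · rw [h1]
  · rw [h1, hat_sR]

/-- the coroot of `β` -/
noncomputable def crF (β : E.PF) : Fin m → ℤ := fun k => D.B (D.al (E.r k)).1 (E.hat (E.rep β))

theorem crF_o (β : E.PF) (i : Fin n) : E.crF β (E.o i) = D.B (D.al i).1 (E.hat (E.rep β)) := by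
  unfold crF
  rcases E.o_eq (E.r (E.o i)) i (by rw [E.o_r]) with h | h
  · rw [h]
  · rw [h, ← E.sQ_al, E.B_sQ_left, E.sQ_hat]

/-- `ev (crF β) (ro y) = ∑_k crF β k * ∑_{o i = k} y i = ∑_i y i * B(α_i, hat) = B(y, hat)`
(`crF_o`, `B_coord`) -/
theorem ev_crF (β : E.PF) (y : Fin n → ℤ) : ev (E.crF β) (E.ro y) = D.B y (E.hat (E.rep β)) := by
  rw [ev_comm, ev_ro, D.B_coord y]
  unfold ev
  refine Finset.sum_congr rfl fun i _ => ?_
  beta_reduce
  rw [E.crF_o, Int.cast_id]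

theorem ev_crF_rt (β : E.PF) : ev (E.crF β) β.1 = 2 := by
  rw [← E.ro_rep β, ev_crF, D.B_comm, B_hat_self]

/-- `y = li μ`: `B(y, hat (α_i)) = 0` for all `i` (`hat_of`), and `hat (α_i)` is `α_i` or `α_i + α_{s i}`, so
`B(α_i, y + s y) = 0` for all `i` in both cases; so `y + s y = 0` (`B_nondeg`, `B_coord`), `ro_zero_of`. -/
theorem crF_sep (μ : Fin m → ℤ) (h : ∀ β, ev (E.crF β) μ = 0) : μ = 0 := by
  have h0 : E.ro (E.li μ) = μ := E.ro_li μ
  have h1 : ∀ i : Fin n, D.B (E.li μ + E.sQ (E.li μ)) (D.al i).1 = 0 := by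
    intro i
    have h2 := h (E.rp (D.al i) (D.pos_al i))
    rw [← h0, E.ev_crF, ← E.hat_of (β := E.rp (D.al i) (D.pos_al i)) (γ := D.al i) rfl] at h2
    rw [D.B_add_left, E.B_sQ_left]
    by_cases h3 : E.sR (D.al i) = D.al i
    · rw [E.hat_fix h3] at h2
      have h4 : E.sQ (D.al i).1 = (D.al i).1 := congrArg Subtype.val h3
      rw [h4, h2, add_zero]
    · rw [E.hat_ne h3, D.B_add_right] at h2
      exact h2
  have h2 : E.li μ + E.sQ (E.li μ) = 0 := by
    apply D.B_nondeg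
    intro y
    rw [D.B_comm, D.B_coord]
    refine Finset.sum_eq_zero fun i _ => ?_
    rw [D.B_comm, h1, mul_zero]
  rw [← h0]
  exact E.ro_zero_of h2

/-- the isometry that realises the reflection in `β` -/
noncomputable def wF (β : E.PF) : D.OQ := by
  classical
  exact if E.sR (E.rep β) = E.rep β then D.rO (E.rep β) else D.rO (E.rep β) * D.rO (E.sR (E.rep β))

theorem wF_mem (β : E.PF) : E.wF β ∈ D.W := by
  unfold wF
  split_ifs
  · exact D.rO_mem _
  · exact D.W.mul_mem (D.rO_mem _) (D.rO_mem _)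

/-- `wF β y = y - B(b, y) b` or `y - B(b, y) b - B(s b, y) s b` with `b = rep β` (`B(b, s b) = 0`) -/
theorem wF_apply (β : E.PF) (y : Fin n → ℤ) : (E.wF β).1 y =
    if E.sR (E.rep β) = E.rep β then y - D.B (E.rep β).1 y • (E.rep β).1
    else y - D.B (E.rep β).1 y • (E.rep β).1 - D.B (E.sQ (E.rep β).1) y • E.sQ (E.rep β).1 := by
  unfold wF
  split_ifs with h
  · rfl
  · show D.rf (E.rep β) (D.rf (E.sR (E.rep β)) y) = _
    have h0 := (E.sR_cases (E.rep β)).resolve_left h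
    rw [SLD.rf_val, SLD.rf_val, sR_val, D.B_sub_right, D.B_smul_right, h0, mul_zero, sub_zero]
    abel

/-- `ro (wF β y) = ro y - B(y, hat b) β` (`wF_apply`, `ro_sQ`) -/
theorem ro_wF (β : E.PF) (y : Fin n → ℤ) :
    E.ro ((E.wF β).1 y) = E.ro y - D.B y (E.hat (E.rep β)) • β.1 := by
  rw [wF_apply]
  split_ifs with h
  · rw [ro_sub, ro_smul, E.ro_rep, E.hat_fix h, D.B_comm y]
  · rw [ro_sub, ro_sub, ro_smul, ro_smul, ro_sQ, E.ro_rep, E.hat_ne h, D.B_add_right, add_smul,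
      D.B_comm y, D.B_comm y]
    abel

/-- `wF β` commutes with `s` -/
theorem sQ_wF (β : E.PF) (y : Fin n → ℤ) : E.sQ ((E.wF β).1 y) = (E.wF β).1 (E.sQ y) := by
  rw [wF_apply, wF_apply]
  split_ifs with h
  · have h' : E.sQ (E.rep β).1 = (E.rep β).1 := congrArg Subtype.val h
    rw [sQ_sub, sQ_smul, ← E.B_sQ_left, h']
  · rw [sQ_sub, sQ_sub, sQ_smul, sQ_smul, sQ_sQ, E.B_sQ, ← E.B_sQ_left]
    abel

/-- the inverse of `wF β` is `wF β` -/
theorem wF_inv (β : E.PF) : (E.wF β)⁻¹ = E.wF β := by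
  unfold wF
  split_ifs with h
  · exact D.rO_inv _
  · have h0 := (E.sR_cases (E.rep β)).resolve_left h
    rw [_root_.mul_inv_rev, D.rO_inv, D.rO_inv]
    refine Subtype.ext (LinearEquiv.ext fun y => ?_)
    show D.rf (E.sR (E.rep β)) (D.rf (E.rep β) y) = D.rf (E.rep β) (D.rf (E.sR (E.rep β)) y)
    rw [SLD.rf_val, SLD.rf_val, SLD.rf_val, SLD.rf_val, sR_val, D.B_sub_right, D.B_smul_right,
      D.B_sub_right, D.B_smul_right, h0, D.B_comm (E.sQ (E.rep β).1) (E.rep β).1, h0, mul_zero,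
      sub_zero, mul_zero, sub_zero]
    abel

/-- The action on the Cartan subalgebra: for `x' = x ∘ o`, `x : Fin m → R`:
`tact (wF β) x' = (x - β(x) crF β) ∘ o`.  `tact u x' i = ev (u⁻¹ α_i) x' = ev (ro (u⁻¹ α_i)) x` (`ev_ro`), `wF_inv`,
`ro_wF`, `crF_o`, `ro_single`. -/
theorem tact_wF {R : Type*} [CommRing R] (β : E.PF) (x : Fin m → R) (i : Fin n) :
    D.tact (E.wF β) (fun j => x (E.o j)) i = x (E.o i) - ev β.1 x * (E.crF β (E.o i) : R) := by
  show ev ((E.wF β)⁻¹.1 (D.al i).1) (fun j => x (E.o j)) = _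
  rw [wF_inv, ← E.ev_ro, ro_wF, ev_sub_left, ev_smul_left, E.crF_o,
    show E.ro (D.al i).1 = Pi.single (E.o i) 1 from E.ro_single i]
  have h1 : ev (Pi.single (E.o i) (1 : ℤ)) x = x (E.o i) := by
    simp [ev, Pi.single_apply]
  rw [h1]
  ring

/-- the reflection permutes the roots up to sign (`ro_wF` for `y = rep γ`; `wF β` permutes the roots;
`pos_or_neg`) -/
theorem refl_PF (β γ : E.PF) : ∃ γ' : E.PF, γ.1 - ev (E.crF β) γ.1 • β.1 = γ'.1 ∨
    γ.1 - ev (E.crF β) γ.1 • β.1 = - γ'.1 := by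
  have h1 : γ.1 - ev (E.crF β) γ.1 • β.1 = E.ro (E.wF β • E.rep γ).1 := by
    rw [D.smul_val, E.ro_wF, ← E.ev_crF, E.ro_rep]
  rcases D.pos_or_neg (E.wF β • E.rep γ) with h | h
  · exact ⟨E.rp _ h, Or.inl h1⟩
  · refine ⟨E.rp _ h, Or.inr ?_⟩
    rw [h1]
    show E.ro (E.wF β • E.rep γ).1 = - E.ro (D.ng (E.wF β • E.rep γ)).1
    rw [SLD.ng_val, E.ro_neg, neg_neg]

/-- positive roots are lexicographically positive: all entries `≥ 0`, sum of the entries is
`ht γ ≥ 1` (`ht_ro`, `ht_pos`) -/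
theorem lexpos (β : E.PF) : 0 < toLex β.1 := by
  obtain ⟨y, γ, hγ, rfl⟩ := β
  have h1 : ∀ k, 0 ≤ E.ro γ.1 k := fun k => by
    unfold ro
    refine Finset.sum_nonneg fun i _ => ?_
    split_ifs
    · exact hγ i
    · exact le_rfl
  have h2 : E.ro γ.1 ≠ 0 := fun h => by
    have h3 := D.ht_pos hγ
    rw [← E.ht_ro, h] at h3
    have h4 : SLD.ht (0 : Fin m → ℤ) = 0 := by simp [SLD.ht]
    omega
  exact Pi.toLex_strictMono (lt_of_le_of_ne h1 (Ne.symm h2))

/-- the root multiples on the line of `β` (`prim`) -/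
theorem line (β : E.PF) (ν : Fin m → ℤ) (h : ∃ a b : ℤ, a ≠ 0 ∧ a • ν = b • β.1) :
    ∃ k : ℤ, ν = k • β.1 := by
  obtain ⟨c, hc⟩ := E.prim (E.rep β)
  rw [E.ro_rep] at hc
  obtain ⟨a, b, ha, hab⟩ := h
  refine ⟨ev c ν, ?_⟩
  have h1 : a * ev c ν = b := by
    have := congrArg (ev c) hab
    rw [ev_smul, ev_smul, hc] at this
    simpa using this
  have h2 : a • ν = a • (ev c ν • β.1) := by rw [hab, smul_smul, h1]
  exact smul_right_injective _ ha h2

end Fold

end Pool.Agent.MTX
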