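import Pool.Agent.MTX.F2

/-! # MTX, Part F : the folded group (row F3)

`IsGs E F g` : `g` is an `R`-point of the adjoint group commuting with the diagram automorphism. -/

namespace Pool.Agent.MTX

open Matrix
open Pool.Agent.MTD (ev ev_add ev_sub ev_neg ev_smul ev_zero ev_add_left ev_sub_left ev_neg_left
  ev_smul_left ev_zero_left ev_sum_left ev_sum ev_map ev_comm)
open Pool.Agent.MP_c45d35_ag (chi chi_add chi_mul chi_zero chi_one chi_inv chi_map)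

variable {n m : ℕ} {D : SLD n}

/-- `R`-points of the folded group -/
structure IsGs (E : Fold D m) (F : Frm D) {R : Type*} [CommRing R] [Algebra ℂ R]
    (g : Matrix D.BI D.BI R) : Prop where
  gp : IsGp F g
  im : E.IM g

namespace IsGs

variable {E : Fold D m} {F : Frm D} {R : Type*} [CommRing R] [Algebra ℂ R]

theorem one : IsGs E F (1 : Matrix D.BI D.BI R) := ⟨IsGp.one, Fold.IM.one⟩

theorem mul {g h : Matrix D.BI D.BI R} (hg : IsGs E F g) (hh : IsGs E F h) : IsGs E F (g * h) :=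
  ⟨hg.gp.mul hh.gp, hg.im.mul hh.im⟩

theorem inv {g : Matrix D.BI D.BI R} (hg : IsGs E F g) : IsGs E F g⁻¹ := ⟨hg.gp.inv, hg.im.inv⟩

theorem map {S : Type*} [CommRing S] [Algebra ℂ S] (φ : R →ₐ[ℂ] S) {g : Matrix D.BI D.BI R}
    (hg : IsGs E F g) : IsGs E F (g.map φ) := ⟨hg.gp.map φ, hg.im.map _⟩

end IsGs

namespace Fold

variable (E : Fold D m) (F : Frm D)

section
variable {R : Type*} [CommRing R] [Algebra ℂ R]

/-- the torus (`isGp_TB`; the diagonal entry at `sB a` is `chi (sQ (wI a)) (t ∘ o)`, equal by `chi_ro`,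
`ro_sQ`) -/
theorem isGs_TB (t : Fin m → Rˣ) : IsGs E F (D.TB fun i => t (E.o i)) := by
  refine ⟨D.isGp_TB F _, fun a c => ?_⟩
  show (Matrix.diagonal _ : Matrix D.BI D.BI R) (E.sB a) (E.sB c) = Matrix.diagonal _ a c
  rw [Matrix.diagonal_apply, Matrix.diagonal_apply]
  by_cases h : a = c
  · subst h
    rw [if_pos rfl, if_pos rfl, E.wI_sB, ← E.chi_ro, ← E.chi_ro, E.ro_sQ]
  · rw [if_neg h, if_neg fun h1 => h (E.sB_inj h1)]

theorem isGs_exp_up {X : D.BI → R} (hX : ∀ a, X a ≠ 0 → 0 < D.hI a) (hI : E.IV X) :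
    IsGs E F (D.expB (D.ad X)) := ⟨D.isGp_exp_up F hX, hI.ad.expB⟩

theorem isGs_exp_down {X : D.BI → R} (hX : ∀ a, X a ≠ 0 → D.hI a < 0) (hI : E.IV X) :
    IsGs E F (D.expB (D.ad X)) := ⟨D.isGp_exp_down F hX, hI.ad.expB⟩

/-- the root vector of the folded system: `e_b` or `e_b + e_{sb}`, `b = rep β` -/
noncomputable def eF (R : Type*) [CommRing R] (β : E.PF) : D.BI → R := by
  classical
  exact if E.sR (E.rep β) = E.rep β then D.er R (E.rep β).1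
    else D.er R (E.rep β).1 + D.er R (E.sQ (E.rep β).1)

/-- the negative root vector -/
noncomputable def fF (R : Type*) [CommRing R] (β : E.PF) : D.BI → R := by
  classical
  exact if E.sR (E.rep β) = E.rep β then D.er R (-(E.rep β).1)
    else D.er R (-(E.rep β).1) + D.er R (-E.sQ (E.rep β).1)

omit [Algebra ℂ R] in
theorem IV_eF (β : E.PF) : E.IV (E.eF R β) := by
  unfold eF
  split_ifs with h
  · exact IV.er (congrArg Subtype.val h)
  · exact IV.er_add _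

omit [Algebra ℂ R] in
theorem IV_fF (β : E.PF) : E.IV (E.fF R β) := by
  unfold fF
  split_ifs with h
  · exact IV.er (by rw [sQ_neg]; exact congrArg Neg.neg (congrArg Subtype.val h))
  · have := IV.er_add (R := R) (E := E) (-(E.rep β).1)
    rwa [sQ_neg] at this

omit [Algebra ℂ R] in
/-- `eF β` has components of positive height only -/
theorem eF_pos (β : E.PF) (a : D.BI) (h : E.eF R β a ≠ 0) : 0 < D.hI a := by
  unfold eF at h
  rcases a with k | γ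
  · exfalso
    apply h
    split_ifs <;> simp
  · rw [SLD.hI_inr]
    apply D.ht_pos
    split_ifs at h with h1
    · rw [SLD.er_inr] at h
      split_ifs at h with h2
      · rw [Subtype.ext h2]; exact E.rep_pos β
      · exact absurd rfl h
    · rw [Pi.add_apply, SLD.er_inr, SLD.er_inr] at h
      by_cases h2 : γ.1 = (E.rep β).1
      · rw [Subtype.ext h2]; exact E.rep_pos β
      · by_cases h3 : γ.1 = E.sQ (E.rep β).1
        · rw [show γ = E.sR (E.rep β) from Subtype.ext h3]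
          exact (E.pos_sR _).2 (E.rep_pos β)
        · rw [if_neg h2, if_neg h3, add_zero] at h
          exact absurd rfl h

omit [Algebra ℂ R] in
theorem fF_neg (β : E.PF) (a : D.BI) (h : E.fF R β a ≠ 0) : D.hI a < 0 := by
  have hp : 1 ≤ SLD.ht (E.rep β).1 := D.ht_pos (E.rep_pos β)
  unfold fF at h
  rcases a with k | γ
  · exfalso
    apply h
    split_ifs <;> simp
  · rw [SLD.hI_inr]
    split_ifs at h with h1
    · rw [SLD.er_inr] at h
      split_ifs at h with h2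
      · rw [h2, SLD.ht_neg]; omega
      · exact absurd rfl h
    · rw [Pi.add_apply, SLD.er_inr, SLD.er_inr] at h
      by_cases h2 : γ.1 = -(E.rep β).1
      · rw [h2, SLD.ht_neg]; omega
      · by_cases h3 : γ.1 = -E.sQ (E.rep β).1
        · rw [h3, SLD.ht_neg, E.ht_sQ]; omega
        · rw [if_neg h2, if_neg h3, add_zero] at h
          exact absurd rfl h

end

/-! ### Weyl elements -/

/-- If `B(γ, δ) = 0` the root vectors of `±γ` commute with those of `±δ` (`br_er_er`; `γ + δ` has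
`B = 4`, so it is neither a root nor `0`: `er_not_root`, `B_add_zero`). -/
theorem br_orth {R : Type*} [CommRing R] {γ δ : D.Rt} (h : D.B γ.1 δ.1 = 0) :
    D.br (D.er R γ.1) (D.er R δ.1) = 0 := by
  rw [D.br_er_er, if_neg, D.er_not_root, smul_zero, sub_zero]
  · rw [D.B_add_left, D.B_add_right, D.B_add_right, γ.2, δ.2, D.B_comm δ.1 γ.1, h]
    norm_num
  · rw [D.B_add_zero, h]
    norm_num

/-- the Weyl element `exp(ad e) exp(ad f) exp(ad e)`, `e = eF β`, `f = fF β` -/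
noncomputable def nF (β : E.PF) : Matrix D.BI D.BI ℂ :=
  D.expB (D.ad (E.eF ℂ β)) * D.expB (D.ad (E.fF ℂ β)) * D.expB (D.ad (E.eF ℂ β))

theorem isGs_nF (β : E.PF) : IsGs E F (E.nF β) :=
  ((E.isGs_exp_up F (E.eF_pos β) (E.IV_eF β)).mul
    (E.isGs_exp_down F (E.fF_neg β) (E.IV_fF β))).mul (E.isGs_exp_up F (E.eF_pos β) (E.IV_eF β))

theorem f3b_self (X : D.BI → ℂ) : D.br X X = 0 := by
  funext d
  have h := congrFun (D.br_anti X X) d
  rw [Pi.neg_apply] at h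
  rw [Pi.zero_apply]
  linear_combination (1 / 2 : ℂ) * h

theorem f3b_hv_neg (y : Fin n → ℤ) : D.hv ℂ (-y) = - D.hv ℂ y := by
  funext k
  simp only [SLD.hv, Pi.neg_apply, D.B_neg_right, Int.cast_neg]

/-- `exp(ad (e_γ + e_δ)) x` for orthogonal roots -/
theorem f3b_exp_tt {γ δ : D.Rt} (h : D.B γ.1 δ.1 = 0) (x : Fin n → ℂ) :
    D.expB (D.ad (D.er ℂ γ.1 + D.er ℂ δ.1)) *ᵥ D.tt x =
      D.tt x - ev γ.1 x • D.er ℂ γ.1 - ev δ.1 x • D.er ℂ δ.1 := by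
  have h' : D.B δ.1 γ.1 = 0 := by rw [D.B_comm]; exact h
  have h1 : D.br (D.er ℂ γ.1 + D.er ℂ δ.1) (D.tt x) =
      -(ev γ.1 x • D.er ℂ γ.1) + -(ev δ.1 x • D.er ℂ δ.1) := by
    rw [D.br_add_left, D.br_er_tt, D.br_er_tt]
  have h2 : D.br (D.er ℂ γ.1 + D.er ℂ δ.1) (D.br (D.er ℂ γ.1 + D.er ℂ δ.1) (D.tt x)) = 0 := by
    rw [h1, D.br_add_right, D.br_neg_right, D.br_neg_right, D.br_smul_right, D.br_smul_right,
      D.br_add_left, D.br_add_left, f3b_self, f3b_self, br_orth h, br_orth h', add_zero,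
      smul_zero, smul_zero, neg_zero, add_zero]
  rw [D.expB_mulVec_two]
  · show D.tt x + D.br (D.er ℂ γ.1 + D.er ℂ δ.1) (D.tt x) = _
    rw [h1]
    abel
  · exact h2

/-- `exp(ad (e_γ + e_δ)) e_γ = e_γ` for orthogonal roots -/
theorem f3b_exp_er {γ δ : D.Rt} (h : D.B γ.1 δ.1 = 0) :
    D.expB (D.ad (D.er ℂ γ.1 + D.er ℂ δ.1)) *ᵥ D.er ℂ γ.1 = D.er ℂ γ.1 := by
  have h' : D.B δ.1 γ.1 = 0 := by rw [D.B_comm]; exact h
  have h1 : D.br (D.er ℂ γ.1 + D.er ℂ δ.1) (D.er ℂ γ.1) = 0 := by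
    rw [D.br_add_left, f3b_self, br_orth h', add_zero]
  rw [D.expB_mulVec_two]
  · show D.er ℂ γ.1 + D.br (D.er ℂ γ.1 + D.er ℂ δ.1) (D.er ℂ γ.1) = _
    rw [h1, add_zero]
  · show D.br (D.er ℂ γ.1 + D.er ℂ δ.1) (D.br (D.er ℂ γ.1 + D.er ℂ δ.1) (D.er ℂ γ.1)) = 0
    rw [h1, D.br_zero_right]

/-- `exp(ad (e_{-γ} + e_{-δ})) e_γ = e_γ + hv γ + e_{-γ}` for orthogonal roots -/
theorem f3b_exp_er_neg {γ δ : D.Rt} (h : D.B γ.1 δ.1 = 0) :
    D.expB (D.ad (D.er ℂ (-γ.1) + D.er ℂ (-δ.1))) *ᵥ D.er ℂ γ.1 =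
      D.er ℂ γ.1 + D.tt (D.hv ℂ γ.1) + D.er ℂ (-γ.1) := by
  have h' : D.B δ.1 γ.1 = 0 := by rw [D.B_comm]; exact h
  have h1 : D.br (D.er ℂ (-γ.1)) (D.er ℂ γ.1) = D.tt (D.hv ℂ γ.1) := by
    have h := D.br_er_er (R := ℂ) (D.ng γ) γ
    rw [SLD.ng_val, neg_add_cancel, if_pos rfl, D.er_zero, smul_zero, zero_sub] at h
    rw [h, ← D.tt_neg, f3b_hv_neg, neg_neg]
  have h1' : D.br (D.er ℂ (-δ.1)) (D.er ℂ γ.1) = 0 := by
    have h3 : D.B (D.ng δ).1 γ.1 = 0 := by rw [SLD.ng_val, D.B_neg_left, h', neg_zero]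
    exact br_orth (γ := D.ng δ) (δ := γ) h3
  have h2 : D.br (D.er ℂ (-γ.1)) (D.tt (D.hv ℂ γ.1)) = (2 : ℂ) • D.er ℂ (-γ.1) := by
    rw [D.br_er_tt, ev_neg_left, D.ev_hv, γ.2, neg_smul, neg_neg]
    norm_num
  have h2' : D.br (D.er ℂ (-δ.1)) (D.tt (D.hv ℂ γ.1)) = 0 := by
    rw [D.br_er_tt, ev_neg_left, D.ev_hv, h']
    norm_num
  have h3' : D.br (D.er ℂ (-δ.1)) (D.er ℂ (-γ.1)) = 0 := by
    have h3 : D.B (D.ng δ).1 (D.ng γ).1 = 0 := by
      rw [SLD.ng_val, SLD.ng_val, D.B_neg_left, D.B_neg_right, h', neg_zero, neg_zero]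
    exact br_orth (γ := D.ng δ) (δ := D.ng γ) h3
  have k1 : D.br (D.er ℂ (-γ.1) + D.er ℂ (-δ.1)) (D.er ℂ γ.1) = D.tt (D.hv ℂ γ.1) := by
    rw [D.br_add_left, h1, h1', add_zero]
  have k2 : D.br (D.er ℂ (-γ.1) + D.er ℂ (-δ.1)) (D.tt (D.hv ℂ γ.1)) =
      (2 : ℂ) • D.er ℂ (-γ.1) := by
    rw [D.br_add_left, h2, h2', add_zero]
  have k3 : D.br (D.er ℂ (-γ.1) + D.er ℂ (-δ.1)) (D.er ℂ (-γ.1)) = 0 := by
    rw [D.br_add_left, f3b_self, h3', add_zero]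
  rw [D.expB_mulVec_three]
  · show D.er ℂ γ.1 + D.br (D.er ℂ (-γ.1) + D.er ℂ (-δ.1)) (D.er ℂ γ.1) +
      algebraMap ℂ ℂ (1 / 2) • D.br (D.er ℂ (-γ.1) + D.er ℂ (-δ.1))
        (D.br (D.er ℂ (-γ.1) + D.er ℂ (-δ.1)) (D.er ℂ γ.1)) = _
    rw [k1, k2, smul_smul]
    norm_num
  · show D.br (D.er ℂ (-γ.1) + D.er ℂ (-δ.1)) (D.br (D.er ℂ (-γ.1) + D.er ℂ (-δ.1))
      (D.br (D.er ℂ (-γ.1) + D.er ℂ (-δ.1)) (D.er ℂ γ.1))) = 0
    rw [k1, k2, D.br_smul_right, k3, smul_zero]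

/-- the product of two commuting reflections -/
theorem f3b_tact {γ δ : D.Rt} (h : D.B γ.1 δ.1 = 0) (x : Fin n → ℂ) :
    D.tact (D.rO γ * D.rO δ) x = x - ev γ.1 x • D.hv ℂ γ.1 - ev δ.1 x • D.hv ℂ δ.1 := by
  rw [D.tact_mul, D.tact_rO, D.tact_rO, ev_sub, ev_smul, D.ev_hv, h, Int.cast_zero, mul_zero,
    sub_zero]
  abel

theorem f3b_main {γ δ : D.Rt} (h : D.B γ.1 δ.1 = 0) (x : Fin n → ℂ) :
    (D.expB (D.ad (D.er ℂ γ.1 + D.er ℂ δ.1)) *
      D.expB (D.ad (D.er ℂ (-γ.1) + D.er ℂ (-δ.1))) *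
      D.expB (D.ad (D.er ℂ γ.1 + D.er ℂ δ.1))) *ᵥ D.tt x =
      D.tt (D.tact (D.rO γ * D.rO δ) x) := by
  have h' : D.B δ.1 γ.1 = 0 := by rw [D.B_comm]; exact h
  have a1 := fun y => f3b_exp_tt h y
  have a2 : D.expB (D.ad (D.er ℂ (-γ.1) + D.er ℂ (-δ.1))) *ᵥ D.tt x =
      D.tt x + ev γ.1 x • D.er ℂ (-γ.1) + ev δ.1 x • D.er ℂ (-δ.1) := by
    have h3 : D.B (D.ng γ).1 (D.ng δ).1 = 0 := by
      rw [SLD.ng_val, SLD.ng_val, D.B_neg_left, D.B_neg_right, h, neg_zero, neg_zero]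
    have h4 := f3b_exp_tt h3 x
    rw [SLD.ng_val, SLD.ng_val, ev_neg_left, ev_neg_left, neg_smul, neg_smul, sub_neg_eq_add,
      sub_neg_eq_add] at h4
    exact h4
  have a3 := f3b_exp_er_neg h
  have a4 := f3b_exp_er_neg h'
  rw [add_comm (D.er ℂ (-δ.1))] at a4
  have a5 := f3b_exp_er h
  have a6 := f3b_exp_er h'
  rw [add_comm (D.er ℂ δ.1)] at a6
  have hx := f3b_tact h x
  have e1 : ev γ.1 (D.tact (D.rO γ * D.rO δ) x) = - ev γ.1 x := by
    rw [hx, ev_sub, ev_sub, ev_smul, ev_smul, D.ev_hv, D.ev_hv, γ.2, h]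
    push_cast
    ring
  have e2 : ev δ.1 (D.tact (D.rO γ * D.rO δ) x) = - ev δ.1 x := by
    rw [hx, ev_sub, ev_sub, ev_smul, ev_smul, D.ev_hv, D.ev_hv, δ.2, h']
    push_cast
    ring
  have b1 : D.expB (D.ad (D.er ℂ (-γ.1) + D.er ℂ (-δ.1))) *ᵥ
      (D.tt x - ev γ.1 x • D.er ℂ γ.1 - ev δ.1 x • D.er ℂ δ.1) =
      D.tt x + ev γ.1 x • D.er ℂ (-γ.1) + ev δ.1 x • D.er ℂ (-δ.1) -
      ev γ.1 x • (D.er ℂ γ.1 + D.tt (D.hv ℂ γ.1) + D.er ℂ (-γ.1)) -
      ev δ.1 x • (D.er ℂ δ.1 + D.tt (D.hv ℂ δ.1) + D.er ℂ (-δ.1)) := by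
    rw [Matrix.mulVec_sub, Matrix.mulVec_sub, a2, Matrix.mulVec_smul, Matrix.mulVec_smul, a3, a4]
  rw [← Matrix.mulVec_mulVec, ← Matrix.mulVec_mulVec, a1, b1]
  have h4 : D.tt x + ev γ.1 x • D.er ℂ (-γ.1) + ev δ.1 x • D.er ℂ (-δ.1) -
      ev γ.1 x • (D.er ℂ γ.1 + D.tt (D.hv ℂ γ.1) + D.er ℂ (-γ.1)) -
      ev δ.1 x • (D.er ℂ δ.1 + D.tt (D.hv ℂ δ.1) + D.er ℂ (-δ.1)) =
      D.tt (D.tact (D.rO γ * D.rO δ) x) - ev γ.1 x • D.er ℂ γ.1 - ev δ.1 x • D.er ℂ δ.1 := by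
    rw [hx, sub_eq_add_neg _ (ev δ.1 x • D.hv ℂ δ.1), D.tt_add, sub_eq_add_neg x, D.tt_add,
      D.tt_neg, D.tt_smul, D.tt_neg, D.tt_smul, smul_add, smul_add, smul_add, smul_add]
    abel
  rw [h4, Matrix.mulVec_sub, Matrix.mulVec_sub, a1, Matrix.mulVec_smul, Matrix.mulVec_smul, a5,
    a6, e1, e2, neg_smul, neg_smul]
  abel

/-- Action on the Cartan subalgebra.  If `s b = b`: this is `nw_tt`.  Otherwise put `c = sR b`,
`B(b, c) = 0` (`sR_cases`), `e = e_b + e_c`, `f = e_{-b} + e_{-c}`.  As in `exp_tt`, `exp_er`,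
`exp_er_neg`, `nw_tt` (row L7a; `br_orth` for the mixed brackets, `ev b (hv c) = B(b, c) = 0`: `ev_hv`):
`exp(ad e) x = x - b(x) e_b - c(x) e_c` (`expB_mulVec_two`),
`exp(ad f) x = x + b(x) e_{-b} + c(x) e_{-c}`,
`exp(ad f) e_b = e_b + tt (hv b) + e_{-b}` (`expB_mulVec_three`), the same for `c`; `exp(ad e) e_b = e_b`;
so `n x = x - b(x) hv b - c(x) hv c = s_b s_c x` (`tact_rO`, `tact_mul`). -/
theorem nF_tt (β : E.PF) (x : Fin n → ℂ) :
    E.nF β *ᵥ D.tt x = D.tt (D.tact (E.wF β) x) := by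
  unfold nF eF fF wF
  split_ifs with h
  · exact D.nw_tt (E.rep β) x
  · exact f3b_main (γ := E.rep β) (δ := E.sR (E.rep β)) ((E.sR_cases (E.rep β)).resolve_left h) x

/-- `nF β` is an automorphism of the Lie algebra (no invariant form is needed) -/
theorem f3c_nF_br (β : E.PF) (X Y : D.BI → ℂ) :
    E.nF β *ᵥ D.br X Y = D.br (E.nF β *ᵥ X) (E.nF β *ᵥ Y) := by
  have h1 := D.pow_up (D.ad (E.eF ℂ β)) (D.ad_up (E.eF_pos β))
  have h2 := D.pow_down (D.ad (E.fF ℂ β)) (D.ad_down (E.fF_neg β))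
  unfold nF
  simp only [← Matrix.mulVec_mulVec]
  rw [D.exp_br _ h1, D.exp_br _ h2, D.exp_br _ h1]

/-- an automorphism of the Lie algebra acting on the Cartan subalgebra by `u` maps `e_γ` to a multiple
of `e_{u γ}` -/
theorem f3c_er {g : Matrix D.BI D.BI ℂ}
    (hbr : ∀ X Y, g *ᵥ D.br X Y = D.br (g *ᵥ X) (g *ᵥ Y)) {u : D.OQ}
    (h1 : ∀ x : Fin n → ℂ, g *ᵥ D.tt x = D.tt (D.tact u x)) (γ : D.Rt) :
    ∃ c : ℂ, g *ᵥ D.er ℂ γ.1 = c • D.er ℂ (u.1 γ.1) := by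
  have key : ∀ a : D.BI, (g *ᵥ D.er ℂ γ.1) a ≠ 0 → D.wI a = u.1 γ.1 := by
    intro a ha
    have h2 : (u⁻¹).1 (D.wI a) = γ.1 := by
      refine SLD.ev_inj (K := ℂ) fun x => ?_
      have h3 := hbr (D.tt x) (D.er ℂ γ.1)
      rw [D.br_tt_er, h1, Matrix.mulVec_smul] at h3
      have h4 := congrFun h3 a
      rw [D.br_tt, Pi.smul_apply, smul_eq_mul, D.ev_tact] at h4
      exact (mul_right_cancel₀ ha h4).symm
    have h5 : u.1 ((u⁻¹).1 (D.wI a)) = D.wI a := by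
      have h6 : (u * u⁻¹).1 (D.wI a) = D.wI a := by rw [mul_inv_cancel]; rfl
      exact h6
    rw [← h5, h2]
  have hne : u.1 γ.1 ≠ 0 := by
    intro h0
    have h3 : (u⁻¹ * u).1 γ.1 = γ.1 := by rw [inv_mul_cancel]; rfl
    have h4 : (u⁻¹).1 (u.1 γ.1) = γ.1 := h3
    rw [h0, map_zero] at h4
    exact D.Rt_ne_zero γ h4.symm
  by_cases hv : ∃ δ : D.Rt, δ.1 = u.1 γ.1
  · obtain ⟨δ, hδ⟩ := hv
    refine ⟨(g *ᵥ D.er ℂ γ.1) (Sum.inr δ), ?_⟩
    funext a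
    rw [Pi.smul_apply, smul_eq_mul]
    rcases a with k | μ
    · rw [SLD.er_inl, mul_zero]
      by_contra h
      exact hne (key _ h).symm
    · rw [SLD.er_inr]
      split_ifs with h
      · rw [mul_one]
        rw [show μ = δ from Subtype.ext (h.trans hδ.symm)]
      · rw [mul_zero]
        by_contra h'
        exact h (key _ h')
  · refine ⟨0, ?_⟩
    rw [zero_smul]
    funext a
    by_contra h
    rcases a with k | μ
    · exact hne (key _ h).symm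
    · exact hv ⟨μ, key _ h⟩

/-- the characters: `χ_y (k ↦ χ_{u α_k} (t)) = χ_{u y} (t)` -/
theorem f3c_chi (u : D.OQ) (t : Fin n → ℂˣ) (y : Fin n → ℤ) :
    chi y (fun k => chi (u.1 (D.al k).1) t) = chi (u.1 y) t := by
  have h2 : ∀ j, (u.1 y) j = ∑ k, y k * (u.1 (D.al k).1) j := by
    intro j
    conv_lhs => rw [D.eq_sum_al y]
    rw [map_sum, Finset.sum_apply]
    refine Finset.sum_congr rfl fun k _ => ?_
    rw [map_zsmul, Pi.smul_apply, smul_eq_mul]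
  unfold chi
  simp only [h2, zpow_sum, ← Finset.prod_zpow]
  rw [Finset.prod_comm]
  refine Finset.prod_congr rfl fun k _ => Finset.prod_congr rfl fun j _ => ?_
  rw [← _root_.zpow_mul, mul_comm]

/-- relation with the torus: `TB_mul` for `u = wF β`; `chi (wF β α_k) (t ∘ o) = chi (ro (wF β α_k)) t`
(`chi_ro`), `ro_wF`, `ro_single`, `crF_o`, `chi_add`/`chi` of a multiple. -/
theorem TB_nF (β : E.PF) (t : Fin m → ℂˣ) :
    D.TB (fun i => t (E.o i)) * E.nF β = E.nF β * D.TB (fun i => t (E.o i) *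
      (chi β.1 t) ^ (- E.crF β (E.o i))) := by
  have hT : ∀ (s : Fin n → ℂˣ) (X : D.BI → ℂ) (a : D.BI),
      (D.TB s *ᵥ X) a = ((chi (D.wI a) s : ℂˣ) : ℂ) * X a := by
    intro s X a
    rw [SLD.TB, Matrix.mulVec_diagonal]
  have hTt : ∀ (s : Fin n → ℂˣ) (y : Fin n → ℂ), D.TB s *ᵥ D.tt y = D.tt y := by
    intro s y
    funext a
    rw [hT]
    rcases a with k | γ
    · rw [SLD.wI_inl, chi_zero, Units.val_one, one_mul]
    · rw [SLD.tt_inr, mul_zero]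
  have hTe : ∀ (s : Fin n → ℂˣ) (y : Fin n → ℤ),
      D.TB s *ᵥ D.er ℂ y = ((chi y s : ℂˣ) : ℂ) • D.er ℂ y := by
    intro s y
    funext a
    rw [hT, Pi.smul_apply, smul_eq_mul]
    rcases a with k | γ
    · rw [SLD.er_inl, mul_zero, mul_zero]
    · rw [SLD.er_inr, SLD.wI_inr]
      split_ifs with h
      · rw [h]
      · rw [mul_zero, mul_zero]
  have h1 := E.nF_tt β
  have hs : (fun i => t (E.o i) * (chi β.1 t) ^ (- E.crF β (E.o i))) =
      fun k => chi ((E.wF β).1 (D.al k).1) (fun i => t (E.o i)) := by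
    funext k
    rw [← E.chi_ro, E.ro_wF, SLD.al_val, E.ro_single, E.crF_o, sub_eq_add_neg, chi_add]
    congr 1
    · unfold chi
      rw [Finset.prod_eq_single (E.o k)]
      · simp
      · intro b _ hb
        rw [Pi.single_eq_of_ne hb]
        simp
      · intro h; exact absurd (Finset.mem_univ _) h
    · unfold chi
      rw [← Finset.prod_zpow]
      refine Finset.prod_congr rfl fun i _ => ?_
      rw [← _root_.zpow_mul, Pi.neg_apply, Pi.smul_apply, smul_eq_mul, mul_comm, ← neg_mul,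
        SLD.al_val]
  rw [hs]
  refine Matrix.ext_of_mulVec_single fun a => ?_
  rw [← Matrix.mulVec_mulVec, ← Matrix.mulVec_mulVec]
  rcases a with k | γ
  · rw [← D.tt_single, h1, hTt, hTt, h1]
  · obtain ⟨c, hc⟩ := f3c_er (E.f3c_nF_br β) h1 γ
    rw [← D.er_root, hc, hTe, Matrix.mulVec_smul, Matrix.mulVec_smul, hc, hTe, f3c_chi, smul_comm]

/-! ### upper triangular elements, centralisers -/

theorem f3c_chi_al {M : Type*} [CommGroup M] (k : Fin n) (t : Fin n → M) :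
    chi (D.al k).1 t = t k := by
  unfold chi
  rw [SLD.al_val, Finset.prod_eq_single k]
  · simp
  · intro b _ hb
    rw [Pi.single_eq_of_ne hb]
    simp
  · intro h; exact absurd (Finset.mem_univ _) h

/-- an invariant family descends to the orbits -/
theorem f3c_desc {M : Type*} {t0 : Fin n → M} (h : ∀ i, t0 (E.s i) = t0 i) :
    ∃ t : Fin m → M, t0 = fun i => t (E.o i) := by
  refine ⟨fun k => t0 (E.r k), ?_⟩
  funext i
  rcases E.o_eq (E.r (E.o i)) i (by rw [E.o_r]) with h1 | h1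
  · show t0 i = t0 (E.r (E.o i))
    rw [h1]
  · show t0 i = t0 (E.r (E.o i))
    rw [h1, h]

/-- diagonal of an upper triangular element of the folded group: `up_chi`, and
`t i = g (inr α_i) (inr α_i)`, so `t (s i) = t i` by `im`; `t = (t ∘ r) ∘ o` (`o_eq`). -/
theorem up_chiF {R : Type*} [CommRing R] [Algebra ℂ R] {g : Matrix D.BI D.BI R}
    (hg : IsGs E F g) (h : D.UpT g) :
    ∃ t : Fin m → Rˣ, ∀ a, g a a = ((chi (E.ro (D.wI a)) t : Rˣ) : R) := by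
  obtain ⟨t0, ht0⟩ := hg.gp.up_chi h
  obtain ⟨t, ht⟩ := E.f3c_desc (t0 := t0) fun i => by
    apply Units.ext
    have h1 := hg.im (Sum.inr (D.al i)) (Sum.inr (D.al i))
    rw [sB_inr, E.sR_al, ht0, ht0, SLD.wI_inr, SLD.wI_inr, f3c_chi_al, f3c_chi_al] at h1
    exact h1
  refine ⟨t, fun a => ?_⟩
  rw [E.chi_ro, ← ht, ht0]

/-- `up_conj`; the new vector is invariant because `g`, `tt (x ∘ o)` and `z` are -/
theorem up_conjF {R : Type*} [CommRing R] [Algebra ℂ R] {g : Matrix D.BI D.BI R}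
    (hg : IsGs E F g) (h : D.UpT g) (x : Fin m → R) {z : D.BI → R}
    (hz : ∀ a, z a ≠ 0 → 0 < D.hI a) (hI : E.IV z) :
    ∃ z' : D.BI → R, (∀ a, z' a ≠ 0 → 0 < D.hI a) ∧ E.IV z' ∧
      g *ᵥ (D.tt (fun i => x (E.o i)) + z) = D.tt (fun i => x (E.o i)) + z' := by
  obtain ⟨z', hz', hgz⟩ := hg.gp.up_conj h (fun i => x (E.o i)) hz
  have htt : E.IV (D.tt fun i => x (E.o i)) := IV.tt fun i => by rw [E.o_s]
  refine ⟨z', hz', ?_, hgz⟩
  have h1 : E.IV (g *ᵥ (D.tt (fun i => x (E.o i)) + z)) := hg.im.mulVec (htt.add hI)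
  intro a
  have h2 := h1 a
  rw [hgz, Pi.add_apply, Pi.add_apply, htt a] at h2
  exact add_left_cancel h2

/-- centraliser of a regular element: `x ∘ o` is regular (`ev_ro`; negative roots by `ng`),
`eq_TB_of_comm`; the torus element is invariant as in `up_chiF`. -/
theorem centF {K : Type} [Field K] [Algebra ℂ K] {g : Matrix D.BI D.BI K} (hg : IsGs E F g)
    {x : Fin m → K} (hx : ∀ β : E.PF, ev β.1 x ≠ 0)
    (h : g * D.ad (D.tt fun i => x (E.o i)) = D.ad (D.tt fun i => x (E.o i)) * g) :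
    ∃ t : Fin m → Kˣ, g = D.TB fun i => t (E.o i) := by
  have hx' : ∀ γ : D.Rt, ev γ.1 (fun i => x (E.o i)) ≠ 0 := by
    intro γ h0
    rcases D.pos_or_neg γ with hp | hp
    · refine hx (E.rp γ hp) ?_
      show ev (E.ro γ.1) x = 0
      rw [E.ev_ro, h0]
    · refine hx (E.rp (D.ng γ) hp) ?_
      show ev (E.ro (D.ng γ).1) x = 0
      rw [E.ev_ro, SLD.ng_val, ev_neg_left, h0, neg_zero]
  obtain ⟨t0, ht0⟩ := hg.gp.eq_TB_of_comm hx' h
  obtain ⟨t, ht⟩ := E.f3c_desc (t0 := t0) fun i => by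
    apply Units.ext
    have h1 := hg.im (Sum.inr (D.al i)) (Sum.inr (D.al i))
    rw [sB_inr, E.sR_al, ht0, SLD.TB, Matrix.diagonal_apply_eq, Matrix.diagonal_apply_eq,
      SLD.wI_inr, SLD.wI_inr, f3c_chi_al, f3c_chi_al] at h1
    exact h1
  exact ⟨t, by rw [ht0, ht]⟩

end Fold

end Pool.Agent.MTX
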