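import Pool.Agent.MTX.F3

/-! # MTX, Part F : Iwasawa decomposition for the folded group (row F4) -/

namespace Pool.Agent.MTX

open Matrix
open Pool.Agent.MTD (ev ev_add ev_sub ev_neg ev_smul ev_zero ev_add_left ev_sub_left ev_neg_left
  ev_smul_left ev_zero_left ev_sum_left ev_sum ev_map ev_comm)
open Pool.Agent.MP_c45d35_ag (chi chi_add chi_mul chi_zero chi_one chi_inv chi_map transfer)

variable {n m : ℕ} {D : SLD n}

namespace Fold

variable (E : Fold D m) (F : Frm D)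

/-- the equations of the folded group -/
def eqsF : Set (MvPolynomial (D.BI × D.BI) ℂ) :=
  F.eqs ∪ {p | ∃ a c, p = MvPolynomial.X (E.sB a, E.sB c) - MvPolynomial.X (a, c)}

/-- `Frm.isGp_iff` -/
theorem isGs_iff {R : Type*} [CommRing R] [Algebra ℂ R] (g : Matrix D.BI D.BI R) :
    IsGs E F g ↔ ∀ p ∈ E.eqsF F, MvPolynomial.aeval (fun q : D.BI × D.BI => g q.1 q.2) p = 0 := by
  constructor
  · rintro ⟨h1, h2⟩ p (hp | ⟨a, c, rfl⟩)
    · exact (Frm.isGp_iff F g).1 h1 p hp
    · rw [map_sub, MvPolynomial.aeval_X, MvPolynomial.aeval_X]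
      show g (E.sB a) (E.sB c) - g a c = 0
      rw [h2 a c, sub_self]
  · intro h
    refine ⟨(Frm.isGp_iff F g).2 fun p hp => h p (Or.inl hp), fun a c => ?_⟩
    have h1 := h _ (Or.inr ⟨a, c, rfl⟩)
    rw [map_sub, MvPolynomial.aeval_X, MvPolynomial.aeval_X, sub_eq_zero] at h1
    exact h1

/-- As `Frm.transferK` (row L8b), with `eqsF`, `isGs_iff` in place of `eqs`, `isGp_iff`. -/
theorem transferF {K : Type*} [Field K] [Algebra ℂ K] (P : MvPolynomial (D.BI × D.BI) K)
    (h : ∀ g : Matrix D.BI D.BI ℂ, IsGs E F g →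
      MvPolynomial.eval (fun q : D.BI × D.BI => algebraMap ℂ K (g q.1 q.2)) P = 0)
    (g : Matrix D.BI D.BI K) (hg : IsGs E F g) :
    MvPolynomial.eval (fun q : D.BI × D.BI => g q.1 q.2) P = 0 := by
  classical
  set b := Module.Basis.ofVectorSpace ℂ K with hb
  have h1 : ∀ j, MvPolynomial.aeval (fun q : D.BI × D.BI => g q.1 q.2)
      (Frm.lin (b.coord j) P) = 0 := by
    intro j
    refine transfer (E.eqsF F) _ ?_ (fun q : D.BI × D.BI => g q.1 q.2) ((isGs_iff E F g).1 hg)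
    intro v hv
    have h2 : IsGs E F (fun a c => v (a, c) : Matrix D.BI D.BI ℂ) := by
      rw [isGs_iff]
      intro p hp
      have h3 := hv p hp
      rw [MvPolynomial.aeval_eq_eval]
      exact h3
    rw [Frm.eval_lin]
    have h4 := h _ h2
    have h5 : MvPolynomial.eval (fun i => algebraMap ℂ K (v i)) P = 0 := h4
    rw [h5, map_zero]
  set w : D.BI × D.BI → K := fun q => g q.1 q.2 with hw
  set J := P.support.biUnion fun m => (b.repr (P.coeff m)).support with hJ
  have hrep : ∀ m ∈ P.support, P.coeff m = ∑ j ∈ J, b.repr (P.coeff m) j • b j := by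
    intro m hm
    conv_lhs => rw [← b.linearCombination_repr (P.coeff m), Finsupp.linearCombination_apply]
    exact Finsupp.sum_of_support_subset _
      (Finset.subset_biUnion_of_mem (fun m => (b.repr (P.coeff m)).support) hm) _
      (fun j _ => zero_smul _ _)
  have h6 : MvPolynomial.eval w P =
      ∑ j ∈ J, b j * MvPolynomial.aeval w (Frm.lin (b.coord j) P) := by
    have h7 : ∀ j, MvPolynomial.aeval w (Frm.lin (b.coord j) P) =
        ∑ m ∈ P.support, algebraMap ℂ K (b.repr (P.coeff m) j) * ∏ i ∈ m.support, w i ^ m i := by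
      intro j
      rw [Frm.lin, map_sum]
      refine Finset.sum_congr rfl fun m _ => ?_
      rw [MvPolynomial.aeval_monomial]
      rfl
    simp only [h7, Finset.mul_sum]
    rw [Finset.sum_comm, MvPolynomial.eval_eq]
    refine Finset.sum_congr rfl fun m hm => ?_
    conv_lhs => rw [hrep m hm]
    rw [Finset.sum_mul]
    refine Finset.sum_congr rfl fun j _ => ?_
    rw [Algebra.smul_def]
    ring
  rw [h6]
  exact Finset.sum_eq_zero fun j _ => by rw [h1, mul_zero]

/-- block upper triangular and lower unipotent -/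
theorem eq_one_of {R : Type*} [CommRing R] {M : Matrix D.BI D.BI R} (h1 : D.LoU M)
    (h2 : D.UpB M) : M = 1 := by
  ext a c
  rcases eq_or_ne a c with h | h
  · rw [h, Matrix.one_apply_eq, h1.1]
  · rw [Matrix.one_apply_ne h]
    rcases le_or_gt (D.hI c) (D.hI a) with h3 | h3
    · exact h1.2 a c h h3
    · exact h2 a c h3

theorem LoU_sub {R : Type*} [CommRing R] {M : Matrix D.BI D.BI R} (h : D.LoU M) :
    D.LoU (M.submatrix E.eB E.eB) := by
  refine ⟨fun a => h.1 _, fun a c hac hI => h.2 _ _ (fun h' => hac (E.sB_inj h')) ?_⟩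
  rw [eB_apply, eB_apply, hI_sB, hI_sB]; exact hI

theorem UpB_sub {R : Type*} [CommRing R] {M : Matrix D.BI D.BI R} (h : D.UpB M) :
    D.UpB (M.submatrix E.eB E.eB) := by
  intro a c hac
  refine h _ _ ?_
  rw [eB_apply, eB_apply, hI_sB, hI_sB]; exact hac

/-- The factors of the big cell are invariant: `g = L b` (`IsGp.exists_LU`) and, applying `submatrix eB eB`
(`Matrix.submatrix_mul_equiv`, `IM.sub_eq`), `g = L' b'`; `L'⁻¹ L = b' b⁻¹` is lower unipotent (`LoU_sub`,
`LoU.inv`, `LoU.mul`) and block upper triangular (`UpB_sub`, `UpT.upB`, `UpB.inv`, `UpB.mul`), so `1`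
(`eq_one_of`). -/
theorem exists_LUF {K : Type*} [Field K] [Algebra ℂ K] {g : Matrix D.BI D.BI K}
    (hg : IsGs E F g) (h : D.mm g ≠ 0) : ∃ L b : Matrix D.BI D.BI K, IsGs E F L ∧ D.LoU L ∧
      IsGs E F b ∧ D.UpT b ∧ g = L * b := by
  obtain ⟨L, b, hL, hLU, hb, hbT, hgLb⟩ := hg.gp.exists_LU h
  have hL' := E.LoU_sub hLU
  have hb' := E.UpB_sub hbT.upB
  have hprod : L * b = L.submatrix E.eB E.eB * b.submatrix E.eB E.eB := by
    rw [Matrix.submatrix_mul_equiv, ← hgLb, hg.im.sub_eq]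
  have hdet : IsUnit (L.submatrix E.eB E.eB).det := by
    rw [hL'.det]
    exact isUnit_one
  have h1 : (L.submatrix E.eB E.eB)⁻¹ * L = b.submatrix E.eB E.eB * b⁻¹ := by
    calc (L.submatrix E.eB E.eB)⁻¹ * L = (L.submatrix E.eB E.eB)⁻¹ * (L * b) * b⁻¹ := by
          rw [Matrix.mul_assoc, Matrix.mul_assoc, hb.mul_inv, Matrix.mul_one]
      _ = b.submatrix E.eB E.eB * b⁻¹ := by
          rw [hprod, ← Matrix.mul_assoc, Matrix.nonsing_inv_mul _ hdet, Matrix.one_mul]
  have h2 : (L.submatrix E.eB E.eB)⁻¹ * L = 1 := by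
    refine eq_one_of (hL'.inv.mul hLU) ?_
    rw [h1]
    exact hb'.mul (hbT.upB.inv (by rw [hb.det]; exact isUnit_one))
  have h3 : L.submatrix E.eB E.eB = L := by
    have h4 : L.submatrix E.eB E.eB * ((L.submatrix E.eB E.eB)⁻¹ * L) = L := by
      rw [← Matrix.mul_assoc, Matrix.mul_nonsing_inv _ hdet, Matrix.one_mul]
    rw [h2, Matrix.mul_one] at h4
    exact h4
  have hLI : E.IM L := IM.of_sub h3
  have hbg : b = L⁻¹ * g := by
    rw [hgLb, ← Matrix.mul_assoc, hL.inv_mul, Matrix.one_mul]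
  refine ⟨L, b, ⟨hL, hLI⟩, hLU, ⟨hb, ?_⟩, hbT, hgLb⟩
  rw [hbg]
  exact hLI.inv.mul hg.im

/-- The analogue of `IsGp.rho_mem` (row L10c), for one vector `X` with integer (or complex) entries,
components of one sign, invariant under `s`.  `A = ad X` over `K`, `Q = mm (gs A * L.map C)`; values at
complex `s`: `mm (exp(s ad X) L)`, where `exp(s ad X)` is the image of a complex element of the folded
group (`isGs_exp_up`, `isGs_exp_down`); so `Q.coeff 1 ∈ V` (`coeff_mem`); and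
`Q.coeff 1 = tr (ad ρ ad (L⁻¹ X)) = tr (ad (L ρ) ad X)` exactly as in `IsGp.rho_mem`. -/
theorem trace_mem {K : Type*} [Field K] [Algebra ℂ K] (V : ValuationSubring K)
    (hV : ∀ z : ℂ, algebraMap ℂ K z ∈ V) {L : Matrix D.BI D.BI K} (hL : IsGp F L) (hU : D.LoU L)
    (h : ∀ g : Matrix D.BI D.BI ℂ, IsGs E F g → D.mm (g.map (algebraMap ℂ K) * L) ∈ V)
    (X : D.BI → ℂ) (hX : E.IV X)
    (hs : (∀ a, X a ≠ 0 → 0 < D.hI a) ∨ (∀ a, X a ≠ 0 → D.hI a < 0)) :
    (D.ad (L *ᵥ D.tt (1 : Fin n → K)) * D.ad (fun a => algebraMap ℂ K (X a))).trace ∈ V := by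
  -- the matrix `A = ad X`
  have hA : ∀ z : ℂ, (algebraMap ℂ K z) • D.ad (fun a => algebraMap ℂ K (X a)) =
      (z • D.ad X).map (algebraMap ℂ K) := by
    intro z
    have h1 := D.ad_map (algebraMap ℂ K) X
    rw [← h1]
    ext a c
    simp
  -- the polynomial `Q`
  have hev : ∀ z : ℂ, (D.mm (D.gs (D.ad (fun a => algebraMap ℂ K (X a))) *
      L.map Polynomial.C)).eval (algebraMap ℂ K z) ∈ V := by
    intro z
    have h1 := D.mm_map (Polynomial.evalRingHom (algebraMap ℂ K z))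
      (D.gs (D.ad (fun a => algebraMap ℂ K (X a))) * L.map Polynomial.C)
    rw [Polynomial.coe_evalRingHom] at h1
    rw [h1]
    have h2 : (D.gs (D.ad (fun a => algebraMap ℂ K (X a))) * L.map Polynomial.C).map
        (Polynomial.eval (algebraMap ℂ K z)) =
        (D.expB (z • D.ad X)).map (algebraMap ℂ K) * L := by
      have h3 := Matrix.map_mul (L := D.gs (D.ad (fun a => algebraMap ℂ K (X a))))
        (M := L.map Polynomial.C) (f := Polynomial.evalRingHom (algebraMap ℂ K z))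
      rw [Polynomial.coe_evalRingHom] at h3
      rw [h3, D.gs_eval, hA]
      have h4 := D.expB_map (Algebra.ofId ℂ K) (z • D.ad X)
      have h5 : (L.map Polynomial.C).map (Polynomial.eval (algebraMap ℂ K z)) = L := by
        ext a c
        simp
      rw [h5]
      congr 1
      exact h4.symm
    rw [h2]
    refine h _ ?_
    rw [← D.ad_smul]
    have hsupp : ∀ a, (z • X) a ≠ 0 → X a ≠ 0 := by
      intro a ha h0
      apply ha
      rw [Pi.smul_apply, h0, smul_zero]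
    rcases hs with hs | hs
    · exact E.isGs_exp_up F (fun a ha => hs a (hsupp a ha)) (hX.smul z)
    · exact E.isGs_exp_down F (fun a ha => hs a (hsupp a ha)) (hX.smul z)
  have hco := coeff_mem V hV _ hev 1
  -- the other computation of the coefficient
  obtain ⟨E', hE⟩ := D.gs_two (D.ad (fun a => algebraMap ℂ K (X a)))
  have hLi : D.LoU (L⁻¹.map (Polynomial.C : K →+* Polynomial K)) := by
    have h1 := hU.inv
    constructor
    · intro a
      rw [Matrix.map_apply, h1.1, map_one]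
    · intro a c hac hca
      rw [Matrix.map_apply, h1.2 a c hac hca, map_zero]
  rw [← D.mm_loU_mul hLi] at hco
  have hLL : (L⁻¹.map (Polynomial.C : K →+* Polynomial K)) * L.map Polynomial.C = 1 := by
    rw [← Matrix.map_mul, hL.inv_mul]
    exact Matrix.map_one _ (map_zero _) (map_one _)
  have hexp : (L⁻¹.map (Polynomial.C : K →+* Polynomial K)) *
      (D.gs (D.ad (fun a => algebraMap ℂ K (X a))) * L.map Polynomial.C) =
      1 + (Polynomial.X : Polynomial K) •
        ((L⁻¹ * D.ad (fun a => algebraMap ℂ K (X a)) * L).map Polynomial.C) +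
      (Polynomial.X ^ 2 : Polynomial K) • ((L⁻¹.map (Polynomial.C : K →+* Polynomial K)) * E' *
        L.map Polynomial.C) := by
    rw [hE, Matrix.map_mul, Matrix.map_mul]
    rw [Matrix.add_mul, Matrix.add_mul, Matrix.mul_add, Matrix.mul_add, Matrix.one_mul, hLL,
      Matrix.smul_mul, Matrix.smul_mul, Matrix.mul_smul, Matrix.mul_smul, Matrix.mul_assoc,
      Matrix.mul_assoc]
  rw [hexp, D.mm_coeff] at hco
  have hZ : L⁻¹ * D.ad (fun a => algebraMap ℂ K (X a)) * L =
      D.ad (L⁻¹ *ᵥ fun a => algebraMap ℂ K (X a)) := by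
    rw [hL.inv.ad, Matrix.mul_assoc, hL.inv_mul, Matrix.mul_one]
  rw [hZ, D.sum_trace_ad] at hco
  have htr : (D.ad (D.tt 1) * D.ad (L⁻¹ *ᵥ fun a => algebraMap ℂ K (X a))).trace =
      (D.ad (L *ᵥ D.tt (1 : Fin n → K)) * D.ad (fun a => algebraMap ℂ K (X a))).trace := by
    rw [← hZ, hL.ad', ← Matrix.mul_assoc, Matrix.trace_mul_comm]
    simp only [Matrix.mul_assoc]
  rw [htr] at hco
  exact hco

theorem f4c_er_map {K : Type*} [Field K] [Algebra ℂ K] (y : Fin n → ℤ) :
    (fun a => algebraMap ℂ K (D.er ℂ y a)) = D.er K y := by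
  funext a
  rcases a with k | γ
  · simp
  · rw [SLD.er_inr, SLD.er_inr]
    split_ifs <;> simp

theorem f4c_ht {R : Type*} [CommRing R] {y : Fin n → ℤ} {a : D.BI} (h : D.er R y a ≠ 0) :
    D.hI a = SLD.ht y := by
  rcases a with k | γ
  · exact absurd (D.er_inl y k) h
  · rw [SLD.er_inr] at h
    by_cases h1 : γ.1 = y
    · rw [SLD.hI_inr, h1]
    · rw [if_neg h1] at h
      exact absurd rfl h

theorem f4c_ad {R : Type*} [CommRing R] (X : D.BI → R) :
    D.ad (fun a => X (E.sB a)) = (D.ad X).submatrix E.eB E.eB := by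
  ext a c
  rw [Matrix.submatrix_apply, D.ad_apply, D.ad_apply, ← Equiv.sum_comp E.eB]
  refine Finset.sum_congr rfl fun d _ => ?_
  rw [eB_apply, eB_apply, eB_apply, E.sB_sB]
  congr 1
  have h := E.st_sB (E.sB d) c a
  rw [E.sB_sB] at h
  rw [← h]

theorem f4c_trace {R : Type*} [CommRing R] (y : Fin n → ℤ) :
    (D.ad (D.er R (-E.sQ y)) * D.ad (D.er R (E.sQ y))).trace =
      (D.ad (D.er R (-y)) * D.ad (D.er R y)).trace := by
  have h1 : ∀ z : Fin n → ℤ, D.ad (D.er R (E.sQ z)) = (D.ad (D.er R z)).submatrix E.eB E.eB := by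
    intro z
    rw [← f4c_ad]
    congr 1
    funext a
    rw [er_sB]
  rw [← sQ_neg, h1, h1, Matrix.submatrix_mul_equiv]
  unfold Matrix.trace
  exact Equiv.sum_comp E.eB fun a => (D.ad (D.er R (-y)) * D.ad (D.er R y)) a a

/-- The root components of `L ρ`.  Put `w = L ρ`, which is invariant (`IM.mulVec`, `IV.tt`).
`trace_mem` for `X = e_γ` if `sR γ = γ`, otherwise `X = e_γ + e_{sγ}` (`IV.er`, `IV.er_add`); by `trace_er`
(for `γ` and `sγ`) the trace is `w_{-γ} z` resp. `w_{-γ} z + w_{-sγ} z'` with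
`z = tr (ad e_{-γ} ad e_γ)`, `z'` the same for `sγ`; `z' = z` (`submatrix eB eB` of the product,
`er_sB`, `Matrix.trace_submatrix`-type reindexing) and `w_{-sγ} = w_{-γ}`; `z`, resp. `2 z`, is the image of a
nonzero complex number (`trace_ne`), whose inverse is in `V`. -/
theorem rho_memF {K : Type*} [Field K] [Algebra ℂ K] (V : ValuationSubring K)
    (hV : ∀ z : ℂ, algebraMap ℂ K z ∈ V) {L : Matrix D.BI D.BI K} (hL : IsGs E F L) (hU : D.LoU L)
    (h : ∀ g : Matrix D.BI D.BI ℂ, IsGs E F g → D.mm (g.map (algebraMap ℂ K) * L) ∈ V)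
    (γ : D.Rt) : (L *ᵥ D.tt (1 : Fin n → K)) (Sum.inr γ) ∈ V := by
  have hw : E.IV (L *ᵥ D.tt (1 : Fin n → K)) := hL.im.mulVec (IV.tt fun _ => rfl)
  have hgen : ∀ X : D.BI → ℂ, E.IV X → (∀ a, X a ≠ 0 → D.hI a = SLD.ht (D.ng γ).1) →
      (D.ad (L *ᵥ D.tt (1 : Fin n → K)) * D.ad (fun a => algebraMap ℂ K (X a))).trace ∈ V := by
    intro X hX hh
    refine E.trace_mem F V hV hL.gp hU h X hX ?_
    rcases D.pos_or_neg (D.ng γ) with h1 | h1
    · left
      intro a ha
      rw [hh a ha]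
      exact (D.pos_iff_ht _).1 h1
    · right
      intro a ha
      rw [hh a ha]
      have h2 := (D.pos_iff_ht _).1 h1
      rw [SLD.ng_val, SLD.ht_neg] at h2
      omega
  obtain ⟨z, hz, hz2⟩ := D.trace_ne K (D.ng γ)
  have hdiv : ∀ (u : ℂ), u ≠ 0 → ∀ c : K, c * algebraMap ℂ K u ∈ V → c ∈ V := by
    intro u hu c hc
    have h1 : c = (c * algebraMap ℂ K u) * algebraMap ℂ K u⁻¹ := by
      rw [mul_assoc, ← map_mul, mul_inv_cancel₀ hu, map_one, mul_one]
    rw [h1]
    exact V.mul_mem _ _ hc (hV _)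
  by_cases hs : E.sR (D.ng γ) = D.ng γ
  · have h1 := hgen (D.er ℂ (D.ng γ).1) (IV.er (congrArg Subtype.val hs)) fun a ha => f4c_ht ha
    rw [f4c_er_map, D.trace_er, hz2, D.ng_ng] at h1
    exact hdiv z hz _ h1
  · have h1 := hgen (D.er ℂ (D.ng γ).1 + D.er ℂ (E.sQ (D.ng γ).1)) (IV.er_add _) (by
      intro a ha
      by_cases h2 : D.er ℂ (D.ng γ).1 a = 0
      · rw [Pi.add_apply, h2, zero_add] at ha
        rw [f4c_ht ha, E.ht_sQ]
      · exact f4c_ht h2)
    have h3 : (fun a => algebraMap ℂ K ((D.er ℂ (D.ng γ).1 + D.er ℂ (E.sQ (D.ng γ).1)) a)) =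
        D.er K (D.ng γ).1 + D.er K (E.sR (D.ng γ)).1 := by
      funext a
      rw [Pi.add_apply, Pi.add_apply, map_add]
      exact congrArg₂ (· + ·) (congrFun (f4c_er_map (K := K) (D := D) (D.ng γ).1) a)
        (congrFun (f4c_er_map (K := K) (D := D) (E.sR (D.ng γ)).1) a)
    rw [h3, D.ad_add, Matrix.mul_add, Matrix.trace_add,
      D.trace_er (L *ᵥ D.tt (1 : Fin n → K)) (D.ng γ),
      D.trace_er (L *ᵥ D.tt (1 : Fin n → K)) (E.sR (D.ng γ))] at h1
    have h4 : D.ng (E.sR (D.ng γ)) = E.sR γ := by rw [← E.sR_ng, D.ng_ng]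
    have h5 : (L *ᵥ D.tt (1 : Fin n → K)) (Sum.inr (E.sR γ)) =
        (L *ᵥ D.tt (1 : Fin n → K)) (Sum.inr γ) := hw (Sum.inr γ)
    have h6 := E.f4c_trace (R := K) (D.ng γ).1
    rw [h4, h5, D.ng_ng, E.sR_val, h6, hz2] at h1
    refine hdiv (2 * z) (mul_ne_zero two_ne_zero hz) _ ?_
    have h7 : (L *ᵥ D.tt (1 : Fin n → K)) (Sum.inr γ) * algebraMap ℂ K (2 * z) =
        (L *ᵥ D.tt (1 : Fin n → K)) (Sum.inr γ) * algebraMap ℂ K z +
          (L *ᵥ D.tt (1 : Fin n → K)) (Sum.inr γ) * algebraMap ℂ K z := by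
      rw [map_mul, map_ofNat]; ring
    rw [h7]
    exact h1

/-- the generic matrix over `K` -/
noncomputable def f4d_X (K : Type*) [Field K] (D : SLD n) :
    Matrix D.BI D.BI (MvPolynomial (D.BI × D.BI) K) :=
  Matrix.of fun a c => MvPolynomial.X (a, c)

/-- the polynomial whose values are the products of the principal minors of `h g` -/
noncomputable def f4d_P {K : Type*} [Field K] (D : SLD n) (g : Matrix D.BI D.BI K) :
    MvPolynomial (D.BI × D.BI) K :=
  D.mm (f4d_X K D * g.map MvPolynomial.C)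

theorem f4d_eval {K : Type*} [Field K] (g h : Matrix D.BI D.BI K) :
    MvPolynomial.eval (fun q : D.BI × D.BI => h q.1 q.2) (f4d_P D g) = D.mm (h * g) := by
  unfold f4d_P
  rw [D.mm_map, Matrix.map_mul]
  congr 2
  · ext a c
    rw [Matrix.map_apply]
    show MvPolynomial.eval _ (MvPolynomial.X (a, c)) = _
    rw [MvPolynomial.eval_X]
  · ext a c
    rw [Matrix.map_apply, Matrix.map_apply, MvPolynomial.eval_C]

theorem f4d_mm_one {K : Type*} [Field K] : D.mm (1 : Matrix D.BI D.BI K) = 1 := by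
  unfold SLD.mm
  exact Finset.prod_eq_one fun i _ => D.mn_loU i SLD.LoU.one

/-- as `IsGp.exists_h` (row L10e) -/
theorem exists_hF {K : Type*} [Field K] [Algebra ℂ K] (V : ValuationSubring K)
    (hV : ∀ z : ℂ, algebraMap ℂ K z ∈ V) {g : Matrix D.BI D.BI K} (hg : IsGs E F g) :
    ∃ h : Matrix D.BI D.BI ℂ, IsGs E F h ∧ D.mm (h.map (algebraMap ℂ K) * g) ≠ 0 ∧
      ∀ h' : Matrix D.BI D.BI ℂ, IsGs E F h' → ∃ v ∈ V,
        D.mm ((h' * h).map (algebraMap ℂ K) * g) = v * D.mm (h.map (algebraMap ℂ K) * g) := by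
  classical
  have heval : ∀ h : Matrix D.BI D.BI ℂ,
      MvPolynomial.eval (fun q : D.BI × D.BI => algebraMap ℂ K (h q.1 q.2)) (f4d_P D g) =
        D.mm (h.map (algebraMap ℂ K) * g) := fun h => f4d_eval g (h.map (algebraMap ℂ K))
  obtain ⟨S, hS⟩ : ∃ S : Finset K, S = (f4d_P D g).support.image
    (fun m => MvPolynomial.coeff m (f4d_P D g)) := ⟨_, rfl⟩
  have hspan : ∀ h : {h : Matrix D.BI D.BI ℂ // IsGs E F h},
      D.mm (h.1.map (algebraMap ℂ K) * g) ∈ Submodule.span ℂ (S : Set K) := by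
    intro h
    rw [← heval, MvPolynomial.eval_eq]
    apply Submodule.sum_mem
    intro m hm
    have h1 : MvPolynomial.coeff m (f4d_P D g) *
        ∏ i ∈ m.support, (algebraMap ℂ K (h.1 i.1 i.2)) ^ m i =
        (∏ i ∈ m.support, (h.1 i.1 i.2) ^ m i) • MvPolynomial.coeff m (f4d_P D g) := by
      rw [Algebra.smul_def, map_prod, mul_comm]
      congr 1
      exact Finset.prod_congr rfl fun i _ => by rw [map_pow]
    rw [h1]
    apply Submodule.smul_mem
    apply Submodule.subset_span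
    rw [hS, Finset.coe_image]
    exact ⟨m, hm, rfl⟩
  have hne : ∃ h : {h : Matrix D.BI D.BI ℂ // IsGs E F h},
      D.mm (h.1.map (algebraMap ℂ K) * g) ≠ 0 := by
    by_contra hcon
    push Not at hcon
    have h1 := transferF E F (f4d_P D g) (fun h hh => by rw [heval]; exact hcon ⟨h, hh⟩)
      g⁻¹ hg.inv
    rw [f4d_eval, hg.gp.inv_mul, f4d_mm_one] at h1
    exact one_ne_zero h1
  obtain ⟨j, hj, hdiv⟩ := exists_div V hV
    (fun h : {h : Matrix D.BI D.BI ℂ // IsGs E F h} => D.mm (h.1.map (algebraMap ℂ K) * g)) S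
    hspan hne
  exact ⟨j.1, j.2, hj, fun h' hh' => hdiv ⟨h' * j.1, hh'.mul j.2⟩⟩

/-- Iwasawa decomposition, as `IsGp.iwasawa` (row L10e): `exists_hF`, `exists_LUF`, `rho_memF`,
`IsGp.mem_of_rho`. -/
theorem iwasawaF {K : Type*} [Field K] [Algebra ℂ K] (V : ValuationSubring K)
    (hV : ∀ z : ℂ, algebraMap ℂ K z ∈ V) {g : Matrix D.BI D.BI K} (hg : IsGs E F g) :
    ∃ k b : Matrix D.BI D.BI K, IsGs E F k ∧ (∀ a c, k a c ∈ V) ∧ IsGs E F b ∧ D.UpT b ∧
      g = k * b := by
  obtain ⟨h, hh, hne, hdiv⟩ := exists_hF E F V hV hg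
  have hhK : IsGs E F (h.map (algebraMap ℂ K)) := hh.map (Algebra.ofId ℂ K)
  have hhiK : IsGs E F (h⁻¹.map (algebraMap ℂ K)) := hh.inv.map (Algebra.ofId ℂ K)
  obtain ⟨L, b, hL, hU, hb, hT, hLb⟩ := exists_LUF E F (hhK.mul hg) hne
  have hmmb : D.mm (h.map (algebraMap ℂ K) * g) = D.mm b := by
    rw [hLb, D.mm_loU_mul hU]
  have hb0 : D.mm b ≠ 0 := by
    rw [← hmmb]
    exact hne
  have hmem : ∀ h' : Matrix D.BI D.BI ℂ, IsGs E F h' →
      D.mm (h'.map (algebraMap ℂ K) * L) ∈ V := by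
    intro h' hh'
    obtain ⟨v, hv, hveq⟩ := hdiv h' hh'
    have h1 : D.mm ((h' * h).map (algebraMap ℂ K) * g) =
        D.mm (h'.map (algebraMap ℂ K) * L) * D.mm b := by
      rw [← D.mm_mul_up _ _ hT.upB, Matrix.map_mul, Matrix.mul_assoc, hLb, Matrix.mul_assoc]
    rw [h1, hmmb] at hveq
    rw [mul_right_cancel₀ hb0 hveq]
    exact hv
  have hLV : ∀ a c, L a c ∈ V := fun a c =>
    IsGp.mem_of_rho V hV hL.gp hU (fun γ => rho_memF E F V hV hL hU hmem γ) a c
  refine ⟨h⁻¹.map (algebraMap ℂ K) * L, b, hhiK.mul hL, ?_, hb, hT, ?_⟩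
  · intro a c
    rw [Matrix.mul_apply]
    apply sum_mem
    intro e _
    exact V.mul_mem _ _ (hV _) (hLV e c)
  · rw [Matrix.mul_assoc, ← hLb, ← Matrix.mul_assoc, ← Matrix.map_mul, hh.gp.inv_mul,
      Matrix.map_one _ (map_zero _) (map_one _), Matrix.one_mul]

end Fold

end Pool.Agent.MTX
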