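import Pool.Agent.MTX.F4
import Pool.Agent.MTX.L11
import Pool.Agent.MTX.D.Defs

/-! # MTX, Part F : the datum of the folded group (row F5)

Compare `L11.lean` (the datum `D.dat` of the group itself). -/

namespace Pool.Agent.MTX

open Matrix
open Pool.Agent.MTD (Dat ev expN srT ev_add ev_sub ev_neg ev_smul ev_zero ev_add_left ev_sub_left
  ev_neg_left ev_smul_left ev_zero_left ev_sum_left ev_sum ev_map ev_comm)
open Pool.Agent.MP_c45d35_ag (chi chi_add chi_mul chi_zero chi_one chi_inv chi_map)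

variable {n m : ℕ} {D : SLD n}

namespace Fold

variable (E : Fold D m) (F : Frm D)

/-- The Moore–Tachikawa datum of the folded group; `S0, sv, pm`: the slice, its generic point and the
conjugator of the big group. -/
noncomputable def datF (S0 : Set (D.BI → ℂ)) (sv : D.BI → MvPolynomial (Fin n) ℂ)
    (pm : Matrix D.BI D.BI (MvPolynomial (Fin n) ℂ)) : Dat m D.N E.PF where
  eqs := {p | ∃ q ∈ E.eqsF F,
    p = MvPolynomial.rename (fun ac : D.BI × D.BI => (D.eN ac.1, D.eN ac.2)) q}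
  wt i := E.ro (D.wI (D.eN.symm i))
  rt β := β.1
  cr β := E.crF β
  dep β := (SLD.ht β.1).toNat
  E β := D.toN (D.ad (E.eF ℂ β))
  ze β := if SLD.ht β.1 = 1 then 1 else 0
  S := {M | ∃ s ∈ S0, E.IV s ∧ M = D.toN (D.ad s)}
  sx := D.toN (D.ad fun a => MvPolynomial.rename E.o (sv a))
  px := D.toN (pm.map (MvPolynomial.rename E.o))

/-- what the theory of the Kostant slice has to supply -/
structure KostF (S0 : Set (D.BI → ℂ)) (sv : D.BI → MvPolynomial (Fin n) ℂ)
    (pm : Matrix D.BI D.BI (MvPolynomial (Fin n) ℂ)) : Prop where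
  pm_G : IsGp F pm
  pm_conj : pm *ᵥ (D.ee _ + D.tt MvPolynomial.X) = sv
  sv_mem : ∀ x : Fin n → ℂ, (fun a => MvPolynomial.eval x (sv a)) ∈ S0
  sv_refl : ∀ (γ : D.Rt) (x : Fin n → ℂ) (a : D.BI),
    MvPolynomial.eval (D.tact (D.rO γ) x) (sv a) = MvPolynomial.eval x (sv a)
  pm_s : ∀ a c, MvPolynomial.rename E.s (pm a c) = pm (E.sB a) (E.sB c)
  sv_s : ∀ a, MvPolynomial.rename E.s (sv a) = sv (E.sB a)
  surj : ∀ s ∈ S0, E.IV s → ∃ x : Fin m → ℂ,
    s = fun a => MvPolynomial.eval (fun i => x (E.o i)) (sv a)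
  nonss : ∀ (γ : D.Rt) (x : Fin n → ℂ), ev γ.1 x = 0 →
    ¬ ∃ g : Matrix D.BI D.BI ℂ, IsUnit g.det ∧
      g * D.ad (D.tt x) = D.ad (D.tt x + D.ee ℂ) * g

section fields
variable (S0 : Set (D.BI → ℂ)) (sv : D.BI → MvPolynomial (Fin n) ℂ)
  (pm : Matrix D.BI D.BI (MvPolynomial (Fin n) ℂ))

/-- `MvPolynomial.aeval_rename`, `isGs_iff` -/
theorem isG_iff {R : Type*} [CommRing R] [Algebra ℂ R] (g : Matrix (Fin D.N) (Fin D.N) R) :
    (E.datF F S0 sv pm).IsG g ↔ IsGs E F (D.ofN g) := by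
  rw [E.isGs_iff]
  constructor
  · intro h p hp
    have h1 := h _ ⟨p, hp, rfl⟩
    rw [MvPolynomial.aeval_rename] at h1
    exact h1
  · rintro h p ⟨q, hq, rfl⟩
    rw [MvPolynomial.aeval_rename]
    exact h q hq

theorem isG_toN {R : Type*} [CommRing R] [Algebra ℂ R] (g : Matrix D.BI D.BI R) :
    (E.datF F S0 sv pm).IsG (D.toN g) ↔ IsGs E F g := by
  rw [isG_iff, D.ofN_toN]

/-- `ad_tt`, `ev_ro` -/
theorem datF_Dx {R : Type*} [CommRing R] (x : Fin m → R) :
    (E.datF F S0 sv pm).Dx x = D.toN (D.ad (D.tt fun i => x (E.o i))) := by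
  rw [D.ad_tt]
  unfold SLD.toN
  rw [Matrix.submatrix_diagonal_equiv]
  unfold Dat.Dx
  congr 1
  funext i
  exact E.ev_ro _ _

/-- `chi_ro` -/
theorem datF_Tt {R : Type*} [CommRing R] (t : Fin m → Rˣ) :
    (E.datF F S0 sv pm).Tt t = D.toN (D.TB fun i => t (E.o i)) := by
  unfold SLD.toN SLD.TB
  rw [Matrix.submatrix_diagonal_equiv]
  unfold Dat.Tt
  congr 1
  funext i
  exact congrArg Units.val (E.chi_ro _ _)

/-- the vector `∑ Z_β e_β` -/
noncomputable def zF {R : Type*} [CommRing R] (Z : E.PF → R) : D.BI → R :=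
  ∑ β : E.PF, Z β • E.eF R β

theorem IV_zF {R : Type*} [CommRing R] (Z : E.PF → R) : E.IV (E.zF Z) :=
  IV.sum _ _ fun β _ => (E.IV_eF β).smul _

theorem f5a_eF_inl (R : Type*) [CommRing R] (β : E.PF) (k : Fin n) :
    E.eF R β (Sum.inl k) = 0 := by
  unfold eF
  split_ifs
  · exact SLD.er_inl D _ k
  · rw [Pi.add_apply, SLD.er_inl, SLD.er_inl, add_zero]

open Classical in
theorem f5a_eF_inr (R : Type*) [CommRing R] (β : E.PF) (γ : D.Rt) :
    E.eF R β (Sum.inr γ) = if E.ro γ.1 = β.1 then 1 else 0 := by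
  unfold eF
  by_cases hr : E.ro γ.1 = β.1
  · rw [if_pos hr]
    by_cases h2 : E.sR (E.rep β) = E.rep β
    · rw [if_pos h2, SLD.er_inr, if_pos]
      rcases E.fib β γ hr with h1 | h1
      · rw [h1]
      · rw [h1, h2]
    · rw [if_neg h2, Pi.add_apply, SLD.er_inr, SLD.er_inr]
      have h3 : E.sQ (E.rep β).1 ≠ (E.rep β).1 := fun h' => h2 (Subtype.ext h')
      rcases E.fib β γ hr with h1 | h1
      · rw [h1, if_pos rfl, if_neg (Ne.symm h3), add_zero]
      · rw [h1, sR_val, if_neg h3, if_pos rfl, zero_add]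
  · rw [if_neg hr]
    have h3 : γ.1 ≠ (E.rep β).1 := fun h' => hr (by rw [h', E.ro_rep])
    have h4 : γ.1 ≠ E.sQ (E.rep β).1 := fun h' => hr (by rw [h', E.ro_sQ, E.ro_rep])
    split_ifs
    · rw [SLD.er_inr, if_neg h3]
    · rw [Pi.add_apply, SLD.er_inr, SLD.er_inr, if_neg h3, if_neg h4, add_zero]

/-- components of positive height only (`eF_pos`) -/
theorem zF_pos {R : Type*} [CommRing R] (Z : E.PF → R) (a : D.BI) (h : E.zF Z a ≠ 0) :
    0 < D.hI a := by
  unfold zF at h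
  rw [Finset.sum_apply] at h
  obtain ⟨β, -, hβ⟩ := Finset.exists_ne_zero_of_sum_ne_zero h
  refine E.eF_pos (R := R) β a fun h' => hβ ?_
  rw [Pi.smul_apply, h', smul_zero]

/-- The component of `zF Z` at a positive root `γ` is `Z (ro γ)`: `eF β` at `γ` is `1` if `ro γ = β`
(`γ = rep β` or `sR (rep β)`: `fib`), else `0`. -/
theorem zF_apply {R : Type*} [CommRing R] (Z : E.PF → R) (γ : D.Rt) (h : D.Pos γ) :
    E.zF Z (Sum.inr γ) = Z (E.rp γ h) := by
  unfold zF
  rw [Finset.sum_apply, Finset.sum_eq_single (E.rp γ h)]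
  · rw [Pi.smul_apply, f5a_eF_inr, if_pos (show E.ro γ.1 = (E.rp γ h).1 from rfl), smul_eq_mul,
      mul_one]
  · intro β _ hβ
    rw [Pi.smul_apply, f5a_eF_inr, if_neg, smul_zero]
    intro h1
    exact hβ (Subtype.ext h1.symm)
  · intro h1
    exact absurd (Finset.mem_univ _) h1

/-- every invariant vector with components of positive height only is some `zF Z`
(`Z β = z (inr (rep β))`; `zF_apply`, `fib`; `pos_iff_ht`, `hI`) -/
theorem exists_zF {R : Type*} [CommRing R] (z : D.BI → R) (h : ∀ a, z a ≠ 0 → 0 < D.hI a)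
    (hI : E.IV z) : ∃ Z, z = E.zF Z := by
  refine ⟨fun β => z (Sum.inr (E.rep β)), ?_⟩
  have h0 : ∀ a : D.BI, ¬ 0 < D.hI a → z a = E.zF (fun β => z (Sum.inr (E.rep β))) a := by
    intro a ha
    have h1 : z a = 0 := by
      by_contra hne
      exact ha (h a hne)
    have h2 : E.zF (fun β => z (Sum.inr (E.rep β))) a = 0 := by
      by_contra hne
      exact ha (E.zF_pos _ a hne)
    rw [h1, h2]
  funext a
  rcases a with k | γ
  · exact h0 _ (by rw [SLD.hI_inl]; exact lt_irrefl _)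
  · by_cases hγ : D.Pos γ
    · rw [E.zF_apply _ γ hγ]
      rcases E.fib (E.rp γ hγ) γ rfl with h1 | h1
      · exact congrArg (fun δ => z (Sum.inr δ)) h1
      · refine (congrArg (fun δ => z (Sum.inr δ)) h1).trans ?_
        exact hI (Sum.inr (E.rep (E.rp γ hγ)))
    · refine h0 _ ?_
      rw [SLD.hI_inr]
      exact fun h1 => hγ ((D.pos_iff_ht γ).2 h1)

/-- `ad_sum`, `ad_smul`, `ad_map` -/
theorem datF_Y {R : Type*} [CommRing R] [Algebra ℂ R] (Z : E.PF → R) :
    (E.datF F S0 sv pm).Y Z = D.toN (D.ad (E.zF Z)) := by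
  have h1 : ∀ β : E.PF, (D.ad (E.eF ℂ β)).map (algebraMap ℂ R) = D.ad (E.eF R β) := by
    intro β
    rw [D.ad_map]
    congr 1
    funext a
    rcases a with k | γ
    · rw [f5a_eF_inl, f5a_eF_inl, map_zero]
    · rw [f5a_eF_inr, f5a_eF_inr]
      split_ifs
      · exact map_one _
      · exact map_zero _
  have h2 : ∀ β : E.PF, ((E.datF F S0 sv pm).E β).map (algebraMap ℂ R)
      = D.toN (D.ad (E.eF R β)) := by
    intro β
    rw [← h1]
    rfl
  have h3 : ∀ s : Finset E.PF, ∑ β ∈ s, Z β • D.toN (D.ad (E.eF R β))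
      = D.toN (∑ β ∈ s, Z β • D.ad (E.eF R β)) := by
    intro s
    classical
    induction s using Finset.induction_on with
    | empty => simp [SLD.toN, Matrix.submatrix_zero]
    | insert a s ha ih =>
      rw [Finset.sum_insert ha, Finset.sum_insert ha, SLD.toN_add, ih, SLD.toN_smul]
  unfold Pool.Agent.MTD.Dat.Y zF
  rw [D.ad_sum]
  simp only [h2, h3, D.ad_smul]

/-- `ee` is invariant (`ee = ∑ e_{α_i}`, permuted by `s`: `er_sB`, `sQ_al`) -/
theorem IV_ee {R : Type*} [CommRing R] : E.IV (D.ee R) := by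
  intro a
  unfold SLD.ee
  rw [Finset.sum_apply, Finset.sum_apply, ← Equiv.sum_comp E.sE]
  refine Finset.sum_congr rfl fun i _ => ?_
  rw [E.er_sB, sE_apply, sQ_al, E.s_s]

/-- components at positive roots: `zF_apply`; `ee (inr γ) = 1` iff `γ` is simple iff `ht γ = 1`
(all coordinates `≥ 0`), and `ht (ro γ) = ht γ` (`ht_ro`) -/
theorem zF_ze {R : Type*} [CommRing R] [Algebra ℂ R] :
    E.zF (fun β : E.PF => algebraMap ℂ R ((E.datF F S0 sv pm).ze β)) = D.ee R := by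
  funext a
  rcases a with k | γ
  · have h1 : E.zF (fun β : E.PF => algebraMap ℂ R ((E.datF F S0 sv pm).ze β)) (Sum.inl k) = 0 := by
      by_contra hne
      have h2 := E.zF_pos _ _ hne
      rw [SLD.hI_inl] at h2
      exact lt_irrefl _ h2
    rw [h1]
    unfold SLD.ee
    rw [Finset.sum_apply]
    exact (Finset.sum_eq_zero fun i _ => D.er_inl _ _).symm
  · by_cases hs : ∃ i, γ = D.al i
    · obtain ⟨i, rfl⟩ := hs
      rw [E.zF_apply _ _ (D.pos_al i)]
      have h1 : (E.datF F S0 sv pm).ze (E.rp (D.al i) (D.pos_al i)) = 1 := by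
        refine if_pos ?_
        show SLD.ht (E.ro (D.al i).1) = 1
        rw [ht_ro, D.ht_al]
      rw [h1, map_one]
      unfold SLD.ee
      rw [Finset.sum_apply, Finset.sum_eq_single i]
      · rw [SLD.er_inr, if_pos rfl]
      · intro j _ hj
        rw [SLD.er_inr, if_neg]
        intro h1
        rw [SLD.al_val, SLD.al_val] at h1
        have h2 := congrFun h1 i
        rw [Pi.single_eq_same, Pi.single_eq_of_ne (Ne.symm hj)] at h2
        exact one_ne_zero h2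
      · intro h1
        exact absurd (Finset.mem_univ _) h1
    · have hs' : ∀ i, γ ≠ D.al i := fun i h => hs ⟨i, h⟩
      have h1 : D.ee R (Sum.inr γ) = 0 := by
        unfold SLD.ee
        rw [Finset.sum_apply]
        refine Finset.sum_eq_zero fun i _ => ?_
        rw [SLD.er_inr, if_neg]
        intro h1
        exact hs' i (Subtype.ext h1)
      rw [h1]
      by_cases hγ : D.Pos γ
      · rw [E.zF_apply _ _ hγ]
        have h2 : (E.datF F S0 sv pm).ze (E.rp γ hγ) = 0 := by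
          refine if_neg ?_
          show SLD.ht (E.ro γ.1) ≠ 1
          rw [ht_ro]
          intro h3
          obtain ⟨i, hi, h4⟩ := D.exists_sub hγ hs'
          have h5 := D.ht_pos h4
          have h6 : SLD.ht (D.subR γ (D.al i) hi).1 = SLD.ht γ.1 - SLD.ht (D.al i).1 :=
            SLD.ht_sub _ _
          rw [h6, h3, D.ht_al] at h5
          omega
        rw [h2, map_zero]
      · by_contra hne
        have h2 := E.zF_pos _ _ hne
        rw [SLD.hI_inr] at h2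
        exact hγ ((D.pos_iff_ht γ).2 h2)

/-- `up_diag`: equal restrictions have equal heights (`ht_ro`) -/
theorem datF_mult {R : Type} [CommRing R] [Algebra ℂ R] (g : Matrix (Fin D.N) (Fin D.N) R)
    (hg : (E.datF F S0 sv pm).IsG g) (h : ∀ i j, j < i → g i j = 0) (i j : Fin D.N)
    (hij : (E.datF F S0 sv pm).wt i = (E.datF F S0 sv pm).wt j) (hne : i ≠ j) : g i j = 0 := by
  have hG := (E.isG_iff F S0 sv pm g).1 hg
  have hU := (D.upT_iff g).2 h
  have hij' : E.ro (D.wI (D.eN.symm i)) = E.ro (D.wI (D.eN.symm j)) := hij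
  have hh : D.hI (D.eN.symm i) = D.hI (D.eN.symm j) := by
    unfold SLD.hI
    rw [← E.ht_ro (D.wI (D.eN.symm i)), hij', E.ht_ro]
  have h1 := hG.gp.up_diag hU (fun h' => hne (D.eN.symm.injective h')) hh
  rwa [SLD.ofN_apply, Equiv.apply_symm_apply, Equiv.apply_symm_apply] at h1

/-- `i = eN (inr (al (r k)))`, `ro_single`, `o_r` -/
theorem datF_wt_std (k : Fin m) : ∃ i, (E.datF F S0 sv pm).wt i = Pi.single k 1 := by
  refine ⟨D.eN (Sum.inr (D.al (E.r k))), ?_⟩
  change E.ro (D.wI (D.eN.symm (D.eN (Sum.inr (D.al (E.r k)))))) = Pi.single k 1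
  rw [Equiv.symm_apply_apply, SLD.wI_inr, SLD.al_val, ro_single, E.o_r]

/-- `indep` -/
theorem datF_rt_indep (β γ : E.PF) (a b : ℤ) (h : β ≠ γ)
    (h2 : a • (E.datF F S0 sv pm).rt β = b • (E.datF F S0 sv pm).rt γ) : a = 0 ∧ b = 0 := by
  obtain ⟨_, γ1, h1, rfl⟩ := β
  obtain ⟨_, γ2, h2', rfl⟩ := γ
  exact E.indep h1 h2' (fun h' => h (Subtype.ext h')) h2

/-- `ad_up`, `lt_of_hI`, `st_wt`: the entries of `ad (eF β)` at `(a, c)` nonzero imply
`wI a - wI c ∈ {b, s b}`, restriction `β` (`ro_rep`, `ro_sQ`, `ro_sub`) -/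
theorem datF_E_supp (β : E.PF) (i j : Fin D.N) (h : (E.datF F S0 sv pm).E β i j ≠ 0) :
    i < j ∧ (E.datF F S0 sv pm).wt i - (E.datF F S0 sv pm).wt j = (E.datF F S0 sv pm).rt β := by
  have h0 : D.ad (E.eF ℂ β) (D.eN.symm i) (D.eN.symm j) ≠ 0 := h
  have h1 := D.ad_up (E.eF_pos β) _ _ h0
  have h2 := D.lt_of_hI h1
  rw [Equiv.apply_symm_apply, Equiv.apply_symm_apply] at h2
  refine ⟨h2, ?_⟩
  change E.ro (D.wI (D.eN.symm i)) - E.ro (D.wI (D.eN.symm j)) = β.1
  rw [SLD.ad_apply] at h0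
  obtain ⟨b, -, hb⟩ := Finset.exists_ne_zero_of_sum_ne_zero h0
  have hb1 : E.eF ℂ β b ≠ 0 := fun h' => hb (by rw [h', zero_mul])
  have hb2 : D.st b (D.eN.symm j) (D.eN.symm i) ≠ 0 :=
    fun h' => hb (by rw [h', Int.cast_zero, mul_zero])
  have h3 := D.st_wt hb2
  have h4 : E.ro (D.wI b) = β.1 := by
    unfold eF at hb1
    split_ifs at hb1 with hr
    · rcases b with k | γ
      · exact absurd rfl hb1
      · rw [SLD.er_inr] at hb1
        have h5 : γ.1 = (E.rep β).1 := by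
          by_contra hcon
          exact hb1 (if_neg hcon)
        rw [SLD.wI_inr, h5, E.ro_rep]
    · rcases b with k | γ
      · exact absurd (by rw [Pi.add_apply, SLD.er_inl, SLD.er_inl, add_zero]) hb1
      · rw [Pi.add_apply, SLD.er_inr, SLD.er_inr] at hb1
        by_cases h5 : γ.1 = (E.rep β).1
        · rw [SLD.wI_inr, h5, E.ro_rep]
        · by_cases h6 : γ.1 = E.sQ (E.rep β).1
          · rw [SLD.wI_inr, h6, E.ro_sQ, E.ro_rep]
          · rw [if_neg h5, if_neg h6, add_zero] at hb1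
            exact absurd rfl hb1
  rw [h3, E.ro_add, h4, add_sub_cancel_right]

/-- `hg i = hI (eN.symm i)` (`hI_anti`); `ht_ro`, `datF_E_supp` -/
theorem datF_hgt : ∃ hg : Fin D.N → ℤ, (∀ i j, i ≤ j → hg j ≤ hg i) ∧
    ∀ β i j, (E.datF F S0 sv pm).E β i j ≠ 0 → hg i = hg j + (E.datF F S0 sv pm).dep β := by
  refine ⟨fun i => D.hI (D.eN.symm i), fun i j hij => D.hI_anti i j hij, fun β i j h => ?_⟩
  have h1 := (E.datF_E_supp F S0 sv pm β i j h).2
  have h2 : E.ro (D.wI (D.eN.symm i)) - E.ro (D.wI (D.eN.symm j)) = β.1 := h1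
  have h3 : SLD.ht (E.ro (D.wI (D.eN.symm i))) - SLD.ht (E.ro (D.wI (D.eN.symm j))) =
      SLD.ht β.1 := by rw [← SLD.ht_sub, h2]
  rw [E.ht_ro, E.ht_ro] at h3
  have h4 : 0 < SLD.ht β.1 := by
    rw [← E.ro_rep β, E.ht_ro]
    have := D.ht_pos (E.rep_pos β)
    omega
  change D.hI (D.eN.symm i) = D.hI (D.eN.symm j) + ((SLD.ht β.1).toNat : ℤ)
  rw [Int.toNat_of_nonneg h4.le]
  unfold SLD.hI
  linarith

/-- `ad_inj'`; the component of `eF β` at `rep β` is `1` -/
theorem datF_E_ne (β : E.PF) : (E.datF F S0 sv pm).E β ≠ 0 := by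
  intro h
  have h0 : D.toN (D.ad (E.eF ℂ β)) = 0 := h
  have h1 : D.ad (E.eF ℂ β) = 0 := by
    rw [← D.ofN_toN (D.ad (E.eF ℂ β)), h0]
    rfl
  have h2 := D.ad_inj h1
  have h3 := congrFun h2 (Sum.inr (E.rep β))
  unfold eF at h3
  split_ifs at h3 with hr
  · rw [SLD.er_inr, if_pos rfl] at h3
    exact one_ne_zero h3
  · rw [Pi.add_apply, SLD.er_inr, SLD.er_inr, if_pos rfl, if_neg, add_zero] at h3
    · exact one_ne_zero h3
    · intro h4
      exact hr (Subtype.ext h4.symm)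

/-- `ht_ro`, `ht_pos` -/
theorem datF_dep_pos (β : E.PF) : 0 < (E.datF F S0 sv pm).dep β := by
  have h4 : 0 < SLD.ht β.1 := by
    rw [← E.ro_rep β, E.ht_ro]
    have := D.ht_pos (E.rep_pos β)
    omega
  change 0 < (SLD.ht β.1).toNat
  omega

/-- `isGs_exp_up`, `zF_pos`, `IV_zF`, `toN_expB`, `datF_Y` -/
theorem datF_exp {R : Type} [CommRing R] [Algebra ℂ R] (Z : E.PF → R) :
    (E.datF F S0 sv pm).IsG (expN ((E.datF F S0 sv pm).Y Z)) := by
  rw [datF_Y, ← D.toN_expB, isG_toN]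
  exact E.isGs_exp_up F (E.zF_pos Z) (E.IV_zF Z)

/-- `up_conjF`, `exists_zF`, `IsGp.ad` -/
theorem datF_conj {R : Type} [CommRing R] [Algebra ℂ R] (g : Matrix (Fin D.N) (Fin D.N) R)
    (x : Fin m → R) (Z : E.PF → R) (hg : (E.datF F S0 sv pm).IsG g)
    (h : ∀ i j, j < i → g i j = 0) : ∃ Z' : E.PF → R,
      g * ((E.datF F S0 sv pm).Dx x + (E.datF F S0 sv pm).Y Z) =
        ((E.datF F S0 sv pm).Dx x + (E.datF F S0 sv pm).Y Z') * g := by
  have h1 : IsGs E F (D.ofN g) := (E.isG_iff F S0 sv pm g).1 hg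
  have h2 : D.UpT (D.ofN g) := (D.upT_iff g).2 h
  obtain ⟨z', hz', hI', hz''⟩ := E.up_conjF F h1 h2 x (E.zF_pos Z) (E.IV_zF Z)
  obtain ⟨Z', rfl⟩ := E.exists_zF z' hz' hI'
  refine ⟨Z', ?_⟩
  have h3 := h1.gp.ad (D.tt (fun i => x (E.o i)) + E.zF Z)
  rw [hz'', D.ad_add, D.ad_add] at h3
  have h4 := congrArg D.toN h3
  rw [D.toN_mul, D.toN_mul, D.toN_ofN, D.toN_add, D.toN_add] at h4
  rw [datF_Dx, datF_Y, datF_Y]
  exact h4

/-- `up_chiF` -/
theorem datF_levi {K : Type} [Field K] [Algebra ℂ K] (g : Matrix (Fin D.N) (Fin D.N) K)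
    (hg : (E.datF F S0 sv pm).IsG g) (h : ∀ i j, j < i → g i j = 0) :
    ∃ t : Fin m → Kˣ, ∀ i, g i i = ((chi ((E.datF F S0 sv pm).wt i) t : Kˣ) : K) := by
  have h1 : IsGs E F (D.ofN g) := (E.isG_iff F S0 sv pm g).1 hg
  have h2 : D.UpT (D.ofN g) := (D.upT_iff g).2 h
  obtain ⟨t, ht⟩ := E.up_chiF F h1 h2
  refine ⟨t, fun i => ?_⟩
  have h3 := ht (D.eN.symm i)
  rw [D.ofN_apply, Equiv.apply_symm_apply] at h3
  exact h3

/-- `centF` -/
theorem datF_cent (g : Matrix (Fin D.N) (Fin D.N) ℂ) (x : Fin m → ℂ)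
    (hg : (E.datF F S0 sv pm).IsG g) (hx : (E.datF F S0 sv pm).Reg x)
    (h : Commute g ((E.datF F S0 sv pm).Dx x)) : ∃ t : Fin m → ℂˣ,
      g = (E.datF F S0 sv pm).Tt t := by
  have h1 : IsGs E F (D.ofN g) := (E.isG_iff F S0 sv pm g).1 hg
  have h2 : D.ofN g * D.ad (D.tt fun i => x (E.o i)) =
      D.ad (D.tt fun i => x (E.o i)) * D.ofN g := by
    have h3 := congrArg D.ofN h.eq
    rw [datF_Dx, D.ofN_mul, D.ofN_mul, D.ofN_toN] at h3
    exact h3
  obtain ⟨t, ht⟩ := E.centF F h1 (fun β => hx β) h2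
  refine ⟨t, ?_⟩
  rw [datF_Tt, ← ht, D.toN_ofN]

/-- `w = toN (nF β)`: `isGs_nF`, `nF_tt`, `IsGp.ad`, `tact_wF` (`sr β x k = x k - β(x) cr β k`), `TB_nF` -/
theorem datF_weyl (β : E.PF) : ∃ w : Matrix (Fin D.N) (Fin D.N) ℂ, (E.datF F S0 sv pm).IsG w ∧
    (∀ x : Fin m → ℂ, w * (E.datF F S0 sv pm).Dx x =
      (E.datF F S0 sv pm).Dx ((E.datF F S0 sv pm).sr β x) * w) ∧
    ∀ t : Fin m → ℂˣ, (E.datF F S0 sv pm).Tt t * w =
      w * (E.datF F S0 sv pm).Tt (srT (E.datF F S0 sv pm) β t) := by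
  have hg := E.isGs_nF F β
  refine ⟨D.toN (E.nF β), (E.isG_toN F S0 sv pm _).2 hg, fun x => ?_, fun t => ?_⟩
  · have h1 := hg.gp.ad (D.tt fun i => x (E.o i))
    rw [E.nF_tt β] at h1
    have h2 : D.tact (E.wF β) (fun i => x (E.o i)) =
        fun i => (E.datF F S0 sv pm).sr β x (E.o i) := by
      funext i
      exact E.tact_wF β x i
    rw [h2] at h1
    rw [datF_Dx, datF_Dx, ← D.toN_mul, ← D.toN_mul, h1]
  · have h1 := E.TB_nF β t
    rw [datF_Tt, datF_Tt, ← D.toN_mul, ← D.toN_mul, h1]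
    congr 3

/-- `iwasawaF` -/
theorem datF_iwa {K : Type} [Field K] [Algebra ℂ K] (V : ValuationSubring K)
    (hV : ∀ z : ℂ, algebraMap ℂ K z ∈ V) (g : Matrix (Fin D.N) (Fin D.N) K)
    (hg : (E.datF F S0 sv pm).IsG g) : ∃ k b : Matrix (Fin D.N) (Fin D.N) K,
      (E.datF F S0 sv pm).IsG k ∧ (∀ i j, k i j ∈ V) ∧ (E.datF F S0 sv pm).IsG b ∧
      (∀ i j, j < i → b i j = 0) ∧ g = k * b := by
  have h1 : IsGs E F (D.ofN g) := (E.isG_iff F S0 sv pm g).1 hg
  obtain ⟨k, b, hk, hkV, hb, hbU, he⟩ := E.iwasawaF F V hV h1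
  refine ⟨D.toN k, D.toN b, (E.isG_toN F S0 sv pm k).2 hk, fun i j => hkV _ _,
    (E.isG_toN F S0 sv pm b).2 hb, ?_, ?_⟩
  · apply (D.upT_iff _).1
    rw [D.ofN_toN]
    exact hbU
  · rw [← D.toN_mul, ← he, D.toN_ofN]

/-- `z = 1`, `line` -/
theorem datF_zc (β : E.PF) : ∃ z : Fin m → ℂˣ, (∀ γ, chi ((E.datF F S0 sv pm).rt γ) z = 1) ∧
    ∀ ν : Fin m → ℤ, (∃ a b : ℤ, a ≠ 0 ∧ a • ν = b • (E.datF F S0 sv pm).rt β) → chi ν z = 1 →
      ∃ k : ℤ, ν = k • (E.datF F S0 sv pm).rt β :=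
  ⟨1, fun γ => by simp [chi], fun ν h _ => E.line β ν h⟩

theorem f5d_ee_map {R S : Type*} [CommRing R] [CommRing S] (φ : R →+* S) (a : D.BI) :
    φ (D.ee R a) = D.ee S a := by
  simp only [SLD.ee, Finset.sum_apply, map_sum]
  refine Finset.sum_congr rfl fun i _ => ?_
  rcases a with k | γ
  · simp
  · simp only [SLD.er_inr]
    split_ifs <;> simp

theorem f5d_refl {S0 : Set (D.BI → ℂ)} {sv : D.BI → MvPolynomial (Fin n) ℂ}
    {pm : Matrix D.BI D.BI (MvPolynomial (Fin n) ℂ)} (K : E.KostF F S0 sv pm) (β : E.PF)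
    (x : Fin n → ℂ) (a : D.BI) :
    MvPolynomial.eval (D.tact (E.wF β) x) (sv a) = MvPolynomial.eval x (sv a) := by
  unfold wF
  split_ifs
  · exact K.sv_refl _ x a
  · rw [D.tact_mul, K.sv_refl, K.sv_refl]

theorem f5d_Ye {R : Type*} [CommRing R] [Algebra ℂ R] (S0 : Set (D.BI → ℂ))
    (sv : D.BI → MvPolynomial (Fin n) ℂ) (pm : Matrix D.BI D.BI (MvPolynomial (Fin n) ℂ)) :
    (E.datF F S0 sv pm).Y (fun β => algebraMap ℂ R ((E.datF F S0 sv pm).ze β)) =
        D.toN (D.ad (D.ee R)) := by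
  rw [datF_Y, ← E.zF_ze F S0 sv pm]

/-- All conditions.  The slice conditions from `KostF`: `px_G`: `pm.map (rename o)` is in the group (`IsGp.map`) and
invariant (`pm_s`, `o ∘ s = o`: `rename_rename`, `o_s`); `px_conj`: apply `rename o` to `pm_conj`, `IsGp.ad`,
`zF_ze`, `datF_Dx`; `sx_mem`: `sv_mem` at `x ∘ o` (`MvPolynomial.eval_rename`), invariance by `sv_s`;
`sx_surj`: `surj`; `sx_refl`: `tact_wF`, and `sv_refl` once or twice (`wF`, `tact_mul`); `nonss`: `GenW β x` gives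
`ev (rep β) (x ∘ o) = 0` (`ro_rep`, `ev_ro`); transport to `BI` (`ofN`, `ofN_det`). -/
theorem axF {S0 : Set (D.BI → ℂ)} {sv : D.BI → MvPolynomial (Fin n) ℂ}
    {pm : Matrix D.BI D.BI (MvPolynomial (Fin n) ℂ)} (K : E.KostF F S0 sv pm) :
    MTXD.Ax (E.datF F S0 sv pm) where
  mult := E.datF_mult F S0 sv pm
  wt_std := E.datF_wt_std F S0 sv pm
  rt_indep := E.datF_rt_indep F S0 sv pm
  lexpos := fun β => E.lexpos β
  cr_rt := fun β => E.ev_crF_rt β
  cr_sep := fun μ h => E.crF_sep μ h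
  refl_rt := fun β γ => E.refl_PF β γ
  E_supp := E.datF_E_supp F S0 sv pm
  hgt := E.datF_hgt F S0 sv pm
  E_ne := E.datF_E_ne F S0 sv pm
  dep_pos := E.datF_dep_pos F S0 sv pm
  mul g h hg hh := by
    rw [isG_iff] at hg hh ⊢
    rw [D.ofN_mul]
    exact hg.mul hh
  det g hg := by
    rw [isG_iff] at hg
    rw [← D.ofN_det]
    exact hg.gp.det
  inv g hg := by
    rw [isG_iff] at hg ⊢
    rw [D.ofN_inv]
    exact hg.inv
  torus t := by
    rw [datF_Tt, isG_toN]
    exact E.isGs_TB F t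
  exp Z := E.datF_exp F S0 sv pm Z
  conj g x Z hg h := E.datF_conj F S0 sv pm g x Z hg h
  levi g hg h := E.datF_levi F S0 sv pm g hg h
  cent g x hg hx h := E.datF_cent F S0 sv pm g x hg hx h
  weyl β := E.datF_weyl F S0 sv pm β
  iwa V hV g hg := E.datF_iwa F S0 sv pm V hV g hg
  px_G := by
    refine (E.isG_toN F S0 sv pm _).2 ⟨K.pm_G.map (MvPolynomial.rename E.o), fun a c => ?_⟩
    rw [Matrix.map_apply, Matrix.map_apply, ← K.pm_s, MvPolynomial.rename_rename]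
    congr 2
    funext i
    exact E.o_s i
  px_conj := by
    have hG : IsGp F (pm.map (MvPolynomial.rename E.o)) := K.pm_G.map (MvPolynomial.rename E.o)
    have h0 : pm.map (MvPolynomial.rename E.o) *ᵥ
        (D.ee (MvPolynomial (Fin m) ℂ) + D.tt (fun i => MvPolynomial.X (E.o i))) =
        fun a => MvPolynomial.rename E.o (sv a) := by
      funext a
      have h1 := congrArg (MvPolynomial.rename E.o) (congrFun K.pm_conj a)
      rw [← h1, Matrix.mulVec, Matrix.mulVec, dotProduct, dotProduct, map_sum]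
      refine Finset.sum_congr rfl fun c _ => ?_
      rw [map_mul, Matrix.map_apply, Pi.add_apply, Pi.add_apply, map_add]
      congr 2
      · exact (f5d_ee_map (MvPolynomial.rename E.o : MvPolynomial (Fin n) ℂ →ₐ[ℂ] _).toRingHom
          c).symm
      · rcases c with k | γ
        · simp
        · simp
    have h1 := hG.ad (D.ee (MvPolynomial (Fin m) ℂ) + D.tt (fun i => MvPolynomial.X (E.o i)))
    rw [h0] at h1
    have h2 := congrArg D.toN h1
    rw [D.toN_mul, D.toN_mul, D.ad_add, D.toN_add] at h2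
    have h3 : (E.datF F S0 sv pm).Y (fun β => MvPolynomial.C ((E.datF F S0 sv pm).ze β)) =
        D.toN (D.ad (D.ee (MvPolynomial (Fin m) ℂ))) := E.f5d_Ye F S0 sv pm
    rw [h3, E.datF_Dx F S0 sv pm]
    exact h2
  sx_mem x := by
    refine ⟨fun a => MvPolynomial.eval (fun i => x (E.o i)) (sv a), K.sv_mem _, fun a => ?_, ?_⟩
    · show MvPolynomial.eval _ (sv (E.sB a)) = _
      rw [← K.sv_s, MvPolynomial.eval_rename]
      congr 2
      funext i
      exact congrArg x (E.o_s i)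
    · show (D.toN (D.ad fun a => MvPolynomial.rename E.o (sv a))).map (MvPolynomial.eval x) = _
      rw [D.toN_map, D.ad_map]
      congr 2
      funext a
      rw [MvPolynomial.eval_rename]
      rfl
  sx_surj := by
    rintro s ⟨s0, hs0, hI, rfl⟩
    obtain ⟨x, rfl⟩ := K.surj s0 hs0 hI
    refine ⟨x, ?_⟩
    show _ = (D.toN (D.ad fun a => MvPolynomial.rename E.o (sv a))).map (MvPolynomial.eval x)
    rw [D.toN_map, D.ad_map]
    congr 2
    funext a
    rw [MvPolynomial.eval_rename]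
    rfl
  sx_refl β x := by
    show (D.toN (D.ad fun a => MvPolynomial.rename E.o (sv a))).map _ =
      (D.toN (D.ad fun a => MvPolynomial.rename E.o (sv a))).map _
    rw [D.toN_map, D.toN_map, D.ad_map, D.ad_map]
    congr 2
    funext a
    rw [MvPolynomial.eval_rename, MvPolynomial.eval_rename]
    have h1 : ((E.datF F S0 sv pm).sr β x) ∘ E.o = D.tact (E.wF β) (fun j => x (E.o j)) := by
      funext i
      rw [E.tact_wF]
      rfl
    rw [h1]
    exact E.f5d_refl F K β _ a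
  nonss := by
    rintro β x ⟨hx1, hx2⟩ ⟨g, hg, hE⟩
    refine K.nonss (E.rep β) (fun i => x (E.o i)) ?_ ⟨D.ofN g, by rw [D.ofN_det]; exact hg, ?_⟩
    · rw [← E.ev_ro, E.ro_rep]
      exact hx1
    · have h1 := congrArg D.ofN hE
      rw [D.ofN_mul, D.ofN_mul, datF_Dx, D.ofN_toN] at h1
      have h3 : (E.datF F S0 sv pm).e = D.toN (D.ad (D.ee ℂ)) := E.f5d_Ye F S0 sv pm
      rw [h3, ← D.toN_add, D.ofN_toN] at h1
      rw [D.ad_add]
      exact h1
  zc := E.datF_zc F S0 sv pm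

end fields

end Fold

end Pool.Agent.MTX
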