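import Pool.Agent.MTX.F5
import Pool.Agent.MTX.D.Walls
import Pool.Agent.MTD.Int

/-! # MTX, Part F : generators and top elements for the folded group (row F6) -/

namespace Pool.Agent.MTX

open Matrix
open Pool.Agent.MTD (Dat ev expN srT ev_add ev_sub ev_neg ev_smul ev_zero ev_add_left ev_sub_left
  ev_neg_left ev_smul_left ev_zero_left ev_sum_left ev_sum ev_map ev_comm
  Idx co XX cf supp Phi IsLead InvP Eu Gens GAx)
open Pool.Agent.MP_c45d35_ag (chi chi_add chi_mul chi_zero chi_one chi_inv chi_map UpUni)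

variable {n m : ℕ} {D : SLD n}

/-- what is known about the big group: the axioms and the top elements -/
structure BigG (F : Frm D) (S0 : Set (D.BI → ℂ)) (sv : D.BI → MvPolynomial (Fin n) ℂ)
    (pm : Matrix D.BI D.BI (MvPolynomial (Fin n) ℂ)) (G : Gens D.N (Fin n)) : Prop where
  A : MTXD.Ax (D.dat F S0 sv pm)
  J_inj : ∀ k, Function.Injective (G.J k)
  minor : ∀ (k : Fin n) {K : Type} [Field K] [Algebra ℂ K] (g b : Matrix (Fin D.N) (Fin D.N) K),
    (D.dat F S0 sv pm).IsG b → (∀ i j, j < i → b i j = 0) → ∀ I : Fin (G.m k) → Fin D.N,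
    ((g * b).submatrix I (G.J k)).det =
      (g.submatrix I (G.J k)).det * ∏ j, b (G.J k j) (G.J k j)
  lam_ne : ∀ k i, i ≠ k → D.B (G.lam (D.dat F S0 sv pm) k) (D.al i).1 = 0
  lam_pos : ∀ k, 0 < D.B (G.lam (D.dat F S0 sv pm) k) (D.al k).1
  lam_nonneg : ∀ k i, 0 ≤ G.lam (D.dat F S0 sv pm) k i
  top : ∀ (b : ℕ) (k : Fin n) (I : Fin (b + 1) → Fin (G.m k) → Fin D.N),
    ∃ P : MvPolynomial (Idx D.N (b + 1)) ℂ, InvP (D.dat F S0 sv pm) (b + 1) P ∧
      (∀ κ ∈ supp (D.dat F S0 sv pm) P, ∀ l, κ l ≤ G.lam (D.dat F S0 sv pm) k l) ∧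
      ∀ y : XX (D.dat F S0 sv pm) (b + 1), Eu (D.dat F S0 sv pm)
        (G.lam (D.dat F S0 sv pm) k) y.2.1 * cf (D.dat F S0 sv pm) P
          (G.lam (D.dat F S0 sv pm) k) y = ∏ a, ((y.1 a).1.submatrix (I a) (G.J k)).det

namespace Fold

variable (E : Fold D m) (F : Frm D) (S0 : Set (D.BI → ℂ)) (sv : D.BI → MvPolynomial (Fin n) ℂ)
  (pm : Matrix D.BI D.BI (MvPolynomial (Fin n) ℂ))

/-- the generators: those of the representatives -/
def GF (G : Gens D.N (Fin n)) : Gens D.N (Fin m) := ⟨fun k => G.m (E.r k), fun k => G.J (E.r k)⟩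

/-- `ro_sum` -/
theorem lamF (G : Gens D.N (Fin n)) (k : Fin m) :
    (E.GF G).lam (E.datF F S0 sv pm) k = E.ro (G.lam (D.dat F S0 sv pm) (E.r k)) := by
  unfold Gens.lam
  exact (E.ro_sum _ _).symm

/-! ### comparison of the two data -/

/-- `isG_iff`, `SLD.isG_iff`, `IsGs.gp` -/
theorem isG_big {R : Type*} [CommRing R] [Algebra ℂ R] {g : Matrix (Fin D.N) (Fin D.N) R}
    (hg : (E.datF F S0 sv pm).IsG g) : (D.dat F S0 sv pm).IsG g := by
  rw [E.isG_iff] at hg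
  rw [SLD.isG_iff]
  exact hg.gp

/-- the principal nilpotents agree (`datF_Y`, `zF_ze`, `SLD.dat_Y`, `SLD.zv_ze`, at `R = ℂ`) -/
theorem e_eq : (E.datF F S0 sv pm).e = (D.dat F S0 sv pm).e := by
  have h1 : E.zF (E.datF F S0 sv pm).ze = D.ee ℂ := E.zF_ze F S0 sv pm (R := ℂ)
  have h2 : D.zv (D.dat F S0 sv pm).ze = D.ee ℂ := D.zv_ze F S0 sv pm (R := ℂ)
  unfold Dat.e
  rw [E.datF_Y, D.dat_Y, h1, h2]

theorem Dx_eq {R : Type*} [CommRing R] (x : Fin m → R) :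
    (E.datF F S0 sv pm).Dx x = (D.dat F S0 sv pm).Dx fun i => x (E.o i) := by
  rw [E.datF_Dx, D.dat_Dx]

theorem Tt_eq {R : Type*} [CommRing R] (t : Fin m → Rˣ) :
    (E.datF F S0 sv pm).Tt t = (D.dat F S0 sv pm).Tt fun i => t (E.o i) := by
  rw [E.datF_Tt, D.dat_Tt]

/-- `MvPolynomial.eval_rename` -/
theorem sC_eq (x : Fin m → ℂ) :
    (E.datF F S0 sv pm).sC x = (D.dat F S0 sv pm).sC fun i => x (E.o i) := by
  have h1 : (E.datF F S0 sv pm).sC x =
      D.toN ((D.ad fun a => MvPolynomial.rename E.o (sv a)).map (MvPolynomial.eval x)) := rfl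
  have h2 : (D.dat F S0 sv pm).sC (fun i => x (E.o i)) =
      D.toN ((D.ad sv).map (MvPolynomial.eval fun i => x (E.o i))) := rfl
  rw [h1, h2, D.ad_map, D.ad_map]
  congr 2
  funext a
  rw [MvPolynomial.eval_rename]
  rfl

theorem pC_eq (x : Fin m → ℂ) :
    (E.datF F S0 sv pm).pC x = (D.dat F S0 sv pm).pC fun i => x (E.o i) := by
  have h1 : (E.datF F S0 sv pm).pC x =
      D.toN ((pm.map (MvPolynomial.rename E.o)).map (MvPolynomial.eval x)) := rfl
  have h2 : (D.dat F S0 sv pm).pC (fun i => x (E.o i)) =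
      D.toN (pm.map (MvPolynomial.eval fun i => x (E.o i))) := rfl
  rw [h1, h2]
  congr 1
  ext a c
  rw [Matrix.map_apply, Matrix.map_apply, Matrix.map_apply, MvPolynomial.eval_rename]
  rfl

/-- `x ∘ o` is regular (`ev_ro`) -/
theorem reg_big {x : Fin m → ℂ} (hx : (E.datF F S0 sv pm).Reg x) :
    (D.dat F S0 sv pm).Reg fun i => x (E.o i) := by
  intro γ
  have h1 := hx (E.rp γ.1 γ.2)
  have h2 : ev (E.ro γ.1.1) x ≠ 0 := h1
  rw [E.ev_ro] at h2
  exact h2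

/-- the unipotent conjugators agree at regular points (`MTXD.Ax.ueC_spec` for the folded datum,
`MTXD.Ax.ueC_unique` for the big one, `isG_big`, `e_eq`, `Dx_eq`) -/
theorem ueC_eq (A : MTXD.Ax (D.dat F S0 sv pm)) (A' : MTXD.Ax (E.datF F S0 sv pm))
    {x : Fin m → ℂ} (hx : (E.datF F S0 sv pm).Reg x) :
    (E.datF F S0 sv pm).ueC x = (D.dat F S0 sv pm).ueC fun i => x (E.o i) := by
  obtain ⟨h1, h2, h3⟩ := A'.ueC_spec hx
  refine A.ueC_unique (E.reg_big F S0 sv pm hx) h1 (E.isG_big F S0 sv pm h2) ?_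
  rw [← E.Dx_eq F S0 sv pm, ← E.e_eq F S0 sv pm]
  exact h3

theorem qC_eq (A : MTXD.Ax (D.dat F S0 sv pm)) (A' : MTXD.Ax (E.datF F S0 sv pm))
    {x : Fin m → ℂ} (hx : (E.datF F S0 sv pm).Reg x) :
    (E.datF F S0 sv pm).qC x = (D.dat F S0 sv pm).qC fun i => x (E.o i) := by
  unfold Dat.qC
  rw [E.pC_eq, E.ueC_eq F S0 sv pm A A' hx]

/-- the point of the big space -/
def pt {b : ℕ} (y : XX (E.datF F S0 sv pm) b) : XX (D.dat F S0 sv pm) b :=
  (fun a => ⟨(y.1 a).1, E.isG_big F S0 sv pm (y.1 a).2⟩,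
    ⟨fun i => y.2.1 (E.o i), E.reg_big F S0 sv pm y.2.2⟩)

/-- `qC_eq`, `sC_eq`, `Tt_eq` -/
theorem Phi_eq (A : MTXD.Ax (D.dat F S0 sv pm)) (A' : MTXD.Ax (E.datF F S0 sv pm)) {b : ℕ}
    (P : MvPolynomial (Idx D.N (b + 1)) ℂ) (y : XX (E.datF F S0 sv pm) (b + 1))
    (t : Fin m → ℂˣ) : Phi (E.datF F S0 sv pm) P y t =
      Phi (D.dat F S0 sv pm) P (E.pt F S0 sv pm y) fun i => t (E.o i) := by
  unfold Phi
  rw [E.qC_eq F S0 sv pm A A' y.2.2, E.sC_eq, E.Tt_eq]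
  rfl

theorem f6b_le {κ lam : Fin n → ℤ} (h : ∀ l, κ l ≤ lam l) (k : Fin m) :
    E.ro κ k ≤ E.ro lam k := by
  unfold ro
  refine Finset.sum_le_sum fun i _ => ?_
  split_ifs
  · exact h i
  · exact le_rfl

theorem f6b_eq {κ lam : Fin n → ℤ} (h : ∀ l, κ l ≤ lam l) (h2 : E.ro κ = E.ro lam) :
    κ = lam := by
  funext i
  refine le_antisymm (h i) ?_
  by_contra hlt
  rw [not_le] at hlt
  have h3 : E.ro κ (E.o i) < E.ro lam (E.o i) := by
    unfold ro
    refine Finset.sum_lt_sum (fun j _ => ?_) ⟨i, Finset.mem_univ i, ?_⟩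
    · split_ifs
      · exact h j
      · exact le_rfl
    · rw [if_pos rfl, if_pos rfl]
      exact hlt
  rw [h2] at h3
  exact lt_irrefl _ h3

/-- The coefficients: `MTD.Phi_eq_sum` for the big datum, `chi_ro`, grouping by `ro`; then
`MTD.cf_unique` with the finset `supp (datF) P ∪ (supp (dat) P).image ro` (and `MTD.cf_eq_zero` if `μ` is not
in it). -/
theorem cf_eq (A : MTXD.Ax (D.dat F S0 sv pm)) (A' : MTXD.Ax (E.datF F S0 sv pm)) {b : ℕ}
    (P : MvPolynomial (Idx D.N (b + 1)) ℂ) (y : XX (E.datF F S0 sv pm) (b + 1))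
    (μ : Fin m → ℤ) : cf (E.datF F S0 sv pm) P μ y =
      ∑ κ ∈ (supp (D.dat F S0 sv pm) P).filter fun κ => E.ro κ = μ,
        cf (D.dat F S0 sv pm) P κ (E.pt F S0 sv pm y) := by
  classical
  set s : Finset (Fin m → ℤ) := supp (E.datF F S0 sv pm) P ∪
    (supp (D.dat F S0 sv pm) P).image E.ro with hs
  set c : (Fin m → ℤ) → ℂ := fun μ => ∑ κ ∈ (supp (D.dat F S0 sv pm) P).filter
    (fun κ => E.ro κ = μ), cf (D.dat F S0 sv pm) P κ (E.pt F S0 sv pm y) with hc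
  have hPhi : ∀ t, Phi (E.datF F S0 sv pm) P y t = ∑ μ ∈ s, c μ * ((chi μ t : ℂˣ) : ℂ) := by
    intro t
    rw [E.Phi_eq F S0 sv pm A A' P y t,
      Pool.Agent.MTD.Phi_eq_sum (Finset.Subset.refl (supp (D.dat F S0 sv pm) P))]
    have hmaps : ∀ κ ∈ supp (D.dat F S0 sv pm) P, E.ro κ ∈ s := fun κ hκ =>
      Finset.mem_union_right _ (Finset.mem_image_of_mem _ hκ)
    rw [← Finset.sum_fiberwise_of_maps_to hmaps]
    refine Finset.sum_congr rfl fun μ _ => ?_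
    rw [hc]
    beta_reduce
    rw [Finset.sum_mul]
    refine Finset.sum_congr rfl fun κ hκ => ?_
    rw [← (Finset.mem_filter.1 hκ).2, E.chi_ro]
  by_cases hμ : μ ∈ s
  · exact Pool.Agent.MTD.cf_unique Finset.subset_union_left y c hPhi μ hμ
  · have h1 : μ ∉ supp (E.datF F S0 sv pm) P := fun h => hμ (Finset.mem_union_left _ h)
    rw [Pool.Agent.MTD.cf_eq_zero h1]
    refine (Finset.sum_eq_zero fun κ hκ => ?_).symm
    obtain ⟨h2, h3⟩ := Finset.mem_filter.1 hκ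
    exact absurd (Finset.mem_union_right _ (Finset.mem_image.2 ⟨κ, h2, h3⟩)) hμ

/-- If all weights of `P` are coordinatewise `≤ λ` then the coefficient at `ro λ` is that at `λ`:
`ro κ = ro λ`, `κ ≤ λ` imply `κ = λ` (sum over the fibres). -/
theorem cf_top (A : MTXD.Ax (D.dat F S0 sv pm)) (A' : MTXD.Ax (E.datF F S0 sv pm)) {b : ℕ}
    (P : MvPolynomial (Idx D.N (b + 1)) ℂ) (y : XX (E.datF F S0 sv pm) (b + 1))
    (lam : Fin n → ℤ) (h : ∀ κ ∈ supp (D.dat F S0 sv pm) P, ∀ l, κ l ≤ lam l) :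
    cf (E.datF F S0 sv pm) P (E.ro lam) y = cf (D.dat F S0 sv pm) P lam (E.pt F S0 sv pm y) := by
  classical
  rw [E.cf_eq F S0 sv pm A A']
  have h1 : ∀ κ ∈ (supp (D.dat F S0 sv pm) P).filter (fun κ => E.ro κ = E.ro lam), κ = lam := by
    intro κ hκ
    obtain ⟨h2, h3⟩ := Finset.mem_filter.1 hκ
    exact E.f6b_eq (h κ h2) h3
  by_cases hlam : lam ∈ supp (D.dat F S0 sv pm) P
  · refine Finset.sum_eq_single_of_mem lam (Finset.mem_filter.2 ⟨hlam, rfl⟩) fun κ hκ hne => ?_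
    exact absurd (h1 κ hκ) hne
  · rw [Pool.Agent.MTD.cf_eq_zero hlam]
    refine Finset.sum_eq_zero fun κ hκ => ?_
    have h2 := (Finset.mem_filter.1 hκ).1
    rw [h1 κ hκ] at h2
    exact absurd h2 hlam

/-- a weight of the folded expansion is the restriction of a weight, so coordinatewise `≤ ro λ`
(`MTD.mem_supp`, `cf_eq`) -/
theorem supp_le (A : MTXD.Ax (D.dat F S0 sv pm)) (A' : MTXD.Ax (E.datF F S0 sv pm)) {b : ℕ}
    (P : MvPolynomial (Idx D.N (b + 1)) ℂ)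
    (lam : Fin n → ℤ) (h : ∀ κ ∈ supp (D.dat F S0 sv pm) P, ∀ l, κ l ≤ lam l) :
    ∀ κ ∈ supp (E.datF F S0 sv pm) P, ∀ l, κ l ≤ E.ro lam l := by
  intro κ hκ l
  obtain ⟨y, hy⟩ := Pool.Agent.MTD.mem_supp.1 hκ
  rw [E.cf_eq F S0 sv pm A A'] at hy
  obtain ⟨κ', hκ', -⟩ := Finset.exists_ne_zero_of_sum_ne_zero hy
  obtain ⟨h1, h2⟩ := Finset.mem_filter.1 hκ'
  rw [← h2]
  exact E.f6b_le (h κ' h1) l

/-- the exponents over a folded root add up -/
theorem f6_fib_sum {lam : Fin n → ℤ} (hl : D.Dom lam) (β : E.PF) [DecidableEq E.PF] :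
    (D.B lam (E.hat (E.rep β))).toNat =
      ∑ γ ∈ Finset.univ.filter (fun γ : D.PR => E.rp γ.1 γ.2 = β), (D.B lam γ.1.1).toNat := by
  classical
  have hmem : ∀ γ : D.PR, γ ∈ Finset.univ.filter (fun γ : D.PR => E.rp γ.1 γ.2 = β) ↔
      γ.1 = E.rep β ∨ γ.1 = E.sR (E.rep β) := by
    intro γ
    rw [Finset.mem_filter]
    constructor
    · rintro ⟨-, h⟩
      exact E.fib β γ.1 (congrArg Subtype.val h)
    · intro h
      refine ⟨Finset.mem_univ _, Subtype.ext ?_⟩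
      show E.ro γ.1.1 = β.1
      rcases h with h | h
      · rw [h, E.ro_rep]
      · rw [h, E.sR_val, E.ro_sQ, E.ro_rep]
  have hp := E.rep_pos β
  have hp' : D.Pos (E.sR (E.rep β)) := (E.pos_sR _).2 hp
  by_cases h : E.sR (E.rep β) = E.rep β
  · have hf : Finset.univ.filter (fun γ : D.PR => E.rp γ.1 γ.2 = β) =
        {(⟨E.rep β, hp⟩ : D.PR)} := by
      ext γ
      rw [hmem, Finset.mem_singleton, h, or_self]
      exact ⟨fun h1 => Subtype.ext h1, fun h1 => congrArg Subtype.val h1⟩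
    rw [hf, Finset.sum_singleton, E.hat_fix h]
  · have hf : Finset.univ.filter (fun γ : D.PR => E.rp γ.1 γ.2 = β) =
        {(⟨E.rep β, hp⟩ : D.PR), (⟨E.sR (E.rep β), hp'⟩ : D.PR)} := by
      ext γ
      rw [hmem, Finset.mem_insert, Finset.mem_singleton]
      exact or_congr ⟨fun h1 => Subtype.ext h1, fun h1 => congrArg Subtype.val h1⟩
        ⟨fun h1 => Subtype.ext h1, fun h1 => congrArg Subtype.val h1⟩
    have hne : (⟨E.rep β, hp⟩ : D.PR) ≠ (⟨E.sR (E.rep β), hp'⟩ : D.PR) :=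
      fun h1 => h (congrArg Subtype.val h1).symm
    rw [hf, Finset.sum_pair hne, E.hat_ne h, D.B_add_right]
    exact Int.toNat_add (D.dom_pos hl hp) (D.dom_pos hl hp')

/-- The Euler classes agree: `∏_{γ > 0} γ(x ∘ o)^{B(λ, γ)}`; group by `rp : PR → PF`
(`Finset.prod_fiberwise`-type); the fibre of `β` is `{rep β}` or `{rep β, sR (rep β)}` (`fib`), with
`γ(x ∘ o) = β(x)` (`ev_ro`) and exponents adding up to `B(λ, hat (rep β)) = ev (crF β) (ro λ)` (`ev_crF`;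
all exponents `≥ 0` as `λ` is dominant: `dom_pos`). -/
theorem Eu_eq {lam : Fin n → ℤ} (hl : D.Dom lam) (x : Fin m → ℂ) :
    Eu (E.datF F S0 sv pm) (E.ro lam) x = Eu (D.dat F S0 sv pm) lam fun i => x (E.o i) := by
  classical
  unfold Eu
  have hR : (∏ γ : D.PR, ev ((D.dat F S0 sv pm).rt γ) (fun i => x (E.o i)) ^
      (ev ((D.dat F S0 sv pm).cr γ) lam).toNat) =
      ∏ β : E.PF, ∏ γ ∈ Finset.univ.filter (fun γ : D.PR => E.rp γ.1 γ.2 = β),
        ev β.1 x ^ (D.B lam γ.1.1).toNat := by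
    rw [← Finset.prod_fiberwise Finset.univ (fun γ : D.PR => E.rp γ.1 γ.2)]
    refine Finset.prod_congr rfl fun β _ => Finset.prod_congr rfl fun γ hγ => ?_
    rw [SLD.ev_cr]
    have h1 : E.rp γ.1 γ.2 = β := (Finset.mem_filter.1 hγ).2
    have h2 : β.1 = E.ro γ.1.1 := by rw [← h1]; rfl
    rw [h2, E.ev_ro]
    rfl
  rw [hR]
  refine Finset.prod_congr rfl fun β _ => ?_
  rw [Finset.prod_pow_eq_pow_sum]
  show ev β.1 x ^ (ev (E.crF β) (E.ro lam)).toNat = _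
  rw [E.ev_crF, E.f6_fib_sum hl β]

/-- invariance (`isG_big`; the slice of the folded datum is contained in that of the big one) -/
theorem invP_big {b : ℕ} {P : MvPolynomial (Idx D.N b) ℂ}
    (h : InvP (D.dat F S0 sv pm) b P) : InvP (E.datF F S0 sv pm) b P := by
  intro g g' k s hg hs hk hp hgg
  refine h g g' k s (fun a => E.isG_big F S0 sv pm (hg a)) ?_
    (fun a => ⟨E.isG_big F S0 sv pm (hk a).1, (hk a).2⟩) hp hgg
  obtain ⟨s', h1, _, h2⟩ := hs
  exact ⟨s', h1, h2⟩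

/-- The cone condition.  `λ_k := G.lam (r k)`, `N_i := B(G.lam i, α_i) > 0`, `M := ∏_i N_i`.  Given `μ` dominant put
`y = li μ`, `c_k := (M / N_{r k}) * B(y, hat (α_{r k}))`, a nonnegative integer (`ev_crF` for the restriction of
`α_{r k}`, `hat_of`).  To prove `M μ = ∑_k c_k ro λ_{r k}`: let `v = M y - ∑_k c_k λ_{r k}`; for every `j`:
`B(v + s v, α_j) = B(v, α_j + s α_j)` is `0`: `B(y, α_j + s α_j) = (1 or 2) B(y, hat α_j)` and
`B(λ_{r k}, α_j + α_{s j})` is `0` unless `k = o j`, and `(1 or 2) N_{r k}` if `k = o j` (`lam_ne`); so `v + s v = 0`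
(`B_nondeg`), `ro_zero_of`. -/
theorem coneF {G : Gens D.N (Fin n)} (B : BigG F S0 sv pm G) :
    ∃ M : ℕ, 0 < M ∧ ∀ μ, (E.datF F S0 sv pm).Dom μ → ∃ c : Fin m → ℕ,
      M • μ = ∑ k, c k • (E.GF G).lam (E.datF F S0 sv pm) k := by
  classical
  obtain ⟨L, hL⟩ : ∃ L : Fin n → Fin n → ℤ, ∀ i, L i = G.lam (D.dat F S0 sv pm) i :=
    ⟨_, fun _ => rfl⟩
  have hNp : ∀ i, 0 < D.B (L i) (D.al i).1 := fun i => by rw [hL]; exact B.lam_pos i
  have hne : ∀ k i, i ≠ k → D.B (L k) (D.al i).1 = 0 := fun k i h => by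
    rw [hL]; exact B.lam_ne k i h
  obtain ⟨N, hN⟩ : ∃ N : Fin n → ℕ, ∀ i, ((N i : ℕ) : ℤ) = D.B (L i) (D.al i).1 :=
    ⟨fun i => (D.B (L i) (D.al i).1).toNat, fun i => Int.toNat_of_nonneg (hNp i).le⟩
  have hN0 : ∀ i, 0 < N i := fun i => by
    have := hNp i
    rw [← hN] at this
    exact_mod_cast this
  refine ⟨∏ i, N i, Finset.prod_pos fun i _ => hN0 i, fun μ hμ => ?_⟩
  have hd : ∀ i, 0 ≤ D.B (E.li μ) (E.hat (D.al i)) := by
    intro i
    have h := hμ (E.rp (D.al i) (D.pos_al i))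
    have h2 : ev (E.crF (E.rp (D.al i) (D.pos_al i))) μ =
        D.B (E.li μ) (E.hat (D.al i)) := by
      conv_lhs => rw [← E.ro_li μ]
      rw [E.ev_crF, ← E.hat_of (β := E.rp (D.al i) (D.pos_al i)) (γ := D.al i) rfl]
    rw [← h2]
    exact h
  have hc : ∀ k, (((∏ i ∈ Finset.univ.erase (E.r k), N i) *
      (D.B (E.li μ) (E.hat (D.al (E.r k)))).toNat : ℕ) : ℤ) * (N (E.r k) : ℤ) =
      ((∏ i, N i : ℕ) : ℤ) * D.B (E.li μ) (E.hat (D.al (E.r k))) := by
    intro k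
    rw [← Finset.prod_erase_mul Finset.univ N (Finset.mem_univ (E.r k))]
    push_cast
    rw [Int.toNat_of_nonneg (hd _)]
    ring
  obtain ⟨c, hcd⟩ : ∃ c : Fin m → ℕ, ∀ k, c k = (∏ i ∈ Finset.univ.erase (E.r k), N i) *
      (D.B (E.li μ) (E.hat (D.al (E.r k)))).toNat := ⟨_, fun _ => rfl⟩
  refine ⟨c, ?_⟩
  have hc' : ∀ k, (c k : ℤ) * (N (E.r k) : ℤ) =
      ((∏ i, N i : ℕ) : ℤ) * D.B (E.li μ) (E.hat (D.al (E.r k))) := by
    intro k
    rw [hcd, hc]
  -- pairing of the generators with the coroot vectors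
  have hLr : ∀ k l, D.B (L (E.r k)) (E.hat (D.al (E.r l))) =
      if k = l then (N (E.r k) : ℤ) else 0 := by
    intro k l
    by_cases hkl : k = l
    · subst hkl
      rw [if_pos rfl]
      by_cases h : E.sR (D.al (E.r k)) = D.al (E.r k)
      · rw [E.hat_fix h, hN]
      · have h' : E.s (E.r k) ≠ E.r k := fun h1 => h (by rw [E.sR_al, h1])
        rw [E.hat_ne h, D.B_add_right, E.sQ_al, hne _ _ h', add_zero, hN]
    · rw [if_neg hkl]
      have h1 : E.r l ≠ E.r k := fun h => hkl (by rw [← E.o_r k, ← h, E.o_r])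
      have h2 : E.s (E.r l) ≠ E.r k := fun h => hkl (by
        rw [← E.o_r k, ← h, E.o_s, E.o_r])
      by_cases h : E.sR (D.al (E.r l)) = D.al (E.r l)
      · rw [E.hat_fix h, hne _ _ h1]
      · rw [E.hat_ne h, D.B_add_right, E.sQ_al, hne _ _ h1, hne _ _ h2, add_zero]
  have hBs : ∀ (z : Fin n → ℤ), D.B (∑ k, (c k : ℤ) • L (E.r k)) z =
      ∑ k, (c k : ℤ) * D.B (L (E.r k)) z := by
    intro z
    rw [D.B_sum_left]
    exact Finset.sum_congr rfl fun k _ => D.B_smul_left _ _ _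
  have hv0 : ∀ j, D.B (((∏ i, N i : ℕ) : ℤ) • E.li μ - ∑ k, (c k : ℤ) • L (E.r k))
      (E.hat (D.al j)) = 0 := by
    intro j
    have hj : E.hat (D.al j) = E.hat (D.al (E.r (E.o j))) := by
      rcases E.o_eq j (E.r (E.o j)) (by rw [E.o_r]) with h | h
      · rw [← h]
      · conv_lhs => rw [h, ← E.sR_al, E.hat_sR]
    rw [hj, D.B_sub_left, D.B_smul_left, hBs]
    have : ∑ k, (c k : ℤ) * D.B (L (E.r k)) (E.hat (D.al (E.r (E.o j)))) =
        (c (E.o j) : ℤ) * (N (E.r (E.o j)) : ℤ) := by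
      rw [Finset.sum_eq_single (E.o j)]
      · rw [hLr, if_pos rfl]
      · intro k _ hk
        rw [hLr, if_neg hk, mul_zero]
      · intro h; exact absurd (Finset.mem_univ _) h
    rw [this, hc', sub_self]
  have hv : (((∏ i, N i : ℕ) : ℤ) • E.li μ - ∑ k, (c k : ℤ) • L (E.r k)) +
      E.sQ (((∏ i, N i : ℕ) : ℤ) • E.li μ - ∑ k, (c k : ℤ) • L (E.r k)) = 0 := by
    apply D.B_nondeg
    intro z
    rw [D.B_comm, D.B_coord]
    refine Finset.sum_eq_zero fun j _ => ?_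
    have key : D.B (D.al j).1 ((((∏ i, N i : ℕ) : ℤ) • E.li μ - ∑ k, (c k : ℤ) • L (E.r k)) +
        E.sQ (((∏ i, N i : ℕ) : ℤ) • E.li μ - ∑ k, (c k : ℤ) • L (E.r k))) = 0 := by
      rw [D.B_comm, D.B_add_left, E.B_sQ_left]
      have h0 := hv0 j
      by_cases h : E.sR (D.al j) = D.al j
      · have h1 : E.sQ (D.al j).1 = (D.al j).1 := congrArg Subtype.val h
        rw [E.hat_fix h] at h0
        rw [h1, h0, add_zero]
      · rw [E.hat_ne h, D.B_add_right] at h0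
        exact h0
    rw [key, mul_zero]
  have hro := E.ro_zero_of hv
  rw [E.ro_sub, E.ro_smul, E.ro_li, E.ro_sum, sub_eq_zero] at hro
  rw [← natCast_zsmul, hro]
  refine Finset.sum_congr rfl fun k _ => ?_
  rw [E.lamF, E.ro_smul, ← hL, natCast_zsmul]

/-- the weights of the generators of the big group are dominant -/
theorem f6d_dom {G : Gens D.N (Fin n)} (B : BigG F S0 sv pm G) (k : Fin n) :
    D.Dom (G.lam (D.dat F S0 sv pm) k) := by
  intro i
  rcases eq_or_ne i k with h | h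
  · rw [h]; exact (B.lam_pos k).le
  · rw [B.lam_ne k i h]

theorem f6d_hat {x : Fin n → ℤ} (hx : D.Dom x) {γ : D.Rt} (h : D.Pos γ) :
    0 ≤ D.B x (E.hat γ) := by
  by_cases hs : E.sR γ = γ
  · rw [E.hat_fix hs]; exact D.dom_pos hx h
  · rw [E.hat_ne hs, D.B_add_right]
    exact add_nonneg (D.dom_pos hx h) (D.dom_pos hx ((E.pos_sR γ).2 h))

/-- the generators of the folded group -/
theorem gaxF {G : Gens D.N (Fin n)} (B : BigG F S0 sv pm G)
    (A' : MTXD.Ax (E.datF F S0 sv pm)) : GAx (E.datF F S0 sv pm) (E.GF G) where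
  J_inj k := B.J_inj (E.r k)
  minor k {K} _ _ g b hb h I := B.minor (E.r k) g b (E.isG_big F S0 sv pm hb) h I
  dom := by
    intro k β
    rw [lamF]
    show 0 ≤ ev (E.crF β) _
    rw [E.ev_crF]
    exact E.f6d_hat (Fold.f6d_dom F S0 sv pm B (E.r k)) (E.rep_pos β)
  lpos := by
    intro k
    rw [lamF]
    change toLex (0 : Fin m → ℤ) ≤ toLex _
    apply Pi.toLex_monotone
    intro l
    rw [Pi.zero_apply]
    unfold ro
    refine Finset.sum_nonneg fun i _ => ?_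
    split_ifs
    · exact B.lam_nonneg (E.r k) i
    · exact le_refl 0
  cone := E.coneF F S0 sv pm B
  top := by
    intro b k I
    obtain ⟨P, h1, h2, h3⟩ := B.top b (E.r k) I
    refine ⟨P, E.invP_big F S0 sv pm h1, ?_, fun y => ?_⟩
    · intro κ hκ
      rw [lamF]
      exact Pi.toLex_monotone fun l => E.supp_le F S0 sv pm B.A A' P _ h2 κ hκ l
    · rw [lamF, E.cf_top F S0 sv pm B.A A' P y _ h2,
        E.Eu_eq F S0 sv pm (Fold.f6d_dom F S0 sv pm B (E.r k))]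
      exact h3 (E.pt F S0 sv pm y)

end Fold

end Pool.Agent.MTX
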