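import Pool.Agent.MTX.F5
import Pool.Agent.MTX.R4c

/-! # MTX, Part F : the slice of the folded group (row F7) -/

namespace Pool.Agent.MTX

open Matrix MvPolynomial SLD
open Pool.Agent.MTD (ev ev_add ev_sub ev_neg ev_smul ev_zero ev_add_left ev_sub_left
  ev_neg_left ev_smul_left ev_zero_left ev_sum_left ev_sum ev_map ev_comm)

variable {n m : ℕ} {D : SLD n}

namespace SLD

private theorem f7a_ev_neg {Γ : Type} [AddCommGroup Γ] [LinearOrder Γ] [IsOrderedAddMonoid Γ]
    (f : ℂ →+ Γ) {y : Fin n → ℤ} {z : Fin n → ℂ} (hy : ∀ j, y j ≤ 0) (hz : ∀ j, 0 ≤ f (z j)) :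
    f (ev y z) ≤ 0 := by
  unfold ev
  rw [map_sum]
  refine Finset.sum_nonpos fun j _ => ?_
  have h1 : ((y j : ℤ) : ℂ) * z j = y j • z j := by simp
  rw [h1, map_zsmul]
  have h2 : 0 ≤ (-(y j)) • f (z j) := zsmul_nonneg (hz j) (by have := hy j; omega)
  rw [neg_smul] at h2
  exact neg_nonneg.1 h2

/-- Weakly dominant representatives.  Choose `u ∈ W` (finite) with `f (ev (2ρ) (tact u x))` maximal, where
`2ρ = ∑_{γ ∈ posF} γ`.  `s_i (2ρ) = 2ρ - 2 α_i` (`sum_B_posF`, `ht_al`), so by `tact_mul`, `ev_tact`: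
`ev (2ρ) (tact (s_i u) x) = ev (2ρ) (tact u x) - 2 (tact u x) i` (`ev_al`), and maximality gives the claim. -/
theorem exists_domrep {Γ : Type} [AddCommGroup Γ] [LinearOrder Γ] [IsOrderedAddMonoid Γ]
    (f : ℂ →+ Γ) (x : Fin n → ℂ) : ∃ u ∈ D.W, ∀ i, 0 ≤ f (D.tact u x i) := by
  classical
  have hfin : Finite D.W := inferInstance
  set ρ : Fin n → ℤ := ∑ γ ∈ D.posF, γ.1 with hρ
  obtain ⟨⟨u, hu⟩, hmax⟩ := Finite.exists_max (fun u : D.W => f (ev ρ (D.tact u.1 x)))
  refine ⟨u, hu, fun i => ?_⟩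
  have h1 := hmax ⟨D.sO i * u, mul_mem (D.sref_mem i) hu⟩
  have h2 : ev ρ (D.tact (D.sO i * u) x) = ev ρ (D.tact u x) - 2 * D.tact u x i := by
    rw [tact_mul, ev_tact]
    have h3 : ((D.sO i)⁻¹).1 ρ = ρ - (2 : ℤ) • (D.al i).1 := by
      show ((D.rO (D.al i))⁻¹).1 ρ = _
      rw [rO_inv, rO_apply, rf_val, D.B_comm, hρ, B_sum_left, sum_B_posF, ht_al]
      norm_num
    rw [h3, ev_sub_left, ev_smul_left, ev_al]
    push_cast
    rfl
  simp only at h1
  rw [h2, map_sub] at h1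
  have h4 : f (2 * D.tact u x i) = f (D.tact u x i) + f (D.tact u x i) := by
    rw [two_mul, map_add]
  rw [h4] at h1
  by_contra hneg
  push Not at hneg
  have h5 : f (D.tact u x i) + f (D.tact u x i) < 0 := add_neg hneg hneg
  have h6 := (sub_le_self_iff (f (ev ρ (D.tact u x)))).1 h1
  exact absurd h6 (not_le.2 h5)

/-- Two weakly dominant points in one orbit are equal.  `W_induction` with
`P u := (∀ i, 0 ≤ f (D.tact u x i)) → D.tact u x = x`.  Step: `u α_i` is negative; `x' = tact u x`: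
`ev (u α_i) x' = x i` (`ev_tact`, `ev_al`), and `ev (u α_i) x'` is a combination of the `x' j` with coefficients
`≤ 0` (`pos_ng`), so `f (x i) ≤ 0`; hence `x i = 0` (`f` injective), `s_i x = x` (`tact_rO`), and
`tact (u s_i) x = tact u x`. -/
theorem dom_fix {Γ : Type} [AddCommGroup Γ] [LinearOrder Γ] [IsOrderedAddMonoid Γ]
    (f : ℂ →+ Γ) (hf : Function.Injective f) {x : Fin n → ℂ} (hx : ∀ i, 0 ≤ f (x i)) {w : D.OQ}
    (hw : w ∈ D.W) (h' : ∀ i, 0 ≤ f (D.tact w x i)) : D.tact w x = x := by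
  refine D.W_induction (P := fun u => (∀ i, 0 ≤ f (D.tact u x i)) → D.tact u x = x)
    (fun _ => D.tact_one x) ?_ w hw h'
  intro u hu i hi ih h
  have h1 : ev (u • D.al i).1 (D.tact u x) = x i := by
    rw [ev_tact, smul_val]
    have h2 : (u⁻¹).1 (u.1 (D.al i).1) = (D.al i).1 := by
      show ((u⁻¹ * u).1) (D.al i).1 = _
      rw [inv_mul_cancel]
      rfl
    rw [h2, ev_al]
  have h3 : f (x i) ≤ 0 := by
    rw [← h1]
    refine f7a_ev_neg f (fun j => ?_) h
    have h4 := ((D.pos_ng _).2 hi) j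
    have h5 : 0 ≤ -((u • D.al i).1 j) := h4
    omega
  have h6 : x i = 0 := by
    apply hf
    rw [map_zero]
    exact le_antisymm h3 (hx i)
  have h7 : D.tact (D.sO i) x = x := by
    show D.tact (D.rO (D.al i)) x = x
    rw [tact_rO, ev_al, h6, zero_smul, sub_zero]
  have h8 : D.tact (u * D.sO i) x = D.tact u x := by
    rw [tact_mul, h7]
  rw [← h8]
  apply ih
  intro j
  rw [h8]
  exact h j

/-- the value of the linear form of `y` at `x` -/
theorem f7b_eval_fm0 (y : Fin n → ℤ) (x : Fin n → ℂ) : eval x (fm0 y) = ev y x := by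
  simp [fm0, lin, ev]

/-- evaluation of a transformed polynomial (`smul_fm0`/`actO`: check the variables) -/
theorem eval_smul_tact (u : D.OQ) (x : Fin n → ℂ) (g : AA n) :
    eval x (u • g) = eval (D.tact u⁻¹ x) g := by
  rw [OQ_smul_def]
  induction g using MvPolynomial.induction_on with
  | C a => rw [algHom_C, algebraMap_eq, eval_C, eval_C]
  | add p q hp hq => rw [map_add, map_add, map_add, hp, hq]
  | mul_X p i hp =>
    rw [map_mul, map_mul, map_mul, hp, actO_X, f7b_eval_fm0, eval_X]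
    rfl

/-- linear functional with the coefficients `c` -/
noncomputable def f7bL (v : Fin n → ℂ) : (Fin n → ℂ) →ₗ[ℂ] ℂ where
  toFun c := ∑ j, c j * v j
  map_add' c d := by
    rw [← Finset.sum_add_distrib]
    exact Finset.sum_congr rfl fun j _ => by rw [Pi.add_apply, add_mul]
  map_smul' r c := by
    rw [RingHom.id_apply, smul_eq_mul, Finset.mul_sum]
    exact Finset.sum_congr rfl fun j _ => by rw [Pi.smul_apply, smul_eq_mul, mul_assoc]

theorem f7b_eval_lin (c : Fin n → ℂ) (x : Fin n → ℂ) : eval x (lin c) = ∑ j, c j * x j := by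
  simp [lin]

/-- Orbits are separated by invariant polynomials.  If `x'` is not in the orbit, choose a linear form
`ℓ = ∑ c_j X_j` with `ℓ(x') ≠ ℓ(tact u x)` for all `u ∈ W` (finitely many proper subspaces of `c`'s:
`exists_not_mem_subspaces`), `g = ∏_{u ∈ W} u • (ℓ - C (ℓ(x')))`: invariant, `g(x') = 0` (`u = 1`), `g(x) ≠ 0`
(`eval_smul_tact`). -/
theorem orbit_sep {x x' : Fin n → ℂ}
    (h : ∀ g : AA n, (∀ u ∈ D.W, u • g = g) → eval x g = eval x' g) :
    ∃ u ∈ D.W, x' = D.tact u x := by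
  by_contra hno
  push Not at hno
  let _ : Fintype D.W := Fintype.ofFinite D.W
  have hproper : ∀ u : D.W, LinearMap.ker (f7bL (x' - D.tact u.1 x)) ≠ ⊤ := by
    intro u htop
    apply hno u.1 u.2
    rw [← sub_eq_zero]
    funext j
    have h1 : (Pi.single j 1 : Fin n → ℂ) ∈ LinearMap.ker (f7bL (x' - D.tact u.1 x)) := by
      rw [htop]; exact Submodule.mem_top
    rw [LinearMap.mem_ker] at h1
    have h2 : f7bL (x' - D.tact u.1 x) (Pi.single j 1) = (x' - D.tact u.1 x) j := by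
      show ∑ k, (Pi.single j 1 : Fin n → ℂ) k * (x' - D.tact u.1 x) k = _
      rw [Finset.sum_eq_single j]
      · rw [Pi.single_eq_same, one_mul]
      · intro k _ hk
        rw [Pi.single_eq_of_ne hk, zero_mul]
      · intro hj
        exact absurd (Finset.mem_univ j) hj
    rw [h2] at h1
    exact h1
  obtain ⟨c, hc⟩ := exists_not_mem_subspaces
    (fun u : D.W => LinearMap.ker (f7bL (x' - D.tact u.1 x))) hproper
  have hc' : ∀ u ∈ D.W, ∑ j, c j * (D.tact u x) j - ∑ j, c j * x' j ≠ 0 := by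
    intro u hu h0
    apply hc ⟨u, hu⟩
    rw [LinearMap.mem_ker]
    show ∑ k, c k * (x' - D.tact u x) k = 0
    rw [← Finset.sum_sub_distrib] at h0
    rw [← neg_eq_zero, ← Finset.sum_neg_distrib, ← h0]
    refine Finset.sum_congr rfl fun k _ => ?_
    rw [Pi.sub_apply]
    ring
  have hval : ∀ (u : D.OQ) (y : Fin n → ℂ),
      eval y (u • (lin c - MvPolynomial.C (∑ j, c j * x' j) : AA n)) =
        ∑ j, c j * (D.tact u⁻¹ y) j - ∑ j, c j * x' j := by
    intro u y
    rw [eval_smul_tact, map_sub, f7b_eval_lin, eval_C]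
  have hinv : ∀ v ∈ D.W, v • (∏ u : D.W, (u.1 • (lin c - MvPolynomial.C (∑ j, c j * x' j) : AA n))) =
      ∏ u : D.W, (u.1 • (lin c - MvPolynomial.C (∑ j, c j * x' j) : AA n)) := by
    intro v hv
    rw [OQ_smul_def, map_prod]
    refine Fintype.prod_equiv (Equiv.mulLeft (⟨v, hv⟩ : D.W)) _ _ ?_
    intro u
    rw [← OQ_smul_def, ← mul_smul]
    rfl
  have hfin := h _ hinv
  rw [map_prod, map_prod] at hfin
  have hz : ∏ u : D.W, eval x' (u.1 • (lin c - MvPolynomial.C (∑ j, c j * x' j) : AA n)) = 0 := by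
    refine Finset.prod_eq_zero (Finset.mem_univ (1 : D.W)) ?_
    rw [hval]
    show ∑ j, c j * (D.tact (1 : D.OQ)⁻¹ x') j - ∑ j, c j * x' j = 0
    rw [inv_one, tact_one, sub_self]
  rw [hz, Finset.prod_eq_zero_iff] at hfin
  obtain ⟨u, -, hu⟩ := hfin
  rw [hval] at hu
  exact hc' _ (D.W.inv_mem u.2) hu

end SLD

namespace Fold

variable (E : Fold D m)

/-- The slice of the folded group is parametrised by the fixed Cartan subalgebra.
`s = sv(x0)` (`hsurj`).  An order: `SLD.exists_order ℂ`.  `x1 = tact u x0` weakly dominant (`exists_domrep`),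
`sv(x1) = sv(x0)` (`hrefl`, extended to `W` by `Subgroup.closure_induction`, as in `exists_nw`).
`x2 i = x1 (s i)` is weakly dominant, and `sv(x2) a = sv(x1) (sB a) = s (sB a) = s a` (`hs`, `eval_rename`).  So
every invariant `g = P(sv)` (`hinv`) has the same value at `x1` and `x2`; `orbit_sep`, `dom_fix`: `x2 = x1`.
`x = x1 ∘ r` (`o_eq`, `o_r`). -/
theorem surjF {S0 : Set (D.BI → ℂ)} {sv : D.BI → MvPolynomial (Fin n) ℂ}
    (hsurj : ∀ s ∈ S0, ∃ x : Fin n → ℂ, s = fun a => eval x (sv a))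
    (hrefl : ∀ (γ : D.Rt) (x : Fin n → ℂ) (a : D.BI),
      eval (D.tact (D.rO γ) x) (sv a) = eval x (sv a))
    (hs : ∀ a, rename E.s (sv a) = sv (E.sB a))
    (hinv : ∀ g : AA n, (∀ u ∈ D.W, u • g = g) → ∃ P : MvPolynomial D.BI ℂ, aeval sv P = g)
    (s : D.BI → ℂ) (h0 : s ∈ S0) (hI : E.IV s) :
    ∃ x : Fin m → ℂ, s = fun a => eval (fun i => x (E.o i)) (sv a) := by
  obtain ⟨x0, hx0⟩ := hsurj s h0
  have hW : ∀ u ∈ D.W, ∀ (x : Fin n → ℂ) (a : D.BI),
      eval (D.tact u x) (sv a) = eval x (sv a) := by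
    intro u hu
    refine Subgroup.closure_induction (p := fun u _ => ∀ (x : Fin n → ℂ) (a : D.BI),
      eval (D.tact u x) (sv a) = eval x (sv a)) ?_ ?_ ?_ ?_ hu
    · rintro _ ⟨i, rfl⟩ x a
      exact hrefl (D.al i) x a
    · intro x a
      rw [D.tact_one]
    · intro u v _ _ hu hv x a
      rw [D.tact_mul, hu, hv]
    · intro u _ hu x a
      have h1 := hu (D.tact u⁻¹ x) a
      rw [← D.tact_mul, mul_inv_cancel, D.tact_one] at h1
      exact h1.symm
  obtain ⟨Γ, i1, i2, i3, f, hf⟩ := SLD.exists_order ℂ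
  obtain ⟨u, hu, hdom⟩ := D.exists_domrep f x0
  set x1 : Fin n → ℂ := D.tact u x0 with hx1
  have hs1 : ∀ a, eval x1 (sv a) = s a := by
    intro a
    rw [hx1, hW u hu, hx0]
  have hs2 : ∀ a, eval (fun i => x1 (E.s i)) (sv a) = s a := by
    intro a
    have h1 := hs1 (E.sB a)
    rw [← hs a, MvPolynomial.eval_rename, hI a] at h1
    exact h1
  have hval : ∀ (y : Fin n → ℂ), (∀ a, eval y (sv a) = s a) → ∀ P : MvPolynomial D.BI ℂ,
      eval y (aeval sv P) = eval s P := by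
    intro y hy P
    have h1 : eval y (aeval sv P) = eval (fun a => eval y (sv a)) P := by
      induction P using MvPolynomial.induction_on with
      | C a => simp
      | add p q hp hq => rw [map_add, map_add, map_add, hp, hq]
      | mul_X p i hp => rw [map_mul, map_mul, map_mul, hp, aeval_X, eval_X]
    rw [h1]
    congr 1
    exact congrArg _ (funext hy)
  obtain ⟨w, hw, hxw⟩ := SLD.orbit_sep (D := D) (x := x1) (x' := fun i => x1 (E.s i)) (by
    intro g hg
    obtain ⟨P, rfl⟩ := hinv g hg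
    rw [hval x1 hs1, hval _ hs2])
  have hfix : D.tact w x1 = x1 := SLD.dom_fix f hf hdom hw (by
    intro i
    rw [← hxw]
    exact hdom (E.s i))
  have hinvx : ∀ i, x1 (E.s i) = x1 i := fun i => congrFun (hxw.trans hfix) i
  refine ⟨fun k => x1 (E.r k), ?_⟩
  have h2 : (fun i => x1 (E.r (E.o i))) = x1 := by
    funext i
    rcases E.o_eq _ _ (E.o_r (E.o i)) with h | h
    · rw [h]
    · rw [h, hinvx]
  funext a
  rw [← hs1 a]
  exact congrArg (fun y => eval y (sv a)) h2.symm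

/-- the semilinear action of the automorphism on vectors over the polynomial ring -/
noncomputable def f7d_P (X : D.BI → MvPolynomial (Fin n) ℂ) : D.BI → MvPolynomial (Fin n) ℂ :=
  fun a => rename E.s (X (E.sB a))

theorem f7d_ren (p : MvPolynomial (Fin n) ℂ) : rename E.s (rename E.s p) = p := by
  rw [rename_rename]
  have h : E.s ∘ E.s = id := funext E.s_s
  rw [h, rename_id_apply]

theorem f7d_PP (X : D.BI → MvPolynomial (Fin n) ℂ) : E.f7d_P (E.f7d_P X) = X := by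
  funext a
  unfold f7d_P
  rw [E.sB_sB, f7d_ren]

theorem f7d_br (X Y : D.BI → MvPolynomial (Fin n) ℂ) :
    E.f7d_P (D.br X Y) = D.br (E.f7d_P X) (E.f7d_P Y) := by
  funext d
  have h1 := D.br_map ((rename E.s : MvPolynomial (Fin n) ℂ →ₐ[ℂ] MvPolynomial (Fin n) ℂ) :
    MvPolynomial (Fin n) ℂ →+* MvPolynomial (Fin n) ℂ) X Y (E.sB d)
  refine Eq.trans h1 ?_
  rw [D.br_apply, D.br_apply, ← Equiv.sum_comp E.eB]
  refine Finset.sum_congr rfl fun a _ => ?_
  rw [← Equiv.sum_comp E.eB]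
  refine Finset.sum_congr rfl fun c _ => ?_
  rw [eB_apply, eB_apply, E.st_sB]
  rfl

/-- the transformed matrix -/
noncomputable def f7d_M (g : Matrix D.BI D.BI (MvPolynomial (Fin n) ℂ)) :
    Matrix D.BI D.BI (MvPolynomial (Fin n) ℂ) := fun a c => rename E.s (g (E.sB a) (E.sB c))

theorem f7d_MP (g : Matrix D.BI D.BI (MvPolynomial (Fin n) ℂ))
    (X : D.BI → MvPolynomial (Fin n) ℂ) : E.f7d_M g *ᵥ E.f7d_P X = E.f7d_P (g *ᵥ X) := by
  funext a
  have h1 : E.f7d_P (g *ᵥ X) a = ∑ c, rename E.s (g (E.sB a) c) * rename E.s (X c) := by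
    change rename E.s (∑ c, g (E.sB a) c * X c) = _
    rw [map_sum]
    exact Finset.sum_congr rfl fun c _ => map_mul _ _ _
  rw [h1, ← Equiv.sum_comp E.eB]
  rfl

theorem f7d_M_br {g : Matrix D.BI D.BI (MvPolynomial (Fin n) ℂ)}
    (hg : ∀ X Y, g *ᵥ D.br X Y = D.br (g *ᵥ X) (g *ᵥ Y))
    (X Y : D.BI → MvPolynomial (Fin n) ℂ) :
    E.f7d_M g *ᵥ D.br X Y = D.br (E.f7d_M g *ᵥ X) (E.f7d_M g *ᵥ Y) := by
  have hX := E.f7d_PP X
  have hY := E.f7d_PP Y
  rw [← hX, ← hY, ← f7d_br, f7d_MP, f7d_MP, f7d_MP, hg, f7d_br]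

theorem f7d_M_LoU {g : Matrix D.BI D.BI (MvPolynomial (Fin n) ℂ)} (hg : D.LoU g) :
    D.LoU (E.f7d_M g) := by
  constructor
  · intro a
    change rename E.s (g (E.sB a) (E.sB a)) = 1
    rw [hg.1, map_one]
  · intro a c hac hh
    change rename E.s (g (E.sB a) (E.sB c)) = 0
    rw [hg.2 _ _ (fun h => hac (E.sB_inj h)) (by rw [E.hI_sB, E.hI_sB]; exact hh), map_zero]

theorem f7d_ee : E.f7d_P (D.ee _ + D.tt MvPolynomial.X) = D.ee _ + D.tt MvPolynomial.X := by
  funext a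
  change rename E.s (D.ee (MvPolynomial (Fin n) ℂ) (E.sB a) +
    D.tt (MvPolynomial.X : Fin n → MvPolynomial (Fin n) ℂ) (E.sB a)) =
    D.ee (MvPolynomial (Fin n) ℂ) a + D.tt (MvPolynomial.X : Fin n → MvPolynomial (Fin n) ℂ) a
  rw [E.IV_ee, map_add]
  congr 1
  · unfold SLD.ee
    rw [Finset.sum_apply, map_sum]
    refine Finset.sum_congr rfl fun i _ => ?_
    rcases a with k | γ
    · rw [SLD.er_inl, map_zero]
    · rw [SLD.er_inr]
      split_ifs
      · exact map_one _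
      · exact map_zero _
  · rcases a with k | γ
    · rw [sB_inl, SLD.tt_inl, SLD.tt_inl, rename_X, E.s_s]
    · rw [sB_inr, SLD.tt_inr, SLD.tt_inr, map_zero]

/-- Equivariance of the conjugator and of the generic slice element.  `Sl v` : `v` is in the slice (over
`AA n`), a condition stable under the automorphism (`hSl`).
`pm' a c := rename s (pm (sB a) (sB c))` and `sv' a := rename s (sv (sB a))`.  `pm'` preserves the bracket (`br` has
invariant structure constants: `st_sB`), is lower unipotent, and `pm' (ee + tt X) = sv'` (`ee` is invariant: `IV_ee`;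
`rename s (X (s k)) = X k`).  So `u = pm' pm⁻¹` preserves the bracket, is `LoU` (`LoU.inv`, `LoU.mul`) and `u sv = sv'`;
`huniq` gives `u = 1`, `pm' = pm`, `sv' = sv`. -/
theorem equivF (F : Frm D) {sv : D.BI → MvPolynomial (Fin n) ℂ}
    {pm : Matrix D.BI D.BI (MvPolynomial (Fin n) ℂ)} (Sl : (D.BI → MvPolynomial (Fin n) ℂ) → Prop)
    (hG : IsGp F pm) (hU : D.LoU pm) (hc : pm *ᵥ (D.ee _ + D.tt MvPolynomial.X) = sv)
    (h0 : Sl sv) (hSl : ∀ v, Sl v → Sl fun a => rename E.s (v (E.sB a)))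
    (huniq : ∀ (u : Matrix D.BI D.BI (MvPolynomial (Fin n) ℂ)) (v w : D.BI → MvPolynomial (Fin n) ℂ),
      (∀ X Y, u *ᵥ D.br X Y = D.br (u *ᵥ X) (u *ᵥ Y)) → D.LoU u → Sl v → Sl w → u *ᵥ v = w →
        u = 1) :
    (∀ a c, rename E.s (pm a c) = pm (E.sB a) (E.sB c)) ∧ ∀ a, rename E.s (sv a) = sv (E.sB a) := by
  have h1 : E.f7d_M pm *ᵥ (D.ee _ + D.tt MvPolynomial.X) = E.f7d_P sv := by
    have h := E.f7d_MP pm (D.ee _ + D.tt MvPolynomial.X)
    rw [f7d_ee, hc] at h
    exact h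
  have h2 : (E.f7d_M pm * pm⁻¹) *ᵥ sv = E.f7d_P sv := by
    have h : pm⁻¹ *ᵥ sv = D.ee _ + D.tt MvPolynomial.X := by
      rw [← hc, Matrix.mulVec_mulVec, hG.inv_mul, Matrix.one_mulVec]
    rw [← Matrix.mulVec_mulVec, h, h1]
  have h3 : ∀ X Y, (E.f7d_M pm * pm⁻¹) *ᵥ D.br X Y =
      D.br ((E.f7d_M pm * pm⁻¹) *ᵥ X) ((E.f7d_M pm * pm⁻¹) *ᵥ Y) := by
    intro X Y
    rw [← Matrix.mulVec_mulVec, ← Matrix.mulVec_mulVec, ← Matrix.mulVec_mulVec, hG.inv.br,
      E.f7d_M_br hG.br]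
  have h4 : E.f7d_M pm * pm⁻¹ = 1 :=
    huniq _ sv (E.f7d_P sv) h3 ((E.f7d_M_LoU hU).mul hU.inv) h0 (hSl sv h0) h2
  have h5 : E.f7d_M pm = pm := by
    have h := congrArg (· * pm) h4
    simp only [Matrix.mul_assoc, hG.inv_mul, Matrix.mul_one, Matrix.one_mul] at h
    exact h
  have h6 : E.f7d_P sv = sv := by
    rw [← h2, h4, Matrix.one_mulVec]
  constructor
  · intro a c
    have h := congrFun (congrFun h5 (E.sB a)) (E.sB c)
    rw [← h]
    change rename E.s (pm a c) = rename E.s (pm (E.sB (E.sB a)) (E.sB (E.sB c)))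
    rw [E.sB_sB, E.sB_sB]
  · intro a
    have h := congrFun h6 (E.sB a)
    rw [← h]
    change rename E.s (sv a) = rename E.s (sv (E.sB (E.sB a)))
    rw [E.sB_sB]

end Fold

end Pool.Agent.MTX
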