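import Pool.Agent.MTX.T1

/-! # MTX, Part T : eigenvectors of the generic slice element -/

namespace Pool.Agent.MTX

open MvPolynomial SLD

variable {n N : ℕ} {D : SLD n} {T : TD D N}

/-- `v` is an eigenvector of `sx` with eigenvalue the form of `μ` -/
def TD.Eig (T : TD D N) (μ : Fin n → ℤ) (v : Fin N → AA n) : Prop :=
  T.sx.mulVec v = fm0 μ • v

/-- Let `(e + Dx) v = μ v`, `v ≠ 0`.  Take `i` with `v i ≠ 0` of minimal height.  In
`((e + Dx) v) i = ∑_j e i j v j + wt_i v i` the sum vanishes (`e i j ≠ 0` gives `hg j = hg i - 1 < hg i`), so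
`fm0 (wt i) v i = fm0 μ v i` and `wt i = μ` (`fm0` is injective: `fm0_ne_zero`, `fm0_sub`). -/
theorem eig0_exists (A : TAx T) {μ : Fin n → ℤ} {v : Fin N → AA n}
    (h : (T.e.map C + T.Dx).mulVec v = fm0 μ • v) (hv : v ≠ 0) :
    ∃ i, v i ≠ 0 ∧ T.wt i = μ ∧ ∀ j, T.hg j < T.hg i → v j = 0 := by
  classical
  obtain ⟨i0, hi0⟩ := Function.ne_iff.1 hv
  obtain ⟨i, hi, hmin⟩ := Finset.exists_min_image
    (Finset.univ.filter fun i : Fin N => v i ≠ 0) (fun i => T.hg i)
    ⟨i0, Finset.mem_filter.2 ⟨Finset.mem_univ _, hi0⟩⟩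
  have hvi : v i ≠ 0 := (Finset.mem_filter.1 hi).2
  have hlow : ∀ j, T.hg j < T.hg i → v j = 0 := by
    intro j hj
    by_contra hvj
    have := hmin j (Finset.mem_filter.2 ⟨Finset.mem_univ _, hvj⟩)
    omega
  refine ⟨i, hvi, ?_, hlow⟩
  have h1 := congrFun h i
  rw [Matrix.add_mulVec, Pi.add_apply, Pi.smul_apply, smul_eq_mul, TD.Dx,
    Matrix.mulVec_diagonal] at h1
  have h2 : (T.e.map C).mulVec v i = 0 := by
    rw [Matrix.mulVec, dotProduct]
    refine Finset.sum_eq_zero fun j _ => ?_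
    rw [Matrix.map_apply]
    by_cases he : T.e i j = 0
    · rw [he, map_zero, zero_mul]
    · have h3 := A.e_wt i j he
      rw [hlow j (by omega), mul_zero]
  rw [h2, zero_add] at h1
  have h4 : fm0 (T.wt i - μ) * v i = 0 := by
    rw [fm0_sub, sub_mul, h1, sub_self]
  rcases mul_eq_zero.1 h4 with h5 | h5
  · by_contra hne
    exact fm0_ne_zero (sub_ne_zero.2 hne) h5
  · exact absurd h5 hvi

/-- The `sx`-eigenvectors are the images under `px` of the `(e + Dx)`-eigenvectors: if `Eig μ v` and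
`v' = px⁻¹ v` (`px_det`), then `(e + Dx) v' = μ v'` and `v = px v'`. -/
theorem eig_pull (A : TAx T) {μ : Fin n → ℤ} {v : Fin N → AA n} (h : T.Eig μ v) :
    ∃ v' : Fin N → AA n, v = T.px.mulVec v' ∧ (T.e.map C + T.Dx).mulVec v' = fm0 μ • v' := by
  have h1 : T.px⁻¹ * T.px = 1 := Matrix.nonsing_inv_mul _ A.px_det
  have h2 : T.px * T.px⁻¹ = 1 := Matrix.mul_nonsing_inv _ A.px_det
  refine ⟨T.px⁻¹.mulVec v, ?_, ?_⟩
  · rw [Matrix.mulVec_mulVec, h2, Matrix.one_mulVec]
  · have h3 : T.e.map C + T.Dx = T.px⁻¹ * (T.sx * T.px) := by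
      rw [← A.px_conj, ← Matrix.mul_assoc, h1, Matrix.one_mul]
    rw [h3, Matrix.mulVec_mulVec, Matrix.mul_assoc, Matrix.mul_assoc, h2, Matrix.mul_one,
      ← Matrix.mulVec_mulVec]
    have h4 : T.sx.mulVec v = fm0 μ • v := h
    rw [h4, Matrix.mulVec_smul]

/-- Eigenvectors for a root are proportional.  `v = px v'`, `w = px w'` (`eig_pull`).  Let `i0` be the index of
weight `γ` (`wt_surj`, unique by `wt_inj`).  `u := w' i0 • v' - v' i0 • w'` is an eigenvector of `e + Dx` for `γ`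
with `u i0 = 0`, so `u = 0` by `eig0_exists`.  Hence `w' i0 • v = v' i0 • w`; and `v = 0` if `v' i0 = 0` (again
`eig0_exists`), likewise `w`.  So `v i * w j = v j * w i` (multiply by `v' i0`, `w' i0`; domain). -/
theorem eig_prop (A : TAx T) (γ : D.Rt) {v w : Fin N → AA n} (hv : T.Eig γ.1 v)
    (hw : T.Eig γ.1 w) (i j : Fin N) : v i * w j = v j * w i := by
  obtain ⟨v', hv1, hv2⟩ := eig_pull A hv
  obtain ⟨w', hw1, hw2⟩ := eig_pull A hw
  obtain ⟨i0, hi0⟩ := A.wt_surj γ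
  have hγ : γ.1 ≠ 0 := D.Rt_ne_zero γ
  have huniq : ∀ i, T.wt i = γ.1 → i = i0 := fun i hi =>
    A.wt_inj i i0 (by rw [hi, hi0]) (by rw [hi]; exact hγ)
  have key : ∀ u : Fin N → AA n, (T.e.map C + T.Dx).mulVec u = fm0 γ.1 • u → u i0 = 0 →
      u = 0 := by
    intro u hu hu0
    by_contra hne
    obtain ⟨i, h1, h2, -⟩ := eig0_exists A hu hne
    rw [huniq i h2] at h1
    exact h1 hu0
  have hu : w' i0 • v' - v' i0 • w' = 0 := by
    apply key
    · rw [Matrix.mulVec_sub, Matrix.mulVec_smul, Matrix.mulVec_smul, hv2, hw2, smul_sub,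
        smul_comm (w' i0), smul_comm (v' i0)]
    · simp only [Pi.sub_apply, Pi.smul_apply, smul_eq_mul]
      ring
  have hvw : w' i0 • v = v' i0 • w := by
    rw [hv1, hw1, ← Matrix.mulVec_smul, ← Matrix.mulVec_smul, sub_eq_zero.1 hu]
  by_cases hv0 : v' i0 = 0
  · have h1 : v' = 0 := key v' hv2 hv0
    rw [hv1, h1, Matrix.mulVec_zero]
    simp
  · have h1 : ∀ l, w' i0 * v l = v' i0 * w l := fun l => congrFun hvw l
    have h2 : v' i0 * (v i * w j) = v' i0 * (v j * w i) := by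
      calc v' i0 * (v i * w j) = v i * (v' i0 * w j) := by ring
        _ = v i * (w' i0 * v j) := by rw [h1 j]
        _ = v j * (w' i0 * v i) := by ring
        _ = v j * (v' i0 * w i) := by rw [h1 i]
        _ = v' i0 * (v j * w i) := by ring
    exact mul_left_cancel₀ hv0 h2

/-- `κ(sx v, w) + κ(v, sx w) = 0`. -/
theorem ka_skew (A : TAx T) (v w : Fin N → AA n) :
    T.ka (T.sx.mulVec v) w + T.ka v (T.sx.mulVec w) = 0 := by
  unfold TD.ka
  have h1 : T.sx.mulVec v ⬝ᵥ T.K.mulVec w = v ⬝ᵥ (T.sx.transpose * T.K).mulVec w := by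
    rw [← Matrix.mulVec_mulVec, Matrix.dotProduct_mulVec v T.sx.transpose, Matrix.vecMul_transpose]
  rw [h1, Matrix.mulVec_mulVec, ← dotProduct_add, ← Matrix.add_mulVec, A.sx_kp, Matrix.zero_mulVec,
    dotProduct_zero]

theorem ka_comm (A : TAx T) (v w : Fin N → AA n) : T.ka v w = T.ka w v := by
  unfold TD.ka
  have h1 : T.K.transpose = T.K := by
    unfold TD.K
    rw [← Matrix.transpose_map, A.kp_symm]
  rw [Matrix.dotProduct_mulVec, dotProduct_comm, ← Matrix.mulVec_transpose, h1]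

/-- `(μ + ν) κ(v, w) = 0` in a domain, `fm0 (μ + ν) ≠ 0`. -/
theorem ka_eig (A : TAx T) {μ ν : Fin n → ℤ} {v w : Fin N → AA n} (hv : T.Eig μ v)
    (hw : T.Eig ν w) (h : μ + ν ≠ 0) : T.ka v w = 0 := by
  have h1 := ka_skew A v w
  have h2 : T.ka (T.sx.mulVec v) w = fm0 μ * T.ka v w := by
    rw [show T.sx.mulVec v = fm0 μ • v from hv]
    unfold TD.ka
    rw [smul_dotProduct, smul_eq_mul]
  have h3 : T.ka v (T.sx.mulVec w) = fm0 ν * T.ka v w := by
    rw [show T.sx.mulVec w = fm0 ν • w from hw]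
    unfold TD.ka
    rw [Matrix.mulVec_smul, dotProduct_smul, smul_eq_mul]
  rw [h2, h3, ← add_mul, ← fm0_add] at h1
  exact (mul_eq_zero.1 h1).resolve_left (fm0_ne_zero h)

/-- `κ(u v, u w) = u κ(v, w)`: `κ` has constant entries (`smul_C`). -/
theorem ka_smul (u : D.OQ) (v w : Fin N → AA n) :
    T.ka (u • v) (u • w) = u • T.ka v w := by
  unfold TD.ka TD.K
  simp only [dotProduct, Matrix.mulVec, Matrix.map_apply, Finset.smul_sum, smul_mul', smul_C,
    Pi.smul_apply]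

/-- `sx` is `W`-invariant: `sx (u v) = u (sx v)`, and `u (fm0 μ) = fm0 (u μ)`. -/
theorem eig_smul (A : TAx T) {u : D.OQ} (hu : u ∈ D.W) {μ : Fin n → ℤ} {v : Fin N → AA n}
    (hv : T.Eig μ v) : T.Eig (u.1 μ) (u • v) := by
  unfold TD.Eig at hv ⊢
  funext i
  have h1 := congrFun hv i
  have h2 : T.sx.mulVec (u • v) i = u • T.sx.mulVec v i := by
    simp only [dotProduct, Matrix.mulVec, Finset.smul_sum, smul_mul', Pi.smul_apply]
    exact Finset.sum_congr rfl fun j _ => by rw [A.sx_inv u hu i j]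
  rw [h2, h1, Pi.smul_apply, Pi.smul_apply, Pi.smul_apply, smul_eq_mul, smul_eq_mul, smul_mul',
    smul_fm0]

/-- `E = px e_θ`, `(e + Dx) e_θ = θ e_θ`: `e i tp ≠ 0` would give a weight of height `ht θ + 1`
(`e_wt`), but all weights are `0` or roots and `θ` has maximal height (`theta_max`). -/
theorem eig_E (A : TAx T) : T.Eig D.theta.1 T.E := by
  have hht : 1 ≤ SLD.ht D.theta.1 := by
    have h1 := D.theta_max (D.al ⟨0, D.npos⟩)
    have h2 : SLD.ht (D.al ⟨0, D.npos⟩).1 = 1 := by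
      simp [SLD.ht, SLD.al]
    rw [h2] at h1
    exact h1
  have htp : T.hg T.tp = SLD.ht D.theta.1 := by
    unfold TD.hg
    rw [A.wt_tp]
  have he : ∀ i, T.e i T.tp = 0 := by
    intro i
    by_contra h
    have h1 := A.e_wt i T.tp h
    rw [htp] at h1
    rcases A.wt_cases i with h2 | h2
    · have h3 : T.hg i = 0 := by
        unfold TD.hg
        rw [h2]
        simp [SLD.ht]
      omega
    · have h3 := D.theta_max ⟨T.wt i, h2⟩
      have h4 : T.hg i ≤ SLD.ht D.theta.1 := h3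
      omega
  unfold TD.Eig
  funext i
  have h1 : T.sx.mulVec T.E i = (T.sx * T.px) i T.tp := rfl
  rw [h1, ← A.px_conj, Matrix.mul_apply, Finset.sum_eq_single T.tp]
  · rw [Matrix.add_apply, Matrix.map_apply, he, TD.Dx, Matrix.diagonal_apply_eq, A.wt_tp,
      map_zero, zero_add, Pi.smul_apply, smul_eq_mul, mul_comm]
    rfl
  · intro j _ hj
    rw [Matrix.add_apply, Matrix.map_apply, he, TD.Dx, Matrix.diagonal_apply_ne _ hj,
      map_zero, zero_add, mul_zero]
  · intro h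
    exact absurd (Finset.mem_univ _) h

theorem E_tp (A : TAx T) : T.E T.tp = 1 := by
  have h1 := A.px_one T.tp T.tp rfl
  rw [if_pos rfl] at h1
  exact h1

/-- `HZ (hg tp - hg i) (px i tp)` and `hg tp = ht θ`. -/
theorem HV_E (A : TAx T) : T.HV (ht D.theta.1) T.E := by
  intro i
  have htp : T.hg T.tp = SLD.ht D.theta.1 := by
    unfold TD.hg
    rw [A.wt_tp]
  have h1 := A.px_hz i T.tp
  rw [htp] at h1
  exact h1

/-- If `u θ = u' θ` then `u E = u' E`: both are eigenvectors for the root `u θ` (`eig_smul`), and with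
`w = u⁻¹ u'`: `w E` and `E` are eigenvectors for `θ` with `tp`-coordinate `1` (`E_tp`; `w • 1 = 1`), so equal by
`eig_prop`. -/
theorem smul_E_eq (A : TAx T) {u u' : D.OQ} (hu : u ∈ D.W) (hu' : u' ∈ D.W)
    (h : u.1 D.theta.1 = u'.1 D.theta.1) : u • T.E = u' • T.E := by
  have hw : u⁻¹ * u' ∈ D.W := D.W.mul_mem (D.W.inv_mem hu) hu'
  have hth : (u⁻¹ * u').1 D.theta.1 = D.theta.1 := by
    have h1 : (u⁻¹ * u').1 D.theta.1 = (u⁻¹).1 (u'.1 D.theta.1) := rfl
    rw [h1, ← h]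
    have h2 : (u⁻¹ * u).1 D.theta.1 = (u⁻¹).1 (u.1 D.theta.1) := rfl
    rw [← h2, inv_mul_cancel]
    rfl
  have h3 := eig_smul A hw (eig_E A)
  rw [hth] at h3
  have h4 : (u⁻¹ * u') • T.E = T.E := by
    funext i
    have h5 := eig_prop A D.theta h3 (eig_E A) i T.tp
    rw [Pi.smul_apply, Pi.smul_apply, E_tp A, smul_one, mul_one, one_mul] at h5
    rw [Pi.smul_apply]
    exact h5
  have h6 : u' • T.E = u • ((u⁻¹ * u') • T.E) := by
    rw [smul_smul, mul_inv_cancel_left]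
  rw [h6, h4]

end Pool.Agent.MTX
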