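import Pool.Agent.MTX.T9a
import Pool.Agent.MTX.T2

/-! # MTX, Part T : the vector `Ev = px^{⊗m} v_λ` -/

namespace Pool.Agent.MTX

open MvPolynomial SLD

variable {n N : ℕ} {D : SLD n} {T : TD D N}

/-- `J` enumerates the basis vectors of weight `γ` with `γ_k = θ_k`. -/
structure JD (T : TD D N) (k : Fin n) {m : ℕ} (J : Fin m → Fin N) : Prop where
  inj : Function.Injective J
  mem : ∀ i, (∃ r, J r = i) ↔ T.wt i k = D.theta.1 k

/-- the weight of the columns -/
def lamJ (T : TD D N) {m : ℕ} (J : Fin m → Fin N) : Fin n → ℤ := ∑ r, T.wt (J r)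

/-- the minors of `px` -/
noncomputable def Ev (T : TD D N) {m : ℕ} (J : Fin m → Fin N) : (Fin m → Fin N) → AA n :=
  fun t => (T.px.submatrix t J).det

theorem t9b_updateRow {R : Type} [CommRing R] {m : ℕ} (M : Matrix (Fin m) (Fin m) R) (r : Fin m)
    (v : Fin m → R) : (M.updateRow r v).det = ∑ k, M.adjugate k r * v k := by
  rw [← Matrix.cramer_transpose_apply, Matrix.cramer_eq_adjugate_mulVec, ← Matrix.adjugate_transpose]
  rfl

theorem t9b_fm0_sum {m : ℕ} (f : Fin m → Fin n → ℤ) : fm0 (∑ r, f r) = ∑ r, fm0 (f r) := by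
  have key : ∀ S : Finset (Fin m), fm0 (∑ r ∈ S, f r) = ∑ r ∈ S, fm0 (f r) := by
    intro S
    classical
    induction S using Finset.induction_on with
    | empty => simp [fm0_zero]
    | insert a S ha ih => rw [Finset.sum_insert ha, Finset.sum_insert ha, fm0_add, ih]
  exact key Finset.univ

/-- the sum over the tensor indices -/
theorem t9b_sum {R : Type} [CommRing R] {m : ℕ} (s P : Matrix (Fin N) (Fin N) R)
    (J a : Fin m → Fin N) :
    ∑ b, powS s m a b * (P.submatrix b J).det =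
      ∑ r, ∑ k, (P.submatrix a J).adjugate k r * (s * P) (a r) (J k) := by
  classical
  unfold powS
  simp only [Finset.sum_mul]
  rw [Finset.sum_comm]
  refine Finset.sum_congr rfl fun r _ => ?_
  have h1 : ∑ b : Fin m → Fin N, s (a r) (b r) *
      (∏ r' ∈ Finset.univ.erase r, (if a r' = b r' then 1 else 0)) * (P.submatrix b J).det =
      ∑ c, s (a r) c * (P.submatrix (Function.update a r c) J).det := by
    symm
    refine Fintype.sum_of_injective (fun c => Function.update a r c)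
      (Function.update_injective a r) _ _ ?_ ?_
    · intro b hb
      have h2 : ∃ r', r' ≠ r ∧ a r' ≠ b r' := by
        by_contra hcon
        push Not at hcon
        apply hb
        refine ⟨b r, ?_⟩
        funext r'
        by_cases h : r' = r
        · subst h
          exact Function.update_self _ _ _
        · show Function.update a r (b r) r' = b r'
          rw [Function.update_of_ne h]
          exact hcon r' h
      obtain ⟨r', hr', hne⟩ := h2
      rw [Finset.prod_eq_zero (Finset.mem_erase.2 ⟨hr', Finset.mem_univ r'⟩) (if_neg hne)]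
      rw [mul_zero, zero_mul]
    · intro c
      have h2 : ∏ r' ∈ Finset.univ.erase r,
          (if a r' = Function.update a r c r' then (1 : R) else 0) = 1 := by
        refine Finset.prod_eq_one fun r' hr' => ?_
        rw [Function.update_of_ne (Finset.ne_of_mem_erase hr'), if_pos rfl]
      show _ = s (a r) (Function.update a r c r) * _ * _
      rw [h2, Function.update_self, mul_one]
  rw [h1]
  have h2 : ∀ c, (P.submatrix (Function.update a r c) J).det =
      ∑ k, (P.submatrix a J).adjugate k r * P c (J k) := by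
    intro c
    rw [← t9b_updateRow]
    congr 1
    ext r' k
    by_cases h : r' = r
    · subst h
      rw [Matrix.updateRow_self, Matrix.submatrix_apply, Function.update_self]
    · rw [Matrix.updateRow_ne h, Matrix.submatrix_apply, Function.update_of_ne h]
      rfl
  simp only [h2, Finset.mul_sum]
  rw [Finset.sum_comm]
  refine Finset.sum_congr rfl fun k _ => ?_
  rw [Matrix.mul_apply, Finset.mul_sum]
  exact Finset.sum_congr rfl fun c _ => by ring

/-- `∑_b powS s a b Ev b = ∑_r det (px[a, J] with the row r replaced by (s px)[a_r, J])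
= ∑_c det (px[a, J] with the column c replaced by (s px)[a, J_c])` (both are the derivative of the determinant; e.g.
expand both with `Matrix.det_apply`, or use `Matrix.det_updateRow_...`), and by `px_conj`
`(s px)[a, J_c] = wt(J_c) px[a, J_c] + ∑_l px[a, l] e l J_c`.  The second summand is a combination of the columns
`px[a, J_c']`, `c' ≠ c`: `e l (J c) ≠ 0` gives `wt l = wt (J c) + α_i` (`he`), whose `k`-th coordinate is
`θ_k` or `θ_k + 1`; the latter is impossible (`wt_cases`, `le_theta`), so `l = J c'`, and `c' ≠ c` as the weights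
differ.  Hence `∑_b powS s a b Ev b = (∑_c fm0 (wt (J c))) Ev a`.  (`fm0_sum`.) -/
theorem Ev_eig (A : TAx T) (he : ∀ i j, T.e i j ≠ 0 → ∃ l, T.wt i = T.wt j + Pi.single l 1)
    {k : Fin n} {m : ℕ} {J : Fin m → Fin N} (hJ : JD T k J) (a : Fin m → Fin N) :
    ∑ b, powS T.sx m a b * Ev T J b = fm0 (lamJ T J) * Ev T J a := by
  classical
  unfold Ev
  rw [t9b_sum]
  set M := T.px.submatrix a J with hM
  set β : Matrix (Fin m) (Fin m) (AA n) := (T.e.map C + T.Dx).submatrix J J with hβ
  have hz : ∀ (c : Fin m) (l : Fin N), l ∉ Set.range J →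
      (T.e.map C + T.Dx : Matrix (Fin N) (Fin N) (AA n)) l (J c) = 0 := by
    intro c l hl
    have hJc : T.wt (J c) k = D.theta.1 k := (hJ.mem _).1 ⟨c, rfl⟩
    have h1 : T.e l (J c) = 0 := by
      by_contra hne
      obtain ⟨i0, hi0⟩ := he _ _ hne
      have h2 := congrFun hi0 k
      rw [Pi.add_apply, hJc] at h2
      by_cases hik : k = i0
      · subst hik
        rw [Pi.single_eq_same] at h2
        have hpos := D.theta_coord k
        rcases A.wt_cases l with h3 | h3
        · rw [h3, Pi.zero_apply] at h2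
          omega
        · have h4 := D.le_theta ⟨T.wt l, h3⟩ k
          have h5 : T.wt l k ≤ D.theta.1 k := h4
          omega
      · rw [Pi.single_eq_of_ne hik, add_zero] at h2
        exact hl ((hJ.mem l).2 h2)
    have h2 : T.Dx l (J c) = 0 := by
      unfold TD.Dx
      exact Matrix.diagonal_apply_ne _ (fun h => hl ⟨c, h.symm⟩)
    rw [Matrix.add_apply, Matrix.map_apply, h1, h2, map_zero, add_zero]
  have hQ : ∀ r c, (T.sx * T.px) (a r) (J c) = (M * β) r c := by
    intro r c
    rw [← A.px_conj, Matrix.mul_apply, Matrix.mul_apply]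
    symm
    refine Fintype.sum_of_injective J hJ.inj _ _ ?_ ?_
    · intro l hl
      rw [hz c l hl, mul_zero]
    · intro c'
      rfl
  have hdiag : ∀ c, β c c = fm0 (T.wt (J c)) := by
    intro c
    have h1 : T.e (J c) (J c) = 0 := by
      by_contra hne
      obtain ⟨i0, hi0⟩ := he _ _ hne
      have h2 := congrFun hi0 i0
      rw [Pi.add_apply, Pi.single_eq_same] at h2
      omega
    rw [hβ, Matrix.submatrix_apply, Matrix.add_apply, Matrix.map_apply, h1, map_zero, zero_add]
    unfold TD.Dx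
    exact Matrix.diagonal_apply_eq _ _
  simp only [hQ]
  rw [Finset.sum_comm]
  have h3 : ∀ c, ∑ r, M.adjugate c r * (M * β) r c = M.det * fm0 (T.wt (J c)) := by
    intro c
    rw [← Matrix.mul_apply, ← Matrix.mul_assoc, Matrix.adjugate_mul, Matrix.smul_mul,
      Matrix.one_mul, Matrix.smul_apply, smul_eq_mul, hdiag]
  rw [Finset.sum_congr rfl fun c _ => h3 c, ← Finset.mul_sum]
  unfold lamJ
  rw [t9b_fm0_sum, mul_comm]

theorem t9b_hz (A : TAx T) {i j : Fin N} (h : T.hg j < T.hg i) : T.px i j = 0 :=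
  HZ.eq_zero (by omega) (A.px_hz i j)

theorem t9b_ne (A : TAx T) {k : Fin n} {m : ℕ} {J : Fin m → Fin N} (hJ : JD T k J) (r : Fin m) :
    T.wt (J r) ≠ 0 := by
  intro h
  have h1 := (hJ.mem (J r)).1 ⟨r, rfl⟩
  rw [h] at h1
  have h2 := D.theta_coord k
  rw [← h1] at h2
  exact lt_irrefl _ h2

theorem t9b_root (A : TAx T) {k : Fin n} {m : ℕ} {J : Fin m → Fin N} (hJ : JD T k J) (r : Fin m) :
    D.B (T.wt (J r)) (T.wt (J r)) = 2 := by
  rcases A.wt_cases (J r) with h | h
  · exact absurd h (t9b_ne A hJ r)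
  · exact h

theorem t9b_k {k : Fin n} {m : ℕ} {J : Fin m → Fin N} (hJ : JD T k J) (r : Fin m) :
    T.wt (J r) k = D.theta.1 k := (hJ.mem (J r)).1 ⟨r, rfl⟩

/-- `px[J, J]` is unipotent for the order by heights: `px i j ≠ 0` implies `hg i < hg j` or `i = j`
(`px_hz`, `px_one`).  (`Matrix.det_of_...` for block triangular matrices: `Matrix.BlockTriangular.det` with the
height as the block function, or order the indices.) -/
theorem Ev_J (A : TAx T) {k : Fin n} {m : ℕ} {J : Fin m → Fin N} (hJ : JD T k J) :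
    Ev T J J = 1 := by
  unfold Ev
  have hM : Matrix.BlockTriangular (T.px.submatrix J J) (fun a => T.hg (J a)) := by
    intro i j hij
    exact t9b_hz A hij
  rw [hM.det]
  refine Finset.prod_eq_one fun a _ => ?_
  have h1 : (T.px.submatrix J J).toSquareBlock (fun a => T.hg (J a)) a = 1 := by
    ext1 i j
    have h2 : T.hg (J i.1) = T.hg (J j.1) := i.2.trans j.2.symm
    have h3 := A.px_one _ _ h2
    change T.px (J i.1) (J j.1) = (1 : Matrix _ _ (AA n)) i j
    rw [h3, Matrix.one_apply]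
    by_cases h : i = j
    · rw [if_pos h, if_pos (by rw [h])]
    · rw [if_neg h, if_neg fun h' => h (Subtype.ext (hJ.inj h'))]
  rw [h1, Matrix.det_one]

theorem t9b_rf (A : TAx T) {k : Fin n} {m : ℕ} {J : Fin m → Fin N} (hJ : JD T k J) {i : Fin n}
    (hi : i ≠ k) : D.rf (D.al i) (lamJ T J) = lamJ T J := by
  have hex : ∀ r, ∃ r', T.wt (J r') = D.rf (D.al i) (T.wt (J r)) := by
    intro r
    obtain ⟨l, hl⟩ := A.wt_surj (D.rO (D.al i) • (⟨T.wt (J r), t9b_root A hJ r⟩ : D.Rt))
    have h1 : T.wt l = D.rf (D.al i) (T.wt (J r)) := hl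
    have h2 : T.wt l k = D.theta.1 k := by
      rw [h1, rf_val, Pi.sub_apply, Pi.smul_apply, al_val, Pi.single_eq_of_ne hi.symm,
        smul_zero, sub_zero]
      exact t9b_k hJ r
    obtain ⟨r', hr'⟩ := (hJ.mem l).2 h2
    exact ⟨r', by rw [hr', h1]⟩
  choose σ hσ using hex
  have hinj : Function.Injective σ := by
    intro r r' h
    have h1 : D.rf (D.al i) (T.wt (J r)) = D.rf (D.al i) (T.wt (J r')) := by
      rw [← hσ, ← hσ, h]
    have h2 := congrArg (D.rf (D.al i)) h1
    rw [rf_rf, rf_rf] at h2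
    exact hJ.inj (A.wt_inj _ _ h2 (t9b_ne A hJ r))
  have hbij : Function.Bijective σ := Finite.injective_iff_bijective.1 hinj
  have hsum : ∀ (s : Finset (Fin m)) (f : Fin m → Fin n → ℤ),
      D.rf (D.al i) (∑ r ∈ s, f r) = ∑ r ∈ s, D.rf (D.al i) (f r) := by
    intro s f
    induction s using Finset.induction_on with
    | empty =>
      rw [Finset.sum_empty, Finset.sum_empty, rf_val, B_zero_right, zero_smul, sub_zero]
    | insert a s ha ih => rw [Finset.sum_insert ha, Finset.sum_insert ha, rf_add, ih]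
  unfold lamJ
  rw [hsum]
  calc ∑ r, D.rf (D.al i) (T.wt (J r)) = ∑ r, T.wt (J (σ r)) :=
        Finset.sum_congr rfl fun r _ => (hσ r).symm
    _ = ∑ r, T.wt (J r) := (Equiv.ofBijective σ hbij).sum_comp fun r => T.wt (J r)

theorem t9b_zero (A : TAx T) {k : Fin n} {m : ℕ} {J : Fin m → Fin N} (hJ : JD T k J) {i : Fin n}
    (hi : i ≠ k) : D.B (D.al i).1 (lamJ T J) = 0 := by
  have h1 := congrFun (t9b_rf A hJ hi) i
  rw [rf_val, Pi.sub_apply, Pi.smul_apply, al_val, Pi.single_eq_same, smul_eq_mul,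
    mul_one] at h1
  have h2 : D.B (Pi.single i 1) (lamJ T J) = 0 := by linarith
  rw [al_val]
  exact h2

theorem t9b_coord {k : Fin n} {m : ℕ} {J : Fin m → Fin N} (hJ : JD T k J) :
    lamJ T J k = m * D.theta.1 k := by
  unfold lamJ
  rw [Finset.sum_apply, Finset.sum_congr rfl fun r _ => t9b_k hJ r, Finset.sum_const,
    Finset.card_univ, Fintype.card_fin, nsmul_eq_mul]

theorem t9b_pos (A : TAx T) {k : Fin n} {m : ℕ} {J : Fin m → Fin N} (hJ : JD T k J) :
    0 < lamJ T J k := by
  rw [t9b_coord hJ]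
  obtain ⟨r, _⟩ := (hJ.mem T.tp).2 (by rw [A.wt_tp])
  have hm : 0 < m := lt_of_le_of_lt (Nat.zero_le _) r.2
  have h1 := D.theta_coord k
  have h2 : (0 : ℤ) < m := by exact_mod_cast hm
  exact mul_pos h2 h1

theorem t9b_form (A : TAx T) {k : Fin n} {m : ℕ} {J : Fin m → Fin N} (hJ : JD T k J)
    (x : Fin n → ℤ) : D.B x (lamJ T J) = x k * D.B (D.al k).1 (lamJ T J) := by
  rw [B_coord D x]
  refine Finset.sum_eq_single k (fun i _ hi => ?_) fun h => absurd (Finset.mem_univ k) h
  rw [t9b_zero A hJ hi, mul_zero]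

theorem t9b_kpos (A : TAx T) {k : Fin n} {m : ℕ} {J : Fin m → Fin N} (hJ : JD T k J) :
    0 < D.B (D.al k).1 (lamJ T J) := by
  have h0 := t9b_pos A hJ
  have hne : lamJ T J ≠ 0 := by
    intro h
    rw [h] at h0
    exact lt_irrefl _ h0
  have h1 : 0 < D.B (lamJ T J) (lamJ T J) := D.pos _ hne
  rw [t9b_form A hJ (lamJ T J)] at h1
  exact (mul_pos_iff_of_pos_left h0).1 h1

/-- `B(λ, α_i) = 0` for `i ≠ k` and `> 0` for `i = k`: `s_i`, `i ≠ k`, permutes `{γ | γ_k = θ_k}` (it does not change the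
`k`-th coordinate), so `s_i λ = λ`.  `λ_k = m θ_k > 0`, and `0 < B(λ, λ) = ∑_i λ_i B(λ, α_i) = λ_k B(λ, α_k)`.
(`0 < m`: `tp` is in the image of `J`.) -/
theorem lamJ_B (A : TAx T) {k : Fin n} {m : ℕ} {J : Fin m → Fin N} (hJ : JD T k J) (i : Fin n) :
    (i ≠ k → D.B (lamJ T J) (D.al i).1 = 0) ∧ (i = k → 0 < D.B (lamJ T J) (D.al i).1) := by
  rw [B_comm]
  refine ⟨fun h => t9b_zero A hJ h, fun h => ?_⟩
  subst h
  exact t9b_kpos A hJ

theorem lamJ_dom (A : TAx T) {k : Fin n} {m : ℕ} {J : Fin m → Fin N} (hJ : JD T k J) :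
    D.Dom (lamJ T J) := by
  intro i
  by_cases h : i = k
  · exact ((lamJ_B A hJ i).2 h).le
  · rw [(lamJ_B A hJ i).1 h]

/-- If `u λ = λ` then `u` permutes the roots with `γ_k = θ_k`: `B(λ, γ) = γ_k B(λ, α_k)` (`lamJ_B`, `B_coord`), so
`B(λ, u γ) = B(λ, γ)` gives `(u γ)_k = γ_k`. -/
theorem stab_coord (A : TAx T) {k : Fin n} {m : ℕ} {J : Fin m → Fin N} (hJ : JD T k J) (u : D.OQ)
    (hu : u.1 (lamJ T J) = lamJ T J) (γ : D.Rt) : (u • γ).1 k = γ.1 k := by
  have h1 := t9b_form A hJ (u • γ).1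
  have h2 := t9b_form A hJ γ.1
  have h3 : D.B (u • γ).1 (lamJ T J) = D.B γ.1 (lamJ T J) := by
    rw [smul_val]
    nth_rewrite 1 [← hu]
    exact u.2 _ _
  rw [h3, h2] at h1
  exact (mul_right_cancel₀ (t9b_kpos A hJ).ne' h1).symm

theorem t9b_le (A : TAx T) (i : Fin N) (k : Fin n) : T.wt i k ≤ D.theta.1 k := by
  rcases A.wt_cases i with h | h
  · rw [h]
    exact (D.theta_coord k).le
  · exact D.le_theta ⟨T.wt i, h⟩ k

theorem t9b_up (A : TAx T) (he : ∀ i j, T.e i j ≠ 0 → ∃ l, T.wt i = T.wt j + Pi.single l 1)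
    {k : Fin n} {m : ℕ} {J : Fin m → Fin N} (hJ : JD T k J) {i l : Fin N} (h : T.e i l ≠ 0)
    (hl : ∃ r, J r = l) : ∃ r, J r = i := by
  obtain ⟨q, hq⟩ := he i l h
  have h1 := (hJ.mem l).1 hl
  have h2 := t9b_le A i k
  have h3 : T.wt i k = T.wt l k + (Pi.single q (1 : ℤ) : Fin n → ℤ) k := by rw [hq]; rfl
  have h4 : 0 ≤ (Pi.single q (1 : ℤ) : Fin n → ℤ) k := by
    rw [Pi.single_apply]
    split <;> norm_num
  exact (hJ.mem i).2 (by omega)

/-- The block of `F` is zero. -/
theorem t9b_block (A : TAx T) (he : ∀ i j, T.e i j ≠ 0 → ∃ l, T.wt i = T.wt j + Pi.single l 1)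
    {k : Fin n} {m : ℕ} {J : Fin m → Fin N} (hJ : JD T k J) {u : D.OQ}
    (hul : u.1 (lamJ T J) = lamJ T J) {F : Matrix (Fin N) (Fin N) (AA n)}
    (hF : (T.e.map C + T.Dx) * F = F * (T.e.map C + T.Dx.map (u • ·)))
    (i : Fin N) (hi : ¬ ∃ r, J r = i) (c : Fin m) : F i (J c) = 0 := by
  classical
  by_contra hne
  let B : Finset (Fin N) := Finset.univ.filter fun i => (¬ ∃ r, J r = i) ∧ ∃ c, F i (J c) ≠ 0
  have hB : B.Nonempty := ⟨i, by
    rw [Finset.mem_filter]
    exact ⟨Finset.mem_univ _, hi, c, hne⟩⟩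
  obtain ⟨i0, hi0, hmin⟩ := Finset.exists_min_image B T.hg hB
  rw [Finset.mem_filter] at hi0
  obtain ⟨_, hi0J, c1, hc1⟩ := hi0
  let Cs : Finset (Fin m) := Finset.univ.filter fun c => F i0 (J c) ≠ 0
  have hCs : Cs.Nonempty := ⟨c1, by
    rw [Finset.mem_filter]
    exact ⟨Finset.mem_univ _, hc1⟩⟩
  obtain ⟨c0, hc0, hmax⟩ := Finset.exists_max_image Cs (fun c => T.hg (J c)) hCs
  rw [Finset.mem_filter] at hc0
  have hc0' := hc0.2
  have hE := congrFun (congrFun hF i0) (J c0)
  rw [Matrix.add_mul, Matrix.mul_add, Matrix.add_apply, Matrix.add_apply] at hE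
  have e1 : (T.e.map C * F : Matrix (Fin N) (Fin N) (AA n)) i0 (J c0) = 0 := by
    rw [Matrix.mul_apply]
    refine Finset.sum_eq_zero fun l _ => ?_
    by_cases hel : T.e i0 l = 0
    · rw [Matrix.map_apply, hel, map_zero, zero_mul]
    · have hlJ : ¬ ∃ r, J r = l := fun h => hi0J (t9b_up A he hJ hel h)
      have h0 : F l (J c0) = 0 := by
        by_contra hlne
        have h1 := hmin l (by
          rw [Finset.mem_filter]
          exact ⟨Finset.mem_univ _, hlJ, c0, hlne⟩)
        have h2 := A.e_wt _ _ hel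
        omega
      rw [h0, mul_zero]
  have e2 : (F * T.e.map C : Matrix (Fin N) (Fin N) (AA n)) i0 (J c0) = 0 := by
    rw [Matrix.mul_apply]
    refine Finset.sum_eq_zero fun l _ => ?_
    by_cases hel : T.e l (J c0) = 0
    · rw [Matrix.map_apply, hel, map_zero, mul_zero]
    · obtain ⟨c', hc'⟩ := t9b_up A he hJ hel ⟨c0, rfl⟩
      have h0 : F i0 l = 0 := by
        by_contra hlne
        have h1 := hmax c' (by
          rw [Finset.mem_filter, hc']
          exact ⟨Finset.mem_univ _, hlne⟩)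
        have h2 := A.e_wt _ _ hel
        rw [hc'] at h1
        omega
      rw [h0, zero_mul]
  have e3 : (T.Dx * F) i0 (J c0) = fm0 (T.wt i0) * F i0 (J c0) := by
    unfold TD.Dx
    rw [Matrix.diagonal_mul]
  have e4 : (F * T.Dx.map (u • ·)) i0 (J c0) = F i0 (J c0) * fm0 (u.1 (T.wt (J c0))) := by
    have h1 : T.Dx.map (u • ·) = Matrix.diagonal fun i => fm0 (u.1 (T.wt i)) := by
      unfold TD.Dx
      ext1 i j
      rw [Matrix.map_apply, Matrix.diagonal_apply, Matrix.diagonal_apply]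
      by_cases h : i = j
      · rw [if_pos h, if_pos h, smul_fm0]
      · rw [if_neg h, if_neg h, smul_zero]
    rw [h1, Matrix.mul_diagonal]
  rw [e1, e2, e3, e4, zero_add, zero_add, mul_comm (F i0 (J c0))] at hE
  have h5 := mul_right_cancel₀ hc0' hE
  have h6 : T.wt i0 = u.1 (T.wt (J c0)) := by
    by_contra h
    have h7 := fm0_ne_zero (sub_ne_zero.2 h)
    rw [fm0_sub, h5, sub_self] at h7
    exact h7 rfl
  have h7 := stab_coord A hJ u hul ⟨T.wt (J c0), t9b_root A hJ c0⟩
  rw [smul_val] at h7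
  apply hi0J
  refine (hJ.mem i0).2 ?_
  rw [h6, h7]
  exact t9b_k hJ c0

theorem t9b_smul_det (u : D.OQ) {m : ℕ} (M : Matrix (Fin m) (Fin m) (AA n)) :
    u • M.det = (M.map (u • ·)).det := by
  have h := RingHom.map_det (MulSemiringAction.toRingHom D.OQ (AA n) u) M
  exact h

theorem t9b_smul_mul (u : D.OQ) (M M' : Matrix (Fin N) (Fin N) (AA n)) :
    (M * M').map (u • ·) = M.map (u • ·) * M'.map (u • ·) := by
  have h := Matrix.map_mul (L := M) (M := M')
    (f := MulSemiringAction.toRingHom D.OQ (AA n) u)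
  exact h

/-- `u Ev = Ev` if `u λ = λ`.  Let `F = px⁻¹ (u px)` (`px_det`; `u px = px.map (u • ·)`).  From `px_conj` and `sx_inv`:
`(e + Dx) F = F (e + u Dx)`, `u Dx` the diagonal matrix of the `fm0 (u wt i)`.  Claim: `F i (J c) = 0` for `i` not in
the image of `J`.  Otherwise choose such a nonzero entry `(i, J c)` with `hg i` minimal, and then `hg (J c)` maximal.
At this entry: `((e + Dx) F) = fm0 (wt i) F + ∑ e i i' F i' (J c)`, where `e i i' ≠ 0` implies `hg i' = hg i - 1`
and `i'` not in the image of `J` (otherwise `i` would be: `he`), so the sum is `0`; similarly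
`(F (e + u Dx)) = F fm0 (u wt (J c)) + ∑ F i j' e j' (J c)`, where `j'` is in the image of `J` (`he`) of height
`hg (J c) + 1`, so the sum is `0`.  Hence `wt i = u wt (J c)`, which has `k`-th coordinate `θ_k` (`stab_coord`), a
contradiction.  So `(u px)[t, J] = px[t, J] F[J, J]`, `u Ev t = Ev t det F[J, J]`, and `t = J` gives
`det F[J, J] = 1` (`Ev_J`). -/
theorem Ev_inv (A : TAx T) (he : ∀ i j, T.e i j ≠ 0 → ∃ l, T.wt i = T.wt j + Pi.single l 1)
    {k : Fin n} {m : ℕ} {J : Fin m → Fin N} (hJ : JD T k J) {u : D.OQ} (hu : u ∈ D.W)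
    (hul : u.1 (lamJ T J) = lamJ T J) (t : Fin m → Fin N) : u • Ev T J t = Ev T J t := by
  have hpi : T.px⁻¹ * T.px = 1 := Matrix.nonsing_inv_mul _ A.px_det
  have hpi' : T.px * T.px⁻¹ = 1 := Matrix.mul_nonsing_inv _ A.px_det
  set P' : Matrix (Fin N) (Fin N) (AA n) := T.px.map (u • ·) with hP'
  set F : Matrix (Fin N) (Fin N) (AA n) := T.px⁻¹ * P' with hFd
  have hpF : T.px * F = P' := by
    rw [hFd, ← Matrix.mul_assoc, hpi', Matrix.one_mul]
  have hconj : P' * (T.e.map C + T.Dx.map (u • ·)) = T.sx * P' := by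
    have h1 := congrArg (fun M : Matrix (Fin N) (Fin N) (AA n) => M.map (u • ·)) A.px_conj
    simp only [t9b_smul_mul] at h1
    have h2 : (T.e.map C + T.Dx).map (u • ·) = T.e.map C + T.Dx.map (u • ·) := by
      ext1 i j
      simp only [Matrix.map_apply, Matrix.add_apply]
      rw [smul_add, smul_C]
    have h3 : T.sx.map (u • ·) = T.sx := by
      ext1 i j
      rw [Matrix.map_apply]
      exact A.sx_inv u hu i j
    rw [h2, h3] at h1
    exact h1
  have hsx : (T.e.map C + T.Dx) * T.px⁻¹ = T.px⁻¹ * T.sx := by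
    have h1 : T.px⁻¹ * (T.px * (T.e.map C + T.Dx)) * T.px⁻¹ =
        T.px⁻¹ * (T.sx * T.px) * T.px⁻¹ := by rw [A.px_conj]
    rw [← Matrix.mul_assoc T.px⁻¹ T.px, hpi, Matrix.one_mul, Matrix.mul_assoc T.px⁻¹,
      Matrix.mul_assoc T.sx, hpi', Matrix.mul_one] at h1
    exact h1
  have hF : (T.e.map C + T.Dx) * F = F * (T.e.map C + T.Dx.map (u • ·)) := by
    rw [hFd, ← Matrix.mul_assoc, hsx, Matrix.mul_assoc, ← hconj, Matrix.mul_assoc]
  have hb := t9b_block A he hJ hul hF
  have hmul : ∀ t : Fin m → Fin N,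
      P'.submatrix t J = T.px.submatrix t J * F.submatrix J J := by
    intro t
    ext1 a c
    rw [Matrix.submatrix_apply, ← hpF, Matrix.mul_apply, Matrix.mul_apply]
    symm
    simp only [Matrix.submatrix_apply]
    rw [← Finset.sum_image (s := Finset.univ) (g := J)
      (f := fun l => T.px (t a) l * F l (J c)) (fun x _ y _ h => hJ.inj h)]
    refine Finset.sum_subset (Finset.subset_univ _) fun l _ hl => ?_
    rw [hb l (fun ⟨r, hr⟩ => hl (Finset.mem_image.2 ⟨r, Finset.mem_univ _, hr⟩)) c, mul_zero]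
  have hdet : ∀ t : Fin m → Fin N, u • Ev T J t = Ev T J t * (F.submatrix J J).det := by
    intro t
    unfold Ev
    rw [t9b_smul_det, ← Matrix.det_mul, ← hmul t]
    rfl
  have h1 := hdet J
  rw [Ev_J A hJ, smul_one, one_mul] at h1
  rw [hdet t, ← h1, mul_one]

end Pool.Agent.MTX
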