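import Pool.Agent.MTX.L12
import Pool.Agent.MTX.T9b
import Pool.Agent.MTD.Int

/-! # MTX, bridge : the generators (row G1)

`D.gens` : the columns `J k` = the basis vectors of weight `γ` with `γ_k = θ_k`; the minor identity. -/

namespace Pool.Agent.MTX

open Matrix

open Pool.Agent.MTD (Dat ev Gens GAx)

variable {n : ℕ}

namespace IsGp

variable {D : SLD n} {F : Frm D} {R : Type*} [CommRing R] [Algebra ℂ R] {g : Matrix D.BI D.BI R}

/-- An upper triangular element of the group maps `e_γ` into the sum of the weight spaces of the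
weights `≥ γ`. -/
theorem up_ge (hg : IsGp F g) (h : D.UpT g) (γ : D.Rt) (l : Fin n) :
    ∀ a : D.BI, g a (Sum.inr γ) ≠ 0 → γ.1 l ≤ D.wI a l := by
  classical
  by_contra hcon
  push Not at hcon
  obtain ⟨a1, ha1, hl1⟩ := hcon
  let S : Finset D.BI := Finset.univ.filter fun a => g a (Sum.inr γ) ≠ 0 ∧ D.wI a l < γ.1 l
  obtain ⟨d, hd, hmin⟩ := Finset.exists_min_image S D.hI
    ⟨a1, Finset.mem_filter.2 ⟨Finset.mem_univ _, ha1, hl1⟩⟩
  obtain ⟨-, hd0, hdl⟩ := Finset.mem_filter.1 hd
  obtain ⟨z', hz', hconj⟩ := up_conj hg h (Pi.single l 1 : Fin n → R) (z := 0)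
    (fun a ha => absurd rfl ha)
  rw [add_zero] at hconj
  have hev : ∀ μ : Fin n → ℤ, ev μ (Pi.single l (1 : R)) = (μ l : R) := by
    intro μ
    simp [Pool.Agent.MTD.ev, Pi.single_apply]
  have key := congrFun (hg.br (D.tt (Pi.single l 1)) (D.er R γ.1)) d
  rw [D.br_tt_er, Matrix.mulVec_smul, Pi.smul_apply, smul_eq_mul, hconj, D.br_add_left,
    Pi.add_apply, D.br_tt, hev, hev, l5_col] at key
  have h0 : D.br z' (g *ᵥ D.er R γ.1) d = 0 := by
    rw [D.br_apply]
    refine Finset.sum_eq_zero fun a _ => Finset.sum_eq_zero fun c _ => ?_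
    by_cases hst : D.st a c d = 0
    · rw [hst, Int.cast_zero, mul_zero]
    by_cases hz : z' a = 0
    · rw [hz, zero_mul, zero_mul]
    have h1 := hz' a hz
    have h2 := D.st_ht hst
    have h3 := congrFun (D.st_wt hst) l
    rw [Pi.add_apply] at h3
    rw [l5_col]
    by_cases hc : g c (Sum.inr γ) = 0
    · rw [hc, mul_zero, zero_mul]
    · exfalso
      have h4 : 0 ≤ D.wI a l := by
        rcases a with k | δ
        · rw [SLD.hI_inl] at h1
          exact absurd h1 (lt_irrefl _)
        · rw [SLD.hI_inr] at h1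
          exact (D.pos_iff_ht δ).2 h1 l
      have h5 := hmin c (Finset.mem_filter.2 ⟨Finset.mem_univ _, hc, by omega⟩)
      omega
  rw [h0, add_zero] at key
  have h6 : (((γ.1 l - D.wI d l : ℤ)) : R) * g d (Sum.inr γ) = 0 := by
    rw [Int.cast_sub, sub_mul, key, sub_self]
  exact hd0 ((SLD.isUnit_int (R := R) (sub_ne_zero.2 (ne_of_gt hdl))).mul_right_eq_zero.1 h6)

end IsGp

namespace SLD

variable (D : SLD n)

/-- the basis vectors of weight `γ` with `γ_k = θ_k` -/
noncomputable def Jset (k : Fin n) : Finset (Fin D.N) :=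
  Finset.univ.filter fun i => D.wI (D.eN.symm i) k = D.theta.1 k

/-- the generators: increasing enumerations -/
noncomputable def gens : Gens D.N (Fin n) where
  m k := (D.Jset k).card
  J k := (D.Jset k).orderEmbOfFin rfl

theorem gens_mono (k : Fin n) : StrictMono (D.gens.J k) :=
  ((D.Jset k).orderEmbOfFin rfl).strictMono

theorem gens_inj (k : Fin n) : Function.Injective (D.gens.J k) := (D.gens_mono k).injective

theorem gens_mem (k : Fin n) (i : Fin D.N) :
    (∃ r, D.gens.J k r = i) ↔ D.wI (D.eN.symm i) k = D.theta.1 k := by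
  have h : Set.range (D.gens.J k) = ((D.Jset k : Finset (Fin D.N)) : Set (Fin D.N)) :=
    Finset.range_orderEmbOfFin (D.Jset k) rfl
  change i ∈ Set.range (D.gens.J k) ↔ _
  rw [h, Finset.mem_coe]
  unfold Jset
  rw [Finset.mem_filter]
  exact ⟨fun h => h.2, fun h => ⟨Finset.mem_univ _, h⟩⟩

section dat

variable (F : Frm D) (S0 : Set (D.BI → ℂ)) (sv : D.BI → MvPolynomial (Fin n) ℂ)
  (pm : Matrix D.BI D.BI (MvPolynomial (Fin n) ℂ))

/-- the minor identity -/
theorem gens_minor (k : Fin n) {K : Type} [Field K] [Algebra ℂ K]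
    (g b : Matrix (Fin D.N) (Fin D.N) K) (hb : (D.dat F S0 sv pm).IsG b)
    (hu : ∀ i j, j < i → b i j = 0) (I : Fin (D.gens.m k) → Fin D.N) :
    ((g * b).submatrix I (D.gens.J k)).det =
      (g.submatrix I (D.gens.J k)).det * ∏ j, b (D.gens.J k j) (D.gens.J k j) := by
  have hG := (D.isG_iff F S0 sv pm b).1 hb
  have hU := (D.upT_iff b).2 hu
  have hz : ∀ (c : Fin (D.gens.m k)) (i : Fin D.N), i ∉ Set.range (D.gens.J k) →
      b i (D.gens.J k c) = 0 := by
    intro c i hi
    by_contra hne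
    have hc : D.wI (D.eN.symm (D.gens.J k c)) k = D.theta.1 k := (D.gens_mem k _).1 ⟨c, rfl⟩
    have hpos := D.theta_coord k
    rcases hγ : D.eN.symm (D.gens.J k c) with l | γ
    · rw [hγ, wI_inl, Pi.zero_apply] at hc
      omega
    · rw [hγ, wI_inr] at hc
      have h1 : D.ofN b (D.eN.symm i) (Sum.inr γ) ≠ 0 := by
        rw [ofN_apply, Equiv.apply_symm_apply, ← hγ, Equiv.apply_symm_apply]
        exact hne
      have h2 := IsGp.up_ge hG hU γ k _ h1
      apply hi
      refine (D.gens_mem k i).2 (le_antisymm ?_ (hc ▸ h2))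
      rcases D.eN.symm i with l | δ
      · rw [wI_inl, Pi.zero_apply]
        exact hpos.le
      · rw [wI_inr]
        exact D.le_theta δ k
  have hmul : (g * b).submatrix I (D.gens.J k) =
      g.submatrix I (D.gens.J k) * b.submatrix (D.gens.J k) (D.gens.J k) := by
    ext a c
    rw [Matrix.submatrix_apply, Matrix.mul_apply, Matrix.mul_apply]
    symm
    refine Fintype.sum_of_injective (D.gens.J k) (D.gens_inj k) _ _ ?_ ?_
    · intro l hl
      rw [hz c l hl, mul_zero]
    · intro c'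
      rfl
  rw [hmul, Matrix.det_mul]
  congr 1
  have h3 : (b.submatrix (D.gens.J k) (D.gens.J k)).BlockTriangular id := by
    intro i j hij
    rw [Matrix.submatrix_apply]
    exact hu _ _ (D.gens_mono k hij)
  rw [Matrix.det_of_upperTriangular h3]
  rfl

/-- `J k` and the data of Part T -/
theorem gens_JD {T : TD D D.N} (hT : T.wt = fun i => D.wI (D.eN.symm i)) (k : Fin n) :
    JD T k (D.gens.J k) := by
  refine ⟨D.gens_inj k, fun i => ?_⟩
  rw [hT]
  exact D.gens_mem k i

theorem gens_lam {T : TD D D.N} (hT : T.wt = fun i => D.wI (D.eN.symm i)) (k : Fin n) :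
    D.gens.lam (D.dat F S0 sv pm) k = lamJ T (D.gens.J k) := by
  unfold Gens.lam lamJ
  rw [hT]
  rfl

end dat

end SLD

end Pool.Agent.MTX
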