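import Pool.Agent.MTX.K10

/-! # MTX, section 7 : (7.7), density, end -/

namespace Pool.Agent.MTX

open Matrix Topology Filter
open Pool.Agent.MTD (Dat ev ev_add ev_sub ev_neg ev_smul ev_zero ev_add_left ev_sub_left ev_neg_left
  ev_smul_left ev_zero_left ev_sum_left ev_sum ev_map ev_comm)

namespace SLD

variable {n : ℕ} (D : SLD n)

theorem pR_C : D.pR ℂ = D.pM := by
  ext a c; simp [pR]

theorem dl_apply (i j : D.BI) (y : D.BI → ℂ) :
    D.dl (Finset.univ : Finset D.BI).toList i j y = D.ad y i j := by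
  have h1 : D.dl (Finset.univ : Finset D.BI).toList i j =
      ∑ a, (D.ad (Pi.single a (1 : ℂ)) i j) •
        (ContinuousLinearMap.proj a : (D.BI → ℂ) →L[ℂ] ℂ) := by
    unfold dl
    rw [Finset.sum_map_toList]
  rw [h1, _root_.sum_apply, ad_apply]
  refine Finset.sum_congr rfl fun a _ => ?_
  rw [_root_.smul_apply, ContinuousLinearMap.proj_apply, ad_single, one_mul, smul_eq_mul, mul_comm]

/-- The submersion. -/
noncomputable def phi (h0 : Matrix D.BI D.BI ℂ) (s0 : D.BI → ℂ)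
    (p : (D.BI → ℂ) × (D.BI → ℂ)) : D.BI → ℂ :=
  fun i => ∑ j, h0 i j * ∑ k, D.cl (Finset.univ : Finset D.BI).toList p.1 j k *
    (s0 k + ∑ m, D.pM k m * p.2 m)

theorem phi_eq (h0 : Matrix D.BI D.BI ℂ) (s0 : D.BI → ℂ) (p : (D.BI → ℂ) × (D.BI → ℂ)) :
    D.phi h0 s0 p =
      (h0 * D.cl (Finset.univ : Finset D.BI).toList p.1) *ᵥ (s0 + D.pM *ᵥ p.2) := by
  rw [← Matrix.mulVec_mulVec]
  rfl

/-- its derivative at `0` -/
noncomputable def dphi (h0 : Matrix D.BI D.BI ℂ) (s0 : D.BI → ℂ) :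
    ((D.BI → ℂ) × (D.BI → ℂ)) →L[ℂ] (D.BI → ℂ) :=
  ContinuousLinearMap.pi fun i => ∑ j, h0 i j • ∑ k,
    (D.cl (Finset.univ : Finset D.BI).toList 0 j k •
      ((∑ m, D.pM k m • (ContinuousLinearMap.proj m : (D.BI → ℂ) →L[ℂ] ℂ)).comp
        (ContinuousLinearMap.snd ℂ (D.BI → ℂ) (D.BI → ℂ))) +
      (s0 k + ∑ m, D.pM k m * (0 : (D.BI → ℂ) × (D.BI → ℂ)).2 m) •
        ((D.dl (Finset.univ : Finset D.BI).toList j k).comp
          (ContinuousLinearMap.fst ℂ (D.BI → ℂ) (D.BI → ℂ))))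

theorem phi_deriv (h0 : Matrix D.BI D.BI ℂ) (s0 : D.BI → ℂ) :
    HasStrictFDerivAt (D.phi h0 s0) (D.dphi h0 s0) 0 := by
  rw [hasStrictFDerivAt_pi']
  intro i
  have h1 : ∀ j k, HasStrictFDerivAt
      (fun p : (D.BI → ℂ) × (D.BI → ℂ) => D.cl (Finset.univ : Finset D.BI).toList p.1 j k)
      ((D.dl (Finset.univ : Finset D.BI).toList j k).comp
          (ContinuousLinearMap.fst ℂ (D.BI → ℂ) (D.BI → ℂ))) 0 := by
    intro j k
    exact HasStrictFDerivAt.comp (g := fun y => D.cl (Finset.univ : Finset D.BI).toList y j k)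
      (0 : (D.BI → ℂ) × (D.BI → ℂ)) (D.cl_deriv _ j k) hasStrictFDerivAt_fst
  have h2 : ∀ k, HasStrictFDerivAt
      (fun p : (D.BI → ℂ) × (D.BI → ℂ) => s0 k + ∑ m, D.pM k m * p.2 m)
      ((∑ m, D.pM k m • (ContinuousLinearMap.proj m : (D.BI → ℂ) →L[ℂ] ℂ)).comp
        (ContinuousLinearMap.snd ℂ (D.BI → ℂ) (D.BI → ℂ))) 0 := by
    intro k
    have e1 := ((∑ m, D.pM k m • (ContinuousLinearMap.proj m : (D.BI → ℂ) →L[ℂ] ℂ)).comp
        (ContinuousLinearMap.snd ℂ (D.BI → ℂ) (D.BI → ℂ))).hasStrictFDerivAt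
          (x := (0 : (D.BI → ℂ) × (D.BI → ℂ)))
    have e2 := e1.const_add (s0 k)
    have e3 : (fun p : (D.BI → ℂ) × (D.BI → ℂ) => s0 k + ∑ m, D.pM k m * p.2 m) =
        fun p => s0 k + ((∑ m, D.pM k m • (ContinuousLinearMap.proj m : (D.BI → ℂ) →L[ℂ] ℂ)).comp
          (ContinuousLinearMap.snd ℂ (D.BI → ℂ) (D.BI → ℂ))) p := by
      funext p
      simp [_root_.sum_apply]
    rw [e3]
    exact e2
  have h3 : HasStrictFDerivAt (fun p : (D.BI → ℂ) × (D.BI → ℂ) => ∑ j, h0 i j *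
      ∑ k, D.cl (Finset.univ : Finset D.BI).toList p.1 j k * (s0 k + ∑ m, D.pM k m * p.2 m))
      (∑ j, h0 i j • ∑ k,
    (D.cl (Finset.univ : Finset D.BI).toList (0 : (D.BI → ℂ) × (D.BI → ℂ)).1 j k •
      ((∑ m, D.pM k m • (ContinuousLinearMap.proj m : (D.BI → ℂ) →L[ℂ] ℂ)).comp
        (ContinuousLinearMap.snd ℂ (D.BI → ℂ) (D.BI → ℂ))) +
      (s0 k + ∑ m, D.pM k m * (0 : (D.BI → ℂ) × (D.BI → ℂ)).2 m) •
        ((D.dl (Finset.univ : Finset D.BI).toList j k).comp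
          (ContinuousLinearMap.fst ℂ (D.BI → ℂ) (D.BI → ℂ))))) 0 :=
    HasStrictFDerivAt.fun_sum fun j _ =>
      (HasStrictFDerivAt.fun_sum fun k _ => (h1 j k).mul (h2 k)).const_mul (h0 i j)
  exact h3

theorem dphi_apply (h0 : Matrix D.BI D.BI ℂ) (s0 : D.BI → ℂ) (y v : D.BI → ℂ) :
    D.dphi h0 s0 (y, v) = h0 *ᵥ (D.br y s0 + D.pM *ᵥ v) := by
  funext i
  simp only [dphi, ContinuousLinearMap.coe_pi', _root_.sum_apply, _root_.smul_apply,
    _root_.add_apply, ContinuousLinearMap.comp_apply, ContinuousLinearMap.coe_fst',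
    ContinuousLinearMap.coe_snd', ContinuousLinearMap.proj_apply, smul_eq_mul, dl_apply,
    cl_zero, Prod.snd_zero, Pi.zero_apply, mul_zero, Finset.sum_const_zero, add_zero]
  simp only [Matrix.mulVec, dotProduct, Pi.add_apply, br_def]
  refine Finset.sum_congr rfl fun j _ => ?_
  congr 1
  rw [Finset.sum_add_distrib, add_comm]
  congr 1
  · exact Finset.sum_congr rfl fun k _ => mul_comm _ _
  · rw [Finset.sum_eq_single j]
    · rw [Matrix.one_apply_eq, one_mul]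
    · intro k _ hk
      rw [Matrix.one_apply_ne (Ne.symm hk), zero_mul]
    · intro h; exact absurd (Finset.mem_univ j) h

theorem dphi_surj {h0 : Matrix D.BI D.BI ℂ} (hd : IsUnit h0.det) (x0 : Fin n → ℂ) :
    LinearMap.range (D.dphi h0 (D.svK x0)).toLinearMap = ⊤ := by
  rw [LinearMap.range_eq_top]
  intro X
  obtain ⟨Z, w, h1, h2⟩ := D.decomp (y := D.skK x0)
    (fun a ha => (D.ker_neg (D.skK_ker x0) a ha).le) (h0⁻¹ *ᵥ X)
  refine ⟨(-Z, w), ?_⟩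
  show D.dphi h0 (D.svK x0) (-Z, w) = X
  rw [dphi_apply, br_anti, br_neg_right, neg_neg, svK_eq, ← pR_C, D.pR_ker h2, ← h1,
    Matrix.mulVec_mulVec, Matrix.mul_nonsing_inv _ hd, Matrix.one_mulVec]

/-- (7.7) -/
theorem dens0 (F : Frm D) (x0 : Fin n → ℂ) {h0 : Matrix D.BI D.BI ℂ} (hG : IsGp F h0)
    (hs : h0 *ᵥ D.svK x0 = D.svK x0) {U : Set (Matrix D.BI D.BI ℂ)} (hU : U ∈ 𝓝 h0) :
    ∀ᶠ x in 𝓝 x0, (∀ γ : D.Rt, ev γ.1 x ≠ 0) →
      ∃ h ∈ U, IsGp F h ∧ h *ᵥ D.svK x = D.svK x := by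
  have hd : IsUnit h0.det := by rw [hG.det]; exact isUnit_one
  obtain ⟨c, hc⟩ : ∃ c, c = D.cl (Finset.univ : Finset D.BI).toList := ⟨_, rfl⟩
  have h1 := (D.phi_deriv h0 (D.svK x0)).map_nhds_eq_of_surj (D.dphi_surj hd x0)
  have h2 : D.phi h0 (D.svK x0) 0 = D.svK x0 := by
    rw [phi_eq, Prod.fst_zero, Prod.snd_zero, cl_zero, Matrix.mul_one, Matrix.mulVec_zero,
      add_zero, hs]
  rw [h2] at h1
  -- the neighbourhood of `0`
  have hV : {p : (D.BI → ℂ) × (D.BI → ℂ) | h0 * c p.1 ∈ U} ∈ 𝓝 0 := by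
    have hcont : Tendsto (fun p : (D.BI → ℂ) × (D.BI → ℂ) => h0 * c p.1) (𝓝 0) (𝓝 h0) := by
      have e1 : Tendsto (fun p : (D.BI → ℂ) × (D.BI → ℂ) => c p.1) (𝓝 0) (𝓝 1) := by
        refine tendsto_pi_nhds.2 fun i => tendsto_pi_nhds.2 fun j => ?_
        have e2 : ContinuousAt (fun y => c y i j) 0 := by
          rw [hc]; exact (D.cl_deriv _ i j).continuousAt
        have e3 : c 0 i j = (1 : Matrix D.BI D.BI ℂ) i j := by rw [hc, cl_zero]
        have e4 : Tendsto (fun p : (D.BI → ℂ) × (D.BI → ℂ) => p.1) (𝓝 0) (𝓝 0) :=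
          continuous_fst.tendsto 0
        have e5 := e2.tendsto.comp e4
        rw [e3] at e5
        exact e5
      have e2 := (tendsto_const_nhds (x := h0)).mul e1
      rw [mul_one] at e2
      exact e2
    exact hcont hU
  have h3 : D.phi h0 (D.svK x0) '' {p | h0 * c p.1 ∈ U} ∈ 𝓝 (D.svK x0) := by
    rw [← h1]
    exact Filter.image_mem_map hV
  have hcs : ContinuousAt (fun x : Fin n → ℂ => D.svK x) x0 := by
    refine continuousAt_pi.2 fun a => ?_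
    have : (fun x : Fin n → ℂ => D.svK x a) = fun x => MvPolynomial.eval x (D.sv a) := by
      funext x; rw [svK_eval]
    rw [this]
    exact (MvPolynomial.continuous_eval (D.sv a)).continuousAt
  filter_upwards [hcs h3] with x hx hreg
  obtain ⟨p, hp, hp2⟩ := hx
  rw [phi_eq, ← hc] at hp2
  have h4 : D.svK x0 + D.pM *ᵥ p.2 ∈ D.S0 := by
    refine ⟨D.skK x0 + D.pM *ᵥ p.2, ?_, ?_⟩
    · rw [Matrix.mulVec_add, skK_ker, zero_add, Matrix.mulVec_mulVec, Ff_pM, Matrix.zero_mulVec]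
    · rw [svK_eq]; abel
  obtain ⟨x', hx'⟩ := D.svK_surj h4
  rw [hx'] at hp2
  have hg : IsGp F (h0 * c p.1) := hG.mul (hc ▸ D.cl_G F _ _)
  have h5 := D.conj_eq F hg hreg hp2
  rw [h5] at hp2
  exact ⟨_, hp, hg, hp2⟩

/-- commuting with `ad s` and fixing `s` -/
theorem comm_iff {F : Frm D} {h : Matrix D.BI D.BI ℂ} (hG : IsGp F h) (s : D.BI → ℂ) :
    h * D.ad s = D.ad s * h ↔ h *ᵥ s = s := by
  rw [hG.ad s]
  constructor
  · intro h1
    have h2 := congrArg (fun M => M * h⁻¹) h1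
    simp only [Matrix.mul_assoc, hG.mul_inv, Matrix.mul_one] at h2
    exact D.ad_inj' h2
  · intro h1
    rw [h1]

/-- (7.7) for the datum -/
theorem dens (F : Frm D) (x0 : Fin n → ℂ) (h0 : Matrix (Fin D.N) (Fin D.N) ℂ)
    (hG : (D.dat F D.S0 D.sv D.pm).IsG h0)
    (hs : Commute h0 ((D.dat F D.S0 D.sv D.pm).sx.map (MvPolynomial.eval x0)))
    (U : Set (Matrix (Fin D.N) (Fin D.N) ℂ)) (hU : U ∈ 𝓝 h0) :
    ∀ᶠ x in 𝓝 x0, (D.dat F D.S0 D.sv D.pm).Reg x →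
      ∃ h ∈ U, (D.dat F D.S0 D.sv D.pm).IsG h ∧
        Commute h ((D.dat F D.S0 D.sv D.pm).sx.map (MvPolynomial.eval x)) := by
  have hsx : ∀ x : Fin n → ℂ, (D.dat F D.S0 D.sv D.pm).sx.map (MvPolynomial.eval x) =
      D.toN (D.ad (D.svK x)) := by
    intro x
    show (D.toN (D.ad D.sv)).map _ = _
    rw [toN_map, ad_map, svK_eval]
  have hG' : IsGp F (D.ofN h0) := (D.isG_iff F _ _ _ _).1 hG
  have hs' : D.ofN h0 *ᵥ D.svK x0 = D.svK x0 := by
    rw [← D.comm_iff hG']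
    have e1 := hs.eq
    rw [hsx] at e1
    have e2 := congrArg D.ofN e1
    rwa [ofN_mul, ofN_mul, ofN_toN] at e2
  have hcont : Continuous (D.toN : Matrix D.BI D.BI ℂ → Matrix (Fin D.N) (Fin D.N) ℂ) := by
    refine continuous_pi fun i => continuous_pi fun j => ?_
    exact (continuous_apply (D.eN.symm j)).comp (continuous_apply (D.eN.symm i))
  have hU' : D.toN ⁻¹' U ∈ 𝓝 (D.ofN h0) := by
    apply hcont.continuousAt
    rw [toN_ofN]
    exact hU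
  filter_upwards [D.dens0 F x0 hG' hs' hU'] with x hx hreg
  have hreg' : ∀ γ : D.Rt, ev γ.1 x ≠ 0 := by
    intro γ
    rcases D.pos_or_neg γ with h | h
    · exact hreg ⟨γ, h⟩
    · have := hreg ⟨D.ng γ, h⟩
      have h2 : ev (D.ng γ).1 x ≠ 0 := this
      rw [ng_val, ev_neg_left] at h2
      exact neg_ne_zero.1 h2
  obtain ⟨h, h1, h2, h3⟩ := hx hreg'
  refine ⟨D.toN h, h1, (D.isG_toN F _ _ _ _).2 h2, ?_⟩
  rw [hsx]
  show D.toN h * D.toN (D.ad (D.svK x)) = D.toN (D.ad (D.svK x)) * D.toN h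
  rw [← toN_mul, ← toN_mul, (D.comm_iff h2 _).2 h3]

end SLD

end Pool.Agent.MTX
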