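import Pool.Agent.MTX.R3a

/-! # MTX, Part R : the Weyl group: exchange, simple transitivity, dominant weights, stabilisers -/

namespace Pool.Agent.MTX

open MvPolynomial

namespace SLD

variable {n : ℕ} (D : SLD n)

/-- the simple reflection in `O(Q)` -/
def sO (i : Fin n) : D.OQ := D.rO (D.al i)

theorem sO_sq (i : Fin n) : D.sO i * D.sO i = 1 := D.rO_sq _

theorem sO_al (i : Fin n) : D.sO i • D.al i = D.ng (D.al i) := D.rO_self _

/-- Exchange. -/
theorem exchange (l : List (Fin n)) (k : Fin n) (h : ¬ D.Pos ((l.map D.sO).prod • D.al k)) :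
    ∃ l' : List (Fin n), l'.length + 1 = l.length ∧
      (l'.map D.sO).prod = (l.map D.sO).prod * D.sO k := by
  induction l with
  | nil =>
    exfalso; apply h
    simp only [List.map_nil, List.prod_nil, one_smul]
    exact D.pos_al k
  | cons j t ih =>
    rw [List.map_cons, List.prod_cons, mul_smul] at h
    by_cases h1 : D.Pos ((t.map D.sO).prod • D.al k)
    · have h2 : (t.map D.sO).prod • D.al k = D.al j := by
        by_contra hne
        exact h (D.pos_perm h1 hne)
      refine ⟨t, rfl, ?_⟩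
      have h3 : D.sO j = (t.map D.sO).prod * D.sO k * ((t.map D.sO).prod)⁻¹ := by
        unfold sO
        rw [← D.rO_smul, ← h2]; rfl
      rw [List.map_cons, List.prod_cons]
      have h4 : D.sO j * (t.map D.sO).prod = (t.map D.sO).prod * D.sO k := by
        rw [h3]; group
      rw [h4, mul_assoc, sO_sq, mul_one]
    · obtain ⟨t', ht', ht2⟩ := ih h1
      refine ⟨j :: t', by rw [List.length_cons, List.length_cons, ht'], ?_⟩
      rw [List.map_cons, List.prod_cons, List.map_cons, List.prod_cons, ht2, mul_assoc]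

theorem exists_list {u : D.OQ} (hu : u ∈ D.W) : ∃ l : List (Fin n), (l.map D.sO).prod = u := by
  induction hu using Subgroup.closure_induction with
  | mem x hx => obtain ⟨i, rfl⟩ := hx; exact ⟨[i], by simp [sO]⟩
  | one => exact ⟨[], rfl⟩
  | mul x y _ _ hx hy =>
    obtain ⟨l, hl⟩ := hx
    obtain ⟨l', hl'⟩ := hy
    exact ⟨l ++ l', by rw [List.map_append, List.prod_append, hl, hl']⟩
  | inv x _ hx =>
    obtain ⟨l, hl⟩ := hx
    refine ⟨l.reverse, ?_⟩
    rw [← hl]
    clear hl
    induction l with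
    | nil => simp
    | cons a l ih =>
      rw [List.reverse_cons, List.map_append, List.prod_append, ih]
      rw [List.map_cons, List.map_nil, List.prod_cons, List.prod_nil, mul_one, List.map_cons,
        List.prod_cons, mul_inv_rev, inv_eq_of_mul_eq_one_right (D.sO_sq a)]

theorem list_mem (l : List (Fin n)) : (l.map D.sO).prod ∈ D.W := by
  induction l with
  | nil => exact one_mem _
  | cons a l ih => rw [List.map_cons, List.prod_cons]; exact mul_mem (D.sref_mem a) ih

/-- The Weyl group is simply transitive: only `1` preserves the positive roots. -/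
theorem W_eq_one {u : D.OQ} (hu : u ∈ D.W) (h : ∀ i, D.Pos (u • D.al i)) : u = 1 := by
  have key : ∀ (m : ℕ) (l : List (Fin n)), l.length ≤ m →
      (∀ i, D.Pos ((l.map D.sO).prod • D.al i)) → (l.map D.sO).prod = 1 := by
    intro m
    induction m with
    | zero =>
      intro l hl _
      have : l = [] := List.eq_nil_of_length_eq_zero (by omega)
      rw [this]; rfl
    | succ m ih =>
      intro l hl h
      rcases List.eq_nil_or_concat l with rfl | ⟨l', k, rfl⟩
      · rfl
      · have h1 : ((l' ++ [k]).map D.sO).prod = (l'.map D.sO).prod * D.sO k := by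
          rw [List.map_append, List.prod_append, List.map_cons, List.map_nil, List.prod_cons,
            List.prod_nil, mul_one]
        rw [List.concat_eq_append] at h ⊢
        rw [List.concat_eq_append] at hl
        have h2 := h k
        rw [h1, mul_smul, sO_al, smul_ng, pos_ng] at h2
        obtain ⟨l'', h3, h4⟩ := D.exchange l' k h2
        rw [h1, ← h4]
        refine ih l'' ?_ ?_
        · rw [List.length_append, List.length_cons, List.length_nil] at hl; omega
        · rw [h4, ← h1]; exact h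
  obtain ⟨l, rfl⟩ := D.exists_list hu
  exact key l.length l le_rfl h

theorem emb_l (u : D.OQ) : (D.emb u).l = 0 := rfl
theorem emb_u (u : D.OQ) : (D.emb u).u = u := rfl

theorem apos_emb_some (u : D.OQ) (i : Fin n) : D.apos (D.emb u • D.aal (some i)) ↔
    D.Pos (u • D.al i) := by
  have h2 : (D.emb u • D.aal (some i)).2 = 0 := by
    rw [smul_snd, emb_l, B_zero_left]; rfl
  show 0 < (D.emb u • D.aal (some i)).2 ∨ ((D.emb u • D.aal (some i)).2 = 0 ∧ D.Pos _) ↔ _
  rw [h2]
  simp only [lt_irrefl, false_or, true_and]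
  exact Iff.rfl

theorem aref_some (i : Fin n) : D.aref (D.aal (some i)) = D.emb (D.sO i) := by
  apply Aff.ext'
  · show -((0 : ℤ) • (D.al i).1) = 0
    rw [zero_smul, neg_zero]
  · rfl

/-- Induction along descents. -/
theorem W_induction {P : D.OQ → Prop} (h1 : P 1)
    (h2 : ∀ u ∈ D.W, ∀ i, ¬ D.Pos (u • D.al i) → P (u * D.sO i) → P u) : ∀ u ∈ D.W, P u := by
  have key : ∀ (m : ℕ) (u : D.OQ), u ∈ D.W → D.dd (D.emb u) ≤ m → P u := by
    intro m
    induction m with
    | zero =>
      intro u hu hd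
      by_cases h : ∀ i, D.Pos (u • D.al i)
      · rw [D.W_eq_one hu h]; exact h1
      · push Not at h
        obtain ⟨i, hi⟩ := h
        rw [← D.apos_emb_some] at hi
        have h3 := D.dd_lt_right hi
        have h4 := D.dd_nonneg (D.emb u * D.aref (D.aal (some i)))
        push_cast at hd
        omega
    | succ m ih =>
      intro u hu hd
      by_cases h : ∀ i, D.Pos (u • D.al i)
      · rw [D.W_eq_one hu h]; exact h1
      · push Not at h
        obtain ⟨i, hi⟩ := h
        refine h2 u hu i hi (ih _ (mul_mem hu (D.sref_mem i)) ?_)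
        rw [← D.apos_emb_some] at hi
        have h3 := D.dd_lt_right hi
        rw [aref_some, ← map_mul] at h3
        push_cast at hd
        omega
  intro u hu
  exact key (D.dd (D.emb u)).toNat u hu (by have := D.dd_nonneg (D.emb u); omega)

/-- `u λ ≤ λ` coordinatewise for dominant `λ`. -/
theorem dom_le {lam : Fin n → ℤ} (hl : D.Dom lam) {u : D.OQ} (hu : u ∈ D.W) :
    ∀ j, u.1 lam j ≤ lam j := by
  refine D.W_induction (P := fun u => ∀ j, u.1 lam j ≤ lam j) (fun _ => le_rfl) ?_ u hu
  intro u hu i hi ih j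
  refine le_trans ?_ (ih j)
  have h1 : (u * D.sO i).1 lam = u.1 lam - D.B lam (D.al i).1 • (u • D.al i).1 := by
    show u.1 (D.rf (D.al i) lam) = _
    rw [rf, map_sub, map_smul, D.B_comm]; rfl
  rw [h1]
  have h2 := hl i
  have h3 := ((D.pos_ng _).2 hi) j
  have h4 : 0 ≤ -((u • D.al i).1 j) := h3
  show u.1 lam j ≤ u.1 lam j - D.B lam (D.al i).1 * (u • D.al i).1 j
  nlinarith

theorem toLex_le_of_le {x y : Fin n → ℤ} (h : ∀ j, x j ≤ y j) : toLex x ≤ toLex y :=
  Pi.toLex_monotone h

/-- The saturated set of `λ`. -/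
def PiS (lam : Fin n → ℤ) : Set (Fin n → ℤ) := {nu | ∀ u ∈ D.W, ∀ i, u.1 nu i ≤ lam i}

theorem lam_mem_PiS {lam : Fin n → ℤ} (hl : D.Dom lam) : lam ∈ D.PiS lam := fun _ hu =>
  D.dom_le hl hu

theorem PiS_smul {lam nu : Fin n → ℤ} (h : nu ∈ D.PiS lam) {u : D.OQ} (hu : u ∈ D.W) :
    u.1 nu ∈ D.PiS lam := fun v hv => h (v * u) (mul_mem hv hu)

theorem PiS_toLex {lam nu : Fin n → ℤ} (h : nu ∈ D.PiS lam) {u : D.OQ} (hu : u ∈ D.W) :
    toLex (u.1 nu) ≤ toLex lam := toLex_le_of_le (h u hu)

theorem PiS_le {lam nu : Fin n → ℤ} (h : nu ∈ D.PiS lam) : toLex nu ≤ toLex lam :=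
  D.PiS_toLex h (one_mem _)

/-- convexity of the coordinatewise order -/
theorem le_convex {x y z : Fin n → ℤ} {a b : ℤ} (ha : 0 ≤ a) (hb : 0 ≤ b) (hab : 0 < a + b)
    (hx : ∀ i, x i ≤ z i) (hy : ∀ i, y i ≤ z i) {w : Fin n → ℤ}
    (hw : (a + b) • w = a • x + b • y) : ∀ i, w i ≤ z i := by
  intro i
  have h1 := congrFun hw i
  have h2 : (a + b) * w i = a * x i + b * y i := by simpa using h1
  have h3 : a * x i ≤ a * z i := mul_le_mul_of_nonneg_left (hx i) ha
  have h4 : b * y i ≤ b * z i := mul_le_mul_of_nonneg_left (hy i) hb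
  by_contra h5
  push Not at h5
  have h6 : (a + b) * z i < (a + b) * w i := mul_lt_mul_of_pos_left h5 hab
  nlinarith

/-- The stabiliser of a dominant weight is generated by simple reflections. -/
theorem stab_dom {lam : Fin n → ℤ} (hl : D.Dom lam) {u : D.OQ} (hu : u ∈ D.W)
    (h : u.1 lam = lam) :
    u ∈ Subgroup.closure {v | ∃ i, D.B lam (D.al i).1 = 0 ∧ v = D.sO i} := by
  refine D.W_induction (P := fun u => u.1 lam = lam →
    u ∈ Subgroup.closure {v | ∃ i, D.B lam (D.al i).1 = 0 ∧ v = D.sO i})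
    (fun _ => one_mem _) ?_ u hu h
  intro u hu i hi ih h
  have h1 : D.B lam (D.al i).1 = D.B lam (u • D.al i).1 := by
    rw [← u.2, h]; rfl
  have h2 := D.dom_pos hl ((D.pos_ng _).2 hi)
  rw [ng_val, B_neg_right] at h2
  have h3 := hl i
  have h4 : D.B lam (D.al i).1 = 0 := by omega
  have h5 : (u * D.sO i).1 lam = lam := by
    show u.1 (D.rf (D.al i) lam) = lam
    rw [rf, D.B_comm, h4, zero_smul, sub_zero, h]
  have h6 := ih h5
  have h7 : u = u * D.sO i * D.sO i := by rw [mul_assoc, sO_sq, mul_one]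
  rw [h7]
  exact mul_mem h6 (Subgroup.subset_closure ⟨i, h4, rfl⟩)

end SLD

end Pool.Agent.MTX
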