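import Pool.Agent.MTX.R2d
import Pool.Agent.MTX.R3b

/-! # MTX, Part R : (9.1) denominators at the top, (9.2) the labels of the other indices -/

namespace Pool.Agent.MTX

open MvPolynomial

namespace SLD

variable {n : ℕ} (D : SLD n)

/-- the positive roots -/
noncomputable def posF : Finset D.Rt := (Set.toFinite {γ : D.Rt | D.Pos γ}).toFinset

theorem mem_posF {γ : D.Rt} : γ ∈ D.posF ↔ D.Pos γ := by
  unfold posF
  rw [Set.Finite.mem_toFinset]; rfl

theorem sw0_pr (l : List (Option (Fin n))) : D.sw0.pr l = D.aff.sw.pr l := by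
  induction l with
  | nil => rfl
  | cons s l ih => exact congrArg (· * D.aref (D.aal s)) ih

theorem sw0_lab_top (l : List (Option (Fin n))) :
    (D.sw0.BS l).lab (D.sw0.top l) = D.aff.sw.pr l := by
  rw [lab_top, sw0_pr]

/-- The denominator at the top index. -/
theorem eu_top (l : List (Option (Fin n))) : D.sw0.eu l (D.sw0.top l) =
    (-1) ^ l.length * ((D.aff.rts l).map fun b => fm0 b.1.1).prod := by
  induction l with
  | nil => show (1 : AA n) = _; simp [AS.rts]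
  | cons s l ih =>
    have h1 : D.sw0.eu (s :: l) (D.sw0.top (s :: l)) =
        (-1) * ((D.sw0.BS l).lab (D.sw0.top l) • D.sw0.f s) * D.sw0.eu l (D.sw0.top l) := rfl
    rw [h1, ih, sw0_lab_top, AS.rts, List.map_cons, List.prod_cons, List.length_cons, pow_succ]
    have h2 : D.aff.sw.pr l • (D.sw0.f s : AA n) = fm0 (D.aff.sw.pr l • D.aal s).1.1 := by
      show D.aff.sw.pr l • (fm0 (D.aal s).1.1 : AA n) = _
      rw [Aff_smul_A, smul_fm0]; rfl
    rw [h2]
    show -1 * fm0 (D.aff.sw.pr l • D.aal s).1.1 * _ =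
      (-1) ^ l.length * -1 * (fm0 (D.aff.sw.pr l • D.aal s).1.1 * _)
    ring

/-- the data of (9.1) -/
structure Wd (lam : Fin n → ℤ) (i : List (Option (Fin n))) : Prop where
  red : D.aff.Red i
  l : (D.aff.sw.pr i).l = lam
  min : ∀ w : D.Aff, w.l = lam → D.dd (D.aff.sw.pr i) ≤ D.dd w

theorem exists_Wd (lam : Fin n → ℤ) : ∃ i, D.Wd lam i := by
  obtain ⟨i, h1, h2, h3⟩ := D.exists_word lam
  exact ⟨i, h1, h2, h3⟩

variable {D}

theorem Wd.inv_iff {lam : Fin n → ℤ} {i : List (Option (Fin n))} (h : D.Wd lam i) {b : D.ARt}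
    (hb : D.apos b) : ¬ D.apos ((D.aff.sw.pr i)⁻¹ • b) ↔ b.2 + D.B b.1.1 lam < 0 := by
  have h2 : ((D.aff.sw.pr i)⁻¹ • b).2 = b.2 + D.B b.1.1 lam := by
    rw [smul_snd, inv_l, inv_u, B_neg_left, ((D.aff.sw.pr i).u⁻¹).2, h.l, D.B_comm lam]
    ring
  constructor
  · intro h1
    rcases lt_trichotomy (b.2 + D.B b.1.1 lam) 0 with h3 | h3 | h3
    · exact h3
    · exfalso
      have h4 := D.dd_lt hb h1
      have h5 : (D.aref b * D.aff.sw.pr i).l = lam := by
        rw [mul_l, aref_l, aref_u, h.l]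
        show -(b.2 • b.1.1) + D.rf b.1 lam = lam
        rw [rf]
        have h6 : b.2 = - D.B b.1.1 lam := by omega
        rw [h6]; module
      have h6 := h.min _ h5
      omega
    · exfalso; apply h1; left; rw [h2]; exact h3
  · intro h3 h4
    rcases h4 with h4 | ⟨h4, _⟩ <;> rw [h2] at h4 <;> omega

/-- The denominator at the top index: `± ∏_{γ > 0} γ^{max (B(λ,γ) - 1, 0)}`. -/
theorem Wd.eu_eq {lam : Fin n → ℤ} (hl : D.Dom lam) {i : List (Option (Fin n))}
    (h : D.Wd lam i) : ∃ ε : ℂ, (ε = 1 ∨ ε = -1) ∧ D.sw0.eu i (D.sw0.top i) =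
      MvPolynomial.C ε * ∏ γ ∈ D.posF, fm0 γ.1 ^ (D.B lam γ.1 - 1).toNat := by
  classical
  rw [eu_top]
  have h1 : ((D.aff.rts i).map fun b => fm0 b.1.1).prod =
      ∏ b ∈ (D.aff.rts i).toFinset, fm0 b.1.1 :=
    (List.prod_toFinset _ (D.aff.nodup_rts i h.red)).symm
  have h2 : ∏ b ∈ (D.aff.rts i).toFinset, (fm0 b.1.1 : AA n) =
      ∏ x ∈ D.posF.sigma fun γ => Finset.range (D.B lam γ.1 - 1).toNat, fm0 (-x.1.1) := by
    refine (Finset.prod_bij (fun x _ => ((D.ng x.1, (x.2 : ℤ) + 1) : D.ARt)) ?_ ?_ ?_ ?_).symm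
    · rintro ⟨γ, j⟩ hx
      rw [Finset.mem_sigma, Finset.mem_range, mem_posF] at hx
      simp only at hx
      rw [List.mem_toFinset, D.aff.mem_rts i h.red]
      have hp : D.apos (D.ng γ, (j : ℤ) + 1) := Or.inl (by show (0 : ℤ) < (j : ℤ) + 1; omega)
      refine ⟨hp, ?_⟩
      have := (h.inv_iff hp).2 (by
        show (j : ℤ) + 1 + D.B (-γ.1) lam < 0
        rw [B_neg_left, D.B_comm]; omega)
      exact this
    · rintro ⟨γ, j⟩ _ ⟨γ', j'⟩ _ he
      have h3 := congrArg Prod.fst he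
      have h4 := congrArg Prod.snd he
      simp only at h3 h4
      have h5 : γ = γ' := by rw [← D.ng_ng γ, h3, D.ng_ng]
      have h6 : j = j' := by omega
      subst h5; subst h6; rfl
    · rintro b hb
      rw [List.mem_toFinset, D.aff.mem_rts i h.red] at hb
      have h3 : b.2 + D.B b.1.1 lam < 0 := (h.inv_iff hb.1).1 hb.2
      have h4 : 0 ≤ b.2 := by
        have := hb.1
        rcases (show 0 < b.2 ∨ (b.2 = 0 ∧ D.Pos b.1) from this) with h5 | h5 <;> omega
      have h5 : D.Pos (D.ng b.1) := by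
        rw [pos_ng]
        intro h6
        have := D.dom_pos hl h6
        rw [D.B_comm] at this
        omega
      have h6 : 0 < b.2 := by
        rcases (show 0 < b.2 ∨ (b.2 = 0 ∧ D.Pos b.1) from hb.1) with h6 | h6
        · exact h6
        · exact (D.not_pos_ng h6.2 h5).elim
      refine ⟨⟨D.ng b.1, (b.2 - 1).toNat⟩, ?_, ?_⟩
      · rw [Finset.mem_sigma, Finset.mem_range, mem_posF]
        refine ⟨h5, ?_⟩
        show (b.2 - 1).toNat < (D.B lam (-b.1.1) - 1).toNat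
        rw [B_neg_right, D.B_comm lam]
        omega
      · apply D.ARt_ext
        · show - -b.1.1 = b.1.1
          exact neg_neg _
        · show (((b.2 - 1).toNat : ℕ) : ℤ) + 1 = b.2
          omega
    · rintro ⟨γ, j⟩ _
      rfl
  rw [h1, h2, Finset.prod_sigma]
  have h3 : ∏ γ ∈ D.posF, ∏ _j ∈ Finset.range (D.B lam γ.1 - 1).toNat, (fm0 (-γ.1) : AA n) =
      (∏ γ ∈ D.posF, (-1 : AA n) ^ (D.B lam γ.1 - 1).toNat) *
        ∏ γ ∈ D.posF, fm0 γ.1 ^ (D.B lam γ.1 - 1).toNat := by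
    rw [← Finset.prod_mul_distrib]
    refine Finset.prod_congr rfl fun γ _ => ?_
    rw [Finset.prod_const, Finset.card_range, fm0_neg, neg_pow]
  rw [h3, Finset.prod_pow_eq_pow_sum, ← mul_assoc, ← pow_add]
  rcases neg_one_pow_eq_or ℂ (i.length + ∑ γ ∈ D.posF, (D.B lam γ.1 - 1).toNat) with h4 | h4
  · refine ⟨1, Or.inl rfl, ?_⟩
    congr 1
    rw [← h4]; simp
  · refine ⟨-1, Or.inr rfl, ?_⟩
    congr 1
    rw [← h4]; simp

/-! ### (9.2) -/

/-- the closed set of (9.2) -/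
theorem Wd.closed {lam : Fin n → ℤ} (hl : D.Dom lam) {i : List (Option (Fin n))}
    (h : D.Wd lam i) : D.aff.Closed D.aff.pos
      {v | v = D.aff.sw.pr i ∨ (v.l ∈ D.PiS lam ∧ D.B v.l v.l < D.B lam lam)} := by
  intro v hv b hb hn
  -- common computation
  have hvl : v.l ∈ D.PiS lam := by
    rcases hv with rfl | hv
    · rw [h.l]; exact D.lam_mem_PiS hl
    · exact hv.1
  have hn2 : (v⁻¹ • b).2 = b.2 + D.B b.1.1 v.l := by
    rw [smul_snd, inv_l, inv_u, B_neg_left, (v.u⁻¹).2, D.B_comm v.l]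
    ring
  have hb2 : 0 ≤ b.2 := by
    rcases (show 0 < b.2 ∨ (b.2 = 0 ∧ D.Pos b.1) from hb) with h5 | h5 <;> omega
  have hj : b.2 + D.B b.1.1 v.l ≤ 0 := by
    by_contra h1
    push Not at h1
    exact hn (Or.inl (by rw [hn2]; exact h1))
  have hl2 : (D.aref b * v).l = v.l - (b.2 + D.B b.1.1 v.l) • b.1.1 := by
    rw [mul_l, aref_l, aref_u]
    show -(b.2 • b.1.1) + D.rf b.1 v.l = _
    rw [rf]; module
  have hnorm : D.B (D.aref b * v).l (D.aref b * v).l =
      D.B v.l v.l + 2 * b.2 * (b.2 + D.B b.1.1 v.l) := by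
    rw [hl2]
    simp only [B_sub_left, B_sub_right, B_smul_left, B_smul_right, b.1.2, D.B_comm v.l b.1.1]
    ring
  have hPi : (D.aref b * v).l ∈ D.PiS lam := by
    by_cases h0 : D.B b.1.1 v.l = 0
    · have h1 : b.2 = 0 := by omega
      rw [hl2, h0, h1, add_zero, zero_smul, sub_zero]; exact hvl
    · intro u hu
      have hneg : D.B b.1.1 v.l < 0 := by omega
      have hsv : (D.rO b.1).1 v.l ∈ D.PiS lam := D.PiS_smul hvl (D.rO_mem b.1)
      refine le_convex (x := u.1 v.l) (y := u.1 ((D.rO b.1).1 v.l)) (a := b.2)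
        (b := -(b.2 + D.B b.1.1 v.l)) hb2 (by omega) (by omega) (hvl u hu) (hsv u hu) ?_
      rw [← map_smul, ← map_smul, ← map_smul, ← map_add]
      congr 1
      show _ = b.2 • v.l + (-(b.2 + D.B b.1.1 v.l)) • D.rf b.1 v.l
      rw [hl2, rf]
      module
  rcases hv with rfl | hv
  · have h3 := (h.inv_iff hb).1 hn
    right
    refine ⟨hPi, ?_⟩
    have hk : 0 < b.2 := by
      rcases (show 0 < b.2 ∨ (b.2 = 0 ∧ D.Pos b.1) from hb) with h5 | h5
      · exact h5
      · exfalso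
        have := D.dom_pos hl h5.2
        rw [D.B_comm] at this
        omega
    show D.B (D.aref b * D.aff.sw.pr i).l (D.aref b * D.aff.sw.pr i).l < D.B lam lam
    rw [hnorm, h.l]
    have : 2 * b.2 * (b.2 + D.B b.1.1 lam) < 0 := by nlinarith
    omega
  · right
    refine ⟨hPi, ?_⟩
    show D.B (D.aref b * v).l (D.aref b * v).l < D.B lam lam
    rw [hnorm]
    have h3 : 2 * b.2 * (b.2 + D.B b.1.1 v.l) ≤ 0 := by nlinarith
    have h4 := hv.2
    omega

/-- The label of the top index does not occur elsewhere. -/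
theorem dd_lab (i : List (Option (Fin n))) (hi : D.aff.Red i) (p : (D.aff.sw.BS i).J) :
    (D.aff.sw.BS i).lab p = D.aff.sw.pr i ∨ D.dd ((D.aff.sw.BS i).lab p) < D.dd (D.aff.sw.pr i) := by
  refine lab_mem D.aff i hi {v | v = D.aff.sw.pr i ∨ D.dd v < D.dd (D.aff.sw.pr i)} ?_
    (Or.inl rfl) p
  intro v hv b hb hn
  right
  have h1 := D.dd_lt (b := b) (w := v) hb hn
  rcases hv with rfl | hv
  · exact h1
  · exact h1.trans hv

theorem top_unique : ∀ (i : List (Option (Fin n))), D.aff.Red i → ∀ p : (D.aff.sw.BS i).J,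
    (D.aff.sw.BS i).lab p = D.aff.sw.pr i → p = D.aff.sw.top i
  | [], _, _, _ => rfl
  | s :: l, ⟨hl, hs⟩, ⟨p, ε⟩, h => by
    have hgt : D.dd (D.aff.sw.pr l) < D.dd (D.aff.sw.pr (s :: l)) := D.dd_gt_right hs
    cases ε with
    | false =>
      exfalso
      have h1 : (D.aff.sw.BS l).lab p = D.aff.sw.pr (s :: l) := h
      rcases dd_lab l hl p with h2 | h2
      · rw [h1] at h2; rw [h2] at hgt; exact lt_irrefl _ hgt
      · rw [h1] at h2; exact lt_irrefl _ (h2.trans hgt)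
    | true =>
      have h1 : (D.aff.sw.BS l).lab p * D.aref (D.aal s) =
          D.aff.sw.pr l * D.aref (D.aal s) := h
      have h2 := top_unique l hl p (mul_right_cancel h1)
      rw [h2]; rfl

/-- (9.2) -/
theorem Wd.lab {lam : Fin n → ℤ} (hl : D.Dom lam) {i : List (Option (Fin n))}
    (h : D.Wd lam i) (p : (D.aff.sw.BS i).J) (hp : p ≠ D.aff.sw.top i) :
    ((D.aff.sw.BS i).lab p).l ∈ D.PiS lam ∧
      D.B ((D.aff.sw.BS i).lab p).l ((D.aff.sw.BS i).lab p).l < D.B lam lam := by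
  rcases lab_mem D.aff i h.red _ (h.closed hl) (Or.inl rfl) p with h1 | h1
  · exact (hp (top_unique i h.red p h1)).elim
  · exact h1

/-- (9.2) for the reduced data. -/
theorem Wd.lab0 {lam : Fin n → ℤ} (hl : D.Dom lam) {i : List (Option (Fin n))}
    (h : D.Wd lam i) (p : (D.sw0.BS i).J) (hp : p ≠ D.sw0.top i) :
    ((D.sw0.BS i).lab p).l ∈ D.PiS lam ∧
      D.B ((D.sw0.BS i).lab p).l ((D.sw0.BS i).lab p).l < D.B lam lam := by
  obtain ⟨q, rfl⟩ := (redJ D.aff.sw D.sw0 i).surjective p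
  rw [D.red.lab i q]
  refine h.lab hl q fun hq => hp ?_
  rw [hq, redJ_top]

/-- All labels have weights in the saturated set of `λ`. -/
theorem Wd.lab_mem {lam : Fin n → ℤ} (hl : D.Dom lam) {i : List (Option (Fin n))}
    (h : D.Wd lam i) (p : (D.sw0.BS i).J) : ((D.sw0.BS i).lab p).l ∈ D.PiS lam := by
  by_cases hp : p = D.sw0.top i
  · rw [hp, sw0_lab_top, h.l]; exact D.lam_mem_PiS hl
  · exact (h.lab0 hl p hp).1

/-- The weights of the labels `≠ top` are not in the orbit of `λ`. -/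
theorem Wd.lab_ne {lam : Fin n → ℤ} (hl : D.Dom lam) {i : List (Option (Fin n))}
    (h : D.Wd lam i) (p : (D.sw0.BS i).J) (hp : p ≠ D.sw0.top i) (u : D.OQ) :
    u.1 ((D.sw0.BS i).lab p).l ≠ lam := by
  intro h1
  have h2 := (h.lab0 hl p hp).2
  rw [← h1, u.2] at h2
  exact lt_irrefl _ h2

end SLD

end Pool.Agent.MTX
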