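import Pool.Agent.MTX.T6

/-! # MTX, Part T : (9.3), first half: the elements `ψ` -/

namespace Pool.Agent.MTX

open MvPolynomial SLD

variable {n : ℕ} {D : SLD n}

/-- the elements of `Aff` of weight `ν` -/
def Xw (D : SLD n) (ν : Fin n → ℤ) : Set D.Aff := {v | v.l = ν}

/-- Closed for the system based at `(ν, 1)`: let `v = (ν, a)`, `w = (ν, 1)`, `b` with `w⁻¹ b = (γ, k)` positive and
`v⁻¹ b = a⁻¹ (w⁻¹ b) = (a⁻¹ γ, k)` not positive; then `k = 0`, so `s_b w = w s_{(γ,0)}` has weight `ν`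
(`aref_smul`/`refl_smul`: `aref b = w (aref (γ, 0)) w⁻¹`, and `aref b * v = w (0, s_γ a)`). -/
theorem closed_Xw (ν : Fin n → ℤ) :
    D.aff.Closed (D.aff.Pw (⟨ν, 1⟩ : D.Aff)) (Xw D ν) := by
  intro v hv b hb hn
  have hv' : v.l = ν := hv
  set w : D.Aff := ⟨ν, 1⟩ with hw
  obtain ⟨c, hc⟩ : ∃ c, c = w⁻¹ • b := ⟨_, rfl⟩
  have hbc : b = w • c := by rw [hc, smul_inv_smul]
  have hvw : v = w * D.emb v.u := by
    apply Aff.ext'
    · show v.l = ν + (1 : D.OQ).1 0
      rw [map_zero, add_zero, hv']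
    · show v.u = 1 * v.u
      rw [one_mul]
  have hb' : D.apos c := by rw [hc]; exact hb
  have hn' : ¬ D.apos ((D.emb v.u)⁻¹ • c) := by
    intro h
    apply hn
    show D.apos (v⁻¹ • b)
    have h1 : v⁻¹ • b = (D.emb v.u)⁻¹ • c := by
      rw [hbc]
      conv_lhs => rw [hvw]
      rw [mul_inv_rev, mul_smul, inv_smul_smul]
    rw [h1]
    exact h
  have h2 : ((D.emb v.u)⁻¹ • c).2 = c.2 := by
    rw [smul_snd]
    have h3 : ((D.emb v.u)⁻¹).l = 0 := by
      show -((v.u)⁻¹).1 0 = 0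
      rw [map_zero, neg_zero]
    rw [h3, B_zero_left, sub_zero]
  have hk : c.2 = 0 := by
    rcases hb' with h | h
    · exact absurd (Or.inl (by rw [h2]; exact h)) hn'
    · exact h.1
  show (D.aref b * v).l = ν
  have h4 : D.aref b * v = w * (D.aref c * D.emb v.u) := by
    rw [hbc, D.aref_smul]
    conv_lhs => rw [hvw]
    group
  rw [h4, mul_l, mul_l, aref_l, hk]
  show ν + (1 : D.OQ).1 (-((0 : ℤ) • c.1.1) + (D.rO c.1).1 0) = ν
  rw [zero_smul, neg_zero, map_zero, add_zero, map_zero, add_zero]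

/-- `(ν, a) (0, s_i) = (ν, a s_i)`. -/
theorem Xw_stable (ν : Fin n → ℤ) (v : D.Aff) (hv : v ∈ Xw D ν) (i : Fin n) :
    v * D.aff.sr (some i) ∈ Xw D ν := by
  have hv' : v.l = ν := hv
  show (v * D.aref (D.aal (some i))).l = ν
  rw [mul_l, aref_l, hv']
  show ν + v.u.1 (-((0 : ℤ) • (D.al i).1)) = ν
  rw [zero_smul, neg_zero, map_zero, add_zero]

/-- Maps preserving the supports in all `Xw ν` preserve the supports off `Xw ν`: multiply by `c` from `big_BS`; `c • g` is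
the sum over the finite set of the weights `μ ≠ ν` of labels of the elements `c • rest (Xw μ) g ∈ M`. -/
theorem sup_compl {j i : List (Option (Fin n))}
    (Φ : (D.sw0.BS j).M →ₗ[AA n] (D.sw0.BS i).M)
    (h : ∀ ν g, (D.sw0.BS j).sup g.1 (Xw D ν) → (D.sw0.BS i).sup (Φ g).1 (Xw D ν))
    (ν : Fin n → ℤ) (g : (D.sw0.BS j).M) (hg : (D.sw0.BS j).sup g.1 (Xw D ν)ᶜ) :
    (D.sw0.BS i).sup (Φ g).1 (Xw D ν)ᶜ := by
  classical
  obtain ⟨c, hc, hbig⟩ := big_BS D.sw0 j
  let r : (Fin n → ℤ) → (D.sw0.BS j).M := fun μ =>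
    ⟨c • (D.sw0.BS j).rest (Xw D μ) g.1, hbig _⟩
  let A : Finset (Fin n → ℤ) := Finset.univ.image fun p => ((D.sw0.BS j).lab p).l
  have hsum : c • g = ∑ μ ∈ A, r μ := by
    apply Subtype.ext
    funext p
    have h1 : (∑ μ ∈ A, r μ).1 p = ∑ μ ∈ A, (r μ).1 p := by
      rw [AddSubmonoidClass.coe_finsetSum, Finset.sum_apply]
    rw [h1, Finset.sum_eq_single ((D.sw0.BS j).lab p).l]
    · show c * g.1 p = c * (if (D.sw0.BS j).lab p ∈ Xw D ((D.sw0.BS j).lab p).l then g.1 p else 0)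
      rw [if_pos (show (D.sw0.BS j).lab p ∈ Xw D ((D.sw0.BS j).lab p).l from rfl)]
    · intro μ _ hμ
      show c * (if (D.sw0.BS j).lab p ∈ Xw D μ then g.1 p else 0) = 0
      have h8 : (D.sw0.BS j).lab p ∉ Xw D μ := fun h9 =>
        hμ (show μ = ((D.sw0.BS j).lab p).l from Eq.symm h9)
      rw [if_neg h8, mul_zero]
    · intro h
      exact absurd (Finset.mem_image_of_mem _ (Finset.mem_univ p)) h
  intro p hp
  have hp' : (D.sw0.BS i).lab p ∈ Xw D ν := not_not.1 hp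
  have h2 : c * (Φ g).1 p = 0 := by
    have h3 : c * (Φ g).1 p = (Φ (c • g)).1 p := by rw [map_smul]; rfl
    rw [h3, hsum, map_sum]
    have h1 : (∑ μ ∈ A, Φ (r μ)).1 p = ∑ μ ∈ A, (Φ (r μ)).1 p := by
      rw [AddSubmonoidClass.coe_finsetSum, Finset.sum_apply]
    rw [h1]
    refine Finset.sum_eq_zero fun μ _ => ?_
    by_cases hμ : μ = ν
    · have h4 : r μ = 0 := by
        apply Subtype.ext
        funext q
        show c * (if (D.sw0.BS j).lab q ∈ Xw D μ then g.1 q else 0) = 0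
        split_ifs with hq
        · rw [hg q (fun hq' => hq' (by rw [← hμ]; exact hq)), mul_zero]
        · exact mul_zero _
      rw [h4, map_zero]
      rfl
    · refine h μ (r μ) ?_ p (fun h5 => hμ ?_)
      · intro q hq
        show c * (if (D.sw0.BS j).lab q ∈ Xw D μ then g.1 q else 0) = 0
        rw [if_neg hq, mul_zero]
      · have h6 : ((D.sw0.BS i).lab p).l = μ := h5
        have h7 : ((D.sw0.BS i).lab p).l = ν := hp'
        rw [← h6, h7]
  exact (mul_eq_zero.1 h2).resolve_left hc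

section
variable {I : Type} [Fintype I] [DecidableEq I] {s : Matrix I I (AA n)}
  {j : List (Option (Fin n))} {io pi : I → (D.sw0.BS j).M} {c : ℂ}

private theorem t8b_mulM_add (D : SLD n) (j : List (Option (Fin n))) (F G a : (D.sw0.BS j).M) :
    mulM (ring_BS D.sw0 j) (F + G) a =
      mulM (ring_BS D.sw0 j) F a + mulM (ring_BS D.sw0 j) G a := by
  apply Subtype.ext
  funext p
  show (F.1 p + G.1 p) * a.1 p = F.1 p * a.1 p + G.1 p * a.1 p
  rw [add_mul]

private theorem t8b_mulM_smul (D : SLD n) (j : List (Option (Fin n))) (r : AA n)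
    (F a : (D.sw0.BS j).M) :
    mulM (ring_BS D.sw0 j) (r • F) a = r • mulM (ring_BS D.sw0 j) F a := by
  apply Subtype.ext
  funext p
  show (r * F.1 p) * a.1 p = r * (F.1 p * a.1 p)
  rw [mul_assoc]

/-- the functional `φ0 F = c⁻¹ ∑_t Tr (F pi_t) Ev_t` -/
noncomputable def phi0 (D : SLD n) (j : List (Option (Fin n))) (pi : I → (D.sw0.BS j).M) (c : ℂ)
    (Ev : I → AA n) : (D.sw0.BS j).M →ₗ[AA n] AA n where
  toFun F := C c⁻¹ * ∑ t, D.sw0.Tr j (mulM (ring_BS D.sw0 j) F (pi t)) * Ev t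
  map_add' := by
    intro F G
    rw [← mul_add, ← Finset.sum_add_distrib]
    refine congrArg (fun x : AA n => C c⁻¹ * x) (Finset.sum_congr rfl fun t _ => ?_)
    rw [t8b_mulM_add, map_add, add_mul]
  map_smul' := by
    intro r F
    rw [RingHom.id_apply, smul_eq_mul, mul_left_comm]
    refine congrArg (fun x : AA n => C c⁻¹ * x) ?_
    rw [Finset.mul_sum]
    refine Finset.sum_congr rfl fun t _ => ?_
    rw [t8b_mulM_smul, map_smul, smul_eq_mul, mul_assoc]

/-- `φ0 (io t) = Ev t` -/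
theorem phi0_io (h : Retr D s j io pi c) (Ev : I → AA n) (t : I) :
    phi0 D j pi c Ev (io t) = Ev t := by
  show C c⁻¹ * ∑ b, D.sw0.Tr j (mulM (ring_BS D.sw0 j) (io t) (pi b)) * Ev b = Ev t
  simp only [h.tr, ite_mul, zero_mul]
  rw [Finset.sum_ite_eq, if_pos (Finset.mem_univ t), ← mul_assoc, ← map_mul,
    inv_mul_cancel₀ h.c_ne, map_one, one_mul]

/-- `φ0 F = 0` if `F` vanishes at the labels of weight `λ`: by `Tr_eq` in the fraction field
`φ0 F = c⁻¹ ∑_q F q / eu q ∑_t pi_t q Ev_t`, and `∑_t pi_t q Ev_t = 0` if `ν = (lab q).l ≠ λ`: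
`fm0 λ ∑_a pi_a q Ev_a = ∑_a pi_a q ∑_b s a b Ev_b = ∑_b (fm0 ν pi_b q) Ev_b` (`pi_wt`), and `fm0 λ ≠ fm0 ν`. -/
theorem phi0_off (h : Retr D s j io pi c) {Ev : I → AA n} {lam : Fin n → ℤ}
    (hEv : ∀ a, ∑ b, s a b * Ev b = fm0 lam * Ev a) (F : (D.sw0.BS j).M)
    (hF : ∀ q, ((D.sw0.BS j).lab q).l = lam → F.1 q = 0) : phi0 D j pi c Ev F = 0 := by
  -- the sum at an index of weight different from `lam`
  have hS : ∀ q, ((D.sw0.BS j).lab q).l ≠ lam → ∑ a, (pi a).1 q * Ev a = 0 := by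
    intro q hq
    have h1 : fm0 lam * ∑ a, (pi a).1 q * Ev a =
        fm0 ((D.sw0.BS j).lab q).l * ∑ a, (pi a).1 q * Ev a := by
      calc fm0 lam * ∑ a, (pi a).1 q * Ev a
          = ∑ a, (pi a).1 q * ∑ b, s a b * Ev b := by
            rw [Finset.mul_sum]
            refine Finset.sum_congr rfl fun a _ => ?_
            rw [hEv a]
            ring
        _ = ∑ a, ∑ b, (pi a).1 q * s a b * Ev b := by
            refine Finset.sum_congr rfl fun a _ => ?_
            rw [Finset.mul_sum]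
            refine Finset.sum_congr rfl fun b _ => ?_
            ring
        _ = ∑ b, ∑ a, (pi a).1 q * s a b * Ev b := Finset.sum_comm
        _ = ∑ b, (fm0 ((D.sw0.BS j).lab q).l * (pi b).1 q) * Ev b := by
            refine Finset.sum_congr rfl fun b _ => ?_
            rw [← Finset.sum_mul, h.pi_wt]
        _ = fm0 ((D.sw0.BS j).lab q).l * ∑ a, (pi a).1 q * Ev a := by
            rw [Finset.mul_sum]
            refine Finset.sum_congr rfl fun b _ => ?_
            ring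
    have h2 : fm0 (lam - ((D.sw0.BS j).lab q).l) * ∑ a, (pi a).1 q * Ev a = 0 := by
      rw [fm0_sub, sub_mul, h1, sub_self]
    rcases mul_eq_zero.1 h2 with h3 | h3
    · exact absurd h3 (fm0_ne_zero (sub_ne_zero.2 (Ne.symm hq)))
    · exact h3
  have hinj : Function.Injective (algebraMap (AA n) (FractionRing (AA n))) :=
    IsFractionRing.injective (AA n) (FractionRing (AA n))
  have hsum : ∑ t, D.sw0.Tr j (mulM (ring_BS D.sw0 j) F (pi t)) * Ev t = 0 := by
    apply hinj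
    rw [map_zero, map_sum]
    have h1 : ∀ t, algebraMap (AA n) (FractionRing (AA n))
        (D.sw0.Tr j (mulM (ring_BS D.sw0 j) F (pi t)) * Ev t) =
        ∑ q, algebraMap (AA n) (FractionRing (AA n)) (F.1 q * ((pi t).1 q * Ev t)) /
          algebraMap (AA n) (FractionRing (AA n)) (D.sw0.eu j q) := by
      intro t
      rw [map_mul, Tr_eq D.sw0 hinj j (mulM (ring_BS D.sw0 j) F (pi t)), Finset.sum_mul]
      refine Finset.sum_congr rfl fun q _ => ?_
      rw [mulM_apply, map_mul, map_mul, map_mul, div_mul_eq_mul_div, mul_assoc]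
    simp only [h1]
    rw [Finset.sum_comm]
    refine Finset.sum_eq_zero fun q _ => ?_
    rw [← Finset.sum_div, ← map_sum, ← Finset.mul_sum]
    by_cases hq : ((D.sw0.BS j).lab q).l = lam
    · rw [hF q hq, zero_mul, map_zero, zero_div]
    · rw [hS q hq, mul_zero, map_zero, zero_div]
  show C c⁻¹ * ∑ t, D.sw0.Tr j (mulM (ring_BS D.sw0 j) F (pi t)) * Ev t = 0
  rw [hsum, mul_zero]

/-- (9.3)  `kW` : a word in finite letters with `plusL kW {w} ⊇ w W` (`hkW`).  Apply `D.red.main_red` to `i`, `j`, `kW` and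
`phi0`.  (`h0`: if `g` is supported off `plusL kW {pr i}` then it vanishes at the labels `(λ, u)`, `u ∈ W`: `pr i = (λ, u_i)`
with `u_i ∈ W` (`hiW`), and `(λ, u) = pr i * emb (u_i⁻¹ u)`; `phi0_off`, `Retr.lab_W`.)
`ψ t := Φ0 (io t)`.  Weights: `G := ∑_b s a b • io b - fm0 ν • io a` vanishes at the labels of weight `ν` (`io_wt`), so
`Φ0 G` does (`sup_compl`, with `closed_Xw`, `sys_Pw`, `Xw_stable`); evaluate at `p` with `(lab p).l = ν`. -/
theorem exists_psi (h : Retr D s j io pi c) {Ev : I → AA n} {i kW : List (Option (Fin n))}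
    (hi : D.aff.Red i) (hiW : (D.sw0.pr i).u ∈ D.W) (hpr : D.aff.sw.pr i = D.sw0.pr i)
    (hEv : ∀ a, ∑ b, s a b * Ev b = fm0 (D.sw0.pr i).l * Ev a)
    (hkW1 : ∀ x ∈ kW, x ≠ none)
    (hkW : ∀ w : D.Aff, ∀ u ∈ D.W, w * D.emb u ∈ D.aff.plusL kW {w}) :
    ∃ ψ : I → (D.sw0.BS i).M, (∀ t, (ψ t).1 (D.sw0.top i) = Ev t) ∧
      ∀ p a, ∑ b, s a b * (ψ b).1 p = fm0 ((D.sw0.BS i).lab p).l * (ψ a).1 p := by
  obtain ⟨Φ0, hΦt, hΦs⟩ := D.red.main_red i hi j kW (phi0 D j pi c Ev) (by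
    intro g hg
    apply phi0_off h hEv g
    intro q hq
    apply hg
    intro hmem
    apply hmem
    have h1 : (D.sw0.BS j).lab q =
        D.aff.sw.pr i * D.emb (((D.sw0.pr i).u)⁻¹ * ((D.sw0.BS j).lab q).u) := by
      rw [hpr]
      apply Aff.ext'
      · show ((D.sw0.BS j).lab q).l = (D.sw0.pr i).l + (D.sw0.pr i).u.1 0
        rw [map_zero, add_zero, hq]
      · show ((D.sw0.BS j).lab q).u = (D.sw0.pr i).u * (((D.sw0.pr i).u)⁻¹ *
          ((D.sw0.BS j).lab q).u)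
        rw [mul_inv_cancel_left]
    rw [h1]
    exact hkW _ _ (D.W.mul_mem (D.W.inv_mem hiW) (h.lab_W q)))
  have hX : ∀ (ν : Fin n → ℤ) (g : (D.sw0.BS j).M), (D.sw0.BS j).sup g.1 (Xw D ν) →
      (D.sw0.BS i).sup (Φ0 g).1 (Xw D ν) := by
    intro ν g hg
    refine hΦs (D.aff.Pw (⟨ν, 1⟩ : D.Aff)) (Xw D ν) (D.aff.sys_Pw _) (closed_Xw ν) ?_ g hg
    intro v hv x hx
    cases x with
    | none => exact absurd rfl (hkW1 _ hx)
    | some k => exact Xw_stable ν v hv k
  refine ⟨fun t => Φ0 (io t), fun t => ?_, fun p a => ?_⟩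
  · rw [hΦt, phi0_io h]
  · set ν : Fin n → ℤ := ((D.sw0.BS i).lab p).l with hν
    set G : (D.sw0.BS j).M := ∑ b, s a b • io b - fm0 ν • io a with hG
    have hval : ∀ q, G.1 q = ∑ b, s a b * (io b).1 q - fm0 ν * (io a).1 q := by
      intro q
      rw [hG]
      simp [Finset.sum_apply]
    have hsup : (D.sw0.BS j).sup G.1 (Xw D ν)ᶜ := by
      intro q hq
      have hq' : ((D.sw0.BS j).lab q).l = ν := by
        by_contra hne
        exact hq hne
      rw [hval, h.io_wt, hq', sub_self]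
    have h2 := sup_compl Φ0 hX ν G hsup p (fun hmem => hmem rfl)
    have h3 : (Φ0 G).1 p = ∑ b, s a b * (Φ0 (io b)).1 p - fm0 ν * (Φ0 (io a)).1 p := by
      rw [hG, map_sub, map_sum, map_smul]
      simp [Finset.sum_apply]
    rw [h3] at h2
    exact sub_eq_zero.mp h2

end

end Pool.Agent.MTX
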