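import Pool.Agent.MTX.T9d
import Pool.Agent.MTX.T9b
import Pool.Agent.MTX.T8
import Pool.Agent.MTX.R3c
import Pool.Agent.MTX.D.Walls

/-! # MTX, Part T : (9.3), invariance on the whole slice, and the leading coefficient -/

namespace Pool.Agent.MTX

open MvPolynomial SLD Filter Topology
open Pool.Agent.MTD (Dat ev Idx co XX cf supp Phi IsLead InvP Eu)
open Pool.Agent.MP_c45d35_ag (chi)

variable {n N : ℕ} {D : SLD n}

/-- (7.7): the centralisers of the slice elements are limits of centralisers of regular ones. -/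
def Dens (D' : Dat n N D.PRt) : Prop :=
  ∀ (x0 : Fin n → ℂ) (h0 : Matrix (Fin N) (Fin N) ℂ), D'.IsG h0 → Commute h0 (D'.sC x0) →
    ∀ U ∈ 𝓝 h0, ∀ᶠ x in 𝓝 x0, D'.Reg x → ∃ h ∈ U, D'.IsG h ∧ Commute h (D'.sC x)

/-- Regular points are dense: the product of the forms of the positive roots is a nonzero polynomial. -/
theorem reg_dense {D' : Dat n N D.PRt} (A' : MTXD.Ax D') (x0 : Fin n → ℂ) :
    ∃ᶠ x in 𝓝 x0, D'.Reg x := by
  have hker : ∀ β, Dense {x : Fin n → ℂ | ev (D'.rt β) x ≠ 0} := by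
    intro β
    obtain ⟨k, hk⟩ := Function.ne_iff.1 (A'.ne_zero_rt β)
    let φ : (Fin n → ℂ) →ₗ[ℂ] ℂ :=
      { toFun := fun x => ev (D'.rt β) x
        map_add' := by
          intro x y
          unfold ev
          rw [← Finset.sum_add_distrib]
          refine Finset.sum_congr rfl fun i _ => ?_
          rw [Pi.add_apply]
          ring
        map_smul' := by
          intro c x
          unfold ev
          rw [RingHom.id_apply, smul_eq_mul, Finset.mul_sum]
          refine Finset.sum_congr rfl fun i _ => ?_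
          rw [Pi.smul_apply, smul_eq_mul]
          ring }
    have h1 : LinearMap.ker φ ≠ ⊤ := by
      intro h
      have h2 : (Pi.single k 1 : Fin n → ℂ) ∈ LinearMap.ker φ := h ▸ Submodule.mem_top
      rw [LinearMap.mem_ker] at h2
      change ∑ l, ((D'.rt β l : ℤ) : ℂ) * (Pi.single k 1 : Fin n → ℂ) l = 0 at h2
      rw [Finset.sum_eq_single k] at h2
      · rw [Pi.single_eq_same, mul_one] at h2
        exact hk (by exact_mod_cast h2)
      · intro l _ hl
        rw [Pi.single_eq_of_ne hl, mul_zero]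
      · intro hk'
        exact absurd (Finset.mem_univ k) hk'
    have h3 : interior ((LinearMap.ker φ : Submodule ℂ (Fin n → ℂ)) : Set (Fin n → ℂ)) = ∅ := by
      by_contra h
      exact h1 (Submodule.eq_top_of_nonempty_interior' _ (Set.nonempty_iff_ne_empty.2 h))
    rw [interior_eq_empty_iff_dense_compl] at h3
    exact h3
  have hopen : ∀ β, IsOpen {x : Fin n → ℂ | ev (D'.rt β) x ≠ 0} := fun β =>
    isOpen_ne_fun (by unfold ev; fun_prop) continuous_const
  have hd : Dense (⋂ β, {x : Fin n → ℂ | ev (D'.rt β) x ≠ 0}) :=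
    dense_iInter_of_isOpen hopen hker
  have h5 := hd x0
  rw [mem_closure_iff_frequently] at h5
  exact h5.mono fun x hx β => Set.mem_iInter.1 hx β

theorem t9e_cont_prod {b : ℕ} :
    Continuous fun h : Fin b → Matrix (Fin N) (Fin N) ℂ => (List.ofFn h).prod := by
  induction b with
  | zero =>
    simp only [List.ofFn_zero, List.prod_nil]
    exact continuous_const
  | succ b ih =>
    simp only [List.ofFn_succ, List.prod_cons]
    have h1 : Continuous fun h : Fin (b + 1) → Matrix (Fin N) (Fin N) ℂ =>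
        (List.ofFn fun i : Fin b => h i.succ).prod :=
      ih.comp (continuous_pi fun i => continuous_apply _)
    exact (continuous_apply 0).mul h1

theorem t9e_prod_isG {D' : Dat n N D.PRt} (A' : MTXD.Ax D') {b : ℕ}
    (h : Fin b → Matrix (Fin N) (Fin N) ℂ) (hG : ∀ a, D'.IsG (h a)) :
    D'.IsG (List.ofFn h).prod := by
  induction b with
  | zero =>
    simp only [List.ofFn_zero, List.prod_nil]
    exact A'.one
  | succ b ih =>
    rw [List.ofFn_succ, List.prod_cons]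
    exact A'.mul _ _ (hG 0) (ih _ fun a => hG _)

theorem t9e_prod_comm {b : ℕ} (h : Fin b → Matrix (Fin N) (Fin N) ℂ)
    (s : Matrix (Fin N) (Fin N) ℂ) (hc : ∀ a, Commute (h a) s) :
    Commute (List.ofFn h).prod s := by
  induction b with
  | zero =>
    simp only [List.ofFn_zero, List.prod_nil]
    exact Commute.one_left s
  | succ b ih =>
    rw [List.ofFn_succ, List.prod_cons]
    exact (hc 0).mul_left (ih _ fun a => hc _)

section
variable {D' : Dat n N D.PRt} {T : TD D N} {sg : D.OQ → ℤ} [Fintype D.W]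
  {k i : List (Option (Fin n))} {m b : ℕ} {lam : Fin n → ℤ}
  {ψ : (Fin m → Fin N) → (D.sw0.BS i).M}

/-- `InvP`.  Let `s = sC x0` (`sx_surj`), `g' = g h`.  The function
`f(h', x) = eval (co (g h') (sC x)) P - eval (co g (sC x)) P` is continuous in `(h', x)` (polynomials).  Suppose
`f(h, x0) ≠ 0`; then `f ≠ 0` on `{h'_a ∈ U_a} × V`.  For `h_0` we use `h'_0 := (h'_1 ⋯ h'_b)⁻¹` (the inverse is the
adjugate on `G`, so continuous; `List.ofFn_succ`): for `h'_a` near `h_a`, `a ≥ 1`, it is near `h_0`.  By `Dens` for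
each `a ≥ 1` (finitely many) and `reg_dense` there is a regular `x ∈ V` and `h'_a ∈ U_a` in `G` commuting with `sC x`; then
`inv_reg` gives `f(h', x) = 0`, a contradiction. -/
theorem invP_Ptop {Q : (Fin (b + 1) → Fin m → Fin N) → MvPolynomial (Fin N × Fin N) ℂ}
    (h : Top D D' T sg k i lam ψ Q) (hd : Dens D') (I : Fin (b + 1) → Fin m → Fin N) :
    InvP D' (b + 1) (Ptop I Q) := by
  classical
  have A' := h.A'
  intro g g' hh s _ hs hhc hprod hg
  obtain ⟨x0, hx0⟩ := A'.sx_surj s hs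
  have hs0 : s = D'.sC x0 := hx0
  -- the completion of `b` elements to a tuple with product one
  let full : (Fin b → Matrix (Fin N) (Fin N) ℂ) → Fin (b + 1) → Matrix (Fin N) (Fin N) ℂ :=
    fun h' => Fin.cons (List.ofFn h').prod.adjugate h'
  have hfull0 : ∀ h', full h' 0 = (List.ofFn h').prod.adjugate := fun h' => rfl
  have hfulls : ∀ h' (a : Fin b), full h' a.succ = h' a := fun h' a => rfl
  have hfc : ∀ a, Continuous fun h' => full h' a := by
    intro a
    refine Fin.cases ?_ (fun a => ?_) a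
    · simp only [hfull0]
      exact t9e_cont_prod.matrix_adjugate
    · simp only [hfulls]
      exact continuous_apply a
  let F : (Fin b → Matrix (Fin N) (Fin N) ℂ) × (Fin n → ℂ) → ℂ := fun z =>
    eval (co (fun a => g a * full z.1 a) (D'.sC z.2)) (Ptop I Q) -
      eval (co g (D'.sC z.2)) (Ptop I Q)
  have hsC : ∀ i j, Continuous fun z : (Fin b → Matrix (Fin N) (Fin N) ℂ) × (Fin n → ℂ) =>
      D'.sC z.2 i j := by
    intro i j
    change Continuous fun z : (Fin b → Matrix (Fin N) (Fin N) ℂ) × (Fin n → ℂ) =>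
      eval z.2 (D'.sx i j)
    exact (MvPolynomial.continuous_eval _).comp continuous_snd
  have hF : Continuous F := by
    refine Continuous.sub ?_ ?_
    · refine (MvPolynomial.continuous_eval _).comp (continuous_pi fun c => ?_)
      rcases c with ⟨a, i, j⟩ | ⟨i, j⟩
      · change Continuous fun z : (Fin b → Matrix (Fin N) (Fin N) ℂ) × (Fin n → ℂ) =>
          (g a * full z.1 a) i j
        have h1 : Continuous fun z : (Fin b → Matrix (Fin N) (Fin N) ℂ) × (Fin n → ℂ) =>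
            g a * full z.1 a := continuous_const.mul ((hfc a).comp continuous_fst)
        exact h1.matrix_elem i j
      · exact hsC i j
    · refine (MvPolynomial.continuous_eval _).comp (continuous_pi fun c => ?_)
      rcases c with ⟨a, i, j⟩ | ⟨i, j⟩
      · exact continuous_const
      · exact hsC i j
  have hfh : full (fun a => hh a.succ) = hh := by
    funext a
    refine Fin.cases ?_ (fun a => ?_) a
    · rw [hfull0]
      have hG := t9e_prod_isG A' (fun a : Fin b => hh a.succ) fun a => (hhc _).1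
      rw [List.ofFn_succ, List.prod_cons] at hprod
      rw [← A'.inv_eq hG]
      calc (List.ofFn fun a : Fin b => hh a.succ).prod⁻¹
          = (hh 0 * (List.ofFn fun a : Fin b => hh a.succ).prod) *
              (List.ofFn fun a : Fin b => hh a.succ).prod⁻¹ := by rw [hprod, Matrix.one_mul]
        _ = hh 0 := by rw [Matrix.mul_assoc, A'.mul_inv hG, Matrix.mul_one]
    · exact hfulls _ a
  by_contra hne
  have hF0 : F (fun a => hh a.succ, x0) ≠ 0 := by
    change eval (co (fun a => g a * full (fun a => hh a.succ) a) (D'.sC x0)) (Ptop I Q) -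
      eval (co g (D'.sC x0)) (Ptop I Q) ≠ 0
    rw [hfh, ← hs0]
    have hg' : (fun a => g a * hh a) = g' := by
      funext a
      exact (hg a).symm
    rw [hg']
    exact sub_ne_zero.2 hne
  have hnb : {z | F z ≠ 0} ∈ 𝓝 ((fun a => hh a.succ, x0) :
      (Fin b → Matrix (Fin N) (Fin N) ℂ) × (Fin n → ℂ)) :=
    (isOpen_ne_fun hF continuous_const).mem_nhds hF0
  obtain ⟨U, hU, V, hV, hUV⟩ := mem_nhds_prod_iff.1 hnb
  rw [nhds_pi, Filter.mem_pi] at hU
  obtain ⟨J, _, W, hW, hWU⟩ := hU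
  have hev : ∀ᶠ x in 𝓝 x0, ∀ a : Fin b, D'.Reg x → ∃ h' ∈ W a, D'.IsG h' ∧
      Commute h' (D'.sC x) :=
    Filter.eventually_all.2 fun a => hd x0 (hh a.succ) (hhc _).1 (hs0 ▸ (hhc _).2) (W a) (hW a)
  obtain ⟨x, hxR, hxa, hxV⟩ := ((reg_dense A' x0).and_eventually
    (hev.and (Filter.eventually_mem_set.2 hV))).exists
  choose h' hW' hG' hC' using fun a => hxa a hxR
  have hmem : F (h', x) ≠ 0 := by
    refine hUV (Set.mk_mem_prod (hWU ?_) hxV)
    intro a _
    exact hW' a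
  apply hmem
  have hGp := t9e_prod_isG A' h' hG'
  have hinv := inv_reg h I g (fun a => g a * full h' a) (full h') ⟨x, hxR⟩
    (by
      intro a
      refine Fin.cases ?_ (fun a => ?_) a
      · rw [hfull0, ← A'.inv_eq hGp]
        refine ⟨A'.inv _ hGp, ?_⟩
        have hc := t9e_prod_comm h' (D'.sC x) hC'
        have hc' : (List.ofFn h').prod * D'.sC x = D'.sC x * (List.ofFn h').prod := hc
        change (List.ofFn h').prod⁻¹ * D'.sC x = D'.sC x * (List.ofFn h').prod⁻¹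
        calc (List.ofFn h').prod⁻¹ * D'.sC x
            = (List.ofFn h').prod⁻¹ * (D'.sC x * (List.ofFn h').prod) *
                (List.ofFn h').prod⁻¹ := by
              rw [Matrix.mul_assoc, Matrix.mul_assoc, A'.mul_inv hGp, Matrix.mul_one]
          _ = ((List.ofFn h').prod⁻¹ * (List.ofFn h').prod) * D'.sC x *
                (List.ofFn h').prod⁻¹ := by
              rw [← hc']
              simp only [Matrix.mul_assoc]
          _ = D'.sC x * (List.ofFn h').prod⁻¹ := by rw [A'.inv_mul hGp, Matrix.one_mul]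
      · rw [hfulls]
        exact ⟨hG' a, hC' a⟩)
    (by
      rw [List.ofFn_succ, List.prod_cons, hfull0]
      have h1 : (fun i : Fin b => full h' i.succ) = h' := by
        funext i
        exact hfulls h' i
      rw [h1, ← A'.inv_eq hGp, A'.inv_mul hGp])
    (fun a => rfl)
  change eval (co (fun a => g a * full h' a) (D'.sC x)) (Ptop I Q) -
      eval (co g (D'.sC x)) (Ptop I Q) = 0
  rw [sub_eq_zero]
  exact hinv

theorem t9e2_det {R : Type} [CommRing R] {m : ℕ} (A : Matrix (Fin m) (Fin m) R) :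
    A.det = ∑ σ : Equiv.Perm (Fin m), ((Equiv.Perm.sign σ : ℤ) : R) * ∏ r, A r (σ r) := by
  rw [← Matrix.det_transpose, Matrix.det_apply']
  rfl

/-- `∑_t powM M I t * det (P[t, J]) = det ((M P)[I, J])`: expand the determinant (`Matrix.det_apply`) and
`∏_r (M P) (I r) (J σ r) = ∑_t ∏_r M (I r) (t r) P (t r) (J σ r)` (`Finset.prod_univ_sum`). -/
theorem powM_minor {R : Type} [CommRing R] (M P : Matrix (Fin N) (Fin N) R) (I J : Fin m → Fin N) :
    ∑ t, powM M I t * (P.submatrix t J).det = ((M * P).submatrix I J).det := by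
  rw [t9e2_det]
  have h1 : ∀ t : Fin m → Fin N, powM M I t * (P.submatrix t J).det =
      ∑ σ : Equiv.Perm (Fin m), ((Equiv.Perm.sign σ : ℤ) : R) *
        ∏ r, (M (I r) (t r) * P (t r) (J (σ r))) := by
    intro t
    rw [t9e2_det, Finset.mul_sum]
    refine Finset.sum_congr rfl fun σ _ => ?_
    rw [Finset.prod_mul_distrib]
    simp only [powM, Matrix.submatrix_apply]
    ring
  rw [Finset.sum_congr rfl fun t _ => h1 t, Finset.sum_comm]
  refine Finset.sum_congr rfl fun σ _ => ?_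
  rw [← Finset.mul_sum]
  congr 1
  simp only [Matrix.submatrix_apply, Matrix.mul_apply]
  rw [Finset.prod_univ_sum, Fintype.piFinset_univ]

/-- the Euler polynomial, as a product over all roots (negative roots have exponent `0` for dominant `λ`) -/
noncomputable def EU (D : SLD n) (lam : Fin n → ℤ) : AA n :=
  ∏ γ : D.Rt, fm0 γ.1 ^ (D.B lam γ.1).toNat

theorem t9e2_neg {lam : Fin n → ℤ} (hl : D.Dom lam) {γ : D.Rt} (h : ¬ D.Pos γ) :
    (D.B lam γ.1).toNat = 0 := by
  have h1 := D.dom_pos hl ((D.pos_ng γ).2 h)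
  rw [ng_val, B_neg_right] at h1
  omega

theorem t9e2_prod {M : Type} [CommMonoid M] (f : D.Rt → M) (hf : ∀ γ, ¬ D.Pos γ → f γ = 1) :
    ∏ γ : D.Rt, f γ = ∏ γ : D.PRt, f γ.1 := by
  classical
  have h1 : ∏ γ : D.PRt, f γ.1 = ∏ γ ∈ D.posF, f γ := by
    symm
    apply Finset.prod_subtype
    intro γ
    exact D.mem_posF
  rw [h1]
  symm
  apply Finset.prod_subset (Finset.subset_univ _)
  intro γ _ h
  exact hf γ fun h' => h (D.mem_posF.2 h')

/-- For dominant `λ`: `PI * ∏_{γ > 0} γ^(B(λ, γ) - 1) = PI0 * EU`: factor by factor over the positive roots (for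
`B(λ, γ) = 0` both factors are `γ`; for `B(λ, γ) > 0` both are `γ^B`; in `EU` the negative roots contribute `1`, `dom_pos`). -/
theorem PI_EU {lam : Fin n → ℤ} (hl : D.Dom lam) :
    D.PI * ∏ γ ∈ D.posF, fm0 γ.1 ^ (D.B lam γ.1 - 1).toNat = D.PI0 lam * EU D lam := by
  classical
  have h1 : ∏ γ ∈ D.posF, (fm0 γ.1 : AA n) ^ (D.B lam γ.1 - 1).toNat =
      ∏ γ : D.PRt, fm0 γ.1.1 ^ (D.B lam γ.1.1 - 1).toNat := by
    apply Finset.prod_subtype
    intro γ
    exact D.mem_posF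
  have h2 : EU D lam = ∏ γ : D.PRt, fm0 γ.1.1 ^ (D.B lam γ.1.1).toNat := by
    unfold EU
    exact t9e2_prod (fun γ : D.Rt => (fm0 γ.1 : AA n) ^ (D.B lam γ.1).toNat)
      (fun γ h => by
        show (fm0 γ.1 : AA n) ^ (D.B lam γ.1).toNat = 1
        rw [t9e2_neg hl h, pow_zero])
  rw [h1, h2]
  unfold SLD.PI SLD.PI0
  rw [← Finset.prod_mul_distrib, ← Finset.prod_mul_distrib]
  refine Finset.prod_congr rfl fun γ _ => ?_
  have h3 := D.dom_pos hl γ.2
  by_cases h4 : D.B γ.1.1 lam = 0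
  · rw [if_pos h4]
    rw [B_comm] at h4
    rw [h4]
    simp
  · rw [if_neg h4, one_mul]
    rw [B_comm] at h4
    obtain ⟨k, hk⟩ : ∃ k : ℕ, D.B lam γ.1.1 = (k : ℤ) + 1 := ⟨(D.B lam γ.1.1 - 1).toNat, by omega⟩
    rw [hk]
    have e1 : ((k : ℤ) + 1 - 1).toNat = k := by omega
    have e2 : ((k : ℤ) + 1).toNat = k + 1 := by omega
    rw [e1, e2, pow_succ, mul_comm]

/-- Reindex by `u` (`smul_fm0`). -/
theorem EU_smul {lam : Fin n → ℤ} {u : D.OQ} (hu : u.1 lam = lam) : u • EU D lam = EU D lam := by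
  unfold EU
  rw [Finset.smul_prod']
  refine Fintype.prod_equiv (MulAction.toPerm u) _ _ fun γ => ?_
  rw [MulAction.toPerm_apply, smul_pow', smul_fm0, smul_val]
  congr 2
  conv_rhs => rw [← hu]
  exact (u.2 _ _).symm

/-- `eval x (EU λ) = Eu D' λ x` for dominant `λ` (`Lk.rt`, `Lk.cr`, `eval_fm0`). -/
theorem eval_EU {T : TD D N} (hL : Lk D' T) {lam : Fin n → ℤ} (hl : D.Dom lam) (x : Fin n → ℂ) :
    eval x (EU D lam) = Eu D' lam x := by
  have h2 : EU D lam = ∏ γ : D.PRt, fm0 γ.1.1 ^ (D.B lam γ.1.1).toNat := by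
    unfold EU
    exact t9e2_prod (fun γ : D.Rt => (fm0 γ.1 : AA n) ^ (D.B lam γ.1).toNat)
      (fun γ h => by
        show (fm0 γ.1 : AA n) ^ (D.B lam γ.1).toNat = 1
        rw [t9e2_neg hl h, pow_zero])
  rw [h2, map_prod]
  unfold Eu
  refine Finset.prod_congr rfl fun γ _ => ?_
  rw [map_pow, eval_fm0, hL.rt, hL.cr, B_comm]

omit [Fintype D.W] in
theorem t9e3_PI_ne {x : Fin n → ℂ} (hx : ∀ γ : D.PRt, ev γ.1.1 x ≠ 0) : eval x D.PI ≠ 0 := by
  unfold SLD.PI
  rw [map_prod]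
  refine Finset.prod_ne_zero_iff.2 fun γ _ => ?_
  rw [eval_fm0]
  exact hx γ

/-- The coefficient at the top index for `u λ = λ`: `eval x PI = sg u * eval x (u PI)`, and by `Wd.eu_eq`, `PI_EU` (apply
`u` and evaluate): `cup = ε⁻¹ / eval x (u EU) = ε / eval x EU`. -/
theorem cup_top (hK : K0 D sg k) {lam : Fin n → ℤ} (hl : D.Dom lam) (hi : D.Wd lam i) :
    ∃ ε : ℂ, ε ≠ 0 ∧ ∀ u ∈ D.W, u.1 lam = lam → ∀ x : Fin n → ℂ, (∀ γ : D.PRt, ev γ.1.1 x ≠ 0) →
      cup D sg i lam u (D.sw0.top i) x = ε / eval x (EU D lam) := by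
  obtain ⟨ε, hε, heu⟩ := hi.eu_eq hl
  have hεε : ε * ε = 1 := by rcases hε with rfl | rfl <;> norm_num
  have hε0 : ε ≠ 0 := by
    intro h
    rw [h, mul_zero] at hεε
    exact zero_ne_one hεε
  refine ⟨ε, hε0, ?_⟩
  intro u hu hul x hx
  have h1 := congrArg (fun f : AA n => eval x (u • f)) (PI_EU (D := D) hl)
  simp only [smul_mul'] at h1
  rw [hK.sg_PI u hu, EU_smul hul, map_mul, map_mul, map_mul] at h1
  set P1 : AA n := ∏ γ ∈ D.posF, fm0 γ.1 ^ (D.B lam γ.1 - 1).toNat with hP1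
  have h2 : eval x (u • D.sw0.eu i (D.sw0.top i)) = ε * eval x (u • P1) := by
    rw [heu, smul_mul', D.smul_C, map_mul, eval_C]
  have h3 := eval_eu_ne i u hx (D.sw0.top i)
  have h4 : eval x (u • P1) ≠ 0 := by
    intro h5
    rw [h2, h5, mul_zero] at h3
    exact h3 rfl
  have h5 := t9e3_PI_ne (D := D) hx
  have h6 : (sg u : ℂ) * (sg u : ℂ) = 1 := by
    have := hK.sg_sq u hu
    exact_mod_cast this
  have h7 : (sg u : ℂ) ≠ 0 := by
    intro h
    rw [h, mul_zero] at h6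
    exact zero_ne_one h6
  have h8 : eval x ((sg u : ℤ) : AA n) = (sg u : ℂ) := map_intCast (eval x) (sg u)
  rw [h8] at h1
  have h9 : eval x (EU D lam) ≠ 0 := by
    intro h
    rw [h, mul_zero] at h1
    exact mul_ne_zero (mul_ne_zero h7 h5) h4 h1
  unfold cup
  rw [h2, div_eq_div_iff (mul_ne_zero h5 (mul_ne_zero hε0 h4)) h9, mul_assoc, ← h1]
  linear_combination (eval x D.PI * eval x (u • P1)) * h6 -
    (eval x D.PI * eval x (u • P1)) * hεε

/-- The matrix coefficient at the top index: `u (ψ t)(top) = u Ev t = Ev t` (`Ev_inv`), `Ev t = det px[t, J]`,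
`∑_t powM (g q⁻¹) I t * det (pC x)[t, J] = det ((g q⁻¹ pC x)[I, J])` (`powM_minor`), `q⁻¹ pC x = (ueC x)⁻¹`, which is in the
group and upper unipotent (`ueC_upUni`, `UpUni.inv`, `inv`), so `hminor` gives `det g[I, J]`. -/
theorem pup_top (A' : MTXD.Ax D') (A : TAx T) (hL : Lk D' T)
    (he : ∀ i j, T.e i j ≠ 0 → ∃ l, T.wt i = T.wt j + Pi.single l 1)
    {kk : Fin n} {J : Fin m → Fin N} (hJ : JD T kk J)
    (hminor : ∀ (g b : Matrix (Fin N) (Fin N) ℂ), D'.IsG b → (∀ i j, j < i → b i j = 0) →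
      ∀ I : Fin m → Fin N, ((g * b).submatrix I J).det =
        (g.submatrix I J).det * ∏ j, b (J j) (J j))
    (hψ : ∀ t, (ψ t).1 (D.sw0.top i) = Ev T J t) (g : Matrix (Fin N) (Fin N) ℂ)
    (I : Fin m → Fin N) {u : D.OQ} (hu : u ∈ D.W) (hul : u.1 (lamJ T J) = lamJ T J)
    (x : D'.RegX) :
    pup i ψ (g * (D'.qC x.1)⁻¹) I u (D.sw0.top i) x.1 = (g.submatrix I J).det := by
  unfold pup
  have h1 : ∀ t, eval x.1 (u • (ψ t).1 (D.sw0.top i)) =
      ((D'.pC x.1).submatrix t J).det := by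
    intro t
    rw [hψ t, Ev_inv A he hJ hu hul t]
    unfold Ev
    rw [RingHom.map_det]
    have h2 : D'.pC x.1 = T.px.map (MvPolynomial.eval x.1) := by
      unfold Pool.Agent.MTD.Dat.pC
      rw [hL.px]
    rw [h2]
    rfl
  simp only [h1]
  rw [powM_minor]
  have hu1 := A'.ueC_upUni x.1
  have hpdet : IsUnit (D'.pC x.1).det := by
    rw [A'.det _ (A'.pC_isG x.1)]
    exact isUnit_one
  have hq : g * (D'.qC x.1)⁻¹ * D'.pC x.1 = g * (D'.ueC x.1)⁻¹ := by
    unfold Pool.Agent.MTD.Dat.qC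
    rw [Matrix.mul_inv_rev, Matrix.mul_assoc, Matrix.mul_assoc,
      Matrix.nonsing_inv_mul _ hpdet, Matrix.mul_one]
  rw [hq]
  have hui := hu1.inv
  rw [hminor g _ (A'.inv _ (A'.ueC_isG x.1)) hui.1 I]
  have h3 : ∏ j, (D'.ueC x.1)⁻¹ (J j) (J j) = 1 := Finset.prod_eq_one fun j _ => hui.2 (J j)
  rw [h3, mul_one]

end

/-- The finite part of the product of a word lies in `W`. -/
theorem t9e4_pr_mem (i : List (Option (Fin n))) : (D.sw0.pr i).u ∈ D.W := by
  rw [sw0_pr]
  induction i with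
  | nil => exact D.W.one_mem
  | cons s l ih =>
    have h : D.aff.sw.pr (s :: l) = D.aff.sw.pr l * D.aref (D.aal s) := rfl
    rw [h, mul_u, aref_u]
    exact mul_mem ih (D.rO_mem _)

section
variable {D' : Dat n N D.PRt} {T : TD D N} {sg : D.OQ → ℤ} [Fintype D.W]
  {k i : List (Option (Fin n))} {m b : ℕ} {lam : Fin n → ℤ}
  {ψ : (Fin m → Fin N) → (D.sw0.BS i).M}

/-- The coefficient at `λ`: the sum over the stabiliser of `λ` in `W`. -/
theorem t9e4_cf {Q : (Fin (b + 1) → Fin m → Fin N) → MvPolynomial (Fin N × Fin N) ℂ}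
    (h : Top D D' T sg k i lam ψ Q) (hl : D.Dom lam) (hi : D.Wd lam i)
    (I : Fin (b + 1) → Fin m → Fin N) (y : XX D' (b + 1)) (z : ℂ)
    (hz : ∀ u ∈ D.W, u.1 lam = lam →
      cup D sg i lam u (D.sw0.top i) y.2.1 *
        ∏ a, pup i ψ ((y.1 a).1 * (D'.qC y.2.1)⁻¹) (I a) u (D.sw0.top i) y.2.1 = z) :
    cf D' (Ptop I Q) lam y =
      (Nat.card {u : D.W // u.1.1 lam = lam} : ℂ) * z := by
  classical
  rw [cf_Ptop h I lam y]
  have h1 : ((D.sw0.BS i).lab (D.sw0.top i)).l = lam := by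
    rw [sw0_lab_top, hi.l]
  have h2 : ∀ u : D.W, (∑ p, if u.1.1 ((D.sw0.BS i).lab p).l = lam then
        cup D sg i lam u.1 p y.2.1 *
          ∏ a, pup i ψ ((y.1 a).1 * (D'.qC y.2.1)⁻¹) (I a) u.1 p y.2.1 else 0) =
      if u.1.1 lam = lam then z else 0 := by
    intro u
    rw [Finset.sum_eq_single (D.sw0.top i)]
    · rw [h1]
      split_ifs with h3
      · exact hz u.1 u.2 h3
      · rfl
    · intro p _ hp
      exact if_neg (hi.lab_ne hl p hp u.1)
    · intro h3
      exact absurd (Finset.mem_univ _) h3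
  have h3 : (∑ u : D.W, if u.1.1 lam = lam then z else 0) =
      (Nat.card {u : D.W // u.1.1 lam = lam} : ℂ) * z := by
    rw [← Finset.sum_filter, Finset.sum_const, nsmul_eq_mul, Nat.card_eq_fintype_card,
      Fintype.card_subtype]
  rw [← h3]
  refine Finset.sum_congr rfl fun u _ => ?_
  rw [← h2 u]

end

/-- **The top elements.**  Let `λ = lamJ T J`, dominant (`lamJ_dom`).  Take `i` from `exists_Wd`, `io, pi` from
`exists_retr` and `retr_pow` (`sx_inv`), `ψ` from `exists_psi` with `Ev T J` (`Ev_eig`; `(pr i).l = λ`; `pr` for `aff.sw` and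
`sw0` agree by induction; its finite part is in `W` since all letters have finite part in `W`, `rO_mem`), `Q t` from `hinv`
(`Rop_inv`).  So `Top` holds.  `P := C c * Ptop I Q`.  `invP_Ptop`, `isLead_Ptop` (`Wd.lab_mem`, `Wd.l`), and by `cf_Ptop`
(`cf_smul`) the coefficient at `λ` is the sum over `u ∈ W`, `u λ = λ`, of `ε / EU(x) ∏_a det g_a[I_a, J]` (`cup_top`,
`pup_top`; indices `p ≠ top` do not contribute: `Wd.lab_ne`).  `c := 1 / (ε #{u ∈ W | u λ = λ})`, `eval_EU`,
`Eu_ne_zero`. -/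
theorem exists_top {D' : Dat n N D.PRt} (A' : MTXD.Ax D') {T : TD D N} (A : TAx T) (hL : Lk D' T)
    (he : ∀ i j, T.e i j ≠ 0 → ∃ l, T.wt i = T.wt j + Pi.single l 1) [Fintype D.W]
    (hk0 : ∃ (sg : D.OQ → ℤ) (k0 : List (Option (Fin n))), K0 D sg k0)
    (hkW : ∃ kW : List (Option (Fin n)), (∀ x ∈ kW, x ≠ none) ∧
      ∀ w : D.Aff, ∀ u ∈ D.W, w * D.emb u ∈ D.aff.plusL kW {w})
    (hinv : ∀ f : AA n, (∀ u ∈ D.W, u • f = f) →
      ∃ P : MvPolynomial (Fin N × Fin N) ℂ, aeval (fun p : Fin N × Fin N => T.sx p.1 p.2) P = f)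
    (hd : Dens D') {kk : Fin n} {m : ℕ} {J : Fin m → Fin N} (hJ : JD T kk J)
    (hminor : ∀ (g b : Matrix (Fin N) (Fin N) ℂ), D'.IsG b → (∀ i j, j < i → b i j = 0) →
      ∀ I : Fin m → Fin N, ((g * b).submatrix I J).det =
        (g.submatrix I J).det * ∏ j, b (J j) (J j))
    (b : ℕ) (I : Fin (b + 1) → Fin m → Fin N) :
    ∃ P : MvPolynomial (Idx N (b + 1)) ℂ, InvP D' (b + 1) P ∧
      (∀ κ ∈ supp D' P, ∀ l, κ l ≤ lamJ T J l) ∧ IsLead D' P (lamJ T J) ∧
      ∀ y : XX D' (b + 1), Eu D' (lamJ T J) y.2.1 * cf D' P (lamJ T J) y =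
        ∏ a, ((y.1 a).1.submatrix (I a) J).det := by
  classical
  obtain ⟨sg, k0, hK⟩ := hk0
  obtain ⟨kW, hkW1, hkW2⟩ := hkW
  have hl : D.Dom (lamJ T J) := lamJ_dom A hJ
  obtain ⟨i, hi⟩ := D.exists_Wd (lamJ T J)
  obtain ⟨io, pi, c, hr⟩ := exists_retr A sg hK.sg_PI hK.sg_sq k0 hK.hl hK.hk
  obtain ⟨j', io', pi', c', hr'⟩ := retr_pow A.sx_inv hr m
  obtain ⟨ψ, hψ1, hψ2⟩ := exists_psi (Ev := Ev T J) hr' hi.red (t9e4_pr_mem i)
    (D.sw0_pr i).symm (fun a => by
      rw [sw0_pr, hi.l]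
      exact Ev_eig A he hJ a) hkW1 hkW2
  choose Q hQ using fun t : Fin (b + 1) → Fin m → Fin N =>
    hinv (Rop D k0 (lamJ T J) (D.sw0.Tr i (prodM (ring_BS D.sw0 i) fun a => ψ (t a))))
      (fun u hu => Rop_inv hK _ _ hu)
  have hT : Top D D' T sg k0 i (lamJ T J) ψ Q := ⟨A', A, hL, hK, hψ2, hQ⟩
  obtain ⟨hs1, hs2⟩ := isLead_Ptop hT I (fun p u hu l => hi.lab_mem hl p u hu l)
  obtain ⟨ε, hε0, hε⟩ := cup_top (sg := sg) hK hl hi
  have hfin : Finite {u : D.W // u.1.1 (lamJ T J) = lamJ T J} := inferInstance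
  have hne : Nonempty {u : D.W // u.1.1 (lamJ T J) = lamJ T J} := ⟨⟨1, rfl⟩⟩
  have hcard : (Nat.card {u : D.W // u.1.1 (lamJ T J) = lamJ T J} : ℂ) ≠ 0 :=
    Nat.cast_ne_zero.2 (Nat.card_pos).ne'
  obtain ⟨w, hw⟩ : ∃ w : ℂ, w = ((Nat.card {u : D.W // u.1.1 (lamJ T J) = lamJ T J} : ℂ) * ε)⁻¹ :=
    ⟨_, rfl⟩
  have hsupp : ∀ κ ∈ supp D' (w • Ptop I Q), κ ∈ supp D' (Ptop I Q) := by
    intro κ hκ
    obtain ⟨y, hy⟩ := MTD.mem_supp.1 hκ
    refine MTD.mem_supp.2 ⟨y, fun h => hy ?_⟩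
    rw [MTD.cf_smul, Pi.smul_apply, h, smul_zero]
  refine ⟨w • Ptop I Q, ?_, fun κ hκ => hs1 κ (hsupp κ hκ), fun κ hκ => hs2 κ (hsupp κ hκ), ?_⟩
  · intro g g' h s hg hs hc hp' hg'
    rw [MvPolynomial.smul_eval, MvPolynomial.smul_eval,
      invP_Ptop hT hd I g g' h s hg hs hc hp' hg']
  · intro y
    have hreg : ∀ γ : D.PRt, ev γ.1.1 y.2.1 ≠ 0 := by
      intro γ
      have h1 := y.2.2 γ
      rw [hL.rt γ] at h1
      exact h1
    have hE : Eu D' (lamJ T J) y.2.1 ≠ 0 := MTD.Eu_ne_zero _ y.2.2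
    have h1 := t9e4_cf hT hl hi I y
      (ε / Eu D' (lamJ T J) y.2.1 * ∏ a, ((y.1 a).1.submatrix (I a) J).det) (by
        intro u hu hul
        rw [hε u hu hul y.2.1 hreg, eval_EU hL hl y.2.1]
        congr 1
        refine Finset.prod_congr rfl fun a _ => ?_
        exact pup_top A' A hL he hJ hminor hψ1 (y.1 a).1 (I a) hu hul y.2)
    rw [MTD.cf_smul, Pi.smul_apply, h1, hw, smul_eq_mul]
    field_simp

end Pool.Agent.MTX
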