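import Pool.Agent.MTX.G1
import Pool.Agent.MTX.K11
import Pool.Agent.MTX.T9e
import Pool.Agent.MTX.F6
import Pool.Agent.MTX.R4c

/-! # MTX : the generators of the adjoint groups (section 8, end) -/

namespace Pool.Agent.MTX

open Matrix Topology Filter
open Pool.Agent.MTD (Dat ev ev_add ev_sub ev_neg ev_smul ev_zero ev_add_left ev_sub_left ev_neg_left
  ev_smul_left ev_zero_left ev_sum_left ev_sum ev_map ev_comm
  Idx co XX cf supp Phi IsLead InvP Eu Gens GAx)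

namespace SLD

variable {n : ℕ} (D : SLD n) (F : Frm D)

theorem lk : Lk (D.dat F D.S0 D.sv D.pm) D.td where
  wt := rfl
  rt _ := rfl
  cr γ μ := by
    rw [D.ev_cr F D.S0 D.sv D.pm γ μ, D.B_comm]
  sx := rfl
  px := rfl

theorem big_ax : MTXD.Ax (D.dat F D.S0 D.sv D.pm) := D.dat_ax F D.S0 D.sv D.pm (D.kost F)

theorem hk0 [Fintype D.W] : ∃ (sg : D.OQ → ℤ) (k0 : List (Option (Fin n))), K0 D sg k0 := by
  obtain ⟨sg, k, -, h2, h3, h4, h5⟩ := D.exists_sgk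
  exact ⟨sg, k, h2, h3, h4, h5⟩

theorem td_wt_fun : D.td.wt = fun i => D.wI (D.eN.symm i) := rfl

theorem lam_B (k i : Fin n) :
    (i ≠ k → D.B (D.gens.lam (D.dat F D.S0 D.sv D.pm) k) (D.al i).1 = 0) ∧
    (i = k → 0 < D.B (D.gens.lam (D.dat F D.S0 D.sv D.pm) k) (D.al i).1) := by
  rw [D.gens_lam F D.S0 D.sv D.pm D.td_wt_fun k]
  exact lamJ_B (D.td_ax F) (D.gens_JD D.td_wt_fun k) i

theorem lam_nonneg' (k i : Fin n) : 0 ≤ D.gens.lam (D.dat F D.S0 D.sv D.pm) k i := by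
  unfold Gens.lam
  rw [Finset.sum_apply]
  refine Finset.sum_nonneg fun j _ => ?_
  show 0 ≤ D.wI (D.eN.symm (D.gens.J k j)) i
  have h1 : D.wI (D.eN.symm (D.gens.J k j)) k = D.theta.1 k := (D.gens_mem k _).1 ⟨j, rfl⟩
  have h2 := D.theta_coord k
  rcases h : D.eN.symm (D.gens.J k j) with l | γ
  · rw [h, wI_inl, Pi.zero_apply] at h1
    omega
  · rw [h, wI_inr] at h1
    rw [wI_inr]
    rcases D.pos_or_neg γ with h3 | h3
    · exact h3 i
    · have := h3 k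
      rw [ng_val, Pi.neg_apply, h1] at this
      omega

theorem bigG : BigG F D.S0 D.sv D.pm D.gens where
  A := D.big_ax F
  J_inj := D.gens_inj
  minor k K _ _ g b hb h I := D.gens_minor F D.S0 D.sv D.pm k g b hb h I
  lam_ne k i h := (D.lam_B F k i).1 h
  lam_pos k := (D.lam_B F k k).2 rfl
  lam_nonneg := D.lam_nonneg' F
  top b k I := by
    classical
    let _ : Fintype D.W := Fintype.ofFinite D.W
    obtain ⟨P, h1, h2, -, h4⟩ := exists_top (D.big_ax F) (D.td_ax F) (D.lk F) D.td_he D.hk0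
      D.exists_kW' (D.td_hinv F) (D.dens F) (D.gens_JD D.td_wt_fun k)
      (fun g b hb hu I => D.gens_minor F D.S0 D.sv D.pm k g b hb hu I) b I
    refine ⟨P, h1, ?_, ?_⟩
    · rw [D.gens_lam F D.S0 D.sv D.pm D.td_wt_fun k]; exact h2
    · rw [D.gens_lam F D.S0 D.sv D.pm D.td_wt_fun k]; exact h4

end SLD

section cone
variable {n : ℕ} {D : SLD n} (F : Frm D) (S0 : Set (D.BI → ℂ))
  (sv : D.BI → MvPolynomial (Fin n) ℂ) (pm : Matrix D.BI D.BI (MvPolynomial (Fin n) ℂ))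

theorem cone_big {G : Gens D.N (Fin n)} (B : BigG F S0 sv pm G) :
    ∃ M : ℕ, 0 < M ∧ ∀ μ, (D.dat F S0 sv pm).Dom μ → ∃ c : Fin n → ℕ,
      M • μ = ∑ k, c k • G.lam (D.dat F S0 sv pm) k := by
  classical
  obtain ⟨L, hL⟩ : ∃ L : Fin n → Fin n → ℤ, ∀ i, L i = G.lam (D.dat F S0 sv pm) i :=
    ⟨_, fun _ => rfl⟩
  have hNp : ∀ i, 0 < D.B (L i) (D.al i).1 := fun i => by rw [hL]; exact B.lam_pos i
  have hne : ∀ k i, i ≠ k → D.B (L k) (D.al i).1 = 0 := fun k i h => by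
    rw [hL]; exact B.lam_ne k i h
  obtain ⟨N, hN⟩ : ∃ N : Fin n → ℕ, ∀ i, ((N i : ℕ) : ℤ) = D.B (L i) (D.al i).1 :=
    ⟨fun i => (D.B (L i) (D.al i).1).toNat, fun i => Int.toNat_of_nonneg (hNp i).le⟩
  have hN0 : ∀ i, 0 < N i := fun i => by
    have := hNp i
    rw [← hN] at this
    exact_mod_cast this
  refine ⟨∏ i, N i, Finset.prod_pos fun i _ => hN0 i, fun μ hμ => ?_⟩
  have hd : ∀ i, 0 ≤ D.B μ (D.al i).1 := by
    intro i
    have h := hμ ⟨D.al i, D.pos_al i⟩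
    rw [D.ev_cr] at h
    exact h
  refine ⟨fun k => (∏ i ∈ Finset.univ.erase k, N i) * (D.B μ (D.al k).1).toNat, ?_⟩
  have hc : ∀ k, (((∏ i ∈ Finset.univ.erase k, N i) * (D.B μ (D.al k).1).toNat : ℕ) : ℤ) *
      (N k : ℤ) = ((∏ i, N i : ℕ) : ℤ) * D.B μ (D.al k).1 := by
    intro k
    rw [← Finset.prod_erase_mul Finset.univ N (Finset.mem_univ k)]
    push_cast
    rw [Int.toNat_of_nonneg (hd _)]
    ring
  obtain ⟨c, hcd⟩ : ∃ c : Fin n → ℕ, ∀ k, c k = (∏ i ∈ Finset.univ.erase k, N i) *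
      (D.B μ (D.al k).1).toNat := ⟨_, fun _ => rfl⟩
  have e1 : (fun k => (∏ i ∈ Finset.univ.erase k, N i) * (D.B μ (D.al k).1).toNat) = c :=
    (funext hcd).symm
  simp only [← hcd] at hc ⊢
  rw [← sub_eq_zero, ← natCast_zsmul]
  apply D.B_nondeg
  intro y
  rw [D.B_comm, D.B_coord]
  refine Finset.sum_eq_zero fun j _ => ?_
  have h1 : D.B (D.al j).1 ((((∏ i, N i : ℕ) : ℤ)) • μ - ∑ k, c k • G.lam (D.dat F S0 sv pm) k) =
      0 := by
    have h2 : ∑ k, c k • G.lam (D.dat F S0 sv pm) k = ∑ k, (c k : ℤ) • L k :=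
      Finset.sum_congr rfl fun k _ => by rw [hL, natCast_zsmul]
    rw [h2, D.B_comm, D.B_sub_left, D.B_smul_left, D.B_sum_left, Finset.sum_eq_single j]
    · rw [D.B_smul_left, ← hN, hc, sub_self]
    · intro k _ hk
      rw [D.B_smul_left, hne k j (Ne.symm hk), mul_zero]
    · intro h; exact absurd (Finset.mem_univ j) h
  rw [h1, mul_zero]

theorem gax_big {G : Gens D.N (Fin n)} (B : BigG F S0 sv pm G) :
    GAx (D.dat F S0 sv pm) G where
  J_inj := B.J_inj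
  minor := B.minor
  dom k β := by
    rw [D.ev_cr]
    exact D.dom_pos (Fold.f6d_dom F S0 sv pm B k) β.2
  lpos k := by
    change toLex (0 : Fin n → ℤ) ≤ toLex _
    apply Pi.toLex_monotone
    intro l
    rw [Pi.zero_apply]
    exact B.lam_nonneg k l
  cone := cone_big F S0 sv pm B
  top b k I := by
    obtain ⟨P, h1, h2, h3⟩ := B.top b k I
    exact ⟨P, h1, fun κ hκ => Pi.toLex_monotone fun l => h2 κ hκ l, h3⟩

end cone

end Pool.Agent.MTX
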