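import Pool.Agent.MTX.L11

/-! # MTX, section 7 : the principal sl2 triple and the decomposition `L = [e, L] + ker f`

`D.rv` : `r = 2 C⁻¹ 1`; `D.ff R = - ∑ r_i e_{-α_i}`; `D.Ee`, `D.Ff` : the matrices of `[e, ·]`, `[f, ·]`;
`D.InH k X` : `X` has only components of height `k`; `D.HM m A` : the matrix `A` raises the height
by `m`; `D.pt k X` : the component of height `k`;
`D.rM`, `D.pM` : complex matrices with `Ee rM + pM = 1`, `Ff pM = 0`, `pM Ee = 0`. -/

namespace Pool.Agent.MTX

open Matrix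
open Pool.Agent.MTD (ev ev_add ev_sub ev_neg ev_smul ev_zero ev_add_left ev_sub_left ev_neg_left
  ev_smul_left ev_zero_left ev_sum_left ev_sum ev_map ev_comm)

/-! ### an abstract lemma on sl2 -/

section abs

/-- Let `E, F` be additive maps, `P k` sets (weight spaces) with `F (P k) ⊆ P (k - 1)`,
`E F x = F E x + 2 k x` on `P k`.  If `F` is nilpotent on `x ∈ P k`, `k < 0` and `F E x = 0`,
then `x = 0` (no integral torsion). -/
theorem sl2_inj {V : Type*} [AddCommGroup V] (ht : ∀ (m : ℤ) (v : V), m ≠ 0 → m • v = 0 → v = 0)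
    (E F : V →+ V) (P : ℤ → V → Prop) (hF : ∀ k v, P k v → P (k - 1) (F v))
    (hEF : ∀ k v, P k v → E (F v) = F (E v) + (2 * k) • v) {k : ℤ} (hk : k < 0) {x : V}
    (hx : P k x) (h : F (E x) = 0) (N : ℕ) (hN : F^[N] x = 0) : x = 0 := by
  have h1 : ∀ j : ℕ, P (k - j) (F^[j] x) := by
    intro j
    induction j with
    | zero => simpa using hx
    | succ j ih =>
      rw [Function.iterate_succ_apply']
      have := hF _ _ ih
      rw [show k - ((j + 1 : ℕ) : ℤ) = k - j - 1 by push_cast; ring]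
      exact this
  have h2 : ∀ j : ℕ, E (F^[j + 1] x) = F^[j + 1] (E x) + ((j + 1) * (2 * k - j)) • F^[j] x := by
    intro j
    induction j with
    | zero =>
      simp only [zero_add, Function.iterate_one, Function.iterate_zero, id]
      rw [hEF k x hx]
      congr 2
      push_cast; ring
    | succ j ih =>
      rw [Function.iterate_succ_apply' F (j + 1) x, hEF _ _ (h1 (j + 1)), ih, map_add, map_zsmul,
        ← Function.iterate_succ_apply' F (j + 1) (E x), ← Function.iterate_succ_apply' F j x,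
        add_assoc, ← add_smul]
      congr 2
      push_cast; ring
  have h3 : ∀ j : ℕ, F^[j + 1] (E x) = 0 := by
    intro j
    induction j with
    | zero => simpa using h
    | succ j ih => rw [Function.iterate_succ_apply', ih, map_zero]
  induction N with
  | zero => simpa using hN
  | succ j ih =>
    apply ih
    have h4 := h2 j
    rw [h3, zero_add, hN, map_zero] at h4
    refine ht ((j + 1) * (2 * k - j)) _ ?_ h4.symm
    refine mul_ne_zero (by positivity) ?_
    have : (0 : ℤ) ≤ j := Int.natCast_nonneg j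
    omega

end abs

namespace SLD

variable {n : ℕ} (D : SLD n)

/-! ### homogeneous vectors and matrices -/

section hom
variable {R : Type*} [CommRing R]

/-- only components of height `k` -/
def InH (k : ℤ) (X : D.BI → R) : Prop := ∀ a, X a ≠ 0 → D.hI a = k

/-- raises the height by `m` -/
def HM (m : ℤ) (A : Matrix D.BI D.BI R) : Prop := ∀ a c, A a c ≠ 0 → D.hI a = D.hI c + m

/-- the component of height `k` -/
def pt (k : ℤ) (X : D.BI → R) : D.BI → R := fun a => if D.hI a = k then X a else 0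

variable {D}

theorem inH_pt (k : ℤ) (X : D.BI → R) : D.InH k (D.pt k X) := fun a h => by
  by_contra hne
  exact h (if_neg hne)

theorem InH.pt_eq {k : ℤ} {X : D.BI → R} (h : D.InH k X) : D.pt k X = X := by
  funext a
  unfold pt
  split_ifs with h1
  · rfl
  · by_contra hne
    exact h1 (h a (Ne.symm hne))

theorem InH.pt_ne {k l : ℤ} {X : D.BI → R} (h : D.InH k X) (hkl : k ≠ l) : D.pt l X = 0 := by
  funext a
  unfold pt
  split_ifs with h1
  · by_contra hne
    exact hkl ((h a hne).symm.trans h1)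
  · rfl

theorem InH.zero (k : ℤ) : D.InH k (0 : D.BI → R) := fun a h => absurd rfl h

theorem InH.add {k : ℤ} {X Y : D.BI → R} (hX : D.InH k X) (hY : D.InH k Y) : D.InH k (X + Y) := by
  intro a h
  by_cases h1 : X a = 0
  · refine hY a fun h2 => h ?_
    rw [Pi.add_apply, h1, h2, add_zero]
  · exact hX a h1

theorem InH.neg {k : ℤ} {X : D.BI → R} (hX : D.InH k X) : D.InH k (-X) := by
  intro a h
  refine hX a fun h2 => h ?_
  rw [Pi.neg_apply, h2, neg_zero]

theorem InH.smul {k : ℤ} {X : D.BI → R} (hX : D.InH k X) (r : R) : D.InH k (r • X) := by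
  intro a h
  refine hX a fun h2 => h ?_
  rw [Pi.smul_apply, h2, smul_zero]

theorem InH.sum {κ : Type*} {k : ℤ} (s : Finset κ) (f : κ → D.BI → R) (h : ∀ i ∈ s, D.InH k (f i)) :
    D.InH k (∑ i ∈ s, f i) := by
  classical
  induction s using Finset.induction_on with
  | empty => rw [Finset.sum_empty]; exact InH.zero k
  | insert a s ha ih =>
    rw [Finset.sum_insert ha]
    exact (h a (Finset.mem_insert_self a s)).add
      (ih fun i hi => h i (Finset.mem_insert_of_mem hi))

theorem HM.mulVec {m k : ℤ} {A : Matrix D.BI D.BI R} (hA : D.HM m A) {X : D.BI → R}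
    (hX : D.InH k X) : D.InH (k + m) (A *ᵥ X) := by
  intro a h
  rw [Matrix.mulVec, dotProduct] at h
  obtain ⟨c, -, hc⟩ := Finset.exists_ne_zero_of_sum_ne_zero h
  rw [hA a c (left_ne_zero_of_mul hc), hX c (right_ne_zero_of_mul hc)]

theorem HM.pt {m : ℤ} {A : Matrix D.BI D.BI R} (hA : D.HM m A) (k : ℤ) (X : D.BI → R) :
    A *ᵥ D.pt k X = D.pt (k + m) (A *ᵥ X) := by
  funext a
  simp only [SLD.pt, Matrix.mulVec, dotProduct]
  split_ifs with h
  · refine Finset.sum_congr rfl fun c _ => ?_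
    split_ifs with h1
    · rfl
    · have : A a c = 0 := by
        by_contra hne
        have := hA a c hne
        omega
      rw [this, zero_mul, zero_mul]
  · refine Finset.sum_eq_zero fun c _ => ?_
    split_ifs with h1
    · have : A a c = 0 := by
        by_contra hne
        have := hA a c hne
        omega
      rw [this, zero_mul]
    · rw [mul_zero]

theorem HM.mul {m m' : ℤ} {A B : Matrix D.BI D.BI R} (hA : D.HM m A) (hB : D.HM m' B) :
    D.HM (m + m') (A * B) := by
  intro a c h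
  rw [Matrix.mul_apply] at h
  obtain ⟨b, -, hb⟩ := Finset.exists_ne_zero_of_sum_ne_zero h
  have h1 := hA a b (left_ne_zero_of_mul hb)
  have h2 := hB b c (right_ne_zero_of_mul hb)
  omega

theorem HM.add {m : ℤ} {A B : Matrix D.BI D.BI R} (hA : D.HM m A) (hB : D.HM m B) :
    D.HM m (A + B) := by
  intro a c h
  by_cases h1 : A a c = 0
  · refine hB a c fun h2 => h ?_
    rw [Matrix.add_apply, h1, h2, add_zero]
  · exact hA a c h1

theorem HM.neg {m : ℤ} {A : Matrix D.BI D.BI R} (hA : D.HM m A) : D.HM m (-A) := by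
  intro a c h
  refine hA a c fun h2 => h ?_
  rw [Matrix.neg_apply, h2, neg_zero]

theorem HM.sub {m : ℤ} {A B : Matrix D.BI D.BI R} (hA : D.HM m A) (hB : D.HM m B) :
    D.HM m (A - B) := by
  rw [sub_eq_add_neg]; exact hA.add hB.neg

theorem HM.diag (d : D.BI → R) : D.HM 0 (Matrix.diagonal d) := by
  intro a c h
  by_cases h1 : a = c
  · rw [h1, add_zero]
  · exact absurd (Matrix.diagonal_apply_ne _ h1) h

theorem HM.one : D.HM 0 (1 : Matrix D.BI D.BI R) := by
  rw [← Matrix.diagonal_one]; exact HM.diag _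

theorem InH.ad {m : ℤ} {X : D.BI → R} (hX : D.InH m X) : D.HM m (D.ad X) := by
  intro a c h
  rw [ad_apply] at h
  obtain ⟨b, -, hb⟩ := Finset.exists_ne_zero_of_sum_ne_zero h
  have h1 := hX b (left_ne_zero_of_mul hb)
  have h2 : D.st b c a ≠ 0 := fun h' => right_ne_zero_of_mul hb (by rw [h', Int.cast_zero])
  have := D.st_ht h2
  omega

theorem InH.br {k l : ℤ} {X Y : D.BI → R} (hX : D.InH k X) (hY : D.InH l Y) :
    D.InH (k + l) (D.br X Y) := by
  rw [add_comm]; exact hX.ad.mulVec hY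

variable (D) in
theorem pt_apply (k : ℤ) (X : D.BI → R) (a : D.BI) : D.pt k X a = if D.hI a = k then X a else 0 :=
  rfl

variable (D) in
theorem pt_self (X : D.BI → R) (a : D.BI) : D.pt (D.hI a) X a = X a := if_pos rfl

variable (D) in
theorem pt_add (k : ℤ) (X Y : D.BI → R) : D.pt k (X + Y) = D.pt k X + D.pt k Y := by
  funext a; simp only [pt_apply, Pi.add_apply]; split_ifs <;> simp

variable (D) in
theorem pt_sub (k : ℤ) (X Y : D.BI → R) : D.pt k (X - Y) = D.pt k X - D.pt k Y := by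
  funext a; simp only [pt_apply, Pi.sub_apply]; split_ifs <;> simp

variable (D) in
theorem pt_zero (k : ℤ) : D.pt k (0 : D.BI → R) = 0 := by
  funext a; simp only [pt_apply, Pi.zero_apply]; split_ifs <;> rfl

variable (D) in
/-- a vector all of whose components vanish is `0` -/
theorem eq_zero_of_pt {X : D.BI → R} (h : ∀ k, D.pt k X = 0) : X = 0 := by
  funext a
  rw [← D.pt_self X a, h]

variable (D) in
theorem eq_of_pt {X Y : D.BI → R} (h : ∀ k, D.pt k X = D.pt k Y) : X = Y := by
  funext a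
  rw [← D.pt_self X a, h, D.pt_self Y a]

theorem InH.tt (x : Fin n → R) : D.InH 0 (D.tt x) := by
  intro a h
  rcases a with k | γ
  · exact D.hI_inl k
  · exact absurd rfl h

theorem InH.er (y : Fin n → ℤ) : D.InH (ht y) (D.er R y) := by
  intro a h
  rcases a with k | γ
  · exact absurd rfl h
  · rw [er_inr] at h
    split_ifs at h with h1
    · rw [hI_inr, h1]
    · exact absurd rfl h

theorem InH.eq_tt {X : D.BI → R} (h : D.InH 0 X) : X = D.tt (D.ct X) := by
  funext a
  rcases a with k | γ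
  · rfl
  · rw [tt_inr]
    by_contra hne
    exact D.ht_ne γ (h _ hne)

end hom

/-! ### the triple -/

/-- `r = 2 C⁻¹ 1` -/
noncomputable def rv (i : Fin n) : ℂ := 2 * ∑ j, D.Ci i j

theorem Cc_rv (k : Fin n) : ∑ i, D.Cc k i * D.rv i = 2 := by
  unfold rv
  have h1 : ∑ i, D.Cc k i * (2 * ∑ j, D.Ci i j) = 2 * ∑ j, ∑ i, D.Cc k i * D.Ci i j := by
    rw [Finset.sum_comm, Finset.mul_sum]
    refine Finset.sum_congr rfl fun i _ => ?_
    rw [Finset.mul_sum, Finset.mul_sum, Finset.mul_sum]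
    exact Finset.sum_congr rfl fun j _ => by ring
  rw [h1]
  have h2 : ∀ j, ∑ i, D.Cc k i * D.Ci i j = (1 : Matrix (Fin n) (Fin n) ℂ) k j := by
    intro j
    rw [← D.mul_Ci, Matrix.mul_apply]
  simp only [h2, Matrix.one_apply, Finset.sum_ite_eq, Finset.mem_univ, if_true, mul_one]

section triple
variable (R : Type*) [CommRing R] [Algebra ℂ R]

/-- `f = - ∑ r_i e_{-α_i}` -/
noncomputable def ff : D.BI → R := - ∑ i, algebraMap ℂ R (D.rv i) • D.er R (-(D.al i).1)

omit [Algebra ℂ R] in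
theorem ee_inH : D.InH 1 (D.ee R) := by
  unfold ee
  refine InH.sum _ _ fun i _ => ?_
  have := InH.er (D := D) (R := R) (D.al i).1
  rwa [ht_al] at this

theorem ff_inH : D.InH (-1) (D.ff R) := by
  unfold ff
  refine InH.neg (InH.sum _ _ fun i _ => InH.smul ?_ _)
  have := InH.er (D := D) (R := R) (-(D.al i).1)
  rwa [ht_neg, ht_al] at this

omit [Algebra ℂ R] in
variable {D R} in
theorem al_inj' {i j : Fin n} (h : (D.al i).1 = (D.al j).1) : i = j := by
  have h1 := congrFun h i
  rw [al_val, al_val, Pi.single_eq_same, Pi.single_apply] at h1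
  by_contra hne
  rw [if_neg hne] at h1
  exact one_ne_zero h1

omit [Algebra ℂ R] in
/-- the brackets of simple root vectors with opposite ones -/
theorem br_al_neg (i j : Fin n) : D.br (D.er R (D.al i).1) (D.er R (-(D.al j).1)) =
    if i = j then - D.tt (D.hv R (D.al i).1) else 0 := by
  have h := D.br_er_er (R := R) (D.al i) (D.ng (D.al j))
  rw [ng_val] at h
  rw [h]
  split_ifs with h1 h2 h2
  · rw [h1, er_zero, smul_zero, zero_sub]
  · exfalso
    apply h2
    have h3 : (D.al i).1 = (D.al j).1 := by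
      rwa [← sub_eq_add_neg, sub_eq_zero] at h1
    exact D.al_inj' h3
  · exact absurd (by rw [h2, ← sub_eq_add_neg, sub_self]) h1
  · rw [er_not_root, smul_zero, sub_zero]
    intro h3
    have h4 : D.B (D.al i).1 (-(D.al j).1) = -1 :=
      (D.B_add_root (D.al i) (D.ng (D.al j))).1 h3
    rw [B_neg_right, B_al_al] at h4
    have h5 := D.C_nonpos h2
    omega

/-- `[e, f] = 2 ρ` -/
theorem br_ee_ff : D.br (D.ee R) (D.ff R) = D.tt fun _ => (2 : R) := by
  have h1 : ∀ i, D.br (D.er R (D.al i).1) (∑ j, algebraMap ℂ R (D.rv j) • D.er R (-(D.al j).1)) =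
      - (algebraMap ℂ R (D.rv i) • D.tt (D.hv R (D.al i).1)) := by
    intro i
    rw [br_sum_right, Finset.sum_eq_single i]
    · rw [br_smul_right, br_al_neg, if_pos rfl, smul_neg]
    · intro j _ hj
      rw [br_smul_right, br_al_neg, if_neg (Ne.symm hj), smul_zero]
    · intro h; exact absurd (Finset.mem_univ i) h
  rw [ff, br_neg_right, ee, br_sum_left]
  simp only [h1, Finset.sum_neg_distrib, neg_neg]
  funext a
  rw [Finset.sum_apply]
  rcases a with k | γ
  · simp only [Pi.smul_apply, tt_inl, smul_eq_mul, hv, B_al_al]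
    have h2 := congrArg (algebraMap ℂ R) (D.Cc_rv k)
    rw [map_sum, map_ofNat] at h2
    rw [← h2]
    refine Finset.sum_congr rfl fun i _ => ?_
    rw [map_mul, mul_comm]
    congr 1
    show ((D.C k i : ℤ) : R) = algebraMap ℂ R ((D.C k i : ℤ) : ℂ)
    simp
  · simp

omit [Algebra ℂ R] in
/-- the matrix of `[e, ·]` -/
noncomputable def Ee : Matrix D.BI D.BI R := D.ad (D.ee R)

/-- the matrix of `[f, ·]` -/
noncomputable def Ff : Matrix D.BI D.BI R := D.ad (D.ff R)

omit [Algebra ℂ R] in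
theorem Ee_HM : D.HM 1 (D.Ee R) := (D.ee_inH R).ad
theorem Ff_HM : D.HM (-1) (D.Ff R) := (D.ff_inH R).ad

variable {R}

omit [Algebra ℂ R] in
theorem ev_const (y : Fin n → ℤ) (c : R) : ev y (fun _ => c) = (ht y : R) * c := by
  simp only [ev, ht, Int.cast_sum, Finset.sum_mul]

/-- `[e, [f, X]] = [f, [e, X]] + 2 k X` on height `k` -/
theorem Ee_Ff {k : ℤ} {X : D.BI → R} (hX : D.InH k X) :
    D.Ee R *ᵥ (D.Ff R *ᵥ X) = D.Ff R *ᵥ (D.Ee R *ᵥ X) + (2 * k) • X := by
  have h := D.br_br (D.ee R) (D.ff R) X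
  rw [br_ee_ff] at h
  show D.br (D.ee R) (D.br (D.ff R) X) = D.br (D.ff R) (D.br (D.ee R) X) + _
  rw [h, add_comm]
  congr 1
  funext a
  rw [br_tt, ev_const]
  simp only [Pi.smul_apply, zsmul_eq_mul, Int.cast_mul, Int.cast_ofNat]
  by_cases h0 : X a = 0
  · rw [h0, mul_zero, mul_zero]
  · rw [← hX a h0]
    show ((ht (D.wI a) : ℤ) : R) * 2 * X a = 2 * ((ht (D.wI a) : ℤ) : R) * X a
    ring

theorem tors (m : ℤ) (v : D.BI → R) (hm : m ≠ 0) (h : m • v = 0) : v = 0 := by
  funext a
  have h1 := congrFun h a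
  rw [Pi.smul_apply, zsmul_eq_mul, Pi.zero_apply] at h1
  obtain ⟨u, hu⟩ := isUnit_int (R := R) hm
  rw [← hu] at h1
  rw [Pi.zero_apply]
  simpa using congrArg (fun z => (↑u⁻¹ : R) * z) h1

theorem Ff_iter (X : D.BI → R) : (fun v => D.Ff R *ᵥ v)^[D.N] X = 0 := by
  have h : ∀ j : ℕ, (fun v => D.Ff R *ᵥ v)^[j] X = (D.Ff R ^ j) *ᵥ X := by
    intro j
    induction j with
    | zero => simp
    | succ j ih => rw [Function.iterate_succ_apply', ih, pow_succ', Matrix.mulVec_mulVec]
  rw [h, D.pow_down, Matrix.zero_mulVec]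
  intro a c hac
  have := D.Ff_HM R a c hac
  omega

theorem Ee_iter (X : D.BI → R) : (fun v => D.Ee R *ᵥ v)^[D.N] X = 0 := by
  have h : ∀ j : ℕ, (fun v => D.Ee R *ᵥ v)^[j] X = (D.Ee R ^ j) *ᵥ X := by
    intro j
    induction j with
    | zero => simp
    | succ j ih => rw [Function.iterate_succ_apply', ih, pow_succ', Matrix.mulVec_mulVec]
  rw [h, D.pow_up, Matrix.zero_mulVec]
  intro a c hac
  have := D.Ee_HM R a c hac
  omega

/-- `f e` is injective on negative heights -/
theorem fe_inj {k : ℤ} (hk : k < 0) {X : D.BI → R} (hX : D.InH k X)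
    (h : D.Ff R *ᵥ (D.Ee R *ᵥ X) = 0) : X = 0 :=
  sl2_inj (V := D.BI → R) D.tors (D.Ee R).mulVecLin.toAddMonoidHom
    (D.Ff R).mulVecLin.toAddMonoidHom (fun k X => D.InH k X)
    (fun _ _ h => (D.Ff_HM R).mulVec h) (fun _ _ h => D.Ee_Ff h) hk hX h D.N (D.Ff_iter X)

/-- `e f` is injective on positive heights -/
theorem ef_inj {k : ℤ} (hk : 0 < k) {X : D.BI → R} (hX : D.InH k X)
    (h : D.Ee R *ᵥ (D.Ff R *ᵥ X) = 0) : X = 0 := by
  refine sl2_inj (V := D.BI → R) D.tors (D.Ff R).mulVecLin.toAddMonoidHom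
    (D.Ee R).mulVecLin.toAddMonoidHom (fun k X => D.InH (-k) X) ?_ ?_ (k := -k) (by omega)
    (by rw [neg_neg]; exact hX) h D.N (D.Ee_iter X)
  · intro k X h
    have := (D.Ee_HM R).mulVec h
    rw [show -(k - 1) = -k + 1 by ring]; exact this
  · intro k X h
    have := D.Ee_Ff h
    show D.Ff R *ᵥ (D.Ee R *ᵥ X) = D.Ee R *ᵥ (D.Ff R *ᵥ X) + _
    rw [this, add_assoc, ← add_smul, show 2 * -k + 2 * k = 0 by ring, zero_smul, add_zero]

/-- `e` is injective on negative heights -/
theorem e_inj {k : ℤ} (hk : k < 0) {X : D.BI → R} (hX : D.InH k X) (h : D.Ee R *ᵥ X = 0) :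
    X = 0 := D.fe_inj hk hX (by rw [h, Matrix.mulVec_zero])

/-- `f` is injective on positive heights -/
theorem f_inj {k : ℤ} (hk : 0 < k) {X : D.BI → R} (hX : D.InH k X) (h : D.Ff R *ᵥ X = 0) :
    X = 0 := D.ef_inj hk hX (by rw [h, Matrix.mulVec_zero])

end triple

/-- `r_i ≠ 0`: otherwise `[f, e_{α_i}] = 0` -/
theorem rv_ne (i : Fin n) : D.rv i ≠ 0 := by
  intro h0
  have h1 : D.Ff ℂ *ᵥ D.er ℂ (D.al i).1 = 0 := by
    show D.br (D.ff ℂ) (D.er ℂ (D.al i).1) = 0
    rw [br_anti, ff, br_neg_right, neg_neg, br_sum_right]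
    refine Finset.sum_eq_zero fun j _ => ?_
    rw [br_smul_right, br_al_neg]
    split_ifs with h
    · rw [← h, h0, map_zero, zero_smul]
    · rw [smul_zero]
  have h2 : D.InH 1 (D.er ℂ (D.al i).1) := by
    have := InH.er (D := D) (R := ℂ) (D.al i).1
    rwa [ht_al] at this
  have h3 := congrFun (D.f_inj one_pos h2 h1) (Sum.inr (D.al i))
  rw [er_inr, if_pos rfl] at h3
  exact one_ne_zero h3

section
variable {R : Type*} [CommRing R] [Algebra ℂ R]

/-- the kernel of `f` is graded -/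
theorem ker_pt {v : D.BI → R} (h : D.Ff R *ᵥ v = 0) (k : ℤ) : D.Ff R *ᵥ D.pt k v = 0 := by
  rw [(D.Ff_HM R).pt, h, pt_zero]

/-- `[f, x]` for `x` in the Cartan subalgebra -/
theorem Ff_tt (x : Fin n → R) (i : Fin n) :
    (D.Ff R *ᵥ D.tt x) (Sum.inr (D.ng (D.al i))) = - (algebraMap ℂ R (D.rv i) * x i) := by
  show D.br (D.ff R) (D.tt x) _ = _
  rw [ff, br_neg_left, br_sum_left, Pi.neg_apply, Finset.sum_apply, Finset.sum_eq_single i]
  · rw [br_smul_left, br_er_tt, Pi.smul_apply, Pi.neg_apply, Pi.smul_apply, er_inr, ng_val,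
      if_pos rfl, ev_neg_left, ev_al]
    simp
  · intro j _ hj
    rw [br_smul_left, br_er_tt, Pi.smul_apply, Pi.neg_apply, Pi.smul_apply, er_inr, ng_val,
      if_neg]
    · simp
    · intro h
      exact hj (al_inj' (neg_injective h)).symm
  · intro h; exact absurd (Finset.mem_univ i) h

/-- the kernel of `f` has only negative heights -/
theorem ker_neg {v : D.BI → R} (h : D.Ff R *ᵥ v = 0) (a : D.BI) (ha : v a ≠ 0) : D.hI a < 0 := by
  by_contra hcon
  rcases (not_lt.1 hcon).lt_or_eq with h1 | h1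
  · have h2 := D.f_inj h1 (inH_pt _ v) (D.ker_pt h (D.hI a))
    rw [← D.pt_self v a, h2] at ha
    exact ha rfl
  · have h2 := D.ker_pt h (D.hI a)
    rw [← h1] at h2
    have h3 := (inH_pt (D := D) 0 v).eq_tt
    rw [h3] at h2
    obtain ⟨k, rfl⟩ := D.hI_eq_zero h1.symm
    have h4 := D.Ff_tt (D.ct (D.pt 0 v)) k
    rw [h2, Pi.zero_apply, ct_apply, pt_apply, if_pos (D.hI_inl k)] at h4
    have h5 : algebraMap ℂ R (D.rv k) * v (Sum.inl k) = 0 := neg_eq_zero.1 h4.symm
    have h6 : IsUnit (algebraMap ℂ R (D.rv k)) := (isUnit_iff_ne_zero.2 (D.rv_ne k)).map _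
    exact ha ((h6.mul_right_eq_zero).1 h5)

end

end SLD

end Pool.Agent.MTX
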