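import Pool.Agent.MTX.K9

/-! # MTX, section 7 : (7.7), density -/

namespace Pool.Agent.MTX

open Matrix Topology Filter
open Pool.Agent.MTD (ev ev_add ev_sub ev_neg ev_smul ev_zero ev_add_left ev_sub_left ev_neg_left
  ev_smul_left ev_zero_left ev_sum_left ev_sum ev_map ev_comm)
open Pool.Agent.MP_c45d35_ag (chi chi_add chi_mul chi_zero chi_one chi_inv chi_map)

namespace SLD

variable {n : ℕ} (D : SLD n)

/-- conjugate slice elements, one of them regular, are equal -/
theorem conj_eq (F : Frm D) {K : Type*} [Field K] [Algebra ℂ K] {g : Matrix D.BI D.BI K}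
    (hg : IsGp F g) {x x' : Fin n → K} (hx : ∀ γ : D.Rt, ev γ.1 x ≠ 0)
    (h : g *ᵥ D.svK x' = D.svK x) : D.svK x' = D.svK x := by
  have h1 : (D.ad (D.svK x')).charpoly = (D.ad (D.svK x)).charpoly := by
    have h2 := hg.ad' (D.svK x')
    rw [h] at h2
    rw [h2, Matrix.charpoly_mul_comm, ← Matrix.mul_assoc, hg.inv_mul, Matrix.one_mul]
  have hx' : ∀ γ : D.Rt, ev γ.1 x' ≠ 0 := by
    intro γ
    rw [charpoly_svK, charpoly_svK, prod_BI, prod_BI] at h1
    have h2 := mul_left_cancel₀ (pow_ne_zero n Polynomial.X_ne_zero) h1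
    have h3 := congrArg (Polynomial.eval 0) h2
    simp only [Polynomial.eval_prod, Polynomial.eval_sub, Polynomial.eval_X, Polynomial.eval_C,
      zero_sub] at h3
    have h4 : ∏ γ : D.Rt, - ev γ.1 x ≠ 0 :=
      Finset.prod_ne_zero_iff.2 fun γ _ => neg_ne_zero.2 (hx γ)
    rw [← h3] at h4
    exact neg_ne_zero.1 (Finset.prod_ne_zero_iff.1 h4 γ (Finset.mem_univ _))
  obtain ⟨b, hb, -, hb2⟩ := D.exists_diag hx (w := D.ee K) fun a ha => D.ee_supp a ha
  obtain ⟨b', hb', -, hb'2⟩ := D.exists_diag hx' (w := D.ee K) fun a ha => D.ee_supp a ha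
  have hg2 : IsGp F (b * ((D.pmK x)⁻¹ * (g * (D.pmK x' * b'⁻¹)))) :=
    (hb F).mul ((D.pmK_G F x).inv.mul (hg.mul ((D.pmK_G F x').mul (hb' F).inv)))
  have h2 : (b * ((D.pmK x)⁻¹ * (g * (D.pmK x' * b'⁻¹)))) *ᵥ D.tt x' = D.tt x := by
    rw [← Matrix.mulVec_mulVec, ← Matrix.mulVec_mulVec, ← Matrix.mulVec_mulVec,
      ← Matrix.mulVec_mulVec]
    have e1 : b'⁻¹ *ᵥ D.tt x' = D.ee K + D.tt x' := by
      have e0 := congrArg (fun w => b'⁻¹ *ᵥ w) hb'2
      simp only [Matrix.mulVec_mulVec, (hb' F).inv_mul, Matrix.one_mulVec] at e0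
      rw [← e0, add_comm]
    have e2 : (D.pmK x)⁻¹ *ᵥ D.svK x = D.ee K + D.tt x := by
      rw [← pmK_conj, Matrix.mulVec_mulVec, (D.pmK_BrU x).inv_mul, Matrix.one_mulVec]
    rw [e1, pmK_conj, h, e2, add_comm, hb2]
  obtain ⟨u, hu, h3⟩ := hg2.exists_W hx' h2
  have h4 : x = D.tact u x' := D.tt_inj (h2.symm.trans (h3 x'))
  rw [h4, D.svK_W hu]

/-! ### a chart of the group at `1` -/

/-- one-parameter subgroups -/
noncomputable def c1 : D.BI → ℂ → Matrix D.BI D.BI ℂ
  | Sum.inl k, t => Matrix.diagonal fun a => Complex.exp (((D.wI a k : ℤ) : ℂ) * t)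
  | Sum.inr γ, t => D.expB (t • D.ad (D.er ℂ γ.1))

theorem c1_G (F : Frm D) (a : D.BI) (t : ℂ) : IsGp F (D.c1 a t) := by
  rcases a with k | γ
  · have h : D.c1 (Sum.inl k) t = D.TB (fun l => if l = k then
        Units.mk0 (Complex.exp t) (Complex.exp_ne_zero t) else 1) := by
      show Matrix.diagonal _ = Matrix.diagonal _
      congr 1
      funext a
      have h1 : chi (D.wI a) (fun l => if l = k then
          Units.mk0 (Complex.exp t) (Complex.exp_ne_zero t) else 1) =
          Units.mk0 (Complex.exp t) (Complex.exp_ne_zero t) ^ (D.wI a k) := by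
        unfold chi
        rw [Finset.prod_eq_single k]
        · simp
        · intro l _ hl
          simp [hl]
        · intro h; exact absurd (Finset.mem_univ k) h
      rw [h1, Units.val_zpow_eq_zpow_val, Units.val_mk0, ← Complex.exp_int_mul]
    rw [h]
    exact D.isGp_TB F _
  · exact D.isGp_exp_root F γ t

theorem c1_zero (a : D.BI) : D.c1 a 0 = 1 := by
  rcases a with k | γ
  · show Matrix.diagonal _ = 1
    simp only [mul_zero, Complex.exp_zero, Matrix.diagonal_one]
  · show D.expB ((0 : ℂ) • D.ad (D.er ℂ γ.1)) = 1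
    rw [zero_smul]
    unfold expB
    obtain ⟨m, hm⟩ : ∃ m, D.N = m + 1 := ⟨D.N - 1, by have := D.N_pos; omega⟩
    rw [hm, Finset.sum_range_succ']
    simp

/-- the derivative of a one-parameter subgroup at `0`, entrywise -/
theorem c1_deriv (a i j : D.BI) :
    HasStrictDerivAt (fun t => D.c1 a t i j) (D.ad (Pi.single a (1 : ℂ)) i j) 0 := by
  rcases a with k | γ
  · rw [← tt_single, ad_tt]
    by_cases hij : i = j
    · subst hij
      rw [Matrix.diagonal_apply_eq]
      have h1 : (fun t => D.c1 (Sum.inl k) t i i) =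
          fun t => Complex.exp (((D.wI i k : ℤ) : ℂ) * t) := by
        funext t
        show Matrix.diagonal _ i i = _
        rw [Matrix.diagonal_apply_eq]
      rw [h1]
      have h2 : HasStrictDerivAt (fun t : ℂ => ((D.wI i k : ℤ) : ℂ) * t) ((D.wI i k : ℤ) : ℂ) 0 := by
        simpa using (hasStrictDerivAt_id (0 : ℂ)).const_mul ((D.wI i k : ℤ) : ℂ)
      have h3 := h2.cexp
      have h4 : ev (D.wI i) (Pi.single k 1 : Fin n → ℂ) = ((D.wI i k : ℤ) : ℂ) := by
        simp [ev, Pi.single_apply]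
      rw [h4]
      simpa using h3
    · rw [Matrix.diagonal_apply_ne _ hij]
      have h1 : (fun t => D.c1 (Sum.inl k) t i j) = fun _ => 0 := by
        funext t
        show Matrix.diagonal _ i j = _
        rw [Matrix.diagonal_apply_ne _ hij]
      rw [h1]
      exact hasStrictDerivAt_const _ _
  · obtain ⟨M, hM⟩ : ∃ M, M = D.ad (D.er ℂ γ.1) := ⟨_, rfl⟩
    rw [← er_root, ← hM]
    let p : Polynomial ℂ := ∑ k ∈ Finset.range D.N,
      Polynomial.C ((1 / (k.factorial : ℂ)) * (M ^ k) i j) * Polynomial.X ^ k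
    have h1 : (fun t => D.c1 (Sum.inr γ) t i j) = fun t => p.eval t := by
      funext t
      show D.expB (t • D.ad (D.er ℂ γ.1)) i j = _
      rw [← hM]
      simp only [expB, p, Matrix.sum_apply, Polynomial.eval_finsetSum, Polynomial.eval_mul,
        Polynomial.eval_C, Polynomial.eval_pow, Polynomial.eval_X, Matrix.smul_apply, smul_pow,
        smul_eq_mul, Algebra.algebraMap_self, RingHom.id_apply]
      exact Finset.sum_congr rfl fun k _ => by ring
    rw [h1]
    have h2 := p.hasStrictDerivAt (0 : ℂ)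
    have h3 : p.derivative.eval 0 = M i j := by
      rw [← Polynomial.coeff_zero_eq_eval_zero, Polynomial.coeff_derivative]
      simp only [p, Polynomial.finsetSum_coeff, Polynomial.coeff_C_mul, Polynomial.coeff_X_pow]
      rw [Finset.sum_eq_single 1]
      · simp
      · intro k _ hk
        rw [if_neg (by omega), mul_zero]
      · intro h
        have := D.two_le_N
        exact absurd (Finset.mem_range.2 (by omega)) h
    rw [h3] at h2
    exact h2

/-- the chart along a list of indices -/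
noncomputable def cl (l : List D.BI) (y : D.BI → ℂ) : Matrix D.BI D.BI ℂ :=
  (l.map fun a => D.c1 a (y a)).prod

theorem cl_G (F : Frm D) (l : List D.BI) (y : D.BI → ℂ) : IsGp F (D.cl l y) := by
  induction l with
  | nil => exact IsGp.one
  | cons a l ih =>
    show IsGp F (((a :: l).map fun a => D.c1 a (y a)).prod)
    rw [List.map_cons, List.prod_cons]
    exact (D.c1_G F a _).mul ih

theorem cl_zero (l : List D.BI) : D.cl l 0 = 1 := by
  induction l with
  | nil => rfl
  | cons a l ih =>
    show (((a :: l).map fun a => D.c1 a ((0 : D.BI → ℂ) a)).prod) = 1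
    rw [List.map_cons, List.prod_cons]
    have h : (l.map fun a => D.c1 a ((0 : D.BI → ℂ) a)).prod = 1 := ih
    rw [h, Pi.zero_apply, c1_zero, mul_one]

/-- the derivative of the chart, entrywise -/
noncomputable def dl (l : List D.BI) (i j : D.BI) : (D.BI → ℂ) →L[ℂ] ℂ :=
  (l.map fun a => (D.ad (Pi.single a (1 : ℂ)) i j) •
    (ContinuousLinearMap.proj a : (D.BI → ℂ) →L[ℂ] ℂ)).sum

theorem cl_deriv (l : List D.BI) (i j : D.BI) :
    HasStrictFDerivAt (fun y => D.cl l y i j) (D.dl l i j) 0 := by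
  induction l generalizing i j with
  | nil => exact hasStrictFDerivAt_const _ _
  | cons a l ih =>
    have h1 : (fun y => D.cl (a :: l) y i j) =
        fun y => ∑ k, D.c1 a (y a) i k * D.cl l y k j := by
      funext y
      show (((a :: l).map fun a => D.c1 a (y a)).prod) i j = _
      rw [List.map_cons, List.prod_cons, Matrix.mul_apply]
      rfl
    have h2 : ∀ k, HasStrictFDerivAt (fun y : D.BI → ℂ => D.c1 a (y a) i k)
        ((D.ad (Pi.single a (1 : ℂ)) i k) • (ContinuousLinearMap.proj a : (D.BI → ℂ) →L[ℂ] ℂ)) 0 := by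
      intro k
      have e1 := (ContinuousLinearMap.proj a : (D.BI → ℂ) →L[ℂ] ℂ).hasStrictFDerivAt
        (x := (0 : D.BI → ℂ))
      have e2 := D.c1_deriv a i k
      exact HasStrictDerivAt.comp_hasStrictFDerivAt (h₂ := fun t => D.c1 a t i k)
        (f := fun y : D.BI → ℂ => y a) 0 (by simpa using e2) e1
    have h3 : HasStrictFDerivAt (fun y => ∑ k, D.c1 a (y a) i k * D.cl l y k j)
        (∑ k, (D.c1 a ((0 : D.BI → ℂ) a) i k • D.dl l k j + D.cl l 0 k j •
          ((D.ad (Pi.single a (1 : ℂ)) i k) • (ContinuousLinearMap.proj a : (D.BI → ℂ) →L[ℂ] ℂ)))) 0 :=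
      HasStrictFDerivAt.fun_sum fun k _ => (h2 k).mul (ih k j)
    rw [h1]
    convert h3 using 1
    rw [Pi.zero_apply, c1_zero, cl_zero]
    ext y
    simp only [Matrix.one_apply, _root_.sum_apply, _root_.add_apply,
      _root_.smul_apply, ite_smul, one_smul, zero_smul, smul_eq_mul]
    rw [Finset.sum_add_distrib]
    simp only [dl, List.map_cons, List.sum_cons, _root_.add_apply]
    rw [add_comm]
    congr 1
    · rw [Finset.sum_eq_single i]
      · simp [dl]
      · intro k _ hk
        simp [Ne.symm hk]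
      · intro h; exact absurd (Finset.mem_univ i) h
    · rw [Finset.sum_eq_single j]
      · simp
      · intro k _ hk
        simp [hk]
      · intro h; exact absurd (Finset.mem_univ j) h

end SLD

end Pool.Agent.MTX
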