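import Pool.Agent.MTX.K1

/-! # MTX, section 7 : the decomposition `L = [e, L] + ker f` -/

namespace Pool.Agent.MTX

open Matrix
open Pool.Agent.MTD (ev ev_add ev_sub ev_neg ev_smul ev_zero ev_add_left ev_sub_left ev_neg_left
  ev_smul_left ev_zero_left ev_sum_left ev_sum ev_map ev_comm)

namespace SLD

variable {n : ℕ} (D : SLD n)

section
variable {R : Type*} [CommRing R]

theorem inH_single (a : D.BI) (r : R) : D.InH (D.hI a) (Pi.single a r : D.BI → R) := by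
  intro c h
  by_cases h1 : c = a
  · rw [h1]
  · exact absurd (Pi.single_eq_of_ne h1 _) h

/-- matrices agreeing on homogeneous vectors are equal -/
theorem mat_ext {A B : Matrix D.BI D.BI R} (h : ∀ k X, D.InH k X → A *ᵥ X = B *ᵥ X) : A = B :=
  Matrix.ext_of_mulVec_single fun a => h _ _ (D.inH_single a 1)

theorem HM.of_vec {m : ℤ} {A : Matrix D.BI D.BI R}
    (h : ∀ k X, D.InH k X → D.InH (k + m) (A *ᵥ X)) : D.HM m A := by
  intro a c hac
  refine h _ _ (D.inH_single c 1) a ?_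
  rw [Matrix.mulVec_single_one]
  exact hac

end

/-- projector onto the negative heights -/
def Qn : Matrix D.BI D.BI ℂ := Matrix.diagonal fun a => if D.hI a < 0 then 1 else 0

/-- projector onto the positive heights -/
def Qp : Matrix D.BI D.BI ℂ := Matrix.diagonal fun a => if 0 < D.hI a then 1 else 0

theorem Qn_vec {k : ℤ} {X : D.BI → ℂ} (hX : D.InH k X) : D.Qn *ᵥ X = if k < 0 then X else 0 := by
  funext a
  rw [Qn, Matrix.mulVec_diagonal]
  by_cases h0 : X a = 0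
  · rw [h0, mul_zero]; split_ifs <;> simp [h0]
  · rw [hX a h0]; split_ifs <;> simp

theorem Qp_vec {k : ℤ} {X : D.BI → ℂ} (hX : D.InH k X) : D.Qp *ᵥ X = if 0 < k then X else 0 := by
  funext a
  rw [Qp, Matrix.mulVec_diagonal]
  by_cases h0 : X a = 0
  · rw [h0, mul_zero]; split_ifs <;> simp [h0]
  · rw [hX a h0]; split_ifs <;> simp

noncomputable def M1 : Matrix D.BI D.BI ℂ := D.Ff ℂ * D.Ee ℂ * D.Qn + (1 - D.Qn)
noncomputable def M2 : Matrix D.BI D.BI ℂ := D.Ee ℂ * D.Ff ℂ * D.Qp + (1 - D.Qp)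

theorem M1_HM : D.HM 0 D.M1 := by
  have h1 := ((D.Ff_HM ℂ).mul (D.Ee_HM ℂ)).mul (HM.diag (D := D) (R := ℂ)
    fun a => if D.hI a < 0 then 1 else 0)
  exact HM.add h1 (HM.one.sub (HM.diag _))

theorem M2_HM : D.HM 0 D.M2 := by
  have h1 := ((D.Ee_HM ℂ).mul (D.Ff_HM ℂ)).mul (HM.diag (D := D) (R := ℂ)
    fun a => if 0 < D.hI a then 1 else 0)
  exact HM.add h1 (HM.one.sub (HM.diag _))

theorem M1_vec {k : ℤ} {X : D.BI → ℂ} (hX : D.InH k X) :
    D.M1 *ᵥ X = if k < 0 then D.Ff ℂ *ᵥ (D.Ee ℂ *ᵥ X) else X := by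
  rw [M1, Matrix.add_mulVec, Matrix.sub_mulVec, Matrix.one_mulVec, ← Matrix.mulVec_mulVec,
    ← Matrix.mulVec_mulVec, D.Qn_vec hX]
  split_ifs <;> simp

theorem M2_vec {k : ℤ} {X : D.BI → ℂ} (hX : D.InH k X) :
    D.M2 *ᵥ X = if 0 < k then D.Ee ℂ *ᵥ (D.Ff ℂ *ᵥ X) else X := by
  rw [M2, Matrix.add_mulVec, Matrix.sub_mulVec, Matrix.one_mulVec, ← Matrix.mulVec_mulVec,
    ← Matrix.mulVec_mulVec, D.Qp_vec hX]
  split_ifs <;> simp

theorem unit_of_ker {M : Matrix D.BI D.BI ℂ} (h : ∀ v, M *ᵥ v = 0 → v = 0) : IsUnit M := by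
  rw [← Matrix.mulVec_injective_iff_isUnit]
  intro v w hvw
  have h1 : M *ᵥ (v - w) = 0 := by rw [Matrix.mulVec_sub, hvw, sub_self]
  exact sub_eq_zero.1 (h _ h1)

theorem M1_unit : IsUnit D.M1 := by
  refine D.unit_of_ker fun v h => D.eq_zero_of_pt fun k => ?_
  have h1 := D.M1_HM.pt k v
  rw [h, add_zero, pt_zero, D.M1_vec (inH_pt k v)] at h1
  split_ifs at h1 with h2
  · exact D.fe_inj h2 (inH_pt k v) h1
  · exact h1

theorem M2_unit : IsUnit D.M2 := by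
  refine D.unit_of_ker fun v h => D.eq_zero_of_pt fun k => ?_
  have h1 := D.M2_HM.pt k v
  rw [h, add_zero, pt_zero, D.M2_vec (inH_pt k v)] at h1
  split_ifs at h1 with h2
  · exact D.ef_inj h2 (inH_pt k v) h1
  · exact h1

theorem inv_HM {M : Matrix D.BI D.BI ℂ} (hM : D.HM 0 M) (hu : IsUnit M) : D.HM 0 M⁻¹ := by
  have hd : IsUnit M.det := (Matrix.isUnit_iff_isUnit_det M).1 hu
  refine HM.of_vec D fun k X hX => ?_
  rw [add_zero]
  have h1 := hM.pt k (M⁻¹ *ᵥ X)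
  rw [Matrix.mulVec_mulVec, Matrix.mul_nonsing_inv _ hd, Matrix.one_mulVec, add_zero,
    hX.pt_eq] at h1
  have h2 := congrArg (fun v => M⁻¹ *ᵥ v) h1
  simp only [Matrix.mulVec_mulVec, Matrix.nonsing_inv_mul _ hd, Matrix.one_mulVec] at h2
  rw [← h2]
  exact inH_pt _ _

/-- a right inverse of `[e, ·]` modulo `ker f` -/
noncomputable def rM : Matrix D.BI D.BI ℂ :=
  D.M1⁻¹ * D.Ff ℂ * (1 - D.Qp) + D.Ff ℂ * D.M2⁻¹ * D.Qp

/-- the projector onto `ker f` along `[e, L]` -/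
noncomputable def pM : Matrix D.BI D.BI ℂ := 1 - D.Ee ℂ * D.rM

theorem rM_HM : D.HM (-1) D.rM := by
  have h1 := ((D.inv_HM D.M1_HM D.M1_unit).mul (D.Ff_HM ℂ)).mul
    ((HM.one (D := D) (R := ℂ)).sub (HM.diag (D := D) (R := ℂ)
      fun a => if 0 < D.hI a then 1 else 0))
  have h2 := ((D.Ff_HM ℂ).mul (D.inv_HM D.M2_HM D.M2_unit)).mul
    (HM.diag (D := D) (R := ℂ) fun a => if 0 < D.hI a then 1 else 0)
  exact HM.add h1 h2

theorem pM_HM : D.HM 0 D.pM := by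
  have := (D.Ee_HM ℂ).mul D.rM_HM
  exact HM.sub HM.one this

theorem rM_neg {k : ℤ} (hk : k ≤ 0) {X : D.BI → ℂ} (hX : D.InH k X) :
    D.rM *ᵥ X = D.M1⁻¹ *ᵥ (D.Ff ℂ *ᵥ X) := by
  rw [rM, Matrix.add_mulVec, ← Matrix.mulVec_mulVec, ← Matrix.mulVec_mulVec,
    ← Matrix.mulVec_mulVec, ← Matrix.mulVec_mulVec, Matrix.sub_mulVec, Matrix.one_mulVec,
    D.Qp_vec hX, if_neg (not_lt.2 hk), sub_zero, Matrix.mulVec_zero, Matrix.mulVec_zero, add_zero]

theorem rM_pos {k : ℤ} (hk : 0 < k) {X : D.BI → ℂ} (hX : D.InH k X) :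
    D.rM *ᵥ X = D.Ff ℂ *ᵥ (D.M2⁻¹ *ᵥ X) := by
  rw [rM, Matrix.add_mulVec, ← Matrix.mulVec_mulVec, ← Matrix.mulVec_mulVec,
    ← Matrix.mulVec_mulVec, ← Matrix.mulVec_mulVec, Matrix.sub_mulVec, Matrix.one_mulVec,
    D.Qp_vec hX, if_pos hk, sub_self, Matrix.mulVec_zero, Matrix.mulVec_zero, zero_add]

theorem pM_pos {k : ℤ} (hk : 0 < k) {X : D.BI → ℂ} (hX : D.InH k X) : D.pM *ᵥ X = 0 := by
  have hd : IsUnit D.M2.det := (Matrix.isUnit_iff_isUnit_det _).1 D.M2_unit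
  rw [pM, Matrix.sub_mulVec, Matrix.one_mulVec, ← Matrix.mulVec_mulVec, D.rM_pos hk hX]
  have h1 : D.InH k (D.M2⁻¹ *ᵥ X) := by
    have := (D.inv_HM D.M2_HM D.M2_unit).mulVec hX
    rwa [add_zero] at this
  have h2 := D.M2_vec h1
  rw [if_pos hk, Matrix.mulVec_mulVec, Matrix.mul_nonsing_inv _ hd, Matrix.one_mulVec] at h2
  rw [← h2, sub_self]

theorem Ff_pM : D.Ff ℂ * D.pM = 0 := by
  have hd : IsUnit D.M1.det := (Matrix.isUnit_iff_isUnit_det _).1 D.M1_unit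
  refine D.mat_ext fun k X hX => ?_
  rw [← Matrix.mulVec_mulVec, Matrix.zero_mulVec]
  rcases le_or_gt k 0 with hk | hk
  · rw [pM, Matrix.sub_mulVec, Matrix.one_mulVec, ← Matrix.mulVec_mulVec, D.rM_neg hk hX,
      Matrix.mulVec_sub]
    have h0 := (D.Ff_HM ℂ).mulVec hX
    have h1 := (D.inv_HM D.M1_HM D.M1_unit).mulVec h0
    rw [add_zero] at h1
    have h2 := D.M1_vec h1
    rw [if_pos (by omega), Matrix.mulVec_mulVec, Matrix.mul_nonsing_inv _ hd,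
      Matrix.one_mulVec] at h2
    rw [← h2, sub_self]
  · rw [D.pM_pos hk hX, Matrix.mulVec_zero]

theorem pM_Ee : D.pM * D.Ee ℂ = 0 := by
  have hd : IsUnit D.M1.det := (Matrix.isUnit_iff_isUnit_det _).1 D.M1_unit
  refine D.mat_ext fun k X hX => ?_
  rw [← Matrix.mulVec_mulVec, Matrix.zero_mulVec]
  have h0 := (D.Ee_HM ℂ).mulVec hX
  rcases lt_or_ge k 0 with hk | hk
  · rw [pM, Matrix.sub_mulVec, Matrix.one_mulVec, ← Matrix.mulVec_mulVec,
      D.rM_neg (by omega) h0]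
    have h2 := D.M1_vec hX
    rw [if_pos hk] at h2
    have h3 : D.M1⁻¹ *ᵥ (D.M1 *ᵥ X) = X := by
      rw [Matrix.mulVec_mulVec, Matrix.nonsing_inv_mul _ hd, Matrix.one_mulVec]
    rw [← h2, h3, sub_self]
  · exact D.pM_pos (by omega) h0

/-! ### over an algebra -/

section
variable (R : Type*) [CommRing R] [Algebra ℂ R]

/-- `rM` over `R` -/
noncomputable def rR : Matrix D.BI D.BI R := D.rM.map (algebraMap ℂ R)
/-- `pM` over `R` -/
noncomputable def pR : Matrix D.BI D.BI R := D.pM.map (algebraMap ℂ R)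

theorem er_map (y : Fin n → ℤ) (a : D.BI) : algebraMap ℂ R (D.er ℂ y a) = D.er R y a := by
  rcases a with k | γ
  · simp
  · rw [er_inr, er_inr]; split_ifs <;> simp

theorem ee_map (a : D.BI) : algebraMap ℂ R (D.ee ℂ a) = D.ee R a := by
  simp only [ee, Finset.sum_apply, map_sum, er_map]

theorem ff_map (a : D.BI) : algebraMap ℂ R (D.ff ℂ a) = D.ff R a := by
  simp only [ff, Pi.neg_apply, Finset.sum_apply, map_neg, map_sum, Pi.smul_apply, smul_eq_mul,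
    map_mul, er_map, Algebra.algebraMap_self, RingHom.id_apply]

theorem Ee_map : (D.Ee ℂ).map (algebraMap ℂ R) = D.Ee R := by
  rw [Ee, ad_map, Ee]
  congr 1
  funext a
  exact D.ee_map R a

theorem Ff_map : (D.Ff ℂ).map (algebraMap ℂ R) = D.Ff R := by
  rw [Ff, ad_map, Ff]
  congr 1
  funext a
  exact D.ff_map R a

theorem HM.map {m : ℤ} {A : Matrix D.BI D.BI ℂ} (hA : D.HM m A) :
    D.HM m (A.map (algebraMap ℂ R)) := by
  intro a c h
  refine hA a c fun h1 => h ?_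
  rw [Matrix.map_apply, h1, map_zero]

theorem rR_HM : D.HM (-1) (D.rR R) := HM.map D R D.rM_HM
theorem pR_HM : D.HM 0 (D.pR R) := HM.map D R D.pM_HM

theorem Ee_rR : D.Ee R * D.rR R + D.pR R = 1 := by
  have h : D.Ee ℂ * D.rM + D.pM = 1 := by rw [pM]; abel
  have h1 := congrArg (fun M : Matrix D.BI D.BI ℂ => M.map (algebraMap ℂ R)) h
  simp only [Matrix.map_add _ (map_add (algebraMap ℂ R)), Matrix.map_mul] at h1
  rw [Ee_map] at h1
  rw [rR, pR, h1]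
  exact Matrix.map_one _ (map_zero _) (map_one _)

theorem Ff_pR : D.Ff R * D.pR R = 0 := by
  have h1 := congrArg (fun M : Matrix D.BI D.BI ℂ => M.map (algebraMap ℂ R)) D.Ff_pM
  simp only [Matrix.map_mul] at h1
  rw [Ff_map] at h1
  rw [pR, h1]
  exact Matrix.map_zero _ (map_zero _)

theorem pR_Ee : D.pR R * D.Ee R = 0 := by
  have h1 := congrArg (fun M : Matrix D.BI D.BI ℂ => M.map (algebraMap ℂ R)) D.pM_Ee
  simp only [Matrix.map_mul] at h1
  rw [Ee_map] at h1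
  rw [pR, h1]
  exact Matrix.map_zero _ (map_zero _)

end

section
variable {R : Type*} [CommRing R] [Algebra ℂ R]

theorem dec (X : D.BI → R) : D.Ee R *ᵥ (D.rR R *ᵥ X) + D.pR R *ᵥ X = X := by
  rw [Matrix.mulVec_mulVec, ← Matrix.add_mulVec, Ee_rR, Matrix.one_mulVec]

/-- `[e, L] ∩ ker f = 0` -/
theorem inter {y : D.BI → R} (h : D.Ff R *ᵥ (D.Ee R *ᵥ y) = 0) : D.Ee R *ᵥ y = 0 := by
  apply D.eq_zero_of_pt
  intro k
  have h1 : D.Ff R *ᵥ (D.Ee R *ᵥ D.pt (k - 1) y) = 0 := by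
    rw [(D.Ee_HM R).pt, (D.Ff_HM R).pt, h, pt_zero]
  have h2 : D.pt k (D.Ee R *ᵥ y) = D.Ee R *ᵥ D.pt (k - 1) y := by
    rw [(D.Ee_HM R).pt, sub_add_cancel]
  rw [h2]
  rcases lt_or_ge (k - 1) 0 with hk | hk
  · rw [D.fe_inj hk (inH_pt _ _) h1, Matrix.mulVec_zero]
  · have h3 := (D.Ee_HM R).mulVec (inH_pt (D := D) (k - 1) y)
    exact D.f_inj (by omega) h3 h1

theorem pR_ker {v : D.BI → R} (h : D.Ff R *ᵥ v = 0) : D.pR R *ᵥ v = v := by
  have h1 := D.dec v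
  have h2 : D.Ee R *ᵥ (D.rR R *ᵥ v) = 0 := by
    apply D.inter
    have h3 := congrArg (fun w => D.Ff R *ᵥ w) h1
    simp only [Matrix.mulVec_add] at h3
    have h4 : D.Ff R *ᵥ (D.pR R *ᵥ v) = 0 := by
      rw [Matrix.mulVec_mulVec, Ff_pR, Matrix.zero_mulVec]
    rw [h, h4, add_zero] at h3
    exact h3
  rw [h2, zero_add] at h1
  exact h1

theorem Ff_pR_vec (v : D.BI → R) : D.Ff R *ᵥ (D.pR R *ᵥ v) = 0 := by
  rw [Matrix.mulVec_mulVec, Ff_pR, Matrix.zero_mulVec]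

theorem pR_Ee_vec (v : D.BI → R) : D.pR R *ᵥ (D.Ee R *ᵥ v) = 0 := by
  rw [Matrix.mulVec_mulVec, pR_Ee, Matrix.zero_mulVec]

/-- `e` is onto from height `k - 1` to height `k ≥ 0` -/
theorem Ee_rR_vec {X : D.BI → R} (h : ∀ a, X a ≠ 0 → 0 ≤ D.hI a) :
    D.Ee R *ᵥ (D.rR R *ᵥ X) = X := by
  have h1 := D.dec X
  have h2 : D.pR R *ᵥ X = 0 := by
    funext a
    by_contra hne
    have h3 := D.ker_neg (D.Ff_pR_vec X) a hne
    rw [Matrix.mulVec, dotProduct] at hne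
    obtain ⟨c, -, hc⟩ := Finset.exists_ne_zero_of_sum_ne_zero hne
    have h4 := D.pR_HM R a c (left_ne_zero_of_mul hc)
    have h5 := h c (right_ne_zero_of_mul hc)
    omega
  rw [h2, add_zero] at h1
  exact h1

end

end SLD

end Pool.Agent.MTX
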