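import Pool.Agent.MTX.K2

/-! # MTX, section 7 : dimensions; `L = [e + y, L] + ker f`; the kernel of `ad (e + y)` -/

namespace Pool.Agent.MTX

open Matrix
open Pool.Agent.MTD (ev ev_add ev_sub ev_neg ev_smul ev_zero ev_add_left ev_sub_left ev_neg_left
  ev_smul_left ev_zero_left ev_sum_left ev_sum ev_map ev_comm)

namespace SLD

variable {n : ℕ} (D : SLD n)

/-- the complex kernel of `f` -/
noncomputable def kerF : Submodule ℂ (D.BI → ℂ) := LinearMap.ker (D.Ff ℂ).mulVecLin

theorem mem_kerF {v : D.BI → ℂ} : v ∈ D.kerF ↔ D.Ff ℂ *ᵥ v = 0 := Iff.rfl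

/-- extension by zero -/
def ext0 {p : D.BI → Prop} [DecidablePred p] (y : {a // p a} → ℂ) : D.BI → ℂ :=
  fun a => if h : p a then y ⟨a, h⟩ else 0

/-- the isomorphism `L_{<0} × ker f ≃ L_{≤0}` -/
noncomputable def isoF : (({a : D.BI // D.hI a < 0} → ℂ) × D.kerF) →ₗ[ℂ]
    ({a : D.BI // D.hI a ≤ 0} → ℂ) where
  toFun p := fun a => (D.Ee ℂ *ᵥ D.ext0 p.1 + p.2.1) a.1
  map_add' p q := by
    have h : D.ext0 (p + q).1 = D.ext0 p.1 + D.ext0 q.1 := by
      funext a; simp only [ext0, Prod.fst_add, Pi.add_apply]; split_ifs <;> simp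
    funext a
    rw [h, Matrix.mulVec_add]
    simp only [Prod.snd_add, Submodule.coe_add, Pi.add_apply]
    ring
  map_smul' r p := by
    have h : D.ext0 (r • p).1 = r • D.ext0 p.1 := by
      funext a; simp only [ext0, Prod.smul_fst, Pi.smul_apply]; split_ifs <;> simp
    funext a
    rw [h, Matrix.mulVec_smul]
    simp only [Prod.smul_snd, Submodule.coe_smul, Pi.add_apply, Pi.smul_apply, smul_eq_mul,
      RingHom.id_apply]
    ring

theorem ext0_supp (y : {a : D.BI // D.hI a < 0} → ℂ) (a : D.BI) (h : D.ext0 y a ≠ 0) :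
    D.hI a < 0 := by
  by_contra hcon
  exact h (dif_neg hcon)

theorem mulVec_supp {R : Type*} [CommRing R] {m : ℤ} {A : Matrix D.BI D.BI R} (hA : D.HM m A)
    {X : D.BI → R} {k : ℤ} (hX : ∀ a, X a ≠ 0 → D.hI a ≤ k) (a : D.BI) (h : (A *ᵥ X) a ≠ 0) :
    D.hI a ≤ k + m := by
  rw [Matrix.mulVec, dotProduct] at h
  obtain ⟨c, -, hc⟩ := Finset.exists_ne_zero_of_sum_ne_zero h
  have h4 := hA a c (left_ne_zero_of_mul hc)
  have h5 := hX c (right_ne_zero_of_mul hc)
  omega

theorem isoF_bij : Function.Bijective D.isoF := by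
  constructor
  · rw [injective_iff_map_eq_zero]
    rintro ⟨y, v⟩ h
    have h1 : D.Ee ℂ *ᵥ D.ext0 y + v.1 = 0 := by
      funext a
      by_cases ha : D.hI a ≤ 0
      · exact congrFun h ⟨a, ha⟩
      · rw [Pi.add_apply, Pi.zero_apply]
        have h2 : (D.Ee ℂ *ᵥ D.ext0 y) a = 0 := by
          by_contra hne
          have := D.mulVec_supp (D.Ee_HM ℂ) (k := -1)
            (fun a h => by have := D.ext0_supp y a h; omega) a hne
          omega
        have h3 : v.1 a = 0 := by
          by_contra hne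
          have := D.ker_neg (D.mem_kerF.1 v.2) a hne
          omega
        rw [h2, h3, add_zero]
    have h2 : v.1 = 0 := by
      have h3 := congrArg (fun w => D.pR ℂ *ᵥ w) h1
      simp only [Matrix.mulVec_add, Matrix.mulVec_zero] at h3
      rw [pR_Ee_vec, zero_add, D.pR_ker (D.mem_kerF.1 v.2)] at h3
      exact h3
    rw [h2, add_zero] at h1
    have h4 : D.ext0 y = 0 := by
      apply D.eq_zero_of_pt
      intro k
      rcases lt_or_ge k 0 with hk | hk
      · apply D.e_inj hk (inH_pt _ _)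
        rw [(D.Ee_HM ℂ).pt, h1, pt_zero]
      · funext a
        rw [pt_apply]
        split_ifs with h5
        · by_contra hne
          have := D.ext0_supp y a hne
          omega
        · rfl
    have h5 : y = 0 := by
      funext a
      have := congrFun h4 a.1
      rwa [ext0, dif_pos a.2] at this
    rw [h5, show v = 0 from Subtype.ext h2]; rfl
  · intro z
    let X : D.BI → ℂ := D.ext0 z
    have hX : ∀ a, X a ≠ 0 → D.hI a ≤ 0 := by
      intro a h
      by_contra hcon
      exact h (dif_neg hcon)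
    refine ⟨(fun a => (D.rR ℂ *ᵥ X) a.1, ⟨D.pR ℂ *ᵥ X, D.Ff_pR_vec X⟩), ?_⟩
    have h1 : D.ext0 (fun a : {a : D.BI // D.hI a < 0} => (D.rR ℂ *ᵥ X) a.1) = D.rR ℂ *ᵥ X := by
      funext a
      rw [ext0]
      split_ifs with h
      · rfl
      · by_contra hne
        have := D.mulVec_supp (D.rR_HM ℂ) hX a (Ne.symm hne)
        omega
    funext a
    show (D.Ee ℂ *ᵥ D.ext0 _ + D.pR ℂ *ᵥ X) a.1 = z a
    rw [h1, D.dec X]
    exact dif_pos a.2

theorem finrank_kerF : Module.finrank ℂ D.kerF = n := by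
  classical
  have h1 := (LinearEquiv.ofBijective D.isoF D.isoF_bij).finrank_eq
  rw [Module.finrank_prod, Module.finrank_fintype_fun_eq_card,
    Module.finrank_fintype_fun_eq_card] at h1
  have h2 : Fintype.card {a : D.BI // D.hI a ≤ 0} =
      Fintype.card {a : D.BI // D.hI a < 0} + n := by
    rw [Fintype.card_subtype, Fintype.card_subtype]
    have h3 : (Finset.univ.filter fun a : D.BI => D.hI a ≤ 0) =
        (Finset.univ.filter fun a : D.BI => D.hI a < 0) ∪
          (Finset.univ.image fun k : Fin n => (Sum.inl k : D.BI)) := by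
      ext a
      simp only [Finset.mem_filter, Finset.mem_univ, true_and, Finset.mem_union,
        Finset.mem_image]
      constructor
      · intro h
        rcases h.lt_or_eq with h | h
        · exact Or.inl h
        · obtain ⟨k, rfl⟩ := D.hI_eq_zero h
          exact Or.inr ⟨k, rfl⟩
      · rintro (h | ⟨k, rfl⟩)
        · exact h.le
        · exact (D.hI_inl k).le
    rw [h3, Finset.card_union_of_disjoint, Finset.card_image_of_injective _ Sum.inl_injective,
      Finset.card_univ, Fintype.card_fin]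
    rw [Finset.disjoint_left]
    intro a ha hb
    simp only [Finset.mem_filter, Finset.mem_univ, true_and, Finset.mem_image] at ha hb
    obtain ⟨k, rfl⟩ := hb
    rw [hI_inl] at ha
    exact lt_irrefl _ ha
  omega

section
variable {R : Type*} [CommRing R] [Algebra ℂ R]

theorem hI_ge (a : D.BI) : -D.H ≤ D.hI a := (abs_le.1 (D.abs_hI_le a)).1
theorem hI_le (a : D.BI) : D.hI a ≤ D.H := (abs_le.1 (D.abs_hI_le a)).2

/-- `L = [e + y, L] + ker f` for `y` of heights `≤ 0` -/
theorem decomp {y : D.BI → R} (hy : ∀ a, y a ≠ 0 → D.hI a ≤ 0) (X : D.BI → R) :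
    ∃ Z v : D.BI → R, X = D.br (D.ee R + y) Z + v ∧ D.Ff R *ᵥ v = 0 := by
  have key : ∀ (j : ℕ) (X : D.BI → R), (∀ a, X a ≠ 0 → D.hI a ≤ -D.H - 1 + j) →
      ∃ Z v : D.BI → R, X = D.br (D.ee R + y) Z + v ∧ D.Ff R *ᵥ v = 0 := by
    intro j
    induction j with
    | zero =>
      intro X hX
      refine ⟨0, 0, ?_, Matrix.mulVec_zero _⟩
      rw [br_zero_right, add_zero]
      funext a
      by_contra hne
      have h1 := hX a hne
      have h2 := D.hI_ge a
      push_cast at h1
      omega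
    | succ j ih =>
      intro X hX
      have h1 : ∀ a, (- D.br y (D.rR R *ᵥ X)) a ≠ 0 → D.hI a ≤ -D.H - 1 + j := by
        intro a ha
        rw [Pi.neg_apply, neg_ne_zero, br_apply] at ha
        obtain ⟨b, -, hb⟩ := Finset.exists_ne_zero_of_sum_ne_zero ha
        obtain ⟨c, -, hc⟩ := Finset.exists_ne_zero_of_sum_ne_zero hb
        have h2 := hy b (left_ne_zero_of_mul (left_ne_zero_of_mul hc))
        have h3 := D.mulVec_supp (D.rR_HM R) hX c (right_ne_zero_of_mul (left_ne_zero_of_mul hc))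
        have h4 : D.st b c a ≠ 0 := fun h' => right_ne_zero_of_mul hc (by rw [h', Int.cast_zero])
        have h5 := D.st_ht h4
        push_cast at h3
        omega
      obtain ⟨Z, v, h2, h3⟩ := ih _ h1
      refine ⟨D.rR R *ᵥ X + Z, D.pR R *ᵥ X + v, ?_, ?_⟩
      · rw [br_add_right]
        have h4 : D.br (D.ee R + y) (D.rR R *ᵥ X) + D.pR R *ᵥ X + (- D.br y (D.rR R *ᵥ X)) = X := by
          rw [br_add_left]
          have h5 := D.dec X
          have h6 : D.br (D.ee R) (D.rR R *ᵥ X) = D.Ee R *ᵥ (D.rR R *ᵥ X) := rfl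
          rw [h6]
          calc _ = D.Ee R *ᵥ (D.rR R *ᵥ X) + D.pR R *ᵥ X := by abel
            _ = X := h5
        calc X = D.br (D.ee R + y) (D.rR R *ᵥ X) + D.pR R *ᵥ X +
              (- D.br y (D.rR R *ᵥ X)) := h4.symm
          _ = _ := by rw [h2]; abel
      · rw [Matrix.mulVec_add, Ff_pR_vec, h3, add_zero]
  refine key (2 * D.H + 1).toNat X fun a _ => ?_
  have h1 := D.hI_le a
  have h2 := D.hI_ge a
  omega

end

/-- the kernel of `ad (e + y)` has dimension at most `n` -/
theorem finrank_ker_le {y : D.BI → ℂ} (hy : ∀ a, y a ≠ 0 → D.hI a ≤ 0) :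
    Module.finrank ℂ (LinearMap.ker (D.ad (D.ee ℂ + y)).mulVecLin) ≤ n := by
  have h1 := LinearMap.finrank_range_add_finrank_ker (D.ad (D.ee ℂ + y)).mulVecLin
  have h2 : LinearMap.range (D.ad (D.ee ℂ + y)).mulVecLin ⊔ D.kerF = ⊤ := by
    rw [eq_top_iff]
    intro X _
    obtain ⟨Z, v, h3, h4⟩ := D.decomp hy X
    rw [h3]
    exact Submodule.add_mem_sup ⟨Z, rfl⟩ h4
  have h3 := Submodule.finrank_add_le_finrank_add_finrank
    (LinearMap.range (D.ad (D.ee ℂ + y)).mulVecLin) D.kerF
  rw [h2, finrank_top, D.finrank_kerF] at h3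
  omega

/-- `nonss`: `e + x` is not conjugate to `x` if `x` is not regular -/
theorem nonss {γ : D.Rt} {x : Fin n → ℂ} (hx : ev γ.1 x = 0) :
    ¬ ∃ g : Matrix D.BI D.BI ℂ, IsUnit g.det ∧
      g * D.ad (D.tt x) = D.ad (D.tt x + D.ee ℂ) * g := by
  rintro ⟨g, hg, h⟩
  let φ : ((Fin n → ℂ) × ℂ) →ₗ[ℂ] LinearMap.ker (D.ad (D.ee ℂ + D.tt x)).mulVecLin :=
    { toFun := fun p => ⟨g *ᵥ (D.tt p.1 + p.2 • D.er ℂ γ.1), by
        rw [LinearMap.mem_ker, Matrix.mulVecLin_apply, Matrix.mulVec_mulVec, add_comm (D.ee ℂ),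
          ← h, ← Matrix.mulVec_mulVec]
        have h1 : D.ad (D.tt x) *ᵥ (D.tt p.1 + p.2 • D.er ℂ γ.1) = 0 := by
          show D.br (D.tt x) _ = 0
          rw [br_add_right, br_tt_tt, br_smul_right, br_tt_er, hx, zero_smul, smul_zero, add_zero]
        rw [h1, Matrix.mulVec_zero]⟩
      map_add' := fun p q => by
        apply Subtype.ext
        simp only [Prod.fst_add, Prod.snd_add, tt_add, add_smul, Submodule.coe_add,
          ← Matrix.mulVec_add]
        congr 1; abel
      map_smul' := fun r p => by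
        apply Subtype.ext
        simp only [Prod.smul_fst, Prod.smul_snd, tt_smul, smul_eq_mul, mul_smul,
          Submodule.coe_smul, RingHom.id_apply, ← Matrix.mulVec_smul, smul_add] }
  have hφ : Function.Injective φ := by
    rw [injective_iff_map_eq_zero]
    rintro ⟨y, c⟩ h1
    have h2 : g *ᵥ (D.tt y + c • D.er ℂ γ.1) = 0 := congrArg Subtype.val h1
    have h3 : D.tt y + c • D.er ℂ γ.1 = 0 := by
      have h4 := congrArg (fun w => g⁻¹ *ᵥ w) h2
      simpa [Matrix.mulVec_mulVec, Matrix.nonsing_inv_mul _ hg] using h4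
    have h5 : c = 0 := by
      have := congrFun h3 (Sum.inr γ)
      simpa using this
    have h6 : y = 0 := by
      funext k
      have := congrFun h3 (Sum.inl k)
      simpa using this
    rw [h5, h6]; rfl
  have h1 := LinearMap.finrank_le_finrank_of_injective hφ
  rw [Module.finrank_prod, Module.finrank_fintype_fun_eq_card, Fintype.card_fin,
    Module.finrank_self] at h1
  have h2 := D.finrank_ker_le (y := D.tt x) fun a ha => by
    rcases a with k | δ
    · exact (D.hI_inl k).le
    · exact absurd rfl ha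
  omega

end SLD

end Pool.Agent.MTX
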