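import Pool.Agent.MTX.K3

/-! # MTX, section 7 : (7.3), uniqueness -/

namespace Pool.Agent.MTX

open Matrix
open Pool.Agent.MTD (ev ev_add ev_sub ev_neg ev_smul ev_zero ev_add_left ev_sub_left ev_neg_left
  ev_smul_left ev_zero_left ev_sum_left ev_sum ev_map ev_comm)

namespace SLD

variable {n : ℕ} {D : SLD n}

section
variable {R : Type*} [CommRing R]

variable (D) in
/-- lowers the height by at least `d` -/
def LoD (d : ℤ) (E : Matrix D.BI D.BI R) : Prop := ∀ a c, E a c ≠ 0 → D.hI a ≤ D.hI c - d

theorem LoD.mul {d d' : ℤ} {A B : Matrix D.BI D.BI R} (hA : D.LoD d A) (hB : D.LoD d' B) :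
    D.LoD (d + d') (A * B) := by
  intro a c h
  rw [Matrix.mul_apply] at h
  obtain ⟨b, -, hb⟩ := Finset.exists_ne_zero_of_sum_ne_zero h
  have h1 := hA a b (left_ne_zero_of_mul hb)
  have h2 := hB b c (right_ne_zero_of_mul hb)
  omega

theorem LoD.add {d : ℤ} {A B : Matrix D.BI D.BI R} (hA : D.LoD d A) (hB : D.LoD d B) :
    D.LoD d (A + B) := by
  intro a c h
  by_cases h1 : A a c = 0
  · refine hB a c fun h2 => h ?_
    rw [Matrix.add_apply, h1, h2, add_zero]
  · exact hA a c h1

theorem LoD.zero (d : ℤ) : D.LoD d (0 : Matrix D.BI D.BI R) := fun _ _ h => absurd rfl h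

theorem LoD.smul {d : ℤ} {A : Matrix D.BI D.BI R} (hA : D.LoD d A) (r : R) :
    D.LoD d (r • A) := by
  intro a c h
  refine hA a c fun h2 => h ?_
  rw [Matrix.smul_apply, h2, smul_zero]

theorem LoD.sum {κ : Type*} {d : ℤ} (s : Finset κ) (f : κ → Matrix D.BI D.BI R)
    (h : ∀ i ∈ s, D.LoD d (f i)) : D.LoD d (∑ i ∈ s, f i) := by
  classical
  induction s using Finset.induction_on with
  | empty => rw [Finset.sum_empty]; exact LoD.zero d
  | insert a s ha ih =>
    rw [Finset.sum_insert ha]
    exact (h a (Finset.mem_insert_self a s)).add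
      (ih fun i hi => h i (Finset.mem_insert_of_mem hi))

theorem LoD.mono {d d' : ℤ} (h : d' ≤ d) {A : Matrix D.BI D.BI R} (hA : D.LoD d A) :
    D.LoD d' A := fun a c h1 => by have := hA a c h1; omega

theorem LoD.one : D.LoD 0 (1 : Matrix D.BI D.BI R) := by
  intro a c h
  by_cases h1 : a = c
  · rw [h1]; omega
  · exact absurd (Matrix.one_apply_ne h1) h

theorem LoD.pow {d : ℤ} {A : Matrix D.BI D.BI R} (hA : D.LoD d A) (k : ℕ) :
    D.LoD (k * d) (A ^ k) := by
  induction k with
  | zero => rw [pow_zero, Nat.cast_zero, zero_mul]; exact LoD.one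
  | succ k ih =>
    rw [pow_succ]
    refine (ih.mul hA).mono ?_
    push_cast; linarith

theorem LoD.mulVec {d k : ℤ} {A : Matrix D.BI D.BI R} (hA : D.LoD d A) {X : D.BI → R}
    (hX : ∀ a, X a ≠ 0 → D.hI a ≤ k) (a : D.BI) (h : (A *ᵥ X) a ≠ 0) : D.hI a ≤ k - d := by
  rw [Matrix.mulVec, dotProduct] at h
  obtain ⟨c, -, hc⟩ := Finset.exists_ne_zero_of_sum_ne_zero h
  have h4 := hA a c (left_ne_zero_of_mul hc)
  have h5 := hX c (right_ne_zero_of_mul hc)
  omega

theorem LoD.ad {d : ℤ} {X : D.BI → R} (hX : ∀ a, X a ≠ 0 → D.hI a ≤ -d) :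
    D.LoD d (D.ad X) := by
  intro a c h
  rw [ad_apply] at h
  obtain ⟨b, -, hb⟩ := Finset.exists_ne_zero_of_sum_ne_zero h
  have h1 := hX b (left_ne_zero_of_mul hb)
  have h2 : D.st b c a ≠ 0 := fun h' => right_ne_zero_of_mul hb (by rw [h', Int.cast_zero])
  have := D.st_ht h2
  omega

theorem LoU.sub_one {u : Matrix D.BI D.BI R} (hu : D.LoU u) : D.LoD 1 (u - 1) := by
  intro a c h
  by_cases h1 : a = c
  · subst h1
    rw [Matrix.sub_apply, hu.1 a, Matrix.one_apply_eq, sub_self] at h
    exact absurd rfl h
  · by_contra hcon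
    rw [Matrix.sub_apply, Matrix.one_apply_ne h1, sub_zero] at h
    exact h (hu.2 a c h1 (by omega))

theorem LoU.of_sub_one {u : Matrix D.BI D.BI R} (hu : D.LoD 1 (u - 1)) : D.LoU u := by
  constructor
  · intro a
    by_contra hne
    have h1 := hu a a (by rw [Matrix.sub_apply, Matrix.one_apply_eq]; exact sub_ne_zero.2 hne)
    omega
  · intro a c hac h
    by_contra hne
    have h1 := hu a c (by rw [Matrix.sub_apply, Matrix.one_apply_ne hac, sub_zero]; exact hne)
    omega

end

section
variable {R : Type*} [CommRing R] [Algebra ℂ R]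

/-- (7.3), uniqueness: a lower unipotent element preserving the bracket which maps a point of
`e + ker f` to a point of `e + ker f` is `1`. -/
theorem uniq {u : Matrix D.BI D.BI R} (hbr : ∀ X, u * D.ad X = D.ad (u *ᵥ X) * u)
    (hL : D.LoU u) {v v' : D.BI → R} (hv : D.Ff R *ᵥ v = 0) (hv' : D.Ff R *ᵥ v' = 0)
    (h : u *ᵥ (D.ee R + v) = D.ee R + v') : u = 1 := by
  obtain ⟨E, hE⟩ : ∃ E, E = u - 1 := ⟨_, rfl⟩
  have hu : u = 1 + E := by rw [hE]; abel
  have key : ∀ d : ℕ, D.LoD (d + 1) E := by
    intro d
    induction d with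
    | zero => rw [hE]; simpa using hL.sub_one
    | succ d ih =>
      obtain ⟨m, hm⟩ : ∃ m : ℤ, m = d + 1 := ⟨_, rfl⟩
      rw [← hm] at ih
      have hm1 : 1 ≤ m := by omega
      obtain ⟨w, hw⟩ : ∃ w, w = E *ᵥ D.tt (1 : Fin n → R) := ⟨_, rfl⟩
      have hw1 : ∀ a, w a ≠ 0 → D.hI a ≤ -m := by
        intro a ha
        have h1 := ih.mulVec (X := D.tt (1 : Fin n → R)) (k := 0)
          (fun a h => ((InH.tt (D := D) _ a h).le)) a (by rw [← hw]; exact ha)
        omega
      -- the derivation property
      have h1 := hbr (D.tt 1)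
      rw [hu, Matrix.add_mulVec, Matrix.one_mulVec, ← hw, ad_add, Matrix.add_mul, Matrix.one_mul,
        Matrix.mul_add, Matrix.mul_one, Matrix.add_mul] at h1
      have h2 : E * D.ad (D.tt (1 : Fin n → R)) =
          D.ad w + D.ad (D.tt (1 : Fin n → R)) * E + D.ad w * E := by
        have := congrArg (fun M => M - D.ad (D.tt (1 : Fin n → R))) h1
        simp only [add_sub_cancel_left] at this
        rw [this]; abel
      have hrho : ∀ a, ev (D.wI a) (1 : Fin n → R) = (D.hI a : R) := by
        intro a
        have := ev_const (R := R) (D.wI a) 1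
        rw [mul_one] at this
        exact this
      have h3 : ∀ a c, D.hI a = D.hI c - m → (m : R) * E a c = D.ad w a c := by
        intro a c hac
        have h4 := congrFun (congrFun h2 a) c
        rw [ad_tt, Matrix.mul_diagonal, Matrix.add_apply, Matrix.add_apply,
          Matrix.diagonal_mul, hrho, hrho] at h4
        have h5 : (D.ad w * E) a c = 0 := by
          by_contra hne
          have h6 := (LoD.ad hw1).mul ih a c hne
          omega
        rw [h5, add_zero] at h4
        have h6 : ((D.hI a : ℤ) : R) = (D.hI c : R) - (m : R) := by rw [hac]; push_cast; ring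
        rw [h6] at h4
        linear_combination h4
      obtain ⟨z, hz⟩ : ∃ z, z = D.pt (-m) w := ⟨_, rfl⟩
      have hzi : D.InH (-m) z := by rw [hz]; exact inH_pt _ _
      have h4 : ∀ a c, D.hI a = D.hI c - m → (m : R) * E a c = D.ad z a c := by
        intro a c hac
        rw [h3 a c hac, ad_apply, ad_apply]
        refine Finset.sum_congr rfl fun b _ => ?_
        by_cases hb : D.st b c a = 0
        · rw [hb]; simp
        · have := D.st_ht hb
          rw [hz, pt_apply, if_pos (by omega)]
      -- height `1 - m` of `E (e + v) = v' - v`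
      have h5 : E *ᵥ (D.ee R + v) = v' - v := by
        rw [hu, Matrix.add_mulVec, Matrix.one_mulVec] at h
        have := congrArg (fun X => X - (D.ee R + v)) h
        simp only [add_sub_cancel_left] at this
        rw [this]; abel
      have h6 : (m : R) • D.pt (1 - m) (v' - v) = - (D.Ee R *ᵥ z) := by
        have h7 : D.Ee R *ᵥ z = D.br (D.ee R) z := rfl
        rw [h7, br_anti, neg_neg, ← h5]
        funext a
        rw [Pi.smul_apply, smul_eq_mul, pt_apply]
        split_ifs with ha
        · rw [br_def, Matrix.mulVec, dotProduct, Matrix.mulVec, dotProduct, Finset.mul_sum]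
          refine Finset.sum_congr rfl fun c _ => ?_
          by_cases h0 : E a c = 0
          · by_cases h8 : D.ee R c = 0
            · rw [h0, h8]; ring
            · have h9 := D.ee_inH R c h8
              have := h4 a c (by omega)
              rw [← this, h0]; ring
          · have h8 := ih a c h0
            have h9 : v c = 0 := by
              by_contra hne
              have := D.ker_neg hv c hne
              omega
            rw [Pi.add_apply, h9, add_zero]
            by_cases h10 : D.ee R c = 0
            · rw [h10]; ring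
            · have h11 := D.ee_inH R c h10
              rw [← h4 a c (by omega)]; ring
        · rw [mul_zero]
          by_contra hne
          have := hzi.br (D.ee_inH R) a (Ne.symm hne)
          omega
      have h7 : z = 0 := by
        apply D.fe_inj (k := -m) (by omega) hzi
        have h8 : D.Ff R *ᵥ ((m : R) • D.pt (1 - m) (v' - v)) = 0 := by
          rw [Matrix.mulVec_smul, D.ker_pt, smul_zero]
          rw [Matrix.mulVec_sub, hv, hv', sub_zero]
        rw [h6, Matrix.mulVec_neg, neg_eq_zero] at h8
        exact h8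
      intro a c hac
      have h8 := ih a c hac
      by_contra hcon
      push_cast at hcon
      have h9 := h4 a c (by omega)
      rw [h7, ad_zero, Matrix.zero_apply] at h9
      have h10 := isUnit_int (R := R) (z := m) (by omega)
      exact hac ((h10.mul_right_eq_zero).1 h9)
  have h0 : E = 0 := by
    funext a c
    by_contra hne
    have h1 := key (2 * D.H).toNat a c hne
    have h2 := D.hI_ge a
    have h3 := D.hI_le c
    omega
  rw [hu, h0, add_zero]

end

end SLD

end Pool.Agent.MTX
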