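import Pool.Agent.MTX.K4

/-! # MTX, section 7 : (7.3), existence, with homogeneity -/

namespace Pool.Agent.MTX

open Matrix
open Pool.Agent.MTD (ev ev_add ev_sub ev_neg ev_smul ev_zero ev_add_left ev_sub_left ev_neg_left
  ev_smul_left ev_zero_left ev_sum_left ev_sum ev_map ev_comm)

/-- A multiplicative grading predicate (`P d r`: `r` is homogeneous of degree `d`). -/
structure Gr {R : Type*} [CommRing R] [Algebra ℂ R] (P : ℤ → R → Prop) : Prop where
  zero : ∀ d, P d 0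
  add : ∀ {d a b}, P d a → P d b → P d (a + b)
  mul : ∀ {d e a b}, P d a → P e b → P (d + e) (a * b)
  const : ∀ c : ℂ, P 0 (algebraMap ℂ R c)

namespace Gr

variable {R : Type*} [CommRing R] [Algebra ℂ R] {P : ℤ → R → Prop}

/-- the trivial grading -/
theorem triv : Gr (fun (_ : ℤ) (_ : R) => True) :=
  ⟨fun _ => trivial, fun _ _ => trivial, fun _ _ => trivial, fun _ => trivial⟩

theorem int (hP : Gr P) (m : ℤ) : P 0 ((m : ℤ) : R) := by
  have := hP.const (m : ℂ)
  simpa using this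

theorem one (hP : Gr P) : P 0 (1 : R) := by
  have := hP.const 1
  simpa using this

theorem sum (hP : Gr P) {κ : Type*} {d : ℤ} (s : Finset κ) (f : κ → R)
    (h : ∀ i ∈ s, P d (f i)) : P d (∑ i ∈ s, f i) := by
  classical
  induction s using Finset.induction_on with
  | empty => rw [Finset.sum_empty]; exact hP.zero d
  | insert a s ha ih =>
    rw [Finset.sum_insert ha]
    exact hP.add (h a (Finset.mem_insert_self a s))
      (ih fun i hi => h i (Finset.mem_insert_of_mem hi))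

end Gr

namespace SLD

variable {n : ℕ} {D : SLD n}

section
variable {R : Type*} [CommRing R] [Algebra ℂ R] {P : ℤ → R → Prop}

variable (D) in
/-- homogeneous vectors of degree `d` -/
def VP (P : ℤ → R → Prop) (d : ℤ) (X : D.BI → R) : Prop := ∀ a, P (d - D.hI a) (X a)

variable (D) in
/-- homogeneous matrices of degree `d` -/
def MP (P : ℤ → R → Prop) (d : ℤ) (g : Matrix D.BI D.BI R) : Prop :=
  ∀ a c, P (d + D.hI c - D.hI a) (g a c)

omit [Algebra ℂ R] in
theorem cast_P {d d' : ℤ} {r : R} (h : P d r) (e : d = d') : P d' r := e ▸ h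

theorem MP.mulVec (hP : Gr P) {d e : ℤ} {g : Matrix D.BI D.BI R} (hg : D.MP P d g)
    {X : D.BI → R} (hX : D.VP P e X) : D.VP P (d + e) (g *ᵥ X) := by
  intro a
  rw [Matrix.mulVec, dotProduct]
  refine hP.sum _ _ fun c _ => cast_P (hP.mul (hg a c) (hX c)) (by ring)

theorem MP.mul (hP : Gr P) {d e : ℤ} {g h : Matrix D.BI D.BI R} (hg : D.MP P d g)
    (hh : D.MP P e h) : D.MP P (d + e) (g * h) := by
  intro a c
  rw [Matrix.mul_apply]
  refine hP.sum _ _ fun b _ => cast_P (hP.mul (hg a b) (hh b c)) (by ring)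

theorem MP.add (hP : Gr P) {d : ℤ} {g h : Matrix D.BI D.BI R} (hg : D.MP P d g)
    (hh : D.MP P d h) : D.MP P d (g + h) := fun a c => hP.add (hg a c) (hh a c)

theorem MP.zero (hP : Gr P) (d : ℤ) : D.MP P d 0 := fun _ _ => hP.zero _

theorem MP.one (hP : Gr P) : D.MP P 0 1 := by
  intro a c
  by_cases h : a = c
  · subst h
    rw [Matrix.one_apply_eq]
    exact cast_P hP.one (by ring)
  · rw [Matrix.one_apply_ne h]
    exact hP.zero _

theorem MP.pow (hP : Gr P) {g : Matrix D.BI D.BI R} (hg : D.MP P 0 g) (k : ℕ) :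
    D.MP P 0 (g ^ k) := by
  induction k with
  | zero => rw [pow_zero]; exact MP.one hP
  | succ k ih => rw [pow_succ]; exact (ih.mul hP hg)

theorem MP.smul (hP : Gr P) {d : ℤ} {g : Matrix D.BI D.BI R} (hg : D.MP P d g) (c : ℂ) :
    D.MP P d (algebraMap ℂ R c • g) := by
  intro a b
  rw [Matrix.smul_apply, smul_eq_mul]
  exact cast_P (hP.mul (hP.const c) (hg a b)) (by ring)

theorem MP.sum (hP : Gr P) {κ : Type*} {d : ℤ} (s : Finset κ) (f : κ → Matrix D.BI D.BI R)
    (h : ∀ i ∈ s, D.MP P d (f i)) : D.MP P d (∑ i ∈ s, f i) := by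
  classical
  induction s using Finset.induction_on with
  | empty => rw [Finset.sum_empty]; exact MP.zero hP d
  | insert a s ha ih =>
    rw [Finset.sum_insert ha]
    exact (h a (Finset.mem_insert_self a s)).add hP
      (ih fun i hi => h i (Finset.mem_insert_of_mem hi))

theorem MP.expB (hP : Gr P) {g : Matrix D.BI D.BI R} (hg : D.MP P 0 g) :
    D.MP P 0 (D.expB g) := by
  unfold SLD.expB
  exact MP.sum hP _ _ fun k _ => (hg.pow hP k).smul hP _

theorem VP.ad (hP : Gr P) {d : ℤ} {X : D.BI → R} (hX : D.VP P d X) : D.MP P d (D.ad X) := by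
  intro a c
  rw [ad_apply]
  refine hP.sum _ _ fun b _ => ?_
  by_cases h : D.st b c a = 0
  · rw [h, Int.cast_zero, mul_zero]; exact hP.zero _
  · have := D.st_ht h
    exact cast_P (hP.mul (hX b) (hP.int _)) (by omega)

theorem HM.mp (hP : Gr P) {m : ℤ} {A : Matrix D.BI D.BI ℂ} (hA : D.HM m A) :
    D.MP P m (A.map (algebraMap ℂ R)) := by
  intro a c
  rw [Matrix.map_apply]
  by_cases h : A a c = 0
  · rw [h, map_zero]; exact hP.zero _
  · have := hA a c h
    exact cast_P (hP.const _) (by omega)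

theorem VP.pt (hP : Gr P) {d : ℤ} {X : D.BI → R} (hX : D.VP P d X) (k : ℤ) :
    D.VP P d (D.pt k X) := by
  intro a
  rw [pt_apply]
  split_ifs
  · exact hX a
  · exact hP.zero _

theorem VP.add (hP : Gr P) {d : ℤ} {X Y : D.BI → R} (hX : D.VP P d X) (hY : D.VP P d Y) :
    D.VP P d (X + Y) := fun a => hP.add (hX a) (hY a)

theorem VP.neg (hP : Gr P) {d : ℤ} {X : D.BI → R} (hX : D.VP P d X) :
    D.VP P d (-X) := by
  intro a
  have := hP.mul (hP.int (-1)) (hX a)
  rw [Pi.neg_apply]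
  refine cast_P (r := - X a) ?_ (zero_add _)
  simpa using this

variable (D) in
theorem vp_ee (hP : Gr P) : D.VP P 1 (D.ee R) := by
  intro a
  by_cases h : D.ee R a = 0
  · rw [h]; exact hP.zero _
  · have h1 := D.ee_inH R a h
    rw [← ee_map]
    exact cast_P (hP.const _) (by omega)

end

/-! ### one step -/

section
variable (D)

theorem two_le_N : 2 ≤ D.N := by
  unfold N
  rw [Fintype.card_sum, Fintype.card_fin]
  have h1 := D.npos
  have h2 : 0 < Fintype.card D.Rt := Fintype.card_pos_iff.2 ⟨D.theta⟩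
  omega

variable {R : Type*} [CommRing R] [Algebra ℂ R]

/-- `exp A = 1 + A + (lowering the height by at least 2d)` -/
theorem expB_eq {d : ℤ} (hd : 1 ≤ d) {A : Matrix D.BI D.BI R} (hA : D.LoD d A) :
    ∃ Q, D.expB A = 1 + A + Q ∧ D.LoD (2 * d) Q := by
  obtain ⟨m, hm⟩ : ∃ m, D.N = m + 2 := ⟨D.N - 2, by have := D.two_le_N; omega⟩
  refine ⟨∑ k ∈ Finset.range m, (algebraMap ℂ R (1 / ((k + 1 + 1).factorial : ℂ))) •
    A ^ (k + 1 + 1), ?_, ?_⟩
  · unfold expB
    rw [hm, Finset.sum_range_succ', Finset.sum_range_succ']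
    simp only [zero_add, pow_one, pow_zero, Nat.factorial_one, Nat.factorial_zero, Nat.cast_one,
      div_one, map_one, one_smul]
    abel
  · refine LoD.sum _ _ fun k _ => LoD.smul ((hA.pow (k + 1 + 1)).mono ?_) _
    push_cast
    nlinarith

theorem loU_exp {d : ℤ} (hd : 1 ≤ d) {A : Matrix D.BI D.BI R} (hA : D.LoD d A) :
    D.LoU (D.expB A) := by
  obtain ⟨Q, h1, h2⟩ := D.expB_eq hd hA
  apply LoU.of_sub_one
  rw [h1, show 1 + A + Q - 1 = A + Q by abel]
  exact (hA.mono hd).add (h2.mono (by omega))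

/-- One step of the reduction to the slice. -/
theorem step_slice {P : ℤ → R → Prop} (hP : Gr P) {d : ℤ} (hd : 1 ≤ d) {w : D.BI → R}
    (hw : ∀ a, w a ≠ 0 → D.hI a ≤ 0) (hw1 : D.VP P 1 w)
    (hk : ∀ k, 1 - d < k → D.Ff R *ᵥ D.pt k w = 0) :
    ∃ (u : Matrix D.BI D.BI R) (w' : D.BI → R), (∀ F : Frm D, IsGp F u) ∧
      (∀ X Y, u *ᵥ D.br X Y = D.br (u *ᵥ X) (u *ᵥ Y)) ∧ D.LoU u ∧ D.MP P 0 u ∧
      u *ᵥ (D.ee R + w) = D.ee R + w' ∧ (∀ a, w' a ≠ 0 → D.hI a ≤ 0) ∧ D.VP P 1 w' ∧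
      ∀ k, 1 - d ≤ k → D.Ff R *ᵥ D.pt k w' = 0 := by
  obtain ⟨z, hz⟩ : ∃ z, z = D.rR R *ᵥ D.pt (1 - d) w := ⟨_, rfl⟩
  have hzi : D.InH (-d) z := by
    have := (D.rR_HM R).mulVec (inH_pt (D := D) (1 - d) w)
    rw [← hz] at this
    rwa [show 1 - d + -1 = -d by ring] at this
  have hz0 : D.VP P 0 z := by
    have := MP.mulVec hP (HM.mp hP D.rM_HM) (VP.pt hP hw1 (1 - d))
    rw [show -1 + (1 : ℤ) = 0 by ring] at this
    rw [hz]; exact this
  have hz1 : ∀ a, z a ≠ 0 → D.hI a ≤ -d := fun a h => (hzi a h).le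
  have hz2 : ∀ a, z a ≠ 0 → D.hI a < 0 := fun a h => by have := hzi a h; omega
  have hA : D.LoD d (D.ad z) := LoD.ad hz1
  obtain ⟨Q, hQ1, hQ2⟩ := D.expB_eq hd hA
  have hu1 : ∀ F : Frm D, IsGp F (D.expB (D.ad z)) := fun F => D.isGp_exp_down F hz2
  have hbr := D.exp_br z (D.pow_down (D.ad z) (D.ad_down hz2))
  have hu2 := D.loU_exp hd hA
  have hu3 : D.MP P 0 (D.expB (D.ad z)) := MP.expB hP (VP.ad hP hz0)
  obtain ⟨u, hu⟩ : ∃ u, u = D.expB (D.ad z) := ⟨_, rfl⟩
  rw [← hu] at hu1 hu2 hu3 hbr hQ1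
  obtain ⟨w', hw'⟩ : ∃ w', w' = u *ᵥ (D.ee R + w) - D.ee R := ⟨_, rfl⟩
  have hsupp : ∀ a, (D.ee R + w) a ≠ 0 → D.hI a ≤ 1 := by
    intro a ha
    by_cases h1 : D.ee R a = 0
    · rw [Pi.add_apply, h1, zero_add] at ha
      have := hw a ha
      omega
    · exact (D.ee_inH R a h1).le
  have hw'1 : w' = w + D.ad z *ᵥ (D.ee R + w) + Q *ᵥ (D.ee R + w) := by
    rw [hw', hQ1, Matrix.add_mulVec, Matrix.add_mulVec, Matrix.one_mulVec]; abel
  have h3 : ∀ k, 1 - d < k → D.pt k (D.ad z *ᵥ (D.ee R + w)) = 0 := by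
    intro k hk
    funext a
    rw [pt_apply]
    split_ifs with ha
    · by_contra hne
      have := hA.mulVec hsupp a hne
      omega
    · rfl
  have h4 : ∀ k, 1 - d ≤ k → D.pt k (Q *ᵥ (D.ee R + w)) = 0 := by
    intro k hk
    funext a
    rw [pt_apply]
    split_ifs with ha
    · by_contra hne
      have := hQ2.mulVec hsupp a hne
      omega
    · rfl
  have h5 : D.pt (1 - d) (D.ad z *ᵥ (D.ee R + w)) = - (D.Ee R *ᵥ z) := by
    have h6 := hzi.ad.pt 1 (D.ee R + w)
    rw [show 1 + -d = 1 - d by ring] at h6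
    rw [← h6, pt_add, (D.ee_inH R).pt_eq]
    have h7 : D.pt 1 w = 0 := by
      funext a
      rw [pt_apply]
      split_ifs with ha
      · by_contra hne
        have := hw a hne
        omega
      · rfl
    rw [h7, add_zero]
    show D.br z (D.ee R) = - D.br (D.ee R) z
    exact D.br_anti _ _
  refine ⟨u, w', hu1, hbr, hu2, hu3, by rw [hw']; abel, ?_, ?_, ?_⟩
  · intro a ha
    by_contra hcon
    apply ha
    rw [hw'1, Pi.add_apply, Pi.add_apply]
    have e1 : w a = 0 := by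
      by_contra hne
      exact hcon (hw a hne)
    have e2 : (D.ad z *ᵥ (D.ee R + w)) a = 0 := by
      by_contra hne
      have := hA.mulVec hsupp a hne
      omega
    have e3 : (Q *ᵥ (D.ee R + w)) a = 0 := by
      by_contra hne
      have := hQ2.mulVec hsupp a hne
      omega
    rw [e1, e2, e3]; ring
  · rw [hw', sub_eq_add_neg]
    refine VP.add hP ?_ (VP.neg hP (vp_ee D hP))
    have := hu3.mulVec hP (VP.add hP (vp_ee D hP) hw1)
    rwa [zero_add] at this
  · intro k hk2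
    rw [hw'1, pt_add, pt_add, h4 k hk2, add_zero]
    rcases hk2.lt_or_eq with h6 | h6
    · rw [h3 k h6, add_zero]
      exact hk k h6
    · rw [← h6, h5]
      have h7 := D.dec (D.pt (1 - d) w)
      rw [← hz] at h7
      rw [show D.pt (1 - d) w + -(D.Ee R *ᵥ z) = D.pR R *ᵥ D.pt (1 - d) w by
        rw [← sub_eq_add_neg, sub_eq_iff_eq_add']; exact h7.symm]
      exact D.Ff_pR_vec _

/-- (7.3), existence: for `y` of heights `≤ 0` there is a lower unipotent `u` in the group with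
`u (e + y)` in `e + ker f`; everything homogeneous if `y` is. -/
theorem exists_slice {P : ℤ → R → Prop} (hP : Gr P) {y : D.BI → R}
    (hy : ∀ a, y a ≠ 0 → D.hI a ≤ 0) (hy1 : D.VP P 1 y) :
    ∃ (u : Matrix D.BI D.BI R) (w : D.BI → R), (∀ F : Frm D, IsGp F u) ∧
      (∀ X Y, u *ᵥ D.br X Y = D.br (u *ᵥ X) (u *ᵥ Y)) ∧ D.LoU u ∧ D.MP P 0 u ∧
      u *ᵥ (D.ee R + y) = D.ee R + w ∧ D.VP P 1 w ∧ D.Ff R *ᵥ w = 0 := by
  have key : ∀ j : ℕ, ∃ (u : Matrix D.BI D.BI R) (w : D.BI → R), (∀ F : Frm D, IsGp F u) ∧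
      (∀ X Y, u *ᵥ D.br X Y = D.br (u *ᵥ X) (u *ᵥ Y)) ∧ D.LoU u ∧ D.MP P 0 u ∧
      u *ᵥ (D.ee R + y) = D.ee R + w ∧ (∀ a, w a ≠ 0 → D.hI a ≤ 0) ∧ D.VP P 1 w ∧
      ∀ k : ℤ, -j < k → D.Ff R *ᵥ D.pt k w = 0 := by
    intro j
    induction j with
    | zero =>
      refine ⟨1, y, fun F => IsGp.one, by simp, LoU.one, MP.one hP, Matrix.one_mulVec _, hy, hy1, ?_⟩
      intro k hk
      have : D.pt k y = 0 := by
        funext a
        rw [pt_apply]
        split_ifs with ha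
        · by_contra hne
          have := hy a hne
          push_cast at hk
          omega
        · rfl
      rw [this, Matrix.mulVec_zero]
    | succ j ih =>
      obtain ⟨u, w, h1, h1b, h2, h3, h4, h5, h6, h7⟩ := ih
      obtain ⟨u', w', g1, g1b, g2, g3, g4, g5, g6, g7⟩ := D.step_slice hP (d := (j : ℤ) + 1)
        (by omega) h5 h6 (fun k hk => h7 k (by omega))
      refine ⟨u' * u, w', fun F => (g1 F).mul (h1 F), ?_, g2.mul h2, ?_, ?_, g5, g6, ?_⟩
      · intro X Y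
        rw [← Matrix.mulVec_mulVec, h1b, g1b, Matrix.mulVec_mulVec, Matrix.mulVec_mulVec]
      · have := g3.mul hP h3
        rwa [add_zero] at this
      · rw [← Matrix.mulVec_mulVec, h4, g4]
      · intro k hk
        exact g7 k (by push_cast at hk; omega)
  obtain ⟨u, w, h1, h1b, h2, h3, h4, h5, h6, h7⟩ := key (D.H + 1).toNat
  refine ⟨u, w, h1, h1b, h2, h3, h4, h6, ?_⟩
  apply D.eq_zero_of_pt
  intro k
  have h8 := (D.Ff_HM R).pt (k + 1) w
  rw [show k + 1 + -1 = k by ring] at h8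
  rw [← h8]
  by_cases hk : -((D.H + 1).toNat : ℤ) < k + 1
  · exact h7 _ hk
  · have : D.pt (k + 1) w = 0 := by
      funext a
      rw [pt_apply]
      split_ifs with ha
      · have := D.hI_ge a
        omega
      · rfl
    rw [this, Matrix.mulVec_zero]

end

end SLD

end Pool.Agent.MTX
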