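import Pool.Agent.MTX.K5

/-! # MTX, section 7 : diagonalisation of `e + x` for regular `x`; the characteristic polynomial -/

namespace Pool.Agent.MTX

open Matrix
open Pool.Agent.MTD (ev ev_add ev_sub ev_neg ev_smul ev_zero ev_add_left ev_sub_left ev_neg_left
  ev_smul_left ev_zero_left ev_sum_left ev_sum ev_map ev_comm)

namespace SLD

variable {n : ℕ} (D : SLD n)

section
variable {R : Type*} [CommRing R]

/-- raises the height by at least `d` -/
def UpD (d : ℤ) (E : Matrix D.BI D.BI R) : Prop := ∀ a c, E a c ≠ 0 → D.hI c + d ≤ D.hI a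

variable {D}

theorem UpD.mul {d d' : ℤ} {A B : Matrix D.BI D.BI R} (hA : D.UpD d A) (hB : D.UpD d' B) :
    D.UpD (d + d') (A * B) := by
  intro a c h
  rw [Matrix.mul_apply] at h
  obtain ⟨b, -, hb⟩ := Finset.exists_ne_zero_of_sum_ne_zero h
  have h1 := hA a b (left_ne_zero_of_mul hb)
  have h2 := hB b c (right_ne_zero_of_mul hb)
  omega

theorem UpD.zero (d : ℤ) : D.UpD d (0 : Matrix D.BI D.BI R) := fun _ _ h => absurd rfl h

theorem UpD.add {d : ℤ} {A B : Matrix D.BI D.BI R} (hA : D.UpD d A) (hB : D.UpD d B) :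
    D.UpD d (A + B) := by
  intro a c h
  by_cases h1 : A a c = 0
  · refine hB a c fun h2 => h ?_
    rw [Matrix.add_apply, h1, h2, add_zero]
  · exact hA a c h1

theorem UpD.smul {d : ℤ} {A : Matrix D.BI D.BI R} (hA : D.UpD d A) (r : R) :
    D.UpD d (r • A) := by
  intro a c h
  refine hA a c fun h2 => h ?_
  rw [Matrix.smul_apply, h2, smul_zero]

theorem UpD.sum {κ : Type*} {d : ℤ} (s : Finset κ) (f : κ → Matrix D.BI D.BI R)
    (h : ∀ i ∈ s, D.UpD d (f i)) : D.UpD d (∑ i ∈ s, f i) := by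
  classical
  induction s using Finset.induction_on with
  | empty => rw [Finset.sum_empty]; exact UpD.zero d
  | insert a s ha ih =>
    rw [Finset.sum_insert ha]
    exact (h a (Finset.mem_insert_self a s)).add
      (ih fun i hi => h i (Finset.mem_insert_of_mem hi))

theorem UpD.mono {d d' : ℤ} (h : d' ≤ d) {A : Matrix D.BI D.BI R} (hA : D.UpD d A) :
    D.UpD d' A := fun a c h1 => by have := hA a c h1; omega

theorem UpD.one : D.UpD 0 (1 : Matrix D.BI D.BI R) := by
  intro a c h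
  by_cases h1 : a = c
  · rw [h1]; omega
  · exact absurd (Matrix.one_apply_ne h1) h

theorem UpD.pow {d : ℤ} {A : Matrix D.BI D.BI R} (hA : D.UpD d A) (k : ℕ) :
    D.UpD (k * d) (A ^ k) := by
  induction k with
  | zero => rw [pow_zero, Nat.cast_zero, zero_mul]; exact UpD.one
  | succ k ih =>
    rw [pow_succ]
    refine (ih.mul hA).mono ?_
    push_cast; linarith

theorem UpD.mulVec {d k : ℤ} {A : Matrix D.BI D.BI R} (hA : D.UpD d A) {X : D.BI → R}
    (hX : ∀ a, X a ≠ 0 → k ≤ D.hI a) (a : D.BI) (h : (A *ᵥ X) a ≠ 0) : k + d ≤ D.hI a := by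
  rw [Matrix.mulVec, dotProduct] at h
  obtain ⟨c, -, hc⟩ := Finset.exists_ne_zero_of_sum_ne_zero h
  have h4 := hA a c (left_ne_zero_of_mul hc)
  have h5 := hX c (right_ne_zero_of_mul hc)
  omega

theorem UpD.ad {d : ℤ} {X : D.BI → R} (hX : ∀ a, X a ≠ 0 → d ≤ D.hI a) :
    D.UpD d (D.ad X) := by
  intro a c h
  rw [ad_apply] at h
  obtain ⟨b, -, hb⟩ := Finset.exists_ne_zero_of_sum_ne_zero h
  have h1 := hX b (left_ne_zero_of_mul hb)
  have h2 : D.st b c a ≠ 0 := fun h' => right_ne_zero_of_mul hb (by rw [h', Int.cast_zero])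
  have := D.st_ht h2
  omega

end

section
variable {R : Type*} [CommRing R] [Algebra ℂ R]

theorem expB_eq_up {d : ℤ} (hd : 1 ≤ d) {A : Matrix D.BI D.BI R} (hA : D.UpD d A) :
    ∃ Q, D.expB A = 1 + A + Q ∧ D.UpD (2 * d) Q := by
  obtain ⟨m, hm⟩ : ∃ m, D.N = m + 2 := ⟨D.N - 2, by have := D.two_le_N; omega⟩
  refine ⟨∑ k ∈ Finset.range m, (algebraMap ℂ R (1 / ((k + 1 + 1).factorial : ℂ))) •
    A ^ (k + 1 + 1), ?_, ?_⟩
  · unfold expB
    rw [hm, Finset.sum_range_succ', Finset.sum_range_succ']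
    simp only [zero_add, pow_one, pow_zero, Nat.factorial_one, Nat.factorial_zero, Nat.cast_one,
      div_one, map_one, one_smul]
    abel
  · refine UpD.sum _ _ fun k _ => UpD.smul ((hA.pow (k + 1 + 1)).mono ?_) _
    push_cast
    nlinarith

end

section field
variable {K : Type*} [Field K] [Algebra ℂ K]

/-- One step of the diagonalisation. -/
theorem step_diag {x : Fin n → K} (hx : ∀ γ : D.Rt, ev γ.1 x ≠ 0) {d : ℤ} (hd : 1 ≤ d)
    {w : D.BI → K} (hw : ∀ a, w a ≠ 0 → d ≤ D.hI a) :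
    ∃ (u : Matrix D.BI D.BI K) (w' : D.BI → K), (∀ F : Frm D, IsGp F u) ∧ D.UpD 1 (u - 1) ∧
      u *ᵥ (D.tt x + w) = D.tt x + w' ∧ ∀ a, w' a ≠ 0 → d + 1 ≤ D.hI a := by
  obtain ⟨z, hz⟩ : ∃ z : D.BI → K, z = fun a => if D.hI a = d then w a / ev (D.wI a) x else 0 :=
    ⟨_, rfl⟩
  have hzi : D.InH d z := by
    intro a ha
    by_contra hne
    rw [hz] at ha
    exact ha (if_neg hne)
  have hz1 : ∀ a, z a ≠ 0 → d ≤ D.hI a := fun a h => (hzi a h).ge
  have hz2 : ∀ a, z a ≠ 0 → 0 < D.hI a := fun a h => by have := hzi a h; omega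
  have hA : D.UpD d (D.ad z) := UpD.ad hz1
  obtain ⟨Q, hQ1, hQ2⟩ := D.expB_eq_up hd hA
  obtain ⟨w', hw'⟩ : ∃ w', w' = D.expB (D.ad z) *ᵥ (D.tt x + w) - D.tt x := ⟨_, rfl⟩
  refine ⟨D.expB (D.ad z), w', fun F => D.isGp_exp_up F hz2, ?_, by rw [hw']; abel, ?_⟩
  · rw [hQ1, show 1 + D.ad z + Q - 1 = D.ad z + Q by abel]
    exact (hA.mono hd).add (hQ2.mono (by omega))
  · intro a ha
    by_contra hcon
    apply ha
    have h1 : w' = w + (D.ad z *ᵥ D.tt x + (D.ad z *ᵥ w + Q *ᵥ (D.tt x + w))) := by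
      rw [hw', hQ1, Matrix.add_mulVec, Matrix.add_mulVec, Matrix.one_mulVec, Matrix.mulVec_add]
      abel
    have h2 : D.ad z *ᵥ D.tt x = fun a => - (ev (D.wI a) x * z a) := by
      show D.br z (D.tt x) = _
      rw [br_anti]
      funext a
      rw [Pi.neg_apply, br_tt]
    have h3 : (D.ad z *ᵥ w) a = 0 := by
      by_contra hne
      have := hA.mulVec hw a hne
      omega
    have h4 : (Q *ᵥ (D.tt x + w)) a = 0 := by
      by_contra hne
      have := hQ2.mulVec (k := 0) (X := D.tt x + w) (fun c hc => ?_) a hne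
      · omega
      · by_cases h5 : D.tt x c = 0
        · rw [Pi.add_apply, h5, zero_add] at hc
          have := hw c hc
          omega
        · exact (InH.tt (D := D) x c h5).ge
    rw [h1, Pi.add_apply, Pi.add_apply, Pi.add_apply, h3, h4, add_zero, add_zero, h2, hz]
    show w a + -(ev (D.wI a) x * if D.hI a = d then w a / ev (D.wI a) x else 0) = 0
    split_ifs with h5
    · rcases a with k | γ
      · rw [hI_inl] at h5
        omega
      · rw [wI_inr, mul_div_cancel₀ _ (hx γ), add_neg_cancel]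
    · have : w a = 0 := by
        by_contra hne
        have := hw a hne
        omega
      rw [this]; ring

/-- diagonalisation: for regular `x`, `x + w` (`w` of positive heights) is conjugate to `x` -/
theorem exists_diag {x : Fin n → K} (hx : ∀ γ : D.Rt, ev γ.1 x ≠ 0) {w : D.BI → K}
    (hw : ∀ a, w a ≠ 0 → 0 < D.hI a) :
    ∃ u : Matrix D.BI D.BI K, (∀ F : Frm D, IsGp F u) ∧ D.UpD 1 (u - 1) ∧
      u *ᵥ (D.tt x + w) = D.tt x := by
  have key : ∀ j : ℕ, ∃ (u : Matrix D.BI D.BI K) (w' : D.BI → K), (∀ F : Frm D, IsGp F u) ∧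
      D.UpD 1 (u - 1) ∧ u *ᵥ (D.tt x + w) = D.tt x + w' ∧
        ∀ a, w' a ≠ 0 → (j : ℤ) + 1 ≤ D.hI a := by
    intro j
    induction j with
    | zero =>
      refine ⟨1, w, fun F => IsGp.one, ?_, Matrix.one_mulVec _, fun a ha => ?_⟩
      · rw [sub_self]; exact UpD.zero _
      · have := hw a ha
        push_cast; omega
    | succ j ih =>
      obtain ⟨u, w', h1, h2, h3, h4⟩ := ih
      obtain ⟨u', w'', g1, g2, g3, g4⟩ := D.step_diag hx (d := (j : ℤ) + 1) (by omega) h4
      refine ⟨u' * u, w'', fun F => (g1 F).mul (h1 F), ?_, ?_, fun a ha => ?_⟩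
      · have e : u' * u - 1 = (u' - 1) * (u - 1) + ((u' - 1) + (u - 1)) := by noncomm_ring
        rw [e]
        exact ((g2.mul h2).mono (by omega)).add (g2.add h2)
      · rw [← Matrix.mulVec_mulVec, h3, g3]
      · have := g4 a ha
        push_cast; omega
  obtain ⟨u, w', h1, h2, h3, h4⟩ := key D.H.toNat
  refine ⟨u, h1, h2, ?_⟩
  rw [h3]
  have : w' = 0 := by
    funext a
    by_contra hne
    have h5 := h4 a hne
    have h6 := D.hI_le a
    omega
  rw [this, add_zero]

end field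

/-- the characteristic polynomial of `ad (e + x)` -/
theorem charpoly_ex {R : Type*} [CommRing R] (x : Fin n → R) :
    (D.ad (D.ee R + D.tt x)).charpoly =
      ∏ a, (Polynomial.X - Polynomial.C (ev (D.wI a) x)) := by
  have h1 : (D.ad (D.ee R + D.tt x)).charpoly =
      ((D.ad (D.ee R + D.tt x)).submatrix D.eN.symm D.eN.symm).charpoly := by
    rw [← Matrix.charpoly_reindex D.eN]; rfl
  have h2 : ((D.ad (D.ee R + D.tt x)).submatrix D.eN.symm D.eN.symm).BlockTriangular id := by
    intro i j hij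
    rw [Matrix.submatrix_apply, ad_add, Matrix.add_apply, ad_tt, Matrix.diagonal_apply_ne,
      add_zero]
    · by_contra hne
      have h3 := D.Ee_HM R _ _ hne
      have h4 := D.lt_of_hI (a := D.eN.symm i) (c := D.eN.symm j) (by omega)
      rw [Equiv.apply_symm_apply, Equiv.apply_symm_apply] at h4
      exact lt_asymm hij h4
    · intro h
      exact hij.ne (D.eN.symm.injective h).symm
  rw [h1, Matrix.charpoly_of_isUpperTriangular _ h2]
  rw [← Equiv.prod_comp D.eN fun i => (Polynomial.X - Polynomial.C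
    ((D.ad (D.ee R + D.tt x)).submatrix D.eN.symm D.eN.symm i i))]
  refine Finset.prod_congr rfl fun a _ => ?_
  rw [Matrix.submatrix_apply, Equiv.symm_apply_apply, ad_add, Matrix.add_apply, ad_tt,
    Matrix.diagonal_apply_eq]
  have h3 : D.ad (D.ee R) a a = 0 := by
    by_contra hne
    have := D.Ee_HM R a a hne
    omega
  rw [h3, zero_add]

/-- the product over all indices, split -/
theorem prod_BI {R : Type*} [CommRing R] (x : Fin n → R) :
    ∏ a, (Polynomial.X - Polynomial.C (ev (D.wI a) x)) =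
      Polynomial.X ^ n * ∏ γ : D.Rt, (Polynomial.X - Polynomial.C (ev γ.1 x)) := by
  rw [Fintype.prod_sum_type]
  simp [ev_zero_left]

end SLD

end Pool.Agent.MTX
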