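import Pool.Agent.MTX.T0

/-! # MTX, Part T : homogeneous polynomials of integral degree -/

namespace Pool.Agent.MTX

open MvPolynomial SLD

variable {n : ℕ}

theorem HZ.zero (d : ℤ) : HZ d (0 : AA n) := by
  intro m hm
  exact absurd (coeff_zero m) hm

theorem HZ.add {d : ℤ} {p q : AA n} (hp : HZ d p) (hq : HZ d q) : HZ d (p + q) := by
  intro m hm
  by_cases h1 : p.coeff m = 0
  · by_cases h2 : q.coeff m = 0
    · exact absurd (by rw [coeff_add, h1, h2, add_zero]) hm
    · exact hq m h2
  · exact hp m h1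

theorem HZ.neg {d : ℤ} {p : AA n} (hp : HZ d p) : HZ d (-p) := by
  intro m hm
  refine hp m fun h => hm ?_
  rw [coeff_neg, h, neg_zero]

theorem HZ.sub {d : ℤ} {p q : AA n} (hp : HZ d p) (hq : HZ d q) : HZ d (p - q) := by
  rw [sub_eq_add_neg]
  exact hp.add hq.neg

theorem HZ.sum {ι : Type*} {d : ℤ} (s : Finset ι) (f : ι → AA n) (h : ∀ i ∈ s, HZ d (f i)) :
    HZ d (∑ i ∈ s, f i) := by
  classical
  induction s using Finset.induction_on with
  | empty =>
    rw [Finset.sum_empty]
    exact HZ.zero d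
  | insert a s ha ih =>
    rw [Finset.sum_insert ha]
    exact (h a (Finset.mem_insert_self a s)).add
      (ih fun i hi => h i (Finset.mem_insert_of_mem hi))

/-- `coeff_mul`: a nonzero coefficient of the product comes from nonzero coefficients; degrees are additive
(`Finsupp.sum_add_index'`). -/
theorem HZ.mul {d e : ℤ} {p q : AA n} (hp : HZ d p) (hq : HZ e q) : HZ (d + e) (p * q) := by
  intro m hm
  rw [coeff_mul] at hm
  obtain ⟨x, hx, hne⟩ := Finset.exists_ne_zero_of_sum_ne_zero hm
  have h1 := hp x.1 (left_ne_zero_of_mul hne)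
  have h2 := hq x.2 (right_ne_zero_of_mul hne)
  rw [Finset.HasAntidiagonal.mem_antidiagonal] at hx
  rw [← h1, ← h2, ← hx, Finsupp.sum_add_index' (fun _ => rfl) (fun _ _ _ => rfl)]
  push_cast
  ring

theorem HZ.C (c : ℂ) : HZ 0 (MvPolynomial.C c : AA n) := by
  intro m hm
  rw [coeff_C] at hm
  split_ifs at hm with h
  · rw [← h, Finsupp.sum_zero_index]
    rfl
  · exact absurd rfl hm

theorem t1a_X (j : Fin n) : HZ 1 (MvPolynomial.X j : AA n) := by
  intro m hm
  rw [coeff_X] at hm
  split_ifs at hm with h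
  · rw [← h, Finsupp.sum_single_index rfl]
    rfl
  · exact absurd rfl hm

theorem t1a_one : HZ 0 (1 : AA n) := by
  rw [← MvPolynomial.C_1]
  exact HZ.C 1

theorem HZ.C_mul {d : ℤ} (c : ℂ) {p : AA n} (hp : HZ d p) : HZ d (MvPolynomial.C c * p) := by
  have h := (HZ.C c).mul hp
  rwa [zero_add] at h

/-- a linear form has degree `1` (`fm0`, `lin`) -/
theorem HZ_fm0 (x : Fin n → ℤ) : HZ 1 (fm0 x) := by
  unfold fm0 lin
  exact HZ.sum _ _ fun j _ => HZ.C_mul _ (t1a_X j)

theorem HZ.prod {ι : Type*} (s : Finset ι) (d : ι → ℤ) (f : ι → AA n)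
    (h : ∀ i ∈ s, HZ (d i) (f i)) : HZ (∑ i ∈ s, d i) (∏ i ∈ s, f i) := by
  classical
  induction s using Finset.induction_on with
  | empty =>
    rw [Finset.sum_empty, Finset.prod_empty]
    exact t1a_one
  | insert a s ha ih =>
    rw [Finset.sum_insert ha, Finset.prod_insert ha]
    exact (h a (Finset.mem_insert_self a s)).mul
      (ih fun i hi => h i (Finset.mem_insert_of_mem hi))

/-- `HZ (d : ℤ) p` for `d : ℕ` is `IsHomogeneous`. (`IsHomogeneous`, `IsWeightedHomogeneous` with weight `1`.) -/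
theorem HZ_nat {d : ℕ} {p : AA n} : HZ (d : ℤ) p ↔ p.IsHomogeneous d := by
  have key : ∀ m : Fin n →₀ ℕ, (m.sum fun _ e => e : ℕ) = Finsupp.weight 1 m := by
    intro m
    rw [Finsupp.weight_apply]
    simp
  constructor
  · intro h m hm
    have h1 := h m hm
    rw [key] at h1
    exact_mod_cast h1
  · intro h m hm
    have h1 := h hm
    rw [key]
    exact_mod_cast h1

/-- isometries act by graded automorphisms: `actO u` is `aeval` of linear forms.  (For `d ≥ 0` use `HZ_nat` and
the homogeneity of `aeval` of homogeneous polynomials, `IsHomogeneous.aeval`/`eval₂`; for `d < 0` `p = 0`.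
Or write `p` as a sum of monomials.) -/
theorem HZ.smul (D : SLD n) (u : D.OQ) {d : ℤ} {p : AA n} (hp : HZ d p) : HZ d (u • p) := by
  by_cases h0 : p = 0
  · rw [h0, smul_zero]
    exact HZ.zero d
  · obtain ⟨m, hm⟩ := MvPolynomial.exists_coeff_ne_zero h0
    have hd : 0 ≤ d := by
      rw [← hp m hm]
      exact Int.natCast_nonneg _
    obtain ⟨k, rfl⟩ := Int.eq_ofNat_of_zero_le hd
    have h1 : p.IsHomogeneous k := HZ_nat.1 hp
    have h2 : (D.actO u p).IsHomogeneous (1 * k) := by
      unfold actO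
      refine h1.aeval _ fun i => ?_
      unfold fm0 lin
      exact MvPolynomial.IsHomogeneous.sum _ _ _ fun j _ =>
        MvPolynomial.isHomogeneous_C_mul_X _ _
    rw [one_mul] at h2
    exact HZ_nat.2 h2

theorem HZ.eq_zero {d : ℤ} (hd : d < 0) {p : AA n} (hp : HZ d p) : p = 0 := by
  by_contra h0
  obtain ⟨m, hm⟩ := MvPolynomial.exists_coeff_ne_zero h0
  have h1 := hp m hm
  have h2 : (0 : ℤ) ≤ ((m.sum fun _ e => e : ℕ) : ℤ) := Int.natCast_nonneg _
  omega

theorem HZ.const {p : AA n} (hp : HZ 0 p) : ∃ c : ℂ, p = MvPolynomial.C c := by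
  have h1 : p.IsHomogeneous 0 := HZ_nat.1 (by exact_mod_cast hp)
  exact ⟨_, (MvPolynomial.totalDegree_eq_zero_iff_eq_C).1
    ((MvPolynomial.totalDegree_zero_iff_isHomogeneous (Fin n)).2 h1)⟩

/-- A factor of a homogeneous polynomial.  Let `q_i` be the homogeneous components of `q`
(`homogeneousComponent`, `sum_homogeneousComponent`).  `p q_i` is homogeneous of degree `d + i`; comparing
components in `p q = ∑ p q_i` gives `p q_i = 0` for `d + i ≠ e`, so `q_i = 0` (domain). -/
theorem HZ.of_mul {d e : ℤ} {p q : AA n} (h0 : p ≠ 0) (hp : HZ d p) (h : HZ e (p * q)) :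
    HZ (e - d) q := by
  intro m hm
  have hq0 : q ≠ 0 := by
    rintro rfl
    exact hm (coeff_zero m)
  have hd : 0 ≤ d := by
    obtain ⟨m', hm'⟩ := MvPolynomial.exists_coeff_ne_zero h0
    rw [← hp m' hm']
    exact Int.natCast_nonneg _
  have he : 0 ≤ e := by
    obtain ⟨m', hm'⟩ := MvPolynomial.exists_coeff_ne_zero (mul_ne_zero h0 hq0)
    rw [← h m' hm']
    exact Int.natCast_nonneg _
  obtain ⟨a, rfl⟩ := Int.eq_ofNat_of_zero_le hd
  obtain ⟨b, rfl⟩ := Int.eq_ofNat_of_zero_le he
  have h1 : p.IsHomogeneous a := HZ_nat.1 hp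
  have h2 : (p * q).IsHomogeneous b := HZ_nat.1 h
  set i : ℕ := m.degree with hi
  have hqi : homogeneousComponent i q ≠ 0 := by
    intro h3
    have h4 := coeff_homogeneousComponent i q m
    rw [h3, if_pos hi.symm, coeff_zero] at h4
    exact hm h4.symm
  have h5 : homogeneousComponent (a + i) (p * q) = p * homogeneousComponent i q := by
    conv_lhs => rw [← sum_homogeneousComponent q, Finset.mul_sum, map_sum]
    have h6 : ∀ j, homogeneousComponent (a + i) (p * homogeneousComponent j q) =
        if j = i then p * homogeneousComponent j q else 0 := by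
      intro j
      have h7 : (p * homogeneousComponent j q) ∈ homogeneousSubmodule (Fin n) ℂ (a + j) :=
        h1.mul (homogeneousComponent_isHomogeneous j q)
      rw [homogeneousComponent_of_mem h7]
      by_cases hj : j = i
      · rw [if_pos (by omega), if_pos hj]
      · rw [if_neg (by omega), if_neg hj]
    simp only [h6]
    rw [Finset.sum_ite_eq']
    by_cases hr : i ∈ Finset.range (q.totalDegree + 1)
    · rw [if_pos hr]
    · rw [if_neg hr]
      rw [Finset.mem_range, not_lt] at hr
      rw [homogeneousComponent_eq_zero i q (by omega), mul_zero]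
  have h8 : (p * q) ∈ homogeneousSubmodule (Fin n) ℂ b := h2
  rw [homogeneousComponent_of_mem h8] at h5
  have h9 : a + i = b := by
    by_contra hne
    rw [if_neg hne] at h5
    exact mul_ne_zero h0 hqi h5.symm
  have h10 : (m.sum fun _ e => e : ℕ) = i := rfl
  rw [h10]
  omega

/-- Different degrees: a polynomial homogeneous of two degrees is zero. -/
theorem HZ.eq_zero_of_ne {d e : ℤ} (h : d ≠ e) {p : AA n} (hp : HZ d p) (hp' : HZ e p) :
    p = 0 := by
  by_contra h0
  obtain ⟨m, hm⟩ := MvPolynomial.exists_coeff_ne_zero h0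
  exact h ((hp m hm).symm.trans (hp' m hm))

/-- Product of pairwise non-dividing primes, each dividing `c`.  Induction on the finset:
`c = (∏ f) c'`; the new prime divides `c` but none of the `f i`, so it divides `c'`. -/
theorem prod_dvd_of_prime {ι : Type*} (s : Finset ι) (f : ι → AA n) (c : AA n)
    (hp : ∀ i ∈ s, Prime (f i)) (hne : ∀ i ∈ s, ∀ j ∈ s, i ≠ j → ¬ f i ∣ f j)
    (hd : ∀ i ∈ s, f i ∣ c) : ∏ i ∈ s, f i ∣ c := by
  classical
  induction s using Finset.induction_on with
  | empty => rw [Finset.prod_empty]; exact one_dvd c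
  | insert a s ha ih =>
    obtain ⟨c', hc'⟩ := ih (fun i hi => hp i (Finset.mem_insert_of_mem hi))
      (fun i hi j hj => hne i (Finset.mem_insert_of_mem hi) j (Finset.mem_insert_of_mem hj))
      (fun i hi => hd i (Finset.mem_insert_of_mem hi))
    have h1 : f a ∣ (∏ i ∈ s, f i) * c' := by
      rw [← hc']
      exact hd a (Finset.mem_insert_self a s)
    have hpa := hp a (Finset.mem_insert_self a s)
    rcases hpa.dvd_or_dvd h1 with h2 | h2
    · exfalso
      obtain ⟨i, hi, h3⟩ := (Prime.dvd_finsetProd_iff hpa _).1 h2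
      refine hne a (Finset.mem_insert_self a s) i (Finset.mem_insert_of_mem hi) ?_ h3
      rintro rfl
      exact ha hi
    · obtain ⟨c'', hc''⟩ := h2
      rw [Finset.prod_insert ha]
      refine ⟨c'', ?_⟩
      rw [hc', hc'']
      ring

end Pool.Agent.MTX
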