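import Pool.Agent.MTX.K6
import Pool.Agent.MTX.T1

/-! # MTX, section 7 : the generic slice element `sv` and the conjugator `pm`; (7.4) -/

namespace Pool.Agent.MTX

open Matrix
open Pool.Agent.MTD (ev ev_add ev_sub ev_neg ev_smul ev_zero ev_add_left ev_sub_left ev_neg_left
  ev_smul_left ev_zero_left ev_sum_left ev_sum ev_map ev_comm)

namespace SLD

variable {n : ℕ} (D : SLD n)

section
variable {R : Type*} [CommRing R]

/-- it suffices to check the bracket on basis vectors -/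
theorem br_of_basis {g : Matrix D.BI D.BI R}
    (h : ∀ a c, g *ᵥ D.br (Pi.single a 1) (Pi.single c 1) =
      D.br (g *ᵥ Pi.single a 1) (g *ᵥ Pi.single c 1)) (X Y : D.BI → R) :
    g *ᵥ D.br X Y = D.br (g *ᵥ X) (g *ᵥ Y) := by
  have e : ∀ X : D.BI → R, X = ∑ a, X a • (Pi.single a 1 : D.BI → R) := by
    intro X
    funext b
    simp [Finset.sum_apply, Pi.single_apply]
  rw [e X, e Y]
  simp only [br_sum_left, br_sum_right, br_smul_left, br_smul_right, Matrix.mulVec_sum,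
    Matrix.mulVec_smul, h]

/-- bracket preserving and lower unipotent -/
structure BrU (u : Matrix D.BI D.BI R) : Prop where
  br : ∀ X Y, u *ᵥ D.br X Y = D.br (u *ᵥ X) (u *ᵥ Y)
  lo : D.LoU u

variable {D}

theorem BrU.mul {u v : Matrix D.BI D.BI R} (hu : D.BrU u) (hv : D.BrU v) : D.BrU (u * v) :=
  ⟨fun X Y => by
    rw [← Matrix.mulVec_mulVec, hv.br, hu.br, Matrix.mulVec_mulVec, Matrix.mulVec_mulVec],
    hu.lo.mul hv.lo⟩

theorem BrU.det {u : Matrix D.BI D.BI R} (hu : D.BrU u) : IsUnit u.det := by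
  rw [hu.lo.det]; exact isUnit_one

theorem BrU.inv_mul {u : Matrix D.BI D.BI R} (hu : D.BrU u) : u⁻¹ * u = 1 :=
  Matrix.nonsing_inv_mul u hu.det

theorem BrU.mul_inv {u : Matrix D.BI D.BI R} (hu : D.BrU u) : u * u⁻¹ = 1 :=
  Matrix.mul_nonsing_inv u hu.det

theorem BrU.inv {u : Matrix D.BI D.BI R} (hu : D.BrU u) : D.BrU u⁻¹ := by
  refine ⟨fun X Y => ?_, hu.lo.inv⟩
  have h := hu.br (u⁻¹ *ᵥ X) (u⁻¹ *ᵥ Y)
  rw [Matrix.mulVec_mulVec, Matrix.mulVec_mulVec, hu.mul_inv, Matrix.one_mulVec,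
    Matrix.one_mulVec] at h
  rw [← h, Matrix.mulVec_mulVec, hu.inv_mul, Matrix.one_mulVec]

theorem BrU.ad {u : Matrix D.BI D.BI R} (hu : D.BrU u) (X : D.BI → R) :
    u * D.ad X = D.ad (u *ᵥ X) * u := by
  refine Matrix.ext_of_mulVec_single fun a => ?_
  rw [← Matrix.mulVec_mulVec, ← Matrix.mulVec_mulVec]
  exact hu.br X (Pi.single a 1)

theorem map_mulVec {S : Type*} [CommRing S] (φ : R →+* S) (g : Matrix D.BI D.BI R)
    (X : D.BI → R) : g.map φ *ᵥ (fun a => φ (X a)) = fun a => φ ((g *ᵥ X) a) := by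
  funext a
  simp [Matrix.mulVec, dotProduct]

theorem BrU.map {S : Type*} [CommRing S] (φ : R →+* S) {u : Matrix D.BI D.BI R}
    (hu : D.BrU u) : D.BrU (u.map φ) := by
  constructor
  · apply D.br_of_basis
    intro a c
    have e : ∀ a, (Pi.single a 1 : D.BI → S) = fun b => φ ((Pi.single a 1 : D.BI → R) b) := by
      intro a; funext b
      rw [Pi.single_apply, Pi.single_apply]; split_ifs <;> simp
    rw [e a, e c, map_mulVec, map_mulVec]
    have e2 : D.br (fun b => φ ((Pi.single a 1 : D.BI → R) b))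
        (fun b => φ ((Pi.single c 1 : D.BI → R) b)) =
        fun b => φ (D.br (Pi.single a 1) (Pi.single c 1) b) := by
      funext b; rw [br_map]
    rw [e2, map_mulVec, hu.br]
    funext b
    rw [br_map]
  · constructor
    · intro a; rw [Matrix.map_apply, hu.lo.1, map_one]
    · intro a c h1 h2; rw [Matrix.map_apply, hu.lo.2 a c h1 h2, map_zero]

end

/-- uniqueness, for `BrU` -/
theorem BrU.eq_one {R : Type*} [CommRing R] [Algebra ℂ R] {D : SLD n} {u : Matrix D.BI D.BI R}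
    (hu : D.BrU u) {v v' : D.BI → R} (hv : D.Ff R *ᵥ v = 0) (hv' : D.Ff R *ᵥ v' = 0)
    (h : u *ᵥ (D.ee R + v) = D.ee R + v') : u = 1 :=
  uniq hu.ad hu.lo hv hv' h

/-- the grading of `A` -/
theorem gr_HZ : Gr (fun (d : ℤ) (p : AA n) => HZ d p) where
  zero := HZ.zero
  add := HZ.add
  mul := HZ.mul
  const c := HZ.C c

theorem fm0_ev (y : Fin n → ℤ) : fm0 y = ev y (MvPolynomial.X : Fin n → AA n) := by
  unfold fm0 lin ev
  refine Finset.sum_congr rfl fun j _ => ?_
  simp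

theorem HZ_X (k : Fin n) : HZ 1 (MvPolynomial.X k : AA n) := by
  rw [← fm0_al]; exact HZ_fm0 _

theorem exists_pm : ∃ (u : Matrix D.BI D.BI (AA n)) (w : D.BI → AA n), (∀ F : Frm D, IsGp F u) ∧
    (∀ X Y, u *ᵥ D.br X Y = D.br (u *ᵥ X) (u *ᵥ Y)) ∧ D.LoU u ∧
    D.MP (fun d (p : AA n) => HZ d p) 0 u ∧
    u *ᵥ (D.ee (AA n) + D.tt MvPolynomial.X) = D.ee (AA n) + w ∧
    D.VP (fun d (p : AA n) => HZ d p) 1 w ∧ D.Ff (AA n) *ᵥ w = 0 := by
  apply D.exists_slice gr_HZ
  · intro a ha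
    exact (InH.tt (D := D) _ a ha).le
  · intro a
    rcases a with k | γ
    · rw [tt_inl, hI_inl, sub_zero]; exact HZ_X k
    · rw [tt_inr]; exact HZ.zero _

/-- the conjugator -/
noncomputable def pm : Matrix D.BI D.BI (AA n) := D.exists_pm.choose

/-- the slice coordinates -/
noncomputable def sk : D.BI → AA n := D.exists_pm.choose_spec.choose

/-- the generic slice element -/
noncomputable def sv : D.BI → AA n := D.ee (AA n) + D.sk

theorem pm_G (F : Frm D) : IsGp F D.pm := D.exists_pm.choose_spec.choose_spec.1 F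

theorem pm_BrU : D.BrU D.pm :=
  ⟨D.exists_pm.choose_spec.choose_spec.2.1, D.exists_pm.choose_spec.choose_spec.2.2.1⟩

theorem pm_MP : D.MP (fun d (p : AA n) => HZ d p) 0 D.pm :=
  D.exists_pm.choose_spec.choose_spec.2.2.2.1

theorem pm_conj : D.pm *ᵥ (D.ee (AA n) + D.tt MvPolynomial.X) = D.sv :=
  D.exists_pm.choose_spec.choose_spec.2.2.2.2.1

theorem sk_VP : D.VP (fun d (p : AA n) => HZ d p) 1 D.sk :=
  D.exists_pm.choose_spec.choose_spec.2.2.2.2.2.1

theorem sk_ker : D.Ff (AA n) *ᵥ D.sk = 0 := D.exists_pm.choose_spec.choose_spec.2.2.2.2.2.2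

theorem sv_VP : D.VP (fun d (p : AA n) => HZ d p) 1 D.sv := by
  unfold sv
  exact VP.add gr_HZ (vp_ee D gr_HZ) D.sk_VP

/-! ### values in an algebra -/

section alg
variable {K : Type*} [CommRing K] [Algebra ℂ K]

/-- the slice element of `x` -/
noncomputable def svK (x : Fin n → K) : D.BI → K := fun a => MvPolynomial.aeval x (D.sv a)

/-- the slice coordinates of `x` -/
noncomputable def skK (x : Fin n → K) : D.BI → K := fun a => MvPolynomial.aeval x (D.sk a)

/-- the conjugator at `x` -/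
noncomputable def pmK (x : Fin n → K) : Matrix D.BI D.BI K := D.pm.map (MvPolynomial.aeval x)

theorem svK_eq (x : Fin n → K) : D.svK x = D.ee K + D.skK x := by
  funext a
  unfold svK skK sv
  rw [Pi.add_apply, Pi.add_apply, map_add, ← D.ee_map (AA n), ← D.ee_map K]
  congr 1
  exact (MvPolynomial.aeval x).commutes _

theorem map_Ff {S : Type*} [CommRing S] [Algebra ℂ S] (φ : K →ₐ[ℂ] S) (v : D.BI → K) :
    D.Ff S *ᵥ (fun a => φ (v a)) = fun a => φ ((D.Ff K *ᵥ v) a) := by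
  have h := map_mulVec (φ : K →+* S) (D.Ff K) v
  have h1 : (D.Ff K).map (φ : K →+* S) = D.Ff S := by
    rw [← D.Ff_map K, ← D.Ff_map S, Matrix.map_map]
    congr 1
    funext c
    exact φ.commutes c
  rw [h1] at h
  exact h

theorem skK_ker (x : Fin n → K) : D.Ff K *ᵥ D.skK x = 0 := by
  unfold skK
  rw [D.map_Ff (MvPolynomial.aeval x), sk_ker]
  funext a
  simp

theorem pmK_BrU (x : Fin n → K) : D.BrU (D.pmK x) :=
  D.pm_BrU.map ((MvPolynomial.aeval x : AA n →ₐ[ℂ] K) : AA n →+* K)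

theorem pmK_G (F : Frm D) (x : Fin n → K) : IsGp F (D.pmK x) :=
  (D.pm_G F).map (MvPolynomial.aeval x)

theorem pmK_conj (x : Fin n → K) : D.pmK x *ᵥ (D.ee K + D.tt x) = D.svK x := by
  have h := map_mulVec ((MvPolynomial.aeval x : AA n →ₐ[ℂ] K) : AA n →+* K) D.pm
    (D.ee (AA n) + D.tt MvPolynomial.X)
  rw [pm_conj] at h
  have h2 : (fun a => ((MvPolynomial.aeval x : AA n →ₐ[ℂ] K) : AA n →+* K)
      ((D.ee (AA n) + D.tt MvPolynomial.X : D.BI → AA n) a)) = D.ee K + D.tt x := by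
    funext a
    rw [Pi.add_apply, Pi.add_apply, map_add, ← D.ee_map (AA n), ← D.ee_map K]
    congr 1
    · exact (MvPolynomial.aeval x).commutes _
    · rcases a with k | γ
      · simp
      · simp
  rw [h2] at h
  exact h

end alg

/-! ### (7.4) -/

section refl
variable {R : Type*} [CommRing R] [Algebra ℂ R]

theorem br_self (X : D.BI → R) : D.br X X = 0 := by
  have h := D.br_anti X X
  refine D.tors 2 _ (by norm_num) ?_
  rw [two_smul]
  nth_rewrite 1 [h]
  exact neg_add_cancel _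

/-- `exp(- x_i [e_{-α_i}, ·]) (e + x) = e + s_i x` -/
theorem exp_slice (i : Fin n) (x : Fin n → R) :
    D.expB (D.ad ((- x i) • D.er R (-(D.al i).1))) *ᵥ (D.ee R + D.tt x) =
      D.ee R + D.tt (D.tact (D.rO (D.al i)) x) := by
  obtain ⟨f, hf⟩ : ∃ f, f = D.er R (-(D.al i).1) := ⟨_, rfl⟩
  have h1 : D.br f (D.ee R) = D.tt (D.hv R (D.al i).1) := by
    rw [br_anti, hf, ee, br_sum_left, Finset.sum_eq_single i, br_al_neg, if_pos rfl, neg_neg]
    · intro j _ hj
      rw [br_al_neg, if_neg hj]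
    · intro h; exact absurd (Finset.mem_univ i) h
  have h2 : ∀ y : Fin n → R, D.br f (D.tt y) = y i • f := by
    intro y
    rw [hf, br_er_tt, ev_neg_left, ev_al, neg_smul, neg_neg]
  have h3 : D.br f f = 0 := D.br_self f
  have h4 : (D.hv R (D.al i).1) i = 2 := by
    rw [hv, B_al_al, D.diag]; norm_num
  have hA : ∀ v, D.ad ((- x i) • f) *ᵥ v = (- x i) • D.br f v := by
    intro v
    exact D.br_smul_left _ _ _
  have e1 : D.ad ((- x i) • f) *ᵥ (D.ee R + D.tt x) =
      (- x i) • (D.tt (D.hv R (D.al i).1) + x i • f) := by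
    rw [hA, br_add_right, h1, h2]
  have e2 : D.ad ((- x i) • f) *ᵥ (D.ad ((- x i) • f) *ᵥ (D.ee R + D.tt x)) =
      (2 * (x i * x i)) • f := by
    rw [e1, hA, br_smul_right, br_add_right, h2, h4, br_smul_right, h3, smul_zero, add_zero,
      smul_smul, smul_smul]
    congr 1; ring
  have e3 : D.ad ((- x i) • f) *ᵥ (D.ad ((- x i) • f) *ᵥ (D.ad ((- x i) • f) *ᵥ
      (D.ee R + D.tt x))) = 0 := by
    rw [e2, hA, br_smul_right, h3, smul_zero, smul_zero]
  rw [← hf, D.expB_mulVec_three _ _ e3, e2, e1, tact_rO, ev_al]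
  have e4 : algebraMap ℂ R (1 / 2) * 2 = 1 := by
    have : algebraMap ℂ R (1 / 2) * algebraMap ℂ R 2 = 1 := by
      rw [← map_mul]; norm_num
    rwa [map_ofNat] at this
  rw [smul_smul, show algebraMap ℂ R (1 / 2) * (2 * (x i * x i)) = x i * x i by
    rw [← mul_assoc, e4, one_mul], sub_eq_add_neg, tt_add, tt_neg, tt_smul, smul_add, smul_smul,
    neg_smul]
  have e5 : (-x i * x i) • f = - ((x i * x i) • f) := by rw [neg_mul, neg_smul]
  rw [e5]
  abel

theorem exp_slice_BrU (i : Fin n) (c : R) : D.BrU (D.expB (D.ad (c • D.er R (-(D.al i).1)))) := by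
  have h1 : D.InH (-1) (c • D.er R (-(D.al i).1)) := by
    have := (InH.er (D := D) (R := R) (-(D.al i).1)).smul c
    rwa [ht_neg, ht_al] at this
  have h2 : ∀ a, (c • D.er R (-(D.al i).1)) a ≠ 0 → D.hI a < 0 := fun a h => by
    have := h1 a h; omega
  exact ⟨D.exp_br _ (D.pow_down _ (D.ad_down h2)),
    D.loU_exp (d := 1) le_rfl (LoD.ad fun a h => (h1 a h).le)⟩

end refl

theorem actO_X_fun (u : D.OQ) :
    (fun k => D.actO u (MvPolynomial.X k)) = D.tact u⁻¹ (MvPolynomial.X : Fin n → AA n) := by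
  funext k
  rw [actO_X, fm0_ev]
  show ev _ _ = ev ((u⁻¹⁻¹).1 (D.al k).1) _
  rw [inv_inv]; rfl

theorem sv_refl_al (i : Fin n) (a : D.BI) : D.actO (D.rO (D.al i)) (D.sv a) = D.sv a := by
  obtain ⟨φ, hφ⟩ : ∃ φ, φ = D.actO (D.rO (D.al i)) := ⟨_, rfl⟩
  obtain ⟨E, hE⟩ : ∃ E, E = D.expB (D.ad ((- MvPolynomial.X i : AA n) •
    D.er (AA n) (-(D.al i).1))) := ⟨_, rfl⟩
  have h1 : E *ᵥ (D.ee (AA n) + D.tt MvPolynomial.X) =
      D.ee (AA n) + D.tt (fun k => φ (MvPolynomial.X k)) := by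
    rw [hE, D.exp_slice i MvPolynomial.X, hφ, actO_X_fun, rO_inv]
  have hEu : D.BrU E := hE ▸ D.exp_slice_BrU i _
  have hpu := D.pm_BrU.map (φ : AA n →+* AA n)
  have h2 : D.pm.map (φ : AA n →+* AA n) *ᵥ
      (D.ee (AA n) + D.tt (fun k => φ (MvPolynomial.X k))) = fun a => φ (D.sv a) := by
    have h := map_mulVec (φ : AA n →+* AA n) D.pm (D.ee (AA n) + D.tt MvPolynomial.X)
    rw [pm_conj] at h
    have h3 : (fun a => (φ : AA n →+* AA n)
        ((D.ee (AA n) + D.tt MvPolynomial.X : D.BI → AA n) a)) =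
          D.ee (AA n) + D.tt (fun k => φ (MvPolynomial.X k)) := by
      funext a
      rw [Pi.add_apply, Pi.add_apply, map_add, ← D.ee_map (AA n)]
      congr 1
      · exact φ.commutes _
      · rcases a with k | γ
        · simp
        · simp
    rw [h3] at h
    exact h
  have h4 : (fun a => φ (D.sv a)) = D.ee (AA n) + fun a => φ (D.sk a) := by
    funext a
    unfold sv
    rw [Pi.add_apply, Pi.add_apply, map_add, ← D.ee_map (AA n)]
    congr 1
    exact φ.commutes _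
  have h5 : D.Ff (AA n) *ᵥ (fun a => φ (D.sk a)) = 0 := by
    rw [D.map_Ff φ, sk_ker]
    funext a
    simp
  have h6 : (D.pm.map (φ : AA n →+* AA n) * E * D.pm⁻¹) *ᵥ (D.ee (AA n) + D.sk) =
      D.ee (AA n) + fun a => φ (D.sk a) := by
    rw [← Matrix.mulVec_mulVec, ← Matrix.mulVec_mulVec]
    have h7 : D.pm⁻¹ *ᵥ (D.ee (AA n) + D.sk) = D.ee (AA n) + D.tt MvPolynomial.X := by
      have h8 : D.ee (AA n) + D.sk = D.sv := rfl
      rw [h8, ← pm_conj, Matrix.mulVec_mulVec, D.pm_BrU.inv_mul, Matrix.one_mulVec]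
    rw [h7, h1, h2, h4]
  have h7 := BrU.eq_one ((hpu.mul hEu).mul D.pm_BrU.inv) D.sk_ker h5 h6
  rw [h7, Matrix.one_mulVec, ← h4] at h6
  rw [← hφ]
  exact (congrFun h6 a).symm

/-- (7.4) the generic slice element is invariant under `W` -/
theorem sv_inv {u : D.OQ} (hu : u ∈ D.W) (a : D.BI) : D.actO u (D.sv a) = D.sv a := by
  have hu' : u ∈ Subgroup.closure (Set.range fun i => D.rO (D.al i)) := hu
  induction hu' using Subgroup.closure_induction generalizing a with
  | mem v hv =>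
    obtain ⟨i, rfl⟩ := hv
    exact D.sv_refl_al i a
  | one => rw [actO_one]; rfl
  | mul v w hv hw ihv ihw =>
    rw [actO_mul, AlgHom.comp_apply, ihw hw, ihv hv]
  | inv v hv ih =>
    have h1 : D.actO v⁻¹ (D.actO v (D.sv a)) = D.sv a := by
      rw [← AlgHom.comp_apply, ← actO_mul, inv_mul_cancel, actO_one]; rfl
    rw [ih hv a] at h1
    exact h1

section alg
variable {K : Type*} [CommRing K] [Algebra ℂ K]

theorem aeval_actO (u : D.OQ) (x : Fin n → K) (p : AA n) :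
    MvPolynomial.aeval x (D.actO u p) = MvPolynomial.aeval (D.tact u⁻¹ x) p := by
  have h : (MvPolynomial.aeval x).comp (D.actO u) =
      (MvPolynomial.aeval (D.tact u⁻¹ x) : AA n →ₐ[ℂ] K) := by
    apply MvPolynomial.algHom_ext
    intro k
    rw [AlgHom.comp_apply, actO_X, MvPolynomial.aeval_X, fm0_ev]
    have h1 := ev_map ((MvPolynomial.aeval x : AA n →ₐ[ℂ] K) : AA n →+* K)
      (u.1 (Pi.single k 1)) MvPolynomial.X
    have h2 : (fun l => ((MvPolynomial.aeval x : AA n →ₐ[ℂ] K) : AA n →+* K)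
      (MvPolynomial.X l)) = x := by
      funext l; simp
    rw [h2] at h1
    show _ = ev ((u⁻¹⁻¹).1 (D.al k).1) x
    rw [inv_inv]
    exact h1
  exact congrArg (fun f => f p) h

theorem svK_W {u : D.OQ} (hu : u ∈ D.W) (x : Fin n → K) : D.svK (D.tact u x) = D.svK x := by
  funext a
  unfold svK
  have h := D.aeval_actO u⁻¹ x (D.sv a)
  rw [inv_inv, D.sv_inv (D.W.inv_mem hu)] at h
  exact h.symm

end alg

end SLD

end Pool.Agent.MTX
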