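import Pool.Agent.MTX.K7

/-! # MTX, section 7 : (7.5), (7.6) -/

namespace Pool.Agent.MTX

open Matrix
open Pool.Agent.MTD (ev ev_add ev_sub ev_neg ev_smul ev_zero ev_add_left ev_sub_left ev_neg_left
  ev_smul_left ev_zero_left ev_sum_left ev_sum ev_map ev_comm)

namespace SLD

variable {n : ℕ} (D : SLD n)

theorem ee_supp {R : Type*} [CommRing R] (a : D.BI) (h : D.ee R a ≠ 0) : 0 < D.hI a := by
  have := D.ee_inH R a h
  omega

/-- the characteristic polynomial of the slice element -/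
theorem charpoly_svK {K : Type*} [CommRing K] [Algebra ℂ K] (x : Fin n → K) :
    (D.ad (D.svK x)).charpoly = ∏ a, (Polynomial.X - Polynomial.C (ev (D.wI a) x)) := by
  have h1 := (D.pmK_BrU x).ad (D.ee K + D.tt x)
  rw [pmK_conj] at h1
  have h2 : D.ad (D.svK x) = D.pmK x * D.ad (D.ee K + D.tt x) * (D.pmK x)⁻¹ := by
    rw [h1, Matrix.mul_assoc, (D.pmK_BrU x).mul_inv, Matrix.mul_one]
  rw [h2, Matrix.charpoly_mul_comm, ← Matrix.mul_assoc, (D.pmK_BrU x).inv_mul, Matrix.one_mul,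
    charpoly_ex]

/-- a point with the same slice element as a regular point is regular -/
theorem reg_of_svK {K : Type*} [Field K] [Algebra ℂ K] {x x' : Fin n → K}
    (hx : ∀ γ : D.Rt, ev γ.1 x ≠ 0) (h : D.svK x = D.svK x') (γ : D.Rt) : ev γ.1 x' ≠ 0 := by
  have h1 := D.charpoly_svK x
  rw [h, charpoly_svK, prod_BI, prod_BI] at h1
  have h2 := mul_left_cancel₀ (pow_ne_zero n Polynomial.X_ne_zero) h1
  have h3 := congrArg (Polynomial.eval 0) h2
  simp only [Polynomial.eval_prod, Polynomial.eval_sub, Polynomial.eval_X, Polynomial.eval_C,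
    zero_sub] at h3
  have h4 : ∏ γ : D.Rt, - ev γ.1 x ≠ 0 := Finset.prod_ne_zero_iff.2 fun γ _ => neg_ne_zero.2 (hx γ)
  rw [← h3] at h4
  exact neg_ne_zero.1 (Finset.prod_ne_zero_iff.1 h4 γ (Finset.mem_univ _))

/-- (7.6), first part -/
theorem fiber (F : Frm D) {K : Type*} [Field K] [Algebra ℂ K] {x x' : Fin n → K}
    (hx : ∀ γ : D.Rt, ev γ.1 x ≠ 0) (h : D.svK x = D.svK x') : ∃ u ∈ D.W, x' = D.tact u x := by
  have hx' := D.reg_of_svK hx h
  obtain ⟨b, hb, -, hb2⟩ := D.exists_diag hx (w := D.ee K) fun a ha => D.ee_supp a ha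
  obtain ⟨b', hb', -, hb'2⟩ := D.exists_diag hx' (w := D.ee K) fun a ha => D.ee_supp a ha
  have hg : IsGp F (b' * ((D.pmK x')⁻¹ * (D.pmK x * b⁻¹))) :=
    (hb' F).mul ((D.pmK_G F x').inv.mul ((D.pmK_G F x).mul (hb F).inv))
  have h1 : (b' * ((D.pmK x')⁻¹ * (D.pmK x * b⁻¹))) *ᵥ D.tt x = D.tt x' := by
    rw [← Matrix.mulVec_mulVec, ← Matrix.mulVec_mulVec, ← Matrix.mulVec_mulVec]
    have e1 : b⁻¹ *ᵥ D.tt x = D.ee K + D.tt x := by
      have e0 := congrArg (fun w => b⁻¹ *ᵥ w) hb2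
      simp only [Matrix.mulVec_mulVec, (hb F).inv_mul, Matrix.one_mulVec] at e0
      rw [← e0, add_comm]
    have e2 : (D.pmK x')⁻¹ *ᵥ D.svK x' = D.ee K + D.tt x' := by
      rw [← pmK_conj, Matrix.mulVec_mulVec, (D.pmK_BrU x').inv_mul, Matrix.one_mulVec]
    rw [e1, pmK_conj, h, e2, add_comm, hb'2]
  obtain ⟨u, hu, h2⟩ := hg.exists_W hx h1
  exact ⟨u, hu, D.tt_inj (h1.symm.trans (h2 x))⟩

/-! ### coordinates on the slice -/

instance : FiniteDimensional ℂ D.kerF := inferInstance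

/-- a basis of the kernel of `f` -/
noncomputable def bk : Module.Basis (Fin n) ℂ D.kerF :=
  Module.finBasisOfFinrankEq ℂ D.kerF D.finrank_kerF

/-- the coordinates of the projections of the basis vectors -/
noncomputable def cf (j : Fin n) (c : D.BI) : ℂ :=
  D.bk.repr ⟨D.pM *ᵥ Pi.single c 1, by
    show D.Ff ℂ *ᵥ (D.pM *ᵥ Pi.single c 1) = 0
    rw [Matrix.mulVec_mulVec, Ff_pM, Matrix.zero_mulVec]⟩ j

theorem pM_eq (a c : D.BI) : D.pM a c = ∑ j, D.cf j c * (D.bk j).1 a := by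
  have h := D.bk.sum_repr ⟨D.pM *ᵥ Pi.single c 1, by
    show D.Ff ℂ *ᵥ (D.pM *ᵥ Pi.single c 1) = 0
    rw [Matrix.mulVec_mulVec, Ff_pM, Matrix.zero_mulVec]⟩
  have h1 := congrFun (congrArg Subtype.val h) a
  have h2 : D.pM a c = (D.pM *ᵥ Pi.single c 1) a := by rw [Matrix.mulVec_single_one]; rfl
  rw [h2]
  refine h1.symm.trans ?_
  simp only [Submodule.coe_sum, Finset.sum_apply, Submodule.coe_smul, Pi.smul_apply, smul_eq_mul]
  rfl

/-- coordinates of an element of the kernel of `f` over an algebra -/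
theorem ker_coord {R : Type*} [CommRing R] [Algebra ℂ R] {v : D.BI → R} (h : D.Ff R *ᵥ v = 0)
    (a : D.BI) : v a = ∑ j, algebraMap ℂ R ((D.bk j).1 a) *
      ∑ c, algebraMap ℂ R (D.cf j c) * v c := by
  have h1 := congrFun (D.pR_ker h) a
  rw [← h1, Matrix.mulVec, dotProduct]
  simp only [pR, Matrix.map_apply, pM_eq, map_sum, Finset.sum_mul, Finset.mul_sum, map_mul]
  rw [Finset.sum_comm]
  refine Finset.sum_congr rfl fun j _ => Finset.sum_congr rfl fun c _ => ?_
  ring

/-- the coordinates of the generic slice element -/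
noncomputable def qc (j : Fin n) : AA n := ∑ c, MvPolynomial.C (D.cf j c) * D.sk c

theorem sk_eq (a : D.BI) : D.sk a = ∑ j, MvPolynomial.C ((D.bk j).1 a) * D.qc j :=
  D.ker_coord D.sk_ker a

/-- the algebra generated by the coordinates -/
noncomputable def CC : Subalgebra ℂ (AA n) := Algebra.adjoin ℂ (Set.range D.qc)

theorem qc_mem (j : Fin n) : D.qc j ∈ D.CC := Algebra.subset_adjoin ⟨j, rfl⟩

theorem sk_mem (a : D.BI) : D.sk a ∈ D.CC := by
  rw [sk_eq]
  exact D.CC.sum_mem fun j _ => D.CC.mul_mem (D.CC.algebraMap_mem _) (D.qc_mem j)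

theorem sv_mem (a : D.BI) : D.sv a ∈ D.CC := by
  unfold sv
  rw [Pi.add_apply, ← ee_map]
  exact D.CC.add_mem (D.CC.algebraMap_mem _) (D.sk_mem a)

theorem svK_X : D.svK (MvPolynomial.X : Fin n → AA n) = D.sv := by
  funext a
  unfold svK
  rw [MvPolynomial.aeval_X_left]; rfl

/-- `x_k` is integral over the algebra of the coordinates -/
theorem isIntegral_X (k : Fin n) : IsIntegral D.CC (MvPolynomial.X k : AA n) := by
  let s : D.BI → D.CC := fun a => ⟨D.sv a, D.sv_mem a⟩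
  refine ⟨(D.ad s).charpoly, Matrix.charpoly_monic _, ?_⟩
  have h1 : (D.ad s).charpoly.map (algebraMap D.CC (AA n)) = (D.ad D.sv).charpoly := by
    rw [← Matrix.charpoly_map, ad_map]
    rfl
  rw [← Polynomial.eval_map, h1, ← svK_X, charpoly_svK, Polynomial.eval_prod]
  refine Finset.prod_eq_zero (Finset.mem_univ (Sum.inr (D.al k))) ?_
  rw [Polynomial.eval_sub, Polynomial.eval_X, Polynomial.eval_C, wI_inr, ev_al, sub_self]

theorem isIntegral_CC : Algebra.IsIntegral D.CC (AA n) := by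
  constructor
  intro p
  induction p using MvPolynomial.induction_on with
  | C c => exact isIntegral_algebraMap (R := D.CC) (A := AA n) (x := algebraMap ℂ D.CC c)
  | add p q hp hq => exact hp.add hq
  | mul_X p k hp => exact hp.mul (D.isIntegral_X k)

/-- the coordinates are algebraically independent -/
theorem algInd : AlgebraicIndependent ℂ D.qc := by
  have h1 : Algebra.IsIntegral (Algebra.adjoin ℂ (Set.range D.qc)) (AA n) := D.isIntegral_CC
  have h2 : Algebra.IsAlgebraic (Algebra.adjoin ℂ (Set.range D.qc)) (AA n) := inferInstance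
  refine (Algebra.IsAlgebraic.isTranscendenceBasis_of_le_trdeg_of_finite ℂ D.qc ?_).1
  rw [MvPolynomial.trdeg_of_isDomain]
  simp

/-- the algebra of the coordinates is a polynomial ring -/
noncomputable def CCe : MvPolynomial (Fin n) ℂ ≃ₐ[ℂ] D.CC := D.algInd.aevalEquiv

theorem CCe_X (j : Fin n) : (D.CCe (MvPolynomial.X j) : AA n) = D.qc j := by
  unfold CCe
  have := D.algInd.algebraMap_aevalEquiv (MvPolynomial.X j)
  rw [MvPolynomial.aeval_X] at this
  exact this

/-- `x ↦ (q_j(x))` is onto -/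
theorem qc_surj (c : Fin n → ℂ) : ∃ x : Fin n → ℂ, ∀ j, MvPolynomial.eval x (D.qc j) = c j := by
  have hint := D.isIntegral_CC
  let χ : D.CC →ₐ[ℂ] ℂ := (MvPolynomial.aeval c).comp D.CCe.symm.toAlgHom
  have hs : Function.Surjective (χ : D.CC →+* ℂ) := fun z =>
    ⟨algebraMap ℂ D.CC z, χ.commutes z⟩
  have hmax : (RingHom.ker (χ : D.CC →+* ℂ)).IsMaximal := RingHom.ker_isMaximal_of_surjective _ hs
  have hker : RingHom.ker (algebraMap D.CC (AA n)) ≤ RingHom.ker (χ : D.CC →+* ℂ) := by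
    intro z hz
    have : z = 0 := Subtype.ext hz
    rw [this]
    exact Ideal.zero_mem _
  obtain ⟨Q, hQ, hQ2⟩ := Ideal.exists_ideal_over_maximal_of_isIntegral (S := AA n)
    (RingHom.ker (χ : D.CC →+* ℂ)) hker
  obtain ⟨x, hx⟩ := MvPolynomial.isMaximal_iff_eq_vanishingIdeal_singleton.1 hQ
  refine ⟨x, fun j => ?_⟩
  have h1 : D.CCe (MvPolynomial.X j) - algebraMap ℂ D.CC (c j) ∈
      RingHom.ker (χ : D.CC →+* ℂ) := by
    rw [RingHom.mem_ker, map_sub]
    have e1 : (χ : D.CC →+* ℂ) (D.CCe (MvPolynomial.X j)) = c j := by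
      show MvPolynomial.aeval c (D.CCe.symm (D.CCe (MvPolynomial.X j))) = c j
      rw [AlgEquiv.symm_apply_apply, MvPolynomial.aeval_X]
    have e2 : (χ : D.CC →+* ℂ) (algebraMap ℂ D.CC (c j)) = c j := χ.commutes _
    rw [e1, e2, sub_self]
  rw [← hQ2, Ideal.mem_comap, hx, MvPolynomial.mem_vanishingIdeal_singleton_iff, map_sub,
    map_sub] at h1
  have h2 : MvPolynomial.aeval x (D.qc j) = c j := by
    have h3 : algebraMap D.CC (AA n) (D.CCe (MvPolynomial.X j)) = D.qc j := D.CCe_X j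
    have h4 : algebraMap D.CC (AA n) (algebraMap ℂ D.CC (c j)) = MvPolynomial.C (c j) := rfl
    rw [h3, h4, MvPolynomial.aeval_C, sub_eq_zero] at h1
    exact h1
  simpa [MvPolynomial.aeval_eq_eval] using h2

/-- the slice -/
def S0 : Set (D.BI → ℂ) := {s | ∃ v, D.Ff ℂ *ᵥ v = 0 ∧ s = D.ee ℂ + v}

theorem svK_mem (x : Fin n → ℂ) : D.svK x ∈ D.S0 := ⟨D.skK x, D.skK_ker x, D.svK_eq x⟩

/-- (7.5) `t → S` is onto -/
theorem svK_surj {s : D.BI → ℂ} (hs : s ∈ D.S0) : ∃ x : Fin n → ℂ, s = D.svK x := by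
  obtain ⟨v, hv, rfl⟩ := hs
  obtain ⟨x, hx⟩ := D.qc_surj fun j => ∑ c, algebraMap ℂ ℂ (D.cf j c) * v c
  refine ⟨x, ?_⟩
  rw [svK_eq]
  congr 1
  funext a
  rw [D.ker_coord hv a]
  unfold skK
  rw [sk_eq, map_sum]
  refine Finset.sum_congr rfl fun j _ => ?_
  rw [map_mul, MvPolynomial.aeval_C, MvPolynomial.aeval_eq_eval, hx]

/-! ### the invariants -/

theorem CC_icl : IsIntegrallyClosed D.CC := by
  have : UniqueFactorizationMonoid D.CC :=
    MulEquiv.uniqueFactorizationMonoid D.CCe.toMulEquiv inferInstance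
  infer_instance

/-- (7.6) every `W`-invariant polynomial is a polynomial in the coordinates -/
theorem inv_mem (F : Frm D) (f : AA n) (hf : ∀ u ∈ D.W, D.actO u f = f) : f ∈ D.CC := by
  have hint := D.isIntegral_CC
  have hicl := D.CC_icl
  let K' := FractionRing D.CC
  let Ω := AlgebraicClosure K'
  have hinjK : Function.Injective (algebraMap D.CC K') := IsFractionRing.injective D.CC K'
  have hinjΩ : Function.Injective (algebraMap D.CC Ω) := by
    rw [IsScalarTower.algebraMap_eq D.CC K' Ω]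
    exact (algebraMap K' Ω).injective.comp hinjK
  have hcz : CharZero K' := charZero_of_injective_algebraMap hinjK
  have : Algebra.IsAlgebraic D.CC (AA n) := inferInstance
  have ht1 : Module.IsTorsionFree D.CC (AA n) := inferInstance
  have ht2 : Module.IsTorsionFree D.CC Ω :=
    (faithfulSMul_iff_algebraMap_injective D.CC Ω).2 hinjΩ |>.to_isTorsionFree
  let ι : AA n →ₐ[D.CC] Ω := IsAlgClosed.lift
  have hιinj : Function.Injective ι := by
    have h0 : RingHom.ker (ι : AA n →+* Ω) = ⊥ := by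
      have : (RingHom.ker (ι : AA n →+* Ω)).IsPrime := RingHom.ker_isPrime _
      apply Ideal.eq_bot_of_comap_eq_bot (R := D.CC)
      rw [eq_bot_iff]
      intro z hz
      rw [Ideal.mem_comap, RingHom.mem_ker] at hz
      have h1 : algebraMap D.CC Ω z = 0 := by rw [← ι.commutes z]; exact hz
      exact (map_eq_zero_iff _ hinjΩ).1 h1
    exact (RingHom.injective_iff_ker_eq_bot _).2 h0
  -- `ι` is `ℂ`-linear
  have hst : IsScalarTower ℂ D.CC Ω := inferInstance
  let ι' : AA n →ₐ[ℂ] Ω := ι.restrictScalars ℂ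
  let x : Fin n → Ω := fun k => ι (MvPolynomial.X k)
  have hx : ∀ p : AA n, MvPolynomial.aeval x p = ι p := by
    intro p
    have h1 : (MvPolynomial.aeval x : AA n →ₐ[ℂ] Ω) = ι' :=
      MvPolynomial.algHom_ext fun k => by rw [MvPolynomial.aeval_X]; rfl
    rw [h1]; rfl
  have hreg : ∀ γ : D.Rt, ev γ.1 x ≠ 0 := by
    intro γ h0
    have h1 : ev γ.1 x = ι (fm0 γ.1) := by
      rw [fm0_ev]
      exact (ev_map (ι : AA n →+* Ω) γ.1 MvPolynomial.X).symm
    rw [h1, map_eq_zero_iff _ hιinj] at h0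
    refine fm0_ne_zero ?_ h0
    intro h2
    have := γ.2
    rw [h2, B_zero_left] at this
    norm_num at this
  -- `ι f` is fixed by the Galois group
  have hfix : ∀ σ : Ω ≃ₐ[K'] Ω, σ (ι f) = ι f := by
    intro σ
    let σ' : Ω →ₐ[ℂ] Ω := (σ : Ω →ₐ[K'] Ω).restrictScalars ℂ
    let x' : Fin n → Ω := fun k => σ (x k)
    have hx' : ∀ p : AA n, MvPolynomial.aeval x' p = σ (ι p) := by
      intro p
      have h1 : (MvPolynomial.aeval x' : AA n →ₐ[ℂ] Ω) = σ'.comp ι' :=
        MvPolynomial.algHom_ext fun k => by rw [MvPolynomial.aeval_X]; rfl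
      rw [h1]; rfl
    have h2 : D.svK x = D.svK x' := by
      funext a
      show MvPolynomial.aeval x (D.sv a) = MvPolynomial.aeval x' (D.sv a)
      rw [hx, hx']
      have h3 : ι (D.sv a) = algebraMap D.CC Ω ⟨D.sv a, D.sv_mem a⟩ := by
        rw [← ι.commutes]; rfl
      rw [h3, IsScalarTower.algebraMap_apply D.CC K' Ω, σ.commutes]
    obtain ⟨u, hu, h3⟩ := D.fiber F hreg h2
    rw [← hx', h3]
    have h4 := D.aeval_actO u⁻¹ x f
    rw [inv_inv, hf _ (D.W.inv_mem hu)] at h4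
    rw [← h4, hx]
  have hmem : ι f ∈ Set.range (algebraMap K' Ω) := by
    rw [InfiniteGalois.mem_range_algebraMap_iff_fixed]
    exact hfix
  obtain ⟨k, hk⟩ := hmem
  have hkint : IsIntegral D.CC k := by
    have h1 : IsIntegral D.CC (algebraMap K' Ω k) := by
      rw [hk]
      exact (hint.isIntegral f).map ι
    exact (isIntegral_algebraMap_iff (algebraMap K' Ω).injective).1 h1
  obtain ⟨c, hc⟩ := IsIntegrallyClosed.isIntegral_iff.1 hkint
  have h1 : ι (algebraMap D.CC (AA n) c) = ι f := by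
    rw [ι.commutes, ← hk, ← hc, ← IsScalarTower.algebraMap_apply]
  have h2 := hιinj h1
  rw [← h2]
  exact c.2

end SLD

end Pool.Agent.MTX
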