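import Pool.Agent.MTX.K8

/-! # MTX, section 7 : the conditions `Kost` and `TAx` -/

namespace Pool.Agent.MTX

open Matrix
open Pool.Agent.MTD (ev ev_add ev_sub ev_neg ev_smul ev_zero ev_add_left ev_sub_left ev_neg_left
  ev_smul_left ev_zero_left ev_sum_left ev_sum ev_map ev_comm)

namespace SLD

variable {n : ℕ} (D : SLD n)

theorem svK_eval (x : Fin n → ℂ) : D.svK x = fun a => MvPolynomial.eval x (D.sv a) := by
  funext a
  unfold svK
  rw [MvPolynomial.aeval_eq_eval]

/-- everything the datum needs from the theory of the slice -/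
theorem kost (F : Frm D) : D.Kost F D.S0 D.sv D.pm where
  pm_G := D.pm_G F
  pm_conj := D.pm_conj
  sv_mem x := by rw [← svK_eval]; exact D.svK_mem x
  sv_surj s hs := by
    obtain ⟨x, hx⟩ := D.svK_surj hs
    exact ⟨x, by rw [← svK_eval]; exact hx⟩
  sv_refl γ x a := by
    have h := congrFun (D.svK_W (D.rO_mem γ) x) a
    rw [svK_eval, svK_eval] at h
    exact h
  nonss γ x _ hx _ := D.nonss hx

/-! ### the data of section 8 -/

/-- the data of sections 7 and 8, indexed by `Fin N` -/
noncomputable def td : TD D D.N where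
  wt i := D.wI (D.eN.symm i)
  tp := D.eN (Sum.inr D.theta)
  e := D.toN (D.Ee ℂ)
  r := D.toN D.rM
  kp := D.toN (Matrix.of D.kp)
  sx := D.toN (D.ad D.sv)
  px := D.toN D.pm

theorem td_wt (i : Fin D.N) : D.td.wt i = D.wI (D.eN.symm i) := rfl
theorem td_hg (i : Fin D.N) : D.td.hg i = D.hI (D.eN.symm i) := rfl

/-- vectors indexed by `Fin N` -/
noncomputable def vN {R : Type*} (v : D.BI → R) : Fin D.N → R := fun i => v (D.eN.symm i)

theorem toN_mulVec {R : Type*} [CommRing R] (g : Matrix D.BI D.BI R) (v : D.BI → R) :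
    (D.toN g).mulVec (D.vN v) = D.vN (g *ᵥ v) := by
  funext i
  simp only [Matrix.mulVec, dotProduct, vN, toN_apply]
  exact Equiv.sum_comp D.eN.symm fun c => g (D.eN.symm i) c * v c

theorem exists_vN {R : Type*} (w : Fin D.N → R) : ∃ v : D.BI → R, w = D.vN v :=
  ⟨fun a => w (D.eN a), by funext i; simp [vN]⟩

theorem vN_eq_zero {R : Type*} [CommRing R] {v : D.BI → R} (h : D.vN v = 0) : v = 0 := by
  funext a
  have := congrFun h (D.eN a)
  simpa [vN] using this

theorem rR_C : D.rR ℂ = D.rM := by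
  ext a c; simp [rR]

theorem kp_mulVec (X Y : D.BI → ℂ) : D.ka X Y = X ⬝ᵥ (Matrix.of D.kp *ᵥ Y) := by
  simp only [ka, dotProduct, Matrix.mulVec, Matrix.of_apply, Algebra.algebraMap_self,
    RingHom.id_apply, Finset.mul_sum]
  exact Finset.sum_congr rfl fun a _ => Finset.sum_congr rfl fun c _ => by ring

theorem ka_dot {R : Type*} [CommRing R] [Algebra ℂ R] (X Y : D.BI → R) :
    D.ka X Y = X ⬝ᵥ ((Matrix.of D.kp).map (algebraMap ℂ R) *ᵥ Y) := by
  simp only [ka, dotProduct, Matrix.mulVec, Matrix.map_apply, Matrix.of_apply, Finset.mul_sum]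
  exact Finset.sum_congr rfl fun a _ => Finset.sum_congr rfl fun c _ => by ring

theorem kp_unit : IsUnit (Matrix.of D.kp).det := by
  rw [← Matrix.isUnit_iff_isUnit_det]
  refine D.unit_of_ker fun v h => D.ka_nondeg v fun Y => ?_
  rw [ka_comm, kp_mulVec, h, dotProduct_zero]

/-- a matrix preserving `ka` -/
theorem ka_mat {R : Type*} [CommRing R] [Algebra ℂ R] {g : Matrix D.BI D.BI R}
    (h : ∀ X Y, D.ka (g *ᵥ X) (g *ᵥ Y) = D.ka X Y) :
    gᵀ * (Matrix.of D.kp).map (algebraMap ℂ R) * g = (Matrix.of D.kp).map (algebraMap ℂ R) := by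
  refine Matrix.ext_of_mulVec_single fun c => ?_
  funext a
  have h1 := h (Pi.single a 1) (Pi.single c 1)
  rw [ka_dot, ka_dot, single_one_dotProduct] at h1
  rw [← h1, ← Matrix.mulVec_mulVec, ← Matrix.mulVec_mulVec, ← Matrix.vecMul_transpose,
    Matrix.transpose_transpose]
  rw [← dotProduct_single_one (Matrix.vecMul _ g) a, ← Matrix.dotProduct_mulVec, dotProduct_comm]

theorem ka_skew {R : Type*} [CommRing R] [Algebra ℂ R] (Z : D.BI → R) :
    (D.ad Z)ᵀ * (Matrix.of D.kp).map (algebraMap ℂ R) +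
      (Matrix.of D.kp).map (algebraMap ℂ R) * D.ad Z = 0 := by
  refine Matrix.ext_of_mulVec_single fun c => ?_
  funext a
  have h1 := D.ka_br Z (Pi.single a 1) (Pi.single c 1)
  rw [ka_dot, ka_dot, single_one_dotProduct] at h1
  rw [Matrix.add_mulVec, Matrix.zero_mulVec, ← Matrix.mulVec_mulVec, ← Matrix.mulVec_mulVec,
    ← Matrix.vecMul_transpose, Matrix.transpose_transpose, Pi.add_apply, Pi.zero_apply]
  rw [← dotProduct_single_one (Matrix.vecMul _ (D.ad Z)) a, ← Matrix.dotProduct_mulVec,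
    dotProduct_comm]
  rw [show D.ad Z *ᵥ Pi.single a 1 = D.br Z (Pi.single a 1) from rfl, h1]
  exact neg_add_cancel _

theorem Ee_entry {R : Type*} [CommRing R] (a c : D.BI) (h : D.Ee R a c ≠ 0) :
    ∃ l, D.wI a = D.wI c + Pi.single l 1 := by
  have h1 : D.Ee R = ∑ l, D.ad (D.er R (D.al l).1) := by
    rw [Ee, ee, ad_sum]
  rw [h1, Matrix.sum_apply] at h
  obtain ⟨l, -, hl⟩ := Finset.exists_ne_zero_of_sum_ne_zero h
  refine ⟨l, ?_⟩
  rw [er_root, ad_single, one_mul] at hl
  have h2 : D.st (Sum.inr (D.al l)) c a ≠ 0 := fun h' => hl (by rw [h', Int.cast_zero])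
  rw [D.st_wt h2, wI_inr, al_val, add_comm]

theorem sk_supp (b : D.BI) (h : D.sk b ≠ 0) : D.hI b < 0 := D.ker_neg D.sk_ker b h

theorem td_ax (F : Frm D) : TAx D.td where
  wt_cases i := by
    rw [td_wt]
    rcases D.eN.symm i with k | γ
    · exact Or.inl rfl
    · exact Or.inr γ.2
  wt_inj i j h h0 := by
    rw [td_wt, td_wt] at h
    rw [td_wt] at h0
    apply D.eN.symm.injective
    rcases hi : D.eN.symm i with k | γ <;> rcases hj : D.eN.symm j with l | δ <;>
      rw [hi] at h h0 <;> rw [hj] at h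
    · exact absurd rfl h0
    · exact absurd rfl h0
    · exact absurd h h0
    · rw [Subtype.ext h]
  wt_surj γ := ⟨D.eN (Sum.inr γ), by rw [td_wt, Equiv.symm_apply_apply]; rfl⟩
  wt_tp := by
    rw [td_wt]
    show D.wI (D.eN.symm (D.eN (Sum.inr D.theta))) = _
    rw [Equiv.symm_apply_apply]; rfl
  kp_symm := by
    ext i j
    exact D.kp_symm _ _
  kp_unit := by
    show IsUnit (D.toN (Matrix.of D.kp)).det
    rw [toN_det]
    exact D.kp_unit
  kp_wt i j h := D.kp_wt h
  e_wt i j h := D.Ee_HM ℂ _ _ h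
  e_inj k hk v hv h := by
    obtain ⟨w, rfl⟩ := D.exists_vN v
    have h1 : D.vN (D.Ee ℂ *ᵥ w) = 0 := by
      rw [← toN_mulVec]; exact h
    have h2 := D.vN_eq_zero h1
    have h3 : w = 0 := by
      refine D.e_inj hk (fun a ha => ?_) h2
      have := hv (D.eN a) (by simpa [vN] using ha)
      rwa [td_hg, Equiv.symm_apply_apply] at this
    rw [h3]; rfl
  r_wt i j h := by
    have := D.rM_HM _ _ h
    rw [td_hg, td_hg, this]; ring
  e_r v hv := by
    obtain ⟨w, rfl⟩ := D.exists_vN v
    show (D.toN (D.Ee ℂ)).mulVec ((D.toN D.rM).mulVec (D.vN w)) = D.vN w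
    rw [toN_mulVec, toN_mulVec]
    congr 1
    have h := D.Ee_rR_vec (R := ℂ) (X := w) fun a ha => by
      have := hv (D.eN a) (by simpa [vN] using ha)
      rwa [td_hg, Equiv.symm_apply_apply] at this
    rw [rR_C] at h
    exact h
  px_hz i j := by
    have := D.pm_MP (D.eN.symm i) (D.eN.symm j)
    rw [zero_add] at this
    exact this
  px_one i j h := by
    rw [td_hg, td_hg] at h
    show D.pm (D.eN.symm i) (D.eN.symm j) = _
    split_ifs with h1
    · rw [h1]; exact D.pm_BrU.lo.1 _
    · exact D.pm_BrU.lo.2 _ _ (fun h2 => h1 (D.eN.symm.injective h2)) h.ge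
  px_det := by
    show IsUnit (D.toN D.pm).det
    rw [toN_det]
    exact D.pm_BrU.det
  px_kp := by
    have h := D.ka_mat (D.pm_G F).ka
    have h1 := congrArg D.toN h
    rw [toN_mul, toN_mul] at h1
    exact h1
  px_conj := by
    have h := D.pm_BrU.ad (D.ee (AA n) + D.tt MvPolynomial.X)
    rw [pm_conj, ad_add] at h
    have h1 := congrArg D.toN h
    rw [toN_mul, toN_mul, toN_add] at h1
    have h2 : D.td.e.map (MvPolynomial.C) = D.toN (D.Ee (AA n)) := by
      rw [← Ee_map]; rfl
    have h3 : D.td.Dx = D.toN (D.ad (D.tt MvPolynomial.X)) := by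
      ext i j
      rw [toN_apply, ad_tt]
      by_cases hij : i = j
      · rw [hij, TD.Dx, Matrix.diagonal_apply_eq, Matrix.diagonal_apply_eq, fm0_ev, td_wt]
      · rw [TD.Dx, Matrix.diagonal_apply_ne _ hij, Matrix.diagonal_apply_ne]
        exact fun h => hij (D.eN.symm.injective h)
    rw [h2, h3]
    exact h1
  sx_hz i j := by
    have := VP.ad gr_HZ D.sv_VP (D.eN.symm i) (D.eN.symm j)
    rw [td_hg, td_hg, add_comm (D.hI _) 1]
    exact this
  sx_e i j h := by
    rw [td_hg, td_hg] at h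
    show D.ad D.sv (D.eN.symm i) (D.eN.symm j) = MvPolynomial.C (D.Ee ℂ (D.eN.symm i) (D.eN.symm j))
    unfold sv
    rw [ad_add, Matrix.add_apply]
    have h1 : D.ad D.sk (D.eN.symm i) (D.eN.symm j) = 0 := by
      by_contra hne
      rw [ad_apply] at hne
      obtain ⟨b, -, hb⟩ := Finset.exists_ne_zero_of_sum_ne_zero hne
      have h2 := D.sk_supp b (left_ne_zero_of_mul hb)
      have h3 : D.st b (D.eN.symm j) (D.eN.symm i) ≠ 0 :=
        fun h' => right_ne_zero_of_mul hb (by rw [h', Int.cast_zero])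
      have := D.st_ht h3
      omega
    rw [h1, add_zero]
    show D.Ee (AA n) _ _ = _
    rw [← Ee_map]; rfl
  sx_kp := by
    have h := congrArg D.toN (D.ka_skew D.sv)
    rw [toN_add, toN_mul, toN_mul] at h
    exact h
  sx_inv u hu i j := by
    show D.actO u (D.ad D.sv _ _) = D.ad D.sv _ _
    rw [ad_apply, map_sum]
    refine Finset.sum_congr rfl fun b _ => ?_
    rw [map_mul, D.sv_inv hu, map_intCast]
  qq := by
    obtain ⟨x, hx⟩ : ∃ x : Fin n → FractionRing (AA n),
      x = fun k => algebraMap (AA n) (FractionRing (AA n)) (MvPolynomial.X k) := ⟨_, rfl⟩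
    have hev : ∀ y : Fin n → ℤ, ev y x = algebraMap (AA n) (FractionRing (AA n)) (fm0 y) := by
      intro y
      rw [fm0_ev, hx]
      exact (ev_map (algebraMap (AA n) (FractionRing (AA n))) y MvPolynomial.X).symm
    have hreg : ∀ γ : D.Rt, ev γ.1 x ≠ 0 := by
      intro γ
      rw [hev]
      refine (map_ne_zero_iff _ (IsFractionRing.injective (AA n) (FractionRing (AA n)))).2
        (fm0_ne_zero fun h2 => ?_)
      have := γ.2
      rw [h2, B_zero_left] at this
      norm_num at this
    have hal : ∀ p : AA n, MvPolynomial.aeval x p = algebraMap (AA n) (FractionRing (AA n)) p := by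
      intro p
      have h1 : (MvPolynomial.aeval x : AA n →ₐ[ℂ] FractionRing (AA n)) =
          IsScalarTower.toAlgHom ℂ (AA n) (FractionRing (AA n)) :=
        MvPolynomial.algHom_ext fun k => by rw [MvPolynomial.aeval_X, hx]; rfl
      rw [h1]; rfl
    obtain ⟨b, hb, -, hb2⟩ := D.exists_diag hreg (w := D.ee _) fun a ha => D.ee_supp a ha
    refine ⟨D.toN (D.pmK x * b⁻¹), ?_, ?_⟩
    · rw [toN_det, Matrix.det_mul]
      exact (D.pmK_BrU x).det.mul (by rw [(hb F).inv.det]; exact isUnit_one)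
    · have h1 : D.td.sx.map (algebraMap (AA n) (FractionRing (AA n))) = D.toN (D.ad (D.svK x)) := by
        show (D.toN (D.ad D.sv)).map _ = _
        rw [toN_map, ad_map]
        congr 2
        funext a
        exact (hal _).symm
      have h2 : D.td.Dx.map (algebraMap (AA n) (FractionRing (AA n))) = D.toN (D.ad (D.tt x)) := by
        ext i j
        rw [toN_apply, ad_tt, Matrix.map_apply]
        by_cases hij : i = j
        · rw [hij, TD.Dx, Matrix.diagonal_apply_eq, Matrix.diagonal_apply_eq, hev, td_wt]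
        · rw [TD.Dx, Matrix.diagonal_apply_ne _ hij, Matrix.diagonal_apply_ne, map_zero]
          exact fun h => hij (D.eN.symm.injective h)
      rw [h1, h2, ← toN_mul, ← toN_mul]
      congr 1
      have h3 := (D.pmK_BrU x).ad (D.ee _ + D.tt x)
      rw [pmK_conj] at h3
      have h4 := (hb F).ad (D.tt x + D.ee _)
      rw [hb2] at h4
      rw [← Matrix.mul_assoc, ← h3, Matrix.mul_assoc, Matrix.mul_assoc]
      congr 1
      have h5 : b⁻¹ * (b * D.ad (D.tt x + D.ee _)) * b⁻¹ =
          b⁻¹ * (D.ad (D.tt x) * b) * b⁻¹ := by rw [h4]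
      rw [← Matrix.mul_assoc b⁻¹ b, (hb F).inv_mul, Matrix.one_mul, Matrix.mul_assoc b⁻¹ _ b⁻¹,
        Matrix.mul_assoc (D.ad (D.tt x)) b, (hb F).mul_inv, Matrix.mul_one] at h5
      rw [add_comm]
      exact h5

theorem td_he (i j : Fin D.N) (h : D.td.e i j ≠ 0) :
    ∃ l, D.td.wt i = D.td.wt j + Pi.single l 1 := D.Ee_entry _ _ h

/-- the entries of `ad sv` generate the invariants -/
theorem td_hinv (F : Frm D) (f : AA n) (hf : ∀ u ∈ D.W, u • f = f) :
    ∃ P : MvPolynomial (Fin D.N × Fin D.N) ℂ,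
      MvPolynomial.aeval (fun p : Fin D.N × Fin D.N => D.td.sx p.1 p.2) P = f := by
  have h1 := D.inv_mem F f hf
  have h2 : D.CC ≤ (MvPolynomial.aeval (R := ℂ)
      (fun p : Fin D.N × Fin D.N => D.td.sx p.1 p.2)).range := by
    unfold CC
    rw [Algebra.adjoin_le_iff]
    rintro _ ⟨j, rfl⟩
    unfold qc
    refine Subalgebra.sum_mem _ fun c _ => ?_
    refine Subalgebra.mul_mem _ (Subalgebra.algebraMap_mem _ _) ?_
    by_cases h0 : D.sk c = 0
    · rw [h0]; exact Subalgebra.zero_mem _
    · have h3 := D.sk_supp c h0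
      rcases c with k | γ
      · rw [hI_inl] at h3
        exact absurd h3 (lt_irrefl _)
      · have h4 : ∃ k, γ.1 k ≠ 0 := by
          by_contra hcon
          push Not at hcon
          have h5 : γ.1 = 0 := funext hcon
          have := γ.2
          rw [h5, B_zero_left] at this
          norm_num at this
        obtain ⟨k, hk⟩ := h4
        have h5 : D.ad D.sv (Sum.inr γ) (Sum.inl k) = - ((γ.1 k : ℤ) : AA n) * D.sk (Sum.inr γ) := by
          have h6 : D.ad D.sk (Sum.inr γ) (Sum.inl k) = - ((γ.1 k : ℤ) : AA n) * D.sk (Sum.inr γ) := by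
            rw [ad_apply, Finset.sum_eq_single (Sum.inr γ)]
            · rw [st_rlr, if_pos rfl]
              push_cast; ring
            · intro b _ hb
              rcases b with l | δ
              · rw [st_ll]; simp
              · rw [st_rlr, if_neg (fun h => hb (by rw [h]))]; simp
            · intro h; exact absurd (Finset.mem_univ _) h
          have h7 : D.ad (D.ee (AA n)) (Sum.inr γ) (Sum.inl k) = 0 := by
            by_contra hne
            have := D.Ee_HM (AA n) _ _ hne
            rw [hI_inl] at this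
            omega
          unfold sv
          rw [ad_add, Matrix.add_apply, h6, h7, zero_add]
        have h6 : D.sk (Sum.inr γ) = MvPolynomial.aeval (R := ℂ)
            (fun p : Fin D.N × Fin D.N => D.td.sx p.1 p.2)
            (MvPolynomial.C (-(1 / (γ.1 k : ℂ))) *
              MvPolynomial.X (D.eN (Sum.inr γ), D.eN (Sum.inl k))) := by
          rw [map_mul, MvPolynomial.aeval_C, MvPolynomial.aeval_X]
          show _ = _ * D.ad D.sv (D.eN.symm (D.eN (Sum.inr γ))) (D.eN.symm (D.eN (Sum.inl k)))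
          rw [Equiv.symm_apply_apply, Equiv.symm_apply_apply, h5]
          have h8 : algebraMap ℂ (AA n) (-(1 / (γ.1 k : ℂ))) * (-((γ.1 k : ℤ) : AA n)) = 1 := by
            have h9 : ((γ.1 k : ℤ) : AA n) = algebraMap ℂ (AA n) (γ.1 k : ℂ) := by simp
            rw [h9, ← map_neg, ← map_mul, neg_mul_neg, one_div,
              inv_mul_cancel₀ (by exact_mod_cast hk), map_one]
          rw [← mul_assoc, h8, one_mul]
        rw [h6]
        exact ⟨_, rfl⟩
  obtain ⟨P, hP⟩ := h2 h1
  exact ⟨P, hP⟩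

end SLD

end Pool.Agent.MTX
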