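import Pool.Agent.MTX.L0

/-! # MTX, Part L : the Jacobi identity (row L1) -/

namespace Pool.Agent.MTX

open Matrix

open Pool.Agent.MTD (ev ev_add ev_sub ev_neg ev_smul ev_zero ev_add_left ev_sub_left ev_neg_left
  ev_smul_left ev_zero_left ev_sum_left ev_sum ev_map ev_comm)

namespace SLD

variable {n : ℕ} (D : SLD n)

section

variable {R : Type*} [CommRing R]

/-- `y(h_z) = B(y, z)` -/
theorem ev_hv (y z : Fin n → ℤ) : ev y (D.hv R z) = (D.B y z : R) := by
  have h1 : D.B y z = ∑ k, y k * D.B (D.al k).1 z := by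
    conv_lhs => rw [show y = ∑ k, y k • (D.al k).1 by
      funext i; simp [al, Finset.sum_apply, Pi.single_apply]]
    rw [B_comm, B_eq_dot]
    simp only [B_comm D (D.al _).1 z, B_eq_dot, Finset.sum_apply, Matrix.mulVec_sum,
      Matrix.mulVec_smul, dotProduct_sum, dotProduct_smul, smul_eq_mul]
  rw [h1]
  simp [ev, hv]

/-- the coefficient identity -/
theorem l1_int (p q r a b c a' b' c' : ℤ) (hs : p + q + r = -2)
    (ha : a = 1 ∨ a = -1) (hb : b = 1 ∨ b = -1) (hc : c = 1 ∨ c = -1)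
    (hpa : (p = -2 ∨ p = 0 ∨ p = 2) ∧ a' = a ∨ (p = -1 ∨ p = 1) ∧ a' = -a)
    (hpb : (q = -2 ∨ q = 0 ∨ q = 2) ∧ b' = b ∨ (q = -1 ∨ q = 1) ∧ b' = -b)
    (hpc : (r = -2 ∨ r = 0 ∨ r = 2) ∧ c' = c ∨ (r = -1 ∨ r = 1) ∧ c' = -c)
    (h2p : p = -2 → b = c' ∧ b' = c ∧ a = -1)
    (h2q : q = -2 → c = a' ∧ c' = a ∧ b = -1)
    (h2r : r = -2 → a = b' ∧ a' = b ∧ c = -1) :
    (if p = -2 then -r else if p = -1 then a * (c' * b) else 0) +
      (if q = -2 then -p else if q = -1 then b * (a' * c) else 0) +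
      (if r = -2 then -q else if r = -1 then c * (b' * a) else 0) = 0 := by
  rcases hpa with ⟨hp, rfl⟩ | ⟨hp, rfl⟩ <;> rcases hpb with ⟨hq, rfl⟩ | ⟨hq, rfl⟩ <;>
    rcases hpc with ⟨hr, rfl⟩ | ⟨hr, rfl⟩
  · rcases hp with rfl | rfl | rfl <;> rcases hq with rfl | rfl | rfl <;>
      rcases hr with rfl | rfl | rfl <;> first | (exfalso; omega) | simp
  · exfalso; omega
  · exfalso; omega
  · rcases hp with rfl | rfl | rfl <;> rcases hq with rfl | rfl <;>
      rcases hr with rfl | rfl <;> first | (exfalso; omega) | skip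
    · obtain ⟨h1, h2, h3⟩ := h2p rfl
      subst h3
      subst h1
      rcases hc with rfl | rfl <;> norm_num
    · obtain ⟨h1, h2, h3⟩ := h2p rfl
      subst h3
      subst h1
      rcases hc with rfl | rfl <;> norm_num
    · simp
      ring
  · exfalso; omega
  · rcases hp with rfl | rfl <;> rcases hq with rfl | rfl | rfl <;>
      rcases hr with rfl | rfl <;> first | (exfalso; omega) | skip
    · obtain ⟨h1, h2, h3⟩ := h2q rfl
      subst h3
      subst h1
      rcases ha with rfl | rfl <;> norm_num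
    · simp
      ring
    · obtain ⟨h1, h2, h3⟩ := h2q rfl
      subst h3
      subst h1
      rcases ha with rfl | rfl <;> norm_num
  · rcases hp with rfl | rfl <;> rcases hq with rfl | rfl <;>
      rcases hr with rfl | rfl | rfl <;> first | (exfalso; omega) | skip
    · simp
      ring
    · obtain ⟨h1, h2, h3⟩ := h2r rfl
      subst h3
      subst h1
      rcases hb with rfl | rfl <;> norm_num
    · obtain ⟨h1, h2, h3⟩ := h2r rfl
      subst h3
      subst h1
      rcases hb with rfl | rfl <;> norm_num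
  · exfalso; omega

theorem l1_T (x y z : D.Rt) (h0 : x.1 + y.1 + z.1 ≠ 0) :
    D.br (D.br (D.er R x.1) (D.er R y.1)) (D.er R z.1) =
      (((if D.B x.1 y.1 = -2 then - D.B z.1 x.1 else if D.B x.1 y.1 = -1 then
        D.eps x.1 y.1 * D.eps (x.1 + y.1) z.1 else 0 : ℤ)) : R) • D.er R (x.1 + y.1 + z.1) := by
  rw [br_er_er]
  by_cases h2 : D.B x.1 y.1 = -2
  · have hxy : x.1 + y.1 = 0 := (D.B_add_zero x y).2 h2
    rw [if_pos h2, hxy, if_pos rfl, er_zero, smul_zero, zero_sub, br_neg_left, br_tt_er, ev_hv,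
      zero_add, Int.cast_neg, neg_smul]
  · have hxy : x.1 + y.1 ≠ 0 := fun h => h2 ((D.B_add_zero x y).1 h)
    rw [if_neg hxy, sub_zero, br_smul_left, if_neg h2]
    by_cases h1 : D.B x.1 y.1 = -1
    · have hw : D.B (x.1 + y.1) (x.1 + y.1) = 2 := (D.B_add_root x y).2 h1
      have h3 := D.br_er_er (R := R) ⟨x.1 + y.1, hw⟩ z
      change D.br (D.er R (x.1 + y.1)) (D.er R z.1) = (D.eps (x.1 + y.1) z.1 : R) •
        D.er R (x.1 + y.1 + z.1) - (if x.1 + y.1 + z.1 = 0 then D.tt (D.hv R (x.1 + y.1)) else 0)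
        at h3
      rw [h3, if_neg h0, sub_zero, smul_smul, if_pos h1, Int.cast_mul]
    · have hw : D.B (x.1 + y.1) (x.1 + y.1) ≠ 2 := fun h => h1 ((D.B_add_root x y).1 h)
      rw [er_not_root D hw, br_zero_left, smul_zero, if_neg h1, Int.cast_zero, zero_smul]

theorem l1_T0 (x y z : D.Rt) (h0 : x.1 + y.1 + z.1 = 0) :
    D.br (D.br (D.er R x.1) (D.er R y.1)) (D.er R z.1) =
      - ((D.eps x.1 y.1 : R) • D.tt (D.hv R (x.1 + y.1))) := by
  have hz : x.1 + y.1 = - z.1 := eq_neg_of_add_eq_zero_left h0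
  have hw : D.B (x.1 + y.1) (x.1 + y.1) = 2 := by
    rw [hz, B_neg_left, B_neg_right, neg_neg]
    exact z.2
  have hxy : x.1 + y.1 ≠ 0 := by
    intro h
    rw [h, B_zero_left] at hw
    norm_num at hw
  rw [br_er_er, if_neg hxy, sub_zero, br_smul_left]
  have h3 := D.br_er_er (R := R) ⟨x.1 + y.1, hw⟩ z
  change D.br (D.er R (x.1 + y.1)) (D.er R z.1) = (D.eps (x.1 + y.1) z.1 : R) •
    D.er R (x.1 + y.1 + z.1) - (if x.1 + y.1 + z.1 = 0 then D.tt (D.hv R (x.1 + y.1)) else 0)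
    at h3
  rw [h3, if_pos h0, h0, er_zero, smul_zero, zero_sub, smul_neg]

theorem l1_par (x y : D.Rt) :
    (D.B x.1 y.1 = -2 ∨ D.B x.1 y.1 = 0 ∨ D.B x.1 y.1 = 2) ∧ D.eps y.1 x.1 = D.eps x.1 y.1 ∨
      (D.B x.1 y.1 = -1 ∨ D.B x.1 y.1 = 1) ∧ D.eps y.1 x.1 = - D.eps x.1 y.1 := by
  have h := D.abs_B_le x y
  rw [abs_le] at h
  obtain ⟨h1, h2⟩ := h
  have h3 : D.B x.1 y.1 = -2 ∨ D.B x.1 y.1 = -1 ∨ D.B x.1 y.1 = 0 ∨ D.B x.1 y.1 = 1 ∨
      D.B x.1 y.1 = 2 := by omega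
  rcases h3 with h3 | h3 | h3 | h3 | h3
  · left; exact ⟨Or.inl h3, D.eps_swap_even (by rw [h3]; decide)⟩
  · right; exact ⟨Or.inl h3, D.eps_swap_odd (by rw [h3]; decide)⟩
  · left; exact ⟨Or.inr (Or.inl h3), D.eps_swap_even (by rw [h3]; decide)⟩
  · right; exact ⟨Or.inr h3, D.eps_swap_odd (by rw [h3]; decide)⟩
  · left; exact ⟨Or.inr (Or.inr h3), D.eps_swap_even (by rw [h3]; decide)⟩

theorem l1_two (x y z : D.Rt) (h : D.B x.1 y.1 = -2) :
    D.eps y.1 z.1 = D.eps x.1 z.1 ∧ D.eps z.1 y.1 = D.eps z.1 x.1 ∧ D.eps x.1 y.1 = -1 := by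
  have h1 : x.1 + y.1 = 0 := (D.B_add_zero x y).2 h
  have h2 : y.1 = - x.1 := eq_neg_of_add_eq_zero_right h1
  refine ⟨?_, ?_, ?_⟩
  · rw [h2, eps_neg_left]
  · rw [h2, eps_neg_right]
  · rw [h2, eps_neg_right, eps_self]

/-- The Jacobi identity for three root vectors, in integers.

Write `p = B x y`, `q = B y z`, `r = B z x` (all in `-2..2`, `abs_B_le`) and
`S = eps x y * eps x z * eps y z`.  By `br_er_er`, for roots `x, y`:
`[e_x, e_y] = eps x y • er (x+y) - (if x + y = 0 then tt (hv x) else 0)`, and `er (x+y) = 0` unless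
`p = -1` (`er_not_root`, `B_add_root`), `x + y = 0` iff `p = -2` (`B_add_zero`).  So
`[[e_x, e_y], e_z]` is: for `p = -1` (then `x + y` is a root `w` and
`B w z = q + r`; `br_er_er` for `w, z`):
`eps x y • (eps (x+y) z • er (x+y+z) - (if x+y+z = 0 then tt (hv (x+y)) else 0))`;
for `p = -2`: `- r • er z` (`br_tt_er`, `ev_hv`; here `er z = er (x+y+z)`); otherwise `0`.
Now `er (x+y+z) = 0` unless `p + q + r = -2` (`B (x+y+z) (x+y+z) = 6 + 2(p+q+r)`,
`er_not_root`), and `x + y + z = 0` iff `p + q + r = -3`; in that case `z = -x-y`, and `p = q = r = -1`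
(`q = B y z = -p-2`, `r = -2-p`), the sum is
`-(eps x y • tt (hv (x+y)) + eps y z • tt (hv (y+z)) + eps z x • tt (hv (z+x)))
 = eps x y • tt (hv z) + eps y z • tt (hv x) + eps z x • tt (hv y)`, where
`eps y z = eps y (-x-y) = eps y x * eps y y = - eps y x = eps x y` (`eps_swap_odd`) and likewise
`eps z x = eps x y`; so it is `eps x y • tt (hv (x+y+z)) = 0`.
If `p + q + r = -2`: the coefficients of `er (x+y+z)` are
`eps x y * eps (x+y) z = S`, `eps y z * eps (y+z) x = S * (-1)^(p+r)`,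
`eps z x * eps (z+x) y = S * (-1)^(r+q)` (for the terms with `p = -1`, `q = -1`, `r = -1`
respectively, otherwise absent), and `-r` if `p = -2`, `-p` if `q = -2`, `-q` if `r = -2`; moreover
`S = -1` if `p = -2` (`y = -x`, `S = eps x x`) or `q = -2` (`z = -y`), and `S = -(-1)^p` if `r = -2`
(`z = -x`, `S = eps x y * eps x x * eps y x`).  Finite check over `p, q, r ∈ {-2..2}`,
`p + q + r = -2`, e.g. `(-1,-1,0)`: `S - S`; `(-1,-2,1)`: `S + 1 = 0`; `(-1,1,-2)`: `S - 1 = 0`;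
`(1,-1,-2)`: `-S + 1 = 0`; `(2,-2,-2)`: `-2 + 2`.
(Suggestion: first prove the coefficient identity as a lemma in integers, with `rcases` on the values
of `p, q, r` and `omega` for the impossible ones.)  -/
theorem jac_rrr (x y z : D.Rt) :
    D.br (D.br (D.er R x.1) (D.er R y.1)) (D.er R z.1) +
      D.br (D.br (D.er R y.1) (D.er R z.1)) (D.er R x.1) +
      D.br (D.br (D.er R z.1) (D.er R x.1)) (D.er R y.1) = 0 := by
  by_cases h0 : x.1 + y.1 + z.1 = 0
  · -- the sum is zero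
    have h1 : y.1 + z.1 + x.1 = 0 := by rw [← h0]; abel
    have h2 : z.1 + x.1 + y.1 = 0 := by rw [← h0]; abel
    rw [D.l1_T0 x y z h0, D.l1_T0 y z x h1, D.l1_T0 z x y h2]
    have hz : z.1 = - (x.1 + y.1) := eq_neg_of_add_eq_zero_right h0
    have hw : D.B (x.1 + y.1) (x.1 + y.1) = 2 := by
      have h3 := z.2
      rw [hz, B_neg_left, B_neg_right, neg_neg] at h3
      exact h3
    have hp : D.B x.1 y.1 = -1 := (D.B_add_root x y).1 hw
    have ea : D.eps y.1 x.1 = - D.eps x.1 y.1 := D.eps_swap_odd (by rw [hp]; decide)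
    have eb : D.eps y.1 z.1 = D.eps x.1 y.1 := by
      rw [hz, eps_neg_right, eps_add_right, eps_self, ea]; ring
    have ec : D.eps z.1 x.1 = D.eps x.1 y.1 := by
      rw [hz, eps_neg_left, eps_add_left, eps_self, ea]; ring
    rw [eb, ec]
    have hsum : D.hv R (x.1 + y.1) + D.hv R (y.1 + z.1) + D.hv R (z.1 + x.1) = 0 := by
      funext k
      show (D.B (D.al k).1 (x.1 + y.1) : R) + (D.B (D.al k).1 (y.1 + z.1) : R) +
        (D.B (D.al k).1 (z.1 + x.1) : R) = 0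
      have h3 : D.B (D.al k).1 (x.1 + y.1 + z.1) = 0 := by rw [h0, B_zero_right]
      have h4 : D.B (D.al k).1 (x.1 + y.1) + D.B (D.al k).1 (y.1 + z.1) +
          D.B (D.al k).1 (z.1 + x.1) = 0 := by
        simp only [B_add_right] at h3 ⊢
        linarith only [h3]
      exact_mod_cast congrArg (Int.cast : ℤ → R) h4
    rw [← neg_add, ← neg_add, ← smul_add, ← smul_add, ← tt_add, ← tt_add, hsum, tt_zero, smul_zero,
      neg_zero]
  · have e1 : y.1 + z.1 + x.1 = x.1 + y.1 + z.1 := by abel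
    have e2 : z.1 + x.1 + y.1 = x.1 + y.1 + z.1 := by abel
    rw [D.l1_T x y z h0, D.l1_T y z x (by rw [e1]; exact h0), D.l1_T z x y (by rw [e2]; exact h0),
      e1, e2]
    by_cases hs : D.B x.1 y.1 + D.B y.1 z.1 + D.B z.1 x.1 = -2
    · rw [← add_smul, ← add_smul, ← Int.cast_add, ← Int.cast_add]
      have hpa := D.l1_par x y
      have hpb := D.l1_par y z
      have hpc := D.l1_par z x
      have key := l1_int (D.B x.1 y.1) (D.B y.1 z.1) (D.B z.1 x.1) (D.eps x.1 y.1) (D.eps y.1 z.1)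
        (D.eps z.1 x.1) (D.eps y.1 x.1) (D.eps z.1 y.1) (D.eps x.1 z.1) hs
        (D.eps_eq_or _ _) (D.eps_eq_or _ _) (D.eps_eq_or _ _) hpa hpb hpc
        (fun h => D.l1_two x y z h) (fun h => D.l1_two y z x h) (fun h => D.l1_two z x y h)
      rw [D.eps_add_left x.1 y.1 z.1, D.eps_add_left y.1 z.1 x.1, D.eps_add_left z.1 x.1 y.1, key]
      rw [Int.cast_zero, zero_smul]
    · have hB : D.B (x.1 + y.1 + z.1) (x.1 + y.1 + z.1) ≠ 2 := by
        intro h
        apply hs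
        simp only [B_add_left, B_add_right] at h
        rw [x.2, y.2, z.2, D.B_comm y.1 x.1, D.B_comm z.1 y.1, D.B_comm x.1 z.1] at h
        linarith only [h]
      rw [er_not_root D hB]
      simp

/-- Jacobi for one Cartan element and two arbitrary vectors: `[x, ·]` is a derivation.
`br_tt`: `[tt x, Y] a = ev (wI a) x * Y a`; expand `br_apply` and use `st_wt`:
`st a c d ≠ 0 → wI d = wI a + wI c`, `ev_add_left`. -/
theorem br_tt_br (x : Fin n → R) (Y Z : D.BI → R) :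
    D.br (D.tt x) (D.br Y Z) = D.br (D.br (D.tt x) Y) Z + D.br Y (D.br (D.tt x) Z) := by
  funext d
  rw [br_tt, Pi.add_apply, br_apply, br_apply, br_apply, Finset.mul_sum, ← Finset.sum_add_distrib]
  refine Finset.sum_congr rfl fun a _ => ?_
  rw [Finset.mul_sum, ← Finset.sum_add_distrib]
  refine Finset.sum_congr rfl fun c _ => ?_
  rw [br_tt, br_tt]
  by_cases h : D.st a c d = 0
  · rw [h]; simp
  · rw [D.st_wt h, ev_add_left]; ring

private theorem l1_jac_tt (x : Fin n → R) (Y Z : D.BI → R) :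
    D.br (D.br (D.tt x) Y) Z + D.br (D.br Y Z) (D.tt x) + D.br (D.br Z (D.tt x)) Y = 0 := by
  have h := D.br_tt_br x Y Z
  rw [D.br_anti (D.br Y Z) (D.tt x), D.br_anti (D.br Z (D.tt x)) Y, D.br_anti Z (D.tt x),
    D.br_neg_right, neg_neg, h]
  abel

private theorem l1_jac_red {Y Z : D.BI → R}
    (h : ∀ γ : D.Rt, D.br (D.br (D.er R γ.1) Y) Z + D.br (D.br Y Z) (D.er R γ.1) +
      D.br (D.br Z (D.er R γ.1)) Y = 0) (X : D.BI → R) :
    D.br (D.br X Y) Z + D.br (D.br Y Z) X + D.br (D.br Z X) Y = 0 := by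
  have hX := D.vec_eq X
  rw [hX]
  simp only [br_add_left, br_add_right, br_sum_left, br_sum_right, br_smul_left, br_smul_right]
  have h1 := D.l1_jac_tt (D.ct X) Y Z
  have h2 : ∑ γ : D.Rt, X (Sum.inr γ) • D.br (D.br (D.er R γ.1) Y) Z +
      ∑ γ : D.Rt, X (Sum.inr γ) • D.br (D.br Y Z) (D.er R γ.1) +
      ∑ γ : D.Rt, X (Sum.inr γ) • D.br (D.br Z (D.er R γ.1)) Y = 0 := by
    rw [← Finset.sum_add_distrib, ← Finset.sum_add_distrib]
    refine Finset.sum_eq_zero fun γ _ => ?_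
    rw [← smul_add, ← smul_add, h γ, smul_zero]
  calc _ = (D.br (D.br (D.tt (D.ct X)) Y) Z + D.br (D.br Y Z) (D.tt (D.ct X)) +
        D.br (D.br Z (D.tt (D.ct X))) Y) +
      (∑ γ : D.Rt, X (Sum.inr γ) • D.br (D.br (D.er R γ.1) Y) Z +
      ∑ γ : D.Rt, X (Sum.inr γ) • D.br (D.br Y Z) (D.er R γ.1) +
      ∑ γ : D.Rt, X (Sum.inr γ) • D.br (D.br Z (D.er R γ.1)) Y) := by abel
    _ = 0 := by rw [h1, h2, add_zero]

/-- The Jacobi identity.  Both sides are trilinear; decompose `X, Y, Z` with `vec_eq`.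
If one of the three vectors is `tt x`, use `br_tt_br` and `br_anti`; otherwise `jac_rrr`. -/
theorem jac (X Y Z : D.BI → R) :
    D.br (D.br X Y) Z + D.br (D.br Y Z) X + D.br (D.br Z X) Y = 0 := by
  have cyc : ∀ {X Y Z : D.BI → R},
      D.br (D.br X Y) Z + D.br (D.br Y Z) X + D.br (D.br Z X) Y = 0 →
      D.br (D.br Y Z) X + D.br (D.br Z X) Y + D.br (D.br X Y) Z = 0 := by
    intro X Y Z h
    rw [← h]; abel
  have s1 : ∀ (X : D.BI → R) (δ μ : D.Rt), D.br (D.br X (D.er R δ.1)) (D.er R μ.1) +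
      D.br (D.br (D.er R δ.1) (D.er R μ.1)) X + D.br (D.br (D.er R μ.1) X) (D.er R δ.1) = 0 :=
    fun X δ μ => D.l1_jac_red (fun γ => D.jac_rrr γ δ μ) X
  have s2 : ∀ (X Y : D.BI → R) (μ : D.Rt), D.br (D.br Y (D.er R μ.1)) X +
      D.br (D.br (D.er R μ.1) X) Y + D.br (D.br X Y) (D.er R μ.1) = 0 :=
    fun X Y μ => D.l1_jac_red (fun δ => cyc (s1 X δ μ)) Y
  exact D.l1_jac_red (fun γ => cyc (s2 Y Z γ)) X

theorem br_br (X Y Z : D.BI → R) : D.br X (D.br Y Z) = D.br (D.br X Y) Z + D.br Y (D.br X Z) := by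
  have h := D.jac X Y Z
  rw [D.br_anti (D.br Y Z) X, D.br_anti (D.br Z X) Y, D.br_anti Z X, D.br_neg_right, neg_neg] at h
  linear_combination (exp := 1) -h

/-- `ad [X, Y] = [ad X, ad Y]` -/
theorem ad_br (X Y : D.BI → R) : D.ad (D.br X Y) = D.ad X * D.ad Y - D.ad Y * D.ad X := by
  refine Matrix.ext_of_mulVec_single fun a => ?_
  rw [Matrix.sub_mulVec, ← Matrix.mulVec_mulVec, ← Matrix.mulVec_mulVec]
  have h := D.br_br X Y (Pi.single a 1)
  simp only [br_def] at h ⊢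
  rw [h]; abel

end

end SLD

end Pool.Agent.MTX
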