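import Pool.Agent.MTX.L7

/-! # MTX, Part L : principal minors and the big cell (row L9)

`mn i X` : the determinant of the block of `X` at the indices of height `≥ i`;
`mm X` : the product of all of them. -/

namespace Pool.Agent.MTX

open Matrix

open Pool.Agent.MTD (ev ev_add ev_sub ev_neg ev_smul ev_zero ev_add_left ev_sub_left ev_neg_left
  ev_smul_left ev_zero_left ev_sum_left ev_sum ev_map ev_comm)

open Pool.Agent.MP_c45d35_ag (chi chi_add chi_mul chi_zero chi_one chi_inv chi_map)

variable {n : ℕ}

namespace SLD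

variable (D : SLD n)

/-- the maximal height -/
noncomputable def H : ℤ := ht D.theta.1

/-- `|hI a| ≤ H` (`theta_max` for `γ` and `ng γ`; `theta_ht_pos`) -/
theorem abs_hI_le (a : D.BI) : |D.hI a| ≤ D.H := by
  unfold H
  rcases a with k | γ
  · rw [hI_inl, abs_zero]
    have := D.theta_ht_pos
    omega
  · rw [hI_inr, abs_le]
    have h1 := D.theta_max γ
    have h2 := D.theta_max (D.ng γ)
    rw [ng_val, ht_neg] at h2
    constructor
    · omega
    · exact h1

section

variable {R : Type*} [CommRing R]

/-- block lower triangular: does not raise the height -/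
def LoB (g : Matrix D.BI D.BI R) : Prop := ∀ a c, D.hI c < D.hI a → g a c = 0

/-- lower unipotent: `1 +` (strictly height lowering) -/
def LoU (g : Matrix D.BI D.BI R) : Prop :=
  (∀ a, g a a = 1) ∧ ∀ a c, a ≠ c → D.hI c ≤ D.hI a → g a c = 0

variable {D}

theorem LoU.loB {g : Matrix D.BI D.BI R} (h : D.LoU g) : D.LoB g := fun a c hac =>
  h.2 a c (by rintro rfl; exact lt_irrefl _ hac) hac.le

theorem LoU.one : D.LoU (1 : Matrix D.BI D.BI R) :=
  ⟨fun a => Matrix.one_apply_eq a, fun a c h _ => Matrix.one_apply_ne h⟩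

/-- product: the entry `a c` with `hI c ≤ hI a` is `∑_b g a b * h b c`; a term is nonzero only if
(`a = b` or `hI a < hI b`) and (`b = c` or `hI b < hI c`), so only `a = b = c` -/
theorem LoU.mul {g h : Matrix D.BI D.BI R} (hg : D.LoU g) (hh : D.LoU h) : D.LoU (g * h) := by
  constructor
  · intro a
    rw [Matrix.mul_apply, Finset.sum_eq_single a]
    · rw [hg.1, hh.1, one_mul]
    · intro b _ hb
      rcases le_total (D.hI b) (D.hI a) with h1 | h1
      · rw [hg.2 a b (Ne.symm hb) h1, zero_mul]
      · rw [hh.2 b a hb h1, mul_zero]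
    · intro h1
      exact absurd (Finset.mem_univ a) h1
  · intro a c hac hca
    rw [Matrix.mul_apply]
    refine Finset.sum_eq_zero fun b _ => ?_
    by_cases hab : a = b
    · subst hab
      rw [hh.2 a c hac hca, mul_zero]
    · rcases le_or_gt (D.hI b) (D.hI a) with h1 | h1
      · rw [hg.2 a b hab h1, zero_mul]
      · have hbc : b ≠ c := by
          intro h2
          rw [h2] at h1
          exact absurd hca (not_le.2 h1)
        rw [hh.2 b c hbc (hca.trans h1.le), mul_zero]

/-- determinant `1` (triangular for the order `eN`: reindex, `Matrix.det_of_lowerTriangular`) -/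
theorem LoU.det {g : Matrix D.BI D.BI R} (hg : D.LoU g) : g.det = 1 := by
  rw [← Matrix.det_reindex_self D.eN g, Matrix.det_of_isLowerTriangular]
  · refine Finset.prod_eq_one fun i _ => ?_
    rw [Matrix.reindex_apply, Matrix.submatrix_apply]
    exact hg.1 _
  · intro i j hij
    have hij' : i < j := hij
    rw [Matrix.reindex_apply, Matrix.submatrix_apply]
    exact hg.2 _ _ (fun h => hij'.ne (D.eN.symm.injective h)) (D.hI_anti i j hij'.le)

/-- the inverse of a lower unipotent matrix: `g = 1 + E` with `E` nilpotent (`pow_down`);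
`g⁻¹ = ∑_k (-E)^k`, and `E^k` lowers the height strictly for `k ≥ 1`.  (Or
`Matrix.blockTriangular_inv_of_blockTriangular` and comparison of the diagonal blocks.) -/
theorem LoU.inv {g : Matrix D.BI D.BI R} (hg : D.LoU g) : D.LoU g⁻¹ := by
  have hx : ∀ a c, (1 - g) a c ≠ 0 → D.hI a < D.hI c := by
    intro a c h
    by_contra hcon
    apply h
    rw [Matrix.sub_apply]
    by_cases hac : a = c
    · subst hac
      rw [hg.1, Matrix.one_apply_eq, sub_self]
    · rw [hg.2 a c hac (not_lt.1 hcon), Matrix.one_apply_ne hac, sub_self]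
  have hN := D.pow_down (1 - g) hx
  have hpow : ∀ k : ℕ, ∀ a c, ((1 - g) ^ (k + 1)) a c ≠ 0 → D.hI a < D.hI c := by
    intro k
    induction k with
    | zero =>
      intro a c h
      rw [zero_add, pow_one] at h
      exact hx a c h
    | succ k ih =>
      intro a c h
      rw [pow_succ, Matrix.mul_apply] at h
      obtain ⟨b, -, hb⟩ := Finset.exists_ne_zero_of_sum_ne_zero h
      have h1 := ih a b (left_ne_zero_of_mul hb)
      have h2 := hx b c (right_ne_zero_of_mul hb)
      exact h1.trans h2
  have hinv : g⁻¹ = ∑ k ∈ Finset.range D.N, (1 - g) ^ k := by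
    apply Matrix.inv_eq_right_inv
    have h1 := mul_neg_geom_sum (1 - g) D.N
    rw [sub_sub_cancel, hN, sub_zero] at h1
    exact h1
  have hval : ∀ a c, D.hI c ≤ D.hI a → g⁻¹ a c = (1 : Matrix D.BI D.BI R) a c := by
    intro a c hca
    have hpos : 0 < D.N := Fintype.card_pos_iff.2 ⟨a⟩
    obtain ⟨m, hm⟩ := Nat.exists_eq_succ_of_ne_zero hpos.ne'
    rw [hinv, hm, Finset.sum_range_succ', pow_zero, Matrix.add_apply, Matrix.sum_apply]
    rw [Finset.sum_eq_zero, zero_add]
    intro k _
    by_contra hcon
    exact absurd hca (not_le.2 (hpow k a c hcon))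
  constructor
  · intro a
    rw [hval a a le_rfl, Matrix.one_apply_eq]
  · intro a c hac hca
    rw [hval a c hca, Matrix.one_apply_ne hac]

/-- inverse of an invertible block upper triangular matrix
(`Matrix.blockTriangular_inv_of_blockTriangular` with `b = fun a => - hI a`) -/
theorem UpB.inv {g : Matrix D.BI D.BI R} (hg : D.UpB g) (hd : IsUnit g.det) : D.UpB g⁻¹ := by
  have hb : g.BlockTriangular (fun a => - D.hI a) := by
    intro a c h
    exact hg a c (neg_lt_neg_iff.1 h)
  letI := Matrix.invertibleOfIsUnitDet g hd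
  have h2 := Matrix.blockTriangular_inv_of_blockTriangular hb
  intro a c h
  exact h2 (neg_lt_neg h)

theorem UpB.mul {g h : Matrix D.BI D.BI R} (hg : D.UpB g) (hh : D.UpB h) : D.UpB (g * h) := by
  intro a c hac
  rw [Matrix.mul_apply]
  refine Finset.sum_eq_zero fun b _ => ?_
  rcases lt_or_ge (D.hI a) (D.hI b) with h1 | h1
  · rw [hg a b h1, zero_mul]
  · rw [hh b c (lt_of_le_of_lt h1 hac), mul_zero]

variable (D)

/-- principal minor -/
noncomputable def mn (i : ℤ) (X : Matrix D.BI D.BI R) : R :=
  (X.toSquareBlockProp fun a => i ≤ D.hI a).det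

/-- product of the principal minors -/
noncomputable def mm (X : Matrix D.BI D.BI R) : R := ∏ i ∈ Finset.Icc (-D.H) D.H, D.mn i X

theorem mn_map {S : Type*} [CommRing S] (φ : R →+* S) (i : ℤ) (X : Matrix D.BI D.BI R) :
    φ (D.mn i X) = D.mn i (X.map φ) := by
  unfold mn
  rw [RingHom.map_det]
  rfl

theorem mm_map {S : Type*} [CommRing S] (φ : R →+* S) (X : Matrix D.BI D.BI R) :
    φ (D.mm X) = D.mm (X.map φ) := by
  unfold mm
  rw [map_prod]
  exact Finset.prod_congr rfl fun i _ => D.mn_map φ i X

theorem l9b_sum (i : ℤ) (f : D.BI → R) (hf : ∀ b, f b ≠ 0 → i ≤ D.hI b) :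
    ∑ b, f b = ∑ b : {b // i ≤ D.hI b}, f b.1 := by
  rw [← Finset.sum_filter_of_ne (p := fun b => i ≤ D.hI b) fun b _ hb => hf b hb]
  exact Finset.sum_subtype _ (fun b => by simp) f

/-- The block of `X * U` is the product of the blocks: in `∑_b X a b * U b c` with `i ≤ hI c`, a
nonzero term has `hI c ≤ hI b` (`UpB`), so `b` is in the block. -/
theorem mn_mul_up (i : ℤ) (X U : Matrix D.BI D.BI R) (hU : D.UpB U) :
    D.mn i (X * U) = D.mn i X * D.mn i U := by
  unfold mn
  rw [← Matrix.det_mul]
  congr 1
  ext ⟨a, ha⟩ ⟨c, hc⟩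
  change (X * U) a c = ∑ b : {b // i ≤ D.hI b}, X a b.1 * U b.1 c
  rw [Matrix.mul_apply]
  refine D.l9b_sum i (fun b => X a b * U b c) fun b hb => ?_
  by_contra hlt
  apply hb
  have h1 : U b c = 0 := hU b c (by omega)
  change X a b * U b c = 0
  rw [h1, mul_zero]

/-- the same on the left -/
theorem mn_lo_mul (i : ℤ) (L X : Matrix D.BI D.BI R) (hL : D.LoB L) :
    D.mn i (L * X) = D.mn i L * D.mn i X := by
  unfold mn
  rw [← Matrix.det_mul]
  congr 1
  ext ⟨a, ha⟩ ⟨c, hc⟩
  change (L * X) a c = ∑ b : {b // i ≤ D.hI b}, L a b.1 * X b.1 c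
  rw [Matrix.mul_apply]
  refine D.l9b_sum i (fun b => L a b * X b c) fun b hb => ?_
  by_contra hlt
  apply hb
  have h1 : L a b = 0 := hL a b (by omega)
  change L a b * X b c = 0
  rw [h1, zero_mul]

/-- a block of a lower unipotent matrix is lower unitriangular for the order `eN` -/
theorem mn_loU (i : ℤ) {L : Matrix D.BI D.BI R} (hL : D.LoU L) : D.mn i L = 1 := by
  classical
  unfold mn
  have hbt : Matrix.BlockTriangular (L.toSquareBlockProp fun a => i ≤ D.hI a)
      (fun a : {a // i ≤ D.hI a} => D.hI a.1) := by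
    intro a c hac
    have hac' : D.hI c.1 < D.hI a.1 := hac
    exact hL.2 a.1 c.1 (by
      intro h
      rw [h] at hac'
      exact lt_irrefl _ hac') hac'.le
  rw [hbt.det]
  refine Finset.prod_eq_one fun k _ => ?_
  have h1 : (L.toSquareBlockProp fun a => i ≤ D.hI a).toSquareBlock
      (fun a : {a // i ≤ D.hI a} => D.hI a.1) k = 1 := by
    ext ⟨⟨a, ha⟩, hak⟩ ⟨⟨c, hc⟩, hck⟩
    change L a c = _
    by_cases hac : a = c
    · subst hac
      rw [Matrix.one_apply_eq]
      exact hL.1 a
    · rw [Matrix.one_apply_ne]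
      · exact hL.2 a c hac (by
          change D.hI a = k at hak
          change D.hI c = k at hck
          omega)
      · intro h
        exact hac (congrArg (fun z => z.1.1) h)
  rw [h1, Matrix.det_one]

theorem mm_mul_up (X U : Matrix D.BI D.BI R) (hU : D.UpB U) :
    D.mm (X * U) = D.mm X * D.mm U := by
  unfold mm
  rw [← Finset.prod_mul_distrib]
  exact Finset.prod_congr rfl fun i _ => D.mn_mul_up i X U hU

theorem mm_loU_mul {L : Matrix D.BI D.BI R} (hL : D.LoU L) (X : Matrix D.BI D.BI R) :
    D.mm (L * X) = D.mm X := by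
  unfold mm
  exact Finset.prod_congr rfl fun i _ => by rw [D.mn_lo_mul i L X hL.loB, D.mn_loU i hL, one_mul]

/-- for `i ≤ -H` the block is everything, for `H < i` it is empty (`abs_hI_le`) -/
theorem mn_low {i : ℤ} (h : i ≤ -D.H) (X : Matrix D.BI D.BI R) : D.mn i X = X.det := by
  have hall : ∀ a, i ≤ D.hI a := fun a => by
    have := abs_le.1 (D.abs_hI_le a)
    omega
  unfold mn
  have h1 := Matrix.det_submatrix_equiv_self (Equiv.subtypeUnivEquiv hall) X
  rw [← h1]
  rfl

theorem mn_high {i : ℤ} (h : D.H < i) (X : Matrix D.BI D.BI R) : D.mn i X = 1 := by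
  have : IsEmpty {a // i ≤ D.hI a} := ⟨fun a => by
    have := abs_le.1 (D.abs_hI_le a.1)
    have := a.2
    omega⟩
  unfold mn
  exact Matrix.det_isEmpty

end

section

variable {K : Type*} [Field K]

/-- all principal minors are nonzero if `mm X ≠ 0` and `det X ≠ 0` (`mn_low`, `mn_high`) -/
theorem mn_ne {X : Matrix D.BI D.BI K} (h : D.mm X ≠ 0) (hd : X.det ≠ 0) (i : ℤ) :
    D.mn i X ≠ 0 := by
  by_cases h1 : i ≤ -D.H
  · rw [D.mn_low h1]
    exact hd
  · by_cases h2 : D.H < i
    · rw [D.mn_high h2]
      exact one_ne_zero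
    · exact Finset.prod_ne_zero_iff.1 h i (Finset.mem_Icc.2 ⟨by omega, by omega⟩)

/-- uniqueness: a vector `v` with no components of height `< i` such that `g v` has no components of
height `≥ i` is `0` (the block of `g` is invertible: `Matrix.mulVec` by the block of the restriction
of `v`). -/
theorem eq_zero_of_low {g : Matrix D.BI D.BI K} {i : ℤ} (h : D.mn i g ≠ 0) {v : D.BI → K}
    (hv : ∀ a, D.hI a < i → v a = 0) (hg : ∀ a, i ≤ D.hI a → (g *ᵥ v) a = 0) : v = 0 := by
  classical
  have h1 : (g.toSquareBlockProp fun a => i ≤ D.hI a) *ᵥ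
      (fun a : {a : D.BI // i ≤ D.hI a} => v a.1) = 0 := by
    funext a
    rw [Pi.zero_apply, ← hg a.1 a.2]
    unfold Matrix.mulVec dotProduct
    symm
    have h2 : ∀ c, c ∉ Finset.univ.filter (fun c : D.BI => i ≤ D.hI c) → g a.1 c * v c = 0 := by
      intro c hc
      rw [Finset.mem_filter, not_and] at hc
      rw [hv c (not_le.1 (hc (Finset.mem_univ c))), mul_zero]
    have h3 : ∑ c, g a.1 c * v c =
        ∑ c ∈ Finset.univ.filter (fun c : D.BI => i ≤ D.hI c), g a.1 c * v c := by
      symm
      exact Finset.sum_subset (Finset.filter_subset _ _) fun c _ hc => h2 c hc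
    rw [h3]
    rw [Finset.sum_subtype (p := fun c : D.BI => i ≤ D.hI c) _
      (fun c => by rw [Finset.mem_filter]; exact ⟨fun h => h.2, fun h => ⟨Finset.mem_univ c, h⟩⟩)
      (fun c => g a.1 c * v c)]
    rfl
  have h2 := Matrix.eq_zero_of_mulVec_eq_zero h h1
  funext a
  by_cases ha : i ≤ D.hI a
  · exact congrFun h2 ⟨a, ha⟩
  · exact hv a (not_le.1 ha)

/-- LU decomposition: with `i = hI a`, the column `a` of `X` is the vector `x_a` without components of
height `< i` such that `g x_a` and `b_a` have the same components of height `≥ i`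
(`X c a = (block⁻¹) c a` for `i ≤ hI c`). -/
theorem exists_X {g : Matrix D.BI D.BI K} (h : ∀ i, D.mn i g ≠ 0) :
    ∃ X : Matrix D.BI D.BI K, D.UpB X ∧ D.LoU (g * X) := by
  classical
  set B : ∀ a : D.BI, Matrix {c : D.BI // D.hI a ≤ D.hI c} {c : D.BI // D.hI a ≤ D.hI c} K :=
    fun a => g.toSquareBlockProp fun c => D.hI a ≤ D.hI c with hB
  have hu : ∀ a, IsUnit (B a).det := fun a => isUnit_iff_ne_zero.2 (h (D.hI a))
  set X : Matrix D.BI D.BI K := fun c a =>
    if hc : D.hI a ≤ D.hI c then (B a)⁻¹ ⟨c, hc⟩ ⟨a, le_rfl⟩ else 0 with hX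
  have key : ∀ a d : D.BI, D.hI a ≤ D.hI d → (g * X) d a = if d = a then 1 else 0 := by
    intro a d hd
    have h1 : (B a * (B a)⁻¹) ⟨d, hd⟩ ⟨a, le_rfl⟩ = if d = a then (1 : K) else 0 := by
      rw [Matrix.mul_nonsing_inv _ (hu a), Matrix.one_apply]
      simp only [Subtype.mk.injEq]
    rw [← h1, Matrix.mul_apply, Matrix.mul_apply]
    have h3 : ∑ c, g d c * X c a =
        ∑ c ∈ Finset.univ.filter (fun c : D.BI => D.hI a ≤ D.hI c), g d c * X c a := by
      symm
      refine Finset.sum_subset (Finset.filter_subset _ _) fun c _ hc => ?_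
      rw [Finset.mem_filter, not_and] at hc
      have h4 : X c a = 0 := dif_neg (hc (Finset.mem_univ c))
      rw [h4, mul_zero]
    rw [h3]
    rw [Finset.sum_subtype (p := fun c : D.BI => D.hI a ≤ D.hI c) _
      (fun c => by rw [Finset.mem_filter]; exact ⟨fun h => h.2, fun h => ⟨Finset.mem_univ c, h⟩⟩)
      (fun c => g d c * X c a)]
    refine Finset.sum_congr rfl fun c _ => ?_
    have h4 : X c.1 a = (B a)⁻¹ c ⟨a, le_rfl⟩ := dif_pos c.2
    rw [h4]
    rfl
  refine ⟨X, ?_, ?_, ?_⟩
  · intro a c hac
    exact dif_neg (not_le.2 hac)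
  · intro a
    rw [key a a le_rfl, if_pos rfl]
  · intro a c hac hle
    rw [key c a hle, if_neg hac]

end

end SLD

namespace IsGp

variable {D : SLD n} {F : Frm D}

theorem l9d_col {K : Type*} [CommRing K] (M : Matrix D.BI D.BI K) (a c : D.BI) :
    (M *ᵥ Pi.single a 1) c = M c a := by
  rw [Matrix.mulVec_single_one]
  rfl

theorem l9d_br_single {K : Type*} [CommRing K] (a c d : D.BI) :
    D.br (Pi.single a (1 : K)) (Pi.single c 1) d = (D.st a c d : K) := by
  rw [D.br_apply, Finset.sum_eq_single a, Finset.sum_eq_single c]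
  · simp
  · intro b _ hb
    simp [hb]
  · intro h
    exact absurd (Finset.mem_univ c) h
  · intro b _ hb
    simp [hb]
  · intro h
    exact absurd (Finset.mem_univ a) h

/-- The lower unipotent factor `L = g X` preserves the bracket.
For `i = hI a`, `j = hI c`: `L b_a = g x_a`, `L b_c = g x_c`, `x_a = X b_a` has no components of height
`< i` (`UpB`), so `v := X [b_a, b_c] - [x_a, x_c]` has no components of height `< i + j`
(`st_ht`), and `g v = L [b_a, b_c] - [L b_a, L b_c]`; both terms have the same components of height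
`≥ i + j` as `[b_a, b_c]`, because `L b = b +` (lower heights).  `eq_zero_of_low`. -/
theorem lu_br {K : Type*} [Field K] [Algebra ℂ K] {g X : Matrix D.BI D.BI K} (hg : IsGp F g)
    (h : ∀ i, D.mn i g ≠ 0) (hX : D.UpB X) (hL : D.LoU (g * X)) (a c : D.BI) :
    (g * X) *ᵥ D.br (Pi.single a 1) (Pi.single c 1) =
      D.br ((g * X) *ᵥ Pi.single a 1) ((g * X) *ᵥ Pi.single c 1) := by
  classical
  have hgv : g *ᵥ (X *ᵥ D.br (Pi.single a 1) (Pi.single c 1) -
      D.br (X *ᵥ Pi.single a 1) (X *ᵥ Pi.single c 1)) =
      (g * X) *ᵥ D.br (Pi.single a 1) (Pi.single c 1) -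
        D.br ((g * X) *ᵥ Pi.single a 1) ((g * X) *ᵥ Pi.single c 1) := by
    rw [Matrix.mulVec_sub, hg.br]
    simp only [Matrix.mulVec_mulVec]
  have hv0 : X *ᵥ D.br (Pi.single a 1) (Pi.single c 1) -
      D.br (X *ᵥ Pi.single a 1) (X *ᵥ Pi.single c 1) = 0 := by
    refine D.eq_zero_of_low (h (D.hI a + D.hI c)) (fun d hd => ?_) (fun d hd => ?_)
    · have e1 : (X *ᵥ D.br (Pi.single a (1 : K)) (Pi.single c 1)) d = 0 := by
        rw [Matrix.mulVec, dotProduct]
        refine Finset.sum_eq_zero fun e _ => ?_
        rw [l9d_br_single]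
        by_cases he : D.st a c e = 0
        · rw [he, Int.cast_zero, mul_zero]
        · have := D.st_ht he
          rw [hX d e (by omega), zero_mul]
      have e2 : D.br (X *ᵥ Pi.single a 1) (X *ᵥ Pi.single c 1) d = 0 := by
        rw [D.br_apply]
        refine Finset.sum_eq_zero fun p _ => Finset.sum_eq_zero fun q _ => ?_
        rw [l9d_col, l9d_col]
        by_cases he : D.st p q d = 0
        · rw [he, Int.cast_zero, mul_zero]
        · have := D.st_ht he
          by_cases hp : D.hI p < D.hI a
          · rw [hX p a hp, zero_mul, zero_mul]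
          · rw [hX q c (by omega), mul_zero, zero_mul]
      rw [Pi.sub_apply, e1, e2, sub_zero]
    · rw [hgv, Pi.sub_apply]
      have e1 : ((g * X) *ᵥ D.br (Pi.single a (1 : K)) (Pi.single c 1)) d = (D.st a c d : K) := by
        rw [Matrix.mulVec, dotProduct, Finset.sum_eq_single d]
        · rw [l9d_br_single, hL.1 d, one_mul]
        · intro e _ he
          rw [l9d_br_single]
          by_cases hs : D.st a c e = 0
          · rw [hs, Int.cast_zero, mul_zero]
          · have := D.st_ht hs
            rw [hL.2 d e (Ne.symm he) (by omega), zero_mul]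
        · intro hd'
          exact absurd (Finset.mem_univ d) hd'
      have e2 : D.br ((g * X) *ᵥ Pi.single a 1) ((g * X) *ᵥ Pi.single c 1) d =
          (D.st a c d : K) := by
        rw [D.br_apply, Finset.sum_eq_single a, Finset.sum_eq_single c]
        · rw [l9d_col, l9d_col, hL.1 a, hL.1 c, one_mul, one_mul]
        · intro q _ hq
          rw [l9d_col, l9d_col]
          by_cases hs : D.st a q d = 0
          · rw [hs, Int.cast_zero, mul_zero]
          · have := D.st_ht hs
            rw [hL.2 q c hq (by omega), mul_zero, zero_mul]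
        · intro hd'
          exact absurd (Finset.mem_univ c) hd'
        · intro p _ hp
          refine Finset.sum_eq_zero fun q _ => ?_
          rw [l9d_col, l9d_col]
          by_cases hs : D.st p q d = 0
          · rw [hs, Int.cast_zero, mul_zero]
          · have := D.st_ht hs
            by_cases hpa : D.hI a ≤ D.hI p
            · rw [hL.2 p a hp hpa, zero_mul, zero_mul]
            · rw [hL.2 q c (by
                rintro rfl
                omega) (by omega), mul_zero, zero_mul]
        · intro hd'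
          exact absurd (Finset.mem_univ a) hd'
      rw [e1, e2, sub_self]
  rw [hv0, Matrix.mulVec_zero] at hgv
  exact (sub_eq_zero.1 hgv.symm)

/-- `ka (L b_a) (L b_c) = kp a c`: if `hI a + hI c > 0`, it is `ka (x_a) (x_c) = 0` (heights,
`kp_wt`); otherwise write `L b = b + lower`: only the leading terms can pair (`kp_wt`: heights
add up to `0`). -/
theorem lu_ka {K : Type*} [Field K] [Algebra ℂ K] {g X : Matrix D.BI D.BI K} (hg : IsGp F g)
    (hX : D.UpB X) (hL : D.LoU (g * X)) (a c : D.BI) :
    D.ka ((g * X) *ᵥ Pi.single a 1) ((g * X) *ᵥ Pi.single c 1) =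
      algebraMap ℂ K (D.kp a c) := by
  classical
  have hht : ∀ p q : D.BI, D.kp p q ≠ 0 → D.hI p + D.hI q = 0 := by
    intro p q hpq
    have h1 := D.kp_wt hpq
    unfold SLD.hI
    rw [← SLD.ht_add, h1]
    simp [SLD.ht]
  by_cases hac : 0 < D.hI a + D.hI c
  · have h0 : D.kp a c = 0 := by
      by_contra hne
      have := hht a c hne
      omega
    rw [h0, map_zero, ← Matrix.mulVec_mulVec, ← Matrix.mulVec_mulVec, hg.ka]
    unfold SLD.ka
    refine Finset.sum_eq_zero fun p _ => Finset.sum_eq_zero fun q _ => ?_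
    rw [l9d_col, l9d_col]
    by_cases hk : D.kp p q = 0
    · rw [hk, map_zero, zero_mul]
    · have := hht p q hk
      by_cases hp : D.hI p < D.hI a
      · rw [hX p a hp, zero_mul, mul_zero]
      · rw [hX q c (by omega), mul_zero, mul_zero]
  · unfold SLD.ka
    rw [Finset.sum_eq_single a, Finset.sum_eq_single c]
    · rw [l9d_col, l9d_col, hL.1 a, hL.1 c, mul_one, mul_one]
    · intro q _ hq
      rw [l9d_col, l9d_col]
      by_cases hk : D.kp a q = 0
      · rw [hk, map_zero, zero_mul]
      · have := hht a q hk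
        rw [hL.2 q c hq (by omega), mul_zero, mul_zero]
    · intro hd'
      exact absurd (Finset.mem_univ c) hd'
    · intro p _ hp
      refine Finset.sum_eq_zero fun q _ => ?_
      rw [l9d_col, l9d_col]
      by_cases hk : D.kp p q = 0
      · rw [hk, map_zero, zero_mul]
      · have := hht p q hk
        by_cases hpa : D.hI a ≤ D.hI p
        · rw [hL.2 p a hp hpa, zero_mul, mul_zero]
        · rw [hL.2 q c (by
            rintro rfl
            omega) (by omega), mul_zero, mul_zero]
    · intro hd'
      exact absurd (Finset.mem_univ a) hd'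

/-- the heights of a tuple of total weight `0` add up to `0` -/
private theorem l9_ht {i : Fin F.k → D.BI} (h : F.c i ≠ 0) : ∑ j, D.hI (i j) = 0 := by
  have h1 := F.c_wt h
  have h2 : ∑ j, D.hI (i j) = ∑ k : Fin n, (∑ j, D.wI (i j)) k := by
    have h3 : ∀ j, D.hI (i j) = ∑ k : Fin n, D.wI (i j) k := fun j => rfl
    rw [Finset.sum_congr rfl (fun j _ => h3 j), Finset.sum_comm]
    refine Finset.sum_congr rfl fun k _ => ?_
    rw [Finset.sum_apply]
  rw [h2, h1]
  exact Finset.sum_eq_zero fun k _ => rfl

/-- the value of the form on the columns of a matrix -/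
private theorem l9_val {K : Type*} [Field K] [Algebra ℂ K] (M : Matrix D.BI D.BI K)
    (i : Fin F.k → D.BI) : F.val (fun j => M *ᵥ Pi.single (i j) 1) =
      ∑ i' : Fin F.k → D.BI, algebraMap ℂ K (F.c i') * ∏ j, M (i' j) (i j) := by
  unfold Frm.val
  refine Finset.sum_congr rfl fun i' _ => ?_
  congr 1
  refine Finset.prod_congr rfl fun j _ => ?_
  show (M *ᵥ (Pi.single (i j) 1 : D.BI → K)) (i' j) = M (i' j) (i j)
  rw [Matrix.mulVec_single_one]
  rfl

/-- the same for the form `F` (`c_wt`, hence the heights of the arguments add up to `0`; if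
`∑_j hI (i j) > 0` use `hg.frm`, otherwise only the leading terms contribute) -/
theorem lu_frm {K : Type*} [Field K] [Algebra ℂ K] {g X : Matrix D.BI D.BI K} (hg : IsGp F g)
    (hX : D.UpB X) (hL : D.LoU (g * X)) (i : Fin F.k → D.BI) :
    F.val (fun j => (g * X) *ᵥ Pi.single (i j) 1) = algebraMap ℂ K (F.c i) := by
  rcases lt_or_ge 0 (∑ j, D.hI (i j)) with hpos | hneg
  · -- positive total height
    have h1 : (fun j => (g * X) *ᵥ (Pi.single (i j) 1 : D.BI → K)) =
        fun j => g *ᵥ (X *ᵥ (Pi.single (i j) 1 : D.BI → K)) := by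
      funext j
      rw [Matrix.mulVec_mulVec]
    rw [h1, hg.frm, l9_val]
    have h2 : F.c i = 0 := by
      by_contra h
      rw [l9_ht h] at hpos
      exact lt_irrefl _ hpos
    rw [h2, map_zero]
    refine Finset.sum_eq_zero fun i' _ => ?_
    by_cases hc : F.c i' = 0
    · rw [hc, map_zero, zero_mul]
    · have h3 := l9_ht hc
      have h4 : ∃ j, D.hI (i' j) < D.hI (i j) := by
        by_contra hcon
        push Not at hcon
        have h5 : ∑ j, D.hI (i j) ≤ ∑ j, D.hI (i' j) := Finset.sum_le_sum fun j _ => hcon j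
        rw [h3] at h5
        exact absurd hpos (not_lt.2 h5)
      obtain ⟨j, hj⟩ := h4
      rw [Finset.prod_eq_zero (Finset.mem_univ j) (hX _ _ hj), mul_zero]
  · rw [l9_val, Finset.sum_eq_single i]
    · rw [Finset.prod_eq_one (fun j _ => hL.1 (i j)), mul_one]
    · intro i' _ hne
      by_cases hc : F.c i' = 0
      · rw [hc, map_zero, zero_mul]
      · have h3 := l9_ht hc
        have h4 : ∃ j, i' j ≠ i j ∧ D.hI (i j) ≤ D.hI (i' j) := by
          by_contra hcon
          push Not at hcon
          apply hne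
          have h5 : ∀ j ∈ (Finset.univ : Finset (Fin F.k)), D.hI (i' j) ≤ D.hI (i j) := by
            intro j _
            by_cases hj : i' j = i j
            · rw [hj]
            · exact (hcon j hj).le
          have h6 : ∑ j, D.hI (i' j) ≤ ∑ j, D.hI (i j) := Finset.sum_le_sum h5
          have h7 : ∑ j, D.hI (i' j) = ∑ j, D.hI (i j) := by
            rw [h3] at h6 ⊢
            exact le_antisymm h6 hneg
          have h8 := (Finset.sum_eq_sum_iff_of_le h5).1 h7
          funext j
          by_contra hj
          exact absurd (h8 j (Finset.mem_univ j)) (hcon j hj).ne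
        obtain ⟨j, hj1, hj2⟩ := h4
        rw [Finset.prod_eq_zero (Finset.mem_univ j) (hL.2 _ _ hj1 hj2), mul_zero]
    · intro h
      exact absurd (Finset.mem_univ i) h

/-- The block diagonal part of a block upper triangular element of the group is in the group.
`g0 a c = if hI a = hI c then g a c else 0`.  Bracket: the components of height `hI a + hI c` of
`g [b_a, b_c] = [g b_a, g b_c]` (`br_lead` for the right side); the other components of both sides of
the claim vanish (`st_ht`).  `ka`: for `hI a + hI c = 0` the higher components of `g b_a`, `g b_c` do not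
contribute (`kp_wt`); otherwise both sides are `0`.  `F`: the same.  Determinant: block triangular
matrices with the same diagonal blocks (`Matrix.BlockTriangular.det`). -/
theorem diag_part {K : Type*} [Field K] [Algebra ℂ K] {g : Matrix D.BI D.BI K} (hg : IsGp F g)
    (h : D.UpB g) : IsGp F (fun a c => if D.hI a = D.hI c then g a c else 0 : Matrix D.BI D.BI K) := by
  set g0 : Matrix D.BI D.BI K := fun a c => if D.hI a = D.hI c then g a c else 0 with hg0
  have e1 : ∀ a c, D.hI a = D.hI c → g0 a c = g a c := fun a c hac => if_pos hac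
  have e0 : ∀ a c, D.hI a ≠ D.hI c → g0 a c = 0 := fun a c hac => if_neg hac
  have c1 : ∀ (M : Matrix D.BI D.BI K) (a b : D.BI), (M *ᵥ Pi.single a 1) b = M b a :=
    fun M a b => by
      rw [Matrix.mulVec_single_one]
      rfl
  have hz : SLD.ht (0 : Fin n → ℤ) = 0 := by
    have h1 := SLD.ht_add (0 : Fin n → ℤ) 0
    rw [add_zero] at h1
    omega
  have hs : ∀ (s : Finset (Fin F.k)) (i : Fin F.k → D.BI),
      SLD.ht (∑ j ∈ s, D.wI (i j)) = ∑ j ∈ s, D.hI (i j) := by
    intro s i
    induction s using Finset.induction_on with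
    | empty => rw [Finset.sum_empty, Finset.sum_empty, hz]
    | insert j s hj ih =>
      rw [Finset.sum_insert hj, Finset.sum_insert hj, SLD.ht_add, ih]
      rfl
  have hsum : ∀ i : Fin F.k → D.BI, F.c i ≠ 0 → ∑ j, D.hI (i j) = 0 := by
    intro i hi
    rw [← hs Finset.univ i, F.c_wt hi, hz]
  have hkh : ∀ a' c', D.kp a' c' ≠ 0 → D.hI a' + D.hI c' = 0 := by
    intro a' c' h1
    have h2 := D.kp_wt h1
    have h3 := SLD.ht_add (D.wI a') (D.wI c')
    rw [h2, hz] at h3
    exact h3.symm
  refine of_basis ?_ ?_ ?_ ?_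
  · intro a c
    funext d
    have hL : ∀ M : Matrix D.BI D.BI K, (M *ᵥ D.br (Pi.single a 1) (Pi.single c 1)) d
        = ∑ e, M d e * (D.st a c e : K) := by
      intro M
      rw [Matrix.mulVec, dotProduct]
      refine Finset.sum_congr rfl fun e _ => ?_
      congr 1
      rw [D.br_def, Matrix.mulVec_single_one]
      show D.ad (Pi.single a 1) e c = _
      rw [D.ad_single, one_mul]
    have hR : ∀ M : Matrix D.BI D.BI K, D.br (M *ᵥ Pi.single a 1) (M *ᵥ Pi.single c 1) d
        = ∑ a', ∑ c', M a' a * M c' c * (D.st a' c' d : K) := by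
      intro M
      rw [D.br_apply]
      refine Finset.sum_congr rfl fun a' _ => Finset.sum_congr rfl fun c' _ => ?_
      rw [c1, c1]
    rw [hL g0, hR g0]
    by_cases hd : D.hI d = D.hI a + D.hI c
    · have h1 := congrFun (hg.br (Pi.single a 1) (Pi.single c 1)) d
      rw [hL g, hR g] at h1
      have h2 : ∑ e, g0 d e * (D.st a c e : K) = ∑ e, g d e * (D.st a c e : K) := by
        refine Finset.sum_congr rfl fun e _ => ?_
        by_cases he : D.st a c e = 0
        · rw [he, Int.cast_zero, mul_zero, mul_zero]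
        · rw [e1 d e (by rw [hd, D.st_ht he])]
      have h3 : ∑ a', ∑ c', g0 a' a * g0 c' c * (D.st a' c' d : K)
          = ∑ a', ∑ c', g a' a * g c' c * (D.st a' c' d : K) := by
        refine Finset.sum_congr rfl fun a' _ => Finset.sum_congr rfl fun c' _ => ?_
        by_cases he : D.st a' c' d = 0
        · rw [he, Int.cast_zero, mul_zero, mul_zero]
        · have h4 := D.st_ht he
          rcases lt_trichotomy (D.hI a') (D.hI a) with h5 | h5 | h5
          · rw [e0 a' a h5.ne, h a' a h5]
            simp only [mul_zero, zero_mul]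
          · have h6 : D.hI c' = D.hI c := by omega
            rw [e1 a' a h5, e1 c' c h6]
          · have h6 : D.hI c' < D.hI c := by omega
            rw [e0 c' c h6.ne, h c' c h6]
            simp only [mul_zero, zero_mul]
      rw [h2, h3, h1]
    · have h2 : ∑ e, g0 d e * (D.st a c e : K) = 0 := by
        refine Finset.sum_eq_zero fun e _ => ?_
        by_cases he : D.st a c e = 0
        · rw [he, Int.cast_zero, mul_zero]
        · rw [e0 d e (by rw [D.st_ht he]; exact hd), zero_mul]
      have h3 : ∑ a', ∑ c', g0 a' a * g0 c' c * (D.st a' c' d : K) = 0 := by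
        refine Finset.sum_eq_zero fun a' _ => Finset.sum_eq_zero fun c' _ => ?_
        by_cases he : D.st a' c' d = 0
        · rw [he, Int.cast_zero, mul_zero]
        · have h4 := D.st_ht he
          by_cases h5 : D.hI a' = D.hI a
          · have h6 : D.hI c' ≠ D.hI c := by
              intro h7
              apply hd
              omega
            rw [e0 c' c h6, mul_zero, zero_mul]
          · rw [e0 a' a h5, zero_mul, zero_mul]
      rw [h2, h3]
  · intro a c
    have hk : ∀ M : Matrix D.BI D.BI K, D.ka (M *ᵥ Pi.single a 1) (M *ᵥ Pi.single c 1)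
        = ∑ a', ∑ c', algebraMap ℂ K (D.kp a' c') * (M a' a * M c' c) := by
      intro M
      unfold SLD.ka
      exact Finset.sum_congr rfl fun a' _ => Finset.sum_congr rfl fun c' _ => by rw [c1, c1]
    rw [hk g0]
    by_cases hac : D.hI a + D.hI c = 0
    · have h1 := hg.ka (Pi.single a 1) (Pi.single c 1)
      rw [hk g, D.ka_single] at h1
      rw [← h1]
      refine Finset.sum_congr rfl fun a' _ => Finset.sum_congr rfl fun c' _ => ?_
      by_cases he : D.kp a' c' = 0
      · rw [he, map_zero, zero_mul, zero_mul]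
      · have h4 := hkh a' c' he
        rcases lt_trichotomy (D.hI a') (D.hI a) with h5 | h5 | h5
        · rw [e0 a' a h5.ne, h a' a h5]
          simp only [mul_zero, zero_mul]
        · have h6 : D.hI c' = D.hI c := by omega
          rw [e1 a' a h5, e1 c' c h6]
        · have h6 : D.hI c' < D.hI c := by omega
          rw [e0 c' c h6.ne, h c' c h6]
          simp only [mul_zero, zero_mul]
    · have h1 : D.kp a c = 0 := by
        by_contra h2
        exact hac (hkh a c h2)
      rw [h1, map_zero]
      refine Finset.sum_eq_zero fun a' _ => Finset.sum_eq_zero fun c' _ => ?_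
      by_cases he : D.kp a' c' = 0
      · rw [he, map_zero, zero_mul]
      · have h4 := hkh a' c' he
        by_cases h5 : D.hI a' = D.hI a
        · have h6 : D.hI c' ≠ D.hI c := by
            intro h7
            apply hac
            omega
          rw [e0 c' c h6, mul_zero, mul_zero]
        · rw [e0 a' a h5, zero_mul, mul_zero]
  · intro i
    have hv : ∀ M : Matrix D.BI D.BI K, F.val (fun j => M *ᵥ Pi.single (i j) 1)
        = ∑ i' : Fin F.k → D.BI, algebraMap ℂ K (F.c i') * ∏ j, M (i' j) (i j) := by
      intro M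
      unfold Frm.val
      refine Finset.sum_congr rfl fun i' _ => ?_
      congr 1
      exact Finset.prod_congr rfl fun j _ => c1 M (i j) (i' j)
    rw [hv g0]
    by_cases hi : ∑ j, D.hI (i j) = 0
    · have h1 := hg.frm (fun j => Pi.single (i j) 1)
      rw [hv g, F.val_single] at h1
      rw [← h1]
      refine Finset.sum_congr rfl fun i' _ => ?_
      by_cases he : F.c i' = 0
      · rw [he, map_zero, zero_mul, zero_mul]
      · have h2 : ∑ j, D.hI (i' j) = 0 := hsum i' he
        congr 1
        by_cases h3 : ∃ j, D.hI (i' j) < D.hI (i j)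
        · obtain ⟨j, hj⟩ := h3
          rw [Finset.prod_eq_zero (Finset.mem_univ j) (e0 _ _ hj.ne),
            Finset.prod_eq_zero (Finset.mem_univ j) (h _ _ hj)]
        · have h4 : ∀ j, D.hI (i j) ≤ D.hI (i' j) := fun j => not_lt.1 fun h5 => h3 ⟨j, h5⟩
          have h6 := (Finset.sum_eq_sum_iff_of_le (s := Finset.univ)
            (f := fun j => D.hI (i j)) (g := fun j => D.hI (i' j)) (fun j _ => h4 j)).1
            (by rw [hi, h2])
          exact Finset.prod_congr rfl fun j _ => e1 _ _ (h6 j (Finset.mem_univ j)).symm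
    · have h1 : F.c i = 0 := by
        by_contra h2
        exact hi (hsum i h2)
      rw [h1, map_zero]
      refine Finset.sum_eq_zero fun i' _ => ?_
      by_cases he : F.c i' = 0
      · rw [he, map_zero, zero_mul]
      · have h2 := hsum i' he
        have h3 : ∃ j, D.hI (i' j) ≠ D.hI (i j) := by
          by_contra h4
          apply hi
          rw [← h2]
          refine Finset.sum_congr rfl fun j _ => ?_
          by_contra h5
          exact h4 ⟨j, fun h6 => h5 h6.symm⟩
        obtain ⟨j, hj⟩ := h3
        rw [Finset.prod_eq_zero (Finset.mem_univ j) (e0 _ _ hj), mul_zero]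
  · have b1 : g.BlockTriangular fun a => - D.hI a := by
      intro a c hac
      have hac' : - D.hI c < - D.hI a := hac
      exact h a c (by omega)
    have b0 : g0.BlockTriangular fun a => - D.hI a := by
      intro a c hac
      have hac' : - D.hI c < - D.hI a := hac
      exact e0 a c (by omega)
    rw [← hg.det, b1.det, b0.det]
    refine Finset.prod_congr rfl fun k _ => ?_
    congr 1
    ext a c
    exact e1 a.1 c.1 (by
      have h1 : - D.hI a.1 = k := a.2
      have h2 : - D.hI c.1 = k := c.2
      omega)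

/-- a block upper triangular element of the group is upper triangular (`diag_part`,
`eq_TB_of_ht`) -/
theorem upT_of_upB {K : Type*} [Field K] [Algebra ℂ K] {g : Matrix D.BI D.BI K} (hg : IsGp F g)
    (h : D.UpB g) : D.UpT g := by
  intro a c hac
  have h1 : D.hI a ≤ D.hI c := by
    have h2 := D.hI_anti _ _ hac.le
    rwa [Equiv.symm_apply_apply, Equiv.symm_apply_apply] at h2
  rcases lt_or_eq_of_le h1 with h2 | h2
  · exact h a c h2
  · obtain ⟨t, ht⟩ := eq_TB_of_ht (diag_part hg h) (fun a c hne => if_neg hne)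
    have hne : a ≠ c := by
      rintro rfl
      exact lt_irrefl _ hac
    have h3 := congrFun (congrFun ht a) c
    have h4 : (if D.hI a = D.hI c then g a c else 0) = D.TB t a c := h3
    rw [if_pos h2] at h4
    rw [h4]
    exact Matrix.diagonal_apply_ne _ hne

/-- The big cell: `exists_X`, `L = g X` is in the group (`lu_br`, `lu_ka`, `lu_frm`, `LoU.det`,
`of_basis`), `b = L⁻¹ g` is in the group and is `X⁻¹` (`det X = 1`), so block upper triangular
(`UpB.inv`), hence `UpT`. -/
theorem exists_LU {K : Type*} [Field K] [Algebra ℂ K] {g : Matrix D.BI D.BI K} (hg : IsGp F g)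
    (h : D.mm g ≠ 0) : ∃ L b : Matrix D.BI D.BI K, IsGp F L ∧ D.LoU L ∧ IsGp F b ∧ D.UpT b ∧
      g = L * b := by
  have hmn : ∀ i, D.mn i g ≠ 0 := D.mn_ne h (by rw [hg.det]; exact one_ne_zero)
  obtain ⟨X, hX, hL⟩ := D.exists_X hmn
  have hgL : IsGp F (g * X) := of_basis (fun a c => lu_br hg hmn hX hL a c)
    (fun a c => lu_ka hg hX hL a c) (fun i => lu_frm hg hX hL i) hL.det
  have hdet : X.det = 1 := by
    have h1 := hL.det
    rwa [Matrix.det_mul, hg.det, one_mul] at h1
  have hu : IsUnit X.det := by rw [hdet]; exact isUnit_one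
  have hb : X⁻¹ = (g * X)⁻¹ * g := by
    rw [Matrix.mul_inv_rev, Matrix.mul_assoc, hg.inv_mul, Matrix.mul_one]
  have hgb : IsGp F X⁻¹ := by
    rw [hb]
    exact hgL.inv.mul hg
  refine ⟨g * X, X⁻¹, hgL, hL, hgb, upT_of_upB hgb (hX.inv hu), ?_⟩
  rw [Matrix.mul_assoc, Matrix.mul_nonsing_inv X hu, Matrix.mul_one]

end IsGp

end Pool.Agent.MTX
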