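import Pool.Agent.MTX.L8
import Pool.Agent.MTX.L9

/-! # MTX, Part L : Iwasawa decomposition over valuation rings (row L10) -/

namespace Pool.Agent.MTX

open Matrix

open Pool.Agent.MTD (ev ev_add ev_sub ev_neg ev_smul ev_zero ev_add_left ev_sub_left ev_neg_left
  ev_smul_left ev_zero_left ev_sum_left ev_sum ev_map ev_comm)

open Pool.Agent.MP_c45d35_ag (chi chi_add chi_mul chi_zero chi_one chi_inv chi_map transfer)

variable {n : ℕ}

namespace SLD

variable (D : SLD n)

section

variable {R : Type*} [CommRing R]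

/-- a root is not zero -/
theorem l10_rt_ne (γ : D.Rt) : γ.1 ≠ 0 := by
  intro h
  have h2 := γ.2
  rw [h, B_zero_left] at h2
  norm_num at h2

/-- diagonal entries of `ad Z`: only the Cartan part of `Z` contributes (`st_wt`, `st_lrr`) -/
theorem ad_diag (Z : D.BI → R) (a : D.BI) : D.ad Z a a = ev (D.wI a) (D.ct Z) := by
  rw [ad_apply, Fintype.sum_sum_type]
  have h2 : ∀ γ : D.Rt, D.st (Sum.inr γ) a a = 0 := by
    intro γ
    by_contra h
    have h1 := D.st_wt h
    rw [wI_inr] at h1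
    exact l10_rt_ne D γ (by simpa using h1)
  simp only [h2, Int.cast_zero, mul_zero, Finset.sum_const_zero, add_zero]
  rcases a with l | γ
  · simp only [st_ll, Int.cast_zero, mul_zero, Finset.sum_const_zero, wI_inl, ev_zero_left]
  · simp only [st_lrr, if_true, wI_inr, ev, ct_apply]
    exact Finset.sum_congr rfl fun k _ => mul_comm _ _

/-- the matrix of the height element `ρ = tt 1` is the diagonal matrix of the heights
(`ad_tt`, `ev y 1 = ht y`) -/
theorem ad_rho : D.ad (D.tt (1 : Fin n → R)) = Matrix.diagonal fun a => ((D.hI a : ℤ) : R) := by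
  rw [ad_tt]
  congr 1
  funext a
  simp [ev, hI, ht]

/-- The sum of the traces of the blocks: `∑_{i = -H}^{H} ∑_{hI a ≥ i} B a a
= ∑_a (hI a + H + 1) B a a` (`abs_hI_le`; exchange of the sums, `Int.card_Icc`). -/
theorem sum_trace (B : Matrix D.BI D.BI R) :
    ∑ i ∈ Finset.Icc (-D.H) D.H, (B.toSquareBlockProp fun a => i ≤ D.hI a).trace =
      ∑ a, ((D.hI a + D.H + 1 : ℤ) : R) * B a a := by
  have h1 : ∀ i : ℤ, (B.toSquareBlockProp fun a => i ≤ D.hI a).trace =
      ∑ a, if i ≤ D.hI a then B a a else 0 := by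
    intro i
    rw [← Finset.sum_filter]
    unfold Matrix.trace
    rw [← Finset.sum_subtype_eq_sum_filter]
    refine Finset.sum_bij (fun x _ => (⟨x.1, x.2⟩ : {a // i ≤ D.hI a})) ?_ ?_ ?_ ?_
    · intro x _; simp
    · intro x _ y _ h
      exact Subtype.ext (congrArg Subtype.val h)
    · intro y _
      exact ⟨⟨y.1, y.2⟩, by simp, rfl⟩
    · intro x _
      rfl
  rw [Finset.sum_congr rfl fun i _ => h1 i, Finset.sum_comm]
  refine Finset.sum_congr rfl fun a _ => ?_
  have h3 := abs_le.mp (D.abs_hI_le a)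
  rw [← Finset.sum_filter, Finset.sum_const]
  have h4 : (Finset.Icc (-D.H) D.H).filter (fun i => i ≤ D.hI a) = Finset.Icc (-D.H) (D.hI a) := by
    ext i
    simp only [Finset.mem_filter, Finset.mem_Icc]
    omega
  rw [h4, Int.card_Icc, nsmul_eq_mul]
  congr 1
  have h5 : ((D.hI a + 1 - -D.H).toNat : ℤ) = D.hI a + D.H + 1 := by
    rw [Int.toNat_of_nonneg (by omega)]; ring
  rw [← h5, Int.cast_natCast]

/-- for `B = ad Z` this is `tr (ad ρ * ad Z)`: `∑_a (wI a)(ct Z) = 0` (`ad_diag`, `sum_wI`,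
`ev_sum_left`), `ad_rho` -/
theorem sum_trace_ad (Z : D.BI → R) :
    ∑ i ∈ Finset.Icc (-D.H) D.H, ((D.ad Z).toSquareBlockProp fun a => i ≤ D.hI a).trace =
      (D.ad (D.tt 1) * D.ad Z).trace := by
  rw [D.sum_trace (D.ad Z)]
  have h1 : (D.ad (D.tt 1) * D.ad Z).trace = ∑ a, ((D.hI a : ℤ) : R) * D.ad Z a a := by
    rw [ad_rho]
    unfold Matrix.trace
    refine Finset.sum_congr rfl fun a _ => ?_
    rw [Matrix.diag_apply, Matrix.diagonal_mul]
  have h2 : ∑ a, D.ad Z a a = 0 := by
    simp only [ad_diag]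
    rw [← ev_sum_left, D.sum_wI, ev_zero_left]
  have h3 : ∀ a, ((D.hI a + D.H + 1 : ℤ) : R) * D.ad Z a a =
      ((D.hI a : ℤ) : R) * D.ad Z a a + ((D.H + 1 : ℤ) : R) * D.ad Z a a := by
    intro a
    push_cast
    ring
  simp only [h3]
  rw [Finset.sum_add_distrib, ← Finset.mul_sum, h2, mul_zero, add_zero, h1]

/-- invariance of the trace form: `tr (ad [X,Y] ad Z) = tr (ad X ad [Y,Z])` (`ad_br`,
`Matrix.trace_mul_comm`) -/
theorem trace_br (X Y Z : D.BI → R) :
    (D.ad (D.br X Y) * D.ad Z).trace = (D.ad X * D.ad (D.br Y Z)).trace := by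
  rw [ad_br, ad_br, sub_mul, mul_sub, Matrix.trace_sub, Matrix.trace_sub]
  congr 1
  · rw [Matrix.mul_assoc]
  · rw [Matrix.mul_assoc, Matrix.trace_mul_comm, Matrix.mul_assoc]

/-- weights: `tr (ad b_a ad b_c) = 0` unless `wI a + wI c = 0` (`ad_single`, `st_wt`) -/
theorem trace_single (a c : D.BI) (h : D.wI a + D.wI c ≠ 0) :
    (D.ad (Pi.single a (1 : R)) * D.ad (Pi.single c 1)).trace = 0 := by
  unfold Matrix.trace
  refine Finset.sum_eq_zero fun d _ => ?_
  rw [Matrix.diag_apply, Matrix.mul_apply]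
  refine Finset.sum_eq_zero fun e _ => ?_
  rw [ad_single, ad_single, one_mul, one_mul]
  by_cases h1 : D.st a e d = 0
  · rw [h1]; simp
  by_cases h2 : D.st c d e = 0
  · rw [h2]; simp
  have h3 := D.st_wt h1
  have h4 := D.st_wt h2
  exfalso
  apply h
  rw [h4] at h3
  have h5 : D.wI d + (D.wI a + D.wI c) = D.wI d + 0 := by
    rw [add_zero]
    conv_rhs => rw [h3]
    abel
  exact add_left_cancel h5

/-- `tr (ad Y * ad e_γ) = Y_{-γ} tr (ad e_{-γ} * ad e_γ)` (expand `Y` in the basis,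
`trace_single`) -/
theorem trace_er (Y : D.BI → R) (γ : D.Rt) :
    (D.ad Y * D.ad (D.er R γ.1)).trace =
      Y (Sum.inr (D.ng γ)) * (D.ad (D.er R (-γ.1)) * D.ad (D.er R γ.1)).trace := by
  have h1 : D.er R (-γ.1) = Pi.single (Sum.inr (D.ng γ)) 1 := D.er_root (D.ng γ)
  have h2 : Y = ∑ a, Y a • (Pi.single a (1 : R) : D.BI → R) := by
    funext b
    rw [Finset.sum_apply, Finset.sum_eq_single b]
    · simp
    · intro c _ hc
      simp [Ne.symm hc]
    · intro h
      exact absurd (Finset.mem_univ b) h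
  rw [h1, er_root]
  conv_lhs => rw [h2, ad_sum]
  rw [Finset.sum_mul, Matrix.trace_sum, Finset.sum_eq_single (Sum.inr (D.ng γ))]
  · rw [ad_smul, Matrix.smul_mul, Matrix.trace_smul, smul_eq_mul]
  · intro a _ ha
    rw [ad_smul, Matrix.smul_mul, Matrix.trace_smul]
    rw [D.trace_single a (Sum.inr γ), smul_zero]
    intro h
    apply ha
    rcases a with k | δ
    · exfalso
      apply l10_rt_ne D γ
      simpa using h
    · congr 1
      apply D.Rt_ext
      rw [ng_val]
      exact eq_neg_of_add_eq_zero_left (by simpa using h)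
  · intro h
    exact absurd (Finset.mem_univ _) h

end

/-- `2 tr (ad e_{-γ} ad e_γ) = - ∑_a B(wI a, γ)^2`, which is negative.
`trace_br` with `X = e_{-γ}`, `Y = e_γ`, `Z = tt (hv γ)`: `[e_{-γ}, e_γ] = tt (hv γ)` (`br_er_er`,
`er_zero`) and `[e_γ, tt (hv γ)] = -2 e_γ` (`br_er_tt`, `ev_hv`); and
`tr (ad (tt (hv γ)))^2 = ∑_a B(wI a, γ)^2` (`ad_tt`, `ev_hv`), `≥ B(γ,γ)^2 = 4`.
Over `K` it is the image of the complex number. -/
theorem trace_ne (K : Type*) [Field K] [Algebra ℂ K] (γ : D.Rt) :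
    ∃ z : ℂ, z ≠ 0 ∧ (D.ad (D.er K (-γ.1)) * D.ad (D.er K γ.1)).trace = algebraMap ℂ K z := by
  have hchar : CharZero K := charZero_of_injective_algebraMap (algebraMap ℂ K).injective
  have h1 := D.trace_br (D.er K (-γ.1)) (D.er K γ.1) (D.tt (D.hv K γ.1))
  have h2 : D.br (D.er K (-γ.1)) (D.er K γ.1) = D.tt (D.hv K γ.1) := by
    have h3 := D.br_er_er (R := K) (D.ng γ) γ
    rw [ng_val, neg_add_cancel, if_pos rfl, D.er_zero, smul_zero, zero_sub, ← D.tt_neg] at h3
    rw [h3]
    congr 1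
    funext k
    rw [Pi.neg_apply]
    simp only [hv]
    rw [D.B_neg_right, Int.cast_neg, neg_neg]
  have h4 : D.br (D.er K γ.1) (D.tt (D.hv K γ.1)) = (-2 : K) • D.er K γ.1 := by
    rw [D.br_er_tt, D.ev_hv, γ.2]
    push_cast
    rw [neg_smul]
  rw [h2, h4, D.ad_smul, Matrix.mul_smul, Matrix.trace_smul, smul_eq_mul, D.ad_tt,
    Matrix.diagonal_mul_diagonal, Matrix.trace_diagonal] at h1
  have h5 : ∑ a : D.BI, ev (D.wI a) (D.hv K γ.1) * ev (D.wI a) (D.hv K γ.1) =
      ((∑ a : D.BI, D.B (D.wI a) γ.1 * D.B (D.wI a) γ.1 : ℤ) : K) := by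
    push_cast
    exact Finset.sum_congr rfl fun a _ => by rw [D.ev_hv]
  rw [h5] at h1
  have h6 : 0 < ∑ a : D.BI, D.B (D.wI a) γ.1 * D.B (D.wI a) γ.1 := by
    refine Finset.sum_pos' (fun a _ => mul_self_nonneg _) ⟨Sum.inr γ, Finset.mem_univ _, ?_⟩
    rw [wI_inr, γ.2]
    norm_num
  refine ⟨-(1 / 2) * ((∑ a : D.BI, D.B (D.wI a) γ.1 * D.B (D.wI a) γ.1 : ℤ) : ℂ), ?_, ?_⟩
  · refine mul_ne_zero (by norm_num) ?_
    exact_mod_cast h6.ne'
  · rw [map_mul, map_neg, map_intCast, map_div₀, map_one, map_ofNat, h1]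
    have : (2 : K) ≠ 0 := two_ne_zero
    field_simp

/-- `det (1 + s B + s² E) = 1 + s tr B + ...` (`Matrix.det_one_add_smul` with `r = X` and
`M = B.map C + X • E`) -/
theorem det_coeff {K : Type*} [Field K] {m : Type*} [Fintype m] [DecidableEq m]
    (B : Matrix m m K) (E : Matrix m m (Polynomial K)) :
    ∃ q : Polynomial K, (1 + (Polynomial.X : Polynomial K) • (B.map Polynomial.C) +
      (Polynomial.X ^ 2 : Polynomial K) • E).det =
      1 + Polynomial.C B.trace * Polynomial.X + q * Polynomial.X ^ 2 := by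
  have h1 : (1 + (Polynomial.X : Polynomial K) • (B.map Polynomial.C) +
      (Polynomial.X ^ 2 : Polynomial K) • E) =
      1 + (Polynomial.X : Polynomial K) • (B.map Polynomial.C +
        (Polynomial.X : Polynomial K) • E) := by
    rw [smul_add, smul_smul, ← pow_two, add_assoc]
  rw [h1, Matrix.det_one_add_smul]
  have h2 : (B.map Polynomial.C + (Polynomial.X : Polynomial K) • E).trace =
      Polynomial.C B.trace + Polynomial.X * E.trace := by
    rw [Matrix.trace_add, Matrix.trace_smul, smul_eq_mul]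
    congr 1
    simp [Matrix.trace, map_sum]
  rw [h2]
  refine ⟨E.trace + Polynomial.eval Polynomial.X (1 + (Polynomial.X :
    Polynomial (Polynomial K)) • (B.map Polynomial.C +
        (Polynomial.X : Polynomial K) • E).map Polynomial.C).det.divX.divX, ?_⟩
  ring

/-- `mm (1 + s B + s² E) = 1 + s ∑_i tr (B_i) + ...` (`det_coeff` for every block, product) -/
theorem mm_coeff {K : Type*} [Field K] (B : Matrix D.BI D.BI K)
    (E : Matrix D.BI D.BI (Polynomial K)) :
    (D.mm (1 + (Polynomial.X : Polynomial K) • (B.map Polynomial.C) +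
      (Polynomial.X ^ 2 : Polynomial K) • E)).coeff 1 =
      ∑ i ∈ Finset.Icc (-D.H) D.H, (B.toSquareBlockProp fun a => i ≤ D.hI a).trace := by
  have h1 : ∀ i : ℤ, ∃ q : Polynomial K, D.mn i (1 + (Polynomial.X : Polynomial K) •
      (B.map Polynomial.C) + (Polynomial.X ^ 2 : Polynomial K) • E) =
      1 + Polynomial.C (B.toSquareBlockProp fun a => i ≤ D.hI a).trace * Polynomial.X +
        q * Polynomial.X ^ 2 := by
    intro i
    obtain ⟨q, hq⟩ := det_coeff (B.toSquareBlockProp fun a => i ≤ D.hI a)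
      (E.toSquareBlockProp fun a => i ≤ D.hI a)
    refine ⟨q, ?_⟩
    rw [← hq]
    unfold mn
    congr 1
    ext a c : 2
    simp only [Matrix.toSquareBlockProp_def, Matrix.of_apply, Matrix.add_apply, Matrix.smul_apply,
      Matrix.map_apply, Matrix.one_apply, Subtype.ext_iff]
  have h2 : ∀ S : Finset ℤ, ∃ q : Polynomial K, ∏ i ∈ S, D.mn i (1 + (Polynomial.X :
      Polynomial K) • (B.map Polynomial.C) + (Polynomial.X ^ 2 : Polynomial K) • E) =
      1 + Polynomial.C (∑ i ∈ S, (B.toSquareBlockProp fun a => i ≤ D.hI a).trace) *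
        Polynomial.X + q * Polynomial.X ^ 2 := by
    intro S
    induction S using Finset.induction_on with
    | empty => exact ⟨0, by simp⟩
    | insert i S hi ih =>
      obtain ⟨q, hq⟩ := ih
      obtain ⟨q', hq'⟩ := h1 i
      rw [Finset.prod_insert hi, Finset.sum_insert hi, hq, hq', map_add]
      refine ⟨q + q' + Polynomial.C (B.toSquareBlockProp fun a => i ≤ D.hI a).trace *
        Polynomial.C (∑ i ∈ S, (B.toSquareBlockProp fun a => i ≤ D.hI a).trace) +
        Polynomial.C (B.toSquareBlockProp fun a => i ≤ D.hI a).trace * q * Polynomial.X +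
        q' * Polynomial.C (∑ i ∈ S, (B.toSquareBlockProp fun a => i ≤ D.hI a).trace) *
          Polynomial.X + q' * q * Polynomial.X ^ 2, ?_⟩
      ring
  obtain ⟨q, hq⟩ := h2 (Finset.Icc (-D.H) D.H)
  unfold mm
  rw [hq, Polynomial.coeff_add, Polynomial.coeff_add, Polynomial.coeff_one,
    Polynomial.coeff_C_mul, Polynomial.coeff_X_one, mul_one, Polynomial.coeff_mul_X_pow']
  simp

/-- `exp(sA) = 1 + s A + s² (...)` if `2 ≤ N` -/
theorem gs_two {R : Type*} [CommRing R] [Algebra ℂ R] (A : Matrix D.BI D.BI R) :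
    ∃ E : Matrix D.BI D.BI (Polynomial R),
      D.gs A = 1 + (Polynomial.X : Polynomial R) • (A.map Polynomial.C) +
        (Polynomial.X ^ 2 : Polynomial R) • E := by
  have hN : 2 ≤ D.N := by
    unfold N
    have h1 : (Sum.inl ⟨0, D.npos⟩ : D.BI) ≠ Sum.inr (D.al ⟨0, D.npos⟩) := by simp
    exact Fintype.one_lt_card_iff.2 ⟨_, _, h1⟩
  obtain ⟨m, hm⟩ := Nat.exists_eq_add_of_le' hN
  refine ⟨∑ k ∈ Finset.range m, (Polynomial.C (algebraMap ℂ R (1 / ((k + 2).factorial : ℂ))) *
    Polynomial.X ^ k) • (A ^ (k + 2)).map Polynomial.C, ?_⟩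
  unfold gs
  rw [hm, Finset.sum_range_succ', Finset.sum_range_succ', Finset.smul_sum]
  have h0 : (A ^ 0).map (Polynomial.C : R →+* Polynomial R) = 1 := by
    rw [pow_zero]
    exact Matrix.map_one _ (map_zero _) (map_one _)
  have e1 : (Polynomial.C (algebraMap ℂ R (1 / ((0 : ℕ).factorial : ℂ))) *
      (Polynomial.X : Polynomial R) ^ 0) • (A ^ 0).map Polynomial.C = 1 := by
    rw [h0]; simp
  have e2 : (Polynomial.C (algebraMap ℂ R (1 / ((0 + 1 : ℕ).factorial : ℂ))) *
      (Polynomial.X : Polynomial R) ^ (0 + 1)) • (A ^ (0 + 1)).map Polynomial.C =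
      (Polynomial.X : Polynomial R) • A.map Polynomial.C := by
    simp
  rw [e1, e2]
  have e3 : ∀ k ∈ Finset.range m, (Polynomial.C (algebraMap ℂ R
      (1 / ((k + 1 + 1 : ℕ).factorial : ℂ))) * (Polynomial.X : Polynomial R) ^ (k + 1 + 1)) •
        (A ^ (k + 1 + 1)).map Polynomial.C = (Polynomial.X ^ 2 : Polynomial R) •
      ((Polynomial.C (algebraMap ℂ R (1 / ((k + 2).factorial : ℂ))) *
        Polynomial.X ^ k) • (A ^ (k + 2)).map Polynomial.C) := by
    intro k _
    rw [smul_smul]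
    congr 1
    ring
  rw [Finset.sum_congr rfl e3]
  abel

/-- evaluation of the one-parameter family at `s` -/
theorem gs_eval {R : Type*} [CommRing R] [Algebra ℂ R] (A : Matrix D.BI D.BI R) (s : R) :
    (D.gs A).map (Polynomial.eval s) = D.expB (s • A) := by
  ext a c
  unfold gs expB
  rw [Matrix.map_apply, Matrix.sum_apply, Matrix.sum_apply, Polynomial.eval_finsetSum]
  refine Finset.sum_congr rfl fun k _ => ?_
  rw [smul_pow, Matrix.smul_apply, Matrix.smul_apply, Matrix.smul_apply, Matrix.map_apply,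
    smul_eq_mul, smul_eq_mul, smul_eq_mul, Polynomial.eval_mul, Polynomial.eval_mul,
    Polynomial.eval_C, Polynomial.eval_C, Polynomial.eval_pow, Polynomial.eval_X, mul_assoc]

end SLD

namespace IsGp

variable {D : SLD n} {F : Frm D}

/-- `L` in `G(K)` lower unipotent with `mm (h L) ∈ V` for all complex `h ∈ G(ℂ)`.  Then the root
components of `L ρ` (`ρ = tt 1`) are in `V`.
Let `γ` be a root, `A = ad e_γ` over `K`, `Q = mm (gs A * L.map C)`, a polynomial.  Its values at
complex `s` are `mm (exp(s ad e_γ) L)` (`gs_eval`, `mm_map`; `exp(s ad e_γ)` is the image of a complex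
element of the group: `isGp_exp_root`, `expB_map`, `ad_map`), so in `V`; hence `Q.coeff 1 ∈ V`
(`coeff_mem`).  On the other hand `Q = mm (L⁻¹ gs A L)` (`mm_loU_mul` for `L⁻¹`, `LoU.inv`, mapped to
`K[s]`), and `L⁻¹ gs A L = 1 + s B + s² E'` with `B = L⁻¹ ad(e_γ) L = ad Z`, `Z = L⁻¹ e_γ` (`gs_two`, `ad'`), so
`Q.coeff 1 = tr (ad ρ * ad Z)` (`mm_coeff`, `sum_trace_ad`)
`= tr (ad ρ L⁻¹ ad(e_γ) L) = tr (L ad ρ L⁻¹ ad e_γ) = tr (ad (L ρ) ad e_γ)
= (L ρ)_{-γ} * z`, `z` a nonzero complex number (`trace_er`, `trace_ne`).  So `(L ρ)_{-γ} ∈ V`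
for every `γ`. -/
theorem rho_mem {K : Type*} [Field K] [Algebra ℂ K] (V : ValuationSubring K)
    (hV : ∀ z : ℂ, algebraMap ℂ K z ∈ V) {L : Matrix D.BI D.BI K} (hL : IsGp F L) (hU : D.LoU L)
    (h : ∀ g : Matrix D.BI D.BI ℂ, IsGp F g → D.mm (g.map (algebraMap ℂ K) * L) ∈ V)
    (γ : D.Rt) : (L *ᵥ D.tt (1 : Fin n → K)) (Sum.inr γ) ∈ V := by
  -- the root `δ = -γ`
  have hc1 : ∀ δ : D.Rt, (L *ᵥ D.tt (1 : Fin n → K)) (Sum.inr (D.ng δ)) ∈ V := by
    intro δ
    -- the matrix `A = ad e_δ`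
    have hA : ∀ z : ℂ, (algebraMap ℂ K z) • D.ad (D.er K δ.1) =
        (z • D.ad (D.er ℂ δ.1)).map (algebraMap ℂ K) := by
      intro z
      have h1 := D.ad_map (algebraMap ℂ K) (D.er ℂ δ.1)
      have h2 : (fun a => algebraMap ℂ K (D.er ℂ δ.1 a)) = D.er K δ.1 := by
        funext a
        rcases a with k | μ
        · simp [SLD.er]
        · simp only [SLD.er, Sum.elim_inr]
          split_ifs <;> simp
      rw [h2] at h1
      rw [← h1]
      ext a c
      simp
    -- the polynomial `Q`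
    have hev : ∀ z : ℂ, (D.mm (D.gs (D.ad (D.er K δ.1)) * L.map Polynomial.C)).eval
        (algebraMap ℂ K z) ∈ V := by
      intro z
      have h1 := D.mm_map (Polynomial.evalRingHom (algebraMap ℂ K z))
        (D.gs (D.ad (D.er K δ.1)) * L.map Polynomial.C)
      rw [Polynomial.coe_evalRingHom] at h1
      rw [h1]
      have h2 : (D.gs (D.ad (D.er K δ.1)) * L.map Polynomial.C).map
          (Polynomial.eval (algebraMap ℂ K z)) =
          (D.expB (z • D.ad (D.er ℂ δ.1))).map (algebraMap ℂ K) * L := by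
        have h3 := Matrix.map_mul (L := D.gs (D.ad (D.er K δ.1))) (M := L.map Polynomial.C)
          (f := Polynomial.evalRingHom (algebraMap ℂ K z))
        rw [Polynomial.coe_evalRingHom] at h3
        rw [h3, D.gs_eval, hA]
        have h4 := D.expB_map (Algebra.ofId ℂ K) (z • D.ad (D.er ℂ δ.1))
        have h5 : (L.map Polynomial.C).map (Polynomial.eval (algebraMap ℂ K z)) = L := by
          ext a c
          simp
        rw [h5]
        congr 1
        exact h4.symm
      rw [h2]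
      exact h _ (D.isGp_exp_root F δ z)
    have hco := coeff_mem V hV _ hev 1
    -- the other computation of the coefficient
    obtain ⟨E, hE⟩ := D.gs_two (D.ad (D.er K δ.1))
    have hLi : D.LoU (L⁻¹.map (Polynomial.C : K →+* Polynomial K)) := by
      have h1 := hU.inv
      constructor
      · intro a
        rw [Matrix.map_apply, h1.1, map_one]
      · intro a c hac hca
        rw [Matrix.map_apply, h1.2 a c hac hca, map_zero]
    rw [← D.mm_loU_mul hLi] at hco
    have hLL : (L⁻¹.map (Polynomial.C : K →+* Polynomial K)) * L.map Polynomial.C = 1 := by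
      rw [← Matrix.map_mul, hL.inv_mul]
      exact Matrix.map_one _ (map_zero _) (map_one _)
    have hexp : (L⁻¹.map (Polynomial.C : K →+* Polynomial K)) *
        (D.gs (D.ad (D.er K δ.1)) * L.map Polynomial.C) =
        1 + (Polynomial.X : Polynomial K) • ((L⁻¹ * D.ad (D.er K δ.1) * L).map Polynomial.C) +
        (Polynomial.X ^ 2 : Polynomial K) • ((L⁻¹.map (Polynomial.C : K →+* Polynomial K)) * E *
          L.map Polynomial.C) := by
      rw [hE, Matrix.map_mul, Matrix.map_mul]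
      rw [Matrix.add_mul, Matrix.add_mul, Matrix.mul_add, Matrix.mul_add, Matrix.one_mul, hLL,
        Matrix.smul_mul, Matrix.smul_mul, Matrix.mul_smul, Matrix.mul_smul, Matrix.mul_assoc,
        Matrix.mul_assoc]
    rw [hexp, D.mm_coeff] at hco
    have hZ : L⁻¹ * D.ad (D.er K δ.1) * L = D.ad (L⁻¹ *ᵥ D.er K δ.1) := by
      rw [hL.inv.ad, Matrix.mul_assoc, hL.inv_mul, Matrix.mul_one]
    rw [hZ, D.sum_trace_ad] at hco
    have htr : (D.ad (D.tt 1) * D.ad (L⁻¹ *ᵥ D.er K δ.1)).trace =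
        (D.ad (L *ᵥ D.tt (1 : Fin n → K)) * D.ad (D.er K δ.1)).trace := by
      rw [← hZ, hL.ad', ← Matrix.mul_assoc, Matrix.trace_mul_comm]
      simp only [Matrix.mul_assoc]
    rw [htr, D.trace_er] at hco
    obtain ⟨z, hz, hz2⟩ := D.trace_ne K δ
    rw [hz2] at hco
    have h6 := V.mul_mem _ _ hco (hV z⁻¹)
    rwa [mul_assoc, ← map_mul, mul_inv_cancel₀ hz, map_one, mul_one] at h6
  have h7 := hc1 (D.ng γ)
  rwa [D.ng_ng] at h7

/-- powers of a matrix that changes the height by exactly `-d` -/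
theorem l10d_pow {R : Type*} [CommRing R] {D : SLD n} (A : Matrix D.BI D.BI R) (d : ℤ)
    (hA : ∀ a c, A a c ≠ 0 → D.hI a = D.hI c - d) (k : ℕ) :
    ∀ a c, (A ^ k) a c ≠ 0 → D.hI a = D.hI c - k * d := by
  induction k with
  | zero =>
    intro a c h
    rw [pow_zero] at h
    have : a = c := by
      by_contra hac
      exact h (Matrix.one_apply_ne hac)
    subst this
    simp
  | succ k ih =>
    intro a c h
    rw [pow_succ, Matrix.mul_apply] at h
    obtain ⟨b, -, hb⟩ := Finset.exists_ne_zero_of_sum_ne_zero h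
    have h1 := ih a b (left_ne_zero_of_mul hb)
    have h2 := hA b c (right_ne_zero_of_mul hb)
    rw [h1, h2]
    push_cast
    ring

theorem l10d_pow_mem {K : Type*} [Field K] {D : SLD n} (V : ValuationSubring K)
    (A : Matrix D.BI D.BI K) (hA : ∀ a c, A a c ∈ V) (k : ℕ) : ∀ a c, (A ^ k) a c ∈ V := by
  induction k with
  | zero =>
    intro a c
    rw [pow_zero, Matrix.one_apply]
    split_ifs
    · exact V.one_mem
    · exact V.zero_mem
  | succ k ih =>
    intro a c
    rw [pow_succ, Matrix.mul_apply]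
    exact sum_mem fun b _ => V.mul_mem _ _ (ih a b) (hA b c)

theorem l10d_expB_mem {K : Type*} [Field K] [Algebra ℂ K] {D : SLD n} (V : ValuationSubring K)
    (hV : ∀ z : ℂ, algebraMap ℂ K z ∈ V)
    (A : Matrix D.BI D.BI K) (hA : ∀ a c, A a c ∈ V) (a c : D.BI) : D.expB A a c ∈ V := by
  unfold SLD.expB
  rw [Matrix.sum_apply]
  refine sum_mem fun k _ => ?_
  rw [Matrix.smul_apply, smul_eq_mul]
  exact V.mul_mem _ _ (hV _) (l10d_pow_mem V A hA k a c)

theorem l10d_mulVec_mem {K : Type*} [Field K] {D : SLD n} (V : ValuationSubring K)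
    (A : Matrix D.BI D.BI K) (hA : ∀ a c, A a c ∈ V) (w : D.BI → K) (hw : ∀ a, w a ∈ V)
    (a : D.BI) : (A *ᵥ w) a ∈ V := by
  rw [Matrix.mulVec, dotProduct]
  exact sum_mem fun c _ => V.mul_mem _ _ (hA a c) (hw c)

theorem l10d_loU {R : Type*} [CommRing R] [Algebra ℂ R] {D : SLD n} (A : Matrix D.BI D.BI R)
    (d : ℤ) (hd : 1 ≤ d) (hA : ∀ a c, A a c ≠ 0 → D.hI a = D.hI c - d) : D.LoU (D.expB A) := by
  have hkey : ∀ (k : ℕ) (a c : D.BI), 1 ≤ k → D.hI c ≤ D.hI a → (A ^ k) a c = 0 := by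
    intro k a c hk hac
    by_contra h
    have h1 := l10d_pow A d hA k a c h
    have h2 : (1 : ℤ) ≤ k := by exact_mod_cast hk
    nlinarith
  constructor
  · intro a
    unfold SLD.expB
    rw [Matrix.sum_apply, Finset.sum_eq_single 0]
    · simp
    · intro k _ hk
      rw [Matrix.smul_apply, hkey k a a (Nat.one_le_iff_ne_zero.2 hk) le_rfl, smul_zero]
    · intro h
      exact absurd (Finset.mem_range.2 D.N_pos) h
  · intro a c hac hh
    unfold SLD.expB
    rw [Matrix.sum_apply]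
    refine Finset.sum_eq_zero fun k _ => ?_
    rw [Matrix.smul_apply]
    rcases Nat.eq_zero_or_pos k with hk | hk
    · subst hk
      rw [pow_zero, Matrix.one_apply_ne hac, smul_zero]
    · rw [hkey k a c hk hh, smul_zero]

theorem l10d_ev_one {K : Type*} [CommRing K] (y : Fin n → ℤ) :
    ev y (1 : Fin n → K) = ((SLD.ht y : ℤ) : K) := by
  simp [ev, SLD.ht]

/-- A lower unipotent element of the group fixing `ρ` is `1`: it commutes with `ad ρ` (`ad`, `ad_rho`),
so `(hI c - hI a) g a c = 0`. -/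
theorem eq_one_of_rho {K : Type*} [Field K] [Algebra ℂ K] {g : Matrix D.BI D.BI K}
    (hg : IsGp F g) (hU : D.LoU g) (h : g *ᵥ D.tt (1 : Fin n → K) = D.tt 1) : g = 1 := by
  have h1 := hg.ad (D.tt (1 : Fin n → K))
  rw [h, D.ad_rho] at h1
  have : CharZero K := charZero_of_injective_algebraMap (algebraMap ℂ K).injective
  ext a c
  by_cases hac : a = c
  · subst hac
    rw [hU.1 a, Matrix.one_apply_eq]
  · rw [Matrix.one_apply_ne hac]
    by_cases hh : D.hI c ≤ D.hI a
    · exact hU.2 a c hac hh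
    · have h2 := congrFun (congrFun h1 a) c
      rw [Matrix.mul_diagonal, Matrix.diagonal_mul] at h2
      have h3 : ((D.hI c : ℤ) : K) ≠ ((D.hI a : ℤ) : K) := by
        intro h4
        have := Int.cast_injective h4
        omega
      have h4 : g a c * (((D.hI c : ℤ) : K) - ((D.hI a : ℤ) : K)) = 0 := by
        linear_combination h2
      exact (mul_eq_zero.1 h4).resolve_right (sub_ne_zero.2 h3)

/-- One step: `w = ρ + (components of height ≤ -d)`, `1 ≤ d`, entries in `V`.  There is a lower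
unipotent `u` in the group with entries in `V` such that `u⁻¹ w = ρ + (components of height
≤ -(d+1))`, entries in `V`.
`z a = - w a / hI a` (i.e. `w a / d`) for the indices `a = inr γ` with `hI a = -d`, `0` otherwise;
`u = exp(ad z)` (`isGp_exp_down`), `u⁻¹ = exp(-ad z)` (`expB_neg_mul`, `pow_down`, `ad_down`).
`exp(-ad z) w = w - [z, w] + (terms lowering the height by at least 2d)`, and
`[z, w] = [z, ρ] + (heights ≤ -2d)`, `[z, ρ] a = - hI a * z a` (`br_anti`, `br_tt`), so the component of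
`u⁻¹ w` at height `-d` is `w a + hI a * z a = 0`.  The entries of `exp(± ad z)` are in `V` (`1/k! ∈ V`,
structure constants are integers). -/
theorem step_rho {K : Type*} [Field K] [Algebra ℂ K] (F : Frm D) (V : ValuationSubring K)
    (hV : ∀ z : ℂ, algebraMap ℂ K z ∈ V) (d : ℤ) (hd : 1 ≤ d) (w : D.BI → K)
    (hw : ∀ a, w a ∈ V) (h0 : ∀ a, -d < D.hI a → w a = D.tt (1 : Fin n → K) a) :
    ∃ u : Matrix D.BI D.BI K, IsGp F u ∧ D.LoU u ∧ (∀ a c, u a c ∈ V) ∧
      (∀ a, (u⁻¹ *ᵥ w) a ∈ V) ∧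
      ∀ a, -(d + 1) < D.hI a → (u⁻¹ *ᵥ w) a = D.tt (1 : Fin n → K) a := by
  classical
  have : CharZero K := charZero_of_injective_algebraMap (algebraMap ℂ K).injective
  have hd0 : ((d : ℤ) : K) ≠ 0 := by
    have : d ≠ 0 := by omega
    exact_mod_cast this
  have hint : ∀ m : ℤ, (m : K) ∈ V := fun m => by
    have h := hV (m : ℂ)
    rwa [map_intCast] at h
  have hdV : ((d : ℤ) : K)⁻¹ ∈ V := by
    have h := hV ((d : ℂ)⁻¹)
    rwa [map_inv₀, map_intCast] at h
  set z : D.BI → K := fun a => if D.hI a = -d then w a * ((d : ℤ) : K)⁻¹ else 0 with hz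
  have hz1 : ∀ a, z a ≠ 0 → D.hI a = -d := by
    intro a ha
    by_contra h
    exact ha (by rw [hz]; exact if_neg h)
  have hz2 : ∀ a, z a ≠ 0 → D.hI a < 0 := fun a ha => by
    have := hz1 a ha
    omega
  have hzV : ∀ a, z a ∈ V := by
    intro a
    rw [hz]
    show (if D.hI a = -d then w a * ((d : ℤ) : K)⁻¹ else 0) ∈ V
    split_ifs
    · exact V.mul_mem _ _ (hw a) hdV
    · exact V.zero_mem
  have hadV : ∀ a c, D.ad z a c ∈ V := by
    intro a c
    rw [D.ad_apply]
    exact sum_mem fun b _ => V.mul_mem _ _ (hzV b) (hint _)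
  have hadh : ∀ a c, D.ad z a c ≠ 0 → D.hI a = D.hI c - d := by
    intro a c h
    rw [D.ad_apply] at h
    obtain ⟨b, -, hb⟩ := Finset.exists_ne_zero_of_sum_ne_zero h
    have h1 := hz1 b (left_ne_zero_of_mul hb)
    have h2 : D.st b c a ≠ 0 := fun h' => hb (by rw [h', Int.cast_zero, mul_zero])
    have h3 := D.st_ht h2
    omega
  have hnegV : ∀ a c, (-D.ad z) a c ∈ V := fun a c => by
    rw [Matrix.neg_apply]
    exact V.neg_mem _ (hadV a c)
  have hnegh : ∀ a c, (-D.ad z) a c ≠ 0 → D.hI a = D.hI c - d := fun a c h => by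
    rw [Matrix.neg_apply] at h
    exact hadh a c (neg_ne_zero.1 h)
  have hnil : D.ad z ^ D.N = 0 := D.pow_down _ (D.ad_down hz2)
  have hinv : (D.expB (D.ad z))⁻¹ = D.expB (-D.ad z) :=
    Matrix.inv_eq_left_inv (D.expB_neg_mul _ hnil)
  refine ⟨D.expB (D.ad z), D.isGp_exp_down F hz2, l10d_loU _ d hd hadh,
    l10d_expB_mem V hV _ hadV, ?_, ?_⟩
  · intro a
    rw [hinv]
    exact l10d_mulVec_mem V _ (l10d_expB_mem V hV _ hnegV) w hw a
  · intro a ha
    rw [hinv]
    -- the terms `k ≥ 1`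
    have hterm : ∀ k : ℕ, 1 ≤ k → (((-D.ad z) ^ k) *ᵥ w) a ≠ 0 → k = 1 ∧ D.hI a = -d := by
      intro k hk h
      rw [Matrix.mulVec, dotProduct] at h
      obtain ⟨c, -, hc⟩ := Finset.exists_ne_zero_of_sum_ne_zero h
      have h1 := l10d_pow _ d hnegh k a c (left_ne_zero_of_mul hc)
      have h2 := right_ne_zero_of_mul hc
      have hk1 : (1 : ℤ) ≤ k := by exact_mod_cast hk
      have h3 : -d < D.hI c := by nlinarith
      rw [h0 c h3] at h2
      rcases c with l | γ
      · rw [SLD.hI_inl] at h1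
        have h4 : (k : ℤ) * d < d + 1 := by omega
        have h5 : (k : ℤ) = 1 := by
          by_contra h6
          have : (2 : ℤ) ≤ k := by omega
          nlinarith
        refine ⟨by exact_mod_cast h5, ?_⟩
        rw [h1, h5]
        ring
      · exact absurd rfl h2
    have hexp : (D.expB (-D.ad z) *ᵥ w) a = ∑ k ∈ Finset.range D.N,
        algebraMap ℂ K (1 / (k.factorial : ℂ)) * (((-D.ad z) ^ k) *ᵥ w) a := by
      unfold SLD.expB
      rw [Matrix.sum_mulVec, Finset.sum_apply]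
      refine Finset.sum_congr rfl fun k _ => ?_
      rw [Matrix.smul_mulVec, Pi.smul_apply, smul_eq_mul]
    rw [hexp]
    by_cases had : D.hI a = -d
    · -- two terms
      have hN : 1 < D.N := by
        unfold SLD.N
        rw [Fintype.one_lt_card_iff]
        refine ⟨a, Sum.inl ⟨0, D.npos⟩, ?_⟩
        rintro rfl
        rw [SLD.hI_inl] at had
        omega
      rw [← Finset.sum_subset (s₁ := {0, 1})]
      · rw [Finset.sum_pair (by norm_num)]
        have e1 : ((-D.ad z) *ᵥ w) a = ((-D.ad z) *ᵥ D.tt (1 : Fin n → K)) a := by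
          rw [Matrix.mulVec, Matrix.mulVec, dotProduct, dotProduct]
          refine Finset.sum_congr rfl fun c _ => ?_
          by_cases hc : (-D.ad z) a c = 0
          · rw [hc, zero_mul, zero_mul]
          · have := hnegh a c hc
            rw [h0 c (by omega)]
        have e2 : ((-D.ad z) *ᵥ D.tt (1 : Fin n → K)) a = ((D.hI a : ℤ) : K) * z a := by
          rw [Matrix.neg_mulVec, ← D.br_def, ← D.br_anti, D.br_tt, l10d_ev_one]
          rfl
        have e3 : z a = w a * ((d : ℤ) : K)⁻¹ := if_pos had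
        rw [pow_zero, pow_one, Matrix.one_mulVec, e1, e2, e3, had]
        have e4 : D.tt (1 : Fin n → K) a = 0 := by
          rcases a with l | γ
          · rw [SLD.hI_inl] at had
            omega
          · rfl
        rw [e4]
        simp only [Nat.factorial_zero, Nat.factorial_one, Nat.cast_one, div_one, map_one, one_mul]
        push_cast
        field_simp
        ring
      · intro k hk
        simp only [Finset.mem_insert, Finset.mem_singleton] at hk
        rcases hk with rfl | rfl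
        · exact Finset.mem_range.2 D.N_pos
        · exact Finset.mem_range.2 hN
      · intro k _ hk
        simp only [Finset.mem_insert, Finset.mem_singleton, not_or] at hk
        by_contra h
        exact hk.2 (hterm k (Nat.one_le_iff_ne_zero.2 hk.1) (right_ne_zero_of_mul h)).1
    · rw [Finset.sum_eq_single 0]
      · rw [pow_zero, Matrix.one_mulVec, h0 a (by omega)]
        simp
      · intro k _ hk
        by_contra h
        exact had (hterm k (Nat.one_le_iff_ne_zero.2 hk) (right_ne_zero_of_mul h)).2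
      · intro h
        exact absurd (Finset.mem_range.2 D.N_pos) h

/-- A lower unipotent `L ∈ G(K)` with `L ρ` in `V` has entries in `V`.
By induction on `d ≥ 1` (`step_rho`) there is a lower unipotent `u` in the group with entries in `V`
such that `u⁻¹ L ρ` agrees with `ρ` in all heights `> -d`, with entries in `V` (`d = 1`: `u = 1`; the
components of `L ρ` of height `≥ 0` are those of `ρ` by `LoU`).  For `d > H` (`abs_hI_le`):
`u⁻¹ L ρ = ρ`, so `u⁻¹ L = 1` (`eq_one_of_rho`, `LoU.mul`, `LoU.inv`), `L = u`. -/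
theorem mem_of_rho {K : Type*} [Field K] [Algebra ℂ K] (V : ValuationSubring K)
    (hV : ∀ z : ℂ, algebraMap ℂ K z ∈ V) {L : Matrix D.BI D.BI K} (hL : IsGp F L) (hU : D.LoU L)
    (h : ∀ γ : D.Rt, (L *ᵥ D.tt (1 : Fin n → K)) (Sum.inr γ) ∈ V) (a c : D.BI) : L a c ∈ V := by
  have hbase : ∀ a, -1 < D.hI a → (L *ᵥ D.tt (1 : Fin n → K)) a = D.tt (1 : Fin n → K) a := by
    intro a ha
    rw [Matrix.mulVec, dotProduct, Finset.sum_eq_single a]
    · rw [hU.1 a, one_mul]
    · intro b _ hb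
      rcases b with l | γ
      · rw [hU.2 a (Sum.inl l) (Ne.symm hb) (by rw [SLD.hI_inl]; omega), zero_mul]
      · rw [SLD.tt_inr, mul_zero]
    · intro h'
      exact absurd (Finset.mem_univ a) h'
  have hall : ∀ a, (L *ᵥ D.tt (1 : Fin n → K)) a ∈ V := by
    intro a
    rcases a with l | γ
    · rw [hbase (Sum.inl l) (by rw [SLD.hI_inl]; norm_num)]
      exact V.one_mem
    · exact h γ
  have hstep : ∀ m : ℕ, ∃ u : Matrix D.BI D.BI K, IsGp F u ∧ D.LoU u ∧ (∀ a c, u a c ∈ V) ∧
      (∀ a, (u⁻¹ *ᵥ (L *ᵥ D.tt (1 : Fin n → K))) a ∈ V) ∧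
      ∀ a, -((m : ℤ) + 1) < D.hI a →
        (u⁻¹ *ᵥ (L *ᵥ D.tt (1 : Fin n → K))) a = D.tt (1 : Fin n → K) a := by
    intro m
    induction m with
    | zero =>
      refine ⟨1, IsGp.one, SLD.LoU.one, ?_, ?_, ?_⟩
      · intro a c
        rw [Matrix.one_apply]
        split_ifs
        · exact V.one_mem
        · exact V.zero_mem
      · intro a
        rw [inv_one, Matrix.one_mulVec]
        exact hall a
      · intro a ha
        rw [inv_one, Matrix.one_mulVec]
        refine hbase a ?_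
        simpa using ha
    | succ m ih =>
      obtain ⟨u, h1, h2, h3, h4, h5⟩ := ih
      obtain ⟨u', g1, g2, g3, g4, g5⟩ := step_rho F V hV ((m : ℤ) + 1) (by
        have : (0 : ℤ) ≤ m := Int.natCast_nonneg m
        omega) _ h4 h5
      have hinv : (u * u')⁻¹ = u'⁻¹ * u⁻¹ := Matrix.mul_inv_rev u u'
      refine ⟨u * u', h1.mul g1, h2.mul g2, ?_, ?_, ?_⟩
      · intro a c
        rw [Matrix.mul_apply]
        exact sum_mem fun b _ => V.mul_mem _ _ (h3 a b) (g3 b c)
      · intro a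
        rw [hinv, ← Matrix.mulVec_mulVec]
        exact g4 a
      · intro a ha
        rw [hinv, ← Matrix.mulVec_mulVec]
        refine g5 a ?_
        push_cast at ha
        exact ha
  obtain ⟨u, h1, h2, h3, h4, h5⟩ := hstep D.H.toNat
  have hfix : (u⁻¹ * L) *ᵥ D.tt (1 : Fin n → K) = D.tt 1 := by
    funext a
    rw [← Matrix.mulVec_mulVec]
    refine h5 a ?_
    have h6 := D.abs_hI_le a
    have h7 := neg_abs_le (D.hI a)
    have h8 := Int.self_le_toNat D.H
    omega
  have h6 := eq_one_of_rho (h1.inv.mul hL) (h2.inv.mul hU) hfix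
  have h7 : L = u := by
    calc L = u * (u⁻¹ * L) := by rw [← Matrix.mul_assoc, h1.mul_inv, Matrix.one_mul]
    _ = u := by rw [h6, Matrix.mul_one]
  rw [h7]
  exact h3 a c

/-- the generic matrix over `K` -/
noncomputable def l10_X (K : Type*) [Field K] (D : SLD n) :
    Matrix D.BI D.BI (MvPolynomial (D.BI × D.BI) K) :=
  Matrix.of fun a c => MvPolynomial.X (a, c)

/-- the polynomial whose values are the products of the principal minors of `h g` -/
noncomputable def l10_P {K : Type*} [Field K] (D : SLD n) (g : Matrix D.BI D.BI K) :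
    MvPolynomial (D.BI × D.BI) K :=
  D.mm (l10_X K D * g.map MvPolynomial.C)

theorem l10_eval {K : Type*} [Field K] (g h : Matrix D.BI D.BI K) :
    MvPolynomial.eval (fun q : D.BI × D.BI => h q.1 q.2) (l10_P D g) = D.mm (h * g) := by
  unfold l10_P
  rw [D.mm_map, Matrix.map_mul]
  congr 2
  · ext a c
    rw [Matrix.map_apply]
    show MvPolynomial.eval _ (MvPolynomial.X (a, c)) = _
    rw [MvPolynomial.eval_X]
  · ext a c
    rw [Matrix.map_apply, Matrix.map_apply, MvPolynomial.eval_C]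

theorem l10_mm_one {K : Type*} [Field K] : D.mm (1 : Matrix D.BI D.BI K) = 1 := by
  unfold SLD.mm
  exact Finset.prod_eq_one fun i _ => D.mn_loU i SLD.LoU.one

/-- There is a complex `h ∈ G(ℂ)` with `mm (h g) ≠ 0` such that `mm (h' h g) / mm (h g) ∈ V` for all
`h' ∈ G(ℂ)`.
`P = mm (X0 * g.map C)` over `MvPolynomial (BI × BI) K` (`X0` the generic matrix over `K`),
`eval h P = mm (h g)` (`mm_map`).  Not all values at complex points vanish: otherwise
`P(g⁻¹) = mm 1 = 1` vanishes by `transferK`.  The values at complex points lie in the complex span of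
the coefficients of `P`.  `exists_div` for the family indexed by the complex group; then use
`h' h` (`mul`). -/
theorem exists_h {K : Type*} [Field K] [Algebra ℂ K] (V : ValuationSubring K)
    (hV : ∀ z : ℂ, algebraMap ℂ K z ∈ V) {g : Matrix D.BI D.BI K} (hg : IsGp F g) :
    ∃ h : Matrix D.BI D.BI ℂ, IsGp F h ∧ D.mm (h.map (algebraMap ℂ K) * g) ≠ 0 ∧
      ∀ h' : Matrix D.BI D.BI ℂ, IsGp F h' → ∃ v ∈ V,
        D.mm ((h' * h).map (algebraMap ℂ K) * g) = v * D.mm (h.map (algebraMap ℂ K) * g) := by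
  classical
  have heval : ∀ h : Matrix D.BI D.BI ℂ,
      MvPolynomial.eval (fun q : D.BI × D.BI => algebraMap ℂ K (h q.1 q.2)) (l10_P D g) =
        D.mm (h.map (algebraMap ℂ K) * g) := fun h => l10_eval g (h.map (algebraMap ℂ K))
  obtain ⟨S, hS⟩ : ∃ S : Finset K, S = (l10_P D g).support.image
    (fun m => MvPolynomial.coeff m (l10_P D g)) := ⟨_, rfl⟩
  have hspan : ∀ h : {h : Matrix D.BI D.BI ℂ // IsGp F h},
      D.mm (h.1.map (algebraMap ℂ K) * g) ∈ Submodule.span ℂ (S : Set K) := by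
    intro h
    rw [← heval, MvPolynomial.eval_eq]
    apply Submodule.sum_mem
    intro m hm
    have h1 : MvPolynomial.coeff m (l10_P D g) *
        ∏ i ∈ m.support, (algebraMap ℂ K (h.1 i.1 i.2)) ^ m i =
        (∏ i ∈ m.support, (h.1 i.1 i.2) ^ m i) • MvPolynomial.coeff m (l10_P D g) := by
      rw [Algebra.smul_def, map_prod, mul_comm]
      congr 1
      exact Finset.prod_congr rfl fun i _ => by rw [map_pow]
    rw [h1]
    apply Submodule.smul_mem
    apply Submodule.subset_span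
    rw [hS, Finset.coe_image]
    exact ⟨m, hm, rfl⟩
  have hne : ∃ h : {h : Matrix D.BI D.BI ℂ // IsGp F h},
      D.mm (h.1.map (algebraMap ℂ K) * g) ≠ 0 := by
    by_contra hcon
    push Not at hcon
    have h1 := F.transferK (l10_P D g) (fun h hh => by rw [heval]; exact hcon ⟨h, hh⟩)
      g⁻¹ hg.inv
    rw [l10_eval, hg.inv_mul, l10_mm_one] at h1
    exact one_ne_zero h1
  obtain ⟨j, hj, hdiv⟩ := exists_div V hV
    (fun h : {h : Matrix D.BI D.BI ℂ // IsGp F h} => D.mm (h.1.map (algebraMap ℂ K) * g)) S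
    hspan hne
  exact ⟨j.1, j.2, hj, fun h' hh' => hdiv ⟨h' * j.1, hh'.mul j.2⟩⟩

/-- Iwasawa decomposition.  `h` from `exists_h`; `h g = L b` (`exists_LU`);
`mm (h' L) mm b = mm (h' h g) = v mm (h g) = v mm b` (`mm_mul_up`, `UpT.upB`, `mm_loU_mul`) and
`mm b ≠ 0`, so `mm (h' L) ∈ V` for all `h'`; `rho_mem`, `mem_of_rho`: `L` has entries in `V`.
`k = h⁻¹ L`, where `h⁻¹` is complex. -/
theorem iwasawa {K : Type*} [Field K] [Algebra ℂ K] (V : ValuationSubring K)
    (hV : ∀ z : ℂ, algebraMap ℂ K z ∈ V) {g : Matrix D.BI D.BI K} (hg : IsGp F g) :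
    ∃ k b : Matrix D.BI D.BI K, IsGp F k ∧ (∀ a c, k a c ∈ V) ∧ IsGp F b ∧ D.UpT b ∧
      g = k * b := by
  obtain ⟨h, hh, hne, hdiv⟩ := exists_h V hV hg
  have hhK : IsGp F (h.map (algebraMap ℂ K)) := hh.map (Algebra.ofId ℂ K)
  have hhiK : IsGp F (h⁻¹.map (algebraMap ℂ K)) := hh.inv.map (Algebra.ofId ℂ K)
  obtain ⟨L, b, hL, hU, hb, hT, hLb⟩ := (hhK.mul hg).exists_LU hne
  have hmmb : D.mm (h.map (algebraMap ℂ K) * g) = D.mm b := by
    rw [hLb, D.mm_loU_mul hU]
  have hb0 : D.mm b ≠ 0 := by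
    rw [← hmmb]
    exact hne
  have hmem : ∀ h' : Matrix D.BI D.BI ℂ, IsGp F h' →
      D.mm (h'.map (algebraMap ℂ K) * L) ∈ V := by
    intro h' hh'
    obtain ⟨v, hv, hveq⟩ := hdiv h' hh'
    have h1 : D.mm ((h' * h).map (algebraMap ℂ K) * g) =
        D.mm (h'.map (algebraMap ℂ K) * L) * D.mm b := by
      rw [← D.mm_mul_up _ _ hT.upB, Matrix.map_mul, Matrix.mul_assoc, hLb, Matrix.mul_assoc]
    rw [h1, hmmb] at hveq
    rw [mul_right_cancel₀ hb0 hveq]
    exact hv
  have hLV : ∀ a c, L a c ∈ V := fun a c =>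
    mem_of_rho V hV hL hU (fun γ => rho_mem V hV hL hU hmem γ) a c
  refine ⟨h⁻¹.map (algebraMap ℂ K) * L, b, hhiK.mul hL, ?_, hb, hT, ?_⟩
  · intro a c
    rw [Matrix.mul_apply]
    apply sum_mem
    intro e _
    exact V.mul_mem _ _ (hV _) (hLV e c)
  · rw [Matrix.mul_assoc, ← hLb, ← Matrix.mul_assoc, ← Matrix.map_mul, hh.inv_mul,
      Matrix.map_one _ (map_zero _) (map_one _), Matrix.one_mul]

end IsGp

end Pool.Agent.MTX
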