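import Pool.Agent.MTX.L11
import Pool.Agent.MTX.D.Defs

/-! # MTX, Part L : the axioms (row L12) -/

namespace Pool.Agent.MTX

open Matrix
open Pool.Agent.MTD (Dat ev expN ev_add ev_sub ev_neg ev_smul ev_zero ev_add_left ev_sub_left
  ev_neg_left ev_smul_left ev_zero_left ev_sum_left ev_sum ev_map ev_comm)
open Pool.Agent.MP_c45d35_ag (chi chi_add chi_mul chi_zero chi_one chi_inv chi_map transfer)

variable {n : ℕ}

namespace SLD

variable (D : SLD n) (F : Frm D) (S0 : Set (D.BI → ℂ)) (sv : D.BI → MvPolynomial (Fin n) ℂ)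
  (pm : Matrix D.BI D.BI (MvPolynomial (Fin n) ℂ))

/-- The axioms for the adjoint group. -/
theorem dat_ax (h : D.Kost F S0 sv pm) : MTXD.Ax (D.dat F S0 sv pm) where
  mult := D.dat_mult F S0 sv pm
  wt_std := D.dat_wt_std F S0 sv pm
  rt_indep := D.dat_rt_indep F S0 sv pm
  lexpos := D.dat_lexpos F S0 sv pm
  cr_rt := D.dat_cr_rt F S0 sv pm
  cr_sep := D.dat_cr_sep F S0 sv pm
  refl_rt := D.dat_refl_rt F S0 sv pm
  E_supp := D.dat_E_supp F S0 sv pm
  hgt := D.dat_hgt F S0 sv pm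
  E_ne := D.dat_E_ne F S0 sv pm
  dep_pos := D.dat_dep_pos F S0 sv pm
  mul g h hg hh := by
    rw [isG_iff] at hg hh ⊢
    rw [ofN_mul]
    exact hg.mul hh
  det g hg := by
    rw [isG_iff] at hg
    rw [← D.ofN_det]
    exact hg.det
  inv g hg := by
    rw [isG_iff] at hg ⊢
    rw [ofN_inv]
    exact hg.inv
  torus t := by
    rw [dat_Tt, isG_toN]
    exact D.isGp_TB F t
  exp Z := D.dat_exp F S0 sv pm Z
  conj g x Z hg h := D.dat_conj F S0 sv pm g x Z hg h
  levi g hg h := D.dat_levi F S0 sv pm g hg h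
  cent g x hg hx h := D.dat_cent F S0 sv pm g x hg hx h
  weyl β := D.dat_weyl F S0 sv pm β
  iwa V hV g hg := D.dat_iwa F S0 sv pm V hV g hg
  px_G := (D.isG_toN F S0 sv pm pm).2 h.pm_G
  px_conj := by
    have h1 := h.pm_G.ad (D.ee _ + D.tt MvPolynomial.X)
    rw [h.pm_conj] at h1
    have h2 := congrArg D.toN h1
    rw [toN_mul, toN_mul, ad_add, toN_add, ← D.dat_Dx F S0 sv pm] at h2
    have h3 : (D.dat F S0 sv pm).Y (fun β => MvPolynomial.C ((D.dat F S0 sv pm).ze β)) =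
        D.toN (D.ad (D.ee (MvPolynomial (Fin n) ℂ))) := by
      rw [dat_Y]
      have := D.zv_ze F S0 sv pm (R := MvPolynomial (Fin n) ℂ)
      rw [← this]
      rfl
    rw [h3]
    exact h2
  sx_mem x := by
    refine ⟨_, h.sv_mem x, ?_⟩
    show (D.toN (D.ad sv)).map (MvPolynomial.eval x) = _
    rw [toN_map, ad_map]
  sx_surj := by
    rintro s ⟨s0, hs0, rfl⟩
    obtain ⟨x, rfl⟩ := h.sv_surj s0 hs0
    refine ⟨x, ?_⟩
    show _ = (D.toN (D.ad sv)).map (MvPolynomial.eval x)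
    rw [toN_map, ad_map]
  sx_refl β x := by
    rw [dat_sr]
    show (D.toN (D.ad sv)).map _ = (D.toN (D.ad sv)).map _
    rw [toN_map, toN_map, ad_map, ad_map]
    congr 2
    funext a
    exact h.sv_refl β.1 x a
  nonss := by
    rintro β x ⟨hx1, hx2⟩ ⟨g, hg, hE⟩
    refine h.nonss β.1 x β.2 hx1 (fun δ hδ hne => hx2 ⟨δ, hδ⟩ fun h' => hne ?_)
      ⟨D.ofN g, by rw [ofN_det]; exact hg, ?_⟩
    · exact congrArg Subtype.val h'
    · have h1 := congrArg D.ofN hE
      rw [ofN_mul, ofN_mul, dat_Dx, ofN_toN] at h1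
      have h3 : (D.dat F S0 sv pm).e = D.toN (D.ad (D.ee ℂ)) := by
        show (D.dat F S0 sv pm).Y _ = _
        rw [dat_Y]
        have := D.zv_ze F S0 sv pm (R := ℂ)
        rw [← this]
        rfl
      rw [h3, ← toN_add, ofN_toN] at h1
      rw [ad_add]
      exact h1
  zc := D.dat_zc F S0 sv pm

end SLD

end Pool.Agent.MTX
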