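import Pool.Agent.MTX.R0a

/-! # MTX, Part L : definitions : the Cartan matrices of type `E_6`, `E_7`, `E_8`

Numbering: the trivalent node is `0`; arms `0-1`, `0-2-4`, `0-3-5`, `0-3-5-6`, `0-3-5-6-7`. -/

namespace Pool.Agent.MTX

/-- Cartan matrix of type `E_6` -/
def CE6 : Matrix (Fin 6) (Fin 6) ℤ :=
  !![2, -1, -1, -1, 0, 0;
    -1, 2, 0, 0, 0, 0;
    -1, 0, 2, 0, -1, 0;
    -1, 0, 0, 2, 0, -1;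
    0, 0, -1, 0, 2, 0;
    0, 0, 0, -1, 0, 2]

/-- Cartan matrix of type `E_7` -/
def CE7 : Matrix (Fin 7) (Fin 7) ℤ :=
  !![2, -1, -1, -1, 0, 0, 0;
    -1, 2, 0, 0, 0, 0, 0;
    -1, 0, 2, 0, -1, 0, 0;
    -1, 0, 0, 2, 0, -1, 0;
    0, 0, -1, 0, 2, 0, 0;
    0, 0, 0, -1, 0, 2, -1;
    0, 0, 0, 0, 0, -1, 2]

/-- Cartan matrix of type `E_8` -/
def CE8 : Matrix (Fin 8) (Fin 8) ℤ :=
  !![2, -1, -1, -1, 0, 0, 0, 0;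
    -1, 2, 0, 0, 0, 0, 0, 0;
    -1, 0, 2, 0, -1, 0, 0, 0;
    -1, 0, 0, 2, 0, -1, 0, 0;
    0, 0, -1, 0, 2, 0, 0, 0;
    0, 0, 0, -1, 0, 2, -1, 0;
    0, 0, 0, 0, 0, -1, 2, -1;
    0, 0, 0, 0, 0, 0, -1, 2]

end Pool.Agent.MTX
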