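import Pool.Agent.MTX.L13a

/-! # MTX, Part L : the Cartan matrices of type `E_6`, `E_7`, `E_8` : positivity -/

namespace Pool.Agent.MTX

/-- `6 B = 3(2x₄-x₂)² + (3x₂-2x₀)² + 3(2x₅-x₃)² + (3x₃-2x₀)² + 3(2x₁-x₀)² + x₀²` -/
theorem bil_E6 (x : Fin 6 → ℤ) : 6 * bil CE6 x x = 3 * (2 * x 4 - x 2) ^ 2 +
    (3 * x 2 - 2 * x 0) ^ 2 + 3 * (2 * x 5 - x 3) ^ 2 + (3 * x 3 - 2 * x 0) ^ 2 +
    3 * (2 * x 1 - x 0) ^ 2 + x 0 ^ 2 := by
  simp [bil, CE6, Fin.sum_univ_succ]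
  ring

/-- `12 B = 6(2x₁-x₀)² + 6(2x₄-x₂)² + 2(3x₂-2x₀)² + 6(2x₆-x₅)² + 2(3x₅-2x₃)² + (4x₃-3x₀)² + x₀²` -/
theorem bil_E7 (x : Fin 7 → ℤ) : 12 * bil CE7 x x = 6 * (2 * x 1 - x 0) ^ 2 +
    6 * (2 * x 4 - x 2) ^ 2 + 2 * (3 * x 2 - 2 * x 0) ^ 2 + 6 * (2 * x 6 - x 5) ^ 2 +
    2 * (3 * x 5 - 2 * x 3) ^ 2 + (4 * x 3 - 3 * x 0) ^ 2 + x 0 ^ 2 := by
  simp [bil, CE7, Fin.sum_univ_succ]
  ring

/-- `60 B = 30(2x₁-x₀)² + 30(2x₄-x₂)² + 10(3x₂-2x₀)² + 30(2x₇-x₆)² + 10(3x₆-2x₅)² + 5(4x₅-3x₃)²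
+ 3(5x₃-4x₀)² + 2x₀²` -/
theorem bil_E8 (x : Fin 8 → ℤ) : 60 * bil CE8 x x = 30 * (2 * x 1 - x 0) ^ 2 +
    30 * (2 * x 4 - x 2) ^ 2 + 10 * (3 * x 2 - 2 * x 0) ^ 2 + 30 * (2 * x 7 - x 6) ^ 2 +
    10 * (3 * x 6 - 2 * x 5) ^ 2 + 5 * (4 * x 5 - 3 * x 3) ^ 2 + 3 * (5 * x 3 - 4 * x 0) ^ 2 +
    2 * x 0 ^ 2 := by
  simp [bil, CE8, Fin.sum_univ_succ]
  ring

/-- a sum of squares that is `0` forces all coordinates to be `0` -/
theorem pos_E6 (x : Fin 6 → ℤ) (hx : x ≠ 0) : 0 < bil CE6 x x := by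
  by_contra hcon
  apply hx
  have h := bil_E6 x
  have q0 := sq_nonneg (x 0)
  have q1 := sq_nonneg (2 * x 4 - x 2)
  have q2 := sq_nonneg (3 * x 2 - 2 * x 0)
  have q3 := sq_nonneg (2 * x 5 - x 3)
  have q4 := sq_nonneg (3 * x 3 - 2 * x 0)
  have q5 := sq_nonneg (2 * x 1 - x 0)
  have e0 : (x 0) ^ 2 = 0 := by linarith
  have e1 : (2 * x 4 - x 2) ^ 2 = 0 := by linarith
  have e2 : (3 * x 2 - 2 * x 0) ^ 2 = 0 := by linarith
  have e3 : (2 * x 5 - x 3) ^ 2 = 0 := by linarith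
  have e4 : (3 * x 3 - 2 * x 0) ^ 2 = 0 := by linarith
  have e5 : (2 * x 1 - x 0) ^ 2 = 0 := by linarith
  have f0 : x 0 = 0 := by simpa using e0
  have f1 : 2 * x 4 - x 2 = 0 := by simpa using e1
  have f2 : 3 * x 2 - 2 * x 0 = 0 := by simpa using e2
  have f3 : 2 * x 5 - x 3 = 0 := by simpa using e3
  have f4 : 3 * x 3 - 2 * x 0 = 0 := by simpa using e4
  have f5 : 2 * x 1 - x 0 = 0 := by simpa using e5
  funext k
  fin_cases k <;> simp only [Pi.zero_apply] <;> simp <;> omega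

theorem pos_E7 (x : Fin 7 → ℤ) (hx : x ≠ 0) : 0 < bil CE7 x x := by
  by_contra hcon
  apply hx
  have h := bil_E7 x
  have q0 := sq_nonneg (x 0)
  have q1 := sq_nonneg (2 * x 1 - x 0)
  have q2 := sq_nonneg (2 * x 4 - x 2)
  have q3 := sq_nonneg (3 * x 2 - 2 * x 0)
  have q4 := sq_nonneg (2 * x 6 - x 5)
  have q5 := sq_nonneg (3 * x 5 - 2 * x 3)
  have q6 := sq_nonneg (4 * x 3 - 3 * x 0)
  have e0 : (x 0) ^ 2 = 0 := by linarith
  have e1 : (2 * x 1 - x 0) ^ 2 = 0 := by linarith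
  have e2 : (2 * x 4 - x 2) ^ 2 = 0 := by linarith
  have e3 : (3 * x 2 - 2 * x 0) ^ 2 = 0 := by linarith
  have e4 : (2 * x 6 - x 5) ^ 2 = 0 := by linarith
  have e5 : (3 * x 5 - 2 * x 3) ^ 2 = 0 := by linarith
  have e6 : (4 * x 3 - 3 * x 0) ^ 2 = 0 := by linarith
  have f0 : x 0 = 0 := by simpa using e0
  have f1 : 2 * x 1 - x 0 = 0 := by simpa using e1
  have f2 : 2 * x 4 - x 2 = 0 := by simpa using e2
  have f3 : 3 * x 2 - 2 * x 0 = 0 := by simpa using e3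
  have f4 : 2 * x 6 - x 5 = 0 := by simpa using e4
  have f5 : 3 * x 5 - 2 * x 3 = 0 := by simpa using e5
  have f6 : 4 * x 3 - 3 * x 0 = 0 := by simpa using e6
  funext k
  fin_cases k <;> simp only [Pi.zero_apply] <;> simp <;> omega

theorem pos_E8 (x : Fin 8 → ℤ) (hx : x ≠ 0) : 0 < bil CE8 x x := by
  by_contra hcon
  apply hx
  have h := bil_E8 x
  have q0 := sq_nonneg (x 0)
  have q1 := sq_nonneg (2 * x 1 - x 0)
  have q2 := sq_nonneg (2 * x 4 - x 2)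
  have q3 := sq_nonneg (3 * x 2 - 2 * x 0)
  have q4 := sq_nonneg (2 * x 7 - x 6)
  have q5 := sq_nonneg (3 * x 6 - 2 * x 5)
  have q6 := sq_nonneg (4 * x 5 - 3 * x 3)
  have q7 := sq_nonneg (5 * x 3 - 4 * x 0)
  have e0 : (x 0) ^ 2 = 0 := by linarith
  have e1 : (2 * x 1 - x 0) ^ 2 = 0 := by linarith
  have e2 : (2 * x 4 - x 2) ^ 2 = 0 := by linarith
  have e3 : (3 * x 2 - 2 * x 0) ^ 2 = 0 := by linarith
  have e4 : (2 * x 7 - x 6) ^ 2 = 0 := by linarith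
  have e5 : (3 * x 6 - 2 * x 5) ^ 2 = 0 := by linarith
  have e6 : (4 * x 5 - 3 * x 3) ^ 2 = 0 := by linarith
  have e7 : (5 * x 3 - 4 * x 0) ^ 2 = 0 := by linarith
  have f0 : x 0 = 0 := by simpa using e0
  have f1 : 2 * x 1 - x 0 = 0 := by simpa using e1
  have f2 : 2 * x 4 - x 2 = 0 := by simpa using e2
  have f3 : 3 * x 2 - 2 * x 0 = 0 := by simpa using e3
  have f4 : 2 * x 7 - x 6 = 0 := by simpa using e4
  have f5 : 3 * x 6 - 2 * x 5 = 0 := by simpa using e5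
  have f6 : 4 * x 5 - 3 * x 3 = 0 := by simpa using e6
  have f7 : 5 * x 3 - 4 * x 0 = 0 := by simpa using e7
  funext k
  fin_cases k <;> simp only [Pi.zero_apply] <;> simp <;> omega

theorem conn_E6 : ∀ s : Set (Fin 6), s.Nonempty → (∀ i ∈ s, ∀ j, CE6 i j ≠ 0 → j ∈ s) →
    s = Set.univ := by
  intro s hs h
  have h0 : (0 : Fin 6) ∈ s := by
    obtain ⟨i, hi⟩ := hs
    fin_cases i
    · exact hi
    · exact h _ hi 0 (by decide)
    · exact h _ hi 0 (by decide)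
    · exact h _ hi 0 (by decide)
    · exact h _ (h _ hi 2 (by decide)) 0 (by decide)
    · exact h _ (h _ hi 3 (by decide)) 0 (by decide)
  have h1 := h _ h0 1 (by decide)
  have h2 := h _ h0 2 (by decide)
  have h4 := h _ h2 4 (by decide)
  have h3 := h _ h0 3 (by decide)
  have h5 := h _ h3 5 (by decide)
  refine Set.eq_univ_iff_forall.2 fun i => ?_
  fin_cases i <;> assumption

theorem conn_E7 : ∀ s : Set (Fin 7), s.Nonempty → (∀ i ∈ s, ∀ j, CE7 i j ≠ 0 → j ∈ s) →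
    s = Set.univ := by
  intro s hs h
  have h0 : (0 : Fin 7) ∈ s := by
    obtain ⟨i, hi⟩ := hs
    fin_cases i
    · exact hi
    · exact h _ hi 0 (by decide)
    · exact h _ hi 0 (by decide)
    · exact h _ hi 0 (by decide)
    · exact h _ (h _ hi 2 (by decide)) 0 (by decide)
    · exact h _ (h _ hi 3 (by decide)) 0 (by decide)
    · exact h _ (h _ (h _ hi 5 (by decide)) 3 (by decide)) 0 (by decide)
  have h1 := h _ h0 1 (by decide)
  have h2 := h _ h0 2 (by decide)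
  have h4 := h _ h2 4 (by decide)
  have h3 := h _ h0 3 (by decide)
  have h5 := h _ h3 5 (by decide)
  have h6 := h _ h5 6 (by decide)
  refine Set.eq_univ_iff_forall.2 fun i => ?_
  fin_cases i <;> assumption

theorem conn_E8 : ∀ s : Set (Fin 8), s.Nonempty → (∀ i ∈ s, ∀ j, CE8 i j ≠ 0 → j ∈ s) →
    s = Set.univ := by
  intro s hs h
  have h0 : (0 : Fin 8) ∈ s := by
    obtain ⟨i, hi⟩ := hs
    fin_cases i
    · exact hi
    · exact h _ hi 0 (by decide)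
    · exact h _ hi 0 (by decide)
    · exact h _ hi 0 (by decide)
    · exact h _ (h _ hi 2 (by decide)) 0 (by decide)
    · exact h _ (h _ hi 3 (by decide)) 0 (by decide)
    · exact h _ (h _ (h _ hi 5 (by decide)) 3 (by decide)) 0 (by decide)
    · exact h _ (h _ (h _ (h _ hi 6 (by decide)) 5 (by decide)) 3 (by decide)) 0 (by decide)
  have h1 := h _ h0 1 (by decide)
  have h2 := h _ h0 2 (by decide)
  have h4 := h _ h2 4 (by decide)
  have h3 := h _ h0 3 (by decide)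
  have h5 := h _ h3 5 (by decide)
  have h6 := h _ h5 6 (by decide)
  have h7 := h _ h6 7 (by decide)
  refine Set.eq_univ_iff_forall.2 fun i => ?_
  fin_cases i <;> assumption

end Pool.Agent.MTX
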