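import Pool.Agent.MTX.L0a

/-! # MTX, Part L : definitions : the enumeration of the basis -/

namespace Pool.Agent.MTX

namespace SLD

variable {n : ℕ} (D : SLD n)

/-- the dimension -/
noncomputable def N : ℕ := Fintype.card D.BI

/-- the sorting permutation of some enumeration, by decreasing height -/
noncomputable def eN : D.BI ≃ Fin D.N :=
  (Fintype.equivFin D.BI).trans
    (Tuple.sort fun i : Fin (Fintype.card D.BI) => - D.hI ((Fintype.equivFin D.BI).symm i)).symm

section

variable {R : Type*}

/-- matrices indexed by `Fin N` -/
noncomputable def toN (g : Matrix D.BI D.BI R) : Matrix (Fin D.N) (Fin D.N) R :=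
  g.submatrix D.eN.symm D.eN.symm

/-- back -/
noncomputable def ofN (g : Matrix (Fin D.N) (Fin D.N) R) : Matrix D.BI D.BI R := g.submatrix D.eN D.eN

end

/-- the principal nilpotent `e = ∑ e_{α_i}` -/
noncomputable def ee (R : Type*) [CommRing R] : D.BI → R := ∑ i, D.er R (D.al i).1

end SLD

end Pool.Agent.MTX
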