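import Pool.Agent.MTX.L2a
import Pool.Agent.MTX.L3b

/-! # MTX, Part L : definitions : the group -/

namespace Pool.Agent.MTX

open Matrix

variable {n : ℕ}

/-- An invariant multilinear form; `out`: a diagram automorphism that preserves its restriction to
the Cartan subalgebra is trivial. -/
structure Frm (D : SLD n) where
  k : ℕ
  c : (Fin k → D.BI) → ℂ
  inv : ∀ (a : D.BI) (i : Fin k → D.BI),
    ∑ j, ∑ e, (D.st a (i j) e : ℂ) * c (Function.update i j e) = 0
  out : ∀ π : Equiv.Perm (Fin n), (∀ i j, D.C (π i) (π j) = D.C i j) →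
    (∀ i : Fin k → Fin n, c (fun j => Sum.inl (π (i j))) = c (fun j => Sum.inl (i j))) → π = 1

section

variable {D : SLD n} (F : Frm D) {R : Type*} [CommRing R] [Algebra ℂ R]

/-- the value of the form -/
noncomputable def Frm.val (X : Fin F.k → D.BI → R) : R :=
  ∑ i : Fin F.k → D.BI, algebraMap ℂ R (F.c i) * ∏ j, X j (i j)

end

/-- `R`-points of the adjoint group -/
structure IsGp {D : SLD n} (F : Frm D) {R : Type*} [CommRing R] [Algebra ℂ R]
    (g : Matrix D.BI D.BI R) : Prop where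
  br : ∀ X Y, g *ᵥ D.br X Y = D.br (g *ᵥ X) (g *ᵥ Y)
  ka : ∀ X Y, D.ka (g *ᵥ X) (g *ᵥ Y) = D.ka X Y
  frm : ∀ X : Fin F.k → D.BI → R, F.val (fun j => g *ᵥ X j) = F.val X
  det : g.det = 1

end Pool.Agent.MTX
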