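import Pool.Agent.MTX.L2
import Pool.Agent.MTX.L3a

/-! # MTX, Part L : the group (row L3)

`Frm D` : an invariant multilinear form on the Lie algebra that distinguishes the diagram
automorphisms (only needed for `E_6`; otherwise take `k = 0`).
`IsGp F g` : `g` is an `R`-point of the adjoint group: it preserves the bracket, the invariant form
and the form `F`, and has determinant `1`. -/

namespace Pool.Agent.MTX

open Matrix

open Pool.Agent.MTD (ev ev_add ev_sub ev_neg ev_smul ev_zero ev_add_left ev_sub_left ev_neg_left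
  ev_smul_left ev_zero_left ev_sum_left ev_sum ev_map ev_comm)

open Pool.Agent.MP_c45d35_ag (chi chi_add chi_mul chi_zero chi_one chi_inv chi_map)

variable {n : ℕ}

namespace Frm

variable {D : SLD n} (F : Frm D)

section

variable {R : Type*} [CommRing R] [Algebra ℂ R]

theorem val_single (i : Fin F.k → D.BI) :
    F.val (fun j => Pi.single (i j) (1 : R)) = algebraMap ℂ R (F.c i) := by
  unfold val
  rw [Finset.sum_eq_single i]
  · simp
  · intro i' _ hi
    obtain ⟨j, hj⟩ := Function.ne_iff.1 hi
    rw [Finset.prod_eq_zero (Finset.mem_univ j), mul_zero]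
    exact Pi.single_eq_of_ne hj _
  · intro h; exact absurd (Finset.mem_univ i) h

theorem val_map {S : Type*} [CommRing S] [Algebra ℂ S] (φ : R →ₐ[ℂ] S)
    (X : Fin F.k → D.BI → R) : φ (F.val X) = F.val fun j a => φ (X j a) := by
  simp [val]

/-- multilinearity: expansion of all arguments in the basis.
`Finset.prod_univ_sum` (product of sums), exchange of sums. -/
theorem val_expand (X : Fin F.k → D.BI → R) (M : Fin F.k → D.BI → D.BI → R) :
    F.val (fun j => ∑ a, X j a • M j a) =
      ∑ i : Fin F.k → D.BI, (∏ j, X j (i j)) * F.val (fun j => M j (i j)) := by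
  classical
  unfold val
  have h1 : ∀ i' : Fin F.k → D.BI,
      algebraMap ℂ R (F.c i') * ∏ j, (∑ a, X j a • M j a) (i' j) =
        ∑ i : Fin F.k → D.BI, (∏ j, X j (i j)) *
          (algebraMap ℂ R (F.c i') * ∏ j, M j (i j) (i' j)) := by
    intro i'
    have h2 : ∏ j, (∑ a, X j a • M j a) (i' j) =
        ∑ i : Fin F.k → D.BI, ∏ j, (X j (i j) * M j (i j) (i' j)) := by
      have h3 := Finset.prod_univ_sum (fun _ : Fin F.k => (Finset.univ : Finset D.BI))
        (fun j a => X j a * M j a (i' j))
      rw [Fintype.piFinset_univ] at h3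
      rw [← h3]
      refine Finset.prod_congr rfl fun j _ => ?_
      rw [Finset.sum_apply]
      rfl
    rw [h2, Finset.mul_sum]
    refine Finset.sum_congr rfl fun i _ => ?_
    rw [Finset.prod_mul_distrib]
    ring
  rw [Finset.sum_congr rfl fun i' _ => h1 i', Finset.sum_comm]
  refine Finset.sum_congr rfl fun i _ => ?_
  rw [Finset.mul_sum]

theorem val_mulVec (g : Matrix D.BI D.BI R) (X : Fin F.k → D.BI → R) :
    F.val (fun j => g *ᵥ X j) =
      ∑ i : Fin F.k → D.BI, (∏ j, X j (i j)) * F.val (fun j => g *ᵥ Pi.single (i j) 1) := by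
  rw [← F.val_expand X fun j a => g *ᵥ Pi.single a 1]
  congr 1
  funext j
  conv_lhs => rw [show X j = ∑ a, X j a • (Pi.single a 1 : D.BI → R) by
    funext b; simp [Finset.sum_apply, Pi.single_apply]]
  rw [Matrix.mulVec_sum]
  simp only [Matrix.mulVec_smul]

/-- Invariance under the Lie algebra.  Both sides are multilinear in `Z` and the `X j`; for basis
vectors `Z = b_a`, `X j = b_{i j}` this is `F.inv a i` (mapped to `R`): unfold `val`; the left side is
`∑_j ∑_i c i * (∏_{j' ≠ j} X j' (i j')) * (∑_a ∑_e Z a * X j e * st a e (i j))`; substitute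
`i = update i' j e'`, i.e. sum over `i' : Fin k → BI` (the indices of `X`) of
`∏_{j'} X j' (i' j') * ∑_a Z a * ∑_j ∑_e c (update i' j e) * st a (i' j) e`
(for fixed `j`, `(i, e) ↦ (i' = update i j e, e' = i j)` is an involution of
`(Fin k → BI) × BI`). -/
theorem val_inv (Z : D.BI → R) (X : Fin F.k → D.BI → R) :
    ∑ j, F.val (Function.update X j (D.br Z (X j))) = 0 := by
  classical
  -- one argument arbitrary, the others basis vectors
  have h1 : ∀ (i : Fin F.k → D.BI) (j : Fin F.k) (W : D.BI → R),
      F.val (Function.update (fun j' => (Pi.single (i j') (1 : R) : D.BI → R)) j W) =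
        ∑ e, W e * algebraMap ℂ R (F.c (Function.update i j e)) := by
    intro i j W
    unfold val
    symm
    refine Fintype.sum_of_injective (fun e => Function.update i j e)
      (Function.update_injective i j) _ _ ?_ ?_
    · intro i' hi'
      have h2 : ∃ j', j' ≠ j ∧ i' j' ≠ i j' := by
        by_contra hcon
        push Not at hcon
        apply hi'
        refine ⟨i' j, ?_⟩
        funext j'
        by_cases h : j' = j
        · subst h
          exact Function.update_self _ _ _
        · show Function.update i j (i' j) j' = i' j'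
          rw [Function.update_of_ne h]
          exact (hcon j' h).symm
      obtain ⟨j', hj', hne⟩ := h2
      rw [Finset.prod_eq_zero (Finset.mem_univ j'), mul_zero]
      rw [Function.update_of_ne hj']
      exact Pi.single_eq_of_ne hne _
    · intro e
      have h2 : ∏ j', (Function.update (fun j' => (Pi.single (i j') (1 : R) : D.BI → R)) j W) j'
          (Function.update i j e j') = W e := by
        rw [Finset.prod_eq_single j]
        · rw [Function.update_self, Function.update_self]
        · intro j' _ hj'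
          rw [Function.update_of_ne hj', Function.update_of_ne hj', Pi.single_eq_same]
        · intro h; exact absurd (Finset.mem_univ j) h
      rw [h2, mul_comm]
  have h2 : ∀ i : Fin F.k → D.BI, ∑ j, F.val (Function.update
      (fun j' => (Pi.single (i j') (1 : R) : D.BI → R)) j (D.br Z (Pi.single (i j) 1))) = 0 := by
    intro i
    have h3 : ∀ j, F.val (Function.update (fun j' => (Pi.single (i j') (1 : R) : D.BI → R)) j
        (D.br Z (Pi.single (i j) 1))) =
        ∑ a, Z a * algebraMap ℂ R (∑ e, (D.st a (i j) e : ℂ) * F.c (Function.update i j e)) := by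
      intro j
      rw [h1]
      have h4 : ∀ e, D.br Z (Pi.single (i j) (1 : R)) e = ∑ a, Z a * (D.st a (i j) e : R) := by
        intro e
        rw [D.br_def, Matrix.mulVec_single_one]
        rfl
      have h5 : ∀ e, D.br Z (Pi.single (i j) (1 : R)) e *
          algebraMap ℂ R (F.c (Function.update i j e)) =
          ∑ a, Z a * ((D.st a (i j) e : R) * algebraMap ℂ R (F.c (Function.update i j e))) := by
        intro e
        rw [h4, Finset.sum_mul]
        exact Finset.sum_congr rfl fun a _ => by ring
      rw [Finset.sum_congr rfl fun e _ => h5 e, Finset.sum_comm]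
      refine Finset.sum_congr rfl fun a _ => ?_
      rw [map_sum, Finset.mul_sum]
      refine Finset.sum_congr rfl fun e _ => ?_
      rw [map_mul, map_intCast]
    rw [Finset.sum_congr rfl fun j _ => h3 j, Finset.sum_comm]
    refine Finset.sum_eq_zero fun a _ => ?_
    rw [← Finset.mul_sum, ← map_sum, F.inv a i, map_zero, mul_zero]
  have h3 : ∀ j, F.val (Function.update X j (D.br Z (X j))) =
      ∑ i : Fin F.k → D.BI, (∏ j', X j' (i j')) * F.val (Function.update
      (fun j' => (Pi.single (i j') (1 : R) : D.BI → R)) j (D.br Z (Pi.single (i j) 1))) := by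
    intro j
    have h4 : Function.update X j (D.br Z (X j)) = fun j' => ∑ a, X j' a •
        (if j' = j then D.br Z (Pi.single a (1 : R)) else (Pi.single a (1 : R) : D.BI → R)) := by
      funext j'
      have hX : X j' = ∑ a, X j' a • (Pi.single a (1 : R) : D.BI → R) := by
        funext b; simp [Finset.sum_apply, Pi.single_apply]
      by_cases h : j' = j
      · subst h
        rw [Function.update_self]
        simp only [if_true]
        conv_lhs => rw [hX]
        rw [D.br_sum_right]
        exact Finset.sum_congr rfl fun a _ => D.br_smul_right _ _ _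
      · rw [Function.update_of_ne h]
        simp only [if_neg h]
        exact hX
    rw [h4, F.val_expand X (fun j' a => if j' = j then D.br Z (Pi.single a (1 : R)) else
      (Pi.single a (1 : R) : D.BI → R))]
    refine Finset.sum_congr rfl fun i _ => ?_
    congr 2
    funext j'
    by_cases h : j' = j
    · subst h
      rw [Function.update_self, if_pos rfl]
    · rw [Function.update_of_ne h, if_neg h]
  rw [Finset.sum_congr rfl fun j _ => h3 j, Finset.sum_comm]
  refine Finset.sum_eq_zero fun i _ => ?_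
  rw [← Finset.mul_sum, h2 i, mul_zero]

end

/-- only tuples of total weight `0` (`inv` for `a = inl k`: the left side is
`(∑ j, wI (i j) k) * c i`, since `st (inl k) e e' = (if e = e' then wI e k else 0)`) -/
theorem c_wt {i : Fin F.k → D.BI} (h : F.c i ≠ 0) : ∑ j, D.wI (i j) = 0 := by
  classical
  have h0 : ∀ (k : Fin n) (b e : D.BI), D.st (Sum.inl k) b e = if b = e then D.wI b k else 0 := by
    intro k b e
    rcases b with l | γ
    · rw [D.st_ll]
      split_ifs <;> simp
    · rcases e with m | δ
      · rw [D.st_lrl]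
        simp
      · rw [D.st_lrr]
        simp
  funext k
  have h1 := F.inv (Sum.inl k) i
  have h2 : ∀ j, ∑ e, (D.st (Sum.inl k) (i j) e : ℂ) * F.c (Function.update i j e) =
      (D.wI (i j) k : ℂ) * F.c i := by
    intro j
    rw [Finset.sum_eq_single (i j)]
    · rw [h0, if_pos rfl, Function.update_eq_self]
    · intro e _ he
      rw [h0, if_neg (Ne.symm he)]
      simp
    · intro h; exact absurd (Finset.mem_univ _) h
  rw [Finset.sum_congr rfl fun j _ => h2 j, ← Finset.sum_mul] at h1
  have h3 := (mul_eq_zero.1 h1).resolve_right h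
  rw [Finset.sum_apply]
  exact_mod_cast h3

end Frm

namespace IsGp

variable {D : SLD n} {F : Frm D}

section

variable {R : Type*} [CommRing R] [Algebra ℂ R]

omit [Algebra ℂ R] in
theorem l3_expand (X : D.BI → R) : X = ∑ a, X a • (Pi.single a 1 : D.BI → R) := by
  funext b
  simp [Finset.sum_apply, Pi.single_apply]

theorem l3_ka_sum_right {κ : Type*} (s : Finset κ) (X : D.BI → R) (f : κ → D.BI → R) :
    D.ka X (∑ i ∈ s, f i) = ∑ i ∈ s, D.ka X (f i) := by
  rw [D.ka_comm, D.ka_sum_left]
  exact Finset.sum_congr rfl fun i _ => D.ka_comm _ _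

/-- it suffices to check basis vectors (bilinearity; `val_mulVec`, `val_single`) -/
theorem of_basis {g : Matrix D.BI D.BI R}
    (h1 : ∀ a c, g *ᵥ D.br (Pi.single a 1) (Pi.single c 1) =
      D.br (g *ᵥ Pi.single a 1) (g *ᵥ Pi.single c 1))
    (h2 : ∀ a c, D.ka (g *ᵥ Pi.single a 1) (g *ᵥ Pi.single c 1) =
      algebraMap ℂ R (D.kp a c))
    (h3 : ∀ i : Fin F.k → D.BI, F.val (fun j => g *ᵥ Pi.single (i j) 1) =
      algebraMap ℂ R (F.c i))
    (h4 : g.det = 1) : IsGp F g where
  br X Y := by
    have hX : X = ∑ a, X a • (Pi.single a 1 : D.BI → R) := l3_expand X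
    have hY : Y = ∑ c, Y c • (Pi.single c 1 : D.BI → R) := l3_expand Y
    rw [hX, hY]
    simp only [D.br_sum_left, D.br_sum_right, D.br_smul_left, D.br_smul_right,
      Matrix.mulVec_sum, Matrix.mulVec_smul, h1]
  ka X Y := by
    have hX : X = ∑ a, X a • (Pi.single a 1 : D.BI → R) := l3_expand X
    have hY : Y = ∑ c, Y c • (Pi.single c 1 : D.BI → R) := l3_expand Y
    rw [hX, hY]
    simp only [D.ka_sum_left, l3_ka_sum_right, D.ka_smul_left, D.ka_smul_right,
      Matrix.mulVec_sum, Matrix.mulVec_smul, h2, D.ka_single]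
  frm X := by
    rw [F.val_mulVec g X]
    unfold Frm.val at h3 ⊢
    refine Finset.sum_congr rfl fun i _ => ?_
    rw [h3 i, mul_comm]
  det := h4

/-- base change (`of_basis`; `br_map`, `ka_map`, `val_map`, `RingHom.map_det`) -/
theorem map {S : Type*} [CommRing S] [Algebra ℂ S] (φ : R →ₐ[ℂ] S) {g : Matrix D.BI D.BI R}
    (hg : IsGp F g) : IsGp F (g.map φ) := by
  have hs : ∀ a : D.BI, (g.map φ) *ᵥ (Pi.single a (1 : S)) =
      fun b => φ ((g *ᵥ Pi.single a 1) b) := by
    intro a
    funext b
    simp [Matrix.mulVec_single, Matrix.map_apply]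
  have hp : ∀ a : D.BI, (fun b => φ ((Pi.single a (1 : R) : D.BI → R) b)) =
      (Pi.single a (1 : S) : D.BI → S) := by
    intro a
    funext b
    rw [Pi.single_apply, Pi.single_apply]
    split_ifs
    · exact map_one φ
    · exact map_zero φ
  apply of_basis
  · intro a c
    rw [hs a, hs c]
    funext b
    have h := congrArg φ (congrFun (hg.br (Pi.single a 1) (Pi.single c 1)) b)
    have e2 := D.br_map (φ : R →+* S) (g *ᵥ Pi.single a 1) (g *ᵥ Pi.single c 1) b
    have e1 : (g.map φ *ᵥ D.br (Pi.single a (1 : S)) (Pi.single c 1)) b =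
        φ ((g *ᵥ D.br (Pi.single a (1 : R)) (Pi.single c 1)) b) := by
      simp only [Matrix.mulVec, dotProduct, map_sum, map_mul, Matrix.map_apply]
      refine Finset.sum_congr rfl fun e _ => ?_
      have e3 := D.br_map (φ : R →+* S) (Pi.single a (1 : R)) (Pi.single c 1) e
      simp only [RingHom.coe_coe] at e3
      rw [e3, hp a, hp c]
    rw [e1, h]
    exact e2
  · intro a c
    rw [hs a, hs c, ← D.ka_map φ, hg.ka, D.ka_single, AlgHom.commutes]
  · intro i
    have e1 : (fun j => (g.map φ) *ᵥ (Pi.single (i j) (1 : S))) =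
        fun j b => φ ((g *ᵥ Pi.single (i j) 1) b) := by
      funext j
      exact hs (i j)
    rw [e1, ← F.val_map φ (fun j => g *ᵥ Pi.single (i j) 1), hg.frm, F.val_single,
      AlgHom.commutes]
  · have h := (RingHom.map_det (φ : R →+* S) g).symm
    rw [hg.det, map_one] at h
    exact h

theorem one : IsGp F (1 : Matrix D.BI D.BI R) :=
  ⟨by simp, by simp, by simp, Matrix.det_one⟩

theorem mul {g h : Matrix D.BI D.BI R} (hg : IsGp F g) (hh : IsGp F h) : IsGp F (g * h) where
  br X Y := by rw [← Matrix.mulVec_mulVec, hh.br, hg.br, Matrix.mulVec_mulVec, Matrix.mulVec_mulVec]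
  ka X Y := by rw [← Matrix.mulVec_mulVec, ← Matrix.mulVec_mulVec, hg.ka, hh.ka]
  frm X := by
    have h1 := hg.frm fun j => h *ᵥ X j
    simp only [Matrix.mulVec_mulVec] at h1
    rw [h1, hh.frm]
  det := by rw [Matrix.det_mul, hg.det, hh.det, one_mul]

theorem inv_mul {g : Matrix D.BI D.BI R} (hg : IsGp F g) : g⁻¹ * g = 1 :=
  Matrix.nonsing_inv_mul g (by rw [hg.det]; exact isUnit_one)

theorem mul_inv {g : Matrix D.BI D.BI R} (hg : IsGp F g) : g * g⁻¹ = 1 :=
  Matrix.mul_nonsing_inv g (by rw [hg.det]; exact isUnit_one)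

theorem inv {g : Matrix D.BI D.BI R} (hg : IsGp F g) : IsGp F g⁻¹ where
  br X Y := by
    have h := hg.br (g⁻¹ *ᵥ X) (g⁻¹ *ᵥ Y)
    rw [Matrix.mulVec_mulVec, Matrix.mulVec_mulVec, hg.mul_inv, Matrix.one_mulVec,
      Matrix.one_mulVec] at h
    rw [← h, Matrix.mulVec_mulVec, hg.inv_mul, Matrix.one_mulVec]
  ka X Y := by
    have h := hg.ka (g⁻¹ *ᵥ X) (g⁻¹ *ᵥ Y)
    rw [Matrix.mulVec_mulVec, Matrix.mulVec_mulVec, hg.mul_inv, Matrix.one_mulVec,
      Matrix.one_mulVec] at h
    exact h.symm
  frm X := by
    have h := hg.frm fun j => g⁻¹ *ᵥ X j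
    simp only [Matrix.mulVec_mulVec, hg.mul_inv, Matrix.one_mulVec] at h
    exact h.symm
  det := by
    have h := congrArg Matrix.det hg.mul_inv
    rw [Matrix.det_mul, hg.det, one_mul, Matrix.det_one] at h
    exact h

/-- `g ad(X) = ad(gX) g` -/
theorem ad {g : Matrix D.BI D.BI R} (hg : IsGp F g) (X : D.BI → R) :
    g * D.ad X = D.ad (g *ᵥ X) * g := by
  refine Matrix.ext_of_mulVec_single fun a => ?_
  rw [← Matrix.mulVec_mulVec, ← Matrix.mulVec_mulVec]
  exact hg.br X (Pi.single a 1)

theorem ad' {g : Matrix D.BI D.BI R} (hg : IsGp F g) (X : D.BI → R) :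
    D.ad (g *ᵥ X) = g * D.ad X * g⁻¹ := by
  rw [hg.ad, Matrix.mul_assoc, hg.mul_inv, Matrix.mul_one]

end

end IsGp

namespace SLD

variable (D : SLD n)

/-! ### the order of the basis -/

theorem hI_anti (i j : Fin D.N) (h : i ≤ j) : D.hI (D.eN.symm j) ≤ D.hI (D.eN.symm i) := by
  have h1 := Tuple.monotone_sort
    (fun i : Fin (Fintype.card D.BI) => - D.hI ((Fintype.equivFin D.BI).symm i)) h
  simp only [Function.comp_apply, neg_le_neg_iff] at h1
  exact h1

theorem lt_of_hI {a c : D.BI} (h : D.hI c < D.hI a) : D.eN a < D.eN c := by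
  by_contra hcon
  have := D.hI_anti _ _ (not_lt.1 hcon)
  rw [Equiv.symm_apply_apply, Equiv.symm_apply_apply] at this
  exact absurd h (not_lt.2 this)

/-- upper triangular with respect to the order of the basis -/
def UpT {R : Type*} [CommRing R] (g : Matrix D.BI D.BI R) : Prop :=
  ∀ a c, D.eN c < D.eN a → g a c = 0

/-- block upper triangular: `g` does not lower the height -/
def UpB {R : Type*} [CommRing R] (g : Matrix D.BI D.BI R) : Prop :=
  ∀ a c, D.hI a < D.hI c → g a c = 0

theorem UpT.upB {R : Type*} [CommRing R] {g : Matrix D.BI D.BI R} (h : D.UpT g) : D.UpB g :=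
  fun a c hac => h a c (D.lt_of_hI hac)

/-- the torus -/
def TB {R : Type*} [CommRing R] (t : Fin n → Rˣ) : Matrix D.BI D.BI R :=
  Matrix.diagonal fun a => ((chi (D.wI a) t : Rˣ) : R)

/-- the sum of all weights vanishes (`γ ↦ -γ` on the roots: `Finset.sum_involution` or
`∑ γ = ∑ (-γ)` by `Equiv.sum_comp` with the involution `ng`) -/
theorem sum_wI : ∑ a, D.wI a = 0 := by
  rw [Fintype.sum_sum_type]
  simp only [wI_inl, wI_inr, Finset.sum_const_zero, zero_add]
  refine Finset.sum_involution (fun γ _ => D.ng γ) ?_ ?_ ?_ ?_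
  · intro γ _
    exact add_neg_cancel γ.1
  · intro γ _ h heq
    apply h
    have h1 : -γ.1 = γ.1 := congrArg Subtype.val heq
    funext i
    have h2 := congrFun h1 i
    rw [Pi.neg_apply] at h2
    rw [Pi.zero_apply]
    omega
  · intro γ _
    exact Finset.mem_univ _
  · intro γ _
    exact Subtype.ext (neg_neg γ.1)

/-- The torus is in the group.  `of_basis`; `TB t *ᵥ single a 1 = χ_a • single a 1`; bracket: the
coefficient of `b_d` on both sides is `st a c d` times `χ_d`, `χ_a χ_c`, equal by `st_wt`, `chi_add`;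
`ka`: `χ_a χ_c kp a c = kp a c` (`kp_wt`, `chi_zero`); `val`: `∏ χ_{i j} = χ (∑ wI (i j))` (`c_wt`);
determinant: `∏_a χ_a = χ (∑ wI a) = 1` (`Matrix.det_diagonal`, `sum_wI`). -/
theorem isGp_TB (F : Frm D) {R : Type*} [CommRing R] [Algebra ℂ R] (t : Fin n → Rˣ) :
    IsGp F (D.TB t) := by
  have hsum : ∀ (k : ℕ) (μ : Fin k → Fin n → ℤ),
      chi (∑ j, μ j) t = ∏ j, chi (μ j) t := by
    intro k
    induction k with
    | zero => intro μ; simp [chi_zero]
    | succ k ih => intro μ; rw [Fin.sum_univ_succ, Fin.prod_univ_succ, chi_add, ih]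
  have hsum2 : ∀ s : Finset D.BI,
      chi (∑ a ∈ s, D.wI a) t = ∏ a ∈ s, chi (D.wI a) t := by
    intro s
    classical
    induction s using Finset.induction_on with
    | empty => rw [Finset.sum_empty, Finset.prod_empty, chi_zero]
    | insert a s ha ih => rw [Finset.sum_insert ha, Finset.prod_insert ha, chi_add, ih]
  have hs : ∀ a : D.BI, D.TB t *ᵥ (Pi.single a 1 : D.BI → R) =
      ((chi (D.wI a) t : Rˣ) : R) • (Pi.single a 1 : D.BI → R) := by
    intro a
    funext d
    rw [TB, Matrix.mulVec_diagonal, Pi.smul_apply, smul_eq_mul]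
    rcases eq_or_ne d a with h | h
    · rw [h]
    · rw [Pi.single_eq_of_ne h, mul_zero, mul_zero]
  refine IsGp.of_basis ?_ ?_ ?_ ?_
  · intro a c
    rw [hs, hs, br_smul_left, br_smul_right]
    funext d
    rw [TB, Matrix.mulVec_diagonal, Pi.smul_apply, Pi.smul_apply, smul_eq_mul, smul_eq_mul,
      br_def, Matrix.mulVec_single_one]
    show _ * D.ad (Pi.single a 1) d c = _ * (_ * D.ad (Pi.single a 1) d c)
    rw [ad_single, one_mul]
    by_cases h : D.st a c d = 0
    · rw [h]; simp
    · rw [D.st_wt h, chi_add, Units.val_mul]; ring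
  · intro a c
    rw [hs, hs, ka_smul_left, ka_smul_right, ka_single]
    by_cases h : D.kp a c = 0
    · rw [h]; simp
    · have h1 : chi (D.wI a) t * chi (D.wI c) t = 1 := by
        rw [← chi_add, D.kp_wt h, chi_zero]
      have h2 : ((chi (D.wI a) t : Rˣ) : R) * ((chi (D.wI c) t : Rˣ) : R) = 1 := by
        rw [← Units.val_mul, h1, Units.val_one]
      rw [← mul_assoc, h2, one_mul]
  · intro i
    have h0 : ∀ j : Fin F.k, D.TB t *ᵥ (Pi.single (i j) 1 : D.BI → R) =
      ((chi (D.wI (i j)) t : Rˣ) : R) • (Pi.single (i j) 1 : D.BI → R) := fun j => hs (i j)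
    simp only [h0]
    have h1 : F.val (fun j => ((chi (D.wI (i j)) t : Rˣ) : R) • (Pi.single (i j) 1 : D.BI → R)) =
        (∏ j, ((chi (D.wI (i j)) t : Rˣ) : R)) *
          F.val (fun j => (Pi.single (i j) 1 : D.BI → R)) := by
      unfold Frm.val
      rw [Finset.mul_sum]
      refine Finset.sum_congr rfl fun i' _ => ?_
      simp only [Pi.smul_apply, smul_eq_mul, Finset.prod_mul_distrib]
      ring
    rw [h1, F.val_single]
    by_cases h : F.c i = 0
    · rw [h]; simp
    · have h2 : ∏ j, chi (D.wI (i j)) t = 1 := by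
        rw [← hsum, F.c_wt h, chi_zero]
      have h3 : ∏ j, ((chi (D.wI (i j)) t : Rˣ) : R) = 1 := by
        rw [← Units.coe_prod, h2, Units.val_one]
      rw [h3, one_mul]
  · rw [TB, Matrix.det_diagonal, ← Units.coe_prod, ← hsum2, D.sum_wI, chi_zero, Units.val_one]

end SLD

end Pool.Agent.MTX
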