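import Pool.Agent.MTX.L13
import Pool.Agent.MTX.L3

/-! # MTX, Part L : trivial forms for `E_7`, `E_8` (row L14) -/

namespace Pool.Agent.MTX

open Matrix

variable {n : ℕ}

/-- An automorphism of the Cartan matrix preserves the solution `r` of `C r = (2,...,2)`. -/
theorem aut_fix (D : SLD n) (r : Fin n → ℤ) (hr : ∀ i, ∑ j, D.C i j * r j = 2)
    (π : Equiv.Perm (Fin n)) (hπ : ∀ i j, D.C (π i) (π j) = D.C i j) (i : Fin n) :
    r (π i) = r i := by
  have h1 : ∀ i, ∑ j, D.C i j * r (π j) = 2 := by
    intro i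
    have h2 := hr (π i)
    rw [← Equiv.sum_comp π] at h2
    simpa only [hπ] using h2
  have h3 : (fun j => r (π j)) - r = 0 := by
    apply D.B_nondeg
    intro y
    rw [D.B_comm, SLD.B]
    unfold bil
    refine Finset.sum_eq_zero fun i _ => ?_
    have : ∑ j, y i * D.C i j * ((fun j => r (π j)) - r) j =
        y i * (∑ j, D.C i j * r (π j) - ∑ j, D.C i j * r j) := by
      rw [mul_sub, Finset.mul_sum, Finset.mul_sum, ← Finset.sum_sub_distrib]
      exact Finset.sum_congr rfl fun j _ => by simp only [Pi.sub_apply]; ring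
    rw [this, h1, hr, sub_self, mul_zero]
  have h4 := congrFun h3 i
  simp only [Pi.sub_apply, Pi.zero_apply] at h4
  linarith

/-- The trivial form, if the Dynkin diagram has no symmetries. -/
def trivF (D : SLD n) (r : Fin n → ℤ) (hr : ∀ i, ∑ j, D.C i j * r j = 2)
    (hi : Function.Injective r) : Frm D where
  k := 0
  c := fun _ => 0
  inv := by intro a i; simp
  out := by
    intro π hπ _
    apply Equiv.ext
    intro i
    exact hi (aut_fix D r hr π hπ i)

/-- the form for `E_7` (none) -/
def SLD.FE7 : Frm SLD.E7 := trivF SLD.E7 ![96, 49, 66, 75, 34, 52, 27]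
  (by decide) (by decide)

/-- the form for `E_8` (none) -/
def SLD.FE8 : Frm SLD.E8 := trivF SLD.E8 ![270, 136, 182, 220, 92, 168, 114, 58]
  (by decide) (by decide)

end Pool.Agent.MTX
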