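import Pool.Agent.MTX.L15b

/-! # MTX, Part L : minuscule representations and their trace forms (row L15)

`Minu D` : a node `m` whose fundamental weight `ω` satisfies `(ω, ω) < 2`, given by an integral
multiple `w = d ω ∈ Q`.  The weights of the representation are the `ω + b`, `b ∈ Ω`,
`(ω + b, ω + b) = (ω, ω)`.  The representation: `e_γ v_b = eps γ b • v_{b + γ}`,
`x v_b = (ω + b)(x) v_b`. -/

namespace Pool.Agent.MTX

open Matrix

open Pool.Agent.MTD (ev ev_add ev_sub ev_neg ev_smul ev_zero ev_add_left ev_sub_left ev_neg_left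
  ev_smul_left ev_zero_left ev_sum_left ev_sum ev_map ev_comm)

variable {n : ℕ}

namespace Minu

variable {D : SLD n} (M : Minu D)

/-- The weights pair with roots to `-1, 0, 1`: for `k = B(b, γ) + γ_m`, `B(w + d b, γ) = d k`, and
Cauchy–Schwarz (`B_sq_le`, `B_nu`): `d² k² ≤ 2 B(w, w) < 4 d²`. -/
theorem pair (b : M.Om) (γ : D.Rt) : |D.B b.1 γ.1 + γ.1 M.m| ≤ 1 := by
  have h1 := D.B_sq_le (M.w + M.d • b.1) γ.1
  have h2 : D.B (M.w + M.d • b.1) γ.1 = M.d * (D.B b.1 γ.1 + γ.1 M.m) := by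
    rw [D.B_add_left, D.B_smul_left, M.B_w]
    ring
  rw [h2, M.B_nu, γ.2] at h1
  have h3 := M.hB
  have h4 : 0 < M.d ^ 2 := pow_pos M.hd 2
  set k := D.B b.1 γ.1 + γ.1 M.m with hk
  have h5 : M.d ^ 2 * k ^ 2 < M.d ^ 2 * 4 := by
    have : (M.d * k) ^ 2 = M.d ^ 2 * k ^ 2 := by ring
    linarith
  have h6 : k ^ 2 < 4 := lt_of_mul_lt_mul_left h5 h4.le
  have h7 : |k| < 2 := by
    have : k ^ 2 < 2 ^ 2 := by linarith
    have := sq_lt_sq.1 this
    simpa using this
  omega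

/-- `b + γ ∈ Ω` iff `B(b, γ) + γ_m = -1` (expand) -/
theorem add_mem (b : M.Om) (γ : D.Rt) :
    D.B (b.1 + γ.1) (b.1 + γ.1) + 2 * (b.1 + γ.1) M.m = 0 ↔ D.B b.1 γ.1 + γ.1 M.m = -1 := by
  have h1 : D.B (b.1 + γ.1) (b.1 + γ.1) + 2 * (b.1 + γ.1) M.m =
      (D.B b.1 b.1 + 2 * b.1 M.m) + (2 * (D.B b.1 γ.1 + γ.1 M.m) + 2) := by
    rw [D.B_add_left, D.B_add_right, D.B_add_right, D.B_comm γ.1 b.1, γ.2, Pi.add_apply]
    ring
  rw [h1, b.2]
  constructor <;> intro h <;> omega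

/-- The representation property for a Cartan element and a root vector:
`[ρ(b_k), ρ(e_γ)] = γ_k ρ(e_γ)` (an entry `b' b` of `ρ(e_γ)` is nonzero only for `b' = b + γ`). -/
theorem rs_lr (k : Fin n) (γ : D.Rt) :
    M.rs (Sum.inl k) * M.rs (Sum.inr γ) - M.rs (Sum.inr γ) * M.rs (Sum.inl k) =
      (γ.1 k : ℂ) • M.rs (Sum.inr γ) := by
  ext b' b
  rw [Matrix.sub_apply, Matrix.smul_apply]
  simp only [rs]
  rw [Matrix.diagonal_mul, Matrix.mul_diagonal]
  split_ifs with h
  · rw [← h]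
    simp only [Pi.add_apply, smul_eq_mul]
    push_cast
    ring
  · simp

theorem l15_mul_rr (γ δ : D.Rt) (c b : M.Om) :
    (M.rs (Sum.inr γ) * M.rs (Sum.inr δ)) c b =
      if D.B b.1 δ.1 + δ.1 M.m = -1 ∧ b.1 + δ.1 + γ.1 = c.1 then
        ((D.eps γ.1 (b.1 + δ.1) * D.eps δ.1 b.1 : ℤ) : ℂ) else 0 := by
  rw [Matrix.mul_apply]
  simp only [rs]
  by_cases h : D.B b.1 δ.1 + δ.1 M.m = -1
  · rw [Finset.sum_eq_single (⟨b.1 + δ.1, (M.add_mem b δ).2 h⟩ : M.Om)]
    · simp only [if_true, h, true_and]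
      split_ifs with h2
      · push_cast
        ring
      · ring
    · intro x _ hx
      have : ¬ (b.1 + δ.1 = x.1) := fun e => hx (Subtype.ext e.symm)
      rw [if_neg this, mul_zero]
    · intro hx
      exact absurd (Finset.mem_univ _) hx
  · rw [if_neg (fun e => h e.1)]
    refine Finset.sum_eq_zero fun x _ => ?_
    have : ¬ (b.1 + δ.1 = x.1) := by
      intro e
      apply h
      rw [← M.add_mem b δ, e]
      exact x.2
    rw [if_neg this, mul_zero]

theorem l15_rhs (γ δ : D.Rt) (c b : M.Om) :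
    (∑ e, (D.st (Sum.inr γ) (Sum.inr δ) e : ℂ) • M.rs e) c b =
      (if γ.1 + δ.1 = 0 ∧ c = b then -((D.B b.1 γ.1 + γ.1 M.m : ℤ) : ℂ) else 0) +
      (if D.B γ.1 δ.1 = -1 ∧ b.1 + δ.1 + γ.1 = c.1 then
        ((D.eps γ.1 δ.1 * D.eps (γ.1 + δ.1) b.1 : ℤ) : ℂ) else 0) := by
  have hd0 : (M.d : ℂ) ≠ 0 := by
    have := M.hd
    exact_mod_cast this.ne'
  rw [Matrix.sum_apply, Fintype.sum_sum_type]
  simp only [Matrix.smul_apply, smul_eq_mul, D.st_rrl, D.st_rrr]
  congr 1
  · simp only [rs]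
    by_cases h0 : γ.1 + δ.1 = 0
    · by_cases hc : c = b
      · subst hc
        simp only [h0, if_true, true_and, Matrix.diagonal_apply_eq]
        have e1 := D.B_coord M.w γ.1
        have e2 := D.B_coord c.1 γ.1
        rw [M.B_w] at e1
        have e1' : (M.d : ℂ) * (γ.1 M.m : ℂ) =
            ∑ k, (M.w k : ℂ) * (D.B (D.al k).1 γ.1 : ℂ) := by
          exact_mod_cast e1
        have e2' : (D.B c.1 γ.1 : ℂ) = ∑ k, (c.1 k : ℂ) * (D.B (D.al k).1 γ.1 : ℂ) := by
          exact_mod_cast e2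
        have e3 : ∑ k, ((-D.B (D.al k).1 γ.1 : ℤ) : ℂ) * ((M.w k : ℂ) / M.d + c.1 k) =
            -((∑ k, (M.w k : ℂ) * (D.B (D.al k).1 γ.1 : ℂ)) / M.d +
              ∑ k, (c.1 k : ℂ) * (D.B (D.al k).1 γ.1 : ℂ)) := by
          rw [Finset.sum_div, ← Finset.sum_add_distrib, ← Finset.sum_neg_distrib]
          refine Finset.sum_congr rfl fun k _ => ?_
          push_cast
          ring
        rw [e3, ← e1', ← e2']
        push_cast
        field_simp
        ring
      · simp only [h0, if_true, true_and, hc, if_false]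
        refine Finset.sum_eq_zero fun k _ => ?_
        rw [Matrix.diagonal_apply_ne _ hc, mul_zero]
    · simp [h0]
  · simp only [rs]
    by_cases h1 : D.B γ.1 δ.1 = -1
    · have h2 : D.B (γ.1 + δ.1) (γ.1 + δ.1) = 2 := (D.B_add_root γ δ).2 h1
      rw [Finset.sum_eq_single (⟨γ.1 + δ.1, h2⟩ : D.Rt)]
      · have e : b.1 + (γ.1 + δ.1) = b.1 + δ.1 + γ.1 := by abel
        simp only [if_true, h1, true_and, e]
        split_ifs with h3
        · push_cast
          ring
        · ring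
      · intro x _ hx
        have : ¬ (γ.1 + δ.1 = x.1) := fun e => hx (Subtype.ext e.symm)
        rw [if_neg this]
        push_cast
        ring
      · intro hx
        exact absurd (Finset.mem_univ _) hx
    · rw [if_neg (fun e => h1 e.1)]
      refine Finset.sum_eq_zero fun x _ => ?_
      have : ¬ (γ.1 + δ.1 = x.1) := by
        intro e
        apply h1
        rw [← D.B_add_root, e]
        exact x.2
      rw [if_neg this]
      push_cast
      ring

/-- The representation property for two root vectors.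
Apply both sides to `v_b` and let `i = B(b,γ) + γ_m`, `j = B(b,δ) + δ_m` (both in `{-1,0,1}`: `pair`),
`p = B(γ, δ)` (`abs_B_le`).  By `add_mem`: `e_δ v_b = eps δ b • v_{b+δ}` if `j = -1`, else `0`, and then
`e_γ v_{b+δ} = eps γ (b+δ) • v_{b+δ+γ}` if `i + p = -1`, else `0` (`B(b+δ, γ) + γ_m = i + p`).
`p = -1`, `γ + δ` a root (`B(b, γ+δ) + (γ+δ)_m = i + j`): both sides are nonzero only if `i + j = -1`, i.e.
`(i,j) = (0,-1)`: `eps δ b * eps γ (b+δ) = eps γ δ * eps (γ+δ) b` (`eps_add_left`, `eps_add_right`), or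
`(i,j) = (-1,0)`: `- eps γ b * eps δ (b+γ) = eps γ δ * eps (γ+δ) b` (`eps_swap_odd`).
`p = -2`, `δ = -γ`, `j = -i`: the left side is `-[i = 1] + [i = -1] = -i` times `v_b`
(`eps (-γ) b * eps γ (b - γ) = eps γ γ = -1`), the right side is `-(ω + b)(h_γ) v_b`, where
`(ω + b)(h_γ) = ∑_k (w_k/d + b_k) B(α_k, γ) = B(w, γ)/d + B(b, γ) = i` (`B_coord`, `B_w`).
`p = 0`: both terms are nonzero exactly if `i = j = -1` and they are equal (`eps_swap_even`).
`p = 1`: `i + p = -1` is impossible; `p = 2`: `γ = δ` (`eq_of_B_two`). -/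
theorem rs_rr (γ δ : D.Rt) :
    M.rs (Sum.inr γ) * M.rs (Sum.inr δ) - M.rs (Sum.inr δ) * M.rs (Sum.inr γ) =
      ∑ e, (D.st (Sum.inr γ) (Sum.inr δ) e : ℂ) • M.rs e := by
  ext c b
  rw [l15_rhs, Matrix.sub_apply, l15_mul_rr, l15_mul_rr]
  have e0 : b.1 + γ.1 + δ.1 = b.1 + δ.1 + γ.1 := by abel
  rw [e0]
  by_cases hc : b.1 + δ.1 + γ.1 = c.1
  · have hi := abs_le.1 (M.pair b γ)
    have hj := abs_le.1 (M.pair b δ)
    have hp := abs_le.1 (D.abs_B_le γ δ)
    have hS : D.B γ.1 δ.1 + (D.B b.1 γ.1 + γ.1 M.m) + (D.B b.1 δ.1 + δ.1 M.m) = -2 := by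
      have h1 := c.2
      rw [← hc] at h1
      have h2 := b.2
      simp only [SLD.B_add_left, SLD.B_add_right, Pi.add_apply, γ.2, δ.2, D.B_comm δ.1 γ.1,
        D.B_comm δ.1 b.1, D.B_comm γ.1 b.1] at h1
      linarith
    have hz : (γ.1 + δ.1 = 0 ∧ c = b) ↔ D.B γ.1 δ.1 = -2 := by
      rw [← D.B_add_zero]
      constructor
      · exact fun h => h.1
      · intro h
        refine ⟨h, Subtype.ext ?_⟩
        rw [← hc, add_assoc, add_comm δ.1, h, add_zero]
    simp only [hz, hc, and_true]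
    generalize hI : D.B b.1 γ.1 + γ.1 M.m = i at *
    generalize hJ : D.B b.1 δ.1 + δ.1 M.m = j at *
    have hp2 : D.B γ.1 δ.1 = -2 ∨ D.B γ.1 δ.1 = -1 ∨ D.B γ.1 δ.1 = 0 := by omega
    rw [SLD.eps_add_right, SLD.eps_add_right, SLD.eps_add_left]
    have t1 : ((1:ℤ) = -1) = False := by norm_num
    have t2 : ((0:ℤ) = -1) = False := by norm_num
    have t3 : ((-2:ℤ) = -1) = False := by norm_num
    have t4 : ((-1:ℤ) = -2) = False := by norm_num
    have t5 : ((0:ℤ) = -2) = False := by norm_num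
    rcases hp2 with hp2 | hp2 | hp2
    · have hδ : δ.1 = -γ.1 := by
        have := (D.B_add_zero γ δ).2 hp2
        rw [eq_neg_iff_add_eq_zero, add_comm]
        exact this
      have hij : i + j = 0 := by omega
      have q1 := D.eps_mul_self γ.1 b.1
      have q2 : D.eps γ.1 b.1 * D.eps γ.1 δ.1 * D.eps δ.1 b.1 = -1 := by
        rw [hδ, SLD.eps_neg_right, SLD.eps_neg_left, D.eps_self]
        linear_combination (-1) * q1
      have q3 : D.eps δ.1 b.1 * D.eps δ.1 γ.1 * D.eps γ.1 b.1 = -1 := by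
        rw [hδ, SLD.eps_neg_left, SLD.eps_neg_left, D.eps_self]
        linear_combination (-1) * q1
      have hi3 : i = -1 ∨ i = 0 ∨ i = 1 := by omega
      rcases hi3 with hi3 | hi3 | hi3
      · have hj3 : j = 1 := by omega
        simp only [hp2, hi3, hj3, t1, t2, t3, t4, t5, if_true, if_false, q2, q3]
        norm_num
      · have hj3 : j = 0 := by omega
        simp only [hp2, hi3, hj3, t1, t2, t3, t4, t5, if_true, if_false, q2, q3]
        norm_num
      · have hj3 : j = -1 := by omega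
        simp only [hp2, hi3, hj3, t1, t2, t3, t4, t5, if_true, if_false, q2, q3]
        norm_num
    · have hsw := D.eps_swap_odd (x := γ.1) (y := δ.1) (by rw [hp2]; decide)
      rw [hsw]
      have hij : i + j = -1 := by omega
      have hi3 : i = -1 ∨ i = 0 := by omega
      rcases hi3 with hi3 | hi3
      · have hj3 : j = 0 := by omega
        simp only [hp2, hi3, hj3, t1, t2, t3, t4, t5, if_true, if_false]
        push_cast
        ring
      · have hj3 : j = -1 := by omega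
        simp only [hp2, hi3, hj3, t1, t2, t3, t4, t5, if_true, if_false]
        push_cast
        ring
    · have hsw := D.eps_swap_even (x := γ.1) (y := δ.1) (by rw [hp2]; decide)
      have hi3 : i = -1 := by omega
      have hj3 : j = -1 := by omega
      rw [hsw]
      simp only [hp2, hi3, hj3, t1, t2, t3, t4, t5, if_true, if_false]
      push_cast
      ring
  · have hz : ¬ (γ.1 + δ.1 = 0 ∧ c = b) := by
      rintro ⟨h1, h2⟩
      apply hc
      rw [h2, add_assoc, add_comm δ.1, h1, add_zero]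
    simp only [hc, and_false, if_false, hz]
    ring

/-- the representation property (`rs_lr`, `rs_rr`, diagonal matrices commute) -/
theorem rs_br (a c : D.BI) :
    M.rs a * M.rs c - M.rs c * M.rs a = ∑ e, (D.st a c e : ℂ) • M.rs e := by
  have hlr : ∀ (k : Fin n) (γ : D.Rt), ∑ e, (D.st (Sum.inl k) (Sum.inr γ) e : ℂ) • M.rs e =
      (γ.1 k : ℂ) • M.rs (Sum.inr γ) := by
    intro k γ
    rw [Fintype.sum_sum_type]
    simp only [D.st_lrl, D.st_lrr, Int.cast_zero, zero_smul, Finset.sum_const_zero, zero_add]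
    rw [Finset.sum_eq_single γ]
    · rw [if_pos rfl]
    · intro x _ hx
      rw [if_neg (fun e => hx e.symm), Int.cast_zero, zero_smul]
    · intro hx
      exact absurd (Finset.mem_univ _) hx
  rcases a with k | γ <;> rcases c with l | δ
  · simp only [D.st_ll, Int.cast_zero, zero_smul, Finset.sum_const_zero]
    simp only [rs, Matrix.diagonal_mul_diagonal]
    rw [sub_eq_zero]
    congr 1
    funext b
    ring
  · rw [hlr, rs_lr]
  · have h : ∑ e, (D.st (Sum.inr γ) (Sum.inl l) e : ℂ) • M.rs e =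
        -((γ.1 l : ℂ) • M.rs (Sum.inr γ)) := by
      rw [← hlr, ← Finset.sum_neg_distrib]
      refine Finset.sum_congr rfl fun e _ => ?_
      rw [D.st_anti (Sum.inr γ) (Sum.inl l) e]
      push_cast
      rw [neg_smul]
    rw [h, ← rs_lr]
    abel
  · exact M.rs_rr γ δ

/-- derivation property of products: `∑_j (X_1 ... [A, X_j] ... X_k) = A X_1...X_k - X_1...X_k A`
(induction on `k`, `List.ofFn_succ`, `Fin.sum_univ_succ`, `Function.update` at `0` and at `succ`) -/
theorem prod_deriv {m : Type*} [Fintype m] [DecidableEq m] (A : Matrix m m ℂ) (k : ℕ)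
    (X : Fin k → Matrix m m ℂ) :
    ∑ j, (List.ofFn (Function.update X j (A * X j - X j * A))).prod =
      A * (List.ofFn X).prod - (List.ofFn X).prod * A := by
  induction k with
  | zero => simp
  | succ k ih =>
    rw [Fin.sum_univ_succ]
    have h0 : (List.ofFn (Function.update X 0 (A * X 0 - X 0 * A))).prod =
        (A * X 0 - X 0 * A) * (List.ofFn fun i : Fin k => X i.succ).prod := by
      rw [List.ofFn_succ, List.prod_cons, Function.update_self]
      congr 3
    have h1 : ∀ i : Fin k,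
        (List.ofFn (Function.update X i.succ (A * X i.succ - X i.succ * A))).prod =
        X 0 * (List.ofFn (Function.update (fun i : Fin k => X i.succ) i
          (A * X i.succ - X i.succ * A))).prod := by
      intro i
      rw [List.ofFn_succ, List.prod_cons, Function.update_of_ne (Fin.succ_ne_zero i).symm]
      congr 3
      funext l
      by_cases hl : l = i
      · subst hl
        rw [Function.update_self, Function.update_self]
      · rw [Function.update_of_ne hl,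
          Function.update_of_ne (fun e => hl (Fin.succ_injective _ e))]
    rw [h0, Finset.sum_congr rfl fun i _ => h1 i, ← Finset.mul_sum, ih, List.ofFn_succ,
      List.prod_cons]
    noncomm_ring

/-- a product is linear in each factor -/
theorem l15_factor {m : Type*} [Fintype m] [DecidableEq m] (k : ℕ)
    (X : Fin k → Matrix m m ℂ) (j : Fin k) :
    ∃ L R : Matrix m m ℂ, ∀ v, (List.ofFn (Function.update X j v)).prod = L * v * R := by
  induction k with
  | zero => exact j.elim0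
  | succ k ih =>
    refine Fin.cases ?_ (fun i => ?_) j
    · refine ⟨1, (List.ofFn fun i : Fin k => X i.succ).prod, fun v => ?_⟩
      rw [List.ofFn_succ, List.prod_cons, Function.update_self, one_mul]
      congr 3
    · obtain ⟨L, R, h⟩ := ih (fun i : Fin k => X i.succ) i
      refine ⟨X 0 * L, R, fun v => ?_⟩
      rw [List.ofFn_succ, List.prod_cons, Function.update_of_ne (Fin.succ_ne_zero i).symm,
        mul_assoc, mul_assoc, ← mul_assoc L, ← h v]
      congr 3
      funext l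
      by_cases hl : l = i
      · subst hl
        rw [Function.update_self, Function.update_self]
      · rw [Function.update_of_ne hl,
          Function.update_of_ne (fun e => hl (Fin.succ_injective _ e))]

/-- invariance of the trace form: `∑_e st a (i j) e • tf (update i j e)` is the trace of the product
with the `j`-th factor replaced by `[ρ(b_a), ρ(b_{i j})]` (`rs_br`; the product is linear in the
`j`-th factor); `prod_deriv`, `Matrix.trace_mul_comm`. -/
theorem tf_inv (k : ℕ) (a : D.BI) (i : Fin k → D.BI) :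
    ∑ j, ∑ e, (D.st a (i j) e : ℂ) * M.tf k (Function.update i j e) = 0 := by
  have h1 : ∀ j, ∑ e, (D.st a (i j) e : ℂ) * M.tf k (Function.update i j e) =
      ((List.ofFn (Function.update (fun j => M.rs (i j)) j
        (M.rs a * M.rs (i j) - M.rs (i j) * M.rs a))).prod).trace := by
    intro j
    obtain ⟨L, R, h⟩ := l15_factor k (fun j => M.rs (i j)) j
    rw [h, M.rs_br, Finset.mul_sum, Finset.sum_mul, Matrix.trace_sum]
    refine Finset.sum_congr rfl fun e _ => ?_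
    rw [Matrix.mul_smul, Matrix.smul_mul, Matrix.trace_smul, smul_eq_mul, ← h, tf]
    congr 4
    funext l
    by_cases hl : l = j
    · subst hl
      rw [Function.update_self, Function.update_self]
    · rw [Function.update_of_ne hl, Function.update_of_ne hl]
  rw [Finset.sum_congr rfl fun j _ => h1 j, ← Matrix.trace_sum]
  have h2 := prod_deriv (M.rs a) k (fun j => M.rs (i j))
  rw [h2, Matrix.trace_sub, Matrix.trace_mul_comm, sub_self]

/-- on the Cartan subalgebra (product of diagonal matrices) -/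
theorem tf_cartan (k : ℕ) (i : Fin k → Fin n) :
    M.tf k (fun j => Sum.inl (i j)) = ∑ b : M.Om, ∏ j, ((M.w (i j) : ℂ) / M.d + b.1 (i j)) := by
  have h : ∀ (k : ℕ) (f : Fin k → M.Om → ℂ),
      (List.ofFn fun j => Matrix.diagonal (f j)).prod = Matrix.diagonal fun b => ∏ j, f j b := by
    intro k
    induction k with
    | zero => intro f; simp
    | succ k ih =>
      intro f
      rw [List.ofFn_succ, List.prod_cons, ih (fun i => f i.succ), Matrix.diagonal_mul_diagonal]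
      congr 1
      funext b
      rw [Fin.prod_univ_succ]
  unfold tf
  simp only [rs]
  rw [h k (fun j b => (M.w (i j) : ℂ) / M.d + b.1 (i j)), Matrix.trace_diagonal]

end Minu

theorem SLD.l15_box (b : Fin 6 → ℤ) (h : SLD.E6.B b b + 2 * b 4 = 0) :
    (-4 ≤ b 0 ∧ b 0 ≤ 0) ∧ (-2 ≤ b 1 ∧ b 1 ≤ 0) ∧ (-3 ≤ b 2 ∧ b 2 ≤ 0) ∧ (-3 ≤ b 3 ∧ b 3 ≤ 0) ∧
      (-2 ≤ b 4 ∧ b 4 ≤ 0) ∧ (-2 ≤ b 5 ∧ b 5 ≤ 0) := by
  have hB : SLD.E6.B b b = bil CE6 b b := rfl
  have h6 := bil_E6 b
  rw [hB] at h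
  have key : 3 * (1 + 2 * b 4 - b 2) ^ 2 + (1 + 3 * b 2 - 2 * b 0) ^ 2 + 3 * (2 * b 5 - b 3) ^ 2 +
      (3 * b 3 - 2 * b 0) ^ 2 + 3 * (2 * b 1 - b 0) ^ 2 + (2 + b 0) ^ 2 = 8 := by
    nlinarith
  have q1 := sq_nonneg (1 + 2 * b 4 - b 2)
  have q2 := sq_nonneg (1 + 3 * b 2 - 2 * b 0)
  have q3 := sq_nonneg (2 * b 5 - b 3)
  have q4 := sq_nonneg (3 * b 3 - 2 * b 0)
  have q5 := sq_nonneg (2 * b 1 - b 0)
  have q6 := sq_nonneg (2 + b 0)
  have r0 : |2 + b 0| ≤ 2 := by
    by_contra hc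
    push Not at hc
    have : 3 ≤ |2 + b 0| := by omega
    nlinarith [sq_abs (2 + b 0)]
  have r1 : |2 * b 1 - b 0| ≤ 1 := by
    by_contra hc
    push Not at hc
    have : 2 ≤ |2 * b 1 - b 0| := by omega
    nlinarith [sq_abs (2 * b 1 - b 0)]
  have r2 : |1 + 3 * b 2 - 2 * b 0| ≤ 2 := by
    by_contra hc
    push Not at hc
    have : 3 ≤ |1 + 3 * b 2 - 2 * b 0| := by omega
    nlinarith [sq_abs (1 + 3 * b 2 - 2 * b 0)]
  have r3 : |3 * b 3 - 2 * b 0| ≤ 2 := by
    by_contra hc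
    push Not at hc
    have : 3 ≤ |3 * b 3 - 2 * b 0| := by omega
    nlinarith [sq_abs (3 * b 3 - 2 * b 0)]
  have r4 : |1 + 2 * b 4 - b 2| ≤ 1 := by
    by_contra hc
    push Not at hc
    have : 2 ≤ |1 + 2 * b 4 - b 2| := by omega
    nlinarith [sq_abs (1 + 2 * b 4 - b 2)]
  have r5 : |2 * b 5 - b 3| ≤ 1 := by
    by_contra hc
    push Not at hc
    have : 2 ≤ |2 * b 5 - b 3| := by omega
    nlinarith [sq_abs (2 * b 5 - b 3)]
  rw [abs_le] at r0 r1 r2 r3 r4 r5
  omega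

/-- The weights of the 27-dimensional representation lie in a box: `ν = w + 3 b`, `B(ν,ν) = 12`
(`B_nu`), so by `bil_E6` `72 = 3(2ν₄-ν₂)² + (3ν₂-2ν₀)² + 3(2ν₅-ν₃)² + (3ν₃-2ν₀)² + 3(2ν₁-ν₀)² + ν₀²`.
Hence `|ν₀| ≤ 8`, `|2ν₁-ν₀| ≤ 4`, `|3ν₂-2ν₀| ≤ 8`, `|3ν₃-2ν₀| ≤ 8`, `|2ν₄-ν₂| ≤ 4`, `|2ν₅-ν₃| ≤ 4`, and
`-4 ≤ b₀ ≤ 0`, `-2 ≤ b₁ ≤ 0`, ... (`omega`, or better bounds by Cauchy–Schwarz with `B_adj`).
Any explicit box is fine for the next lemma; this one is sharp enough. -/
theorem SLD.box_E6 (b : Fin 6 → ℤ) (h : SLD.E6.B b b + 2 * b 4 = 0) :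
    b ∈ Fintype.piFinset fun _ : Fin 6 => Finset.Icc (-4 : ℤ) 1 := by
  obtain ⟨h0, h1, h2, h3, h4, h5⟩ := SLD.l15_box b h
  rw [Fintype.mem_piFinset]
  intro i
  rw [Finset.mem_Icc]
  fin_cases i
  · exact ⟨h0.1, h0.2.trans (by norm_num)⟩
  · exact ⟨le_trans (by norm_num) h1.1, h1.2.trans (by norm_num)⟩
  · exact ⟨le_trans (by norm_num) h2.1, h2.2.trans (by norm_num)⟩
  · exact ⟨le_trans (by norm_num) h3.1, h3.2.trans (by norm_num)⟩
  · exact ⟨le_trans (by norm_num) h4.1, h4.2.trans (by norm_num)⟩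
  · exact ⟨le_trans (by norm_num) h5.1, h5.2.trans (by norm_num)⟩

/-- the sharp box -/
noncomputable def SLD.l15_box6 : Finset (Fin 6 → ℤ) :=
  Fintype.piFinset fun i : Fin 6 => Finset.Icc ((![-4, -2, -3, -3, -2, -2] : Fin 6 → ℤ) i) 0

theorem SLD.l15_sum6 : ∑ b ∈ SLD.l15_box6.filter (fun b => bil CE6 b b + 2 * b 4 = 0),
    (((4 + 3 * b 4) ^ 5, (2 + 3 * b 5) ^ 5) : ℤ × ℤ) = (720, -720) := by
  decide +kernel

/-- `∑_b (4 + 3 b₄)^5 = 720`, `∑_b (2 + 3 b₅)^5 = -720` over the 27 weights.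
Enumerate: nested sums over the integer boxes `b₀ ∈ [-4,0]`, `b₁ ∈ [-2,0]`, `b₂ ∈ [-3,0]`, `b₃ ∈ [-3,0]`,
`b₄ ∈ [-2,0]`, `b₅ ∈ [-2,0]` (the sharp bounds `ν_k² ≤ 12 (C⁻¹)_{kk}`,
`(C⁻¹)_{kk} = 6, 2, 10/3, 10/3, 4/3, 4/3`, from Cauchy–Schwarz with the rows of `3 C⁻¹`), filtered by
`B b b + 2 b₄ = 0`; `decide +kernel`.  The 27 weights: the orbit of `0` under `b ↦ b + γ`. -/
theorem SLD.sum_E6 : ∑ b : SLD.ME6.Om, (4 + 3 * b.1 4) ^ 5 = 720 ∧
    ∑ b : SLD.ME6.Om, (2 + 3 * b.1 5) ^ 5 = -720 := by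
  have hmem : ∀ x : Fin 6 → ℤ, x ∈ SLD.l15_box6.filter (fun b => bil CE6 b b + 2 * b 4 = 0) ↔
      SLD.E6.B x x + 2 * x SLD.ME6.m = 0 := by
    intro x
    rw [Finset.mem_filter]
    constructor
    · exact fun h => h.2
    · intro h
      refine ⟨?_, h⟩
      obtain ⟨h0, h1, h2, h3, h4, h5⟩ := SLD.l15_box x h
      rw [SLD.l15_box6, Fintype.mem_piFinset]
      intro i
      rw [Finset.mem_Icc]
      fin_cases i
      exacts [h0, h1, h2, h3, h4, h5]
  have hs := SLD.l15_sum6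
  rw [Prod.ext_iff, Prod.fst_sum, Prod.snd_sum] at hs
  constructor
  · rw [← Finset.sum_subtype _ hmem (fun b : Fin 6 → ℤ => (4 + 3 * b 4) ^ 5)]
    exact hs.1
  · rw [← Finset.sum_subtype _ hmem (fun b : Fin 6 → ℤ => (2 + 3 * b 5) ^ 5)]
    exact hs.2

/-- `E_6`: the form `tr ρ_27(X_1)...ρ_27(X_5)`.
`out`: `aut_fix` with `r = (42, 22, 30, 30, 16, 16)` gives `π 0 = 0`, `π 1 = 1`, `{2,3}` and `{4,5}` preserved;
if `π 2 = 2` then `C 2 (π 4) = C 2 4 = -1` gives `π 4 = 4`, so `π = 1`; otherwise `π 4 = 5`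
(`C 3 (π 4) = -1`), and the second hypothesis for `i = (4,4,4,4,4)` contradicts `tf_cartan`, `sum_E6`
(`3^5 ∑ (4/3 + b₄)^5 = 720`, `3^5 ∑ (2/3 + b₅)^5 = -720`). -/
theorem SLD.out_E6 (π : Equiv.Perm (Fin 6)) (hπ : ∀ i j, SLD.E6.C (π i) (π j) = SLD.E6.C i j)
    (hc : ∀ i : Fin 5 → Fin 6, SLD.ME6.tf 5 (fun j => Sum.inl (π (i j))) =
      SLD.ME6.tf 5 (fun j => Sum.inl (i j))) : π = 1 := by
  have h := aut_fix SLD.E6 ![42, 22, 30, 30, 16, 16] (by decide) π hπ
  have k0 : ∀ a : Fin 6, (![42, 22, 30, 30, 16, 16] : Fin 6 → ℤ) a = 42 → a = 0 := by decide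
  have k1 : ∀ a : Fin 6, (![42, 22, 30, 30, 16, 16] : Fin 6 → ℤ) a = 22 → a = 1 := by decide
  have k2 : ∀ a : Fin 6, (![42, 22, 30, 30, 16, 16] : Fin 6 → ℤ) a = 30 → a = 2 ∨ a = 3 := by
    decide
  have k4 : ∀ a : Fin 6, (![42, 22, 30, 30, 16, 16] : Fin 6 → ℤ) a = 16 → a = 4 ∨ a = 5 := by
    decide
  have h0 : π 0 = 0 := k0 _ (h 0)
  have h1 : π 1 = 1 := k1 _ (h 1)
  have h4 : π 4 = 4 := by
    rcases k4 _ (h 4) with h4 | h4
    · exact h4
    · exfalso
      have h5 := hc fun _ => 4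
      rw [SLD.ME6.tf_cartan 5 fun _ => π 4, SLD.ME6.tf_cartan 5 fun _ => 4, h4] at h5
      simp only [Finset.prod_const, Finset.card_univ, Fintype.card_fin] at h5
      have e4 : ((SLD.ME6.w 4 : ℤ) : ℂ) = 4 := by
        rw [show SLD.ME6.w 4 = 4 from rfl]; norm_num
      have e5 : ((SLD.ME6.w 5 : ℤ) : ℂ) = 2 := by
        rw [show SLD.ME6.w 5 = 2 from rfl]; norm_num
      have ed : ((SLD.ME6.d : ℤ) : ℂ) = 3 := by
        rw [show SLD.ME6.d = 3 from rfl]; norm_num
      rw [e4, e5, ed] at h5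
      have s4 : ∑ b : SLD.ME6.Om, ((4 : ℂ) + 3 * (b.1 4 : ℂ)) ^ 5 = 720 := by
        have := congrArg (fun z : ℤ => (z : ℂ)) SLD.sum_E6.1
        push_cast at this
        exact this
      have s5 : ∑ b : SLD.ME6.Om, ((2 : ℂ) + 3 * (b.1 5 : ℂ)) ^ 5 = -720 := by
        have := congrArg (fun z : ℤ => (z : ℂ)) SLD.sum_E6.2
        push_cast at this
        exact this
      have t4 : ∑ b : SLD.ME6.Om, ((4 : ℂ) / 3 + (b.1 4 : ℂ)) ^ 5 = 720 / 243 := by
        rw [← s4, Finset.sum_div]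
        exact Finset.sum_congr rfl fun b _ => by ring
      have t5 : ∑ b : SLD.ME6.Om, ((2 : ℂ) / 3 + (b.1 5 : ℂ)) ^ 5 = -720 / 243 := by
        rw [← s5, Finset.sum_div]
        exact Finset.sum_congr rfl fun b _ => by ring
      rw [t4, t5] at h5
      norm_num at h5
  have h5 : π 5 = 5 := by
    rcases k4 _ (h 5) with h5 | h5
    · exact absurd (π.injective (h5.trans h4.symm)) (by decide)
    · exact h5
  have h2 : π 2 = 2 := by
    rcases k2 _ (h 2) with h2 | h2
    · exact h2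
    · exfalso
      have h6 := hπ 4 2
      rw [h4, h2] at h6
      revert h6
      decide
  have h3 : π 3 = 3 := by
    rcases k2 _ (h 3) with h3 | h3
    · exact absurd (π.injective (h3.trans h2.symm)) (by decide)
    · exact h3
  apply Equiv.ext
  intro i
  fin_cases i
  · exact h0
  · exact h1
  · exact h2
  · exact h3
  · exact h4
  · exact h5

end Pool.Agent.MTX
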