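import Pool.Agent.MTX.R0

/-! # MTX, Part L : definitions : minuscule weights -/

namespace Pool.Agent.MTX

variable {n : ℕ}

/-- a minuscule weight `ω = w / d` at the node `m` -/
structure Minu (D : SLD n) where
  m : Fin n
  d : ℤ
  w : Fin n → ℤ
  hd : 0 < d
  hw : ∀ k, D.B w (D.al k).1 = if k = m then d else 0
  hB : D.B w w < 2 * d ^ 2

/-- the weights, minus `ω` -/
abbrev Minu.Om {D : SLD n} (M : Minu D) := {b : Fin n → ℤ // D.B b b + 2 * b M.m = 0}

end Pool.Agent.MTX
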