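import Pool.Agent.MTX.L15

/-! # MTX, Part L : definitions : the form for `E_6` -/

namespace Pool.Agent.MTX

/-- `E_6`: the form `tr ρ_27(X_1)...ρ_27(X_5)` -/
noncomputable def SLD.FE6 : Frm SLD.E6 where
  k := 5
  c := SLD.ME6.tf 5
  inv := SLD.ME6.tf_inv 5
  out := SLD.out_E6

end Pool.Agent.MTX
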