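import Pool.Agent.MTX.L14
import Pool.Agent.MTX.L15a

/-! # MTX, Part L : the set of weights of a minuscule representation is finite -/

namespace Pool.Agent.MTX

open Matrix

open Pool.Agent.MTD (ev ev_add ev_sub ev_neg ev_smul ev_zero ev_add_left ev_sub_left ev_neg_left
  ev_smul_left ev_zero_left ev_sum_left ev_sum ev_map ev_comm)

variable {n : ℕ}

namespace Minu

variable {D : SLD n} (M : Minu D)

/-- `B(w, y) = d y_m` (`B_coord`) -/
theorem B_w (y : Fin n → ℤ) : D.B M.w y = M.d * y M.m := by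
  have h1 : ∀ k, ∑ j, M.w j * D.C j k = if k = M.m then M.d else 0 := fun k => by
    rw [← D.B_single_right, ← M.hw k]
    rfl
  have h2 : D.B M.w y = ∑ k, (∑ j, M.w j * D.C j k) * y k := by
    simp only [SLD.B, bil, Finset.sum_mul]
    exact Finset.sum_comm
  rw [h2, Finset.sum_congr rfl fun k _ => by rw [h1 k]]
  simp

/-- `ν = w + d b` has `B(ν, ν) = B(w, w)` for `b ∈ Ω` -/
theorem B_nu (b : M.Om) : D.B (M.w + M.d • b.1) (M.w + M.d • b.1) = D.B M.w M.w := by
  rw [D.B_add_left, D.B_add_right, D.B_add_right, D.B_smul_left, D.B_smul_left, D.B_smul_right,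
    D.B_smul_right, D.B_comm b.1 M.w, M.B_w b.1]
  linear_combination M.d ^ 2 * b.2

/-- `Ω` is finite: `b ↦ w + d b` is injective into the vectors of square `B(w, w)`, and a positive
definite integral form takes a given value only finitely often (proof as for `Finite D.Rt` in
`R0.lean`: `B_adj`, `B_sq_le` bound the coordinates). -/
theorem finite_Om : Finite M.Om := by
  have hc : 0 ≤ D.B M.w M.w := D.B_nonneg _
  obtain ⟨N, hN⟩ : ∃ N : ℤ, ∀ i, D.B M.w M.w * D.B (D.C.adjugate.mulVec (Pi.single i 1))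
      (D.C.adjugate.mulVec (Pi.single i 1)) ≤ N := by
    obtain ⟨N, hN⟩ := Set.Finite.bddAbove (Set.finite_range fun i : Fin n =>
      D.B M.w M.w * D.B (D.C.adjugate.mulVec (Pi.single i 1))
        (D.C.adjugate.mulVec (Pi.single i 1)))
    exact ⟨N, fun i => hN ⟨i, rfl⟩⟩
  have key : ∀ x : Fin n → ℤ, D.B x x = D.B M.w M.w → ∀ i, |x i| ≤ N := by
    intro x hx i
    have h1 := D.B_sq_le x (D.C.adjugate.mulVec (Pi.single i 1))
    rw [D.B_adj, hx] at h1
    have h2 := hN i
    have h3 : 1 ≤ D.C.det ^ 2 := by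
      have := D.det_ne
      have : 0 < D.C.det ^ 2 := by positivity
      omega
    have h4 : (x i) ^ 2 ≤ N := by
      nlinarith [sq_nonneg (x i)]
    have h5 : |x i| ≤ (x i) ^ 2 := by
      rw [← sq_abs]
      nlinarith [abs_nonneg (x i), Int.one_le_abs (z := x i), sq_nonneg (|x i|),
        show |x i| = 0 ∨ 1 ≤ |x i| by have := abs_nonneg (x i); omega]
    omega
  have hfin : Finite (Set.Icc (fun _ : Fin n => -N) (fun _ : Fin n => N)) :=
    (Set.finite_Icc (fun _ => -N) (fun _ : Fin n => N)).to_subtype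
  refine Finite.of_injective (β := Set.Icc (fun _ : Fin n => -N) (fun _ : Fin n => N))
    (fun b : M.Om => ⟨M.w + M.d • b.1, fun i => (abs_le.1 (key _ (M.B_nu b) i)).1,
      fun i => (abs_le.1 (key _ (M.B_nu b) i)).2⟩) ?_
  intro b b' h
  have h1 : M.w + M.d • b.1 = M.w + M.d • b'.1 := congrArg Subtype.val h
  have h2 : M.d • b.1 = M.d • b'.1 := add_left_cancel h1
  refine Subtype.ext (funext fun i => ?_)
  have h3 := congrFun h2 i
  simp only [Pi.smul_apply, smul_eq_mul] at h3
  exact mul_left_cancel₀ M.hd.ne' h3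

end Minu

end Pool.Agent.MTX
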