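import Pool.Agent.MTX.L0a

/-! # MTX, Part L : definitions : the invariant form -/

namespace Pool.Agent.MTX

open Matrix

namespace SLD

variable {n : ℕ} (D : SLD n)

/-- `C` over `ℂ` -/
def Cc : Matrix (Fin n) (Fin n) ℂ := D.C.map (Int.cast : ℤ → ℂ)

/-- `C⁻¹` over `ℂ` -/
noncomputable def Ci : Matrix (Fin n) (Fin n) ℂ := D.Cc⁻¹

/-- the matrix of the invariant form -/
noncomputable def kp : D.BI → D.BI → ℂ
  | Sum.inl k, Sum.inl l => D.Ci k l
  | Sum.inr γ, Sum.inr δ => if γ.1 + δ.1 = 0 then -1 else 0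
  | _, _ => 0

section

variable {R : Type*} [CommRing R] [Algebra ℂ R]

/-- the invariant form -/
noncomputable def ka (X Y : D.BI → R) : R := ∑ a, ∑ c, algebraMap ℂ R (D.kp a c) * (X a * Y c)

end

end SLD

end Pool.Agent.MTX
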