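import Pool.Agent.MTX.L1
import Pool.Agent.MTX.L2a

/-! # MTX, Part L : the invariant form (row L2)

`D.ka X Y` : the invariant form, `ka (tt x) (tt y) = xᵀ C⁻¹ y`, `ka e_γ e_{-γ} = -1`. -/

namespace Pool.Agent.MTX

open Matrix

open Pool.Agent.MTD (ev ev_add ev_sub ev_neg ev_smul ev_zero ev_add_left ev_sub_left ev_neg_left
  ev_smul_left ev_zero_left ev_sum_left ev_sum ev_map ev_comm)

namespace SLD

variable {n : ℕ} (D : SLD n)

theorem Cc_det : IsUnit D.Cc.det := by
  have h : D.Cc.det = (D.C.det : ℂ) := by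
    have := (Int.castRingHom ℂ).map_det D.C
    simpa [Cc] using this.symm
  rw [h, isUnit_iff_ne_zero]
  exact_mod_cast D.det_ne

theorem Ci_mul : D.Ci * D.Cc = 1 := Matrix.nonsing_inv_mul _ D.Cc_det

theorem mul_Ci : D.Cc * D.Ci = 1 := Matrix.mul_nonsing_inv _ D.Cc_det

theorem Ci_symm (k l : Fin n) : D.Ci k l = D.Ci l k := by
  have h1 : D.Ccᵀ = D.Cc := by
    ext i j
    simp [Cc, D.symm j i]
  have h2 : D.Ciᵀ = D.Ci := by
    rw [Ci, Matrix.transpose_nonsing_inv, h1]
  have h3 := congrFun (congrFun h2 l) k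
  simpa [Matrix.transpose_apply] using h3

theorem kp_symm (a c : D.BI) : D.kp a c = D.kp c a := by
  rcases a with k | γ <;> rcases c with l | δ
  · exact D.Ci_symm k l
  · rfl
  · rfl
  · simp only [kp, add_comm]

/-- only opposite weights pair nontrivially -/
theorem kp_wt {a c : D.BI} (h : D.kp a c ≠ 0) : D.wI a + D.wI c = 0 := by
  rcases a with k | γ <;> rcases c with l | δ
  · simp
  · exact absurd rfl h
  · exact absurd rfl h
  · simp only [kp] at h
    split_ifs at h with h1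
    · exact h1
    · exact absurd rfl h

section

variable {R : Type*} [CommRing R] [Algebra ℂ R]

theorem ka_comm (X Y : D.BI → R) : D.ka X Y = D.ka Y X := by
  unfold ka
  rw [Finset.sum_comm]
  exact Finset.sum_congr rfl fun a _ => Finset.sum_congr rfl fun c _ => by rw [D.kp_symm]; ring

theorem ka_add_left (X X' Y : D.BI → R) : D.ka (X + X') Y = D.ka X Y + D.ka X' Y := by
  simp only [ka, Pi.add_apply, ← Finset.sum_add_distrib]
  exact Finset.sum_congr rfl fun a _ => Finset.sum_congr rfl fun c _ => by ring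

theorem ka_smul_left (r : R) (X Y : D.BI → R) : D.ka (r • X) Y = r * D.ka X Y := by
  simp only [ka, Pi.smul_apply, smul_eq_mul, Finset.mul_sum]
  exact Finset.sum_congr rfl fun a _ => Finset.sum_congr rfl fun c _ => by ring

theorem ka_add_right (X Y Y' : D.BI → R) : D.ka X (Y + Y') = D.ka X Y + D.ka X Y' := by
  rw [ka_comm, ka_add_left, ka_comm D Y, ka_comm D Y']

theorem ka_smul_right (r : R) (X Y : D.BI → R) : D.ka X (r • Y) = r * D.ka X Y := by
  rw [ka_comm, ka_smul_left, ka_comm]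

theorem ka_neg_left (X Y : D.BI → R) : D.ka (-X) Y = - D.ka X Y := by
  have := D.ka_smul_left (-1) X Y
  simpa using this

theorem ka_neg_right (X Y : D.BI → R) : D.ka X (-Y) = - D.ka X Y := by
  rw [ka_comm, ka_neg_left, ka_comm]

theorem ka_sub_left (X X' Y : D.BI → R) : D.ka (X - X') Y = D.ka X Y - D.ka X' Y := by
  rw [sub_eq_add_neg, ka_add_left, ka_neg_left, ← sub_eq_add_neg]

theorem ka_sub_right (X Y Y' : D.BI → R) : D.ka X (Y - Y') = D.ka X Y - D.ka X Y' := by
  rw [sub_eq_add_neg, ka_add_right, ka_neg_right, ← sub_eq_add_neg]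

theorem ka_zero_left (Y : D.BI → R) : D.ka 0 Y = 0 := by simp [ka]

theorem ka_zero_right (X : D.BI → R) : D.ka X 0 = 0 := by simp [ka]

theorem ka_sum_left {κ : Type*} (s : Finset κ) (f : κ → D.BI → R) (Y : D.BI → R) :
    D.ka (∑ i ∈ s, f i) Y = ∑ i ∈ s, D.ka (f i) Y := by
  classical
  induction s using Finset.induction_on with
  | empty => simp [ka_zero_left]
  | insert a s ha ih => rw [Finset.sum_insert ha, Finset.sum_insert ha, ka_add_left, ih]

theorem ka_map {S : Type*} [CommRing S] [Algebra ℂ S] (φ : R →ₐ[ℂ] S) (X Y : D.BI → R) :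
    φ (D.ka X Y) = D.ka (fun a => φ (X a)) fun a => φ (Y a) := by
  simp [ka]

/-- basis values -/
theorem ka_single (a c : D.BI) :
    D.ka (Pi.single a (1 : R)) (Pi.single c 1) = algebraMap ℂ R (D.kp a c) := by
  unfold ka
  rw [Finset.sum_eq_single a, Finset.sum_eq_single c]
  · simp
  · intro b _ hb; simp [hb]
  · intro h; exact absurd (Finset.mem_univ c) h
  · intro b _ hb; simp [hb]
  · intro h; exact absurd (Finset.mem_univ a) h

/-- `ka (tt x) (tt (hv y)) = y(x)`.
Proof: unfold `ka` (`Fintype.sum_sum_type`, only the `inl, inl` terms remain):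
`∑_k ∑_l Ci k l * x k * B(al l, y)`, and `B(al l, y) = ∑_j C l j * y j` (`B_single_right` and
`B_comm`, `symm`), so the sum is `∑_k x k * (Ci * Cc * y)_k = ∑_k x k * y k` (`Ci_mul`). -/
theorem ka_tt_hv (x : Fin n → R) (y : Fin n → ℤ) : D.ka (D.tt x) (D.tt (D.hv R y)) = ev y x := by
  have key : ∀ k, ∑ l, D.Ci k l * (D.B (D.al l).1 y : ℂ) = (y k : ℂ) := by
    intro k
    have h1 : ∀ l, (D.B (D.al l).1 y : ℂ) = ∑ i, D.Cc l i * (y i : ℂ) := by
      intro l
      rw [D.B_comm, D.B_coord]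
      push_cast
      refine Finset.sum_congr rfl fun i _ => ?_
      rw [D.B_al_al, Cc, Matrix.map_apply, D.symm i l]
      ring
    have h2 : (D.Ci * D.Cc) *ᵥ (fun i => (y i : ℂ)) = fun i => (y i : ℂ) := by
      rw [D.Ci_mul, Matrix.one_mulVec]
    have h3 := congrFun h2 k
    rw [← Matrix.mulVec_mulVec] at h3
    rw [← h3]
    simp only [Matrix.mulVec, dotProduct]
    exact Finset.sum_congr rfl fun l _ => by rw [h1 l]
  unfold ka
  rw [Fintype.sum_sum_type]
  simp only [Fintype.sum_sum_type, tt_inl, tt_inr, mul_zero, zero_mul, Finset.sum_const_zero,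
    add_zero, kp]
  unfold ev
  refine Finset.sum_congr rfl fun k _ => ?_
  have h4 : ((y k : ℤ) : R) = algebraMap ℂ R (y k : ℂ) := by simp
  rw [h4, ← key k, map_sum, Finset.sum_mul]
  refine Finset.sum_congr rfl fun l _ => ?_
  rw [map_mul, map_intCast]
  simp only [hv]
  ring

theorem ka_tt_er (x : Fin n → R) (y : Fin n → ℤ) : D.ka (D.tt x) (D.er R y) = 0 := by
  unfold ka
  rw [Fintype.sum_sum_type]
  simp [Fintype.sum_sum_type, kp]

/-- `ka e_γ e_δ = -1` if `δ = -γ`, otherwise `0` -/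
theorem ka_er_er (γ δ : D.Rt) :
    D.ka (D.er R γ.1) (D.er R δ.1) = if γ.1 + δ.1 = 0 then -1 else 0 := by
  rw [er_root, er_root, ka_single]
  simp only [kp]
  split_ifs <;> simp

/-- `ka e_γ Y = - Y_{-γ}`.  (unfold, one term) -/
theorem ka_er_left (γ : D.Rt) (Y : D.BI → R) : D.ka (D.er R γ.1) Y = - Y (Sum.inr (D.ng γ)) := by
  rw [er_root]
  unfold ka
  rw [Finset.sum_eq_single (Sum.inr γ), Finset.sum_eq_single (Sum.inr (D.ng γ))]
  · have h : γ.1 + (D.ng γ).1 = 0 := by rw [D.ng_val]; exact add_neg_cancel _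
    simp only [kp, if_pos h, Pi.single_eq_same, one_mul, map_neg, map_one, neg_mul]
  · intro b _ hb
    rcases b with k | δ
    · simp [kp]
    · have h : ¬ (γ.1 + δ.1 = 0) := by
        intro h
        apply hb
        congr 1
        apply D.Rt_ext
        rw [D.ng_val, eq_neg_iff_add_eq_zero, add_comm]
        exact h
      simp only [kp, if_neg h, map_zero, zero_mul]
  · intro h; exact absurd (Finset.mem_univ _) h
  · intro b _ hb
    refine Finset.sum_eq_zero fun c _ => ?_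
    rw [Pi.single_eq_of_ne hb, zero_mul, mul_zero]
  · intro h; exact absurd (Finset.mem_univ _) h

/-- Nondegeneracy: `Y_{-γ} = - ka e_γ Y` (`ka_er_left`), and for the Cartan part use
`ka_tt_hv` with `hv (al l)`: `ka Y (tt (hv (al l))) = α_l(ct Y) = Y (inl l)` (`vec_eq`,
`ka_tt_er`). -/
theorem ka_nondeg (X : D.BI → R) (h : ∀ Y, D.ka X Y = 0) : X = 0 := by
  have hr : ∀ γ : D.Rt, X (Sum.inr γ) = 0 := by
    intro γ
    have h1 := D.ka_er_left (D.ng γ) X
    rw [D.ng_ng, D.ka_comm, h] at h1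
    exact neg_eq_zero.mp h1.symm
  have hX : X = D.tt (D.ct X) := by
    conv_lhs => rw [D.vec_eq X]
    rw [Finset.sum_eq_zero (fun γ _ => by rw [hr γ, zero_smul]), add_zero]
  funext a
  rcases a with l | γ
  · have h2 := h (D.tt (D.hv R (D.al l).1))
    rw [hX, D.ka_tt_hv] at h2
    have h3 : ev (D.al l).1 (D.ct X) = X (Sum.inl l) := by
      unfold ev
      rw [D.al_val, Finset.sum_eq_single l]
      · simp
      · intro b _ hb
        rw [Pi.single_eq_of_ne hb]
        simp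
      · intro h; exact absurd (Finset.mem_univ _) h
    rw [← h3]
    exact h2
  · exact hr γ

omit [Algebra ℂ R] in
theorem l2b_comm1 {ι : Type*} [Fintype ι] (F : ι → ι → ι → ι → R) :
    ∑ e, ∑ d, ∑ a, ∑ c, F e d a c = ∑ a, ∑ c, ∑ d, ∑ e, F e d a c := by
  calc ∑ e, ∑ d, ∑ a, ∑ c, F e d a c = ∑ e, ∑ a, ∑ d, ∑ c, F e d a c :=
        Finset.sum_congr rfl fun e _ => Finset.sum_comm
    _ = ∑ a, ∑ e, ∑ d, ∑ c, F e d a c := Finset.sum_comm
    _ = ∑ a, ∑ e, ∑ c, ∑ d, F e d a c :=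
        Finset.sum_congr rfl fun a _ => Finset.sum_congr rfl fun e _ => Finset.sum_comm
    _ = ∑ a, ∑ c, ∑ e, ∑ d, F e d a c :=
        Finset.sum_congr rfl fun a _ => Finset.sum_comm
    _ = ∑ a, ∑ c, ∑ d, ∑ e, F e d a c :=
        Finset.sum_congr rfl fun a _ => Finset.sum_congr rfl fun c _ => Finset.sum_comm

omit [Algebra ℂ R] in
theorem l2b_comm2 {ι : Type*} [Fintype ι] (F : ι → ι → ι → ι → R) :
    ∑ c, ∑ e, ∑ a, ∑ d, F c e a d = ∑ a, ∑ c, ∑ d, ∑ e, F c e a d := by
  calc ∑ c, ∑ e, ∑ a, ∑ d, F c e a d = ∑ c, ∑ a, ∑ e, ∑ d, F c e a d :=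
        Finset.sum_congr rfl fun c _ => Finset.sum_comm
    _ = ∑ a, ∑ c, ∑ e, ∑ d, F c e a d := Finset.sum_comm
    _ = ∑ a, ∑ c, ∑ d, ∑ e, F c e a d :=
        Finset.sum_congr rfl fun a _ => Finset.sum_congr rfl fun c _ => Finset.sum_comm

theorem l2b_Ci_B (k : Fin n) (y : Fin n → ℤ) :
    ∑ l, (D.B (D.al l).1 y : ℂ) * D.Ci k l = (y k : ℂ) := by
  have h1 : ∀ l, (D.B (D.al l).1 y : ℂ) = ∑ j, D.Cc l j * (y j : ℂ) := by
    intro l
    have h2 : D.B (D.al l).1 y = ∑ j, D.C l j * y j := by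
      rw [D.B_comm, D.B_coord]
      refine Finset.sum_congr rfl fun j _ => ?_
      rw [D.B_al_al, D.symm j l]
      ring
    rw [h2]
    push_cast
    rfl
  have h3 : ∑ l, (D.B (D.al l).1 y : ℂ) * D.Ci k l = ∑ j, (D.Ci * D.Cc) k j * (y j : ℂ) := by
    simp only [h1, Matrix.mul_apply, Finset.sum_mul]
    rw [Finset.sum_comm]
    exact Finset.sum_congr rfl fun j _ => Finset.sum_congr rfl fun l _ => by ring
  rw [h3, D.Ci_mul]
  rw [Finset.sum_eq_single k]
  · rw [Matrix.one_apply_eq, one_mul]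
  · intro j _ hj
    rw [Matrix.one_apply_ne (Ne.symm hj), zero_mul]
  · intro h
    exact absurd (Finset.mem_univ k) h

theorem l2b_kp_ll (k l : Fin n) : D.kp (Sum.inl k) (Sum.inl l) = D.Ci k l := rfl

theorem l2b_kp_lr (k : Fin n) (γ : D.Rt) : D.kp (Sum.inl k) (Sum.inr γ) = 0 := rfl

theorem l2b_kp_rl (γ : D.Rt) (k : Fin n) : D.kp (Sum.inr γ) (Sum.inl k) = 0 := rfl

theorem l2b_kp_rr (γ δ : D.Rt) :
    D.kp (Sum.inr γ) (Sum.inr δ) = if γ.1 + δ.1 = 0 then -1 else 0 := rfl

/-- `∑_μ st (inl k) (inr γ) (inr μ) * f μ = γ_k * f γ` -/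
theorem l2b_s1 (k : Fin n) (γ : D.Rt) (f : D.Rt → ℂ) :
    ∑ μ, (D.st (Sum.inl k) (Sum.inr γ) (Sum.inr μ) : ℂ) * f μ = (γ.1 k : ℂ) * f γ := by
  rw [Finset.sum_eq_single γ]
  · rw [D.st_lrr, if_pos rfl]
  · intro μ _ hμ
    rw [D.st_lrr, if_neg (Ne.symm hμ)]
    simp
  · intro h
    exact absurd (Finset.mem_univ γ) h

theorem l2b_s2 (k : Fin n) (γ : D.Rt) (f : D.Rt → ℂ) :
    ∑ μ, (D.st (Sum.inr γ) (Sum.inl k) (Sum.inr μ) : ℂ) * f μ = -(γ.1 k : ℂ) * f γ := by
  rw [Finset.sum_eq_single γ]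
  · rw [D.st_rlr, if_pos rfl]
    push_cast
    rfl
  · intro μ _ hμ
    rw [D.st_rlr, if_neg (Ne.symm hμ)]
    simp
  · intro h
    exact absurd (Finset.mem_univ γ) h

/-- `∑_l st (inr γ) (inr δ) (inl l) * Ci k l = - γ_k` if `γ + δ = 0` -/
theorem l2b_s3 (k : Fin n) (γ δ : D.Rt) :
    ∑ l, (D.st (Sum.inr γ) (Sum.inr δ) (Sum.inl l) : ℂ) * D.Ci k l =
      if γ.1 + δ.1 = 0 then -(γ.1 k : ℂ) else 0 := by
  by_cases h : γ.1 + δ.1 = 0
  · rw [if_pos h, ← D.l2b_Ci_B k γ.1, ← Finset.sum_neg_distrib]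
    refine Finset.sum_congr rfl fun l _ => ?_
    rw [D.st_rrl, if_pos h]
    push_cast
    ring
  · rw [if_neg h]
    refine Finset.sum_eq_zero fun l _ => ?_
    rw [D.st_rrl, if_neg h]
    simp

/-- `∑_ν st (inr γ) (inr δ) (inr ν) * kp (inr ν) (inr μ) = - eps γ δ` if `γ + δ + μ = 0` -/
theorem l2b_s4 (γ δ μ : D.Rt) :
    ∑ ν, (D.st (Sum.inr γ) (Sum.inr δ) (Sum.inr ν) : ℂ) * D.kp (Sum.inr ν) (Sum.inr μ) =
      if γ.1 + δ.1 + μ.1 = 0 then -(D.eps γ.1 δ.1 : ℂ) else 0 := by
  by_cases h : γ.1 + δ.1 + μ.1 = 0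
  · rw [if_pos h, Finset.sum_eq_single (D.ng μ)]
    · have h1 : γ.1 + δ.1 = (D.ng μ).1 := by
        rw [D.ng_val]
        exact eq_neg_of_add_eq_zero_left h
      rw [D.st_rrr, if_pos h1, l2b_kp_rr, if_pos]
      · ring
      · rw [D.ng_val]
        exact neg_add_cancel _
    · intro ν _ hν
      rw [D.st_rrr, l2b_kp_rr]
      by_cases h1 : ν.1 + μ.1 = 0
      · exfalso
        apply hν
        apply D.Rt_ext
        rw [D.ng_val]
        exact eq_neg_of_add_eq_zero_left h1
      · rw [if_neg h1, mul_zero]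
    · intro h'
      exact absurd (Finset.mem_univ _) h'
  · rw [if_neg h]
    refine Finset.sum_eq_zero fun ν _ => ?_
    rw [D.st_rrr, l2b_kp_rr]
    by_cases h1 : γ.1 + δ.1 = ν.1
    · rw [← h1, if_neg h, mul_zero]
    · rw [if_neg h1]
      simp

/-- Invariance on basis vectors, in `ℂ`: for all `a, c, d`
`ka [b_a, b_c] b_d + ka b_c [b_a, b_d] = 0`.
Cases: `a = inl k`: by `st_wt` the left side is `(wI c + wI d) k * kp c d = 0` (`kp_wt`).
`a = inr γ`: if `γ + wI c + wI d ≠ 0` both terms vanish (`st_wt`, `kp_wt`).  Otherwise: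
`c = inl k, d = inr (-γ)`: `[e_γ, b_k] = -γ_k e_γ` pairs with `e_{-γ}` to `γ_k`, and
`ka b_k [e_γ, e_{-γ}] = - ka (tt (single k 1)) (tt (hv γ)) = - γ_k`; `c = inr (-γ), d = inl k`:
the same by symmetry; `c = inr δ`, `d = inr μ` with `γ + δ + μ = 0` (then `B γ δ = B γ μ = -1`, as
`μ.2 : B (γ+δ) (γ+δ) = 2`): the left side is
`-(eps γ δ) - (eps γ μ)`, `eps γ μ = eps γ (-γ-δ) = eps γ γ * eps γ δ = - eps γ δ`;
`c = inl, d = inl`: excluded as `γ ≠ 0`. -/
theorem kp_inv (a c d : D.BI) :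
    ∑ e, (D.st a c e : ℂ) * D.kp e d + ∑ e, (D.st a d e : ℂ) * D.kp c e = 0 := by
  have hz : ∀ x : D.BI → ℂ, (∀ e, x e = 0) → ∑ e, x e = 0 :=
    fun x hx => Finset.sum_eq_zero fun e _ => hx e
  rcases a with k | γ
  · rcases c with l | δ
    · rcases d with m | μ
      · rw [hz, hz, add_zero]
        · intro e; rw [D.st_ll]; simp
        · intro e; rw [D.st_ll]; simp
      · rw [hz, hz, add_zero]
        · intro e
          rcases e with e | e
          · rw [D.st_lrl]; simp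
          · rw [l2b_kp_lr, mul_zero]
        · intro e; rw [D.st_ll]; simp
    · rcases d with m | μ
      · rw [hz, hz, add_zero]
        · intro e; rw [D.st_ll]; simp
        · intro e
          rcases e with e | e
          · rw [D.st_lrl]; simp
          · rw [l2b_kp_rl, mul_zero]
      · rw [Fintype.sum_sum_type, Fintype.sum_sum_type, D.l2b_s1 k δ, D.l2b_s1 k μ,
          Finset.sum_eq_zero, Finset.sum_eq_zero]
        · rw [l2b_kp_rr]
          by_cases h : δ.1 + μ.1 = 0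
          · rw [if_pos h]
            have h1 : (δ.1 k : ℂ) + (μ.1 k : ℂ) = 0 := by
              have := congrFun h k
              simp only [Pi.add_apply, Pi.zero_apply] at this
              exact_mod_cast this
            linear_combination -h1
          · rw [if_neg h]
            ring
        · intro e _; rw [D.st_lrl]; simp
        · intro e _; rw [D.st_lrl]; simp
  · rcases c with l | δ
    · rcases d with m | μ
      · rw [hz, hz, add_zero]
        · intro e
          rcases e with e | e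
          · rw [D.st_rll]; simp
          · rw [l2b_kp_lr, mul_zero]
        · intro e
          rcases e with e | e
          · rw [D.st_rll]; simp
          · rw [l2b_kp_rl, mul_zero]
      · rw [Fintype.sum_sum_type, Fintype.sum_sum_type, D.l2b_s2 l γ]
        simp only [l2b_kp_ll, l2b_kp_lr, mul_zero, Finset.sum_const_zero, add_zero]
        rw [D.l2b_s3 l γ μ, l2b_kp_rr]
        by_cases h : γ.1 + μ.1 = 0
        · rw [if_pos h, if_pos h]
          ring
        · rw [if_neg h, if_neg h]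
          ring
    · rcases d with m | μ
      · rw [Fintype.sum_sum_type, Fintype.sum_sum_type, D.l2b_s2 m γ]
        simp only [l2b_kp_ll, l2b_kp_rl, mul_zero, Finset.sum_const_zero, add_zero]
        have h0 : ∑ e, (D.st (Sum.inr γ) (Sum.inr δ) (Sum.inl e) : ℂ) * D.Ci e m =
            ∑ e, (D.st (Sum.inr γ) (Sum.inr δ) (Sum.inl e) : ℂ) * D.Ci m e :=
          Finset.sum_congr rfl fun e _ => by rw [D.Ci_symm e m]
        rw [h0, D.l2b_s3 m γ δ, zero_add, l2b_kp_rr, add_comm δ.1 γ.1]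
        by_cases h : γ.1 + δ.1 = 0
        · rw [if_pos h, if_pos h]
          ring
        · rw [if_neg h, if_neg h]
          ring
      · rw [Fintype.sum_sum_type, Fintype.sum_sum_type]
        simp only [l2b_kp_lr, l2b_kp_rl, mul_zero, Finset.sum_const_zero, zero_add]
        have h0 : ∑ e, (D.st (Sum.inr γ) (Sum.inr μ) (Sum.inr e) : ℂ) *
              D.kp (Sum.inr δ) (Sum.inr e) =
            ∑ e, (D.st (Sum.inr γ) (Sum.inr μ) (Sum.inr e) : ℂ) *
              D.kp (Sum.inr e) (Sum.inr δ) :=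
          Finset.sum_congr rfl fun e _ => by rw [D.kp_symm]
        rw [h0, D.l2b_s4 γ δ μ, D.l2b_s4 γ μ δ]
        have h1 : γ.1 + μ.1 + δ.1 = γ.1 + δ.1 + μ.1 := by abel
        rw [h1]
        by_cases h : γ.1 + δ.1 + μ.1 = 0
        · rw [if_pos h, if_pos h]
          have h2 : μ.1 = -(γ.1 + δ.1) := eq_neg_of_add_eq_zero_right h
          have h3 : D.eps γ.1 μ.1 = - D.eps γ.1 δ.1 := by
            rw [h2, D.eps_neg_right, D.eps_add_right, D.eps_self]
            ring
          rw [h3]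
          push_cast
          ring
        · rw [if_neg h, if_neg h, add_zero]

/-- Invariance; trilinear extension of `kp_inv` (expand `ka`, `br_apply`, exchange the sums). -/
theorem ka_br (Z X Y : D.BI → R) : D.ka (D.br Z X) Y = - D.ka X (D.br Z Y) := by
  have hL : D.ka (D.br Z X) Y = ∑ a, ∑ c, ∑ d, Z a * X c * Y d *
      algebraMap ℂ R (∑ e, (D.st a c e : ℂ) * D.kp e d) := by
    unfold ka
    simp only [br_apply, Finset.sum_mul, Finset.mul_sum, map_sum, map_mul, map_intCast]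
    rw [l2b_comm1]
    exact Finset.sum_congr rfl fun a _ => Finset.sum_congr rfl fun c _ =>
      Finset.sum_congr rfl fun d _ => Finset.sum_congr rfl fun e _ => by ring
  have hR : D.ka X (D.br Z Y) = ∑ a, ∑ c, ∑ d, Z a * X c * Y d *
      algebraMap ℂ R (∑ e, (D.st a d e : ℂ) * D.kp c e) := by
    unfold ka
    simp only [br_apply, Finset.mul_sum, map_sum, map_mul, map_intCast]
    rw [l2b_comm2]
    exact Finset.sum_congr rfl fun a _ => Finset.sum_congr rfl fun c _ =>
      Finset.sum_congr rfl fun d _ => Finset.sum_congr rfl fun e _ => by ring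
  rw [eq_neg_iff_add_eq_zero, hL, hR, ← Finset.sum_add_distrib]
  refine Finset.sum_eq_zero fun a _ => ?_
  rw [← Finset.sum_add_distrib]
  refine Finset.sum_eq_zero fun c _ => ?_
  rw [← Finset.sum_add_distrib]
  refine Finset.sum_eq_zero fun d _ => ?_
  rw [← mul_add, ← map_add, D.kp_inv a c d, map_zero, mul_zero]

end

end SLD

end Pool.Agent.MTX
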