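import Pool.Agent.MTX.L3

/-! # MTX, Part L : exponentials (row L4) -/

namespace Pool.Agent.MTX

open Matrix

open Pool.Agent.MTD (ev ev_add ev_sub ev_neg ev_smul ev_zero ev_add_left ev_sub_left ev_neg_left
  ev_smul_left ev_zero_left ev_sum_left ev_sum ev_map ev_comm)

open Pool.Agent.MP_c45d35_ag (chi chi_add chi_mul chi_zero chi_one chi_inv chi_map)

variable {n : ℕ}

namespace SLD

variable (D : SLD n)

section

variable {R : Type*} [CommRing R]

theorem l4_pow_rel (A : Matrix D.BI D.BI R) (e : D.BI → ℕ) (h : ∀ a c, A a c ≠ 0 → e a < e c)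
    (k : ℕ) : ∀ a c, (A ^ k) a c ≠ 0 → e a + k ≤ e c := by
  induction k with
  | zero =>
    intro a c hac
    rw [pow_zero] at hac
    have : a = c := by
      by_contra hne
      exact hac (Matrix.one_apply_ne hne)
    subst this
    simp
  | succ k ih =>
    intro a c hac
    rw [pow_succ, Matrix.mul_apply] at hac
    obtain ⟨b, -, hb⟩ := Finset.exists_ne_zero_of_sum_ne_zero hac
    have h1 : (A ^ k) a b ≠ 0 := fun h' => hb (by rw [h', zero_mul])
    have h2 : A b c ≠ 0 := fun h' => hb (by rw [h', mul_zero])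
    have h3 := ih a b h1
    have h4 := h b c h2
    omega

/-- A matrix that raises the height is nilpotent: by induction on `k`, `(A ^ k) a c ≠ 0` implies
`(eN a : ℕ) + k ≤ eN c` (`lt_of_hI`), and `eN c < N`. -/
theorem pow_up (A : Matrix D.BI D.BI R) (h : ∀ a c, A a c ≠ 0 → D.hI c < D.hI a) :
    A ^ D.N = 0 := by
  ext a c
  by_contra hne
  have h1 := D.l4_pow_rel A (fun a => (D.eN a : ℕ)) (fun a c hac => D.lt_of_hI (h a c hac)) D.N a c
    hne
  have h2 := (D.eN c).isLt
  omega

/-- The same for matrices lowering the height (transpose of `pow_up`, or the same proof). -/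
theorem pow_down (A : Matrix D.BI D.BI R) (h : ∀ a c, A a c ≠ 0 → D.hI a < D.hI c) :
    A ^ D.N = 0 := by
  ext a c
  by_contra hne
  have h1 := D.l4_pow_rel A (fun a => D.N - (D.eN a : ℕ)) (fun a c hac => by
    have h3 : (D.eN c : ℕ) < D.eN a := D.lt_of_hI (h a c hac)
    have h4 := (D.eN a).isLt
    omega) D.N a c hne
  have h2 := (D.eN a).isLt
  omega

/-- `ad X` raises the height if `X` has only components of positive height (`st_ht`). -/
theorem ad_up {X : D.BI → R} (hX : ∀ a, X a ≠ 0 → 0 < D.hI a) (a c : D.BI)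
    (h : D.ad X a c ≠ 0) : D.hI c < D.hI a := by
  rw [ad_apply] at h
  obtain ⟨b, -, hb⟩ := Finset.exists_ne_zero_of_sum_ne_zero h
  have h1 : X b ≠ 0 := fun h' => hb (by rw [h', zero_mul])
  have h2 : D.st b c a ≠ 0 := fun h' => hb (by rw [h', Int.cast_zero, mul_zero])
  have := D.st_ht h2
  have := hX b h1
  omega

theorem ad_down {X : D.BI → R} (hX : ∀ a, X a ≠ 0 → D.hI a < 0) (a c : D.BI)
    (h : D.ad X a c ≠ 0) : D.hI a < D.hI c := by
  rw [ad_apply] at h
  obtain ⟨b, -, hb⟩ := Finset.exists_ne_zero_of_sum_ne_zero h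
  have h1 : X b ≠ 0 := fun h' => hb (by rw [h', zero_mul])
  have h2 : D.st b c a ≠ 0 := fun h' => hb (by rw [h', Int.cast_zero, mul_zero])
  have := D.st_ht h2
  have := hX b h1
  omega

end

section

variable {R : Type*} [CommRing R] [Algebra ℂ R]

/-- truncated exponential -/
noncomputable def expB (A : Matrix D.BI D.BI R) : Matrix D.BI D.BI R :=
  ∑ k ∈ Finset.range D.N, (algebraMap ℂ R (1 / (k.factorial : ℂ))) • A ^ k

/-- the one-parameter family `exp(sA)` over `R[s]` -/
noncomputable def gs (A : Matrix D.BI D.BI R) : Matrix D.BI D.BI (Polynomial R) :=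
  ∑ k ∈ Finset.range D.N, (Polynomial.C (algebraMap ℂ R (1 / (k.factorial : ℂ))) *
    Polynomial.X ^ k) • (A ^ k).map Polynomial.C

theorem N_pos : 0 < D.N := by
  unfold N
  exact Fintype.card_pos_iff.2 ⟨Sum.inl ⟨0, D.npos⟩⟩

theorem l4_gs_apply (A : Matrix D.BI D.BI R) (a c : D.BI) :
    D.gs A a c = ∑ k ∈ Finset.range D.N, Polynomial.C (algebraMap ℂ R (1 / (k.factorial : ℂ))) *
      Polynomial.X ^ k * Polynomial.C ((A ^ k) a c) := by
  unfold gs
  rw [Matrix.sum_apply]
  rfl

/-- `exp(0) = 1`: only the term `k = 0` (`N_pos`) -/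
theorem gs_zero (A : Matrix D.BI D.BI R) : (D.gs A).map (Polynomial.eval 0) = 1 := by
  ext a c
  rw [Matrix.map_apply, D.l4_gs_apply, Polynomial.eval_finsetSum]
  rw [Finset.sum_eq_single_of_mem 0 (Finset.mem_range.2 D.N_pos)]
  · simp
  · intro k _ hk
    simp [hk]

theorem gs_one (A : Matrix D.BI D.BI R) : (D.gs A).map (Polynomial.eval 1) = D.expB A := by
  ext a c
  rw [Matrix.map_apply, D.l4_gs_apply, Polynomial.eval_finsetSum, expB, Matrix.sum_apply]
  refine Finset.sum_congr rfl fun k _ => ?_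
  simp

/-- `(exp(sA))' = A exp(sA)` if `A ^ N = 0`.
Entrywise: derivative of `s^k/k! (A^k)_{ac}` is `s^(k-1)/(k-1)! (A A^(k-1))_{ac}`; shift the sum
(`Finset.sum_range_succ'`); the missing top term is `s^(N-1)/(N-1)! A^N = 0`. -/
theorem gs_deriv (A : Matrix D.BI D.BI R) (hA : A ^ D.N = 0) (a c : D.BI) :
    Polynomial.derivative (D.gs A a c) = (A.map Polynomial.C * D.gs A) a c := by
  have hN : D.N = (D.N - 1) + 1 := by have := D.N_pos; omega
  have hR : (A.map Polynomial.C * D.gs A) a c =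
      ∑ k ∈ Finset.range D.N, Polynomial.C (algebraMap ℂ R (1 / (k.factorial : ℂ))) *
        Polynomial.X ^ k * Polynomial.C ((A ^ (k + 1)) a c) := by
    rw [Matrix.mul_apply]
    simp only [D.l4_gs_apply, Matrix.map_apply, Finset.mul_sum]
    rw [Finset.sum_comm]
    refine Finset.sum_congr rfl fun k _ => ?_
    rw [pow_succ' A k, Matrix.mul_apply, map_sum, Finset.mul_sum]
    refine Finset.sum_congr rfl fun b _ => ?_
    rw [Polynomial.C_mul]
    ring
  have hL : Polynomial.derivative (D.gs A a c) =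
      ∑ k ∈ Finset.range D.N, Polynomial.C (algebraMap ℂ R (1 / (k.factorial : ℂ)) * (k : R)) *
        Polynomial.X ^ (k - 1) * Polynomial.C ((A ^ k) a c) := by
    rw [D.l4_gs_apply, map_sum]
    refine Finset.sum_congr rfl fun k _ => ?_
    rw [Polynomial.derivative_mul, Polynomial.derivative_C, mul_zero, add_zero,
      Polynomial.derivative_C_mul_X_pow]
  rw [hR, hL, hN, Finset.sum_range_succ', Finset.sum_range_succ, ← hN, hA]
  simp only [Nat.cast_zero, mul_zero, map_zero, zero_mul, add_zero, Matrix.zero_apply]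
  refine Finset.sum_congr rfl fun k _ => ?_
  have hc : algebraMap ℂ R (1 / ((k + 1).factorial : ℂ)) * ((k + 1 : ℕ) : R) =
      algebraMap ℂ R (1 / (k.factorial : ℂ)) := by
    have h1 : ((k + 1 : ℕ) : R) = algebraMap ℂ R ((k + 1 : ℕ) : ℂ) := by
      rw [map_natCast]
    rw [h1, ← map_mul]
    congr 1
    have h2 : ((k + 1 : ℕ) : ℂ) ≠ 0 := Nat.cast_ne_zero.2 (Nat.succ_ne_zero k)
    have h3 : (k.factorial : ℂ) ≠ 0 := Nat.cast_ne_zero.2 (Nat.factorial_ne_zero k)
    rw [Nat.factorial_succ, Nat.cast_mul]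
    field_simp
  rw [hc, Nat.add_sub_cancel]

theorem l4_cancel (k : ℕ) (x : R) (h : x * ((k : R) + 1) = 0) : x = 0 := by
  have h1 : ((k : R) + 1) * algebraMap ℂ R (1 / ((k : ℂ) + 1)) = 1 := by
    have h2 : ((k : R) + 1) = algebraMap ℂ R ((k : ℂ) + 1) := by
      rw [map_add, map_natCast, map_one]
    rw [h2, ← map_mul]
    have h3 : ((k : ℂ) + 1) ≠ 0 := Nat.cast_add_one_ne_zero k
    rw [mul_one_div_cancel h3, map_one]
  calc x = x * (((k : R) + 1) * algebraMap ℂ R (1 / ((k : ℂ) + 1))) := by rw [h1, mul_one]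
    _ = (x * ((k : R) + 1)) * algebraMap ℂ R (1 / ((k : ℂ) + 1)) := by ring
    _ = 0 := by rw [h, zero_mul]

/-- Uniqueness for linear differential equations: `p' = A p`, `p(0) = 0` imply `p = 0`.
The coefficients satisfy `(k+1) p_{k+1} = A p_k` (`Polynomial.coeff_derivative`), and `k+1` is
invertible in the `ℂ`-algebra `R`. -/
theorem ode (A : Matrix D.BI D.BI R) (p : D.BI → Polynomial R)
    (h : ∀ a, Polynomial.derivative (p a) = ((A.map Polynomial.C) *ᵥ p) a)
    (h0 : ∀ a, (p a).eval 0 = 0) : p = 0 := by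
  have key : ∀ k : ℕ, ∀ a, (p a).coeff k = 0 := by
    intro k
    induction k with
    | zero =>
      intro a
      rw [Polynomial.coeff_zero_eq_eval_zero]
      exact h0 a
    | succ k ih =>
      intro a
      have h1 := congrArg (fun q => Polynomial.coeff q k) (h a)
      simp only [Polynomial.coeff_derivative, Matrix.mulVec, dotProduct, Matrix.map_apply,
        Polynomial.finsetSum_coeff, Polynomial.coeff_C_mul, ih, mul_zero,
        Finset.sum_const_zero] at h1
      exact l4_cancel k _ h1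
  funext a
  ext k
  rw [key k a]
  simp

/-- a polynomial with derivative `0` is constant -/
theorem eval_of_deriv (q : Polynomial R) (h : Polynomial.derivative q = 0) :
    q.eval 1 = q.eval 0 := by
  have key : q = Polynomial.C (q.coeff 0) := by
    ext k
    cases k with
    | zero => simp
    | succ k =>
      have h1 := congrArg (fun q => Polynomial.coeff q k) h
      simp only [Polynomial.coeff_derivative, Polynomial.coeff_zero] at h1
      rw [l4_cancel k _ h1, Polynomial.coeff_C_succ]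
  rw [key]
  simp

/-- the derivative of a bracket (`br_apply`, `Polynomial.derivative_mul`) -/
theorem deriv_br (U V : D.BI → Polynomial R) (d : D.BI) :
    Polynomial.derivative (D.br U V d) =
      D.br (fun a => Polynomial.derivative (U a)) V d +
        D.br U (fun a => Polynomial.derivative (V a)) d := by
  rw [br_apply, br_apply, br_apply, Polynomial.derivative_sum, ← Finset.sum_add_distrib]
  refine Finset.sum_congr rfl fun a _ => ?_
  rw [Polynomial.derivative_sum, ← Finset.sum_add_distrib]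
  refine Finset.sum_congr rfl fun c _ => ?_
  rw [Polynomial.derivative_mul, Polynomial.derivative_mul, Polynomial.derivative_intCast]
  ring

theorem deriv_ka (U V : D.BI → Polynomial R) :
    Polynomial.derivative (D.ka U V) =
      D.ka (fun a => Polynomial.derivative (U a)) V +
        D.ka U (fun a => Polynomial.derivative (V a)) := by
  unfold ka
  rw [Polynomial.derivative_sum, ← Finset.sum_add_distrib]
  refine Finset.sum_congr rfl fun a _ => ?_
  rw [Polynomial.derivative_sum, ← Finset.sum_add_distrib]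
  refine Finset.sum_congr rfl fun c _ => ?_
  rw [Polynomial.algebraMap_apply, Polynomial.derivative_mul, Polynomial.derivative_mul,
    Polynomial.derivative_C]
  ring

/-- `Polynomial.derivative_prod` -/
theorem deriv_val (F : Frm D) (U : Fin F.k → D.BI → Polynomial R) :
    Polynomial.derivative (F.val U) =
      ∑ j, F.val (Function.update U j fun a => Polynomial.derivative (U j a)) := by
  classical
  have h1 : ∀ (i : Fin F.k → D.BI) (j : Fin F.k),
      ∏ j', Function.update U j (fun a => Polynomial.derivative (U j a)) j' (i j') =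
        (∏ j' ∈ Finset.univ.erase j, U j' (i j')) * Polynomial.derivative (U j (i j)) := by
    intro i j
    rw [← Finset.mul_prod_erase Finset.univ _ (Finset.mem_univ j), Function.update_self, mul_comm]
    congr 1
    refine Finset.prod_congr rfl fun j' hj' => ?_
    rw [Function.update_of_ne (Finset.ne_of_mem_erase hj')]
  unfold Frm.val
  rw [Polynomial.derivative_sum, Finset.sum_comm]
  refine Finset.sum_congr rfl fun i _ => ?_
  rw [Polynomial.algebraMap_apply, Polynomial.derivative_C_mul, Polynomial.derivative_prod_finset,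
    Finset.mul_sum]
  refine Finset.sum_congr rfl fun j _ => ?_
  rw [h1]

/-- evaluation as an algebra homomorphism over `ℂ` -/
private noncomputable def l4dEv (r : R) : Polynomial R →ₐ[ℂ] R :=
  (Polynomial.aeval r).restrictScalars ℂ

private theorem l4dEv_apply (r : R) (p : Polynomial R) : l4dEv r p = p.eval r := by
  change Polynomial.aeval r p = p.eval r
  rw [Polynomial.coe_aeval_eq_eval]

private theorem l4d_deriv (A : Matrix D.BI D.BI R) (hA : A ^ D.N = 0) (X₀ : D.BI → R) (a : D.BI) :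
    Polynomial.derivative ((D.gs A *ᵥ fun a => Polynomial.C (X₀ a)) a) =
      ((A.map Polynomial.C) *ᵥ (D.gs A *ᵥ fun a => Polynomial.C (X₀ a))) a := by
  rw [Matrix.mulVec_mulVec]
  simp only [Matrix.mulVec, dotProduct]
  rw [Polynomial.derivative_sum]
  refine Finset.sum_congr rfl fun c _ => ?_
  rw [Polynomial.derivative_mul, Polynomial.derivative_C, mul_zero, add_zero, D.gs_deriv A hA]

private theorem l4d_eval (A : Matrix D.BI D.BI R) (X₀ : D.BI → R) (r : R) (a : D.BI) :
    ((D.gs A *ᵥ fun a => Polynomial.C (X₀ a)) a).eval r =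
      (((D.gs A).map (Polynomial.eval r)) *ᵥ X₀) a := by
  simp only [Matrix.mulVec, dotProduct, Matrix.map_apply]
  rw [Polynomial.eval_finsetSum]
  refine Finset.sum_congr rfl fun c _ => ?_
  rw [Polynomial.eval_mul, Polynomial.eval_C]

private theorem l4d_eval0 (A : Matrix D.BI D.BI R) (X₀ : D.BI → R) (a : D.BI) :
    ((D.gs A *ᵥ fun a => Polynomial.C (X₀ a)) a).eval 0 = X₀ a := by
  rw [D.l4d_eval, D.gs_zero, Matrix.one_mulVec]

private theorem l4d_eval1 (A : Matrix D.BI D.BI R) (X₀ : D.BI → R) (a : D.BI) :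
    ((D.gs A *ᵥ fun a => Polynomial.C (X₀ a)) a).eval 1 = (D.expB A *ᵥ X₀) a := by
  rw [D.l4d_eval, D.gs_one]

private theorem l4d_deriv_br (X : D.BI → R) (hX : D.ad X ^ D.N = 0) (X₀ : D.BI → R) :
    (fun a => Polynomial.derivative ((D.gs (D.ad X) *ᵥ fun a => Polynomial.C (X₀ a)) a)) =
      D.br (fun a => Polynomial.C (X a)) (D.gs (D.ad X) *ᵥ fun a => Polynomial.C (X₀ a)) := by
  funext a
  rw [D.l4d_deriv (D.ad X) hX, D.br_def, D.ad_map Polynomial.C X]

/-- `exp(ad X)` preserves the bracket if `ad X` is nilpotent.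
`X₀, Y₀` fixed; `U = gs *ᵥ C X₀`, `V = gs *ᵥ C Y₀`, `p = gs *ᵥ C [X₀,Y₀] - [U,V]` over `R[s]`.
`U' = [X,U]`, `V' = [X,V]` (`gs_deriv`, the constant vector `C X` has `ad (C X) = (ad X).map C`:
`ad_map`), so `p' = [X, gs *ᵥ C [X₀,Y₀]] - [[X,U],V] - [U,[X,V]] = [X, p]` (`deriv_br`, `br_br`), and
`p(0) = 0` (`gs_zero`, `br_map` with `Polynomial.evalRingHom 0`); `ode` gives `p = 0`; evaluate at `1`
(`gs_one`). -/
theorem exp_br (X : D.BI → R) (hX : D.ad X ^ D.N = 0) (X₀ Y₀ : D.BI → R) :
    D.expB (D.ad X) *ᵥ D.br X₀ Y₀ =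
      D.br (D.expB (D.ad X) *ᵥ X₀) (D.expB (D.ad X) *ᵥ Y₀) := by
  set W : D.BI → Polynomial R := D.gs (D.ad X) *ᵥ fun a => Polynomial.C (D.br X₀ Y₀ a) with hW
  set U : D.BI → Polynomial R := D.gs (D.ad X) *ᵥ fun a => Polynomial.C (X₀ a) with hU
  set V : D.BI → Polynomial R := D.gs (D.ad X) *ᵥ fun a => Polynomial.C (Y₀ a) with hV
  have hW' := D.l4d_deriv_br X hX (D.br X₀ Y₀)
  have hU' := D.l4d_deriv_br X hX X₀
  have hV' := D.l4d_deriv_br X hX Y₀
  rw [← hW] at hW'
  rw [← hU] at hU'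
  rw [← hV] at hV'
  have hp : W - D.br U V = 0 := by
    refine D.ode (D.ad X) _ (fun a => ?_) (fun a => ?_)
    · rw [Pi.sub_apply, Polynomial.derivative_sub, D.deriv_br, hU', hV']
      have h1 : Polynomial.derivative (W a) = D.br (fun a => Polynomial.C (X a)) W a :=
        congrFun hW' a
      rw [h1, D.ad_map Polynomial.C X, ← D.br_def, D.br_sub_right,
        D.br_br (fun a => Polynomial.C (X a)) U V, Pi.sub_apply, Pi.add_apply]
    · have h1 : (D.br U V a).eval 0 = D.br X₀ Y₀ a := by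
        have h2 := D.br_map (Polynomial.evalRingHom (0 : R)) U V a
        simp only [Polynomial.coe_evalRingHom] at h2
        rw [h2]
        congr 1
        · funext b
          exact D.l4d_eval0 (D.ad X) X₀ b
        · funext b
          exact D.l4d_eval0 (D.ad X) Y₀ b
      rw [Pi.sub_apply, Polynomial.eval_sub, h1, hW, D.l4d_eval0, sub_self]
  funext a
  have h3 := congrFun (sub_eq_zero.1 hp) a
  have h4 := congrArg (Polynomial.eval (1 : R)) h3
  have h5 := D.br_map (Polynomial.evalRingHom (1 : R)) U V a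
  simp only [Polynomial.coe_evalRingHom] at h5
  rw [h5, hW, D.l4d_eval1] at h4
  rw [h4]
  congr 1
  · funext b
    exact D.l4d_eval1 (D.ad X) X₀ b
  · funext b
    exact D.l4d_eval1 (D.ad X) Y₀ b

/-- `q = ka U V` (notation of `exp_br`): `q' = ka [X,U] V + ka U [X,V] = 0` (`ka_br`);
`eval_of_deriv`. -/
theorem exp_ka (X : D.BI → R) (hX : D.ad X ^ D.N = 0) (X₀ Y₀ : D.BI → R) :
    D.ka (D.expB (D.ad X) *ᵥ X₀) (D.expB (D.ad X) *ᵥ Y₀) = D.ka X₀ Y₀ := by
  set U : D.BI → Polynomial R := D.gs (D.ad X) *ᵥ fun a => Polynomial.C (X₀ a) with hU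
  set V : D.BI → Polynomial R := D.gs (D.ad X) *ᵥ fun a => Polynomial.C (Y₀ a) with hV
  have hU' := D.l4d_deriv_br X hX X₀
  have hV' := D.l4d_deriv_br X hX Y₀
  rw [← hU] at hU'
  rw [← hV] at hV'
  have hq : Polynomial.derivative (D.ka U V) = 0 := by
    rw [D.deriv_ka, hU', hV', D.ka_br, neg_add_cancel]
  have h1 := eval_of_deriv (D.ka U V) hq
  rw [← l4dEv_apply, ← l4dEv_apply, D.ka_map, D.ka_map] at h1
  have e1 : (fun a => l4dEv (1 : R) (U a)) = D.expB (D.ad X) *ᵥ X₀ := by
    funext a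
    rw [l4dEv_apply, hU, D.l4d_eval1]
  have e2 : (fun a => l4dEv (1 : R) (V a)) = D.expB (D.ad X) *ᵥ Y₀ := by
    funext a
    rw [l4dEv_apply, hV, D.l4d_eval1]
  have e3 : (fun a => l4dEv (0 : R) (U a)) = X₀ := by
    funext a
    rw [l4dEv_apply, hU, D.l4d_eval0]
  have e4 : (fun a => l4dEv (0 : R) (V a)) = Y₀ := by
    funext a
    rw [l4dEv_apply, hV, D.l4d_eval0]
  rw [e1, e2, e3, e4] at h1
  exact h1

/-- the same with `deriv_val`, `Frm.val_inv` -/
theorem exp_val (F : Frm D) (X : D.BI → R) (hX : D.ad X ^ D.N = 0)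
    (X₀ : Fin F.k → D.BI → R) :
    F.val (fun j => D.expB (D.ad X) *ᵥ X₀ j) = F.val X₀ := by
  set U : Fin F.k → D.BI → Polynomial R :=
    fun j => D.gs (D.ad X) *ᵥ fun a => Polynomial.C (X₀ j a) with hU
  have hU' : ∀ j, (fun a => Polynomial.derivative (U j a)) =
      D.br (fun a => Polynomial.C (X a)) (U j) := fun j => D.l4d_deriv_br X hX (X₀ j)
  have hq : Polynomial.derivative (F.val U) = 0 := by
    rw [D.deriv_val F U]
    have h0 : ∀ j, F.val (Function.update U j fun a => Polynomial.derivative (U j a)) =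
        F.val (Function.update U j (D.br (fun a => Polynomial.C (X a)) (U j))) := by
      intro j
      rw [hU' j]
    rw [Finset.sum_congr rfl fun j _ => h0 j]
    exact F.val_inv (fun a => Polynomial.C (X a)) U
  have h1 := eval_of_deriv (F.val U) hq
  rw [← l4dEv_apply, ← l4dEv_apply, F.val_map, F.val_map] at h1
  have e1 : (fun j a => l4dEv (1 : R) (U j a)) = fun j => D.expB (D.ad X) *ᵥ X₀ j := by
    funext j a
    rw [l4dEv_apply]
    exact D.l4d_eval1 (D.ad X) (X₀ j) a
  have e3 : (fun j a => l4dEv (0 : R) (U j a)) = X₀ := by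
    funext j a
    rw [l4dEv_apply]
    exact D.l4d_eval0 (D.ad X) (X₀ j) a
  rw [e1, e3] at h1
  exact h1

/-- The exponential of a height raising matrix is upper unitriangular for the order `eN`: reindex to
`Fin N` (`Matrix.det_submatrix_equiv_self`, `Matrix.det_of_isUpperTriangular`), the diagonal entries
are `1` since `(A ^ k) a a = 0` for `k ≥ 1`. -/
theorem det_expB_up (A : Matrix D.BI D.BI R) (h : ∀ a c, A a c ≠ 0 → D.hI c < D.hI a) :
    (D.expB A).det = 1 := by
  have h1 := D.l4_pow_rel A (fun a => (D.eN a : ℕ)) (fun a c hac => D.lt_of_hI (h a c hac))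
  have hlow : ∀ a c, D.eN c < D.eN a → D.expB A a c = 0 := by
    intro a c hac
    rw [expB, Matrix.sum_apply]
    refine Finset.sum_eq_zero fun k _ => ?_
    have : (A ^ k) a c = 0 := by
      by_contra hne
      have h2 := h1 k a c hne
      have h3 : (D.eN c : ℕ) < D.eN a := hac
      omega
    rw [Matrix.smul_apply, this, smul_zero]
  have hdiag : ∀ a, D.expB A a a = 1 := by
    intro a
    rw [expB, Matrix.sum_apply, Finset.sum_eq_single_of_mem 0 (Finset.mem_range.2 D.N_pos)]
    · simp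
    · intro k _ hk
      have : (A ^ k) a a = 0 := by
        by_contra hne
        have h2 := h1 k a a hne
        omega
      rw [Matrix.smul_apply, this, smul_zero]
  rw [← Matrix.det_submatrix_equiv_self D.eN.symm (D.expB A), Matrix.det_of_isUpperTriangular]
  · refine Finset.prod_eq_one fun i _ => ?_
    rw [Matrix.submatrix_apply]
    exact hdiag _
  · intro i j hij
    rw [Matrix.submatrix_apply]
    refine hlow _ _ ?_
    simpa using hij

/-- transpose of `det_expB_up` -/
theorem det_expB_down (A : Matrix D.BI D.BI R) (h : ∀ a c, A a c ≠ 0 → D.hI a < D.hI c) :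
    (D.expB A).det = 1 := by
  have h1 : (D.expB A)ᵀ = D.expB Aᵀ := by
    unfold expB
    rw [Matrix.transpose_sum]
    refine Finset.sum_congr rfl fun k _ => ?_
    rw [Matrix.transpose_smul, Matrix.transpose_pow]
  rw [← Matrix.det_transpose, h1]
  exact D.det_expB_up Aᵀ fun a c hac => h c a hac

theorem isGp_exp_up (F : Frm D) {X : D.BI → R} (hX : ∀ a, X a ≠ 0 → 0 < D.hI a) :
    IsGp F (D.expB (D.ad X)) := by
  have h1 := D.ad_up hX
  have h2 := D.pow_up (D.ad X) h1
  exact ⟨D.exp_br X h2, D.exp_ka X h2, D.exp_val F X h2, D.det_expB_up _ h1⟩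

theorem isGp_exp_down (F : Frm D) {X : D.BI → R} (hX : ∀ a, X a ≠ 0 → D.hI a < 0) :
    IsGp F (D.expB (D.ad X)) := by
  have h1 := D.ad_down hX
  have h2 := D.pow_down (D.ad X) h1
  exact ⟨D.exp_br X h2, D.exp_ka X h2, D.exp_val F X h2, D.det_expB_down _ h1⟩

theorem l4e_card : 2 < D.N := by
  unfold N
  rw [Fintype.two_lt_card_iff]
  refine ⟨Sum.inl ⟨0, D.npos⟩, Sum.inr (D.al ⟨0, D.npos⟩), Sum.inr (D.ng (D.al ⟨0, D.npos⟩)),
    by simp, by simp, ?_⟩
  intro h
  have h1 := congrArg (fun a : D.BI => D.wI a ⟨0, D.npos⟩) h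
  simp only [wI_inr, ng_val, al_val, Pi.neg_apply, Pi.single_eq_same] at h1
  omega

theorem l4e_mulVec (A : Matrix D.BI D.BI R) (v : D.BI → R) :
    D.expB A *ᵥ v = ∑ k ∈ Finset.range D.N,
      algebraMap ℂ R (1 / (k.factorial : ℂ)) • (A ^ k *ᵥ v) := by
  unfold expB
  rw [Matrix.sum_mulVec]
  exact Finset.sum_congr rfl fun k _ => Matrix.smul_mulVec _ _ _

theorem l4e_mulVec_low (A : Matrix D.BI D.BI R) (v : D.BI → R) {m : ℕ} (hm : m ≤ D.N)
    (h : A ^ m *ᵥ v = 0) : D.expB A *ᵥ v = ∑ k ∈ Finset.range m,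
      algebraMap ℂ R (1 / (k.factorial : ℂ)) • (A ^ k *ᵥ v) := by
  rw [l4e_mulVec]
  symm
  refine Finset.sum_subset (Finset.range_mono hm) fun k _ hk => ?_
  have h1 : m ≤ k := by
    rw [Finset.mem_range] at hk
    omega
  obtain ⟨j, rfl⟩ := Nat.exists_eq_add_of_le h1
  rw [add_comm m j, pow_add, ← Matrix.mulVec_mulVec, h, Matrix.mulVec_zero, smul_zero]

/-- `exp(r ad e_γ)` is in the group, for every root `γ` (positive or negative: `pos_or_neg`,
`pos_iff_ht`; `ad_smul`) -/
theorem isGp_exp_root (F : Frm D) (γ : D.Rt) (r : R) :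
    IsGp F (D.expB (r • D.ad (D.er R γ.1))) := by
  rw [← D.ad_smul]
  have h0 : ∀ a, (r • D.er R γ.1) a ≠ 0 → D.hI a = ht γ.1 := by
    intro a ha
    rcases a with k | δ
    · exact absurd (by simp) ha
    · rw [Pi.smul_apply, er_inr] at ha
      split_ifs at ha with h1
      · rw [hI_inr, h1]
      · exact absurd (by simp) ha
  rcases D.pos_or_neg γ with h | h
  · refine D.isGp_exp_up F fun a ha => ?_
    rw [h0 a ha]
    exact (D.pos_iff_ht γ).1 h
  · refine D.isGp_exp_down F fun a ha => ?_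
    rw [h0 a ha]
    have := (D.pos_iff_ht _).1 h
    rw [ng_val, ht_neg] at this
    omega

/-- `exp(-A) exp(A) = 1` if `A ^ N = 0`.  Over `R[s]` put `H = gs (-A) * gs A`; every entry of `H` has
derivative `0` (`gs_deriv` for `A` and `-A`; `A.map C` commutes with `gs (-A)`), so
`H(1) = H(0) = 1` (`eval_of_deriv`, `gs_zero`, `gs_one`). -/
theorem expB_neg_mul (A : Matrix D.BI D.BI R) (hA : A ^ D.N = 0) :
    D.expB (-A) * D.expB A = 1 := by
  let _ : Algebra ℚ R := ((algebraMap ℂ R).comp (algebraMap ℚ ℂ)).toAlgebra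
  have key : ∀ M : Matrix D.BI D.BI R, M ^ D.N = 0 → D.expB M = IsNilpotent.exp M := by
    intro M hM
    rw [IsNilpotent.exp_eq_sum hM]
    unfold expB
    refine Finset.sum_congr rfl fun k _ => ?_
    rw [← algebraMap_smul R ((k.factorial : ℚ)⁻¹) (M ^ k)]
    congr 1
    change algebraMap ℂ R (1 / (k.factorial : ℂ)) =
      algebraMap ℂ R (algebraMap ℚ ℂ ((k.factorial : ℚ)⁻¹))
    congr 1
    simp
  have hA' : (-A) ^ D.N = 0 := by
    rw [neg_pow, hA, mul_zero]
  rw [key A hA, key (-A) hA']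
  exact IsNilpotent.exp_neg_mul_exp_self ⟨D.N, hA⟩

/-- `exp(A) *ᵥ v = v + A v` if `A (A v) = 0` (needs `2 ≤ N`: at least `b_0, e_{α_0}, e_{-α_0}`) -/
theorem expB_mulVec_two (A : Matrix D.BI D.BI R) (v : D.BI → R) (h : A *ᵥ (A *ᵥ v) = 0) :
    D.expB A *ᵥ v = v + A *ᵥ v := by
  have h2 : A ^ 2 *ᵥ v = 0 := by
    rw [pow_two, ← Matrix.mulVec_mulVec]
    exact h
  rw [D.l4e_mulVec_low A v D.l4e_card.le h2, Finset.sum_range_succ, Finset.sum_range_one]
  simp

/-- `exp(A) *ᵥ v = v + A v + (1/2) A (A v)` if `A (A (A v)) = 0` (`3 ≤ N`) -/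
theorem expB_mulVec_three (A : Matrix D.BI D.BI R) (v : D.BI → R)
    (h : A *ᵥ (A *ᵥ (A *ᵥ v)) = 0) :
    D.expB A *ᵥ v = v + A *ᵥ v + algebraMap ℂ R (1 / 2) • (A *ᵥ (A *ᵥ v)) := by
  have h2 : A ^ 3 *ᵥ v = 0 := by
    rw [pow_succ, pow_two, ← Matrix.mulVec_mulVec, ← Matrix.mulVec_mulVec]
    exact h
  rw [D.l4e_mulVec_low A v D.l4e_card h2, Finset.sum_range_succ, Finset.sum_range_succ,
    Finset.sum_range_one, pow_two A, ← Matrix.mulVec_mulVec]
  simp

/-- base change -/
theorem expB_map {S : Type*} [CommRing S] [Algebra ℂ S] (φ : R →ₐ[ℂ] S)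
    (A : Matrix D.BI D.BI R) : (D.expB A).map φ = D.expB (A.map φ) := by
  have hpow : ∀ k : ℕ, (A ^ k).map φ = (A.map φ) ^ k := by
    intro k
    exact map_pow (φ.toRingHom.mapMatrix) A k
  unfold expB
  ext i j
  rw [Matrix.map_apply, Matrix.sum_apply, Matrix.sum_apply, map_sum]
  refine Finset.sum_congr rfl fun k _ => ?_
  rw [Matrix.smul_apply, Matrix.smul_apply, ← hpow k, Matrix.map_apply, smul_eq_mul, smul_eq_mul,
    map_mul, AlgHom.commutes]

end

end SLD

end Pool.Agent.MTX
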