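import Pool.Agent.MTX.L4

/-! # MTX, Part L : upper triangular elements of the group (row L5) -/

namespace Pool.Agent.MTX

open Matrix

open Pool.Agent.MTD (ev ev_add ev_sub ev_neg ev_smul ev_zero ev_add_left ev_sub_left ev_neg_left
  ev_smul_left ev_zero_left ev_sum_left ev_sum ev_map ev_comm)

open Pool.Agent.MP_c45d35_ag (chi chi_add chi_mul chi_zero chi_one chi_inv chi_map)

variable {n : ℕ}

namespace SLD

variable (D : SLD n)

/-- a root has nonzero height (`pos_or_neg`, `ht_pos`) -/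
theorem ht_ne (γ : D.Rt) : ht γ.1 ≠ 0 := by
  rcases D.pos_or_neg γ with h | h
  · have := D.ht_pos h; omega
  · have := D.ht_pos h
    rw [ng_val, ht_neg] at this
    omega

theorem hI_eq_zero {a : D.BI} (h : D.hI a = 0) : ∃ k, a = Sum.inl k := by
  rcases a with k | γ
  · exact ⟨k, rfl⟩
  · exact absurd h (D.ht_ne γ)

section

variable {R : Type*} [CommRing R] [Algebra ℂ R]

/-- nonzero integers are units in a `ℂ`-algebra -/
theorem isUnit_int {z : ℤ} (h : z ≠ 0) : IsUnit ((z : ℤ) : R) := by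
  have h1 : IsUnit ((z : ℂ)) := isUnit_iff_ne_zero.2 (by exact_mod_cast h)
  have h2 := h1.map (algebraMap ℂ R)
  simpa using h2

/-- `ad` is injective: the `e_γ`-component of `[X, e_γ]` is `γ(ct X)`: for `γ = α_k` this gives
`X (inl k) = 0`; and the `e_γ`-component of `[X, ρ]`, `ρ = tt 1`, is `- ht γ * X_γ`
(`br_anti`, `br_tt`; `ev γ 1 = ht γ`, a unit by `ht_ne`, `isUnit_int`). -/
theorem ad_inj {X : D.BI → R} (h : D.ad X = 0) : X = 0 := by
  funext a
  rw [Pi.zero_apply]
  rcases a with k | γ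
  · have h1 : D.ad X (Sum.inr (D.al k)) (Sum.inr (D.al k)) = 0 := by rw [h]; rfl
    rw [ad_apply, Fintype.sum_sum_type] at h1
    have h2 : ∑ δ : D.Rt, X (Sum.inr δ) *
        (D.st (Sum.inr δ) (Sum.inr (D.al k)) (Sum.inr (D.al k)) : R) = 0 := by
      refine Finset.sum_eq_zero fun δ _ => ?_
      rw [st_rrr, if_neg, Int.cast_zero, mul_zero]
      intro h3
      exact D.Rt_ne_zero δ (by simpa using h3)
    rw [h2, add_zero, Finset.sum_eq_single k] at h1
    · simpa [st_lrr, al_val] using h1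
    · intro l _ hl
      simp [st_lrr, al_val, hl]
    · intro h3
      exact absurd (Finset.mem_univ k) h3
  · have h1 : D.br X (D.tt (fun _ => (1 : R))) (Sum.inr γ) = 0 := by
      rw [br_def, h, Matrix.zero_mulVec]; rfl
    rw [br_anti, Pi.neg_apply, br_tt, wI_inr, neg_eq_zero] at h1
    have h2 : ev γ.1 (fun _ => (1 : R)) = ((ht γ.1 : ℤ) : R) := by
      simp [ev, ht]
    rw [h2] at h1
    exact (isUnit_int (R := R) (D.ht_ne γ)).mul_right_eq_zero.1 h1

theorem ad_inj' {X Y : D.BI → R} (h : D.ad X = D.ad Y) : X = Y := by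
  have := D.ad_inj (X := X - Y) (by rw [ad_sub, h, sub_self])
  exact sub_eq_zero.1 this

end

end SLD

namespace IsGp

variable {D : SLD n} {F : Frm D}

section

variable {R : Type*} [CommRing R] [Algebra ℂ R] {g : Matrix D.BI D.BI R}

/-- `g *ᵥ v` has no components of height `< h` if `v` has none (`UpT.upB`) -/
theorem mulVec_low (h : D.UpT g) {v : D.BI → R} {m : ℤ} (hv : ∀ a, D.hI a < m → v a = 0)
    (a : D.BI) (ha : D.hI a < m) : (g *ᵥ v) a = 0 := by
  rw [Matrix.mulVec, dotProduct]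
  refine Finset.sum_eq_zero fun c _ => ?_
  rcases lt_or_ge (D.hI a) (D.hI c) with h1 | h1
  · rw [h.upB D a c h1, zero_mul]
  · rw [hv c (by omega), mul_zero]

/-- The diagonal entries of an upper triangular element are units: after reindexing with `eN`, the
determinant is the product of the diagonal entries (`Matrix.det_submatrix_equiv_self`,
`Matrix.det_of_upperTriangular`), and it is `1`. -/
theorem up_isUnit (hg : IsGp F g) (h : D.UpT g) (a : D.BI) : IsUnit (g a a) := by
  have h1 : (g.submatrix D.eN.symm D.eN.symm).det = 1 := by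
    rw [Matrix.det_submatrix_equiv_self]; exact hg.det
  have h2 : (g.submatrix D.eN.symm D.eN.symm).BlockTriangular id := by
    intro i j hij
    rw [Matrix.submatrix_apply]
    apply h
    rw [Equiv.apply_symm_apply, Equiv.apply_symm_apply]
    exact hij
  rw [Matrix.det_of_upperTriangular h2] at h1
  have h3 : g.submatrix D.eN.symm D.eN.symm (D.eN a) (D.eN a) ∣ 1 := by
    rw [← h1]
    exact Finset.dvd_prod_of_mem _ (Finset.mem_univ (D.eN a))
  rw [Matrix.submatrix_apply, Equiv.symm_apply_apply] at h3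
  exact isUnit_of_dvd_one h3

/-- Key computation.  `X` has no components of height `< p`, `Y` none of height `< q`; the component
of `[X, Y]` at `d` with `hI d = p + q` only involves the components of `X` of height `p` and those of
`Y` of height `q`.  (`br_apply`, `st_ht`.) -/
theorem br_lead {X Y : D.BI → R} {p q : ℤ} (hX : ∀ a, D.hI a < p → X a = 0)
    (hY : ∀ a, D.hI a < q → Y a = 0) (d : D.BI) (hd : D.hI d = p + q) :
    D.br X Y d = ∑ a ∈ Finset.univ.filter (fun a => D.hI a = p),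
      ∑ c ∈ Finset.univ.filter (fun c => D.hI c = q), X a * Y c * (D.st a c d : R) := by
  rw [SLD.br_apply, Finset.sum_filter]
  refine Finset.sum_congr rfl fun a _ => ?_
  rw [Finset.sum_filter]
  have key : ∀ c, ¬ (D.hI a = p ∧ D.hI c = q) → X a * Y c * (D.st a c d : R) = 0 := by
    intro c hc
    by_cases hs : D.st a c d = 0
    · rw [hs, Int.cast_zero, mul_zero]
    · have h1 := D.st_ht hs
      by_cases h2 : D.hI a < p
      · rw [hX a h2, zero_mul, zero_mul]
      · have h3 : D.hI c < q := by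
          by_contra h4
          apply hc
          constructor <;> omega
        rw [hY c h3, mul_zero, zero_mul]
  by_cases ha : D.hI a = p
  · rw [if_pos ha]
    refine Finset.sum_congr rfl fun c _ => ?_
    by_cases hc : D.hI c = q
    · rw [if_pos hc]
    · rw [if_neg hc]
      exact key c fun h => hc h.2
  · rw [if_neg ha]
    refine Finset.sum_eq_zero fun c _ => key c fun h => ha h.1

/-- `g x` has Cartan part `x`, and the entries `g_{δ γ}` with `ht δ = ht γ`, `δ ≠ γ` vanish.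
For a root `γ` and `x : Fin n → R` compare the components at `inr δ`, `ht δ = ht γ`, of
`g [tt x, e_γ] = [g tt x, g e_γ]`.  Left: `γ(x) * g_{δγ}` (`br_tt_er`, `er_root`).  Right: by
`br_lead` with `p = 0`, `q = ht γ` (`mulVec_low`): the components of `g tt x` of height `0` are those at
`inl k` (`hI_eq_zero`), and `st (inl k) c (inr δ) ≠ 0` only for `c = inr δ`: so
`δ(y) * g_{δγ}` with `y = ct (g tt x)`.  Hence `(γ(x) - δ(y)) * g_{δγ} = 0`.
`δ = γ`: `g_{γγ}` is a unit (`up_isUnit`), so `γ(y) = γ(x)`; for `γ = α_k`: `y = x`. -/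
theorem up_key (hg : IsGp F g) (h : D.UpT g) (x : Fin n → R) (γ δ : D.Rt) (hd : SLD.ht δ.1 = SLD.ht γ.1) :
    (ev γ.1 x - ev δ.1 (D.ct (g *ᵥ D.tt x))) * g (Sum.inr δ) (Sum.inr γ) = 0 := by
  have key := congrFun (hg.br (D.tt x) (D.er R γ.1)) (Sum.inr δ)
  have hY : (g *ᵥ D.er R γ.1) (Sum.inr δ) = g (Sum.inr δ) (Sum.inr γ) := by
    rw [D.er_root, Matrix.mulVec_single_one]
    rfl
  have hX0 : ∀ a, D.hI a < 0 → (g *ᵥ D.tt x) a = 0 := by
    refine fun a ha => mulVec_low h (m := 0) (fun a ha => ?_) a ha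
    rcases a with k | μ
    · rw [SLD.hI_inl] at ha
      omega
    · rfl
  have hY0 : ∀ a, D.hI a < SLD.ht γ.1 → (g *ᵥ D.er R γ.1) a = 0 := by
    refine fun a ha => mulVec_low h (m := SLD.ht γ.1) (fun a ha => ?_) a ha
    rcases a with k | μ
    · rfl
    · rw [SLD.hI_inr] at ha
      rw [SLD.er_inr, if_neg]
      intro h'
      rw [h'] at ha
      omega
  have hsplit : g *ᵥ D.tt x = D.tt (D.ct (g *ᵥ D.tt x)) + (g *ᵥ D.tt x - D.tt (D.ct (g *ᵥ D.tt x))) := by
    abel
  have hrest : D.br (g *ᵥ D.tt x - D.tt (D.ct (g *ᵥ D.tt x))) (g *ᵥ D.er R γ.1) (Sum.inr δ) = 0 := by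
    rw [D.br_apply]
    refine Finset.sum_eq_zero fun a _ => Finset.sum_eq_zero fun c _ => ?_
    by_cases hst : D.st a c (Sum.inr δ) = 0
    · rw [hst, Int.cast_zero, mul_zero]
    · have h1 := D.st_ht hst
      rw [SLD.hI_inr, hd] at h1
      rcases a with k | μ
      · rw [Pi.sub_apply, SLD.tt_inl, SLD.ct_apply, sub_self, zero_mul, zero_mul]
      · rcases lt_trichotomy (D.hI (Sum.inr μ)) 0 with h2 | h2 | h2
        · rw [Pi.sub_apply, hX0 _ h2, SLD.tt_inr, sub_zero, zero_mul, zero_mul]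
        · exact absurd h2 (D.ht_ne μ)
        · rw [hY0 c (by omega), mul_zero, zero_mul]
  rw [D.br_tt_er, Matrix.mulVec_smul, Pi.smul_apply, smul_eq_mul, hY] at key
  rw [hsplit, D.br_add_left, Pi.add_apply, hrest, add_zero, D.br_tt, hY, SLD.wI_inr] at key
  rw [sub_mul, key, sub_self]

/-- from `up_key` with `δ = γ = α_k` -/
theorem up_ct (hg : IsGp F g) (h : D.UpT g) (x : Fin n → R) : D.ct (g *ᵥ D.tt x) = x := by
  have hev : ∀ (k : Fin n) (y : Fin n → R), ev (D.al k).1 y = y k := by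
    intro k y
    simp [Pool.Agent.MTD.ev, SLD.al_val, Pi.single_apply]
  funext k
  have h1 := hg.up_key h x (D.al k) (D.al k) rfl
  rw [hev, hev] at h1
  have h2 := (hg.up_isUnit h (Sum.inr (D.al k))).mul_left_eq_zero.1 h1
  exact (sub_eq_zero.1 h2).symm

/-- An upper triangular element of the group is diagonal on each height: for `a = inl k`, `c = inl l`
this is `up_ct` for `x = Pi.single l 1` (`tt_single`); for roots `δ ≠ γ` of equal height choose `k` with
`γ_k ≠ δ_k` and `x = Pi.single k 1` in `up_key` and `up_ct`: `(γ_k - δ_k) * g_{δγ} = 0` (`isUnit_int`).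
(Mixed cases: equal heights exclude them, `ht_ne`.) -/
theorem up_diag (hg : IsGp F g) (h : D.UpT g) {a c : D.BI} (hac : a ≠ c)
    (hh : D.hI a = D.hI c) : g a c = 0 := by
  have hev : ∀ (μ : Fin n → ℤ) (k : Fin n), ev μ (Pi.single k (1 : R)) = (μ k : R) := by
    intro μ k
    simp [Pool.Agent.MTD.ev, Pi.single_apply]
  rcases a with k | δ <;> rcases c with l | γ
  · have h1 := congrFun (hg.up_ct h (Pi.single l 1)) k
    rw [D.tt_single, SLD.ct_apply, Matrix.mulVec_single_one] at h1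
    have h2 : k ≠ l := fun h' => hac (by rw [h'])
    rw [Pi.single_eq_of_ne h2] at h1
    exact h1
  · rw [SLD.hI_inl, SLD.hI_inr] at hh
    exact absurd hh.symm (D.ht_ne γ)
  · rw [SLD.hI_inl, SLD.hI_inr] at hh
    exact absurd hh (D.ht_ne δ)
  · have hne : γ.1 ≠ δ.1 := fun h' => hac (by rw [Subtype.ext h'])
    obtain ⟨k, hk⟩ := Function.ne_iff.1 hne
    have h1 := hg.up_key h (Pi.single k 1) γ δ hh
    rw [hg.up_ct h, hev, hev, ← Int.cast_sub] at h1
    exact (SLD.isUnit_int (R := R) (sub_ne_zero.2 hk)).mul_right_eq_zero.1 h1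

/-- Cartan diagonal entries (`up_ct` for `x = Pi.single k 1`) -/
theorem up_one (hg : IsGp F g) (h : D.UpT g) (k : Fin n) : g (Sum.inl k) (Sum.inl k) = 1 := by
  have h1 := congrFun (hg.up_ct h (Pi.single k 1)) k
  rw [D.tt_single, SLD.ct_apply, Matrix.mulVec_single_one, Pi.single_eq_same] at h1
  exact h1

theorem l5_col (γ : D.Rt) (a : D.BI) : (g *ᵥ D.er R γ.1) a = g a (Sum.inr γ) := by
  rw [D.er_root, Matrix.mulVec_single_one]
  rfl

theorem l5_lead (hg : IsGp F g) (h : D.UpT g) (γ δ : D.Rt) (d : D.BI)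
    (hd : D.hI d = SLD.ht γ.1 + SLD.ht δ.1) :
    D.br (g *ᵥ D.er R γ.1) (g *ᵥ D.er R δ.1) d =
      g (Sum.inr γ) (Sum.inr γ) * g (Sum.inr δ) (Sum.inr δ) *
        (D.st (Sum.inr γ) (Sum.inr δ) d : R) := by
  have hlow : ∀ (μ : D.Rt) (a : D.BI), D.hI a < SLD.ht μ.1 → (g *ᵥ D.er R μ.1) a = 0 := by
    intro μ a ha
    rw [l5_col]
    exact h.upB D a (Sum.inr μ) (by rw [SLD.hI_inr]; exact ha)
  rw [br_lead (hlow γ) (hlow δ) d hd]
  rw [Finset.sum_eq_single (Sum.inr γ)]
  · rw [Finset.sum_eq_single (Sum.inr δ)]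
    · rw [l5_col, l5_col]
    · intro c hc hcd
      have h1 : D.hI c = D.hI (Sum.inr δ) := by
        rw [SLD.hI_inr]; exact (Finset.mem_filter.1 hc).2
      rw [l5_col (g := g) δ c, up_diag hg h hcd h1, mul_zero, zero_mul]
    · intro hc
      exact absurd (Finset.mem_filter.2 ⟨Finset.mem_univ (Sum.inr δ : D.BI), D.hI_inr δ⟩) hc
  · intro a ha hag
    have h1 : D.hI a = D.hI (Sum.inr γ) := by
      rw [SLD.hI_inr]; exact (Finset.mem_filter.1 ha).2
    refine Finset.sum_eq_zero fun c _ => ?_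
    rw [l5_col (g := g) γ a, up_diag hg h hag h1, zero_mul, zero_mul]
  · intro ha
    exact absurd (Finset.mem_filter.2 ⟨Finset.mem_univ (Sum.inr γ : D.BI), D.hI_inr γ⟩) ha

/-- multiplicativity of the diagonal: compare the components at `γ + δ` of
`g [e_γ, e_δ] = [g e_γ, g e_δ]` (`br_er_er`, `br_lead`, `up_diag`; `eps ≠ 0` is a unit). -/
theorem up_mul (hg : IsGp F g) (h : D.UpT g) (γ δ μ : D.Rt) (hs : γ.1 + δ.1 = μ.1) :
    g (Sum.inr μ) (Sum.inr μ) = g (Sum.inr γ) (Sum.inr γ) * g (Sum.inr δ) (Sum.inr δ) := by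
  have h0 : γ.1 + δ.1 ≠ 0 := by
    rw [hs]; exact D.Rt_ne_zero μ
  have h1 := congrFun (hg.br (D.er R γ.1) (D.er R δ.1)) (Sum.inr μ)
  rw [l5_lead hg h γ δ (Sum.inr μ) (by rw [SLD.hI_inr, ← hs, SLD.ht_add]), SLD.st_rrr,
    if_pos hs, D.br_er_er, if_neg h0, sub_zero, Matrix.mulVec_smul, Pi.smul_apply, hs, l5_col,
    smul_eq_mul] at h1
  have h2 : (D.eps γ.1 δ.1 : R) * (D.eps γ.1 δ.1 : R) = 1 := by
    have := D.eps_mul_self γ.1 δ.1
    exact_mod_cast congrArg (fun z : ℤ => (z : R)) this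
  linear_combination (D.eps γ.1 δ.1 : R) * h1 - (g (Sum.inr μ) (Sum.inr μ) -
    g (Sum.inr γ) (Sum.inr γ) * g (Sum.inr δ) (Sum.inr δ)) * h2

/-- The same for `γ + δ = 0`: the component at `inl k` of `g [e_γ, e_{-γ}] = - g tt(hv γ)` is
`- B(α_k, γ)` (`up_ct`), and that of `[g e_γ, g e_{-γ}]` is
`- g_{γγ} g_{-γ-γ} B(α_k, γ)` (`br_lead`, `up_diag`); choose `k` with `B(α_k, γ) ≠ 0`
(otherwise `γ = 0` by `B_coord`). -/
theorem up_neg (hg : IsGp F g) (h : D.UpT g) (γ : D.Rt) :
    g (Sum.inr γ) (Sum.inr γ) * g (Sum.inr (D.ng γ)) (Sum.inr (D.ng γ)) = 1 := by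
  have hz : γ.1 + (D.ng γ).1 = 0 := by rw [SLD.ng_val, add_neg_cancel]
  obtain ⟨k, hk⟩ : ∃ k : Fin n, D.B (D.al k).1 γ.1 ≠ 0 := by
    by_contra hno
    push Not at hno
    have h1 := D.B_coord γ.1 γ.1
    rw [γ.2, Finset.sum_eq_zero (fun i _ => by rw [hno i, mul_zero])] at h1
    norm_num at h1
  have h1 := congrFun (hg.br (D.er R γ.1) (D.er R (D.ng γ).1)) (Sum.inl k)
  have hht : D.hI (Sum.inl k) = SLD.ht γ.1 + SLD.ht (D.ng γ).1 := by
    rw [SLD.hI_inl, SLD.ng_val, SLD.ht_neg]; ring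
  have h3 : (g *ᵥ D.tt (D.hv R γ.1)) (Sum.inl k) = (D.B (D.al k).1 γ.1 : R) := by
    have := congrFun (up_ct hg h (D.hv R γ.1)) k
    rw [SLD.ct_apply] at this
    rw [this]
    rfl
  rw [l5_lead hg h γ (D.ng γ) (Sum.inl k) hht, SLD.st_rrl, if_pos hz, D.br_er_er, if_pos hz, hz,
    D.er_zero, smul_zero, zero_sub, Matrix.mulVec_neg, Pi.neg_apply, h3] at h1
  obtain ⟨u, hu⟩ := SLD.isUnit_int (R := R) hk
  have h4 : (u : R) * (g (Sum.inr γ) (Sum.inr γ) * g (Sum.inr (D.ng γ)) (Sum.inr (D.ng γ))) =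
      u * 1 := by
    rw [hu]
    push_cast at h1
    linear_combination h1
  exact u.isUnit.mul_left_cancel h4

/-- The diagonal of an upper triangular element is a point of the torus: `t k` = the unit
`g_{α_k α_k}`; for positive roots by `pos_induction` (`up_mul`, `chi_add`, `(subR γ (al i)) + al i = γ`),
for negative ones by `up_neg` (`chi_neg`). -/
theorem up_chi (hg : IsGp F g) (h : D.UpT g) :
    ∃ t : Fin n → Rˣ, ∀ a, g a a = ((chi (D.wI a) t : Rˣ) : R) := by
  refine ⟨fun k => (up_isUnit hg h (Sum.inr (D.al k))).unit, fun a => ?_⟩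
  set t : Fin n → Rˣ := fun k => (up_isUnit hg h (Sum.inr (D.al k))).unit with ht
  have hpos : ∀ γ : D.Rt, D.Pos γ → g (Sum.inr γ) (Sum.inr γ) = ((chi γ.1 t : Rˣ) : R) := by
    refine D.pos_induction ?_ ?_
    · intro i
      have h1 : chi (D.al i).1 t = t i := by
        rw [chi, Finset.prod_eq_single i]
        · rw [SLD.al_val, Pi.single_eq_same, zpow_one]
        · intro j _ hj
          rw [SLD.al_val, Pi.single_eq_of_ne hj, zpow_zero]
        · intro hi
          exact absurd (Finset.mem_univ i) hi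
      rw [h1, ht]
      exact (IsUnit.unit_spec _).symm
    · intro γ i hi _ _ ih
      have hs : (D.subR γ (D.al i) hi).1 + (D.al i).1 = γ.1 := sub_add_cancel _ _
      have h1 : chi (D.al i).1 t = t i := by
        rw [chi, Finset.prod_eq_single i]
        · rw [SLD.al_val, Pi.single_eq_same, zpow_one]
        · intro j _ hj
          rw [SLD.al_val, Pi.single_eq_of_ne hj, zpow_zero]
        · intro hi
          exact absurd (Finset.mem_univ i) hi
      have h2 : g (Sum.inr (D.al i)) (Sum.inr (D.al i)) = (t i : R) := by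
        rw [ht]
        exact (IsUnit.unit_spec _).symm
      rw [up_mul hg h _ _ _ hs, ih, h2, ← hs, chi_add, h1, Units.val_mul]
  rcases a with k | γ
  · rw [up_one hg h, SLD.wI_inl, chi_zero, Units.val_one]
  · rw [SLD.wI_inr]
    rcases D.pos_or_neg γ with hp | hp
    · exact hpos γ hp
    · have h1 := up_neg hg h γ
      rw [hpos _ hp, SLD.ng_val, Pool.Agent.MP_c45d35_ag.chi_neg] at h1
      calc g (Sum.inr γ) (Sum.inr γ) = g (Sum.inr γ) (Sum.inr γ) *
          (((chi γ.1 t)⁻¹ : Rˣ) : R) * ((chi γ.1 t : Rˣ) : R) := by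
            rw [mul_assoc, ← Units.val_mul, inv_mul_cancel, Units.val_one, mul_one]
        _ = _ := by rw [h1, one_mul]

/-- Conjugation of `x + z`, `z` in the span of the `e_γ`, `γ > 0`: `g (tt x + z) = tt x + z'`
(`up_ct` and `mulVec_low`: the components of height `≤ 0`, i.e. `hI a < 0` and `a = inl k`). -/
theorem up_conj (hg : IsGp F g) (h : D.UpT g) (x : Fin n → R) {z : D.BI → R}
    (hz : ∀ a, z a ≠ 0 → 0 < D.hI a) :
    ∃ z' : D.BI → R, (∀ a, z' a ≠ 0 → 0 < D.hI a) ∧ g *ᵥ (D.tt x + z) = D.tt x + z' := by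
  refine ⟨g *ᵥ (D.tt x + z) - D.tt x, fun a ha => ?_, (add_sub_cancel _ _).symm⟩
  by_contra hle
  rw [not_lt] at hle
  apply ha
  have hz1 : ∀ b, D.hI b < 1 → z b = 0 := by
    intro b hb
    by_contra hne
    have := hz b hne
    omega
  have h1 : (g *ᵥ z) a = 0 := mulVec_low h hz1 a (by omega)
  rw [Pi.sub_apply, Matrix.mulVec_add, Pi.add_apply, h1, add_zero]
  rcases lt_or_eq_of_le hle with hlt | heq
  · have h2 : ∀ b, D.hI b < 0 → D.tt x b = 0 := by
      intro b hb
      rcases b with k | γ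
      · rw [SLD.hI_inl] at hb; exact absurd hb (lt_irrefl _)
      · rfl
    rw [mulVec_low h h2 a hlt, h2 a hlt, sub_zero]
  · obtain ⟨k, rfl⟩ := D.hI_eq_zero heq
    have h2 := congrFun (up_ct hg h x) k
    rw [SLD.ct_apply] at h2
    rw [h2, SLD.tt_inl, sub_self]

end

end IsGp

end Pool.Agent.MTX
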