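import Pool.Agent.MTX.L5

/-! # MTX, Part L : the normaliser of the torus (row L6)

`D.tact u x` : the action of `u ∈ O(Q)` on the Cartan subalgebra, `y(u x) = (u⁻¹ y)(x)`. -/

namespace Pool.Agent.MTX

open Matrix

open Pool.Agent.MTD (ev ev_add ev_sub ev_neg ev_smul ev_zero ev_add_left ev_sub_left ev_neg_left
  ev_smul_left ev_zero_left ev_sum_left ev_sum ev_map ev_comm)

open Pool.Agent.MP_c45d35_ag (chi chi_add chi_mul chi_zero chi_one chi_inv chi_map)

variable {n : ℕ}

namespace SLD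

variable (D : SLD n)

section

variable {R : Type*} [CommRing R]

/-- the action of isometries on the Cartan subalgebra -/
def tact (u : D.OQ) (x : Fin n → R) : Fin n → R := fun k => ev ((u⁻¹).1 (D.al k).1) x

theorem ev_al (k : Fin n) (x : Fin n → R) : ev (D.al k).1 x = x k := by
  simp [ev, al_val, Pi.single_apply]

/-- `y(u x) = (u⁻¹ y)(x)`: both sides are additive in `y`; `eq_sum_al`. -/
theorem ev_tact (u : D.OQ) (y : Fin n → ℤ) (x : Fin n → R) :
    ev y (D.tact u x) = ev ((u⁻¹).1 y) x := by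
  have h1 : (u⁻¹).1 y = ∑ i, y i • (u⁻¹).1 (D.al i).1 := by
    conv_lhs => rw [D.eq_sum_al y]
    rw [map_sum]
    exact Finset.sum_congr rfl fun i _ => map_zsmul _ _ _
  rw [h1, ev_sum_left]
  simp only [ev_smul_left]
  rfl

theorem tact_one (x : Fin n → R) : D.tact 1 x = x := by
  funext k
  show ev ((1 : D.OQ)⁻¹.1 (D.al k).1) x = _
  rw [inv_one]
  exact D.ev_al k x

theorem tact_mul (u v : D.OQ) (x : Fin n → R) : D.tact (u * v) x = D.tact u (D.tact v x) := by
  funext k
  show ev (((u * v)⁻¹).1 (D.al k).1) x = ev ((u⁻¹).1 (D.al k).1) (D.tact v x)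
  rw [ev_tact, _root_.mul_inv_rev]
  rfl

theorem tact_add (u : D.OQ) (x y : Fin n → R) : D.tact u (x + y) = D.tact u x + D.tact u y := by
  funext k
  exact ev_add _ _ _

theorem tact_smul (u : D.OQ) (r : R) (x : Fin n → R) : D.tact u (r • x) = r • D.tact u x := by
  funext k
  exact ev_smul _ _ _

/-- the reflection `s_γ` on the Cartan subalgebra -/
theorem tact_rO (γ : D.Rt) (x : Fin n → R) :
    D.tact (D.rO γ) x = x - ev γ.1 x • D.hv R γ.1 := by
  funext k
  show ev ((D.rO γ)⁻¹.1 (D.al k).1) x = _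
  rw [rO_inv, rO_apply, rf_val, ev_sub_left, ev_smul_left, ev_al]
  simp only [hv, Pi.sub_apply, Pi.smul_apply, smul_eq_mul]
  rw [D.B_comm γ.1]
  ring

theorem tact_map {S : Type*} [CommRing S] (φ : R →+* S) (u : D.OQ) (x : Fin n → R) (k : Fin n) :
    φ (D.tact u x k) = D.tact u (fun l => φ (x l)) k := ev_map φ _ _

end

/-- distinct weights are distinct functions on `K^n` (take `x = Pi.single k 1`; characteristic 0) -/
theorem ev_inj {K : Type*} [Field K] [CharZero K] {y z : Fin n → ℤ}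
    (h : ∀ x : Fin n → K, ev y x = ev z x) : y = z := by
  funext k
  have h1 := h (Pi.single k 1)
  simpa [ev, Pi.single_apply] using h1

theorem l6_sum_perm (i : Fin n) (S : Finset D.Rt) (hS : ∀ γ, γ ∈ S ↔ D.Pos γ) :
    (D.rO (D.al i)).1 (∑ γ ∈ S, γ.1) = (∑ γ ∈ S, γ.1) - 2 • (D.al i).1 := by
  classical
  have hal : D.al i ∈ S := (hS _).2 (D.pos_al i)
  rw [← Finset.add_sum_erase S (fun γ : D.Rt => γ.1) hal, map_add, map_sum]
  have hinv : ∀ γ : D.Rt, D.rO (D.al i) • (D.rO (D.al i) • γ) = γ := by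
    intro γ
    rw [smul_smul, D.rO_sq, one_smul]
  have hneg : (D.rO (D.al i)).1 (D.al i).1 = -(D.al i).1 := by
    rw [rO_apply, rf_val, (D.al i).2, two_smul]
    abel
  have hmem : ∀ γ ∈ S.erase (D.al i), D.rO (D.al i) • γ ∈ S.erase (D.al i) := by
    intro γ hγ
    rw [Finset.mem_erase] at hγ ⊢
    refine ⟨?_, (hS _).2 (D.pos_perm ((hS _).1 hγ.2) hγ.1)⟩
    intro h
    have h1 : γ = D.ng (D.al i) := by
      have h2 := hinv γ
      rw [h] at h2
      rw [← h2]
      exact D.Rt_ext hneg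
    exact D.not_pos_ng (D.pos_al i) (h1 ▸ (hS _).1 hγ.2)
  have hsum : ∑ γ ∈ S.erase (D.al i), (D.rO (D.al i)).1 γ.1 = ∑ γ ∈ S.erase (D.al i), γ.1 := by
    refine Finset.sum_nbij' (fun γ => D.rO (D.al i) • γ) (fun γ => D.rO (D.al i) • γ) hmem hmem
      (fun γ _ => hinv γ) (fun γ _ => hinv γ) (fun γ _ => rfl)
  rw [hsum, hneg, two_smul]
  abel

/-- Positive systems are conjugate under `W`.  `Γ` a linearly ordered abelian group, `ℓ : Q → Γ`
additive and nonzero on roots.  `W` is finite (`OQ` is).  Let `2ρ = ∑_{γ > 0} γ` and choose `w ∈ W`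
with `ℓ(w 2ρ)` maximal.  `s_i 2ρ = 2ρ - 2 α_i` (`pos_perm`: `s_i` permutes the positive roots other
than `α_i`), so `ℓ(w s_i 2ρ) ≤ ℓ(w 2ρ)` gives `0 ≤ 2 ℓ(w α_i)`, hence `0 < ℓ(w α_i)`.  A positive
root is a combination of simple roots with coefficients `≥ 0`, not all `0` (`eq_sum_al`). -/
theorem exists_pos_system {Γ : Type*} [AddCommGroup Γ] [LinearOrder Γ] [IsOrderedAddMonoid Γ]
    (ℓ : (Fin n → ℤ) →+ Γ) (hℓ : ∀ γ : D.Rt, ℓ γ.1 ≠ 0) :
    ∃ w ∈ D.W, ∀ γ : D.Rt, D.Pos γ → 0 < ℓ (w.1 γ.1) := by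
  classical
  have hfin : Finite D.W := Subtype.finite
  obtain ⟨S, hS⟩ : ∃ S : Finset D.Rt, ∀ γ, γ ∈ S ↔ D.Pos γ :=
    ⟨Finset.univ.filter D.Pos, fun γ => by simp⟩
  obtain ⟨⟨w, hw⟩, hmax⟩ := Finite.exists_max (fun w : D.W => ℓ (w.1.1 (∑ γ ∈ S, γ.1)))
  refine ⟨w, hw, ?_⟩
  have hal : ∀ i, 0 < ℓ (w.1 (D.al i).1) := by
    intro i
    have h1 := hmax ⟨w * D.rO (D.al i), D.W.mul_mem hw (D.rO_mem (D.al i))⟩
    have h2 : (w * D.rO (D.al i)).1 (∑ γ ∈ S, γ.1) =
        w.1 (∑ γ ∈ S, γ.1) - 2 • w.1 (D.al i).1 := by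
      have h3 : (w * D.rO (D.al i)).1 (∑ γ ∈ S, γ.1) =
        w.1 ((D.rO (D.al i)).1 (∑ γ ∈ S, γ.1)) := rfl
      rw [h3, D.l6_sum_perm i S hS, map_sub, map_nsmul]
    have h4 : ℓ (w.1 (∑ γ ∈ S, γ.1)) - 2 • ℓ (w.1 (D.al i).1) ≤ ℓ (w.1 (∑ γ ∈ S, γ.1)) := by
      have h5 : ℓ ((w * D.rO (D.al i)).1 (∑ γ ∈ S, γ.1)) ≤ ℓ (w.1 (∑ γ ∈ S, γ.1)) := h1
      rw [h2, map_sub, map_nsmul] at h5
      exact h5
    have h6 : 0 ≤ 2 • ℓ (w.1 (D.al i).1) := by
      rw [sub_le_self_iff] at h4
      exact h4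
    have h7 : ℓ (w.1 (D.al i).1) ≠ 0 := hℓ (w • D.al i)
    rcases lt_trichotomy (ℓ (w.1 (D.al i).1)) 0 with h8 | h8 | h8
    · exfalso
      rw [two_smul] at h6
      exact absurd h6 (not_le.2 (add_neg h8 h8))
    · exact absurd h8 h7
    · exact h8
  intro γ hγ
  refine lt_of_le_of_ne ?_ (Ne.symm (hℓ (w • γ)))
  rw [D.eq_sum_al γ.1, map_sum, map_sum]
  refine Finset.sum_nonneg fun i _ => ?_
  rw [map_zsmul, map_zsmul]
  exact zsmul_nonneg (hal i).le (hγ i)

/-- A total order on the additive group of a field of characteristic `0`: transport the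
lexicographic order of `ι →₀ ℚ` along a basis over `ℚ` (`Module.Free.chooseBasis`, a linear order
on `ι`, `Finsupp.Lex`).  Used in the form: an injective additive map into a linearly ordered
group. -/
theorem exists_order (K : Type) [Field K] [CharZero K] :
    ∃ (Γ : Type) (_ : AddCommGroup Γ) (_ : LinearOrder Γ) (_ : IsOrderedAddMonoid Γ)
      (f : K →+ Γ), Function.Injective f := by
  classical
  let b := Module.Basis.ofVectorSpace ℚ K
  let _ : LinearOrder (Module.Basis.ofVectorSpaceIndex ℚ K) := linearOrderOfSTO WellOrderingRel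
  refine ⟨Lex (Module.Basis.ofVectorSpaceIndex ℚ K →₀ ℚ), inferInstance, inferInstance,
    inferInstance, { toFun := fun x => toLex (b.repr x)
                     map_zero' := by rw [map_zero]; rfl
                     map_add' := fun x y => by rw [map_add]; rfl }, ?_⟩
  intro x y h
  exact b.repr.injective h

/-- the product of a word in the simple reflections -/
def l6b_pr (l : List (Fin n)) : D.OQ := (l.map fun i => D.rO (D.al i)).prod

theorem l6b_exch {β : D.Rt} (hβ : D.Pos β) (m : List (Fin n)) (h : ¬ D.Pos (D.l6b_pr m • β)) :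
    ∃ m' : List (Fin n), m'.length + 1 = m.length ∧ D.l6b_pr m * D.rO β = D.l6b_pr m' := by
  induction m with
  | nil =>
    exact absurd (by rw [l6b_pr, List.map_nil, List.prod_nil, one_smul]; exact hβ) h
  | cons b m ih =>
    have hcons : ∀ k : List (Fin n), D.l6b_pr (b :: k) = D.rO (D.al b) * D.l6b_pr k := by
      intro k
      rw [l6b_pr, List.map_cons, List.prod_cons]
      rfl
    by_cases h1 : D.Pos (D.l6b_pr m • β)
    · have h2 : D.l6b_pr m • β = D.al b := by
        by_contra h3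
        apply h
        rw [hcons, mul_smul]
        exact D.pos_perm h1 h3
      refine ⟨m, rfl, ?_⟩
      rw [hcons, ← h2, rO_smul]
      calc D.l6b_pr m * D.rO β * (D.l6b_pr m)⁻¹ * D.l6b_pr m * D.rO β
          = D.l6b_pr m * (D.rO β * D.rO β) := by group
        _ = D.l6b_pr m := by rw [rO_sq, mul_one]
    · obtain ⟨m', h2, h3⟩ := ih h1
      refine ⟨b :: m', by rw [List.length_cons, List.length_cons, h2], ?_⟩
      rw [hcons, hcons, mul_assoc, h3]

theorem l6b_word {u : D.OQ} (hu : u ∈ D.W) : ∃ l : List (Fin n), u = D.l6b_pr l := by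
  refine Subgroup.closure_induction (p := fun u _ => ∃ l : List (Fin n), u = D.l6b_pr l)
    ?_ ?_ ?_ ?_ hu
  · rintro _ ⟨i, rfl⟩
    exact ⟨[i], by simp [l6b_pr]⟩
  · exact ⟨[], by simp [l6b_pr]⟩
  · rintro x y _ _ ⟨l, rfl⟩ ⟨l', rfl⟩
    exact ⟨l ++ l', by simp [l6b_pr]⟩
  · rintro x _ ⟨l, rfl⟩
    refine ⟨l.reverse, ?_⟩
    rw [l6b_pr, l6b_pr, List.prod_inv_reverse, List.map_map, List.map_reverse]
    congr 2

theorem l6b_main (k : ℕ) : ∀ l : List (Fin n), l.length < k →
    (∀ γ : D.Rt, D.Pos γ → D.Pos (D.l6b_pr l • γ)) → D.l6b_pr l = 1 := by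
  induction k with
  | zero => intro l h; exact absurd h (Nat.not_lt_zero _)
  | succ k ih =>
    intro l hl h
    rcases List.eq_nil_or_concat l with rfl | ⟨l', a, rfl⟩
    · rfl
    · rw [List.concat_eq_append] at hl h ⊢
      have h1 : D.l6b_pr (l' ++ [a]) = D.l6b_pr l' * D.rO (D.al a) := by
        simp [l6b_pr]
      have h2 := h (D.al a) (D.pos_al a)
      rw [h1, mul_smul, rO_self, smul_ng, pos_ng] at h2
      obtain ⟨m', h3, h4⟩ := D.l6b_exch (D.pos_al a) l' h2
      rw [h1, h4] at h ⊢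
      refine ih m' ?_ h
      rw [List.length_append, List.length_singleton] at hl
      omega

/-- An element of `W` preserving the positive roots is `1`.  (If helper22's file provides this
(W simply transitive), copy the proof.)  Proof: a `u ∈ W` is a product of simple reflections; take a
shortest word `u = s_1 ... s_l` (list induction on the length; `W` = closure of an inversion closed
set: `Subgroup.closure_induction`, or: every element of `W` is a list product).  If `l > 0`: since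
`u α_l > 0` where `α_l` is the last letter, and `s_1 ... s_{l-1} α_l = - u α_l < 0`, there is `k < l`
with `s_{k+1} ... s_{l-1} α_l > 0` and `s_k (s_{k+1} ... s_{l-1} α_l) < 0`, so by `pos_perm`
`s_{k+1} ... s_{l-1} α_l = α_k`, hence `s_k = (s_{k+1}..s_{l-1}) s_l (s_{k+1}..s_{l-1})⁻¹` (`rO_smul`) and
`s_k s_{k+1} ... s_{l-1} s_l = s_{k+1} ... s_{l-1}`: a shorter word, contradiction. -/
theorem W_pos_one {u : D.OQ} (hu : u ∈ D.W) (h : ∀ γ : D.Rt, D.Pos γ → D.Pos (u • γ)) : u = 1 := by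
  obtain ⟨l, rfl⟩ := D.l6b_word hu
  exact D.l6b_main _ l (Nat.lt_succ_self _) h

/-- The stabiliser in `W` of a regular point is trivial.  `Γ, f` from `exists_order`,
`ℓ y = f (ev y x)`, nonzero on roots; `w ∈ W` from `exists_pos_system`.  `ℓ (u y) = ℓ y`
(`ev_tact` for `u⁻¹`; `tact u⁻¹ x = x`).  So `w⁻¹ u w` preserves the positive roots: for `γ > 0` let
`δ = w⁻¹ u w γ`; `ℓ (w δ) = ℓ (u w γ) = ℓ (w γ) > 0`, if `δ` were negative then `ℓ (w (-δ)) > 0`
(`pos_or_neg`).  `W_pos_one`. -/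
theorem tact_reg {K : Type} [Field K] [CharZero K] {u : D.OQ} (hu : u ∈ D.W) {x : Fin n → K}
    (hx : ∀ γ : D.Rt, ev γ.1 x ≠ 0) (h : D.tact u x = x) : u = 1 := by
  obtain ⟨Γ, i1, i2, i3, f, hf⟩ := exists_order K
  let ℓ : (Fin n → ℤ) →+ Γ :=
    { toFun := fun y => f (ev y x)
      map_zero' := by rw [ev_zero_left, map_zero]
      map_add' := fun y z => by rw [ev_add_left, map_add] }
  have hℓ : ∀ γ : D.Rt, ℓ γ.1 ≠ 0 := by
    intro γ h0
    apply hx γ
    apply hf
    rw [map_zero]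
    exact h0
  have hinv : ∀ y : Fin n → ℤ, ℓ (u.1 y) = ℓ y := by
    intro y
    show f (ev (u.1 y) x) = f (ev y x)
    congr 1
    have h1 := D.ev_tact u (u.1 y) x
    rw [h] at h1
    rw [h1]
    congr 1
    show (u⁻¹ * u : D.OQ).1 y = y
    rw [inv_mul_cancel]
    rfl
  obtain ⟨w, hw, hpos⟩ := D.exists_pos_system ℓ hℓ
  have hv : w⁻¹ * u * w = 1 := by
    refine D.W_pos_one (mul_mem (mul_mem (inv_mem hw) hu) hw) fun γ hγ => ?_
    by_contra h1
    have h2 := (D.pos_ng _).mpr h1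
    have h3 := hpos _ h2
    have h4 : w.1 (D.ng ((w⁻¹ * u * w) • γ)).1 = - u.1 (w.1 γ.1) := by
      rw [ng_val, map_neg]
      congr 1
      show (w * (w⁻¹ * u * w) : D.OQ).1 γ.1 = (u * w : D.OQ).1 γ.1
      congr 2
      group
    rw [h4, map_neg, hinv] at h3
    have h5 := hpos γ hγ
    exact absurd h3 (not_lt.mpr (by rw [neg_nonpos]; exact h5.le))
  have h6 : u = w * (w⁻¹ * u * w) * w⁻¹ := by group
  rw [h6, hv, mul_one, mul_inv_cancel]

/-- centraliser of a regular Cartan element (`br_tt`) -/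
theorem cent_reg {K : Type*} [Field K] {x : Fin n → K} (hx : ∀ γ : D.Rt, ev γ.1 x ≠ 0)
    {Y : D.BI → K} (h : D.br (D.tt x) Y = 0) : Y = D.tt (D.ct Y) := by
  funext a
  rcases a with k | γ
  · rfl
  · have h1 := congrFun h (Sum.inr γ)
    rw [br_tt, wI_inr, Pi.zero_apply] at h1
    exact (mul_eq_zero.1 h1).resolve_left (hx γ)

end SLD

namespace IsGp

variable {D : SLD n} {F : Frm D}

/-- An element of `G(K)` normalising the Cartan subalgebra acts through an isometry of `Q`.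

Let `a x = ct (g tt x)`, so `g tt x = tt (a x)`; `a` is linear and injective (`g` is invertible), hence
bijective (finite dimension).  Let `γ` be a root and `v = g e_γ ≠ 0`.
`[tt (a x), v] = g [tt x, e_γ] = γ(x) v`; so for an index `b` with `v_b ≠ 0`: `(wI b)(a x) = γ(x)` for all
`x` (`br_tt`); `b = inl k` is impossible (`γ ≠ 0`, `ev_inj`), so `b = inr δ`, and `δ` is unique (`a` is
onto, `ev_inj`).  So `g e_γ = c_γ e_{π γ}`, `c_γ ≠ 0`, `(π γ)(a x) = γ(x)`.
`π` is injective (`ev_inj`), hence a permutation of the finite set `Rt`, `π (-γ) = - π γ`.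
Let `u : Q → Q` be the additive map with `u α_i = π α_i` (`eq_sum_al`); `(u y)(a x) = y(x)`, so
`u γ = π γ`.  `ka e_γ e_{-γ} = -1` and invariance give `c_γ c_{-γ} = 1`, so
`g tt (hv γ) = - g [e_γ, e_{-γ}] = - c_γ c_{-γ} [e_{πγ}, e_{-πγ}] = tt (hv (π γ))` (`br_er_er`).  Apply `g` to
`[tt (hv γ), e_δ] = B(γ,δ) e_δ` (`br_tt_er`, `ev_hv`): `B(πγ, πδ) = B(γ, δ)`.  So `u` is an isometry
(`B` on the basis `α_i`), injective by `B_nondeg`, surjective because every `α_i` is some `π γ`
(`LinearEquiv.ofBijective`).  `a x = tact u x` by `(u y)(a x) = y(x)` for `y = u⁻¹ α_k`. -/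
theorem exists_u {K : Type*} [Field K] [Algebra ℂ K] {g : Matrix D.BI D.BI K} (hg : IsGp F g)
    (h : ∀ (x : Fin n → K) (γ : D.Rt), (g *ᵥ D.tt x) (Sum.inr γ) = 0) :
    ∃ u : D.OQ, (∀ x : Fin n → K, g *ᵥ D.tt x = D.tt (D.tact u x)) ∧
      ∀ γ : D.Rt, ∃ c : K, c ≠ 0 ∧ g *ᵥ D.er K γ.1 = c • D.er K (u.1 γ.1) := by
  have hch : CharZero K := charZero_of_injective_algebraMap (algebraMap ℂ K).injective
  -- the map on the Cartan subalgebra
  let a : (Fin n → K) → (Fin n → K) := fun x => D.ct (g *ᵥ D.tt x)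
  have htt : ∀ x, g *ᵥ D.tt x = D.tt (a x) := by
    intro x
    funext b
    rcases b with k | γ
    · rfl
    · exact h x γ
  have hker : ∀ v : D.BI → K, g *ᵥ v = 0 → v = 0 := by
    intro v hv
    have h1 : g⁻¹ *ᵥ (g *ᵥ v) = v := by
      rw [Matrix.mulVec_mulVec, hg.inv_mul, Matrix.one_mulVec]
    rw [← h1, hv, Matrix.mulVec_zero]
  let aL : (Fin n → K) →ₗ[K] (Fin n → K) :=
    { toFun := a
      map_add' := by
        intro x y
        show D.ct (g *ᵥ D.tt (x + y)) = D.ct (g *ᵥ D.tt x) + D.ct (g *ᵥ D.tt y)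
        rw [D.tt_add, Matrix.mulVec_add]
        rfl
      map_smul' := by
        intro r x
        show D.ct (g *ᵥ D.tt (r • x)) = r • D.ct (g *ᵥ D.tt x)
        rw [D.tt_smul, Matrix.mulVec_smul]
        rfl }
  have hinj : Function.Injective aL := by
    rw [injective_iff_map_eq_zero]
    intro x hx
    have hx' : a x = 0 := hx
    have h1 : g *ᵥ D.tt x = 0 := by rw [htt, hx', D.tt_zero]
    have h2 := hker _ h1
    exact D.tt_inj (h2.trans D.tt_zero.symm)
  have hsurj : ∀ z, ∃ x, a x = z := LinearMap.injective_iff_surjective.1 hinj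
  have hev : ∀ {y z : Fin n → ℤ}, (∀ x : Fin n → K, ev y (a x) = ev z (a x)) → y = z := by
    intro y z hyz
    apply SLD.ev_inj (K := K)
    intro x
    obtain ⟨x', rfl⟩ := hsurj x
    exact hyz x'
  -- root vectors
  have hroot : ∀ γ : D.Rt, ∃ δ : D.Rt, ∃ c : K, c ≠ 0 ∧ g *ᵥ D.er K γ.1 = c • D.er K δ.1 ∧
      ∀ x : Fin n → K, ev δ.1 (a x) = ev γ.1 x := by
    intro γ
    have h0 : g *ᵥ D.er K γ.1 ≠ 0 := by
      intro h1
      have h2 := congrFun (hker _ h1) (Sum.inr γ)
      rw [D.er_inr, if_pos rfl] at h2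
      exact one_ne_zero h2
    have hcomp : ∀ (x : Fin n → K) (b : D.BI),
        ev (D.wI b) (a x) * (g *ᵥ D.er K γ.1) b = ev γ.1 x * (g *ᵥ D.er K γ.1) b := by
      intro x b
      have h1 := hg.br (D.tt x) (D.er K γ.1)
      rw [D.br_tt_er, Matrix.mulVec_smul, htt] at h1
      have h2 := congrFun h1 b
      rw [D.br_tt] at h2
      exact h2.symm
    have hb : ∀ b, (g *ᵥ D.er K γ.1) b ≠ 0 → ∀ x : Fin n → K, ev (D.wI b) (a x) = ev γ.1 x :=
      fun b hb x => mul_right_cancel₀ hb (hcomp x b)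
    obtain ⟨b, hb0⟩ := Function.ne_iff.1 h0
    have hb0' : (g *ᵥ D.er K γ.1) b ≠ 0 := hb0
    have hnl : ∀ k, (g *ᵥ D.er K γ.1) (Sum.inl k) = 0 := by
      intro k
      by_contra hk
      have h1 := hb _ hk
      apply D.Rt_ne_zero γ
      apply SLD.ev_inj (K := K)
      intro x
      rw [← h1 x, D.wI_inl, ev_zero_left, ev_zero_left]
    rcases b with k | δ
    · exact absurd (hnl k) hb0'
    · refine ⟨δ, (g *ᵥ D.er K γ.1) (Sum.inr δ), hb0', ?_, hb _ hb0'⟩
      funext b
      rcases b with k | δ'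
      · rw [hnl, Pi.smul_apply, D.er_inl, smul_zero]
      · rw [Pi.smul_apply, D.er_inr]
        by_cases hd : δ' = δ
        · rw [hd, if_pos rfl, smul_eq_mul, mul_one]
        · rw [if_neg (fun h => hd (D.Rt_ext h)), smul_zero]
          by_contra hne
          apply hd
          apply D.Rt_ext
          apply hev
          intro x
          have h1 := hb _ hne x
          have h2 := hb _ hb0' x
          rw [D.wI_inr] at h1 h2
          rw [h1, h2]
  choose π c hc hgπ hπ using hroot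
  have hπinj : Function.Injective π := by
    intro γ δ hγδ
    apply D.Rt_ext
    apply SLD.ev_inj (K := K)
    intro x
    rw [← hπ γ x, ← hπ δ x, hγδ]
  have hπsurj : Function.Surjective π := Finite.injective_iff_surjective.1 hπinj
  have hπng : ∀ γ, π (D.ng γ) = D.ng (π γ) := by
    intro γ
    apply D.Rt_ext
    apply hev
    intro x
    rw [hπ, D.ng_val, D.ng_val, ev_neg_left, ev_neg_left, hπ]
  have hcc : ∀ γ, c γ * c (D.ng γ) = 1 := by
    intro γ
    have h1 := hg.ka (D.er K γ.1) (D.er K (D.ng γ).1)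
    rw [hgπ, hgπ, D.ka_smul_left, D.ka_smul_right, D.ka_er_er, D.ka_er_er, hπng,
      D.ng_val, D.ng_val, if_pos (add_neg_cancel _), if_pos (add_neg_cancel _)] at h1
    linear_combination -h1
  have hbr0 : ∀ γ : D.Rt, D.br (D.er K γ.1) (D.er K (D.ng γ).1) = - D.tt (D.hv K γ.1) := by
    intro γ
    rw [D.br_er_er, D.ng_val, if_pos (add_neg_cancel _), add_neg_cancel, D.er_zero, smul_zero,
      zero_sub]
  have hahv : ∀ γ, a (D.hv K γ.1) = D.hv K (π γ).1 := by
    intro γ
    have h1 := hg.br (D.er K γ.1) (D.er K (D.ng γ).1)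
    rw [hbr0, hgπ, hgπ, D.br_smul_left, D.br_smul_right, hπng, hbr0, Matrix.mulVec_neg, htt,
      smul_smul, hcc, one_smul] at h1
    exact D.tt_inj (neg_injective h1)
  have hB : ∀ γ δ, D.B (π γ).1 (π δ).1 = D.B γ.1 δ.1 := by
    intro γ δ
    have h1 := hπ γ (D.hv K δ.1)
    rw [hahv, D.ev_hv, D.ev_hv] at h1
    exact_mod_cast h1
  -- the isometry
  let f : (Fin n → ℤ) →ₗ[ℤ] (Fin n → ℤ) :=
    Fintype.linearCombination ℤ (fun i => (π (D.al i)).1)
  have hf : ∀ y, f y = ∑ i, y i • (π (D.al i)).1 := fun y => rfl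
  have hfev : ∀ (y : Fin n → ℤ) (x : Fin n → K), ev (f y) (a x) = ev y x := by
    intro y x
    rw [hf, ev_sum_left]
    show _ = ∑ k, (y k : K) * x k
    refine Finset.sum_congr rfl fun i _ => ?_
    rw [ev_smul_left, hπ, D.ev_al]
  have hfroot : ∀ γ : D.Rt, f γ.1 = (π γ).1 := by
    intro γ
    apply hev
    intro x
    rw [hfev, hπ]
  have hfB : ∀ x y, D.B (f x) (f y) = D.B x y := by
    have h1 : ∀ x z, D.B (f x) z = ∑ i, x i * D.B (π (D.al i)).1 z := by
      intro x z
      rw [hf, D.B_sum_left]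
      exact Finset.sum_congr rfl fun i _ => D.B_smul_left _ _ _
    intro x y
    rw [h1, D.B_coord x y]
    refine Finset.sum_congr rfl fun i _ => ?_
    rw [D.B_comm (π (D.al i)).1, h1, D.B_comm (D.al i).1, D.B_coord y]
    congr 1
    refine Finset.sum_congr rfl fun j _ => ?_
    rw [hB]
  have hfinj : Function.Injective f := by
    rw [injective_iff_map_eq_zero]
    intro x hx
    apply D.B_nondeg
    intro y
    rw [← hfB, hx, D.B_zero_left]
  have hfsurj : Function.Surjective f := by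
    intro z
    choose s hs using fun i => hπsurj (D.al i)
    refine ⟨∑ i, z i • (s i).1, ?_⟩
    rw [map_sum]
    conv_rhs => rw [D.eq_sum_al z]
    refine Finset.sum_congr rfl fun i _ => ?_
    rw [map_smul, hfroot, hs]
  let u : D.OQ := ⟨LinearEquiv.ofBijective f ⟨hfinj, hfsurj⟩, hfB⟩
  have hu : ∀ y, u.1 y = f y := fun y => rfl
  refine ⟨u, fun x => ?_, fun γ => ⟨c γ, hc γ, ?_⟩⟩
  · rw [htt]
    congr 1
    funext k
    show a x k = ev ((u⁻¹).1 (D.al k).1) x
    have h1 : u.1 ((u⁻¹).1 (D.al k).1) = (D.al k).1 :=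
      congrArg (fun w : D.OQ => w.1 (D.al k).1) (mul_inv_cancel u)
    rw [← hfev, ← hu, h1, D.ev_al]
  · rw [hgπ, hu, hfroot]

/-- If moreover `u` preserves the positive roots then `u = 1`.
`u` maps the (finite) set of positive roots onto itself, so `u⁻¹` preserves it too.  `u α_i` is a
simple root: otherwise `u α_i = β + α_j` with `β = subR _ (al j) _ > 0` (`exists_sub`) and
`α_i = u⁻¹ β + u⁻¹ α_j` is a sum of two positive roots, of height `≥ 2` (`ht_pos`, `ht_al`).  So
`u α_i = α_{σ i}` for a permutation `σ`, `C (σ i) (σ j) = C i j` (`B_al_al`), and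
`g b_k = tt (tact u (single k 1)) = b_{σ k}`; invariance of `F` (`val_single`) gives the second
hypothesis of `F.out` (cast from `ℂ` to `K`: `algebraMap` is injective).  So `σ = 1`, `u = 1`
(`OQ_ext`). -/
theorem u_eq_one {K : Type*} [Field K] [Algebra ℂ K] {g : Matrix D.BI D.BI K} (hg : IsGp F g)
    {u : D.OQ} (h1 : ∀ x : Fin n → K, g *ᵥ D.tt x = D.tt (D.tact u x))
    (h2 : ∀ γ : D.Rt, D.Pos γ → D.Pos (u • γ)) : u = 1 := by
  -- the inverse preserves positivity
  have h3 : ∀ γ : D.Rt, D.Pos γ → D.Pos (u⁻¹ • γ) := by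
    intro γ hγ
    by_contra hn
    have h4 := h2 _ ((D.pos_ng _).2 hn)
    rw [D.smul_ng, smul_inv_smul] at h4
    exact D.not_pos_ng hγ h4
  -- simple roots go to simple roots
  have h4 : ∀ i, ∃ j, u • D.al i = D.al j := by
    intro i
    by_contra hno
    push Not at hno
    obtain ⟨j, hj, hp⟩ := D.exists_sub (h2 _ (D.pos_al i)) hno
    have h5 := D.ht_pos (h3 _ hp)
    have h6 := D.ht_pos (h3 _ (D.pos_al j))
    have h7 : (D.al i).1 = (u⁻¹ • D.subR (u • D.al i) (D.al j) hj).1 + (u⁻¹ • D.al j).1 := by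
      have e1 : (u⁻¹ • (u • D.al i)).1 = (D.al i).1 := by rw [inv_smul_smul]
      have e2 : (u • D.al i).1 = (D.subR (u • D.al i) (D.al j) hj).1 + (D.al j).1 := by
        show (u • D.al i).1 = ((u • D.al i).1 - (D.al j).1) + (D.al j).1
        rw [sub_add_cancel]
      have e3 : (u⁻¹ • (u • D.al i)).1 = (u⁻¹).1 (u • D.al i).1 := rfl
      rw [← e1, e3, e2, map_add]
      rfl
    have h8 := D.ht_al i
    rw [h7, SLD.ht_add] at h8
    omega
  choose σ hσ using h4
  have hinj : Function.Injective σ := by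
    intro i j hij
    have h5 : u • D.al i = u • D.al j := by rw [hσ, hσ, hij]
    have h6 := (smul_left_cancel u h5)
    have h7 : (D.al i).1 i = (D.al j).1 i := by rw [h6]
    rw [D.al_val, D.al_val, Pi.single_eq_same] at h7
    by_contra hne
    rw [Pi.single_eq_of_ne hne] at h7
    exact one_ne_zero h7
  have hbij : Function.Bijective σ := Finite.injective_iff_bijective.1 hinj
  have hC : ∀ i j, D.C (σ i) (σ j) = D.C i j := by
    intro i j
    rw [← D.B_al_al, ← D.B_al_al, ← hσ, ← hσ, D.smul_val, D.smul_val]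
    exact u.2 _ _
  have htact : ∀ (x : Fin n → K) (i : Fin n), D.tact u x (σ i) = x i := by
    intro x i
    show ev ((u⁻¹).1 (D.al (σ i)).1) x = x i
    have h5 : (u⁻¹).1 (D.al (σ i)).1 = (D.al i).1 := by
      have h6 : (u⁻¹ • D.al (σ i)).1 = (D.al i).1 := by rw [← hσ, inv_smul_smul]
      rw [← h6]; rfl
    rw [h5]
    exact D.ev_al i x
  have hcol : ∀ k : Fin n, g *ᵥ Pi.single (Sum.inl k) (1 : K) = Pi.single (Sum.inl (σ k)) 1 := by
    intro k
    rw [← D.tt_single, ← D.tt_single, h1]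
    congr 1
    funext l
    obtain ⟨i, rfl⟩ := hbij.2 l
    rw [htact]
    by_cases hik : i = k
    · rw [hik, Pi.single_eq_same, Pi.single_eq_same]
    · rw [Pi.single_eq_of_ne hik, Pi.single_eq_of_ne (fun h => hik (hinj h))]
  have hout := F.out (Equiv.ofBijective σ hbij) hC (by
    intro i
    have h5 := hg.frm (fun j => Pi.single (Sum.inl (i j)) 1)
    have h6 : (fun j => g *ᵥ Pi.single (Sum.inl (i j)) (1 : K)) =
        fun j => Pi.single (Sum.inl (σ (i j))) 1 := by
      funext j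
      exact hcol (i j)
    rw [h6] at h5
    have h7 := F.val_single (R := K) (fun j => Sum.inl (σ (i j)))
    have h8 := F.val_single (R := K) (fun j => Sum.inl (i j))
    rw [h7, h8] at h5
    exact (algebraMap ℂ K).injective h5)
  apply D.OQ_ext
  intro i
  rw [hσ, one_smul]
  have h5 : σ i = i := by
    have h6 : (Equiv.ofBijective σ hbij) i = i := by rw [hout]; rfl
    exact h6
  rw [h5]

/-- An element fixing the Cartan subalgebra pointwise is in the torus: by `exists_u` (`u = 1` since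
`tact u x = x` for all `x`: `ev_tact`, `ev_inj`) it is diagonal, in particular upper triangular, and
its diagonal is `chi (wI a) t` (`up_chi`). -/
theorem eq_TB {K : Type*} [Field K] [Algebra ℂ K] {g : Matrix D.BI D.BI K} (hg : IsGp F g)
    (h : ∀ x : Fin n → K, g *ᵥ D.tt x = D.tt x) : ∃ t : Fin n → Kˣ, g = D.TB t := by
  have : CharZero K := charZero_of_injective_algebraMap (algebraMap ℂ K).injective
  obtain ⟨u, hu1, hu2⟩ := hg.exists_u (fun x γ => by rw [h, SLD.tt_inr])
  have h3 : ∀ y : Fin n → ℤ, (u⁻¹).1 y = y := by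
    intro y
    refine SLD.ev_inj (K := K) (fun x => ?_)
    have h4 : D.tact u x = x := D.tt_inj (by rw [← hu1, h])
    rw [← D.ev_tact, h4]
  have hu : u = 1 := by
    have h4 : u⁻¹ = 1 := by
      apply D.OQ_ext
      intro i
      apply D.Rt_ext
      rw [one_smul, D.smul_val]
      exact h3 _
    exact inv_eq_one.1 h4
  subst hu
  have hoff : ∀ a c, a ≠ c → g a c = 0 := by
    intro a c hac
    have h5 : ∀ b, g b c = (g *ᵥ Pi.single c 1) b := by
      intro b
      rw [Matrix.mulVec_single_one]; rfl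
    rcases c with k | γ
    · rw [h5, ← D.tt_single, h, D.tt_single]
      exact Pi.single_eq_of_ne hac _
    · obtain ⟨c, -, hc⟩ := hu2 γ
      have h6 : ((1 : D.OQ)).1 γ.1 = γ.1 := rfl
      rw [h6, D.er_root] at hc
      rw [h5, hc, Pi.smul_apply, Pi.single_eq_of_ne hac, smul_zero]
  obtain ⟨t, ht⟩ := hg.up_chi (fun a c hac => hoff a c (fun h' => by rw [h'] at hac; exact lt_irrefl _ hac))
  refine ⟨t, ?_⟩
  ext a c
  by_cases hac : a = c
  · subst hac
    rw [ht, SLD.TB, Matrix.diagonal_apply_eq]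
  · rw [hoff a c hac, SLD.TB, Matrix.diagonal_apply_ne _ hac]

/-- (6.1) an element of `G(K)` that preserves the heights is in the torus: `tt x` has height `0`, so
`g tt x` has no root components (`ht_ne`); `exists_u`; `u` preserves heights of roots (the component
`u γ` of `g e_γ` is nonzero), so it preserves positivity (`pos_iff_ht`); `u_eq_one`, `tact_one`,
`eq_TB`. -/
theorem eq_TB_of_ht {K : Type*} [Field K] [Algebra ℂ K] {g : Matrix D.BI D.BI K}
    (hg : IsGp F g) (h : ∀ a c, D.hI a ≠ D.hI c → g a c = 0) :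
    ∃ t : Fin n → Kˣ, g = D.TB t := by
  obtain ⟨u, hu1, hu2⟩ := hg.exists_u (fun x γ => by
    rw [Matrix.mulVec, dotProduct]
    refine Finset.sum_eq_zero fun c _ => ?_
    rcases c with k | δ
    · rw [h _ _ (by rw [SLD.hI_inr, SLD.hI_inl]; exact D.ht_ne γ), zero_mul]
    · rw [SLD.tt_inr, mul_zero])
  have h3 : ∀ γ : D.Rt, SLD.ht (u • γ).1 = SLD.ht γ.1 := by
    intro γ
    obtain ⟨c, hc0, hc⟩ := hu2 γ
    by_contra hne
    have h4 := h (Sum.inr (u • γ)) (Sum.inr γ) (by rw [SLD.hI_inr, SLD.hI_inr]; exact hne)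
    rw [D.er_root, Matrix.mulVec_single_one] at hc
    have h5 := congrFun hc (Sum.inr (u • γ))
    have h6 : g.col (Sum.inr γ) (Sum.inr (u • γ)) = g (Sum.inr (u • γ)) (Sum.inr γ) := rfl
    rw [h6, h4, Pi.smul_apply, SLD.er_inr, if_pos (D.smul_val u γ), smul_eq_mul, mul_one] at h5
    exact hc0 h5.symm
  have h4 : u = 1 := hg.u_eq_one hu1 (fun γ hγ => by
    rw [D.pos_iff_ht] at hγ ⊢
    rw [h3]
    exact hγ)
  refine hg.eq_TB fun x => ?_
  rw [hu1, h4, D.tact_one]

end IsGp

end Pool.Agent.MTX
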