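import Pool.Agent.MTX.L6

/-! # MTX, Part L : Weyl elements, centralisers of regular elements (row L7) -/

namespace Pool.Agent.MTX

open Matrix

open Pool.Agent.MTD (ev ev_add ev_sub ev_neg ev_smul ev_zero ev_add_left ev_sub_left ev_neg_left
  ev_smul_left ev_zero_left ev_sum_left ev_sum ev_map ev_comm)

open Pool.Agent.MP_c45d35_ag (chi chi_add chi_mul chi_zero chi_one chi_inv chi_map)

variable {n : ℕ}

namespace SLD

variable (D : SLD n)

/-- the Weyl element `n_γ = exp(ad e_γ) exp(ad e_{-γ}) exp(ad e_γ)` -/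
noncomputable def nw (γ : D.Rt) : Matrix D.BI D.BI ℂ :=
  D.expB (D.ad (D.er ℂ γ.1)) * D.expB (D.ad (D.er ℂ (-γ.1))) * D.expB (D.ad (D.er ℂ γ.1))

theorem l7_br_self (X : D.BI → ℂ) : D.br X X = 0 := by
  funext d
  have h := congrFun (D.br_anti X X) d
  rw [Pi.neg_apply] at h
  rw [Pi.zero_apply]
  linear_combination (1 / 2 : ℂ) * h

theorem l7_hv_neg (y : Fin n → ℤ) : D.hv ℂ (-y) = - D.hv ℂ y := by
  funext k
  simp only [hv, Pi.neg_apply, D.B_neg_right, Int.cast_neg]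

/-- `isGp_exp_root` for `γ` and `ng γ`, `r = 1` -/
theorem isGp_nw (F : Frm D) (γ : D.Rt) : IsGp F (D.nw γ) := by
  have h1 := D.isGp_exp_root (R := ℂ) F γ 1
  have h2 := D.isGp_exp_root (R := ℂ) F (D.ng γ) 1
  rw [one_smul] at h1 h2
  exact (h1.mul h2).mul h1

/-- `exp(ad e_γ) (tt x) = tt x - γ(x) e_γ`: `[e_γ, tt x] = -γ(x) e_γ`, `[e_γ, e_γ] = 0`;
`expB_mulVec_two`. -/
theorem exp_tt (γ : D.Rt) (x : Fin n → ℂ) :
    D.expB (D.ad (D.er ℂ γ.1)) *ᵥ D.tt x = D.tt x - ev γ.1 x • D.er ℂ γ.1 := by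
  rw [D.expB_mulVec_two]
  · show D.tt x + D.br (D.er ℂ γ.1) (D.tt x) = _
    rw [D.br_er_tt, sub_eq_add_neg]
  · show D.br (D.er ℂ γ.1) (D.br (D.er ℂ γ.1) (D.tt x)) = 0
    rw [D.br_er_tt, D.br_neg_right, D.br_smul_right, l7_br_self, smul_zero, neg_zero]

/-- `exp(ad e_γ) e_γ = e_γ` -/
theorem exp_er (γ : D.Rt) :
    D.expB (D.ad (D.er ℂ γ.1)) *ᵥ D.er ℂ γ.1 = D.er ℂ γ.1 := by
  rw [D.expB_mulVec_two]
  · show D.er ℂ γ.1 + D.br (D.er ℂ γ.1) (D.er ℂ γ.1) = _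
    rw [l7_br_self, add_zero]
  · show D.br (D.er ℂ γ.1) (D.br (D.er ℂ γ.1) (D.er ℂ γ.1)) = 0
    rw [l7_br_self, D.br_zero_right]

/-- `exp(ad e_{-γ}) e_γ = e_γ + tt (hv γ) + e_{-γ}`: `[e_{-γ}, e_γ] = - tt (hv (-γ)) = tt (hv γ)`,
`[e_{-γ}, tt (hv γ)] = γ(hv γ) e_{-γ} = 2 e_{-γ}`, `[e_{-γ}, e_{-γ}] = 0`; `expB_mulVec_three`.
(`er_zero`: `er (γ + -γ) = 0`.) -/
theorem exp_er_neg (γ : D.Rt) :
    D.expB (D.ad (D.er ℂ (-γ.1))) *ᵥ D.er ℂ γ.1 =
      D.er ℂ γ.1 + D.tt (D.hv ℂ γ.1) + D.er ℂ (-γ.1) := by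
  have h1 : D.br (D.er ℂ (-γ.1)) (D.er ℂ γ.1) = D.tt (D.hv ℂ γ.1) := by
    have h := D.br_er_er (R := ℂ) (D.ng γ) γ
    rw [ng_val, neg_add_cancel, if_pos rfl, D.er_zero, smul_zero, zero_sub] at h
    rw [h, ← D.tt_neg, l7_hv_neg, neg_neg]
  have h2 : D.br (D.er ℂ (-γ.1)) (D.tt (D.hv ℂ γ.1)) = (2 : ℂ) • D.er ℂ (-γ.1) := by
    rw [D.br_er_tt, ev_neg_left, D.ev_hv, γ.2, neg_smul, neg_neg]
    norm_num
  rw [D.expB_mulVec_three]
  · show D.er ℂ γ.1 + D.br (D.er ℂ (-γ.1)) (D.er ℂ γ.1) +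
      algebraMap ℂ ℂ (1 / 2) • D.br (D.er ℂ (-γ.1)) (D.br (D.er ℂ (-γ.1)) (D.er ℂ γ.1)) = _
    rw [h1, h2, smul_smul]
    norm_num
  · show D.br (D.er ℂ (-γ.1)) (D.br (D.er ℂ (-γ.1)) (D.br (D.er ℂ (-γ.1)) (D.er ℂ γ.1))) = 0
    rw [h1, h2, D.br_smul_right, l7_br_self, smul_zero]

/-- `n_γ x = s_γ x`:  `exp(ad e_γ) x = x - γ(x) e_γ`; then
`exp(ad e_{-γ})`: `(x + γ(x) e_{-γ}) - γ(x) (e_γ + hv γ + e_{-γ}) = s_γ x - γ(x) e_γ`
(`exp_tt` for `ng γ`, `exp_er_neg`, `tact_rO`); then `exp(ad e_γ)`: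
`s_γ x - γ(s_γ x) e_γ - γ(x) e_γ = s_γ x` as `γ(s_γ x) = -γ(x)` (`ev_tact`, `rO_self`). -/
theorem nw_tt (γ : D.Rt) (x : Fin n → ℂ) :
    D.nw γ *ᵥ D.tt x = D.tt (D.tact (D.rO γ) x) := by
  have h1 := D.exp_tt γ
  have h2 : D.expB (D.ad (D.er ℂ (-γ.1))) *ᵥ D.tt x = D.tt x + ev γ.1 x • D.er ℂ (-γ.1) := by
    have h := D.exp_tt (D.ng γ) x
    rw [ng_val, ev_neg_left, neg_smul, sub_neg_eq_add] at h
    exact h
  have h3 : ev γ.1 (D.tact (D.rO γ) x) = - ev γ.1 x := by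
    rw [D.tact_rO, ev_sub, ev_smul, D.ev_hv, γ.2]
    push_cast
    ring
  rw [nw, ← Matrix.mulVec_mulVec, ← Matrix.mulVec_mulVec, h1, Matrix.mulVec_sub, h2,
    Matrix.mulVec_smul, D.exp_er_neg]
  have h4 : D.tt x + ev γ.1 x • D.er ℂ (-γ.1) -
      ev γ.1 x • (D.er ℂ γ.1 + D.tt (D.hv ℂ γ.1) + D.er ℂ (-γ.1)) =
      D.tt (D.tact (D.rO γ) x) - ev γ.1 x • D.er ℂ γ.1 := by
    rw [D.tact_rO, sub_eq_add_neg x, D.tt_add, D.tt_neg, D.tt_smul, smul_add, smul_add]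
    abel
  rw [h4, Matrix.mulVec_sub, h1, Matrix.mulVec_smul, D.exp_er, h3, neg_smul]
  abel

/-- Every element of `W` is realised by an element of the complex group.
`Subgroup.closure_induction` on `D.W = closure (range (rO ∘ al))`: generators `nw (al i)`, products,
inverses (`tact_mul`, `tact_one`; for the inverse: `g⁻¹ tt x = tt (tact u⁻¹ x)` from
`g tt (tact u⁻¹ x) = tt x`). -/
theorem exists_nw (F : Frm D) {u : D.OQ} (hu : u ∈ D.W) :
    ∃ g : Matrix D.BI D.BI ℂ, IsGp F g ∧ ∀ x : Fin n → ℂ, g *ᵥ D.tt x = D.tt (D.tact u x) := by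
  unfold W at hu
  induction hu using Subgroup.closure_induction with
  | mem x hx =>
    obtain ⟨i, rfl⟩ := hx
    exact ⟨D.nw (D.al i), D.isGp_nw F (D.al i), fun y => D.nw_tt (D.al i) y⟩
  | one =>
    refine ⟨1, IsGp.one, fun x => ?_⟩
    rw [Matrix.one_mulVec, tact_one]
  | mul x y _ _ ihx ihy =>
    obtain ⟨g, hg, hg1⟩ := ihx
    obtain ⟨h, hh, hh1⟩ := ihy
    refine ⟨g * h, hg.mul hh, fun z => ?_⟩
    rw [← Matrix.mulVec_mulVec, hh1, hg1, tact_mul]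
  | inv x _ ihx =>
    obtain ⟨g, hg, hg1⟩ := ihx
    refine ⟨g⁻¹, hg.inv, fun z => ?_⟩
    have h1 : g *ᵥ D.tt (D.tact x⁻¹ z) = D.tt z := by
      rw [hg1, ← tact_mul, mul_inv_cancel, tact_one]
    rw [← h1, Matrix.mulVec_mulVec, hg.inv_mul, Matrix.one_mulVec]

/-- base change of the relation `g tt x = tt (tact u x)`: it is the equality of the entries
`g a (inl k) = (tact u (single k 1) as a vector) a`, integers on the right (`tact_map`, `tact_add`,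
`tact_smul`; expand `x = ∑ x_k single k 1`). -/
theorem nw_map {g : Matrix D.BI D.BI ℂ} {u : D.OQ}
    (h : ∀ x : Fin n → ℂ, g *ᵥ D.tt x = D.tt (D.tact u x)) {R : Type*} [CommRing R] [Algebra ℂ R]
    (x : Fin n → R) : g.map (algebraMap ℂ R) *ᵥ D.tt x = D.tt (D.tact u x) := by
  have hcol : ∀ (a : D.BI) (k : Fin n), g a (Sum.inl k) = D.tt (D.tact u (Pi.single k 1)) a := by
    intro a k
    rw [← h, tt_single, Matrix.mulVec_single_one]
    rfl
  funext a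
  rw [Matrix.mulVec, dotProduct, Fintype.sum_sum_type]
  simp only [tt_inl, tt_inr, mul_zero, Finset.sum_const_zero, add_zero, Matrix.map_apply]
  rcases a with l | γ
  · rw [tt_inl]
    show ∑ k, algebraMap ℂ R (g (Sum.inl l) (Sum.inl k)) * x k =
      ∑ k, (((u⁻¹).1 (D.al l).1 k : ℤ) : R) * x k
    refine Finset.sum_congr rfl fun k _ => ?_
    have h1 : D.tact u (Pi.single k (1 : ℂ)) l = (((u⁻¹).1 (D.al l).1 k : ℤ) : ℂ) := by
      show ev ((u⁻¹).1 (D.al l).1) (Pi.single k (1 : ℂ)) = _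
      simp [ev, Pi.single_apply]
    rw [hcol, tt_inl, h1]
    simp
  · rw [tt_inr]
    refine Finset.sum_eq_zero fun k _ => ?_
    rw [hcol, tt_inr, map_zero, zero_mul]

end SLD

namespace IsGp

variable {D : SLD n} {F : Frm D}

/-- the isometry of an element of `G(K)` normalising the Cartan subalgebra is in `W`.
`exists_pos_system` for `ℓ y = ht (u⁻¹ y)` (values in `ℤ`): `w ∈ W` with `ht (u⁻¹ w γ) > 0` for
`γ > 0`.  So `u⁻¹ w` preserves the (finite) set of positive roots, hence so does `w⁻¹ u`.  Let `m` be an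
element of `G(ℂ)` realising `w⁻¹` (`exists_nw`, `nw_map`, `map`); `m g` realises `w⁻¹ u`;
`u_eq_one` gives `w⁻¹ u = 1`. -/
theorem u_mem_W {K : Type*} [Field K] [Algebra ℂ K] {g : Matrix D.BI D.BI K} (hg : IsGp F g)
    {u : D.OQ} (h1 : ∀ x : Fin n → K, g *ᵥ D.tt x = D.tt (D.tact u x)) : u ∈ D.W := by
  obtain ⟨w, hw, hpos⟩ := D.exists_pos_system (Γ := ℤ)
    (AddMonoidHom.mk' (fun y => SLD.ht ((u⁻¹).1 y)) (fun a b => by
      show SLD.ht ((u⁻¹).1 (a + b)) = SLD.ht ((u⁻¹).1 a) + SLD.ht ((u⁻¹).1 b)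
      rw [map_add, SLD.ht_add]))
    (fun γ => D.ht_ne (u⁻¹ • γ))
  have hp : ∀ γ : D.Rt, D.Pos γ → D.Pos ((u⁻¹ * w) • γ) := by
    intro γ hγ
    rw [D.pos_iff_ht]
    exact hpos γ hγ
  have hp2 : ∀ γ : D.Rt, D.Pos γ → D.Pos ((w⁻¹ * u) • γ) := by
    intro γ hγ
    by_contra hn
    have h4 := hp _ ((D.pos_ng _).2 hn)
    rw [D.smul_ng, ← mul_smul] at h4
    have h5 : u⁻¹ * w * (w⁻¹ * u) = 1 := by group
    rw [h5, one_smul] at h4
    exact D.not_pos_ng hγ h4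
  obtain ⟨m, hm, hm1⟩ := D.exists_nw F (inv_mem hw)
  have hm2 : IsGp F (m.map (algebraMap ℂ K)) := hm.map (Algebra.ofId ℂ K)
  have h6 : w⁻¹ * u = 1 := (hm2.mul hg).u_eq_one (fun x => by
    rw [← Matrix.mulVec_mulVec, h1, D.nw_map hm1, ← D.tact_mul]) hp2
  have h7 : u = w := (inv_mul_eq_one.1 h6).symm
  rw [h7]
  exact hw

/-- (6.2) an element of `G(K)` mapping a regular Cartan element to a Cartan element is the product
of a Weyl element and a torus element.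
`g tt x = tt x'`.  For `y : Fin n → K`: `[tt x', g tt y] = g [tt x, tt y] = 0`.  `x'` is regular too:
the centraliser of `tt x'` is `g` applied to that of `tt x`, so it is `g (tt K^n)` (`cent_reg`), of
dimension `n`; if `γ(x') = 0` for a root `γ` then the `tt y` and `e_γ` all commute with `tt x'`, so
they are in the image of the `n`-dimensional space of the `g tt y`: contradiction (e.g. the linear map
`y ↦ (g⁻¹ tt y)` has values in `tt K^n`, it is injective, hence onto `tt K^n`; so `g⁻¹ e_γ`, which is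
in `tt K^n` as well, equals some `g⁻¹ tt y`, `e_γ = tt y`: false).  So `cent_reg` for `x'` shows that
`g tt y` has no root components; `exists_u`, `u_mem_W`. -/
theorem exists_W {K : Type*} [Field K] [Algebra ℂ K] {g : Matrix D.BI D.BI K} (hg : IsGp F g)
    {x x' : Fin n → K} (hx : ∀ γ : D.Rt, ev γ.1 x ≠ 0) (h : g *ᵥ D.tt x = D.tt x') :
    ∃ u ∈ D.W, ∀ y : Fin n → K, g *ᵥ D.tt y = D.tt (D.tact u y) := by
  have hgx : g⁻¹ *ᵥ D.tt x' = D.tt x := by
    rw [← h, Matrix.mulVec_mulVec, hg.inv_mul, Matrix.one_mulVec]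
  have h1 : ∀ y : Fin n → K, g⁻¹ *ᵥ D.tt y = D.tt (D.ct (g⁻¹ *ᵥ D.tt y)) := by
    intro y
    apply D.cent_reg hx
    rw [← hgx, ← hg.inv.br, D.br_tt_tt, Matrix.mulVec_zero]
  let f : (Fin n → K) →ₗ[K] (Fin n → K) :=
    { toFun := fun y => D.ct (g⁻¹ *ᵥ D.tt y)
      map_add' := fun y z => by
        rw [D.tt_add, Matrix.mulVec_add]; rfl
      map_smul' := fun r y => by
        rw [D.tt_smul, Matrix.mulVec_smul]; rfl }
  have hinj : Function.Injective f := by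
    intro y z hyz
    have h2 : D.ct (g⁻¹ *ᵥ D.tt y) = D.ct (g⁻¹ *ᵥ D.tt z) := hyz
    have h3 : g⁻¹ *ᵥ D.tt y = g⁻¹ *ᵥ D.tt z := by rw [h1 y, h1 z, h2]
    have h4 : g *ᵥ (g⁻¹ *ᵥ D.tt y) = g *ᵥ (g⁻¹ *ᵥ D.tt z) := by rw [h3]
    rw [Matrix.mulVec_mulVec, Matrix.mulVec_mulVec, hg.mul_inv, Matrix.one_mulVec,
      Matrix.one_mulVec] at h4
    exact D.tt_inj h4
  have hsurj : Function.Surjective f := LinearMap.injective_iff_surjective.1 hinj
  have h5 : ∀ (z : Fin n → K) (γ : D.Rt), (g *ᵥ D.tt z) (Sum.inr γ) = 0 := by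
    intro z γ
    obtain ⟨y, hy⟩ := hsurj z
    have h6 : D.ct (g⁻¹ *ᵥ D.tt y) = z := hy
    have h7 : g⁻¹ *ᵥ D.tt y = D.tt z := by rw [h1 y, h6]
    rw [← h7, Matrix.mulVec_mulVec, hg.mul_inv, Matrix.one_mulVec]
    rfl
  obtain ⟨u, hu, -⟩ := exists_u hg h5
  exact ⟨u, u_mem_W hg hu, hu⟩

/-- an element of `G(K)` fixing a regular Cartan element is in the torus (`exists_W`, `tt_inj`,
`tact_reg`, `tact_one`, `eq_TB`) -/
theorem eq_TB_of_reg {K : Type} [Field K] [Algebra ℂ K] {g : Matrix D.BI D.BI K}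
    (hg : IsGp F g) {x : Fin n → K} (hx : ∀ γ : D.Rt, ev γ.1 x ≠ 0)
    (h : g *ᵥ D.tt x = D.tt x) : ∃ t : Fin n → Kˣ, g = D.TB t := by
  have : CharZero K := charZero_of_injective_algebraMap (algebraMap ℂ K).injective
  obtain ⟨u, huW, hu⟩ := hg.exists_W hx h
  have h1 : D.tact u x = x := D.tt_inj ((hu x).symm.trans h)
  have h2 : u = 1 := D.tact_reg huW hx h1
  subst h2
  exact hg.eq_TB fun y => by rw [hu y, D.tact_one]

/-- the same in terms of commuting with `ad (tt x)` (`ad`, `ad_inj'`: cancel `g` on the right) -/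
theorem eq_TB_of_comm {K : Type} [Field K] [Algebra ℂ K] {g : Matrix D.BI D.BI K}
    (hg : IsGp F g) {x : Fin n → K} (hx : ∀ γ : D.Rt, ev γ.1 x ≠ 0)
    (h : g * D.ad (D.tt x) = D.ad (D.tt x) * g) : ∃ t : Fin n → Kˣ, g = D.TB t := by
  refine hg.eq_TB_of_reg hx ?_
  rw [hg.ad] at h
  have h1 := congrArg (fun M => M * g⁻¹) h
  simp only [Matrix.mul_assoc, hg.mul_inv, Matrix.mul_one] at h1
  exact D.ad_inj' h1

/-- The relation between Weyl elements and the torus.  `g ∈ G(K)` with `g tt y = tt (tact u y)`;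
by `exists_u` (its `u'` equals `u`: `tt_inj`, `ev_tact`, `ev_inj`, `OQ_ext`), `g e_γ = c e_{uγ}`.  Both sides
applied to `b_k = tt (single k 1)`: the torus acts trivially on the Cartan subalgebra; applied to
`e_γ`: `TB t g e_γ = c χ_{uγ}(t) e_{uγ}` and `g TB t' e_γ = χ_γ(t') c e_{uγ}`, with
`χ_γ(t') = χ_{uγ}(t)` for `t' k = χ_{u α_k}(t)` (`chi` is multiplicative in the weight, `eq_sum_al`). -/
theorem TB_mul {K : Type*} [Field K] [Algebra ℂ K] {g : Matrix D.BI D.BI K} (hg : IsGp F g)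
    {u : D.OQ} (h1 : ∀ x : Fin n → K, g *ᵥ D.tt x = D.tt (D.tact u x)) (t : Fin n → Kˣ) :
    D.TB t * g = g * D.TB (fun k => chi (u.1 (D.al k).1) t) := by
  have : CharZero K := charZero_of_injective_algebraMap (algebraMap ℂ K).injective
  have hT : ∀ (s : Fin n → Kˣ) (X : D.BI → K) (a : D.BI),
      (D.TB s *ᵥ X) a = ((chi (D.wI a) s : Kˣ) : K) * X a := by
    intro s X a
    rw [SLD.TB, Matrix.mulVec_diagonal]
  have hTt : ∀ (s : Fin n → Kˣ) (y : Fin n → K), D.TB s *ᵥ D.tt y = D.tt y := by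
    intro s y
    funext a
    rw [hT]
    rcases a with k | γ
    · rw [SLD.wI_inl, chi_zero, Units.val_one, one_mul]
    · rw [SLD.tt_inr, mul_zero]
  have hTe : ∀ (s : Fin n → Kˣ) (y : Fin n → ℤ),
      D.TB s *ᵥ D.er K y = ((chi y s : Kˣ) : K) • D.er K y := by
    intro s y
    funext a
    rw [hT, Pi.smul_apply, smul_eq_mul]
    rcases a with k | γ
    · rw [SLD.er_inl, mul_zero, mul_zero]
    · rw [SLD.er_inr, SLD.wI_inr]
      split_ifs with h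
      · rw [h]
      · rw [mul_zero, mul_zero]
  obtain ⟨u', hu', hc⟩ := hg.exists_u (fun x γ => by rw [h1 x]; rfl)
  have huu : u' = u := by
    have h2 : ∀ x : Fin n → K, D.tact u' x = D.tact u x := fun x =>
      D.tt_inj ((hu' x).symm.trans (h1 x))
    have h3 : u'⁻¹ = u⁻¹ := by
      apply Subtype.ext
      apply LinearEquiv.ext
      intro y
      refine SLD.ev_inj (K := K) fun x => ?_
      have h4 := D.ev_tact u' y x
      have h5 := D.ev_tact u y x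
      rw [h2 x] at h4
      exact h4.symm.trans h5
    exact inv_injective h3
  subst huu
  have hchi : ∀ y : Fin n → ℤ, chi y (fun k => chi (u'.1 (D.al k).1) t) = chi (u'.1 y) t := by
    intro y
    have h2 : ∀ j, (u'.1 y) j = ∑ k, y k * (u'.1 (D.al k).1) j := by
      intro j
      conv_lhs => rw [D.eq_sum_al y]
      rw [map_sum, Finset.sum_apply]
      refine Finset.sum_congr rfl fun k _ => ?_
      rw [map_zsmul, Pi.smul_apply, smul_eq_mul]
    have h4 : ∀ (s : Finset (Fin n)) (a : Kˣ) (f : Fin n → ℤ), a ^ (∑ k ∈ s, f k) =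
        ∏ k ∈ s, a ^ f k := by
      intro s a f
      induction s using Finset.induction_on with
      | empty => simp
      | insert b s hb ih => rw [Finset.sum_insert hb, Finset.prod_insert hb, _root_.zpow_add, ih]
    unfold chi
    simp only [h2, h4, Finset.prod_zpow]
    simp only [← Finset.prod_zpow]
    rw [Finset.prod_comm]
    refine Finset.prod_congr rfl fun k _ => Finset.prod_congr rfl fun j _ => ?_
    rw [← _root_.zpow_mul, mul_comm]
  refine Matrix.ext_of_mulVec_single fun a => ?_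
  rw [← Matrix.mulVec_mulVec, ← Matrix.mulVec_mulVec]
  rcases a with k | γ
  · rw [← D.tt_single, h1, hTt, hTt, h1]
  · obtain ⟨c, -, hc⟩ := hc γ
    rw [← D.er_root, hc, hTe, Matrix.mulVec_smul, Matrix.mulVec_smul, hc, hTe, hchi, smul_comm]

end IsGp

end Pool.Agent.MTX
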