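import Pool.Agent.MTX.L7
import Pool.Agent.MP_c45d35_ag.Val

/-! # MTX, Part L : equations of the group, transfer to extension fields (row L8) -/

namespace Pool.Agent.MTX

open Matrix

open Pool.Agent.MTD (ev ev_add ev_sub ev_neg ev_smul ev_zero ev_add_left ev_sub_left ev_neg_left
  ev_smul_left ev_zero_left ev_sum_left ev_sum ev_map ev_comm)

open Pool.Agent.MP_c45d35_ag (chi chi_add chi_mul chi_zero chi_one chi_inv chi_map transfer)

variable {n : ℕ}

/-- the generic matrix -/
noncomputable def SLD.X0 (D : SLD n) : Matrix D.BI D.BI (MvPolynomial (D.BI × D.BI) ℂ) :=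
  fun a c => MvPolynomial.X (a, c)

namespace Frm

variable {D : SLD n} (F : Frm D)

/-- The equations of the adjoint group: it preserves the bracket, the invariant form, the form `F`,
and has determinant `1`. -/
def eqs : Set (MvPolynomial (D.BI × D.BI) ℂ) :=
  {p | ∃ a c d, p = (D.X0 *ᵥ D.br (Pi.single a 1) (Pi.single c 1)) d -
      D.br (D.X0 *ᵥ Pi.single a 1) (D.X0 *ᵥ Pi.single c 1) d} ∪
  {p | ∃ a c, p = D.ka (D.X0 *ᵥ Pi.single a 1) (D.X0 *ᵥ Pi.single c 1) -
      MvPolynomial.C (D.kp a c)} ∪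
  {p | ∃ i, p = F.val (fun j => D.X0 *ᵥ Pi.single (i j) 1) - MvPolynomial.C (F.c i)} ∪
  {D.X0.det - 1}

/-- `g` satisfies the equations iff it is in the group.  For `φ = aeval (fun q => g q.1 q.2)`,
`D.X0.map φ = g`; `br_map`, `ka_map`, `val_map`, `RingHom.map_det`, `RingHom.map_mulVec`;
`IsGp.of_basis` (`ka_single`, `val_single`). -/
theorem isGp_iff {R : Type*} [CommRing R] [Algebra ℂ R] (g : Matrix D.BI D.BI R) :
    IsGp F g ↔ ∀ p ∈ F.eqs, MvPolynomial.aeval (fun q : D.BI × D.BI => g q.1 q.2) p = 0 := by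
  set φ : MvPolynomial (D.BI × D.BI) ℂ →ₐ[ℂ] R :=
    MvPolynomial.aeval (fun q : D.BI × D.BI => g q.1 q.2) with hφ
  have hX : ∀ b a, φ (D.X0 b a) = g b a := by
    intro b a
    rw [hφ, SLD.X0, MvPolynomial.aeval_X]
  have hmv : ∀ (v : D.BI → MvPolynomial (D.BI × D.BI) ℂ) (d : D.BI),
      φ ((D.X0 *ᵥ v) d) = (g *ᵥ fun b => φ (v b)) d := by
    intro v d
    simp only [Matrix.mulVec, dotProduct, map_sum, map_mul, hX]
  have hs : ∀ a : D.BI, (fun b => φ ((Pi.single a 1 : D.BI → MvPolynomial (D.BI × D.BI) ℂ) b)) =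
      (Pi.single a 1 : D.BI → R) := by
    intro a
    funext b
    by_cases hb : b = a
    · subst hb
      rw [Pi.single_eq_same, Pi.single_eq_same, map_one]
    · rw [Pi.single_eq_of_ne hb, Pi.single_eq_of_ne hb, map_zero]
  have hms : ∀ a : D.BI, (fun b => φ ((D.X0 *ᵥ Pi.single a 1) b)) = g *ᵥ Pi.single a 1 := by
    intro a
    funext b
    rw [hmv, hs]
  have hb : ∀ (X Y : D.BI → MvPolynomial (D.BI × D.BI) ℂ) (d : D.BI),
      φ (D.br X Y d) = D.br (fun b => φ (X b)) (fun b => φ (Y b)) d :=
    fun X Y d => D.br_map (φ : MvPolynomial (D.BI × D.BI) ℂ →+* R) X Y d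
  have e1 : ∀ a c d, φ ((D.X0 *ᵥ D.br (Pi.single a 1) (Pi.single c 1)) d -
      D.br (D.X0 *ᵥ Pi.single a 1) (D.X0 *ᵥ Pi.single c 1) d) =
      (g *ᵥ D.br (Pi.single a 1) (Pi.single c 1)) d -
        D.br (g *ᵥ Pi.single a 1) (g *ᵥ Pi.single c 1) d := by
    intro a c d
    rw [map_sub, hmv, hb, hms, hms]
    congr 2
    funext b
    rw [hb, hs, hs]
  have e2 : ∀ a c, φ (D.ka (D.X0 *ᵥ Pi.single a 1) (D.X0 *ᵥ Pi.single c 1) -
      MvPolynomial.C (D.kp a c)) =
      D.ka (g *ᵥ Pi.single a 1) (g *ᵥ Pi.single c 1) - algebraMap ℂ R (D.kp a c) := by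
    intro a c
    rw [map_sub, D.ka_map, hms, hms]
    congr 1
    exact φ.commutes _
  have e3 : ∀ i : Fin F.k → D.BI, φ (F.val (fun j => D.X0 *ᵥ Pi.single (i j) 1) -
      MvPolynomial.C (F.c i)) =
      F.val (fun j => g *ᵥ Pi.single (i j) 1) - algebraMap ℂ R (F.c i) := by
    intro i
    rw [map_sub, F.val_map]
    have h1 : (fun (j : Fin F.k) (a : D.BI) => φ ((D.X0 *ᵥ Pi.single (i j) 1) a)) =
        fun j => g *ᵥ Pi.single (i j) 1 := funext fun j => hms (i j)
    congr 1
    · rw [← h1]
    · exact φ.commutes _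
  have e4 : φ (D.X0.det - 1) = g.det - 1 := by
    rw [map_sub, map_one, AlgHom.map_det]
    congr 2
    ext b a
    exact hX b a
  constructor
  · intro hg p hp
    rcases hp with ((⟨a, c, d, rfl⟩ | ⟨a, c, rfl⟩) | ⟨i, rfl⟩) | hp
    · rw [e1, hg.br, sub_self]
    · rw [e2, hg.ka, D.ka_single, sub_self]
    · rw [e3, hg.frm, F.val_single, sub_self]
    · rw [Set.mem_singleton_iff] at hp
      rw [hp, e4, hg.det, sub_self]
  · intro h
    refine IsGp.of_basis ?_ ?_ ?_ ?_
    · intro a c
      funext d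
      have h1 := h _ (Or.inl (Or.inl (Or.inl ⟨a, c, d, rfl⟩)))
      rw [e1] at h1
      exact sub_eq_zero.1 h1
    · intro a c
      have h1 := h _ (Or.inl (Or.inl (Or.inr ⟨a, c, rfl⟩)))
      rw [e2] at h1
      exact sub_eq_zero.1 h1
    · intro i
      have h1 := h _ (Or.inl (Or.inr ⟨i, rfl⟩))
      rw [e3] at h1
      exact sub_eq_zero.1 h1
    · have h1 := h _ (Or.inr rfl)
      rw [e4] at h1
      exact sub_eq_zero.1 h1

/-- The coefficientwise image of a polynomial over `K` under a linear functional. -/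
noncomputable def lin {σ K : Type*} [Field K] [Algebra ℂ K] (φ : K →ₗ[ℂ] ℂ)
    (P : MvPolynomial σ K) : MvPolynomial σ ℂ :=
  ∑ m ∈ P.support, MvPolynomial.monomial m (φ (P.coeff m))

/-- evaluation at complex points -/
theorem eval_lin {σ K : Type*} [Field K] [Algebra ℂ K] (φ : K →ₗ[ℂ] ℂ) (P : MvPolynomial σ K)
    (v : σ → ℂ) : MvPolynomial.eval v (lin φ P) =
      φ (MvPolynomial.eval (fun i => algebraMap ℂ K (v i)) P) := by
  rw [lin, map_sum, MvPolynomial.eval_eq, map_sum]
  refine Finset.sum_congr rfl fun m _ => ?_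
  rw [MvPolynomial.eval_monomial]
  have h : (∏ i ∈ m.support, (algebraMap ℂ K (v i)) ^ m i) =
      algebraMap ℂ K (∏ i ∈ m.support, v i ^ m i) := by
    rw [map_prod]
    exact Finset.prod_congr rfl fun i _ => (map_pow _ _ _).symm
  rw [h, _root_.mul_comm (P.coeff m), ← Algebra.smul_def, map_smul, smul_eq_mul, Finsupp.prod,
    _root_.mul_comm]

/-- A polynomial over `K` that vanishes at all complex points of the group vanishes at all `K`-points
of the group.  `b : Basis` of `K` over `ℂ`; `P_j = lin (b.coord j) P` vanishes on the complex group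
(`eval_lin`), so at `g` (`transfer` with `E = F.eqs`, `isGp_iff`); and `P(g) = ∑_j b_j * P_j(g)`: expand
every coefficient `coeff m P = ∑_j (b.coord j (coeff m P)) • b_j` (finite sum over the union of the
supports of the `b.repr (coeff m P)`). -/
theorem transferK {K : Type*} [Field K] [Algebra ℂ K] (P : MvPolynomial (D.BI × D.BI) K)
    (h : ∀ g : Matrix D.BI D.BI ℂ, IsGp F g →
      MvPolynomial.eval (fun q : D.BI × D.BI => algebraMap ℂ K (g q.1 q.2)) P = 0)
    (g : Matrix D.BI D.BI K) (hg : IsGp F g) :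
    MvPolynomial.eval (fun q : D.BI × D.BI => g q.1 q.2) P = 0 := by
  classical
  set b := Module.Basis.ofVectorSpace ℂ K with hb
  have h1 : ∀ j, MvPolynomial.aeval (fun q : D.BI × D.BI => g q.1 q.2)
      (lin (b.coord j) P) = 0 := by
    intro j
    refine transfer F.eqs _ ?_ (fun q : D.BI × D.BI => g q.1 q.2) ((isGp_iff F g).1 hg)
    intro v hv
    have h2 : IsGp F (fun a c => v (a, c) : Matrix D.BI D.BI ℂ) := by
      rw [isGp_iff]
      intro p hp
      have h3 := hv p hp
      rw [MvPolynomial.aeval_eq_eval]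
      exact h3
    rw [eval_lin]
    have h4 := h _ h2
    have h5 : MvPolynomial.eval (fun i => algebraMap ℂ K (v i)) P = 0 := h4
    rw [h5, map_zero]
  set w : D.BI × D.BI → K := fun q => g q.1 q.2 with hw
  set J := P.support.biUnion fun m => (b.repr (P.coeff m)).support with hJ
  have hrep : ∀ m ∈ P.support, P.coeff m = ∑ j ∈ J, b.repr (P.coeff m) j • b j := by
    intro m hm
    conv_lhs => rw [← b.linearCombination_repr (P.coeff m), Finsupp.linearCombination_apply]
    exact Finsupp.sum_of_support_subset _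
      (Finset.subset_biUnion_of_mem (fun m => (b.repr (P.coeff m)).support) hm) _
      (fun j _ => zero_smul _ _)
  have h6 : MvPolynomial.eval w P = ∑ j ∈ J, b j * MvPolynomial.aeval w (lin (b.coord j) P) := by
    have h7 : ∀ j, MvPolynomial.aeval w (lin (b.coord j) P) =
        ∑ m ∈ P.support, algebraMap ℂ K (b.repr (P.coeff m) j) * ∏ i ∈ m.support, w i ^ m i := by
      intro j
      rw [lin, map_sum]
      refine Finset.sum_congr rfl fun m _ => ?_
      rw [MvPolynomial.aeval_monomial]
      rfl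
    simp only [h7, Finset.mul_sum]
    rw [Finset.sum_comm, MvPolynomial.eval_eq]
    refine Finset.sum_congr rfl fun m hm => ?_
    conv_lhs => rw [hrep m hm]
    rw [Finset.sum_mul]
    refine Finset.sum_congr rfl fun j _ => ?_
    rw [Algebra.smul_def]
    ring
  rw [h6]
  exact Finset.sum_eq_zero fun j _ => by rw [h1, mul_zero]

end Frm

theorem l8c_mul {K : Type*} [Field K] (V : ValuationSubring K) {P Q : Polynomial K}
    (hP : ∀ k, P.coeff k ∈ V) (hQ : ∀ k, Q.coeff k ∈ V) (k : ℕ) : (P * Q).coeff k ∈ V := by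
  rw [Polynomial.coeff_mul]
  exact sum_mem fun x _ => mul_mem (hP _) (hQ _)

/-- A polynomial over `K` whose values at all complex numbers are in `V` has coefficients in `V`:
`Lagrange.eq_interpolate` with the nodes `0, 1, ..., natDegree`; the Lagrange basis polynomials for
integer nodes are images of polynomials over `ℂ`. -/
theorem coeff_mem {K : Type*} [Field K] [Algebra ℂ K] (V : ValuationSubring K)
    (hV : ∀ z : ℂ, algebraMap ℂ K z ∈ V) (Q : Polynomial K)
    (h : ∀ z : ℂ, Q.eval (algebraMap ℂ K z) ∈ V) (k : ℕ) : Q.coeff k ∈ V := by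
  classical
  let v : ℕ → K := fun i => algebraMap ℂ K (i : ℂ)
  let s := Finset.range (Q.natDegree + 1)
  have hinj : Set.InjOn v s := fun i _ j _ hij => by
    exact_mod_cast (algebraMap ℂ K).injective hij
  have hdeg : Q.degree < s.card := by
    rw [Finset.card_range]
    exact Polynomial.degree_le_natDegree.trans_lt (by exact_mod_cast Nat.lt_succ_self _)
  have h1 := Lagrange.eq_interpolate hinj hdeg
  have hC : ∀ c ∈ V, ∀ k, (Polynomial.C c : Polynomial K).coeff k ∈ V := by
    intro c hc k
    rw [Polynomial.coeff_C]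
    split_ifs
    · exact hc
    · exact zero_mem V
  have hb : ∀ i j, ∀ k, (Lagrange.basisDivisor (v i) (v j)).coeff k ∈ V := by
    intro i j
    unfold Lagrange.basisDivisor
    refine l8c_mul V (hC _ ?_) ?_
    · have h2 : (v i - v j)⁻¹ = algebraMap ℂ K (((i : ℂ) - (j : ℂ))⁻¹) := by
        rw [map_inv₀, map_sub]
      rw [h2]
      exact hV _
    · intro k
      rw [Polynomial.coeff_sub, Polynomial.coeff_X]
      refine sub_mem ?_ (hC _ (hV _) k)
      split_ifs
      · exact one_mem V
      · exact zero_mem V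
  have hbas : ∀ i, ∀ k, (Lagrange.basis s v i).coeff k ∈ V := by
    intro i
    unfold Lagrange.basis
    refine Finset.prod_induction _ (fun P : Polynomial K => ∀ k, P.coeff k ∈ V)
      (fun P Q hP hQ => l8c_mul V hP hQ) ?_ fun j _ => hb i j
    intro k
    rw [Polynomial.coeff_one]
    split_ifs
    · exact one_mem V
    · exact zero_mem V
  have h2 : Q.coeff k = (Lagrange.interpolate s v fun i => Q.eval (v i)).coeff k :=
    congrArg (fun P : Polynomial K => P.coeff k) h1
  rw [h2, Lagrange.interpolate_apply, Polynomial.finsetSum_coeff]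
  exact sum_mem fun i _ => l8c_mul V (hC _ (h _)) (hbas i) k

/-- Let `f : ι → K` be a family whose values lie in a finite dimensional complex subspace, not all
zero.  Then some value `f j ≠ 0` divides all others with quotient in `V`.
The span of the values is finite dimensional, so spanned by finitely many values
(`Submodule.fg_span_iff_fg_span_finset_subset`); among them choose one whose valuation
`V.valuation (f j)` is maximal; every value is a complex combination of them, so has valuation `≤`
(`Valuation.map_sum_le`, `valuation_le_one_iff`); `x / y ∈ V` iff `v x ≤ v y`. -/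
theorem exists_div {K : Type*} [Field K] [Algebra ℂ K] (V : ValuationSubring K)
    (hV : ∀ z : ℂ, algebraMap ℂ K z ∈ V) {ι : Type*} (f : ι → K) (S : Finset K)
    (hS : ∀ i, f i ∈ Submodule.span ℂ (S : Set K)) (h0 : ∃ i, f i ≠ 0) :
    ∃ j, f j ≠ 0 ∧ ∀ i, ∃ v ∈ V, f i = v * f j := by
  classical
  have hfg : (Submodule.span ℂ (Set.range f)).FG := by
    refine Submodule.FG.of_le (T := Submodule.span ℂ (S : Set K)) ⟨S, rfl⟩ ?_
    rw [Submodule.span_le]
    rintro _ ⟨i, rfl⟩
    exact hS i
  obtain ⟨s', hs', hsp⟩ := (Submodule.fg_span_iff_fg_span_finset_subset _).1 hfg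
  obtain ⟨i0, hi0⟩ := h0
  have hi0s : f i0 ∈ Submodule.span ℂ (s' : Set K) := by
    rw [← hsp]
    exact Submodule.subset_span ⟨i0, rfl⟩
  have hne : s'.Nonempty := by
    rw [Finset.nonempty_iff_ne_empty]
    rintro rfl
    rw [Finset.coe_empty, Submodule.span_empty, Submodule.mem_bot] at hi0s
    exact hi0 hi0s
  obtain ⟨y, hy, hmax⟩ := Finset.exists_max_image s' (fun x => V.valuation x) hne
  obtain ⟨j, rfl⟩ := hs' hy
  have key : ∀ x ∈ Submodule.span ℂ (s' : Set K), V.valuation x ≤ V.valuation (f j) := by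
    intro x hx
    induction hx using Submodule.span_induction with
    | mem x hx => exact hmax x hx
    | zero =>
      rw [map_zero]
      exact zero_le
    | add x y _ _ hx hy => exact (V.valuation.map_add x y).trans (max_le hx hy)
    | smul c x _ hx =>
      rw [Algebra.smul_def, map_mul]
      have h1 : V.valuation (algebraMap ℂ K c) ≤ 1 := (V.valuation_le_one_iff _).2 (hV c)
      exact (mul_le_mul' h1 hx).trans (by rw [one_mul])
  have hj : f j ≠ 0 := by
    intro hj
    have h2 := key _ hi0s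
    rw [hj, map_zero, le_zero_iff, map_eq_zero] at h2
    exact hi0 h2
  refine ⟨j, hj, fun i => ⟨f i / f j, ?_, (div_mul_cancel₀ _ hj).symm⟩⟩
  have h3 : f i ∈ Submodule.span ℂ (s' : Set K) := by
    rw [← hsp]
    exact Submodule.subset_span ⟨i, rfl⟩
  rw [← V.valuation_le_one_iff, map_div₀]
  exact div_le_one_of_le₀ (key _ h3) zero_le

end Pool.Agent.MTX
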