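import Pool.Agent.MTX.F4

/-! # MTX, Part Q : elements commuting with the group commute with the Lie algebra (row Q1) -/

namespace Pool.Agent.MTX

open Matrix
open Pool.Agent.MTD (ev ev_add ev_sub ev_neg ev_smul ev_zero ev_add_left ev_sub_left ev_neg_left
  ev_smul_left ev_zero_left ev_sum_left ev_sum ev_map ev_comm)
open Pool.Agent.MP_c45d35_ag (chi chi_add chi_mul chi_zero chi_one chi_inv chi_map)

variable {n m : ℕ} {D : SLD n}

/-- The trivial folding. -/
def Fold.triv (D : SLD n) : Fold D n where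
  s := id
  o := id
  r := id
  s_s _ := rfl
  Tm_s _ _ := rfl
  orth _ h := absurd rfl h
  o_r _ := rfl
  o_s _ := rfl
  o_eq _ _ h := Or.inl h

theorem Fold.triv_sB (a : D.BI) : (Fold.triv D).sB a = a := by
  rcases a with k | γ
  · rfl
  · rfl

theorem Fold.triv_IM {R : Type*} (g : Matrix D.BI D.BI R) : (Fold.triv D).IM g := fun a c => by
  rw [Fold.triv_sB, Fold.triv_sB]

theorem Fold.triv_IV {R : Type*} (v : D.BI → R) : (Fold.triv D).IV v := fun a => by
  rw [Fold.triv_sB]

theorem Fold.triv_isGs (F : Frm D) {R : Type*} [CommRing R] [Algebra ℂ R]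
    (g : Matrix D.BI D.BI R) : IsGs (Fold.triv D) F g ↔ IsGp F g :=
  ⟨fun h => h.gp, fun h => ⟨h, Fold.triv_IM g⟩⟩

/-- A matrix commuting with `exp(uA)` for all complex `u` commutes with `A`: an entry of
`M exp(uA) - exp(uA) M = ∑_k u^k/k! (M A^k - A^k M)` is a polynomial in `u` that vanishes identically
(`Polynomial.funext`), its coefficient of `u` is that of `M A - A M` (`2 ≤ N`: `b_0`, `e_{α_0}` are two
indices). -/
theorem comm_of_exp {M A : Matrix D.BI D.BI ℂ} (h : ∀ u : ℂ, Commute M (D.expB (u • A))) :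
    Commute M A := by
  have hN : 1 < D.N := by
    have h2 : (Sum.inl ⟨0, D.npos⟩ : D.BI) ≠ Sum.inr (D.al ⟨0, D.npos⟩) := by simp
    exact Fintype.one_lt_card_iff.2 ⟨_, _, h2⟩
  have key : ∀ a c, (M * A - A * M) a c = 0 := by
    intro a c
    set p : Polynomial ℂ := ∑ k ∈ Finset.range D.N,
      Polynomial.C ((1 / (k.factorial : ℂ)) * (M * A ^ k - A ^ k * M) a c) * Polynomial.X ^ k
      with hp
    have h0 : p = 0 := by
      apply Polynomial.funext
      intro u
      rw [Polynomial.eval_zero, hp, Polynomial.eval_finsetSum]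
      have h1 : (M * D.expB (u • A) - D.expB (u • A) * M) a c = 0 := by
        rw [(h u).eq, sub_self, Matrix.zero_apply]
      rw [SLD.expB, Matrix.mul_sum, Matrix.sum_mul, ← Finset.sum_sub_distrib,
        Matrix.sum_apply] at h1
      rw [← h1]
      refine Finset.sum_congr rfl fun k _ => ?_
      rw [Polynomial.eval_mul, Polynomial.eval_C, Polynomial.eval_pow, Polynomial.eval_X,
        smul_pow, Matrix.mul_smul, Matrix.smul_mul, Matrix.mul_smul, Matrix.smul_mul, ← smul_sub,
        ← smul_sub, Matrix.smul_apply, Matrix.smul_apply, smul_eq_mul, smul_eq_mul]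
      simp only [Algebra.algebraMap_self, RingHom.id_apply]
      ring
    have h1 : p.coeff 1 = 0 := by rw [h0, Polynomial.coeff_zero]
    rw [hp, Polynomial.finsetSum_coeff, Finset.sum_eq_single 1] at h1
    · rw [Polynomial.coeff_C_mul, Polynomial.coeff_X_pow, if_pos rfl, mul_one, pow_one,
        Nat.factorial_one, Nat.cast_one, div_one, one_mul] at h1
      exact h1
    · intro k _ hk
      rw [Polynomial.coeff_C_mul, Polynomial.coeff_X_pow, if_neg (Ne.symm hk), mul_zero]
    · intro h2
      exact absurd (Finset.mem_range.2 hN) h2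
  have h1 : M * A - A * M = 0 := by
    ext a c
    exact key a c
  exact sub_eq_zero.1 h1

theorem q1_zpow {a b : ℤ} (h : (2 : ℂ) ^ a = 2 ^ b) : a = b := by
  have h1 := congrArg norm h
  rw [norm_zpow, norm_zpow, Complex.norm_ofNat] at h1
  exact zpow_right_injective₀ (by norm_num : (0 : ℝ) < 2) (by norm_num) h1

theorem q1_chi {μ ν : Fin m → ℤ} (h : ∀ t : Fin m → ℂˣ, chi μ t = chi ν t) : μ = ν := by
  funext k
  have h2 : (2 : ℂ) ≠ 0 := two_ne_zero
  have h1 : ∀ ξ : Fin m → ℤ,
      chi ξ (Function.update (1 : Fin m → ℂˣ) k (Units.mk0 2 h2)) = (Units.mk0 2 h2) ^ ξ k := by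
    intro ξ
    unfold chi
    rw [Finset.prod_eq_single k]
    · rw [Function.update_self]
    · intro j _ hj
      rw [Function.update_of_ne hj, Pi.one_apply, _root_.one_zpow]
    · intro h3; exact absurd (Finset.mem_univ k) h3
  have h3 := h (Function.update 1 k (Units.mk0 2 h2))
  rw [h1, h1] at h3
  have h4 := congrArg Units.val h3
  rw [Units.val_zpow_eq_zpow_val, Units.val_zpow_eq_zpow_val] at h4
  exact q1_zpow h4

/-- A matrix commuting with the fixed torus commutes with its Lie algebra: `M a c ≠ 0` gives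
`chi (ro (wI a)) t = chi (ro (wI c)) t` for all `t` (`chi_ro`), hence `ro (wI a) = ro (wI c)` (take `t` equal to
`2` at one place and `1` elsewhere), hence equal values at `x` (`ev_ro`, `ad_tt`). -/
theorem comm_of_TB (E : Fold D m) {M : Matrix D.BI D.BI ℂ}
    (h : ∀ t : Fin m → ℂˣ, Commute M (D.TB fun i => t (E.o i))) (x : Fin m → ℂ) :
    Commute M (D.ad (D.tt fun i => x (E.o i))) := by
  have key : ∀ a c, M a c ≠ 0 → E.ro (D.wI a) = E.ro (D.wI c) := by
    intro a c hne
    apply q1_chi
    intro t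
    rw [E.chi_ro, E.chi_ro]
    apply Units.ext
    have h1 := congrFun (congrFun (h t).eq a) c
    rw [SLD.TB, Matrix.mul_diagonal, Matrix.diagonal_mul] at h1
    rw [mul_comm] at h1
    exact (mul_right_cancel₀ hne h1).symm
  show M * _ = _ * M
  rw [D.ad_tt]
  ext a c
  rw [Matrix.mul_diagonal, Matrix.diagonal_mul]
  by_cases hM : M a c = 0
  · rw [hM, zero_mul, mul_zero]
  · rw [← E.ev_ro, ← E.ev_ro, key a c hM, mul_comm]

/-- A matrix commuting with the folded group commutes with `ad s` for every invariant `s`: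
`s = s⁺ + tt (x ∘ o) + s⁻` (components of positive, zero, negative height; `x k = s (inl (r k))`, `o_eq`), each part
invariant (`hI_sB`); `isGs_exp_up`, `isGs_exp_down` for `u • s⁺`, `u • s⁻` (`ad_smul`, `comm_of_exp`), `isGs_TB`. -/
theorem comm_of_isGs (E : Fold D m) (F : Frm D) {M : Matrix D.BI D.BI ℂ}
    (h : ∀ g : Matrix D.BI D.BI ℂ, IsGs E F g → Commute M g) {s : D.BI → ℂ} (hs : E.IV s) :
    Commute M (D.ad s) := by
  classical
  set sp : D.BI → ℂ := fun a => if 0 < D.hI a then s a else 0 with hsp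
  set sm : D.BI → ℂ := fun a => if D.hI a < 0 then s a else 0 with hsm
  set x : Fin m → ℂ := fun k => s (Sum.inl (E.r k)) with hx
  have hxo : ∀ i, x (E.o i) = s (Sum.inl i) := by
    intro i
    show s (Sum.inl (E.r (E.o i))) = s (Sum.inl i)
    rcases E.o_eq (E.r (E.o i)) i (by rw [E.o_r]) with h1 | h1
    · rw [h1]
    · rw [h1]
      exact hs (Sum.inl i)
  have hsum : s = sp + (D.tt fun i => x (E.o i)) + sm := by
    funext a
    rw [Pi.add_apply, Pi.add_apply]
    simp only [hsp, hsm]
    rcases a with k | γ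
    · rw [SLD.hI_inl, if_neg (lt_irrefl _), SLD.tt_inl, hxo, zero_add,
        add_zero]
    · rw [SLD.tt_inr, add_zero]
      rcases lt_trichotomy (D.hI (Sum.inr γ)) 0 with h1 | h1 | h1
      · rw [if_neg (by omega), if_pos h1, zero_add]
      · exact absurd h1 (D.ht_ne γ)
      · rw [if_pos h1, if_neg (by omega), add_zero]
  have ivp : E.IV sp := by
    intro a
    simp only [hsp]
    rw [E.hI_sB, hs a]
  have ivm : E.IV sm := by
    intro a
    simp only [hsm]
    rw [E.hI_sB, hs a]
  have cp : Commute M (D.ad sp) := by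
    apply comm_of_exp
    intro u
    rw [← D.ad_smul]
    refine h _ (E.isGs_exp_up F ?_ (ivp.smul u))
    intro a ha
    by_contra h1
    apply ha
    rw [Pi.smul_apply]
    simp only [hsp]
    rw [if_neg h1, smul_zero]
  have cm : Commute M (D.ad sm) := by
    apply comm_of_exp
    intro u
    rw [← D.ad_smul]
    refine h _ (E.isGs_exp_down F ?_ (ivm.smul u))
    intro a ha
    by_contra h1
    apply ha
    rw [Pi.smul_apply]
    simp only [hsm]
    rw [if_neg h1, smul_zero]
  have c0 : Commute M (D.ad (D.tt fun i => x (E.o i))) :=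
    comm_of_TB E (fun t => h _ (E.isGs_TB F t)) x
  rw [hsum, D.ad_add, D.ad_add]
  exact (cp.add_right c0).add_right cm

theorem comm_of_isGp (F : Frm D) {M : Matrix D.BI D.BI ℂ}
    (h : ∀ g : Matrix D.BI D.BI ℂ, IsGp F g → Commute M g) (s : D.BI → ℂ) :
    Commute M (D.ad s) :=
  comm_of_isGs (Fold.triv D) F (fun g hg => h g hg.gp) (Fold.triv_IV s)

end Pool.Agent.MTX
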