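import Pool.Agent.MTX.L10

/-! # MTX, Part Z : the Killing form is a multiple of the invariant form -/

namespace Pool.Agent.MTX

open Matrix

open Pool.Agent.MTD (ev ev_add ev_sub ev_neg ev_smul ev_zero ev_add_left ev_sub_left ev_neg_left
  ev_smul_left ev_zero_left ev_sum_left ev_sum ev_map ev_comm)

namespace SLD

variable {n : ℕ} (D : SLD n)

/-- the Killing form -/
noncomputable def kil (X Y : D.BI → ℂ) : ℂ := (D.ad X * D.ad Y).trace

theorem kil_comm (X Y : D.BI → ℂ) : D.kil X Y = D.kil Y X := Matrix.trace_mul_comm _ _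

theorem kil_add_left (X X' Y : D.BI → ℂ) : D.kil (X + X') Y = D.kil X Y + D.kil X' Y := by
  unfold kil; rw [ad_add, Matrix.add_mul, Matrix.trace_add]

theorem kil_smul_left (r : ℂ) (X Y : D.BI → ℂ) : D.kil (r • X) Y = r * D.kil X Y := by
  unfold kil; rw [ad_smul, Matrix.smul_mul, Matrix.trace_smul, smul_eq_mul]

theorem kil_sum_left {κ : Type*} (s : Finset κ) (f : κ → D.BI → ℂ) (Y : D.BI → ℂ) :
    D.kil (∑ i ∈ s, f i) Y = ∑ i ∈ s, D.kil (f i) Y := by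
  unfold kil; rw [ad_sum, Finset.sum_mul, Matrix.trace_sum]

theorem kil_sum_right {κ : Type*} (s : Finset κ) (X : D.BI → ℂ) (f : κ → D.BI → ℂ) :
    D.kil X (∑ i ∈ s, f i) = ∑ i ∈ s, D.kil X (f i) := by
  rw [kil_comm, kil_sum_left]
  exact Finset.sum_congr rfl fun i _ => D.kil_comm _ _

theorem kil_smul_right (r : ℂ) (X Y : D.BI → ℂ) : D.kil X (r • Y) = r * D.kil X Y := by
  rw [kil_comm, kil_smul_left, kil_comm]

/-- `z_γ` -/
noncomputable def kz (γ : D.Rt) : ℂ := D.kil (D.er ℂ (-γ.1)) (D.er ℂ γ.1)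

theorem kz_ne (γ : D.Rt) : D.kz γ ≠ 0 := by
  obtain ⟨z, h1, h2⟩ := D.trace_ne ℂ γ
  unfold kz kil
  rw [h2]
  exact h1

theorem br_neg_pos (γ : D.Rt) : D.br (D.er ℂ (-γ.1)) (D.er ℂ γ.1) = D.tt (D.hv ℂ γ.1) := by
  have h3 := D.br_er_er (R := ℂ) (D.ng γ) γ
  rw [ng_val, neg_add_cancel, if_pos rfl, D.er_zero, smul_zero, zero_sub, ← D.tt_neg] at h3
  rw [h3]
  congr 1
  funext k
  rw [Pi.neg_apply]
  simp only [hv]
  rw [D.B_neg_right, Int.cast_neg, neg_neg]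

/-- (1) -/
theorem kil_hv (γ : D.Rt) (x : Fin n → ℂ) :
    D.kil (D.tt (D.hv ℂ γ.1)) (D.tt x) = - (D.kz γ * ev γ.1 x) := by
  have h1 := D.trace_br (D.er ℂ (-γ.1)) (D.er ℂ γ.1) (D.tt x)
  rw [D.br_neg_pos, D.br_er_tt] at h1
  have h2 : D.kil (D.tt (D.hv ℂ γ.1)) (D.tt x) = D.kil (D.er ℂ (-γ.1)) (-(ev γ.1 x • D.er ℂ γ.1)) :=
    h1
  rw [h2, ← neg_smul, kil_smul_right, kz]
  ring

/-- (2) -/
theorem kz_al : ∃ z : ℂ, ∀ i, D.kz (D.al i) = z := by
  have h1 : ∀ i j, D.kz (D.al i) * (D.C i j : ℂ) = D.kz (D.al j) * (D.C j i : ℂ) := by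
    intro i j
    have e1 := D.kil_hv (D.al i) (D.hv ℂ (D.al j).1)
    have e2 := D.kil_hv (D.al j) (D.hv ℂ (D.al i).1)
    rw [kil_comm] at e2
    rw [e2, D.ev_hv, D.ev_hv, D.B_al_al, D.B_al_al] at e1
    have e3 := neg_inj.1 e1
    exact e3.symm
  refine ⟨D.kz (D.al ⟨0, D.npos⟩), fun i => ?_⟩
  have h2 := D.conn {i | D.kz (D.al i) = D.kz (D.al ⟨0, D.npos⟩)} ⟨⟨0, D.npos⟩, rfl⟩ ?_
  · have h3 : i ∈ {i | D.kz (D.al i) = D.kz (D.al ⟨0, D.npos⟩)} := by rw [h2]; exact Set.mem_univ i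
    exact h3
  · intro i hi j hC
    show D.kz (D.al j) = _
    have hi' : D.kz (D.al i) = D.kz (D.al ⟨0, D.npos⟩) := hi
    rw [← hi']
    have h3 := h1 i j
    rw [D.symm j i] at h3
    have h4 : (D.C i j : ℂ) ≠ 0 := by exact_mod_cast hC
    exact (mul_right_cancel₀ h4 h3).symm

/-- (3) -/
theorem kil_tt {z : ℂ} (hz : ∀ i, D.kz (D.al i) = z) (y x : Fin n → ℂ) :
    D.kil (D.tt y) (D.tt x) = - z * D.ka (D.tt y) (D.tt x) := by
  have h1 : D.tt y = ∑ i, (D.Ci *ᵥ y) i • D.tt (D.hv ℂ (D.al i).1) := by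
    funext a
    rcases a with k | γ
    · have h2 : (D.Cc *ᵥ (D.Ci *ᵥ y)) k = y k := by
        rw [Matrix.mulVec_mulVec, D.mul_Ci, Matrix.one_mulVec]
      rw [Finset.sum_apply]
      simp only [Pi.smul_apply, tt_inl, smul_eq_mul]
      rw [← h2]
      show ∑ i, D.Cc k i * (D.Ci *ᵥ y) i = _
      refine Finset.sum_congr rfl fun i _ => ?_
      rw [mul_comm]
      congr 1
      show ((D.C k i : ℤ) : ℂ) = ((D.B (D.al k).1 (D.al i).1 : ℤ) : ℂ)
      rw [D.B_al_al]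
    · simp [Finset.sum_apply]
  rw [h1, kil_sum_left, D.ka_sum_left, Finset.mul_sum]
  refine Finset.sum_congr rfl fun i _ => ?_
  rw [kil_smul_left, D.ka_smul_left, kil_hv, hz, D.ka_comm, D.ka_tt_hv]
  ring

/-- (4) -/
theorem kz_eq {z : ℂ} (hz : ∀ i, D.kz (D.al i) = z) (γ : D.Rt) : D.kz γ = z := by
  have h1 := D.kil_hv γ (D.hv ℂ γ.1)
  rw [D.kil_tt hz, D.ka_tt_hv, D.ev_hv, γ.2] at h1
  have h2 : D.kz γ * ((2 : ℤ) : ℂ) = z * ((2 : ℤ) : ℂ) := by linear_combination h1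
  exact mul_right_cancel₀ (by norm_num) h2

/-- the Killing form is a nonzero multiple of `ka` -/
theorem killing : ∃ c : ℂ, c ≠ 0 ∧ ∀ X Y : D.BI → ℂ, (D.ad X * D.ad Y).trace = c * D.ka X Y := by
  obtain ⟨z, hz⟩ := D.kz_al
  refine ⟨-z, neg_ne_zero.2 (hz ⟨0, D.npos⟩ ▸ D.kz_ne _), fun X Y => ?_⟩
  show D.kil X Y = _
  have hb : ∀ a c, D.kil (Pi.single a 1) (Pi.single c 1) = -z * D.kp a c := by
    intro a c
    by_cases hw : D.wI a + D.wI c = 0
    · rcases a with k | γ <;> rcases c with l | δ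
      · rw [← D.tt_single, ← D.tt_single, D.kil_tt hz, D.tt_single, D.tt_single, D.ka_single]
        rfl
      · exfalso
        rw [wI_inl, wI_inr, zero_add] at hw
        exact D.Rt_ne_zero δ hw
      · exfalso
        rw [wI_inl, wI_inr, add_zero] at hw
        exact D.Rt_ne_zero γ hw
      · rw [wI_inr, wI_inr] at hw
        have h1 : γ.1 = - δ.1 := eq_neg_of_add_eq_zero_left hw
        have h2 : D.kp (Sum.inr γ) (Sum.inr δ) = -1 := by
          show (if γ.1 + δ.1 = 0 then (-1 : ℂ) else 0) = -1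
          rw [if_pos hw]
        rw [h2, ← D.er_root, ← D.er_root, h1]
        show D.kz δ = _
        rw [D.kz_eq hz]
        ring
    · have h1 : D.kil (Pi.single a 1) (Pi.single c 1) = 0 := D.trace_single a c hw
      have h2 : D.kp a c = 0 := by
        by_contra h
        exact hw (D.kp_wt h)
      rw [h1, h2, mul_zero]
  have hX : ∀ X : D.BI → ℂ, X = ∑ a, X a • (Pi.single a (1 : ℂ) : D.BI → ℂ) := by
    intro X
    funext b
    simp [Finset.sum_apply, Pi.single_apply]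
  have h1 : D.kil X Y = ∑ a, ∑ c, X a * (Y c * (-z * D.kp a c)) := by
    conv_lhs => rw [hX X, hX Y]
    rw [kil_sum_left]
    refine Finset.sum_congr rfl fun a _ => ?_
    rw [kil_sum_right]
    refine Finset.sum_congr rfl fun c _ => ?_
    rw [kil_smul_left, kil_smul_right, hb]
  rw [h1]
  unfold ka
  rw [Finset.mul_sum]
  refine Finset.sum_congr rfl fun a _ => ?_
  rw [Finset.mul_sum]
  refine Finset.sum_congr rfl fun c _ => ?_
  rw [Algebra.algebraMap_self, RingHom.id_apply]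
  ring

end SLD

end Pool.Agent.MTX
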