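import Pool.Agent.MTX.Def2
import Pool.Agent.MTX.Z1
import Pool.Agent.MTX.L15c
import Pool.Agent.MTX.Q1
import Pool.Agent.MTX.F5

/-!
# MTX, Part Q : semisimple groups of all types
-/

namespace Pool.Agent.MTX

open Matrix
open Pool.Agent.MTD (MTR MT RegF prodAlg CentralIsogeny)

section exc
variable {n m : ℕ}

/-- The adjoint group of the simply laced Lie algebra `D` -/
def Eg (D : SLD n) (F : Frm D) : Set (Matrix (Fin D.N) (Fin D.N) ℂ) := {g | IsGp F (D.ofN g)}

/-- The subgroup of the matrices that commute with the diagram automorphism. -/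
def Fg {D : SLD n} (E : Fold D m) (F : Frm D) : Set (Matrix (Fin D.N) (Fin D.N) ℂ) :=
  {g | IsGp F (D.ofN g) ∧ ∀ a c, D.ofN g (E.sB a) (E.sB c) = D.ofN g a c}

/-- Its Slodowy slice: the points `e + v` of the slice with `v` invariant. -/
def Fs {D : SLD n} (E : Fold D m) (r : Fin n → ℤ) : Set (Matrix (Fin D.N) (Fin D.N) ℂ) :=
  {M | ∃ v : D.BI → ℂ, D.br (ffv D r) v = 0 ∧ (∀ a, v (E.sB a) = v a) ∧
    M = D.toN (D.ad (D.ee ℂ + v))}

theorem Fg_iff {D : SLD n} (E : Fold D m) (F : Frm D) (g : Matrix (Fin D.N) (Fin D.N) ℂ) :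
    g ∈ Fg E F ↔ IsGs E F (D.ofN g) := ⟨fun h => ⟨h.1, h.2⟩, fun h => ⟨h.gp, h.im⟩⟩

/-- an automorphism preserves the invariant form (`killing`) -/
theorem aut_ka {D : SLD n} {g : Matrix D.BI D.BI ℂ}
    (hg : ∀ X Y, g *ᵥ D.br X Y = D.br (g *ᵥ X) (g *ᵥ Y)) (hd : IsUnit g.det) (X Y : D.BI → ℂ) :
    D.ka (g *ᵥ X) (g *ᵥ Y) = D.ka X Y := by
  obtain ⟨c, hc, h⟩ := D.killing
  have h1 : ∀ X, D.ad (g *ᵥ X) = g * D.ad X * g⁻¹ := by
    intro X
    have h2 : D.ad (g *ᵥ X) * g = g * D.ad X := by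
      refine Matrix.ext_of_mulVec_single fun a => ?_
      rw [← Matrix.mulVec_mulVec, ← Matrix.mulVec_mulVec]
      exact (hg X (Pi.single a 1)).symm
    rw [← h2, Matrix.mul_assoc, Matrix.mul_nonsing_inv _ hd, Matrix.mul_one]
  have h2 := h (g *ᵥ X) (g *ᵥ Y)
  rw [h1, h1, show g * D.ad X * g⁻¹ * (g * D.ad Y * g⁻¹) = g * (D.ad X * D.ad Y) * g⁻¹ by
    rw [Matrix.mul_assoc (g * D.ad X), ← Matrix.mul_assoc g⁻¹, ← Matrix.mul_assoc g⁻¹,
      Matrix.nonsing_inv_mul _ hd, Matrix.one_mul]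
    simp only [Matrix.mul_assoc], Matrix.trace_mul_comm, ← Matrix.mul_assoc,
    Matrix.nonsing_inv_mul _ hd, Matrix.one_mul, h] at h2
  exact (mul_left_cancel₀ hc h2).symm

theorem aut1_eq {D : SLD n} (F : Frm D) (hF : F.k = 0) : Aut1 D = Eg D F := by
  ext g
  constructor
  · intro hg
    have hd : IsUnit (D.ofN g).det := aut1_unit hg
    refine ⟨hg.1, aut_ka hg.1 hd, fun X => ?_, by rw [D.ofN_det]; exact hg.2⟩
    congr 1
    funext j
    exact absurd j.2 (by omega)
  · intro hg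
    exact ⟨hg.br, by rw [← D.ofN_det]; exact hg.det⟩

theorem F27_eq (X : Fin 5 → SLD.E6.BI → ℂ) : F27 X = SLD.FE6.val X := rfl

theorem E6g_eq : E6g = Eg SLD.E6 SLD.FE6 := by
  ext g
  constructor
  · rintro ⟨hg, hF⟩
    exact ⟨hg.1, aut_ka hg.1 (aut1_unit hg), hF, by rw [SLD.E6.ofN_det]; exact hg.2⟩
  · intro hg
    exact ⟨⟨hg.br, by rw [← SLD.E6.ofN_det]; exact hg.det⟩, hg.frm⟩

theorem F4g_eq : F4g = Fg foldE6 SLD.FE6 := by
  ext g
  rw [F4g_iff, E6g_eq]
  exact Iff.rfl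

theorem F4s_eq (r : Fin 6 → ℤ) : F4s r = Fs foldE6 r := by
  unfold F4s Fs
  simp only [sb6_eq]

end exc

namespace Ty

theorem isUnit_of_mem {c : Ty} {g : Matrix (Fin c.N) (Fin c.N) ℂ} (hg : g ∈ c.gset) : IsUnit g := by
  cases c with
  | cl c => exact MTD.Cl.isUnit_of_mem hg
  | E6 => exact aut1_isUnit hg.1
  | E7 => exact aut1_isUnit hg
  | E8 => exact aut1_isUnit hg
  | F4 => exact aut1_isUnit hg.1.1

/-- The regular functions on the group: the algebra generated by the matrix entries. -/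
def OG (c : Ty) : Subalgebra ℂ (c.grp → ℂ) :=
  Algebra.adjoin ℂ (Set.range fun ij : Fin c.N × Fin c.N => fun g : c.grp => g.1.1 ij.1 ij.2)

/-- The regular functions on the slice: the algebra generated by the matrix entries. -/
def OS (c : Ty) : Subalgebra ℂ (c.slice → ℂ) :=
  Algebra.adjoin ℂ (Set.range fun ij : Fin c.N × Fin c.N => fun s : c.slice => s.1 ij.1 ij.2)

/-- The centraliser of a point of the slice. -/
def Z (c : Ty) (s : c.slice) : Set c.grp := {g | Commute g.1.1 s.1}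

end Ty

/-! ## Products -/

section prod
variable {I : Type} (c : I → Ty)

/-- The regular functions on the product of the groups. -/
def OGP : Subalgebra ℂ ((∀ i, (c i).grp) → ℂ) := prodAlg fun i => (c i).OG

/-- The regular functions on the product of the slices. -/
def OSP : Subalgebra ℂ ((∀ i, (c i).slice) → ℂ) := prodAlg fun i => (c i).OS

/-- The centraliser of a point of the product of the slices in the product of the groups. -/
def ZP (s : ∀ i, (c i).slice) : Set (∀ i, (c i).grp) := {m | ∀ i, m i ∈ (c i).Z (s i)}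

/-- The centraliser of `s` in `G`. -/
def ZG {G Q : Type} [Group G] [Group Q] (p : (∀ i, (c i).grp) →* Q) (π : G →* Q)
    (s : ∀ i, (c i).slice) : Set G := {g | ∃ m ∈ ZP c s, p m = π g}

end prod

end Pool.Agent.MTX
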