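import Pool.Agent.MTD.St
import Pool.Agent.MTX.Q2

/-! # MTX, Part Q : semisimple groups of all types (row Q3) -/

namespace Pool.Agent.MTX

open Matrix
open Pool.Agent.MTD (MTR MT RegF prodAlg CentralIsogeny)

/-- finite generation for the exceptional types `E_6, E_7, E_8, F_4` -/
structure FGX : Prop where
  E6 : ∀ b, (MTR Ty.E6.gset Ty.E6.slice b).FG
  E7 : ∀ b, (MTR Ty.E7.gset Ty.E7.slice b).FG
  E8 : ∀ b, (MTR Ty.E8.gset Ty.E8.slice b).FG
  F4 : ∀ b, (MTR Ty.F4.gset Ty.F4.slice b).FG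

theorem ty_fg (H : FGX) (c : Ty) (b : ℕ) : (MT c.OG c.OS c.Z b).FG := by
  have key : (MTR c.gset c.slice b).FG → (MT c.OG c.OS c.Z b).FG := fun h =>
    MTD.transfer c.gset c.slice c.grp (fun g => Iff.rfl) (fun g hg => Ty.isUnit_of_mem hg) b h
  cases c with
  | cl c => exact MTD.cl_fg c b
  | E6 => exact key (H.E6 b)
  | E7 => exact key (H.E7 b)
  | E8 => exact key (H.E8 b)
  | F4 => exact key (H.F4 b)

section exc
variable {n m : ℕ} {D : SLD n} {F : Frm D}

theorem q3_toN_comm {M A : Matrix D.BI D.BI ℂ} (h : Commute M A) :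
    Commute (D.toN M) (D.toN A) := by
  show D.toN M * D.toN A = D.toN A * D.toN M
  rw [← D.toN_mul, ← D.toN_mul]
  exact congrArg D.toN h

/-- an element commuting with the group commutes with the matrices `ad s` -/
theorem q3_E {M : Matrix (Fin D.N) (Fin D.N) ℂ} (h : ∀ g ∈ Eg D F, g * M = M * g)
    (s : D.BI → ℂ) : Commute M (D.toN (D.ad s)) := by
  have h1 : Commute (D.ofN M) (D.ad s) := comm_of_isGp F (fun g hg => by
    have h2 := h (D.toN g) (by show IsGp F (D.ofN (D.toN g)); rw [D.ofN_toN]; exact hg)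
    have h3 := congrArg D.ofN h2
    rw [D.ofN_mul, D.ofN_mul, D.ofN_toN] at h3
    exact h3.symm) s
  have h2 := q3_toN_comm h1
  rwa [D.toN_ofN] at h2

theorem q3_F (E : Fold D m) {M : Matrix (Fin D.N) (Fin D.N) ℂ} (h : ∀ g ∈ Fg E F, g * M = M * g)
    {s : D.BI → ℂ} (hs : E.IV s) : Commute M (D.toN (D.ad s)) := by
  have h1 : Commute (D.ofN M) (D.ad s) := comm_of_isGs E F (fun g hg => by
    have h2 := h (D.toN g) (by rw [Fg_iff, D.ofN_toN]; exact hg)
    have h3 := congrArg D.ofN h2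
    rw [D.ofN_mul, D.ofN_mul, D.ofN_toN] at h3
    exact h3.symm) hs
  have h2 := q3_toN_comm h1
  rwa [D.toN_ofN] at h2

theorem q3_Es {M : Matrix (Fin D.N) (Fin D.N) ℂ} (h : ∀ g ∈ Eg D F, g * M = M * g)
    {r : Fin n → ℤ} {s : Matrix (Fin D.N) (Fin D.N) ℂ} (hs : s ∈ Es D r) : Commute M s := by
  obtain ⟨v, -, rfl⟩ := hs
  exact q3_E h _

theorem q3_Fs (E : Fold D m) {M : Matrix (Fin D.N) (Fin D.N) ℂ}
    (h : ∀ g ∈ Fg E F, g * M = M * g) {r : Fin n → ℤ} {s : Matrix (Fin D.N) (Fin D.N) ℂ}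
    (hs : s ∈ Fs E r) : Commute M s := by
  obtain ⟨v, -, hv, rfl⟩ := hs
  exact q3_F E h (Fold.IV.add E.IV_ee hv)

end exc

/-- **Central elements of the group commute with the points of the slice.** -/
theorem central_comm (c : Ty) (m : c.grp) (hm : m ∈ Subgroup.center c.grp) (s : c.slice) :
    Commute m.1.1 s.1 := by
  have key : ∀ g ∈ c.gset, g * m.1.1 = m.1.1 * g := by
    intro g hg
    obtain ⟨u, hu⟩ := Ty.isUnit_of_mem hg
    have h2 : u ∈ c.grp := by
      change u.1 ∈ c.gset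
      rw [hu]
      exact hg
    have h3 := Subgroup.mem_center_iff.1 hm ⟨u, h2⟩
    have h4 : u.1 * m.1.1 = m.1.1 * u.1 := congrArg (fun g : c.grp => g.1.1) h3
    rw [← hu]
    exact h4
  cases c with
  | cl c => exact MTD.central_comm c m hm s
  | E6 => exact q3_Es (F := SLD.FE6) (by rw [← E6g_eq]; exact key) s.2
  | E7 => exact q3_Es (F := SLD.FE7) (by rw [← aut1_eq SLD.FE7 rfl]; exact key) s.2
  | E8 => exact q3_Es (F := SLD.FE8) (by rw [← aut1_eq SLD.FE8 rfl]; exact key) s.2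
  | F4 =>
    have hs : s.1 ∈ Fs foldE6 ![42, 22, 30, 30, 16, 16] := by rw [← F4s_eq]; exact s.2
    exact q3_Fs (F := SLD.FE6) foldE6 (by rw [← F4g_eq]; exact key) hs

section
variable {I : Type} [Finite I] (c : I → Ty)

theorem OGP_fg : (OGP c).FG :=
  MTD.prodAlg_fg fun _ => Subalgebra.fg_def.2 ⟨_, Set.finite_range _, rfl⟩

theorem OSP_fg : (OSP c).FG :=
  MTD.prodAlg_fg fun _ => Subalgebra.fg_def.2 ⟨_, Set.finite_range _, rfl⟩

theorem one_mem_Z (c : Ty) (s : c.slice) : 1 ∈ c.Z s := Commute.one_left _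

theorem mtP_fg (H : FGX) (b : ℕ) : (MT (OGP c) (OSP c) (ZP c) b).FG :=
  MTD.prod_fg (fun i => (c i).grp) (fun i => (c i).slice) (fun i => (c i).OG) (fun i => (c i).OS)
    (fun i => (c i).Z) (fun i s => one_mem_Z (c i) s) b fun i => ty_fg H (c i) b

/-- Elements with the same image under a central isogeny centralise the same points. -/
theorem ZP_preimage {Q : Type} [Group Q] (p : (∀ i, (c i).grp) →* Q)
    (hp : p.ker ≤ Subgroup.center (∀ i, (c i).grp)) (s : ∀ i, (c i).slice) :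
    p ⁻¹' (p '' ZP c s) = ZP c s := by
  classical
  refine Set.Subset.antisymm ?_ (Set.subset_preimage_image _ _)
  rintro m ⟨m', hm', hmm⟩ i
  have hz : m * m'⁻¹ ∈ p.ker := by
    rw [MonoidHom.mem_ker, map_mul, map_inv, hmm, mul_inv_cancel]
  have hzc := Subgroup.mem_center_iff.1 (hp hz)
  have hi : (m * m'⁻¹) i ∈ Subgroup.center (c i).grp := by
    rw [Subgroup.mem_center_iff]
    intro g
    have h1 := congrFun (hzc (Pi.mulSingle i g)) i
    simpa only [Pi.mul_apply, Pi.mulSingle_eq_same] using h1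
  have h2 := central_comm (c i) _ hi (s i)
  have h3 : m i = (m * m'⁻¹) i * m' i := by
    rw [Pi.mul_apply, Pi.inv_apply, inv_mul_cancel_right]
  show Commute (m i).1.1 (s i).1
  rw [h3]
  have h4 : ((m * m'⁻¹) i * m' i).1.1 = ((m * m'⁻¹) i).1.1 * (m' i).1.1 := rfl
  rw [h4]
  exact h2.mul_left (hm' i)

theorem mt_semisimple (H : FGX) {Q G : Type} [Group Q] [Group G] (OQ : Subalgebra ℂ (Q → ℂ))
    (OG : Subalgebra ℂ (G → ℂ)) (p : (∀ i, (c i).grp) →* Q) (π : G →* Q)
    (hp : CentralIsogeny (OGP c) OQ p) (hπ : CentralIsogeny OG OQ π) (hG : OG.FG) (b : ℕ) :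
    (MT OG (OSP c) (ZG c p π) b).FG := by
  have h1 : (MT OQ (OSP c) (fun s => p '' ZP c s) b).FG := by
    refine (MTD.isog_fg hp (OGP_fg c) (OSP_fg c) (fun s => p '' ZP c s) b).1 ?_
    have : (fun s => p ⁻¹' (p '' ZP c s)) = ZP c := funext fun s => ZP_preimage c p hp.central s
    rw [this]
    exact mtP_fg c H b
  have h2 := (MTD.isog_fg hπ hG (OSP_fg c) (fun s => p '' ZP c s) b).2 h1
  exact h2

end

section
variable {I : Type} (c : I → Ty)

theorem OM_eq : OM c = OGP c := by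
  refine le_antisymm (Algebra.adjoin_le ?_) (Algebra.adjoin_le ?_)
  · rintro f ⟨i, j, k, rfl⟩
    have h : (fun m : ∀ i, (c i).grp => (m i).1.1 j k) ∈ OGP c :=
      Algebra.subset_adjoin ⟨i, fun g => g.1.1 j k, Algebra.subset_adjoin ⟨(j, k), rfl⟩, rfl⟩
    exact h
  · rintro f ⟨i, g, hg, rfl⟩
    change (fun x : MG c => g (x i)) ∈ OM c
    let φ : ((c i).grp → ℂ) →ₐ[ℂ] (MG c → ℂ) :=
      { toFun := fun g x => g (x i)
        map_one' := rfl
        map_mul' := fun _ _ => rfl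
        map_zero' := rfl
        map_add' := fun _ _ => rfl
        commutes' := fun _ => rfl }
    have h : (c i).OG ≤ (OM c).comap φ := by
      refine Algebra.adjoin_le ?_
      rintro _ ⟨jk, rfl⟩
      exact Algebra.subset_adjoin ⟨i, jk.1, jk.2, rfl⟩
    exact h hg

theorem OSl_eq : OSl c = OSP c := by
  refine le_antisymm (Algebra.adjoin_le ?_) (Algebra.adjoin_le ?_)
  · rintro f ⟨i, j, k, rfl⟩
    have h : (fun m : ∀ i, (c i).slice => (m i).1 j k) ∈ OSP c :=
      Algebra.subset_adjoin ⟨i, fun g => g.1 j k, Algebra.subset_adjoin ⟨(j, k), rfl⟩, rfl⟩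
    exact h
  · rintro f ⟨i, g, hg, rfl⟩
    change (fun x : MS c => g (x i)) ∈ OSl c
    let φ : ((c i).slice → ℂ) →ₐ[ℂ] (MS c → ℂ) :=
      { toFun := fun g x => g (x i)
        map_one' := rfl
        map_mul' := fun _ _ => rfl
        map_zero' := rfl
        map_add' := fun _ _ => rfl
        commutes' := fun _ => rfl }
    have h : (c i).OS ≤ (OSl c).comap φ := by
      refine Algebra.adjoin_le ?_
      rintro _ ⟨jk, rfl⟩
      exact Algebra.subset_adjoin ⟨i, jk.1, jk.2, rfl⟩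
    exact h hg

/-- **Main theorem**, given finite generation for `E_6, E_7, E_8, F_4`. -/
theorem mt_main (H : FGX) [Finite I] {Q G : Type} [Group Q] [Group G] (OQ : Subalgebra ℂ (Q → ℂ))
    (OG : Subalgebra ℂ (G → ℂ)) (p : MG c →* Q) (π : G →* Q)
    (hp : CentralIsogeny (OM c) OQ p) (hπ : CentralIsogeny OG OQ π) (hG : OG.FG) (b : ℕ) :
    (MT OG (OSl c) (centG c p π) b).FG := by
  rw [OM_eq] at hp
  rw [OSl_eq]
  exact mt_semisimple c H OQ OG p π hp hπ hG b

end

end Pool.Agent.MTX
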