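import Pool.Agent.MTX.Q3
import Pool.Agent.MTX.K11
import Pool.Agent.MTX.F6
import Pool.Agent.MTX.F7

/-! # MTX, Part Q : the slices and the groups as data (row Q4) -/

namespace Pool.Agent.MTX

open Matrix
open Pool.Agent.MTD (Dat ev ev_add ev_sub ev_neg ev_smul ev_zero ev_add_left ev_sub_left ev_neg_left
  ev_smul_left ev_zero_left ev_sum_left ev_sum ev_map ev_comm)

open SLD (AA)

variable {n m : ℕ}

/-- `r` is determined by `C r = 2` -/
theorem SLD.rv_eq (D : SLD n) {r : Fin n → ℂ} (hr : ∀ k, ∑ i, D.Cc k i * r i = 2) : r = D.rv := by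
  have h1 : D.Cc *ᵥ r = D.Cc *ᵥ D.rv := by
    funext k
    show ∑ i, D.Cc k i * r i = ∑ i, D.Cc k i * D.rv i
    rw [hr, D.Cc_rv]
  have h2 := congrArg (fun v => D.Ci *ᵥ v) h1
  simpa only [Matrix.mulVec_mulVec, D.Ci_mul, Matrix.one_mulVec] using h2

theorem ffv_eq (D : SLD n) {r : Fin n → ℤ} (hr : ∀ k, ∑ i, D.C k i * r i = 2) :
    ffv D r = D.ff ℂ := by
  have h1 : (fun i => (r i : ℂ)) = D.rv := by
    apply D.rv_eq
    intro k
    have h2 := congrArg (Int.cast : ℤ → ℂ) (hr k)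
    push_cast at h2
    exact h2
  unfold ffv SLD.ff
  congr 1
  refine Finset.sum_congr rfl fun i _ => ?_
  rw [← congrFun h1 i]
  rfl

/-- `D.rv` is invariant under the automorphism of the diagram -/
theorem Fold.rv_s {D : SLD n} (E : Fold D m) (i : Fin n) : D.rv (E.s i) = D.rv i := by
  have h : (fun i => D.rv (E.s i)) = D.rv := by
    apply D.rv_eq
    intro k
    rw [← D.Cc_rv (E.s k), ← Equiv.sum_comp E.sE (fun i => D.Cc (E.s k) i * D.rv i)]
    refine Finset.sum_congr rfl fun i _ => ?_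
    rw [E.sE_apply]
    congr 1
    show ((D.C k i : ℤ) : ℂ) = ((D.C (E.s k) (E.s i) : ℤ) : ℂ)
    rw [E.C_s]
  exact congrFun h i

/-- `f` is invariant under the automorphism of the diagram -/
theorem Fold.IV_ff {D : SLD n} (E : Fold D m) (R : Type*) [CommRing R] [Algebra ℂ R] :
    E.IV (D.ff R) := by
  intro a
  unfold SLD.ff
  simp only [Pi.neg_apply, Finset.sum_apply, Pi.smul_apply, smul_eq_mul]
  congr 1
  rw [← Equiv.sum_comp E.sE]
  refine Finset.sum_congr rfl fun i _ => ?_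
  rw [E.sE_apply, E.rv_s, E.er_sB, E.sQ_neg, E.sQ_al, E.s_s]

section E
variable (D : SLD n) (F : Frm D)

theorem Eg_eq : Eg D F = (D.dat F D.S0 D.sv D.pm).Gs := by
  ext g
  exact (D.isG_iff F D.S0 D.sv D.pm g).symm

theorem Es_eq {r : Fin n → ℤ} (hr : ∀ k, ∑ i, D.C k i * r i = 2) :
    Es D r = (D.dat F D.S0 D.sv D.pm).S := by
  ext M
  constructor
  · rintro ⟨v, hv, rfl⟩
    rw [ffv_eq D hr] at hv
    exact ⟨D.ee ℂ + v, ⟨v, hv, rfl⟩, rfl⟩
  · rintro ⟨s, ⟨v, hv, rfl⟩, rfl⟩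
    refine ⟨v, ?_, rfl⟩
    rw [ffv_eq D hr]
    exact hv

end E

section F
variable {D : SLD n} (E : Fold D m) (F : Frm D)

theorem Fg_eq : Fg E F = (E.datF F D.S0 D.sv D.pm).Gs := by
  ext g
  rw [Fg_iff]
  exact (E.isG_iff F D.S0 D.sv D.pm g).symm

theorem IV_of_add {v : D.BI → ℂ} (h : E.IV (D.ee ℂ + v)) : E.IV v := by
  intro a
  have h1 := h a
  rw [Pi.add_apply, Pi.add_apply, E.IV_ee] at h1
  exact add_left_cancel h1

theorem Fs_eq {r : Fin n → ℤ} (hr : ∀ k, ∑ i, D.C k i * r i = 2) :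
    Fs E r = (E.datF F D.S0 D.sv D.pm).S := by
  ext M
  constructor
  · rintro ⟨v, hv, hI, rfl⟩
    rw [ffv_eq D hr] at hv
    exact ⟨D.ee ℂ + v, ⟨v, hv, rfl⟩, Fold.IV.add E.IV_ee hI, rfl⟩
  · rintro ⟨s, ⟨v, hv, rfl⟩, hI, rfl⟩
    refine ⟨v, ?_, IV_of_add E hI, rfl⟩
    rw [ffv_eq D hr]
    exact hv

include F in
theorem equiv_slice : (∀ a c, MvPolynomial.rename E.s (D.pm a c) = D.pm (E.sB a) (E.sB c)) ∧
    ∀ a, MvPolynomial.rename E.s (D.sv a) = D.sv (E.sB a) := by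
  refine E.equivF F (fun v => ∃ w, D.Ff (AA n) *ᵥ w = 0 ∧ v = D.ee (AA n) + w) (D.pm_G F)
    D.pm_BrU.lo D.pm_conj ⟨D.sk, D.sk_ker, rfl⟩ ?_ ?_
  · rintro _ ⟨w, hw, rfl⟩
    refine ⟨E.f7d_P w, ?_, ?_⟩
    · have h1 : D.br (D.ff (AA n)) w = 0 := hw
      have h2 : E.f7d_P (D.ff (AA n)) = D.ff (AA n) := by
        funext a
        show MvPolynomial.rename E.s (D.ff (AA n) (E.sB a)) = D.ff (AA n) a
        rw [E.IV_ff, ← D.ff_map (AA n)]
        exact (MvPolynomial.rename E.s : AA n →ₐ[ℂ] AA n).commutes _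
      show D.br (D.ff (AA n)) (E.f7d_P w) = 0
      rw [← h2, ← E.f7d_br, h1]
      funext a
      exact map_zero _
    · funext a
      show MvPolynomial.rename E.s ((D.ee (AA n) + w) (E.sB a)) = _
      rw [Pi.add_apply, map_add, Pi.add_apply, E.IV_ee]
      congr 1
      rw [← D.ee_map (AA n)]
      exact (MvPolynomial.rename E.s : AA n →ₐ[ℂ] AA n).commutes _
  · rintro u _ _ hbr hlo ⟨v, hv, rfl⟩ ⟨w, hw, rfl⟩ h
    exact SLD.BrU.eq_one ⟨hbr, hlo⟩ hv hw h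

/-- the invariants are polynomials in the coordinates of the slice -/
theorem SLD.inv_range (D : SLD n) (F : Frm D) (g : AA n) (hg : ∀ u ∈ D.W, u • g = g) :
    ∃ P : MvPolynomial D.BI ℂ, MvPolynomial.aeval D.sv P = g := by
  have h1 : g ∈ D.CC := D.inv_mem F g hg
  have h2 : D.CC ≤ (MvPolynomial.aeval (R := ℂ) D.sv).range := by
    unfold SLD.CC
    rw [Algebra.adjoin_le_iff]
    rintro _ ⟨j, rfl⟩
    unfold SLD.qc
    refine Subalgebra.sum_mem _ fun c _ => Subalgebra.mul_mem _ (Subalgebra.algebraMap_mem _ _) ?_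
    have h3 : D.sk c = D.sv c - algebraMap ℂ (AA n) (D.ee ℂ c) := by
      rw [D.ee_map (AA n)]
      unfold SLD.sv
      rw [Pi.add_apply, add_sub_cancel_left]
    rw [h3]
    exact Subalgebra.sub_mem _ ⟨MvPolynomial.X c, MvPolynomial.aeval_X _ _⟩
      (Subalgebra.algebraMap_mem _ _)
  exact h2 h1

theorem kostF : E.KostF F D.S0 D.sv D.pm where
  pm_G := D.pm_G F
  pm_conj := D.pm_conj
  sv_mem := (D.kost F).sv_mem
  sv_refl := (D.kost F).sv_refl
  pm_s := (equiv_slice E F).1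
  sv_s := (equiv_slice E F).2
  surj := E.surjF (D.kost F).sv_surj (D.kost F).sv_refl (equiv_slice E F).2 (D.inv_range F)
  nonss γ x hx := D.nonss hx

end F

/-! ### the vectors `r` -/

theorem rE6 : ∀ k, ∑ i, SLD.E6.C k i * (![42, 22, 30, 30, 16, 16] : Fin 6 → ℤ) i = 2 := by
  decide

theorem rE7 : ∀ k, ∑ i, SLD.E7.C k i * (![96, 49, 66, 75, 34, 52, 27] : Fin 7 → ℤ) i = 2 := by
  decide

theorem rE8 : ∀ k, ∑ i, SLD.E8.C k i * (![270, 136, 182, 220, 92, 168, 114, 58] : Fin 8 → ℤ) i = 2 := by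
  decide

end Pool.Agent.MTX
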