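import Pool.Agent.MTX.G2
import Pool.Agent.MTX.Q4
import Pool.Agent.MTX.D.Fin

/-! # MTX, Part Q : finite generation for `E_6, E_7, E_8, F_4` and the main theorem (row Q5) -/

namespace Pool.Agent.MTX

open Pool.Agent.MTD (MTR MT CentralIsogeny)

theorem fg_E {n : ℕ} (D : SLD n) (F : Frm D) {r : Fin n → ℤ}
    (hr : ∀ k, ∑ i, D.C k i * r i = 2) (b : ℕ) : (MTR (Eg D F) (Es D r) b).FG := by
  rw [Eg_eq D F, Es_eq D F hr]
  exact MTXD.mt_fg (D.big_ax F) (gax_big F _ _ _ (D.bigG F)) b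

theorem fg_F {n m : ℕ} {D : SLD n} (E : Fold D m) (F : Frm D) {r : Fin n → ℤ}
    (hr : ∀ k, ∑ i, D.C k i * r i = 2) (b : ℕ) : (MTR (Fg E F) (Fs E r) b).FG := by
  rw [Fg_eq E F, Fs_eq E F hr]
  exact MTXD.mt_fg (E.axF F (kostF E F)) (E.gaxF F _ _ _ (D.bigG F) (E.axF F (kostF E F))) b

theorem fgx : FGX where
  E6 b := by
    have h := fg_E SLD.E6 SLD.FE6 rE6 b
    rw [← E6g_eq] at h
    exact h
  E7 b := by
    have h := fg_E SLD.E7 SLD.FE7 rE7 b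
    rw [← aut1_eq SLD.FE7 rfl] at h
    exact h
  E8 b := by
    have h := fg_E SLD.E8 SLD.FE8 rE8 b
    rw [← aut1_eq SLD.FE8 rfl] at h
    exact h
  F4 b := by
    have h := fg_F foldE6 SLD.FE6 rE6 b
    rw [← F4g_eq, ← F4s_eq] at h
    exact h

/-- **Main theorem.** -/
theorem mt_all {I : Type} (c : I → Ty) [Finite I] {Q G : Type} [Group Q] [Group G]
    (OQ : Subalgebra ℂ (Q → ℂ)) (OG : Subalgebra ℂ (G → ℂ)) (p : MG c →* Q) (π : G →* Q)
    (hp : CentralIsogeny (OM c) OQ p) (hπ : CentralIsogeny OG OQ π) (hG : OG.FG) (b : ℕ) :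
    (MT OG (OSl c) (centG c p π) b).FG :=
  mt_main c fgx OQ OG p π hp hπ hG b

end Pool.Agent.MTX
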