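import Pool.Agent.MTX.R0c

/-! # MTX, Part R : the root datum (sections 0 and 1 of MTX_PROOF.md), definitions

`SLD n` : simply laced datum of rank `n`.  `D.B` the form on `Q = Fin n → ℤ`, `D.Rt` the roots,
`D.al i` the simple roots, `D.pos γ` positivity (all coordinates `≥ 0`), `D.ht` the height,
`D.theta` a root of maximal height, `D.OQ` the isometry group, `D.W` the Weyl group,
`D.Aff` = `Q ⋊ OQ`, `D.ARt` the affine roots `γ + k ħ`. -/

namespace Pool.Agent.MTX

namespace SLD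

variable {n : ℕ} (D : SLD n)

/-- the negative of a root -/
def ng (γ : D.Rt) : D.Rt := ⟨-γ.1, by rw [B_neg_left, B_neg_right, neg_neg, γ.2]⟩

/-- positive roots: all coordinates `≥ 0` -/
def Pos (γ : D.Rt) : Prop := ∀ i, 0 ≤ γ.1 i

/-- the reflection `x ↦ x - B(γ, x) γ` -/
def rf (γ : D.Rt) (x : Fin n → ℤ) : Fin n → ℤ := x - D.B γ.1 x • γ.1

theorem rf_rf (γ : D.Rt) (x : Fin n → ℤ) : D.rf γ (D.rf γ x) = x := by
  have h : D.B γ.1 (x - D.B γ.1 x • γ.1) = - D.B γ.1 x := by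
    rw [B_sub_right, B_smul_right, γ.2]; ring
  simp only [rf, h]
  rw [neg_smul]; abel

theorem rf_add (γ : D.Rt) (x y : Fin n → ℤ) : D.rf γ (x + y) = D.rf γ x + D.rf γ y := by
  simp only [rf, B_add_right, add_smul]; abel

theorem rf_smul (γ : D.Rt) (k : ℤ) (x : Fin n → ℤ) : D.rf γ (k • x) = k • D.rf γ x := by
  simp only [rf, B_smul_right, smul_sub, mul_smul]

theorem B_rf (γ : D.Rt) (x y : Fin n → ℤ) : D.B (D.rf γ x) (D.rf γ y) = D.B x y := by
  simp only [rf, B_sub_left, B_sub_right, B_smul_left, B_smul_right, γ.2, D.B_comm x γ.1]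
  ring

/-- the isometry group `O(Q)` -/
def OQ : Subgroup ((Fin n → ℤ) ≃ₗ[ℤ] (Fin n → ℤ)) where
  carrier := {u | ∀ x y, D.B (u x) (u y) = D.B x y}
  mul_mem' := by
    intro u v hu hv x y
    show D.B (u (v x)) (u (v y)) = _
    rw [hu, hv]
  one_mem' := fun _ _ => rfl
  inv_mem' := by
    intro u hu x y
    have h := hu (u⁻¹ x) (u⁻¹ y)
    have h1 : ∀ z, u (u⁻¹ z) = z := fun z => by
      show (u * u⁻¹) z = z
      rw [mul_inv_cancel]; rfl
    rw [h1, h1] at h
    exact h.symm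

/-- the reflection as an isometry -/
def rO (γ : D.Rt) : D.OQ :=
  ⟨{ toFun := D.rf γ
     invFun := D.rf γ
     left_inv := D.rf_rf γ
     right_inv := D.rf_rf γ
     map_add' := D.rf_add γ
     map_smul' := D.rf_smul γ }, fun x y => D.B_rf γ x y⟩

theorem rO_apply (γ : D.Rt) (x : Fin n → ℤ) : (D.rO γ).1 x = D.rf γ x := rfl

/-- the Weyl group, generated by the simple reflections -/
def W : Subgroup D.OQ := Subgroup.closure (Set.range fun i => D.rO (D.al i))

/-- isometries act on roots -/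
instance : MulAction D.OQ D.Rt where
  smul u γ := ⟨u.1 γ.1, by rw [u.2, γ.2]⟩
  one_smul _ := rfl
  mul_smul _ _ _ := rfl

theorem smul_val (u : D.OQ) (γ : D.Rt) : (u • γ).1 = u.1 γ.1 := rfl

/-- The extended affine group `Q ⋊ O(Q)`: `(l, u) · p = u p + l`. -/
structure Aff (D : SLD n) where
  l : Fin n → ℤ
  u : D.OQ

@[ext] theorem Aff.ext' {D : SLD n} {w w' : D.Aff} (h1 : w.l = w'.l) (h2 : w.u = w'.u) :
    w = w' := by
  cases w; cases w'; cases h1; cases h2; rfl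

instance : Group D.Aff where
  mul w w' := ⟨w.l + w.u.1 w'.l, w.u * w'.u⟩
  one := ⟨0, 1⟩
  inv w := ⟨-(w.u⁻¹).1 w.l, w.u⁻¹⟩
  mul_assoc := by
    intro a b c
    apply Aff.ext'
    · show (a.l + a.u.1 b.l) + (a.u * b.u).1 c.l = a.l + a.u.1 (b.l + b.u.1 c.l)
      rw [map_add, add_assoc]; rfl
    · exact mul_assoc _ _ _
  one_mul := by
    intro a
    apply Aff.ext'
    · show 0 + (1 : D.OQ).1 a.l = a.l
      rw [zero_add]; rfl
    · exact one_mul _
  mul_one := by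
    intro a
    apply Aff.ext'
    · show a.l + a.u.1 0 = a.l
      rw [map_zero, add_zero]
    · exact mul_one _
  inv_mul_cancel := by
    intro a
    apply Aff.ext'
    · show -(a.u⁻¹).1 a.l + (a.u⁻¹).1 a.l = 0
      exact neg_add_cancel _
    · exact inv_mul_cancel _

theorem mul_l (w w' : D.Aff) : (w * w').l = w.l + w.u.1 w'.l := rfl
theorem mul_u (w w' : D.Aff) : (w * w').u = w.u * w'.u := rfl
theorem one_l : (1 : D.Aff).l = 0 := rfl
theorem one_u : (1 : D.Aff).u = 1 := rfl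

/-- the finite isometries inside `Aff` -/
def emb : D.OQ →* D.Aff where
  toFun u := ⟨0, u⟩
  map_one' := rfl
  map_mul' u v := by
    apply Aff.ext'
    · show (0 : Fin n → ℤ) = 0 + u.1 0
      rw [map_zero, add_zero]
    · rfl

/-- affine roots `γ + k ħ` -/
abbrev ARt := D.Rt × ℤ

/-- `(l, u) (γ, k) = (u γ, k - B(l, u γ))` -/
instance : MulAction D.Aff D.ARt where
  smul w b := (w.u • b.1, b.2 - D.B w.l (w.u • b.1).1)
  one_smul b := by
    show ((1 : D.OQ) • b.1, b.2 - D.B 0 _) = b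
    rw [B_zero_left, sub_zero, one_smul]
  mul_smul w w' b := by
    show ((w.u * w'.u) • b.1, b.2 - D.B (w.l + w.u.1 w'.l) ((w.u * w'.u) • b.1).1) =
      (w.u • w'.u • b.1, (b.2 - D.B w'.l (w'.u • b.1).1) - D.B w.l (w.u • w'.u • b.1).1)
    rw [mul_smul]
    refine Prod.ext rfl ?_
    show b.2 - D.B (w.l + w.u.1 w'.l) (w.u • w'.u • b.1).1 =
      (b.2 - D.B w'.l (w'.u • b.1).1) - D.B w.l (w.u • w'.u • b.1).1
    rw [B_add_left, smul_val D w.u, w.u.2]
    ring

theorem smul_fst (w : D.Aff) (b : D.ARt) : (w • b).1 = w.u • b.1 := rfl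
theorem smul_snd (w : D.Aff) (b : D.ARt) : (w • b).2 = b.2 - D.B w.l (w.u.1 b.1.1) := rfl

/-- `s_b = (-k γ, s_γ)` -/
def aref (b : D.ARt) : D.Aff := ⟨-(b.2 • b.1.1), D.rO b.1⟩

/-- `-(γ, k)` -/
def ang (b : D.ARt) : D.ARt := (D.ng b.1, -b.2)

/-- `(γ, k) > 0` -/
def apos (b : D.ARt) : Prop := 0 < b.2 ∨ (b.2 = 0 ∧ D.Pos b.1)

/-- The form is nondegenerate. -/
theorem B_nondeg (x : Fin n → ℤ) (h : ∀ y, D.B x y = 0) : x = 0 := by
  by_contra hx
  exact absurd (h x) (D.pos x hx).ne'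

/-- A root of maximal height exists. -/
theorem exists_theta : ∃ θ : D.Rt, ∀ γ : D.Rt, ht γ.1 ≤ ht θ.1 := by
  have : Nonempty D.Rt := ⟨D.al ⟨0, D.npos⟩⟩
  exact Finite.exists_max fun γ : D.Rt => ht γ.1

/-- the highest root -/
noncomputable def theta : D.Rt := D.exists_theta.choose

theorem theta_max (γ : D.Rt) : ht γ.1 ≤ ht D.theta.1 := D.exists_theta.choose_spec γ

/-- simple affine roots: `none ↦ (-θ, 1)`, `some i ↦ (α_i, 0)` -/
noncomputable def aal : Option (Fin n) → D.ARt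
  | none => (D.ng D.theta, 1)
  | some i => (D.al i, 0)

/-- dominant elements of `Q` -/
def Dom (x : Fin n → ℤ) : Prop := ∀ i, 0 ≤ D.B x (D.al i).1

end SLD

end Pool.Agent.MTX
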