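import Mathlib

/-! # MTX, Part R : definitions : simply laced data -/

namespace Pool.Agent.MTX

/-- the bilinear form of a matrix -/
def bil {n : ℕ} (C : Matrix (Fin n) (Fin n) ℤ) (x y : Fin n → ℤ) : ℤ :=
  ∑ i, ∑ j, x i * C i j * y j

/-- Simply laced datum. -/
structure SLD (n : ℕ) where
  C : Matrix (Fin n) (Fin n) ℤ
  symm : ∀ i j, C i j = C j i
  diag : ∀ i, C i i = 2
  off : ∀ i j, i ≠ j → C i j = 0 ∨ C i j = -1
  pos : ∀ x : Fin n → ℤ, x ≠ 0 → 0 < bil C x x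
  conn : ∀ s : Set (Fin n), s.Nonempty → (∀ i ∈ s, ∀ j, C i j ≠ 0 → j ∈ s) → s = Set.univ
  npos : 0 < n

namespace SLD

variable {n : ℕ} (D : SLD n)

/-- the form -/
def B (x y : Fin n → ℤ) : ℤ := bil D.C x y

/-- the roots -/
abbrev Rt := {γ : Fin n → ℤ // D.B γ γ = 2}

/-- the height -/
def ht (x : Fin n → ℤ) : ℤ := ∑ i, x i

end SLD

end Pool.Agent.MTX
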