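import Pool.Agent.MTX.R0a

/-! # MTX, Part R : the root system is finite -/

namespace Pool.Agent.MTX

namespace SLD

variable {n : ℕ} (D : SLD n)

theorem B_add_left (x x' y : Fin n → ℤ) : D.B (x + x') y = D.B x y + D.B x' y := by
  simp only [B, bil, Pi.add_apply, ← Finset.sum_add_distrib]
  exact Finset.sum_congr rfl fun i _ => Finset.sum_congr rfl fun j _ => by ring

theorem B_comm (x y : Fin n → ℤ) : D.B x y = D.B y x := by
  simp only [B, bil]
  rw [Finset.sum_comm]
  exact Finset.sum_congr rfl fun i _ => Finset.sum_congr rfl fun j _ => by rw [D.symm]; ring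

theorem B_add_right (x y y' : Fin n → ℤ) : D.B x (y + y') = D.B x y + D.B x y' := by
  rw [B_comm, B_add_left, B_comm D y, B_comm D y']

theorem B_smul_left (k : ℤ) (x y : Fin n → ℤ) : D.B (k • x) y = k * D.B x y := by
  simp only [B, bil, Pi.smul_apply, smul_eq_mul, Finset.mul_sum]
  exact Finset.sum_congr rfl fun i _ => Finset.sum_congr rfl fun j _ => by ring

theorem B_smul_right (k : ℤ) (x y : Fin n → ℤ) : D.B x (k • y) = k * D.B x y := by
  rw [B_comm, B_smul_left, B_comm]

theorem B_neg_left (x y : Fin n → ℤ) : D.B (-x) y = - D.B x y := by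
  have := D.B_smul_left (-1) x y
  simpa using this

theorem B_neg_right (x y : Fin n → ℤ) : D.B x (-y) = - D.B x y := by
  rw [B_comm, B_neg_left, B_comm]

theorem B_sub_left (x x' y : Fin n → ℤ) : D.B (x - x') y = D.B x y - D.B x' y := by
  rw [sub_eq_add_neg, B_add_left, B_neg_left]; ring

theorem B_sub_right (x y y' : Fin n → ℤ) : D.B x (y - y') = D.B x y - D.B x y' := by
  rw [sub_eq_add_neg, B_add_right, B_neg_right]; ring

theorem B_zero_left (y : Fin n → ℤ) : D.B 0 y = 0 := by simp [B, bil]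

theorem B_zero_right (y : Fin n → ℤ) : D.B y 0 = 0 := by simp [B, bil]

theorem B_single (i j : Fin n) : D.B (Pi.single i 1) (Pi.single j 1) = D.C i j := by
  simp only [B, bil, Pi.single_apply, ite_mul, one_mul, zero_mul, mul_ite, mul_one, mul_zero]
  simp

/-- `B(x, α_i)` -/
theorem B_single_right (x : Fin n → ℤ) (i : Fin n) :
    D.B x (Pi.single i 1) = ∑ j, x j * D.C j i := by
  simp only [B, bil, Pi.single_apply, mul_ite, mul_one, mul_zero]
  simp

theorem B_nonneg (x : Fin n → ℤ) : 0 ≤ D.B x x := by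
  by_cases h : x = 0
  · rw [h, B_zero_left]
  · exact (D.pos x h).le

/-- Cauchy–Schwarz -/
theorem B_sq_le (x y : Fin n → ℤ) : D.B x y ^ 2 ≤ D.B x x * D.B y y := by
  by_cases hy : y = 0
  · rw [hy, B_zero_right, B_zero_left]; norm_num
  · have h1 : 0 < D.B y y := D.pos y hy
    have h2 := D.B_nonneg (D.B y y • x - D.B x y • y)
    have h3 : D.B (D.B y y • x - D.B x y • y) (D.B y y • x - D.B x y • y) =
        D.B y y * (D.B x x * D.B y y - D.B x y ^ 2) := by
      simp only [B_sub_left, B_sub_right, B_smul_left, B_smul_right, D.B_comm y x]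
      ring
    rw [h3] at h2
    have := nonneg_of_mul_nonneg_right h2 h1
    linarith

theorem B_eq_dot (x y : Fin n → ℤ) : D.B x y = x ⬝ᵥ (D.C.mulVec y) := by
  simp only [B, bil, dotProduct, Matrix.mulVec, Finset.mul_sum]
  exact Finset.sum_congr rfl fun i _ => Finset.sum_congr rfl fun j _ => by ring

theorem det_ne : D.C.det ≠ 0 := by
  intro h
  obtain ⟨v, hv, h0⟩ := Matrix.exists_mulVec_eq_zero_iff.2 h
  have := D.pos v hv
  have h2 : bil D.C v v = 0 := by
    have := D.B_eq_dot v v
    rw [h0, dotProduct_zero] at this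
    exact this
  omega

/-- `d x_i = B (x, adj e_i)` -/
theorem B_adj (x : Fin n → ℤ) (i : Fin n) :
    D.B x (D.C.adjugate.mulVec (Pi.single i 1)) = D.C.det * x i := by
  rw [B_eq_dot, Matrix.mulVec_mulVec, Matrix.mul_adjugate, Matrix.smul_mulVec,
    Matrix.one_mulVec, dotProduct_smul, dotProduct_single, smul_eq_mul, mul_one]

/-- Positive definiteness gives finiteness. -/
theorem finite_Rt : Finite D.Rt := by
  obtain ⟨M, hM⟩ : ∃ M : ℤ, ∀ i, 2 * D.B (D.C.adjugate.mulVec (Pi.single i 1))
      (D.C.adjugate.mulVec (Pi.single i 1)) ≤ M := by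
    obtain ⟨M, hM⟩ := Set.Finite.bddAbove (Set.finite_range fun i : Fin n =>
      2 * D.B (D.C.adjugate.mulVec (Pi.single i 1)) (D.C.adjugate.mulVec (Pi.single i 1)))
    exact ⟨M, fun i => hM ⟨i, rfl⟩⟩
  have key : ∀ x : Fin n → ℤ, D.B x x = 2 → ∀ i, |x i| ≤ M := by
    intro x hx i
    have h1 := D.B_sq_le x (D.C.adjugate.mulVec (Pi.single i 1))
    rw [B_adj, hx] at h1
    have h2 := hM i
    have h3 : 1 ≤ D.C.det ^ 2 := by
      have := D.det_ne
      have : 0 < D.C.det ^ 2 := by positivity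
      omega
    have h4 : (x i) ^ 2 ≤ M := by
      nlinarith [sq_nonneg (x i)]
    have h5 : |x i| ≤ (x i) ^ 2 := by
      rw [← sq_abs]
      nlinarith [abs_nonneg (x i), Int.one_le_abs (z := x i), sq_nonneg (|x i|),
        show |x i| = 0 ∨ 1 ≤ |x i| by have := abs_nonneg (x i); omega]
    omega
  refine Set.Finite.subset (Set.finite_Icc (fun _ => -M) (fun _ : Fin n => M)) ?_
  intro x hx
  have := key x hx
  exact ⟨fun i => (abs_le.1 (this i)).1, fun i => (abs_le.1 (this i)).2⟩

end SLD

end Pool.Agent.MTX
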