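import Pool.Agent.MTX.R0b

/-! # MTX, Part R : definitions : simple roots, finiteness -/

namespace Pool.Agent.MTX

namespace SLD

variable {n : ℕ} (D : SLD n)

/-- the simple roots -/
def al (i : Fin n) : D.Rt := ⟨Pi.single i 1, by rw [B_single, D.diag]⟩

instance : Finite D.Rt := D.finite_Rt

end SLD

end Pool.Agent.MTX
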