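import Pool.Agent.MTX.R0

/-! # MTX, Part R : facts on simply laced roots, (0.1)-(0.6) of MTX_PROOF.md -/

namespace Pool.Agent.MTX

namespace SLD

variable {n : ℕ} (D : SLD n)

theorem Rt_ext {γ δ : D.Rt} (h : γ.1 = δ.1) : γ = δ := Subtype.ext h

theorem Rt_ne_zero (γ : D.Rt) : γ.1 ≠ 0 := by
  intro h
  have := γ.2
  rw [h, B_zero_left] at this
  omega

theorem ng_ng (γ : D.Rt) : D.ng (D.ng γ) = γ := D.Rt_ext (neg_neg _)

theorem ng_val (γ : D.Rt) : (D.ng γ).1 = - γ.1 := rfl

theorem al_val (i : Fin n) : (D.al i).1 = Pi.single i 1 := rfl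

/-- `x = ∑ x_i α_i` -/
theorem eq_sum_al (x : Fin n → ℤ) : x = ∑ i, x i • (D.al i).1 := by
  funext j
  simp [al_val, Finset.sum_apply, Pi.single_apply]

theorem B_sum_left {ι : Type*} (s : Finset ι) (v : ι → Fin n → ℤ) (y : Fin n → ℤ) :
    D.B (∑ i ∈ s, v i) y = ∑ i ∈ s, D.B (v i) y := by
  classical
  induction s using Finset.induction_on with
  | empty => simp [B_zero_left]
  | insert a s ha ih => rw [Finset.sum_insert ha, Finset.sum_insert ha, B_add_left, ih]

/-- `B(x, y) = ∑ x_i B(α_i, y)` -/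
theorem B_coord (x y : Fin n → ℤ) : D.B x y = ∑ i, x i * D.B (D.al i).1 y := by
  conv_lhs => rw [D.eq_sum_al x]
  rw [B_sum_left]
  exact Finset.sum_congr rfl fun i _ => D.B_smul_left _ _ _

theorem C_nonpos {i j : Fin n} (h : i ≠ j) : D.C i j ≤ 0 := by
  rcases D.off i j h with h | h <;> omega

theorem B_al_al (i j : Fin n) : D.B (D.al i).1 (D.al j).1 = D.C i j := D.B_single i j

/-! ### (0.1) -/

/-- `B(γ, δ) = 2` iff `γ = δ`. -/
theorem eq_of_B_two {γ δ : D.Rt} (h : D.B γ.1 δ.1 = 2) : γ = δ := by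
  apply D.Rt_ext
  have h1 : D.B (γ.1 - δ.1) (γ.1 - δ.1) = 0 := by
    simp only [B_sub_left, B_sub_right, D.B_comm δ.1 γ.1, h, γ.2, δ.2]; norm_num
  by_contra h2
  exact absurd h1 (D.pos _ (sub_ne_zero.2 h2)).ne'

theorem B_le_two (γ δ : D.Rt) : D.B γ.1 δ.1 ≤ 2 := by
  have h := D.B_nonneg (γ.1 - δ.1)
  simp only [B_sub_left, B_sub_right, D.B_comm δ.1 γ.1, γ.2, δ.2] at h
  linarith

theorem B_ge_neg_two (γ δ : D.Rt) : -2 ≤ D.B γ.1 δ.1 := by
  have h := D.B_le_two γ (D.ng δ)
  rw [ng_val, B_neg_right] at h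
  linarith

theorem eq_of_B_neg_two {γ δ : D.Rt} (h : D.B γ.1 δ.1 = -2) : γ = D.ng δ := by
  apply D.eq_of_B_two
  rw [ng_val, B_neg_right, h]; norm_num

theorem B_le_one {γ δ : D.Rt} (h : γ ≠ δ) : D.B γ.1 δ.1 ≤ 1 := by
  have h1 := D.B_le_two γ δ
  have h2 : D.B γ.1 δ.1 ≠ 2 := fun h' => h (D.eq_of_B_two h')
  omega

theorem B_ge_neg_one {γ δ : D.Rt} (h : γ ≠ D.ng δ) : -1 ≤ D.B γ.1 δ.1 := by
  have h1 := D.B_ge_neg_two γ δ
  have h2 : D.B γ.1 δ.1 ≠ -2 := fun h' => h (D.eq_of_B_neg_two h')
  omega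

/-- the sum of two roots with `B = -1` -/
def addR (γ δ : D.Rt) (h : D.B γ.1 δ.1 = -1) : D.Rt := ⟨γ.1 + δ.1, by
  simp only [B_add_left, B_add_right, D.B_comm δ.1 γ.1, h, γ.2, δ.2]; norm_num⟩

/-- the difference of two roots with `B = 1` -/
def subR (γ δ : D.Rt) (h : D.B γ.1 δ.1 = 1) : D.Rt := ⟨γ.1 - δ.1, by
  simp only [B_sub_left, B_sub_right, D.B_comm δ.1 γ.1, h, γ.2, δ.2]; norm_num⟩

theorem addR_iff (γ δ : D.Rt) : D.B (γ.1 + δ.1) (γ.1 + δ.1) = 2 ↔ D.B γ.1 δ.1 = -1 := by
  simp only [B_add_left, B_add_right, D.B_comm δ.1 γ.1, γ.2, δ.2]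
  constructor <;> intro h <;> linarith

/-! ### (0.2) -/

theorem B_even (x : Fin n → ℤ) : Even (D.B x x) := by
  have h : ∀ y : Fin n → ℤ, y ∈ {y | Even (D.B y y)} ↔ Even (D.B y y) := fun _ => Iff.rfl
  conv => rw [D.eq_sum_al x]
  refine Finset.sum_induction (fun i => x i • (D.al i).1) (fun y => Even (D.B y y)) ?_ ?_ ?_
  · intro a b ha hb
    have : D.B (a + b) (a + b) = D.B a a + D.B b b + 2 * D.B a b := by
      simp only [B_add_left, B_add_right, D.B_comm b a]; ring
    rw [this]
    exact (ha.add hb).add (even_two_mul _)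
  · simp [B_zero_left]
  · intro i _
    rw [B_smul_left, B_smul_right, (D.al i).2]
    exact ⟨x i * x i, by ring⟩

theorem two_le_B {x : Fin n → ℤ} (hx : x ≠ 0) : 2 ≤ D.B x x := by
  have h1 : 0 < D.B x x := D.pos x hx
  obtain ⟨k, hk⟩ := D.B_even x
  omega

/-- Every root is positive or negative. -/
theorem pos_or_neg (γ : D.Rt) : D.Pos γ ∨ D.Pos (D.ng γ) := by
  set p : Fin n → ℤ := fun i => max (γ.1 i) 0 with hp
  set m : Fin n → ℤ := fun i => max (-γ.1 i) 0 with hm
  have hg : γ.1 = p - m := by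
    funext i
    simp only [hp, hm, Pi.sub_apply]
    omega
  have hpm : D.B p m ≤ 0 := by
    unfold B bil
    refine Finset.sum_nonpos fun i _ => Finset.sum_nonpos fun j _ => ?_
    have hpi : 0 ≤ p i := le_max_right _ _
    have hmj : 0 ≤ m j := le_max_right _ _
    by_cases hij : i = j
    · subst hij
      have : p i * m i = 0 := by
        simp only [hp, hm]
        rcases le_total (γ.1 i) 0 with h | h
        · rw [max_eq_right h, zero_mul]
        · rw [max_eq_right (a := -γ.1 i) (by omega), mul_zero]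
      have : p i * D.C i i * m i = 0 := by linear_combination D.C i i * this
      rw [this]
    · have h1 := D.C_nonpos hij
      have h2 : 0 ≤ p i * m j := mul_nonneg hpi hmj
      nlinarith
  have h2 : D.B p p + D.B m m - 2 * D.B p m = 2 := by
    have h := γ.2
    rw [hg] at h
    simp only [B_sub_left, B_sub_right, D.B_comm m p] at h
    linarith
  by_cases hm0 : m = 0
  · left
    intro i
    have := congrFun hm0 i
    simp only [hm, Pi.zero_apply] at this
    omega
  · by_cases hp0 : p = 0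
    · right
      intro i
      have := congrFun hp0 i
      simp only [hp, Pi.zero_apply] at this
      show 0 ≤ - γ.1 i
      omega
    · have h3 := D.two_le_B hm0
      have h4 := D.two_le_B hp0
      omega

theorem not_pos_ng {γ : D.Rt} (h : D.Pos γ) : ¬ D.Pos (D.ng γ) := by
  intro h'
  apply D.Rt_ne_zero γ
  funext i
  have h1 := h i
  have h2 := h' i
  rw [ng_val] at h2
  simp only [Pi.neg_apply] at h2
  show γ.1 i = 0
  omega

theorem pos_ng (γ : D.Rt) : D.Pos (D.ng γ) ↔ ¬ D.Pos γ := by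
  constructor
  · intro h h'
    exact D.not_pos_ng h' h
  · exact fun h => (D.pos_or_neg γ).resolve_left h

/-- A root with a positive coordinate is positive. -/
theorem pos_of_coord {γ : D.Rt} {i : Fin n} (h : 0 < γ.1 i) : D.Pos γ := by
  rcases D.pos_or_neg γ with h' | h'
  · exact h'
  · have := h' i
    rw [ng_val] at this
    simp only [Pi.neg_apply] at this
    omega

theorem pos_al (i : Fin n) : D.Pos (D.al i) := by
  apply D.pos_of_coord (i := i)
  rw [al_val]; simp

/-- Coordinates of a positive root which is not `α_i`: some `j ≠ i` has `γ_j > 0`. -/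
theorem exists_coord {γ : D.Rt} (h : D.Pos γ) {i : Fin n} (hi : γ ≠ D.al i) :
    ∃ j, j ≠ i ∧ 0 < γ.1 j := by
  by_contra hno
  push Not at hno
  have h0 : ∀ j, j ≠ i → γ.1 j = 0 := fun j hj => le_antisymm (hno j hj) (h j)
  have h1 : γ.1 = γ.1 i • (D.al i).1 := by
    funext j
    by_cases hj : j = i
    · subst hj; simp [al_val]
    · simp [al_val, h0 j hj, hj]
  have h2 := γ.2
  rw [h1, B_smul_left, B_smul_right, (D.al i).2] at h2
  have h3 : γ.1 i * γ.1 i = 1 := by linarith
  have h4 : γ.1 i = 1 := by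
    have := h i
    nlinarith
  apply hi
  apply D.Rt_ext
  rw [h1, h4, one_smul]

/-! ### heights -/

theorem ht_add (x y : Fin n → ℤ) : ht (x + y) = ht x + ht y := by
  simp [ht, Finset.sum_add_distrib]

theorem ht_sub (x y : Fin n → ℤ) : ht (x - y) = ht x - ht y := by
  simp [ht, Finset.sum_sub_distrib]

theorem ht_neg (x : Fin n → ℤ) : ht (-x) = - ht x := by
  simp [ht]

theorem ht_smul (k : ℤ) (x : Fin n → ℤ) : ht (k • x) = k * ht x := by
  simp [ht, Finset.mul_sum]

theorem ht_al (i : Fin n) : ht (D.al i).1 = 1 := by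
  simp [ht, al_val]

theorem ht_pos {γ : D.Rt} (h : D.Pos γ) : 1 ≤ ht γ.1 := by
  have h1 : 0 ≤ ht γ.1 := Finset.sum_nonneg fun i _ => h i
  rcases h1.lt_or_eq with h2 | h2
  · omega
  · exfalso
    apply D.Rt_ne_zero γ
    funext i
    have := (Finset.sum_eq_zero_iff_of_nonneg (fun i _ => h i)).1 h2.symm i (Finset.mem_univ i)
    exact this

theorem pos_iff_ht (γ : D.Rt) : D.Pos γ ↔ 0 < ht γ.1 := by
  constructor
  · intro h; have := D.ht_pos h; omega
  · intro h
    by_contra h'
    have := D.ht_pos ((D.pos_ng γ).2 h')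
    rw [ng_val, ht_neg] at this
    omega

/-- (0.3) -/
theorem exists_sub {γ : D.Rt} (h : D.Pos γ) (hs : ∀ i, γ ≠ D.al i) :
    ∃ (i : Fin n) (hi : D.B γ.1 (D.al i).1 = 1), D.Pos (D.subR γ (D.al i) hi) := by
  have h1 : ∑ i, γ.1 i * D.B (D.al i).1 γ.1 = 2 := by rw [← D.B_coord, γ.2]
  obtain ⟨i, -, hi⟩ : ∃ i ∈ Finset.univ, 0 < γ.1 i * D.B (D.al i).1 γ.1 := by
    by_contra hno
    push Not at hno
    have := Finset.sum_nonpos hno
    omega
  have h2 : 0 < D.B γ.1 (D.al i).1 := by
    rw [D.B_comm]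
    by_contra h'
    have := h i
    nlinarith
  have h3 := D.B_le_one (hs i)
  have h4 : D.B γ.1 (D.al i).1 = 1 := by omega
  refine ⟨i, h4, ?_⟩
  obtain ⟨j, hj, hj2⟩ := D.exists_coord h (hs i)
  apply D.pos_of_coord (i := j)
  show 0 < γ.1 j - (D.al i).1 j
  rw [al_val, Pi.single_eq_of_ne hj]
  omega

/-- Induction over positive roots. -/
theorem pos_induction {P : D.Rt → Prop} (h0 : ∀ i, P (D.al i))
    (h1 : ∀ (γ : D.Rt) (i : Fin n) (hi : D.B γ.1 (D.al i).1 = 1), D.Pos γ →
      D.Pos (D.subR γ (D.al i) hi) → P (D.subR γ (D.al i) hi) → P γ) :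
    ∀ γ, D.Pos γ → P γ := by
  have key : ∀ (m : ℕ) (γ : D.Rt), D.Pos γ → ht γ.1 ≤ m → P γ := by
    intro m
    induction m with
    | zero =>
      intro γ h h'
      have := D.ht_pos h
      simp at h'
      omega
    | succ m ih =>
      intro γ h h'
      by_cases hs : ∀ i, γ ≠ D.al i
      · obtain ⟨i, hi, hp⟩ := D.exists_sub h hs
        refine h1 γ i hi h hp (ih _ hp ?_)
        have : ht (D.subR γ (D.al i) hi).1 = ht γ.1 - 1 := by
          show ht (γ.1 - (D.al i).1) = _
          rw [ht_sub, ht_al]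
        push_cast at h'
        omega
      · push Not at hs
        obtain ⟨i, rfl⟩ := hs
        exact h0 i
  intro γ h
  exact key (ht γ.1).toNat γ h (by have := D.ht_pos h; omega)

/-! ### (0.4) the highest root -/

theorem theta_dom (i : Fin n) : 0 ≤ D.B D.theta.1 (D.al i).1 := by
  by_contra h
  push Not at h
  have h1 := D.B_ge_neg_two D.theta (D.al i)
  by_cases h2 : D.B D.theta.1 (D.al i).1 = -2
  · have h3 := D.eq_of_B_neg_two h2
    have h4 := D.theta_max (D.al i)
    rw [h3, ng_val, ht_neg, ht_al] at h4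
    omega
  · have h3 : D.B D.theta.1 (D.al i).1 = -1 := by omega
    have h4 := D.theta_max (D.addR D.theta (D.al i) h3)
    have h5 : ht (D.addR D.theta (D.al i) h3).1 = ht D.theta.1 + 1 := by
      show ht (D.theta.1 + (D.al i).1) = _
      rw [ht_add, ht_al]
    omega

theorem theta_ht_pos : 1 ≤ ht D.theta.1 := by
  have := D.theta_max (D.al ⟨0, D.npos⟩)
  rwa [ht_al] at this

theorem theta_pos : D.Pos D.theta := by
  rw [D.pos_iff_ht]; have := D.theta_ht_pos; omega

theorem theta_coord (i : Fin n) : 0 < D.theta.1 i := by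
  have hs : {i | 0 < D.theta.1 i} = Set.univ := by
    apply D.conn
    · by_contra h
      rw [Set.not_nonempty_iff_eq_empty] at h
      apply D.Rt_ne_zero D.theta
      funext j
      have h1 := D.theta_pos j
      have h2 : j ∉ {i | 0 < D.theta.1 i} := by rw [h]; exact Set.notMem_empty j
      simp only [Set.mem_ofPred_eq] at h2
      show D.theta.1 j = 0
      omega
    · intro i hi j hij
      simp only [Set.mem_ofPred_eq] at hi ⊢
      by_contra hj
      have hj0 : D.theta.1 j = 0 := by have := D.theta_pos j; omega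
      have hne : i ≠ j := by rintro rfl; omega
      have hC : D.C i j = -1 := (D.off i j hne).resolve_left hij
      have h1 : D.B D.theta.1 (D.al j).1 = ∑ k, D.theta.1 k * D.C k j := by
        rw [D.B_coord]
        exact Finset.sum_congr rfl fun k _ => by rw [D.B_al_al]
      have h2 := D.theta_dom j
      have h3 : ∑ k, D.theta.1 k * D.C k j ≤ D.theta.1 i * D.C i j := by
        have h4 := Finset.single_le_sum (f := fun k => -(D.theta.1 k * D.C k j))
          (s := Finset.univ) (fun k _ => ?_) (Finset.mem_univ i)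
        · rw [Finset.sum_neg_distrib] at h4
          linarith
        · by_cases hk : k = j
          · rw [hk, hj0]; simp
          · have h5 := D.C_nonpos hk
            have h6 := D.theta_pos k
            nlinarith
      rw [h1] at h2
      rw [hC] at h3
      omega
  have : i ∈ {i | 0 < D.theta.1 i} := by rw [hs]; exact Set.mem_univ i
  exact this

/-- A dominant element pairs nonnegatively with positive roots. -/
theorem dom_pos {x : Fin n → ℤ} (hx : D.Dom x) {γ : D.Rt} (h : D.Pos γ) : 0 ≤ D.B x γ.1 := by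
  rw [D.B_comm, D.B_coord]
  exact Finset.sum_nonneg fun i _ => mul_nonneg (h i) (by rw [D.B_comm]; exact hx i)

theorem theta_Dom : D.Dom D.theta.1 := D.theta_dom

/-- The only dominant root is `θ`. -/
theorem eq_theta {γ : D.Rt} (h : D.Dom γ.1) : γ = D.theta := by
  have h1 : 0 < D.B D.theta.1 γ.1 := by
    rw [D.B_coord]
    refine Finset.sum_pos' (fun i _ => mul_nonneg (D.theta_coord i).le
      (by rw [D.B_comm]; exact h i)) ?_
    by_contra hno
    push Not at hno
    apply D.Rt_ne_zero γ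
    apply D.B_nondeg
    intro y
    rw [D.B_comm, D.B_coord]
    refine Finset.sum_eq_zero fun i _ => ?_
    have h2 := hno i (Finset.mem_univ i)
    have h3 := h i
    rw [D.B_comm] at h3
    have h4 := D.theta_coord i
    have : D.B (D.al i).1 γ.1 = 0 := by nlinarith
    rw [this, mul_zero]
  by_contra hne
  have h2 := D.B_le_one (Ne.symm hne)
  have h3 : D.B D.theta.1 γ.1 = 1 := by omega
  set δ := D.subR D.theta γ h3 with hδ
  have h4 : D.B γ.1 δ.1 = -1 := by
    show D.B γ.1 (D.theta.1 - γ.1) = -1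
    rw [B_sub_right, γ.2, D.B_comm, h3]; norm_num
  have h5 : D.B D.theta.1 δ.1 = 1 := by
    show D.B D.theta.1 (D.theta.1 - γ.1) = 1
    rw [B_sub_right, D.theta.2, h3]; norm_num
  rcases D.pos_or_neg δ with hp | hp
  · have := D.dom_pos h hp
    omega
  · have := D.dom_pos D.theta_Dom hp
    rw [ng_val, B_neg_right] at this
    omega

/-- Downward induction from the highest root. -/
theorem theta_induction {P : D.Rt → Prop} (h0 : P D.theta)
    (h1 : ∀ (γ : D.Rt) (i : Fin n), D.B γ.1 (D.al i).1 < 0 →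
      (∀ δ : D.Rt, ht γ.1 < ht δ.1 → P δ) → P γ) : ∀ γ, P γ := by
  have key : ∀ (m : ℕ) (γ : D.Rt), ht D.theta.1 - ht γ.1 ≤ m → P γ := by
    intro m
    induction m with
    | zero =>
      intro γ h'
      by_cases hd : D.Dom γ.1
      · rw [D.eq_theta hd]; exact h0
      · unfold Dom at hd
        push Not at hd
        obtain ⟨i, hi⟩ := hd
        refine h1 γ i hi fun δ hδ => ?_
        have := D.theta_max δ
        push_cast at h'
        omega
    | succ m ih =>
      intro γ h'
      by_cases hd : D.Dom γ.1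
      · rw [D.eq_theta hd]; exact h0
      · unfold Dom at hd
        push Not at hd
        obtain ⟨i, hi⟩ := hd
        refine h1 γ i hi fun δ hδ => ih δ ?_
        push_cast at h'
        omega
  intro γ
  exact key (ht D.theta.1 - ht γ.1).toNat γ (by have := D.theta_max γ; omega)

theorem le_theta (γ : D.Rt) : ∀ i, γ.1 i ≤ D.theta.1 i := by
  refine D.theta_induction (P := fun γ => ∀ i, γ.1 i ≤ D.theta.1 i) (fun _ => le_rfl) ?_ γ
  intro γ i hi ih j
  have h1 := D.B_ge_neg_two γ (D.al i)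
  by_cases h2 : D.B γ.1 (D.al i).1 = -2
  · have h3 := D.eq_of_B_neg_two h2
    rw [h3, ng_val, al_val]
    have h4 := D.theta_coord j
    by_cases hj : j = i
    · subst hj; simp; omega
    · simp [hj]; omega
  · have h3 : D.B γ.1 (D.al i).1 = -1 := by omega
    have h4 := ih (D.addR γ (D.al i) h3) (by
      show ht γ.1 < ht (γ.1 + (D.al i).1)
      rw [ht_add, ht_al]; omega) j
    have h5 : (D.addR γ (D.al i) h3).1 j = γ.1 j + (D.al i).1 j := rfl
    rw [h5] at h4
    have h6 := D.pos_al i j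
    omega

theorem B_theta_nonneg {γ : D.Rt} (h : D.Pos γ) : 0 ≤ D.B D.theta.1 γ.1 := D.dom_pos D.theta_Dom h

theorem B_theta {γ : D.Rt} (h : D.Pos γ) (h' : γ ≠ D.theta) :
    D.B D.theta.1 γ.1 = 0 ∨ D.B D.theta.1 γ.1 = 1 := by
  have h1 := D.B_theta_nonneg h
  have h2 := D.B_le_one (Ne.symm h')
  omega

/-! ### (0.5) -/

/-- (0.5) -/
theorem exists_root_two {v : Fin n → ℤ} (hv : v ≠ 0) : ∃ γ : D.Rt, 2 ≤ D.B v γ.1 := by
  classical
  -- `v` is a sum of roots
  have hex : ∃ m : ℕ, ∃ l : List D.Rt, l.length = m ∧ (l.map Subtype.val).sum = v := by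
    have hsum : ∀ (s : Finset (Fin n)), ∃ l : List D.Rt,
        (l.map Subtype.val).sum = ∑ i ∈ s, v i • (D.al i).1 := by
      intro s
      induction s using Finset.induction_on with
      | empty => exact ⟨[], by simp⟩
      | insert a s ha ih =>
        obtain ⟨l, hl⟩ := ih
        rw [Finset.sum_insert ha]
        rcases le_total 0 (v a) with h | h
        · refine ⟨List.replicate (v a).toNat (D.al a) ++ l, ?_⟩
          rw [List.map_append, List.sum_append, hl, List.map_replicate, List.sum_replicate,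
            ← natCast_zsmul, Int.toNat_of_nonneg h]
        · refine ⟨List.replicate (-(v a)).toNat (D.ng (D.al a)) ++ l, ?_⟩
          rw [List.map_append, List.sum_append, hl, List.map_replicate, List.sum_replicate,
            ← natCast_zsmul, Int.toNat_of_nonneg (by omega), ng_val, smul_neg, neg_smul, neg_neg]
    obtain ⟨l, hl⟩ := hsum Finset.univ
    exact ⟨l.length, l, rfl, by rw [hl, ← D.eq_sum_al]⟩
  obtain ⟨l, hlen, hl⟩ := Nat.find_spec hex
  have hmin : ∀ l' : List D.Rt, (l'.map Subtype.val).sum = v → l.length ≤ l'.length := by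
    intro l' hl'
    rw [hlen]
    exact Nat.find_min' hex ⟨l', rfl, hl'⟩
  cases l with
  | nil => exact (hv (by simpa using hl.symm)).elim
  | cons g l =>
    refine ⟨g, ?_⟩
    rw [List.map_cons, List.sum_cons] at hl
    have hg : ∀ d ∈ l, 0 ≤ D.B g.1 d.1 := by
      intro d hd
      by_contra hneg
      push Not at hneg
      have h1 := D.B_ge_neg_two g d
      have hp := List.perm_cons_erase hd
      have hs : (l.map Subtype.val).sum = d.1 + ((l.erase d).map Subtype.val).sum := by
        rw [(hp.map Subtype.val).sum_eq, List.map_cons, List.sum_cons]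
      have hle := List.length_erase_of_mem hd
      have hlp := List.length_pos_of_mem hd
      by_cases h2 : D.B g.1 d.1 = -2
      · have h3 := D.eq_of_B_neg_two h2
        have := hmin (l.erase d) (by
          rw [← hl, hs, h3, ng_val]; abel)
        simp only [List.length_cons] at this
        omega
      · have h3 : D.B g.1 d.1 = -1 := by omega
        have := hmin (D.addR g d h3 :: l.erase d) (by
          rw [List.map_cons, List.sum_cons, ← hl, hs]
          show g.1 + d.1 + _ = _
          abel)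
        simp only [List.length_cons] at this
        omega
    have hsum : 0 ≤ D.B (l.map Subtype.val).sum g.1 := by
      clear hl hmin hlen
      induction l with
      | nil => simp [B_zero_left]
      | cons d l ih =>
        rw [List.map_cons, List.sum_cons, B_add_left]
        have h1 := hg d (List.mem_cons_self)
        have h2 := ih (fun e he => hg e (List.mem_cons_of_mem _ he))
        rw [D.B_comm] at h1
        omega
    rw [← hl, B_add_left, g.2]
    omega

/-! ### (0.6) -/

theorem rf_val (γ : D.Rt) (x : Fin n → ℤ) : D.rf γ x = x - D.B γ.1 x • γ.1 := rfl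

theorem rO_smul_val (γ δ : D.Rt) : (D.rO γ • δ).1 = δ.1 - D.B γ.1 δ.1 • γ.1 := rfl

theorem rO_sq (γ : D.Rt) : D.rO γ * D.rO γ = 1 := by
  apply Subtype.ext
  apply LinearEquiv.ext
  intro x
  exact D.rf_rf γ x

theorem rO_inv (γ : D.Rt) : (D.rO γ)⁻¹ = D.rO γ := inv_eq_of_mul_eq_one_right (D.rO_sq γ)

theorem rO_ng (γ : D.Rt) : D.rO (D.ng γ) = D.rO γ := by
  apply Subtype.ext
  apply LinearEquiv.ext
  intro x
  show D.rf (D.ng γ) x = D.rf γ x
  simp only [rf, ng_val, B_neg_left, neg_smul, smul_neg, neg_neg]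

theorem rO_smul (u : D.OQ) (γ : D.Rt) : D.rO (u • γ) = u * D.rO γ * u⁻¹ := by
  apply Subtype.ext
  apply LinearEquiv.ext
  intro x
  show D.rf (u • γ) x = u.1 (D.rf γ ((u⁻¹).1 x))
  have h1 : u.1 ((u⁻¹).1 x) = x := by
    show ((u * u⁻¹).1) x = x
    rw [mul_inv_cancel]; rfl
  have h2 : D.B γ.1 ((u⁻¹).1 x) = D.B (u.1 γ.1) x := by
    rw [← u.2, h1]
  simp only [rf, map_sub, map_smul, h1, h2]
  rfl

theorem rO_self (γ : D.Rt) : D.rO γ • γ = D.ng γ := by
  apply D.Rt_ext
  rw [rO_smul_val, γ.2, ng_val]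
  rw [two_smul]; abel

theorem smul_ng (u : D.OQ) (γ : D.Rt) : u • D.ng γ = D.ng (u • γ) := by
  apply D.Rt_ext
  rw [smul_val, ng_val, ng_val, smul_val, map_neg]

/-- A simple reflection permutes the positive roots other than the simple one. -/
theorem pos_perm {γ : D.Rt} (h : D.Pos γ) {i : Fin n} (hi : γ ≠ D.al i) :
    D.Pos (D.rO (D.al i) • γ) := by
  obtain ⟨j, hj, hj2⟩ := D.exists_coord h hi
  apply D.pos_of_coord (i := j)
  rw [rO_smul_val]
  show 0 < γ.1 j - D.B (D.al i).1 γ.1 * (D.al i).1 j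
  rw [al_val, Pi.single_eq_of_ne hj]
  omega

theorem sref_mem (i : Fin n) : D.rO (D.al i) ∈ D.W := Subgroup.subset_closure ⟨i, rfl⟩

theorem rO_mem (γ : D.Rt) : D.rO γ ∈ D.W := by
  have key : ∀ γ, D.Pos γ → D.rO γ ∈ D.W := by
    refine D.pos_induction (fun i => D.sref_mem i) ?_
    intro γ i hi _ _ ih
    have h1 : D.rO (D.al i) • D.subR γ (D.al i) hi = γ := by
      apply D.Rt_ext
      rw [rO_smul_val]
      show γ.1 - (D.al i).1 - D.B (D.al i).1 (γ.1 - (D.al i).1) • (D.al i).1 = γ.1
      rw [B_sub_right, (D.al i).2, D.B_comm, hi]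
      norm_num
    rw [← h1, rO_smul]
    exact mul_mem (mul_mem (D.sref_mem i) ih) (inv_mem (D.sref_mem i))
  rcases D.pos_or_neg γ with h | h
  · exact key γ h
  · rw [← rO_ng]; exact key _ h

/-- Every root is in the orbit of `θ`. -/
theorem exists_smul_theta (γ : D.Rt) : ∃ u ∈ D.W, u • D.theta = γ := by
  refine D.theta_induction (P := fun γ => ∃ u ∈ D.W, u • D.theta = γ) ⟨1, one_mem _, one_smul _ _⟩
    ?_ γ
  intro γ i hi ih
  obtain ⟨u, hu, h⟩ := ih (D.rO (D.al i) • γ) (by
    rw [rO_smul_val, ht_sub, ht_smul, ht_al, D.B_comm]; omega)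
  refine ⟨D.rO (D.al i) * u, mul_mem (D.sref_mem i) hu, ?_⟩
  rw [mul_smul, h, ← mul_smul, rO_sq, one_smul]

instance : Finite D.OQ := by
  have : Finite (Equiv.Perm D.Rt) := inferInstance
  refine Finite.of_injective (fun u : D.OQ => MulAction.toPerm (α := D.OQ) (β := D.Rt) u) ?_
  intro u v h
  apply Subtype.ext
  apply LinearEquiv.ext
  intro x
  have h1 : ∀ i, u.1 (D.al i).1 = v.1 (D.al i).1 := fun i => by
    have := congrArg (fun p : Equiv.Perm D.Rt => (p (D.al i)).1) h
    exact this
  rw [D.eq_sum_al x, map_sum, map_sum]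
  exact Finset.sum_congr rfl fun i _ => by rw [map_smul, map_smul, h1]

/-- An isometry is determined by its values on the simple roots. -/
theorem OQ_ext {u v : D.OQ} (h : ∀ i, u • D.al i = v • D.al i) : u = v := by
  apply Subtype.ext
  apply LinearEquiv.ext
  intro x
  have h1 : ∀ i, u.1 (D.al i).1 = v.1 (D.al i).1 := fun i => congrArg Subtype.val (h i)
  rw [D.eq_sum_al x, map_sum, map_sum]
  exact Finset.sum_congr rfl fun i _ => by rw [map_smul, map_smul, h1]

end SLD

end Pool.Agent.MTX
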