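import Pool.Agent.MTX.R1

/-! # MTX, Part R : linear forms in polynomial rings -/

namespace Pool.Agent.MTX

open MvPolynomial

section lin
variable {σ : Type} [Fintype σ]

/-- The linear form `∑ c_j X_j`. -/
noncomputable def lin (c : σ → ℂ) : MvPolynomial σ ℂ := ∑ j, C (c j) * X j

theorem lin_add (c d : σ → ℂ) : lin (c + d) = lin c + lin d := by
  simp [lin, add_mul, Finset.sum_add_distrib]

theorem lin_smul (z : ℂ) (c : σ → ℂ) : lin (z • c) = C z * lin c := by
  simp [lin, Finset.mul_sum, mul_assoc]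

theorem lin_neg (c : σ → ℂ) : lin (-c) = - lin c := by
  simp [lin]

theorem lin_sub (c d : σ → ℂ) : lin (c - d) = lin c - lin d := by
  rw [sub_eq_add_neg, lin_add, lin_neg, sub_eq_add_neg]

theorem lin_zero : lin (0 : σ → ℂ) = 0 := by simp [lin]

theorem lin_sum {ι : Type*} (s : Finset ι) (c : ι → σ → ℂ) :
    lin (∑ i ∈ s, c i) = ∑ i ∈ s, lin (c i) := by
  classical
  induction s using Finset.induction_on with
  | empty => simp [lin_zero]
  | insert a s ha ih => rw [Finset.sum_insert ha, Finset.sum_insert ha, lin_add, ih]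

theorem coeff_lin (c : σ → ℂ) (i : σ) : coeff (Finsupp.single i 1) (lin c) = c i := by
  classical
  rw [lin, coeff_sum]
  simp only [coeff_C_mul, coeff_X]
  rw [Finset.sum_eq_single i]
  · simp
  · intro j _ hj
    rw [if_neg, mul_zero]
    intro h
    exact hj (Finsupp.single_left_injective one_ne_zero h)
  · intro h; exact (h (Finset.mem_univ i)).elim

theorem lin_inj {c d : σ → ℂ} (h : lin c = lin d) : c = d := by
  funext i
  rw [← coeff_lin c i, h, coeff_lin]

theorem lin_ne_zero {c : σ → ℂ} (h : c ≠ 0) : lin c ≠ 0 := fun h' =>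
  h (lin_inj (h'.trans lin_zero.symm))

theorem lin_irreducible {c : σ → ℂ} (h : c ≠ 0) : Irreducible (lin c) := by
  classical
  have h1 : lin c = sumSMulX (Finsupp.equivFunOnFinite.symm c) := by
    rw [sumSMulX, Finsupp.linearCombination_apply, Finsupp.sum_fintype _ _ (by simp)]
    rw [lin]
    refine Finset.sum_congr rfl fun j _ => ?_
    rw [smul_eq_C_mul]; rfl
  obtain ⟨i, hi⟩ := Function.ne_iff.1 h
  rw [h1]
  refine irreducible_sumSMulX _ ⟨i, ?_⟩ ?_
  · rw [Finsupp.mem_support_iff]
    exact hi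
  · intro r hr
    rw [isUnit_iff_ne_zero]
    rintro rfl
    have := hr i
    rw [zero_dvd_iff] at this
    exact hi this

theorem lin_prime {c : σ → ℂ} (h : c ≠ 0) : Prime (lin c) :=
  (UniqueFactorizationMonoid.irreducible_iff_prime).1 (lin_irreducible h)

theorem lin_totalDegree_le (c : σ → ℂ) : (lin c).totalDegree ≤ 1 := by
  refine (totalDegree_finsetSum_le fun j _ => ?_)
  refine (totalDegree_mul _ _).trans ?_
  simp

theorem lin_totalDegree {c : σ → ℂ} (h : c ≠ 0) : (lin c).totalDegree = 1 := by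
  classical
  refine le_antisymm (lin_totalDegree_le c) ?_
  by_contra h'
  have h0 : (lin c).totalDegree = 0 := by omega
  rw [totalDegree_eq_zero_iff_eq_C] at h0
  obtain ⟨i, hi⟩ := Function.ne_iff.1 h
  apply hi
  rw [← coeff_lin c i, h0, coeff_C, if_neg]
  · rfl
  · intro h2
    have := DFunLike.congr_fun h2 i
    simp at this

/-- If a nonzero linear form divides a linear form, the quotient is a constant. -/
theorem lin_dvd_lin {c d : σ → ℂ} (hc : c ≠ 0) : lin c ∣ lin d ↔ ∃ z : ℂ, d = z • c := by
  constructor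
  · rintro ⟨q, hq⟩
    by_cases hd : d = 0
    · exact ⟨0, by rw [hd, zero_smul]⟩
    · have hq0 : q ≠ 0 := by
        rintro rfl
        rw [mul_zero] at hq
        exact lin_ne_zero hd hq
      have h1 : (lin d).totalDegree = (lin c).totalDegree + q.totalDegree := by
        rw [hq, totalDegree_mul_of_isDomain (lin_ne_zero hc) hq0]
      rw [lin_totalDegree hc, lin_totalDegree hd] at h1
      have h2 : q.totalDegree = 0 := by omega
      rw [totalDegree_eq_zero_iff_eq_C] at h2
      refine ⟨coeff 0 q, lin_inj ?_⟩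
      rw [hq, lin_smul, ← h2, mul_comm]
  · rintro ⟨z, rfl⟩
    rw [lin_smul]
    exact Dvd.intro_left _ rfl

theorem lin_single [DecidableEq σ] (i : σ) : lin (Pi.single i (1 : ℂ)) = X i := by
  rw [lin, Finset.sum_eq_single i]
  · simp
  · intro j _ hj
    rw [Pi.single_eq_of_ne hj, C_0, zero_mul]
  · intro h; exact (h (Finset.mem_univ i)).elim

theorem aeval_lin {τ : Type} (f : σ → MvPolynomial τ ℂ) (c : σ → ℂ) :
    aeval f (lin c) = ∑ j, C (c j) * f j := by
  simp [lin, algebraMap_eq]

end lin

/-- Finitely many proper subspaces of a complex vector space do not cover it. -/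
theorem exists_not_mem_subspaces {V ι : Type} [AddCommGroup V] [Module ℂ V] [Finite ι]
    (p : ι → Submodule ℂ V) (h : ∀ i, p i ≠ ⊤) : ∃ v, ∀ i, v ∉ p i := by
  by_contra hno
  push Not at hno
  obtain ⟨i, hi⟩ := Subspace.exists_eq_top_of_iUnion_eq_univ (k := ℂ) (p := p)
    (Set.eq_univ_of_forall fun v => Set.mem_iUnion.2 (hno v))
  exact h i hi

end Pool.Agent.MTX
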