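import Mathlib

/-! # MTX, Part S : affine systems and Bott–Samelson lattices (definitions)

See `MTX_PROOF.md`, sections 2-5.  `R` is the base ring (`ℂ[x_1..x_n, ħ]`), `G` the (extended) affine
Weyl group, `Rt` the set of real affine roots, `S` the index set of the simple reflections. -/

namespace Pool.Agent.MTX

/-- Data for words: for each letter `s` an element `f s` of the ring and an element `g s` of the group. -/
structure SW (R G S : Type) [CommRing R] [Group G] [MulSemiringAction G R] where
  f : S → R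
  g : S → G
  f_ne : ∀ s, f s ≠ 0
  g_f : ∀ s, g s • f s = - f s
  g_sq : ∀ s, g s * g s = 1
  dvd : ∀ (s : S) (x : R), f s ∣ x - g s • x

/-- An affine system: real roots `b : Rt` with linear forms `f b`, reflections `refl b`, negation `ng`,
positive roots `pos`, simple roots `al s`. -/
structure AS (R G Rt S : Type) [CommRing R] [Group G] [MulSemiringAction G R] [MulAction G Rt] where
  ng : Rt → Rt
  f : Rt → R
  refl : Rt → G
  pos : Rt → Prop
  al : S → Rt
  ng_ng : ∀ b, ng (ng b) = b
  smul_ng : ∀ (w : G) (b : Rt), w • ng b = ng (w • b)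
  f_ng : ∀ b, f (ng b) = - f b
  f_smul : ∀ (w : G) (b : Rt), f (w • b) = w • f b
  refl_ng : ∀ b, refl (ng b) = refl b
  refl_smul : ∀ (w : G) (b : Rt), refl (w • b) = w * refl b * w⁻¹
  refl_self : ∀ b, refl b • b = ng b
  refl_sq : ∀ b, refl b * refl b = 1
  prime : ∀ b, Prime (f b)
  dvd : ∀ (b : Rt) (x : R), f b ∣ x - refl b • x
  gen : ∀ (b : Rt) (F : Finset G), ∃ g : R, ∀ u ∈ F, ∀ v ∈ F, v ≠ u → v ≠ refl b * u →
    ¬ f b ∣ u • g - v • g
  pos_ng : ∀ b, pos (ng b) ↔ ¬ pos b
  pos_al : ∀ s, pos (al s)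
  perm : ∀ (s : S) (b : Rt), pos b → b ≠ al s → pos (refl (al s) • b)

section
variable {R G Rt S : Type} [CommRing R] [Group G] [MulSemiringAction G R] [MulAction G Rt]

namespace AS
variable (D : AS R G Rt S)

/-- the simple reflection -/
def sr (s : S) : G := D.refl (D.al s)

/-- the data for words -/
def sw : SW R G S where
  f s := D.f (D.al s)
  g s := D.sr s
  f_ne s := (D.prime _).ne_zero
  g_f s := by
    show D.refl (D.al s) • D.f (D.al s) = _
    rw [← D.f_smul, D.refl_self, D.f_ng]
  g_sq s := D.refl_sq _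
  dvd s x := D.dvd _ x

/-- `P` is a system: it contains exactly one of `b`, `-b`. -/
def Sys (P : Rt → Prop) : Prop := ∀ b, P (D.ng b) ↔ ¬ P b

/-- The system based at `w`. -/
def Pw (w : G) : Rt → Prop := fun b => D.pos (w⁻¹ • b)

/-- `X` is closed for the system `P`. -/
def Closed (P : Rt → Prop) (X : Set G) : Prop :=
  ∀ v ∈ X, ∀ b, P b → ¬ D.pos (v⁻¹ • b) → D.refl b * v ∈ X

/-- `X ∪ X s` -/
def plus (s : S) (X : Set G) : Set G := {v | v ∈ X ∨ v * D.sr s ∈ X}

/-- `{v | v, v s ∈ X}` -/
def core (s : S) (X : Set G) : Set G := {v | v ∈ X ∧ v * D.sr s ∈ X}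

end AS

/-- A lattice: a submodule of `R^J` with labels in `G`. -/
structure Lat (R G : Type) [CommRing R] where
  J : Type
  [fin : Fintype J]
  lab : J → G
  M : Submodule R (J → R)

attribute [instance] Lat.fin

namespace Lat

/-- `m` is supported on the labels in `X` -/
def sup (L : Lat R G) (m : L.J → R) (X : Set G) : Prop := ∀ p, L.lab p ∉ X → m p = 0

open Classical in
/-- the restriction of `m` to the labels in `X` -/
noncomputable def rest (L : Lat R G) (X : Set G) (m : L.J → R) : L.J → R :=
  fun p => if L.lab p ∈ X then m p else 0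

/-- the right action of `a` -/
def ry (L : Lat R G) (a : R) (m : L.J → R) : L.J → R := fun p => (L.lab p • a) * m p

/-- the lattice `R_w` -/
def base (w : G) : Lat R G where
  J := Unit
  lab := fun _ => w
  M := ⊤

/-- the lattice `L * E_s` for `f = f s`, `g = g s` -/
def star (f : R) (g : G) (L : Lat R G) : Lat R G where
  J := L.J × Bool
  lab p := if p.2 then L.lab p.1 * g else L.lab p.1
  M :=
    { carrier := {m | (fun p => m (p, false)) ∈ L.M ∧
        ∃ n ∈ L.M, ∀ p, m (p, false) - m (p, true) = (L.lab p • f) * n p}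
      add_mem' := by
        rintro m m' ⟨h1, n, hn, h2⟩ ⟨h1', n', hn', h2'⟩
        refine ⟨L.M.add_mem h1 h1', n + n', L.M.add_mem hn hn', fun p => ?_⟩
        have := h2 p
        have := h2' p
        simp only [Pi.add_apply]
        linear_combination h2 p + h2' p
      zero_mem' := ⟨L.M.zero_mem, 0, L.M.zero_mem, fun p => by simp⟩
      smul_mem' := by
        rintro c m ⟨h1, n, hn, h2⟩
        refine ⟨L.M.smul_mem c h1, c • n, L.M.smul_mem c hn, fun p => ?_⟩
        simp only [Pi.smul_apply, smul_eq_mul]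
        linear_combination c * h2 p }

theorem mem_star {f : R} {g : G} {L : Lat R G} {m : L.J × Bool → R} :
    m ∈ (star f g L).M ↔ (fun p => m (p, false)) ∈ L.M ∧
      ∃ n ∈ L.M, ∀ p, m (p, false) - m (p, true) = (L.lab p • f) * n p := Iff.rfl

@[simp] theorem star_lab_false (f : R) (g : G) (L : Lat R G) (p : L.J) :
    (star f g L).lab (p, false) = L.lab p := rfl

@[simp] theorem star_lab_true (f : R) (g : G) (L : Lat R G) (p : L.J) :
    (star f g L).lab (p, true) = L.lab p * g := rfl

end Lat

/-- The iterated star, starting from `L`.  The head of the list is the last (outermost) letter. -/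
def SW.words (W : SW R G S) (L : Lat R G) : List S → Lat R G
  | [] => L
  | s :: l => Lat.star (W.f s) (W.g s) (W.words L l)

/-- The Bott–Samelson lattice of a word (head = last letter). -/
def SW.BS (W : SW R G S) (l : List S) : Lat R G := W.words (Lat.base 1) l

/-- Linear maps preserving the supports at every label. -/
def FlHom {L L' : Lat R G} (Φ : L.M →ₗ[R] L'.M) : Prop :=
  ∀ (v : G) (m : L.M), L.sup m.1 {v} → L'.sup (Φ m).1 {v}

/-- The good class of lattices. -/
structure Nice (D : AS R G Rt S) (L : Lat R G) : Prop where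
  ry_mem : ∀ (a : R) (m : L.J → R), m ∈ L.M → L.ry a m ∈ L.M
  big : ∃ l : List Rt, ∀ m : L.J → R, (l.map D.f).prod • m ∈ L.M
  tf : ∀ P : Rt → Prop, D.Sys P → ∀ X' X : Set G, X' ⊆ X → D.Closed P X' → D.Closed P X →
    ∀ π c : R, Prime π → ¬ π ∣ c → ∀ b ∈ L.M, ∀ a ∈ L.M, L.sup b X → L.sup a X →
    L.sup (c • b - π • a) X' → ∃ a' ∈ L.M, L.sup a' X ∧ L.sup (b - π • a') X'

/-- `L'' ` is a coordinate quotient of `L` along `i`, and closed supports lift. -/
structure Good (D : AS R G Rt S) (L L'' : Lat R G) (i : L''.J → L.J) : Prop where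
  lab : ∀ q, L.lab (i q) = L''.lab q
  mem : ∀ m ∈ L.M, (fun q => m (i q)) ∈ L''.M
  onto : ∀ X : Set G, D.Closed D.pos X → ∀ m'' ∈ L''.M, L''.sup m'' X →
    ∃ m ∈ L.M, L.sup m X ∧ (fun q => m (i q)) = m''

/-- closed under multiplication, contains `1` -/
structure RingLat (L : Lat R G) : Prop where
  one : (1 : L.J → R) ∈ L.M
  mul : ∀ m ∈ L.M, ∀ m' ∈ L.M, m * m' ∈ L.M

/-- stable under the right action -/
def RyLat (L : Lat R G) : Prop := ∀ (a : R) (m : L.J → R), m ∈ L.M → L.ry a m ∈ L.M

/-! ### Trace and the two basic elements of a star -/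

section star
variable {L : Lat R G} {f : R} {g : G}

/-- the element `(m, m)` -/
def dup (f : R) (g : G) (L : Lat R G) : L.M →ₗ[R] (Lat.star f g L).M where
  toFun m := ⟨fun p => m.1 p.1, m.2, 0, L.M.zero_mem, fun p => by simp⟩
  map_add' _ _ := rfl
  map_smul' _ _ := rfl

theorem dup_apply (m : L.M) (p : L.J × Bool) : (dup f g L m).1 p = m.1 p.1 := rfl

/-- the right action as a linear map -/
def ryL (h : RyLat L) (a : R) : L.M →ₗ[R] L.M where
  toFun m := ⟨L.ry a m.1, h a _ m.2⟩
  map_add' x y := by
    apply Subtype.ext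
    funext p
    exact mul_add _ _ _
  map_smul' c x := by
    apply Subtype.ext
    funext p
    show (L.lab p • a) * (c * x.1 p) = c * ((L.lab p • a) * x.1 p)
    ring

theorem ryL_apply (h : RyLat L) (a : R) (m : L.M) (p : L.J) :
    (ryL h a m).1 p = (L.lab p • a) * m.1 p := rfl

/-- the element `(f(y) m, - f(y) m)` -/
def dal (f : R) (g : G) (h : RyLat L) : L.M →ₗ[R] (Lat.star f g L).M where
  toFun m := ⟨fun p => (if p.2 then -1 else 1) * ((L.lab p.1 • f) * m.1 p.1), by
      have := h f _ m.2
      refine ⟨?_, (2 : R) • m.1, L.M.smul_mem _ m.2, fun p => ?_⟩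
      · simp only [Bool.false_eq_true, if_false, one_mul]
        exact this
      · simp only [Bool.false_eq_true, if_false, if_true, Pi.smul_apply, smul_eq_mul]
        ring⟩
  map_add' x y := by
    apply Subtype.ext
    funext p
    show (if p.2 then -1 else 1) * ((L.lab p.1 • f) * (x.1 p.1 + y.1 p.1)) =
      (if p.2 then -1 else 1) * ((L.lab p.1 • f) * x.1 p.1) +
      (if p.2 then -1 else 1) * ((L.lab p.1 • f) * y.1 p.1)
    ring
  map_smul' c x := by
    apply Subtype.ext
    funext p
    show (if p.2 then -1 else 1) * ((L.lab p.1 • f) * (c * x.1 p.1)) =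
      c * ((if p.2 then -1 else 1) * ((L.lab p.1 • f) * x.1 p.1))
    ring

theorem dal_false (h : RyLat L) (m : L.M) (p : L.J) :
    (dal f g h m).1 (p, false) = (L.lab p • f) * m.1 p := by
  show (if (false : Bool) then (-1 : R) else 1) * _ = _
  simp

theorem dal_true (h : RyLat L) (m : L.M) (p : L.J) :
    (dal f g h m).1 (p, true) = - ((L.lab p • f) * m.1 p) := by
  show (if (true : Bool) then (-1 : R) else 1) * _ = _
  simp

variable [IsDomain R]

omit [MulAction G Rt] in
theorem smul_ne_zero' (w : G) {f : R} (hf : f ≠ 0) : w • f ≠ 0 := by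
  intro h
  apply hf
  have := congrArg (fun x => w⁻¹ • x) h
  simpa using this

/-- the trace: `m (p,0) - m (p,1) = (lab p • f) * tr m p` -/
noncomputable def trM (g : G) (L : Lat R G) (hf : f ≠ 0) : (Lat.star f g L).M →ₗ[R] L.M where
  toFun m := ⟨m.2.2.choose, m.2.2.choose_spec.1⟩
  map_add' x y := by
    apply Subtype.ext
    funext p
    have h1 := x.2.2.choose_spec.2 p
    have h2 := y.2.2.choose_spec.2 p
    have h3 := (x + y).2.2.choose_spec.2 p
    have h4 : (x + y).1 (p, false) - (x + y).1 (p, true) =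
      (x.1 (p, false) - x.1 (p, true)) + (y.1 (p, false) - y.1 (p, true)) := by
      show (x.1 (p, false) + y.1 (p, false)) - (x.1 (p, true) + y.1 (p, true)) = _
      ring
    rw [h1, h2, h3, ← mul_add] at h4
    exact mul_left_cancel₀ (smul_ne_zero' _ hf) h4
  map_smul' c x := by
    apply Subtype.ext
    funext p
    have h1 := x.2.2.choose_spec.2 p
    have h3 := (c • x).2.2.choose_spec.2 p
    have h4 : (c • x).1 (p, false) - (c • x).1 (p, true) =
      c * (x.1 (p, false) - x.1 (p, true)) := by
      show c * x.1 (p, false) - c * x.1 (p, true) = _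
      ring
    rw [h1, h3] at h4
    have h5 : (L.lab p • f) * (c • x).2.2.choose p = (L.lab p • f) * (c * x.2.2.choose p) := by
      rw [h4]; ring
    exact mul_left_cancel₀ (smul_ne_zero' _ hf) h5

theorem trM_spec (hf : f ≠ 0) (m : (Lat.star f g L).M) (p : L.J) :
    m.1 (p, false) - m.1 (p, true) = (L.lab p • f) * (trM g L hf m).1 p :=
  m.2.2.choose_spec.2 p

/-- the trace is determined by its defining property -/
theorem trM_unique (hf : f ≠ 0) (m : (Lat.star f g L).M) (n : L.J → R)
    (h : ∀ p, m.1 (p, false) - m.1 (p, true) = (L.lab p • f) * n p) :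
    (trM g L hf m).1 = n := by
  funext p
  have h1 := trM_spec hf m p
  rw [h p] at h1
  exact (mul_left_cancel₀ (smul_ne_zero' _ hf) h1).symm

end star

end

end Pool.Agent.MTX
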