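import Pool.Agent.MTX.R2c
import Pool.Agent.MTX.S12a

/-! # MTX, Part R : the reduction data modulo `ħ` -/

namespace Pool.Agent.MTX

open MvPolynomial

namespace SLD

variable {n : ℕ} (D : SLD n)

/-- The reduction data. -/
noncomputable def red : RedData D.aff D.sw0 where
  ρ := (rho : RR n →ₐ[ℂ] AA n).toRingHom
  h := X none
  surj := rho_surj
  ker := rho_ker
  prime := prime_h
  ndvd := D.h_ndvd
  equiv := D.rho_equiv
  f s := by
    show fm0 (D.aal s).1.1 = rho (D.af (D.aal s))
    rw [af, rho_fm]
  g _ := rfl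

end SLD

end Pool.Agent.MTX
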