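import Pool.Agent.MTX.R3c
import Pool.Agent.MTX.R4a

/-! # MTX, Part R : the word of the longest element and its total trace, (8.3) -/

namespace Pool.Agent.MTX

open MvPolynomial

namespace SLD

variable {n : ℕ} (D : SLD n)

/-- product of a finite word (head = last letter) -/
def prO : List (Fin n) → D.OQ
  | [] => 1
  | i :: k => prO k * D.sO i

theorem prO_mem : ∀ k : List (Fin n), D.prO k ∈ D.W
  | [] => one_mem _
  | i :: k => mul_mem (prO_mem k) (D.sref_mem i)

theorem pr_some : ∀ k : List (Fin n), D.aff.sw.pr (k.map some) = D.emb (D.prO k)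
  | [] => rfl
  | i :: k => by
    rw [List.map_cons, pr_cons, pr_some k, aref_some, ← map_mul]; rfl

theorem smul_emb_snd (u : D.OQ) (b : D.ARt) : (D.emb u • b).2 = b.2 := by
  rw [smul_snd, emb_l, B_zero_left, sub_zero]

/-- a reduced word of the longest element -/
structure LW (k : List (Fin n)) : Prop where
  red : D.aff.Red (k.map some)
  neg : ∀ i, ¬ D.Pos (D.prO k • D.al i)

theorem mem_rts_some {k : List (Fin n)} (h : D.aff.Red (k.map some)) (b : D.ARt) :
    b ∈ D.aff.rts (k.map some) ↔ b.2 = 0 ∧ D.Pos b.1 ∧ ¬ D.Pos ((D.prO k)⁻¹ • b.1) := by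
  rw [D.aff.mem_rts _ h]
  have h0 : (D.aff.sw.pr (k.map some))⁻¹ = D.emb (D.prO k)⁻¹ := by
    rw [D.pr_some, map_inv]
  rw [h0]
  have h1 : D.aff.pos (D.emb (D.prO k)⁻¹ • b) ↔
      (0 < b.2 ∨ (b.2 = 0 ∧ D.Pos ((D.prO k)⁻¹ • b.1))) := by
    show 0 < (D.emb (D.prO k)⁻¹ • b).2 ∨ ((D.emb (D.prO k)⁻¹ • b).2 = 0 ∧ D.Pos _) ↔ _
    rw [smul_emb_snd]; rfl
  rw [h1]
  have h2 : D.aff.pos b ↔ (0 < b.2 ∨ (b.2 = 0 ∧ D.Pos b.1)) := Iff.rfl
  rw [h2]
  constructor
  · rintro ⟨h3 | h3, h4⟩
    · exact (h4 (Or.inl h3)).elim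
    · exact ⟨h3.1, h3.2, fun h5 => h4 (Or.inr ⟨h3.1, h5⟩)⟩
  · rintro ⟨h3, h4, h5⟩
    refine ⟨Or.inr ⟨h3, h4⟩, ?_⟩
    rintro (h6 | h6)
    · omega
    · exact h5 h6.2

theorem length_le {k : List (Fin n)} (h : D.aff.Red (k.map some)) : k.length ≤ D.posF.card := by
  classical
  have h1 : k.length = (D.aff.rts (k.map some)).toFinset.card := by
    rw [List.toFinset_card_of_nodup (D.aff.nodup_rts _ h), D.aff.length_rts, List.length_map]
  rw [h1]
  refine Finset.card_le_card_of_injOn Prod.fst ?_ ?_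
  · intro b hb
    have hb' : b ∈ (D.aff.rts (k.map some)).toFinset := hb
    rw [List.mem_toFinset, D.mem_rts_some h] at hb'
    exact D.mem_posF.2 hb'.2.1
  · intro b hb c hc hbc
    have hb' : b ∈ (D.aff.rts (k.map some)).toFinset := hb
    have hc' : c ∈ (D.aff.rts (k.map some)).toFinset := hc
    rw [List.mem_toFinset, D.mem_rts_some h] at hb' hc'
    exact Prod.ext hbc (by rw [hb'.1, hc'.1])

theorem exists_LW : ∃ k, D.LW k := by
  have key : ∀ (m : ℕ) (k : List (Fin n)), D.aff.Red (k.map some) →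
      D.posF.card - k.length ≤ m → ∃ k, D.LW k := by
    intro m
    induction m with
    | zero =>
      intro k hk hm
      by_cases h : ∀ i, ¬ D.Pos (D.prO k • D.al i)
      · exact ⟨k, hk, h⟩
      · push Not at h
        obtain ⟨i, hi⟩ := h
        have h1 : D.aff.Red ((i :: k).map some) := by
          refine ⟨hk, ?_⟩
          show D.apos (D.aff.sw.pr (k.map some) • D.aal (some i))
          rw [pr_some, apos_emb_some]; exact hi
        have h2 := D.length_le h1
        rw [List.length_cons] at h2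
        omega
    | succ m ih =>
      intro k hk hm
      by_cases h : ∀ i, ¬ D.Pos (D.prO k • D.al i)
      · exact ⟨k, hk, h⟩
      · push Not at h
        obtain ⟨i, hi⟩ := h
        have h1 : D.aff.Red ((i :: k).map some) := by
          refine ⟨hk, ?_⟩
          show D.apos (D.aff.sw.pr (k.map some) • D.aal (some i))
          rw [pr_some, apos_emb_some]; exact hi
        refine ih (i :: k) h1 ?_
        rw [List.length_cons]; omega
  exact key D.posF.card [] trivial (by simp)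

variable {D}

theorem LW.neg_smul {k : List (Fin n)} (h : D.LW k) {γ : D.Rt} (hγ : D.Pos γ) :
    ¬ D.Pos (D.prO k • γ) := by
  intro hp
  obtain ⟨i, hi⟩ : ∃ i, 0 < γ.1 i := by
    by_contra hno
    push Not at hno
    exact D.Rt_ne_zero γ (funext fun i => le_antisymm (hno i) (hγ i))
  have h1 : ∀ j, (D.prO k • γ).1 j ≤ 0 := by
    intro j
    rw [smul_val, D.eq_sum_al γ.1, map_sum, Finset.sum_apply]
    refine Finset.sum_nonpos fun i _ => ?_
    rw [map_smul]
    have h2 := (D.pos_ng _).2 (h.neg i) j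
    have h3 : 0 ≤ -((D.prO k).1 (D.al i).1 j) := h2
    show γ.1 i * (D.prO k).1 (D.al i).1 j ≤ 0
    have h4 := hγ i
    nlinarith
  have h2 := D.Rt_ne_zero (D.prO k • γ)
  apply h2
  funext j
  exact le_antisymm (h1 j) (hp j)

theorem LW.neg_inv_smul {k : List (Fin n)} (h : D.LW k) {γ : D.Rt} (hγ : D.Pos γ) :
    ¬ D.Pos ((D.prO k)⁻¹ • γ) := by
  intro hp
  have := h.neg_smul hp
  rw [smul_inv_smul] at this
  exact this hγ

theorem LW.mem_rts {k : List (Fin n)} (h : D.LW k) (b : D.ARt) :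
    b ∈ D.aff.rts (k.map some) ↔ b.2 = 0 ∧ D.Pos b.1 := by
  rw [D.mem_rts_some h.red]
  constructor
  · rintro ⟨h1, h2, _⟩; exact ⟨h1, h2⟩
  · rintro ⟨h1, h2⟩; exact ⟨h1, h2, h.neg_inv_smul h2⟩

theorem LW.length {k : List (Fin n)} (h : D.LW k) : k.length = D.posF.card := by
  classical
  refine le_antisymm (D.length_le h.red) ?_
  have h1 : k.length = (D.aff.rts (k.map some)).toFinset.card := by
    rw [List.toFinset_card_of_nodup (D.aff.nodup_rts _ h.red), D.aff.length_rts, List.length_map]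
  rw [h1]
  refine Finset.card_le_card_of_injOn (fun γ => ((γ, 0) : D.ARt)) ?_ ?_
  · intro γ hγ
    show ((γ, 0) : D.ARt) ∈ (D.aff.rts (k.map some)).toFinset
    rw [List.mem_toFinset, h.mem_rts]
    exact ⟨rfl, D.mem_posF.1 hγ⟩
  · intro γ _ δ _ hγδ
    exact congrArg Prod.fst hγδ

variable (D) in
/-- the product of the positive roots -/
noncomputable def PP : AA n := ∏ γ ∈ D.posF, fm0 γ.1

theorem PP_ne : D.PP ≠ 0 := Finset.prod_ne_zero_iff.2 fun γ _ => fm0_ne_zero (D.Rt_ne_zero γ)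

theorem fm0_dvd_PP (γ : D.Rt) : (fm0 γ.1 : AA n) ∣ D.PP := by
  rcases D.pos_or_neg γ with h | h
  · exact Finset.dvd_prod_of_mem _ (D.mem_posF.2 h)
  · have h1 : (fm0 (D.ng γ).1 : AA n) ∣ D.PP :=
      Finset.dvd_prod_of_mem (fun γ : D.Rt => (fm0 γ.1 : AA n)) (D.mem_posF.2 h)
    rwa [ng_val, fm0_neg, neg_dvd] at h1

theorem PP_degree : D.PP.totalDegree ≤ D.posF.card := by
  unfold PP
  refine (totalDegree_finsetProd _ _).trans ?_
  refine (Finset.sum_le_card_nsmul _ _ 1 fun γ _ => lin_totalDegree_le _).trans ?_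
  simp

theorem LW.eu_top {k : List (Fin n)} (h : D.LW k) :
    D.sw0.eu (k.map some) (D.sw0.top (k.map some)) = (-1) ^ D.posF.card * D.PP := by
  classical
  rw [D.eu_top, List.length_map, h.length]
  congr 1
  have h1 : ((D.aff.rts (k.map some)).map fun b => (fm0 b.1.1 : AA n)).prod =
      ∏ b ∈ (D.aff.rts (k.map some)).toFinset, fm0 b.1.1 :=
    (List.prod_toFinset _ (D.aff.nodup_rts _ h.red)).symm
  rw [h1]
  unfold PP
  refine (Finset.prod_bij (fun γ _ => ((γ, 0) : D.ARt)) ?_ ?_ ?_ ?_).symm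
  · intro γ hγ
    rw [List.mem_toFinset, h.mem_rts]
    exact ⟨rfl, D.mem_posF.1 hγ⟩
  · intro γ _ δ _ hγδ
    exact congrArg Prod.fst hγδ
  · rintro ⟨γ, m⟩ hb
    rw [List.mem_toFinset, h.mem_rts] at hb
    exact ⟨γ, D.mem_posF.2 hb.2, Prod.ext rfl hb.1.symm⟩
  · intro γ _; rfl

theorem LW.smul_PP {k : List (Fin n)} (h : D.LW k) :
    D.prO k • D.PP = (-1) ^ D.posF.card * D.PP := by
  have h1 : D.prO k • D.PP = ∏ γ ∈ D.posF, (fm0 (D.prO k • γ).1 : AA n) := by
    unfold PP
    rw [Finset.smul_prod']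
    exact Finset.prod_congr rfl fun γ _ => D.smul_fm0 _ _
  have h2 : ∏ γ ∈ D.posF, (fm0 (D.prO k • γ).1 : AA n) = ∏ γ ∈ D.posF, (-1 : AA n) * fm0 γ.1 := by
    refine Finset.prod_bij (fun γ _ => D.ng (D.prO k • γ)) ?_ ?_ ?_ ?_
    · intro γ hγ
      rw [mem_posF] at hγ ⊢
      exact (D.pos_ng _).2 (h.neg_smul hγ)
    · intro γ _ δ _ hγδ
      have h3 := congrArg D.ng hγδ
      rw [ng_ng, ng_ng] at h3
      exact MulAction.injective _ h3
    · intro γ hγ
      rw [mem_posF] at hγ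
      refine ⟨D.ng ((D.prO k)⁻¹ • γ), D.mem_posF.2 ((D.pos_ng _).2 (h.neg_inv_smul hγ)), ?_⟩
      rw [smul_ng, ng_ng, smul_inv_smul]
    · intro γ _
      rw [ng_val, fm0_neg]; ring
  rw [h1, h2, Finset.prod_mul_distrib, Finset.prod_const]; rfl

/-! ### labels -/

/-- All labels have finite part in the Weyl group. -/
theorem lab_u_mem (l : List (Option (Fin n))) (p : (D.sw0.BS l).J) :
    ((D.sw0.BS l).lab p).u ∈ D.W := by
  induction l with
  | nil => exact one_mem _
  | cons s l ih =>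
    obtain ⟨p, ε⟩ := p
    cases ε with
    | false => exact ih p
    | true => exact mul_mem (ih p) (D.rO_mem _)

theorem lab_l_some (k : List (Fin n)) (p : (D.sw0.BS (k.map some)).J) :
    ((D.sw0.BS (k.map some)).lab p).l = 0 := by
  induction k with
  | nil => rfl
  | cons i k ih =>
    obtain ⟨p, ε⟩ := p
    cases ε with
    | false => exact ih p
    | true =>
      show ((D.sw0.BS (k.map some)).lab p * D.aref (D.aal (some i))).l = 0
      rw [aref_some, mul_l, emb_l, map_zero, add_zero]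
      exact ih p

theorem eu_list (l : List (Option (Fin n))) (p : (D.sw0.BS l).J) : ∃ r : List D.Rt,
    r.length = l.length ∧ (D.sw0.eu l p = (r.map fun γ => (fm0 γ.1 : AA n)).prod ∨
      D.sw0.eu l p = - (r.map fun γ => (fm0 γ.1 : AA n)).prod) := by
  induction l with
  | nil => exact ⟨[], rfl, Or.inl rfl⟩
  | cons s l ih =>
    obtain ⟨p, ε⟩ := p
    obtain ⟨r, hr, h⟩ := ih p
    refine ⟨((D.sw0.BS l).lab p).u • (D.aal s).1 :: r, by rw [List.length_cons, hr]; rfl, ?_⟩
    have h1 : D.sw0.eu (s :: l) (p, ε) =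
        (if ε then -1 else 1) * ((D.sw0.BS l).lab p • D.sw0.f s) * D.sw0.eu l p := rfl
    have h2 : (D.sw0.BS l).lab p • (D.sw0.f s : AA n) =
        fm0 (((D.sw0.BS l).lab p).u • (D.aal s).1).1 := by
      show (D.sw0.BS l).lab p • (fm0 (D.aal s).1.1 : AA n) = _
      rw [Aff_smul_A, smul_fm0]; rfl
    rw [h1, h2, List.map_cons, List.prod_cons]
    cases ε <;> rcases h with h | h <;> rw [h]
    · left; simp
    · right; simp
    · right; simp
    · left; simp

/-! ### the coefficients of the total trace -/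

/-- coefficient of `v` in the total trace of `f(y)` -/
noncomputable def cc (l : List (Option (Fin n))) (v : D.OQ) : KK n := by
  classical
  exact ∑ p, if ((D.sw0.BS l).lab p).u = v then (aK (D.sw0.eu l p))⁻¹ else 0

theorem cc_mem (l : List (Option (Fin n))) (v : D.OQ) : cc (D := D) l v ∈ D.ZZr l.length := by
  classical
  unfold cc
  refine sum_mem fun p _ => ?_
  split_ifs
  · obtain ⟨r, hr, h⟩ := eu_list l p
    have hne : aK (r.map fun γ => (fm0 γ.1 : AA n)).prod ≠ 0 := aK_ne_zero (prod_totalDegree r).1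
    rcases h with h | h
    · rw [h]
      exact ZZr_mem r hr (inv_mul_cancel₀ hne)
    · rw [h, map_neg]
      have h1 : (-(aK (r.map fun γ => (fm0 γ.1 : AA n)).prod))⁻¹ =
          -((aK (r.map fun γ => (fm0 γ.1 : AA n)).prod)⁻¹) := by
        refine inv_eq_of_mul_eq_one_right ?_
        have h2 := mul_inv_cancel₀ hne
        linear_combination h2
      rw [h1]
      exact neg_mem (ZZr_mem r hr (inv_mul_cancel₀ hne))
  · exact zero_mem _

theorem cc_zero (l : List (Option (Fin n))) {v : D.OQ} (hv : v ∉ D.W) : cc (D := D) l v = 0 := by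
  classical
  unfold cc
  refine Finset.sum_eq_zero fun p _ => ?_
  rw [if_neg]
  intro h
  exact hv (h ▸ lab_u_mem l p)

theorem Tr_fy [Fintype D.OQ] (l : List (Option (Fin n))) (f : AA n) (m : (D.sw0.BS l).M)
    (hm : ∀ p, m.1 p = (D.sw0.BS l).lab p • f) :
    aK (D.sw0.Tr l m) = ∑ v, cc (D := D) l v * aK (v • f) := by
  classical
  have h1 := Pool.Agent.MTX.Tr_eq D.sw0 (K := KK n) (IsFractionRing.injective (AA n) (KK n)) l m
  have h2 : aK (D.sw0.Tr l m) = ∑ p, aK (m.1 p) / aK (D.sw0.eu l p) := h1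
  rw [h2]
  unfold cc
  simp only [Finset.sum_mul]
  rw [Finset.sum_comm]
  refine Finset.sum_congr rfl fun p _ => ?_
  simp only [ite_mul, zero_mul]
  rw [Finset.sum_ite_eq Finset.univ, if_pos (Finset.mem_univ _), hm, Aff_smul_A, div_eq_mul_inv,
    mul_comm]

variable (D) in
/-- the element `f(y)` -/
noncomputable def fy (l : List (Option (Fin n))) (f : AA n) : (D.sw0.BS l).M :=
  ⟨(D.sw0.BS l).ry f 1, ry_words D.sw0 (ry_base 1) l f 1
    (ring_words D.sw0 (ry_base 1) (ring_base 1) l).one⟩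

theorem fy_apply (l : List (Option (Fin n))) (f : AA n) (p : (D.sw0.BS l).J) :
    (D.fy l f).1 p = (D.sw0.BS l).lab p • f := by
  show ((D.sw0.BS l).lab p • f) * 1 = _
  rw [mul_one]

theorem cc_pres [Fintype D.OQ] (l : List (Option (Fin n))) : D.Pres (cc (D := D) l) := fun f =>
  ⟨D.sw0.Tr l (D.fy l f), (Tr_fy l f (D.fy l f) (fy_apply l f)).symm⟩

/-- The coefficients are equivariant under the simple reflections. -/
theorem LW.cc_sO {k : List (Fin n)} (h : D.LW k) (i : Fin n) (v : D.OQ) :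
    cc (D := D) (k.map some) (D.sO i * v) = D.uK (D.sO i) (cc (D := D) (k.map some) v) := by
  classical
  have := Fintype.ofFinite D.OQ
  set c : D.OQ → KK n := cc (D := D) (k.map some) with hc
  have hPne : aK (D.PP) ≠ 0 := aK_ne_zero PP_ne
  have hane : aK (fm0 (D.al i).1 : AA n) ≠ 0 := aK_ne_zero (fm0_ne_zero (D.Rt_ne_zero _))
  set e : D.OQ → KK n := fun v => (c v - D.uK (D.sO i) (c (D.sO i * v))) / aK (fm0 (D.al i).1)
    with he
  have hpres : D.Pres e := by
    intro f
    obtain ⟨a, ha⟩ := cc_pres (D := D) (k.map some) f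
    obtain ⟨q, hq⟩ := D.fm0_dvd (D.al i) a
    refine ⟨q, ?_⟩
    have h1 : ∑ v, D.uK (D.sO i) (c (D.sO i * v)) * aK (v • f) = aK (D.sO i • a) := by
      rw [← uK_aK, ← ha, map_sum]
      refine Fintype.sum_equiv (Equiv.mulLeft (D.sO i)) _ _ fun v => ?_
      rw [map_mul, uK_aK, ← mul_smul]
      show _ = D.uK (D.sO i) (c (D.sO i * v)) * aK ((D.sO i * (D.sO i * v)) • f)
      rw [← mul_assoc, sO_sq, one_mul]
    have h2 : ∑ v, e v * aK (v • f) = (aK a - aK (D.sO i • a)) / aK (fm0 (D.al i).1) := by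
      rw [← h1, ← ha, ← Finset.sum_sub_distrib, Finset.sum_div]
      refine Finset.sum_congr rfl fun v _ => ?_
      rw [he, hc]
      ring
    rw [h2, ← map_sub]
    have h3 : a - D.sO i • a = fm0 (D.al i).1 * q := hq
    rw [h3, map_mul]
    field_simp
  have hmem : ∀ v, e v ∈ D.ZZr (D.posF.card + 1) := by
    intro v
    have h1 : ∀ v, c v ∈ D.ZZr D.posF.card := fun v => by
      have := cc_mem (D := D) (k.map some) v
      rwa [List.length_map, h.length] at this
    exact ZZr_div (sub_mem (h1 v) (ZZr_smul (h1 _) _)) (D.al i)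
  have hint : ∀ v, Int' (e v * aK D.PP) := by
    intro v
    obtain ⟨d, hd, hd2⟩ := ZZr_den (hmem v)
    refine D.int_of_local hd _ ?_ ?_
    · have := hd2.mul (Int'.of D.PP)
      rwa [mul_assoc] at this
    · intro γ
      obtain ⟨g, hg, hg2⟩ := hpres.pole γ v
      refine ⟨g, hg, ?_⟩
      obtain ⟨Q, hQ⟩ := fm0_dvd_PP γ
      have h1 := hg2.mul (Int'.of Q)
      convert h1 using 1
      rw [hQ, map_mul]; ring
  have hzero : ∀ v, e v = 0 := by
    intro v
    obtain ⟨a, b, hb, h1, h2⟩ := ZZr_deg (hmem v)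
    obtain ⟨a', ha'⟩ := hint v
    have h3 : a' * b = a * D.PP := by
      apply aK_inj
      rw [map_mul, map_mul, ← ha', ← h1]; ring
    by_cases h4 : a' = 0
    · rw [h4, map_zero] at ha'
      exact (mul_eq_zero.1 ha').resolve_right hPne
    · exfalso
      have h5 : (a' * b).totalDegree = a'.totalDegree + b.totalDegree :=
        totalDegree_mul_of_isDomain h4 hb
      have h6 := totalDegree_mul a D.PP
      have h7 := PP_degree (D := D)
      rw [h3] at h5
      omega
  have h1 := hzero (D.sO i * v)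
  rw [he] at h1
  simp only at h1
  rw [div_eq_zero_iff] at h1
  have h2 := sub_eq_zero.1 (h1.resolve_right hane)
  rw [h2, ← mul_assoc, sO_sq, one_mul]

theorem LW.cc_W {k : List (Fin n)} (h : D.LW k) {u : D.OQ} (hu : u ∈ D.W) :
    ∀ v, cc (D := D) (k.map some) (u * v) = D.uK u (cc (D := D) (k.map some) v) := by
  induction hu using Subgroup.closure_induction with
  | mem x hx => obtain ⟨i, rfl⟩ := hx; exact h.cc_sO i
  | one => intro v; rw [one_mul, uK_one]
  | mul x y _ _ hx hy => intro v; rw [mul_assoc, hx, hy, ← uK_mul]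
  | inv x _ hx =>
    intro v
    have h1 := hx (x⁻¹ * v)
    rw [mul_inv_cancel_left] at h1
    rw [h1, ← uK_mul, inv_mul_cancel, uK_one]

theorem LW.cc_top {k : List (Fin n)} (h : D.LW k) :
    cc (D := D) (k.map some) (D.prO k) = (aK (D.prO k • D.PP))⁻¹ := by
  classical
  unfold cc
  rw [Finset.sum_eq_single (D.sw0.top (k.map some))]
  · rw [if_pos, h.eu_top, h.smul_PP]
    rw [sw0_lab_top, D.pr_some]; rfl
  · intro p _ hp
    rw [if_neg]
    intro h1
    apply hp
    obtain ⟨q, rfl⟩ := (redJ D.aff.sw D.sw0 (k.map some)).surjective p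
    rw [← redJ_top D.aff.sw D.sw0]
    congr 1
    apply top_unique _ h.red
    rw [← D.red.lab, D.pr_some]
    exact Aff.ext' (lab_l_some k _) h1
  · intro h1; exact (h1 (Finset.mem_univ _)).elim

/-- The coefficient of `v ∈ W` is `1 / v(∏ γ)`. -/
theorem LW.cc_eq {k : List (Fin n)} (h : D.LW k) {v : D.OQ} (hv : v ∈ D.W) :
    cc (D := D) (k.map some) v = (aK (v • D.PP))⁻¹ := by
  have h1 : v = (v * (D.prO k)⁻¹) * D.prO k := by group
  have h2 := h.cc_W (mul_mem hv (inv_mem (D.prO_mem k))) (D.prO k)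
  rw [← h1] at h2
  rw [h2, h.cc_top, map_inv₀, uK_aK, ← mul_smul, ← h1]

variable (D) in
/-- the Weyl group as a finite set -/
noncomputable def WF : Finset D.OQ := (Set.toFinite (D.W : Set D.OQ)).toFinset

theorem mem_WF {u : D.OQ} : u ∈ D.WF ↔ u ∈ D.W := by
  unfold WF
  rw [Set.Finite.mem_toFinset]; rfl

/-- (8.3): the total trace of `f(y)` over the word of the longest element is
`∑_{v ∈ W} v (f / ∏_{γ > 0} γ)`. -/
theorem LW.Tr_eq {k : List (Fin n)} (h : D.LW k) (f : AA n) (m : (D.sw0.BS (k.map some)).M)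
    (hm : ∀ p, m.1 p = (D.sw0.BS (k.map some)).lab p • f) :
    aK (D.sw0.Tr (k.map some) m) = ∑ v ∈ D.WF, aK (v • f) / aK (v • D.PP) := by
  classical
  have := Fintype.ofFinite D.OQ
  rw [Tr_fy _ f m hm]
  rw [← Finset.sum_subset (Finset.subset_univ D.WF)]
  · refine Finset.sum_congr rfl fun v hv => ?_
    rw [h.cc_eq (mem_WF.1 hv), div_eq_mul_inv, mul_comm]
  · intro v _ hv
    rw [cc_zero _ (fun h' => hv (mem_WF.2 h')), zero_mul]

end SLD

end Pool.Agent.MTX
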