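import Pool.Agent.MTX.R4b
import Pool.Agent.MTX.S12c

/-! # MTX, Part R : theorem (5.3) for weights -/

namespace Pool.Agent.MTX

open MvPolynomial

namespace SLD

variable {n : ℕ} {D : SLD n}

/-- the labels of weight `mu` -/
def wtSet (D : SLD n) (mu : Fin n → ℤ) : Set D.Aff := {w | w.l = mu ∧ w.u ∈ D.W}

/-- The labels of a given weight form a closed set for a suitable system. -/
theorem closed_wt (mu : Fin n → ℤ) : D.aff.Closed (D.aff.Pw ⟨mu, 1⟩) (D.wtSet mu) := by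
  rintro v ⟨hv1, hv2⟩ b hb hn
  have hb' : D.apos ((⟨mu, 1⟩ : D.Aff)⁻¹ • b) := hb
  have hn' : ¬ D.apos (v⁻¹ • b) := hn
  have h1 : ((⟨mu, 1⟩ : D.Aff)⁻¹ • b).2 = b.2 + D.B b.1.1 mu := by
    rw [smul_snd, inv_l, inv_u, B_neg_left, (((1 : D.OQ))⁻¹).2, D.B_comm mu]
    ring
  have h2 : (v⁻¹ • b).2 = b.2 + D.B b.1.1 mu := by
    rw [smul_snd, inv_l, inv_u, B_neg_left, (v.u⁻¹).2, hv1, D.B_comm mu]
    ring
  have h3 : b.2 + D.B b.1.1 mu = 0 := by
    rcases (show 0 < ((⟨mu, 1⟩ : D.Aff)⁻¹ • b).2 ∨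
      (((⟨mu, 1⟩ : D.Aff)⁻¹ • b).2 = 0 ∧ D.Pos _) from hb') with h4 | h4
    · exfalso; apply hn'; left; rw [h2, ← h1]; exact h4
    · rw [← h1]; exact h4.1
  refine ⟨?_, mul_mem (D.rO_mem b.1) hv2⟩
  show (D.aref b * v).l = mu
  rw [mul_l, aref_l, aref_u, hv1]
  show -(b.2 • b.1.1) + D.rf b.1 mu = mu
  rw [rf]
  have h4 : b.2 = - D.B b.1.1 mu := by omega
  rw [h4]; module

theorem wtSet_mul {mu : Fin n → ℤ} {v : D.Aff} (hv : v ∈ D.wtSet mu) (i : Fin n) :
    v * D.aff.sr (some i) ∈ D.wtSet mu := by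
  refine ⟨?_, mul_mem hv.2 (D.rO_mem _)⟩
  show (v * D.aref (D.aal (some i))).l = mu
  rw [aref_some, mul_l, emb_l, map_zero, add_zero, hv.1]

theorem plus_mono' (s : Option (Fin n)) {X Y : Set D.Aff} (h : X ⊆ Y) :
    D.aff.plus s X ⊆ D.aff.plus s Y := fun _ hv => hv.imp (fun h' => h h') (fun h' => h h')

theorem plusL_mono (k : List (Option (Fin n))) : ∀ {X Y : Set D.Aff}, X ⊆ Y →
    D.aff.plusL k X ⊆ D.aff.plusL k Y := by
  induction k with
  | nil => intro X Y h; exact h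
  | cons s k ih => intro X Y h; exact ih (plus_mono' s h)

theorem subset_plusL (k : List (Option (Fin n))) : ∀ X : Set D.Aff, X ⊆ D.aff.plusL k X := by
  induction k with
  | nil => intro X; exact subset_rfl
  | cons s k ih =>
    intro X v hv
    exact ih (D.aff.plus s X) (Or.inl hv)

theorem plusL_append (k k' : List (Option (Fin n))) : ∀ X : Set D.Aff,
    D.aff.plusL (k ++ k') X = D.aff.plusL k' (D.aff.plusL k X) := by
  induction k with
  | nil => intro X; rfl
  | cons s k ih => intro X; exact ih (D.aff.plus s X)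

/-- words reaching a given element of `W` -/
theorem exists_reach {u : D.OQ} (hu : u ∈ D.W) : ∃ k : List (Fin n), ∀ (X : Set D.Aff), ∀ w ∈ X,
    w * D.emb u ∈ D.aff.plusL (k.map some) X := by
  obtain ⟨l, rfl⟩ := D.exists_list hu
  clear hu
  induction l using List.reverseRecOn with
  | nil =>
    refine ⟨[], fun X w hw => ?_⟩
    have h0 : (([] : List (Fin n)).map D.sO).prod = 1 := rfl
    rw [h0, map_one, mul_one]
    exact hw
  | append_singleton l i ih =>
    obtain ⟨k, hk⟩ := ih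
    refine ⟨k ++ [i], fun X w hw => ?_⟩
    have h0 : ((l ++ [i]).map D.sO).prod = (l.map D.sO).prod * ([i].map D.sO).prod := by
      rw [List.map_append, List.prod_append]
    rw [h0, List.map_append, plusL_append, map_mul, ← mul_assoc]
    have h1 := hk X w hw
    show _ ∈ D.aff.plus (some i) (D.aff.plusL (k.map some) X)
    right
    have h2 : D.aff.sr (some i) = D.emb ([i].map D.sO).prod := by
      show D.aref (D.aal (some i)) = _
      rw [aref_some]; simp
    have h3 : w * D.emb (l.map D.sO).prod * D.emb ([i].map D.sO).prod * D.aff.sr (some i) =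
        w * D.emb (l.map D.sO).prod := by
      rw [← h2, mul_assoc _ (D.aff.sr (some i)), D.aff.sr_sq, mul_one]
    rw [h3]
    exact h1

/-- a word whose `plusL` reaches the full coset `w W` -/
theorem exists_kW (D : SLD n) : ∃ k : List (Fin n), ∀ (X : Set D.Aff), ∀ w ∈ X, ∀ u ∈ D.W,
    w * D.emb u ∈ D.aff.plusL (k.map some) X := by
  classical
  have key : ∀ F : Finset D.OQ, (∀ u ∈ F, u ∈ D.W) → ∃ k : List (Fin n), ∀ (X : Set D.Aff),
      ∀ w ∈ X, ∀ u ∈ F, w * D.emb u ∈ D.aff.plusL (k.map some) X := by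
    intro F
    induction F using Finset.induction_on with
    | empty => intro _; exact ⟨[], fun _ _ _ u hu => (Finset.notMem_empty u hu).elim⟩
    | insert v F hv ih =>
      intro hF
      obtain ⟨k, hk⟩ := ih fun u hu => hF u (Finset.mem_insert_of_mem hu)
      obtain ⟨k', hk'⟩ := exists_reach (hF v (Finset.mem_insert_self _ _))
      refine ⟨k ++ k', fun X w hw u hu => ?_⟩
      rw [List.map_append, plusL_append]
      rcases Finset.mem_insert.1 hu with rfl | hu
      · exact hk' _ w (subset_plusL _ _ hw)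
      · exact subset_plusL _ _ (hk X w hw u hu)
  obtain ⟨k, hk⟩ := key D.WF fun u hu => mem_WF.1 hu
  exact ⟨k, fun X w hw u hu => hk X w hw u (mem_WF.2 hu)⟩

/-- (5.3) for weights. -/
theorem main_wt (i : List (Option (Fin n))) (hi : D.aff.Red i) (j : List (Option (Fin n)))
    (φ0 : (D.sw0.BS j).M →ₗ[AA n] AA n)
    (h0 : ∀ g : (D.sw0.BS j).M, (∀ p, ((D.sw0.BS j).lab p).l = (D.aff.sw.pr i).l → g.1 p = 0) →
      φ0 g = 0) :
    ∃ Φ0 : (D.sw0.BS j).M →ₗ[AA n] (D.sw0.BS i).M,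
      (∀ g, (Φ0 g).1 (D.sw0.top i) = φ0 g) ∧
      ∀ (mu : Fin n → ℤ) (g : (D.sw0.BS j).M),
        (∀ p, ((D.sw0.BS j).lab p).l ≠ mu → g.1 p = 0) →
        ∀ p, ((D.sw0.BS i).lab p).l ≠ mu → (Φ0 g).1 p = 0 := by
  obtain ⟨k, hk⟩ := exists_kW D
  obtain ⟨Φ0, h1, h2⟩ := D.red.main_red i hi j (k.map some) φ0 (by
    intro g hg
    apply h0
    intro p hp
    refine hg p ?_
    rw [Set.mem_compl_iff, not_not]
    have hu : (D.aff.sw.pr i).u ∈ D.W := by
      rw [← sw0_lab_top]; exact lab_u_mem i _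
    have h3 : (D.sw0.BS j).lab p = D.aff.sw.pr i *
        D.emb ((D.aff.sw.pr i).u⁻¹ * ((D.sw0.BS j).lab p).u) := by
      apply Aff.ext'
      · rw [mul_l, emb_l, map_zero, add_zero, hp]
      · rw [mul_u, emb_u, mul_inv_cancel_left]
    rw [h3]
    exact hk _ _ (Set.mem_singleton _) _ (mul_mem (inv_mem hu) (lab_u_mem j p)))
  refine ⟨Φ0, h1, fun mu g hg p hp => ?_⟩
  refine h2 (D.aff.Pw ⟨mu, 1⟩) (D.wtSet mu) (D.aff.sys_Pw _) (closed_wt mu) ?_ g ?_ p ?_
  · intro v hv s hs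
    rw [List.mem_map] at hs
    obtain ⟨i, _, rfl⟩ := hs
    exact wtSet_mul hv i
  · intro p hp'
    refine hg p fun h3 => hp' ⟨h3, lab_u_mem j p⟩
  · exact fun h3 => hp h3.1

end SLD

end Pool.Agent.MTX
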