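import Pool.Agent.MTX.S0

/-! # MTX, Part S : closed sets (section 2 of MTX_PROOF.md, (2.1), (2.2), (2.3)) -/

namespace Pool.Agent.MTX

namespace AS
variable {R G Rt S : Type} [CommRing R] [Group G] [MulSemiringAction G R] [MulAction G Rt]
variable (D : AS R G Rt S)

theorem sr_sq (s : S) : D.sr s * D.sr s = 1 := D.refl_sq _

/-- `s_{v a_s} v = v s`. From `refl_smul`. -/
theorem refl_smul_al (v : G) (s : S) : D.refl (v • D.al s) * v = v * D.sr s := by
  rw [D.refl_smul, inv_mul_cancel_right]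
  rfl

/-- `s_{v a_s} v s = v`. -/
theorem refl_smul_al' (v : G) (s : S) : D.refl (v • D.al s) * (v * D.sr s) = v := by
  rw [← mul_assoc, D.refl_smul_al, mul_assoc, D.sr_sq, mul_one]

theorem sys_pos : D.Sys D.pos := D.pos_ng

/-- `w⁻¹ • ng b = ng (w⁻¹ • b)`. -/
theorem sys_Pw (w : G) : D.Sys (D.Pw w) := by
  intro b
  show D.pos (w⁻¹ • D.ng b) ↔ ¬ D.pos (w⁻¹ • b)
  rw [D.smul_ng]
  exact D.pos_ng _

/-- If `c` is positive and `s c` is not positive, then `c = a_s` (this is `perm`).  If `c` is not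
positive and `s c` is positive, then `c = ng (a_s)` (apply the first part to `ng c`). -/
theorem eq_al (s : S) (c : Rt) (h1 : D.pos c) (h2 : ¬ D.pos (D.sr s • c)) : c = D.al s := by
  by_contra h
  exact h2 (D.perm s c h1 h)

theorem eq_ng_al (s : S) (c : Rt) (h1 : ¬ D.pos c) (h2 : D.pos (D.sr s • c)) :
    c = D.ng (D.al s) := by
  have h3 : D.pos (D.ng c) := (D.pos_ng c).2 h1
  have h4 : ¬ D.pos (D.sr s • D.ng c) := by
    rw [D.smul_ng, D.pos_ng]
    exact fun h => h h2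
  have h5 := D.eq_al s (D.ng c) h3 h4
  rw [← h5, D.ng_ng]

/-- (2.1)  Let `v` be in `plus s X`, `P b`, `¬ pos (v⁻¹ b)`.  If `v ∈ X`, done by `hX`.  Otherwise
`u := v s ∈ X` and `u⁻¹ b = s v⁻¹ b`.  If `u⁻¹ b` is not positive then `s_b u ∈ X`, and
`(s_b v) s = s_b u`.  If `u⁻¹ b` is positive then `s (u⁻¹ b) = v⁻¹ b` is not positive, so
`u⁻¹ b = a_s` (`eq_al`), `b = u a_s`, `s_b v = s_b (u s) = u ∈ X` (`refl_smul_al'`). -/
theorem closed_plus {P : Rt → Prop} {X : Set G} (hX : D.Closed P X) (s : S) :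
    D.Closed P (D.plus s X) := by
  intro v hv b hb hn
  rcases hv with hv | hv
  · exact Or.inl (hX v hv b hb hn)
  · by_cases h : D.pos ((v * D.sr s)⁻¹ • b)
    · have h1 : D.sr s • ((v * D.sr s)⁻¹ • b) = v⁻¹ • b := by
        rw [smul_smul, mul_inv_rev, ← mul_assoc, mul_inv_cancel, one_mul]
      have h2 : (v * D.sr s)⁻¹ • b = D.al s := by
        apply D.eq_al s _ h
        rw [h1]
        exact hn
      have h3 : b = (v * D.sr s) • D.al s := by
        rw [← h2, smul_inv_smul]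
      have h4 : D.refl b * v = v * D.sr s := by
        have h5 := D.refl_smul_al' (v * D.sr s) s
        rw [mul_assoc v, D.sr_sq, mul_one] at h5
        rw [h3]
        exact h5
      left
      rw [h4]
      exact hv
    · right
      have h1 := hX _ hv b hb h
      rw [mul_assoc]
      exact h1

/-- (2.1)  Let `v, v s ∈ X`, `P b`, `¬ pos (v⁻¹ b)`.  Then `s_b v ∈ X`.  If `(v s)⁻¹ b = s v⁻¹ b` is not
positive, then `s_b v s ∈ X`.  If it is positive, `v⁻¹ b = ng a_s` (`eq_ng_al`), `b = ng (v a_s)`,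
`s_b v s = v ∈ X` (`refl_ng`, `refl_smul_al'`). -/
theorem closed_core {P : Rt → Prop} {X : Set G} (hX : D.Closed P X) (s : S) :
    D.Closed P (D.core s X) := by
  rintro v ⟨hv, hvs⟩ b hb h
  refine ⟨hX v hv b hb h, ?_⟩
  have hinv : (D.sr s)⁻¹ = D.sr s := inv_eq_of_mul_eq_one_left (D.sr_sq s)
  have hsm : (v * D.sr s)⁻¹ • b = D.sr s • (v⁻¹ • b) := by
    rw [mul_inv_rev, mul_smul, hinv]
  by_cases hp : D.pos ((v * D.sr s)⁻¹ • b)
  · rw [hsm] at hp
    have h1 := D.eq_ng_al s (v⁻¹ • b) h hp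
    have h2 : b = D.ng (v • D.al s) := by
      rw [← D.smul_ng, ← h1, smul_inv_smul]
    have h3 : D.refl b * v * D.sr s = v := by
      rw [h2, D.refl_ng, mul_assoc]
      exact D.refl_smul_al' v s
    show D.refl b * v * D.sr s ∈ X
    rw [h3]
    exact hv
  · have h1 := hX (v * D.sr s) hvs b hb hp
    show D.refl b * v * D.sr s ∈ X
    rw [mul_assoc]
    exact h1

/-- (2.2) -/
theorem closed_single (w : G) : D.Closed (D.Pw w) {w} := by
  intro v hv b hb h
  rw [Set.mem_singleton_iff] at hv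
  subst hv
  exact absurd hb h

theorem closed_one : D.Closed D.pos {1} := by
  intro v hv b hb h
  rw [Set.mem_singleton_iff] at hv
  subst hv
  rw [inv_one, one_smul] at h
  exact absurd hb h

theorem closed_univ (P : Rt → Prop) : D.Closed P Set.univ := fun _ _ _ _ _ => Set.mem_univ _

theorem closed_empty (P : Rt → Prop) : D.Closed P ∅ := fun _ h => absurd h (Set.notMem_empty _)

/-- (2.3)  `u⁻¹ b` is positive (otherwise `s_b u ∈ X`).  `v := s_b u s ∈ X`, `s_b v = u s ∉ X`, so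
`v⁻¹ b` is positive.  `v⁻¹ b = s u⁻¹ s_b b = ng (s (u⁻¹ b))`, so `s (u⁻¹ b)` is not positive and
`u⁻¹ b = a_s` by `eq_al`. -/
theorem block_case {P : Rt → Prop} {X : Set G} (hX : D.Closed P X) (s : S) {u : G} (hu : u ∈ X)
    (hus : u * D.sr s ∉ X) {b : Rt} (hb : P b) (h1 : D.refl b * u ∉ X)
    (h2 : D.refl b * u * D.sr s ∈ X) : b = u • D.al s := by
  have hinv : (D.sr s)⁻¹ = D.sr s := inv_eq_of_mul_eq_one_left (D.sr_sq s)
  have hrinv : (D.refl b)⁻¹ = D.refl b := inv_eq_of_mul_eq_one_left (D.refl_sq b)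
  have hpos : D.pos (u⁻¹ • b) := by
    by_contra hn
    exact h1 (hX u hu b hb hn)
  have hpos2 : D.pos ((D.refl b * u * D.sr s)⁻¹ • b) := by
    by_contra hn
    have h3 := hX _ h2 b hb hn
    apply hus
    have h4 : D.refl b * (D.refl b * u * D.sr s) = u * D.sr s := by
      rw [← mul_assoc, ← mul_assoc, D.refl_sq, one_mul]
    rw [h4] at h3
    exact h3
  have h5 : (D.refl b * u * D.sr s)⁻¹ • b = D.ng (D.sr s • (u⁻¹ • b)) := by
    rw [mul_inv_rev, mul_inv_rev, mul_smul, mul_smul, hinv, hrinv, D.refl_self, D.smul_ng,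
      D.smul_ng]
  rw [h5, D.pos_ng] at hpos2
  have h6 := D.eq_al s (u⁻¹ • b) hpos hpos2
  rw [← h6, smul_inv_smul]

/-- `X ⊆ plus s X` and so on. -/
theorem subset_plus (s : S) (X : Set G) : X ⊆ D.plus s X := fun _ h => Or.inl h

theorem core_subset (s : S) (X : Set G) : D.core s X ⊆ X := fun _ h => h.1

theorem plus_mono (s : S) {X' X : Set G} (h : X' ⊆ X) : D.plus s X' ⊆ D.plus s X := by
  rintro v (hv | hv)
  · exact Or.inl (h hv)
  · exact Or.inr (h hv)

theorem core_mono (s : S) {X' X : Set G} (h : X' ⊆ X) : D.core s X' ⊆ D.core s X :=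
  fun _ hv => ⟨h hv.1, h hv.2⟩

end AS

end Pool.Agent.MTX
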