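import Pool.Agent.MTX.S3b
import Pool.Agent.MTX.S4a

/-! # MTX, Part S : (2.6), the class `Nice` is stable under the star -/

namespace Pool.Agent.MTX

variable {R G Rt S : Type} [CommRing R] [IsDomain R] [Algebra ℚ R] [Group G]
  [MulSemiringAction G R] [MulAction G Rt] (D : AS R G Rt S) {L : Lat R G}

/-- The property (TF) of `Nice` for the star `N`, supports `X' ⊆ X` closed for `P`.

Let `nb`, `na` be the `n`-parts of `b`, `a` (in `L.M`, supported on `plus s X`, `star_n_sup`).
`c nb - π na` is supported on `plus s X'` (`star_n_sup` for the element `c b - π a`).  (TF) for `L` and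
`plus s X' ⊆ plus s X` (`closed_plus`, `plus_mono`) gives `n1 ∈ L.M` supported on `plus s X` with
`nb - π n1` supported on `plus s X'`.  `star_onto` gives `e1 ∈ N` supported on `X` with `n`-part `n1`, and
`e2 ∈ N` supported on `X'` with `n`-part `nb - π n1`.  Since
`π (na - c n1) = - ((c nb - π na) - c (nb - π n1))`, the function `na - c n1` is supported on `plus s X'`; so
`star_onto` gives `e3 ∈ N` supported on `X'` with `n`-part `na - c n1`.
`b' := b - π e1 - e2` and `a'' := a - c e1 - e3` are supported on `X` with `n`-part `0`, so by `star_ker` they are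
`(b0, b0)`, `(a0, a0)`, `b0, a0 ∈ L.M` supported on `core s X`.  `c b' - π a'' = (c b - π a) - c e2 + π e3` is
supported on `X'` with `n`-part `0`, so `c b0 - π a0` is supported on `core s X'` (`star_ker`).
(TF) for `L` and `core s X' ⊆ core s X` gives `a3 ∈ L.M` supported on `core s X` with `b0 - π a3` supported on
`core s X'`.  Take `a' := e1 + (a3, a3)`: `b - π a' = e2 + (b0 - π a3, b0 - π a3)`.
(An element `(m, m)` with `m` supported on `core s X` is supported on `X`.) -/
theorem star_tf (hL : Nice D L) (s : S) :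
    ∀ P : Rt → Prop, D.Sys P → ∀ X' X : Set G, X' ⊆ X → D.Closed P X' → D.Closed P X →
    ∀ π c : R, Prime π → ¬ π ∣ c → ∀ b ∈ (Lat.star (D.sw.f s) (D.sw.g s) L).M,
    ∀ a ∈ (Lat.star (D.sw.f s) (D.sw.g s) L).M,
    (Lat.star (D.sw.f s) (D.sw.g s) L).sup b X → (Lat.star (D.sw.f s) (D.sw.g s) L).sup a X →
    (Lat.star (D.sw.f s) (D.sw.g s) L).sup (c • b - π • a) X' →
    ∃ a' ∈ (Lat.star (D.sw.f s) (D.sw.g s) L).M,
      (Lat.star (D.sw.f s) (D.sw.g s) L).sup a' X ∧
      (Lat.star (D.sw.f s) (D.sw.g s) L).sup (b - π • a') X' := by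
  intro P hP X' X hXX hX' hX π c hπ hc b hb a ha hsb hsa hcba
  have hf0 : D.sw.f s ≠ 0 := D.sw.f_ne s
  have hfp : ∀ p : L.J, L.lab p • D.sw.f s ≠ 0 := fun p => smul_ne_zero' _ hf0
  obtain ⟨_, nb, hnb, hb2⟩ := Lat.mem_star.mp hb
  obtain ⟨_, na, hna, ha2⟩ := Lat.mem_star.mp ha
  have hnbs := star_n_sup D s hsb hb2
  have hnas := star_n_sup D s hsa ha2
  have hcn : L.sup (c • nb - π • na) (D.plus s X') := by
    refine star_n_sup D s hcba (fun p => ?_)
    show (c * b (p, false) - π * a (p, false)) - (c * b (p, true) - π * a (p, true)) =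
      (L.lab p • D.sw.f s) * (c * nb p - π * na p)
    linear_combination c * hb2 p - π * ha2 p
  obtain ⟨n1, hn1, hn1s, hn1'⟩ := hL.tf P hP (D.plus s X') (D.plus s X) (D.plus_mono s hXX)
    (D.closed_plus hX' s) (D.closed_plus hX s) π c hπ hc nb hnb na hna hnbs hnas hcn
  obtain ⟨e1, he1, he1s, he1n⟩ := star_onto D hP hL s hX hn1 hn1s
  obtain ⟨e2, he2, he2s, he2n⟩ := star_onto D hP hL s hX'
    (L.M.sub_mem hnb (L.M.smul_mem π hn1)) hn1'
  have hn3 : L.sup (na - c • n1) (D.plus s X') := by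
    intro p hp
    have h1 : c * nb p - π * na p = 0 := hcn p hp
    have h2 : nb p - π * n1 p = 0 := hn1' p hp
    have h3 : π * (na p - c * n1 p) = 0 := by linear_combination -h1 + c * h2
    exact (mul_eq_zero.mp h3).resolve_left hπ.ne_zero
  obtain ⟨e3, he3, he3s, he3n⟩ := star_onto D hP hL s hX'
    (L.M.sub_mem hna (L.M.smul_mem c hn1)) hn3
  have hbm : b - π • e1 - e2 ∈ (Lat.star (D.sw.f s) (D.sw.g s) L).M :=
    Submodule.sub_mem _ (Submodule.sub_mem _ hb (Submodule.smul_mem _ π he1)) he2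
  have ham : a - c • e1 - e3 ∈ (Lat.star (D.sw.f s) (D.sw.g s) L).M :=
    Submodule.sub_mem _ (Submodule.sub_mem _ ha (Submodule.smul_mem _ c he1)) he3
  have hbs : (Lat.star (D.sw.f s) (D.sw.g s) L).sup (b - π • e1 - e2) X := by
    intro q hq
    show b q - π * e1 q - e2 q = 0
    rw [hsb q hq, he1s q hq, he2s q (fun h => hq (hXX h))]
    ring
  have has : (Lat.star (D.sw.f s) (D.sw.g s) L).sup (a - c • e1 - e3) X := by
    intro q hq
    show a q - c * e1 q - e3 q = 0
    rw [hsa q hq, he1s q hq, he3s q (fun h => hq (hXX h))]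
    ring
  have hbe : ∀ p : L.J, (b - π • e1 - e2) (p, false) = (b - π • e1 - e2) (p, true) := by
    intro p
    show b (p, false) - π * e1 (p, false) - e2 (p, false) =
      b (p, true) - π * e1 (p, true) - e2 (p, true)
    have h2 : e2 (p, false) - e2 (p, true) = (L.lab p • D.sw.f s) * (nb p - π * n1 p) := he2n p
    linear_combination hb2 p - π * he1n p - h2
  have hae : ∀ p : L.J, (a - c • e1 - e3) (p, false) = (a - c • e1 - e3) (p, true) := by
    intro p
    show a (p, false) - c * e1 (p, false) - e3 (p, false) =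
      a (p, true) - c * e1 (p, true) - e3 (p, true)
    have h2 : e3 (p, false) - e3 (p, true) = (L.lab p • D.sw.f s) * (na p - c * n1 p) := he3n p
    linear_combination ha2 p - c * he1n p - h2
  obtain ⟨hb0, hb0s⟩ := star_ker D s hbm hbs hbe
  obtain ⟨ha0, ha0s⟩ := star_ker D s ham has hae
  have hdm : c • (b - π • e1 - e2) - π • (a - c • e1 - e3) ∈
      (Lat.star (D.sw.f s) (D.sw.g s) L).M :=
    Submodule.sub_mem _ (Submodule.smul_mem _ c hbm) (Submodule.smul_mem _ π ham)
  have hds : (Lat.star (D.sw.f s) (D.sw.g s) L).sup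
      (c • (b - π • e1 - e2) - π • (a - c • e1 - e3)) X' := by
    intro q hq
    show c * (b q - π * e1 q - e2 q) - π * (a q - c * e1 q - e3 q) = 0
    have h1 : c * b q - π * a q = 0 := hcba q hq
    rw [he2s q hq, he3s q hq]
    linear_combination h1
  have hde : ∀ p : L.J, (c • (b - π • e1 - e2) - π • (a - c • e1 - e3)) (p, false) =
      (c • (b - π • e1 - e2) - π • (a - c • e1 - e3)) (p, true) := by
    intro p
    show c * (b - π • e1 - e2) (p, false) - π * (a - c • e1 - e3) (p, false) =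
      c * (b - π • e1 - e2) (p, true) - π * (a - c • e1 - e3) (p, true)
    rw [hbe p, hae p]
  obtain ⟨_, hd0s⟩ := star_ker D s hdm hds hde
  obtain ⟨a3, ha3, ha3s, ha3'⟩ := hL.tf P hP (D.core s X') (D.core s X) (D.core_mono s hXX)
    (D.closed_core hX' s) (D.closed_core hX s) π c hπ hc _ hb0 _ ha0 hb0s ha0s hd0s
  obtain ⟨A, hA, hA3⟩ : ∃ A ∈ (Lat.star (D.sw.f s) (D.sw.g s) L).M,
      ∀ (p : L.J) (t : Bool), A (p, t) = a3 p :=
    ⟨(dup (D.sw.f s) (D.sw.g s) L ⟨a3, ha3⟩).1, (dup (D.sw.f s) (D.sw.g s) L ⟨a3, ha3⟩).2,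
      fun _ _ => rfl⟩
  refine ⟨e1 + A, Submodule.add_mem _ he1 hA, ?_, ?_⟩
  · intro q hq
    obtain ⟨p, t⟩ := q
    show e1 (p, t) + A (p, t) = 0
    rw [he1s (p, t) hq, zero_add, hA3]
    refine ha3s p (fun hp => hq ?_)
    cases t
    · exact hp.1
    · exact hp.2
  · intro q hq
    obtain ⟨p, t⟩ := q
    show b (p, t) - π * (e1 (p, t) + A (p, t)) = 0
    rw [hA3]
    have h1 : (b - π • e1 - e2) (p, false) - π * a3 p = 0 := by
      refine ha3' p (fun hp => hq ?_)
      cases t
      · exact hp.1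
      · exact hp.2
    have h2 : (b - π • e1 - e2) (p, t) - π * a3 p = 0 := by
      cases t
      · exact h1
      · rw [← hbe p]
        exact h1
    have h3 : b (p, t) - π * e1 (p, t) - e2 (p, t) - π * a3 p = 0 := h2
    rw [he2s (p, t) hq] at h3
    linear_combination h3

theorem nice_star (hL : Nice D L) (s : S) : Nice D (Lat.star (D.sw.f s) (D.sw.g s) L) :=
  ⟨ry_star D.sw s hL.ry_mem, big_star' D s hL.big, star_tf D hL s⟩

theorem nice_words (hL : Nice D L) (l : List S) : Nice D (D.sw.words L l) := by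
  induction l with
  | nil => exact hL
  | cons s l ih => exact nice_star D ih s

theorem nice_BS (l : List S) : Nice D (D.sw.BS l) := nice_words D (nice_base D 1) l

end Pool.Agent.MTX
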