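import Pool.Agent.MTX.S12a
import Pool.Agent.MTX.S4b

/-! # MTX, Part S : reduction modulo `ħ`: kernel and supports, (5.1), (5.2) -/

namespace Pool.Agent.MTX

variable {R A G Rt S : Type} [CommRing R] [IsDomain R] [Algebra ℚ R] [CommRing A] [Group G]
  [MulSemiringAction G R] [MulSemiringAction G A] [MulAction G Rt]

namespace RedData
variable {D : AS R G Rt S} {W' : SW A G S} (B : RedData D W')
include B

theorem s12b_ndvd (cl : List Rt) : ¬ B.h ∣ (cl.map D.f).prod := by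
  intro hd
  obtain ⟨x, hx, hx2⟩ := (Prime.dvd_prod_iff B.prime).mp hd
  obtain ⟨b, -, rfl⟩ := List.mem_map.mp hx
  exact B.ndvd b hx2

/-- (5.1), the kernel.  `m = h m1`, `m1 : J → R` (`B.ker`).  `(nice_BS D l).big`: `c0 • m1 ∈ M`, `c0` a product of
forms, `h ∤ c0` (`B.prime`, `B.ndvd`).  (TF) with `X = univ`, `X' = ∅` (`closed_univ`, `closed_empty`), `π = h`,
`c = c0`, `b = m`, `a = c0 • m1`: there is `a' ∈ M` with `m - h • a'` supported on `∅`, i.e. `m = h • a'`. -/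
theorem ker_red (l : List S) (m : (D.sw.BS l).M) (hm : ∀ p, B.ρ (m.1 p) = 0) :
    ∃ a : (D.sw.BS l).M, m = B.h • a := by
  choose m1 hm1 using fun p => (B.ker _).mp (hm p)
  obtain ⟨cl, hcl⟩ := (nice_BS D l).big
  obtain ⟨a', ha', -, h2⟩ := (nice_BS D l).tf D.pos D.sys_pos ∅ Set.univ (Set.empty_subset _)
    (D.closed_empty _) (D.closed_univ _) B.h _ B.prime (B.s12b_ndvd cl) m.1 m.2 _ (hcl m1)
    (fun p hp => absurd (Set.mem_univ _) hp) (fun p hp => absurd (Set.mem_univ _) hp)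
    (fun p _ => by
      show (cl.map D.f).prod * m.1 p - B.h * ((cl.map D.f).prod * m1 p) = 0
      rw [hm1 p]
      ring)
  refine ⟨⟨a', ha'⟩, Subtype.ext (funext fun p => ?_)⟩
  have h3 : m.1 p - B.h * a' p = 0 := h2 p (Set.notMem_empty _)
  show m.1 p = B.h * a' p
  exact sub_eq_zero.mp h3

/-- (5.2).  Lift `g0` to `g ∈ M` (`B.onto`).  At the labels not in `X`: `ρ (g p) = 0`, `g p = h r p`; put `r p = 0` at
the other labels; `a := c0 • r ∈ M` (`big`).  `c0 • g - h • a` is supported on `X`.  (TF) with `X' = X ⊆ univ`,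
`π = h`, `c = c0`: `g - h • a'` is supported on `X`; it reduces to `g0` (`B.ker` for `h`). -/
theorem lift_sup {P : Rt → Prop} (hP : D.Sys P) {X : Set G} (hX : D.Closed P X) (l : List S)
    (g0 : (W'.BS l).M) (hg : (W'.BS l).sup g0.1 X) :
    ∃ g : (D.sw.BS l).M, (D.sw.BS l).sup g.1 X ∧ B.red l g = g0 := by
  obtain ⟨g, hgM, hgρ⟩ := B.onto l g0.1 g0.2
  have h1 : ∀ p, ∃ r : R, (D.sw.BS l).lab p ∉ X → g p = B.h * r := by
    intro p
    by_cases hp : (D.sw.BS l).lab p ∈ X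
    · exact ⟨0, fun h => absurd hp h⟩
    · have h2 : B.ρ (g p) = 0 := by
        rw [hgρ p]
        apply hg
        rw [B.lab l p]
        exact hp
      obtain ⟨r, hr⟩ := (B.ker _).mp h2
      exact ⟨r, fun _ => hr⟩
  choose r hr using h1
  obtain ⟨cl, hcl⟩ := (nice_BS D l).big
  obtain ⟨a', ha', -, h2⟩ := (nice_BS D l).tf P hP X Set.univ (Set.subset_univ _)
    hX (D.closed_univ _) B.h _ B.prime (B.s12b_ndvd cl) g hgM _ (hcl r)
    (fun p hp => absurd (Set.mem_univ _) hp) (fun p hp => absurd (Set.mem_univ _) hp)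
    (fun p hp => by
      show (cl.map D.f).prod * g p - B.h * ((cl.map D.f).prod * r p) = 0
      rw [hr p hp]
      ring)
  refine ⟨⟨g - B.h • a', (D.sw.BS l).M.sub_mem hgM ((D.sw.BS l).M.smul_mem _ ha')⟩, h2, ?_⟩
  refine Subtype.ext (funext fun q => ?_)
  obtain ⟨p, rfl⟩ := (redJ D.sw W' l).surjective q
  rw [B.red_apply]
  show B.ρ (g p - B.h * a' p) = _
  rw [map_sub, map_mul, (B.ker B.h).mpr dvd_rfl, zero_mul, sub_zero, hgρ p]

end RedData

end Pool.Agent.MTX
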