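import Pool.Agent.MTX.S0

/-! # MTX, Part S : restriction to blocks (section 2 of MTX_PROOF.md, (2.4)) -/

namespace Pool.Agent.MTX

variable {R G Rt S : Type} [CommRing R] [IsDomain R] [Group G] [MulSemiringAction G R]
  [MulAction G Rt] (D : AS R G Rt S) {L : Lat R G}

/-- the multiplier of the composed operator -/
def s2_e (b : Rt) (g : R) (V : Finset G) (t : G) : R :=
  ∏ u ∈ V, (t • g - u • g) * (t • g - (D.refl b * u) • g)

omit [IsDomain R] [MulAction G Rt] in
theorem s2_step (hry : RyLat L) (g a c : R) (m : L.J → R) (hm : m ∈ L.M) :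
    (fun p => (L.lab p • g - a) * (L.lab p • g - c) * m p) ∈ L.M := by
  have h1 := hry (g * g) m hm
  have h2 := hry g m hm
  have h3 : L.ry (g * g) m - (a + c) • L.ry g m + (a * c) • m ∈ L.M :=
    L.M.add_mem (L.M.sub_mem h1 (L.M.smul_mem _ h2)) (L.M.smul_mem _ hm)
  have h4 : (fun p => (L.lab p • g - a) * (L.lab p • g - c) * m p)
      = L.ry (g * g) m - (a + c) • L.ry g m + (a * c) • m := by
    funext p
    simp only [Lat.ry, Pi.add_apply, Pi.sub_apply, Pi.smul_apply, smul_eq_mul, smul_mul']
    ring
  rw [h4]
  exact h3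

omit [IsDomain R] in
open Classical in
theorem s2_F1 (hry : RyLat L) (b : Rt) (g : R) (V : Finset G) :
    ∀ m ∈ L.M, (fun p => s2_e D b g V (L.lab p) * m p) ∈ L.M := by
  induction V using Finset.induction_on with
  | empty =>
    intro m hm
    have h1 : (fun p => s2_e D b g ∅ (L.lab p) * m p) = m := by
      funext p
      simp [s2_e]
    rw [h1]
    exact hm
  | insert u V hu ih =>
    intro m hm
    have h1 := s2_step hry g (u • g) ((D.refl b * u) • g) _ (ih m hm)
    have h2 : (fun p => s2_e D b g (insert u V) (L.lab p) * m p)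
        = (fun p => (L.lab p • g - u • g) * (L.lab p • g - (D.refl b * u) • g)
          * (s2_e D b g V (L.lab p) * m p)) := by
      funext p
      rw [s2_e, s2_e, Finset.prod_insert hu]
      ring
    rw [h2]
    exact h1

omit [IsDomain R] in
theorem s2_e_zero (b : Rt) (g : R) {V : Finset G} {t : G} (ht : t ∈ V) : s2_e D b g V t = 0 := by
  unfold s2_e
  apply Finset.prod_eq_zero ht
  rw [sub_self, zero_mul]

omit [IsDomain R] in
theorem s2_not_dvd (b : Rt) (g : R) (V : Finset G) (t : G)
    (h : ∀ u ∈ V, ¬ D.f b ∣ t • g - u • g ∧ ¬ D.f b ∣ t • g - (D.refl b * u) • g) :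
    ¬ D.f b ∣ s2_e D b g V t := by
  intro hd
  unfold s2_e at hd
  obtain ⟨u, hu, hdu⟩ := (D.prime b).exists_mem_finset_dvd hd
  rcases (D.prime b).dvd_or_dvd hdu with h1 | h1
  · exact (h u hu).1 h1
  · exact (h u hu).2 h1

/-- (2.4), one block.  Let `F` be the finite set of the labels `lab p` together with the `s_b lab p`
and `v`, `s_b v`; take `g` from `D.gen b F`.  Let `V` be the finite set of the labels different from
`v` and `s_b v` (`Finset.univ.image lab` filtered; use `Classical`).
For `u ∈ V` the operator `m ↦ ry (g)^2 m - (u g + s_b u g) ry g m + (u g)(s_b u g) m` preserves `L.M`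
(`hry`, submodule) and multiplies the component at a label `t` by `(t g - u g)(t g - s_b u g)`.
The composition `F1` over all `u ∈ V` (induction over the finset) multiplies the component at `t` by
`e t := ∏_{u ∈ V} (t g - u g)(t g - s_b u g)`, which is `0` for `t ∈ V`.
`d := e v`, `d' := e (s_b v) = s_b d` (`smul` is multiplicative, `s_b s_b = 1`).  `f b ∤ d`, `f b ∤ d'`
(prime: the factors are not divisible by the choice of `g`: for `u ∈ V` we have `v ≠ u, v ≠ s_b u`, and so on).
`c := d d'`.  The operator `m ↦ (d + d') F1 m - F1 (F1 m)` preserves `L.M`, multiplies the component at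
`v` by `(d + d') d - d^2 = c`, that at `s_b v` by `(d + d') d' - d'^2 = c`, and the others by `0`. -/
theorem rest_block (hry : RyLat L) (b : Rt) (v : G) :
    ∃ c : R, ¬ D.f b ∣ c ∧ ∀ m ∈ L.M, c • L.rest {v, D.refl b * v} m ∈ L.M := by
  classical
  have hrr : ∀ x : G, D.refl b * (D.refl b * x) = x := fun x => by
    rw [← mul_assoc, D.refl_sq, one_mul]
  obtain ⟨g, hg⟩ := D.gen b (Finset.univ.image L.lab ∪
    Finset.univ.image (fun p => D.refl b * L.lab p) ∪ {v, D.refl b * v})
  obtain ⟨F, hF⟩ : ∃ F, F = (Finset.univ.image L.lab ∪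
    Finset.univ.image (fun p => D.refl b * L.lab p) ∪ {v, D.refl b * v}) := ⟨_, rfl⟩
  rw [← hF] at hg
  obtain ⟨V, hV⟩ : ∃ V : Finset G, V = (Finset.univ.image L.lab).filter
    (fun t => t ≠ v ∧ t ≠ D.refl b * v) := ⟨_, rfl⟩
  have hvF : v ∈ F := by rw [hF]; simp
  have hrvF : D.refl b * v ∈ F := by rw [hF]; simp
  have hVF : ∀ u ∈ V, u ∈ F ∧ D.refl b * u ∈ F ∧ u ≠ v ∧ u ≠ D.refl b * v := by
    intro u hu
    rw [hV, Finset.mem_filter, Finset.mem_image] at hu
    obtain ⟨⟨p, _, hp⟩, h1, h2⟩ := hu
    refine ⟨?_, ?_, h1, h2⟩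
    · rw [hF]
      simp only [Finset.mem_union, Finset.mem_image]
      exact Or.inl (Or.inl ⟨p, Finset.mem_univ p, hp⟩)
    · rw [hF]
      simp only [Finset.mem_union, Finset.mem_image]
      exact Or.inl (Or.inr ⟨p, Finset.mem_univ p, by rw [hp]⟩)
  have hd1 : ¬ D.f b ∣ s2_e D b g V v := by
    apply s2_not_dvd
    intro u hu
    obtain ⟨h1, h2, h3, h4⟩ := hVF u hu
    refine ⟨hg v hvF u h1 h3 h4, hg v hvF _ h2 ?_ ?_⟩
    · intro h5
      apply h4
      rw [← h5, hrr]
    · intro h5
      exact h3 (mul_left_cancel h5)
  have hd2 : ¬ D.f b ∣ s2_e D b g V (D.refl b * v) := by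
    apply s2_not_dvd
    intro u hu
    obtain ⟨h1, h2, h3, h4⟩ := hVF u hu
    refine ⟨hg _ hrvF u h1 h4 ?_, hg _ hrvF _ h2 ?_ ?_⟩
    · rw [hrr]
      exact h3
    · intro h5
      exact h3 (mul_left_cancel h5)
    · rw [hrr]
      intro h5
      apply h4
      rw [← h5, hrr]
  refine ⟨s2_e D b g V v * s2_e D b g V (D.refl b * v), ?_, ?_⟩
  · intro h
    rcases (D.prime b).dvd_or_dvd h with h1 | h1
    · exact hd1 h1
    · exact hd2 h1
  · intro m hm
    have h1 := s2_F1 D hry b g V m hm
    have h2 := s2_F1 D hry b g V _ h1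
    have h3 := L.M.sub_mem (L.M.smul_mem
      (s2_e D b g V v + s2_e D b g V (D.refl b * v)) h1) h2
    have h4 : (s2_e D b g V v * s2_e D b g V (D.refl b * v)) • L.rest {v, D.refl b * v} m
        = (s2_e D b g V v + s2_e D b g V (D.refl b * v)) •
          (fun p => s2_e D b g V (L.lab p) * m p)
          - (fun p => s2_e D b g V (L.lab p) * (s2_e D b g V (L.lab p) * m p)) := by
      funext p
      simp only [Pi.smul_apply, Pi.sub_apply, smul_eq_mul, Lat.rest]
      by_cases hp1 : L.lab p = v
      · rw [if_pos (by rw [hp1]; simp), hp1]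
        ring
      · by_cases hp2 : L.lab p = D.refl b * v
        · rw [if_pos (by rw [hp2]; simp), hp2]
          ring
        · have hpV : L.lab p ∈ V := by
            rw [hV, Finset.mem_filter, Finset.mem_image]
            exact ⟨⟨p, Finset.mem_univ p, rfl⟩, hp1, hp2⟩
          rw [s2_e_zero D b g hpV, if_neg ?_]
          · ring
          · intro h5
            rcases h5 with h5 | h5
            · exact hp1 h5
            · exact hp2 h5
    rw [h4]
    exact h3

/-- (2.4), an `s_b`-stable set `X` of labels.  Induction on the number of labels in `X`: more precisely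
show for every finset `T` of group elements: there is `c`, `f b ∤ c`, with
`c • rest (X ∩ (T ∪ s_b T)) m ∈ L.M` for all `m ∈ L.M`; at the end `T` = all labels.  Step: add `v`.  If
`v ∉ X` or `v ∈ T ∪ s_b T` nothing changes.  Otherwise `X ∩ ((T ∪ {v}) ∪ s_b (T ∪ {v}))` is the disjoint union
of `X ∩ (T ∪ s_b T)` and `{v, s_b v}`; take the product `c c'` of the two constants:
`(c c') • rest (A ∪ B) m = c' • (c • rest A m) + c • (c' • rest B m)`. -/
theorem rest_stable (hry : RyLat L) (b : Rt) (X : Set G) (hX : ∀ v ∈ X, D.refl b * v ∈ X) :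
    ∃ c : R, ¬ D.f b ∣ c ∧ ∀ m ∈ L.M, c • L.rest X m ∈ L.M := by
  classical
  have hrr : ∀ w : G, D.refl b * (D.refl b * w) = w := fun w => by
    rw [← mul_assoc, D.refl_sq, one_mul]
  have key : ∀ T : Finset G, ∃ c : R, ¬ D.f b ∣ c ∧ ∀ m ∈ L.M,
      c • L.rest {w | w ∈ X ∧ (w ∈ T ∨ D.refl b * w ∈ T)} m ∈ L.M := by
    intro T
    induction T using Finset.induction_on with
    | empty =>
      refine ⟨1, fun h => (D.prime b).not_isUnit (isUnit_of_dvd_one h), fun m _ => ?_⟩
      have h0 : L.rest {w | w ∈ X ∧ (w ∈ (∅ : Finset G) ∨ D.refl b * w ∈ (∅ : Finset G))} m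
          = 0 := by
        funext p
        unfold Lat.rest
        rw [if_neg]
        · rfl
        · rintro ⟨_, h | h⟩ <;> simp at h
      rw [h0, smul_zero]
      exact L.M.zero_mem
    | insert v T hv ih =>
      obtain ⟨c, hc, hcm⟩ := ih
      by_cases hcase : v ∈ X ∧ ¬ (v ∈ T ∨ D.refl b * v ∈ T)
      · obtain ⟨hvX, hvT⟩ := hcase
        obtain ⟨c', hc', hcm'⟩ := rest_block D hry b v
        refine ⟨c * c', fun h => ?_, fun m hm => ?_⟩
        · rcases (D.prime b).dvd_or_dvd h with h | h
          · exact hc h
          · exact hc' h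
        · have hsplit : L.rest {w | w ∈ X ∧ (w ∈ insert v T ∨ D.refl b * w ∈ insert v T)} m =
              L.rest {w | w ∈ X ∧ (w ∈ T ∨ D.refl b * w ∈ T)} m +
                L.rest {v, D.refl b * v} m := by
            funext p
            rw [Pi.add_apply]
            unfold Lat.rest
            by_cases hB : L.lab p ∈ ({v, D.refl b * v} : Set G)
            · rw [if_pos hB]
              have hA : L.lab p ∉ {w | w ∈ X ∧ (w ∈ T ∨ D.refl b * w ∈ T)} := by
                rintro ⟨_, h⟩
                rcases hB with hB | hB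
                · rw [hB] at h; exact hvT h
                · rw [Set.mem_singleton_iff] at hB
                  rw [hB, hrr] at h
                  exact hvT h.symm
              rw [if_neg hA, zero_add, if_pos]
              rcases hB with hB | hB
              · refine ⟨?_, Or.inl ?_⟩
                · rw [hB]; exact hvX
                · rw [hB]; exact Finset.mem_insert_self _ _
              · rw [Set.mem_singleton_iff] at hB
                refine ⟨?_, Or.inr ?_⟩
                · rw [hB]; exact hX v hvX
                · rw [hB, hrr]; exact Finset.mem_insert_self _ _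
            · rw [if_neg hB, add_zero]
              have hiff : L.lab p ∈ {w | w ∈ X ∧ (w ∈ insert v T ∨ D.refl b * w ∈ insert v T)} ↔
                  L.lab p ∈ {w | w ∈ X ∧ (w ∈ T ∨ D.refl b * w ∈ T)} := by
                constructor
                · rintro ⟨h1, h2⟩
                  refine ⟨h1, ?_⟩
                  rcases h2 with h2 | h2
                  · rcases Finset.mem_insert.1 h2 with h3 | h3
                    · exact absurd (Or.inl h3) hB
                    · exact Or.inl h3
                  · rcases Finset.mem_insert.1 h2 with h3 | h3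
                    · exfalso
                      apply hB
                      right
                      rw [Set.mem_singleton_iff, ← h3, hrr]
                    · exact Or.inr h3
                · rintro ⟨h1, h2⟩
                  refine ⟨h1, ?_⟩
                  rcases h2 with h2 | h2
                  · exact Or.inl (Finset.mem_insert_of_mem h2)
                  · exact Or.inr (Finset.mem_insert_of_mem h2)
              by_cases hA : L.lab p ∈ {w | w ∈ X ∧ (w ∈ T ∨ D.refl b * w ∈ T)}
              · rw [if_pos hA, if_pos (hiff.2 hA)]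
              · rw [if_neg hA, if_neg (fun h => hA (hiff.1 h))]
          rw [hsplit, smul_add]
          refine L.M.add_mem ?_ ?_
          · rw [mul_comm, mul_smul]
            exact L.M.smul_mem c' (hcm m hm)
          · rw [mul_smul]
            exact L.M.smul_mem c (hcm' m hm)
      · refine ⟨c, hc, fun m hm => ?_⟩
        have hset : {w | w ∈ X ∧ (w ∈ insert v T ∨ D.refl b * w ∈ insert v T)} =
            {w | w ∈ X ∧ (w ∈ T ∨ D.refl b * w ∈ T)} := by
          ext w
          constructor
          · rintro ⟨h1, h2⟩
            refine ⟨h1, ?_⟩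
            rcases h2 with h2 | h2
            · rcases Finset.mem_insert.1 h2 with h3 | h3
              · subst h3
                by_contra h4
                exact hcase ⟨h1, h4⟩
              · exact Or.inl h3
            · rcases Finset.mem_insert.1 h2 with h3 | h3
              · by_contra h4
                refine hcase ⟨?_, ?_⟩
                · rw [← h3]; exact hX w h1
                · rw [← h3, hrr]
                  intro h5
                  exact h4 h5.symm
              · exact Or.inr h3
          · rintro ⟨h1, h2⟩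
            refine ⟨h1, ?_⟩
            rcases h2 with h2 | h2
            · exact Or.inl (Finset.mem_insert_of_mem h2)
            · exact Or.inr (Finset.mem_insert_of_mem h2)
        rw [hset]
        exact hcm m hm
  obtain ⟨c, hc, hcm⟩ := key (Finset.univ.image L.lab)
  refine ⟨c, hc, fun m hm => ?_⟩
  have heq : L.rest X m = L.rest {w | w ∈ X ∧ (w ∈ Finset.univ.image L.lab ∨
      D.refl b * w ∈ Finset.univ.image L.lab)} m := by
    funext p
    unfold Lat.rest
    by_cases hA : L.lab p ∈ X
    · rw [if_pos hA, if_pos]
      exact ⟨hA, Or.inl (Finset.mem_image_of_mem _ (Finset.mem_univ p))⟩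
    · rw [if_neg hA, if_neg]
      exact fun h => hA h.1
  rw [heq]
  exact hcm m hm

end Pool.Agent.MTX
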