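import Pool.Agent.MTX.S1
import Pool.Agent.MTX.S2

/-! # MTX, Part S : Claim L (section 2 of MTX_PROOF.md, (2.5)) -/

namespace Pool.Agent.MTX

variable {R G Rt S : Type} [CommRing R] [IsDomain R] [Algebra ℚ R] [Group G]
  [MulSemiringAction G R] [MulAction G Rt] (D : AS R G Rt S) {L : Lat R G}

omit [IsDomain R] [Group G] [MulSemiringAction G R] in
theorem s3_rest_apply (X : Set G) (m : L.J → R) (p : L.J) :
    (L.lab p ∈ X → L.rest X m p = m p) ∧ (L.lab p ∉ X → L.rest X m p = 0) := by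
  unfold Lat.rest
  constructor
  · intro h; rw [if_pos h]
  · intro h; rw [if_neg h]

theorem s3_local_L {P : Rt → Prop} (hL : Nice D L) (s : S) {X : Set G}
    (hX : D.Closed P X) {n : L.J → R} (hn : n ∈ L.M) (hns : L.sup n (D.plus s X)) (b : Rt)
    (hb : P b) :
    ∃ c : R, ¬ D.f b ∣ c ∧ ∃ m ∈ L.M, L.sup m X ∧
      ∀ p, L.lab p ∈ X → L.lab p * D.sr s ∉ X →
        m p = c * ((L.lab p • D.f (D.al s)) * n p) := by
  obtain ⟨half, hhalf⟩ : ∃ half : R, half + half = 1 := by
    refine ⟨algebraMap ℚ R (1 / 2), ?_⟩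
    rw [← map_add]
    norm_num
  have hrr : ∀ v : G, D.refl b * (D.refl b * v) = v := fun v => by
    rw [← mul_assoc, D.refl_sq, one_mul]
  set Ab : Set G := {v | ((v ∈ X ∧ v * D.sr s ∉ X) ∧ b = v • D.al s) ∨
    ((D.refl b * v ∈ X ∧ D.refl b * v * D.sr s ∉ X) ∧ b = (D.refl b * v) • D.al s)} with hAb
  set Aa : Set G := {v | ((v ∈ X ∧ v * D.sr s ∉ X) ∨
    (D.refl b * v ∈ X ∧ D.refl b * v * D.sr s ∉ X)) ∧ v ∉ Ab} with hAa
  have hAbst : ∀ v ∈ Ab, D.refl b * v ∈ Ab := by
    intro v hv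
    rcases hv with hv | hv
    · right
      rw [hrr]
      exact hv
    · left
      exact hv
  have hAbst' : ∀ v, D.refl b * v ∈ Ab → v ∈ Ab := by
    intro v hv
    have := hAbst _ hv
    rwa [hrr] at this
  have hAast : ∀ v ∈ Aa, D.refl b * v ∈ Aa := by
    rintro v ⟨hv, hv2⟩
    refine ⟨?_, fun h => hv2 (hAbst' v h)⟩
    rcases hv with hv | hv
    · right
      rw [hrr]
      exact hv
    · left
      exact hv
  obtain ⟨c1, hc1, hc1m⟩ := rest_stable D (L := L) hL.ry_mem b Aa hAast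
  obtain ⟨c2, hc2, hc2m⟩ := rest_stable D (L := L) hL.ry_mem b Ab hAbst
  have hm1 := hc1m _ (hL.ry_mem (D.f (D.al s)) n hn)
  have hm2 := hc2m _ (L.M.smul_mem half (L.M.add_mem (hL.ry_mem (D.f (D.al s)) n hn)
    (L.M.smul_mem (D.f b) hn)))
  refine ⟨c1 * c2, fun h => ?_, c2 • (c1 • L.rest Aa (L.ry (D.f (D.al s)) n)) +
    c1 • (c2 • L.rest Ab (half • (L.ry (D.f (D.al s)) n + D.f b • n))),
    L.M.add_mem (L.M.smul_mem _ hm1) (L.M.smul_mem _ hm2), ?_, ?_⟩
  · rcases (D.prime b).dvd_or_dvd h with h1 | h1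
    · exact hc1 h1
    · exact hc2 h1
  · intro p hp
    show c2 * (c1 * L.rest Aa (L.ry (D.f (D.al s)) n) p) +
      c1 * (c2 * L.rest Ab (half • (L.ry (D.f (D.al s)) n + D.f b • n)) p) = 0
    have h1 : L.rest Aa (L.ry (D.f (D.al s)) n) p = 0 := by
      by_cases hA : L.lab p ∈ Aa
      · rw [(s3_rest_apply _ _ p).1 hA]
        obtain ⟨hT, hnA⟩ := hA
        rcases hT with hT | hT
        · exact absurd hT.1 hp
        · have hne : b ≠ (D.refl b * L.lab p) • D.al s := fun h => hnA (Or.inr ⟨hT, h⟩)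
          have hns0 : n p = 0 := by
            apply hns
            rintro (h | h)
            · exact hp h
            · apply hne
              have h3 : L.lab p = D.refl b * (D.refl b * L.lab p) := (hrr _).symm
              refine D.block_case hX s hT.1 hT.2 hb ?_ ?_
              · rw [hrr]; exact hp
              · rw [hrr]; exact h
          show (L.lab p • D.f (D.al s)) * n p = 0
          rw [hns0, mul_zero]
      · exact (s3_rest_apply _ _ p).2 hA
    have h2 : L.rest Ab (half • (L.ry (D.f (D.al s)) n + D.f b • n)) p = 0 := by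
      by_cases hA : L.lab p ∈ Ab
      · rw [(s3_rest_apply _ _ p).1 hA]
        rcases hA with hA | hA
        · exact absurd hA.1.1 hp
        · obtain ⟨hT, hbu⟩ := hA
          have h3 : L.lab p = D.refl b * L.lab p * D.sr s := by
            have h4 := D.refl_smul_al (D.refl b * L.lab p) s
            rw [← hbu, hrr] at h4
            exact h4
          have h5 : L.lab p • D.f (D.al s) = - D.f b := by
            rw [h3, mul_smul]
            have h6 : D.sr s • D.f (D.al s) = - D.f (D.al s) := D.sw.g_f s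
            rw [h6, smul_neg, ← D.f_smul, ← hbu]
          show half * ((L.lab p • D.f (D.al s)) * n p + D.f b * n p) = 0
          rw [h5]
          ring
      · exact (s3_rest_apply _ _ p).2 hA
    rw [h1, h2]
    ring
  · intro p hpX hpT
    show c2 * (c1 * L.rest Aa (L.ry (D.f (D.al s)) n) p) +
      c1 * (c2 * L.rest Ab (half • (L.ry (D.f (D.al s)) n + D.f b • n)) p) = _
    by_cases hbu : b = L.lab p • D.al s
    · have hA : L.lab p ∈ Ab := Or.inl ⟨⟨hpX, hpT⟩, hbu⟩
      have hnA : L.lab p ∉ Aa := fun h => h.2 hA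
      rw [(s3_rest_apply _ _ p).1 hA, (s3_rest_apply _ _ p).2 hnA]
      show c2 * (c1 * 0) + c1 * (c2 * (half * ((L.lab p • D.f (D.al s)) * n p + D.f b * n p))) = _
      have h5 : L.lab p • D.f (D.al s) = D.f b := by
        rw [← D.f_smul, ← hbu]
      rw [h5]
      linear_combination (c1 * c2 * D.f b * n p) * hhalf
    · have hnA : L.lab p ∉ Ab := by
        rintro (h | h)
        · exact hbu h.2
        · obtain ⟨hT, hbu'⟩ := h
          apply hT.2
          have h4 := D.refl_smul_al (D.refl b * L.lab p) s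
          rw [← hbu', hrr] at h4
          rw [← h4]
          exact hpX
      have hA : L.lab p ∈ Aa := ⟨Or.inl ⟨hpX, hpT⟩, hnA⟩
      rw [(s3_rest_apply _ _ p).1 hA, (s3_rest_apply _ _ p).2 hnA]
      show c2 * (c1 * ((L.lab p • D.f (D.al s)) * n p)) + c1 * (c2 * 0) = _
      ring

/-- (2.5), the local statement at the root `b`.

We may assume `P b` (otherwise `P (ng b)`; `f (ng b) = - f b`, `refl (ng b) = refl b`).
Put `α = f (al s)`, `T = {u | u ∈ X, u s ∉ X}`, `Ab = {v | (v ∈ T ∧ b = v • al s) ∨ (s_b v ∈ T ∧ b = (s_b v) • al s)}`,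
`Aa = {v | (v ∈ T ∨ s_b v ∈ T)} \ Ab`; both are `s_b`-stable (`refl_sq`).  Let `c1`, `c2` be the constants of
`rest_stable` for `Aa`, `Ab`; `c = c1 c2` (`f b ∤ c`, prime) and
`m = c2 • (c1 • rest Aa (ry α n)) + c1 • (c2 • rest Ab ((1/2) • (ry α n + f b • n)))`, in `L.M`.
Facts (`u ∈ T`):
* if `b = ng (u • al s)`: impossible, since `u⁻¹ b = ng (al s)` is not positive, `P b`, so by closedness
  `s_b u = u s ∈ X`.
* if `b = u • al s`: `s_b u = u s` (`refl_smul_al`), not in `X`.  At the label `u`: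
  `(1/2)((u α) n_u + f b n_u) = (u α) n_u` as `f b = u • α`; at the label `u s`: `(u s) α = - u α`
  (`f_smul, refl_self, f_ng`) and the value is `0`.
* if `b ≠ u • al s` and `s_b u ∉ X`: by `block_case`, `s_b u s ∉ X`, so `s_b u ∉ plus s X` and `n = 0` at the label
  `s_b u`.
Hence `m` is supported on `X` (labels in `Ab`: those in `T` are in `X`, the others carry the value `0`; labels
in `Aa`: in `T`, or `= s_b u` with `u ∈ T`, `b ≠ u • al s`), and at the labels in `T`, `m = c (lab α) n`. -/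
theorem local_L {P : Rt → Prop} (hP : D.Sys P) (hL : Nice D L) (s : S) {X : Set G}
    (hX : D.Closed P X) {n : L.J → R} (hn : n ∈ L.M) (hns : L.sup n (D.plus s X)) (b : Rt) :
    ∃ c : R, ¬ D.f b ∣ c ∧ ∃ m ∈ L.M, L.sup m X ∧
      ∀ p, L.lab p ∈ X → L.lab p * D.sr s ∉ X →
        m p = c * ((L.lab p • D.f (D.al s)) * n p) := by
  by_cases hb : P b
  · exact s3_local_L D hL s hX hn hns b hb
  · have hb' : P (D.ng b) := (hP b).2 hb
    obtain ⟨c, hc, h⟩ := s3_local_L D hL s hX hn hns (D.ng b) hb'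
    refine ⟨c, ?_, h⟩
    rw [D.f_ng, neg_dvd] at hc
    exact hc

end Pool.Agent.MTX
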