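import Pool.Agent.MTX.S4b

/-! # MTX, Part S : (3.1), (3.2): `Good` and the star; reduced words -/

namespace Pool.Agent.MTX

variable {R G Rt S : Type} [CommRing R] [IsDomain R] [Algebra ℚ R] [Group G]
  [MulSemiringAction G R] [MulAction G Rt] (D : AS R G Rt S) {L L'' : Lat R G}

/-- the map of index sets for the star -/
def imap {J J' : Type} (i : J' → J) : J' × Bool → J × Bool := fun q => (i q.1, q.2)

/-- (3.1).  `lab`, `mem`: componentwise (`n` restricts to `n`).
`onto`: `m''` in the star of `L''`, supported on `X`, with `n''` (supported on `plus s X`, `star_n_sup`).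
`hg.onto` with `plus s X` (`closed_plus`): `n ∈ L.M` supported on `plus s X` over `n''`.  `star_onto`:
`m1 ∈ star L` supported on `X` with `n`-part `n`.  The difference of `m''` and the restriction of `m1` is in the
star of `L''`, supported on `X`, with equal components, so it is `(d'', d'')`, `d'' ∈ L''.M` supported on
`core s X` (`star_ker`).  `hg.onto` with `core s X` (`closed_core`): `d ∈ L.M` over `d''`.
Take `m1 + (d, d)`. -/
theorem good_star (hL : Nice D L) (hL'' : Nice D L'') {i : L''.J → L.J} (hg : Good D L L'' i)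
    (s : S) : Good D (Lat.star (D.sw.f s) (D.sw.g s) L) (Lat.star (D.sw.f s) (D.sw.g s) L'')
      (imap i) := by
  have hmem : ∀ m ∈ (Lat.star (D.sw.f s) (D.sw.g s) L).M,
      (fun q => m (imap i q)) ∈ (Lat.star (D.sw.f s) (D.sw.g s) L'').M := by
    rintro m ⟨h1, n, hn, h2⟩
    refine ⟨hg.mem _ h1, fun q => n (i q), hg.mem n hn, fun q => ?_⟩
    show m (i q, false) - m (i q, true) = (L''.lab q • D.sw.f s) * n (i q)
    rw [h2 (i q), hg.lab q]
  have hlab : ∀ q, (Lat.star (D.sw.f s) (D.sw.g s) L).lab (imap i q) =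
      (Lat.star (D.sw.f s) (D.sw.g s) L'').lab q := by
    rintro ⟨q, b⟩
    cases b
    · exact hg.lab q
    · show L.lab (i q) * _ = L''.lab q * _
      rw [hg.lab q]
  refine ⟨hlab, hmem, ?_⟩
  intro X hX m'' hm'' hs''
  have hm''2 := hm''
  obtain ⟨h1, n'', hn'', h2⟩ := hm''
  have hns'' : L''.sup n'' (D.plus s X) := star_n_sup D s hs'' h2
  obtain ⟨n, hn, hns, hnr⟩ := hg.onto (D.plus s X) (D.closed_plus hX s) n'' hn'' hns''
  obtain ⟨m1, hm1, hs1, hd1⟩ := star_onto D D.sys_pos hL s hX hn hns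
  have hr1 := hmem m1 hm1
  have hd : (fun q : L''.J × Bool => m'' q - m1 (imap i q)) ∈
      (Lat.star (D.sw.f s) (D.sw.g s) L'').M :=
    (Lat.star (D.sw.f s) (D.sw.g s) L'').M.sub_mem hm''2 hr1
  have hds : (Lat.star (D.sw.f s) (D.sw.g s) L'').sup
      (fun q : L''.J × Bool => m'' q - m1 (imap i q)) X := by
    intro q hq
    have e1 : m'' q = 0 := hs'' q hq
    have e2 : m1 (imap i q) = 0 := hs1 _ (by rw [hlab]; exact hq)
    show m'' q - m1 (imap i q) = 0
    rw [e1, e2, sub_zero]
  have hdeq : ∀ q, (fun q : L''.J × Bool => m'' q - m1 (imap i q)) (q, false) =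
      (fun q : L''.J × Bool => m'' q - m1 (imap i q)) (q, true) := by
    intro q
    have e1 := h2 q
    have e2 := hd1 (i q)
    have e3 : n (i q) = n'' q := congrFun hnr q
    rw [hg.lab q, e3] at e2
    show m'' (q, false) - m1 (i q, false) = m'' (q, true) - m1 (i q, true)
    linear_combination e1 - e2
  obtain ⟨hd0, hd0s⟩ := star_ker D s hd hds hdeq
  obtain ⟨d1, hd1m, hd1s, hd1r⟩ := hg.onto (D.core s X) (D.closed_core hX s) _ hd0 hd0s
  refine ⟨fun p : L.J × Bool => m1 p + d1 p.1, (Lat.star (D.sw.f s) (D.sw.g s) L).M.add_mem hm1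
    ⟨hd1m, 0, L.M.zero_mem, fun p => by simp⟩, ?_, ?_⟩
  · rintro ⟨p, b⟩ hp
    have e1 : m1 (p, b) = 0 := hs1 _ hp
    have e2 : d1 p = 0 := by
      apply hd1s
      rintro ⟨hc1, hc2⟩
      cases b
      · exact hp hc1
      · exact hp hc2
    show m1 (p, b) + d1 p = 0
    rw [e1, e2, add_zero]
  · funext q
    obtain ⟨q, b⟩ := q
    have e1 : d1 (i q) = m'' (q, false) - m1 (i q, false) := congrFun hd1r q
    show m1 (i q, b) + d1 (i q) = m'' (q, b)
    cases b
    · rw [e1]; ring
    · have e2 : m'' (q, false) - m1 (i q, false) = m'' (q, true) - m1 (i q, true) := hdeq q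
      rw [e1, e2]; ring

end Pool.Agent.MTX
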