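import Pool.Agent.MTX.S4a

/-! # MTX, Part S : support preserving maps and the right action -/

namespace Pool.Agent.MTX

variable {R G S : Type} [CommRing R] [IsDomain R] [Group G] [MulSemiringAction G R]
  {L L' : Lat R G}

/-- the piece of `c • m` at the label `v` -/
noncomputable def s8a_piece (L : Lat R G) {c : R} (hc : ∀ m : L.J → R, c • m ∈ L.M) (m : L.M) (v : G) :
    L.M := ⟨c • L.rest {v} m.1, hc _⟩

omit [IsDomain R] [Group G] [MulSemiringAction G R] in
theorem s8a_piece_sup (L : Lat R G) {c : R} (hc : ∀ m : L.J → R, c • m ∈ L.M) (m : L.M) (v : G) :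
    L.sup (s8a_piece L hc m v).1 {v} := by
  intro p hp
  show c • L.rest {v} m.1 p = 0
  rw [Lat.rest, if_neg hp, smul_zero]

omit [IsDomain R] [Group G] [MulSemiringAction G R] in
open Classical in
theorem s8a_sum (L : Lat R G) {c : R} (hc : ∀ m : L.J → R, c • m ∈ L.M) (m : L.M) :
    c • m = ∑ v ∈ Finset.univ.image L.lab, s8a_piece L hc m v := by
  apply Subtype.ext
  rw [AddSubmonoidClass.coe_finsetSum]
  funext p
  rw [Finset.sum_apply]
  rw [Finset.sum_eq_single (L.lab p)]
  · show c * m.1 p = c • L.rest {L.lab p} m.1 p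
    rw [Lat.rest, if_pos (Set.mem_singleton _), smul_eq_mul]
  · intro v _ hv
    exact s8a_piece_sup L hc m v p (fun h => hv (Set.mem_singleton_iff.1 h).symm)
  · intro h
    exact absurd (Finset.mem_image_of_mem _ (Finset.mem_univ p)) h

omit [IsDomain R] in
theorem s8a_ry_single (hL : RyLat L) (a : R) (v : G) (m : L.M) (hm : L.sup m.1 {v}) :
    ryL hL a m = (v • a) • m := by
  apply Subtype.ext
  funext p
  show (L.lab p • a) * m.1 p = (v • a) * m.1 p
  by_cases hp : L.lab p = v
  · rw [hp]
  · rw [hm p (fun h => hp (Set.mem_singleton_iff.1 h)), mul_zero, mul_zero]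

omit [Group G] [MulSemiringAction G R] in
theorem s8a_cancel (L : Lat R G) {c : R} (hc : c ≠ 0) {m m' : L.M} (h : c • m = c • m') : m = m' := by
  apply Subtype.ext
  funext p
  have h1 : c * m.1 p = c * m'.1 p := congrFun (congrArg Subtype.val h) p
  exact mul_left_cancel₀ hc h1

/-- Let `c` be as in `Big`.  `c • m` is the sum over the finite set of the labels `v ∈ X` (image of `lab`) of the
elements `c • rest {v} m ∈ L.M`, which are supported on `{v}`.  So `c • Φ m = Φ (c • m)` is a sum of elements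
supported on `{v}`, `v ∈ X`; cancel `c`. -/
theorem FlHom.sup (hB : Big L) {Φ : L.M →ₗ[R] L'.M} (h : FlHom Φ) (X : Set G) (m : L.M)
    (hm : L.sup m.1 X) : L'.sup (Φ m).1 X := by
  classical
  obtain ⟨c, hc0, hc⟩ := hB
  intro p hp
  have h1 : c • Φ m = ∑ v ∈ Finset.univ.image L.lab, Φ (s8a_piece L hc m v) := by
    rw [← map_smul, s8a_sum L hc m, map_sum]
  have h2 : c * (Φ m).1 p = ∑ v ∈ Finset.univ.image L.lab, (Φ (s8a_piece L hc m v)).1 p := by
    have h3 := congrFun (congrArg Subtype.val h1) p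
    rw [AddSubmonoidClass.coe_finsetSum, Finset.sum_apply] at h3
    exact h3
  have h4 : ∑ v ∈ Finset.univ.image L.lab, (Φ (s8a_piece L hc m v)).1 p = 0 := by
    apply Finset.sum_eq_zero
    intro v _
    by_cases hv : v ∈ X
    · apply h v _ (s8a_piece_sup L hc m v) p
      intro h5
      rw [Set.mem_singleton_iff.1 h5] at hp
      exact hp hv
    · have h6 : s8a_piece L hc m v = 0 := by
        apply Subtype.ext
        funext q
        show c • L.rest {v} m.1 q = 0
        by_cases hq : L.lab q = v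
        · rw [Lat.rest]
          split_ifs
          · rw [hm q (by rw [hq]; exact hv), smul_zero]
          · rw [smul_zero]
        · rw [Lat.rest, if_neg (fun h => hq (Set.mem_singleton_iff.1 h)), smul_zero]
      rw [h6, map_zero]
      rfl
  rw [h4] at h2
  exact (mul_eq_zero.1 h2).resolve_left hc0

/-- Same decomposition: `ry a (c • rest {v} m) = (v • a) • (c • rest {v} m)`. -/
theorem FlHom.ry (hB : Big L) {Φ : L.M →ₗ[R] L'.M} (h : FlHom Φ) (hL : RyLat L)
    (hL' : RyLat L') (a : R) (m : L.M) : Φ (ryL hL a m) = ryL hL' a (Φ m) := by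
  classical
  obtain ⟨c, hc0, hc⟩ := hB
  apply s8a_cancel L' hc0
  rw [← map_smul, ← map_smul, ← map_smul, ← map_smul, s8a_sum L hc m, map_sum, map_sum, map_sum,
    map_sum]
  apply Finset.sum_congr rfl
  intro v _
  have h1 := s8a_piece_sup L hc m v
  rw [s8a_ry_single hL a v _ h1, s8a_ry_single hL' a v _ (h v _ h1), map_smul]

omit [IsDomain R] [Group G] [MulSemiringAction G R] in
/-- composition -/
theorem FlHom.comp {L'' : Lat R G} {Φ : L.M →ₗ[R] L'.M} {Ψ : L'.M →ₗ[R] L''.M} (h : FlHom Φ)
    (h' : FlHom Ψ) : FlHom (Ψ ∘ₗ Φ) := fun v m hm => h' v _ (h v m hm)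

end Pool.Agent.MTX
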