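import Pool.Agent.MTX.T1

/-! # MTX, Part T : products of roots -/

namespace Pool.Agent.MTX

open MvPolynomial SLD

variable {n : ℕ} (D : SLD n)

namespace SLD

/-- the number of positive roots -/
noncomputable def nP : ℤ := Fintype.card D.PRt

/-- the number of positive roots `γ` with `B(γ, θ) = 0` -/
noncomputable def nP0 : ℤ := by
  classical
  exact ∑ γ : D.PRt, if D.B γ.1.1 D.theta.1 = 0 then 1 else 0

/-- For a positive root `γ`: `B(γ, θ) ∈ {0, 1}` or `γ = θ` (`B_theta`, `B_comm`); so every factor of `PI` is a factor of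
exactly one of the three products. -/
theorem PI_eq : D.PI = fm0 D.theta.1 * D.PI1 * D.PI0 D.theta.1 := by
  classical
  have h1 : fm0 D.theta.1 = ∏ γ : D.PRt,
      if γ = (⟨D.theta, D.theta_pos⟩ : D.PRt) then fm0 γ.1.1 else (1 : AA n) := by
    rw [Finset.prod_ite_eq' Finset.univ (⟨D.theta, D.theta_pos⟩ : D.PRt)
      (fun γ => (fm0 γ.1.1 : AA n)), if_pos (Finset.mem_univ _)]
  rw [h1]
  unfold PI PI1 PI0
  rw [← Finset.prod_mul_distrib, ← Finset.prod_mul_distrib]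
  refine Finset.prod_congr rfl fun γ _ => ?_
  by_cases h : γ = (⟨D.theta, D.theta_pos⟩ : D.PRt)
  · have h2 : D.B γ.1.1 D.theta.1 = 2 := by rw [h]; exact D.theta.2
    rw [if_pos h, h2, if_neg (by norm_num), if_neg (by norm_num), mul_one, mul_one]
  · have h3 : γ.1 ≠ D.theta := fun h4 => h (Subtype.ext h4)
    rw [if_neg h]
    rcases D.B_theta γ.2 h3 with h4 | h4
    · rw [D.B_comm] at h4
      rw [h4, if_neg (by norm_num), if_pos rfl, one_mul, one_mul]
    · rw [D.B_comm] at h4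
      rw [h4, if_pos rfl, if_neg (by norm_num), one_mul, mul_one]

theorem PI_ne_zero : D.PI ≠ 0 :=
  Finset.prod_ne_zero_iff.mpr fun γ _ => fm0_ne_zero (D.Rt_ne_zero γ.1)

theorem PI0_ne_zero (μ : Fin n → ℤ) : D.PI0 μ ≠ 0 := by
  refine Finset.prod_ne_zero_iff.mpr fun γ _ => ?_
  split_ifs
  · exact fm0_ne_zero (D.Rt_ne_zero γ.1)
  · exact one_ne_zero

theorem PI1_ne_zero : D.PI1 ≠ 0 := by
  refine Finset.prod_ne_zero_iff.mpr fun γ _ => ?_
  split_ifs
  · exact fm0_ne_zero (D.Rt_ne_zero γ.1)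
  · exact one_ne_zero

theorem HZ_PI : HZ D.nP D.PI := by
  have h := HZ.prod (Finset.univ : Finset D.PRt) (fun _ => (1 : ℤ)) (fun γ => fm0 γ.1.1)
    (fun γ _ => HZ_fm0 γ.1.1)
  have h2 : ∑ _γ : D.PRt, (1 : ℤ) = D.nP := by
    rw [Finset.sum_const, Finset.card_univ, nsmul_eq_mul, mul_one]
    rfl
  rw [h2] at h
  exact h

theorem HZ_PI0 : HZ D.nP0 (D.PI0 D.theta.1) := by
  classical
  refine HZ.prod (Finset.univ : Finset D.PRt)
    (fun γ => if D.B γ.1.1 D.theta.1 = 0 then (1 : ℤ) else 0)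
    (fun γ => if D.B γ.1.1 D.theta.1 = 0 then fm0 γ.1.1 else 1) (fun γ _ => ?_)
  by_cases h : D.B γ.1.1 D.theta.1 = 0
  · simp only [if_pos h]
    exact HZ_fm0 γ.1.1
  · simp only [if_neg h]
    have h1 := HZ.C (n := n) 1
    rwa [MvPolynomial.C_1] at h1

/-- `PI1` has degree `nP - nP0 - 1` (from `PI_eq`, or count). -/
theorem HZ_PI1 : HZ (D.nP - D.nP0 - 1) D.PI1 := by
  have h1 : HZ (1 + D.nP0) (fm0 D.theta.1 * D.PI0 D.theta.1) := (HZ_fm0 _).mul D.HZ_PI0
  have h2 : HZ D.nP (fm0 D.theta.1 * D.PI0 D.theta.1 * D.PI1) := by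
    have h3 : fm0 D.theta.1 * D.PI0 D.theta.1 * D.PI1 = D.PI := by
      rw [D.PI_eq]; ring
    rw [h3]
    exact D.HZ_PI
  have h4 := HZ.of_mul (mul_ne_zero (fm0_ne_zero (D.Rt_ne_zero D.theta)) (D.PI0_ne_zero _)) h1 h2
  have h5 : D.nP - (1 + D.nP0) = D.nP - D.nP0 - 1 := by ring
  rwa [h5] at h4

/-- Two different positive roots have non-proportional forms: `fm0 γ ∣ fm0 δ` gives `δ = z γ` over `ℂ`
(`lin_dvd_lin`), so `z` is rational with `2 = B(δ,δ) = z² 2`, `z = ± 1`; `z = - 1` is impossible for positive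
roots (compare a positive coordinate of `γ`), so `δ = γ`. -/
theorem fm0_ndvd {γ δ : D.PRt} (h : γ ≠ δ) : ¬ fm0 γ.1.1 ∣ fm0 δ.1.1 := by
  intro hdvd
  have hc : (fun j => ((γ.1.1 j : ℤ) : ℂ)) ≠ 0 := by
    intro h0
    apply D.Rt_ne_zero γ.1
    funext j
    have := congrFun h0 j
    simpa using this
  obtain ⟨z, hz⟩ := (lin_dvd_lin hc).1 hdvd
  have hz' : ∀ j, ((δ.1.1 j : ℤ) : ℂ) = z * ((γ.1.1 j : ℤ) : ℂ) := fun j => congrFun hz j
  obtain ⟨i, hi⟩ : ∃ i, γ.1.1 i ≠ 0 := by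
    by_contra hno
    push Not at hno
    exact D.Rt_ne_zero γ.1 (funext hno)
  have hcross : ∀ j, γ.1.1 i * δ.1.1 j = δ.1.1 i * γ.1.1 j := by
    intro j
    have h1 : (((γ.1.1 i * δ.1.1 j : ℤ)) : ℂ) = ((δ.1.1 i * γ.1.1 j : ℤ) : ℂ) := by
      push_cast
      rw [hz' j, hz' i]
      ring
    exact_mod_cast h1
  have hv : γ.1.1 i • δ.1.1 = δ.1.1 i • γ.1.1 := by
    funext j
    simpa using hcross j
  have hB : D.B (γ.1.1 i • δ.1.1) (γ.1.1 i • δ.1.1) =
      D.B (δ.1.1 i • γ.1.1) (δ.1.1 i • γ.1.1) := by rw [hv]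
  rw [B_smul_left, B_smul_right, B_smul_left, B_smul_right, γ.1.2, δ.1.2] at hB
  have h1 : 0 ≤ γ.1.1 i := γ.2 i
  have h2 : 0 ≤ δ.1.1 i := δ.2 i
  have h3 : γ.1.1 i = δ.1.1 i := by nlinarith
  apply h
  apply Subtype.ext
  apply D.Rt_ext
  funext j
  have h4 := hcross j
  rw [h3] at h4
  rw [h3] at hi
  exact (mul_left_cancel₀ hi h4).symm

/-- `fm0 γ ∣ p - s_γ p`: by induction on `p` (`MvPolynomial.induction_on`) as in `SLD.af_dvd` (R2c): for `X i`:
`X i - s_γ X i = B(γ, α_i) fm0 γ` (`smul_fm0`, `fm0_al`); for products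
`p q - s p s q = p (q - s q) + (p - s p) s q`. -/
theorem fm0_dvd_sub (γ : D.Rt) (p : AA n) : fm0 γ.1 ∣ p - D.rO γ • p := by
  induction p using MvPolynomial.induction_on with
  | C a =>
    rw [smul_C, sub_self]
    exact dvd_zero _
  | add p q hp hq =>
    have : p + q - D.rO γ • (p + q) = (p - D.rO γ • p) + (q - D.rO γ • q) := by
      rw [smul_add]
      ring
    rw [this]
    exact dvd_add hp hq
  | mul_X p i hp =>
    have : p * X i - D.rO γ • (p * X i) = (p - D.rO γ • p) * X i +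
        (D.rO γ • p) * (X i - D.rO γ • (X i : AA n)) := by
      rw [smul_mul']
      ring
    rw [this]
    refine dvd_add (Dvd.dvd.mul_right hp _) (Dvd.dvd.mul_left ?_ _)
    rw [← fm0_al, smul_fm0, rO_apply, rf]
    refine ⟨MvPolynomial.C ((D.B γ.1 (Pi.single i 1) : ℤ) : ℂ), ?_⟩
    rw [mul_comm, ← fm0_smul, ← fm0_sub]
    congr 1
    abel

/-- If `p` is divisible by `θ²` (or by `θ` twice) and by all `γ > 0` with `B(γ, θ) = 1`, then by the product:
`p = θ² q`; each such `γ` is a prime not dividing `θ` (`fm0_ndvd`), so it divides `q`; `prod_dvd_of_prime`. -/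
theorem dvd_of_all {p : AA n} (h1 : fm0 D.theta.1 ^ 2 ∣ p)
    (h2 : ∀ γ : D.PRt, D.B γ.1.1 D.theta.1 = 1 → fm0 γ.1.1 ∣ p) :
    fm0 D.theta.1 ^ 2 * D.PI1 ∣ p := by
  classical
  obtain ⟨q, hq⟩ := h1
  have hne : ∀ γ : D.PRt, D.B γ.1.1 D.theta.1 = 1 →
      γ ≠ (⟨D.theta, D.theta_pos⟩ : D.PRt) := by
    intro γ hγ h
    have h3 : D.B (⟨D.theta, D.theta_pos⟩ : D.PRt).1.1 D.theta.1 = 2 := D.theta.2
    rw [← h] at h3
    omega
  have hq2 : ∀ γ : D.PRt, D.B γ.1.1 D.theta.1 = 1 → fm0 γ.1.1 ∣ q := by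
    intro γ hγ
    have hp : Prime (fm0 γ.1.1 : AA n) := fm0_prime (D.Rt_ne_zero γ.1)
    have h3 := D.fm0_ndvd (γ := γ) (δ := ⟨D.theta, D.theta_pos⟩) (hne γ hγ)
    have h5 := h2 γ hγ
    rw [hq] at h5
    rcases hp.dvd_or_dvd h5 with h4 | h4
    · exact absurd (hp.dvd_of_dvd_pow h4) h3
    · exact h4
  have hPI : D.PI1 = ∏ γ ∈ Finset.univ.filter (fun γ : D.PRt => D.B γ.1.1 D.theta.1 = 1),
      fm0 γ.1.1 := by
    unfold SLD.PI1
    rw [Finset.prod_filter]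
  have hfin : (∏ γ ∈ Finset.univ.filter (fun γ : D.PRt => D.B γ.1.1 D.theta.1 = 1),
      (fun γ : D.PRt => fm0 γ.1.1) γ) ∣ q :=
    prod_dvd_of_prime (Finset.univ.filter (fun γ : D.PRt => D.B γ.1.1 D.theta.1 = 1))
      (fun γ : D.PRt => fm0 γ.1.1) q (fun γ _ => fm0_prime (D.Rt_ne_zero γ.1))
      (fun γ _ δ _ h => D.fm0_ndvd h) (fun γ hγ => hq2 γ (Finset.mem_filter.1 hγ).2)
  rw [hq, hPI]
  exact mul_dvd_mul_left _ hfin

/-- `2 ρ = ∑ γ > 0`: `s_i` permutes the positive roots different from `α_i` (`pos_perm`), so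
`s_i (2ρ) = 2ρ - 2 α_i`, i.e. `B(2ρ, α_i) = 2`; so `∑_{γ > 0} B(γ, x) = 2 ht x` for all `x` (`B_coord`). -/
theorem sum_B_pos (x : Fin n → ℤ) : ∑ γ : D.PRt, D.B γ.1.1 x = 2 * ht x := by
  classical
  have key : ∀ i : Fin n, ∑ γ : D.PRt, D.B (D.al i).1 γ.1.1 = 2 := by
    intro i
    set a : D.PRt := ⟨D.al i, D.pos_al i⟩ with ha
    rw [← Finset.add_sum_erase Finset.univ (fun γ : D.PRt => D.B (D.al i).1 γ.1.1)
      (Finset.mem_univ a)]
    have h0 : ∑ γ ∈ Finset.univ.erase a, D.B (D.al i).1 γ.1.1 = 0 := by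
      have hne : ∀ γ : D.PRt, γ ∈ Finset.univ.erase a → γ.1 ≠ D.al i := by
        intro γ hγ h
        exact (Finset.mem_erase.1 hγ).1 (Subtype.ext h)
      have hB : ∀ δ : D.Rt, D.B (D.al i).1 (D.rO (D.al i) • δ).1 = - D.B (D.al i).1 δ.1 := by
        intro δ
        rw [rO_smul_val, B_sub_right, B_smul_right, (D.al i).2]
        ring
      have hinv : ∀ δ : D.Rt, D.rO (D.al i) • D.rO (D.al i) • δ = δ := by
        intro δ
        rw [← mul_smul, rO_sq, one_smul]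
      refine Finset.sum_involution
        (fun γ hγ => (⟨D.rO (D.al i) • γ.1, D.pos_perm γ.2 (hne γ hγ)⟩ : D.PRt)) ?_ ?_ ?_ ?_
      · intro γ hγ
        change D.B (D.al i).1 γ.1.1 + D.B (D.al i).1 (D.rO (D.al i) • γ.1).1 = 0
        rw [hB]
        ring
      · intro γ hγ hf h
        have h1 : D.rO (D.al i) • γ.1 = γ.1 := congrArg Subtype.val h
        have h2 := hB γ.1
        rw [h1] at h2
        exact hf (by linarith)
      · intro γ hγ
        rw [Finset.mem_erase]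
        refine ⟨fun h => ?_, Finset.mem_univ _⟩
        have h1 : D.rO (D.al i) • γ.1 = D.al i := congrArg Subtype.val h
        have h2 : γ.1 = D.ng (D.al i) := by
          rw [← hinv γ.1, h1, rO_self]
        have h3 := γ.2
        rw [h2] at h3
        exact D.not_pos_ng (D.pos_al i) h3
      · intro γ hγ
        apply Subtype.ext
        exact hinv γ.1
    rw [h0, add_zero]
    exact (D.al i).2
  have h1 : ∀ γ : D.PRt, D.B γ.1.1 x = ∑ i, x i * D.B (D.al i).1 γ.1.1 := by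
    intro γ
    rw [B_comm, B_coord]
  rw [Finset.sum_congr rfl fun γ _ => h1 γ, Finset.sum_comm]
  have h2 : ∀ i : Fin n, ∑ γ : D.PRt, x i * D.B (D.al i).1 γ.1.1 = x i * 2 := by
    intro i
    rw [← Finset.mul_sum, key i]
  rw [Finset.sum_congr rfl fun i _ => h2 i, ← Finset.sum_mul, ht]
  ring

/-- `x = θ` in `sum_B_pos`: the values are `2` for `γ = θ`, `1`, or `0`: `2 + (nP - nP0 - 1) = 2 ht θ`. -/
theorem card_theta : D.nP - D.nP0 - 1 = 2 * ht D.theta.1 - 2 := by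
  classical
  have h1 := D.sum_B_pos D.theta.1
  set t : D.PRt := ⟨D.theta, D.theta_pos⟩ with ht'
  have h2 : ∀ γ : D.PRt, D.B γ.1.1 D.theta.1 =
      (1 - (if D.B γ.1.1 D.theta.1 = 0 then 1 else 0)) + (if γ = t then 1 else 0) := by
    intro γ
    by_cases h : γ = t
    · have h3 : D.B γ.1.1 D.theta.1 = 2 := by
        rw [h]
        exact D.theta.2
      rw [h3, if_pos h]
      norm_num
    · rw [if_neg h]
      have h3 : γ.1 ≠ D.theta := fun h' => h (Subtype.ext h')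
      rcases D.B_theta γ.2 h3 with h4 | h4
      · rw [B_comm] at h4
        rw [h4]
        norm_num
      · rw [B_comm] at h4
        rw [h4]
        norm_num
  rw [Finset.sum_congr rfl fun γ _ => h2 γ, Finset.sum_add_distrib, Finset.sum_sub_distrib,
    Finset.sum_ite_eq' Finset.univ t (fun _ => (1 : ℤ)), if_pos (Finset.mem_univ t),
    Finset.sum_const, Finset.card_univ, nsmul_eq_mul, mul_one] at h1
  have h3 : D.nP0 = ∑ γ : D.PRt, if D.B γ.1.1 D.theta.1 = 0 then (1 : ℤ) else 0 := by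
    unfold SLD.nP0
    exact Finset.sum_congr rfl fun γ _ => by congr
  rw [h3]
  unfold SLD.nP
  linarith

end SLD

end Pool.Agent.MTX
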