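import Pool.Agent.MTX.T2

/-! # MTX, Part T : the section `ζ` of the centraliser -/

namespace Pool.Agent.MTX

open MvPolynomial SLD

variable {n N : ℕ} {D : SLD n} {T : TD D N}

private theorem t3_coeff (M : Matrix (Fin N) (Fin N) ℂ) (v : Fin N → AA n) (m : Fin n →₀ ℕ)
    (i : Fin N) : coeff m ((M.map C).mulVec v i) = M.mulVec (fun j => coeff m (v j)) i := by
  simp only [Matrix.mulVec, dotProduct, Matrix.map_apply, coeff_sum, coeff_C_mul]

private theorem t3_hgtp (A : TAx T) : T.hg T.tp = ht D.theta.1 := by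
  show ht (T.wt T.tp) = _
  rw [A.wt_tp]

private theorem t3_wt_zero (A : TAx T) {j : Fin N} (h : T.hg j = 0) : T.wt j = 0 := by
  rcases A.wt_cases j with h0 | h2
  · exact h0
  · exfalso
    have h3 := D.pos_iff_ht ⟨T.wt j, h2⟩
    have h4 := D.pos_iff_ht (D.ng ⟨T.wt j, h2⟩)
    have h5 : ht (T.wt j) = 0 := h
    rcases D.pos_or_neg ⟨T.wt j, h2⟩ with hp | hn
    · have := h3.1 hp
      have h6 : (0 : ℤ) < ht (T.wt j) := this
      omega
    · have := h4.1 hn
      rw [ng_val, ht_neg] at this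
      have h6 : (0 : ℤ) < - ht (T.wt j) := this
      omega

private theorem t3_e_tp (A : TAx T) (i : Fin N) : T.e i T.tp = 0 := by
  by_contra h
  have h1 := A.e_wt i T.tp h
  rw [t3_hgtp A] at h1
  have h2 := D.theta_ht_pos
  rcases A.wt_cases i with h0 | h0
  · have h3 : T.hg i = 0 := by
      show ht (T.wt i) = 0
      rw [h0]
      simp [ht]
    omega
  · have h3 := D.theta_max ⟨T.wt i, h0⟩
    have h4 : T.hg i ≤ ht D.theta.1 := h3
    omega

private theorem t3_Dx (v : Fin N → AA n) (j : Fin N) :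
    T.Dx.mulVec v j = fm0 (T.wt j) * v j := by
  unfold TD.Dx
  rw [Matrix.mulVec_diagonal]

/-- `e_r` over `A`: compare coefficients (`coeff m` of the entries is `ℂ`-linear; `coeff m (C a * p) = a * coeff m p`,
`coeff_C_mul`). -/
theorem e_r' (A : TAx T) (v : Fin N → AA n) (hv : ∀ i, v i ≠ 0 → 0 ≤ T.hg i) :
    (T.e.map C).mulVec ((T.r.map C).mulVec v) = v := by
  funext i
  refine MvPolynomial.ext _ _ fun m => ?_
  rw [t3_coeff]
  have h1 : (fun j => coeff m ((T.r.map C).mulVec v j)) =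
      T.r.mulVec (fun j => coeff m (v j)) := by
    funext j
    exact t3_coeff _ _ _ _
  rw [h1]
  have h2 := A.e_r (fun j => coeff m (v j)) (fun j hj => hv j (fun h => hj (by
    show coeff m (v j) = 0
    rw [h, coeff_zero])))
  exact congrFun h2 i

/-- `e_inj` over `A`: compare coefficients. -/
theorem e_inj' (A : TAx T) {k : ℤ} (hk : k < 0) (v : Fin N → AA n)
    (hv : ∀ i, v i ≠ 0 → T.hg i = k) (h : (T.e.map C).mulVec v = 0) : v = 0 := by
  funext i
  refine MvPolynomial.ext _ _ fun m => ?_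
  have h2 := A.e_inj k hk (fun j => coeff m (v j)) (fun j hj => hv j (fun h => hj (by
    show coeff m (v j) = 0
    rw [h, coeff_zero]))) (by
      funext j
      rw [← t3_coeff, h]
      exact coeff_zero m)
  have h3 := congrFun h2 i
  exact h3.trans (coeff_zero m).symm

/-- `z_0 = r e_θ`, `z_{k+1} = - r (Dx z_k)`. -/
noncomputable def zv (T : TD D N) : ℕ → Fin N → AA n
  | 0 => (T.r.map C).mulVec (Pi.single T.tp 1)
  | k + 1 => - (T.r.map C).mulVec (T.Dx.mulVec (zv T k))

/-- Induction on `k` (`r_wt`, `wt_tp`, `Dx` is diagonal, `HZ_fm0`). -/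
theorem zv_hg (A : TAx T) (k : ℕ) (i : Fin N) :
    (zv T k i ≠ 0 → T.hg i = ht D.theta.1 - 1 - k) ∧ HZ k (zv T k i) := by
  induction k generalizing i with
  | zero =>
    have h1 : zv T 0 i = C (T.r i T.tp) := by
      show (T.r.map C).mulVec (Pi.single T.tp 1) i = _
      rw [Matrix.mulVec_single_one]
      rfl
    rw [h1]
    refine ⟨fun h => ?_, ?_⟩
    · have h2 : T.r i T.tp ≠ 0 := fun h' => h (by rw [h', map_zero])
      have h3 := A.r_wt i T.tp h2
      rw [t3_hgtp A] at h3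
      rw [h3]
      simp
    · exact HZ.C _
  | succ k ih =>
    have h1 : zv T (k + 1) i = - ∑ j, C (T.r i j) * (fm0 (T.wt j) * zv T k j) := by
      show (- (T.r.map C).mulVec (T.Dx.mulVec (zv T k))) i = _
      rw [Pi.neg_apply]
      simp only [Matrix.mulVec, dotProduct, Matrix.map_apply]
      refine congrArg _ (Finset.sum_congr rfl fun j _ => ?_)
      have h2 := t3_Dx (T := T) (zv T k) j
      simp only [Matrix.mulVec, dotProduct] at h2
      rw [h2]
    rw [h1]
    refine ⟨fun h => ?_, ?_⟩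
    · have h2 : ∑ j, C (T.r i j) * (fm0 (T.wt j) * zv T k j) ≠ 0 := fun h' => h (by
        rw [h', neg_zero])
      obtain ⟨j, _, hj⟩ := Finset.exists_ne_zero_of_sum_ne_zero h2
      have h3 : T.r i j ≠ 0 := fun h' => hj (by rw [h', map_zero, zero_mul])
      have h4 : zv T k j ≠ 0 := fun h' => hj (by rw [h', mul_zero, mul_zero])
      have h5 := A.r_wt i j h3
      have h6 := (ih j).1 h4
      rw [h5, h6]
      push_cast
      ring
    · refine HZ.neg (HZ.sum _ _ fun j _ => HZ.C_mul _ ?_)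
      have h2 := (HZ_fm0 (T.wt j)).mul (ih j).2
      have h3 : ((k + 1 : ℕ) : ℤ) = 1 + (k : ℤ) := by push_cast; ring
      rw [h3]
      exact h2

/-- `z = ∑_{k < ht θ} z_k` (`(ht θ).toNat` terms, `ht θ ≥ 1`).  `e z_0 = e_θ` (`e_r'`), and
`e z_{k+1} = - Dx z_k` for `k + 1 ≤ ht θ - 1` (`e_r'`: `Dx z_k` is supported in the height `ht θ - 1 - k ≥ 0`).  The last
`Dx z_k`, `k = ht θ - 1`, is supported in height `0`, where the weights are `0` (a root has nonzero height:
`pos_or_neg`, `ht_pos`), so it vanishes.  Telescoping.  Degrees: `zv_hg`: at `i` only `k = ht θ - 1 - hg i`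
contributes. -/
theorem exists_z (A : TAx T) : ∃ z : Fin N → AA n,
    (T.e.map C + T.Dx).mulVec z = Pi.single T.tp 1 ∧ T.HV (ht D.theta.1 - 1) z := by
  have hθ := D.theta_ht_pos
  have hs : ∀ k : ℕ, (k : ℤ) < ht D.theta.1 →
      (T.e.map C).mulVec (zv T (k + 1)) = - T.Dx.mulVec (zv T k) := by
    intro k hk
    show (T.e.map C).mulVec (- (T.r.map C).mulVec (T.Dx.mulVec (zv T k))) = _
    rw [Matrix.mulVec_neg, e_r' A]
    intro j hj
    have h1 : zv T k j ≠ 0 := fun h' => hj (by rw [t3_Dx, h', mul_zero])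
    have h2 := (zv_hg A k j).1 h1
    omega
  have h0 : (T.e.map C).mulVec (zv T 0) = Pi.single T.tp 1 := by
    show (T.e.map C).mulVec ((T.r.map C).mulVec (Pi.single T.tp 1)) = _
    refine e_r' A _ fun j hj => ?_
    have h1 : j = T.tp := by
      by_contra h'
      exact hj (Pi.single_eq_of_ne h' _)
    rw [h1, t3_hgtp A]
    omega
  have hsum : ∀ k : ℕ, (k : ℤ) < ht D.theta.1 →
      (T.e.map C + T.Dx).mulVec (∑ j ∈ Finset.range (k + 1), zv T j) =
        Pi.single T.tp 1 + T.Dx.mulVec (zv T k) := by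
    intro k
    induction k with
    | zero =>
      intro _
      rw [Finset.sum_range_one, Matrix.add_mulVec, h0]
    | succ k ih =>
      intro hk
      have hk' : (k : ℤ) < ht D.theta.1 := by push_cast at hk; omega
      rw [Finset.sum_range_succ, Matrix.mulVec_add, ih hk', Matrix.add_mulVec, hs k hk']
      abel
  obtain ⟨K, hK⟩ : ∃ K : ℕ, ht D.theta.1 = (K : ℤ) + 1 :=
    ⟨(ht D.theta.1 - 1).toNat, by omega⟩
  refine ⟨∑ j ∈ Finset.range (K + 1), zv T j, ?_, ?_⟩
  · rw [hsum K (by omega)]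
    have h1 : T.Dx.mulVec (zv T K) = 0 := by
      funext j
      rw [t3_Dx]
      by_cases h2 : zv T K j = 0
      · rw [h2, mul_zero]; rfl
      · have h3 := (zv_hg A K j).1 h2
        rw [t3_wt_zero A (by omega), fm0_zero, zero_mul]; rfl
    rw [h1, add_zero]
  · intro i
    rw [Finset.sum_apply]
    refine HZ.sum _ _ fun k _ => ?_
    by_cases h2 : zv T k i = 0
    · rw [h2]; exact HZ.zero _
    · have h3 := (zv_hg A k i).1 h2
      have h4 : ht D.theta.1 - 1 - T.hg i = (k : ℤ) := by omega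
      rw [h4]
      exact (zv_hg A k i).2

/-- `ζ = px (e_θ - θ z)`; `(e + Dx) (e_θ - θ z) = θ e_θ - θ e_θ = 0` (`(e + Dx) e_θ = θ e_θ` as in `eig_E`), so
`sx ζ = px (e + Dx) (..) = 0` (`px_conj`); `ζ - E = - θ px z`.  Degrees: `px_hz`, `HZ_fm0`, `HZ.mul`, `HZ.sum`:
`(px w) i = ∑_j px i j w j` has degree `(hg j - hg i) + (d - hg j) = d - hg i`. -/
theorem exists_zeta (A : TAx T) : ∃ ζ : Fin N → AA n, T.Eig 0 ζ ∧
    (∀ i, fm0 D.theta.1 ∣ ζ i - T.E i) ∧ T.HV (ht D.theta.1) ζ := by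
  obtain ⟨z, hz1, hz2⟩ := exists_z A
  have he : (T.e.map C + T.Dx).mulVec (Pi.single T.tp 1) =
      fm0 D.theta.1 • (Pi.single T.tp 1 : Fin N → AA n) := by
    funext i
    rw [Matrix.add_mulVec, Pi.add_apply, t3_Dx, Matrix.mulVec_single_one]
    show C (T.e i T.tp) + _ = fm0 D.theta.1 * (Pi.single T.tp 1 : Fin N → AA n) i
    rw [t3_e_tp A, map_zero, zero_add]
    by_cases hi : i = T.tp
    · rw [hi, A.wt_tp]
    · rw [Pi.single_eq_of_ne hi, mul_zero, mul_zero]
  refine ⟨T.px.mulVec (Pi.single T.tp 1 - fm0 D.theta.1 • z), ?_, ?_, ?_⟩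
  · show T.sx.mulVec _ = fm0 0 • _
    rw [Matrix.mulVec_mulVec, ← A.px_conj, ← Matrix.mulVec_mulVec, Matrix.mulVec_sub, he,
      Matrix.mulVec_smul, hz1, sub_self, Matrix.mulVec_zero, fm0_zero, zero_smul]
  · intro i
    have h1 : T.px.mulVec (Pi.single T.tp 1 - fm0 D.theta.1 • z) i - T.E i =
        fm0 D.theta.1 * (- T.px.mulVec z i) := by
      rw [Matrix.mulVec_sub, Matrix.mulVec_smul, Matrix.mulVec_single_one]
      show T.px i T.tp - fm0 D.theta.1 * T.px.mulVec z i - T.px i T.tp = _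
      ring
    rw [h1]
    exact Dvd.intro _ rfl
  · intro i
    show HZ _ (∑ j, T.px i j * (Pi.single T.tp 1 - fm0 D.theta.1 • z : Fin N → AA n) j)
    refine HZ.sum _ _ fun j _ => ?_
    have h1 : HZ (ht D.theta.1 - T.hg j)
        ((Pi.single T.tp 1 - fm0 D.theta.1 • z : Fin N → AA n) j) := by
      show HZ _ ((Pi.single T.tp 1 : Fin N → AA n) j - fm0 D.theta.1 * z j)
      refine HZ.sub ?_ ?_
      · by_cases hj : j = T.tp
        · rw [hj, Pi.single_eq_same, t3_hgtp A, sub_self]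
          have h2 := HZ.C (n := n) 1
          rw [map_one] at h2
          exact h2
        · rw [Pi.single_eq_of_ne hj]
          exact HZ.zero _
      · have h2 := (HZ_fm0 D.theta.1).mul (hz2 j)
        have h3 : ht D.theta.1 - T.hg j = 1 + (ht D.theta.1 - 1 - T.hg j) := by ring
        rw [h3]
        exact h2
    have h2 := (A.px_hz i j).mul h1
    have h3 : ht D.theta.1 - T.hg i = T.hg j - T.hg i + (ht D.theta.1 - T.hg j) := by ring
    rw [h3]
    exact h2

end Pool.Agent.MTX
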