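import Pool.Agent.MTX.T1b
import Pool.Agent.MTX.T2

/-! # MTX, Part T : the function `c = κ(s_θ E, E)` -/

namespace Pool.Agent.MTX

open MvPolynomial SLD

variable {n N : ℕ} {D : SLD n} {T : TD D N}

private theorem t4_ka (v w : Fin N → AA n) :
    T.ka v w = ∑ i, ∑ j, v i * (C (T.kp i j) * w j) := by
  unfold TD.ka TD.K
  simp only [Matrix.mulVec, dotProduct, Matrix.map_apply, Finset.mul_sum]

private theorem t4_col (A : TAx T) (j0 : Fin N) (hj : T.wt j0 = - D.theta.1) :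
    T.kp j0 T.tp ≠ 0 := by
  intro h0
  have h1 : ∀ i, T.kp i T.tp = 0 := by
    intro i
    by_contra h
    have h2 := A.kp_wt i T.tp h
    rw [A.wt_tp] at h2
    have h3 : T.wt i = T.wt j0 := by
      rw [hj]
      exact eq_neg_of_add_eq_zero_left h2
    have h4 : T.wt i ≠ 0 := by
      rw [h3, hj]
      exact neg_ne_zero.2 (D.Rt_ne_zero D.theta)
    have h5 := A.wt_inj i j0 h3 h4
    rw [h5] at h
    exact h h0
  have h2 := A.kp_unit
  rw [Matrix.det_eq_zero_of_column_eq_zero T.tp h1] at h2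
  exact not_isUnit_zero h2

/-- `κ(v, w)` is homogeneous of degree `d + e` for homogeneous vectors of degrees `d`, `e`:
`K i j ≠ 0` gives `hg i + hg j = 0` (`kp_wt`, `ht_add`), and `v i * w j` has degree `d - hg i + e - hg j`. -/
theorem HZ_ka (A : TAx T) {d e : ℤ} {v w : Fin N → AA n} (hv : T.HV d v) (hw : T.HV e w) :
    HZ (d + e) (T.ka v w) := by
  rw [t4_ka]
  refine HZ.sum _ _ fun i _ => HZ.sum _ _ fun j _ => ?_
  by_cases h : T.kp i j = 0
  · rw [h, map_zero, zero_mul, mul_zero]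
    exact HZ.zero _
  · have h1 := A.kp_wt i j h
    have h2 : T.hg i + T.hg j = 0 := by
      show ht (T.wt i) + ht (T.wt j) = 0
      rw [← ht_add, h1]
      simp [ht]
    have h3 := (hv i).mul (HZ.C_mul (T.kp i j) (hw j))
    have h4 : d + e = d - T.hg i + (e - T.hg j) := by omega
    rw [h4]
    exact h3

theorem HV_smul {d : ℤ} (u : D.OQ) {v : Fin N → AA n} (hv : T.HV d v) : T.HV d (u • v) :=
  fun i => HZ.smul D u (hv i)

/-- If `v ≡ v'` modulo `p` coordinatewise then `κ(v, w) ≡ κ(v', w)`. -/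
theorem dvd_ka {p : AA n} {v v' w w' : Fin N → AA n} (h : ∀ i, p ∣ v i - v' i)
    (h' : ∀ i, p ∣ w i - w' i) : p ∣ T.ka v w - T.ka v' w' := by
  rw [t4_ka, t4_ka, ← Finset.sum_sub_distrib]
  refine Finset.dvd_sum fun i _ => ?_
  rw [← Finset.sum_sub_distrib]
  refine Finset.dvd_sum fun j _ => ?_
  have h1 : v i * (C (T.kp i j) * w j) - v' i * (C (T.kp i j) * w' j) =
      (v i - v' i) * (C (T.kp i j) * w j) + (w j - w' j) * (v' i * C (T.kp i j)) := by ring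
  rw [h1]
  exact dvd_add (Dvd.dvd.mul_right (h i) _) (Dvd.dvd.mul_right (h' j) _)

/-- `κ(s_θ E, E) ≠ 0`: `s_θ E = px v'` with `v'` an eigenvector of `e + Dx` for `- θ` (`eig_smul`, `eig_pull`,
`rO_mem`, `s_θ θ = - θ`).  `κ(px v', px e_θ) = κ(v', e_θ)` (`px_kp`) `= v' j0 * kp j0 tp`, where `j0` is the index
of weight `- θ` (`kp_wt`, `wt_inj`).  `kp j0 tp ≠ 0`, otherwise the column `tp` of `kp` vanishes (`kp_wt`, `wt_inj`)
and `det kp = 0`.  `v' j0 ≠ 0` by `eig0_exists` (`v' ≠ 0` since `s_θ E ≠ 0`: `E_tp`). -/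
theorem c_ne_zero (A : TAx T) : T.ka (D.rO D.theta • T.E) T.E ≠ 0 := by
  have h1 : T.Eig ((D.rO D.theta).1 D.theta.1) (D.rO D.theta • T.E) :=
    eig_smul A (D.rO_mem D.theta) (eig_E A)
  have h2 : (D.rO D.theta).1 D.theta.1 = - D.theta.1 := by
    rw [rO_apply, rf_val, D.theta.2]
    module
  rw [h2] at h1
  obtain ⟨v', hv1, hv2⟩ := eig_pull A h1
  have hne : v' ≠ 0 := by
    rintro rfl
    rw [Matrix.mulVec_zero] at hv1
    have h3 := congrFun hv1 T.tp
    rw [Pi.smul_apply, E_tp A] at h3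
    have h4 : D.rO D.theta • (1 : AA n) = 1 := by
      have := D.smul_C (D.rO D.theta) 1
      rwa [map_one] at this
    rw [h4] at h3
    exact one_ne_zero h3
  obtain ⟨j0, hj0, hw, _⟩ := eig0_exists A hv2 hne
  have hE : T.E = T.px.mulVec (Pi.single T.tp 1) := by
    rw [Matrix.mulVec_single_one]
    rfl
  have h5 : T.ka (D.rO D.theta • T.E) T.E = v' j0 * C (T.kp j0 T.tp) := by
    rw [hv1, hE]
    unfold TD.ka
    rw [Matrix.dotProduct_mulVec, Matrix.dotProduct_mulVec, ← Matrix.vecMul_transpose,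
      Matrix.vecMul_vecMul, Matrix.vecMul_vecMul, ← Matrix.mul_assoc, A.px_kp, dotProduct_single_one]
    show ∑ i, v' i * (T.kp.map C) i T.tp = _
    rw [Finset.sum_eq_single j0]
    · rfl
    · intro i _ hi
      by_cases h : T.kp i T.tp = 0
      · rw [Matrix.map_apply, h, map_zero, mul_zero]
      · exfalso
        have h6 := A.kp_wt i T.tp h
        rw [A.wt_tp] at h6
        have h7 : T.wt i = T.wt j0 := by
          rw [hw]
          exact eq_neg_of_add_eq_zero_left h6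
        have h8 : T.wt i ≠ 0 := by
          rw [h7, hw]
          exact neg_ne_zero.2 (D.Rt_ne_zero D.theta)
        exact hi (A.wt_inj i j0 h7 h8)
    · intro h
      exact (h (Finset.mem_univ _)).elim
  rw [h5]
  refine mul_ne_zero hj0 fun h => t4_col A j0 hw ?_
  rw [← map_zero (MvPolynomial.C : ℂ →+* AA n)] at h
  exact MvPolynomial.C_injective _ _ h

/-- For `γ > 0`, `B(γ, θ) = 1`: `E ≡ s_γ E` modulo `γ` (`fm0_dvd_sub`), and `κ(s_θ E, s_γ E) = 0` since the weights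
are `- θ` and `s_γ θ = θ - γ` with sum `- γ ≠ 0` (`ka_eig`, `eig_smul`). -/
theorem c_dvd (A : TAx T) (γ : D.PRt) (h : D.B γ.1.1 D.theta.1 = 1) :
    fm0 γ.1.1 ∣ T.ka (D.rO D.theta • T.E) T.E := by
  have h1 : fm0 γ.1.1 ∣ T.ka (D.rO D.theta • T.E) T.E
      - T.ka (D.rO D.theta • T.E) (D.rO γ.1 • T.E) :=
    dvd_ka (fun i => by rw [sub_self]; exact dvd_zero _) (fun i => D.fm0_dvd_sub γ.1 (T.E i))
  have e1 := eig_smul A (D.rO_mem D.theta) (eig_E A)
  have e2 := eig_smul A (D.rO_mem γ.1) (eig_E A)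
  have h2 : T.ka (D.rO D.theta • T.E) (D.rO γ.1 • T.E) = 0 := by
    refine ka_eig A e1 e2 ?_
    have k1 : (D.rO D.theta).1 D.theta.1 = - D.theta.1 :=
      congrArg Subtype.val (D.rO_self D.theta)
    have k2 : (D.rO γ.1).1 D.theta.1 = D.theta.1 - D.B γ.1.1 D.theta.1 • γ.1.1 :=
      D.rO_smul_val γ.1 D.theta
    rw [k1, k2, h, one_smul]
    intro h3
    have h4 : γ.1.1 = 0 := by
      have : -D.theta.1 + (D.theta.1 - γ.1.1) = - γ.1.1 := by abel
      rw [this] at h3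
      exact neg_eq_zero.1 h3
    exact D.Rt_ne_zero γ.1 h4
  rw [h2, sub_zero] at h1
  exact h1

/-- `c ≡ κ(E, E) = 0` modulo `θ` (`ka_eig`, `2 θ ≠ 0`), so `c = θ c'`.  `s_θ c = κ(E, s_θ E) = c` (`ka_smul`, `rO_sq`,
`ka_comm`) and `s_θ θ = - θ`, so `s_θ c' = - c'`, and `θ ∣ c' - s_θ c' = 2 c'` (`fm0_dvd_sub`). -/
theorem c_dvd_sq (A : TAx T) :
    fm0 D.theta.1 ^ 2 ∣ T.ka (D.rO D.theta • T.E) T.E := by
  have hth := D.Rt_ne_zero D.theta
  have h1 : fm0 D.theta.1 ∣ T.ka (D.rO D.theta • T.E) T.E - T.ka T.E T.E :=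
    dvd_ka (fun i => (dvd_sub_comm).1 (D.fm0_dvd_sub D.theta (T.E i)))
      (fun i => by rw [sub_self]; exact dvd_zero _)
  have h2 : T.ka T.E T.E = 0 := by
    refine ka_eig A (eig_E A) (eig_E A) ?_
    intro h3
    apply hth
    funext i
    have h4 := congrFun h3 i
    simp only [Pi.add_apply, Pi.zero_apply] at h4 ⊢
    omega
  rw [h2, sub_zero] at h1
  obtain ⟨c', hc⟩ := h1
  have h3 : D.rO D.theta • T.ka (D.rO D.theta • T.E) T.E = T.ka (D.rO D.theta • T.E) T.E := by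
    rw [← ka_smul, ← mul_smul, D.rO_sq, one_smul, ka_comm A]
  have k1 : (D.rO D.theta).1 D.theta.1 = - D.theta.1 :=
    congrArg Subtype.val (D.rO_self D.theta)
  rw [hc, smul_mul', smul_fm0, k1, fm0_neg] at h3
  have h4 : c' + D.rO D.theta • c' = 0 := by
    apply mul_left_cancel₀ (fm0_ne_zero hth)
    rw [mul_zero]
    linear_combination -h3
  have h5 := D.fm0_dvd_sub D.theta c'
  have h6 : c' - D.rO D.theta • c' = C (2 : ℂ) * c' := by
    have : (C (2 : ℂ) : AA n) = 2 := map_ofNat MvPolynomial.C 2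
    rw [this]
    linear_combination -h4
  rw [h6] at h5
  have h7 : fm0 D.theta.1 ∣ c' := by
    have h8 : c' = C (2⁻¹ : ℂ) * (C (2 : ℂ) * c') := by
      rw [← mul_assoc, ← C_mul, inv_mul_cancel₀ (two_ne_zero), C_1, one_mul]
    rw [h8]
    exact Dvd.dvd.mul_left h5 _
  rw [hc, pow_two]
  exact mul_dvd_mul_left _ h7

/-- `c = θ² PI1 q` (`dvd_of_all`); `c` has degree `2 ht θ` (`HV_E`, `HZ_ka`), `θ² PI1` has degree
`2 + (2 ht θ - 2)` (`HZ_PI1`, `card_theta`), so `q` has degree `0` (`HZ.of_mul`) and is constant. -/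
theorem exists_c0 (A : TAx T) : ∃ c0 : ℂ, c0 ≠ 0 ∧
    T.ka (D.rO D.theta • T.E) T.E = C c0 * (fm0 D.theta.1 ^ 2 * D.PI1) := by
  obtain ⟨q, hq⟩ := D.dvd_of_all (c_dvd_sq A) (fun γ h => c_dvd A γ h)
  have h1 : HZ (ht D.theta.1 + ht D.theta.1) (T.ka (D.rO D.theta • T.E) T.E) :=
    HZ_ka A (HV_smul _ (HV_E A)) (HV_E A)
  have h2 : HZ (2 + (D.nP - D.nP0 - 1)) (fm0 D.theta.1 ^ 2 * D.PI1) := by
    refine HZ.mul ?_ D.HZ_PI1
    rw [pow_two]
    exact (HZ_fm0 _).mul (HZ_fm0 _)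
  have h0 : fm0 D.theta.1 ^ 2 * D.PI1 ≠ 0 :=
    mul_ne_zero (pow_ne_zero _ (fm0_ne_zero (D.Rt_ne_zero D.theta))) D.PI1_ne_zero
  rw [hq] at h1
  have h3 := HZ.of_mul h0 h2 h1
  have h4 : ht D.theta.1 + ht D.theta.1 - (2 + (D.nP - D.nP0 - 1)) = 0 := by
    rw [D.card_theta]; ring
  rw [h4] at h3
  obtain ⟨c0, hc0⟩ := h3.const
  refine ⟨c0, ?_, ?_⟩
  · rintro rfl
    apply c_ne_zero A
    rw [hq, hc0, C_0, mul_zero]
  · rw [hq, hc0, mul_comm]

end Pool.Agent.MTX
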