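import Pool.Agent.MTX.T3
import Pool.Agent.MTX.T4

/-! # MTX, Part T : (8.4), the composition `π ι` is a nonzero constant -/

namespace Pool.Agent.MTX

open MvPolynomial SLD

variable {n N : ℕ} {D : SLD n} {T : TD D N}

/-- The data of (8.4): `ζ` as in `exists_zeta`; `θ H = a (E (κ s_θ E) - ζ (κ ζ))`, `a = PI0 θ`;
`PI P = ∑_{u ∈ W} sg u (u H)`. -/
structure PD (T : TD D N) (sg : D.OQ → ℤ) [Fintype D.W] (ζ : Fin N → AA n)
    (H P : Matrix (Fin N) (Fin N) (AA n)) : Prop where
  sg_PI : ∀ u ∈ D.W, u • D.PI = (sg u : AA n) * D.PI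
  sg_sq : ∀ u ∈ D.W, sg u * sg u = 1
  eig : T.Eig 0 ζ
  hv : T.HV (ht D.theta.1) ζ
  hH : ∀ j k, fm0 D.theta.1 * H j k = D.PI0 D.theta.1 *
    (T.E j * (T.K.mulVec (D.rO D.theta • T.E)) k - ζ j * (T.K.mulVec ζ) k)
  hP : ∀ j k, D.PI * P j k = ∑ u : D.W, (sg u.1 : AA n) * (u.1 • H j k)

section
variable {sg : D.OQ → ℤ} [Fintype D.W] {ζ : Fin N → AA n} {H P : Matrix (Fin N) (Fin N) (AA n)}

omit [Fintype D.W] in
theorem t5a_mulVec_smul (u : D.OQ) (w : Fin N → AA n) (k : Fin N) :
    u • (T.K.mulVec w) k = (T.K.mulVec (u • w)) k := by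
  simp only [Matrix.mulVec, dotProduct, Finset.smul_sum, smul_mul', Pi.smul_apply]
  refine Finset.sum_congr rfl fun i _ => ?_
  rw [TD.K, Matrix.map_apply, smul_C]

omit [Fintype D.W] in
theorem t5a_sum_ka (A : TAx T) (w v : Fin N → AA n) :
    ∑ k, (T.K.mulVec w) k * v k = T.ka w v := by
  rw [ka_comm A w v]
  unfold TD.ka
  rw [dotProduct_comm]
  rfl

omit [Fintype D.W] in
theorem t5a_dvd (p : AA n) {w w' : Fin N → AA n} (h : ∀ i, p ∣ w i - w' i) (k : Fin N) :
    p ∣ (T.K.mulVec w) k - (T.K.mulVec w') k := by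
  simp only [Matrix.mulVec, dotProduct, ← Finset.sum_sub_distrib, ← mul_sub]
  exact Finset.dvd_sum fun i _ => (h i).mul_left _

/-- Existence of `H`: `θ` divides `E j (K s_θ E) k - ζ j (K ζ) k`: `E ≡ s_θ E` (`fm0_dvd_sub`) and `ζ ≡ E`
modulo `θ`. -/
theorem exists_H (ζ : Fin N → AA n) (h2 : ∀ i, fm0 D.theta.1 ∣ ζ i - T.E i) :
    ∃ H : Matrix (Fin N) (Fin N) (AA n), ∀ j k, fm0 D.theta.1 * H j k = D.PI0 D.theta.1 *
      (T.E j * (T.K.mulVec (D.rO D.theta • T.E)) k - ζ j * (T.K.mulVec ζ) k) := by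
  have h3 : ∀ i, fm0 D.theta.1 ∣ (D.rO D.theta • T.E) i - ζ i := by
    intro i
    have e1 : (D.rO D.theta • T.E) i - ζ i =
        -(T.E i - D.rO D.theta • T.E i) - (ζ i - T.E i) := by
      rw [Pi.smul_apply]
      ring
    rw [e1]
    exact dvd_sub ((D.fm0_dvd_sub D.theta (T.E i)).neg_right) (h2 i)
  have h4 : ∀ j k, fm0 D.theta.1 ∣
      T.E j * (T.K.mulVec (D.rO D.theta • T.E)) k - ζ j * (T.K.mulVec ζ) k := by
    intro j k
    have e2 : T.E j * (T.K.mulVec (D.rO D.theta • T.E)) k - ζ j * (T.K.mulVec ζ) k =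
        T.E j * ((T.K.mulVec (D.rO D.theta • T.E)) k - (T.K.mulVec ζ) k) -
          (ζ j - T.E j) * (T.K.mulVec ζ) k := by ring
    rw [e2]
    exact dvd_sub ((t5a_dvd _ h3 k).mul_left _) ((h2 j).mul_right _)
  choose q hq using h4
  refine ⟨fun j k => D.PI0 D.theta.1 * q j k, fun j k => ?_⟩
  rw [hq j k]
  ring

/-- For `u ∈ W` and any vector `v`:
`(u θ) ∑_k (u H) j k v k = (u a) ((u E) j κ(u s_θ E, v) - (u ζ) j κ(u ζ, v))`.
(`u` is a ring automorphism, `K` has constant entries, `ka_comm`.) -/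
theorem uH_mulVec (A : TAx T) (h : PD T sg ζ H P) (u : D.OQ) (v : Fin N → AA n) (j : Fin N) :
    fm0 (u.1 D.theta.1) * ∑ k, (u • H j k) * v k = (u • D.PI0 D.theta.1) *
      ((u • T.E) j * T.ka (u • (D.rO D.theta • T.E)) v - (u • ζ) j * T.ka (u • ζ) v) := by
  have h1 : ∀ k, fm0 (u.1 D.theta.1) * (u • H j k) = (u • D.PI0 D.theta.1) *
      ((u • T.E) j * (T.K.mulVec (u • (D.rO D.theta • T.E))) k -
        (u • ζ) j * (T.K.mulVec (u • ζ)) k) := by
    intro k
    have h2 := congrArg (fun p : AA n => u • p) (h.hH j k)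
    simp only [smul_mul', smul_sub] at h2
    rw [smul_fm0, t5a_mulVec_smul, t5a_mulVec_smul] at h2
    exact h2
  rw [← t5a_sum_ka A, ← t5a_sum_ka A, Finset.mul_sum]
  have h3 : ∀ k, fm0 (u.1 D.theta.1) * ((u • H j k) * v k) =
      (u • D.PI0 D.theta.1) * ((u • T.E) j * ((T.K.mulVec (u • (D.rO D.theta • T.E))) k * v k) -
        (u • ζ) j * ((T.K.mulVec (u • ζ)) k * v k)) := by
    intro k
    rw [← mul_assoc, h1 k]
    ring
  simp only [h3]
  rw [← Finset.mul_sum, Finset.sum_sub_distrib, ← Finset.mul_sum, ← Finset.mul_sum]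

/-- one summand of `PI (P v) j` -/
theorem t5b_term (A : TAx T) (h : PD T sg ζ H P) {c0 : ℂ}
    (hc : T.ka (D.rO D.theta • T.E) T.E = C c0 * (fm0 D.theta.1 ^ 2 * D.PI1))
    {u u1 : D.OQ} (hu : u ∈ D.W) (hu1 : u1 ∈ D.W) (j : Fin N) :
    (∑ k, (u • H j k) * (u1 • T.E) k) =
      if u.1 D.theta.1 = u1.1 D.theta.1 then
        C c0 * ((sg u : AA n) * D.PI) * (u1 • T.E) j else 0 := by
  have hth : D.theta.1 ≠ 0 := D.Rt_ne_zero D.theta
  have hne : ∀ w : D.OQ, w.1 D.theta.1 ≠ 0 := by
    intro w hw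
    exact hth ((LinearEquiv.map_eq_zero_iff w.1).1 hw)
  have h0 : fm0 (u.1 D.theta.1) ≠ 0 := fm0_ne_zero (hne u)
  have hv : T.Eig (u1.1 D.theta.1) (u1 • T.E) := eig_smul A hu1 (eig_E A)
  have hz : T.Eig 0 (u • ζ) := by
    have h1 := eig_smul A hu h.eig
    rwa [map_zero] at h1
  have hz0 : T.ka (u • ζ) (u1 • T.E) = 0 :=
    ka_eig A hz hv (by rw [zero_add]; exact hne u1)
  have hs : T.Eig (-D.theta.1) (D.rO D.theta • T.E) := by
    have h1 := eig_smul A (D.rO_mem D.theta) (eig_E A)
    have h2 : (D.rO D.theta).1 D.theta.1 = -D.theta.1 :=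
      congrArg Subtype.val (D.rO_self D.theta)
    rwa [h2] at h1
  have hs' : T.Eig (-(u.1 D.theta.1)) (u • (D.rO D.theta • T.E)) := by
    have h1 := eig_smul A hu hs
    rwa [map_neg] at h1
  have key := uH_mulVec A h u (u1 • T.E) j
  rw [hz0, mul_zero, sub_zero] at key
  apply mul_left_cancel₀ h0
  rw [key]
  by_cases hcase : u.1 D.theta.1 = u1.1 D.theta.1
  · rw [if_pos hcase]
    have hE : u • T.E = u1 • T.E := smul_E_eq A hu hu1 hcase
    rw [← hE, ka_smul, hc]
    have h1 : (u • D.PI0 D.theta.1) * (u • (C c0 * (fm0 D.theta.1 ^ 2 * D.PI1))) =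
        C c0 * (fm0 (u.1 D.theta.1) * ((sg u : AA n) * D.PI)) := by
      rw [← h.sg_PI u hu, ← smul_mul']
      have h2 : D.PI0 D.theta.1 * (C c0 * (fm0 D.theta.1 ^ 2 * D.PI1)) =
          C c0 * (fm0 D.theta.1 * D.PI) := by
        rw [D.PI_eq]
        ring
      rw [h2, smul_mul', smul_mul', smul_C, smul_fm0]
    linear_combination (u • T.E) j * h1
  · rw [if_neg hcase, mul_zero]
    have h1 : T.ka (u • (D.rO D.theta • T.E)) (u1 • T.E) = 0 := by
      refine ka_eig A hs' hv ?_
      intro h2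
      exact hcase (neg_add_eq_zero.1 h2)
    rw [h1, mul_zero, mul_zero]

/-- the number of `u ∈ W` with `u θ = u1 θ` -/
theorem t5b_card {u1 : D.OQ} (hu1 : u1 ∈ D.W) [DecidableEq (Fin n → ℤ)] :
    (Finset.univ.filter fun u : D.W => u.1.1 D.theta.1 = u1.1 D.theta.1).card =
      (Finset.univ.filter fun u : D.W => u.1.1 D.theta.1 = D.theta.1).card := by
  symm
  refine Finset.card_bij (fun u _ => (⟨u1, hu1⟩ : D.W) * u) ?_ ?_ ?_
  · intro u hu
    rw [Finset.mem_filter] at hu ⊢
    refine ⟨Finset.mem_univ _, ?_⟩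
    change u1.1 (u.1.1 D.theta.1) = _
    rw [hu.2]
  · intro u _ v _ huv
    exact mul_left_cancel huv
  · intro u hu
    rw [Finset.mem_filter] at hu
    refine ⟨(⟨u1, hu1⟩ : D.W)⁻¹ * u, ?_, ?_⟩
    · rw [Finset.mem_filter]
      refine ⟨Finset.mem_univ _, ?_⟩
      change (u1⁻¹).1 (u.1.1 D.theta.1) = _
      rw [hu.2, D.OQ_inv_apply']
    · exact mul_inv_cancel_left _ _

/-- `P (u1 E) = c1 (u1 E)`, `c1 = c0 * #{u ∈ W | u θ = θ}`, `c0` from `exists_c0`.
Let `v = u1 E`, of weight `u1 θ`.  `κ(u ζ, v) = 0` (`ka_eig`, weights `0` and `u1 θ ≠ 0`).  `u s_θ E` has weight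
`u s_θ θ = - u θ`, so `κ(u s_θ E, v) = 0` unless `u θ = u1 θ`, and then `u E = u1 E` (`smul_E_eq`) and
`κ(u s_θ E, u E) = u c` (`ka_smul`), so by `uH_mulVec`
`(u θ) ∑_k (u H) j k v k = u (a c) v j`, and `a c = c0 θ (θ PI1 a) = c0 θ PI` (`PI_eq`), so (cancel `u θ`)
`∑_k (u H) j k v k = c0 (u PI) v j = c0 sg u PI v j`.  In the other case the sum is `0`.  Now sum over `u`
with `sg u`: `PI (P v) j = c0 #{u ∈ W | u θ = u1 θ} PI v j`; the set is `u1 {u | u θ = θ}`. -/
theorem P_E (A : TAx T) (h : PD T sg ζ H P) :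
    ∃ c1 : ℂ, c1 ≠ 0 ∧ ∀ u1 ∈ D.W, P.mulVec (u1 • T.E) = (C c1 : AA n) • (u1 • T.E) := by
  classical
  obtain ⟨c0, hc0, hc⟩ := exists_c0 A
  refine ⟨c0 * ((Finset.univ.filter fun u : D.W => u.1.1 D.theta.1 = D.theta.1).card : ℂ),
    ?_, ?_⟩
  · refine mul_ne_zero hc0 (Nat.cast_ne_zero.2 (Finset.card_pos.2 ⟨1, ?_⟩).ne')
    rw [Finset.mem_filter]
    exact ⟨Finset.mem_univ _, rfl⟩
  · intro u1 hu1
    funext j
    apply mul_left_cancel₀ D.PI_ne_zero
    rw [Pi.smul_apply, smul_eq_mul, Matrix.mulVec, dotProduct, Finset.mul_sum]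
    have h1 : ∀ k, D.PI * (P j k * (u1 • T.E) k) =
        ∑ u : D.W, (sg u.1 : AA n) * ((u.1 • H j k) * (u1 • T.E) k) := by
      intro k
      rw [← mul_assoc, h.hP, Finset.sum_mul]
      exact Finset.sum_congr rfl fun u _ => by ring
    rw [Finset.sum_congr rfl fun k _ => h1 k, Finset.sum_comm]
    have h2 : ∀ u : D.W, (∑ k, (sg u.1 : AA n) * ((u.1 • H j k) * (u1 • T.E) k)) =
        if u.1.1 D.theta.1 = u1.1 D.theta.1 then C c0 * D.PI * (u1 • T.E) j else 0 := by
      intro u
      rw [← Finset.mul_sum, t5b_term A h hc u.2 hu1 j]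
      split_ifs
      · have h3 : (sg u.1 : AA n) * (sg u.1 : AA n) = 1 := by
          rw [← Int.cast_mul, h.sg_sq u.1 u.2, Int.cast_one]
        linear_combination (C c0 * D.PI * (u1 • T.E) j) * h3
      · rw [mul_zero]
    rw [Finset.sum_congr rfl fun u _ => h2 u, ← Finset.sum_filter, Finset.sum_const,
      t5b_card hu1, nsmul_eq_mul, map_mul, map_natCast]
    ring

omit [Fintype D.W] in
theorem t5a_theta_ne (u : D.OQ) : fm0 (u.1 D.theta.1) ≠ (0 : AA n) :=
  fm0_ne_zero (D.Rt_ne_zero (u • D.theta))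

omit [Fintype D.W] in
theorem t5a_sE (A : TAx T) {u : D.OQ} (hu : u ∈ D.W) :
    T.sx.mulVec (u • (D.rO D.theta • T.E)) =
      (-fm0 (u.1 D.theta.1) : AA n) • (u • (D.rO D.theta • T.E)) := by
  have h1 := eig_smul A hu (eig_smul A (D.rO_mem D.theta) (eig_E A))
  have h2 : (D.rO D.theta).1 D.theta.1 = -D.theta.1 := by
    have := congrArg Subtype.val (D.rO_self D.theta)
    exact this
  rw [h2, map_neg] at h1
  unfold TD.Eig at h1
  rw [h1, fm0_neg]

omit [Fintype D.W] in
theorem t5a_ka_smul (p : AA n) (v w : Fin N → AA n) : T.ka (p • v) w = p * T.ka v w := by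
  unfold TD.ka
  rw [smul_dotProduct, smul_eq_mul]

theorem t5a_u (A : TAx T) (h : PD T sg ζ H P) {u : D.OQ} (hu : u ∈ D.W) (v : Fin N → AA n)
    (j : Fin N) : ∑ k, (u • H j k) * (T.sx.mulVec v) k =
      ∑ l, T.sx j l * ∑ k, (u • H l k) * v k := by
  apply mul_left_cancel₀ (t5a_theta_ne (D := D) u)
  rw [uH_mulVec A h u (T.sx.mulVec v) j]
  have hz := eig_smul A hu h.eig
  have hz0 : T.sx.mulVec (u • ζ) = 0 := by
    rw [map_zero] at hz
    unfold TD.Eig at hz
    rw [hz, fm0_zero, zero_smul]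
  have k1 : T.ka (u • ζ) (T.sx.mulVec v) = 0 := by
    have := ka_skew A (u • ζ) v
    rw [hz0] at this
    have h0 : T.ka 0 v = 0 := by
      unfold TD.ka
      rw [zero_dotProduct]
    rw [h0, zero_add] at this
    exact this
  have k2 : T.ka (u • (D.rO D.theta • T.E)) (T.sx.mulVec v) =
      fm0 (u.1 D.theta.1) * T.ka (u • (D.rO D.theta • T.E)) v := by
    have h5 := ka_skew A (u • (D.rO D.theta • T.E)) v
    rw [t5a_sE A hu, t5a_ka_smul] at h5
    linear_combination h5
  have k3 : T.sx.mulVec (u • T.E) = (fm0 (u.1 D.theta.1) : AA n) • (u • T.E) :=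
    eig_smul A hu (eig_E A)
  have k4 : ∀ l, fm0 (u.1 D.theta.1) * (T.sx j l * ∑ k, (u • H l k) * v k) =
      (u • D.PI0 D.theta.1) * (T.ka (u • (D.rO D.theta • T.E)) v * (T.sx j l * (u • T.E) l) -
        T.ka (u • ζ) v * (T.sx j l * (u • ζ) l)) := by
    intro l
    have h6 := uH_mulVec A h u v l
    linear_combination (T.sx j l) * h6
  rw [k1, k2, Finset.mul_sum]
  simp only [k4]
  rw [← Finset.mul_sum, Finset.sum_sub_distrib, ← Finset.mul_sum, ← Finset.mul_sum]
  have k5 : ∑ l, T.sx j l * (u • T.E) l = fm0 (u.1 D.theta.1) * (u • T.E) j := congrFun k3 j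
  have k6 : ∑ l, T.sx j l * (u • ζ) l = 0 := congrFun hz0 j
  rw [k5, k6]
  ring

/-- By `uH_mulVec` for `v` and `sx v`: `κ(w, sx v) = - κ(sx w, v)` (`ka_skew`), `u s_θ E` has eigenvalue `- u θ`,
`u E` has eigenvalue `u θ`, `u ζ` has eigenvalue `0`.  So `(u H) sx = sx (u H)` (both are
`v ↦ (u a) κ(u s_θ E, v) u E` up to cancelling `u θ`).  Sum over `u`, cancel `PI`.  (`sx` is not changed by anything.) -/
theorem P_sx (A : TAx T) (h : PD T sg ζ H P) : P * T.sx = T.sx * P := by
  ext1 j i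
  apply mul_left_cancel₀ D.PI_ne_zero
  have hcol : ∀ k, T.sx k i = (T.sx.mulVec (Pi.single i 1)) k := by
    intro k
    rw [Matrix.mulVec_single_one]
    rfl
  have e1 : D.PI * (P * T.sx) j i = ∑ u : D.W, (sg u.1 : AA n) *
      ∑ k, (u.1 • H j k) * T.sx k i := by
    rw [Matrix.mul_apply, Finset.mul_sum]
    have : ∀ k, D.PI * (P j k * T.sx k i) =
        ∑ u : D.W, (sg u.1 : AA n) * ((u.1 • H j k) * T.sx k i) := by
      intro k
      rw [← mul_assoc, h.hP j k, Finset.sum_mul]
      refine Finset.sum_congr rfl fun u _ => ?_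
      ring
    simp only [this]
    rw [Finset.sum_comm]
    refine Finset.sum_congr rfl fun u _ => ?_
    rw [Finset.mul_sum]
  have e2 : D.PI * (T.sx * P) j i = ∑ u : D.W, (sg u.1 : AA n) *
      ∑ l, T.sx j l * (u.1 • H l i) := by
    rw [Matrix.mul_apply, Finset.mul_sum]
    have : ∀ l, D.PI * (T.sx j l * P l i) =
        ∑ u : D.W, (sg u.1 : AA n) * (T.sx j l * (u.1 • H l i)) := by
      intro l
      have h1 : D.PI * (T.sx j l * P l i) = T.sx j l * (D.PI * P l i) := by ring
      rw [h1, h.hP l i, Finset.mul_sum]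
      refine Finset.sum_congr rfl fun u _ => ?_
      ring
    simp only [this]
    rw [Finset.sum_comm]
    refine Finset.sum_congr rfl fun u _ => ?_
    rw [Finset.mul_sum]
  rw [e1, e2]
  refine Finset.sum_congr rfl fun u _ => ?_
  congr 1
  have h7 := t5a_u A h u.2 (Pi.single i 1) j
  rw [← Finset.sum_congr rfl fun k _ => by rw [← hcol k]] at h7
  refine h7.trans ?_
  refine Finset.sum_congr rfl fun l _ => ?_
  congr 1
  rw [Finset.sum_eq_single i]
  · simp
  · intro b _ hb
    rw [Pi.single_eq_of_ne hb, mul_zero]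
  · intro hi
    exact absurd (Finset.mem_univ i) hi

/-- `sx (P - c1) = 0`.  Over the fraction field, with `q` from `A.qq`: it suffices to check on the columns
`q e_i`.  If `wt i = 0` then `sx q e_i = 0` and `sx (P - c1) q e_i = (P - c1) sx q e_i = 0` (`P_sx`).
If `wt i = γ` is a root, take `u ∈ W`, `u θ = γ` (`exists_smul_theta`): `u E` is an eigenvector for `γ`,
nonzero.  Clearing denominators in `q e_i` (a common denominator) gives an eigenvector `w` over `A` for `γ`, which
is proportional to `u E` by `eig_prop`: `w i (uE) j = w j (uE) i`; choose `i` with `(u E) i ≠ 0`; since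
`(P - c1) (u E) = 0` (`P_E`) also `(P - c1) w = 0`. -/
theorem sx_P (A : TAx T) (h : PD T sg ζ H P) {c1 : ℂ}
    (hc : ∀ u1 ∈ D.W, P.mulVec (u1 • T.E) = (C c1 : AA n) • (u1 • T.E)) :
    T.sx * (P - (C c1 : AA n) • (1 : Matrix (Fin N) (Fin N) (AA n))) = 0 := by
  obtain ⟨δ, hδ⟩ : ∃ δ, δ = P - (C c1 : AA n) • (1 : Matrix (Fin N) (Fin N) (AA n)) := ⟨_, rfl⟩
  rw [← hδ]
  have hcomm : T.sx * δ = δ * T.sx := by
    rw [hδ, Matrix.sub_mul, Matrix.mul_sub, P_sx A h, Matrix.smul_mul, Matrix.mul_smul,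
      Matrix.one_mul, Matrix.mul_one]
  have hδE : ∀ u1 ∈ D.W, δ.mulVec (u1 • T.E) = 0 := by
    intro u1 hu1
    rw [hδ, Matrix.sub_mulVec, Matrix.smul_mulVec, Matrix.one_mulVec, hc u1 hu1, sub_self]
  obtain ⟨q, hq, hqe⟩ := A.qq
  obtain ⟨f, hf⟩ : ∃ f, f = algebraMap (AA n) (FractionRing (AA n)) := ⟨_, rfl⟩
  have hinj : Function.Injective f := by rw [hf]; exact IsFractionRing.injective _ _
  rw [← hf] at hqe
  have hcol : ∀ i, (T.sx.map f).mulVec (fun j => q j i) = fun j => f (fm0 (T.wt i)) * q j i := by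
    intro i
    funext j
    have h1 : (T.sx.map f * q) j i = (q * T.Dx.map f) j i := by rw [hqe]
    have h2 : (q * T.Dx.map f) j i = q j i * f (fm0 (T.wt i)) := by
      rw [Matrix.mul_apply, Finset.sum_eq_single i]
      · simp [TD.Dx, Matrix.map_apply]
      · intro k _ hk
        simp [TD.Dx, Matrix.map_apply, Matrix.diagonal_apply_ne _ hk]
      · intro hi; exact absurd (Finset.mem_univ i) hi
    rw [h2] at h1
    rw [mul_comm, ← h1]
    rfl
  have key : ∀ i, ((T.sx * δ).map f).mulVec (fun j => q j i) = 0 := by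
    intro i
    rcases A.wt_cases i with hw | hw
    · rw [hcomm, Matrix.map_mul, ← Matrix.mulVec_mulVec, hcol i, hw, fm0_zero, map_zero]
      have h3 : (fun j => (0 : FractionRing (AA n)) * q j i) = 0 := by
        funext j
        exact zero_mul _
      rw [h3, Matrix.mulVec_zero]
    · obtain ⟨u, hu, huθ⟩ := D.exists_smul_theta ⟨T.wt i, hw⟩
      have huE : T.Eig (T.wt i) (u • T.E) := by
        have h3 := eig_smul A hu (eig_E A)
        have h4 : u.1 D.theta.1 = T.wt i := congrArg Subtype.val huθ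
        rwa [h4] at h3
      have hone : (u • T.E) T.tp = 1 := by
        show u • (T.E T.tp) = 1
        rw [E_tp A, smul_one]
      obtain ⟨b, hb⟩ := IsLocalization.exist_integer_multiples_of_finite
        (nonZeroDivisors (AA n)) (fun j => q j i)
      choose w hw2 using hb
      have hw3 : ∀ j, f (w j) = f b.1 * q j i := by
        intro j
        have := hw2 j
        rw [hf, this, Algebra.smul_def]
      have hfb : f b.1 ≠ 0 := by
        intro h0
        have h1 : b.1 = 0 := hinj (by rw [h0, map_zero])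
        exact nonZeroDivisors.coe_ne_zero b h1
      have hwE : T.Eig (T.wt i) w := by
        funext j
        apply hinj
        have h3 := congrFun (hcol i) j
        have h4 : f ((T.sx.mulVec w) j) = f b.1 * ((T.sx.map f).mulVec (fun j => q j i)) j := by
          simp only [Matrix.mulVec, dotProduct, map_sum, map_mul, Finset.mul_sum]
          refine Finset.sum_congr rfl fun k _ => ?_
          rw [hw3 k, Matrix.map_apply]
          ring
        rw [h4, h3]
        show _ = f (fm0 (T.wt i) * w j)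
        rw [map_mul, hw3 j]
        ring
      have hprop : w = w T.tp • (u • T.E) := by
        funext j
        have h3 := eig_prop A ⟨T.wt i, hw⟩ hwE huE j T.tp
        rw [hone, mul_one] at h3
        exact h3
      have hδw : δ.mulVec w = 0 := by
        rw [hprop, Matrix.mulVec_smul, hδE u hu, smul_zero]
      have hδq : (δ.map f).mulVec (fun j => q j i) = 0 := by
        funext j
        have h4 : f ((δ.mulVec w) j) = f b.1 * ((δ.map f).mulVec (fun j => q j i)) j := by
          simp only [Matrix.mulVec, dotProduct, map_sum, map_mul, Finset.mul_sum]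
          refine Finset.sum_congr rfl fun k _ => ?_
          rw [hw3 k, Matrix.map_apply]
          ring
        rw [hδw] at h4
        have h5 : f b.1 * ((δ.map f).mulVec (fun j => q j i)) j = 0 := by
          rw [← h4]
          exact map_zero f
        exact (mul_eq_zero.mp h5).resolve_left hfb
      rw [Matrix.map_mul, ← Matrix.mulVec_mulVec, hδq, Matrix.mulVec_zero]
  have h6 : (T.sx * δ).map f * q = 0 := by
    ext j i
    exact congrFun (key i) j
  have h7 : (T.sx * δ).map f = 0 := by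
    have h8 : (T.sx * δ).map f * q * q⁻¹ = 0 := by rw [h6, Matrix.zero_mul]
    rwa [Matrix.mul_nonsing_inv_cancel_right _ _ hq] at h8
  refine Matrix.ext fun j i => ?_
  apply hinj
  have h8 := congrFun (congrFun h7 j) i
  rw [Matrix.map_apply] at h8
  rw [h8]
  exact (map_zero f).symm

omit [Fintype D.W] in
theorem t5d_K (A : TAx T) {d : ℤ} {w : Fin N → AA n} (hw : T.HV d w) (k : Fin N) :
    HZ (d + T.hg k) ((T.K.mulVec w) k) := by
  change HZ _ (∑ i, (MvPolynomial.C (T.kp k i) : AA n) * w i)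
  refine HZ.sum _ _ fun i _ => ?_
  by_cases hk : T.kp k i = 0
  · rw [hk, C_0, zero_mul]
    exact HZ.zero _
  · have h1 := A.kp_wt k i hk
    have h2 : T.hg k + T.hg i = 0 := by
      unfold TD.hg
      rw [← ht_add, h1]
      simp [ht]
    have h3 := HZ.C_mul (T.kp k i) (hw i)
    have h4 : d + T.hg k = d - T.hg i := by omega
    rw [h4]
    exact h3

/-- Degrees: `E j` has degree `ht θ - hg j`, `(K w) k` has degree `ht θ + hg k` for `w = s_θ E, ζ` (`kp_wt`), `a` has
degree `nP0`, so `H j k` has degree `nP0 + 2 ht θ - hg j + hg k - 1` (`HZ.of_mul` for `θ H`), `PI` has degree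
`nP = nP0 + 2 ht θ - 1` (`card_theta`), and `P j k` has degree `hg k - hg j` (`HZ.of_mul`, `HZ.smul`). -/
theorem HZ_P (A : TAx T) (h : PD T sg ζ H P) (j k : Fin N) : HZ (T.hg k - T.hg j) (P j k) := by
  have hE := HV_E A
  have hsE : T.HV (ht D.theta.1) (D.rO D.theta • T.E) := fun i => HZ.smul D _ (hE i)
  have h1 : HZ (D.nP0 + ((ht D.theta.1 - T.hg j) + (ht D.theta.1 + T.hg k)))
      (fm0 D.theta.1 * H j k) := by
    rw [h.hH j k]
    exact D.HZ_PI0.mul (((hE j).mul (t5d_K A hsE k)).sub ((h.hv j).mul (t5d_K A h.hv k)))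
  have h2 := HZ.of_mul (fm0_ne_zero (D.Rt_ne_zero D.theta)) (HZ_fm0 _) h1
  have h3 : HZ (D.nP0 + ((ht D.theta.1 - T.hg j) + (ht D.theta.1 + T.hg k)) - 1)
      (D.PI * P j k) := by
    rw [h.hP j k]
    refine HZ.sum _ _ fun u _ => ?_
    have h4 : ((sg u.1 : ℤ) : AA n) = MvPolynomial.C ((sg u.1 : ℤ) : ℂ) := by
      simp
    rw [h4]
    exact HZ.C_mul _ (HZ.smul D _ h2)
  have h5 := HZ.of_mul D.PI_ne_zero D.HZ_PI h3
  have h6 := D.card_theta
  have h7 : T.hg k - T.hg j =
      D.nP0 + ((ht D.theta.1 - T.hg j) + (ht D.theta.1 + T.hg k)) - 1 - D.nP := by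
    linarith
  rw [h7]
  exact h5

/-- A homogeneous vector of degree `d < 0` killed by `sx` is zero: `w i` has degree `d - hg i`, so `w i ≠ 0` implies
`hg i ≤ d < 0`.  Let `m` be the maximal height with a nonzero coordinate.  At the positions `i` of height `m + 1`:
`0 = (sx w) i = ∑_j sx i j w j`, where `sx i j ≠ 0` implies `hg i ≤ hg j + 1` (`sx_hz`, `HZ.eq_zero`), so only `hg j = m`
contributes, with `sx i j = e i j` (`sx_e`).  So `e` kills the component of `w` of height `m` (at heights `≠ m + 1` by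
`e_wt`), and `e_inj'` gives `0`, a contradiction. -/
theorem ker_sx (A : TAx T) {d : ℤ} (hd : d < 0) {w : Fin N → AA n} (hw : T.HV d w)
    (h : T.sx.mulVec w = 0) : w = 0 := by
  classical
  by_contra hne
  have hex : ∃ i, w i ≠ 0 := by
    by_contra hno
    push Not at hno
    exact hne (funext hno)
  obtain ⟨i1, hi1⟩ := hex
  obtain ⟨i0, hi0, hmax⟩ := Finset.exists_max_image (Finset.univ.filter fun i => w i ≠ 0) T.hg
    ⟨i1, by simpa using hi1⟩
  rw [Finset.mem_filter] at hi0
  have hmax' : ∀ j, w j ≠ 0 → T.hg j ≤ T.hg i0 := fun j hj =>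
    hmax j (by simpa using hj)
  have hneg : T.hg i0 < 0 := by
    by_contra hge
    exact hi0.2 (HZ.eq_zero (by omega) (hw i0))
  have key := e_inj' A hneg (fun i => if T.hg i = T.hg i0 then w i else 0)
    (by
      intro i hi
      by_contra hc
      exact hi (if_neg hc))
    (by
      funext i
      rw [Pi.zero_apply]
      change ∑ j, (T.e.map C) i j * (if T.hg j = T.hg i0 then w j else 0) = 0
      by_cases him : T.hg i = T.hg i0 + 1
      · have h1 := congrFun h i
        rw [Pi.zero_apply] at h1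
        change ∑ j, T.sx i j * w j = 0 at h1
        refine Eq.trans ?_ h1
        refine Finset.sum_congr rfl fun j _ => ?_
        rw [Matrix.map_apply]
        by_cases hj : T.hg j = T.hg i0
        · rw [if_pos hj, A.sx_e i j (by omega)]
        · rw [if_neg hj, mul_zero]
          by_cases hwj : w j = 0
          · rw [hwj, mul_zero]
          · have h2 := hmax' j hwj
            rw [HZ.eq_zero (by omega) (A.sx_hz i j), zero_mul]
      · refine Finset.sum_eq_zero fun j _ => ?_
        by_cases hj : T.hg j = T.hg i0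
        · have h3 : T.e i j = 0 := by
            by_contra hc
            have := A.e_wt i j hc
            omega
          rw [Matrix.map_apply, h3, C_0, zero_mul]
        · rw [if_neg hj, mul_zero])
  have := congrFun key i0
  simp only [if_true, Pi.zero_apply] at this
  exact hi0.2 this

/-- (8.4)  Put `δ = P - c1` (`c1` from `P_E`); `sx δ = 0` (`sx_P`) `= δ sx` (`P_sx`).  We show `δ e_k = 0` (the `k`-th
column) by strong induction on the height of `k`.  If `hg k < 0`: the column is homogeneous of degree `hg k`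
(`HZ_P`; `δ j k` has degree `hg k - hg j`) and killed by `sx`: `ker_sx`.  If `hg k ≥ 0`: `e_k = e w`, `w = r e_k`
supported in height `hg k - 1` (`e_r`, `r_wt`).  `δ (sx w) = 0`, and `sx w - e w` has coordinates only at heights
`< hg k`: (`sx i j w j ≠ 0` implies `hg i ≤ hg j + 1 = hg k`, with `sx i j = e i j` in case of equality), so
`δ (sx w - e w) = 0` by induction.  Hence `δ e_k = δ (e w) = 0`. -/
theorem P_eq (A : TAx T) (h : PD T sg ζ H P) :
    ∃ c1 : ℂ, c1 ≠ 0 ∧ P = (C c1 : AA n) • (1 : Matrix (Fin N) (Fin N) (AA n)) := by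
  obtain ⟨c1, hc1, hc⟩ := P_E A h
  refine ⟨c1, hc1, ?_⟩
  have hsx := sx_P A h hc
  have hPs := P_sx A h
  obtain ⟨δ, hδ⟩ : ∃ δ : Matrix (Fin N) (Fin N) (AA n),
      δ = P - (C c1 : AA n) • (1 : Matrix (Fin N) (Fin N) (AA n)) := ⟨_, rfl⟩
  rw [← hδ] at hsx
  have hδs : δ * T.sx = 0 := by
    have h1 : δ * T.sx = T.sx * δ := by
      rw [hδ, sub_mul, mul_sub, hPs, smul_mul_assoc, mul_smul_comm, one_mul, mul_one]
    rw [h1, hsx]
  have hHZ : ∀ j k, HZ (T.hg k - T.hg j) (δ j k) := by
    intro j k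
    rw [hδ, Matrix.sub_apply, Matrix.smul_apply]
    refine (HZ_P A h j k).sub ?_
    by_cases hjk : j = k
    · rw [hjk, Matrix.one_apply_eq, smul_eq_mul, mul_one, sub_self]
      exact HZ.C c1
    · rw [Matrix.one_apply_ne hjk, smul_zero]
      exact HZ.zero _
  have key : ∀ k, ∀ j, δ j k = 0 := by
    have hwf : WellFounded (fun a b : Fin N => T.hg a < T.hg b) :=
      @Finite.wellFounded_of_trans_of_irrefl (Fin N) _ (fun a b => T.hg a < T.hg b)
        ⟨fun a b c h1 h2 => lt_trans h1 h2⟩ ⟨fun a => lt_irrefl _⟩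
    intro k
    induction k using hwf.induction with
    | _ k ih =>
      by_cases hk : T.hg k < 0
      · have h0 : (fun j => δ j k) = 0 := by
          apply ker_sx A hk (fun j => hHZ j k)
          funext i
          have h1 := congrFun (congrFun hsx i) k
          rw [Matrix.mul_apply] at h1
          exact h1
        intro j
        exact congrFun h0 j
      · have hk' : 0 ≤ T.hg k := not_lt.1 hk
        obtain ⟨w, hw⟩ : ∃ w : Fin N → AA n, w = (T.r.map C).mulVec (Pi.single k 1) := ⟨_, rfl⟩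
        have hew : (T.e.map C).mulVec w = Pi.single k 1 := by
          rw [hw]
          apply e_r' A
          intro i hi
          by_cases hik : i = k
          · rw [hik]
            exact hk'
          · exact absurd (Pi.single_eq_of_ne hik 1) hi
        have hwi : ∀ i, w i = C (T.r i k) := by
          intro i
          rw [hw, Matrix.mulVec_single_one]
          rfl
        have hwg : ∀ i, w i ≠ 0 → T.hg i = T.hg k - 1 := by
          intro i hi
          apply A.r_wt i k
          intro h0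
          apply hi
          rw [hwi, h0, C_0]
        have hv : ∀ i, (T.sx.mulVec w - (T.e.map C).mulVec w) i ≠ 0 → T.hg i < T.hg k := by
          intro i hi
          by_contra hge
          apply hi
          have hge' : T.hg k ≤ T.hg i := not_lt.1 hge
          rw [Pi.sub_apply]
          show ∑ j, T.sx i j * w j - ∑ j, (T.e.map C) i j * w j = 0
          rw [← Finset.sum_sub_distrib]
          refine Finset.sum_eq_zero fun j _ => ?_
          rw [← sub_mul, Matrix.map_apply]
          by_cases hwj : w j = 0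
          · rw [hwj, mul_zero]
          · have hj := hwg j hwj
            rcases hge'.lt_or_eq with hlt | heq
            · have h1 : T.sx i j = 0 := (A.sx_hz i j).eq_zero (by omega)
              have h2 : T.e i j = 0 := by
                by_contra h3
                have := A.e_wt i j h3
                omega
              rw [h1, h2, C_0, sub_zero, zero_mul]
            · rw [A.sx_e i j (by omega), sub_self, zero_mul]
        have hδv : δ.mulVec (T.sx.mulVec w - (T.e.map C).mulVec w) = 0 := by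
          funext i
          show ∑ j, δ i j * (T.sx.mulVec w - (T.e.map C).mulVec w) j = 0
          refine Finset.sum_eq_zero fun j _ => ?_
          by_cases hj : (T.sx.mulVec w - (T.e.map C).mulVec w) j = 0
          · rw [hj, mul_zero]
          · rw [ih j (hv j hj) i, zero_mul]
        have hδsw : δ.mulVec (T.sx.mulVec w) = 0 := by
          rw [Matrix.mulVec_mulVec, hδs, Matrix.zero_mulVec]
        rw [Matrix.mulVec_sub, hδsw, zero_sub, hew, neg_eq_zero] at hδv
        intro j
        have h1 := congrFun hδv j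
        rw [Matrix.mulVec_single_one] at h1
        exact h1
  have h0 : δ = 0 := by
    ext1 j k
    exact key k j
  rw [hδ, sub_eq_zero] at h0
  exact h0

end

end Pool.Agent.MTX
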