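import Pool.Agent.MTX.T5

/-! # MTX, Part T : the retraction datum for the adjoint representation -/

namespace Pool.Agent.MTX

open MvPolynomial SLD

/-- A retraction datum for the representation with matrix `s` (index set `I`) over the word `j`. -/
structure Retr {n : ℕ} (D : SLD n) {I : Type} [Fintype I] [DecidableEq I] (s : Matrix I I (AA n))
    (j : List (Option (Fin n))) (io pi : I → (D.sw0.BS j).M) (c : ℂ) : Prop where
  c_ne : c ≠ 0
  tr : ∀ a b, D.sw0.Tr j (mulM (ring_BS D.sw0 j) (io a) (pi b)) = if a = b then C c else 0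
  io_wt : ∀ q a, ∑ b, s a b * (io b).1 q = fm0 ((D.sw0.BS j).lab q).l * (io a).1 q
  pi_wt : ∀ q b, ∑ a, (pi a).1 q * s a b = fm0 ((D.sw0.BS j).lab q).l * (pi b).1 q
  lab_W : ∀ q, ((D.sw0.BS j).lab q).u ∈ D.W

variable {n N : ℕ} {D : SLD n} {T : TD D N}

/-- the function `(p, 0) ↦ lab p • h0`, `(p, 1) ↦ lab p • h1` -/
noncomputable def el (D : SLD n) (k : List (Option (Fin n))) (h0 h1 : AA n) :
    (D.sw0.BS k).J × Bool → AA n :=
  fun q => (D.sw0.BS k).lab q.1 • (if q.2 then h1 else h0)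

/-- the difference of the two components of `el` -/
theorem t6a_diff (k : List (Option (Fin n))) {h0 h1 g : AA n}
    (h : fm0 D.theta.1 * g = h1 - h0) (p : (D.sw0.BS k).J) :
    (D.sw0.BS k).lab p • h0 - (D.sw0.BS k).lab p • h1 =
      ((D.sw0.BS k).lab p • D.sw0.f none) * ((D.sw0.BS k).lab p • g) := by
  have hf : D.sw0.f none = - fm0 D.theta.1 := fm0_neg D.theta.1
  have h2 : h0 - h1 = D.sw0.f none * g := by
    rw [hf]
    linear_combination h
  rw [← smul_sub, ← smul_mul', h2]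

/-- `p ↦ lab p • g` is in the lattice -/
theorem t6a_mem (k : List (Option (Fin n))) (g : AA n) :
    (fun p => (D.sw0.BS k).lab p • g) ∈ (D.sw0.BS k).M := by
  have h1 := ry_BS D.sw0 k g 1 (ring_BS D.sw0 k).one
  have h2 : (D.sw0.BS k).ry g 1 = fun p => (D.sw0.BS k).lab p • g := by
    funext p
    exact mul_one _
  rwa [h2] at h1

/-- `f none = fm0 (-θ)`.  If `θ g = h1 - h0` then the difference at `p` is `lab p • (h0 - h1) =
(lab p • f none) (lab p • g)`: `n = ry g 1` (`ry_BS`, `ring_BS`). -/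
theorem el_mem (k : List (Option (Fin n))) {h0 h1 g : AA n}
    (h : fm0 D.theta.1 * g = h1 - h0) : el D k h0 h1 ∈ (D.sw0.BS (none :: k)).M := by
  exact Lat.mem_star.2 ⟨t6a_mem k h0, fun p => (D.sw0.BS k).lab p • g, t6a_mem k g,
    fun p => t6a_diff k h p⟩

/-- `Tr (none :: k) m = Tr k (trM m)` and `trM (el h0 h1) = ry g 1` (`trM_unique`), where `θ g = h1 - h0`. -/
theorem Tr_el (k : List (Option (Fin n))) {h0 h1 g : AA n} (h : fm0 D.theta.1 * g = h1 - h0)
    (hm : el D k h0 h1 ∈ (D.sw0.BS (none :: k)).M)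
    (hg : (D.sw0.BS k).ry g 1 ∈ (D.sw0.BS k).M) :
    D.sw0.Tr (none :: k) ⟨el D k h0 h1, hm⟩ = D.sw0.Tr k ⟨(D.sw0.BS k).ry g 1, hg⟩ := by
  have key : trM (D.sw0.g none) (D.sw0.BS k) (D.sw0.f_ne none) ⟨el D k h0 h1, hm⟩ =
      ⟨(D.sw0.BS k).ry g 1, hg⟩ := by
    apply Subtype.ext
    apply trM_unique
    intro p
    have h2 : (D.sw0.BS k).ry g 1 p = (D.sw0.BS k).lab p • g := mul_one _
    exact (t6a_diff k h p).trans
      (congrArg (fun z => ((D.sw0.BS k).lab p • D.sw0.f none) * z) h2.symm)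
  have h3 : D.sw0.Tr (none :: k) ⟨el D k h0 h1, hm⟩ =
      D.sw0.Tr k (trM (D.sw0.g none) (D.sw0.BS k) (D.sw0.f_ne none) ⟨el D k h0 h1, hm⟩) := rfl
  rw [h3, key]

/-- isometries commute with the form `K` -/
theorem t6_Kw (T : TD D N) (u : D.OQ) (w : Fin N → AA n) (a : Fin N) :
    u • (T.K.mulVec w) a = (T.K.mulVec (u • w)) a := by
  show u • (∑ j, T.K a j * w j) = ∑ j, T.K a j * (u • w) j
  rw [Finset.smul_sum]
  refine Finset.sum_congr rfl fun j _ => ?_
  rw [smul_mul']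
  congr 1
  exact D.smul_C u _

theorem t6_sum (A : TAx T) {μ : Fin n → ℤ} {w : Fin N → AA n} (hw : T.Eig μ w) (b : Fin N) :
    ∑ a, (T.K.mulVec w) a * T.sx a b = - (fm0 μ * (T.K.mulVec w) b) := by
  have h1 : (T.sx.transpose * T.K).mulVec w + (T.K * T.sx).mulVec w = 0 := by
    rw [← Matrix.add_mulVec, A.sx_kp, Matrix.zero_mulVec]
  have h2 := congrFun h1 b
  rw [Pi.add_apply, Pi.zero_apply, ← Matrix.mulVec_mulVec, ← Matrix.mulVec_mulVec] at h2
  have h3 : T.sx.mulVec w = fm0 μ • w := hw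
  rw [h3, Matrix.mulVec_smul, Pi.smul_apply, smul_eq_mul] at h2
  have h4 : (T.sx.transpose.mulVec (T.K.mulVec w)) b = ∑ a, (T.K.mulVec w) a * T.sx a b := by
    show ∑ a, T.sx a b * (T.K.mulVec w) a = _
    exact Finset.sum_congr rfl fun a _ => mul_comm _ _
  rw [h4] at h2
  exact eq_neg_of_add_eq_zero_left h2

theorem t6_dvdK (T : TD D N) {p : AA n} {w w' : Fin N → AA n} (h : ∀ i, p ∣ w i - w' i)
    (b : Fin N) : p ∣ (T.K.mulVec w) b - (T.K.mulVec w') b := by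
  have h1 : (T.K.mulVec w) b - (T.K.mulVec w') b = ∑ j, T.K b j * (w j - w' j) := by
    show ∑ j, T.K b j * w j - ∑ j, T.K b j * w' j = _
    rw [← Finset.sum_sub_distrib]
    exact Finset.sum_congr rfl fun j _ => by ring
  rw [h1]
  exact Finset.dvd_sum fun j _ => Dvd.dvd.mul_left (h j) _

theorem t6_lab_none (D : SLD n) (k : List (Option (Fin n))) (p : (D.sw0.BS k).J)
    (h0 : ((D.sw0.BS k).lab p).l = 0) :
    ((D.sw0.BS (none :: k)).lab (p, true)).l = ((D.sw0.BS k).lab p).u.1 D.theta.1 ∧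
      ((D.sw0.BS (none :: k)).lab (p, true)).u = ((D.sw0.BS k).lab p).u * D.rO D.theta := by
  have h1 : (D.sw0.BS (none :: k)).lab (p, true) = (D.sw0.BS k).lab p * D.aref (D.aal none) := rfl
  have h2 : (D.aref (D.aal none)).l = D.theta.1 := by
    show -((1 : ℤ) • (-D.theta.1)) = D.theta.1
    rw [one_smul, neg_neg]
  have h3 : (D.aref (D.aal none)).u = D.rO D.theta := by
    show D.rO (D.ng D.theta) = _
    exact D.rO_ng _
  refine ⟨?_, ?_⟩
  · rw [h1, mul_l, h0, h2, zero_add]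
  · rw [h1, mul_u, h3]

/-- the weights of the elements `pi` -/
theorem t6_pi (A : TAx T) {u : D.OQ} (hu : u ∈ D.W) (a₀ : AA n) {μ : Fin n → ℤ}
    {w : Fin N → AA n} (hw : T.Eig μ w) (b : Fin N) :
    ∑ a, (u • (a₀ * (T.K.mulVec w) a)) * T.sx a b =
      - fm0 (u.1 μ) * (u • (a₀ * (T.K.mulVec w) b)) := by
  have h1 : ∀ a, (u • (a₀ * (T.K.mulVec w) a)) * T.sx a b =
      (u • a₀) * ((T.K.mulVec (u • w)) a * T.sx a b) := by
    intro a
    rw [smul_mul', t6_Kw, mul_assoc]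
  simp only [h1]
  rw [← Finset.mul_sum, t6_sum A (eig_smul A hu hw), smul_mul', t6_Kw]
  ring

/-- (8.4)  The hypothesis `hk` is the formula for the total trace over the word `k` (of the longest element).
`io a := el (ζ a) (E a)`, `pi b := el (a₀ (K ζ) b) (a₀ (K s_θ E) b)`, `a₀ = PI0 θ`, `ζ` from `exists_zeta`
(membership: `el_mem`; `E ≡ s_θ E` modulo `θ` by `fm0_dvd_sub`).  Products of `el` are `el` of the products, so with
`H` from `exists_H`, `Tr (io a * pi b) = Tr k (ry (H a b) 1) =: P a b` (`Tr_el`: `θ H a b = E a a₀ (K s_θ E) b -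
ζ a a₀ (K ζ) b`), and `hk` says `PI P a b = ∑ sg u (u H a b)`: so `PD` holds and `P_eq` gives `tr`.
Weights: the label of `(p, 0)` is `lab p = (0, u)`, `u ∈ W`, and that of `(p, 1)` is `(0, u) s_0 = (u θ, u s_θ)`
(`aref (ng θ, 1) = (θ, s_θ)`).  `io_wt` at `(p, 1)`: `sx (u E) = (u θ) (u E)` (`eig_smul`); at `(p, 0)`: `sx (u ζ) = 0`.
`pi_wt`: `∑_a (K w) a s a b = (sxᵀ K w) b = - (K sx w) b` (`sx_kp`), with `w = u s_θ E` of weight `- u θ`, or `u ζ`. -/
theorem exists_retr (A : TAx T) (sg : D.OQ → ℤ) [Fintype D.W]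
    (sg_PI : ∀ u ∈ D.W, u • D.PI = (sg u : AA n) * D.PI)
    (sg_sq : ∀ u ∈ D.W, sg u * sg u = 1) (k : List (Option (Fin n)))
    (hl : ∀ p, ((D.sw0.BS k).lab p).l = 0 ∧ ((D.sw0.BS k).lab p).u ∈ D.W)
    (hk : ∀ (f : AA n) (hf : (D.sw0.BS k).ry f 1 ∈ (D.sw0.BS k).M),
      D.PI * D.sw0.Tr k ⟨(D.sw0.BS k).ry f 1, hf⟩ = ∑ u : D.W, (sg u.1 : AA n) * (u.1 • f)) :
    ∃ (io pi : Fin N → (D.sw0.BS (none :: k)).M) (c : ℂ),
      Retr D T.sx (none :: k) io pi c := by
  obtain ⟨ζ, hζe, hζd, hζv⟩ := exists_zeta A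
  obtain ⟨H, hH⟩ := exists_H (T := T) ζ hζd
  set a₀ : AA n := D.PI0 D.theta.1 with ha₀
  set w₁ : Fin N → AA n := D.rO D.theta • T.E with hw₁
  -- divisibility
  have hdE : ∀ a, fm0 D.theta.1 ∣ T.E a - ζ a := by
    intro a
    have h := hζd a
    rw [← dvd_neg, neg_sub] at h
    exact h
  have hdw : ∀ a, fm0 D.theta.1 ∣ w₁ a - ζ a := by
    intro a
    have h1 : fm0 D.theta.1 ∣ T.E a - w₁ a := D.fm0_dvd_sub D.theta (T.E a)
    have h2 : w₁ a - ζ a = (T.E a - ζ a) - (T.E a - w₁ a) := by ring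
    rw [h2]
    exact dvd_sub (hdE a) h1
  choose gE hgE using hdE
  have hdK : ∀ b, ∃ g, fm0 D.theta.1 * g =
      a₀ * (T.K.mulVec w₁) b - a₀ * (T.K.mulVec ζ) b := by
    intro b
    obtain ⟨g, hg⟩ := t6_dvdK T hdw b
    exact ⟨a₀ * g, by rw [← mul_sub, hg]; ring⟩
  choose gK hgK using hdK
  have hry : ∀ f : AA n, (D.sw0.BS k).ry f 1 ∈ (D.sw0.BS k).M := fun f =>
    ry_BS D.sw0 k f 1 (ring_BS D.sw0 k).one
  let io : Fin N → (D.sw0.BS (none :: k)).M := fun a => ⟨el D k (ζ a) (T.E a), el_mem k (hgE a).symm⟩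
  let pi : Fin N → (D.sw0.BS (none :: k)).M := fun b =>
    ⟨el D k (a₀ * (T.K.mulVec ζ) b) (a₀ * (T.K.mulVec w₁) b), el_mem k (hgK b)⟩
  let P : Matrix (Fin N) (Fin N) (AA n) := fun a b =>
    D.sw0.Tr k ⟨(D.sw0.BS k).ry (H a b) 1, hry _⟩
  have hPD : PD T sg ζ H P :=
    { sg_PI := sg_PI
      sg_sq := sg_sq
      eig := hζe
      hv := hζv
      hH := hH
      hP := fun a b => hk (H a b) (hry _) }
  obtain ⟨c1, hc1, hP⟩ := P_eq A hPD
  have hww : T.Eig (-D.theta.1) w₁ := by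
    have h := eig_smul A (D.rO_mem D.theta) (eig_E A)
    have h2 : (D.rO D.theta).1 D.theta.1 = - D.theta.1 := congrArg Subtype.val (D.rO_self D.theta)
    rw [h2] at h
    exact h
  refine ⟨io, pi, c1, ?_⟩
  refine
    { c_ne := hc1
      tr := ?_
      io_wt := ?_
      pi_wt := ?_
      lab_W := ?_ }
  · intro a b
    have hθ : fm0 D.theta.1 * H a b =
        T.E a * (a₀ * (T.K.mulVec w₁) b) - ζ a * (a₀ * (T.K.mulVec ζ) b) := by
      rw [hH a b]; ring
    have hprod : mulM (ring_BS D.sw0 (none :: k)) (io a) (pi b) =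
        ⟨el D k (ζ a * (a₀ * (T.K.mulVec ζ) b)) (T.E a * (a₀ * (T.K.mulVec w₁) b)),
          el_mem k hθ⟩ := by
      apply Subtype.ext
      funext q
      obtain ⟨p, e⟩ := q
      cases e with
      | false => exact (smul_mul' ((D.sw0.BS k).lab p) (ζ a) (a₀ * (T.K.mulVec ζ) b)).symm
      | true => exact (smul_mul' ((D.sw0.BS k).lab p) (T.E a) (a₀ * (T.K.mulVec w₁) b)).symm
    rw [hprod, Tr_el k hθ _ (hry _)]
    have h1 : P a b = if a = b then C c1 else 0 := by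
      rw [hP, Matrix.smul_apply, Matrix.one_apply]
      split_ifs <;> simp
    exact h1
  · rintro ⟨p, e⟩ a
    obtain ⟨h0, hu⟩ := hl p
    cases e with
    | false =>
      have h1 : ((D.sw0.BS (none :: k)).lab (p, false)).l = 0 := h0
      rw [h1, fm0_zero, zero_mul]
      have h2 := congrFun (eig_smul A hu hζe) a
      rw [map_zero, fm0_zero, zero_smul] at h2
      exact h2
    | true =>
      rw [(t6_lab_none D k p h0).1]
      exact congrFun (eig_smul A hu (eig_E A)) a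
  · rintro ⟨p, e⟩ b
    obtain ⟨h0, hu⟩ := hl p
    cases e with
    | false =>
      have h1 : ((D.sw0.BS (none :: k)).lab (p, false)).l = 0 := h0
      rw [h1, fm0_zero, zero_mul]
      have h2 := t6_pi A hu a₀ hζe b
      rw [map_zero, fm0_zero, neg_zero, zero_mul] at h2
      exact h2
    | true =>
      rw [(t6_lab_none D k p h0).1]
      have h2 := t6_pi A hu a₀ hww b
      rw [map_neg, fm0_neg, neg_neg] at h2
      exact h2
  · rintro ⟨p, e⟩
    obtain ⟨h0, hu⟩ := hl p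
    cases e with
    | false => exact hu
    | true =>
      rw [(t6_lab_none D k p h0).2]
      exact D.W.mul_mem hu (D.rO_mem _)

end Pool.Agent.MTX
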