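import Pool.Agent.MTX.T6

/-! # MTX, Part T : (8.5), tensor powers -/

namespace Pool.Agent.MTX

open MvPolynomial SLD

variable {n N : ℕ} {D : SLD n}

/-- the matrix of a tensor product -/
def tenS {I J : Type} [DecidableEq I] [DecidableEq J] {R : Type} [CommRing R] (s : Matrix I I R)
    (s' : Matrix J J R) : Matrix (I × J) (I × J) R :=
  fun x y => s x.1 y.1 * (if x.2 = y.2 then 1 else 0) + (if x.1 = y.1 then 1 else 0) * s' x.2 y.2

/-- The word lattice with its trace, under concatenation. -/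
theorem t7a_pair (j j' : List (Option (Fin n))) :
    (⟨D.sw0.BS (j' ++ j), D.sw0.Tr (j' ++ j)⟩ : Σ L : Lat (AA n) D.Aff, L.M →ₗ[AA n] AA n) =
      ⟨D.sw0.words (D.sw0.BS j) j', D.sw0.Tr j ∘ₗ D.sw0.tr (D.sw0.BS j) j'⟩ := by
  induction j' with
  | nil => rfl
  | cons s k ih =>
    exact congrArg (fun x : Σ L : Lat (AA n) D.Aff, L.M →ₗ[AA n] AA n =>
      (⟨Lat.star (D.sw0.f s) (D.sw0.g s) x.1, x.2 ∘ₗ trM (D.sw0.g s) x.1 (D.sw0.f_ne s)⟩ :
        Σ L : Lat (AA n) D.Aff, L.M →ₗ[AA n] AA n)) ih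

/-- The conditions of a retraction datum, for a lattice with a trace. -/
def t7a_Q {I : Type} [Fintype I] [DecidableEq I] (s : Matrix I I (AA n)) (c : ℂ)
    (x : Σ L : Lat (AA n) D.Aff, L.M →ₗ[AA n] AA n) : Prop :=
  ∃ (hr : RingLat x.1) (io pi : I → x.1.M),
    (∀ a b, x.2 (mulM hr (io a) (pi b)) = if a = b then C c else 0) ∧
    (∀ q a, ∑ b, s a b * (io b).1 q = fm0 (x.1.lab q).l * (io a).1 q) ∧
    (∀ q b, ∑ a, (pi a).1 q * s a b = fm0 (x.1.lab q).l * (pi b).1 q) ∧
    (∀ q, (x.1.lab q).u ∈ D.W)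

/-- A sum over pairs against `tenS`. -/
theorem t7a_sum {I J : Type} [Fintype I] [DecidableEq I] [Fintype J] [DecidableEq J]
    (s : Matrix I I (AA n)) (s' : Matrix J J (AA n)) (v : I → AA n) (v' : J → AA n) (a : I) (a' : J)
    {x y : AA n} (h1 : ∑ b, s a b * v b = x * v a) (h2 : ∑ b', s' a' b' * v' b' = y * v' a') :
    ∑ b : I × J, tenS s s' (a, a') b * (v b.1 * v' b.2) = (x + y) * (v a * v' a') := by
  rw [Fintype.sum_prod_type]
  have h3 : ∀ b : I, ∑ b' : J, tenS s s' (a, a') (b, b') * (v (b, b').1 * v' (b, b').2) =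
      s a b * v b * v' a' + (if a = b then v b * (y * v' a') else 0) := by
    intro b
    have h4 : ∀ b' : J, tenS s s' (a, a') (b, b') * (v (b, b').1 * v' (b, b').2) =
        (if a' = b' then s a b * v b * v' b' else 0) +
          (if a = b then v b else 0) * (s' a' b' * v' b') := by
      intro b'
      show (s a b * (if a' = b' then 1 else 0) + (if a = b then 1 else 0) * s' a' b') *
        (v b * v' b') = _
      split_ifs <;> ring
    rw [Finset.sum_congr rfl fun b' _ => h4 b', Finset.sum_add_distrib, ← Finset.mul_sum, h2,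
      Finset.sum_ite_eq, if_pos (Finset.mem_univ _)]
    split_ifs
    · rfl
    · rw [zero_mul]
  rw [Finset.sum_congr rfl fun b _ => h3 b, Finset.sum_add_distrib, Finset.sum_ite_eq,
    if_pos (Finset.mem_univ _), ← Finset.sum_mul, h1]
  ring

/-- `tenS` and the transposition. -/
theorem t7a_transpose {I J : Type} [DecidableEq I] [DecidableEq J]
    (s : Matrix I I (AA n)) (s' : Matrix J J (AA n)) (x y : I × J) :
    tenS s s' x y = tenS s.transpose s'.transpose y x := by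
  exact congrArg₂ (fun u v => s x.1 y.1 * u + v * s' x.2 y.2)
    (if_congr eq_comm rfl rfl) (if_congr eq_comm rfl rfl)

/-- `w (s' v) = s' (w v)` for the `W`-invariant matrix `s'`. -/
theorem t7a_smul {J : Type} [Fintype J] (w : D.Aff) (x : J → AA n) (v : J → AA n) (r t : AA n)
    (hx : ∀ b, w.u • x b = x b) (h : ∑ b, x b * v b = r * t) :
    ∑ b, x b * (w • v b) = (w.u • r) * (w • t) := by
  have h1 : w • (∑ b, x b * v b) = w • (r * t) := congrArg (fun z => w • z) h
  rw [Finset.smul_sum, smul_mul'] at h1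
  rw [show (w.u • r : AA n) = w • r from rfl, ← h1]
  refine Finset.sum_congr rfl fun b _ => ?_
  rw [smul_mul', D.Aff_smul_A w (x b), hx b]

/-- The tensor product of two retraction data. -/
theorem t7a_main {I J : Type} [Fintype I] [DecidableEq I] [Fintype J] [DecidableEq J]
    {s : Matrix I I (AA n)} {s' : Matrix J J (AA n)} {j j' : List (Option (Fin n))}
    {io pi : I → (D.sw0.BS j).M} {io' pi' : J → (D.sw0.BS j').M} {c c' : ℂ}
    (h : Retr D s j io pi c) (h' : Retr D s' j' io' pi' c')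
    (hs' : ∀ u ∈ D.W, ∀ a b, u • s' a b = s' a b) :
    t7a_Q (tenS s s') (c * c') (⟨D.sw0.words (D.sw0.BS j) j',
      D.sw0.Tr j ∘ₗ D.sw0.tr (D.sw0.BS j) j'⟩ : Σ L : Lat (AA n) D.Aff, L.M →ₗ[AA n] AA n) := by
  have hL : RyLat (D.sw0.BS j) := ry_BS D.sw0 j
  have hR : RingLat (D.sw0.BS j) := ring_BS D.sw0 j
  have hR' : RingLat (D.sw0.words (D.sw0.BS j) j') := ring_words D.sw0 hL hR j'
  refine ⟨hR', fun x => ⟨ten D.sw0 (D.sw0.BS j) j' (io x.1).1 (io' x.2).1,
      ten_mem D.sw0 hL j' (io x.1).2 (io' x.2).2⟩,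
    fun x => ⟨ten D.sw0 (D.sw0.BS j) j' (pi x.1).1 (pi' x.2).1,
      ten_mem D.sw0 hL j' (pi x.1).2 (pi' x.2).2⟩, ?_, ?_, ?_, ?_⟩
  · rintro ⟨a, a'⟩ ⟨b, b'⟩
    set m : (D.sw0.BS j).M := mulM hR (io a) (pi b) with hm
    set m' : (D.sw0.BS j').M := mulM (ring_BS D.sw0 j') (io' a') (pi' b') with hm'
    have e1 : mulM hR' ⟨ten D.sw0 (D.sw0.BS j) j' (io a).1 (io' a').1,
          ten_mem D.sw0 hL j' (io a).2 (io' a').2⟩
        ⟨ten D.sw0 (D.sw0.BS j) j' (pi b).1 (pi' b').1,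
          ten_mem D.sw0 hL j' (pi b).2 (pi' b').2⟩ =
        ⟨ten D.sw0 (D.sw0.BS j) j' m.1 m'.1, ten_mem D.sw0 hL j' m.2 m'.2⟩ :=
      Subtype.ext (ten_mul D.sw0 (D.sw0.BS j) j' (io a).1 (pi b).1 (io' a').1 (pi' b').1).symm
    have hT : D.sw0.Tr j' m' = if a' = b' then C c' else 0 := h'.tr a' b'
    have e2 : D.sw0.tr (D.sw0.BS j) j' ⟨ten D.sw0 (D.sw0.BS j) j' m.1 m'.1,
        ten_mem D.sw0 hL j' m.2 m'.2⟩ = (if a' = b' then C c' else (0 : AA n)) • m := by
      apply Subtype.ext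
      funext p
      rw [tr_ten D.sw0 hL j' m m' p, hT]
      show m.1 p * _ = (if a' = b' then C c' else (0 : AA n)) * m.1 p
      split_ifs
      · rw [D.Aff_smul_A, D.smul_C, mul_comm]
      · rw [smul_zero, mul_zero, zero_mul]
    show D.sw0.Tr j (D.sw0.tr (D.sw0.BS j) j' (mulM hR'
      ⟨ten D.sw0 (D.sw0.BS j) j' (io a).1 (io' a').1, ten_mem D.sw0 hL j' (io a).2 (io' a').2⟩
      ⟨ten D.sw0 (D.sw0.BS j) j' (pi b).1 (pi' b').1, ten_mem D.sw0 hL j' (pi b).2 (pi' b').2⟩)) = _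
    rw [e1, e2, map_smul, smul_eq_mul, hm, h.tr a b]
    by_cases h1 : a = b <;> by_cases h2 : a' = b' <;> simp [h1, h2, mul_comm]
  · rintro q ⟨a, a'⟩
    obtain ⟨⟨p, q'⟩, rfl⟩ := (catE D.sw0 (D.sw0.BS j) j').surjective q
    show ∑ b : I × J, tenS s s' (a, a') b *
      ten D.sw0 (D.sw0.BS j) j' (io b.1).1 (io' b.2).1 (catE D.sw0 (D.sw0.BS j) j' (p, q')) =
      fm0 ((D.sw0.words (D.sw0.BS j) j').lab (catE D.sw0 (D.sw0.BS j) j' (p, q'))).l *
      ten D.sw0 (D.sw0.BS j) j' (io a).1 (io' a').1 (catE D.sw0 (D.sw0.BS j) j' (p, q'))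
    rw [cat_lab, D.mul_l, fm0_add, ten_cat,
      Finset.sum_congr rfl fun b _ => congrArg (fun z => tenS s s' (a, a') b * z)
        (ten_cat D.sw0 (D.sw0.BS j) j' (io b.1).1 (io' b.2).1 p q')]
    rw [← D.smul_fm0]
    exact t7a_sum s s' (fun b => (io b).1 p) (fun b' => (D.sw0.BS j).lab p • (io' b').1 q') a a'
      (h.io_wt p a) (t7a_smul ((D.sw0.BS j).lab p) (fun b' => s' a' b')
        (fun b' => (io' b').1 q') _ _ (fun b' => hs' _ (h.lab_W p) a' b') (h'.io_wt q' a'))
  · rintro q ⟨b, b'⟩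
    obtain ⟨⟨p, q'⟩, rfl⟩ := (catE D.sw0 (D.sw0.BS j) j').surjective q
    show ∑ a : I × J,
      ten D.sw0 (D.sw0.BS j) j' (pi a.1).1 (pi' a.2).1 (catE D.sw0 (D.sw0.BS j) j' (p, q')) *
        tenS s s' a (b, b') =
      fm0 ((D.sw0.words (D.sw0.BS j) j').lab (catE D.sw0 (D.sw0.BS j) j' (p, q'))).l *
      ten D.sw0 (D.sw0.BS j) j' (pi b).1 (pi' b').1 (catE D.sw0 (D.sw0.BS j) j' (p, q'))
    have e1 : ∀ a : I × J,
        ten D.sw0 (D.sw0.BS j) j' (pi a.1).1 (pi' a.2).1 (catE D.sw0 (D.sw0.BS j) j' (p, q')) *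
          tenS s s' a (b, b') =
        tenS s.transpose s'.transpose (b, b') a *
          ((pi a.1).1 p * ((D.sw0.BS j).lab p • (pi' a.2).1 q')) := by
      intro a
      rw [ten_cat, t7a_transpose s s' a (b, b'), mul_comm]
    rw [cat_lab, D.mul_l, fm0_add, ten_cat, Finset.sum_congr rfl fun a _ => e1 a]
    rw [← D.smul_fm0]
    have e2 : ∑ a, s.transpose b a * (pi a).1 p = fm0 ((D.sw0.BS j).lab p).l * (pi b).1 p := by
      rw [← h.pi_wt p b]
      exact Finset.sum_congr rfl fun a _ => mul_comm _ _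
    have e3 : ∑ a, s'.transpose b' a * (pi' a).1 q' =
        fm0 ((D.sw0.BS j').lab q').l * (pi' b').1 q' := by
      rw [← h'.pi_wt q' b']
      exact Finset.sum_congr rfl fun a _ => mul_comm _ _
    exact t7a_sum s.transpose s'.transpose (fun b => (pi b).1 p)
      (fun b' => (D.sw0.BS j).lab p • (pi' b').1 q') b b' e2
      (t7a_smul ((D.sw0.BS j).lab p) (fun a => s'.transpose b' a)
        (fun b' => (pi' b').1 q') _ _ (fun a => hs' _ (h.lab_W p) a b') e3)
  · intro q
    obtain ⟨⟨p, q'⟩, rfl⟩ := (catE D.sw0 (D.sw0.BS j) j').surjective q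
    show ((D.sw0.words (D.sw0.BS j) j').lab (catE D.sw0 (D.sw0.BS j) j' (p, q'))).u ∈ D.W
    rw [cat_lab, D.mul_u]
    exact D.W.mul_mem (h.lab_W p) (h'.lab_W q')

/-- The word of the tensor product is `j' ++ j` (head = last letter).
`BS (j' ++ j) = words (BS j) j'` (`words_append`, `rfl` for `BS`).  `io (a, a') := ten (io a) (io' a')`,
`pi (b, b') := ten (pi b) (pi' b')` (`ten_mem` with `ry_BS`), `c := c c'`.
`tr`: `ten_mul`, and `Tr (j' ++ j) m = Tr j (tr (BS j) j' m)` (unfold `Tr`, `tr`, induction on `j'`), `tr_ten`: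
`tr (ten m m') = ry (Tr m') m`, where `Tr j' (io' a' * pi' b')` is a constant, on which `lab p` acts trivially.
Weights: at the index `(p, q)` (`catE`, `cat_lab`, `ten_cat`) the label is `lab p * lab q`, whose `l` is
`(lab p).l + (lab p).u (lab q).l`; the first summand of `tenS` gives `fm0 (lab p).l`; for the second one
`∑_{b'} s' a' b' (lab p • io' b' q) = lab p • ∑ s' a' b' io' b' q = lab p • (fm0 (lab q).l * io' a' q)`, as `s'` is
`W`-invariant (`hs'`) and `(lab p).u ∈ W`; `smul_fm0`.  (Everything can be transported along `words_append`;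
it may be convenient to prove the theorem first for `words (BS j) j'` in place of `BS (j' ++ j)`.) -/
theorem retr_ten {I J : Type} [Fintype I] [DecidableEq I] [Fintype J] [DecidableEq J]
    {s : Matrix I I (AA n)} {s' : Matrix J J (AA n)} {j j' : List (Option (Fin n))}
    {io pi : I → (D.sw0.BS j).M} {io' pi' : J → (D.sw0.BS j').M} {c c' : ℂ}
    (h : Retr D s j io pi c) (h' : Retr D s' j' io' pi' c')
    (hs' : ∀ u ∈ D.W, ∀ a b, u • s' a b = s' a b) :
    ∃ io'' pi'' : I × J → (D.sw0.BS (j' ++ j)).M,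
      Retr D (tenS s s') (j' ++ j) io'' pi'' (c * c') := by
  have key : t7a_Q (tenS s s') (c * c') (⟨D.sw0.BS (j' ++ j), D.sw0.Tr (j' ++ j)⟩ :
      Σ L : Lat (AA n) D.Aff, L.M →ₗ[AA n] AA n) := by
    rw [t7a_pair j j']
    exact t7a_main h h' hs'
  obtain ⟨hr, io'', pi'', h1, h2, h3, h4⟩ := key
  exact ⟨io'', pi'', mul_ne_zero h.c_ne h'.c_ne, h1, h2, h3, h4⟩

/-- Reindexing along an equivalence. -/
theorem retr_equiv {I J : Type} [Fintype I] [DecidableEq I] [Fintype J] [DecidableEq J]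
    (φ : J ≃ I) {s : Matrix I I (AA n)} {j : List (Option (Fin n))}
    {io pi : I → (D.sw0.BS j).M} {c : ℂ} (h : Retr D s j io pi c) :
    Retr D (s.submatrix φ φ) j (io ∘ φ) (pi ∘ φ) c where
  c_ne := h.c_ne
  tr a b := by
    have h1 := h.tr (φ a) (φ b)
    simp only [φ.injective.eq_iff] at h1
    exact h1
  io_wt q a := by
    have h1 := h.io_wt q (φ a)
    have h2 := Equiv.sum_comp φ (fun b => s (φ a) b * (io b).1 q)
    exact h2.trans h1
  pi_wt q b := by
    have h1 := h.pi_wt q (φ b)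
    have h2 := Equiv.sum_comp φ (fun a => (pi a).1 q * s a (φ b))
    exact h2.trans h1
  lab_W := h.lab_W

/-- the matrix of the `m`-th tensor power -/
def powS {R : Type} [CommRing R] (s : Matrix (Fin N) (Fin N) R) (m : ℕ) :
    Matrix (Fin m → Fin N) (Fin m → Fin N) R :=
  fun x y => ∑ r, s (x r) (y r) * ∏ r' ∈ Finset.univ.erase r, (if x r' = y r' then 1 else 0)

theorem t7b_erase {R : Type} [CommRing R] {m : ℕ} (a : Fin m) (f : Fin m → R) :
    ∏ r ∈ Finset.univ.erase a, f r = ∏ r, (if r = a then 1 else f r) := by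
  rw [← Finset.filter_ne' Finset.univ a, Finset.prod_filter]
  refine Finset.prod_congr rfl fun r _ => ?_
  by_cases h : r = a
  · rw [if_pos h, if_neg (fun h' => h' h)]
  · rw [if_neg h, if_pos h]

theorem t7b_inv {s : Matrix (Fin N) (Fin N) (AA n)} (hs : ∀ u ∈ D.W, ∀ a b, u • s a b = s a b)
    (m : ℕ) : ∀ u ∈ D.W, ∀ a b, u • powS s m a b = powS s m a b := by
  intro u hu a b
  unfold powS
  rw [Finset.smul_sum]
  refine Finset.sum_congr rfl fun r _ => ?_
  rw [smul_mul', hs u hu, Finset.smul_prod']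
  congr 1
  refine Finset.prod_congr rfl fun r' _ => ?_
  split_ifs
  · exact smul_one u
  · exact smul_zero u

/-- `powS s (m + 1)` is `tenS (powS s m) s` under `(Fin (m + 1) → Fin N) ≃ (Fin m → Fin N) × Fin N`
(`Fin.snoc`/`Fin.init`), or `tenS s (powS s m)` for `Fin.cons`; choose one. -/
theorem powS_succ {R : Type} [CommRing R] (s : Matrix (Fin N) (Fin N) R) (m : ℕ) :
    ∃ φ : (Fin (m + 1) → Fin N) ≃ Fin N × (Fin m → Fin N),
      (∀ x, φ x = (x 0, fun r => x r.succ)) ∧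
      powS s (m + 1) = (tenS s (powS s m)).submatrix φ φ := by
  refine ⟨{ toFun := fun x => (x 0, fun r => x r.succ)
            invFun := fun p => Fin.cons p.1 p.2
            left_inv := fun x => ?_
            right_inv := fun p => ?_ }, fun x => rfl, ?_⟩
  · funext r
    refine Fin.cases ?_ (fun r => ?_) r
    · rfl
    · rfl
  · rfl
  · ext x y
    show powS s (m + 1) x y = s (x 0) (y 0) *
        (if (fun r : Fin m => x r.succ) = (fun r : Fin m => y r.succ) then 1 else 0) +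
      (if x 0 = y 0 then 1 else 0) * powS s m (fun r => x r.succ) (fun r => y r.succ)
    unfold powS
    rw [Fin.sum_univ_succ]
    have h0 : ∏ r' ∈ Finset.univ.erase (0 : Fin (m + 1)), (if x r' = y r' then (1 : R) else 0) =
        (if (fun r : Fin m => x r.succ) = (fun r : Fin m => y r.succ) then 1 else 0) := by
      rw [t7b_erase, Fin.prod_univ_succ, if_pos rfl, one_mul]
      have h1 : ∀ i : Fin m, (if i.succ = (0 : Fin (m + 1)) then (1 : R) else
          if x i.succ = y i.succ then 1 else 0) = if x i.succ = y i.succ then 1 else 0 := by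
        intro i
        rw [if_neg (Fin.succ_ne_zero i)]
      rw [Finset.prod_congr rfl (fun i _ => h1 i), Finset.prod_boole]
      simp only [Finset.mem_univ, true_imp_iff, funext_iff]
    have h2 : ∀ i : Fin m, ∏ r' ∈ Finset.univ.erase i.succ, (if x r' = y r' then (1 : R) else 0) =
        (if x 0 = y 0 then 1 else 0) *
          ∏ r' ∈ Finset.univ.erase i, (if x r'.succ = y r'.succ then (1 : R) else 0) := by
      intro i
      rw [t7b_erase, Fin.prod_univ_succ, if_neg (Fin.succ_ne_zero i).symm, t7b_erase]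
      simp only [Fin.succ_inj]
    rw [h0]
    congr 1
    rw [Finset.mul_sum]
    refine Finset.sum_congr rfl fun i _ => ?_
    rw [h2]
    ring

/-- Induction on `m`.  `m = 0`: `powS s 0 = 0`, `j = []`, `BS [] = base 1`, `io = pi = 1`, `c = 1`.  Step: `powS_succ`,
`retr_ten` (`powS s m` is `W`-invariant), `retr_equiv`. -/
theorem retr_pow {s : Matrix (Fin N) (Fin N) (AA n)} (hs : ∀ u ∈ D.W, ∀ a b, u • s a b = s a b)
    {j : List (Option (Fin n))} {io pi : Fin N → (D.sw0.BS j).M} {c : ℂ}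
    (h : Retr D s j io pi c) (m : ℕ) :
    ∃ (j' : List (Option (Fin n))) (io' pi' : (Fin m → Fin N) → (D.sw0.BS j').M) (c' : ℂ),
      Retr D (powS s m) j' io' pi' c' := by
  induction m with
  | zero =>
    have hp : ∀ x y, powS s 0 x y = 0 := fun x y => by
      unfold powS
      exact Finset.sum_empty
    have h1 : (1 : (D.sw0.BS []).J → AA n) ∈ (D.sw0.BS []).M := (ring_BS D.sw0 []).one
    have hl : ∀ q, (D.sw0.BS []).lab q = 1 := fun q => rfl
    refine ⟨[], fun _ => ⟨1, h1⟩, fun _ => ⟨1, h1⟩, 1, ?_⟩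
    refine ⟨one_ne_zero, fun a b => ?_, fun q a => ?_, fun q b => ?_, fun q => ?_⟩
    · rw [if_pos (Subsingleton.elim a b), C_1]
      show (1 : AA n) * 1 = 1
      rw [mul_one]
    · rw [hl, one_l, fm0_zero, zero_mul]
      exact Finset.sum_eq_zero fun b _ => by rw [hp, zero_mul]
    · rw [hl, one_l, fm0_zero, zero_mul]
      exact Finset.sum_eq_zero fun b _ => by rw [hp, mul_zero]
    · rw [hl, one_u]
      exact D.W.one_mem
  | succ m ih =>
    obtain ⟨j', io', pi', c', h'⟩ := ih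
    obtain ⟨io'', pi'', h''⟩ := retr_ten h h' (t7b_inv hs m)
    obtain ⟨φ, -, hφ⟩ := powS_succ s m
    rw [hφ]
    exact ⟨_, _, _, _, retr_equiv φ h''⟩

end Pool.Agent.MTX
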