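import Pool.Agent.MTX.T7
import Pool.Agent.MTX.D.Exp2
import Pool.Agent.MTD.Int

/-! # MTX, Part T : (9.3), second half: weights of the vectors `q⁻¹ v` -/

namespace Pool.Agent.MTX

open MvPolynomial SLD
open Pool.Agent.MTD (Dat ev Idx co ev_sub_left ev_sum_left)
open Pool.Agent.MP_c45d35_ag (chi)

variable {n N : ℕ} {D : SLD n}

/-- The matrix group datum `D'` and the data `T` of sections 7, 8 belong together. -/
structure Lk (D' : Dat n N D.PRt) (T : TD D N) : Prop where
  wt : D'.wt = T.wt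
  rt : ∀ γ : D.PRt, D'.rt γ = γ.1.1
  cr : ∀ (γ : D.PRt) (μ : Fin n → ℤ), ev (D'.cr γ) μ = D.B γ.1.1 μ
  sx : D'.sx = T.sx
  px : D'.px = T.px

/-- the tensor power of a matrix -/
def powM {R : Type} [CommRing R] {m : ℕ} (M : Matrix (Fin N) (Fin N) R) :
    Matrix (Fin m → Fin N) (Fin m → Fin N) R := fun t t' => ∏ r, M (t r) (t' r)

/-- the tensor product of a family of matrices -/
def t9a_F {R : Type} [CommRing R] {m : ℕ} (M : Fin m → Matrix (Fin N) (Fin N) R) :
    Matrix (Fin m → Fin N) (Fin m → Fin N) R := fun t t' => ∏ r, M r (t r) (t' r)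

theorem t9a_F_mul {R : Type} [CommRing R] {m : ℕ} (M M' : Fin m → Matrix (Fin N) (Fin N) R) :
    t9a_F (fun r => M r * M' r) = t9a_F M * t9a_F M' := by
  ext t t'
  simp only [t9a_F, Matrix.mul_apply]
  rw [Finset.prod_univ_sum, Fintype.piFinset_univ]
  exact Finset.sum_congr rfl fun x _ => Finset.prod_mul_distrib

theorem t9a_powS {R : Type} [CommRing R] {m : ℕ} (s : Matrix (Fin N) (Fin N) R) :
    (powS s m : Matrix (Fin m → Fin N) (Fin m → Fin N) R) =
      ∑ r, t9a_F (Function.update (fun _ => (1 : Matrix (Fin N) (Fin N) R)) r s) := by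
  ext x y
  rw [Matrix.sum_apply]
  unfold powS t9a_F
  refine Finset.sum_congr rfl fun r _ => ?_
  rw [← Finset.mul_prod_erase Finset.univ _ (Finset.mem_univ r), Function.update_self]
  congr 1
  refine Finset.prod_congr rfl fun r' hr' => ?_
  rw [Function.update_of_ne (Finset.ne_of_mem_erase hr'), Matrix.one_apply]

/-- `∏_r ∑_k M (t r) k M' k (t' r) = ∑_{t''} ...` (`Finset.prod_univ_sum`, `Fintype.piFinset_univ`). -/
theorem powM_mul {R : Type} [CommRing R] {m : ℕ} (M M' : Matrix (Fin N) (Fin N) R) :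
    (powM (M * M') : Matrix (Fin m → Fin N) (Fin m → Fin N) R) = powM M * powM M' := by
  exact t9a_F_mul (fun _ => M) fun _ => M'

/-- If `M s = s' M` then `powM M * powS s = powS s' * powM M`.  Entry at `(t, t')` of both sides:
`∑_r (M s) (t r) (t' r) ∏_{r' ≠ r} M (t r') (t' r')`: sum over `t''`; the deltas of `powS` force `t'' = t'` (resp. `t`)
away from `r` (`Function.update`). -/
theorem powM_powS {R : Type} [CommRing R] {m : ℕ} {M s s' : Matrix (Fin N) (Fin N) R}
    (h : M * s = s' * M) :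
    (powM M : Matrix (Fin m → Fin N) (Fin m → Fin N) R) * powS s m = powS s' m * powM M := by
  rw [t9a_powS, t9a_powS, Matrix.mul_sum, Matrix.sum_mul]
  refine Finset.sum_congr rfl fun r _ => ?_
  have h1 : (powM M : Matrix (Fin m → Fin N) (Fin m → Fin N) R) = t9a_F (fun _ => M) := rfl
  rw [h1, ← t9a_F_mul, ← t9a_F_mul]
  congr 1
  funext r'
  by_cases hr : r' = r
  · subst hr
    rw [Function.update_self, Function.update_self, h]
  · rw [Function.update_of_ne hr, Function.update_of_ne hr, Matrix.mul_one, Matrix.one_mul]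

/-- `powS` of a diagonal matrix is diagonal with entries the sums. -/
theorem powS_diagonal {R : Type} [CommRing R] {m : ℕ} (d : Fin N → R) :
    powS (Matrix.diagonal d) m = Matrix.diagonal fun t : Fin m → Fin N => ∑ r, d (t r) := by
  ext x y
  unfold powS
  by_cases h : x = y
  · subst h
    rw [Matrix.diagonal_apply_eq]
    refine Finset.sum_congr rfl fun r _ => ?_
    rw [Matrix.diagonal_apply_eq, Finset.prod_eq_one fun r' _ => if_pos rfl, mul_one]
  · rw [Matrix.diagonal_apply_ne _ h]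
    obtain ⟨r0, hr0⟩ := Function.ne_iff.1 h
    refine Finset.sum_eq_zero fun r _ => ?_
    by_cases hr : r = r0
    · rw [hr, Matrix.diagonal_apply_ne _ hr0, zero_mul]
    · rw [Finset.prod_eq_zero (Finset.mem_erase.2 ⟨fun h' => hr h'.symm, Finset.mem_univ r0⟩)
        (if_neg hr0), mul_zero]

/-- `powM` of the torus element is diagonal with entries the characters of the sums of the weights
(`chi_add`, `Finset.prod`). -/
theorem powM_Tt (D' : Dat n N D.PRt) {m : ℕ} (t : Fin n → ℂˣ) :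
    (powM (D'.Tt t : Matrix (Fin N) (Fin N) ℂ) : Matrix (Fin m → Fin N) (Fin m → Fin N) ℂ) =
      Matrix.diagonal fun x => ((chi (∑ r, D'.wt (x r)) t : ℂˣ) : ℂ) := by
  ext x y
  unfold powM Dat.Tt
  by_cases h : x = y
  · subst h
    rw [Matrix.diagonal_apply_eq]
    have hs : ∀ s : Finset (Fin m), ∏ r ∈ s, ((chi (D'.wt (x r)) t : ℂˣ) : ℂ) =
        ((chi (∑ r ∈ s, D'.wt (x r)) t : ℂˣ) : ℂ) := by
      intro s
      classical
      induction s using Finset.induction_on with
      | empty => rw [Finset.prod_empty, Finset.sum_empty, Pool.Agent.MP_c45d35_ag.chi_zero,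
          Units.val_one]
      | insert a s ha ih => rw [Finset.prod_insert ha, Finset.sum_insert ha, ih,
          Pool.Agent.MP_c45d35_ag.chi_add, Units.val_mul]
    rw [← hs]
    exact Finset.prod_congr rfl fun r _ => Matrix.diagonal_apply_eq _ _
  · rw [Matrix.diagonal_apply_ne _ h]
    obtain ⟨r0, hr0⟩ := Function.ne_iff.1 h
    exact Finset.prod_eq_zero (Finset.mem_univ r0) (Matrix.diagonal_apply_ne _ hr0)

theorem t9a_eval_fm0 (μ : Fin n → ℤ) (x : Fin n → ℂ) : eval x (fm0 μ) = ev μ x := by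
  unfold fm0 lin ev
  rw [map_sum]
  exact Finset.sum_congr rfl fun k _ => by rw [map_mul, eval_C, eval_X]

/-- the product of the positive roots -/
noncomputable def t9a_P (D' : Dat n N D.PRt) : AA n := ∏ γ, fm0 (D'.rt γ)

theorem t9a_P_ne (D' : Dat n N D.PRt) (hrt : ∀ γ, D'.rt γ ≠ 0) : t9a_P D' ≠ 0 :=
  Finset.prod_ne_zero_iff.2 fun γ _ => fm0_ne_zero (hrt γ)

theorem t9a_eval_P (D' : Dat n N D.PRt) (x : Fin n → ℂ) :
    eval x (t9a_P D') = ∏ γ, ev (D'.rt γ) x := by
  unfold t9a_P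
  rw [map_prod]
  exact Finset.prod_congr rfl fun γ _ => t9a_eval_fm0 _ _

theorem t9a_eval_P_ne (D' : Dat n N D.PRt) (x : D'.RegX) : eval x.1 (t9a_P D') ≠ 0 := by
  rw [t9a_eval_P]
  exact Finset.prod_ne_zero_iff.2 fun γ _ => x.2 γ

/-- elements of `Rt` are polynomials divided by a power of the product of the positive roots -/
theorem t9a_frac (D' : Dat n N D.PRt) {f : D'.RegX → ℂ}
    (hf : f ∈ MTD.Rt D' (id : D'.RegX → D'.RegX) ∅) :
    ∃ (k : ℕ) (Q : AA n), ∀ x : D'.RegX, eval x.1 (t9a_P D') ^ k * f x = eval x.1 Q := by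
  classical
  unfold MTD.Rt at hf
  induction hf using Algebra.adjoin_induction with
  | mem f hf =>
    rcases hf with (hf | ⟨k, hk⟩) | ⟨β, hβ⟩
    · exact absurd hf (Set.notMem_empty f)
    · refine ⟨0, X k, fun x => ?_⟩
      rw [hk, pow_zero, one_mul, eval_X]
      rfl
    · refine ⟨1, ∏ γ ∈ Finset.univ.erase β, fm0 (D'.rt γ), fun x => ?_⟩
      have h1 : eval x.1 (t9a_P D') = ev (D'.rt β) x.1 *
          eval x.1 (∏ γ ∈ Finset.univ.erase β, fm0 (D'.rt γ)) := by
        unfold t9a_P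
        rw [← Finset.mul_prod_erase Finset.univ _ (Finset.mem_univ β), map_mul, t9a_eval_fm0]
      have h2 : f x = (ev (D'.rt β) x.1)⁻¹ := by rw [hβ]; rfl
      have h3 : ev (D'.rt β) x.1 ≠ 0 := x.2 β
      rw [h1, h2, pow_one]
      field_simp
  | algebraMap c =>
    refine ⟨0, C c, fun x => ?_⟩
    rw [pow_zero, one_mul, eval_C]
    rfl
  | add f g _ _ ihf ihg =>
    obtain ⟨k, Q, hQ⟩ := ihf
    obtain ⟨l, Q', hQ'⟩ := ihg
    refine ⟨k + l, t9a_P D' ^ l * Q + t9a_P D' ^ k * Q', fun x => ?_⟩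
    rw [map_add, map_mul, map_mul, map_pow, map_pow, ← hQ, ← hQ']
    show _ * (f x + g x) = _
    rw [pow_add]
    ring
  | mul f g _ _ ihf ihg =>
    obtain ⟨k, Q, hQ⟩ := ihf
    obtain ⟨l, Q', hQ'⟩ := ihg
    refine ⟨k + l, Q * Q', fun x => ?_⟩
    rw [map_mul, ← hQ, ← hQ']
    show _ * (f x * g x) = _
    rw [pow_add]
    ring

/-- A function in the algebra `Rt` (generated by the `x_k` and the inverses of the positive roots on the regular
points) that is killed by a nonzero linear form vanishes.  Such an `f` is continuous on the regular points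
(induction on the membership in `Algebra.adjoin`), and the regular points where the form does not vanish are dense
(the product of the form and of all positive roots is a nonzero polynomial, whose nonvanishing locus is dense;
or: multiply `f` by a power of the product of the roots to get a polynomial function vanishing on a set where
another nonzero polynomial does not vanish, `MvPolynomial.funext`). -/
theorem Rt_zero (D' : Dat n N D.PRt) (hrt : ∀ γ, D'.rt γ ≠ 0) {μ : Fin n → ℤ} (hμ : μ ≠ 0)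
    {f : D'.RegX → ℂ} (hf : f ∈ MTD.Rt D' (id : D'.RegX → D'.RegX) ∅)
    (h : ∀ x : D'.RegX, ev μ x.1 * f x = 0) : f = 0 := by
  obtain ⟨k, Q, hQ⟩ := t9a_frac D' hf
  have h1 : fm0 μ * Q * t9a_P D' = 0 := by
    apply MvPolynomial.funext
    intro x
    rw [map_mul, map_mul, map_zero]
    by_cases hx : D'.Reg x
    · have h2 := hQ ⟨x, hx⟩
      have h3 := h ⟨x, hx⟩
      rw [← h2, t9a_eval_fm0]
      linear_combination eval x (t9a_P D') ^ k * eval x (t9a_P D') * h3
    · have h2 : eval x (t9a_P D') = 0 := by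
        rw [t9a_eval_P]
        unfold Dat.Reg at hx
        push Not at hx
        obtain ⟨β, hβ⟩ := hx
        exact Finset.prod_eq_zero (Finset.mem_univ β) hβ
      rw [h2, mul_zero]
  have h2 : Q = 0 := by
    rcases mul_eq_zero.mp h1 with h3 | h3
    · rcases mul_eq_zero.mp h3 with h4 | h4
      · exact absurd h4 (fm0_ne_zero hμ)
      · exact h4
    · exact absurd h3 (t9a_P_ne D' hrt)
  funext x
  have h3 := hQ x
  rw [h2, map_zero] at h3
  rcases mul_eq_zero.mp h3 with h4 | h4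
  · exact absurd h4 (pow_ne_zero k (t9a_eval_P_ne D' x))
  · exact h4

private theorem t9a3_eval_fm0 (μ : Fin n → ℤ) (x : Fin n → ℂ) : eval x (fm0 μ) = ev μ x := by
  unfold fm0 lin ev
  rw [map_sum]
  refine Finset.sum_congr rfl fun k _ => ?_
  rw [map_mul, eval_C, eval_X]

/-- The weight lemma.  Let `powS sx v = ν v`.  `w x := powM (qC x)⁻¹ (eval x v)`.  From `qC x * Dx x = sC x * qC x`
(`qC_conj`): `(qC x)⁻¹ sC x = Dx x (qC x)⁻¹`, so by `powM_powS`, `powS_diagonal`:
`ev (∑ wt (t r)) x * w t = ev ν x * w t`.  The functions `x ↦ w x t` are in `Rt` (`Rt_qCinv`, `Rt_poly`); if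
`∑ wt (t r) ≠ ν` apply `Rt_zero` to the form `∑ wt (t r) - ν`. (`eval x (fm0 μ) = ev μ x`.) -/
theorem weight_zero {D' : Dat n N D.PRt} (A' : MTXD.Ax D') {T : TD D N} (hL : Lk D' T) {m : ℕ}
    {ν : Fin n → ℤ} {v : (Fin m → Fin N) → AA n}
    (hv : ∀ a, ∑ b, powS T.sx m a b * v b = fm0 ν * v a) (x : D'.RegX) (t : Fin m → Fin N)
    (ht : ∑ r, D'.wt (t r) ≠ ν) :
    ∑ t', powM (D'.qC x.1)⁻¹ t t' * eval x.1 (v t') = 0 := by
  classical
  have hrt : ∀ γ, D'.rt γ ≠ 0 := by
    intro γ h0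
    have h1 := γ.1.2
    rw [← hL.rt γ, h0, B_zero_left] at h1
    norm_num at h1
  have hμ : (∑ r, D'.wt (t r)) - ν ≠ 0 := sub_ne_zero.2 ht
  let f : D'.RegX → ℂ := fun y => ∑ t', powM (D'.qC y.1)⁻¹ t t' * eval y.1 (v t')
  have hf : f ∈ MTD.Rt D' (id : D'.RegX → D'.RegX) ∅ := by
    have h1 : f = ∑ t' : Fin m → Fin N, (∏ r : Fin m, fun y : D'.RegX => (D'.qC y.1)⁻¹ (t r) (t' r)) *
        fun y : D'.RegX => eval y.1 (v t') := by
      funext y
      simp only [f, powM, Finset.sum_apply, Pi.mul_apply, Finset.prod_apply]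
    rw [h1]
    refine Subalgebra.sum_mem _ fun t' _ => Subalgebra.mul_mem _ ?_ ?_
    · exact Subalgebra.prod_mem _ fun r _ =>
        MTXD.Rt_qCinv A' (id : D'.RegX → D'.RegX) ∅ (t r) (t' r)
    · exact MTD.Rt_poly (X := (id : D'.RegX → D'.RegX)) (S := ∅) (v t') (fun y => y.1)
        (MTD.Rt_x (id : D'.RegX → D'.RegX) ∅)
  have hkey : ∀ y : D'.RegX, ev ((∑ r, D'.wt (t r)) - ν) y.1 * f y = 0 := by
    intro y
    have h1 := A'.qC_conj y.2
    have h2 : (D'.qC y.1)⁻¹ * D'.sC y.1 = D'.Dx y.1 * (D'.qC y.1)⁻¹ := by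
      calc (D'.qC y.1)⁻¹ * D'.sC y.1 =
            (D'.qC y.1)⁻¹ * (D'.sC y.1 * (D'.qC y.1 * (D'.qC y.1)⁻¹)) := by
            rw [A'.mul_inv (A'.qC_isG y.1), Matrix.mul_one]
        _ = (D'.qC y.1)⁻¹ * ((D'.sC y.1 * D'.qC y.1) * (D'.qC y.1)⁻¹) := by
            rw [Matrix.mul_assoc]
        _ = (D'.qC y.1)⁻¹ * (D'.qC y.1 * D'.Dx y.1 * (D'.qC y.1)⁻¹) := by rw [h1]
        _ = ((D'.qC y.1)⁻¹ * D'.qC y.1) * D'.Dx y.1 * (D'.qC y.1)⁻¹ := by
            simp only [Matrix.mul_assoc]
        _ = D'.Dx y.1 * (D'.qC y.1)⁻¹ := by rw [A'.inv_mul (A'.qC_isG y.1), Matrix.one_mul]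
    have h3 := powM_powS (m := m) h2
    have hD : D'.Dx y.1 = Matrix.diagonal fun i => ev (D'.wt i) y.1 := rfl
    rw [hD, powS_diagonal] at h3
    have h4 : ∀ a, ∑ b, powS (D'.sC y.1) m a b * eval y.1 (v b) =
        ev ν y.1 * eval y.1 (v a) := by
      intro a
      have h5 := congrArg (eval y.1) (hv a)
      rw [map_sum, map_mul, t9a3_eval_fm0] at h5
      rw [← h5]
      refine Finset.sum_congr rfl fun b _ => ?_
      rw [map_mul]
      congr 1
      unfold powS
      rw [map_sum]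
      refine Finset.sum_congr rfl fun r _ => ?_
      rw [map_mul, map_prod, ← hL.sx]
      congr 1
      refine Finset.prod_congr rfl fun r' _ => ?_
      split_ifs
      · rw [map_one]
      · rw [map_zero]
    have h6 : ((powM (D'.qC y.1)⁻¹ : Matrix (Fin m → Fin N) (Fin m → Fin N) ℂ) *
        powS (D'.sC y.1) m).mulVec (fun b => eval y.1 (v b)) t = ev ν y.1 * f y := by
      rw [← Matrix.mulVec_mulVec]
      have h7 : (powS (D'.sC y.1) m).mulVec (fun b => eval y.1 (v b)) =
          fun a => ev ν y.1 * eval y.1 (v a) := by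
        funext a
        exact h4 a
      rw [h7]
      show ∑ t', powM (D'.qC y.1)⁻¹ t t' * (ev ν y.1 * eval y.1 (v t')) = ev ν y.1 * f y
      simp only [f]
      rw [Finset.mul_sum]
      refine Finset.sum_congr rfl fun t' _ => ?_
      ring
    rw [h3, ← Matrix.mulVec_mulVec, Matrix.mulVec_diagonal] at h6
    have h8 : (powM (D'.qC y.1)⁻¹ : Matrix (Fin m → Fin N) (Fin m → Fin N) ℂ).mulVec
        (fun b => eval y.1 (v b)) t = f y := rfl
    rw [h8] at h6
    rw [ev_sub_left, ev_sum_left, sub_mul, h6, sub_self]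
  have h0 := Rt_zero D' hrt hμ hf hkey
  exact congrFun h0 x

/-- `eval x (fm0 μ) = ev μ x` -/
theorem eval_fm0 (μ : Fin n → ℤ) (x : Fin n → ℂ) : eval x (fm0 μ) = ev μ x := by
  exact t9a_eval_fm0 μ x

/-- the point `u⁻¹ x`, with `eval x (u • f) = eval (pt u x) f` -/
noncomputable def pt (u : D.OQ) (x : Fin n → ℂ) : Fin n → ℂ := fun k => eval x (u • (X k : AA n))

theorem eval_smul (u : D.OQ) (x : Fin n → ℂ) (f : AA n) : eval x (u • f) = eval (pt u x) f := by
  induction f using MvPolynomial.induction_on with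
  | C a => rw [smul_C, eval_C, eval_C]
  | add p q hp hq => rw [smul_add, map_add, map_add, hp, hq]
  | mul_X p i hp =>
    rw [smul_mul', map_mul, map_mul, hp, eval_X]
    rfl

end Pool.Agent.MTX
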