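import Pool.Agent.MTX.T9a

/-! # MTX, Part T : (9.3), the invariant functions and their values -/

namespace Pool.Agent.MTX

open MvPolynomial SLD
open Pool.Agent.MTD (Dat ev Idx co)
open Pool.Agent.MP_c45d35_ag (chi)

variable {n N : ℕ} {D : SLD n}

/-- The word `k` of the longest element, with signs. -/
structure K0 (D : SLD n) (sg : D.OQ → ℤ) [Fintype D.W] (k : List (Option (Fin n))) : Prop where
  sg_PI : ∀ u ∈ D.W, u • D.PI = (sg u : AA n) * D.PI
  sg_sq : ∀ u ∈ D.W, sg u * sg u = 1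
  hl : ∀ p, ((D.sw0.BS k).lab p).l = 0 ∧ ((D.sw0.BS k).lab p).u ∈ D.W
  hk : ∀ (f : AA n) (hf : (D.sw0.BS k).ry f 1 ∈ (D.sw0.BS k).M),
      D.PI * D.sw0.Tr k ⟨(D.sw0.BS k).ry f 1, hf⟩ = ∑ u : D.W, (sg u.1 : AA n) * (u.1 • f)

theorem ry_one_mem (D : SLD n) (k : List (Option (Fin n))) (f : AA n) :
    (D.sw0.BS k).ry f 1 ∈ (D.sw0.BS k).M :=
  ry_BS D.sw0 k f 1 (ring_BS D.sw0 k).one

/-- the antisymmetrisation `f ↦ (∑ sg u (u (PI0 lam f))) / PI` -/
noncomputable def Rop (D : SLD n) (k : List (Option (Fin n))) (lam : Fin n → ℤ) (f : AA n) : AA n :=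
  D.sw0.Tr k ⟨(D.sw0.BS k).ry (D.PI0 lam * f) 1, ry_one_mem D k _⟩

section
variable {sg : D.OQ → ℤ} [Fintype D.W] {k : List (Option (Fin n))}

omit [Fintype D.W] in
theorem t9c_field {K : Type} [Field K] (A B c e t E0 E1 : K) (hc : c ≠ 0)
    (h : A - B = c * t) (h0 : E0 = c * e) (h1 : E1 = -(c * e)) : t / e = A / E0 + B / E1 := by
  rw [h0, h1, div_neg, ← sub_eq_add_neg, ← sub_div, h, mul_div_mul_left _ _ hc]

omit [Fintype D.W] in
theorem t9c_smul_int (u : D.OQ) (z : ℤ) : u • ((z : ℤ) : AA n) = ((z : ℤ) : AA n) :=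
  map_intCast (MulSemiringAction.toRingHom D.OQ (AA n) u) z

/-- `u (PI R) = ∑ sg v (u v (..)) = sg u ∑ sg (u v) (u v (..))` (`sg` is multiplicative on `W`: `sg_PI`, `PI ≠ 0`),
and `u PI = sg u PI`, `sg u² = 1`; cancel `PI` (`PI_ne_zero` of `T1b`, or `fm0_prime`). -/
theorem Rop_inv (hK : K0 D sg k) (lam : Fin n → ℤ) (f : AA n) {u : D.OQ} (hu : u ∈ D.W) :
    u • Rop D k lam f = Rop D k lam f := by
  have h1 := hK.hk (D.PI0 lam * f) (ry_one_mem D k _)
  obtain ⟨F, hF⟩ : ∃ F, F = D.PI0 lam * f := ⟨_, rfl⟩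
  obtain ⟨r, hr⟩ : ∃ r, r = Rop D k lam f := ⟨_, rfl⟩
  have h2 : D.PI * r = ∑ v : D.W, (sg v.1 : AA n) * (v.1 • F) := by
    rw [hr, hF]
    exact h1
  rw [← hr]
  have hPI : D.PI ≠ 0 :=
    Finset.prod_ne_zero_iff.mpr fun γ _ => fm0_ne_zero (D.Rt_ne_zero γ.1)
  have hsq : ∀ v ∈ D.W, (sg v : AA n) * (sg v : AA n) = 1 := by
    intro v hv
    rw [← Int.cast_mul, hK.sg_sq v hv, Int.cast_one]
  have hmul : ∀ v ∈ D.W, (sg (u * v) : AA n) = (sg u : AA n) * (sg v : AA n) := by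
    intro v hv
    have h3 : (u * v) • D.PI = (sg (u * v) : AA n) * D.PI := hK.sg_PI _ (mul_mem hu hv)
    rw [mul_smul, hK.sg_PI v hv, smul_mul', t9c_smul_int, hK.sg_PI u hu] at h3
    have h4 : ((sg u : AA n) * (sg v : AA n)) * D.PI = (sg (u * v) : AA n) * D.PI := by
      rw [← h3]; ring
    exact (mul_right_cancel₀ hPI h4).symm
  have h3 : (sg u : AA n) * D.PI * (u • r) = (sg u : AA n) * D.PI * r := by
    have e1 : u • (D.PI * r) = (sg u : AA n) * D.PI * (u • r) := by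
      rw [smul_mul', hK.sg_PI u hu]
    rw [← e1, h2, Finset.smul_sum, mul_assoc, h2, Finset.mul_sum]
    refine Fintype.sum_equiv (Equiv.mulLeft (⟨u, hu⟩ : D.W)) _ _ fun v => ?_
    show u • ((sg v.1 : AA n) * (v.1 • F)) = (sg u : AA n) * ((sg (u * v.1) : AA n) *
      ((u * v.1) • F))
    rw [smul_mul', t9c_smul_int, hmul v.1 v.2, mul_smul]
    linear_combination (-(sg v.1 : AA n) * (u • v.1 • F)) * hsq u hu
  have hne : (sg u : AA n) * D.PI ≠ 0 := by
    refine mul_ne_zero (fun h => ?_) hPI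
    have h4 := hsq u hu
    rw [h, mul_zero] at h4
    exact zero_ne_one h4
  exact mul_left_cancel₀ hne h3

/-- `∏_a` of lattice elements -/
noncomputable def prodM {R G : Type} [CommRing R] {L : Lat R G} (h : RingLat L) {b : ℕ}
    (m : Fin b → L.M) : L.M :=
  ⟨∏ a, (m a).1, by
    classical
    refine Finset.prod_induction _ (fun x => x ∈ L.M) (fun x y hx hy => h.mul _ hx _ hy) h.one
      fun a _ => (m a).2⟩

/-- `Tr` after a ring homomorphism to a field under which the denominators do not vanish.  From `Tr_eq` in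
`FractionRing`: `(∏ eu p) Tr m = ∑_p m p ∏_{q ≠ p} eu q` in `AA n`; apply the homomorphism and divide.  (Or repeat the
induction of `Tr_eq`.) -/
theorem eval_Tr (i : List (Option (Fin n))) (x : Fin n → ℂ)
    (hx : ∀ p, eval x (D.sw0.eu i p) ≠ 0) (m : (D.sw0.BS i).M) :
    eval x (D.sw0.Tr i m) = ∑ p, eval x (m.1 p) / eval x (D.sw0.eu i p) := by
  induction i with
  | nil =>
    have h1 : ∀ F : Unit → ℂ, ∑ p : Unit, F p = F () := fun F => Fintype.sum_unique F
    show eval x (m.1 ()) = ∑ p : Unit, eval x (m.1 p) / eval x (1 : AA n)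
    rw [h1, map_one, div_one]
  | cons s l ih =>
    have h1 : D.sw0.Tr (s :: l) m = D.sw0.Tr l (trM (D.sw0.g s) (D.sw0.BS l) (D.sw0.f_ne s) m) :=
      rfl
    have e2 : ∀ p, eval x (D.sw0.eu (s :: l) (p, false)) =
        eval x ((D.sw0.BS l).lab p • D.sw0.f s) * eval x (D.sw0.eu l p) := by
      intro p
      show eval x ((if (false : Bool) then -1 else 1) * ((D.sw0.BS l).lab p • D.sw0.f s) *
        D.sw0.eu l p) = _
      rw [map_mul, map_mul]
      simp
    have e3 : ∀ p, eval x (D.sw0.eu (s :: l) (p, true)) =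
        -(eval x ((D.sw0.BS l).lab p • D.sw0.f s) * eval x (D.sw0.eu l p)) := by
      intro p
      show eval x ((if (true : Bool) then -1 else 1) * ((D.sw0.BS l).lab p • D.sw0.f s) *
        D.sw0.eu l p) = _
      rw [map_mul, map_mul]
      simp
    have hne : ∀ p, eval x ((D.sw0.BS l).lab p • D.sw0.f s) ≠ 0 ∧
        eval x (D.sw0.eu l p) ≠ 0 := by
      intro p
      have h2 := hx (p, false)
      rw [e2] at h2
      exact mul_ne_zero_iff.mp h2
    rw [h1, ih (fun p => (hne p).2)]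
    have h2 : ∀ F : (D.sw0.BS l).J × Bool → ℂ, ∑ p, F p = ∑ p, (F (p, false) + F (p, true)) := by
      intro F
      rw [Fintype.sum_prod_type]
      apply Finset.sum_congr rfl
      intro p _
      rw [Fintype.sum_bool, add_comm]
    refine Eq.trans ?_ (h2 fun p => eval x (m.1 p) / eval x (D.sw0.eu (s :: l) p)).symm
    apply Finset.sum_congr rfl
    intro p _
    have h3 := congrArg (eval x) (trM_spec (g := D.sw0.g s) (D.sw0.f_ne s) m p)
    rw [map_sub, map_mul] at h3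
    obtain ⟨a1, a2⟩ := hne p
    exact t9c_field _ _ _ _ _ _ _ a1 h3 (e2 p) (e3 p)

/-- `eu i p` is a product of `±` forms of roots (`smul_fm0`, `OQ` acts on roots), which do not vanish at regular
points; also after applying `u`.  (A root is `γ` or `-γ` for a positive root `γ`: `pos_or_neg`.) -/
theorem eval_eu_ne (i : List (Option (Fin n))) (u : D.OQ) {x : Fin n → ℂ}
    (hx : ∀ γ : D.PRt, ev γ.1.1 x ≠ 0) (p : (D.sw0.BS i).J) :
    eval x (u • D.sw0.eu i p) ≠ 0 := by
  have hroot : ∀ δ : D.Rt, eval x (fm0 δ.1) ≠ 0 := by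
    intro δ
    rw [eval_fm0]
    rcases D.pos_or_neg δ with h | h
    · exact hx ⟨δ, h⟩
    · have h1 := hx ⟨D.ng δ, h⟩
      intro h2
      apply h1
      show ev (-δ.1) x = 0
      rw [Pool.Agent.MTD.ev_neg_left, h2, neg_zero]
  induction i with
  | nil =>
    show eval x (u • (1 : AA n)) ≠ 0
    rw [smul_one, map_one]
    exact one_ne_zero
  | cons s l ih =>
    show eval x (u • ((if p.2 then -1 else 1) * ((D.sw0.BS l).lab p.1 • D.sw0.f s) *
      D.sw0.eu l p.1)) ≠ 0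
    rw [smul_mul', smul_mul', map_mul, map_mul]
    refine mul_ne_zero (mul_ne_zero ?_ ?_) (ih p.1)
    · split_ifs
      · rw [smul_neg, smul_one, map_neg, map_one]
        exact neg_ne_zero.mpr one_ne_zero
      · rw [smul_one, map_one]
        exact one_ne_zero
    · have h1 : u • ((D.sw0.BS l).lab p.1 • D.sw0.f s) =
          fm0 (u • ((D.sw0.BS l).lab p.1).u • (D.aal s).1).1 := by
        show u • ((D.sw0.BS l).lab p.1 • (fm0 (D.aal s).1.1 : AA n)) = _
        rw [Aff_smul_A, smul_fm0, smul_fm0]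
        rfl
      rw [h1]
      exact hroot _

/-- the polynomial in the entries of `G_a` and `s` -/
noncomputable def Ptop {N m b : ℕ} (I : Fin b → Fin m → Fin N)
    (Q : (Fin b → Fin m → Fin N) → MvPolynomial (Fin N × Fin N) ℂ) :
    MvPolynomial (Idx N b) ℂ :=
  ∑ t : Fin b → Fin m → Fin N, (∏ a, ∏ r, X (Sum.inl (a, I a r, t a r))) * rename Sum.inr (Q t)

theorem t9c2_comp {σ τ : Type} (x : σ → ℂ) (f : τ → MvPolynomial σ ℂ) (p : MvPolynomial τ ℂ) :
    eval (fun i => eval x (f i)) p = eval x (aeval f p) := by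
  induction p using MvPolynomial.induction_on with
  | C a => simp
  | add p q hp hq => rw [map_add, map_add, map_add, hp, hq]
  | mul_X p i hp => rw [map_mul, map_mul, map_mul, hp, eval_X, aeval_X]

theorem eval_Ptop {N m b : ℕ} (I : Fin b → Fin m → Fin N)
    (Q : (Fin b → Fin m → Fin N) → MvPolynomial (Fin N × Fin N) ℂ)
    (G : Fin b → Matrix (Fin N) (Fin N) ℂ) (s : Matrix (Fin N) (Fin N) ℂ) :
    eval (co G s) (Ptop I Q) =
      ∑ t : Fin b → Fin m → Fin N, (∏ a, powM (G a) (I a) (t a)) *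
        eval (fun p : Fin N × Fin N => s p.1 p.2) (Q t) := by
  unfold Ptop
  rw [map_sum]
  refine Finset.sum_congr rfl fun t _ => ?_
  rw [map_mul, map_prod, eval_rename]
  congr 1
  refine Finset.prod_congr rfl fun a _ => ?_
  rw [map_prod]
  refine Finset.prod_congr rfl fun r _ => ?_
  rw [eval_X]
  rfl

/-- The value at a regular point.  `eval (sC x) (Q t) = eval x (Rop ..)` (`hQ`, `Lk.sx`), `PI(x) ≠ 0`, and by `hK.hk`
`PI(x) (Rop f)(x) = ∑_u sg u (u PI0)(x) (u f)(x)`, where `(u f)(x) = f(pt u x)` (`eval_smul`) for `f = Tr i (prodM ..)` is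
given by `eval_Tr` at `pt u x` (`eval_eu_ne`).  Exchange the sums:
`∑_t ∏_a powM .. (t a) ∏_a ψ (t a) = ∏_a ∑_t powM .. t ψ t` (`Finset.prod_univ_sum`, `Fintype.piFinset_univ`). -/
theorem value_reg (hK : K0 D sg k) {D' : Dat n N D.PRt} {T : TD D N} (hL : Lk D' T)
    (i : List (Option (Fin n))) {m b : ℕ} (lam : Fin n → ℤ)
    (ψ : (Fin m → Fin N) → (D.sw0.BS i).M) (I : Fin b → Fin m → Fin N)
    (Q : (Fin b → Fin m → Fin N) → MvPolynomial (Fin N × Fin N) ℂ)
    (hQ : ∀ t, aeval (fun p : Fin N × Fin N => T.sx p.1 p.2) (Q t) =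
      Rop D k lam (D.sw0.Tr i (prodM (ring_BS D.sw0 i) fun a => ψ (t a))))
    (G : Fin b → Matrix (Fin N) (Fin N) ℂ) (x : D'.RegX) :
    eval (co G (D'.sC x.1)) (Ptop I Q) =
      ∑ u : D.W, ∑ p, ((sg u.1 : ℂ) * eval x.1 (u.1 • D.PI0 lam) /
        (eval x.1 D.PI * eval x.1 (u.1 • D.sw0.eu i p))) *
        ∏ a, ∑ t, powM (G a) (I a) t * eval x.1 (u.1 • (ψ t).1 p) := by
  classical
  have hreg : ∀ γ : D.PRt, ev γ.1.1 x.1 ≠ 0 := by
    intro γ
    have h1 := x.2 γ
    rw [hL.rt γ] at h1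
    exact h1
  have hPI : eval x.1 D.PI ≠ 0 := by
    unfold SLD.PI
    rw [map_prod]
    refine Finset.prod_ne_zero_iff.2 fun γ _ => ?_
    rw [eval_fm0]
    exact hreg γ
  -- the value of the invariant function
  have hval : ∀ t : Fin b → Fin m → Fin N,
      eval (fun p : Fin N × Fin N => D'.sC x.1 p.1 p.2) (Q t) =
        ∑ u : D.W, ∑ p, ((sg u.1 : ℂ) * eval x.1 (u.1 • D.PI0 lam) /
          (eval x.1 D.PI * eval x.1 (u.1 • D.sw0.eu i p))) *
          ∏ a, eval x.1 (u.1 • (ψ (t a)).1 p) := by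
    intro t
    have h1 : eval (fun p : Fin N × Fin N => D'.sC x.1 p.1 p.2) (Q t) =
        eval x.1 (aeval (fun p : Fin N × Fin N => T.sx p.1 p.2) (Q t)) := by
      rw [← hL.sx]
      have h2 := t9c2_comp x.1 (fun p : Fin N × Fin N => D'.sx p.1 p.2) (Q t)
      exact h2
    rw [h1, hQ t]
    have h3 := congrArg (eval x.1) (hK.hk (D.PI0 lam *
      D.sw0.Tr i (prodM (ring_BS D.sw0 i) fun a => ψ (t a))) (ry_one_mem D k _))
    rw [map_mul, map_sum] at h3
    have h4 : eval x.1 (Rop D k lam (D.sw0.Tr i (prodM (ring_BS D.sw0 i) fun a => ψ (t a)))) =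
        (∑ u : D.W, eval x.1 ((sg u.1 : AA n) * (u.1 • (D.PI0 lam *
          D.sw0.Tr i (prodM (ring_BS D.sw0 i) fun a => ψ (t a)))))) / eval x.1 D.PI := by
      rw [eq_div_iff hPI, mul_comm]
      exact h3
    rw [h4, Finset.sum_div]
    refine Finset.sum_congr rfl fun u _ => ?_
    have h5 : eval x.1 ((sg u.1 : AA n) * (u.1 • (D.PI0 lam *
          D.sw0.Tr i (prodM (ring_BS D.sw0 i) fun a => ψ (t a))))) =
        (sg u.1 : ℂ) * eval x.1 (u.1 • D.PI0 lam) *
          eval x.1 (u.1 • D.sw0.Tr i (prodM (ring_BS D.sw0 i) fun a => ψ (t a))) := by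
      rw [smul_mul', map_mul, map_mul, map_intCast]
      ring
    have hne : ∀ p, eval (pt u.1 x.1) (D.sw0.eu i p) ≠ 0 := by
      intro p
      rw [← eval_smul]
      exact eval_eu_ne i u.1 hreg p
    rw [h5, eval_smul u.1 x.1 (D.sw0.Tr i _), eval_Tr i _ hne, Finset.mul_sum, Finset.sum_div]
    refine Finset.sum_congr rfl fun p _ => ?_
    have h6 : eval (pt u.1 x.1) ((prodM (ring_BS D.sw0 i) fun a => ψ (t a)).1 p) =
        ∏ a, eval x.1 (u.1 • (ψ (t a)).1 p) := by
      have h7 : (prodM (ring_BS D.sw0 i) fun a => ψ (t a)).1 p = ∏ a, (ψ (t a)).1 p :=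
        Finset.prod_apply p Finset.univ fun a => (ψ (t a)).1
      rw [h7, map_prod]
      refine Finset.prod_congr rfl fun a _ => ?_
      rw [eval_smul]
    have hne' := hne p
    rw [h6, ← eval_smul]
    rw [← eval_smul] at hne'
    field_simp
  rw [eval_Ptop]
  simp only [hval]
  have hswap : ∀ (u : D.W) (p : (D.sw0.BS i).J),
      ∏ a, ∑ t, powM (G a) (I a) t * eval x.1 (u.1 • (ψ t).1 p) =
        ∑ t : Fin b → Fin m → Fin N, ∏ a, (powM (G a) (I a) (t a) *
          eval x.1 (u.1 • (ψ (t a)).1 p)) := by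
    intro u p
    rw [Finset.prod_univ_sum, Fintype.piFinset_univ]
  simp only [hswap, Finset.mul_sum]
  rw [Finset.sum_comm]
  refine Finset.sum_congr rfl fun u _ => ?_
  rw [Finset.sum_comm]
  refine Finset.sum_congr rfl fun p _ => ?_
  refine Finset.sum_congr rfl fun t _ => ?_
  rw [Finset.prod_mul_distrib]
  ring

end

end Pool.Agent.MTX
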