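import Pool.Agent.MTX.T9c

/-! # MTX, Part T : (9.3), the expansion in torus weights -/

namespace Pool.Agent.MTX

open MvPolynomial SLD
open Pool.Agent.MTD (Dat ev Idx co XX cf supp Phi IsLead InvP)
open Pool.Agent.MP_c45d35_ag (chi)

variable {n N : ℕ} {D : SLD n}

/-- The data of (9.3): everything that goes into the construction of the top element. -/
structure Top (D : SLD n) (D' : Dat n N D.PRt) (T : TD D N) (sg : D.OQ → ℤ) [Fintype D.W]
    (k i : List (Option (Fin n))) {m b : ℕ} (lam : Fin n → ℤ)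
    (ψ : (Fin m → Fin N) → (D.sw0.BS i).M)
    (Q : (Fin b → Fin m → Fin N) → MvPolynomial (Fin N × Fin N) ℂ) : Prop where
  A' : MTXD.Ax D'
  A : TAx T
  hL : Lk D' T
  hK : K0 D sg k
  hψ : ∀ p a, ∑ b, powS T.sx m a b * (ψ b).1 p = fm0 ((D.sw0.BS i).lab p).l * (ψ a).1 p
  hQ : ∀ t, aeval (fun p : Fin N × Fin N => T.sx p.1 p.2) (Q t) =
      Rop D k lam (D.sw0.Tr i (prodM (ring_BS D.sw0 i) fun a => ψ (t a)))

section
variable {D' : Dat n N D.PRt} {T : TD D N} {sg : D.OQ → ℤ} [Fintype D.W]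
  {k i : List (Option (Fin n))} {m b : ℕ} {lam : Fin n → ℤ}
  {ψ : (Fin m → Fin N) → (D.sw0.BS i).M}

/-- the coefficient of the pair `(u, p)` -/
noncomputable def cup (D : SLD n) (sg : D.OQ → ℤ) (i : List (Option (Fin n))) (lam : Fin n → ℤ)
    (u : D.OQ) (p : (D.sw0.BS i).J) (x : Fin n → ℂ) : ℂ :=
  (sg u : ℂ) * eval x (u • D.PI0 lam) / (eval x D.PI * eval x (u • D.sw0.eu i p))

/-- the matrix coefficient of the vector `ψ p` moved by `u` -/
noncomputable def pup (i : List (Option (Fin n))) {m : ℕ} (ψ : (Fin m → Fin N) → (D.sw0.BS i).M)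
    (G : Matrix (Fin N) (Fin N) ℂ) (I : Fin m → Fin N) (u : D.OQ) (p : (D.sw0.BS i).J)
    (x : Fin n → ℂ) : ℂ :=
  ∑ t, powM G I t * eval x (u • (ψ t).1 p)

omit [Fintype D.W] in
theorem t9d1_powS (A : TAx T) {u : D.OQ} (hu : u ∈ D.W) (a c : Fin m → Fin N) :
    MulSemiringAction.toRingHom D.OQ (AA n) u (powS T.sx m a c) = powS T.sx m a c := by
  unfold powS
  rw [map_sum]
  refine Finset.sum_congr rfl fun r _ => ?_
  rw [map_mul, map_prod]
  congr 1
  · exact A.sx_inv u hu _ _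
  · refine Finset.prod_congr rfl fun r' _ => ?_
    split_ifs
    · exact map_one _
    · exact map_zero _

/-- Torus action: `u ψ(p)` is an eigenvector of `powS sx` with eigenvalue `u ν_p` (apply `u` to `hψ`; `sx_inv`),
so by `weight_zero` `powM (q⁻¹) (eval x (u ψ(p)))` is supported in the total weight `u ν_p`, and
`powM (g * Tt t * q⁻¹) = powM g * powM (Tt t) * powM q⁻¹` (`powM_mul`, `powM_Tt`). -/
theorem pup_torus {Q : (Fin b → Fin m → Fin N) → MvPolynomial (Fin N × Fin N) ℂ}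
    (h : Top D D' T sg k i lam ψ Q) (g : Matrix (Fin N) (Fin N) ℂ) (I : Fin m → Fin N) {u : D.OQ}
    (hu : u ∈ D.W) (p : (D.sw0.BS i).J) (x : D'.RegX) (t : Fin n → ℂˣ) :
    pup i ψ (g * D'.Tt t * (D'.qC x.1)⁻¹) I u p x.1 =
      ((chi (u.1 ((D.sw0.BS i).lab p).l) t : ℂˣ) : ℂ) * pup i ψ (g * (D'.qC x.1)⁻¹) I u p x.1 := by
  classical
  have hv : ∀ a, ∑ b, powS T.sx m a b * (u • (ψ b).1 p) =
      fm0 (u.1 ((D.sw0.BS i).lab p).l) * (u • (ψ a).1 p) := by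
    intro a
    have h1 := congrArg (MulSemiringAction.toRingHom D.OQ (AA n) u) (h.hψ p a)
    rw [map_sum, map_mul] at h1
    have h2 : MulSemiringAction.toRingHom D.OQ (AA n) u (fm0 ((D.sw0.BS i).lab p).l) =
        fm0 (u.1 ((D.sw0.BS i).lab p).l) := D.smul_fm0 u _
    rw [h2] at h1
    refine Eq.trans (Finset.sum_congr rfl fun b _ => ?_) h1
    rw [map_mul, t9d1_powS h.A hu a b]
    rfl
  have hW := fun (s : Fin m → Fin N) (hs : ∑ r, D'.wt (s r) ≠ u.1 ((D.sw0.BS i).lab p).l) =>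
    weight_zero h.A' h.hL hv x s hs
  have e1 : ∀ M : Matrix (Fin N) (Fin N) ℂ, pup i ψ (M * (D'.qC x.1)⁻¹) I u p x.1 =
      ∑ s, powM M I s * ∑ t', powM (D'.qC x.1)⁻¹ s t' * eval x.1 (u • (ψ t').1 p) := by
    intro M
    unfold pup
    rw [powM_mul]
    simp only [Matrix.mul_apply, Finset.sum_mul, Finset.mul_sum]
    rw [Finset.sum_comm]
    refine Finset.sum_congr rfl fun s _ => Finset.sum_congr rfl fun t' _ => ?_
    ring
  rw [e1, e1, powM_mul, powM_Tt D' t, Finset.mul_sum]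
  refine Finset.sum_congr rfl fun s _ => ?_
  rw [Matrix.mul_diagonal]
  by_cases hs : ∑ r, D'.wt (s r) = u.1 ((D.sw0.BS i).lab p).l
  · rw [hs]
    ring
  · rw [hW s hs]
    ring

/-- The coefficient functions.  `value_reg` at the point `(g_0 T q⁻¹, g_a q⁻¹; s(x))` with `pup_torus` for `a = 0` gives
`Phi P y t = ∑_u ∑_p cup * ∏_a pup * chi (u ν_p) t`; collect by the weights and apply `cf_unique` with the finset
`supp ∪ {u ν_p}` (for `μ` outside it both sides vanish, `cf_eq_zero`). -/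
theorem cf_Ptop {Q : (Fin (b + 1) → Fin m → Fin N) → MvPolynomial (Fin N × Fin N) ℂ}
    (h : Top D D' T sg k i lam ψ Q) (I : Fin (b + 1) → Fin m → Fin N) (μ : Fin n → ℤ)
    (y : XX D' (b + 1)) :
    cf D' (Ptop I Q) μ y = ∑ u : D.W, ∑ p, open Classical in
      if u.1.1 ((D.sw0.BS i).lab p).l = μ then
        cup D sg i lam u.1 p y.2.1 *
          ∏ a, pup i ψ ((y.1 a).1 * (D'.qC y.2.1)⁻¹) (I a) u.1 p y.2.1 else 0 := by
  classical
  obtain ⟨val, hval⟩ : ∃ val : D.W → (D.sw0.BS i).J → ℂ, ∀ u p, val u p =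
      cup D sg i lam u.1 p y.2.1 *
        ∏ a, pup i ψ ((y.1 a).1 * (D'.qC y.2.1)⁻¹) (I a) u.1 p y.2.1 := ⟨_, fun _ _ => rfl⟩
  obtain ⟨nu, hnu⟩ : ∃ nu : D.W → (D.sw0.BS i).J → (Fin n → ℤ), ∀ u p, nu u p =
      u.1.1 ((D.sw0.BS i).lab p).l := ⟨_, fun _ _ => rfl⟩
  have hPhi : ∀ t, MTD.Phi D' (Ptop I Q) y t =
      ∑ u : D.W, ∑ p, val u p * ((chi (nu u p) t : ℂˣ) : ℂ) := by
    intro t
    unfold MTD.Phi
    rw [value_reg h.hK h.hL i lam ψ I Q h.hQ _ y.2]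
    refine Finset.sum_congr rfl fun u _ => Finset.sum_congr rfl fun p _ => ?_
    have h0 := pup_torus h (y.1 0).1 (I 0) u.2 p y.2 t
    have hprod : (∏ a, ∑ s, powM ((y.1 a).1 * (if a = 0 then D'.Tt t else 1) *
        (D'.qC y.2.1)⁻¹) (I a) s * eval y.2.1 (u.1 • (ψ s).1 p)) =
        ((chi (nu u p) t : ℂˣ) : ℂ) *
          ∏ a, pup i ψ ((y.1 a).1 * (D'.qC y.2.1)⁻¹) (I a) u.1 p y.2.1 := by
      rw [Fin.prod_univ_succ, Fin.prod_univ_succ]
      have h1 : (∑ s, powM ((y.1 0).1 * (if (0 : Fin (b + 1)) = 0 then D'.Tt t else 1) *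
          (D'.qC y.2.1)⁻¹) (I 0) s * eval y.2.1 (u.1 • (ψ s).1 p)) =
          ((chi (nu u p) t : ℂˣ) : ℂ) *
            pup i ψ ((y.1 0).1 * (D'.qC y.2.1)⁻¹) (I 0) u.1 p y.2.1 := by
        rw [if_pos rfl, hnu]
        exact h0
      rw [h1, mul_assoc]
      congr 1
      congr 1
      refine Finset.prod_congr rfl fun a _ => ?_
      rw [if_neg (Fin.succ_ne_zero a), Matrix.mul_one]
      rfl
    rw [hprod, hval]
    unfold cup
    ring
  obtain ⟨s, hs1, hs2⟩ : ∃ s : Finset (Fin n → ℤ), supp D' (Ptop I Q) ⊆ s ∧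
      ∀ u p, nu u p ∈ s := by
    refine ⟨supp D' (Ptop I Q) ∪ Finset.univ.image (fun q : D.W × (D.sw0.BS i).J => nu q.1 q.2),
      Finset.subset_union_left, fun u p => ?_⟩
    exact Finset.mem_union_right _ (Finset.mem_image.2 ⟨(u, p), Finset.mem_univ _, rfl⟩)
  have hc : ∀ t, MTD.Phi D' (Ptop I Q) y t =
      ∑ μ ∈ s, (∑ u : D.W, ∑ p, if nu u p = μ then val u p else 0) *
        ((chi μ t : ℂˣ) : ℂ) := by
    intro t
    rw [hPhi t]
    simp only [Finset.sum_mul]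
    symm
    rw [Finset.sum_comm]
    refine Finset.sum_congr rfl fun u _ => ?_
    rw [Finset.sum_comm]
    refine Finset.sum_congr rfl fun p _ => ?_
    rw [Finset.sum_eq_single (nu u p)]
    · rw [if_pos rfl]
    · intro μ' _ hne
      rw [if_neg (Ne.symm hne), zero_mul]
    · intro hn
      exact absurd (hs2 u p) hn
  have hfin : cf D' (Ptop I Q) μ y = ∑ u : D.W, ∑ p, if nu u p = μ then val u p else 0 := by
    by_cases hμ : μ ∈ s
    · exact MTD.cf_unique hs1 y (fun μ => ∑ u : D.W, ∑ p, if nu u p = μ then val u p else 0)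
        hc μ hμ
    · rw [MTD.cf_eq_zero (fun h' => hμ (hs1 h')), Pi.zero_apply]
      symm
      refine Finset.sum_eq_zero fun u _ => Finset.sum_eq_zero fun p _ => ?_
      rw [if_neg]
      intro h'
      exact hμ (h' ▸ hs2 u p)
  rw [hfin]
  refine Finset.sum_congr rfl fun u _ => Finset.sum_congr rfl fun p _ => ?_
  by_cases hh : nu u p = μ
  · have hh' : u.1.1 ((D.sw0.BS i).lab p).l = μ := (hnu u p).symm.trans hh
    rw [if_pos hh, if_pos hh', hval]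
  · have hh' : ¬ u.1.1 ((D.sw0.BS i).lab p).l = μ := fun h' => hh ((hnu u p).trans h')
    rw [if_neg hh, if_neg hh']

/-- Every weight in the support is `u ν_p`, and all `u ν_p` are coordinatewise `≤ λ` (`hdom`), so `≤` for `toLex`
(`Pi.toLex_mono`/`toLex_monotone`). -/
theorem isLead_Ptop {Q : (Fin (b + 1) → Fin m → Fin N) → MvPolynomial (Fin N × Fin N) ℂ}
    (h : Top D D' T sg k i lam ψ Q) (I : Fin (b + 1) → Fin m → Fin N)
    (hdom : ∀ p, ∀ u ∈ D.W, ∀ l, u.1 ((D.sw0.BS i).lab p).l l ≤ lam l) :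
    (∀ κ ∈ supp D' (Ptop I Q), ∀ l, κ l ≤ lam l) ∧ IsLead D' (Ptop I Q) lam := by
  have h1 : ∀ κ ∈ supp D' (Ptop I Q), ∀ l, κ l ≤ lam l := by
    intro κ hκ l
    obtain ⟨y, hy⟩ := MTD.mem_supp.1 hκ
    rw [cf_Ptop h I κ y] at hy
    obtain ⟨u, _, hu⟩ := Finset.exists_ne_zero_of_sum_ne_zero hy
    obtain ⟨p, _, hp⟩ := Finset.exists_ne_zero_of_sum_ne_zero hu
    by_cases he : u.1.1 ((D.sw0.BS i).lab p).l = κ
    · rw [← he]
      exact hdom p u.1 u.2 l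
    · exact absurd (if_neg he) hp
  exact ⟨h1, fun κ hκ => Pi.toLex_monotone (h1 κ hκ)⟩

/-- Invariance at a regular point: `h_a = q Tt(t_a) q⁻¹` (`cent` for `q⁻¹ h_a q`, which commutes with `Dx`:
`qC_conj`).  `∏ h_a = 1` gives `Tt (∏ t_a) = 1`, so `∏ t_a = 1` (`wt_std`).  By `value_reg` it suffices that
`∏_a pup (g_a h_a) = ∏_a pup (g_a)`, and `pup (g_a q Tt(t_a) q⁻¹) = chi (u ν_p) (t_a) pup (g_a)` (`pup_torus` with
`g = g_a q`); `∏_a chi (..) (t_a) = chi (..) (∏ t_a) = 1`.  (`prod_ofFn_conj`.) -/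
theorem inv_reg {Q : (Fin b → Fin m → Fin N) → MvPolynomial (Fin N × Fin N) ℂ}
    (h : Top D D' T sg k i lam ψ Q) (I : Fin b → Fin m → Fin N)
    (g g' hh : Fin b → Matrix (Fin N) (Fin N) ℂ) (x : D'.RegX)
    (hh1 : ∀ a, D'.IsG (hh a) ∧ Commute (hh a) (D'.sC x.1))
    (hh2 : (List.ofFn hh).prod = 1) (hg : ∀ a, g' a = g a * hh a) :
    eval (co g' (D'.sC x.1)) (Ptop I Q) = eval (co g (D'.sC x.1)) (Ptop I Q) := by
  classical
  have A' := h.A'
  have hq := A'.qC_isG x.1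
  have hconj := A'.qC_conj x.2
  have hqi : (D'.qC x.1)⁻¹ * D'.sC x.1 = D'.Dx x.1 * (D'.qC x.1)⁻¹ := by
    calc (D'.qC x.1)⁻¹ * D'.sC x.1
        = (D'.qC x.1)⁻¹ * ((D'.sC x.1 * D'.qC x.1) * (D'.qC x.1)⁻¹) := by
          rw [Matrix.mul_assoc, A'.mul_inv hq, Matrix.mul_one]
      _ = ((D'.qC x.1)⁻¹ * D'.qC x.1) * D'.Dx x.1 * (D'.qC x.1)⁻¹ := by
          rw [← hconj]
          simp only [Matrix.mul_assoc]
      _ = D'.Dx x.1 * (D'.qC x.1)⁻¹ := by rw [A'.inv_mul hq, Matrix.one_mul]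
  have hex : ∀ a, ∃ t : Fin n → ℂˣ, (D'.qC x.1)⁻¹ * hh a * D'.qC x.1 = D'.Tt t := by
    intro a
    refine A'.cent _ x.1 (A'.mul _ _ (A'.mul _ _ (A'.inv _ hq) (hh1 a).1) hq) x.2 ?_
    have hc : hh a * D'.sC x.1 = D'.sC x.1 * hh a := (hh1 a).2
    change (D'.qC x.1)⁻¹ * hh a * D'.qC x.1 * D'.Dx x.1 =
      D'.Dx x.1 * ((D'.qC x.1)⁻¹ * hh a * D'.qC x.1)
    calc (D'.qC x.1)⁻¹ * hh a * D'.qC x.1 * D'.Dx x.1
        = (D'.qC x.1)⁻¹ * (hh a * D'.sC x.1) * D'.qC x.1 := by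
          rw [Matrix.mul_assoc _ (D'.qC x.1) (D'.Dx x.1), hconj]
          simp only [Matrix.mul_assoc]
      _ = ((D'.qC x.1)⁻¹ * D'.sC x.1) * hh a * D'.qC x.1 := by
          rw [hc]
          simp only [Matrix.mul_assoc]
      _ = D'.Dx x.1 * ((D'.qC x.1)⁻¹ * hh a * D'.qC x.1) := by
          rw [hqi]
          simp only [Matrix.mul_assoc]
  choose t ht using hex
  have hh3 : ∀ a, hh a = D'.qC x.1 * D'.Tt (t a) * (D'.qC x.1)⁻¹ := by
    intro a
    rw [← ht a]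
    calc hh a = (D'.qC x.1 * (D'.qC x.1)⁻¹) * hh a * (D'.qC x.1 * (D'.qC x.1)⁻¹) := by
          rw [A'.mul_inv hq, Matrix.one_mul, Matrix.mul_one]
      _ = _ := by simp only [Matrix.mul_assoc]
  have hprod : ∏ a, t a = 1 := by
    have h1 : (List.ofFn hh).prod = D'.qC x.1 * D'.Tt (∏ a, t a) * (D'.qC x.1)⁻¹ := by
      rw [← MTXD.prod_ofFn_conj A' _ hq t]
      congr 2
      funext a
      exact hh3 a
    rw [hh2] at h1
    have h2 : D'.Tt (∏ a, t a) = (1 : Matrix (Fin N) (Fin N) ℂ) := by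
      calc (D'.Tt (∏ a, t a) : Matrix (Fin N) (Fin N) ℂ)
          = ((D'.qC x.1)⁻¹ * D'.qC x.1) * D'.Tt (∏ a, t a) * ((D'.qC x.1)⁻¹ * D'.qC x.1) := by
            rw [A'.inv_mul hq, Matrix.one_mul, Matrix.mul_one]
        _ = (D'.qC x.1)⁻¹ * (D'.qC x.1 * D'.Tt (∏ a, t a) * (D'.qC x.1)⁻¹) * D'.qC x.1 := by
            simp only [Matrix.mul_assoc]
        _ = 1 := by rw [← h1, Matrix.mul_one, A'.inv_mul hq]
    funext k
    obtain ⟨j, hj⟩ := A'.wt_std k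
    have h3 := congrFun (congrFun h2 j) j
    unfold Dat.Tt at h3
    rw [Matrix.diagonal_apply_eq, Matrix.one_apply_eq, hj] at h3
    have h4 : chi (Pi.single k 1) (∏ a, t a) = (∏ a, t a) k := by
      unfold chi
      rw [Finset.prod_eq_single k]
      · simp
      · intro l _ hl
        rw [Pi.single_eq_of_ne hl, zpow_zero]
      · intro hk
        exact absurd (Finset.mem_univ k) hk
    rw [h4] at h3
    exact Units.ext h3
  rw [value_reg h.hK h.hL i lam ψ I Q h.hQ g' x, value_reg h.hK h.hL i lam ψ I Q h.hQ g x]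
  refine Finset.sum_congr rfl fun u _ => Finset.sum_congr rfl fun p _ => ?_
  congr 1
  have h5 : ∀ a, ∑ t', powM (g' a) (I a) t' * eval x.1 (u.1 • (ψ t').1 p) =
      ((chi (u.1.1 ((D.sw0.BS i).lab p).l) (t a) : ℂˣ) : ℂ) *
        ∑ t', powM (g a) (I a) t' * eval x.1 (u.1 • (ψ t').1 p) := by
    intro a
    have h6 := pup_torus h (g a * D'.qC x.1) (I a) u.2 p x (t a)
    have h7 : g a * D'.qC x.1 * D'.Tt (t a) * (D'.qC x.1)⁻¹ = g' a := by
      rw [hg a, hh3 a]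
      simp only [Matrix.mul_assoc]
    have h8 : g a * D'.qC x.1 * (D'.qC x.1)⁻¹ = g a := by
      rw [Matrix.mul_assoc, A'.mul_inv hq, Matrix.mul_one]
    rw [h7, h8] at h6
    exact h6
  simp only [h5]
  rw [Finset.prod_mul_distrib]
  have h9 : ∏ a, ((chi (u.1.1 ((D.sw0.BS i).lab p).l) (t a) : ℂˣ) : ℂ) = 1 := by
    have h10 : ∏ a, chi (u.1.1 ((D.sw0.BS i).lab p).l) (t a) =
        chi (u.1.1 ((D.sw0.BS i).lab p).l) (∏ a, t a) := by
      induction (Finset.univ : Finset (Fin b)) using Finset.induction_on with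
      | empty => simp [MP_c45d35_ag.chi_one]
      | insert a s ha ih =>
        rw [Finset.prod_insert ha, Finset.prod_insert ha, MP_c45d35_ag.chi_mul, ih]
    rw [← Units.coe_prod, h10, hprod, MP_c45d35_ag.chi_one]
    rfl
  rw [h9, one_mul]

end

end Pool.Agent.MTX
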